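import Pool.Agent.Work.MP_df302a_co.Defs

/-!
# MP_df302a_co : the geometric symmetry group and the geometric convex polytope dimension

The same notions as `GeomSym` and `gcpd` of `Defs.lean`, written over a named type `Aff d` for the
affine bijections of `R^d`, so that the final statement prints in a short form.
-/

set_option autoImplicit false

namespace Pool.Agent.DF302A.Final

/-- the affine bijections of `R^d` -/
def Aff (d : ℕ) : Type := EuclideanSpace ℝ (Fin d) ≃ᵃ[ℝ] EuclideanSpace ℝ (Fin d)

/-- the affine bijections of `R^d` form a group under composition -/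
noncomputable instance instGroupAff (d : ℕ) : Group (Aff d) :=
  AffineEquiv.group (k := ℝ) (P₁ := EuclideanSpace ℝ (Fin d)) (V₁ := EuclideanSpace ℝ (Fin d))

/-- the bijection of `R^d` underlying an affine bijection -/
def Aff.toBij {d : ℕ} (T : Aff d) : EuclideanSpace ℝ (Fin d) ≃ EuclideanSpace ℝ (Fin d) :=
  AffineEquiv.toEquiv T

theorem image_mul {d : ℕ} {P : Set (EuclideanSpace ℝ (Fin d))} {a b : Aff d}
    (ha : a.toBij '' P = P) (hb : b.toBij '' P = P) : (a * b).toBij '' P = P := by
  have h : ((a * b).toBij : EuclideanSpace ℝ (Fin d) → EuclideanSpace ℝ (Fin d)) =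
      a.toBij ∘ b.toBij := rfl
  rw [h, Set.image_comp, hb, ha]

theorem image_one {d : ℕ} {P : Set (EuclideanSpace ℝ (Fin d))} : (1 : Aff d).toBij '' P = P := by
  have h : ((1 : Aff d).toBij : EuclideanSpace ℝ (Fin d) → EuclideanSpace ℝ (Fin d)) = id := rfl
  rw [h, Set.image_id]

theorem image_inv {d : ℕ} {P : Set (EuclideanSpace ℝ (Fin d))} {a : Aff d}
    (ha : a.toBij '' P = P) : (a⁻¹).toBij '' P = P := by
  have h : ∀ x, (a⁻¹).toBij (a.toBij x) = x := fun x => a.toBij.symm_apply_apply x
  conv_lhs => rw [← ha]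
  rw [← Set.image_comp]
  have h2 : ((a⁻¹).toBij : EuclideanSpace ℝ (Fin d) → EuclideanSpace ℝ (Fin d)) ∘ a.toBij = id :=
    funext h
  rw [h2, Set.image_id]

/-- the geometric symmetry group: the affine bijections of `R^d` that map `P` onto itself -/
def GeomSym {d : ℕ} (P : Set (EuclideanSpace ℝ (Fin d))) : Subgroup (Aff d) where
  carrier := {T | T.toBij '' P = P}
  mul_mem' := image_mul
  one_mem' := image_one
  inv_mem' := image_inv

/-- geometric convex polytope dimension of a group -/
noncomputable def gcpd (Γ : Type) [Group Γ] : ℕ∞ :=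
  sInf {n | ∃ d : ℕ, n = d ∧ ∃ P : Set (EuclideanSpace ℝ (Fin d)), IsPolytope P ∧
    Nonempty (GeomSym P ≃* Γ)}

/-- it is the same as the `gcpd` of `Defs.lean` -/
theorem gcpd_eq (Γ : Type) [Group Γ] : gcpd Γ = Pool.Agent.DF302A.gcpd Γ := rfl

end Pool.Agent.DF302A.Final
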