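import Pool.Agent.Work.MP_df302a_co.PL

/-!
# MP_df302a_co : a criterion for piecewise linear functions

A function which is linear on each of finitely many sets that cover the space and are closed along
lines is piecewise linear (a maximum of finitely many linear functionals minus another one).
-/

namespace Pool.Agent.DF302A

open Finset Filter Topology

theorem one_var {J : Type*} [Finite J] {g : ℝ → ℝ} (hg : Continuous g) (a b : J → ℝ)
    (h : ∀ s, ∃ j, g s = a j + s * b j) : ∃ j, a j ≤ g 0 ∧ g 1 ≤ a j + b j := by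
  by_contra hc
  push Not at hc
  have key : ∀ j, a j ≤ g 0 → ∀ s, 0 < s → s ≤ 1 → a j + s * b j < g 0 + s * (g 1 - g 0) := by
    intro j hj s h0 h1
    have h2 := hc j hj
    nlinarith [mul_nonneg (sub_nonneg.2 h1) (sub_nonneg.2 hj), mul_pos h0 (sub_pos.2 h2)]
  have freq : ∀ (l : Filter ℝ) (s1 : ℝ), l.NeBot → l ≤ 𝓝 s1 →
      ∃ j, (∃ᶠ s in l, g s = a j + s * b j) ∧ g s1 = a j + s1 * b j := by
    intro l s1 hl hle
    obtain ⟨j, hj⟩ : ∃ j, ∃ᶠ s in l, g s = a j + s * b j := by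
      by_contra hn
      push Not at hn
      have h2 := Filter.eventually_all.2 hn
      obtain ⟨s, hs⟩ := h2.exists
      obtain ⟨j, hj⟩ := h s
      exact hs j hj
    refine ⟨j, hj, ?_⟩
    have hcl : IsClosed {s | g s = a j + s * b j} := isClosed_eq hg (by fun_prop)
    exact hcl.mem_of_frequently_of_tendsto hj hle
  set S : Set ℝ := {s | 0 < s ∧ s ≤ 1 ∧ g 0 + s * (g 1 - g 0) ≤ g s} with hS
  have h1S : (1 : ℝ) ∈ S := ⟨one_pos, le_rfl, by linarith⟩
  have hbd : BddBelow S := ⟨0, fun s hs => hs.1.le⟩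
  set s1 := sInf S with hs1
  have h0 : 0 ≤ s1 := le_csInf ⟨1, h1S⟩ fun s hs => hs.1.le
  have h1 : s1 ≤ 1 := csInf_le hbd h1S
  have hclo : s1 ∈ closure S := csInf_mem_closure ⟨1, h1S⟩ hbd
  have hne : (𝓝[S] s1).NeBot := mem_closure_iff_nhdsWithin_neBot.1 hclo
  rcases h0.lt_or_eq with h0 | h0
  · have hs1S : g 0 + s1 * (g 1 - g 0) ≤ g s1 := by
      have hcl : IsClosed {s | g 0 + s * (g 1 - g 0) ≤ g s} := isClosed_le (by fun_prop) hg
      exact closure_minimal (fun s hs => hs.2.2) hcl hclo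
    obtain ⟨j, hj, hj'⟩ := freq (𝓝[<] s1) s1 inferInstance nhdsWithin_le_nhds
    have h2 : ∀ᶠ s in 𝓝[<] s1, s ∈ Set.Ioo 0 s1 := Ioo_mem_nhdsLT h0
    obtain ⟨s, hs, hs0, hs2⟩ := (hj.and_eventually h2).exists
    have h3 : s ∉ S := fun hh => absurd (csInf_le hbd hh) (not_le.2 hs2)
    have h4 : g s < g 0 + s * (g 1 - g 0) := by
      by_contra h5
      exact h3 ⟨hs0, hs2.le.trans h1, not_lt.1 h5⟩
    rcases le_or_gt (a j) (g 0) with h6 | h6
    · have := key j h6 s1 h0 h1
      rw [← hj'] at this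
      exact absurd hs1S (not_le.2 this)
    · rw [hs] at h4
      rw [hj'] at hs1S
      have h7 : s1 * (a j + s * b j) < s1 * (g 0 + s * (g 1 - g 0)) :=
        mul_lt_mul_of_pos_left h4 h0
      nlinarith [mul_le_mul_of_nonneg_left hs1S hs0.le, mul_pos (sub_pos.2 hs2) (sub_pos.2 h6)]
  · obtain ⟨j, hj, hj'⟩ := freq (𝓝[S] s1) s1 hne nhdsWithin_le_nhds
    obtain ⟨s, hs, hsS⟩ := (hj.and_eventually self_mem_nhdsWithin).exists
    rw [← h0] at hj'
    have h5 : a j ≤ g 0 := by rw [hj']; simp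
    have h6 := key j h5 s hsS.1 hsS.2.1
    rw [← hs] at h6
    exact absurd hsS.2.2 (not_le.2 h6)

variable {V W : Type*} [AddCommGroup V] [Module ℝ V] [AddCommGroup W] [Module ℝ W]

theorem isPL_of_lines {F : V → ℝ} {J : Type*} [Fintype J] (l : J → (V →ₗ[ℝ] ℝ))
    (hl : ∀ y, ∃ j, F y = l j y) (hc : ∀ x d : V, Continuous fun s : ℝ => F (x + s • d)) :
    IsPL F := by
  classical
  have hkey : ∀ x y, ∃ j, l j x ≤ F x ∧ F y ≤ l j y := by
    intro x y
    have h1 := one_var (hc x (y - x)) (fun j => l j x) (fun j => l j (y - x)) fun s => by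
      obtain ⟨j, hj⟩ := hl (x + s • (y - x))
      exact ⟨j, by rw [hj, map_add, map_smul, smul_eq_mul]⟩
    obtain ⟨j, h2, h3⟩ := h1
    refine ⟨j, ?_, ?_⟩
    · simpa using h2
    · simpa using h3
  set Sy : V → Finset J := fun y => Finset.univ.filter fun j => F y ≤ l j y with hSy
  have hne : ∀ y, (Sy y).Nonempty := fun y => by
    obtain ⟨j, hj⟩ := hl y
    exact ⟨j, by simp [hSy, hj]⟩
  set T : Finset (Finset J) := Finset.univ.filter fun S => ∃ y, Sy y = S with hT
  have hTne : T.Nonempty := ⟨Sy 0, by simp [hT]⟩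
  set f : Finset J → V → ℝ := fun S x => if h : S.Nonempty then S.inf' h (fun j => l j x) else 0
    with hf
  have hf1 : ∀ S ∈ T, IsPL (f S) := by
    intro S hS
    obtain ⟨y, rfl⟩ := (Finset.mem_filter.1 hS).2
    have : f (Sy y) = fun x => (Sy y).inf' (hne y) (fun j => l j x) := by
      funext x
      simp only [hf]
      rw [dif_pos (hne y)]
    rw [this]
    exact IsPL.inf' _ (hne y) fun j _ => IsPL.lin (l j)
  refine (IsPL.sup' T hTne hf1).congr fun x => ?_
  apply le_antisymm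
  · refine Finset.sup'_le _ _ fun S hS => ?_
    obtain ⟨y, rfl⟩ := (Finset.mem_filter.1 hS).2
    simp only [hf]
    rw [dif_pos (hne y)]
    obtain ⟨j, h1, h2⟩ := hkey x y
    exact (Finset.inf'_le _ (by simp [hSy, h2])).trans h1
  · have h1 : Sy x ∈ T := by simp [hT]
    refine le_trans ?_ (Finset.le_sup' (fun S => f S x) h1)
    simp only [hf]
    rw [dif_pos (hne x)]
    refine Finset.le_inf' _ _ fun j hj => ?_
    exact (Finset.mem_filter.1 hj).2

/-- a function which is linear on the members of a finite cover by sets closed along lines -/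
theorem isPL_cover {F : V → ℝ} {J : Type*} [Fintype J] (C : J → Set V)
    (hC : ∀ y, ∃ j, y ∈ C j) (hcl : ∀ j (x d : V), IsClosed {s : ℝ | x + s • d ∈ C j})
    (hl : ∀ j, ∃ l : V →ₗ[ℝ] ℝ, ∀ y ∈ C j, F y = l y) : IsPL F := by
  choose l hl using hl
  refine isPL_of_lines l (fun y => ?_) fun x d => ?_
  · obtain ⟨j, hj⟩ := hC y
    exact ⟨j, hl j y hj⟩
  · refine LocallyFinite.continuous (f := fun j => {s : ℝ | x + s • d ∈ C j})
      (locallyFinite_of_finite _) ?_ (fun j => hcl j x d) fun j => ?_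
    · exact Set.iUnion_eq_univ_iff.2 fun s => hC _
    · have h1 : ContinuousOn (fun s : ℝ => l j x + s * l j d) {s : ℝ | x + s • d ∈ C j} := by
        fun_prop
      refine h1.congr fun s hs => ?_
      rw [hl j _ hs, map_add, map_smul, smul_eq_mul]

theorem plMap_of_cover {T : V → W} {J : Type*} [Fintype J] (C : J → Set V)
    (hC : ∀ y, ∃ j, y ∈ C j) (hcl : ∀ j (x d : V), IsClosed {s : ℝ | x + s • d ∈ C j})
    (hl : ∀ j, ∃ l : V →ₗ[ℝ] W, ∀ y ∈ C j, T y = l y) : PLMap T := by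
  intro lam
  refine isPL_cover C hC hcl fun j => ?_
  obtain ⟨l, hl⟩ := hl j
  exact ⟨lam ∘ₗ l, fun y hy => by rw [hl y hy]; rfl⟩

end Pool.Agent.DF302A
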