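import Pool.Agent.Work.MP_df302a_co.Coord
import Pool.Agent.Work.MP_df302a_co.Crit

/-!
# MP_df302a_co : complete fans, arrangements of hyperplanes

* `fan_isSph`: a complex with vectors at its vertices whose cones fill the space without overlap
  has a piecewise linear inverse.
* `Arr`: the barycentric subdivision of an arrangement of hyperplanes is such a complex.
-/

set_option linter.unusedSectionVars false
set_option linter.unusedVariables false

namespace Pool.Agent.DF302A

open Finset

section Fan
variable {X : Type*} [Fintype X] [DecidableEq X]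
variable {V : Type*} [AddCommGroup V] [Module ℝ V]

/-- the linear map given by vectors at the vertices -/
noncomputable def BB (p : X → V) : (X → ℝ) →ₗ[ℝ] V := Fintype.linearCombination ℝ p

theorem BB_apply (p : X → V) (t : X → ℝ) : BB p t = ∑ x, t x • p x := rfl

theorem isClosed_line (u v : V) : IsClosed {s : ℝ | u + s • v = 0} := by
  by_cases hv : v = 0
  · subst hv
    by_cases hu : u = 0
    · simp [hu]
    · simp [hu]
  · have : Set.Subsingleton {s : ℝ | u + s • v = 0} := by
      intro s hs s' hs'
      have hs1 : u + s • v = 0 := hs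
      have hs2 : u + s' • v = 0 := hs'
      have h1 : u + s • v = u + s' • v := by rw [hs1, hs2]
      have h2 : (s - s') • v = 0 := by rw [sub_smul, add_left_cancel h1, sub_self]
      rcases smul_eq_zero.1 h2 with h3 | h3
      · exact sub_eq_zero.1 h3
      · exact absurd h3 hv
    exact this.isClosed

theorem cone_mono_face {Q : Set (Finset X)} {t : X → ℝ} {σ : Finset X} (hσ : σ ∈ Q)
    (h0 : ∀ x, 0 ≤ t x) (h : ∀ x, x ∉ σ → t x = 0) : t ∈ cone Q := ⟨h0, σ, hσ, h⟩

/-- linear left inverse on the span of a simplex -/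
theorem exists_left {Q : Set (Finset X)} (p : X → V) (hinj : Set.InjOn (BB p) (cone Q))
    {σ : Finset X} (hσ : σ ∈ Q) :
    ∃ r : V →ₗ[ℝ] (X → ℝ), (∀ y x, x ∉ σ → r y x = 0) ∧
      ∀ t : X → ℝ, (∀ x, x ∉ σ → t x = 0) → r (BB p t) = t := by
  classical
  set e : (σ → ℝ) →ₗ[ℝ] (X → ℝ) :=
    { toFun := fun t x => if h : x ∈ σ then t ⟨x, h⟩ else 0
      map_add' := fun t s => by
        ext x
        by_cases h : x ∈ σ <;> simp [h]
      map_smul' := fun c t => by
        ext x
        by_cases h : x ∈ σ <;> simp [h] } with he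
  have he_in : ∀ (t : σ → ℝ) x (h : x ∈ σ), e t x = t ⟨x, h⟩ := fun t x h => by
    simp [he, h]
  have he_out : ∀ (t : σ → ℝ) x, x ∉ σ → e t x = 0 := fun t x h => by
    simp [he, h]
  have hinj' : Function.Injective (BB p ∘ₗ e) := by
    intro t s hts
    have h1 : BB p (e t) = BB p (e s) := hts
    set a : X → ℝ := fun x => max (e t x - e s x) 0 with ha
    set b : X → ℝ := fun x => max (e s x - e t x) 0 with hb
    have hab : ∀ x, a x - b x = e t x - e s x := fun x => by
      simp only [ha, hb]
      rcases le_total (e t x) (e s x) with h | h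
      · rw [max_eq_right (by linarith), max_eq_left (by linarith)]; ring
      · rw [max_eq_left (by linarith), max_eq_right (by linarith)]; ring
    have ha1 : a ∈ cone Q := cone_mono_face hσ (fun x => le_max_right _ _) fun x hx => by
      simp [ha, he_out _ x hx]
    have hb1 : b ∈ cone Q := cone_mono_face hσ (fun x => le_max_right _ _) fun x hx => by
      simp [hb, he_out _ x hx]
    have h2 : BB p a = BB p b := by
      have h3 : a - b = e t - e s := by
        ext x
        exact hab x
      have h4 : BB p (a - b) = 0 := by rw [h3, map_sub, h1, sub_self]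
      rw [map_sub, sub_eq_zero] at h4
      exact h4
    have h3 := hinj ha1 hb1 h2
    ext ⟨x, hx⟩
    have h4 := hab x
    rw [h3, sub_self, he_in _ _ hx, he_in _ _ hx] at h4
    linarith
  obtain ⟨r, hr⟩ := LinearMap.exists_leftInverse_of_injective _ (LinearMap.ker_eq_bot.2 hinj')
  refine ⟨e ∘ₗ r, fun y x hx => he_out _ x hx, fun t ht => ?_⟩
  have h1 : e (fun x : σ => t x) = t := by
    ext x
    by_cases hx : x ∈ σ
    · rw [he_in _ _ hx]
    · rw [he_out _ _ hx, ht x hx]
  have h2 : r (BB p (e fun x : σ => t x)) = fun x : σ => t x :=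
    congrArg (fun f : (σ → ℝ) →ₗ[ℝ] (σ → ℝ) => f fun x : σ => t x) hr
  rw [LinearMap.comp_apply]
  rw [h1] at h2
  rw [h2, h1]

open Classical in
/-- complete simplicial fans -/
theorem fan_isSph {Q : Set (Finset X)} (p : X → V) (hinj : Set.InjOn (BB p) (cone Q))
    (hsurj : ∀ y, ∃ t ∈ cone Q, BB p t = y) : ∃ k : V → X → ℝ, IsSph Q (fun t => BB p t) k := by
  choose k hk hk' using hsurj
  refine ⟨k, PLMap.lin _, ?_, fun t ht => hinj (hk _) ht (hk' _), hk, hk'⟩
  have hr : ∀ σ : Finset X, ∃ r : V →ₗ[ℝ] (X → ℝ), σ ∈ Q → (∀ y x, x ∉ σ → r y x = 0) ∧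
      ∀ t : X → ℝ, (∀ x, x ∉ σ → t x = 0) → r (BB p t) = t := by
    intro σ
    by_cases h : σ ∈ Q
    · obtain ⟨r, hr⟩ := exists_left p hinj h
      exact ⟨r, fun _ => hr⟩
    · exact ⟨0, fun h' => absurd h' h⟩
  choose r hr using hr
  refine plMap_of_cover (J := Finset X)
    (fun σ => {y | σ ∈ Q ∧ (∀ x, 0 ≤ r σ y x) ∧ BB p (r σ y) = y}) (fun y => ?_)
    (fun σ x d => ?_) fun σ => ⟨r σ, fun y hy => ?_⟩
  · obtain ⟨h0, σ, hσ, h1⟩ := hk y
    have h2 : r σ y = k y := by
      conv_lhs => rw [← hk' y]
      exact (hr σ hσ).2 _ h1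
    exact ⟨σ, hσ, by rw [h2]; exact h0, by rw [h2, hk']⟩
  · by_cases hσ : σ ∈ Q
    · have e : {s : ℝ | x + s • d ∈ {y | σ ∈ Q ∧ (∀ x, 0 ≤ r σ y x) ∧ BB p (r σ y) = y}} =
          (⋂ z : X, {s : ℝ | 0 ≤ r σ x z + s * r σ d z}) ∩
            {s : ℝ | (BB p (r σ x) - x) + s • (BB p (r σ d) - d) = 0} := by
        ext s
        simp only [Set.mem_ofPred_eq, Set.mem_inter_iff, Set.mem_iInter, hσ, true_and, map_add,
          map_smul, Pi.add_apply, Pi.smul_apply, smul_eq_mul]
        refine and_congr Iff.rfl ?_
        rw [← sub_eq_zero]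
        have : BB p (r σ x) + s • BB p (r σ d) - (x + s • d) =
            BB p (r σ x) - x + s • (BB p (r σ d) - d) := by
          rw [smul_sub]; abel
        rw [this]
      rw [e]
      refine IsClosed.inter (isClosed_iInter fun z => ?_) (isClosed_line _ _)
      exact isClosed_le continuous_const (by fun_prop)
    · have e : {s : ℝ | x + s • d ∈ {y | σ ∈ Q ∧ (∀ x, 0 ≤ r σ y x) ∧ BB p (r σ y) = y}} = ∅ := by
        ext s
        simp [hσ]
      rw [e]
      exact isClosed_empty
  · obtain ⟨hσ, h0, h1⟩ := hy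
    refine hinj (hk _) ⟨h0, σ, hσ, (hr σ hσ).1 y⟩ ?_
    rw [hk', h1]

end Fan

namespace Arr

variable {V : Type*} [AddCommGroup V] [Module ℝ V] {I : Type*} [Fintype I] [DecidableEq I]

/-- sign vector of a point -/
noncomputable def sg (lam : I → V →ₗ[ℝ] ℝ) (y : V) : I → SignType :=
  fun i => SignType.sign (lam i y)

/-- `c` is a face of `d` -/
def Fle (c d : I → SignType) : Prop := ∀ i, c i = 0 ∨ c i = d i

theorem Fle.refl (c : I → SignType) : Fle c c := fun _ => Or.inr rfl

theorem Fle.trans {c d e : I → SignType} (h : Fle c d) (h' : Fle d e) : Fle c e := by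
  intro i
  rcases h i with h1 | h1
  · exact Or.inl h1
  · rcases h' i with h2 | h2
    · exact Or.inl (h1.trans h2)
    · exact Or.inr (h1.trans h2)

theorem Fle.antisymm {c d : I → SignType} (h : Fle c d) (h' : Fle d c) : c = d := by
  ext i
  rcases h i with h1 | h1
  · rcases h' i with h2 | h2
    · rw [h1, h2]
    · exact h2.symm
  · exact h1

/-- the nonzero cells -/
def Cell (lam : I → V →ₗ[ℝ] ℝ) : Set (I → SignType) := {c | c ≠ 0 ∧ ∃ y, sg lam y = c}

/-- chains of nonzero cells -/
def Ch (lam : I → V →ₗ[ℝ] ℝ) : Set (Finset (I → SignType)) :=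
  {s | (∀ c ∈ s, c ∈ Cell lam) ∧ IsChain Fle (s : Set (I → SignType))}

/-- number of nonzero signs -/
def nz (c : I → SignType) : ℕ := (Finset.univ.filter fun i => c i ≠ 0).card

theorem nz_le {c d : I → SignType} (h : Fle c d) : nz c ≤ nz d := by
  refine Finset.card_le_card fun i hi => ?_
  rw [Finset.mem_filter] at hi ⊢
  refine ⟨hi.1, ?_⟩
  rcases h i with h1 | h1
  · exact absurd h1 hi.2
  · rw [← h1]; exact hi.2

theorem nz_lt {c d : I → SignType} (h : Fle c d) {i : I} (h1 : c i = 0) (h2 : d i ≠ 0) :
    nz c < nz d := by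
  refine Finset.card_lt_card ⟨fun j hj => ?_, fun hh => ?_⟩
  · rw [Finset.mem_filter] at hj ⊢
    refine ⟨hj.1, ?_⟩
    rcases h j with h1 | h1
    · exact absurd h1 hj.2
    · rw [← h1]; exact hj.2
  · have h3 : i ∈ Finset.univ.filter fun i => c i ≠ 0 :=
      hh (Finset.mem_filter.2 ⟨Finset.mem_univ _, h2⟩)
    exact (Finset.mem_filter.1 h3).2 h1

theorem eq_of_nz {c d : I → SignType} (h : Fle c d) (hn : nz d ≤ nz c) : c = d := by
  ext i
  rcases h i with h1 | h1
  · by_contra h2
    have h3 : d i ≠ 0 := fun h4 => h2 (h1.trans h4.symm)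
    exact absurd (nz_lt h h1 h3) (not_lt.2 hn)
  · exact h1

theorem exists_top {s : Finset (I → SignType)} (hs : s.Nonempty)
    (hc : IsChain Fle (s : Set (I → SignType))) : ∃ c ∈ s, ∀ d ∈ s, Fle d c := by
  obtain ⟨c, hcs, hmax⟩ := Finset.exists_max_image s nz hs
  refine ⟨c, hcs, fun d hd => ?_⟩
  by_cases hdc : d = c
  · rw [hdc]; exact Fle.refl c
  · rcases hc hd hcs hdc with h | h
    · exact h
    · exact absurd (eq_of_nz h (hmax d hd)).symm hdc

theorem isCx_ch (lam : I → V →ₗ[ℝ] ℝ) : IsCx (Ch lam) := by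
  refine ⟨⟨by simp, by simp⟩, fun σ hσ τ h => ⟨fun c hc => hσ.1 c (h hc), hσ.2.mono ?_⟩⟩
  exact_mod_cast h

theorem sg_zero (lam : I → V →ₗ[ℝ] ℝ) : sg lam 0 = 0 := by
  ext i
  simp [sg]

theorem eq_zero_of_sg {lam : I → V →ₗ[ℝ] ℝ} (hsep : ∀ y, (∀ i, lam i y = 0) → y = 0) {y : V}
    (h : sg lam y = 0) : y = 0 :=
  hsep y fun i => sign_eq_zero_iff.1 (congrFun h i)

section
variable {lam : I → V →ₗ[ℝ] ℝ} {b : (I → SignType) → V}

/-- the sign vector of a point of the cone over a chain is the top cell -/
theorem sg_BB (hb : ∀ c ∈ Cell lam, sg lam (b c) = c) {t : (I → SignType) → ℝ}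
    (ht : t ∈ cone (Ch lam)) (h0 : t ≠ 0) :
    0 < t (sg lam (BB b t)) ∧ sg lam (BB b t) ≠ 0 ∧ ∀ d, t d ≠ 0 → Fle d (sg lam (BB b t)) := by
  classical
  obtain ⟨hn, σ, hσ, hout⟩ := ht
  set S := σ.filter fun c => t c ≠ 0 with hS
  have hSne : S.Nonempty := by
    by_contra hc
    rw [Finset.not_nonempty_iff_eq_empty] at hc
    apply h0
    ext c
    by_contra h1
    have h2 : c ∈ σ := by
      by_contra h3
      exact h1 (hout c h3)
    have h3 : c ∈ S := Finset.mem_filter.2 ⟨h2, h1⟩
    rw [hc] at h3
    exact absurd h3 (Finset.notMem_empty c)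
  have hSc : IsChain Fle (S : Set (I → SignType)) := hσ.2.mono (by
    intro x hx
    exact (Finset.mem_filter.1 hx).1)
  obtain ⟨c, hcS, hc⟩ := exists_top hSne hSc
  have hcσ : c ∈ σ := (Finset.mem_filter.1 hcS).1
  have htc : 0 < t c := lt_of_le_of_ne (hn c) (Ne.symm (Finset.mem_filter.1 hcS).2)
  have hle : ∀ d, t d ≠ 0 → Fle d c ∧ d ∈ σ := fun d hd => by
    have h2 : d ∈ σ := by
      by_contra h3
      exact hd (hout d h3)
    exact ⟨hc d (Finset.mem_filter.2 ⟨h2, hd⟩), h2⟩
  have hlam : ∀ i, lam i (BB b t) = ∑ d, t d * lam i (b d) := fun i => by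
    rw [BB_apply, map_sum]
    exact Finset.sum_congr rfl fun d _ => by rw [map_smul, smul_eq_mul]
  have hsb : ∀ d, t d ≠ 0 → ∀ i, SignType.sign (lam i (b d)) = d i := fun d hd i =>
    congrFun (hb d (hσ.1 d (hle d hd).2)) i
  have hsg : sg lam (BB b t) = c := by
    ext i
    show SignType.sign (lam i (BB b t)) = c i
    rw [hlam]
    have hci := hsb c htc.ne' i
    rcases hcc : c i with _ | _ | _
    · rw [sign_eq_zero_iff.2]
      · rfl
      refine Finset.sum_eq_zero fun d _ => ?_
      by_cases hd : t d = 0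
      · rw [hd, zero_mul]
      · have h2 : d i = 0 := by
          rcases (hle d hd).1 i with h3 | h3
          · exact h3
          · exact h3.trans hcc
        have h3 := hsb d hd i
        rw [h2, sign_eq_zero_iff] at h3
        rw [h3, mul_zero]
    · rw [sign_eq_neg_one_iff.2]
      · rfl
      have h1 : ∀ d, t d * lam i (b d) ≤ 0 := fun d => by
        by_cases hd : t d = 0
        · rw [hd, zero_mul]
        · refine mul_nonpos_of_nonneg_of_nonpos (hn d) ?_
          have h3 := hsb d hd i
          rcases (hle d hd).1 i with h2 | h2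
          · rw [h2, sign_eq_zero_iff] at h3
            exact h3.le
          · rw [h2, hcc] at h3
            exact (sign_eq_neg_one_iff.1 h3).le
      refine Finset.sum_neg' (fun d _ => h1 d) ⟨c, Finset.mem_univ _, ?_⟩
      rw [hcc] at hci
      exact mul_neg_of_pos_of_neg htc (sign_eq_neg_one_iff.1 hci)
    · rw [sign_eq_one_iff.2]
      · rfl
      have h1 : ∀ d, 0 ≤ t d * lam i (b d) := fun d => by
        by_cases hd : t d = 0
        · rw [hd, zero_mul]
        · refine mul_nonneg (hn d) ?_
          have h3 := hsb d hd i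
          rcases (hle d hd).1 i with h2 | h2
          · rw [h2, sign_eq_zero_iff] at h3
            exact h3.ge
          · rw [h2, hcc] at h3
            exact (sign_eq_one_iff.1 h3).le
      refine Finset.sum_pos' (fun d _ => h1 d) ⟨c, Finset.mem_univ _, ?_⟩
      rw [hcc] at hci
      exact mul_pos htc (sign_eq_one_iff.1 hci)
  rw [hsg]
  exact ⟨htc, (hσ.1 c hcσ).1, fun d hd => (hle d hd).1⟩

theorem cone_sub {t : (I → SignType) → ℝ} (ht : t ∈ cone (Ch lam)) {c : I → SignType} {m : ℝ}
    (hm : m ≤ t c) (h0 : 0 < t c) :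
    (fun d => if d = c then t c - m else t d) ∈ cone (Ch lam) := by
  obtain ⟨hn, σ, hσ, hout⟩ := ht
  refine ⟨fun d => ?_, σ, hσ, fun d hd => ?_⟩
  · show 0 ≤ if d = c then t c - m else t d
    split_ifs
    · linarith
    · exact hn d
  · show (if d = c then t c - m else t d) = 0
    rw [if_neg, hout d hd]
    rintro rfl
    exact h0.ne' (hout d hd)

theorem BB_sub {t : (I → SignType) → ℝ} {c : I → SignType} (m : ℝ) :
    BB b (fun d => if d = c then t c - m else t d) = BB b t - m • b c := by
  rw [BB_apply, BB_apply]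
  have : ∀ d, (if d = c then t c - m else t d) • b d = t d • b d - (if d = c then m • b c else 0) := by
    intro d
    split_ifs with h
    · subst h; rw [sub_smul]
    · rw [sub_zero]
  rw [Finset.sum_congr rfl fun d _ => this d, Finset.sum_sub_distrib]
  simp

theorem injOn (hsep : ∀ y, (∀ i, lam i y = 0) → y = 0)
    (hb : ∀ c ∈ Cell lam, sg lam (b c) = c) : Set.InjOn (BB b) (cone (Ch lam)) := by
  classical
  have key : ∀ n : ℕ, ∀ t t' : (I → SignType) → ℝ, t ∈ cone (Ch lam) → t' ∈ cone (Ch lam) →
      BB b t = BB b t' → (Finset.univ.filter fun c => t c ≠ 0).card = n → t = t' := by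
    intro n
    induction n using Nat.strong_induction_on with
    | _ n ih =>
      intro t t' ht ht' h hn
      by_cases h0 : t = 0
      · by_contra hne
        have h1 : t' ≠ 0 := fun h2 => hne (h0.trans h2.symm)
        have h2 := (sg_BB hb ht' h1).2.1
        rw [← h, h0, map_zero, sg_zero] at h2
        exact h2 rfl
      by_cases h0' : t' = 0
      · have h2 := (sg_BB hb ht h0).2.1
        rw [h, h0', map_zero, sg_zero] at h2
        exact absurd rfl h2
      obtain ⟨p1, p2, p3⟩ := sg_BB hb ht h0
      obtain ⟨q1, q2, q3⟩ := sg_BB hb ht' h0'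
      rw [← h] at q1 q2 q3
      set c := sg lam (BB b t) with hc
      set m := min (t c) (t' c) with hm
      set u : (I → SignType) → ℝ := fun d => if d = c then t c - m else t d with hu
      set u' : (I → SignType) → ℝ := fun d => if d = c then t' c - m else t' d with hu'
      have hu1 : u ∈ cone (Ch lam) := cone_sub ht (min_le_left _ _) p1
      have hu1' : u' ∈ cone (Ch lam) := cone_sub ht' (min_le_right _ _) q1
      have huB : BB b u = BB b t - m • b c := BB_sub m
      have huB' : BB b u' = BB b t' - m • b c := BB_sub m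
      have heq : BB b u = BB b u' := by rw [huB, huB', h]
      have huc : u c = t c - m := by simp [hu]
      have huc' : u' c = t' c - m := by simp [hu']
      have hz : ∀ w ∈ cone (Ch lam), w c = 0 → sg lam (BB b w) ≠ c := by
        intro w hw hwc hh
        by_cases hw0 : w = 0
        · rw [hw0, map_zero, sg_zero] at hh
          exact p2 hh.symm
        · have := (sg_BB hb hw hw0).1
          rw [hh, hwc] at this
          exact lt_irrefl _ this
      have hne : sg lam (BB b u) ≠ c := by
        rcases le_total (t c) (t' c) with h3 | h3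
        · apply hz u hu1
          rw [huc, hm, min_eq_left h3, sub_self]
        · rw [heq]
          apply hz u' hu1'
          rw [huc', hm, min_eq_right h3, sub_self]
      have hzero : ∀ w ∈ cone (Ch lam), (∀ d, w d ≠ 0 → Fle d c) → sg lam (BB b w) ≠ c →
          w c = 0 := by
        intro w hw hwf hh
        by_contra hwc
        have hw0 : w ≠ 0 := fun h4 => hwc (by rw [h4]; rfl)
        obtain ⟨r1, r2, r3⟩ := sg_BB hb hw hw0
        exact hh ((hwf _ r1.ne').antisymm (r3 c hwc))
      have hc1 : u c = 0 := by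
        refine hzero u hu1 (fun d hd => ?_) hne
        by_cases hdc : d = c
        · rw [hdc]; exact Fle.refl c
        · exact p3 d (by simpa [hu, hdc] using hd)
      have hc1' : u' c = 0 := by
        refine hzero u' hu1' (fun d hd => ?_) (by rw [← heq]; exact hne)
        by_cases hdc : d = c
        · rw [hdc]; exact Fle.refl c
        · exact q3 d (by simpa [hu', hdc] using hd)
      have hlt : (Finset.univ.filter fun d => u d ≠ 0).card < n := by
        rw [← hn]
        refine Finset.card_lt_card ⟨fun d hd => ?_, fun hh => ?_⟩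
        · rw [Finset.mem_filter] at hd ⊢
          refine ⟨hd.1, ?_⟩
          by_cases hdc : d = c
          · exact absurd (by rw [hdc]; exact hc1) hd.2
          · simpa [hu, hdc] using hd.2
        · have h5 : c ∈ Finset.univ.filter fun d => t d ≠ 0 :=
            Finset.mem_filter.2 ⟨Finset.mem_univ _, p1.ne'⟩
          exact (Finset.mem_filter.1 (hh h5)).2 hc1
      have hfin := ih _ hlt u u' hu1 hu1' heq rfl
      ext d
      by_cases hdc : d = c
      · rw [hdc]
        rw [huc] at hc1
        rw [huc'] at hc1'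
        linarith
      · have h6 := congrFun hfin d
        simpa [hu, hu', hdc] using h6
  intro t ht t' ht' h
  exact key _ t t' ht ht' h rfl

theorem surj (hsep : ∀ y, (∀ i, lam i y = 0) → y = 0)
    (hb : ∀ c ∈ Cell lam, sg lam (b c) = c) (y : V) :
    ∃ t ∈ cone (Ch lam), BB b t = y := by
  classical
  have key : ∀ n : ℕ, ∀ y : V, nz (sg lam y) = n → ∃ t : (I → SignType) → ℝ, (∀ c, 0 ≤ t c) ∧
      (∃ σ ∈ Ch lam, (∀ c, c ∉ σ → t c = 0) ∧ ∀ c ∈ σ, Fle c (sg lam y)) ∧ BB b t = y := by
    intro n
    induction n using Nat.strong_induction_on with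
    | _ n ih =>
      intro y hn
      by_cases hy : y = 0
      · subst hy
        exact ⟨0, fun _ => le_rfl, ⟨∅, (isCx_ch lam).1, fun _ _ => rfl, by simp⟩, map_zero _⟩
      have hc0 : sg lam y ≠ 0 := fun h => hy (eq_zero_of_sg hsep h)
      set c := sg lam y with hc
      have hcell : c ∈ Cell lam := ⟨hc0, y, rfl⟩
      have hbc := hb c hcell
      have hbi : ∀ i, SignType.sign (lam i (b c)) = c i := fun i => congrFun hbc i
      have hyi : ∀ i, SignType.sign (lam i y) = c i := fun i => rfl
      set S := Finset.univ.filter fun i => c i ≠ 0 with hS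
      have hSne : S.Nonempty := by
        by_contra h1
        rw [Finset.not_nonempty_iff_eq_empty] at h1
        apply hc0
        ext i
        by_contra h2
        have h3 : i ∈ S := Finset.mem_filter.2 ⟨Finset.mem_univ _, h2⟩
        rw [h1] at h3
        exact absurd h3 (Finset.notMem_empty i)
      obtain ⟨j, hjS, hj⟩ := Finset.exists_min_image S (fun i => lam i y / lam i (b c)) hSne
      set s := lam j y / lam j (b c) with hs
      have hcj : c j ≠ 0 := (Finset.mem_filter.1 hjS).2
      have hbj : lam j (b c) ≠ 0 := fun h => hcj (by rw [← hbi j, h, sign_zero])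
      have hspos : 0 < s := by
        have h1 := hbi j
        have h2 := hyi j
        rcases hcc : c j with _ | _ | _
        · exact absurd hcc hcj
        · rw [hcc] at h1 h2
          exact div_pos_of_neg_of_neg (sign_eq_neg_one_iff.1 h2) (sign_eq_neg_one_iff.1 h1)
        · rw [hcc] at h1 h2
          exact div_pos (sign_eq_one_iff.1 h2) (sign_eq_one_iff.1 h1)
      set y' := y - s • b c with hy'
      have hlam' : ∀ i, lam i y' = lam i y - s * lam i (b c) := fun i => by
        rw [hy', map_sub, map_smul, smul_eq_mul]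
      have hle : Fle (sg lam y') c := by
        intro i
        show SignType.sign (lam i y') = 0 ∨ SignType.sign (lam i y') = c i
        rw [hlam']
        have h1 := hbi i
        have h2 := hyi i
        rcases hcc : c i with _ | _ | _
        · rw [hcc] at h1 h2
          left
          have e1 := sign_eq_zero_iff.1 h1
          have e2 := sign_eq_zero_iff.1 h2
          rw [e1, e2]; simp
        · rw [hcc] at h1 h2
          have h3 := hj i (Finset.mem_filter.2 ⟨Finset.mem_univ _, by rw [hcc]; decide⟩)
          have e1 := sign_eq_neg_one_iff.1 h1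
          rw [le_div_iff_of_neg e1] at h3
          rcases h3.lt_or_eq with h4 | h4
          · right
            exact sign_eq_neg_one_iff.2 (by linarith)
          · left
            exact sign_eq_zero_iff.2 (by linarith)
        · rw [hcc] at h1 h2
          have h3 := hj i (Finset.mem_filter.2 ⟨Finset.mem_univ _, by rw [hcc]; decide⟩)
          have e1 := sign_eq_one_iff.1 h1
          rw [le_div_iff₀ e1] at h3
          rcases h3.lt_or_eq with h4 | h4
          · right
            exact sign_eq_one_iff.2 (by linarith)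
          · left
            exact sign_eq_zero_iff.2 (by linarith)
      have hj0 : sg lam y' j = 0 := by
        show SignType.sign (lam j y') = 0
        rw [hlam', hs, div_mul_cancel₀ _ hbj, sub_self, sign_zero]
      have hlt : nz (sg lam y') < n := by
        rw [← hn]
        exact nz_lt hle hj0 hcj
      obtain ⟨t, ht0, ⟨σ, hσ, hout, hσc⟩, hB⟩ := ih _ hlt y' rfl
      refine ⟨fun d => t d + if d = c then s else 0, fun d => ?_, ⟨insert c σ, ⟨?_, ?_⟩, ?_, ?_⟩, ?_⟩
      · show 0 ≤ t d + if d = c then s else 0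
        split_ifs
        · linarith [ht0 d]
        · linarith [ht0 d]
      · intro d hd
        rcases Finset.mem_insert.1 hd with rfl | hd
        · exact hcell
        · exact hσ.1 d hd
      · rw [Finset.coe_insert]
        refine hσ.2.insert fun d hd _ => Or.inr ((hσc d hd).trans hle)
      · intro d hd
        rw [Finset.mem_insert, not_or] at hd
        show t d + (if d = c then s else 0) = 0
        rw [if_neg hd.1, hout d hd.2, add_zero]
      · intro d hd
        rcases Finset.mem_insert.1 hd with rfl | hd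
        · exact Fle.refl _
        · exact (hσc d hd).trans hle
      · have h5 : (fun d => t d + if d = c then s else 0) = t + fun d => if d = c then s else 0 := rfl
        rw [h5, map_add, hB, hy']
        have h6 : BB b (fun d => if d = c then s else 0) = s • b c := by
          rw [BB_apply]
          simp
        rw [h6, sub_add_cancel]
  obtain ⟨t, h0, ⟨σ, hσ, hout, -⟩, hB⟩ := key _ y rfl
  exact ⟨t, ⟨h0, σ, hσ, hout⟩, hB⟩

/-- the subdivision of an arrangement -/
theorem isSph (hsep : ∀ y, (∀ i, lam i y = 0) → y = 0)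
    (hb : ∀ c ∈ Cell lam, sg lam (b c) = c) :
    ∃ k : V → (I → SignType) → ℝ, IsSph (Ch lam) (fun t => BB b t) k :=
  fan_isSph b (injOn hsep hb) (surj hsep hb)

end

/-- points in the cells -/
theorem exists_b (lam : I → V →ₗ[ℝ] ℝ) :
    ∃ b : (I → SignType) → V, ∀ c ∈ Cell lam, sg lam (b c) = c := by
  classical
  have : ∀ c : I → SignType, ∃ y : V, c ∈ Cell lam → sg lam y = c := fun c => by
    by_cases h : c ∈ Cell lam
    · exact ⟨h.2.choose, fun _ => h.2.choose_spec⟩
    · exact ⟨0, fun h' => absurd h' h⟩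
  choose b hb using this
  exact ⟨b, hb⟩

/-- functions which are additive on cells -/
structure Adapt (lam : I → V →ₗ[ℝ] ℝ) (F : V → ℝ) : Prop where
  add : ∀ y z, (∀ i, 0 ≤ lam i y * lam i z) → F (y + z) = F y + F z
  hom : ∀ y (c : ℝ), 0 ≤ c → F (c • y) = c * F y

theorem sign_mul {lam : I → V →ₗ[ℝ] ℝ} {b : (I → SignType) → V}
    (hb : ∀ c ∈ Cell lam, sg lam (b c) = c) {σ : Finset (I → SignType)} (hσ : σ ∈ Ch lam)
    {c d : I → SignType} (hc : c ∈ σ) (hd : d ∈ σ) (i : I) :
    0 ≤ lam i (b c) * lam i (b d) := by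
  have h1 : SignType.sign (lam i (b c)) = c i := congrFun (hb c (hσ.1 c hc)) i
  have h2 : SignType.sign (lam i (b d)) = d i := congrFun (hb d (hσ.1 d hd)) i
  by_cases h3 : c i = 0
  · rw [h3] at h1
    rw [sign_eq_zero_iff.1 h1, zero_mul]
  by_cases h4 : d i = 0
  · rw [h4] at h2
    rw [sign_eq_zero_iff.1 h2, mul_zero]
  have h5 : c i = d i := by
    by_cases hcd : c = d
    · rw [hcd]
    · rcases hσ.2 hc hd hcd with h | h
      · rcases h i with h6 | h6
        · exact absurd h6 h3
        · exact h6
      · rcases h i with h6 | h6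
        · exact absurd h6 h4
        · exact h6.symm
  rw [← h5] at h2
  rcases hcc : c i with _ | _ | _
  · exact absurd hcc h3
  · rw [hcc] at h1 h2
    exact mul_nonneg_of_nonpos_of_nonpos (sign_eq_neg_one_iff.1 h1).le
      (sign_eq_neg_one_iff.1 h2).le
  · rw [hcc] at h1 h2
    exact mul_nonneg (sign_eq_one_iff.1 h1).le (sign_eq_one_iff.1 h2).le

theorem Adapt.BB_eq {lam : I → V →ₗ[ℝ] ℝ} {b : (I → SignType) → V} {F : V → ℝ}
    (hF : Adapt lam F) (hb : ∀ c ∈ Cell lam, sg lam (b c) = c) {t : (I → SignType) → ℝ}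
    (ht : t ∈ cone (Ch lam)) : F (BB b t) = ∑ c, t c * F (b c) := by
  classical
  obtain ⟨hn, σ, hσ, hout⟩ := ht
  have hF0 : F 0 = 0 := by
    have := hF.hom 0 0 le_rfl
    simpa using this
  have key : ∀ S : Finset (I → SignType), S ⊆ σ →
      F (∑ c ∈ S, t c • b c) = ∑ c ∈ S, t c * F (b c) := by
    intro S
    induction S using Finset.induction_on with
    | empty => intro _; simpa using hF0
    | insert d S hd ih =>
      intro hS
      have hS' : S ⊆ σ := fun x hx => hS (Finset.mem_insert_of_mem hx)
      rw [Finset.sum_insert hd, Finset.sum_insert hd, hF.add, hF.hom _ _ (hn d), ih hS']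
      intro i
      rw [map_smul, smul_eq_mul, map_sum, Finset.mul_sum]
      refine Finset.sum_nonneg fun c hc => ?_
      rw [map_smul, smul_eq_mul]
      have h1 := sign_mul hb hσ (hS (Finset.mem_insert_self d S)) (hS' hc) i
      have h2 : t d * lam i (b d) * (t c * lam i (b c)) =
          (t d * t c) * (lam i (b d) * lam i (b c)) := by ring
      rw [h2]
      exact mul_nonneg (mul_nonneg (hn d) (hn c)) h1
  have h1 : BB b t = ∑ c ∈ σ, t c • b c := by
    rw [BB_apply]
    refine (Finset.sum_subset (Finset.subset_univ σ) fun c _ hc => ?_).symm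
    rw [hout c hc, zero_smul]
  have h2 : ∑ c, t c * F (b c) = ∑ c ∈ σ, t c * F (b c) := by
    refine (Finset.sum_subset (Finset.subset_univ σ) fun c _ hc => ?_).symm
    rw [hout c hc, zero_mul]
  rw [h1, h2]
  exact key σ subset_rfl

end Arr

end Pool.Agent.DF302A
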