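import Pool.Agent.Work.MP_df302a_co.PL

/-!
# MP_df302a_co : the bridge from special to generic positions

`K` is a complex with positions `p : X → V` such that `t ↦ ∑ t x • p x` is injective on its cone.
A piecewise linear function on the union of the cones extends to `V` (`ext_pl`), and the vertices
can be moved one after the other to generic positions by piecewise linear shears (`bridge`).
-/

namespace Pool.Agent.DF302A

open Finset

namespace Brg

variable {X : Type*} [Fintype X] [DecidableEq X]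
variable {V : Type*} [AddCommGroup V] [Module ℝ V]

/-- The realisation `t ↦ ∑ t x • p x`. -/
noncomputable def BB (p : X → V) : (X → ℝ) →ₗ[ℝ] V :=
  ∑ x, (LinearMap.proj x : (X → ℝ) →ₗ[ℝ] ℝ).smulRight (p x)

theorem BB_apply (p : X → V) (t : X → ℝ) : BB p t = ∑ x, t x • p x := by
  simp [BB]

theorem BB_supp (p : X → V) {t : X → ℝ} {σ : Finset X} (h : ∀ x, x ∉ σ → t x = 0) :
    BB p t = ∑ x ∈ σ, t x • p x := by
  rw [BB_apply]
  refine (Finset.sum_subset (Finset.subset_univ σ) fun x _ hx => ?_).symm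
  rw [h x hx, zero_smul]

theorem mem_cone_of {K : Set (Finset X)} {σ : Finset X} (hσ : σ ∈ K) {t : X → ℝ}
    (h0 : ∀ x, 0 ≤ t x) (h : ∀ x, x ∉ σ → t x = 0) : t ∈ cone K := ⟨h0, σ, hσ, h⟩

/-- The positions of the vertices of a face are linearly independent. -/
theorem indep {K : Set (Finset X)} {p : X → V} (hp : Set.InjOn (fun t => BB p t) (cone K))
    {σ : Finset X} (hσ : σ ∈ K) (c : X → ℝ) (hc : ∀ x, x ∉ σ → c x = 0) (h : BB p c = 0) :
    c = 0 := by
  have h1 : (fun x => max (c x) 0) ∈ cone K := mem_cone_of hσ (fun x => le_max_right _ _)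
    fun x hx => by rw [hc x hx, max_self]
  have h2 : (fun x => max (-c x) 0) ∈ cone K := mem_cone_of hσ (fun x => le_max_right _ _)
    fun x hx => by rw [hc x hx, neg_zero, max_self]
  have h3 : (fun x => max (c x) 0) = fun x => max (-c x) 0 := by
    apply hp h1 h2
    show BB p _ = BB p _
    rw [← sub_eq_zero, ← map_sub, ← h]
    congr 1
    ext x
    show max (c x) 0 - max (-c x) 0 = c x
    rcases le_total 0 (c x) with h4 | h4
    · rw [max_eq_left h4, max_eq_right (by linarith)]; ring
    · rw [max_eq_right h4, max_eq_left (by linarith)]; ring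
  ext x
  have h4 : max (c x) 0 = max (-c x) 0 := congrFun h3 x
  rcases le_total 0 (c x) with h5 | h5
  · rw [max_eq_left h5, max_eq_right (by linarith)] at h4
    exact h4
  · rw [max_eq_right h5, max_eq_left (by linarith)] at h4
    rw [Pi.zero_apply]; linarith

theorem linIndepOn {K : Set (Finset X)} {p : X → V} (hp : Set.InjOn (fun t => BB p t) (cone K))
    {σ : Finset X} (hσ : σ ∈ K) : LinearIndependent ℝ (fun x : σ => p x) := by
  rw [Fintype.linearIndependent_iff]
  intro g hg i
  have h := indep hp hσ (fun x => if hx : x ∈ σ then g ⟨x, hx⟩ else 0)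
    (fun x hx => dif_neg hx) (by
      rw [BB_supp p (σ := σ) fun x hx => dif_neg hx, ← hg, ← Finset.sum_coe_sort σ]
      refine Finset.sum_congr rfl fun x _ => ?_
      rw [dif_pos x.2])
  have h2 := congrFun h i.1
  rw [dif_pos i.2] at h2
  exact h2

/-- Linear functionals with prescribed values on the vertices of a face. -/
theorem exists_lin {K : Set (Finset X)} {p : X → V}
    (hp : Set.InjOn (fun t => BB p t) (cone K)) {σ : Finset X} (hσ : σ ∈ K) (f : X → ℝ) :
    ∃ l : V →ₗ[ℝ] ℝ, ∀ x ∈ σ, l (p x) = f x := by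
  have hli := linIndepOn hp hσ
  obtain ⟨l, hl⟩ := LinearMap.exists_extend
    ((Module.Basis.span hli).constr ℝ (fun x : σ => f x))
  refine ⟨l, fun x hx => ?_⟩
  have h1 : (Module.Basis.span hli ⟨x, hx⟩ : V) = p x :=
    congrArg Subtype.val (Module.Basis.span_apply hli ⟨x, hx⟩)
  have h2 := LinearMap.congr_fun hl (Module.Basis.span hli ⟨x, hx⟩)
  rw [Module.Basis.constr_basis, LinearMap.comp_apply, Submodule.subtype_apply, h1] at h2
  exact h2

section ext

variable [FiniteDimensional ℝ V]

/-- Distance like function of the cone of a face. -/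
noncomputable def dd (p : X → V) (σ : Finset X) (lam : X → V →ₗ[ℝ] ℝ) (z : V) : ℝ :=
  ∑ i ∈ σ, max (-(lam i z)) 0 +
    ∑ k, |(Module.finBasis ℝ V).coord k (z - ∑ i ∈ σ, lam i z • p i)|

theorem dd_nonneg (p : X → V) (σ : Finset X) (lam : X → V →ₗ[ℝ] ℝ) (z : V) :
    0 ≤ dd p σ lam z :=
  add_nonneg (Finset.sum_nonneg fun _ _ => le_max_right _ _)
    (Finset.sum_nonneg fun _ _ => abs_nonneg _)

theorem dd_pl (p : X → V) (σ : Finset X) (lam : X → V →ₗ[ℝ] ℝ) : IsPL (dd p σ lam) := by
  refine IsPL.add (IsPL.sum _ fun i _ => (IsPL.lin (lam i)).neg.max IsPL.zero)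
    (IsPL.sum _ fun k _ => IsPL.abs ?_)
  have h : PLMap (fun z : V => z - ∑ i ∈ σ, lam i z • p i) :=
    PLMap.id.sub (PLMap.sum σ fun i _ => PLMap.smul_const (IsPL.lin (lam i)) (p i))
  exact h _

theorem sum_lam {p : X → V} {σ : Finset X} {lam : X → V →ₗ[ℝ] ℝ}
    (hlam : ∀ i ∈ σ, ∀ j ∈ σ, lam i (p j) = if i = j then 1 else 0) {t : X → ℝ}
    (ht : ∀ x, x ∉ σ → t x = 0) {i : X} (hi : i ∈ σ) : lam i (BB p t) = t i := by
  rw [BB_supp p ht, map_sum]
  rw [Finset.sum_eq_single_of_mem i hi]
  · rw [map_smul, hlam i hi i hi, if_pos rfl, smul_eq_mul, mul_one]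
  · intro j hj hji
    rw [map_smul, hlam i hi j hj, if_neg (Ne.symm hji), smul_zero]

theorem res_zero {p : X → V} {σ : Finset X} {lam : X → V →ₗ[ℝ] ℝ}
    (hlam : ∀ i ∈ σ, ∀ j ∈ σ, lam i (p j) = if i = j then 1 else 0) {t : X → ℝ}
    (ht : ∀ x, x ∉ σ → t x = 0) : BB p t - ∑ i ∈ σ, lam i (BB p t) • p i = 0 := by
  rw [sub_eq_zero]
  conv_lhs => rw [BB_supp p ht]
  exact Finset.sum_congr rfl fun i hi => by rw [sum_lam hlam ht hi]

theorem dd_zero {p : X → V} {σ : Finset X} {lam : X → V →ₗ[ℝ] ℝ}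
    (hlam : ∀ i ∈ σ, ∀ j ∈ σ, lam i (p j) = if i = j then 1 else 0) {t : X → ℝ}
    (h0 : ∀ x, 0 ≤ t x) (ht : ∀ x, x ∉ σ → t x = 0) : dd p σ lam (BB p t) = 0 := by
  unfold dd
  rw [res_zero hlam ht]
  have h1 : ∑ i ∈ σ, max (-(lam i (BB p t))) 0 = 0 :=
    Finset.sum_eq_zero fun i hi => by
      rw [sum_lam hlam ht hi, max_eq_right]
      linarith [h0 i]
  rw [h1, zero_add]
  exact Finset.sum_eq_zero fun k _ => by rw [map_zero, abs_zero]

/-- The main estimate. -/
theorem bound {K : Set (Finset X)} {p : X → V}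
    (hp : Set.InjOn (fun t => BB p t) (cone K)) {σ τ : Finset X} (hσ : σ ∈ K) (hτ : τ ∈ K)
    {lam : X → V →ₗ[ℝ] ℝ}
    (hlam : ∀ i ∈ σ, ∀ j ∈ σ, lam i (p j) = if i = j then 1 else 0) (f : X → ℝ)
    {l : V →ₗ[ℝ] ℝ} (hl : ∀ x ∈ σ, l (p x) = f x) :
    ∃ C : ℝ, 0 ≤ C ∧ ∀ t : X → ℝ, (∀ x, 0 ≤ t x) → (∀ x, x ∉ τ → t x = 0) →
      l (BB p t) - ∑ x, f x * t x ≤ C * dd p σ lam (BB p t) := by
  classical
  -- the part of `dd` which only depends on `t` outside `σ`
  let R : (X → ℝ) →ₗ[ℝ] V := BB p - ∑ i ∈ σ, ((lam i) ∘ₗ BB p).smulRight (p i)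
  have hR : ∀ t, R t = BB p t - ∑ i ∈ σ, lam i (BB p t) • p i := by
    intro t
    simp [R]
  let D : (X → ℝ) → ℝ := fun t => ∑ i ∈ σ \ τ, max (-(lam i (BB p t))) 0 +
    ∑ k, |(Module.finBasis ℝ V).coord k (R t)|
  let S : Set (X → ℝ) := stdSimplex ℝ X ∩ {t | ∀ x, x ∉ τ \ σ → t x = 0}
  have hlin : ∀ L : (X → ℝ) →ₗ[ℝ] ℝ, Continuous L := fun L =>
    L.continuous_of_finiteDimensional
  have hDc : Continuous D := by
    refine Continuous.add (continuous_finsetSum _ fun i _ => ?_)
      (continuous_finsetSum _ fun k _ => ?_)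
    · exact ((hlin ((lam i) ∘ₗ BB p)).neg).max continuous_const
    · exact (hlin (((Module.finBasis ℝ V).coord k) ∘ₗ R)).abs
  have hSc : IsCompact S := by
    refine (isCompact_stdSimplex ℝ X).inter_right ?_
    have : {t : X → ℝ | ∀ x, x ∉ τ \ σ → t x = 0} = ⋂ x, ⋂ (_ : x ∉ τ \ σ), {t | t x = 0} := by
      ext t; simp
    rw [this]
    exact isClosed_iInter fun x => isClosed_iInter fun _ =>
      isClosed_eq (continuous_apply x) continuous_const
  -- positivity
  have hDpos : ∀ t ∈ S, 0 < D t := by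
    rintro t ⟨⟨ht0, ht1⟩, hts⟩
    by_contra hneg
    have n1 : ∀ i ∈ σ \ τ, 0 ≤ max (-(lam i (BB p t))) 0 := fun _ _ => le_max_right _ _
    have n2 : ∀ k ∈ (Finset.univ : Finset (Fin (Module.finrank ℝ V))),
        0 ≤ |(Module.finBasis ℝ V).coord k (R t)| := fun _ _ => abs_nonneg _
    have n3 := Finset.sum_nonneg n1
    have n4 := Finset.sum_nonneg n2
    have e1 : ∑ i ∈ σ \ τ, max (-(lam i (BB p t))) 0 = 0 := by
      have : D t = ∑ i ∈ σ \ τ, max (-(lam i (BB p t))) 0 +
        ∑ k, |(Module.finBasis ℝ V).coord k (R t)| := rfl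
      linarith
    have e2 : ∑ k, |(Module.finBasis ℝ V).coord k (R t)| = 0 := by
      have : D t = ∑ i ∈ σ \ τ, max (-(lam i (BB p t))) 0 +
        ∑ k, |(Module.finBasis ℝ V).coord k (R t)| := rfl
      linarith
    have e3 : ∀ i ∈ σ \ τ, 0 ≤ lam i (BB p t) := by
      intro i hi
      have := (Finset.sum_eq_zero_iff_of_nonneg n1).1 e1 i hi
      have h2 := le_max_left (-(lam i (BB p t))) 0
      linarith
    have e4 : R t = 0 := by
      have h := (Finset.sum_eq_zero_iff_of_nonneg n2).1 e2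
      refine (Module.finBasis ℝ V).ext_elem fun k => ?_
      rw [map_zero, Finsupp.zero_apply]
      exact abs_eq_zero.1 (h k (Finset.mem_univ k))
    have e5 : BB p t = ∑ i ∈ σ, lam i (BB p t) • p i := by
      rw [hR, sub_eq_zero] at e4
      exact e4
    let s : X → ℝ := fun x => if x ∈ σ ∧ x ∈ τ then max (-(lam x (BB p t))) 0 else 0
    let v : X → ℝ := fun x => if x ∈ σ then lam x (BB p t) + s x else 0
    have hs0 : ∀ x, 0 ≤ s x := by
      intro x
      simp only [s]
      split_ifs
      · exact le_max_right _ _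
      · exact le_rfl
    have hsσ : ∀ x, x ∉ σ → s x = 0 := fun x hx => if_neg fun h => hx h.1
    have hu : t + s ∈ cone K := by
      refine mem_cone_of hτ (fun x => add_nonneg (ht0 x) (hs0 x)) fun x hx => ?_
      show t x + s x = 0
      rw [hts x fun h => hx (Finset.mem_sdiff.1 h).1, zero_add]
      exact if_neg fun h => hx h.2
    have hv : v ∈ cone K := by
      refine mem_cone_of hσ (fun x => ?_) fun x hx => if_neg hx
      simp only [v]
      split_ifs with hx
      · by_cases hxτ : x ∈ τ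
        · have : s x = max (-(lam x (BB p t))) 0 := if_pos ⟨hx, hxτ⟩
          rw [this]
          have := le_max_left (-(lam x (BB p t))) 0
          linarith
        · exact add_nonneg (e3 x (Finset.mem_sdiff.2 ⟨hx, hxτ⟩)) (hs0 x)
      · exact le_rfl
    have huv : BB p (t + s) = BB p v := by
      rw [map_add, BB_supp p (t := v) (σ := σ) fun x hx => if_neg hx, BB_supp p hsσ]
      conv_lhs => rw [e5]
      rw [← Finset.sum_add_distrib]
      refine Finset.sum_congr rfl fun x hx => ?_
      have : v x = lam x (BB p t) + s x := if_pos hx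
      rw [this, add_smul]
    have hEq := hp hu hv huv
    have hall : ∀ x, t x = 0 := by
      intro x
      by_cases hx : x ∈ σ
      · exact hts x fun h => (Finset.mem_sdiff.1 h).2 hx
      · have h1 : t x + s x = v x := congrFun hEq x
        have h2 : v x = 0 := if_neg hx
        rw [h2, hsσ x hx, add_zero] at h1
        exact h1
    rw [Finset.sum_eq_zero fun x _ => hall x] at ht1
    exact zero_ne_one ht1
  -- homogeneity
  have hDh : ∀ (c : ℝ) (t : X → ℝ), 0 ≤ c → D (c • t) = c * D t := by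
    intro c t hc
    simp only [D]
    rw [mul_add, Finset.mul_sum, Finset.mul_sum]
    congr 1
    · refine Finset.sum_congr rfl fun i _ => ?_
      rw [map_smul, map_smul, smul_eq_mul, mul_max_of_nonneg _ _ hc, mul_zero, mul_neg]
    · refine Finset.sum_congr rfl fun k _ => ?_
      rw [map_smul, map_smul, smul_eq_mul, abs_mul, abs_of_nonneg hc]
  -- comparison with `dd`
  have hcmp : ∀ t : X → ℝ, (∀ x, x ∉ τ → t x = 0) →
      D (fun x => if x ∈ σ then 0 else t x) ≤ dd p σ lam (BB p t) := by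
    intro t ht
    have hsplit : t = (fun x => if x ∈ σ then t x else 0) +
        fun x => if x ∈ σ then 0 else t x := by
      ext x
      show t x = (if x ∈ σ then t x else 0) + if x ∈ σ then 0 else t x
      split_ifs <;> simp
    have h1 : ∀ x, x ∉ σ → (fun x => if x ∈ σ then t x else 0) x = 0 := fun x hx => if_neg hx
    have hR1 : R (fun x => if x ∈ σ then t x else 0) = 0 := by
      rw [hR]; exact res_zero hlam h1
    have hR2 : R t = R (fun x => if x ∈ σ then 0 else t x) := by
      conv_lhs => rw [hsplit]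
      rw [map_add, hR1, zero_add]
    have hl2 : ∀ i ∈ σ \ τ, lam i (BB p t) =
        lam i (BB p (fun x => if x ∈ σ then 0 else t x)) := by
      intro i hi
      rw [Finset.mem_sdiff] at hi
      conv_lhs => rw [hsplit]
      rw [map_add, map_add, sum_lam hlam h1 hi.1]
      have : (if i ∈ σ then t i else 0) = 0 := by rw [if_pos hi.1, ht i hi.2]
      rw [this, zero_add]
    simp only [D]
    unfold dd
    refine add_le_add ?_ (le_of_eq ?_)
    · rw [Finset.sum_congr rfl fun i hi => by rw [← hl2 i hi]]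
      exact Finset.sum_le_sum_of_subset_of_nonneg Finset.sdiff_subset
        fun i _ _ => le_max_right _ _
    · refine Finset.sum_congr rfl fun k _ => ?_
      rw [← hR2, hR]
  let C1 : ℝ := ∑ x, |l (p x) - f x|
  have hC1 : 0 ≤ C1 := Finset.sum_nonneg fun _ _ => abs_nonneg _
  have hh : ∀ t : X → ℝ, (∀ x, 0 ≤ t x) → l (BB p t) - ∑ x, f x * t x ≤
      C1 * ∑ x, (if x ∈ σ then 0 else t x) := by
    intro t h0
    rw [BB_apply, map_sum, ← Finset.sum_sub_distrib, Finset.mul_sum]
    refine Finset.sum_le_sum fun x _ => ?_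
    rw [map_smul, smul_eq_mul]
    split_ifs with hx
    · rw [hl x hx, mul_zero, mul_comm, sub_self]
    · have h1 : l (p x) - f x ≤ C1 := (le_abs_self _).trans
        (Finset.single_le_sum (f := fun x => |l (p x) - f x|) (fun _ _ => abs_nonneg _)
          (Finset.mem_univ x))
      nlinarith [h0 x]
  have hm : ∀ t : X → ℝ, (∀ x, 0 ≤ t x) → (∀ x, x ∉ τ → t x = 0) →
      0 < ∑ x, (if x ∈ σ then 0 else t x) →
      (∑ x, (if x ∈ σ then 0 else t x))⁻¹ • (fun x => if x ∈ σ then 0 else t x) ∈ S := by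
    intro t h0 ht hpos
    refine ⟨⟨fun x => mul_nonneg (inv_nonneg.2 hpos.le) ?_, ?_⟩, fun x hx => ?_⟩
    · show 0 ≤ if x ∈ σ then 0 else t x
      split_ifs
      · exact le_rfl
      · exact h0 x
    · show ∑ x, (∑ x, (if x ∈ σ then 0 else t x))⁻¹ * (if x ∈ σ then 0 else t x) = 1
      rw [← Finset.mul_sum, inv_mul_cancel₀ hpos.ne']
    · show (∑ x, (if x ∈ σ then 0 else t x))⁻¹ * (if x ∈ σ then 0 else t x) = 0
      split_ifs with hxσ
      · rw [mul_zero]
      · rw [ht x fun h => hx (Finset.mem_sdiff.2 ⟨h, hxσ⟩), mul_zero]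
  have hsum0 : ∀ t : X → ℝ, (∀ x, 0 ≤ t x) → 0 ≤ ∑ x, (if x ∈ σ then 0 else t x) := by
    intro t h0
    refine Finset.sum_nonneg fun x _ => ?_
    split_ifs
    · exact le_rfl
    · exact h0 x
  rcases S.eq_empty_or_nonempty with hSe | hSn
  · refine ⟨0, le_rfl, fun t h0 ht => ?_⟩
    rw [zero_mul]
    rcases (hsum0 t h0).lt_or_eq with h | h
    · exact absurd (hm t h0 ht h) (by rw [hSe]; exact Set.notMem_empty _)
    · refine (hh t h0).trans ?_
      rw [← h, mul_zero]
  · obtain ⟨t₀, ht₀, hmin⟩ := hSc.exists_isMinOn hSn hDc.continuousOn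
    have hc := hDpos t₀ ht₀
    refine ⟨C1 / D t₀, div_nonneg hC1 hc.le, fun t h0 ht => ?_⟩
    refine (hh t h0).trans ?_
    have key : D t₀ * ∑ x, (if x ∈ σ then 0 else t x) ≤ dd p σ lam (BB p t) := by
      refine le_trans ?_ (hcmp t ht)
      rcases (hsum0 t h0).lt_or_eq with h | h
      · have h1 : D t₀ ≤ D ((∑ x, (if x ∈ σ then 0 else t x))⁻¹ •
            (fun x => if x ∈ σ then 0 else t x)) := hmin (hm t h0 ht h)
        rw [hDh _ _ (inv_nonneg.2 h.le)] at h1
        have h2 := mul_le_mul_of_nonneg_right h1 h.le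
        rwa [mul_comm (∑ x, (if x ∈ σ then 0 else t x))⁻¹, mul_assoc, inv_mul_cancel₀ h.ne',
          mul_one] at h2
      · rw [← h, mul_zero]
        exact add_nonneg (Finset.sum_nonneg fun _ _ => le_max_right _ _)
          (Finset.sum_nonneg fun _ _ => abs_nonneg _)
    calc C1 * ∑ x, (if x ∈ σ then 0 else t x)
        = C1 / D t₀ * (D t₀ * ∑ x, (if x ∈ σ then 0 else t x)) := by
          field_simp
      _ ≤ C1 / D t₀ * dd p σ lam (BB p t) :=
          mul_le_mul_of_nonneg_left key (div_nonneg hC1 hc.le)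

/-- A function which is linear on the cones extends to a piecewise linear function. -/
theorem ext_pl {K : Set (Finset X)} (hK : IsCx K) {p : X → V}
    (hp : Set.InjOn (fun t => BB p t) (cone K)) (f : X → ℝ) :
    ∃ φ : V → ℝ, IsPL φ ∧ ∀ t ∈ cone K, φ (BB p t) = ∑ x, f x * t x := by
  classical
  have hlam : ∀ σ : K, ∃ lam : X → V →ₗ[ℝ] ℝ,
      ∀ i ∈ σ.1, ∀ j ∈ σ.1, lam i (p j) = if i = j then 1 else 0 := by
    intro σ
    choose lam hl using fun i : X => exists_lin hp σ.2 (fun j => if i = j then 1 else 0)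
    exact ⟨lam, fun i _ j hj => hl i j hj⟩
  choose lam hlam using hlam
  choose l hl using fun σ : K => exists_lin hp σ.2 f
  choose C hC0 hC using fun (σ τ : K) => bound hp σ.2 τ.2 (hlam σ) f (hl σ)
  have : Finite K := inferInstance
  have := Fintype.ofFinite K
  let M : ℝ := ∑ σ, ∑ τ, C σ τ
  have hM : ∀ σ τ, C σ τ ≤ M := fun σ τ =>
    (Finset.single_le_sum (f := fun τ => C σ τ) (fun τ _ => hC0 σ τ) (Finset.mem_univ τ)).trans
      (Finset.single_le_sum (f := fun σ => ∑ τ, C σ τ)
        (fun σ _ => Finset.sum_nonneg fun τ _ => hC0 σ τ) (Finset.mem_univ σ))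
  have hne : (Finset.univ : Finset K).Nonempty := ⟨⟨∅, hK.1⟩, Finset.mem_univ _⟩
  refine ⟨fun z => Finset.univ.sup' hne fun σ : K => l σ z - M * dd p σ.1 (lam σ) z,
    IsPL.sup' _ hne fun σ _ => (IsPL.lin (l σ)).sub (IsPL.smul M (dd_pl p σ.1 (lam σ))), ?_⟩
  intro t ht
  obtain ⟨h0, τ, hτ, hts⟩ := ht
  apply le_antisymm
  · refine Finset.sup'_le _ _ fun σ _ => ?_
    have h1 := hC σ ⟨τ, hτ⟩ t h0 hts
    have h2 := mul_le_mul_of_nonneg_right (hM σ ⟨τ, hτ⟩) (dd_nonneg p σ.1 (lam σ) (BB p t))
    linarith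
  · refine le_trans (le_of_eq ?_) (Finset.le_sup' (fun σ : K =>
      l σ (BB p t) - M * dd p σ.1 (lam σ) (BB p t)) (Finset.mem_univ ⟨τ, hτ⟩))
    show _ = l ⟨τ, hτ⟩ (BB p t) - M * dd p τ (lam ⟨τ, hτ⟩) (BB p t)
    rw [dd_zero (hlam ⟨τ, hτ⟩) h0 hts, mul_zero, sub_zero, BB_supp p hts, map_sum]
    rw [← Finset.sum_subset (Finset.subset_univ τ) fun x _ hx => by rw [hts x hx, mul_zero]]
    refine Finset.sum_congr rfl fun x hx => ?_
    rw [map_smul, hl ⟨τ, hτ⟩ x hx, smul_eq_mul, mul_comm]

end ext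

section shear

variable [FiniteDimensional ℝ V]

/-- `T` is a piecewise linear homeomorphism of `V` with inverse `T'`. -/
structure PLHomeo (T T' : V → V) : Prop where
  pl : PLMap T
  pl' : PLMap T'
  left : ∀ y, T' (T y) = y
  right : ∀ y, T (T' y) = y

omit [FiniteDimensional ℝ V] in
theorem PLHomeo.refl : PLHomeo (fun y : V => y) (fun y : V => y) :=
  ⟨PLMap.id, PLMap.id, fun _ => rfl, fun _ => rfl⟩

omit [FiniteDimensional ℝ V] in
theorem PLHomeo.trans {T T' S S' : V → V} (h : PLHomeo T T') (h2 : PLHomeo S S') :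
    PLHomeo (fun y => S (T y)) (fun y => T' (S' y)) :=
  ⟨h2.pl.comp h.pl, h.pl'.comp h2.pl', fun y => by rw [h2.left, h.left],
    fun y => by rw [h.right, h2.right]⟩

/-- Moving one vertex by a vector outside the spans of the unions of two faces. -/
theorem move_one {K : Set (Finset X)} (hK : IsCx K) {p : X → V}
    (hp : Set.InjOn (fun t => BB p t) (cone K)) (x : X) (w : V)
    (hw : ∀ σ ∈ K, ∀ τ ∈ K, w ∉ Submodule.span ℝ (p '' (σ ∪ τ : Set X))) :
    ∃ T T' : V → V, PLHomeo T T' ∧
      (∀ t ∈ cone K, T (BB p t) = BB (Function.update p x (p x + w)) t) ∧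
      Set.InjOn (fun t => BB (Function.update p x (p x + w)) t) (cone K) := by
  classical
  let W : Submodule ℝ V := Submodule.span ℝ {w}
  let q : X → V ⧸ W := fun y => W.mkQ (p y)
  have hBq : ∀ t, BB q t = W.mkQ (BB p t) := by
    intro t
    rw [BB_apply, BB_apply, map_sum]
    exact Finset.sum_congr rfl fun y _ => (map_smul _ _ _).symm
  have hq : Set.InjOn (fun t => BB q t) (cone K) := by
    intro t ht s hs hts
    have h1 : W.mkQ (BB p t) = W.mkQ (BB p s) := by rw [← hBq, ← hBq]; exact hts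
    have h2 : BB p t - BB p s ∈ W := by
      rw [← Submodule.ker_mkQ W, LinearMap.mem_ker, map_sub, h1, sub_self]
    obtain ⟨c, hc⟩ := Submodule.mem_span_singleton.1 h2
    obtain ⟨t0, σ, hσ, htσ⟩ := ht
    obtain ⟨s0, τ, hτ, hsτ⟩ := hs
    have h3 : BB p t - BB p s ∈ Submodule.span ℝ (p '' (σ ∪ τ : Set X)) := by
      refine Submodule.sub_mem _ ?_ ?_
      · rw [BB_supp p htσ]
        exact Submodule.sum_mem _ fun y hy => Submodule.smul_mem _ _
          (Submodule.subset_span ⟨y, Or.inl hy, rfl⟩)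
      · rw [BB_supp p hsτ]
        exact Submodule.sum_mem _ fun y hy => Submodule.smul_mem _ _
          (Submodule.subset_span ⟨y, Or.inr hy, rfl⟩)
    have hc0 : c = 0 := by
      by_contra hc0
      apply hw σ hσ τ hτ
      have : w = c⁻¹ • (BB p t - BB p s) := by rw [← hc, smul_smul, inv_mul_cancel₀ hc0, one_smul]
      rw [this]
      exact Submodule.smul_mem _ _ h3
    rw [hc0, zero_smul] at hc
    exact hp ⟨t0, σ, hσ, htσ⟩ ⟨s0, τ, hτ, hsτ⟩ (sub_eq_zero.1 hc.symm)
  obtain ⟨φ, hφ, hφt⟩ := ext_pl hK hq (Pi.single x 1)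
  have hψ : IsPL (fun y : V => φ (W.mkQ y)) := hφ.comp (PLMap.lin W.mkQ)
  have hWw : ∀ (y : V) (c : ℝ), W.mkQ (y + c • w) = W.mkQ y := by
    intro y c
    rw [map_add, map_smul]
    have : W.mkQ w = 0 := by
      rw [← LinearMap.mem_ker, Submodule.ker_mkQ]
      exact Submodule.mem_span_singleton_self w
    rw [this, smul_zero, add_zero]
  have hT : PLHomeo (fun y : V => y + φ (W.mkQ y) • w) (fun y : V => y - φ (W.mkQ y) • w) := by
    refine ⟨PLMap.id.add (PLMap.smul_const hψ w), PLMap.id.sub (PLMap.smul_const hψ w),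
      fun y => ?_, fun y => ?_⟩
    · show y + φ (W.mkQ y) • w - φ (W.mkQ (y + φ (W.mkQ y) • w)) • w = y
      rw [hWw, add_sub_cancel_right]
    · show y - φ (W.mkQ y) • w + φ (W.mkQ (y - φ (W.mkQ y) • w)) • w = y
      rw [sub_eq_add_neg y, ← neg_smul, hWw, neg_smul, neg_add_cancel_right]
  have hval : ∀ t ∈ cone K, BB p t + φ (W.mkQ (BB p t)) • w =
      BB (Function.update p x (p x + w)) t := by
    intro t ht
    rw [← hBq, hφt t ht]
    have h1 : ∑ y, (Pi.single x (1 : ℝ) : X → ℝ) y * t y = t x := by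
      rw [Finset.sum_eq_single x]
      · rw [Pi.single_eq_same, one_mul]
      · intro y _ hy
        rw [Pi.single_eq_of_ne hy, zero_mul]
      · intro h
        exact absurd (Finset.mem_univ x) h
    rw [h1, BB_apply, BB_apply, ← Finset.add_sum_erase _ _ (Finset.mem_univ x),
      ← Finset.add_sum_erase _ (fun y => t y • Function.update p x (p x + w) y)
        (Finset.mem_univ x), Function.update_self, smul_add]
    have h2 : ∑ y ∈ Finset.univ.erase x, t y • Function.update p x (p x + w) y =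
        ∑ y ∈ Finset.univ.erase x, t y • p y :=
      Finset.sum_congr rfl fun y hy => by
        rw [Function.update_of_ne (Finset.ne_of_mem_erase hy)]
    rw [h2]
    abel
  refine ⟨_, _, hT, hval, fun t ht s hs hts => ?_⟩
  apply hp ht hs
  show BB p t = BB p s
  have h1 : BB p t + φ (W.mkQ (BB p t)) • w = BB p s + φ (W.mkQ (BB p s)) • w := by
    rw [hval t ht, hval s hs]
    exact hts
  have h2 := congrArg (fun y : V => y - φ (W.mkQ y) • w) h1
  exact (hT.left _).symm.trans (h2.trans (hT.left _))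

end shear


section moment

variable {n : ℕ}

/-- A moment curve. -/
noncomputable def mom (b : Module.Basis (Fin n) ℝ V) (r : ℝ) : V :=
  ∑ k : Fin n, r ^ (k.1 + 1) • b k

/-- At most `n` points of the moment curve with distinct nonzero parameters are independent. -/
theorem mom_indep (b : Module.Basis (Fin n) ℝ V) {ι : Type*} (T : Finset ι) (s : ι → ℝ)
    (hs : Set.InjOn s T) (h0 : ∀ i ∈ T, s i ≠ 0) (hT : T.card ≤ n) :
    LinearIndependent ℝ (fun i : T => mom b (s i)) := by
  classical
  rw [Fintype.linearIndependent_iff]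
  intro g hg j
  have hk : ∀ k : Fin n, ∑ i : T, g i * s i ^ (k.1 + 1) = 0 := by
    intro k
    have h := congrArg (b.coord k) hg
    rw [map_sum, map_zero] at h
    rw [← h]
    refine Finset.sum_congr rfl fun i _ => ?_
    rw [map_smul, smul_eq_mul]
    congr 1
    unfold mom
    rw [map_sum, Finset.sum_eq_single k]
    · rw [map_smul, Module.Basis.coord_apply, Module.Basis.repr_self, Finsupp.single_eq_same,
        smul_eq_mul, mul_one]
    · intro m _ hm
      rw [map_smul, Module.Basis.coord_apply, Module.Basis.repr_self,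
        Finsupp.single_eq_of_ne (Ne.symm hm), smul_zero]
    · intro h
      exact absurd (Finset.mem_univ k) h
  let P : Polynomial ℝ := ∏ i ∈ T.erase j, (Polynomial.X - Polynomial.C (s i))
  have hdeg : P.natDegree < n := by
    have h1 : P.natDegree = (T.erase j).card := by
      rw [Polynomial.natDegree_prod_of_monic _ _ fun i _ => Polynomial.monic_X_sub_C _]
      simp
    rw [h1]
    exact (Finset.card_erase_lt_of_mem j.2).trans_le hT
  have hsum : ∑ i : T, g i * (s i * P.eval (s i)) = 0 := by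
    have h1 : ∀ i : T, g i * (s i * P.eval (s i)) =
        ∑ k ∈ Finset.range n, P.coeff k * (g i * s i ^ (k + 1)) := by
      intro i
      rw [Polynomial.eval_eq_sum_range' hdeg, Finset.mul_sum, Finset.mul_sum]
      refine Finset.sum_congr rfl fun k _ => ?_
      ring
    rw [Finset.sum_congr rfl fun i _ => h1 i, Finset.sum_comm]
    refine Finset.sum_eq_zero fun k hk' => ?_
    rw [← Finset.mul_sum, hk ⟨k, Finset.mem_range.1 hk'⟩, mul_zero]
  rw [Finset.sum_eq_single j] at hsum
  · have h1 : P.eval (s j) ≠ 0 := by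
      rw [Polynomial.eval_prod]
      refine Finset.prod_ne_zero_iff.2 fun i hi => ?_
      rw [Polynomial.eval_sub, Polynomial.eval_X, Polynomial.eval_C, sub_ne_zero]
      intro h
      exact Finset.ne_of_mem_erase hi (hs (Finset.mem_of_mem_erase hi) j.2 h.symm)
    rcases mul_eq_zero.1 hsum with h | h
    · exact h
    · rcases mul_eq_zero.1 h with h | h
      · exact absurd h (h0 j j.2)
      · exact absurd h h1
  · intro i _ hij
    have h1 : P.eval (s i) = 0 := by
      rw [Polynomial.eval_prod]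
      refine Finset.prod_eq_zero (i := i.1)
        (Finset.mem_erase.2 ⟨fun h => hij (Subtype.ext h), i.2⟩) ?_
      rw [Polynomial.eval_sub, Polynomial.eval_X, Polynomial.eval_C, sub_self]
    rw [h1, mul_zero, mul_zero]
  · intro h
    exact absurd (Finset.mem_univ j) h

/-- A nonzero functional takes a value on the moment curve only finitely often. -/
theorem mom_finite (b : Module.Basis (Fin n) ℝ V) {l : V →ₗ[ℝ] ℝ} (hl : l ≠ 0) (c : ℝ) :
    {r : ℝ | l (mom b r) = c}.Finite := by
  classical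
  let Q : Polynomial ℝ := ∑ k : Fin n, Polynomial.C (l (b k)) * Polynomial.X ^ (k.1 + 1) -
    Polynomial.C c
  have hQ : Q ≠ 0 := by
    intro h
    apply hl
    refine b.ext fun k => ?_
    have h1 := congrArg (fun q : Polynomial ℝ => q.coeff (k.1 + 1)) h
    simp only [Q, Polynomial.coeff_sub, Polynomial.finsetSum_coeff,
      Polynomial.coeff_C_mul_X_pow, Polynomial.coeff_zero] at h1
    rw [Finset.sum_eq_single k, if_pos rfl, Polynomial.coeff_C, if_neg (Nat.succ_ne_zero _),
      sub_zero] at h1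
    · rw [h1, LinearMap.zero_apply]
    · intro m _ hm
      exact if_neg fun h => hm (Fin.ext (Nat.succ_injective h).symm)
    · intro h
      exact absurd (Finset.mem_univ k) h
  refine (Q.roots.toFinset.finite_toSet).subset fun r hr => ?_
  rw [Finset.mem_coe, Multiset.mem_toFinset, Polynomial.mem_roots hQ, Polynomial.IsRoot.def]
  simp only [Q, Polynomial.eval_sub, Polynomial.eval_finsetSum, Polynomial.eval_mul,
    Polynomial.eval_C, Polynomial.eval_pow, Polynomial.eval_X]
  have hr' : l (mom b r) = c := hr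
  rw [sub_eq_zero, ← hr', mom, map_sum]
  refine Finset.sum_congr rfl fun k _ => ?_
  rw [map_smul, smul_eq_mul, mul_comm]

/-- Moving the vertices of `S` to the moment curve. -/
theorem move_all (b : Module.Basis (Fin n) ℝ V) {K : Set (Finset X)} (hK : IsCx K) {p : X → V}
    (hp : Set.InjOn (fun t => BB p t) (cone K)) (hc : ∀ σ ∈ K, ∀ τ ∈ K, (σ ∪ τ).card < n)
    (S : Finset X) : ∃ s : X → ℝ, Set.InjOn s S ∧ (∀ x ∈ S, s x ≠ 0) ∧
      Set.InjOn (fun t => BB (fun x => if x ∈ S then mom b (s x) else p x) t) (cone K) ∧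
      ∃ T T' : V → V, PLHomeo T T' ∧
        ∀ t ∈ cone K, T (BB p t) = BB (fun x => if x ∈ S then mom b (s x) else p x) t := by
  classical
  have : FiniteDimensional ℝ V := b.finiteDimensional_of_finite
  induction S using Finset.induction_on with
  | empty =>
    refine ⟨fun _ => 0, by simp, by simp, ?_, _, _, PLHomeo.refl, fun t _ => ?_⟩
    · simpa using hp
    · simp
  | insert x S hx ih =>
    obtain ⟨s, hs, hs0, hinj, T, T', hT, hTt⟩ := ih
    set q : X → V := fun x => if x ∈ S then mom b (s x) else p x with hq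
    have hex : ∀ u : K × K, ∃ l : V →ₗ[ℝ] ℝ, l ≠ 0 ∧
        Submodule.span ℝ (q '' ((u.1.1 : Set X) ∪ u.2.1)) ≤ LinearMap.ker l := by
      intro u
      apply Submodule.exists_le_ker_of_lt_top
      rw [lt_top_iff_ne_top]
      intro h
      have h1 : Module.finrank ℝ (Submodule.span ℝ (q '' ((u.1.1 ∪ u.2.1 : Finset X) : Set X))) ≤
          (u.1.1 ∪ u.2.1).card := by
        rw [← Finset.coe_image]
        exact (finrank_span_finset_le_card _).trans Finset.card_image_le
      rw [Finset.coe_union, h, finrank_top, Module.finrank_eq_card_basis b, Fintype.card_fin]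
        at h1
      exact absurd h1 (not_le.2 (hc _ u.1.2 _ u.2.2))
    choose l hl0 hl using hex
    have hfin : (((⋃ u : K × K, {r : ℝ | l u (mom b r) = l u (q x)}) ∪
        (s '' (S : Set X))) ∪ {0}).Finite :=
      ((Set.finite_iUnion fun u => mom_finite b (hl0 u) _).union
        ((S.finite_toSet).image s)).union (Set.finite_singleton 0)
    obtain ⟨r, hr⟩ := hfin.exists_notMem
    rw [Set.mem_union, Set.mem_union, Set.mem_iUnion, Set.mem_singleton_iff, not_or, not_or]
      at hr
    obtain ⟨⟨hr1, hr2⟩, hr3⟩ := hr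
    obtain ⟨U, U', hU, hUt, hUinj⟩ := move_one hK hinj x (mom b r - q x) (by
      intro σ hσ τ hτ hmem
      apply hr1
      refine ⟨(⟨σ, hσ⟩, ⟨τ, hτ⟩), ?_⟩
      have h1 := hl (⟨σ, hσ⟩, ⟨τ, hτ⟩) hmem
      rw [LinearMap.mem_ker, map_sub, sub_eq_zero] at h1
      exact h1)
    have hupd : Function.update q x (q x + (mom b r - q x)) =
        fun y => if y ∈ insert x S then mom b (Function.update s x r y) else p y := by
      funext y
      by_cases hy : y = x
      · subst hy
        rw [Function.update_self, if_pos (Finset.mem_insert_self _ _), Function.update_self]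
        abel
      · rw [Function.update_of_ne hy, Function.update_of_ne hy]
        simp only [hq, Finset.mem_insert, hy, false_or]
    rw [hupd] at hUt hUinj
    refine ⟨Function.update s x r, ?_, ?_, hUinj, _, _, hT.trans hU, fun t ht => ?_⟩
    · intro y hy z hz hyz
      rw [Finset.coe_insert] at hy hz
      rcases hy with hy | hy <;> rcases hz with hz | hz
      · rw [hy, hz]
      · exfalso
        have hzx : z ≠ x := fun h => hx (h ▸ hz)
        rw [hy, Function.update_self, Function.update_of_ne hzx] at hyz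
        exact hr2 ⟨z, hz, hyz.symm⟩
      · exfalso
        have hyx : y ≠ x := fun h => hx (h ▸ hy)
        rw [hz, Function.update_self, Function.update_of_ne hyx] at hyz
        exact hr2 ⟨y, hy, hyz⟩
      · have hyx : y ≠ x := fun h => hx (h ▸ hy)
        have hzx : z ≠ x := fun h => hx (h ▸ hz)
        rw [Function.update_of_ne hyx, Function.update_of_ne hzx] at hyz
        exact hs hy hz hyz
    · intro y hy
      rcases Finset.mem_insert.1 hy with h | h
      · rw [h, Function.update_self]; exact hr3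
      · have hyx : y ≠ x := fun h' => hx (h' ▸ h)
        rw [Function.update_of_ne hyx]; exact hs0 y h
    · show U (T (BB p t)) = _
      rw [hTt t ht, hUt t ht]

/-- Special positions can be moved to generic positions. -/
theorem bridge (b : Module.Basis (Fin n) ℝ V) {K : Set (Finset X)} (hK : IsCx K) {p : X → V}
    (hp : Set.InjOn (fun t => BB p t) (cone K)) (hc : ∀ σ ∈ K, ∀ τ ∈ K, (σ ∪ τ).card < n) :
    ∃ s : X → ℝ, Function.Injective s ∧ (∀ x, s x ≠ 0) ∧
      ∃ T T' : V → V, PLHomeo T T' ∧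
        ∀ t ∈ cone K, T (BB p t) = BB (fun x => mom b (s x)) t := by
  obtain ⟨s, h1, h2, -, T, T', hT, h⟩ := move_all b hK hp hc Finset.univ
  refine ⟨s, fun x y hxy => h1 (Finset.mem_coe.2 (Finset.mem_univ x))
    (Finset.mem_coe.2 (Finset.mem_univ y)) hxy, fun x => h2 x (Finset.mem_univ x), T, T', hT,
    fun t ht => ?_⟩
  rw [h t ht]
  congr 2
  funext x
  exact if_pos (Finset.mem_univ x)

/-- Extension of the parameters along an injection into `ℕ`. -/
theorem exists_generic_extension {Y : Type*} [Finite Y] (e : Y → ℕ) (he : Function.Injective e)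
    (s : Y → ℝ) (hs : Function.Injective s) (hs0 : ∀ y, s y ≠ 0) :
    ∃ S : ℕ → ℝ, Function.Injective S ∧ (∀ i, S i ≠ 0) ∧ ∀ y, S (e y) = s y := by
  classical
  have := Fintype.ofFinite Y
  obtain ⟨M, hM⟩ : ∃ M : ℝ, ∀ y, s y < M := by
    obtain ⟨M, hM⟩ := (Set.finite_range s).bddAbove
    exact ⟨M + 1, fun y => lt_of_le_of_lt (hM ⟨y, rfl⟩) (lt_add_one M)⟩
  let N : ℝ := max M 1
  have hN : ∀ y, s y < N := fun y => (hM y).trans_le (le_max_left _ _)
  have hN1 : 1 ≤ N := le_max_right _ _
  refine ⟨fun i => if h : ∃ y, e y = i then s h.choose else N + i, ?_, ?_, ?_⟩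
  · intro i j hij
    simp only at hij
    by_cases hi : ∃ y, e y = i <;> by_cases hj : ∃ y, e y = j
    · rw [dif_pos hi, dif_pos hj] at hij
      have h := hs hij
      rw [← hi.choose_spec, ← hj.choose_spec, h]
    · rw [dif_pos hi, dif_neg hj] at hij
      have := hN hi.choose
      have h2 : (0 : ℝ) ≤ j := Nat.cast_nonneg j
      linarith
    · rw [dif_neg hi, dif_pos hj] at hij
      have := hN hj.choose
      have h2 : (0 : ℝ) ≤ i := Nat.cast_nonneg i
      linarith
    · rw [dif_neg hi, dif_neg hj] at hij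
      exact_mod_cast add_left_cancel hij
  · intro i
    simp only
    split_ifs with hi
    · exact hs0 _
    · have h2 : (0 : ℝ) ≤ i := Nat.cast_nonneg i
      linarith
  · intro y
    have h : ∃ y', e y' = e y := ⟨y, rfl⟩
    simp only
    rw [dif_pos h]
    congr 1
    exact he h.choose_spec

end moment

end Brg

end Pool.Agent.DF302A
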