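import Pool.Agent.Work.MP_df302a_co.GU
import Pool.Agent.Work.MP_df302a_co.Bridge

/-!
# MP_df302a_co : the bridge for the predicate `Good`

If the realisation of `K` with the special positions `p` is injective on the cone of `K`, then
`Good` for the special positions is equivalent to `Good` for generic positions on a moment curve.
-/

set_option autoImplicit false

namespace Pool.Agent.DF302A

open Finset

variable {W : Type*} [AddCommGroup W] [Module ℝ W]

theorem BB_eq_linP {X : Type*} [Fintype X] (p : X → W) (t : X → ℝ) :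
    Brg.BB p t = linP p t := rfl

/-- the polyhedral cone of a complex is the image of its abstract cone -/
theorem cK_eq_image {X : Type*} [Fintype X] [DecidableEq X] (p : X → W) (K : Set (Finset X)) :
    cK p K = (fun t => linP p t) '' cone K := by
  ext y
  constructor
  · rintro ⟨c, hc, t, ht, rfl⟩
    refine ⟨fun x => if x ∈ c then t x else 0, ⟨fun x => ?_, c, hc, fun x hx => if_neg hx⟩, ?_⟩
    · show 0 ≤ if x ∈ c then t x else 0
      split_ifs with h
      · exact ht x h
      · exact le_rfl
    · show linP p (fun x => if x ∈ c then t x else 0) = _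
      rw [linP_apply, ← Finset.sum_subset (Finset.subset_univ c)]
      · exact Finset.sum_congr rfl fun x hx => by rw [if_pos hx]
      · intro x _ hx
        rw [if_neg hx, zero_smul]
  · rintro ⟨t, ⟨h0, c, hc, h⟩, rfl⟩
    refine ⟨c, hc, t, fun x _ => h0 x, ?_⟩
    show linP p t = _
    rw [linP_apply]
    refine (Finset.sum_subset (Finset.subset_univ c) fun x _ hx => ?_).symm
    rw [h x hx, zero_smul]

/-- relabelling the vertices -/
theorem cK_map {X Y : Type*} [DecidableEq X] [DecidableEq Y] {e : X → Y}
    (he : Function.Injective e) {p : X → W} {q : Y → W} (hq : ∀ x, q (e x) = p x)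
    (K : Set (Finset X)) : cK q ((fun σ : Finset X => σ.image e) '' K) = cK p K := by
  ext y
  constructor
  · rintro ⟨c, ⟨σ, hσ, rfl⟩, t, ht, rfl⟩
    refine ⟨σ, hσ, fun x => t (e x), fun x hx => ht _ (Finset.mem_image_of_mem e hx), ?_⟩
    rw [Finset.sum_image fun x _ y _ h => he h]
    exact Finset.sum_congr rfl fun x _ => by rw [hq]
  · rintro ⟨σ, hσ, t, ht, rfl⟩
    refine ⟨σ.image e, ⟨σ, hσ, rfl⟩, Function.extend e t 0, ?_, ?_⟩
    · intro y hy
      obtain ⟨x, hx, rfl⟩ := Finset.mem_image.1 hy
      rw [he.extend_apply]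
      exact ht x hx
    · rw [Finset.sum_image fun x _ y _ h => he h]
      exact Finset.sum_congr rfl fun x _ => by rw [hq, he.extend_apply]

/-- generic positions on the moment curve -/
theorem ind_mom {n : ℕ} (b : Module.Basis (Fin n) ℝ W) {S : ℕ → ℝ} (hS : Function.Injective S)
    (h0 : ∀ i, S i ≠ 0) (c : Finset ℕ) (hc : c.card ≤ n) : Ind (fun i => Brg.mom b (S i)) c :=
  Brg.mom_indep b c S hS.injOn (fun i _ => h0 i) hc

/-- (III) the bridge from special to generic positions -/
theorem bridge_good [FiniteDimensional ℝ W] {n : ℕ} (hn : Module.finrank ℝ W = n)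
    {X : Type*} [Fintype X] [DecidableEq X] {K : Set (Finset X)} (hK : IsCx K)
    (hc : ∀ σ ∈ K, ∀ τ ∈ K, (σ ∪ τ).card < n) {p : X → W}
    (hp : Set.InjOn (fun t => linP p t) (cone K)) {e : X → ℕ} (he : Function.Injective e) :
    ∃ q : ℕ → W, (∀ c : Finset ℕ, c.card ≤ n → Ind q c) ∧
      (Good (cK p K) ↔ Good (cK q ((fun σ : Finset X => σ.image e) '' K))) := by
  obtain ⟨s, hs, hs0, T, T', hT, hTt⟩ := Brg.bridge (Module.finBasisOfFinrankEq ℝ W hn) hK hp hc
  obtain ⟨S, hS, hS0, hSe⟩ := Brg.exists_generic_extension e he s hs hs0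
  refine ⟨fun i => Brg.mom (Module.finBasisOfFinrankEq ℝ W hn) (S i),
    fun c hcn => ind_mom _ hS hS0 c hcn, ?_⟩
  rw [good_image hT.pl hT.pl' hT.left hT.right (cK p K),
    cK_map he (p := fun x => Brg.mom (Module.finBasisOfFinrankEq ℝ W hn) (s x))
      (fun x => by rw [hSe])]
  have : T '' cK p K = cK (fun x => Brg.mom (Module.finBasisOfFinrankEq ℝ W hn) (s x)) K := by
    rw [cK_eq_image, cK_eq_image, Set.image_image]
    exact Set.image_congr fun t ht => hTt t ht
  rw [this]

end Pool.Agent.DF302A
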