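import Mathlib

set_option autoImplicit false

/-! Unimodular integer matrices: the rows can be transformed into the unit vectors by the
operations `v_i → v_i + v_j`, `v_i → v_i - v_j` (`i ≠ j`), `v_i → -v_i`. -/

namespace Pool.Agent.Work.MP_df302a_co.C4

/-- The equivalence relation on tuples of integer vectors generated by elementary row
operations. -/
inductive RowRel {ι κ : Type} [DecidableEq ι] : (ι → κ → ℤ) → (ι → κ → ℤ) → Prop
  | add (v : ι → κ → ℤ) (i j : ι) (h : i ≠ j) : RowRel v (Function.update v i (v i + v j))
  | sub (v : ι → κ → ℤ) (i j : ι) (h : i ≠ j) : RowRel v (Function.update v i (v i - v j))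
  | neg (v : ι → κ → ℤ) (i : ι) : RowRel v (Function.update v i (-v i))
  | refl (v : ι → κ → ℤ) : RowRel v v
  | trans {u v w : ι → κ → ℤ} (h1 : RowRel u v) (h2 : RowRel v w) : RowRel u w

namespace RowRel

variable {ι κ : Type} [DecidableEq ι]

theorem symm {v w : ι → κ → ℤ} (h : RowRel v w) : RowRel w v := by
  induction h with
  | add v i j h =>
    have := RowRel.sub (Function.update v i (v i + v j)) i j h
    rw [Function.update_idem, Function.update_self, Function.update_of_ne h.symm] at this
    simpa using this
  | sub v i j h =>
    have := RowRel.add (Function.update v i (v i - v j)) i j h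
    rw [Function.update_idem, Function.update_self, Function.update_of_ne h.symm] at this
    simpa using this
  | neg v i =>
    have := RowRel.neg (Function.update v i (-v i)) i
    rw [Function.update_idem, Function.update_self] at this
    simpa using this
  | refl v => exact RowRel.refl v
  | trans _ _ ih1 ih2 => exact RowRel.trans ih2 ih1

theorem zsmul_add (v : ι → κ → ℤ) (i j : ι) (h : i ≠ j) (c : ℤ) :
    RowRel v (Function.update v i (v i + c • v j)) := by
  induction c using Int.induction_on with
  | zero => simpa using RowRel.refl v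
  | succ k ih =>
    have h2 := RowRel.add (Function.update v i (v i + (k : ℤ) • v j)) i j h
    rw [Function.update_idem, Function.update_self, Function.update_of_ne h.symm] at h2
    have e : v i + (k : ℤ) • v j + v j = v i + ((k : ℤ) + 1) • v j := by
      rw [add_smul, one_smul, add_assoc]
    rw [e] at h2
    exact RowRel.trans ih h2
  | pred k ih =>
    have h2 := RowRel.sub (Function.update v i (v i + (-(k : ℤ)) • v j)) i j h
    rw [Function.update_idem, Function.update_self, Function.update_of_ne h.symm] at h2
    have e : v i + (-(k : ℤ)) • v j - v j = v i + (-(k : ℤ) - 1) • v j := by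
      rw [sub_smul, one_smul]; abel
    rw [e] at h2
    exact RowRel.trans ih h2

/-- Euclid in one column: all entries outside the row `i0` can be made zero. -/
theorem euclid [Fintype ι] (i0 : ι) (c : κ) (N : ℕ) :
    ∀ v : ι → κ → ℤ, ∑ i, (v i c).natAbs = N → ∃ w, RowRel v w ∧ ∀ i, i ≠ i0 → w i c = 0 := by
  induction N using Nat.strong_induction_on with
  | _ N ih =>
    intro v hv
    by_cases H : ∃ i j, i ≠ j ∧ v i c ≠ 0 ∧ v j c ≠ 0
    · obtain ⟨i, j, hij, hi, hj, hle⟩ : ∃ i j, i ≠ j ∧ v i c ≠ 0 ∧ v j c ≠ 0 ∧
          (v j c).natAbs ≤ (v i c).natAbs := by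
        obtain ⟨i, j, hij, hi, hj⟩ := H
        rcases le_total (v j c).natAbs (v i c).natAbs with h | h
        · exact ⟨i, j, hij, hi, hj, h⟩
        · exact ⟨j, i, hij.symm, hj, hi, h⟩
      -- choose the sign
      obtain ⟨s, hs, hrel⟩ : ∃ s : ℤ, (v i c + s * v j c).natAbs < (v i c).natAbs ∧
          RowRel v (Function.update v i (v i + s • v j)) := by
        rcases lt_or_gt_of_ne hi with h1 | h1 <;> rcases lt_or_gt_of_ne hj with h2 | h2
        · exact ⟨-1, by omega, zsmul_add v i j hij _⟩
        · exact ⟨1, by omega, zsmul_add v i j hij _⟩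
        · exact ⟨1, by omega, zsmul_add v i j hij _⟩
        · exact ⟨-1, by omega, zsmul_add v i j hij _⟩
      have hlt : ∑ k, ((Function.update v i (v i + s • v j)) k c).natAbs < N := by
        rw [← hv]
        refine Finset.sum_lt_sum ?_ ⟨i, Finset.mem_univ i, ?_⟩
        · intro k _
          by_cases hk : k = i
          · subst hk
            rw [Function.update_self]
            have : (v k + s • v j) c = v k c + s * v j c := by simp
            rw [this]; exact hs.le
          · rw [Function.update_of_ne hk]
        · rw [Function.update_self]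
          have : (v i + s • v j) c = v i c + s * v j c := by simp
          rw [this]; exact hs
      obtain ⟨w, hw, hw0⟩ := ih _ hlt _ rfl
      exact ⟨w, RowRel.trans hrel hw, hw0⟩
    · push Not at H
      by_cases H2 : ∃ k, k ≠ i0 ∧ v k c ≠ 0
      · obtain ⟨k, hk, hkc⟩ := H2
        have hz : ∀ i, i ≠ k → v i c = 0 := by
          intro i hi
          by_contra h
          exact hkc (H i k hi h)
        set v1 := Function.update v i0 (v i0 + v k) with hv1
        set v2 := Function.update v1 k (v1 k - v1 i0) with hv2
        have r1 : RowRel v v1 := RowRel.add v i0 k hk.symm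
        have r2 : RowRel v1 v2 := RowRel.sub v1 k i0 hk
        refine ⟨v2, RowRel.trans r1 r2, fun i hi => ?_⟩
        by_cases hik : i = k
        · subst hik
          rw [hv2, Function.update_self, hv1, Function.update_of_ne hk, Function.update_self]
          simp [hz i0 hk.symm]
        · rw [hv2, Function.update_of_ne hik, hv1, Function.update_of_ne hi]
          exact hz i hik
      · push Not at H2
        exact ⟨v, RowRel.refl v, H2⟩

end RowRel

/-- Bordering a relation by a fixed zeroth row and a zero zeroth column. -/
theorem RowRel.border {n : ℕ} {v w : Fin n → Fin n → ℤ} (h : RowRel v w)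
    (r : Fin (n + 1) → ℤ) :
    RowRel (Fin.cons r (fun i => Fin.cons 0 (v i)) : Fin (n + 1) → Fin (n + 1) → ℤ)
      (Fin.cons r (fun i => Fin.cons 0 (w i)) : Fin (n + 1) → Fin (n + 1) → ℤ) := by
  have upd : ∀ (v : Fin n → Fin n → ℤ) (i : Fin n) (x : Fin n → ℤ),
      (Fin.cons r (fun k => Fin.cons 0 ((Function.update v i x) k)) :
        Fin (n + 1) → Fin (n + 1) → ℤ)
      = Function.update (Fin.cons r (fun k => Fin.cons 0 (v k))) i.succ (Fin.cons 0 x) := by
    intro v i x
    rw [← Fin.cons_update]
    congr 1
    funext k
    by_cases hk : k = i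
    · subst hk; simp
    · simp [Function.update_of_ne hk]
  induction h with
  | add v i j h =>
    rw [upd]
    have := RowRel.add (Fin.cons r (fun k => Fin.cons 0 (v k)) : Fin (n + 1) → Fin (n + 1) → ℤ)
      i.succ j.succ (fun e => h (Fin.succ_injective _ e))
    convert this using 2
    funext k
    refine Fin.cases ?_ (fun l => ?_) k <;> simp
  | sub v i j h =>
    rw [upd]
    have := RowRel.sub (Fin.cons r (fun k => Fin.cons 0 (v k)) : Fin (n + 1) → Fin (n + 1) → ℤ)
      i.succ j.succ (fun e => h (Fin.succ_injective _ e))
    convert this using 2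
    funext k
    refine Fin.cases ?_ (fun l => ?_) k <;> simp
  | neg v i =>
    rw [upd]
    have := RowRel.neg (Fin.cons r (fun k => Fin.cons 0 (v k)) : Fin (n + 1) → Fin (n + 1) → ℤ)
      i.succ
    convert this using 2
    funext k
    refine Fin.cases ?_ (fun l => ?_) k <;> simp
  | refl v => exact RowRel.refl _
  | trans _ _ ih1 ih2 => exact RowRel.trans ih1 ih2

theorem RowRel.det_unit {n : ℕ} {v w : Fin n → Fin n → ℤ} (h : RowRel v w) :
    IsUnit (Matrix.det (Matrix.of v)) → IsUnit (Matrix.det (Matrix.of w)) := by
  induction h with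
  | add v i j h =>
    intro hu
    have := Matrix.det_updateRow_add_self (Matrix.of v) h
    have e : (Matrix.of v).updateRow i ((Matrix.of v) i + (Matrix.of v) j)
        = Matrix.of (Function.update v i (v i + v j)) := rfl
    rw [e] at this
    rw [this]; exact hu
  | sub v i j h =>
    intro hu
    have := Matrix.det_updateRow_add_smul_self (Matrix.of v) h (-1)
    have e : (Matrix.of v).updateRow i ((Matrix.of v) i + (-1 : ℤ) • (Matrix.of v) j)
        = Matrix.of (Function.update v i (v i - v j)) := by
      show Matrix.of (Function.update v i (v i + (-1 : ℤ) • v j)) = _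
      congr 2
      rw [neg_smul, one_smul, sub_eq_add_neg]
    rw [e] at this
    rw [this]; exact hu
  | neg v i =>
    intro hu
    have := Matrix.det_updateRow_smul (Matrix.of v) i (-1) (v i)
    have e1 : (Matrix.of v).updateRow i ((-1 : ℤ) • v i)
        = Matrix.of (Function.update v i (-v i)) := by
      show Matrix.of (Function.update v i ((-1 : ℤ) • v i)) = _
      congr 2
      rw [neg_smul, one_smul]
    have e2 : (Matrix.of v).updateRow i (v i) = Matrix.of v := by
      show Matrix.of (Function.update v i (v i)) = _
      rw [Function.update_eq_self]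
    rw [e1, e2] at this
    rw [this]
    simpa using hu
  | refl v => exact id
  | trans _ _ ih1 ih2 => exact fun hu => ih2 (ih1 hu)

/-- Clearing the zeroth row by the unit rows below. -/
theorem clear_row {n : ℕ} (r : Fin (n + 1) → ℤ) :
    RowRel (Fin.cons r (fun i => Fin.cons 0 (Pi.single i 1)) : Fin (n + 1) → Fin (n + 1) → ℤ)
      (Fin.cons (Fin.cons (r 0) 0) (fun i => Fin.cons 0 (Pi.single i 1))) := by
  classical
  -- clear the entries in a finite set of columns
  have key : ∀ s : Finset (Fin n),
      RowRel (Fin.cons r (fun i => Fin.cons 0 (Pi.single i 1)) : Fin (n + 1) → Fin (n + 1) → ℤ)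
      (Fin.cons (Fin.cons (r 0) (fun j => if j ∈ s then 0 else r j.succ))
        (fun i => Fin.cons 0 (Pi.single i 1))) := by
    intro s
    induction s using Finset.induction_on with
    | empty =>
      have : (Fin.cons (r 0) (fun j => if j ∈ (∅ : Finset (Fin n)) then 0 else r j.succ) :
          Fin (n + 1) → ℤ) = r := by
        funext k
        refine Fin.cases ?_ (fun l => ?_) k <;> simp
      rw [this]
      exact RowRel.refl _
    | insert a s ha ih =>
      refine RowRel.trans ih ?_
      set v : Fin (n + 1) → Fin (n + 1) → ℤ :=
        Fin.cons (Fin.cons (r 0) (fun j => if j ∈ s then 0 else r j.succ))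
          (fun i => Fin.cons 0 (Pi.single i 1)) with hv
      have h := RowRel.zsmul_add v 0 a.succ (Fin.succ_ne_zero a).symm (-(r a.succ))
      have e : Function.update v 0 (v 0 + (-(r a.succ)) • v a.succ)
          = (Fin.cons (Fin.cons (r 0) (fun j => if j ∈ insert a s then 0 else r j.succ))
            (fun i => Fin.cons 0 (Pi.single i 1))) := by
        have e0 : v 0 = Fin.cons (r 0) (fun j => if j ∈ s then 0 else r j.succ) := by simp [hv]
        have e1 : v a.succ = Fin.cons 0 (Pi.single a 1) := by simp [hv]
        rw [e0, e1, hv, Fin.update_cons_zero]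
        congr 1
        funext k
        refine Fin.cases ?_ (fun l => ?_) k
        · simp
        · by_cases hl : l = a
          · subst hl; simp [ha]
          · simp [hl]
      rw [e] at h
      exact h
  have h := key Finset.univ
  have e : (fun j : Fin n => if j ∈ (Finset.univ : Finset (Fin n)) then (0 : ℤ) else r j.succ)
      = 0 := by funext j; simp
  rw [e] at h
  exact h

/-- The rows of a unimodular integer matrix can be transformed into the unit vectors. -/
theorem rowRel_one {n : ℕ} (v : Fin n → Fin n → ℤ) (h : IsUnit (Matrix.det (Matrix.of v))) :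
    RowRel v (fun i => Pi.single i 1) := by
  induction n with
  | zero =>
    have : v = fun i => Pi.single i 1 := by funext i; exact i.elim0
    rw [this]; exact RowRel.refl _
  | succ n ih =>
    obtain ⟨w, hw, hw0⟩ := RowRel.euclid (0 : Fin (n + 1)) (0 : Fin (n + 1)) _ v rfl
    have hdw := hw.det_unit h
    have hdet : Matrix.det (Matrix.of w) = w 0 0 *
        Matrix.det (Matrix.of (fun i j : Fin n => w i.succ j.succ)) := by
      rw [Matrix.det_succ_column_zero, Finset.sum_eq_single 0]
      · simp only [Fin.val_zero, pow_zero, one_mul, Matrix.of_apply, Fin.succAbove_zero]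
        rfl
      · intro i _ hi
        simp [hw0 i hi]
      · intro h0; exact absurd (Finset.mem_univ _) h0
    rw [hdet, IsUnit.mul_iff] at hdw
    obtain ⟨hu0, hu1⟩ := hdw
    have hrel := ih (fun i j => w i.succ j.succ) hu1
    have hwe : w = Fin.cons (w 0) (fun i => Fin.cons 0 (fun j => w i.succ j.succ)) := by
      funext i
      refine Fin.cases rfl (fun k => ?_) i
      funext j
      refine Fin.cases ?_ (fun l => ?_) j
      · simp [hw0 k.succ (Fin.succ_ne_zero k)]
      · simp
    have h1 : RowRel w (Fin.cons (w 0) (fun i => Fin.cons 0 (Pi.single i 1))) := by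
      have := hrel.border (w 0)
      rw [← hwe] at this
      exact this
    have h2 := clear_row (w 0)
    have h3 : RowRel v (Fin.cons (Fin.cons (w 0 0) 0) (fun i => Fin.cons 0 (Pi.single i 1))) :=
      RowRel.trans hw (RowRel.trans h1 h2)
    have hone : (fun i => Pi.single i 1 : Fin (n + 1) → Fin (n + 1) → ℤ)
        = Fin.cons (Fin.cons 1 0) (fun i => Fin.cons 0 (Pi.single i 1)) := by
      funext i
      refine Fin.cases ?_ (fun k => ?_) i
      · funext j
        refine Fin.cases ?_ (fun l => ?_) j <;> simp
      · funext j
        refine Fin.cases ?_ (fun l => ?_) j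
        · simp
        · by_cases hl : l = k
          · subst hl; simp
          · simp [hl]
    rw [hone]
    rcases Int.isUnit_iff.1 hu0 with h0 | h0
    · rw [h0] at h3; exact h3
    · rw [h0] at h3
      refine RowRel.trans h3 ?_
      have h4 := RowRel.neg (Fin.cons (Fin.cons (-1) 0) (fun i => Fin.cons 0 (Pi.single i 1)) :
        Fin (n + 1) → Fin (n + 1) → ℤ) 0
      rw [Fin.update_cons_zero] at h4
      have e : -((Fin.cons (Fin.cons (-1) 0) (fun i => Fin.cons 0 (Pi.single i 1)) :
        Fin (n + 1) → Fin (n + 1) → ℤ) 0) = Fin.cons 1 0 := by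
        funext k
        refine Fin.cases ?_ (fun l => ?_) k <;> simp
      rw [e] at h4
      exact h4

end Pool.Agent.Work.MP_df302a_co.C4
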