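import Pool.Agent.Work.MP_df302a_co.GU

/-!
# MP_df302a_co : a free orbit of vertices in general position

A free orbit of vertices of an equivariant complex can be moved to a position in which the cones
of the complex do not overlap, provided that they do not overlap without this orbit, and that some
subspaces are not too big.
-/

set_option autoImplicit false
set_option linter.unusedSectionVars false
set_option linter.unusedVariables false

namespace Pool.Agent.DF302A

open Finset Module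

section

variable {W : Type*} [AddCommGroup W] [Module ℝ W]

/-! ### functions which are polynomial along lines -/

/-- polynomial along all lines -/
def PolyLine (f : W → ℝ) : Prop :=
  ∀ a d : W, ∃ P : Polynomial ℝ, ∀ s : ℝ, f (a + s • d) = P.eval s

theorem PolyLine.lin (l : W →ₗ[ℝ] ℝ) : PolyLine fun w => l w := fun a d =>
  ⟨Polynomial.C (l a) + Polynomial.X * Polynomial.C (l d), fun s => by simp; ring⟩

theorem PolyLine.const (c : ℝ) : PolyLine fun _ : W => c := fun a d =>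
  ⟨Polynomial.C c, fun s => by simp⟩

theorem PolyLine.mul {f g : W → ℝ} (hf : PolyLine f) (hg : PolyLine g) :
    PolyLine fun w => f w * g w := fun a d => by
  obtain ⟨P, hP⟩ := hf a d
  obtain ⟨Q, hQ⟩ := hg a d
  exact ⟨P * Q, fun s => by simp [hP, hQ]⟩

theorem PolyLine.sub {f g : W → ℝ} (hf : PolyLine f) (hg : PolyLine g) :
    PolyLine fun w => f w - g w := fun a d => by
  obtain ⟨P, hP⟩ := hf a d
  obtain ⟨Q, hQ⟩ := hg a d
  exact ⟨P - Q, fun s => by simp [hP, hQ]⟩

theorem PolyLine.add {f g : W → ℝ} (hf : PolyLine f) (hg : PolyLine g) :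
    PolyLine fun w => f w + g w := fun a d => by
  obtain ⟨P, hP⟩ := hf a d
  obtain ⟨Q, hQ⟩ := hg a d
  exact ⟨P + Q, fun s => by simp [hP, hQ]⟩

theorem PolyLine.prod {ι : Type*} (S : Finset ι) {f : ι → W → ℝ} (hf : ∀ i, PolyLine (f i)) :
    PolyLine fun w => ∏ i ∈ S, f i w := by
  classical
  induction S using Finset.induction_on with
  | empty => simpa using PolyLine.const (W := W) 1
  | insert a S ha ih =>
    have := (hf a).mul ih
    simpa [Finset.prod_insert ha] using this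

theorem PolyLine.common {f g : W → ℝ} (hf : PolyLine f) (hg : PolyLine g) (hf0 : ∃ w, f w ≠ 0)
    (hg0 : ∃ w, g w ≠ 0) : ∃ w, f w ≠ 0 ∧ g w ≠ 0 := by
  obtain ⟨a, ha⟩ := hf0
  obtain ⟨b, hb⟩ := hg0
  obtain ⟨P, hP⟩ := hf a (b - a)
  obtain ⟨Q, hQ⟩ := hg a (b - a)
  have hP0 : P ≠ 0 := by
    rintro rfl
    have := hP 0
    simp at this
    exact ha this
  have hQ0 : Q ≠ 0 := by
    rintro rfl
    have := hQ 1
    simp at this
    exact hb this
  obtain ⟨s, hs⟩ : ∃ s, (P * Q).eval s ≠ 0 := by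
    by_contra hc
    push Not at hc
    exact mul_ne_zero hP0 hQ0 (Polynomial.funext fun s => by rw [hc s]; simp)
  rw [Polynomial.eval_mul] at hs
  refine ⟨a + s • (b - a), ?_, ?_⟩
  · rw [hP]; exact left_ne_zero_of_mul hs
  · rw [hQ]; exact right_ne_zero_of_mul hs

theorem PolyLine.common_family {ι : Type*} [Finite ι] {f : ι → W → ℝ}
    (hf : ∀ i, PolyLine (f i)) (hf0 : ∀ i, ∃ w, f i w ≠ 0) : ∃ w, ∀ i, f i w ≠ 0 := by
  classical
  have := Fintype.ofFinite ι
  have key : ∀ S : Finset ι, ∃ w, ∏ i ∈ S, f i w ≠ 0 := by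
    intro S
    induction S using Finset.induction_on with
    | empty => exact ⟨0, by simp⟩
    | insert a S ha ih =>
      obtain ⟨w, h1, h2⟩ := PolyLine.common (hf a) (PolyLine.prod S hf) (hf0 a) ih
      exact ⟨w, by rw [Finset.prod_insert ha]; exact mul_ne_zero h1 h2⟩
  obtain ⟨w, hw⟩ := key Finset.univ
  exact ⟨w, fun i => Finset.prod_ne_zero_iff.1 hw i (Finset.mem_univ i)⟩

/-! ### the two conditions -/

theorem exists_notMem {U : Submodule ℝ W} (hU : U ≠ ⊤) :
    ∃ f : W → ℝ, PolyLine f ∧ (∃ w, f w ≠ 0) ∧ ∀ w, f w ≠ 0 → w ∉ U := by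
  obtain ⟨x, hx⟩ : ∃ x, x ∉ U := by
    by_contra hc
    push Not at hc
    exact hU (eq_top_iff.2 fun x _ => hc x)
  obtain ⟨φ, h1, h2⟩ := Submodule.exists_dual_map_eq_bot_of_notMem hx inferInstance
  refine ⟨fun w => φ w, PolyLine.lin φ, ⟨x, h1⟩, fun w hw hwU => hw ?_⟩
  have h3 : φ w ∈ U.map φ := Submodule.mem_map_of_mem hwU
  rw [h2] at h3
  exact (Submodule.mem_bot ℝ).1 h3

/-- the two by two minors -/
theorem exists_indep [FiniteDimensional ℝ W] {U : Submodule ℝ W} (g : W ≃ₗ[ℝ] W)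
    {n : ℕ} (hn : n ≠ 0) (hg : g ^ n = 1) (hd : finrank ℝ U + 2 ≤ finrank ℝ W)
    (h1 : ∃ w, g w - w ∉ U) (h2 : ∃ w, g w + w ∉ U) :
    ∃ f : W → ℝ, PolyLine f ∧ (∃ w, f w ≠ 0) ∧
      ∀ w, f w ≠ 0 → ∀ a b : ℝ, a • w + b • g w ∈ U → a = 0 ∧ b = 0 := by
  set π := U.mkQ with hπ
  have hdE : 2 ≤ finrank ℝ (W ⧸ U) := by
    have := Submodule.finrank_quotient_add_finrank U
    omega
  have hsep : ∀ e : W ⧸ U, e ≠ 0 → ∃ φ : (W ⧸ U) →ₗ[ℝ] ℝ, φ e = 1 := by
    intro e he
    exact Gauge.exists_one he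
  have hext : ∀ e e' : W ⧸ U, (∀ φ : (W ⧸ U) →ₗ[ℝ] ℝ, φ e = φ e') → e = e' := by
    intro e e' h
    by_contra hne
    obtain ⟨φ, hφ⟩ := hsep (e - e') (sub_ne_zero.2 hne)
    rw [map_sub, h φ, sub_self] at hφ
    exact zero_ne_one hφ
  by_cases hD : ∃ (φ₁ φ₂ : (W ⧸ U) →ₗ[ℝ] ℝ) (w : W),
      φ₁ (π w) * φ₂ (π (g w)) - φ₂ (π w) * φ₁ (π (g w)) ≠ 0
  · obtain ⟨φ₁, φ₂, w0, hw0⟩ := hD
    refine ⟨fun w => φ₁ (π w) * φ₂ (π (g w)) - φ₂ (π w) * φ₁ (π (g w)), ?_, ⟨w0, hw0⟩, ?_⟩
    · exact ((PolyLine.lin (φ₁ ∘ₗ π)).mul (PolyLine.lin (φ₂ ∘ₗ π ∘ₗ g.toLinearMap))).sub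
        ((PolyLine.lin (φ₂ ∘ₗ π)).mul (PolyLine.lin (φ₁ ∘ₗ π ∘ₗ g.toLinearMap)))
    · intro w hw a b hab
      have h3 : a • π w + b • π (g w) = 0 := by
        rw [← map_smul, ← map_smul, ← map_add]
        exact (Submodule.Quotient.mk_eq_zero U).2 hab
      have e1 : a * φ₁ (π w) + b * φ₁ (π (g w)) = 0 := by
        have := congrArg φ₁ h3
        simpa using this
      have e2 : a * φ₂ (π w) + b * φ₂ (π (g w)) = 0 := by
        have := congrArg φ₂ h3
        simpa using this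
      constructor
      · have : a * (φ₁ (π w) * φ₂ (π (g w)) - φ₂ (π w) * φ₁ (π (g w))) = 0 := by
          linear_combination φ₂ (π (g w)) * e1 - φ₁ (π (g w)) * e2
        exact (mul_eq_zero.1 this).resolve_right hw
      · have : b * (φ₁ (π w) * φ₂ (π (g w)) - φ₂ (π w) * φ₁ (π (g w))) = 0 := by
          linear_combination φ₁ (π w) * e2 - φ₂ (π w) * e1
        exact (mul_eq_zero.1 this).resolve_right hw
  · exfalso
    push Not at hD
    have hU : U ≤ U.comap g.toLinearMap := by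
      intro u hu
      show g u ∈ U
      by_contra hgu
      have hgu' : π (g u) ≠ 0 := fun h => hgu ((Submodule.Quotient.mk_eq_zero U).1 h)
      have hpu : π u = 0 := (Submodule.Quotient.mk_eq_zero U).2 hu
      obtain ⟨φ₂, hφ₂⟩ := hsep _ hgu'
      have h3 : ∀ v, π v = φ₂ (π v) • π (g u) := by
        intro v
        refine hext _ _ fun φ₁ => ?_
        have e1 := hD φ₁ φ₂ (v + u)
        have e2 := hD φ₁ φ₂ v
        have e3 := hD φ₁ φ₂ u
        simp only [map_add, hpu, map_zero, add_zero, zero_mul, sub_zero] at e1 e3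
        rw [map_smul, smul_eq_mul]
        rw [hφ₂] at e1
        linarith
      have h5 : finrank ℝ (W ⧸ U) ≤ 1 := finrank_le_one (π (g u)) fun e => by
        obtain ⟨v, rfl⟩ := Submodule.mkQ_surjective U e
        exact ⟨_, (h3 v).symm⟩
      omega
    set gq : (W ⧸ U) →ₗ[ℝ] (W ⧸ U) := U.mapQ U g.toLinearMap hU with hgq
    have hgq' : ∀ w, gq (π w) = π (g w) := fun w => rfl
    obtain ⟨c, hc⟩ := LinearMap.exists_eq_smul_id_of_forall_notLinearIndependent (f := gq) (by
      intro e hli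
      obtain ⟨w, rfl⟩ := Submodule.mkQ_surjective U e
      rw [LinearIndependent.pair_iff] at hli
      by_cases he : π w = 0
      · have := hli 1 0 (by rw [show U.mkQ w = 0 from he]; simp)
        exact one_ne_zero this.1
      · obtain ⟨φ₁, hφ₁⟩ := hsep _ he
        have h3 : π (g w) = φ₁ (π (g w)) • π w := by
          refine hext _ _ fun φ₂ => ?_
          have e1 := hD φ₁ φ₂ w
          rw [hφ₁] at e1
          rw [map_smul, smul_eq_mul]
          linarith
        have := hli (-φ₁ (π (g w))) 1 (by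
          have h4 : gq (U.mkQ w) = π (g w) := rfl
          rw [h4, one_smul, neg_smul]
          show -(φ₁ (π (g w)) • π w) + π (g w) = 0
          rw [← h3, neg_add_cancel])
        exact one_ne_zero this.2)
    have hcw : ∀ w, π (g w) = c • π w := fun w => by
      rw [← hgq', hc]; simp
    have hpow : ∀ (k : ℕ) (w : W), π ((g ^ k) w) = c ^ k • π w := by
      intro k
      induction k with
      | zero => intro w; simp
      | succ k ih =>
        intro w
        rw [pow_succ, LinearEquiv.mul_apply, ih, hcw, smul_smul, pow_succ]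
    obtain ⟨w, hw⟩ : ∃ w, π w ≠ 0 := by
      by_contra hcon
      push Not at hcon
      have : finrank ℝ (W ⧸ U) = 0 := by
        rw [finrank_zero_iff_forall_zero]
        intro e
        obtain ⟨w, rfl⟩ := Submodule.mkQ_surjective U e
        exact hcon w
      omega
    have hcn : c ^ n = 1 := by
      have h3 := hpow n w
      rw [hg, LinearEquiv.coe_one, id_eq] at h3
      have h4 : (c ^ n - 1) • π w = 0 := by rw [sub_smul, ← h3, one_smul, sub_self]
      rcases smul_eq_zero.1 h4 with h5 | h5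
      · linarith
      · exact absurd h5 hw
    rcases (pow_eq_one_iff_cases.1 hcn) with h3 | h3 | ⟨h3, -⟩
    · exact hn h3
    · obtain ⟨v, hv⟩ := h1
      apply hv
      rw [← Submodule.Quotient.mk_eq_zero U]
      show π (g v - v) = 0
      rw [map_sub, hcw, h3, one_smul, sub_self]
    · obtain ⟨v, hv⟩ := h2
      apply hv
      rw [← Submodule.Quotient.mk_eq_zero U]
      show π (g v + v) = 0
      rw [map_add, hcw, h3, neg_smul, one_smul, neg_add_cancel]

/-- for nonnegative coefficients only `g - 1` matters -/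
theorem exists_indep_nonneg [FiniteDimensional ℝ W] {U : Submodule ℝ W} (g : W ≃ₗ[ℝ] W)
    {n : ℕ} (hn : n ≠ 0) (hg : g ^ n = 1) (hd : finrank ℝ U + 2 ≤ finrank ℝ W)
    (h1 : ∃ w, g w - w ∉ U) :
    ∃ f : W → ℝ, PolyLine f ∧ (∃ w, f w ≠ 0) ∧
      ∀ w, f w ≠ 0 → ∀ a b : ℝ, 0 ≤ a → 0 ≤ b → a • w - b • g w ∈ U → a = 0 ∧ b = 0 := by
  by_cases h2 : ∃ w, g w + w ∉ U
  · obtain ⟨f, e1, e2, e3⟩ := exists_indep g hn hg hd h1 h2
    refine ⟨f, e1, e2, fun w hw a b _ _ hab => ?_⟩
    have := e3 w hw a (-b) (by rwa [neg_smul, ← sub_eq_add_neg])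
    exact ⟨this.1, neg_eq_zero.1 this.2⟩
  · push Not at h2
    have hU : U ≠ ⊤ := by
      rintro rfl
      rw [finrank_top] at hd
      omega
    obtain ⟨f, e1, e2, e3⟩ := exists_notMem hU
    refine ⟨f, e1, e2, fun w hw a b ha hb hab => ?_⟩
    have h3 : (a + b) • w ∈ U := by
      have h4 := U.add_mem hab (U.smul_mem b (h2 w))
      have h5 : a • w - b • g w + b • (g w + w) = (a + b) • w := by
        rw [smul_add, add_smul]; abel
      rwa [h5] at h4
    have h6 : a + b = 0 := by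
      by_contra hne
      exact e3 w hw ((Submodule.smul_mem_iff _ hne).1 h3)
    constructor <;> linarith

/-! ### the position -/

theorem exists_free_position [FiniteDimensional ℝ W] {G : Type*} [Group G] [Finite G]
    (ρ : G →* (W ≃ₗ[ℝ] W)) {X : Type*} [Fintype X] [DecidableEq X] [MulAction G X]
    (K : Set (Finset X)) (hK : IsCx K)
    (hKG : ∀ (g : G), ∀ σ ∈ K, σ.image (fun x => g • x) ∈ K) (p : X → W)
    (hp : ∀ (g : G) x, p (g • x) = ρ g (p x)) (y : X) (hfree : ∀ g : G, g • y = y → g = 1)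
    (hone : ∀ σ ∈ K, ∀ g h : G, g • y ∈ σ → h • y ∈ σ → g = h)
    (hinj : Set.InjOn (fun t => linP p t) (cone {σ | σ ∈ K ∧ ∀ g : G, g • y ∉ σ}))
    (ha : ∀ τ, y ∉ τ → insert y τ ∈ K → ∀ σ ∈ K, (∀ g : G, g • y ∉ σ) →
      Submodule.span ℝ (p '' (τ ∪ σ : Finset X)) ≠ ⊤)
    (hb : ∀ g : G, g ≠ 1 → ∀ τ τ', y ∉ τ → insert y τ ∈ K → g • y ∉ τ' → insert (g • y) τ' ∈ K →
      finrank ℝ (Submodule.span ℝ (p '' (τ ∪ τ' : Finset X))) + 2 ≤ finrank ℝ W ∧
      ∃ w, ρ g w - w ∉ Submodule.span ℝ (p '' (τ ∪ τ' : Finset X)))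
    {ι : Type*} [Finite ι] (f : ι → W → ℝ) (hf : ∀ i, PolyLine (f i))
    (hf0 : ∀ i, ∃ w, f i w ≠ 0) :
    ∃ p' : X → W, (∀ (g : G) x, p' (g • x) = ρ g (p' x)) ∧
      (∀ x, (∀ g : G, x ≠ g • y) → p' x = p x) ∧ (∀ i, f i (p' y) ≠ 0) ∧
      Set.InjOn (fun t => linP p' t) (cone K) := by
  classical
  have := Fintype.ofFinite G
  -- conditions
  have c1 : ∀ q : Finset X × Finset X, ∃ f : W → ℝ, PolyLine f ∧ (∃ w, f w ≠ 0) ∧
      (y ∉ q.1 → insert y q.1 ∈ K → q.2 ∈ K → (∀ g : G, g • y ∉ q.2) → ∀ w, f w ≠ 0 →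
        w ∉ Submodule.span ℝ (p '' (q.1 ∪ q.2 : Finset X))) := by
    intro q
    by_cases h : y ∉ q.1 ∧ insert y q.1 ∈ K ∧ q.2 ∈ K ∧ (∀ g : G, g • y ∉ q.2)
    · obtain ⟨f, h1, h2, h3⟩ := exists_notMem (ha q.1 h.1 h.2.1 q.2 h.2.2.1 h.2.2.2)
      exact ⟨f, h1, h2, fun _ _ _ _ => h3⟩
    · refine ⟨fun _ => 1, PolyLine.const 1, ⟨0, one_ne_zero⟩, fun h1 h2 h3 h4 => ?_⟩
      exact absurd ⟨h1, h2, h3, h4⟩ h
  have c2 : ∀ q : G × Finset X × Finset X, ∃ f : W → ℝ, PolyLine f ∧ (∃ w, f w ≠ 0) ∧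
      (q.1 ≠ 1 → y ∉ q.2.1 → insert y q.2.1 ∈ K → q.1 • y ∉ q.2.2 → insert (q.1 • y) q.2.2 ∈ K →
        ∀ w, f w ≠ 0 → ∀ a b : ℝ, 0 ≤ a → 0 ≤ b →
          a • w - b • ρ q.1 w ∈ Submodule.span ℝ (p '' (q.2.1 ∪ q.2.2 : Finset X)) →
            a = 0 ∧ b = 0) := by
    intro q
    by_cases h : q.1 ≠ 1 ∧ y ∉ q.2.1 ∧ insert y q.2.1 ∈ K ∧ q.1 • y ∉ q.2.2 ∧
        insert (q.1 • y) q.2.2 ∈ K
    · obtain ⟨e1, e2⟩ := hb q.1 h.1 q.2.1 q.2.2 h.2.1 h.2.2.1 h.2.2.2.1 h.2.2.2.2
      obtain ⟨f, h1, h2, h3⟩ := exists_indep_nonneg (ρ q.1) (n := orderOf q.1)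
        (orderOf_pos q.1).ne' (by rw [← map_pow, pow_orderOf_eq_one, map_one]) e1 e2
      exact ⟨f, h1, h2, fun _ _ _ _ _ => h3⟩
    · refine ⟨fun _ => 1, PolyLine.const 1, ⟨0, one_ne_zero⟩, fun h1 h2 h3 h4 h5 => ?_⟩
      exact absurd ⟨h1, h2, h3, h4, h5⟩ h
  choose f1 f1a f1b f1c using c1
  choose f2 f2a f2b f2c using c2
  obtain ⟨w, hw⟩ := PolyLine.common_family
    (f := fun i : ι ⊕ ((Finset X × Finset X) ⊕ (G × Finset X × Finset X)) =>
      Sum.elim f (Sum.elim f1 f2) i)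
    (by rintro (i | i | i)
        · exact hf i
        · exact f1a i
        · exact f2a i)
    (by rintro (i | i | i)
        · exact hf0 i
        · exact f1b i
        · exact f2b i)
  have w0 : ∀ i, f i w ≠ 0 := fun i => hw (Sum.inl i)
  have w1 : ∀ τ σ : Finset X, y ∉ τ → insert y τ ∈ K → σ ∈ K → (∀ g : G, g • y ∉ σ) →
      w ∉ Submodule.span ℝ (p '' (τ ∪ σ : Finset X)) := fun τ σ h1 h2 h3 h4 =>
    f1c (τ, σ) h1 h2 h3 h4 w (hw (Sum.inr (Sum.inl (τ, σ))))
  have w2 : ∀ (g : G) (τ τ' : Finset X), g ≠ 1 → y ∉ τ → insert y τ ∈ K → g • y ∉ τ' →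
      insert (g • y) τ' ∈ K → ∀ a b : ℝ, 0 ≤ a → 0 ≤ b →
      a • w - b • ρ g w ∈ Submodule.span ℝ (p '' (τ ∪ τ' : Finset X)) → a = 0 ∧ b = 0 :=
    fun g τ τ' h1 h2 h3 h4 h5 => f2c (g, τ, τ') h1 h2 h3 h4 h5 w
      (hw (Sum.inr (Sum.inr (g, τ, τ'))))
  have hfree' : ∀ g h : G, g • y = h • y → g = h := by
    intro g h hgh
    have h1 : (h⁻¹ * g) • y = y := by rw [mul_smul, hgh, inv_smul_smul]
    exact (inv_mul_eq_one.1 (hfree _ h1)).symm
  set p' : X → W := fun x => if h : ∃ g : G, x = g • y then ρ h.choose w else p x with hp'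
  have pg : ∀ g : G, p' (g • y) = ρ g w := by
    intro g
    have h : ∃ h : G, g • y = h • y := ⟨g, rfl⟩
    simp only [hp']
    rw [dif_pos h, ← hfree' _ _ h.choose_spec]
  have pn : ∀ x, (∀ g : G, x ≠ g • y) → p' x = p x := by
    intro x hx
    have h : ¬ ∃ g : G, x = g • y := fun ⟨g, hg⟩ => hx g hg
    simp only [hp']
    rw [dif_neg h]
  have peq : ∀ (g : G) x, p' (g • x) = ρ g (p' x) := by
    intro g x
    by_cases hx : ∃ h : G, x = h • y
    · obtain ⟨h, rfl⟩ := hx
      rw [← mul_smul, pg, pg, map_mul]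
      rfl
    · have hx' : ∀ h : G, x ≠ h • y := fun h hh => hx ⟨h, hh⟩
      rw [pn x hx', pn (g • x), hp]
      intro h hh
      exact hx' (g⁻¹ * h) (by rw [mul_smul, ← hh, inv_smul_smul])
  refine ⟨p', peq, pn, fun i => ?_, ?_⟩
  · have := pg 1
    rw [one_smul, map_one] at this
    rw [this]
    exact w0 i
  -- simplices without vertices of the orbit
  set nf : Finset X → Finset X := fun σ => σ.filter fun x => ∀ g : G, x ≠ g • y with hnf
  have nf_K : ∀ σ ∈ K, nf σ ∈ K := fun σ hσ => hK.2 σ hσ _ (Finset.filter_subset _ _)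
  have nf_out : ∀ σ (g : G), g • y ∉ nf σ := fun σ g h => (Finset.mem_filter.1 h).2 g rfl
  -- spans of translates
  have span_tr : ∀ (g : G) (S : Finset X) (v : W),
      ρ g v ∈ Submodule.span ℝ (p '' (S : Finset X)) →
        v ∈ Submodule.span ℝ (p '' (S.image (fun x => g⁻¹ • x) : Finset X)) := by
    intro g S v hv
    have h1 : ρ g⁻¹ (ρ g v) = v := by
      rw [← LinearEquiv.mul_apply, ← map_mul, inv_mul_cancel, map_one]
      rfl
    have h2 : (ρ g⁻¹).toLinearMap (ρ g v) ∈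
        (Submodule.span ℝ (p '' (S : Finset X))).map (ρ g⁻¹).toLinearMap :=
      Submodule.mem_map_of_mem hv
    rw [Submodule.map_span] at h2
    have h3 : (ρ g⁻¹).toLinearMap (ρ g v) = v := h1
    rw [h3] at h2
    refine Submodule.span_mono ?_ h2
    rintro _ ⟨_, ⟨x, hx, rfl⟩, rfl⟩
    refine ⟨g⁻¹ • x, ?_, hp _ _⟩
    rw [Finset.mem_coe] at hx ⊢
    exact Finset.mem_image_of_mem _ hx
  -- the part without the orbit
  have rep : ∀ (t : X → ℝ) (σ : Finset X) (g : G), (∀ x, x ∉ σ → t x = 0) →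
      (∀ h : G, t (h • y) ≠ 0 → h = g) →
      linP p' t - t (g • y) • ρ g w ∈ Submodule.span ℝ (p '' (nf σ : Finset X)) := by
    intro t σ g hout hg
    have h1 : linP p' t - t (g • y) • ρ g w = ∑ x, if x = g • y then 0 else t x • p' x := by
      rw [linP_apply, ← pg g, sub_eq_iff_eq_add]
      rw [← Finset.add_sum_erase Finset.univ _ (Finset.mem_univ (g • y)),
        ← Finset.add_sum_erase Finset.univ (fun x => if x = g • y then (0 : W) else t x • p' x)
          (Finset.mem_univ (g • y))]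
      rw [if_pos rfl, zero_add, add_comm]
      congr 1
      refine Finset.sum_congr rfl fun x hx => ?_
      rw [if_neg (Finset.ne_of_mem_erase hx)]
    rw [h1]
    refine Submodule.sum_mem _ fun x _ => ?_
    split_ifs with hx
    · exact Submodule.zero_mem _
    by_cases htx : t x = 0
    · rw [htx, zero_smul]; exact Submodule.zero_mem _
    refine Submodule.smul_mem _ _ (Submodule.subset_span ?_)
    have hxσ : x ∈ σ := by
      by_contra h2
      exact htx (hout x h2)
    have hxn : ∀ h : G, x ≠ h • y := by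
      intro h hh
      apply hx
      rw [hh, hg h (by rw [← hh]; exact htx)]
    refine ⟨x, ?_, (pn x hxn).symm⟩
    rw [Finset.mem_coe]
    exact Finset.mem_filter.2 ⟨hxσ, hxn⟩
  -- equality of the coefficients of the orbit, one direction
  have key : ∀ t ∈ cone K, ∀ t' ∈ cone K, linP p' t = linP p' t' → ∀ g : G, t (g • y) ≠ 0 →
      t (g • y) = t' (g • y) := by
    rintro t ⟨ht0, σ, hσ, hout⟩ t' ⟨ht0', σ', hσ', hout'⟩ hB g hg
    have hgσ : g • y ∈ σ := by
      by_contra h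
      exact hg (hout _ h)
    have hg1 : ∀ h : G, t (h • y) ≠ 0 → h = g := by
      intro h hh
      refine hone σ hσ h g ?_ hgσ
      by_contra h2
      exact hh (hout _ h2)
    have r1 := rep t σ g hout hg1
    have hins : insert y ((nf σ).image fun x => g⁻¹ • x) ∈ K := by
      have h1 := hKG g⁻¹ σ hσ
      refine hK.2 _ h1 _ ?_
      intro z hz
      rcases Finset.mem_insert.1 hz with rfl | hz
      · exact Finset.mem_image.2 ⟨g • z, hgσ, inv_smul_smul g z⟩
      · obtain ⟨x, hx, rfl⟩ := Finset.mem_image.1 hz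
        exact Finset.mem_image_of_mem _ (Finset.mem_filter.1 hx).1
    have hyn : ∀ (S : Finset X) (h k : G), k • y ∉ (nf S).image fun x => h • x := by
      intro S h k hy
      obtain ⟨x, hx, hxy⟩ := Finset.mem_image.1 hy
      apply nf_out S (h⁻¹ * k)
      rw [mul_smul, ← hxy, inv_smul_smul]
      exact hx
    have hyn1 : ∀ (S : Finset X) (h : G), y ∉ (nf S).image fun x => h • x := by
      intro S h
      have := hyn S h 1
      rwa [one_smul] at this
    by_cases hc : ∀ h : G, t' (h • y) ≠ 0 → h = g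
    · by_contra hne
      have r2 := rep t' σ' g hout' hc
      rw [← hB] at r2
      have r3 : (t (g • y) - t' (g • y)) • ρ g w ∈
          Submodule.span ℝ (p '' (nf σ ∪ nf σ' : Finset X)) := by
        have e : (t (g • y) - t' (g • y)) • ρ g w =
            (linP p' t - t' (g • y) • ρ g w) - (linP p' t - t (g • y) • ρ g w) := by
          rw [sub_smul]; abel
        rw [e]
        refine Submodule.sub_mem _ (Submodule.span_mono ?_ r2) (Submodule.span_mono ?_ r1)
        · refine Set.image_mono ?_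
          rw [Finset.coe_union]
          exact Set.subset_union_right
        · refine Set.image_mono ?_
          rw [Finset.coe_union]
          exact Set.subset_union_left
      rw [Submodule.smul_mem_iff _ (sub_ne_zero.2 hne)] at r3
      have r4 := span_tr g _ _ r3
      rw [Finset.image_union] at r4
      refine w1 _ _ (hyn1 σ g⁻¹) hins ?_ (fun h => hyn σ' g⁻¹ h) r4
      exact hKG g⁻¹ _ (nf_K σ' hσ')
    · push Not at hc
      obtain ⟨h, hh, hne⟩ := hc
      have hhσ : h • y ∈ σ' := by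
        by_contra h2
        exact hh (hout' _ h2)
      have hh1 : ∀ k : G, t' (k • y) ≠ 0 → k = h := by
        intro k hk
        refine hone σ' hσ' k h ?_ hhσ
        by_contra h2
        exact hk (hout' _ h2)
      have r2 := rep t' σ' h hout' hh1
      rw [← hB] at r2
      have r3 : ρ g (t (g • y) • w - t' (h • y) • ρ (g⁻¹ * h) w) ∈
          Submodule.span ℝ (p '' (nf σ ∪ nf σ' : Finset X)) := by
        have e0 : ρ g (ρ (g⁻¹ * h) w) = ρ h w := by
          rw [← LinearEquiv.mul_apply, ← map_mul, mul_inv_cancel_left]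
        have e : ρ g (t (g • y) • w - t' (h • y) • ρ (g⁻¹ * h) w) =
            (linP p' t - t' (h • y) • ρ h w) - (linP p' t - t (g • y) • ρ g w) := by
          rw [map_sub, map_smul, map_smul, e0]; abel
        rw [e]
        refine Submodule.sub_mem _ (Submodule.span_mono ?_ r2) (Submodule.span_mono ?_ r1)
        · refine Set.image_mono ?_
          rw [Finset.coe_union]
          exact Set.subset_union_right
        · refine Set.image_mono ?_
          rw [Finset.coe_union]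
          exact Set.subset_union_left
      have r4 := span_tr g _ _ r3
      rw [Finset.image_union] at r4
      have hins' : insert ((g⁻¹ * h) • y) ((nf σ').image fun x => g⁻¹ • x) ∈ K := by
        have h1 := hKG g⁻¹ σ' hσ'
        refine hK.2 _ h1 _ ?_
        intro z hz
        rcases Finset.mem_insert.1 hz with rfl | hz
        · exact Finset.mem_image.2 ⟨h • y, hhσ, by rw [mul_smul]⟩
        · obtain ⟨x, hx, rfl⟩ := Finset.mem_image.1 hz
          exact Finset.mem_image_of_mem _ (Finset.mem_filter.1 hx).1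
      have hgh : g⁻¹ * h ≠ 1 := fun h1 => hne (inv_mul_eq_one.1 h1).symm
      exact absurd (w2 _ _ _ hgh (hyn1 σ g⁻¹) hins (hyn σ' g⁻¹ _) hins' _ _ (ht0 _) (ht0' _) r4).1 hg
  have key2 : ∀ t ∈ cone K, ∀ t' ∈ cone K, linP p' t = linP p' t' → ∀ g : G,
      t (g • y) = t' (g • y) := by
    intro t ht t' ht' hB g
    by_cases h1 : t (g • y) = 0
    · by_cases h2 : t' (g • y) = 0
      · rw [h1, h2]
      · exact (key t' ht' t ht hB.symm g h2).symm
    · exact key t ht t' ht' hB g h1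
  -- conclusion
  intro t ht t' ht' hB
  have hB' : linP p' t = linP p' t' := hB
  have k2 := key2 t ht t' ht' hB'
  set c : (X → ℝ) → X → ℝ := fun t x => if ∃ g : G, x = g • y then 0 else t x with hc
  have hcm : ∀ t ∈ cone K, c t ∈ cone {σ | σ ∈ K ∧ ∀ g : G, g • y ∉ σ} := by
    rintro t ⟨ht0, σ, hσ, hout⟩
    refine ⟨fun x => ?_, nf σ, ⟨nf_K σ hσ, fun g => nf_out σ g⟩, fun x hx => ?_⟩
    · simp only [hc]
      split_ifs
      · exact le_rfl
      · exact ht0 x
    · simp only [hc]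
      split_ifs with h
      · rfl
      · refine hout x fun h2 => hx (Finset.mem_filter.2 ⟨h2, fun g hg => h ⟨g, hg⟩⟩)
  have hcl : ∀ t, linP p (c t) = linP p' t - ∑ x, if ∃ g : G, x = g • y then t x • p' x else 0 := by
    intro t
    rw [linP_apply, linP_apply, ← Finset.sum_sub_distrib]
    refine Finset.sum_congr rfl fun x _ => ?_
    simp only [hc]
    split_ifs with h
    · rw [zero_smul, sub_self]
    · rw [sub_zero, pn x fun g hg => h ⟨g, hg⟩]
  have he : c t = c t' := by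
    refine hinj (hcm t ht) (hcm t' ht') ?_
    show linP p (c t) = linP p (c t')
    rw [hcl, hcl, hB']
    congr 1
    refine Finset.sum_congr rfl fun x _ => ?_
    split_ifs with h
    · obtain ⟨g, rfl⟩ := h
      rw [k2 g]
    · rfl
  ext x
  by_cases hx : ∃ g : G, x = g • y
  · obtain ⟨g, rfl⟩ := hx
    exact k2 g
  · have h1 := congrFun he x
    simp only [hc] at h1
    rwa [if_neg hx, if_neg hx] at h1

end

end Pool.Agent.DF302A
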