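import Pool.Agent.Work.MP_df302a_co.RepA

/-!
# The group `M10` and its representations

`M10` is generated by two explicit permutations of ten points. All the relations of `RData` are
checked on the ten points, with explicit conjugating words in the generators.
-/

set_option autoImplicit false

namespace Pool.Agent.DF302A

/-- the map `z ↦ (1 + i) z ^ 3` of the projective line over `F_9 = F_3 (i)`; the point `a + b i` has
the number `3 a + b`, and infinity has the number `9` -/
def g₁ : Equiv.Perm (Fin 10) where
  toFun := ![0, 5, 7, 4, 6, 2, 8, 1, 3, 9]
  invFun := ![0, 7, 5, 8, 3, 1, 4, 2, 6, 9]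
  left_inv := by decide
  right_inv := by decide

/-- an element of order five of the group `A_6` inside `M_10` -/
def g₂ : Equiv.Perm (Fin 10) where
  toFun := ![6, 3, 1, 5, 8, 9, 7, 4, 0, 2]
  invFun := ![8, 2, 9, 1, 7, 3, 0, 6, 4, 5]
  left_inv := by decide
  right_inv := by decide

/-- the group generated by the two permutations, it is the group `M_10` of order `720` -/
def M10 : Subgroup (Equiv.Perm (Fin 10)) := Subgroup.closure {g₁, g₂}

namespace RepM

/-- the two generators as elements of `M10` -/
def gen (c : Bool) : M10 :=
  ⟨if c then g₁ else g₂, Subgroup.subset_closure (by cases c <;> simp)⟩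

/-- the value of a word -/
def W (l : List Bool) : M10 := (l.map gen).prod

/-- the table of a generator -/
def tb (c : Bool) : Fin 10 → Fin 10 :=
  if c then ![0, 5, 7, 4, 6, 2, 8, 1, 3, 9] else ![6, 3, 1, 5, 8, 9, 7, 4, 0, 2]

/-- evaluation of a word at a point -/
def ev (l : List Bool) (p : Fin 10) : Fin 10 := l.foldr tb p

theorem W_apply (l : List Bool) (p : Fin 10) : (W l : Equiv.Perm (Fin 10)) p = ev l p := by
  induction l with
  | nil => rfl
  | cons c l ih =>
    have h : W (c :: l) = gen c * W l := by
      unfold W
      rw [List.map_cons, List.prod_cons]
    have h2 : ev (c :: l) p = tb c (ev l p) := rfl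
    rw [h, Subgroup.coe_mul, Equiv.Perm.mul_apply, ih, h2]
    cases c <;> rfl

theorem W_eq {l m : List Bool} (h : ∀ p, ev l p = ev m p) : W l = W m :=
  Subtype.ext (Equiv.ext fun p => by rw [W_apply, W_apply, h p])

theorem W_append (l m : List Bool) : W (l ++ m) = W l * W m := by
  unfold W
  rw [List.map_append, List.prod_append]

/-- powers of a word -/
def pw (l : List Bool) : ℕ → List Bool
  | 0 => []
  | n + 1 => pw l n ++ l

theorem W_pow (l : List Bool) (n : ℕ) : W l ^ n = W (pw l n) := by
  induction n with
  | zero => rfl
  | succ n ih => rw [pow_succ, ih, ← W_append]; rfl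

theorem conj (c l m : List Bool) (h : ∀ p, ev (c ++ l) p = ev (m ++ c) p) :
    IsConj (W l) (W m) := by
  have h1 := W_eq h
  rw [W_append, W_append] at h1
  refine isConj_iff.2 ⟨W c, ?_⟩
  rw [h1, mul_assoc, mul_inv_cancel, mul_one]

/-- the word `a` -/
def wa : List Bool := [false, true, false, false, true]
/-- the word `b` -/
def wb : List Bool := [true, false, true, false, false]
/-- the word `t` -/
def wt : List Bool := [true, true]
/-- the word `u` -/
def wu : List Bool := [false, true, false, true, false, true, false, false, true, false]
/-- the word `v` -/
def wv : List Bool := [true]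
/-- the word `y` -/
def wy : List Bool := [false, true, true, false]
/-- the word `s` -/
def ws : List Bool := [true, false, false, true, true, false, false, true, false]

/-- conjugating words -/
def cE : Fin 3 → Fin 3 → List Bool :=
  ![![[], [true], [true, true, true]], ![[], [false, true, true, true, false], [false, true, true, true, false, true]], ![[true, true], [true, false, true, true, true, false], [false, true, true, true, false, true, true]]]
/-- conjugating words -/
def ct : Fin 3 → Fin 3 → List Bool :=
  ![![[], [false, true, true, true, false], [true, false, true, false, false]], ![[true, true, false, true, false, false], [false, false, true, true, false], [false, true, true, false, false]], ![[false, true, false, false], [true, false, false, true, true, false], [true, true, false, false, true, true, false]]]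
/-- conjugating words -/
def cu : Fin 3 → Fin 3 → List Bool :=
  ![![[], [false, true, true, false, false, true], [true, false, false, true, true, false]], ![[false, true, true, true, false, true], [false, false, true, false, false, true, false], [true, false, true, false, true, true, false, false]], ![[true, false, true, false, false], [true, false, true, true, false, false], [false, true, false, false, true]]]
/-- conjugating words -/
def cv : Fin 3 → Fin 3 → List Bool :=
  ![![[], [false, true, false, false, false, true, false, false], [true, false, false, false, true, false, true, false, true, false]], ![[false, true, true, false, true, false, true, false], [true, false, true, false, false], [false, true, false, false]], ![[false, false, false, true, false, true, false, true, false], [true, true, false, true, false, false], [true, true, true, false, true, false, false]]]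
/-- conjugating words -/
def cy : Fin 5 → List Bool := ![[], [], [true], [true, true, true], [true, true]]
/-- conjugating words -/
def cF1 : Fin 5 → List Bool := ![[], [true, true, false, true, true, false], [true, true, true, false, true, true, false], [true, false, true, true, false], [false, true, true, false]]
/-- conjugating words -/
def cF2 : Fin 5 → List Bool := ![[], [false, true, false, true, true, false], [false, true, true, false], [false, true, false, true, false], [true, false, true, true, false]]
/-- conjugating words -/
def cF3 : Fin 5 → List Bool := ![[false, true, false, false, false, true, true, true, false], [true, true, false, true, false, true, true, false], [false, true, false, false, true, false, false, false], [true, false, true, false, true, true, false], [false, true, false, true, true, false]]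

theorem cEw : ∀ i j : Fin 3, ¬ (i = 0 ∧ j = 0) → ∀ p : Fin 10,
    ev (cE i j ++ wa) p = ev ((pw wa i ++ pw wb j) ++ cE i j) p := by decide +kernel

theorem ctw : ∀ i j : Fin 3, ∀ p : Fin 10,
    ev (ct i j ++ wt) p = ev (((pw wa i ++ pw wb j) ++ wt) ++ ct i j) p := by decide +kernel

theorem cuw : ∀ i j : Fin 3, ∀ p : Fin 10,
    ev (cu i j ++ wu) p = ev (((pw wa i ++ pw wb j) ++ wu) ++ cu i j) p := by decide +kernel

theorem cvw : ∀ i j : Fin 3, ∀ p : Fin 10,
    ev (cv i j ++ wv) p = ev (((pw wa i ++ pw wb j) ++ wv) ++ cv i j) p := by decide +kernel

theorem cyw : ∀ i : Fin 5, i ≠ 0 → ∀ p : Fin 10,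
    ev (cy i ++ wy) p = ev ((pw wy i ++ pw wv 0) ++ cy i) p := by decide +kernel

theorem cF1w : ∀ i : Fin 5, ∀ p : Fin 10,
    ev (cF1 i ++ wv) p = ev ((pw wy i ++ pw wv 1) ++ cF1 i) p := by decide +kernel

theorem cF2w : ∀ i : Fin 5, ∀ p : Fin 10,
    ev (cF2 i ++ wt) p = ev ((pw wy i ++ pw wv 2) ++ cF2 i) p := by decide +kernel

theorem cF3w : ∀ i : Fin 5, ∀ p : Fin 10,
    ev (cF3 i ++ wv) p = ev ((pw wy i ++ pw wv 3) ++ cF3 i) p := by decide +kernel

theorem data : RData (W wa) (W wb) (W wt) (W wu) (W wv) (W wy) (W ws) where
  a1 := fun h => by
    have h1 := W_apply wa 0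
    rw [h] at h1
    exact absurd h1 (by decide)
  a3 := by
    rw [W_pow]
    exact W_eq (m := []) (by decide +kernel)
  b3 := by
    rw [W_pow]
    exact W_eq (m := []) (by decide +kernel)
  ab := by
    rw [← W_append, ← W_append]
    exact W_eq (by decide +kernel)
  t2 := by
    rw [W_pow]
    exact W_eq (m := []) (by decide +kernel)
  ta := by
    rw [W_pow, ← W_append, ← W_append]
    exact W_eq (by decide +kernel)
  v4 := by
    rw [W_pow]
    exact W_eq (m := []) (by decide +kernel)
  y5 := by
    rw [W_pow]
    exact W_eq (m := []) (by decide +kernel)
  vy := by
    rw [W_pow, ← W_append, ← W_append]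
    exact W_eq (by decide +kernel)
  cE := fun i j h => by
    rw [W_pow, W_pow, ← W_append]
    exact conj _ _ _ (cEw i j h)
  ct := fun i j => by
    rw [W_pow, W_pow, ← W_append, ← W_append]
    exact conj _ _ _ (ctw i j)
  cu := fun i j => by
    rw [W_pow, W_pow, ← W_append, ← W_append]
    exact conj _ _ _ (cuw i j)
  cv := fun i j => by
    rw [W_pow, W_pow, ← W_append, ← W_append]
    exact conj _ _ _ (cvw i j)
  cs0 := by
    rw [W_pow, W_pow, ← W_append, ← W_append]
    exact conj [false, false, false, false, true, true, false] _ _ (by decide +kernel)
  cs1 := by
    rw [W_pow, W_pow, ← W_append, ← W_append]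
    exact conj [true, true, false, false, false] _ _ (by decide +kernel)
  cs2 := by
    rw [W_pow, W_pow, ← W_append, ← W_append]
    exact conj [false, false, false] _ _ (by decide +kernel)
  cs3 := by
    rw [W_pow, W_pow, ← W_append, ← W_append]
    exact conj [true, true, false, false, false, false] _ _ (by decide +kernel)
  cs4 := by
    rw [W_pow, W_pow, ← W_append, ← W_append]
    exact conj [false, false, false, false] _ _ (by decide +kernel)
  cs5 := by
    rw [W_pow, W_pow, ← W_append, ← W_append]
    exact conj [false, true, false, false, true, false] _ _ (by decide +kernel)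
  cs6 := by
    rw [W_pow, W_pow, ← W_append, ← W_append]
    exact conj [false, false, true, false, false, true] _ _ (by decide +kernel)
  cs7 := by
    rw [W_pow, W_pow, ← W_append, ← W_append]
    exact conj [true, true, true, false, false, true, true] _ _ (by decide +kernel)
  cs8 := by
    rw [W_pow, W_pow, ← W_append, ← W_append]
    exact conj [true, false, false, true, true] _ _ (by decide +kernel)
  cy := fun i h => by
    rw [W_pow, W_pow, ← W_append]
    exact conj _ _ _ (cyw i h)
  cF1 := fun i => by
    rw [W_pow, W_pow, ← W_append]
    exact conj _ _ _ (cF1w i)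
  cF2 := fun i => by
    rw [W_pow, W_pow, ← W_append]
    exact conj _ _ _ (cF2w i)
  cF3 := fun i => by
    rw [W_pow, W_pow, ← W_append]
    exact conj _ _ _ (cF3w i)

end RepM

/-- linear automorphisms as endomorphisms -/
def toEndHom (n : ℕ) : ((Fin n → ℝ) ≃ₗ[ℝ] (Fin n → ℝ)) →* Module.End ℝ (Fin n → ℝ) where
  toFun e := e.toLinearMap
  map_one' := rfl
  map_mul' _ _ := rfl

/-- `M10` has no faithful real representation of dimension at most `8`. -/
theorem no_rep (n : ℕ) (hn : n ≤ 8) (ρ : M10 →* ((Fin n → ℝ) ≃ₗ[ℝ] (Fin n → ℝ))) :
    ¬ Function.Injective ρ := fun h => by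
  refine RepM.data.false (V := Fin n → ℝ) ?_ ((toEndHom n).comp ρ) ?_
  · rw [Module.finrank_fin_fun]
    exact hn
  · intro x y hxy
    exact h (LinearEquiv.toLinearMap_injective hxy)

end Pool.Agent.DF302A
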