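import Pool.Agent.Work.MP_df302a_co.Pos
import Pool.Agent.Work.MP_df302a_co.FreePos
import Pool.Agent.Work.MP_df302a_co.Rep

/-!
# MP_df302a_co : the complex with one free orbit of vertices, general positions

`V0` is a finite set with an action of `M10` and equivariant positions in `W10`, `L` an invariant
complex on `V0`, `S` a subcomplex.  `KV L S` is the union of `L` and of the cones over the
translates of `S`.
-/

set_option autoImplicit false
set_option linter.unusedSectionVars false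
set_option linter.unusedVariables false

namespace Pool.Agent.DF302A

namespace FV

open Finset Module

noncomputable instance : Fintype M10 := Fintype.ofFinite M10

/-- the representation -/
noncomputable def rho : M10 →* (W10 ≃ₗ[ℝ] W10) := rhoW.comp M10.subtype

section
variable {V0 : Type} [Fintype V0] [DecidableEq V0] [MulAction M10 V0]

/-- the complex `L` and the cones over the translates of `S` -/
def KV (L S : Set (Finset V0)) : Set (Finset (V0 ⊕ M10)) :=
  {σ | (∃ c ∈ L, σ = c.image Sum.inl) ∨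
    ∃ g : M10, ∃ c ∈ S, σ = insert (Sum.inr g) ((c.image (fun v => g • v)).image Sum.inl)}

/-- the data -/
structure Data (p0 : V0 → W10) (L S : Set (Finset V0)) : Prop where
  eqv : ∀ (g : M10) v, p0 (g • v) = rho g (p0 v)
  inj : Set.InjOn (fun t => linP p0 t) (cone L)
  cxL : IsCx L
  inv : ∀ g : M10, ∀ c ∈ L, c.image (fun v => g • v) ∈ L
  card : ∀ c ∈ L, c.card ≤ 3
  SL : S ⊆ L
  cxS : IsCx S
  hinv : ∀ g : M10, g ≠ 1 → ∀ c ∈ S, ∀ c' ∈ S, ∃ w, rho g w - w ∉
    Submodule.span ℝ (p0 '' (c ∪ c'.image (fun v => g • v) : Finset V0))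

variable {p0 : V0 → W10} {L S : Set (Finset V0)}

theorem inr_notMem {c : Finset V0} (g : M10) : (Sum.inr g : V0 ⊕ M10) ∉ c.image Sum.inl := by
  intro h
  obtain ⟨A, -, hA⟩ := Finset.mem_image.1 h
  exact Sum.inl_ne_inr hA

theorem Data.isCx (D : Data p0 L S) : IsCx (KV L S) := by
  classical
  refine ⟨Or.inl ⟨∅, D.cxL.1, by simp⟩, ?_⟩
  have hsub : ∀ (c : Finset V0) (τ : Finset (V0 ⊕ M10)), τ ⊆ c.image Sum.inl →
      ∃ d ⊆ c, τ = d.image Sum.inl := by
    intro c τ h
    obtain ⟨d, hd, rfl⟩ := Finset.subset_image_iff.1 h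
    exact ⟨d, by exact_mod_cast hd, rfl⟩
  rintro σ (⟨c, hc, rfl⟩ | ⟨g, c, hc, rfl⟩) τ hτ
  · obtain ⟨d, hd, rfl⟩ := hsub c τ hτ
    exact Or.inl ⟨d, D.cxL.2 c hc d hd, rfl⟩
  · have hcL : c.image (fun v => g • v) ∈ L := D.inv g c (D.SL hc)
    by_cases hy : (Sum.inr g : V0 ⊕ M10) ∈ τ
    · have h1 : τ.erase (Sum.inr g) ⊆ (c.image (fun v => g • v)).image Sum.inl := by
        intro x hx
        rcases Finset.mem_insert.1 (hτ (Finset.mem_of_mem_erase hx)) with h | h
        · exact absurd h (Finset.ne_of_mem_erase hx)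
        · exact h
      obtain ⟨d, hd, he⟩ := hsub _ _ h1
      obtain ⟨d', hd', rfl⟩ := Finset.subset_image_iff.1 hd
      refine Or.inr ⟨g, d', D.cxS.2 c hc d' (by exact_mod_cast hd'), ?_⟩
      rw [← he, Finset.insert_erase hy]
    · have h1 : τ ⊆ (c.image (fun v => g • v)).image Sum.inl := by
        intro x hx
        rcases Finset.mem_insert.1 (hτ hx) with h | h
        · exact absurd (h ▸ hx) hy
        · exact h
      obtain ⟨d, hd, rfl⟩ := hsub _ _ h1
      exact Or.inl ⟨d, D.cxL.2 _ hcL d hd, rfl⟩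

theorem Data.card_le (D : Data p0 L S) : ∀ σ ∈ KV L S, σ.card ≤ 4 := by
  rintro σ (⟨c, hc, rfl⟩ | ⟨g, c, hc, rfl⟩)
  · exact (Finset.card_image_le.trans (D.card c hc)).trans (by norm_num)
  · refine (Finset.card_insert_le _ _).trans ?_
    have h1 : ((c.image (fun v => g • v)).image (Sum.inl : V0 → V0 ⊕ M10)).card ≤ c.card :=
      Finset.card_image_le.trans Finset.card_image_le
    have := D.card c (D.SL hc)
    omega

theorem image_smul_inl (g : M10) (c : Finset V0) :
    (c.image (Sum.inl : V0 → V0 ⊕ M10)).image (fun x => g • x) =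
      (c.image (fun v => g • v)).image Sum.inl := by
  rw [Finset.image_image, Finset.image_image]
  rfl

theorem Data.smul (D : Data p0 L S) (g : M10) :
    ∀ σ ∈ KV L S, σ.image (fun x => g • x) ∈ KV L S := by
  classical
  rintro σ (⟨c, hc, rfl⟩ | ⟨h, c, hc, rfl⟩)
  · exact Or.inl ⟨c.image (fun v => g • v), D.inv g c hc, image_smul_inl g c⟩
  · refine Or.inr ⟨g * h, c, hc, ?_⟩
    rw [Finset.image_insert, image_smul_inl]
    congr 2
    rw [Finset.image_image]
    refine Finset.image_congr fun A _ => ?_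
    rw [Function.comp_apply, ← mul_smul]

theorem mem_KV_y {g : M10} {σ : Finset (V0 ⊕ M10)} (h : σ ∈ KV L S) (hy : Sum.inr g ∈ σ) :
    ∃ c ∈ S, σ = insert (Sum.inr g) ((c.image (fun v => g • v)).image Sum.inl) := by
  rcases h with ⟨c, hc, rfl⟩ | ⟨g', c, hc, rfl⟩
  · exact absurd hy (inr_notMem g)
  · rcases Finset.mem_insert.1 hy with h | h
    · have : g = g' := Sum.inr_injective h
      subst this
      exact ⟨c, hc, rfl⟩
    · exact absurd h (inr_notMem g)

theorem mem_KV_of_not {σ : Finset (V0 ⊕ M10)} (h : σ ∈ KV L S) (hy : ∀ g : M10, Sum.inr g ∉ σ) :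
    ∃ c ∈ L, σ = c.image Sum.inl := by
  rcases h with ⟨c, hc, rfl⟩ | ⟨g', c, hc, rfl⟩
  · exact ⟨c, hc, rfl⟩
  · exact absurd (Finset.mem_insert_self _ _) (hy g')

/-- preliminary positions -/
noncomputable def pos0 (p0 : V0 → W10) (x : V0 ⊕ M10) : W10 := Sum.elim p0 (fun _ => 0) x

theorem pos0_image (p0 : V0 → W10) (c : Finset V0) :
    pos0 p0 '' (c.image Sum.inl : Finset (V0 ⊕ M10)) = p0 '' (c : Set V0) := by
  ext w
  constructor
  · rintro ⟨x, hx, rfl⟩
    rw [Finset.mem_coe] at hx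
    obtain ⟨A, hA, rfl⟩ := Finset.mem_image.1 hx
    exact ⟨A, hA, rfl⟩
  · rintro ⟨A, hA, rfl⟩
    exact ⟨Sum.inl A, by rw [Finset.mem_coe]; exact Finset.mem_image_of_mem _ hA, rfl⟩

theorem linP_pos0 {t : V0 ⊕ M10 → ℝ} (ht : ∀ g : M10, t (Sum.inr g) = 0) :
    linP (pos0 p0) t = linP p0 (fun A => t (Sum.inl A)) := by
  rw [linP_apply, linP_apply, Fintype.sum_sum_type]
  have h3 : ∀ g : M10, t (Sum.inr g) • pos0 p0 (Sum.inr g) = 0 := fun g => by
    rw [ht g, zero_smul]
  simp only [h3, Finset.sum_const_zero, add_zero]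
  rfl

theorem Data.position (D : Data p0 L S) : ∃ p : V0 ⊕ M10 → W10,
    (∀ (g : M10) x, p (g • x) = rho g (p x)) ∧ (∀ A, p (Sum.inl A) = p0 A) ∧
      Set.InjOn (fun t => linP p t) (cone (KV L S)) := by
  classical
  have hfin : ∀ g : M10, g • (Sum.inr 1 : V0 ⊕ M10) = Sum.inr g := fun g => by
    rw [Sum.smul_inr, smul_eq_mul, mul_one]
  have hp0 : ∀ (g : M10) x, pos0 p0 (g • x) = rho g (pos0 p0 x) := by
    intro g x
    rcases x with A | h
    · exact D.eqv g A
    · show (0 : W10) = rho g 0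
      rw [map_zero]
  suffices h : ∃ p' : V0 ⊕ M10 → W10, (∀ (g : M10) x, p' (g • x) = rho g (p' x)) ∧
      (∀ x, (∀ g : M10, x ≠ g • (Sum.inr 1 : V0 ⊕ M10)) → p' x = pos0 p0 x) ∧
      (∀ i : Empty, (fun i : Empty => (i.elim : W10 → ℝ)) i (p' (Sum.inr 1)) ≠ 0) ∧
      Set.InjOn (fun t => linP p' t) (cone (KV L S)) by
    obtain ⟨p, h1, h2, -, h3⟩ := h
    refine ⟨p, h1, fun A => ?_, h3⟩
    rw [h2 (Sum.inl A) fun g => by rw [hfin]; exact Sum.inl_ne_inr]
    rfl
  refine exists_free_position rho (KV L S) D.isCx D.smul (pos0 p0) hp0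
    (Sum.inr 1) ?_ ?_ ?_ ?_ ?_ (fun i : Empty => i.elim) (fun i => i.elim) (fun i => i.elim)
  · intro g hg
    rw [hfin] at hg
    exact Sum.inr_injective hg
  · intro σ hσ g h hg hh
    rw [hfin] at hg hh
    obtain ⟨c, hc, rfl⟩ := mem_KV_y hσ hg
    rcases Finset.mem_insert.1 hh with h4 | h4
    · exact (Sum.inr_injective h4).symm
    · exact absurd h4 (inr_notMem h)
  · -- injectivity without the free vertices
    intro t ht t' ht' h
    have hy : ∀ s ∈ cone {σ | σ ∈ KV L S ∧ ∀ g : M10, g • (Sum.inr 1 : V0 ⊕ M10) ∉ σ},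
        (∀ g : M10, s (Sum.inr g) = 0) ∧ (fun A => s (Sum.inl A)) ∈ cone L := by
      rintro s ⟨s0, σ, ⟨hσ, hσy⟩, hout⟩
      obtain ⟨c, hc, rfl⟩ := mem_KV_of_not hσ fun g => by rw [← hfin]; exact hσy g
      refine ⟨fun g => hout _ (inr_notMem g), fun A => s0 _, c, hc, fun A hA => hout _ ?_⟩
      intro h4
      obtain ⟨B, hB, e⟩ := Finset.mem_image.1 h4
      exact hA (Sum.inl_injective e ▸ hB)
    obtain ⟨a1, a2⟩ := hy t ht
    obtain ⟨b1, b2⟩ := hy t' ht'
    have h5 : linP (pos0 p0) t = linP (pos0 p0) t' := h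
    rw [linP_pos0 a1, linP_pos0 b1] at h5
    have h6 := D.inj a2 b2 h5
    funext x
    rcases x with A | g
    · exact congrFun h6 A
    · rw [a1, b1]
  · -- first condition
    intro τ hyτ hτ σ hσ hσy
    obtain ⟨c, hc, he⟩ := mem_KV_y hτ (Finset.mem_insert_self _ _)
    obtain ⟨d, hd, rfl⟩ := mem_KV_of_not hσ fun g => by rw [← hfin]; exact hσy g
    have hcard : (τ ∪ d.image Sum.inl).card ≤ 6 := by
      refine (Finset.card_union_le _ _).trans ?_
      have e1 : (insert (Sum.inr 1) τ).card ≤ 4 := D.card_le _ hτ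
      rw [Finset.card_insert_of_notMem hyτ] at e1
      have e2 : (d.image (Sum.inl : V0 → V0 ⊕ M10)).card ≤ 3 :=
        Finset.card_image_le.trans (D.card d hd)
      omega
    intro htop
    have h7 := finrank_span_le_card (R := ℝ)
      (pos0 p0 '' (τ ∪ d.image Sum.inl : Finset (V0 ⊕ M10)))
    rw [htop, finrank_top, finrank_W10, Set.toFinset_image, Finset.toFinset_coe] at h7
    have h8 := Finset.card_image_le (s := τ ∪ d.image Sum.inl) (f := pos0 p0)
    omega
  · -- second condition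
    intro g hg τ τ' hyτ hτ hyτ' hτ'
    obtain ⟨c, hc, he⟩ := mem_KV_y hτ (Finset.mem_insert_self _ _)
    rw [hfin] at hτ' hyτ'
    obtain ⟨c', hc', he'⟩ := mem_KV_y hτ' (Finset.mem_insert_self _ _)
    have e1 : τ = c.image Sum.inl := by
      have h4 := congrArg (fun s => s.erase (Sum.inr 1)) he
      rw [Finset.erase_insert hyτ, Finset.erase_insert (inr_notMem 1)] at h4
      rw [h4]
      congr 1
      conv_rhs => rw [← Finset.image_id (s := c)]
      exact Finset.image_congr fun A _ => one_smul _ A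
    have e2 : τ' = (c'.image (fun v => g • v)).image Sum.inl := by
      have h4 := congrArg (fun s => s.erase (Sum.inr g)) he'
      rwa [Finset.erase_insert hyτ', Finset.erase_insert (inr_notMem g)] at h4
    have e3 : pos0 p0 '' (τ ∪ τ' : Finset (V0 ⊕ M10)) =
        p0 '' (c ∪ c'.image (fun v => g • v) : Finset V0) := by
      rw [e1, e2, ← Finset.image_union, pos0_image]
    rw [e3]
    refine ⟨?_, D.hinv g hg c hc c' hc'⟩
    have h7 := finrank_span_le_card (R := ℝ)
      (p0 '' (c ∪ c'.image (fun v => g • v) : Finset V0))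
    rw [Set.toFinset_image, Finset.toFinset_coe] at h7
    have h8 := Finset.card_image_le (s := c ∪ c'.image (fun v => g • v)) (f := p0)
    have h9 := Finset.card_union_le c (c'.image (fun v => g • v))
    have h10 : (c'.image (fun v => g • v)).card ≤ c'.card := Finset.card_image_le
    have h11 := D.card c (D.SL hc)
    have h12 := D.card c' (D.SL hc')
    rw [finrank_W10]
    omega

end

/-! ### a criterion for injectivity -/

/-- separating functionals for the pairs (representative, maximal simplex) -/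
theorem injOn_of_sep {V0 : Type} [Fintype V0] [DecidableEq V0] [MulAction M10 V0]
    {p0 : V0 → W10} (heq : ∀ (g : M10) v, p0 (g • v) = rho g (p0 v)) {L : Set (Finset V0)}
    (T R : Set (Finset V0)) (hT : ∀ c ∈ L, ∃ d ∈ T, c ⊆ d)
    (hTG : ∀ g : M10, ∀ d ∈ T, d.image (fun v => g • v) ∈ T)
    (hR : ∀ d ∈ T, ∃ g : M10, d.image (fun v => g • v) ∈ R)
    (hsep : ∀ r ∈ R, ∀ d ∈ T, ∃ l : W10 →ₗ[ℝ] ℝ, (∀ v ∈ r, v ∉ d → 0 < l (p0 v)) ∧
      (∀ v ∈ d, v ∉ r → l (p0 v) < 0) ∧ ∀ v ∈ r, v ∈ d → l (p0 v) = 0)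
    (hind : ∀ r ∈ R, ∀ a : V0 → ℝ, (∀ v, v ∉ r → a v = 0) → linP p0 a = 0 → a = 0) :
    Set.InjOn (fun t => linP p0 t) (cone L) := by
  classical
  -- first for simplices in a representative
  have key : ∀ r ∈ R, ∀ d ∈ T, ∀ t t' : V0 → ℝ, (∀ v, 0 ≤ t v) → (∀ v, 0 ≤ t' v) →
      (∀ v, v ∉ r → t v = 0) → (∀ v, v ∉ d → t' v = 0) → linP p0 t = linP p0 t' → t = t' := by
    intro r hr d hd t t' ht ht' hout hout' h
    obtain ⟨l, h1, h2, h3⟩ := hsep r hr d hd
    have e1 : l (linP p0 t) = ∑ v, t v * l (p0 v) := by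
      rw [linP_apply, map_sum]
      exact Finset.sum_congr rfl fun v _ => by rw [map_smul, smul_eq_mul]
    have e2 : l (linP p0 t') = ∑ v, t' v * l (p0 v) := by
      rw [linP_apply, map_sum]
      exact Finset.sum_congr rfl fun v _ => by rw [map_smul, smul_eq_mul]
    have p1 : ∀ v ∈ Finset.univ, 0 ≤ t v * l (p0 v) := by
      intro v _
      by_cases hv : v ∈ r
      · by_cases hv' : v ∈ d
        · rw [h3 v hv hv', mul_zero]
        · exact mul_nonneg (ht v) (h1 v hv hv').le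
      · rw [hout v hv, zero_mul]
    have p2 : ∀ v ∈ Finset.univ, t' v * l (p0 v) ≤ 0 := by
      intro v _
      by_cases hv : v ∈ d
      · by_cases hv' : v ∈ r
        · rw [h3 v hv' hv, mul_zero]
        · exact mul_nonpos_of_nonneg_of_nonpos (ht' v) (h2 v hv hv').le
      · rw [hout' v hv, zero_mul]
    have q1 : ∑ v, t v * l (p0 v) = 0 := by
      refine le_antisymm ?_ (Finset.sum_nonneg p1)
      rw [← e1, h, e2]
      exact Finset.sum_nonpos p2
    have q2 : ∑ v, t' v * l (p0 v) = 0 := by rw [← e2, ← h, e1, q1]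
    have r1 := (Finset.sum_eq_zero_iff_of_nonneg p1).1 q1
    have r2 := (Finset.sum_eq_zero_iff_of_nonpos p2).1 q2
    have s1 : ∀ v, v ∉ r → t' v = 0 := by
      intro v hv
      by_cases hv' : v ∈ d
      · rcases mul_eq_zero.1 (r2 v (Finset.mem_univ v)) with h4 | h4
        · exact h4
        · exact absurd h4 (h2 v hv' hv).ne
      · exact hout' v hv'
    have h5 : t - t' = 0 := by
      refine hind r hr (t - t') (fun v hv => ?_) ?_
      · rw [Pi.sub_apply, hout v hv, s1 v hv, sub_zero]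
      · rw [map_sub, h, sub_self]
    exact sub_eq_zero.1 h5
  intro t ht t' ht' h
  have h' : linP p0 t = linP p0 t' := h
  obtain ⟨t0, c, hc, hout⟩ := ht
  obtain ⟨t0', c', hc', hout'⟩ := ht'
  obtain ⟨d, hd, hcd⟩ := hT c hc
  obtain ⟨d', hd', hcd'⟩ := hT c' hc'
  obtain ⟨g, hg⟩ := hR d hd
  -- translate by g
  have tr : ∀ s : V0 → ℝ, linP p0 (fun v => s (g⁻¹ • v)) = rho g (linP p0 s) := by
    intro s
    rw [linP_apply, linP_apply, map_sum]
    refine Fintype.sum_equiv (MulAction.toPerm g⁻¹) _ _ fun v => ?_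
    rw [map_smul, ← heq]
    simp
  have h6 := key _ hg _ (hTG g d' hd') (fun v => t (g⁻¹ • v)) (fun v => t' (g⁻¹ • v))
    (fun v => t0 _) (fun v => t0' _) (fun v hv => hout _ fun h7 => hv ?_)
    (fun v hv => hout' _ fun h7 => hv ?_) (by rw [tr, tr, h'])
  · funext v
    have := congrFun h6 (g • v)
    simpa using this
  · exact Finset.mem_image.2 ⟨_, hcd h7, smul_inv_smul g v⟩
  · exact Finset.mem_image.2 ⟨_, hcd' h7, smul_inv_smul g v⟩

end FV

end Pool.Agent.DF302A
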