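import Pool.Agent.Work.MP_df302a_co.ConeK
import Pool.Agent.Work.MP_df302a_co.FreeV

/-! # MP_df302a_co : the complex on natural numbers and the complex on `V0 ⊕ M10`. -/

set_option autoImplicit false
set_option linter.unusedSectionVars false

namespace Pool.Agent.DF302A

namespace FV

open Finset Pool.Agent.DF302A.Orb

section
variable {V0 : Type} [Fintype V0] [DecidableEq V0] [MulAction M10 V0] [MulAction M10 ℕ]
  [Fintype M10]

/-- the simplices of `V0` whose images are in `L` -/
def pre (e0 : V0 → ℕ) (L : Finset (Finset ℕ)) : Set (Finset V0) := {c | c.image e0 ∈ L}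

/-- all vertices -/
def emb (e0 : V0 → ℕ) (y : ℕ) (x : V0 ⊕ M10) : ℕ := Sum.elim e0 (fun g => g • y) x

/-- the hypotheses of the dictionary -/
structure Dic (e0 : V0 → ℕ) (y : ℕ) (L : Finset (Finset ℕ)) : Prop where
  inj : Function.Injective e0
  eqv : ∀ (g : M10) (v : V0), e0 (g • v) = g • e0 v
  ne : ∀ (v : V0) (g : M10), e0 v ≠ g • y
  free : ∀ g : M10, g • y = y → g = 1
  range : ∀ c ∈ L, ∀ v ∈ c, ∃ a, e0 a = v

variable {e0 : V0 → ℕ} {y : ℕ} {L S : Finset (Finset ℕ)}

theorem Dic.emb_inj (h : Dic e0 y L) : Function.Injective (emb e0 y) := by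
  intro a b hab
  rcases a with a | g <;> rcases b with b | k
  · exact congrArg Sum.inl (h.inj hab)
  · exact absurd hab (h.ne a k)
  · exact absurd hab.symm (h.ne b g)
  · have h1 : g • y = k • y := hab
    have h2 := h.free (k⁻¹ * g) (by rw [mul_smul, h1, inv_smul_smul])
    rw [inv_mul_eq_one] at h2
    rw [h2]

theorem Dic.surj (h : Dic e0 y L) {c : Finset ℕ} (hc : c ∈ L) :
    ∃ d : Finset V0, d.image e0 = c := by
  refine ⟨Finset.univ.filter (fun a => e0 a ∈ c), ?_⟩
  ext v
  simp only [Finset.mem_image, Finset.mem_filter, Finset.mem_univ, true_and]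
  constructor
  · rintro ⟨a, ha, rfl⟩
    exact ha
  · intro hv
    obtain ⟨a, rfl⟩ := h.range c hc v hv
    exact ⟨a, hv, rfl⟩

theorem image_inl (c : Finset V0) : (c.image (Sum.inl : V0 → V0 ⊕ M10)).image (emb e0 y) =
    c.image e0 := by
  rw [Finset.image_image]
  rfl

theorem Dic.image_smul (h : Dic e0 y L) (g : M10) (c : Finset V0) :
    (c.image (fun v => g • v)).image e0 = im g (c.image e0) := by
  rw [im, Finset.image_image, Finset.image_image]
  exact Finset.image_congr fun v _ => h.eqv g v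

theorem Dic.KV_image (h : Dic e0 y L) (hS : S ⊆ L) :
    (fun σ : Finset (V0 ⊕ M10) => σ.image (emb e0 y)) '' KV (pre e0 L) (pre e0 S) =
      ((CK M10 L S y : Finset (Finset ℕ)) : Set (Finset ℕ)) := by
  ext c
  rw [Finset.mem_coe, mem_CK]
  constructor
  · rintro ⟨σ, ⟨d, hd, rfl⟩ | ⟨g, d, hd, rfl⟩, rfl⟩
    · left
      show (d.image Sum.inl).image (emb e0 y) ∈ L
      rw [image_inl]
      exact hd
    · right
      refine ⟨d.image e0, hd, g, ?_⟩
      show _ = (insert (Sum.inr g) ((d.image (fun v => g • v)).image Sum.inl)).image (emb e0 y)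
      rw [Finset.image_insert, image_inl, h.image_smul, im_insert]
      rfl
  · rintro (hc | ⟨b, hb, g, rfl⟩)
    · obtain ⟨d, rfl⟩ := h.surj hc
      exact ⟨d.image Sum.inl, Or.inl ⟨d, hc, rfl⟩, image_inl d⟩
    · obtain ⟨d, rfl⟩ := h.surj (hS hb)
      refine ⟨_, Or.inr ⟨g, d, hb, rfl⟩, ?_⟩
      show (insert (Sum.inr g) ((d.image (fun v => g • v)).image Sum.inl)).image (emb e0 y) = _
      rw [Finset.image_insert, image_inl, h.image_smul, im_insert]
      rfl

/-- the complex on `V0 ⊕ M10` is equivalent to a point -/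
theorem Dic.sim (h : Dic e0 y L) (hS : S ⊆ L) {A : Finset (Finset ℕ)}
    (hA : PI.KData (CK M10 L S y) A)
    (hc : (PI.relI (CK M10 L S y) A).card = (PI.tris (CK M10 L S y)).card)
    (hspan : Submodule.span ℤ (Set.range fun (i : PI.relI (CK M10 L S y) A) =>
      (fun t : PI.tris (CK M10 L S y) => PI.relV i.1 t.1)) = ⊤) :
    PI.Sim ((fun σ : Finset (V0 ⊕ M10) => σ.image (fun x => PI.Vx.k (emb e0 y x))) ''
      KV (pre e0 L) (pre e0 S)) (PI.pt PI.Vx.w) := by
  have h1 := PI.partI hA hc hspan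
  have h2 : (fun σ : Finset (V0 ⊕ M10) => σ.image (fun x => PI.Vx.k (emb e0 y x))) ''
      KV (pre e0 L) (pre e0 S) = PI.KV (CK M10 L S y) := by
    rw [PI.KV, ← h.KV_image hS, Set.image_image]
    refine Set.image_congr fun σ _ => ?_
    rw [Finset.image_image]
    rfl
  rw [h2]
  exact h1

theorem Dic.k_inj (h : Dic e0 y L) : Function.Injective (fun x => PI.Vx.k (emb e0 y x)) := by
  intro a b hab
  exact h.emb_inj (PI.Vx.k.inj hab)

theorem pre_isCx (h : IsCx (L : Set (Finset ℕ))) : IsCx (pre e0 L) := by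
  refine ⟨?_, ?_⟩
  · show (∅ : Finset V0).image e0 ∈ L
    rw [Finset.image_empty]
    exact h.1
  · intro σ hσ τ hτ
    exact h.2 _ hσ _ (Finset.image_subset_image hτ)

end

end FV

end Pool.Agent.DF302A
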