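import Pool.Agent.Work.MP_df302a_co.OrbB

/-! # MP_df302a_co : one free orbit of cones. The complex `L`, on which the group acts, and the
cones over the translates of a subcomplex `S`. -/

set_option autoImplicit false

namespace Pool.Agent.DF302A.Orb

open Finset Pool.Agent.DF302A.PI

section Cone
variable {G : Type*} [Group G] [MulAction G ℕ]

/-- `y` lies in a free orbit above all vertices of `L` -/
structure Above (G : Type*) [Group G] [MulAction G ℕ] (L : Finset (Finset ℕ)) (y : ℕ) : Prop where
  lt : ∀ c ∈ L, ∀ v ∈ c, ∀ g : G, v < g • y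
  free : ∀ g : G, g • y = y → g = 1

variable {L A₀ B : Finset (Finset ℕ)} {y : ℕ}

theorem Above.nm (h : Above G L y) {c : Finset ℕ} (hc : c ∈ L) (g : G) : g • y ∉ c := fun hm =>
  lt_irrefl _ (h.lt c hc _ hm g)

theorem Above.nm1 (h : Above G L y) {c : Finset ℕ} (hc : c ∈ L) : y ∉ c := fun hm => by
  have := h.lt c hc _ hm (1 : G)
  rw [one_smul] at this
  exact lt_irrefl _ this

theorem Above.eq (h : Above G L y) {g k : G} (e : g • y = k • y) : g = k := by
  have h1 : (k⁻¹ * g) • y = y := by rw [mul_smul, e, inv_smul_smul]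
  have h2 := h.free _ h1
  rw [inv_mul_eq_one] at h2
  exact h2.symm

theorem Above.notMem (h : Above G L y) (g : G) (b : Finset ℕ) : im g (insert y b) ∉ L := by
  intro hm
  refine h.nm hm g ?_
  rw [im_insert]
  exact Finset.mem_insert_self _ _

theorem Above.inj (h : Above G L y) (hinv : ∀ g : G, ∀ c ∈ L, im g c ∈ L) {b b' : Finset ℕ}
    (hb : b ∈ L) (hb' : b' ∈ L) {g k : G} (e : im g (insert y b) = im k (insert y b')) :
    g = k ∧ b = b' := by
  have h1 : g = k := by
    have hm : g • y ∈ im k (insert y b') := by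
      rw [← e, im_insert]; exact Finset.mem_insert_self _ _
    rw [im_insert] at hm
    rcases Finset.mem_insert.1 hm with h1 | h1
    · exact h.eq h1
    · exact absurd h1 (h.nm (hinv k b' hb') g)
  subst h1
  refine ⟨rfl, ?_⟩
  have h2 := im_inj g e
  have h3 := congrArg (fun s => s.erase y) h2
  simpa [Finset.erase_insert (h.nm1 hb), Finset.erase_insert (h.nm1 hb')] using h3

theorem Above.ord (h : Above G L y) (ho : ∀ c ∈ L, Ord G c) (hinv : ∀ g : G, ∀ c ∈ L, im g c ∈ L)
    {b : Finset ℕ} (hb : b ∈ L) : Ord G (insert y b) := by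
  intro g a ha c hc hac
  rcases Finset.mem_insert.1 ha with e1 | ha'
  · rcases Finset.mem_insert.1 hc with e2 | hc'
    · rw [e1, e2] at hac
      exact absurd hac (lt_irrefl _)
    · have := h.lt b hb c hc' 1
      rw [one_smul] at this
      rw [e1] at hac
      exact absurd (lt_trans hac this) (lt_irrefl _)
  · rcases Finset.mem_insert.1 hc with e2 | hc'
    · rw [e2]
      exact h.lt _ (hinv g b hb) _ (mem_im.2 ⟨a, ha', rfl⟩) g
    · exact ho b hb g a ha' c hc' hac

theorem sort_top {t : Finset ℕ} (h : ∀ v ∈ t, v < y) :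
    (insert y t).sort (· ≤ ·) = t.sort (· ≤ ·) ++ [y] := by
  have hs : (t.sort (· ≤ ·) ++ [y]).Pairwise (· < ·) := by
    rw [List.pairwise_append]
    refine ⟨(Finset.sortedLT_sort t).pairwise, List.pairwise_singleton _ _, ?_⟩
    intro a ha b hb
    rw [List.mem_singleton] at hb
    subst hb
    exact h a ((Finset.mem_sort _).1 ha)
  have h2 : (t.sort (· ≤ ·) ++ [y]).toFinset = insert y t := by
    ext v
    simp only [List.mem_toFinset, List.mem_append, Finset.mem_sort, List.mem_singleton,
      Finset.mem_insert]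
    tauto
  rw [← h2]
  exact List.toFinset_sort (· ≤ ·) (hs.imp fun hab => ne_of_lt hab) |>.2
    (hs.imp fun hab => le_of_lt hab)

theorem opp_top {t : Finset ℕ} (h : ∀ v ∈ t, v < y) : opp (insert y t) t.card = t := by
  have hy : y ∉ t := fun hm => lt_irrefl _ (h y hm)
  have hl : (t.sort (· ≤ ·)).length = t.card := Finset.length_sort _
  rw [opp, sort_top h, ← hl, List.getD_eq_getElem _ _ (by simp), List.getElem_append_right le_rfl]
  simp [Finset.erase_insert hy]

theorem opp_low {t : Finset ℕ} (h : ∀ v ∈ t, v < y) {i : ℕ} (hi : i < t.card) :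
    opp (insert y t) i = insert y (opp t i) := by
  have hl : (t.sort (· ≤ ·)).length = t.card := Finset.length_sort _
  have hi' : i < (t.sort (· ≤ ·)).length := by rw [hl]; exact hi
  rw [opp, opp, sort_top h, List.getD_eq_getElem _ _ (by simp; omega),
    List.getElem_append_left hi', List.getD_eq_getElem _ _ hi']
  have h1 : (t.sort (· ≤ ·))[i] ∈ t := (Finset.mem_sort (· ≤ ·)).1 (List.getElem_mem _)
  rw [Finset.erase_insert_of_ne (ne_of_gt (h _ h1))]

/-- adding the vertex `y` -/
noncomputable def cy (y : ℕ) : M →ₗ[ℤ] M := Finsupp.lmapDomain ℤ ℤ (fun c => insert y c)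

theorem cy_sg (t : Finset ℕ) : cy y (sg t) = sg (insert y t) := by
  simp [cy, sg, Finsupp.mapDomain_single]

theorem bd4_cone {t : Finset ℕ} (h : ∀ v ∈ t, v < y) (h3 : t.card = 3) :
    bd4 (insert y t) = cy y (D (sg t)) - sg t := by
  have e3 : opp (insert y t) 3 = t := by
    have := opp_top h
    rwa [h3] at this
  rw [bd4, opp_low h (i := 0) (by omega), opp_low h (i := 1) (by omega),
    opp_low h (i := 2) (by omega), e3, D_sg, bd3]
  simp only [map_add, map_sub, cy_sg]

/-- every chain is the sum of its terms -/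
theorem sum_sg (z : M) : z = ∑ t ∈ z.support, z t • sg t := by
  conv_lhs => rw [← Finsupp.sum_single z]
  rw [Finsupp.sum]
  refine Finset.sum_congr rfl fun t _ => ?_
  rw [sg, Finsupp.smul_single, smul_eq_mul, mul_one]

theorem cycle_mem {z : M} (hz : ∀ t, z t ≠ 0 → t.card = 3 ∧ ∀ v ∈ t, v < y) (hD : D z = 0)
    {R' : Submodule ℤ M} (h : ∀ t, z t ≠ 0 → bd4 (insert y t) ∈ R') : z ∈ R' := by
  have e : ∑ t ∈ z.support, z t • bd4 (insert y t) = -z := by
    have e1 : ∑ t ∈ z.support, z t • bd4 (insert y t) =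
        cy y (D (∑ t ∈ z.support, z t • sg t)) - ∑ t ∈ z.support, z t • sg t := by
      rw [map_sum, map_sum, ← Finset.sum_sub_distrib]
      refine Finset.sum_congr rfl fun t ht => ?_
      obtain ⟨h1, h2⟩ := hz t (Finsupp.mem_support_iff.1 ht)
      rw [bd4_cone h2 h1, smul_sub, map_smul, map_smul]
    rw [e1, ← sum_sg, hD, map_zero, zero_sub]
  have h1 : -z ∈ R' := by
    rw [← e]
    exact Submodule.sum_mem _ fun t ht => Submodule.smul_mem _ _ (h t (Finsupp.mem_support_iff.1 ht))
  simpa using Submodule.neg_mem _ h1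

variable [Fintype G]

/-- the complex `L` and the cones over the translates of `B` -/
def CK (G : Type*) [Group G] [MulAction G ℕ] [Fintype G] (L B : Finset (Finset ℕ)) (y : ℕ) :
    Finset (Finset ℕ) := L ∪ B.biUnion (fun c => orb G (insert y c))

theorem mem_CK {c : Finset ℕ} :
    c ∈ CK G L B y ↔ c ∈ L ∨ ∃ b ∈ B, ∃ g : G, im g (insert y b) = c := by
  simp [CK, mem_orb]

theorem Above.CK_iff (h : Above G L y) (hinv : ∀ g : G, ∀ c ∈ L, im g c ∈ L) (hB : B ⊆ L)
    {b : Finset ℕ} (hb : b ∈ L) : insert y b ∈ CK G L B y ↔ b ∈ B := by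
  rw [mem_CK]
  constructor
  · rintro (h1 | ⟨b', hb', g, e⟩)
    · exact absurd h1 (by have := h.notMem (1 : G) b; rwa [im_one] at this)
    · have e' : im (1 : G) (insert y b) = im g (insert y b') := by rw [im_one, e]
      rw [(h.inj hinv hb (hB hb') e').2]
      exact hb'
  · intro h1
    exact Or.inr ⟨b, h1, 1, im_one _⟩

/-- one step of the construction -/
theorem CK_step {F : Finset ℕ} {x : ℕ} (hxF : x ∉ F) (hxy : x ≠ y) :
    CK G L (insert F (insert (insert x F) B)) y =
      nxt G (CK G L B y) (insert y (insert x F)) x := by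
  have e : (insert y (insert x F)).erase x = insert y F := by
    rw [Finset.erase_insert_of_ne hxy.symm, Finset.erase_insert hxF]
  ext c
  rw [mem_CK, mem_nxt, mem_CK, e]
  constructor
  · rintro (h | ⟨b, hb, g, rfl⟩)
    · exact Or.inl (Or.inl h)
    · rcases Finset.mem_insert.1 hb with rfl | hb
      · exact Or.inr (Or.inl ⟨g, rfl⟩)
      · rcases Finset.mem_insert.1 hb with rfl | hb
        · exact Or.inr (Or.inr ⟨g, rfl⟩)
        · exact Or.inl (Or.inr ⟨b, hb, g, rfl⟩)
  · rintro ((h | ⟨b, hb, g, rfl⟩) | ⟨g, rfl⟩ | ⟨g, rfl⟩)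
    · exact Or.inl h
    · exact Or.inr ⟨b, by simp [hb], g, rfl⟩
    · exact Or.inr ⟨F, by simp, g, rfl⟩
    · exact Or.inr ⟨insert x F, by simp, g, rfl⟩

/-- the induction over the construction of the contractible part -/
theorem cone_bld {d : ℕ} (hS : St G L A₀ d) (h3 : ∀ c ∈ L, c.card ≤ 3) (ha : Above G L y)
    (hB : Bld B) (hBL : B ⊆ L) :
    ∃ A, A₀ ⊆ A ∧ St G (CK G L B y) A d ∧ ∀ R' : Submodule ℤ M, (∀ t ∈ tris A, sg t ∈ R') →
      (∀ τ ∈ tets (CK G L B y), bd4 τ ∈ R') → (∀ t ∈ tris L, sg t ∈ R') →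
      ∀ c ∈ B, c.card = 2 → ∀ g : G, sg (im g (insert y c)) ∈ R' := by
  induction hB with
  | point p =>
    have hp : ({p} : Finset ℕ) ∈ L := hBL (by simp)
    have hpy : p ≠ y := fun e => ha.nm1 hp (by rw [e]; exact Finset.mem_singleton_self y)
    have he : CK G L {∅, {p}} y = nxt G L (insert y {p}) p := by
      have e : (insert y ({p} : Finset ℕ)).erase p = {y} := by
        rw [Finset.erase_insert_of_ne hpy.symm, Finset.erase_singleton, insert_empty_eq]
      ext c
      rw [mem_CK, mem_nxt, e]
      constructor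
      · rintro (h | ⟨b, hb, g, rfl⟩)
        · exact Or.inl h
        · simp only [Finset.mem_insert, Finset.mem_singleton] at hb
          rcases hb with rfl | rfl
          · exact Or.inr (Or.inl ⟨g, rfl⟩)
          · exact Or.inr (Or.inr ⟨g, rfl⟩)
      · rintro (h | ⟨g, rfl⟩ | ⟨g, rfl⟩)
        · exact Or.inl h
        · exact Or.inr ⟨∅, by simp, g, rfl⟩
        · exact Or.inr ⟨{p}, by simp, g, rfl⟩
    have e1 : (insert y ({p} : Finset ℕ)).erase p = {y} := by
      rw [Finset.erase_insert_of_ne hpy.symm, Finset.erase_singleton, insert_empty_eq]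
    have hc2 : (insert y ({p} : Finset ℕ)).card = 2 := by
      rw [Finset.card_insert_of_notMem (ha.nm1 hp), Finset.card_singleton]
    have hstep : OStep G L (insert y {p}) p := by
      refine ⟨by simp, hc2.ge, by omega, ?_, ?_, ?_, ha.ord hS.ord hS.inv hp⟩
      · rw [e1]
        intro h
        exact ha.nm1 h (Finset.mem_singleton_self y)
      · intro v hv hvp
        have : v = y := by simpa [hvp] using hv
        subst this
        rw [Finset.erase_insert (ha.nm1 hp)]
        exact hp
      · intro g hg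
        rw [e1] at hg
        have h1 : g • y = y := by
          have : g • y ∈ im g ({y} : Finset ℕ) := mem_im.2 ⟨y, by simp, rfl⟩
          rw [hg] at this
          exact Finset.mem_singleton.1 this
        rw [ha.free g h1, im_one]
    refine ⟨_, fun c hc => mem_nxt.2 (Or.inl hc), he ▸ hS.upA hstep (by omega), ?_⟩
    intro R' _ _ _ c hc hc2 g
    simp only [Finset.mem_insert, Finset.mem_singleton] at hc
    rcases hc with rfl | rfl <;> simp at hc2
  | step B F x h hx ne hF hy ih =>
    have hBL' : B ⊆ L := fun c hc => hBL (by simp [hc])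
    have hFL : F ∈ L := hBL (by simp)
    have hEL : insert x F ∈ L := hBL (by simp)
    obtain ⟨A, hA0, hSt, hR⟩ := ih hBL'
    have hxy : x ≠ y := fun e => ha.nm1 hEL (by rw [e]; exact Finset.mem_insert_self _ _)
    have hyE : y ∉ insert x F := ha.nm1 hEL
    have hyF : y ∉ F := ha.nm1 hFL
    have he := CK_step (G := G) (L := L) (B := B) (y := y) hx hxy
    have e1 : (insert y (insert x F)).erase x = insert y F := by
      rw [Finset.erase_insert_of_ne hxy.symm, Finset.erase_insert hx]
    have hcE : (insert y (insert x F)).card = F.card + 2 := by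
      rw [Finset.card_insert_of_notMem hyE, Finset.card_insert_of_notMem hx]
    have hF1 : 1 ≤ F.card := ne.card_pos
    have hF2 : F.card ≤ 2 := by
      have := h3 _ hEL
      rw [Finset.card_insert_of_notMem hx] at this
      omega
    have hstep : OStep G (CK G L B y) (insert y (insert x F)) x := by
      refine ⟨by simp, by omega, by omega, ?_, ?_, ?_, ha.ord hS.ord hS.inv hEL⟩
      · rw [e1, ha.CK_iff hS.inv hBL' hFL]
        exact hF
      · intro v hv hvx
        rcases Finset.mem_insert.1 hv with rfl | hv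
        · rw [Finset.erase_insert hyE]
          exact mem_CK.2 (Or.inl hEL)
        · have hvF : v ∈ F := by
            rcases Finset.mem_insert.1 hv with h1 | h1
            · exact absurd h1 hvx
            · exact h1
          have hvy : v ≠ y := fun e => hyF (e ▸ hvF)
          rw [Finset.erase_insert_of_ne hvy.symm, Finset.erase_insert_of_ne hvx.symm]
          exact mem_CK.2 (Or.inr ⟨_, hy v hvF, 1, im_one _⟩)
      · intro g hg
        rw [e1] at hg
        have h1 := (ha.inj hS.inv hFL hFL (g := g) (k := 1) (by rw [hg, im_one])).1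
        rw [h1, im_one]
    have hmono : ∀ c ∈ CK G L B y, c ∈ CK G L (insert F (insert (insert x F) B)) y := by
      intro c hc
      rw [he]
      exact mem_nxt.2 (Or.inl hc)
    -- the two cases
    rcases Nat.lt_or_ge F.card 2 with hlt | hge
    · -- a vertex and an edge
      have hF1' : F.card = 1 := by omega
      have hE3 : (insert y (insert x F)).card = 3 := by omega
      refine ⟨_, fun c hc => mem_nxt.2 (Or.inl (hA0 hc)), he ▸ hSt.upA hstep (by omega), ?_⟩
      intro R' h1 h2 h4 c hc hc2 g
      have hind := hR R' (fun t ht => h1 t (mem_tris.2 ⟨mem_nxt.2 (Or.inl (mem_tris.1 ht).1),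
        (mem_tris.1 ht).2⟩)) (fun τ hτ => h2 τ (mem_tets.2 ⟨hmono _ (mem_tets.1 hτ).1,
        (mem_tets.1 hτ).2⟩)) h4
      rcases Finset.mem_insert.1 hc with rfl | hc
      · omega
      · rcases Finset.mem_insert.1 hc with rfl | hc
        · exact h1 _ (mem_tris.2 ⟨mem_nxt.2 (Or.inr (Or.inr ⟨g, rfl⟩)), by rw [card_im, hE3]⟩)
        · exact hind c hc hc2 g
    · -- an edge and a triangle
      have hF2' : F.card = 2 := by omega
      have hE4 : (insert y (insert x F)).card = 4 := by omega
      refine ⟨A, hA0, he ▸ hSt.up4 hstep hE4, ?_⟩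
      intro R' h1 h2 h4 c hc hc2 g
      have hind := hR R' h1 (fun τ hτ => h2 τ (mem_tets.2 ⟨hmono _ (mem_tets.1 hτ).1,
        (mem_tets.1 hτ).2⟩)) h4
      rcases Finset.mem_insert.1 hc with rfl | hc
      · -- the new edge: solve the relation of the tetrahedron
        set τ := insert y (insert x c) with hτ
        have hord : Ord G τ := ha.ord hS.ord hS.inv hEL
        have hrel : bd4 (im g τ) ∈ R' := h2 _ (mem_tets.2 ⟨by
          rw [he]; exact mem_nxt.2 (Or.inr (Or.inr ⟨g, rfl⟩)), by rw [card_im, hE4]⟩)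
        have hface : ∀ v ∈ τ, v ≠ x → sg (im g (τ.erase v)) ∈ R' := by
          intro v hv hvx
          rcases Finset.mem_insert.1 hv with rfl | hv
          · rw [hτ, Finset.erase_insert hyE]
            exact h4 _ (mem_tris.2 ⟨hS.inv g _ hEL, by
              rw [card_im, Finset.card_insert_of_notMem hx, hF2']⟩)
          · have hvF : v ∈ c := by
              rcases Finset.mem_insert.1 hv with h1 | h1
              · exact absurd h1 hvx
              · exact h1
            have hvy : v ≠ y := fun e => hyF (e ▸ hvF)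
            rw [hτ, Finset.erase_insert_of_ne hvy.symm, Finset.erase_insert_of_ne hvx.symm]
            refine hind _ (hy v hvF) ?_ g
            rw [Finset.card_insert_of_notMem (fun hm => hx (Finset.mem_of_mem_erase hm)),
              Finset.card_erase_of_mem hvF, hF2']
        have hmg : bd4 (im g τ) = sg (im g (opp τ 0)) - sg (im g (opp τ 1)) +
            sg (im g (opp τ 2)) - sg (im g (opp τ 3)) := by
          rw [← mg_bd4 hord hE4]
          simp only [bd4, map_add, map_sub, mg_sg]
        obtain ⟨i, hi, hio⟩ := exists_opp (t := τ) (x := x) (by simp [hτ])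
        have hget : ∀ j < 4, j ≠ i → sg (im g (opp τ j)) ∈ R' := by
          intro j hj hji
          have hl : (τ.sort (· ≤ ·)).length = τ.card := Finset.length_sort _
          have hj' : j < (τ.sort (· ≤ ·)).length := by rw [hl, hE4]; exact hj
          have e2 : opp τ j = τ.erase (τ.sort (· ≤ ·))[j] := by
            rw [opp, List.getD_eq_getElem _ _ hj']
          rw [e2]
          refine hface _ ((Finset.mem_sort (· ≤ ·)).1 (List.getElem_mem _)) ?_
          intro e3
          rw [e3, ← hio] at e2
          exact hji (opp_inj (by omega) hi e2)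
        have hgoal : sg (im g (opp τ i)) ∈ R' := by
          rw [hmg] at hrel
          rw [hE4] at hi
          have h5 : i = 0 ∨ i = 1 ∨ i = 2 ∨ i = 3 := by omega
          rcases h5 with rfl | rfl | rfl | rfl
          · have a1 := hget 1 (by omega) (by omega)
            have a2 := hget 2 (by omega) (by omega)
            have a3 := hget 3 (by omega) (by omega)
            have := Submodule.add_mem _ (Submodule.sub_mem _ (Submodule.add_mem _ hrel a3) a2) a1
            convert this using 1
            abel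
          · have a0 := hget 0 (by omega) (by omega)
            have a2 := hget 2 (by omega) (by omega)
            have a3 := hget 3 (by omega) (by omega)
            have := Submodule.sub_mem _ (Submodule.add_mem _ a0 a2)
              (Submodule.add_mem _ hrel a3)
            convert this using 1
            abel
          · have a0 := hget 0 (by omega) (by omega)
            have a1 := hget 1 (by omega) (by omega)
            have a3 := hget 3 (by omega) (by omega)
            have := Submodule.sub_mem _ (Submodule.add_mem _ (Submodule.add_mem _ hrel a3) a1) a0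
            convert this using 1
            abel
          · have a0 := hget 0 (by omega) (by omega)
            have a1 := hget 1 (by omega) (by omega)
            have a2 := hget 2 (by omega) (by omega)
            have := Submodule.sub_mem _ (Submodule.sub_mem _ (Submodule.add_mem _ a0 a2) a1) hrel
            convert this using 1
            abel
        rwa [hio, hτ, e1] at hgoal
      · rcases Finset.mem_insert.1 hc with rfl | hc
        · rw [Finset.card_insert_of_notMem hx] at hc2; omega
        · exact hind c hc hc2 g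

/-- THE CONE THEOREM -/
theorem coneK (hS : St G L A₀ (Fintype.card G)) (h3 : ∀ c ∈ L, c.card ≤ 3) (ha : Above G L y)
    (hB : Bld B) (hBL : B ⊆ L) {t₀ : Finset ℕ} (ht₀ : t₀ ∈ L) (ht₀B : t₀ ∉ B)
    (ht₀3 : t₀.card = 3) (hf : ∀ x ∈ t₀, t₀.erase x ∈ B) {z : M}
    (hz : ∀ t, z t ≠ 0 → t ∈ insert t₀ B ∧ t.card = 3) (hD : D z = 0)
    (hgen : ∀ R' : Submodule ℤ M, (∀ g : G, mg g z ∈ R') → (∀ t ∈ tris A₀, sg t ∈ R') →
      ∀ t ∈ tris L, sg t ∈ R') :
    ∃ A, A₀ ⊆ A ∧ KData (CK G L (insert t₀ B) y) A ∧
      (relI (CK G L (insert t₀ B) y) A).card = (tris (CK G L (insert t₀ B) y)).card ∧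
      Submodule.span ℤ (Set.range fun (i : relI (CK G L (insert t₀ B) y) A) =>
        (fun t : tris (CK G L (insert t₀ B) y) => relV i.1 t.1)) = ⊤ := by
  obtain ⟨A, hA0, hSt, hR⟩ := cone_bld hS h3 ha hB hBL
  have hyt : y ∉ t₀ := ha.nm1 ht₀
  set τ := insert y t₀ with hτ
  have hK : CK G L (insert t₀ B) y = CK G L B y ∪ orb G τ := by
    ext c
    rw [mem_CK, Finset.mem_union, mem_CK, mem_orb]
    constructor
    · rintro (h | ⟨b, hb, g, rfl⟩)
      · exact Or.inl (Or.inl h)
      · rcases Finset.mem_insert.1 hb with rfl | hb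
        · exact Or.inr ⟨g, rfl⟩
        · exact Or.inl (Or.inr ⟨b, hb, g, rfl⟩)
    · rintro ((h | ⟨b, hb, g, rfl⟩) | ⟨g, rfl⟩)
      · exact Or.inl h
      · exact Or.inr ⟨b, by simp [hb], g, rfl⟩
      · exact Or.inr ⟨t₀, by simp, g, rfl⟩
  have hcτ : τ.card = 4 := by rw [hτ, Finset.card_insert_of_notMem hyt, ht₀3]
  have hτK : τ ∉ CK G L B y := by
    rw [hτ, ha.CK_iff hS.inv hBL ht₀]
    exact ht₀B
  have hyτ : ∀ v ∈ τ, τ.erase v ∈ CK G L B y := by
    intro v hv
    rcases Finset.mem_insert.1 hv with rfl | hv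
    · rw [hτ, Finset.erase_insert hyt]
      exact mem_CK.2 (Or.inl ht₀)
    · have hvy : v ≠ y := fun e => hyt (e ▸ hv)
      rw [hτ, Finset.erase_insert_of_ne hvy.symm]
      exact mem_CK.2 (Or.inr ⟨_, hf v hv, 1, im_one _⟩)
  have hordτ : Ord G τ := ha.ord hS.ord hS.inv ht₀
  have hcard : (orb G τ).card = Fintype.card G := by
    rw [orb, Finset.card_image_of_injective, Finset.card_univ]
    intro g k e
    exact (ha.inj hS.inv ht₀ ht₀ e).1
  have hSt' := hSt.tau hcτ hτK hyτ hordτ hcard
  rw [← hK] at hSt'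
  refine ⟨A, hA0, hSt'.final ?_⟩
  set K := CK G L (insert t₀ B) y with hKdef
  -- the relations
  have hrelA : ∀ t ∈ tris A, sg t ∈ R K A := by
    intro t ht
    have e : sg t = rel t := by rw [rel, if_pos (mem_tris.1 ht).2]
    rw [e]
    exact Submodule.subset_span ⟨t, Or.inl ht, rfl⟩
  have hrelK : ∀ τ ∈ tets K, bd4 τ ∈ R K A := by
    intro τ ht
    have e : bd4 τ = rel τ := by rw [rel, if_neg (by rw [(mem_tets.1 ht).2]; omega)]
    rw [e]
    exact Submodule.subset_span ⟨τ, Or.inr ht, rfl⟩
  have hBK : ∀ b ∈ insert t₀ B, ∀ g : G, im g (insert y b) ∈ K := fun b hb g =>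
    mem_CK.2 (Or.inr ⟨b, hb, g, rfl⟩)
  have hSL : ∀ b ∈ insert t₀ B, b ∈ L := by
    intro b hb
    rcases Finset.mem_insert.1 hb with rfl | hb
    · exact ht₀
    · exact hBL hb
  have hlt : ∀ b ∈ L, ∀ v ∈ b, v < y := fun b hb v hv => by
    have := ha.lt b hb v hv 1
    rwa [one_smul] at this
  have hmz : ∀ g : G, mg g z ∈ R K A := by
    intro g
    have h1 : z ∈ Submodule.comap (mg g) (R K A) := by
      refine cycle_mem (y := y) (fun t ht => ⟨(hz t ht).2, hlt t (hSL t (hz t ht).1)⟩) hD ?_
      intro t ht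
      obtain ⟨h1, h2⟩ := hz t ht
      have h4 : (insert y t).card = 4 := by
        rw [Finset.card_insert_of_notMem (ha.nm1 (hSL t h1)), h2]
      rw [Submodule.mem_comap, mg_bd4 (ha.ord hS.ord hS.inv (hSL t h1)) h4]
      exact hrelK _ (mem_tets.2 ⟨hBK t h1 g, by rw [card_im, h4]⟩)
    exact h1
  have hL : ∀ t ∈ tris L, sg t ∈ R K A := hgen _ hmz fun t ht => hrelA t
    (mem_tris.2 ⟨hA0 (mem_tris.1 ht).1, (mem_tris.1 ht).2⟩)
  have hsub : ∀ c ∈ CK G L B y, c ∈ K := by
    intro c hc
    rw [hK]
    exact Finset.mem_union_left _ hc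
  have hE := hR (R K A) hrelA (fun τ hτ => hrelK τ (mem_tets.2 ⟨hsub τ (mem_tets.1 hτ).1,
    (mem_tets.1 hτ).2⟩)) hL
  intro t ht
  obtain ⟨h1, h2⟩ := mem_tris.1 ht
  rcases mem_CK.1 h1 with h4 | ⟨b, hb, g, rfl⟩
  · exact hL t (mem_tris.2 ⟨h4, h2⟩)
  · rw [card_im, Finset.card_insert_of_notMem (ha.nm1 (hSL b hb))] at h2
    rcases Finset.mem_insert.1 hb with rfl | hb
    · omega
    · exact hE b hb (by omega) g

end Cone

end Pool.Agent.DF302A.Orb
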