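import Pool.Agent.Work.MP_df302a_co.PL

/-!
# MP_df302a_co : coordinates on the cones of complexes

The rules R0 (signs), R1 (boundary of a simplex), R2 (join), R4 (value at one vertex) and the
relabelling of the vertices.  `Vx Q` is the set of the vertices; the intermediate statements
`SphV`, `CoordV` have an arbitrary real vector space as target.
-/

namespace Pool.Agent.DF302A

open Finset

section
variable {X : Type*} [Fintype X] [DecidableEq X]
variable {V W : Type*} [AddCommGroup V] [Module ℝ V] [AddCommGroup W] [Module ℝ W]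

/-! ### generalities -/

theorem plMap_prod {f : V → W} {U : Type*} [AddCommGroup U] [Module ℝ U] {g : V → U}
    (hf : PLMap f) (hg : PLMap g) : PLMap fun v => (f v, g v) := by
  intro l
  have h := (hf (l ∘ₗ LinearMap.inl ℝ W U)).add (hg (l ∘ₗ LinearMap.inr ℝ W U))
  have e : (fun y => l (f y, g y)) =
      fun y => (l ∘ₗ LinearMap.inl ℝ W U) (f y) + (l ∘ₗ LinearMap.inr ℝ W U) (g y) := by
    funext y
    rw [LinearMap.comp_apply, LinearMap.comp_apply, ← map_add]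
    simp
  rw [e]
  exact h

/-- the functional of `f` -/
noncomputable def FF (f : X → ℝ) : (X → ℝ) →ₗ[ℝ] ℝ := ∑ x, f x • LinearMap.proj x

theorem FF_apply (f t : X → ℝ) : FF f t = ∑ x, f x * t x := by
  simp [FF]

/-- `h`, `k` are inverse piecewise linear homeomorphisms between the cone and `V` -/
structure IsSph (Q : Set (Finset X)) (h : (X → ℝ) → V) (k : V → X → ℝ) : Prop where
  hh : PLMap h
  hk : PLMap k
  kh : ∀ t ∈ cone Q, k (h t) = t
  mem : ∀ y, k y ∈ cone Q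
  hk' : ∀ y, h (k y) = y

/-- the cone is piecewise linearly homeomorphic to `V` -/
def SphV (Q : Set (Finset X)) (V : Type*) [AddCommGroup V] [Module ℝ V] : Prop :=
  ∃ (h : (X → ℝ) → V) (k : V → X → ℝ), IsSph Q h k

/-- the same, and the functional of `f` is a nonzero linear functional on `V` -/
def CoordV (Q : Set (Finset X)) (f : X → ℝ) (V : Type*) [AddCommGroup V] [Module ℝ V] : Prop :=
  ∃ (h : (X → ℝ) → V) (k : V → X → ℝ) (l : V →ₗ[ℝ] ℝ), IsSph Q h k ∧ l ≠ 0 ∧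
    ∀ t ∈ cone Q, FF f t = l (h t)

theorem sph_iff {Q : Set (Finset X)} {m : ℕ} : Sph Q m ↔ SphV Q (Fin m → ℝ) := by
  constructor
  · rintro ⟨h, k, a, b, c, d⟩
    exact ⟨h, k, a, b, c, fun y => (d y).1, fun y => (d y).2⟩
  · rintro ⟨h, k, H⟩
    exact ⟨h, k, H.hh, H.hk, H.kh, fun y => ⟨H.mem y, H.hk' y⟩⟩

theorem coord_iff {Q : Set (Finset X)} {f : X → ℝ} {m : ℕ} :
    Coord Q f m ↔ CoordV Q f (Fin m → ℝ) := by
  constructor
  · rintro ⟨h, k, l, a, b, c, d, h0, h1⟩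
    exact ⟨h, k, l, ⟨a, b, c, fun y => (d y).1, fun y => (d y).2⟩, h0,
      fun t ht => (FF_apply f t).trans (h1 t ht)⟩
  · rintro ⟨h, k, l, H, h0, h1⟩
    exact ⟨h, k, l, H.hh, H.hk, H.kh, fun y => ⟨H.mem y, H.hk' y⟩, h0,
      fun t ht => (FF_apply f t).symm.trans (h1 t ht)⟩

theorem IsSph.congr {Q : Set (Finset X)} {h : (X → ℝ) → V} {k : V → X → ℝ} (H : IsSph Q h k)
    (e : V ≃ₗ[ℝ] W) : IsSph Q (fun t => e (h t)) fun y => k (e.symm y) where
  hh := (PLMap.lin e.toLinearMap).comp H.hh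
  hk := H.hk.comp (PLMap.lin e.symm.toLinearMap)
  kh := fun t ht => by rw [e.symm_apply_apply, H.kh t ht]
  mem := fun y => H.mem _
  hk' := fun y => by rw [H.hk', e.apply_symm_apply]

theorem SphV.congr {Q : Set (Finset X)} (H : SphV Q V) (e : V ≃ₗ[ℝ] W) : SphV Q W := by
  obtain ⟨h, k, H⟩ := H
  exact ⟨_, _, H.congr e⟩

theorem CoordV.congr {Q : Set (Finset X)} {f : X → ℝ} (H : CoordV Q f V) (e : V ≃ₗ[ℝ] W) :
    CoordV Q f W := by
  obtain ⟨h, k, l, H, h0, h1⟩ := H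
  refine ⟨_, _, l ∘ₗ e.symm.toLinearMap, H.congr e, ?_, fun t ht => ?_⟩
  · intro h2
    apply h0
    ext v
    have := congrArg (fun g : W →ₗ[ℝ] ℝ => g (e v)) h2
    simpa using this
  · simpa using h1 t ht

theorem SphV.sph [FiniteDimensional ℝ V] {Q : Set (Finset X)} (H : SphV Q V) {m : ℕ}
    (hm : Module.finrank ℝ V = m) : Sph Q m :=
  sph_iff.2 (H.congr (LinearEquiv.ofFinrankEq V (Fin m → ℝ) (by rw [hm, Module.finrank_fin_fun])))

theorem CoordV.coord [FiniteDimensional ℝ V] {Q : Set (Finset X)} {f : X → ℝ} (H : CoordV Q f V)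
    {m : ℕ} (hm : Module.finrank ℝ V = m) : Coord Q f m :=
  coord_iff.2 (H.congr
    (LinearEquiv.ofFinrankEq V (Fin m → ℝ) (by rw [hm, Module.finrank_fin_fun])))

theorem CoordV.sphV {Q : Set (Finset X)} {f : X → ℝ} (H : CoordV Q f V) : SphV Q V := by
  obtain ⟨h, k, l, H, -, -⟩ := H
  exact ⟨h, k, H⟩

theorem Coord.sph {Q : Set (Finset X)} {f : X → ℝ} {m : ℕ} (h : Coord Q f m) : Sph Q m :=
  sph_iff.2 (coord_iff.1 h).sphV

/-- the complex without vertices -/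
theorem sph_empty : Sph ({∅} : Set (Finset X)) 0 := by
  refine sph_iff.2 ⟨fun _ => 0, fun _ => 0, PLMap.lin (0 : (X → ℝ) →ₗ[ℝ] _),
    PLMap.lin (0 : _ →ₗ[ℝ] (X → ℝ)), fun t ht => ?_, fun y => ⟨fun x => le_rfl, ∅, rfl,
    fun x _ => rfl⟩, fun y => Subsingleton.elim _ _⟩
  obtain ⟨-, σ, hσ, h⟩ := ht
  rw [Set.mem_singleton_iff] at hσ
  subst hσ
  ext x
  exact (h x (Finset.notMem_empty x)).symm

/-! ### rule R0 -/

/-- multiplication by a function -/
noncomputable def mulL (c : X → ℝ) : (X → ℝ) →ₗ[ℝ] (X → ℝ) where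
  toFun t := fun x => c x * t x
  map_add' t s := by ext x; simp [mul_add]
  map_smul' r t := by ext x; simp [mul_left_comm]

theorem mulL_mem {Q : Set (Finset X)} {c : X → ℝ} (hc : ∀ x, 0 < c x) {t : X → ℝ}
    (ht : t ∈ cone Q) : mulL c t ∈ cone Q := by
  obtain ⟨h0, σ, hσ, h⟩ := ht
  refine ⟨fun x => mul_nonneg (hc x).le (h0 x), σ, hσ, fun x hx => ?_⟩
  show c x * t x = 0
  rw [h x hx, mul_zero]

theorem mulL_inv {c : X → ℝ} (hc : ∀ x, 0 < c x) (t : X → ℝ) :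
    mulL c (mulL (fun x => (c x)⁻¹) t) = t ∧ mulL (fun x => (c x)⁻¹) (mulL c t) = t := by
  constructor
  · ext x
    show c x * ((c x)⁻¹ * t x) = t x
    rw [mul_inv_cancel_left₀ (hc x).ne']
  · ext x
    show (c x)⁻¹ * (c x * t x) = t x
    rw [inv_mul_cancel_left₀ (hc x).ne']

theorem CoordV.mul {Q : Set (Finset X)} {f : X → ℝ} (H : CoordV Q f V) {c : X → ℝ}
    (hc : ∀ x, 0 < c x) : CoordV Q (fun x => c x * f x) V := by
  obtain ⟨h, k, l, H, h0, h1⟩ := H
  have hc' : ∀ x, 0 < (c x)⁻¹ := fun x => inv_pos.2 (hc x)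
  refine ⟨fun t => h (mulL c t), fun y => mulL (fun x => (c x)⁻¹) (k y), l,
    ⟨H.hh.comp (PLMap.lin _), (PLMap.lin _).comp H.hk, fun t ht => ?_, fun y => ?_, fun y => ?_⟩,
    h0, fun t ht => ?_⟩
  · show mulL _ (k (h (mulL c t))) = t
    rw [H.kh _ (mulL_mem hc ht), (mulL_inv hc t).2]
  · exact mulL_mem hc' (H.mem y)
  · show h (mulL c (mulL _ (k y))) = y
    rw [(mulL_inv hc _).1, H.hk']
  · rw [← h1 _ (mulL_mem hc ht), FF_apply, FF_apply]
    refine Finset.sum_congr rfl fun x _ => ?_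
    show c x * f x * t x = f x * (c x * t x)
    ring

theorem Coord.mul {Q : Set (Finset X)} {f : X → ℝ} {m : ℕ} (H : Coord Q f m) {c : X → ℝ}
    (hc : ∀ x, 0 < c x) : Coord Q (fun x => c x * f x) m :=
  coord_iff.2 ((coord_iff.1 H).mul hc)

theorem CoordV.neg {Q : Set (Finset X)} {f : X → ℝ} (H : CoordV Q f V) :
    CoordV Q (fun x => -f x) V := by
  obtain ⟨h, k, l, H, h0, h1⟩ := H
  refine ⟨h, k, -l, H, neg_ne_zero.2 h0, fun t ht => ?_⟩
  rw [LinearMap.neg_apply, ← h1 t ht, FF_apply, FF_apply, ← Finset.sum_neg_distrib]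
  exact Finset.sum_congr rfl fun x _ => neg_mul _ _

theorem Coord.neg {Q : Set (Finset X)} {f : X → ℝ} {m : ℕ} (h : Coord Q f m) :
    Coord Q (fun x => - f x) m :=
  coord_iff.2 (coord_iff.1 h).neg

/-- only the values at the vertices matter -/
theorem CoordV.of_eq {Q : Set (Finset X)} {f g : X → ℝ} (H : CoordV Q f V)
    (hfg : ∀ s ∈ Q, ∀ x ∈ s, f x = g x) : CoordV Q g V := by
  obtain ⟨h, k, l, H, h0, h1⟩ := H
  refine ⟨h, k, l, H, h0, fun t ht => ?_⟩
  rw [← h1 t ht, FF_apply, FF_apply]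
  obtain ⟨-, σ, hσ, h⟩ := ht
  refine Finset.sum_congr rfl fun x _ => ?_
  by_cases hx : x ∈ σ
  · rw [hfg σ hσ x hx]
  · rw [h x hx, mul_zero, mul_zero]

theorem Coord.of_eq {Q : Set (Finset X)} {f g : X → ℝ} {m : ℕ} (H : Coord Q f m)
    (hfg : ∀ s ∈ Q, ∀ x ∈ s, f x = g x) : Coord Q g m :=
  coord_iff.2 ((coord_iff.1 H).of_eq hfg)

/-- values with the same signs at the vertices -/
theorem Coord.of_sign {Q : Set (Finset X)} {f g : X → ℝ} {m : ℕ} (H : Coord Q f m)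
    (hfg : ∀ s ∈ Q, ∀ x ∈ s, (0 < f x ∧ 0 < g x) ∨ (f x < 0 ∧ g x < 0) ∨ (f x = 0 ∧ g x = 0)) :
    Coord Q g m := by
  classical
  have hc : ∀ x, 0 < (if 0 < g x / f x then g x / f x else 1) := by
    intro x
    split_ifs with h
    · exact h
    · exact one_pos
  refine (H.mul hc).of_eq fun s hs x hx => ?_
  rcases hfg s hs x hx with ⟨a, b⟩ | ⟨a, b⟩ | ⟨a, b⟩
  · rw [if_pos (div_pos b a), div_mul_cancel₀ _ a.ne']
  · rw [if_pos (div_pos_of_neg_of_neg b a), div_mul_cancel₀ _ a.ne]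
  · rw [a, b, mul_zero]

theorem IsCx.single {Q : Set (Finset X)} (hQ : IsCx Q) {s : Finset X} (hs : s ∈ Q) {x : X}
    (hx : x ∈ s) : {x} ∈ Q :=
  hQ.2 s hs _ (Finset.singleton_subset_iff.2 hx)

/-- (R0) only the signs at the vertices matter -/
theorem Coord.congr_sign {Q : Set (Finset X)} {f g : X → ℝ} {m : ℕ} (hQ : IsCx Q)
    (h : Coord Q f m)
    (hs : ∀ x, {x} ∈ Q → (0 < f x ∧ 0 < g x) ∨ (f x < 0 ∧ g x < 0) ∨ (f x = 0 ∧ g x = 0)) :
    Coord Q g m :=
  h.of_sign fun _ hσ x hx => hs x (hQ.single hσ hx)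

/-! ### restriction to a set of vertices -/

open Classical in
/-- restriction of a function to the set of vertices `S` -/
noncomputable def resL (S : Set X) : (X → ℝ) →ₗ[ℝ] (X → ℝ) :=
  mulL fun x => if x ∈ S then 1 else 0

theorem resL_in {S : Set X} {x : X} (hx : x ∈ S) (t : X → ℝ) : resL S t x = t x := by
  classical
  show (if x ∈ S then (1 : ℝ) else 0) * t x = t x
  rw [if_pos hx, one_mul]

theorem resL_out {S : Set X} {x : X} (hx : x ∉ S) (t : X → ℝ) : resL S t x = 0 := by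
  classical
  show (if x ∈ S then (1 : ℝ) else 0) * t x = 0
  rw [if_neg hx, zero_mul]

theorem resL_nonneg {S : Set X} {t : X → ℝ} (ht : ∀ x, 0 ≤ t x) (x : X) : 0 ≤ resL S t x := by
  by_cases hx : x ∈ S
  · rw [resL_in hx]; exact ht x
  · rw [resL_out hx]

/-- the vertices of a complex -/
def Vx (Q : Set (Finset X)) : Set X := {x | ∃ s ∈ Q, x ∈ s}

theorem cone_out {Q : Set (Finset X)} {t : X → ℝ} (ht : t ∈ cone Q) {x : X} (hx : x ∉ Vx Q) :
    t x = 0 := by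
  obtain ⟨-, σ, hσ, h⟩ := ht
  exact h x fun h' => hx ⟨σ, hσ, h'⟩

theorem resL_cone {Q : Set (Finset X)} {t : X → ℝ} (ht : t ∈ cone Q) {S : Set X}
    (hS : Vx Q ⊆ S) : resL S t = t := by
  ext x
  by_cases hx : x ∈ S
  · exact resL_in hx t
  · rw [resL_out hx, cone_out ht fun h => hx (hS h)]

/-! ### rule R2: joins -/

theorem res_join {Q₁ Q₂ : Set (Finset X)} (hd : Disjoint (Vx Q₁) (Vx Q₂)) {t : X → ℝ}
    (ht : t ∈ cone (join Q₁ Q₂)) : resL (Vx Q₁) t ∈ cone Q₁ ∧ resL (Vx Q₂) t ∈ cone Q₂ ∧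
      resL (Vx Q₁) t + resL (Vx Q₂) t = t := by
  obtain ⟨h0, σ, ⟨s, hs, u, hu, rfl⟩, h⟩ := ht
  refine ⟨⟨resL_nonneg h0, s, hs, fun x hx => ?_⟩, ⟨resL_nonneg h0, u, hu, fun x hx => ?_⟩, ?_⟩
  · by_cases h1 : x ∈ Vx Q₁
    · rw [resL_in h1]
      refine h x fun h2 => ?_
      rcases Finset.mem_union.1 h2 with h3 | h3
      · exact hx h3
      · exact Set.disjoint_left.1 hd h1 ⟨u, hu, h3⟩
    · exact resL_out h1 t
  · by_cases h1 : x ∈ Vx Q₂
    · rw [resL_in h1]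
      refine h x fun h2 => ?_
      rcases Finset.mem_union.1 h2 with h3 | h3
      · exact Set.disjoint_left.1 hd ⟨s, hs, h3⟩ h1
      · exact hx h3
    · exact resL_out h1 t
  · ext x
    show resL (Vx Q₁) t x + resL (Vx Q₂) t x = t x
    by_cases h1 : x ∈ Vx Q₁
    · rw [resL_in h1, resL_out (Set.disjoint_left.1 hd h1), add_zero]
    · rw [resL_out h1, zero_add]
      by_cases h2 : x ∈ Vx Q₂
      · rw [resL_in h2]
      · rw [resL_out h2, h x]
        intro h3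
        rcases Finset.mem_union.1 h3 with h4 | h4
        · exact h1 ⟨s, hs, h4⟩
        · exact h2 ⟨u, hu, h4⟩

theorem join_add {Q₁ Q₂ : Set (Finset X)} (hd : Disjoint (Vx Q₁) (Vx Q₂)) {p q : X → ℝ}
    (hp : p ∈ cone Q₁) (hq : q ∈ cone Q₂) : p + q ∈ cone (join Q₁ Q₂) ∧
      resL (Vx Q₁) (p + q) = p ∧ resL (Vx Q₂) (p + q) = q := by
  refine ⟨?_, ?_, ?_⟩
  · obtain ⟨p0, s, hs, hp⟩ := hp
    obtain ⟨q0, u, hu, hq⟩ := hq
    refine ⟨fun x => add_nonneg (p0 x) (q0 x), s ∪ u, ⟨s, hs, u, hu, rfl⟩, fun x hx => ?_⟩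
    rw [Finset.mem_union, not_or] at hx
    rw [Pi.add_apply, hp x hx.1, hq x hx.2, add_zero]
  · ext x
    by_cases hx : x ∈ Vx Q₁
    · rw [resL_in hx, Pi.add_apply, cone_out hq (Set.disjoint_left.1 hd hx), add_zero]
    · rw [resL_out hx, cone_out hp hx]
  · ext x
    by_cases hx : x ∈ Vx Q₂
    · rw [resL_in hx, Pi.add_apply, cone_out hp (Set.disjoint_right.1 hd hx), zero_add]
    · rw [resL_out hx, cone_out hq hx]

theorem IsSph.join {Q₁ Q₂ : Set (Finset X)} (hd : Disjoint (Vx Q₁) (Vx Q₂))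
    {h₁ : (X → ℝ) → V} {k₁ : V → X → ℝ} (H₁ : IsSph Q₁ h₁ k₁)
    {h₂ : (X → ℝ) → W} {k₂ : W → X → ℝ} (H₂ : IsSph Q₂ h₂ k₂) {a : (X → ℝ) → W}
    (ha : PLMap a) :
    IsSph (join Q₁ Q₂)
      (fun t => (h₁ (resL (Vx Q₁) t), h₂ (resL (Vx Q₂) t) + a (resL (Vx Q₁) t)))
      fun y => k₁ y.1 + k₂ (y.2 - a (k₁ y.1)) := by
  refine ⟨?_, ?_, fun t ht => ?_, fun y => ?_, fun y => ?_⟩
  · exact plMap_prod (H₁.hh.comp (PLMap.lin _))
      ((H₂.hh.comp (PLMap.lin _)).add (ha.comp (PLMap.lin _)))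
  · have p1 : PLMap fun y : V × W => k₁ y.1 := H₁.hk.comp (PLMap.lin (LinearMap.fst ℝ V W))
    exact p1.add (H₂.hk.comp ((PLMap.lin (LinearMap.snd ℝ V W)).sub (ha.comp p1)))
  · obtain ⟨a1, a2, a3⟩ := res_join hd ht
    show k₁ (h₁ (resL (Vx Q₁) t)) + k₂ (h₂ (resL (Vx Q₂) t) + a (resL (Vx Q₁) t) -
      a (k₁ (h₁ (resL (Vx Q₁) t)))) = t
    rw [H₁.kh _ a1, add_sub_cancel_right, H₂.kh _ a2, a3]
  · exact (join_add hd (H₁.mem _) (H₂.mem _)).1
  · obtain ⟨-, a2, a3⟩ := join_add hd (H₁.mem y.1) (H₂.mem (y.2 - a (k₁ y.1)))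
    show (h₁ (resL (Vx Q₁) (k₁ y.1 + k₂ (y.2 - a (k₁ y.1)))),
      h₂ (resL (Vx Q₂) (k₁ y.1 + k₂ (y.2 - a (k₁ y.1)))) +
        a (resL (Vx Q₁) (k₁ y.1 + k₂ (y.2 - a (k₁ y.1))))) = y
    rw [a2, a3, H₁.hk', H₂.hk', sub_add_cancel]

theorem SphV.join {Q₁ Q₂ : Set (Finset X)} (hd : Disjoint (Vx Q₁) (Vx Q₂)) (H₁ : SphV Q₁ V)
    (H₂ : SphV Q₂ W) : SphV (join Q₁ Q₂) (V × W) := by
  obtain ⟨h₁, k₁, H₁⟩ := H₁
  obtain ⟨h₂, k₂, H₂⟩ := H₂
  exact ⟨_, _, H₁.join hd H₂ (PLMap.lin (0 : (X → ℝ) →ₗ[ℝ] W))⟩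

theorem exists_eq_one {l : V →ₗ[ℝ] ℝ} (h : l ≠ 0) : ∃ w, l w = 1 := by
  obtain ⟨w0, hw0⟩ : ∃ w, l w ≠ 0 := by
    by_contra hc
    push Not at hc
    exact h (LinearMap.ext hc)
  exact ⟨(l w0)⁻¹ • w0, by simp [hw0]⟩

theorem CoordV.join {Q₁ Q₂ : Set (Finset X)} (hd : Disjoint (Vx Q₁) (Vx Q₂)) (H₁ : SphV Q₁ V)
    {f : X → ℝ} (H₂ : CoordV Q₂ f W) : CoordV (join Q₁ Q₂) f (V × W) := by
  obtain ⟨h₁, k₁, H₁⟩ := H₁
  obtain ⟨h₂, k₂, l, H₂, h0, h1⟩ := H₂
  obtain ⟨w, hw⟩ := exists_eq_one h0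
  have H := H₁.join hd H₂ (a := fun t => FF f t • w)
    (PLMap.lin ((LinearMap.toSpanSingleton ℝ W w).comp (FF f)))
  refine ⟨_, _, l ∘ₗ LinearMap.snd ℝ V W, H, ?_, fun t ht => ?_⟩
  · intro h2
    have h3 := congrArg (fun g : V × W →ₗ[ℝ] ℝ => g (0, w)) h2
    simp [hw] at h3
  · obtain ⟨-, a2, a3⟩ := res_join hd ht
    show FF f t = l (h₂ (resL (Vx Q₂) t) + FF f (resL (Vx Q₁) t) • w)
    rw [map_add, map_smul, hw, ← h1 _ a2, smul_eq_mul, mul_one, add_comm, ← map_add, a3]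

theorem vx_disjoint {Q₁ Q₂ : Set (Finset X)} {A : Set X} (h1 : ∀ σ ∈ Q₁, ∀ x ∈ σ, x ∈ A)
    (h2 : ∀ σ ∈ Q₂, ∀ x ∈ σ, x ∉ A) : Disjoint (Vx Q₁) (Vx Q₂) :=
  Set.disjoint_left.2 fun x ⟨s, hs, hx⟩ ⟨u, hu, hx'⟩ => h2 u hu x hx' (h1 s hs x hx)

/-- (R2) join: no condition on `f` on the first factor. -/
theorem Coord.join {Q₁ Q₂ : Set (Finset X)} {f : X → ℝ} {m₁ m₂ : ℕ} (A : Set X)
    (h1 : ∀ σ ∈ Q₁, ∀ x ∈ σ, x ∈ A) (h2 : ∀ σ ∈ Q₂, ∀ x ∈ σ, x ∉ A)
    (hS : Sph Q₁ m₁) (hC : Coord Q₂ f m₂) : Coord (join Q₁ Q₂) f (m₁ + m₂) :=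
  (CoordV.join (vx_disjoint h1 h2) (sph_iff.1 hS) (coord_iff.1 hC)).coord (by simp)

theorem Sph.join {Q₁ Q₂ : Set (Finset X)} {m₁ m₂ : ℕ} (A : Set X)
    (h1 : ∀ σ ∈ Q₁, ∀ x ∈ σ, x ∈ A) (h2 : ∀ σ ∈ Q₂, ∀ x ∈ σ, x ∉ A)
    (hS : Sph Q₁ m₁) (hS' : Sph Q₂ m₂) : Sph (join Q₁ Q₂) (m₁ + m₂) :=
  (SphV.join (vx_disjoint h1 h2) (sph_iff.1 hS) (sph_iff.1 hS')).sph (by simp)

/-! ### relabelling of the vertices -/

section
variable {X' : Type*} [Fintype X'] [DecidableEq X']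

open Classical in
/-- push forward of a function along `e`, restricted to `A` -/
noncomputable def pushL (e : X → X') (A : Set X) : (X → ℝ) →ₗ[ℝ] (X' → ℝ) where
  toFun t := fun y => ∑ x, if x ∈ A ∧ e x = y then t x else 0
  map_add' t s := by
    ext y
    simp only [Pi.add_apply]
    rw [← Finset.sum_add_distrib]
    refine Finset.sum_congr rfl fun x _ => ?_
    split_ifs <;> simp
  map_smul' c t := by
    ext y
    simp only [Pi.smul_apply, smul_eq_mul, RingHom.id_apply]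
    rw [Finset.mul_sum]
    refine Finset.sum_congr rfl fun x _ => ?_
    split_ifs <;> simp

/-- pull back of a function along `e`, restricted to `A` -/
noncomputable def pullL (e : X → X') (A : Set X) : (X' → ℝ) →ₗ[ℝ] (X → ℝ) :=
  (resL A) ∘ₗ (LinearMap.funLeft ℝ ℝ e)

theorem pullL_in {e : X → X'} {A : Set X} {x : X} (hx : x ∈ A) (t : X' → ℝ) :
    pullL e A t x = t (e x) := resL_in hx _

theorem pullL_out {e : X → X'} {A : Set X} {x : X} (hx : x ∉ A) (t : X' → ℝ) :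
    pullL e A t x = 0 := resL_out hx _

theorem pushL_apply {e : X → X'} {A : Set X} (he : Set.InjOn e A) {x : X} (hx : x ∈ A)
    (t : X → ℝ) : pushL e A t (e x) = t x := by
  classical
  show (∑ u, if u ∈ A ∧ e u = e x then t u else 0) = t x
  rw [Finset.sum_eq_single x]
  · rw [if_pos ⟨hx, rfl⟩]
  · intro u _ hu
    rw [if_neg]
    rintro ⟨h1, h2⟩
    exact hu (he h1 hx h2)
  · intro h
    exact absurd (mem_univ x) h

theorem pushL_zero {e : X → X'} {A : Set X} {t : X → ℝ} {y : X'}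
    (h : ∀ x ∈ A, e x = y → t x = 0) : pushL e A t y = 0 := by
  classical
  show (∑ u, if u ∈ A ∧ e u = y then t u else 0) = 0
  refine Finset.sum_eq_zero fun u _ => ?_
  split_ifs with h1
  · exact h u h1.1 h1.2
  · rfl

theorem pushL_nonneg {e : X → X'} {A : Set X} {t : X → ℝ} (ht : ∀ x, 0 ≤ t x) (y : X') :
    0 ≤ pushL e A t y := by
  classical
  refine Finset.sum_nonneg fun u _ => ?_
  split_ifs
  · exact ht u
  · exact le_rfl

theorem push_cone {Q : Set (Finset X)} {e : X → X'} {A : Set X} {t : X → ℝ} (ht : t ∈ cone Q) :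
    pushL e A t ∈ cone ((Finset.image e) '' Q) := by
  obtain ⟨h0, σ, hσ, h⟩ := ht
  refine ⟨pushL_nonneg h0, σ.image e, ⟨σ, hσ, rfl⟩, fun y hy => pushL_zero fun x _ hx => ?_⟩
  exact h x fun h' => hy (hx ▸ Finset.mem_image_of_mem e h')

theorem pull_cone {Q : Set (Finset X)} {e : X → X'} {A : Set X} (hA : ∀ σ ∈ Q, ∀ x ∈ σ, x ∈ A)
    (he : Set.InjOn e A) {t : X' → ℝ} (ht : t ∈ cone ((Finset.image e) '' Q)) :
    pullL e A t ∈ cone Q ∧ pushL e A (pullL e A t) = t := by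
  obtain ⟨h0, σ', ⟨σ, hσ, rfl⟩, h⟩ := ht
  constructor
  · refine ⟨fun x => ?_, σ, hσ, fun x hx => ?_⟩
    · by_cases hx : x ∈ A
      · rw [pullL_in hx]; exact h0 _
      · rw [pullL_out hx]
    · by_cases h1 : x ∈ A
      · rw [pullL_in h1]
        refine h _ fun h2 => ?_
        obtain ⟨u, hu, h3⟩ := Finset.mem_image.1 h2
        exact hx (he (hA σ hσ u hu) h1 h3 ▸ hu)
      · exact pullL_out h1 t
  · ext y
    by_cases hy : y ∈ σ.image e
    · obtain ⟨x, hx, rfl⟩ := Finset.mem_image.1 hy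
      rw [pushL_apply he (hA σ hσ x hx), pullL_in (hA σ hσ x hx)]
    · rw [h y hy]
      refine pushL_zero fun x hx hxy => ?_
      rw [pullL_in hx, hxy, h y hy]

theorem pull_push {Q : Set (Finset X)} {e : X → X'} {A : Set X} (hA : ∀ σ ∈ Q, ∀ x ∈ σ, x ∈ A)
    (he : Set.InjOn e A) {t : X → ℝ} (ht : t ∈ cone Q) : pullL e A (pushL e A t) = t := by
  ext x
  by_cases hx : x ∈ A
  · rw [pullL_in hx, pushL_apply he hx]
  · rw [pullL_out hx, cone_out ht fun ⟨σ, hσ, h⟩ => hx (hA σ hσ x h)]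

theorem IsSph.map {Q : Set (Finset X)} {h : (X → ℝ) → V} {k : V → X → ℝ} (H : IsSph Q h k)
    (e : X → X') (A : Set X) (hA : ∀ σ ∈ Q, ∀ x ∈ σ, x ∈ A) (he : Set.InjOn e A) :
    IsSph ((Finset.image e) '' Q) (fun t => h (pullL e A t)) fun y => pushL e A (k y) := by
  refine ⟨H.hh.comp (PLMap.lin _), (PLMap.lin _).comp H.hk, fun t ht => ?_,
    fun y => push_cone (H.mem y), fun y => ?_⟩
  · obtain ⟨a1, a2⟩ := pull_cone hA he ht
    rw [H.kh _ a1, a2]
  · show h (pullL e A (pushL e A (k y))) = y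
    rw [pull_push hA he (H.mem y), H.hk']

theorem FF_push {e : X → X'} {A : Set X} (f : X' → ℝ) {t : X → ℝ} (ht : ∀ x, x ∉ A → t x = 0) :
    FF f (pushL e A t) = FF (fun x => f (e x)) t := by
  classical
  rw [FF_apply, FF_apply]
  have e1 : ∀ y, f y * pushL e A t y = ∑ x, if x ∈ A ∧ e x = y then f (e x) * t x else 0 := by
    intro y
    show f y * (∑ x, if x ∈ A ∧ e x = y then t x else 0) = _
    rw [Finset.mul_sum]
    refine Finset.sum_congr rfl fun x _ => ?_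
    split_ifs with h
    · rw [h.2]
    · rw [mul_zero]
  rw [Finset.sum_congr rfl fun y _ => e1 y, Finset.sum_comm]
  refine Finset.sum_congr rfl fun x _ => ?_
  rw [Finset.sum_eq_single (e x)]
  · split_ifs with h
    · rfl
    · rw [ht x fun h' => h ⟨h', rfl⟩, mul_zero]
  · intro y _ hy
    rw [if_neg]
    rintro ⟨-, h⟩
    exact hy h.symm
  · intro h
    exact absurd (mem_univ _) h

/-- transport along a map which is injective on the vertices -/
theorem Coord.map {Q : Set (Finset X)}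
    {f : X' → ℝ} {m : ℕ} (e : X → X') (A : Set X) (hA : ∀ σ ∈ Q, ∀ x ∈ σ, x ∈ A)
    (he : Set.InjOn e A) (h : Coord Q (fun x => f (e x)) m) :
    Coord ((Finset.image e) '' Q) f m := by
  obtain ⟨h, k, l, H, h0, h1⟩ := coord_iff.1 h
  refine coord_iff.2 ⟨_, _, l, H.map e A hA he, h0, fun t ht => ?_⟩
  obtain ⟨a1, a2⟩ := pull_cone hA he ht
  show FF f t = l (h (pullL e A t))
  rw [← h1 _ a1, ← FF_push (e := e) (A := A) f, a2]
  intro x hx
  exact pullL_out hx t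

theorem Sph.map {Q : Set (Finset X)}
    {m : ℕ} (e : X → X') (A : Set X) (hA : ∀ σ ∈ Q, ∀ x ∈ σ, x ∈ A)
    (he : Set.InjOn e A) (h : Sph Q m) : Sph ((Finset.image e) '' Q) m := by
  obtain ⟨h, k, H⟩ := sph_iff.1 h
  exact sph_iff.2 ⟨_, _, H.map e A hA he⟩

end

/-! ### rule R4: change of the value at a vertex -/

/-- the move -/
noncomputable def th4 (Q : Set (Finset X)) (b : X) (h : (X → ℝ) → V) (k : V → X → ℝ) (w : V)
    (c : ℝ) (t : X → ℝ) : X → ℝ :=
  t + (k (h (resL (Vx (lkF Q {b})) t) - (c * t b) • w) - k (h (resL (Vx (lkF Q {b})) t)))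

theorem th4_zero {Q : Set (Finset X)} {b : X} {h : (X → ℝ) → V} {k : V → X → ℝ} {w : V}
    {c : ℝ} {t : X → ℝ} (hb : t b = 0) : th4 Q b h k w c t = t := by
  unfold th4
  rw [hb, mul_zero, zero_smul, sub_zero, sub_self, add_zero]

theorem mem_lkF {Q : Set (Finset X)} {b : X} {s : Finset X} :
    s ∈ lkF Q {b} ↔ b ∉ s ∧ insert b s ∈ Q := by
  unfold lkF
  rw [Set.mem_ofPred_eq, Finset.disjoint_singleton_right, Finset.union_comm,
    ← Finset.insert_eq]

theorem not_mem_lk {Q : Set (Finset X)} {b : X} : b ∉ Vx (lkF Q {b}) := by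
  rintro ⟨s, hs, h⟩
  exact (mem_lkF.1 hs).1 h

theorem res_lk {Q : Set (Finset X)} {b : X} {t : X → ℝ} (ht : t ∈ cone Q) (hb : t b ≠ 0) :
    resL (Vx (lkF Q {b})) t ∈ cone (lkF Q {b}) ∧
      t = t b • Pi.single b 1 + resL (Vx (lkF Q {b})) t := by
  obtain ⟨h0, σ, hσ, h⟩ := ht
  have hbσ : b ∈ σ := by
    by_contra h1
    exact hb (h b h1)
  have hs : σ.erase b ∈ lkF Q {b} := by
    refine mem_lkF.2 ⟨by simp, ?_⟩
    rw [insert_erase hbσ]
    exact hσ
  have hin : ∀ x, x ≠ b → t x ≠ 0 → x ∈ Vx (lkF Q {b}) := fun x hx h1 =>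
    ⟨_, hs, Finset.mem_erase.2 ⟨hx, by_contra fun h2 => h1 (h x h2)⟩⟩
  constructor
  · refine ⟨resL_nonneg h0, _, hs, fun x hx => ?_⟩
    by_cases h1 : x ∈ Vx (lkF Q {b})
    · rw [resL_in h1]
      refine h x fun h2 => hx (Finset.mem_erase.2 ⟨fun e => not_mem_lk (e ▸ h1), h2⟩)
    · exact resL_out h1 t
  · ext x
    simp only [Pi.add_apply, Pi.smul_apply, smul_eq_mul]
    by_cases hx : x = b
    · subst hx
      rw [resL_out not_mem_lk, Pi.single_eq_same, mul_one, add_zero]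
    · rw [Pi.single_eq_of_ne hx, mul_zero, zero_add]
      by_cases h2 : t x = 0
      · by_cases h1 : x ∈ Vx (lkF Q {b})
        · rw [resL_in h1]
        · rw [resL_out h1, h2]
      · rw [resL_in (hin x hx h2)]

theorem lk_add {Q : Set (Finset X)} {b : X} {a : ℝ} (ha : 0 < a) {q : X → ℝ}
    (hq : q ∈ cone (lkF Q {b})) : a • Pi.single b 1 + q ∈ cone Q ∧
      (a • Pi.single b 1 + q : X → ℝ) b = a ∧
      resL (Vx (lkF Q {b})) (a • Pi.single b 1 + q) = q := by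
  have hb : q b = 0 := cone_out hq not_mem_lk
  refine ⟨?_, ?_, ?_⟩
  · obtain ⟨h0, σ, hσ, h⟩ := id hq
    refine ⟨fun x => ?_, insert b σ, (mem_lkF.1 hσ).2, fun x hx => ?_⟩
    · by_cases hx : x = b
      · subst hx
        simp [hb, ha.le]
      · simpa [Pi.single_eq_of_ne hx] using h0 x
    · rw [Finset.mem_insert, not_or] at hx
      simp [Pi.single_eq_of_ne hx.1, h x hx.2]
  · simp [hb]
  · ext x
    by_cases hx : x ∈ Vx (lkF Q {b})
    · have : x ≠ b := fun e => not_mem_lk (e ▸ hx)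
      rw [resL_in hx]
      simp [Pi.single_eq_of_ne this]
    · rw [resL_out hx, cone_out hq hx]

theorem th4_pos {Q : Set (Finset X)} {b : X} {h : (X → ℝ) → V} {k : V → X → ℝ}
    (H : IsSph (lkF Q {b}) h k) {w : V} {c : ℝ} {t : X → ℝ} (ht : t ∈ cone Q) (hb : t b ≠ 0) :
    th4 Q b h k w c t =
      t b • Pi.single b 1 + k (h (resL (Vx (lkF Q {b})) t) - (c * t b) • w) := by
  obtain ⟨h1, h2⟩ := res_lk ht hb
  unfold th4
  rw [H.kh _ h1]
  ext x
  have h3 := congrFun h2 x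
  simp only [Pi.add_apply, Pi.sub_apply] at h3 ⊢
  linarith

theorem th4_mem {Q : Set (Finset X)} {b : X} {h : (X → ℝ) → V} {k : V → X → ℝ}
    (H : IsSph (lkF Q {b}) h k) (w : V) (c : ℝ) {t : X → ℝ} (ht : t ∈ cone Q) :
    th4 Q b h k w c t ∈ cone Q ∧ th4 Q b h k w (-c) (th4 Q b h k w c t) = t := by
  by_cases hb : t b = 0
  · rw [th4_zero hb, th4_zero hb]
    exact ⟨ht, rfl⟩
  have hpos : 0 < t b := lt_of_le_of_ne (ht.1 b) (Ne.symm hb)
  obtain ⟨a1, a2, a3⟩ := lk_add hpos (H.mem (h (resL (Vx (lkF Q {b})) t) - (c * t b) • w))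
  have e := th4_pos H (w := w) (c := c) ht hb
  rw [← e] at a1 a2 a3
  refine ⟨a1, ?_⟩
  rw [th4_pos H a1 (by rw [a2]; exact hb), a2, a3, H.hk', neg_mul, neg_smul, sub_neg_eq_add,
    sub_add_cancel]
  obtain ⟨h1, h2⟩ := res_lk ht hb
  rw [H.kh _ h1]
  exact h2.symm

theorem FF_ne {f g : X → ℝ} {b : X} (hg : ∀ x, x ≠ b → g x = f x) (t : X → ℝ) :
    FF g t = FF f t + (g b - f b) * t b := by
  rw [FF_apply, FF_apply, ← Finset.add_sum_erase _ _ (mem_univ b),
    ← Finset.add_sum_erase (univ : Finset X) (fun x => f x * t x) (mem_univ b),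
    Finset.sum_congr rfl fun x hx => by rw [hg x (Finset.ne_of_mem_erase hx)]]
  ring

theorem CoordV.vertex {Q : Set (Finset X)} {f : X → ℝ} (H : CoordV Q f V) {b : X}
    (Hb : CoordV (lkF Q {b}) f W) {g : X → ℝ} (hg : ∀ x, x ≠ b → g x = f x) : CoordV Q g V := by
  obtain ⟨h, k, l, H, h0, h1⟩ := H
  obtain ⟨hb, kb, lb, Hb, b0, b1⟩ := Hb
  obtain ⟨w, hw⟩ := exists_eq_one b0
  have pl : ∀ c : ℝ, PLMap (th4 Q b hb kb w c) := by
    intro c
    have p1 : PLMap fun t : X → ℝ => hb (resL (Vx (lkF Q {b})) t) := Hb.hh.comp (PLMap.lin _)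
    have p2 : PLMap fun t : X → ℝ => (c * t b) • w := by
      have h2 : PLMap fun t : X → ℝ => ((LinearMap.toSpanSingleton ℝ W w).comp
        (c • (LinearMap.proj b : (X → ℝ) →ₗ[ℝ] ℝ))) t := PLMap.lin _
      simpa [LinearMap.toSpanSingleton_apply] using h2
    exact (PLMap.lin LinearMap.id).add ((Hb.hk.comp (p1.sub p2)).sub (Hb.hk.comp p1))
  -- the functional
  have key : ∀ t ∈ cone Q, FF g (th4 Q b hb kb w (g b - f b) t) = FF f t := by
    intro t ht
    by_cases htb : t b = 0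
    · rw [th4_zero htb, FF_ne hg, htb, mul_zero, add_zero]
    obtain ⟨r1, r2⟩ := res_lk ht htb
    have hm := Hb.mem (hb (resL (Vx (lkF Q {b})) t) - ((g b - f b) * t b) • w)
    have e1 : kb (hb (resL (Vx (lkF Q {b})) t) - ((g b - f b) * t b) • w) b = 0 :=
      cone_out hm not_mem_lk
    have e2 := b1 _ hm
    rw [Hb.hk', map_sub, map_smul, hw, ← b1 _ r1, smul_eq_mul, mul_one] at e2
    have e3 : FF f t = FF f (t b • Pi.single b 1) + FF f (resL (Vx (lkF Q {b})) t) := by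
      rw [← map_add, ← r2]
    have e4 : (t b • (Pi.single b 1 : X → ℝ)) b = t b := by simp
    rw [th4_pos Hb ht htb, FF_ne hg, map_add, e2, e3, Pi.add_apply, e1, e4]
    ring
  set c := g b - f b with hc
  refine ⟨fun t => h (th4 Q b hb kb w (-c) t), fun y => th4 Q b hb kb w c (k y), l,
    ⟨H.hh.comp (pl _), (pl _).comp H.hk, fun t ht => ?_, fun y => ?_, fun y => ?_⟩, h0,
    fun t ht => ?_⟩
  · show th4 Q b hb kb w c (k (h (th4 Q b hb kb w (-c) t))) = t
    obtain ⟨a1, a2⟩ := th4_mem Hb w (-c) ht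
    rw [H.kh _ a1]
    rwa [neg_neg] at a2
  · exact (th4_mem Hb w c (H.mem y)).1
  · show h (th4 Q b hb kb w (-c) (th4 Q b hb kb w c (k y))) = y
    rw [(th4_mem Hb w c (H.mem y)).2, H.hk']
  · obtain ⟨a1, a2⟩ := th4_mem Hb w (-c) ht
    rw [neg_neg] at a2
    show FF g t = l (h (th4 Q b hb kb w (-c) t))
    rw [← h1 _ a1, ← key _ a1, a2]

/-- (R4) without conditions on the dimensions -/
theorem Coord.vertex' {Q : Set (Finset X)} {f g : X → ℝ} {m m' : ℕ} (b : X)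
    (h : Coord Q f m) (hl : Coord (lkF Q {b}) f m') (hg : ∀ x, x ≠ b → g x = f x) :
    Coord Q g m :=
  coord_iff.2 ((coord_iff.1 h).vertex (coord_iff.1 hl) hg)

/-- (R4) the value at one vertex `b` may be changed if the link of `b` is a coordinate. -/
theorem Coord.vertex {Q : Set (Finset X)} {f g : X → ℝ} {m : ℕ} (hQ : IsCx Q) (b : X)
    (hb : {b} ∈ Q) (h : Coord Q f (m + 1)) (hl : Coord (lkF Q {b}) f m)
    (hg : ∀ x, x ≠ b → g x = f x) : Coord Q g (m + 1) :=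
  h.vertex' b hl hg

/-! ### rule R1: the boundary of a simplex -/

/-- extension of a function on the vertices without `z` by `0` -/
noncomputable def extL (I : Finset X) (z : X) : (↥(I.erase z) → ℝ) →ₗ[ℝ] (X → ℝ) where
  toFun y := fun x => if hx : x ∈ I.erase z then y ⟨x, hx⟩ else 0
  map_add' y y' := by
    ext x
    simp only [Pi.add_apply]
    split_ifs <;> simp
  map_smul' c y := by
    ext x
    simp only [Pi.smul_apply, RingHom.id_apply]
    split_ifs <;> simp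

theorem extL_in {I : Finset X} {z : X} (y : ↥(I.erase z) → ℝ) {x : X} (hx : x ∈ I.erase z) :
    extL I z y x = y ⟨x, hx⟩ := dif_pos hx

theorem extL_out {I : Finset X} {z : X} (y : ↥(I.erase z) → ℝ) {x : X} (hx : x ∉ I.erase z) :
    extL I z y x = 0 := dif_neg hx

/-- differences with the value at `z` -/
noncomputable def difL (I : Finset X) (z : X) : (X → ℝ) →ₗ[ℝ] (↥(I.erase z) → ℝ) where
  toFun t := fun x => t x - t z
  map_add' t s := by
    ext x
    simp only [Pi.add_apply]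
    ring
  map_smul' c t := by
    ext x
    simp only [Pi.smul_apply, smul_eq_mul, RingHom.id_apply]
    ring

theorem ext_dif {I : Finset X} {z : X} (t : X → ℝ) {x : X} (hx : x ∈ I) :
    extL I z (difL I z t) x = t x - t z := by
  by_cases h : x = z
  · subst h
    rw [extL_out _ (by simp), sub_self]
  · rw [extL_in _ (Finset.mem_erase.2 ⟨h, hx⟩)]
    rfl

theorem isSph_bd {I : Finset X} (hI : I.Nonempty) {z : X} (hz : z ∈ I) :
    IsSph (bd I) (fun t => difL I z t)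
      fun y x => if x ∈ I then extL I z y x - I.inf' hI (extL I z y) else 0 := by
  refine ⟨PLMap.lin _, PLMap.pi fun x => ?_, fun t ht => ?_, fun y => ⟨fun x => ?_, ?_⟩,
    fun y => ?_⟩
  · have p : ∀ x, IsPL fun y : ↥(I.erase z) → ℝ => extL I z y x := fun x =>
      IsPL.lin ((LinearMap.proj x).comp (extL I z))
    by_cases hx : x ∈ I
    · simp only [if_pos hx]
      exact (p x).sub (IsPL.inf' I hI fun i _ => p i)
    · simp only [if_neg hx]
      exact IsPL.zero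
  · obtain ⟨h0, σ, hσ, h⟩ := ht
    obtain ⟨u, hu, huσ⟩ := Finset.exists_of_ssubset (show σ ⊂ I from hσ)
    have hut : t u = 0 := h u huσ
    have hi : I.inf' hI (extL I z (difL I z t)) = -t z := by
      apply le_antisymm
      · refine (Finset.inf'_le _ hu).trans ?_
        rw [ext_dif t hu, hut, zero_sub]
      · refine Finset.le_inf' _ _ fun x hx => ?_
        rw [ext_dif t hx]
        have := h0 x
        linarith
    ext x
    by_cases hx : x ∈ I
    · simp only [if_pos hx]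
      rw [hi, ext_dif t hx]
      ring
    · simp only [if_neg hx]
      exact (h x fun h' => hx ((show σ ⊂ I from hσ).1 h')).symm
  · by_cases hx : x ∈ I
    · simp only [if_pos hx]
      exact sub_nonneg.2 (Finset.inf'_le _ hx)
    · simp only [if_neg hx]
      exact le_rfl
  · obtain ⟨u, hu, e⟩ := Finset.exists_mem_eq_inf' hI (extL I z y)
    refine ⟨I.erase u, Finset.erase_ssubset hu, fun x hx => ?_⟩
    by_cases hxI : x ∈ I
    · have : x = u := by
        by_contra h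
        exact hx (Finset.mem_erase.2 ⟨h, hxI⟩)
      subst this
      simp only [if_pos hxI]
      rw [e, sub_self]
    · exact if_neg hxI
  · ext x
    have hx := Finset.mem_of_mem_erase x.2
    show (if (x : X) ∈ I then _ else _) - (if z ∈ I then _ else _) = y x
    rw [if_pos hx, if_pos hz, extL_in _ x.2, extL_out _ (Finset.notMem_erase z I)]
    ring

theorem sph_bd (I : Finset X) (hI : I.Nonempty) : Sph (bd I) (I.card - 1) := by
  obtain ⟨z, hz⟩ := id hI
  refine SphV.sph (V := ↥(I.erase z) → ℝ) ⟨_, _, isSph_bd hI hz⟩ ?_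
  rw [Module.finrank_fintype_fun_eq_card, Fintype.card_coe, Finset.card_erase_of_mem hz]

theorem coord_bd_sum {I : Finset X} {f : X → ℝ} (h0 : ∃ x ∈ I, f x ≠ 0)
    (hs : ∑ x ∈ I, f x = 0) : Coord (bd I) f (I.card - 1) := by
  obtain ⟨z, hz, hfz⟩ := h0
  have hI : I.Nonempty := ⟨z, hz⟩
  refine CoordV.coord (V := ↥(I.erase z) → ℝ) ⟨_, _, FF f ∘ₗ extL I z, isSph_bd hI hz, ?_,
    fun t ht => ?_⟩ ?_
  · intro h
    apply hfz
    have h1 : ∀ x ∈ I.erase z, f x = 0 := by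
      intro x hx
      have h2 := congrArg (fun g : (↥(I.erase z) → ℝ) →ₗ[ℝ] ℝ => g (Pi.single ⟨x, hx⟩ 1)) h
      simp only [LinearMap.comp_apply, LinearMap.zero_apply, FF_apply] at h2
      rw [Finset.sum_eq_single x] at h2
      · rw [extL_in _ hx, Pi.single_eq_same, mul_one] at h2
        exact h2
      · intro u _ hu
        by_cases hu' : u ∈ I.erase z
        · rw [extL_in _ hu', Pi.single_eq_of_ne (by simpa using hu), mul_zero]
        · rw [extL_out _ hu', mul_zero]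
      · simp
    rw [← Finset.add_sum_erase _ _ hz, Finset.sum_eq_zero h1, add_zero] at hs
    exact hs
  · obtain ⟨-, σ, hσ, h⟩ := ht
    have e1 : ∀ x, f x * t x = if x ∈ I then f x * t x else 0 := by
      intro x
      split_ifs with hx
      · rfl
      · rw [h x fun h' => hx ((show σ ⊂ I from hσ).1 h'), mul_zero]
    have e2 : ∀ x, f x * extL I z (difL I z t) x = if x ∈ I then f x * (t x - t z) else 0 := by
      intro x
      split_ifs with hx
      · rw [ext_dif t hx]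
      · rw [extL_out _ fun h => hx (Finset.mem_of_mem_erase h), mul_zero]
    rw [LinearMap.comp_apply, FF_apply, FF_apply, Finset.sum_congr rfl fun x _ => e1 x,
      Finset.sum_congr rfl fun x _ => e2 x, Finset.sum_ite_mem, Finset.sum_ite_mem,
      Finset.univ_inter]
    simp only [mul_sub, Finset.sum_sub_distrib, ← Finset.sum_mul, hs, zero_mul, sub_zero]
  · rw [Module.finrank_fintype_fun_eq_card, Fintype.card_coe, Finset.card_erase_of_mem hz]

/-- (R1) -/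
theorem coord_bd (I : Finset X) (f : X → ℝ) (hp : ∃ x ∈ I, 0 < f x) (hn : ∃ x ∈ I, f x < 0) :
    Coord (bd I) f (I.card - 1) := by
  classical
  set P := ∑ x ∈ I.filter (fun x => 0 < f x), f x with hP
  set N := ∑ x ∈ I.filter (fun x => f x < 0), -f x with hN
  have hP0 : 0 < P := by
    obtain ⟨x, hx, h⟩ := hp
    exact Finset.sum_pos (fun y hy => (Finset.mem_filter.1 hy).2) ⟨x, by simp [hx, h]⟩
  have hN0 : 0 < N := by
    obtain ⟨x, hx, h⟩ := hn
    exact Finset.sum_pos (fun y hy => neg_pos.2 (Finset.mem_filter.1 hy).2) ⟨x, by simp [hx, h]⟩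
  have hc : ∀ x, 0 < (if 0 < f x then N else if f x < 0 then P else 1) := by
    intro x
    split_ifs
    · exact hN0
    · exact hP0
    · exact one_pos
  refine (coord_bd_sum (I := I)
    (f := fun x => (if 0 < f x then N else if f x < 0 then P else 1) * f x) ?_ ?_).of_sign ?_
  · obtain ⟨x, hx, h⟩ := hp
    exact ⟨x, hx, (mul_pos (hc x) h).ne'⟩
  · have e : ∀ x, (if 0 < f x then N else if f x < 0 then P else 1) * f x =
        N * (if 0 < f x then f x else 0) - P * (if f x < 0 then -f x else 0) := by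
      intro x
      split_ifs with h1 h2
      · linarith
      · ring
      · ring
      · have : f x = 0 := le_antisymm (not_lt.1 h1) (not_lt.1 ‹¬ f x < 0›)
        rw [this]
        ring
    rw [Finset.sum_congr rfl fun x _ => e x, Finset.sum_sub_distrib, ← Finset.mul_sum,
      ← Finset.mul_sum, ← Finset.sum_filter, ← Finset.sum_filter, ← hP, ← hN]
    ring
  · intro s _ x _
    rcases lt_trichotomy (f x) 0 with h | h | h
    · exact Or.inr (Or.inl ⟨mul_neg_of_pos_of_neg (hc x) h, h⟩)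
    · exact Or.inr (Or.inr ⟨by rw [h, mul_zero], h⟩)
    · exact Or.inl ⟨mul_pos (hc x) h, h⟩

end

end Pool.Agent.DF302A
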