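import Pool.Agent.Work.MP_df302a_co.Orb

/-! # MP_df302a_co : cycles of collapsible complexes, elimination. -/

set_option autoImplicit false

namespace Pool.Agent.DF302A.Orb

open Finset Pool.Agent.DF302A.PI

/-- complexes built from a point by elementary expansions -/
inductive Bld : Finset (Finset ℕ) → Prop
  | point (p : ℕ) : Bld {∅, {p}}
  | step (A : Finset (Finset ℕ)) (F : Finset ℕ) (x : ℕ) (h : Bld A) (hx : x ∉ F) (ne : F.Nonempty)
      (hF : F ∉ A) (hy : ∀ y ∈ F, insert x (F.erase y) ∈ A) :
      Bld (insert F (insert (insert x F) A))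

theorem Bld.isCx {A : Finset (Finset ℕ)} (h : Bld A) : IsCx (A : Set (Finset ℕ)) := by
  induction h with
  | point p =>
    refine ⟨by simp, ?_⟩
    intro σ hσ τ hτ
    simp only [Finset.coe_insert, Finset.coe_singleton, Set.mem_insert_iff, Set.mem_singleton_iff]
      at hσ ⊢
    rcases hσ with rfl | rfl
    · exact Or.inl (Finset.subset_empty.1 hτ)
    · exact Finset.subset_singleton_iff.1 hτ
  | step A F x h hx ne hF hy ih =>
    rw [Finset.coe_insert, Finset.coe_insert]
    exact isCx_add ih hx hy ne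

theorem Bld.inn {A : Finset (Finset ℕ)} (h : Bld A) :
    ∃ p, ∀ Z : Set (Finset ℕ), (A : Set (Finset ℕ)) ⊆ Z → Inn Z (pt p) (A : Set (Finset ℕ)) := by
  induction h with
  | point p =>
    refine ⟨p, fun Z _ => ?_⟩
    rw [Finset.coe_insert, Finset.coe_singleton]
    exact Inn.refl _
  | step A F x h hx ne hF hy ih =>
    obtain ⟨p, hp⟩ := ih
    refine ⟨p, fun Z hZ => ?_⟩
    rw [Finset.coe_insert, Finset.coe_insert] at hZ ⊢
    refine (hp Z fun c hc => hZ (Or.inr (Or.inr hc))).trans (Inn.exp (F := F) (x := x)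
      ⟨h.isCx, hx, ne, fun h => hF h, fun y hy' => hy y hy', rfl⟩ (hZ (Or.inr (Or.inl rfl))))

/-- the boundary of a triangle -/
noncomputable def bd3 (t : Finset ℕ) : M := sg (opp t 0) - sg (opp t 1) + sg (opp t 2)

/-- the boundary of a chain of triangles -/
noncomputable def D : M →ₗ[ℤ] M := Finsupp.linearCombination ℤ bd3

theorem D_sg (t : Finset ℕ) : D (sg t) = bd3 t := by
  simp [D, sg]

theorem opp_subset (t : Finset ℕ) (i : ℕ) : opp t i ⊆ t := Finset.erase_subset _ _

theorem opp_inj {t : Finset ℕ} {i j : ℕ} (hi : i < t.card) (hj : j < t.card)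
    (h : opp t i = opp t j) : i = j := by
  have hl : (t.sort (· ≤ ·)).length = t.card := Finset.length_sort _
  unfold opp at h
  rw [List.getD_eq_getElem _ _ (by rw [hl]; exact hi),
    List.getD_eq_getElem _ _ (by rw [hl]; exact hj)] at h
  have h1 : (t.sort (· ≤ ·))[i] ∈ t := (Finset.mem_sort (· ≤ ·)).1 (List.getElem_mem _)
  have h2 : (t.sort (· ≤ ·))[i] = (t.sort (· ≤ ·))[j] := by
    by_contra hne
    have : (t.sort (· ≤ ·))[i] ∈ t.erase (t.sort (· ≤ ·))[j] := Finset.mem_erase.2 ⟨hne, h1⟩
    rw [← h] at this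
    exact Finset.notMem_erase _ _ this
  exact (List.Nodup.getElem_inj_iff (Finset.sort_nodup t _)).1 h2

theorem exists_opp {t : Finset ℕ} {x : ℕ} (hx : x ∈ t) : ∃ i < t.card, opp t i = t.erase x := by
  obtain ⟨i, hi, h⟩ := List.getElem_of_mem ((Finset.mem_sort (· ≤ ·)).2 hx)
  have hl : (t.sort (· ≤ ·)).length = t.card := Finset.length_sort _
  refine ⟨i, by rw [← hl]; exact hi, ?_⟩
  rw [opp, List.getD_eq_getElem _ _ hi, h]

theorem bd3_ne {t : Finset ℕ} (ht : t.card = 3) {x : ℕ} (hx : x ∈ t) : bd3 t (t.erase x) ≠ 0 := by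
  obtain ⟨i, hi, h⟩ := exists_opp hx
  have h01 : opp t 0 ≠ opp t 1 := fun e => by simpa using opp_inj (by omega) (by omega) e
  have h02 : opp t 0 ≠ opp t 2 := fun e => by simpa using opp_inj (by omega) (by omega) e
  have h12 : opp t 1 ≠ opp t 2 := fun e => by simpa using opp_inj (by omega) (by omega) e
  rw [← h, bd3]
  simp only [Finsupp.coe_add, Finsupp.coe_sub, Pi.add_apply, Pi.sub_apply, sg,
    Finsupp.single_apply]
  have h3 : i = 0 ∨ i = 1 ∨ i = 2 := by omega
  rcases h3 with rfl | rfl | rfl
  · simp [h01.symm, h02.symm]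
  · simp [h01, h12.symm]
  · simp [h02, h12]

theorem bd3_eq_zero {t F : Finset ℕ} (h : ¬ F ⊆ t) : bd3 t F = 0 := by
  have h1 : ∀ i, opp t i ≠ F := fun i e => h (e ▸ opp_subset t i)
  simp [bd3, sg, h1]

/-- a collapsible two-dimensional complex has no cycles of dimension two -/
theorem Bld.cyc {A : Finset (Finset ℕ)} (h : Bld A) (h3 : ∀ c ∈ A, c.card ≤ 3) (v : M)
    (hv : ∀ t, v t ≠ 0 → t ∈ A ∧ t.card = 3) (hD : D v = 0) : v = 0 := by
  induction h with
  | point p =>
    ext t
    by_contra hne
    obtain ⟨h1, h2⟩ := hv t hne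
    simp only [Finset.mem_insert, Finset.mem_singleton] at h1
    rcases h1 with rfl | rfl <;> simp at h2
  | step A F x h hx ne hF hy ih =>
    have hAi : ∀ c ∈ A, c ∈ insert F (insert (insert x F) A) := fun c hc =>
      Finset.mem_insert_of_mem (Finset.mem_insert_of_mem hc)
    refine ih (fun c hc => h3 c (hAi c hc)) ?_
    intro t ht
    obtain ⟨h1, h2⟩ := hv t ht
    refine ⟨?_, h2⟩
    have hE3 : (insert x F).card ≤ 3 := h3 _ (by simp)
    rw [Finset.card_insert_of_notMem hx] at hE3
    rcases Finset.mem_insert.1 h1 with rfl | h1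
    · omega
    rcases Finset.mem_insert.1 h1 with rfl | h1
    · exfalso
      have e1 : D v F = v (insert x F) * bd3 (insert x F) F := by
        rw [D, Finsupp.linearCombination_apply, Finsupp.sum, Finsupp.finsetSum_apply]
        rw [Finset.sum_eq_single (insert x F)]
        · simp
        · intro t ht' hne
          obtain ⟨g1, g2⟩ := hv t (Finsupp.mem_support_iff.1 ht')
          have g3 : t ∈ A := by
            rcases Finset.mem_insert.1 g1 with rfl | g1
            · omega
            · rcases Finset.mem_insert.1 g1 with rfl | g1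
              · exact absurd rfl hne
              · exact g1
          have g4 : bd3 t F = 0 := bd3_eq_zero fun hs => hF (h.isCx.2 t g3 F hs)
          simp [g4]
        · intro hn
          exact absurd (Finsupp.mem_support_iff.2 ht) hn
      rw [hD, Finsupp.coe_zero, Pi.zero_apply] at e1
      have e2 : bd3 (insert x F) F ≠ 0 := by
        have := bd3_ne h2 (Finset.mem_insert_self x F)
        rwa [Finset.erase_insert hx] at this
      rcases mul_eq_zero.1 e1.symm with e3 | e3
      · exact ht e3
      · exact e2 e3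
    · exact h1

/-- elimination -/
theorem elim {R' : Submodule ℤ M} {T : Set (Finset ℕ)} (hT : ∀ t ∈ T, sg t ∈ R') (j : ℕ → Finset ℕ)
    (n : ℕ) (hm : ∀ k < n, ∃ m ∈ R', (∀ t, m t ≠ 0 → t ∈ T ∨ ∃ l ≤ k, t = j l) ∧
      (m (j k) = 1 ∨ m (j k) = -1)) : ∀ k < n, sg (j k) ∈ R' := by
  intro k
  induction k using Nat.strong_induction_on with
  | _ k ih =>
    intro hk
    obtain ⟨m, hm1, hm2, hm3⟩ := hm k hk
    have hsum : m = ∑ t ∈ m.support, m t • sg t := by
      conv_lhs => rw [← Finsupp.sum_single m]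
      rw [Finsupp.sum]
      refine Finset.sum_congr rfl fun t _ => ?_
      rw [sg, Finsupp.smul_single, smul_eq_mul, mul_one]
    have hjk : j k ∈ m.support := by
      rw [Finsupp.mem_support_iff]
      rcases hm3 with h | h <;> rw [h] <;> norm_num
    have hrest : ∑ t ∈ m.support.erase (j k), m t • sg t ∈ R' := by
      refine Submodule.sum_mem _ fun t ht => Submodule.smul_mem _ _ ?_
      obtain ⟨h1, h2⟩ := Finset.mem_erase.1 ht
      rcases hm2 t (Finsupp.mem_support_iff.1 h2) with h3 | ⟨l, hl, rfl⟩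
      · exact hT t h3
      · have hlk : l ≠ k := fun e => h1 (by rw [e])
        exact ih l (by omega) (by omega)
    have hmain : m (j k) • sg (j k) ∈ R' := by
      have e := Finset.add_sum_erase m.support (fun t => m t • sg t) hjk
      rw [← hsum] at e
      have : m (j k) • sg (j k) = m - ∑ t ∈ m.support.erase (j k), m t • sg t := by
        rw [eq_sub_iff_add_eq]; exact e
      rw [this]
      exact Submodule.sub_mem _ hm1 hrest
    rcases hm3 with h | h
    · rwa [h, one_smul] at hmain
    · rw [h, neg_smul, one_smul] at hmain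
      simpa using Submodule.neg_mem _ hmain

end Pool.Agent.DF302A.Orb
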