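import Pool.Agent.Work.MP_df302a_co.VBase
import Pool.Agent.Work.MP_df302a_co.OrbB
import Pool.Agent.Work.MP_df302a_co.Rep

/-! # MP_df302a_co : the action of permutations of ten points on the codes of vectors.

A vertex is coded by `t * 4 ^ 10 + ∑ i, v i * 4 ^ i` with `v : Fin 10 → Fin 4` and a type `t < 16`.
-/

set_option autoImplicit false

namespace Pool.Agent.DF302A

open Finset Pool.Agent.DF302A.Orb

/-- the vector of a code -/
def dv (a : ℕ) : Fin 10 → Fin 4 := fun i => ⟨a / 4 ^ (i : ℕ) % 4, Nat.mod_lt _ (by norm_num)⟩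

/-- the type of a code -/
def ty (a : ℕ) : ℕ := a / 1048576

/-- the code of a vector -/
def cd (v : Fin 10 → Fin 4) : ℕ := ∑ i, (v i : ℕ) * 4 ^ (i : ℕ)

theorem cd_lt (v : Fin 10 → Fin 4) : cd v < 1048576 := by
  have h := (finFunctionFinEquiv v).2
  rw [finFunctionFinEquiv_apply] at h
  exact lt_of_lt_of_eq h (by norm_num)

theorem dv_cd' (v : Fin 10 → Fin 4) (i : Fin 10) : cd v / 4 ^ (i : ℕ) % 4 = v i := by
  have h := congrFun (finFunctionFinEquiv.symm_apply_apply v) i
  have h2 := congrArg Fin.val h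
  rw [← h2]
  rfl

theorem dv_mk (t : ℕ) (v : Fin 10 → Fin 4) : dv (t * 1048576 + cd v) = v := by
  funext i
  apply Fin.ext
  rw [← dv_cd' v i]
  show (t * 1048576 + cd v) / 4 ^ (i : ℕ) % 4 = _
  have e : t * 1048576 = 4 ^ (i : ℕ) * (4 * (t * 4 ^ (9 - (i : ℕ)))) := by
    have h : 4 ^ (i : ℕ) * (4 * 4 ^ (9 - (i : ℕ))) = 1048576 := by
      have hi : (i : ℕ) ≤ 9 := by have := i.2; omega
      rw [show (4 : ℕ) * 4 ^ (9 - (i : ℕ)) = 4 ^ (1 + (9 - (i : ℕ))) by rw [pow_add, pow_one],
        ← pow_add, show (i : ℕ) + (1 + (9 - (i : ℕ))) = 10 by omega]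
      norm_num
    rw [← h]; ring
  rw [e, Nat.mul_add_div (by positivity), Nat.mul_add_mod]

theorem cd_dv (a : ℕ) : cd (dv a) = a % 1048576 := by
  have h := finFunctionFinEquiv.apply_symm_apply
    (⟨a % 1048576, lt_of_lt_of_eq (Nat.mod_lt _ (by norm_num)) (by norm_num)⟩ : Fin (4 ^ 10))
  have h2 := congrArg Fin.val h
  rw [finFunctionFinEquiv_apply] at h2
  refine Eq.trans ?_ h2
  unfold cd
  refine Finset.sum_congr rfl fun i _ => ?_
  congr 1
  show a / 4 ^ (i : ℕ) % 4 = (a % 1048576) / 4 ^ (i : ℕ) % 4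
  have hi : (i : ℕ) ≤ 9 := by have := i.2; omega
  have h3 : (1048576 : ℕ) = 4 ^ (i : ℕ) * (4 * 4 ^ (9 - (i : ℕ))) := by
    rw [show (4 : ℕ) * 4 ^ (9 - (i : ℕ)) = 4 ^ (1 + (9 - (i : ℕ))) by rw [pow_add, pow_one],
      ← pow_add, show (i : ℕ) + (1 + (9 - (i : ℕ))) = 10 by omega]
    norm_num
  rw [h3, Nat.mod_mul_right_div_self, Nat.mod_mul_right_mod]

theorem ty_mk (t : ℕ) (v : Fin 10 → Fin 4) : ty (t * 1048576 + cd v) = t := by
  have := cd_lt v
  unfold ty
  omega

theorem ty_cd (a : ℕ) : ty a * 1048576 + cd (dv a) = a := by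
  rw [cd_dv, ty]
  omega

theorem code_ext {a b : ℕ} (h1 : ty a = ty b) (h2 : dv a = dv b) : a = b := by
  rw [← ty_cd a, ← ty_cd b, h1, h2]

/-- permutations of the ten points act on codes -/
def mact (g : Equiv.Perm (Fin 10)) (a : ℕ) : ℕ := ty a * 1048576 + cd (fun i => dv a (g⁻¹ i))

theorem ty_mact (g : Equiv.Perm (Fin 10)) (a : ℕ) : ty (mact g a) = ty a := ty_mk _ _

theorem dv_mact (g : Equiv.Perm (Fin 10)) (a : ℕ) : dv (mact g a) = fun i => dv a (g⁻¹ i) :=
  dv_mk _ _

theorem lt_ty {a : ℕ} : a < 16777216 ↔ ty a < 16 := by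
  unfold ty
  omega

theorem mact_lt (g : Equiv.Perm (Fin 10)) {a : ℕ} (h : a < 16777216) : mact g a < 16777216 := by
  rw [lt_ty, ty_mact, ← lt_ty]
  exact h

theorem mact_one (a : ℕ) : mact 1 a = a := by
  refine code_ext (ty_mact _ _) ?_
  rw [dv_mact]
  rfl

theorem mact_mul (g k : Equiv.Perm (Fin 10)) (a : ℕ) : mact (g * k) a = mact g (mact k a) := by
  refine code_ext ?_ ?_
  · rw [ty_mact, ty_mact, ty_mact]
  · rw [dv_mact, dv_mact, dv_mact, mul_inv_rev]
    rfl

theorem mact_lt_mact (g : Equiv.Perm (Fin 10)) {a b : ℕ} (h : ty a < ty b) :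
    mact g a < mact g b := by
  have h1 := cd_lt (fun i => dv a (g⁻¹ i))
  unfold mact
  have h2 : (ty a + 1) * 1048576 ≤ ty b * 1048576 := Nat.mul_le_mul_right _ h
  rw [add_mul] at h2
  omega

theorem lt_of_ty {a b : ℕ} (h : ty a < ty b) : a < b := by
  unfold ty at h
  omega

noncomputable instance : Fintype M10 := Fintype.ofFinite _

/-- the free vertices -/
noncomputable def yn (g : M10) : ℕ := 16777216 + (Fintype.equivFin M10 g : ℕ)

/-- the action of `M10` on the vertices: codes `< 2 ^ 24`, free vertices `yn g` -/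
noncomputable def vact (g : M10) (v : ℕ) : ℕ :=
  if v < 16777216 then mact g v
  else if h : v - 16777216 < Fintype.card M10 then
    yn (g * (Fintype.equivFin M10).symm ⟨v - 16777216, h⟩)
  else v

theorem vact_lt (g : M10) {v : ℕ} (h : v < 16777216) : vact g v = mact g v := if_pos h

theorem yn_ge (g : M10) : 16777216 ≤ yn g := Nat.le_add_right _ _

theorem yn_not (g : M10) : ¬ yn g < 16777216 := not_lt.2 (yn_ge g)

theorem vact_yn (g k : M10) : vact g (yn k) = yn (g * k) := by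
  have h1 : ¬ yn k < 16777216 := yn_not k
  have h2 : yn k - 16777216 = (Fintype.equivFin M10 k : ℕ) := Nat.add_sub_cancel_left _ _
  have h3 : yn k - 16777216 < Fintype.card M10 := by rw [h2]; exact (Fintype.equivFin M10 k).2
  have h4 : (Fintype.equivFin M10).symm ⟨yn k - 16777216, h3⟩ = k := by
    rw [Equiv.symm_apply_eq]
    exact Fin.ext h2
  rw [vact, if_neg h1, dif_pos h3, h4]

theorem vact_ge (g : M10) {v : ℕ} (h1 : ¬ v < 16777216)
    (h : ¬ v - 16777216 < Fintype.card M10) : vact g v = v := by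
  rw [vact, if_neg h1, dif_neg h]

theorem exists_yn {v : ℕ} (h1 : ¬ v < 16777216) (h : v - 16777216 < Fintype.card M10) :
    ∃ k, v = yn k := by
  refine ⟨(Fintype.equivFin M10).symm ⟨v - 16777216, h⟩, ?_⟩
  simp only [yn, Equiv.apply_symm_apply]
  omega

noncomputable instance actM10 : MulAction M10 ℕ where
  smul g v := vact g v
  one_smul v := by
    show vact 1 v = v
    by_cases h1 : v < 16777216
    · rw [vact_lt _ h1]; exact mact_one v
    · by_cases h2 : v - 16777216 < Fintype.card M10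
      · obtain ⟨k, rfl⟩ := exists_yn h1 h2
        rw [vact_yn, one_mul]
      · exact vact_ge _ h1 h2
  mul_smul g k v := by
    show vact (g * k) v = vact g (vact k v)
    by_cases h1 : v < 16777216
    · rw [vact_lt _ h1, vact_lt _ h1, vact_lt _ (mact_lt _ h1)]
      exact mact_mul _ _ _
    · by_cases h2 : v - 16777216 < Fintype.card M10
      · obtain ⟨l, rfl⟩ := exists_yn h1 h2
        rw [vact_yn, vact_yn, vact_yn, mul_assoc]
      · rw [vact_ge _ h1 h2, vact_ge _ h1 h2, vact_ge _ h1 h2]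

theorem smul_lt {g : M10} {v : ℕ} (h : v < 16777216) : g • v = mact g v := vact_lt g h

theorem smul_yn (g k : M10) : g • yn k = yn (g * k) := vact_yn g k

theorem yn_inj : Function.Injective yn := by
  intro a b h
  unfold yn at h
  exact (Fintype.equivFin M10).injective (Fin.ext (Nat.add_left_cancel h))

theorem smul_lt' {g : M10} {v : ℕ} (h : v < 16777216) : g • v < 16777216 := by
  rw [smul_lt h]; exact mact_lt _ h

theorem dv_smul {g : M10} {v : ℕ} (h : v < 16777216) :
    dv (g • v) = fun i => dv v ((g : Equiv.Perm (Fin 10))⁻¹ i) := by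
  rw [smul_lt h, dv_mact]

theorem ty_smul {g : M10} {v : ℕ} (h : v < 16777216) : ty (g • v) = ty v := by
  rw [smul_lt h, ty_mact]

theorem smul_lt_smul {g : M10} {a b : ℕ} (hb : b < 16777216) (h : ty a < ty b) :
    g • a < g • b := by
  rw [smul_lt hb, smul_lt ((lt_of_ty h).trans hb)]
  exact mact_lt_mact _ h

end Pool.Agent.DF302A
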