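import Pool.Agent.Work.MP_df302a_co.ConeD
import Pool.Agent.Work.MP_df302a_co.VecA

/-! # MP_df302a_co : positions of the codes of vectors. -/

set_option autoImplicit false
set_option linter.unusedSectionVars false

namespace Pool.Agent.DF302A

open Finset Module Pool.Agent.DF302A.Orb

/-- codes of vectors -/
def V24 : Type := {a : ℕ // a < 16777216}

/-- the number -/
def V24.n (a : V24) : ℕ := a.1

theorem V24.lt (a : V24) : a.n < 16777216 := a.2

theorem V24.n_inj : Function.Injective V24.n := Subtype.val_injective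

instance : DecidableEq V24 := inferInstanceAs (DecidableEq {a : ℕ // a < 16777216})

noncomputable instance : Fintype V24 :=
  Fintype.ofInjective (fun a : V24 => (⟨a.n, a.lt⟩ : Fin 16777216))
    (fun _ _ h => V24.n_inj (congrArg Fin.val h))

/-- the action of the group -/
noncomputable instance : MulAction M10 V24 where
  smul g a := ⟨g • a.n, smul_lt' a.lt⟩
  one_smul a := Subtype.ext (one_smul M10 a.n)
  mul_smul g k a := Subtype.ext (mul_smul g k a.n)

theorem V24.smul_n (g : M10) (a : V24) : (g • a).n = g • a.n := rfl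

/-- the position: class of the vector -/
noncomputable def p24 (a : V24) : W10 := oneL.mkQ (fun i => ((dv a.n i : ℕ) : ℝ))

theorem p24_smul (g : M10) (a : V24) : p24 (g • a) = FV.rho g (p24 a) := by
  show _ = rhoW (g : Equiv.Perm (Fin 10)) (p24 a)
  unfold p24
  rw [rhoW_mk, V24.smul_n, dv_smul a.lt]

/-- the first free vertex -/
noncomputable def y24 : ℕ := yn 1

theorem smul_y24 (g : M10) : g • y24 = yn g := by rw [y24, smul_yn, mul_one]

theorem y24_free {g : M10} (h : g • y24 = y24) : g = 1 := by
  rw [smul_y24] at h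
  exact yn_inj h

section
variable {L S : Finset (Finset ℕ)}

theorem dic24 (h : ∀ c ∈ L, ∀ v ∈ c, v < 16777216) : FV.Dic V24.n y24 L where
  inj := V24.n_inj
  eqv := V24.smul_n
  ne v g e := by
    rw [smul_y24] at e
    have h1 := v.lt
    have h2 := yn_ge g
    omega
  free _ hg := y24_free hg
  range c hc v hv := ⟨⟨v, h c hc v hv⟩, rfl⟩

theorem above24 (h : ∀ c ∈ L, ∀ v ∈ c, v < 16777216) : Above M10 L y24 where
  lt c hc v hv g := by
    rw [smul_y24]
    exact lt_of_lt_of_le (h c hc v hv) (yn_ge g)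
  free _ hg := y24_free hg

/-- all the data on the complex `L` and its subcomplex `S`, on the level of natural numbers -/
theorem data24 (hcx : IsCx (L : Set (Finset ℕ))) (hinv : ∀ g : M10, ∀ c ∈ L, im g c ∈ L)
    (h3 : ∀ c ∈ L, c.card ≤ 3) (hcS : IsCx (S : Set (Finset ℕ))) (hS : S ⊆ L)
    (h : ∀ c ∈ L, ∀ v ∈ c, v < 16777216)
    (hinj : Set.InjOn (fun t => linP p24 t) (cone (FV.pre V24.n L)))
    (hmv : ∀ g : M10, g ≠ 1 → ∀ c ∈ FV.pre V24.n S, ∀ c' ∈ FV.pre V24.n S,
      ∃ w, FV.rho g w - w ∉
        Submodule.span ℝ (p24 '' (c ∪ c'.image (fun v => g • v) : Finset V24))) :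
    FV.Data p24 (FV.pre V24.n L) (FV.pre V24.n S) where
  eqv := p24_smul
  inj := hinj
  cxL := FV.pre_isCx hcx
  inv g c hc := by
    show (c.image (fun v => g • v)).image V24.n ∈ L
    rw [(dic24 h).image_smul]
    exact hinv g _ hc
  card c hc := by
    rw [← Finset.card_image_of_injective c V24.n_inj]
    exact h3 _ hc
  SL c hc := hS hc
  cxS := FV.pre_isCx hcS
  hinv := hmv

end

end Pool.Agent.DF302A
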