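import Pool.Agent.Work.MP_df302a_co.OrbB

/-! # MP_df302a_co : generation of the two-cycles by the translates of one cycle, from one cochain. -/

set_option autoImplicit false

namespace Pool.Agent.DF302A.Orb

open Finset Pool.Agent.DF302A.PI

/-- on a collapsible two-dimensional complex every cochain is a coboundary -/
theorem Bld.solve {A : Finset (Finset ℕ)} (h : Bld A) (h3 : ∀ c ∈ A, c.card ≤ 3)
    (θ : Finset ℕ → ℤ) :
    ∃ α : Finset ℕ → ℤ, ∀ t ∈ A, t.card = 3 → α (opp t 0) - α (opp t 1) + α (opp t 2) = θ t := by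
  induction h with
  | point p =>
    refine ⟨0, fun t ht h3 => ?_⟩
    exfalso
    simp only [Finset.mem_insert, Finset.mem_singleton] at ht
    rcases ht with rfl | rfl <;> simp at h3
  | step A F x h hx ne hF hy ih =>
    have hAi : ∀ c ∈ A, c ∈ insert F (insert (insert x F) A) := fun c hc =>
      Finset.mem_insert_of_mem (Finset.mem_insert_of_mem hc)
    obtain ⟨α, hα⟩ := ih fun c hc => h3 c (hAi c hc)
    have hE3 : (insert x F).card ≤ 3 := h3 _ (by simp)
    have hEc := Finset.card_insert_of_notMem hx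
    by_cases hE : (insert x F).card = 3
    · obtain ⟨i, hi, hiF⟩ := exists_opp (t := insert x F) (Finset.mem_insert_self x F)
      rw [Finset.erase_insert hx] at hiF
      have hi3 : i < 3 := by rw [← hE]; exact hi
      set E := insert x F with hEdef
      let s : ℤ := θ E - (α (opp E 0) - α (opp E 1) + α (opp E 2))
      let ε : ℤ := if i = 1 then -1 else 1
      refine ⟨Function.update α F (α F + ε * s), fun t ht htc => ?_⟩
      have hnew : ∀ j, j < 3 → j ≠ i → Function.update α F (α F + ε * s) (opp E j) = α (opp E j) := by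
        intro j hj hne
        rw [Function.update_of_ne]
        intro e
        exact hne (opp_inj (by omega) (by omega) (e.trans hiF.symm))
      have hold : ∀ t ∈ A, ∀ j, Function.update α F (α F + ε * s) (opp t j) = α (opp t j) := by
        intro t ht j
        rw [Function.update_of_ne]
        intro e
        exact hF (e ▸ h.isCx.2 t ht _ (opp_subset t j))
      rcases Finset.mem_insert.1 ht with rfl | ht
      · omega
      rcases Finset.mem_insert.1 ht with rfl | ht
      · have h4 : i = 0 ∨ i = 1 ∨ i = 2 := by omega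
        rcases h4 with rfl | rfl | rfl
        · rw [hnew 1 (by norm_num) (by norm_num), hnew 2 (by norm_num) (by norm_num), hiF,
            Function.update_self]
          simp only [ε, s, hiF]
          norm_num; ring
        · rw [hnew 0 (by norm_num) (by norm_num), hnew 2 (by norm_num) (by norm_num), hiF,
            Function.update_self]
          simp only [ε, s, hiF]
          norm_num; ring
        · rw [hnew 0 (by norm_num) (by norm_num), hnew 1 (by norm_num) (by norm_num), hiF,
            Function.update_self]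
          simp only [ε, s, hiF]
          norm_num; ring
      · rw [hold t ht, hold t ht, hold t ht]
        exact hα t ht htc
    · refine ⟨α, fun t ht htc => ?_⟩
      rcases Finset.mem_insert.1 ht with rfl | ht
      · omega
      rcases Finset.mem_insert.1 ht with rfl | ht
      · exact absurd htc hE
      · exact hα t ht htc

theorem M_eq_sum (m : M) : m = ∑ t ∈ m.support, m t • sg t := by
  conv_lhs => rw [← Finsupp.sum_single m]
  rw [Finsupp.sum]
  refine Finset.sum_congr rfl fun t _ => ?_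
  rw [sg, Finsupp.smul_single, smul_eq_mul, mul_one]

theorem M_eq_sum' {m : M} {T : Finset (Finset ℕ)} (hm : ∀ t, m t ≠ 0 → t ∈ T) :
    m = ∑ t ∈ T, m t • sg t := by
  conv_lhs => rw [M_eq_sum m]
  refine Finset.sum_subset (fun t ht => hm t (Finsupp.mem_support_iff.1 ht)) ?_
  intro t _ ht
  rw [Finsupp.notMem_support_iff.1 ht, zero_smul]

section
variable {G : Type*} [Group G] [MulAction G ℕ]

theorem mg_apply (g : G) (m : M) (t : Finset ℕ) : mg g m (im g t) = m t := by
  rw [mg, Finsupp.lmapDomain_apply, Finsupp.mapDomain_apply (im_inj g)]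

theorem mg_ne {g : G} {m : M} {t : Finset ℕ} (h : mg g m t ≠ 0) : ∃ t', m t' ≠ 0 ∧ t = im g t' := by
  refine ⟨im g⁻¹ t, ?_, (im_im_inv g t).symm⟩
  rwa [← mg_apply g, im_im_inv]

theorem mg_bd3 {g : G} {t : Finset ℕ} (h : Ord G t) (hc : t.card = 3) :
    mg g (bd3 t) = bd3 (im g t) := by
  simp only [bd3, map_add, map_sub, mg_sg]
  rw [opp_im h g 0 (by omega), opp_im h g 1 (by omega), opp_im h g 2 (by omega)]

theorem D_mg {g : G} {v : M} (hv : ∀ t, v t ≠ 0 → Ord G t ∧ t.card = 3) :
    D (mg g v) = mg g (D v) := by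
  rw [M_eq_sum v]
  simp only [map_sum, map_smul, mg_sg, D_sg]
  refine Finset.sum_congr rfl fun t ht => ?_
  obtain ⟨h1, h2⟩ := hv t (Finsupp.mem_support_iff.1 ht)
  rw [mg_bd3 h1 h2]

theorem hgen_of_phi [Fintype G] {L A₀ : Finset (Finset ℕ)} (S : St G L A₀ (Fintype.card G))
    (hL3 : ∀ c ∈ L, c.card ≤ 3) (hA : Bld A₀) (z : M) (hz : ∀ t, z t ≠ 0 → t ∈ tris L)
    (hD : D z = 0) (φ : M →ₗ[ℤ] ℤ) (h1 : φ z = 1) (h0 : ∀ g : G, g ≠ 1 → φ (mg g z) = 0)
    (R' : Submodule ℤ M) (hR : ∀ g : G, mg g z ∈ R') (hRA : ∀ t ∈ tris A₀, sg t ∈ R') :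
    ∀ t ∈ tris L, sg t ∈ R' := by
  classical
  -- correction of the translates of the cochain
  have hsol : ∀ h : G, ∃ P : M →ₗ[ℤ] ℤ, (∀ t ∈ tris A₀, P (sg t) = 0) ∧
      ∀ g : G, P (mg g z) = if g = h then 1 else 0 := by
    intro h
    obtain ⟨α, hα⟩ := hA.solve S.A3 (fun t => φ (mg h⁻¹ (sg t)))
    refine ⟨φ ∘ₗ mg h⁻¹ - Finsupp.linearCombination ℤ α ∘ₗ D, ?_, ?_⟩
    · intro t ht
      obtain ⟨ht1, ht2⟩ := mem_tris.1 ht
      have h2 := hα t ht1 ht2
      rw [LinearMap.sub_apply, LinearMap.comp_apply, LinearMap.comp_apply, D_sg, bd3, ← h2]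
      simp [sg]
    · intro g
      have h3 : D (mg g z) = 0 := by
        rw [D_mg, hD, map_zero]
        intro t ht
        obtain ⟨e1, e2⟩ := mem_tris.1 (hz t ht)
        exact ⟨S.ord t e1, e2⟩
      rw [LinearMap.sub_apply, LinearMap.comp_apply, LinearMap.comp_apply, h3, map_zero, sub_zero,
        mg_mul]
      split_ifs with hgh
      · rw [hgh, inv_mul_cancel, mg_one, h1]
      · refine h0 _ fun e => hgh ?_
        rw [inv_mul_eq_one] at e
        exact e.symm
  choose P hP0 hP using hsol
  -- the supports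
  have hzL : ∀ g : G, ∀ t, mg g z t ≠ 0 → t ∈ tris L := by
    intro g t ht
    obtain ⟨t', h2, rfl⟩ := mg_ne ht
    obtain ⟨e1, e2⟩ := mem_tris.1 (hz t' h2)
    exact mem_tris.2 ⟨S.inv g t' e1, by rw [card_im]; exact e2⟩
  have hAL : tris A₀ ⊆ tris L := fun t ht =>
    mem_tris.2 ⟨S.sub (mem_tris.1 ht).1, (mem_tris.1 ht).2⟩
  set J : Finset (Finset ℕ) := tris L \ tris A₀ with hJ
  have hJL : J ⊆ tris L := Finset.sdiff_subset
  have hcard : Fintype.card G = Fintype.card J := by
    have h2 := S.cnt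
    have h3 : tets L = ∅ := by
      rw [Finset.eq_empty_iff_forall_notMem]
      intro c hc
      have h4 := hL3 c (mem_tets.1 hc).1
      have h5 := (mem_tets.1 hc).2
      omega
    rw [h3, Finset.card_empty] at h2
    rw [Fintype.card_coe, hJ, Finset.card_sdiff_of_subset hAL]
    omega
  let Mx : Matrix G J ℤ := fun g t => mg g z t.1
  let Px : Matrix J G ℤ := fun t h => P h (sg t.1)
  have hMP : Mx * Px = 1 := by
    ext g h
    rw [Matrix.mul_apply, Matrix.one_apply, ← hP h g]
    have h2 : P h (mg g z) = ∑ t ∈ tris L, mg g z t * P h (sg t) := by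
      conv_lhs => rw [M_eq_sum' (hzL g)]
      rw [map_sum]
      exact Finset.sum_congr rfl fun t _ => by rw [map_smul, smul_eq_mul]
    rw [h2, ← Finset.sum_sdiff hAL, Finset.sum_eq_zero (s := tris A₀) fun t ht => by
      rw [hP0 h t ht, mul_zero], add_zero]
    exact (Finset.sum_coe_sort J (fun t => mg g z t * P h (sg t))).symm ▸ rfl
  have hPM : Px * Mx = 1 := (Matrix.mul_eq_one_comm_of_card_eq G J ℤ hcard).1 hMP
  intro t ht
  by_cases htA : t ∈ tris A₀
  · exact hRA t htA
  have htJ : t ∈ J := Finset.mem_sdiff.2 ⟨ht, htA⟩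
  set w : M := ∑ g : G, P g (sg t) • mg g z with hw
  have hwR : w ∈ R' := Submodule.sum_mem _ fun g _ => Submodule.smul_mem _ _ (hR g)
  have hwL : ∀ t', w t' ≠ 0 → t' ∈ tris L := by
    intro t' ht'
    by_contra hn
    apply ht'
    rw [hw, Finsupp.finsetSum_apply]
    refine Finset.sum_eq_zero fun g _ => ?_
    rw [Finsupp.smul_apply, smul_eq_mul]
    by_cases h2 : mg g z t' = 0
    · rw [h2, mul_zero]
    · exact absurd (hzL g t' h2) hn
  have hwJ : ∀ t' ∈ J, w t' = if t = t' then 1 else 0 := by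
    intro t' ht'
    have h2 := congrFun (congrFun hPM ⟨t, htJ⟩) ⟨t', ht'⟩
    rw [Matrix.mul_apply, Matrix.one_apply] at h2
    rw [hw, Finsupp.finsetSum_apply]
    simp only [Finsupp.smul_apply, smul_eq_mul]
    rw [show (∑ g : G, P g (sg t) * mg g z t') = ∑ g : G, Px ⟨t, htJ⟩ g * Mx g ⟨t', ht'⟩ from rfl, h2]
    simp only [Subtype.mk.injEq]
  have hfin : w = sg t + ∑ t' ∈ tris A₀, w t' • sg t' := by
    conv_lhs => rw [M_eq_sum' hwL]
    rw [← Finset.sum_sdiff hAL]
    congr 1
    rw [Finset.sum_eq_single t]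
    · rw [hwJ t htJ, if_pos rfl, one_smul]
    · intro t' ht' hne
      rw [hwJ t' ht', if_neg hne.symm, zero_smul]
    · intro hn
      exact absurd htJ hn
  have : sg t = w - ∑ t' ∈ tris A₀, w t' • sg t' := by
    rw [eq_sub_iff_add_eq]
    exact hfin.symm
  rw [this]
  exact Submodule.sub_mem _ hwR
    (Submodule.sum_mem _ fun t' ht' => Submodule.smul_mem _ _ (hRA t' ht'))

end

end Pool.Agent.DF302A.Orb
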