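import Pool.Agent.Work.MP_df302a_co.SMax
import Pool.Agent.Work.MP_df302a_co.PhiK
import Pool.Agent.Work.MP_df302a_co.FreeN
import Pool.Agent.Work.MP_df302a_co.Tabs

/-! # MP_df302a_co : the homological data of the three-dimensional complex. -/

set_option autoImplicit false

namespace Pool.Agent.DF302A

open Finset Pool.Agent.DF302A.Orb Pool.Agent.DF302A.PI

theorem zcard : Fintype.card M10 = 720 := by
  rw [← Nat.card_eq_fintype_card]
  exact HI.card_M10

theorem zSt : St M10 zL (LK zVT zRT 6001) (Fintype.card M10) := by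
  rw [zcard]
  exact zLV.st zIVV

/-- all the hypotheses of part (I) for the complex `L ∪ G (y * S)` -/
theorem zcone (hφ : ∃ φ : M →ₗ[ℤ] ℤ, φ (zc zVT zRT zP zN) = 1 ∧
    ∀ g : M10, g ≠ 1 → φ (mg g (zc zVT zRT zP zN)) = 0) :
    ∃ A, LK zVT zRT 6001 ⊆ A ∧ KData (CK M10 zL zS y24) A ∧
      (relI (CK M10 zL zS y24) A).card = (tris (CK M10 zL zS y24)).card ∧
      Submodule.span ℤ (Set.range fun (i : relI (CK M10 zL zS y24) A) =>
        (fun t : tris (CK M10 zL zS y24) => relV i.1 t.1)) = ⊤ := by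
  obtain ⟨φ, h1, h0⟩ := hφ
  obtain ⟨g1, g2, g3, g4, g5, g6⟩ := zSV.main zLV
  have hsup := fun t h => zZV.supp zLV zSV t h
  refine coneK zSt zL_card (above24 zL_lt) g1 g2 g3 g4 g5 g6 hsup (zZV.cycle zLV zSV)
    (fun R' hR hRA => ?_)
  refine hgen_of_phi zSt zL_card (zLV.bld 3000 le_rfl) (zc zVT zRT zP zN) (fun t ht => ?_)
    (zZV.cycle zLV zSV) φ h1 h0 R' hR hRA
  obtain ⟨h2, h3⟩ := hsup t ht
  exact mem_tris.2 ⟨zS_sub h2, h3⟩

end Pool.Agent.DF302A
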