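import Mathlib

/-! # MP_df302a_co : definitions (piecewise linear maps, cones of complexes, polytopes). -/

namespace Pool.Agent.DF302A

open Finset

section PL
variable {E F : Type*} [AddCommGroup E] [Module ℝ E] [AddCommGroup F] [Module ℝ F]

/-- A (positively homogeneous) piecewise linear function: the maximum of finitely many linear
functionals minus the maximum of finitely many linear functionals. -/
def IsPL (f : E → ℝ) : Prop :=
  ∃ (A B : Finset (E →ₗ[ℝ] ℝ)) (hA : A.Nonempty) (hB : B.Nonempty),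
    ∀ y, f y = A.sup' hA (fun a => a y) - B.sup' hB (fun b => b y)

/-- A piecewise linear map. -/
def PLMap (T : E → F) : Prop := ∀ l : F →ₗ[ℝ] ℝ, IsPL (fun y => l (T y))

end PL

section Cx
variable {X : Type*} [Fintype X] [DecidableEq X]

/-- The cone of a simplicial complex `Q` with vertices in `X`. -/
def cone (Q : Set (Finset X)) : Set (X → ℝ) :=
  {t | (∀ x, 0 ≤ t x) ∧ ∃ σ ∈ Q, ∀ x, x ∉ σ → t x = 0}

/-- A simplicial complex, as a down closed set of finite sets containing the empty set. -/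
def IsCx (Q : Set (Finset X)) : Prop := ∅ ∈ Q ∧ ∀ σ ∈ Q, ∀ τ, τ ⊆ σ → τ ∈ Q

/-- The cone of `Q` is piecewise linearly homeomorphic to `ℝ^m`. -/
def Sph (Q : Set (Finset X)) (m : ℕ) : Prop :=
  ∃ (h : (X → ℝ) → (Fin m → ℝ)) (k : (Fin m → ℝ) → (X → ℝ)), PLMap h ∧ PLMap k ∧
    (∀ t ∈ cone Q, k (h t) = t) ∧ ∀ y, k y ∈ cone Q ∧ h (k y) = y

/-- In addition the function `∑ f x * t x` becomes a nonzero linear functional on `ℝ^m`. -/
def Coord (Q : Set (Finset X)) (f : X → ℝ) (m : ℕ) : Prop :=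
  ∃ (h : (X → ℝ) → (Fin m → ℝ)) (k : (Fin m → ℝ) → (X → ℝ)) (l : (Fin m → ℝ) →ₗ[ℝ] ℝ),
    PLMap h ∧ PLMap k ∧ (∀ t ∈ cone Q, k (h t) = t) ∧ (∀ y, k y ∈ cone Q ∧ h (k y) = y) ∧
    l ≠ 0 ∧ ∀ t ∈ cone Q, ∑ x, f x * t x = l (h t)

/-- link of a face -/
def lkF (Q : Set (Finset X)) (c : Finset X) : Set (Finset X) := {σ | Disjoint σ c ∧ σ ∪ c ∈ Q}

/-- join -/
def join (Q₁ Q₂ : Set (Finset X)) : Set (Finset X) := {σ | ∃ α ∈ Q₁, ∃ β ∈ Q₂, σ = α ∪ β}

/-- boundary of a simplex -/
def bd (I : Finset X) : Set (Finset X) := {σ | σ ⊂ I}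

end Cx

section Sd
variable {V : Type*} [Fintype V] [DecidableEq V]

/-- barycentric subdivision: chains of nonempty faces -/
def sd (Y : Set (Finset V)) : Set (Finset (Finset V)) :=
  {c | (∀ σ ∈ c, σ ∈ Y ∧ σ.Nonempty) ∧ IsChain (· ⊆ ·) (c : Set (Finset V))}

/-- all links of faces are spheres, and `only v negative` is a coordinate in all links -/
def Strong (Y : Set (Finset V)) (m : ℕ) : Prop :=
  IsCx Y ∧ ∀ c ∈ Y, c.card ≤ m ∧ Sph (lkF Y c) (m - c.card) ∧
    ∀ v, v ∉ c → insert v c ∈ Y → ∀ f : V → ℝ, f v < 0 →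
      (∀ w, w ∉ c → w ≠ v → insert w c ∈ Y → 0 < f w) → Coord (lkF Y c) f (m - c.card)

/-- collapsible subcomplexes, built from a point by elementary expansions -/
inductive Collap (Y : Set (Finset V)) : Set (Finset V) → Prop
  | point (v : V) (hv : {v} ∈ Y) : Collap Y {∅, {v}}
  | step (K : Set (Finset V)) (E : Finset V) (x : V) (hK : Collap Y K) (hE : E ∈ Y) (hx : x ∈ E)
      (h2 : 2 ≤ E.card) (hF : E.erase x ∉ K) (hy : ∀ y ∈ E, y ≠ x → E.erase y ∈ K) :
      Collap Y (insert (E.erase x) (insert E K))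

end Sd

section Poly

/-- convex d-polytope: convex hull of finitely many points with nonempty interior -/
def IsPolytope {d : ℕ} (P : Set (EuclideanSpace ℝ (Fin d))) : Prop :=
  (∃ s : Finset (EuclideanSpace ℝ (Fin d)), P = convexHull ℝ (s : Set _)) ∧ (interior P).Nonempty

/-- the face lattice: exposed faces, including the empty face and `P`, ordered by inclusion -/
abbrev Face {d : ℕ} (P : Set (EuclideanSpace ℝ (Fin d))) :=
  {F : Set (EuclideanSpace ℝ (Fin d)) // IsExposed ℝ P F}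

/-- the combinatorial automorphism group -/
abbrev CombAut {d : ℕ} (P : Set (EuclideanSpace ℝ (Fin d))) := Face P ≃o Face P

/-- the geometric symmetry group: affine bijections mapping `P` onto itself -/
def GeomSym {d : ℕ} (P : Set (EuclideanSpace ℝ (Fin d))) :
    Subgroup (EuclideanSpace ℝ (Fin d) ≃ᵃ[ℝ] EuclideanSpace ℝ (Fin d)) where
  carrier := {T | T '' P = P}
  mul_mem' := by
    intro a b ha hb
    simp only [Set.mem_ofPred_eq] at *
    rw [AffineEquiv.coe_mul, Set.image_comp, hb, ha]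
  one_mem' := by simp
  inv_mem' := by
    intro a ha
    simp only [Set.mem_ofPred_eq] at *
    conv_lhs => rw [← ha]
    rw [← Set.image_comp]
    have : (a⁻¹ : EuclideanSpace ℝ (Fin d) ≃ᵃ[ℝ] EuclideanSpace ℝ (Fin d)) ∘ a = id := by
      funext x
      simp [AffineEquiv.inv_def]
    rw [this, Set.image_id]

/-- convex polytope dimension of a group -/
noncomputable def cpd (Γ : Type) [Group Γ] : ℕ∞ :=
  sInf {n | ∃ d : ℕ, n = d ∧ ∃ P : Set (EuclideanSpace ℝ (Fin d)), IsPolytope P ∧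
    Nonempty (CombAut P ≃* Γ)}

/-- geometric convex polytope dimension of a group -/
noncomputable def gcpd (Γ : Type) [Group Γ] : ℕ∞ :=
  sInf {n | ∃ d : ℕ, n = d ∧ ∃ P : Set (EuclideanSpace ℝ (Fin d)), IsPolytope P ∧
    Nonempty (GeomSym P ≃* Γ)}

end Poly

end Pool.Agent.DF302A
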