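import Pool.Agent.Work.MP_df302a_co.VBase

/-! # MP_df302a_co : inner products as middle digits of products of natural numbers. -/

set_option autoImplicit false

namespace Pool.Agent.DF302A.EK

open Finset

/-! ### the functions evaluated by the kernel -/

/-- digit in base `4` -/
noncomputable def d4 (a i : ℕ) : ℕ := Nat.mod (Nat.div a (Nat.pow 4 i)) 4

/-- digit in base `65536` -/
noncomputable def dB (a i : ℕ) : ℕ := Nat.mod (Nat.div a (Nat.pow 65536 i)) 65536

/-- sum of the first `n` digits in base `4` -/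
noncomputable def w4 (a n : ℕ) : ℕ := Nat.rec 0 (fun i ih => Nat.add (d4 a i) ih) n

/-- the first `n` digits in base `4`, written in base `65536` -/
noncomputable def s4 (a n : ℕ) : ℕ :=
  Nat.rec 0 (fun i ih => Nat.add (Nat.mul (d4 a i) (Nat.pow 65536 i)) ih) n

/-- the spread code of a vertex -/
noncomputable def spr (a : ℕ) : ℕ :=
  Nat.add (s4 a 10) (Nat.mul (Nat.sub 256 (Nat.mul 8 (w4 a 10))) (Nat.pow 65536 10))

/-- check of a functional -/
noncomputable def fOK (G : ℕ) : Bool :=
  cond (Nat.beq (dB G 0) 1)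
    (cond (Nat.blt G (Nat.pow 65536 11))
      (cond (Nat.beq (Nat.rec 0 (fun j ih => Nat.add (dB G (Nat.succ j)) ih) 10) 80)
        (Nat.rec true (fun j ih => cond (Nat.ble (dB G (Nat.succ j)) 16) ih false) 10)
        false) false) false

/-- the value of a functional at a vertex, increased by `256` -/
noncomputable def vl (G V : ℕ) : ℕ := Nat.land (Nat.shiftRight (Nat.mul G V) 160) 65535

/-! ### middle digit of a product -/

theorem mid_digit (a b : ℕ → ℕ)
    (hC : ∀ i < 11, ∀ j < 11, i + j < 10 → a i * b j ≤ 500)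
    (hm : ∑ i ∈ range 11, a i * b (10 - i) < 65536) :
    (∑ i ∈ range 11, a i * 65536 ^ i) * (∑ j ∈ range 11, b j * 65536 ^ j) / 65536 ^ 10 % 65536 =
      ∑ i ∈ range 11, a i * b (10 - i) := by
  have key : (∑ i ∈ range 11, a i * 65536 ^ i) * (∑ j ∈ range 11, b j * 65536 ^ j) =
      (∑ i ∈ range 11, ∑ j ∈ range 11, if i + j < 10 then a i * b j * 65536 ^ (i + j) else 0) +
        65536 ^ 10 * ((∑ i ∈ range 11, a i * b (10 - i)) + 65536 *
          ∑ i ∈ range 11, ∑ j ∈ range 11,
            if 10 < i + j then a i * b j * 65536 ^ (i + j - 11) else 0) := by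
    rw [Finset.sum_mul_sum, Finset.mul_sum, ← Finset.sum_add_distrib, Finset.mul_sum,
      ← Finset.sum_add_distrib]
    refine Finset.sum_congr rfl fun i hi => ?_
    have hi' : i < 11 := Finset.mem_range.1 hi
    have e : a i * b (10 - i) = ∑ j ∈ range 11, if i + j = 10 then a i * b j else 0 := by
      rw [Finset.sum_eq_single (10 - i)]
      · rw [if_pos (by omega)]
      · intro j _ hj
        rw [if_neg (by omega)]
      · intro h
        exact absurd (Finset.mem_range.2 (by omega)) h
    rw [e, Finset.mul_sum, ← Finset.sum_add_distrib, Finset.mul_sum, ← Finset.sum_add_distrib]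
    refine Finset.sum_congr rfl fun j hj => ?_
    rcases lt_trichotomy (i + j) 10 with h | h | h
    · rw [if_pos h, if_neg (by omega), if_neg (by omega), pow_add]
      ring
    · rw [if_neg (by omega), if_pos h, if_neg (by omega), ← h, pow_add]
      ring
    · rw [if_neg (by omega), if_neg (by omega), if_pos h]
      have h2 : (65536 : ℕ) ^ i * 65536 ^ j = 65536 ^ 10 * (65536 * 65536 ^ (i + j - 11)) := by
        rw [← pow_add, ← pow_succ', ← pow_add]
        congr 1
        omega
      calc a i * 65536 ^ i * (b j * 65536 ^ j) = a i * b j * (65536 ^ i * 65536 ^ j) := by ring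
        _ = _ := by rw [h2]; ring
  have hlo : (∑ i ∈ range 11, ∑ j ∈ range 11,
      if i + j < 10 then a i * b j * 65536 ^ (i + j) else 0) < 65536 ^ 10 := by
    have h1 : ∀ i ∈ range 11, ∀ j ∈ range 11,
        (if i + j < 10 then a i * b j * 65536 ^ (i + j) else 0) ≤ 500 * 65536 ^ 9 := by
      intro i hi j hj
      split_ifs with h
      · exact Nat.mul_le_mul (hC i (Finset.mem_range.1 hi) j (Finset.mem_range.1 hj) h)
          (Nat.pow_le_pow_right (by norm_num) (by omega))
      · exact Nat.zero_le _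
    have h2 : (∑ i ∈ range 11, ∑ j ∈ range 11,
        if i + j < 10 then a i * b j * 65536 ^ (i + j) else 0) ≤
        ∑ i ∈ range 11, ∑ j ∈ range 11, 500 * 65536 ^ 9 :=
      Finset.sum_le_sum fun i hi => Finset.sum_le_sum fun j hj => h1 i hi j hj
    refine lt_of_le_of_lt h2 ?_
    simp only [Finset.sum_const, Finset.card_range, smul_eq_mul]
    norm_num
  rw [key, Nat.add_mul_div_left _ _ (by positivity), Nat.div_eq_of_lt hlo, zero_add,
    Nat.add_mul_mod_self_left, Nat.mod_eq_of_lt hm]

theorem vl_eq (G V : ℕ) : vl G V = G * V / 65536 ^ 10 % 65536 := by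
  show ((G * V) >>> 160) &&& 65535 = _
  rw [Nat.shiftRight_eq_div_pow, show (65535 : ℕ) = 2 ^ 16 - 1 by norm_num,
    Nat.and_two_pow_sub_one_eq_mod, show (2 : ℕ) ^ 160 = 65536 ^ 10 by norm_num,
    show (2 : ℕ) ^ 16 = 65536 by norm_num]

theorem d4_lt (a i : ℕ) : d4 a i ≤ 3 := Nat.le_of_lt_succ (Nat.mod_lt _ (by norm_num))

theorem w4_eq (a n : ℕ) : w4 a n = ∑ i ∈ range n, d4 a i := by
  induction n with
  | zero => rfl
  | succ n ih =>
    rw [Finset.sum_range_succ, ← ih]
    exact add_comm _ _

theorem s4_eq (a n : ℕ) : s4 a n = ∑ i ∈ range n, d4 a i * 65536 ^ i := by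
  induction n with
  | zero => rfl
  | succ n ih =>
    rw [Finset.sum_range_succ, ← ih]
    exact add_comm _ _

theorem dB_sum (a n : ℕ) : a = (∑ i ∈ range n, dB a i * 65536 ^ i) + 65536 ^ n * (a / 65536 ^ n) := by
  induction n with
  | zero => simp
  | succ n ih =>
    rw [Finset.sum_range_succ]
    have h1 : a / 65536 ^ n = dB a n + 65536 * (a / 65536 ^ (n + 1)) := by
      have h2 := Nat.mod_add_div (a / 65536 ^ n) 65536
      rw [Nat.div_div_eq_div_mul, ← pow_succ] at h2
      exact h2.symm
    conv_lhs => rw [ih, h1]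
    rw [pow_succ]
    ring

/-- what the check of a functional says -/
theorem fOK_spec {G : ℕ} (h : fOK G = true) :
    G = ∑ j ∈ range 11, dB G j * 65536 ^ j ∧ dB G 0 = 1 ∧ (∀ j, j < 10 → dB G (j + 1) ≤ 16) ∧
      ∑ j ∈ range 10, dB G (j + 1) = 80 := by
  unfold fOK at h
  rw [Bool.cond_false_right, Bool.and_eq_true, Nat.beq_eq, Bool.cond_false_right,
    Bool.and_eq_true, Nat.blt_eq, Bool.cond_false_right, Bool.and_eq_true, Nat.beq_eq] at h
  obtain ⟨h1, h2, h3, h4⟩ := h
  refine ⟨?_, h1, ?_, ?_⟩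
  · have h5 := dB_sum G 11
    have h6 : G / 65536 ^ 11 = 0 := Nat.div_eq_of_lt h2
    rw [h6, mul_zero, add_zero] at h5
    exact h5
  · have key : ∀ n, (Nat.rec true (fun j ih => cond (Nat.ble (dB G (Nat.succ j)) 16) ih false) n :
        Bool) = true → ∀ j, j < n → dB G (j + 1) ≤ 16 := by
      intro n
      induction n with
      | zero => intro _ j hj; omega
      | succ n ih =>
        intro h j hj
        have h' : cond (Nat.ble (dB G (Nat.succ n)) 16)
          (Nat.rec true (fun j ih => cond (Nat.ble (dB G (Nat.succ j)) 16) ih false) n : Bool)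
          false = true := h
        rw [Bool.cond_false_right, Bool.and_eq_true, Nat.ble_eq] at h'
        rcases Nat.lt_or_eq_of_le (Nat.le_of_lt_succ hj) with h5 | rfl
        · exact ih h'.2 j h5
        · exact h'.1
    exact key 10 h4
  · have key : ∀ n, (Nat.rec 0 (fun j ih => Nat.add (dB G (Nat.succ j)) ih) n : ℕ) =
        ∑ j ∈ range n, dB G (j + 1) := by
      intro n
      induction n with
      | zero => rfl
      | succ n ih =>
        rw [Finset.sum_range_succ, ← ih]
        exact add_comm _ _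
    rw [← key 10]
    exact h3

theorem w4_le (a : ℕ) : w4 a 10 ≤ 30 := by
  rw [w4_eq]
  have := Finset.sum_le_card_nsmul (range 10) (d4 a) 3 fun i _ => d4_lt a i
  simpa using this

/-- the value -/
theorem vl_spr {G : ℕ} (h : fOK G = true) (a : ℕ) :
    vl G (spr a) + 8 * ∑ i ∈ range 10, d4 a i =
      256 + ∑ i ∈ range 10, d4 a i * dB G (10 - i) := by
  obtain ⟨h1, h2, h3, h4⟩ := fOK_spec h
  have hw := w4_le a
  set A : ℕ → ℕ := fun i => if i < 10 then d4 a i else 256 - 8 * w4 a 10 with hA
  have e1 : spr a = ∑ i ∈ range 11, A i * 65536 ^ i := by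
    rw [Finset.sum_range_succ]
    show s4 a 10 + (256 - 8 * w4 a 10) * 65536 ^ 10 = _
    rw [s4_eq]
    have e2 : ∑ i ∈ range 10, A i * 65536 ^ i = ∑ i ∈ range 10, d4 a i * 65536 ^ i := by
      refine Finset.sum_congr rfl fun i hi => ?_
      rw [hA]
      simp only [if_pos (Finset.mem_range.1 hi)]
    rw [e2]
    rfl
  have e3 : ∑ i ∈ range 11, A i * dB G (10 - i) =
      (∑ i ∈ range 10, d4 a i * dB G (10 - i)) + (256 - 8 * w4 a 10) := by
    have e4 : A 10 * dB G (10 - 10) = 256 - 8 * w4 a 10 := by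
      show A 10 * dB G 0 = _
      rw [h2, mul_one]
      rfl
    rw [Finset.sum_range_succ, e4]
    have e5 : ∑ i ∈ range 10, A i * dB G (10 - i) = ∑ i ∈ range 10, d4 a i * dB G (10 - i) := by
      refine Finset.sum_congr rfl fun i hi => ?_
      rw [hA]
      simp only [if_pos (Finset.mem_range.1 hi)]
    rw [e5]
  have hG : ∀ j, j < 11 → dB G j ≤ 16 := by
    intro j hj
    rcases j with _ | j
    · omega
    · exact h3 j (by omega)
  have hbd : ∑ i ∈ range 10, d4 a i * dB G (10 - i) ≤ 480 := by
    have h6 : ∀ i ∈ range 10, d4 a i * dB G (10 - i) ≤ 48 := fun i hi =>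
      Nat.mul_le_mul (d4_lt a i) (hG (10 - i) (by omega))
    have := Finset.sum_le_card_nsmul (range 10) (fun i => d4 a i * dB G (10 - i)) 48 h6
    simpa using this
  have h5 := mid_digit A (dB G) ?_ ?_
  · rw [← e1, ← h1] at h5
    rw [vl_eq, mul_comm G, h5, e3, ← w4_eq]
    omega
  · intro i _ j hj hij
    rw [hA]
    simp only [if_pos (show i < 10 by omega)]
    exact (Nat.mul_le_mul (d4_lt a i) (hG j hj)).trans (by norm_num)
  · rw [e3]
    omega

end Pool.Agent.DF302A.EK
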