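import Pool.Agent.Work.MP_df302a_co.VecA

/-! # MP_df302a_co : certificate for the two-dimensional complex `L`, its collapsible part, the
attaching subcomplex and the attaching cycle.

The vertices of `L` are numbered by `1, ..., nV` (table `vt` of their codes), a simplex is a number
with at most three digits in base `1024`. -/

set_option autoImplicit false

namespace Pool.Agent.DF302A

open Finset Pool.Agent.DF302A.Orb Pool.Agent.DF302A.PI

/-! ### the functions evaluated by the kernel -/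

/-- allowed digit -/
noncomputable def dgOK (nV a : ℕ) : Bool := cond (Nat.ble 1 a) (Nat.ble a nV) false

/-- comparison of the types -/
noncomputable def tyOK (vt : ℕ → ℕ) (a b : ℕ) : Bool :=
  Nat.blt (Nat.div (vt a) 1048576) (Nat.div (vt b) 1048576)

/-- direct check of a code with at most three digits -/
noncomputable def vchk (vt : ℕ → ℕ) (nV c : ℕ) : Bool :=
  cond (dgOK nV (Nat.mod c 1024))
    (cond (Nat.beq (Nat.div c 1024) 0) true
      (cond (dgOK nV (Nat.mod (Nat.div c 1024) 1024))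
        (cond (tyOK vt (Nat.mod c 1024) (Nat.mod (Nat.div c 1024) 1024))
          (cond (Nat.beq (Nat.div c 1048576) 0) true
            (cond (dgOK nV (Nat.div c 1048576))
              (tyOK vt (Nat.mod (Nat.div c 1024) 1024) (Nat.div c 1048576)) false)) false)
        false)) false

/-- the record of the facet number `q` of the record `r` -/
noncomputable def fr (cw : ℕ → ℕ) (r q : ℕ) : ℕ :=
  Nat.mod (Nat.div (cw r) (Nat.pow 65536 q)) 65536

/-- check of the facet number `q` -/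
noncomputable def fck (rt cw : ℕ → ℕ) (r q : ℕ) : Bool :=
  cond (Nat.blt (fr cw r q) r)
    (Nat.beq (rt (fr cw r q)) (Nat.add (Nat.mod (rt r) (Nat.pow 1024 q))
      (Nat.mul (Nat.div (rt r) (Nat.pow 1024 (Nat.add q 1))) (Nat.pow 1024 q)))) false

/-- check of a record of `L`; the records `≥ b` are triangles -/
noncomputable def lrec (vt : ℕ → ℕ) (nV : ℕ) (rt cw : ℕ → ℕ) (b r : ℕ) : Bool :=
  cond (vchk vt nV (rt r))
    (cond (Nat.blt (rt r) 1024) (Nat.blt r b)
      (cond (fck rt cw r 0) (cond (fck rt cw r 1)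
        (cond (Nat.blt (rt r) 1048576) (Nat.blt r b)
          (cond (fck rt cw r 2) (Nat.blt (rt r) 1073741824) false)) false) false)) false

/-- check of a birth -/
noncomputable def lbir (rt cw bp : ℕ → ℕ) (i : ℕ) : Bool :=
  cond (Nat.ble (Nat.pow 1024 (bp i)) (rt (Nat.add (Nat.mul 2 i) 2)))
    (cond (Nat.ble 1024 (rt (Nat.add (Nat.mul 2 i) 2)))
      (Nat.beq (fr cw (Nat.add (Nat.mul 2 i) 2) (bp i)) (Nat.add (Nat.mul 2 i) 1)) false) false

/-- check of the sorted list of the records -/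
noncomputable def lsrt (rt sr : ℕ → ℕ) (NL k : ℕ) : Bool :=
  cond (Nat.blt (sr k) NL) (Nat.blt (rt (sr k)) (rt (sr (Nat.add k 1)))) false

/-- check of the invariance -/
noncomputable def linv (rt iv pm : ℕ → ℕ) (NL r : ℕ) : Bool :=
  cond (Nat.blt (iv r) NL) (Nat.beq (rt (iv r)) (img pm 8 (rt r))) false

/-! ### chains of vertices -/

/-- the table of the vertices -/
structure VT (vt : ℕ → ℕ) (nV : ℕ) : Prop where
  n : nV < 1024
  inj : ∀ a b, 1 ≤ a → a ≤ nV → 1 ≤ b → b ≤ nV → vt a = vt b → a = b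
  lt : ∀ a, 1 ≤ a → a ≤ nV → vt a < 16777216

/-- valid code -/
structure VC (vt : ℕ → ℕ) (nV c : ℕ) : Prop where
  ok : ∀ a ∈ dl 8 c, 1 ≤ a ∧ a ≤ nV
  pw : (dl 8 c).Pairwise (fun a b => ty (vt a) < ty (vt b))
  enc : enc (dl 8 c) = c

/-- the simplex with code `c` -/
def SN (vt : ℕ → ℕ) (c : ℕ) : Finset ℕ := ((dl 8 c).map vt).toFinset

section
variable {vt : ℕ → ℕ} {nV : ℕ}

theorem mem_SN {c v : ℕ} : v ∈ SN vt c ↔ ∃ a ∈ dl 8 c, vt a = v := by
  rw [SN, List.mem_toFinset, List.mem_map]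

theorem VT.of_mono (hn : nV < 1024) (h : ∀ a, 1 ≤ a → a < nV → vt a < vt (a + 1))
    (hl : vt nV < 16777216) : VT vt nV := by
  have hmany : ∀ a b, 1 ≤ a → a < b → b ≤ nV → vt a < vt b := by
    intro a b ha hab
    induction b with
    | zero => omega
    | succ b ih =>
      intro hb
      rcases Nat.lt_or_eq_of_le (Nat.le_of_lt_succ hab) with h1 | rfl
      · exact (ih h1 (by omega)).trans (h b (by omega) (by omega))
      · exact h a ha (by omega)
  refine ⟨hn, fun a b ha ha' hb hb' e => ?_, fun a ha ha' => ?_⟩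
  · rcases lt_trichotomy a b with h1 | h1 | h1
    · have := hmany a b ha h1 hb'
      omega
    · exact h1
    · have := hmany b a hb h1 ha'
      omega
  · rcases Nat.lt_or_eq_of_le ha' with h1 | rfl
    · exact (hmany a nV ha h1 le_rfl).trans hl
    · exact hl

/-- check of the image of a vertex -/
def pmOK (vt pm : ℕ → ℕ) (nV : ℕ) (g : Equiv.Perm (Fin 10)) (a : ℕ) : Prop :=
  1 ≤ pm a ∧ pm a ≤ nV ∧ vt (pm a) / 1048576 = vt a / 1048576 ∧
    ∀ i : Fin 10, vt (pm a) / 4 ^ (g i : ℕ) % 4 = vt a / 4 ^ (i : ℕ) % 4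

instance (vt pm : ℕ → ℕ) (nV : ℕ) (g : Equiv.Perm (Fin 10)) (a : ℕ) :
    Decidable (pmOK vt pm nV g a) := by
  unfold pmOK
  infer_instance

theorem pmOK.spec {pm : ℕ → ℕ} {g : Equiv.Perm (Fin 10)} {a : ℕ} (h : pmOK vt pm nV g a)
    (hT : VT vt nV) (h1 : 1 ≤ a) (h2 : a ≤ nV) {g' : M10} (e : (g' : Equiv.Perm (Fin 10)) = g) :
    1 ≤ pm a ∧ pm a ≤ nV ∧ vt (pm a) = g' • vt a := by
  obtain ⟨h3, h4, h5, h6⟩ := h
  have hlt := hT.lt a h1 h2
  refine ⟨h3, h4, code_ext ?_ ?_⟩
  · rw [ty_smul hlt]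
    exact h5
  · rw [dv_smul hlt, e]
    funext i
    have h7 := h6 (g⁻¹ i)
    have h8 : g (g⁻¹ i) = i := by simp
    rw [h8] at h7
    exact Fin.ext h7

theorem VC.lt {c : ℕ} (h : VC vt nV c) : ((dl 8 c).map vt).Pairwise (· < ·) := by
  rw [List.pairwise_map]
  exact h.pw.imp fun hab => lt_of_ty hab

theorem VC.nodup {c : ℕ} (h : VC vt nV c) : ((dl 8 c).map vt).Nodup :=
  h.lt.imp fun hab => ne_of_lt hab

theorem VC.card {c : ℕ} (h : VC vt nV c) : (SN vt c).card = (dl 8 c).length := by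
  rw [SN, List.toFinset_card_of_nodup h.nodup, List.length_map]

theorem VC.sort {c : ℕ} (h : VC vt nV c) : (SN vt c).sort (· ≤ ·) = (dl 8 c).map vt :=
  (List.toFinset_sort (· ≤ ·) h.nodup).2 (h.lt.imp fun hab => le_of_lt hab)

theorem map_inj_of {vt : ℕ → ℕ} {P : ℕ → Prop}
    (hi : ∀ a b, P a → P b → vt a = vt b → a = b) :
    ∀ l l' : List ℕ, (∀ a ∈ l, P a) → (∀ a ∈ l', P a) → l.map vt = l'.map vt → l = l' := by
  intro l
  induction l with
  | nil =>
    intro l' _ _ h
    cases l' with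
    | nil => rfl
    | cons b l' => simp at h
  | cons a l ih =>
    intro l' h1 h2 h
    cases l' with
    | nil => simp at h
    | cons b l' =>
      rw [List.map_cons, List.map_cons, List.cons_eq_cons] at h
      rw [hi a b (h1 a List.mem_cons_self) (h2 b List.mem_cons_self) h.1,
        ih l' (fun c hc => h1 c (List.mem_cons_of_mem _ hc))
          (fun c hc => h2 c (List.mem_cons_of_mem _ hc)) h.2]

theorem SN_inj (hT : VT vt nV) {c c' : ℕ} (h : VC vt nV c) (h' : VC vt nV c')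
    (e : SN vt c = SN vt c') : c = c' := by
  rw [← h.enc, ← h'.enc]
  congr 1
  refine map_inj_of (P := fun a => 1 ≤ a ∧ a ≤ nV)
    (fun a b ha hb => hT.inj a b ha.1 ha.2 hb.1 hb.2) _ _ h.ok h'.ok ?_
  rw [← h.sort, ← h'.sort, e]

theorem dl_of_ok (hT : VT vt nV) {l : List ℕ} (hl : l.length ≤ 8)
    (h : ∀ a ∈ l, 1 ≤ a ∧ a ≤ nV) : dl 8 (enc l) = l := by
  have hn := hT.n
  refine dl_enc 8 l hl (fun a ha => ?_) fun hne => ?_
  · have := (h a ha).2
    omega
  · have := (h _ (List.getLast_mem hne)).1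
    omega

theorem VC.dl_fc (hT : VT vt nV) {c : ℕ} (h : VC vt nV c) (q : ℕ) :
    dl 8 (fc c q) = (dl 8 c).eraseIdx q := by
  refine dl_of_ok hT ?_ fun a ha => ?_
  · exact (List.length_eraseIdx_le _ _).trans (length_dl 8 c)
  · exact h.ok a ((List.eraseIdx_sublist _ _).subset ha)

theorem VC.fc (hT : VT vt nV) {c : ℕ} (h : VC vt nV c) (q : ℕ) : VC vt nV (fc c q) := by
  have e := h.dl_fc hT q
  refine ⟨?_, ?_, ?_⟩
  · rw [e]
    exact fun a ha => h.ok a ((List.eraseIdx_sublist _ _).subset ha)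
  · rw [e]
    exact h.pw.sublist (List.eraseIdx_sublist _ _)
  · rw [e]; rfl

theorem SN_face (hT : VT vt nV) {c : ℕ} (h : VC vt nV c) (q : ℕ) (hq : q < (dl 8 c).length) :
    SN vt (fc c q) = (SN vt c).erase (vt (dl 8 c)[q]) := by
  ext v
  rw [mem_SN, Finset.mem_erase, mem_SN, h.dl_fc hT]
  have hnd := h.nodup
  constructor
  · rintro ⟨a, ha, rfl⟩
    obtain ⟨i, hi, hiq⟩ := List.getElem_of_mem ha
    rw [List.getElem_eraseIdx] at hiq
    have hlen : ((dl 8 c).map vt).length = (dl 8 c).length := List.length_map _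
    refine ⟨fun hv => ?_, a, (List.eraseIdx_sublist _ _).subset ha, rfl⟩
    split_ifs at hiq with h1
    · have h2 := (List.Nodup.getElem_inj_iff hnd (i := i) (j := q) (hi := by omega)
        (hj := by omega)).1 (by rw [List.getElem_map, List.getElem_map, hiq, hv])
      omega
    · have hi' : i < (dl 8 c).length - 1 := by
        rw [List.length_eraseIdx_of_lt hq] at hi
        exact hi
      have h2 := (List.Nodup.getElem_inj_iff hnd (i := i + 1) (j := q) (hi := by omega)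
        (hj := by omega)).1 (by rw [List.getElem_map, List.getElem_map, hiq, hv])
      omega
  · rintro ⟨h1, a, ha, rfl⟩
    obtain ⟨i, hi, rfl⟩ := List.getElem_of_mem ha
    refine ⟨_, ?_, rfl⟩
    rw [List.mem_eraseIdx_iff_getElem]
    exact ⟨i, hi, fun e => h1 (by subst e; rfl), rfl⟩

theorem opp_SN (hT : VT vt nV) {c : ℕ} (h : VC vt nV c) (q : ℕ) (hq : q < (dl 8 c).length) :
    PI.opp (SN vt c) q = SN vt (fc c q) := by
  rw [SN_face hT h q hq, PI.opp, h.sort, List.getD_eq_getElem _ _ (by rw [List.length_map]; exact hq),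
    List.getElem_map]

theorem SN_ty {c : ℕ} (h : VC vt nV c) {a b : ℕ} (ha : a ∈ SN vt c) (hb : b ∈ SN vt c)
    (hab : a < b) : ty a < ty b := by
  obtain ⟨a, ha1, rfl⟩ := mem_SN.1 ha
  obtain ⟨b, hb1, rfl⟩ := mem_SN.1 hb
  obtain ⟨i, hi, rfl⟩ := List.getElem_of_mem ha1
  obtain ⟨j, hj, rfl⟩ := List.getElem_of_mem hb1
  have hp := List.pairwise_iff_getElem.1 h.pw
  rcases lt_trichotomy i j with h1 | h1 | h1
  · exact hp i j hi hj h1
  · subst h1; exact absurd hab (lt_irrefl _)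
  · exact absurd (lt_of_ty (hp j i hj hi h1)) (not_lt_of_gt hab)

theorem SN_lt (hT : VT vt nV) {c : ℕ} (h : VC vt nV c) {a : ℕ} (ha : a ∈ SN vt c) :
    a < 16777216 := by
  obtain ⟨b, hb, rfl⟩ := mem_SN.1 ha
  exact hT.lt b (h.ok b hb).1 (h.ok b hb).2

theorem ord_SN (hT : VT vt nV) {c : ℕ} (h : VC vt nV c) : Ord M10 (SN vt c) := by
  intro g a ha b hb hab
  exact smul_lt_smul (SN_lt hT h hb) (SN_ty h ha hb hab)

/-- the image of a code -/
theorem im_SN (hT : VT vt nV) {g : M10} {pm : ℕ → ℕ}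
    (hpm : ∀ a, 1 ≤ a → a ≤ nV → 1 ≤ pm a ∧ pm a ≤ nV ∧ vt (pm a) = g • vt a)
    {c : ℕ} (h : VC vt nV c) : VC vt nV (img pm 8 c) ∧ im g (SN vt c) = SN vt (img pm 8 c) := by
  have hok : ∀ a ∈ (dl 8 c).map pm, 1 ≤ a ∧ a ≤ nV := by
    intro a ha
    obtain ⟨b, hb, rfl⟩ := List.mem_map.1 ha
    have := hpm b (h.ok b hb).1 (h.ok b hb).2
    exact ⟨this.1, this.2.1⟩
  have hl : dl 8 (img pm 8 c) = (dl 8 c).map pm := by
    rw [img_spec]
    exact dl_of_ok hT (by rw [List.length_map]; exact length_dl 8 c) hok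
  refine ⟨⟨by rw [hl]; exact hok, ?_, by rw [hl, img_spec]⟩, ?_⟩
  · rw [hl, List.pairwise_map]
    refine List.Pairwise.imp_of_mem ?_ h.pw
    intro a b ha hb hab
    rw [(hpm a (h.ok a ha).1 (h.ok a ha).2).2.2, (hpm b (h.ok b hb).1 (h.ok b hb).2).2.2,
      ty_smul (hT.lt a (h.ok a ha).1 (h.ok a ha).2), ty_smul (hT.lt b (h.ok b hb).1 (h.ok b hb).2)]
    exact hab
  · ext v
    rw [mem_im, mem_SN, hl]
    constructor
    · rintro ⟨w, hw, rfl⟩
      obtain ⟨a, ha, rfl⟩ := mem_SN.1 hw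
      exact ⟨pm a, List.mem_map.2 ⟨a, ha, rfl⟩, (hpm a (h.ok a ha).1 (h.ok a ha).2).2.2⟩
    · rintro ⟨a, ha, rfl⟩
      obtain ⟨b, hb, rfl⟩ := List.mem_map.1 ha
      exact ⟨vt b, mem_SN.2 ⟨b, hb, rfl⟩, (hpm b (h.ok b hb).1 (h.ok b hb).2).2.2.symm⟩

theorem dgOK_spec {a : ℕ} (h : dgOK nV a = true) : 1 ≤ a ∧ a ≤ nV := by
  unfold dgOK at h
  rw [Bool.cond_false_right, Bool.and_eq_true, Nat.ble_eq, Nat.ble_eq] at h
  exact h

theorem tyOK_spec {a b : ℕ} (h : tyOK vt a b = true) : ty (vt a) < ty (vt b) := by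
  unfold tyOK at h
  rw [Nat.blt_eq] at h
  exact h

/-- the direct check -/
theorem vchk_spec {c : ℕ} (hc : c < 1073741824) (h : vchk vt nV c = true) : VC vt nV c ∧
    c ≠ 0 ∧ (c < 1024 → dl 8 c = [c]) ∧
    (1024 ≤ c → c < 1048576 → dl 8 c = [c % 1024, c / 1024]) ∧
    (1048576 ≤ c → dl 8 c = [c % 1024, c / 1024 % 1024, c / 1048576]) := by
  unfold vchk at h
  rw [Bool.cond_false_right, Bool.and_eq_true, Bool.cond_true_left, Bool.or_eq_true] at h
  obtain ⟨h1, h2⟩ := h
  have h1' := dgOK_spec h1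
  have hm : Nat.mod c 1024 = c % 1024 := rfl
  have hd : Nat.div c 1024 = c / 1024 := rfl
  have hd2 : Nat.div c 1048576 = c / 1048576 := rfl
  have hm2 : Nat.mod (c / 1024) 1024 = c / 1024 % 1024 := rfl
  rw [hm] at h1'
  have hc0 : c ≠ 0 := by
    rintro rfl
    simp at h1'
  have henc : enc (dl 8 c) = c := enc_dl 8 c (by
    refine hc.trans (by norm_num))
  rw [Nat.beq_eq, hd] at h2
  rcases h2 with h2 | h2
  · have e : dl 8 c = [c % 1024] := by rw [dl_succ 7 hc0, h2, dl_zero]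
    refine ⟨⟨?_, ?_, henc⟩, hc0, fun h => by rw [e, Nat.mod_eq_of_lt h], fun h => by omega,
      fun h => by omega⟩
    · rw [e]
      intro a ha
      rw [List.mem_singleton] at ha
      rw [ha]; exact h1'
    · rw [e]; exact List.pairwise_singleton _ _
  · rw [hm, hm2, hd2, Bool.cond_false_right, Bool.and_eq_true, Bool.cond_false_right,
      Bool.and_eq_true, Bool.cond_true_left, Bool.or_eq_true, Nat.beq_eq, Bool.cond_false_right,
      Bool.and_eq_true] at h2
    obtain ⟨h3, h4, h5⟩ := h2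
    have h3' := dgOK_spec h3
    have h4' := tyOK_spec h4
    have hc1 : c / 1024 ≠ 0 := by
      intro h0
      rw [h0] at h3'
      simp at h3'
    have hdd : c / 1024 / 1024 = c / 1048576 := Nat.div_div_eq_div_mul _ _ _
    rcases h5 with h5 | ⟨h5, h6⟩
    · have e : dl 8 c = [c % 1024, c / 1024] := by
        have h7 : c / 1024 < 1024 := by omega
        rw [dl_succ 7 hc0, dl_succ 6 hc1, hdd, h5, dl_zero, Nat.mod_eq_of_lt h7]
      refine ⟨⟨?_, ?_, henc⟩, hc0, fun h => by omega, fun _ _ => e, fun h => by omega⟩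
      · rw [e]
        intro a ha
        rw [List.mem_cons, List.mem_singleton] at ha
        rcases ha with rfl | rfl
        · exact h1'
        · rw [Nat.mod_eq_of_lt (by omega)] at h3'
          exact h3'
      · rw [e, List.pairwise_pair]
        rw [Nat.mod_eq_of_lt (a := c / 1024) (by omega)] at h4'
        exact h4'
    · have h5' := dgOK_spec h5
      have h6' := tyOK_spec h6
      have hc2 : c / 1048576 ≠ 0 := by
        intro h0
        rw [h0] at h5'
        simp at h5'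
      have hd3 : c / 1048576 / 1024 = 0 := by omega
      have e : dl 8 c = [c % 1024, c / 1024 % 1024, c / 1048576] := by
        rw [dl_succ 7 hc0, dl_succ 6 hc1, hdd, dl_succ 5 hc2, hd3, dl_zero,
          Nat.mod_eq_of_lt (a := c / 1048576) (by omega)]
      refine ⟨⟨?_, ?_, henc⟩, hc0, fun h => by omega, fun _ _ => by omega, fun _ => e⟩
      · rw [e]
        intro a ha
        rw [List.mem_cons, List.mem_cons, List.mem_singleton] at ha
        rcases ha with rfl | rfl | rfl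
        · exact h1'
        · exact h3'
        · exact h5'
      · rw [e]
        refine List.pairwise_cons.2 ⟨?_, List.pairwise_pair.2 h6'⟩
        intro b hb
        rw [List.mem_cons, List.mem_singleton] at hb
        rcases hb with rfl | rfl
        · exact h4'
        · exact h4'.trans h6'

end

/-! ### the complex `L` -/

/-- certificate for `L` -/
structure LV (vt rt cw bp sr : ℕ → ℕ) (nV n NL : ℕ) : Prop where
  hT : VT vt nV
  hn : 2 * n + 1 ≤ NL
  hrec : ∀ r, r < NL → lrec vt nV rt cw (2 * n + 1) r = true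
  hbir : ∀ i, i < n → lbir rt cw bp i = true
  hsr : ∀ k, k < NL - 1 → lsrt rt sr NL k = true
  hlast : sr (NL - 1) < NL
  h0 : rt 0 < 1024

/-- the simplex of a record -/
noncomputable def DR (vt rt : ℕ → ℕ) (r : ℕ) : Finset ℕ := SN vt (rt r)

/-- the complex of the first `k` records -/
noncomputable def LK (vt rt : ℕ → ℕ) (k : ℕ) : Finset (Finset ℕ) :=
  insert ∅ ((Finset.range k).image (DR vt rt))

section
variable {vt rt cw bp sr : ℕ → ℕ} {nV n NL : ℕ}

theorem mem_LK {k : ℕ} {c : Finset ℕ} :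
    c ∈ LK vt rt k ↔ c = ∅ ∨ ∃ r < k, DR vt rt r = c := by simp [LK]

theorem fck_spec {r q : ℕ} (h : fck rt cw r q = true) (hr : rt r < 1073741824) :
    fr cw r q < r ∧ rt (fr cw r q) = fc (rt r) q := by
  unfold fck at h
  rw [Bool.cond_false_right, Bool.and_eq_true, Nat.blt_eq, Nat.beq_eq] at h
  refine ⟨h.1, ?_⟩
  have hlt : rt r < 1024 ^ 8 := hr.trans (by norm_num)
  rw [fc, enc_eraseIdx _ q (dl_lt 8 _), enc_dl 8 _ hlt]
  exact h.2

/-- what the check of a record says -/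
theorem lrec_facts {b r : ℕ} (h : lrec vt nV rt cw b r = true) :
    rt r < 1073741824 ∧ VC vt nV (rt r) ∧ rt r ≠ 0 ∧
    (rt r < 1024 → dl 8 (rt r) = [rt r]) ∧
    (1024 ≤ rt r → rt r < 1048576 → dl 8 (rt r) = [rt r % 1024, rt r / 1024]) ∧
    (1048576 ≤ rt r → dl 8 (rt r) = [rt r % 1024, rt r / 1024 % 1024, rt r / 1048576]) ∧
    (∀ q < (dl 8 (rt r)).length, 1024 ≤ rt r →
      fr cw r q < r ∧ rt (fr cw r q) = fc (rt r) q) ∧
    (b ≤ r → 1048576 ≤ rt r) := by
  unfold lrec at h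
  rw [Bool.cond_false_right, Bool.and_eq_true] at h
  obtain ⟨h1, h2⟩ := h
  by_cases hs : rt r < 1024
  · have hb : Nat.blt (rt r) 1024 = true := by rw [Nat.blt_eq]; exact hs
    rw [hb, cond_true, Nat.blt_eq] at h2
    have hlt : rt r < 1073741824 := by omega
    obtain ⟨f1, f2, f3, f4, f5⟩ := vchk_spec hlt h1
    exact ⟨hlt, f1, f2, f3, f4, f5, fun q _ h => by omega, fun h => by omega⟩
  · have hb : Nat.blt (rt r) 1024 = false := by rw [← Bool.not_eq_true, Nat.blt_eq]; exact hs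
    rw [hb, cond_false, Bool.cond_false_right, Bool.and_eq_true, Bool.cond_false_right,
      Bool.and_eq_true] at h2
    obtain ⟨h3, h4, h5⟩ := h2
    by_cases hs2 : rt r < 1048576
    · have hb2 : Nat.blt (rt r) 1048576 = true := by rw [Nat.blt_eq]; exact hs2
      rw [hb2, cond_true, Nat.blt_eq] at h5
      have hlt : rt r < 1073741824 := by omega
      obtain ⟨f1, f2, f3, f4, f5⟩ := vchk_spec hlt h1
      refine ⟨hlt, f1, f2, f3, f4, f5, fun q hq _ => ?_, fun h => by omega⟩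
      rw [f4 (by omega) hs2] at hq
      have hq' : q < 2 := hq
      rcases (by omega : q = 0 ∨ q = 1) with rfl | rfl
      · exact fck_spec h3 hlt
      · exact fck_spec h4 hlt
    · have hb2 : Nat.blt (rt r) 1048576 = false := by
        rw [← Bool.not_eq_true, Nat.blt_eq]; exact hs2
      rw [hb2, cond_false, Bool.cond_false_right, Bool.and_eq_true, Nat.blt_eq] at h5
      obtain ⟨h6, hlt⟩ := h5
      obtain ⟨f1, f2, f3, f4, f5⟩ := vchk_spec hlt h1
      refine ⟨hlt, f1, f2, f3, f4, f5, fun q hq _ => ?_, fun _ => by omega⟩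
      rw [f5 (by omega)] at hq
      have hq' : q < 3 := hq
      rcases (by omega : q = 0 ∨ q = 1 ∨ q = 2) with rfl | rfl | rfl
      · exact fck_spec h3 hlt
      · exact fck_spec h4 hlt
      · exact fck_spec h6 hlt

theorem LV.vc (hV : LV vt rt cw bp sr nV n NL) {r : ℕ} (hr : r < NL) : VC vt nV (rt r) :=
  (lrec_facts (hV.hrec r hr)).2.1

theorem LV.digits (hV : LV vt rt cw bp sr nV n NL) {r : ℕ} (hr : r < NL) :
    (rt r < 1024 → dl 8 (rt r) = [rt r]) ∧
    (1024 ≤ rt r → rt r < 1048576 → dl 8 (rt r) = [rt r % 1024, rt r / 1024]) ∧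
    (1048576 ≤ rt r → dl 8 (rt r) = [rt r % 1024, rt r / 1024 % 1024, rt r / 1048576]) := by
  obtain ⟨_, _, _, f3, f4, f5, _⟩ := lrec_facts (hV.hrec r hr)
  exact ⟨f3, f4, f5⟩

theorem LV.len (hV : LV vt rt cw bp sr nV n NL) {r : ℕ} (hr : r < NL) :
    (rt r < 1024 → (dl 8 (rt r)).length = 1) ∧
    (1024 ≤ rt r → rt r < 1048576 → (dl 8 (rt r)).length = 2) ∧
    (1048576 ≤ rt r → (dl 8 (rt r)).length = 3) := by
  obtain ⟨f3, f4, f5⟩ := hV.digits hr
  exact ⟨fun h => by rw [f3 h]; rfl, fun h h' => by rw [f4 h h']; rfl, fun h => by rw [f5 h]; rfl⟩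

theorem LV.len13 (hV : LV vt rt cw bp sr nV n NL) {r : ℕ} (hr : r < NL) :
    1 ≤ (dl 8 (rt r)).length ∧ (dl 8 (rt r)).length ≤ 3 := by
  obtain ⟨f3, f4, f5⟩ := hV.len hr
  rcases (by omega : rt r < 1024 ∨ (1024 ≤ rt r ∧ rt r < 1048576) ∨ 1048576 ≤ rt r) with
    h | ⟨h, h'⟩ | h
  · rw [f3 h]; omega
  · rw [f4 h h']; omega
  · rw [f5 h]; omega

theorem LV.facet (hV : LV vt rt cw bp sr nV n NL) {r : ℕ} (hr : r < NL) {q : ℕ}
    (hq : q < (dl 8 (rt r)).length) (hc : 2 ≤ (dl 8 (rt r)).length) :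
    fr cw r q < r ∧ rt (fr cw r q) = fc (rt r) q := by
  refine (lrec_facts (hV.hrec r hr)).2.2.2.2.2.2.1 q hq ?_
  by_contra h
  have := (hV.len hr).1 (by omega)
  omega

theorem LV.card (hV : LV vt rt cw bp sr nV n NL) {r : ℕ} (hr : r < NL) :
    (DR vt rt r).card = (dl 8 (rt r)).length := (hV.vc hr).card

theorem LV.J (hV : LV vt rt cw bp sr nV n NL) {r : ℕ} (hr : r < NL) (hb : 2 * n + 1 ≤ r) :
    (dl 8 (rt r)).length = 3 :=
  (hV.len hr).2.2 ((lrec_facts (hV.hrec r hr)).2.2.2.2.2.2.2 hb)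

theorem LV.birth (hV : LV vt rt cw bp sr nV n NL) {i : ℕ} (hi : i < n) :
    ∃ p, p < (dl 8 (rt (2 * i + 2))).length ∧
      2 ≤ (dl 8 (rt (2 * i + 2))).length ∧
      rt (2 * i + 1) = fc (rt (2 * i + 2)) p := by
  have hn := hV.hn
  have h := hV.hbir i hi
  unfold lbir at h
  simp only [Bool.cond_false_right, Bool.and_eq_true, Nat.beq_eq, Nat.ble_eq] at h
  obtain ⟨h1, h2, h3⟩ := h
  have h1' : 1024 ^ (bp i) ≤ rt (2 * i + 2) := h1
  have h2' : 1024 ≤ rt (2 * i + 2) := h2
  have h3' : fr cw (2 * i + 2) (bp i) = 2 * i + 1 := h3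
  have hr : 2 * i + 2 < NL := by omega
  have hlt := (lrec_facts (hV.hrec _ hr)).1
  have hl1 : bp i < (dl 8 (rt (2 * i + 2))).length :=
    lt_length_dl 8 _ _ (hlt.trans (by norm_num)) h1'
  have hl2 : 1 < (dl 8 (rt (2 * i + 2))).length :=
    lt_length_dl 8 _ _ (hlt.trans (by norm_num)) (by rw [pow_one]; exact h2')
  refine ⟨bp i, hl1, hl2, ?_⟩
  have h6 := (hV.facet hr hl1 hl2).2
  rw [h3'] at h6
  exact h6

theorem inj_of_srt {NL : ℕ} (hsr : ∀ k, k < NL - 1 → lsrt rt sr NL k = true)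
    (hlast : sr (NL - 1) < NL) : ∀ r r', r < NL → r' < NL → rt r = rt r' → r = r' := by
  have hlt : ∀ k, k < NL → sr k < NL := by
    intro k hk
    rcases Nat.lt_or_eq_of_le (Nat.le_sub_one_of_lt hk) with h1 | rfl
    · have := hsr k h1
      unfold lsrt at this
      rw [Bool.cond_false_right, Bool.and_eq_true, Nat.blt_eq] at this
      exact this.1
    · exact hlast
  have hmany : ∀ k l, k < l → l < NL → rt (sr k) < rt (sr l) := by
    intro k l hkl
    induction l with
    | zero => omega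
    | succ l ih =>
      intro hl
      have h1 := hsr l (by omega)
      unfold lsrt at h1
      rw [Bool.cond_false_right, Bool.and_eq_true, Nat.blt_eq, Nat.blt_eq] at h1
      have h2 : rt (sr l) < rt (sr (l + 1)) := h1.2
      rcases Nat.lt_or_eq_of_le (Nat.le_of_lt_succ hkl) with h3 | rfl
      · exact (ih h3 (by omega)).trans h2
      · exact h2
  let f : Fin NL → Fin NL := fun k => ⟨sr k, hlt k k.2⟩
  have hf : Function.Injective f := by
    intro a b hab
    have hab' : sr a = sr b := congrArg Fin.val hab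
    rcases lt_trichotomy (a : ℕ) b with h1 | h1 | h1
    · have := hmany a b h1 b.2
      rw [hab'] at this; omega
    · exact Fin.ext h1
    · have := hmany b a h1 a.2
      rw [hab'] at this; omega
  have hsurj := Finite.injective_iff_surjective.1 hf
  intro r r' hr hr' hc
  obtain ⟨a, ha⟩ := hsurj ⟨r, hr⟩
  obtain ⟨b, hb⟩ := hsurj ⟨r', hr'⟩
  have ha' : sr a = r := congrArg Fin.val ha
  have hb' : sr b = r' := congrArg Fin.val hb
  rcases lt_trichotomy (a : ℕ) b with h1 | h1 | h1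
  · have := hmany a b h1 b.2
    rw [ha', hb'] at this; omega
  · rw [← ha', ← hb', h1]
  · have := hmany b a h1 a.2
    rw [ha', hb'] at this; omega

theorem LV.injD (hV : LV vt rt cw bp sr nV n NL) {r r' : ℕ} (hr : r < NL) (hr' : r' < NL)
    (h : DR vt rt r = DR vt rt r') : r = r' :=
  inj_of_srt hV.hsr hV.hlast r r' hr hr' (SN_inj hV.hT (hV.vc hr) (hV.vc hr') h)

theorem LV.face (hV : LV vt rt cw bp sr nV n NL) {r : ℕ} (hr : r < NL) {q : ℕ}
    (hq : q < (dl 8 (rt r)).length)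
    (hc : 2 ≤ (dl 8 (rt r)).length) :
    fr cw r q < r ∧
      DR vt rt (fr cw r q) = (DR vt rt r).erase (vt (dl 8 (rt r))[q]) := by
  obtain ⟨h1, h2⟩ := hV.facet hr hq hc
  refine ⟨h1, ?_⟩
  rw [DR, h2, SN_face hV.hT (hV.vc hr) q hq]
  rfl

theorem LV.isCx (hV : LV vt rt cw bp sr nV n NL) {k : ℕ} (hk : k ≤ NL) :
    IsCx (LK vt rt k : Set (Finset ℕ)) := by
  refine ⟨Finset.mem_coe.2 (mem_LK.2 (Or.inl rfl)), ?_⟩
  have key : ∀ r, r < k → ∀ τ, τ ⊆ DR vt rt r → τ ∈ LK vt rt k := by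
    intro r
    induction r using Nat.strong_induction_on with
    | _ r ih =>
      intro hr τ hτ
      rcases eq_or_ssubset_of_subset hτ with rfl | hss
      · exact mem_LK.2 (Or.inr ⟨r, hr, rfl⟩)
      · obtain ⟨y, hy, hyτ⟩ := Finset.exists_of_ssubset hss
        obtain ⟨a, ha, rfl⟩ := mem_SN.1 hy
        obtain ⟨q, hq, rfl⟩ := List.getElem_of_mem ha
        have hsub : τ ⊆ (DR vt rt r).erase (vt (dl 8 (rt r))[q]) := fun z hz =>
          Finset.mem_erase.mpr ⟨fun h => hyτ (h ▸ hz), hτ hz⟩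
        by_cases h2 : 2 ≤ (dl 8 (rt r)).length
        · obtain ⟨g1, g2⟩ := hV.face (r := r) (by omega) hq h2
          refine ih _ g1 (by omega) τ ?_
          rw [g2]
          exact hsub
        · refine mem_LK.2 (Or.inl ?_)
          have h3 := hV.card (r := r) (by omega)
          have h4 := Finset.card_le_card hsub
          rw [Finset.card_erase_of_mem hy] at h4
          exact Finset.card_eq_zero.1 (by omega)
  intro σ hσ τ hτ
  rcases mem_LK.1 (Finset.mem_coe.1 hσ) with rfl | ⟨r, hr, rfl⟩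
  · exact Finset.mem_coe.2 (mem_LK.2 (Or.inl (Finset.subset_empty.1 hτ)))
  · exact key r hr τ hτ

theorem LV.ne_empty (hV : LV vt rt cw bp sr nV n NL) {r : ℕ} (hr : r < NL) :
    DR vt rt r ≠ ∅ := by
  intro h
  have h1 := hV.card hr
  rw [h, Finset.card_empty] at h1
  have := (hV.len13 hr).1
  omega

/-- one elementary expansion, in terms of records -/
theorem LV.bstep (hV : LV vt rt cw bp sr nV n NL) {A : Finset (Finset ℕ)} (hA : Bld A)
    {E F p : ℕ} (hE : E < NL) (hF : F < NL)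
    (hp : p < (dl 8 (rt E)).length)
    (h2 : 2 ≤ (dl 8 (rt E)).length) (hf : fr cw E p = F)
    (hFA : DR vt rt F ∉ A)
    (hq : ∀ q < (dl 8 (rt E)).length, q ≠ p → DR vt rt (fr cw E q) ∈ A) :
    Bld (insert (DR vt rt F) (insert (DR vt rt E) A)) := by
  have hDF : DR vt rt F = (DR vt rt E).erase (vt (dl 8 (rt E))[p]) := by
    rw [← hf]; exact (hV.face hE hp h2).2
  have hx : vt (dl 8 (rt E))[p] ∈ DR vt rt E :=
    mem_SN.2 ⟨_, List.getElem_mem _, rfl⟩
  have hins : insert (vt (dl 8 (rt E))[p]) (DR vt rt F) = DR vt rt E := by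
    rw [hDF, Finset.insert_erase hx]
  have h5 := Bld.step A (DR vt rt F) (vt (dl 8 (rt E))[p]) hA
    (by rw [hDF]; exact Finset.notMem_erase _ _)
    (Finset.nonempty_iff_ne_empty.2 (hV.ne_empty hF)) hFA ?_
  · rw [hins] at h5
    exact h5
  · intro y hy
    rw [hDF] at hy ⊢
    obtain ⟨hy1, hy2⟩ := Finset.mem_erase.1 hy
    rw [Finset.erase_right_comm, Finset.insert_erase (Finset.mem_erase.2 ⟨hy1.symm, hx⟩)]
    obtain ⟨a, ha, rfl⟩ := mem_SN.1 hy2
    obtain ⟨q, hq1, rfl⟩ := List.getElem_of_mem ha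
    rw [← (hV.face hE hq1 h2).2]
    refine hq q hq1 ?_
    rintro rfl
    exact hy1 rfl

theorem LV.point (hV : LV vt rt cw bp sr nV n NL) {r : ℕ} (hr : r < NL) (h : rt r < 1024) :
    DR vt rt r = {vt (rt r)} := by
  rw [DR, SN, (hV.digits hr).1 h]
  rfl

/-- the collapsible part -/
theorem LV.bld (hV : LV vt rt cw bp sr nV n NL) : ∀ I, I ≤ n → Bld (LK vt rt (2 * I + 1)) := by
  have hn := hV.hn
  intro I
  induction I with
  | zero =>
    intro _
    have h1 : LK vt rt (2 * 0 + 1) = {∅, {vt (rt 0)}} := by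
      rw [LK, show 2 * 0 + 1 = 1 from rfl, Finset.range_one, Finset.image_singleton,
        hV.point (r := 0) (by omega) hV.h0]
    rw [h1]
    exact Bld.point _
  | succ I ih =>
    intro hI
    obtain ⟨p, hp, h2, hF⟩ := hV.birth (i := I) (by omega)
    have hE : 2 * I + 2 < NL := by omega
    have hF' : 2 * I + 1 < NL := by omega
    obtain ⟨f1, f2⟩ := hV.facet hE hp h2
    have hf : fr cw (2 * I + 2) p = 2 * I + 1 :=
      inj_of_srt hV.hsr hV.hlast _ _ (by omega) hF' (by rw [f2, hF])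
    have h5 := hV.bstep (ih (by omega)) hE hF' hp h2 hf ?_ ?_
    · have h6 : LK vt rt (2 * (I + 1) + 1) =
          insert (DR vt rt (2 * I + 1)) (insert (DR vt rt (2 * I + 2))
            (LK vt rt (2 * I + 1))) := by
        ext c
        rw [Finset.mem_insert, Finset.mem_insert, mem_LK, mem_LK]
        constructor
        · rintro (h | ⟨r, hr, h⟩)
          · exact Or.inr (Or.inr (Or.inl h))
          · rcases (by omega : r < 2 * I + 1 ∨ r = 2 * I + 1 ∨ r = 2 * I + 2) with h7 | h7 | h7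
            · exact Or.inr (Or.inr (Or.inr ⟨r, h7, h⟩))
            · subst h7; exact Or.inl h.symm
            · subst h7; exact Or.inr (Or.inl h.symm)
        · rintro (h | h | h | ⟨r, hr, h⟩)
          · exact Or.inr ⟨2 * I + 1, by omega, h.symm⟩
          · exact Or.inr ⟨2 * I + 2, by omega, h.symm⟩
          · exact Or.inl h
          · exact Or.inr ⟨r, by omega, h⟩
      rw [h6]
      exact h5
    · rw [mem_LK]
      rintro (h7 | ⟨r, hr, h7⟩)
      · exact hV.ne_empty hF' h7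
      · have := hV.injD (by omega) hF' h7
        omega
    · intro q hq hqp
      refine mem_LK.2 (Or.inr ⟨_, ?_, rfl⟩)
      obtain ⟨g1, g2⟩ := hV.face hE hq h2
      have hne : fr cw (2 * I + 2) q ≠ 2 * I + 1 := by
        intro e
        have e2 : fr cw (2 * I + 2) q = fr cw (2 * I + 2) p := by rw [e, hf]
        have g3 := (hV.face hE hp h2).2
        rw [← e2, g2] at g3
        have hn1 := (hV.vc hE).nodup
        have hq' : q < ((dl 8 (rt (2 * I + 2))).map vt).length := by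
          rw [List.length_map]; exact hq
        have hp' : p < ((dl 8 (rt (2 * I + 2))).map vt).length := by
          rw [List.length_map]; exact hp
        have h8 : vt (dl 8 (rt (2 * I + 2)))[q] ∈
            (DR vt rt (2 * I + 2)).erase (vt (dl 8 (rt (2 * I + 2)))[p]) := by
          refine Finset.mem_erase.2 ⟨fun h => hqp ?_, mem_SN.2 ⟨_, List.getElem_mem _, rfl⟩⟩
          exact (List.Nodup.getElem_inj_iff hn1 (i := q) (j := p) (hi := hq') (hj := hp')).1
            (by rw [List.getElem_map, List.getElem_map, h])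
        rw [← g3] at h8
        exact Finset.notMem_erase _ _ h8
      omega

/-- invariance under the whole group -/
theorem inv_of_gen {L : Finset (Finset ℕ)}
    (h : ∀ c : Bool, ∀ s ∈ L, im (RepM.gen c) s ∈ L) : ∀ g : M10, ∀ s ∈ L, im g s ∈ L := by
  rintro ⟨g, hg⟩
  induction hg using Subgroup.closure_induction with
  | mem x hx =>
    rcases hx with rfl | rfl
    · exact h true
    · exact h false
  | one => intro s hs; rw [show (⟨1, _⟩ : M10) = 1 from rfl, im_one]; exact hs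
  | mul x y hx hy ihx ihy =>
    intro s hs
    have e : (⟨x * y, mul_mem hx hy⟩ : M10) = ⟨x, hx⟩ * ⟨y, hy⟩ := rfl
    rw [e, im_mul]
    exact ihx _ (ihy s hs)
  | inv x hx ih =>
    intro s hs
    have e : (⟨x⁻¹, inv_mem hx⟩ : M10) = (⟨x, hx⟩ : M10)⁻¹ := rfl
    rw [e]
    have hs' : s ∈ L.image (im (⟨x, hx⟩ : M10)) := by
      have h1 : L.image (im (⟨x, hx⟩ : M10)) = L := by
        refine Finset.eq_of_subset_of_card_le ?_ ?_
        · intro c hc
          obtain ⟨d, hd, rfl⟩ := Finset.mem_image.1 hc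
          exact ih d hd
        · rw [Finset.card_image_of_injective _ (im_inj _)]
      rw [h1]; exact hs
    obtain ⟨d, hd, rfl⟩ := Finset.mem_image.1 hs'
    rw [im_inv_im]
    exact hd

/-- the tables of the two generators on the records -/
structure IV (vt rt : ℕ → ℕ) (iv : Bool → ℕ → ℕ) (NL : ℕ) : Prop where
  lt : ∀ c, ∀ r < NL, iv c r < NL
  eq : ∀ c, ∀ r < NL, DR vt rt (iv c r) = im (RepM.gen c) (DR vt rt r)

theorem LV.iv (hV : LV vt rt cw bp sr nV n NL) {iv pm : Bool → ℕ → ℕ}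
    (hpm : ∀ c, ∀ a, 1 ≤ a → a ≤ nV → 1 ≤ pm c a ∧ pm c a ≤ nV ∧
      vt (pm c a) = RepM.gen c • vt a)
    (h : ∀ c, ∀ r, r < NL → linv rt (iv c) (pm c) NL r = true) : IV vt rt iv NL := by
  have key : ∀ c, ∀ r < NL, iv c r < NL ∧
      DR vt rt (iv c r) = im (RepM.gen c) (DR vt rt r) := by
    intro c r hr
    have h1 := h c r hr
    unfold linv at h1
    rw [Bool.cond_false_right, Bool.and_eq_true, Nat.blt_eq, Nat.beq_eq] at h1
    refine ⟨h1.1, ?_⟩
    have h2 := im_SN hV.hT (g := RepM.gen c) (pm := pm c) (fun a ha => hpm c a ha) (hV.vc hr)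
    rw [DR, h1.2, DR, h2.2]
  exact ⟨fun c r hr => (key c r hr).1, fun c r hr => (key c r hr).2⟩

theorem LV.inv (_hV : LV vt rt cw bp sr nV n NL) {iv : Bool → ℕ → ℕ} (h : IV vt rt iv NL) :
    ∀ g : M10, ∀ s ∈ LK vt rt NL, im g s ∈ LK vt rt NL := by
  refine inv_of_gen fun c s hs => ?_
  rcases mem_LK.1 hs with rfl | ⟨r, hr, rfl⟩
  · refine mem_LK.2 (Or.inl ?_)
    simp [im]
  · exact mem_LK.2 (Or.inr ⟨iv c r, h.lt c r hr, h.eq c r hr⟩)

theorem LV.card_le (hV : LV vt rt cw bp sr nV n NL) : ∀ c ∈ LK vt rt NL, c.card ≤ 3 := by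
  intro c hc
  rcases mem_LK.1 hc with rfl | ⟨r, hr, rfl⟩
  · simp
  · rw [hV.card hr]; exact (hV.len13 hr).2

/-- all vertices of `L` are codes of vectors -/
theorem LV.vlt (hV : LV vt rt cw bp sr nV n NL) : ∀ c ∈ LK vt rt NL, ∀ v ∈ c, v < 16777216 := by
  intro c hc v hv
  rcases mem_LK.1 hc with rfl | ⟨r, hr, rfl⟩
  · simp at hv
  · exact SN_lt hV.hT (hV.vc hr) hv

/-- the state of the complex `L` -/
theorem LV.st (hV : LV vt rt cw bp sr nV n NL) {iv : Bool → ℕ → ℕ} (h : IV vt rt iv NL) :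
    St M10 (LK vt rt NL) (LK vt rt (2 * n + 1)) (NL - (2 * n + 1)) := by
  have hn := hV.hn
  have hcard := hV.card_le
  have hsub : LK vt rt (2 * n + 1) ⊆ LK vt rt NL := by
    intro c hc
    rcases mem_LK.1 hc with rfl | ⟨r, hr, rfl⟩
    · exact mem_LK.2 (Or.inl rfl)
    · exact mem_LK.2 (Or.inr ⟨r, by omega, rfl⟩)
  refine ⟨hV.isCx le_rfl, hV.isCx hn, hV.inv h, fun c hc => (hcard c hc).trans (by norm_num),
    hsub, ?_, fun c hc => hcard c (hsub hc), ?_, ?_, ?_⟩
  · intro c hc h2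
    rcases mem_LK.1 hc with rfl | ⟨r, hr, rfl⟩
    · exact mem_LK.2 (Or.inl rfl)
    · refine mem_LK.2 (Or.inr ⟨r, ?_, rfl⟩)
      by_contra hb
      have := hV.J hr (by omega)
      rw [hV.card hr] at h2
      omega
  · obtain ⟨p, hp⟩ := (hV.bld n le_rfl).inn
    exact ⟨p, hp _ (fun c hc => hc)⟩
  · have h0 : tets (LK vt rt NL) = ∅ := by
      ext c
      rw [mem_tets]
      simp only [Finset.notMem_empty, iff_false, not_and]
      intro hc h4
      have := hcard c hc
      omega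
    have h1 : tris (LK vt rt NL) = tris (LK vt rt (2 * n + 1)) ∪
        ((Finset.Ico (2 * n + 1) NL).image (DR vt rt)) := by
      ext c
      rw [mem_tris, Finset.mem_union, mem_tris, mem_LK, mem_LK, Finset.mem_image]
      constructor
      · rintro ⟨rfl | ⟨r, hr, rfl⟩, h3⟩
        · simp at h3
        · by_cases hb : r < 2 * n + 1
          · exact Or.inl ⟨Or.inr ⟨r, hb, rfl⟩, h3⟩
          · exact Or.inr ⟨r, Finset.mem_Ico.2 ⟨by omega, hr⟩, rfl⟩
      · rintro (⟨rfl | ⟨r, hr, rfl⟩, h3⟩ | ⟨r, hr, rfl⟩)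
        · simp at h3
        · exact ⟨Or.inr ⟨r, by omega, rfl⟩, h3⟩
        · obtain ⟨g1, g2⟩ := Finset.mem_Ico.1 hr
          exact ⟨Or.inr ⟨r, g2, rfl⟩, by rw [hV.card g2]; exact hV.J g2 g1⟩
    have h2 : Disjoint (tris (LK vt rt (2 * n + 1)))
        ((Finset.Ico (2 * n + 1) NL).image (DR vt rt)) := by
      refine Finset.disjoint_left.2 fun c hc hc' => ?_
      obtain ⟨r, hr, rfl⟩ := Finset.mem_image.1 hc'
      obtain ⟨g1, g2⟩ := Finset.mem_Ico.1 hr
      rcases mem_LK.1 (mem_tris.1 hc).1 with h3 | ⟨r', hr', h3⟩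
      · exact hV.ne_empty g2 h3
      · have := hV.injD (by omega) g2 h3
        omega
    rw [h0, h1, Finset.card_union_of_disjoint h2, Finset.card_image_of_injOn, Nat.card_Ico]
    · simp
    · intro a ha b hb e
      have ha' := (Finset.mem_Ico.1 ha).2
      have hb' := (Finset.mem_Ico.1 hb).2
      exact hV.injD ha' hb' e
  · intro c hc
    rcases mem_LK.1 hc with rfl | ⟨r, hr, rfl⟩
    · intro g a ha; simp at ha
    · exact ord_SN hV.hT (hV.vc hr)

end

end Pool.Agent.DF302A
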