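import Pool.Agent.Work.MP_df302a_co.EmbA
import Pool.Agent.Work.MP_df302a_co.FreeN
import Pool.Agent.Work.MP_df302a_co.LCert

/-! # MP_df302a_co : the complex `L` is embedded.

Certificate: separating functionals for the pairs (representative, triangle), a table of the orbits
of the triangles, and for each simplex a larger one. -/

set_option autoImplicit false

namespace Pool.Agent.DF302A.EK

open Finset Module Pool.Agent.DF302A.Orb Pool.Agent.DF302A.PI

/-! ### the functions evaluated by the kernel -/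

/-- one of the three digits -/
noncomputable def mem3 (x d : ℕ) : Bool :=
  cond (Nat.beq x (Nat.mod d 1024)) true
    (cond (Nat.beq x (Nat.mod (Nat.div d 1024) 1024)) true (Nat.beq x (Nat.div d 1048576)))

/-- positive, or zero and one of the three digits -/
noncomputable def cpos (G V x d : ℕ) : Bool :=
  cond (Nat.blt 256 (vl G V)) true (cond (Nat.beq (vl G V) 256) (mem3 x d) false)

/-- negative, or zero and one of the three digits -/
noncomputable def cneg (G V y p : ℕ) : Bool :=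
  cond (Nat.blt (vl G V) 256) true (cond (Nat.beq (vl G V) 256) (mem3 y p) false)

/-- the functional separates the two triangles -/
noncomputable def sepB (vx : ℕ → ℕ) (G p d : ℕ) : Bool :=
  cond (cpos G (vx (Nat.mod p 1024)) (Nat.mod p 1024) d)
    (cond (cpos G (vx (Nat.mod (Nat.div p 1024) 1024)) (Nat.mod (Nat.div p 1024) 1024) d)
      (cond (cpos G (vx (Nat.div p 1048576)) (Nat.div p 1048576) d)
        (cond (cneg G (vx (Nat.mod d 1024)) (Nat.mod d 1024) p)
          (cond (cneg G (vx (Nat.mod (Nat.div d 1024) 1024)) (Nat.mod (Nat.div d 1024) 1024) p)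
            (cneg G (vx (Nat.div d 1048576)) (Nat.div d 1048576) p) false) false) false) false)
    false

/-- the check of the pair (record `p`, record `r`) -/
noncomputable def sepk (rt vx fx sl : ℕ → ℕ) (nF p r : ℕ) : Bool :=
  cond (Nat.blt (rt r) 1048576) true
    (cond (Nat.blt (sl r) nF) (sepB vx (fx (sl r)) (rt p) (rt r)) false)

/-- the functional vanishes at the vertex -/
noncomputable def zz (vx : ℕ → ℕ) (G x : ℕ) : Bool := Nat.beq (vl G (vx x)) 256

/-- nonzero at `x`, zero at `y`, `z` -/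
noncomputable def dul (vx : ℕ → ℕ) (G x y z : ℕ) : Bool :=
  cond (zz vx G x) false (cond (zz vx G y) (zz vx G z) false)

/-- the three dual functionals of a triangle -/
noncomputable def dulk (vx : ℕ → ℕ) (G1 G2 G3 p : ℕ) : Bool :=
  cond (dul vx G1 (Nat.mod p 1024) (Nat.mod (Nat.div p 1024) 1024) (Nat.div p 1048576))
    (cond (dul vx G2 (Nat.mod (Nat.div p 1024) 1024) (Nat.mod p 1024) (Nat.div p 1048576))
      (dul vx G3 (Nat.div p 1048576) (Nat.mod p 1024) (Nat.mod (Nat.div p 1024) 1024)) false) false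

/-- check of the spread code of a vertex -/
noncomputable def vxk (vt vx : ℕ → ℕ) (a : ℕ) : Bool :=
  Nat.beq (vx (Nat.succ a)) (spr (vt (Nat.succ a)))

/-- check of a simplex containing the simplex of the record `r` -/
noncomputable def upk (rt cw up : ℕ → ℕ) (NL r : ℕ) : Bool :=
  cond (Nat.ble 1048576 (rt r)) true
    (cond (Nat.blt (up r) NL) (cond (Nat.ble 1024 (rt (up r)))
      (cond (Nat.beq (fr cw (up r) 0) r) true (cond (Nat.beq (fr cw (up r) 1) r) true
        (cond (Nat.ble 1048576 (rt (up r))) (Nat.beq (fr cw (up r) 2) r) false))) false) false)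

/-- check of the orbit of a triangle -/
noncomputable def obk (rt iv0 iv1 ob rp : ℕ → ℕ) (nR r : ℕ) : Bool :=
  cond (Nat.blt (rt r) 1048576) true
    (cond (Nat.blt (ob r) nR) (Nat.beq (rp (ob r)) r)
      (cond (Nat.beq (Nat.mod (ob r) 2) 0)
        (Nat.blt (Nat.div (ob (iv0 r)) 2) (Nat.div (ob r) 2))
        (Nat.blt (Nat.div (ob (iv1 r)) 2) (Nat.div (ob r) 2))))

/-! ### the functional of a code -/

/-- the functional -/
noncomputable def fG (G : ℕ) (i : Fin 10) : ℝ := (dB G (10 - (i : ℕ)) : ℝ) - 8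

theorem fG_sum {G : ℕ} (h : fOK G = true) : ∑ i, fG G i = 0 := by
  obtain ⟨-, -, -, h4⟩ := fOK_spec h
  unfold fG
  rw [Finset.sum_sub_distrib, Finset.sum_const, Finset.card_univ, Fintype.card_fin]
  have h5 : ∑ i : Fin 10, dB G (10 - (i : ℕ)) = 80 := by
    rw [← h4, ← Fin.sum_univ_eq_sum_range (fun j => dB G (j + 1)) 10]
    refine Fintype.sum_equiv Fin.revPerm _ _ fun i => ?_
    congr 1
    rw [Fin.revPerm_apply, Fin.val_rev]
    have := i.2
    omega
  have h6 : ∑ i : Fin 10, (dB G (10 - (i : ℕ)) : ℝ) = 80 := by exact_mod_cast h5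
  rw [h6]
  norm_num

theorem phi_vl {G : ℕ} (h : fOK G = true) (v : V24) :
    phiW (fG G) (fG_sum h) (p24 v) = (vl G (spr v.n) : ℝ) - 256 := by
  rw [p24, phiW_mk]
  have h1 := vl_spr h v.n
  have h2 : (vl G (spr v.n) : ℝ) + 8 * ∑ i ∈ range 10, (d4 v.n i : ℝ) =
      256 + ∑ i ∈ range 10, (d4 v.n i : ℝ) * (dB G (10 - i) : ℝ) := by exact_mod_cast h1
  have h3 : ∑ i : Fin 10, ((dv v.n i : ℕ) : ℝ) * fG G i =
      (∑ i ∈ range 10, (d4 v.n i : ℝ) * (dB G (10 - i) : ℝ)) -
        8 * ∑ i ∈ range 10, (d4 v.n i : ℝ) := by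
    rw [Finset.mul_sum, ← Finset.sum_sub_distrib, Finset.sum_range]
    refine Finset.sum_congr rfl fun i _ => ?_
    have h4 : ((dv v.n i : ℕ) : ℝ) = (d4 v.n i : ℝ) := rfl
    rw [h4, fG]
    ring
  rw [h3]
  linarith

/-! ### the certificate -/

/-- the certificate for the position of `L` -/
structure EV (vt rt cw vx fx up ob rp : ℕ → ℕ) (iv : Bool → ℕ → ℕ) (sl : ℕ → ℕ → ℕ)
    (du : ℕ → ℕ → ℕ) (nV NL nF nR : ℕ) : Prop where
  hvx : ∀ a, a < nV → vxk vt vx a = true
  hfx : ∀ s, s < nF → fOK (fx s) = true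
  hrp : ∀ i, i < nR → rp i < NL ∧ 1048576 ≤ rt (rp i)
  hsep : ∀ i, i < nR → ∀ r, r < NL → sepk rt vx fx (sl i) nF (rp i) r = true
  hdul : ∀ i, i < nR → (∀ j, j < 3 → du i j < nF) ∧
    dulk vx (fx (du i 0)) (fx (du i 1)) (fx (du i 2)) (rt (rp i)) = true
  hup : ∀ r, r < NL → upk rt cw up NL r = true
  hob : ∀ r, r < NL → obk rt (iv true) (iv false) ob rp nR r = true

section
variable {vt rt cw bp sr vx fx up ob rp : ℕ → ℕ} {iv : Bool → ℕ → ℕ} {sl du : ℕ → ℕ → ℕ}
  {nV n NL nF nR : ℕ}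

theorem mem_DR3 (hV : LV vt rt cw bp sr nV n NL) {r : ℕ} (hr : r < NL) (h : 1048576 ≤ rt r)
    {v : ℕ} : v ∈ DR vt rt r ↔
      v = vt (rt r % 1024) ∨ v = vt (rt r / 1024 % 1024) ∨ v = vt (rt r / 1048576) := by
  rw [DR, mem_SN, (hV.digits hr).2.2 h]
  simp [eq_comm]

theorem digit_ok (hV : LV vt rt cw bp sr nV n NL) {r : ℕ} (hr : r < NL) (h : 1048576 ≤ rt r) :
    (1 ≤ rt r % 1024 ∧ rt r % 1024 ≤ nV) ∧ (1 ≤ rt r / 1024 % 1024 ∧ rt r / 1024 % 1024 ≤ nV) ∧
      (1 ≤ rt r / 1048576 ∧ rt r / 1048576 ≤ nV) := by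
  have h1 := (hV.vc hr).ok
  rw [(hV.digits hr).2.2 h] at h1
  exact ⟨h1 _ (by simp), h1 _ (by simp), h1 _ (by simp)⟩

theorem mem3_spec (hV : LV vt rt cw bp sr nV n NL) {r : ℕ} (hr : r < NL) (h : 1048576 ≤ rt r)
    {x : ℕ} (hx : mem3 x (rt r) = true) : vt x ∈ DR vt rt r := by
  unfold mem3 at hx
  rw [Bool.cond_true_left, Bool.or_eq_true, Bool.cond_true_left, Bool.or_eq_true, Nat.beq_eq,
    Nat.beq_eq, Nat.beq_eq] at hx
  rw [mem_DR3 hV hr h]
  rcases hx with rfl | rfl | rfl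
  · exact Or.inl rfl
  · exact Or.inr (Or.inl rfl)
  · exact Or.inr (Or.inr rfl)

theorem EV.vx_eq (E : EV vt rt cw vx fx up ob rp iv sl du nV NL nF nR) {x : ℕ} (h1 : 1 ≤ x)
    (h2 : x ≤ nV) : vx x = spr (vt x) := by
  obtain ⟨y, rfl⟩ : ∃ y, x = y + 1 := ⟨x - 1, by omega⟩
  have h3 := E.hvx y (by omega)
  unfold vxk at h3
  rw [Nat.beq_eq] at h3
  exact h3

theorem EV.phi (E : EV vt rt cw vx fx up ob rp iv sl du nV NL nF nR) {G : ℕ} (hG : fOK G = true)
    {x : ℕ} (h1 : 1 ≤ x) (h2 : x ≤ nV) {v : V24} (hv : v.n = vt x) :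
    phiW (fG G) (fG_sum hG) (p24 v) = (vl G (vx x) : ℝ) - 256 := by
  rw [phi_vl hG, hv, E.vx_eq h1 h2]

theorem cpos_spec {G V x d : ℕ} (h : cpos G V x d = true) :
    (0 < (vl G V : ℝ) - 256) ∨ ((vl G V : ℝ) - 256 = 0 ∧ mem3 x d = true) := by
  unfold cpos at h
  rw [Bool.cond_true_left, Bool.or_eq_true, Bool.cond_false_right, Bool.and_eq_true, Nat.blt_eq,
    Nat.beq_eq] at h
  rcases h with h | ⟨h1, h2⟩
  · left
    have : (256 : ℝ) < (vl G V : ℝ) := by exact_mod_cast h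
    linarith
  · right
    exact ⟨by rw [h1]; norm_num, h2⟩

theorem cneg_spec {G V x d : ℕ} (h : cneg G V x d = true) :
    ((vl G V : ℝ) - 256 < 0) ∨ ((vl G V : ℝ) - 256 = 0 ∧ mem3 x d = true) := by
  unfold cneg at h
  rw [Bool.cond_true_left, Bool.or_eq_true, Bool.cond_false_right, Bool.and_eq_true, Nat.blt_eq,
    Nat.beq_eq] at h
  rcases h with h | ⟨h1, h2⟩
  · left
    have : (vl G V : ℝ) < (256 : ℝ) := by exact_mod_cast h
    linarith
  · right
    exact ⟨by rw [h1]; norm_num, h2⟩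

/-- separation of a representative and a triangle -/
theorem EV.sep (E : EV vt rt cw vx fx up ob rp iv sl du nV NL nF nR)
    (hV : LV vt rt cw bp sr nV n NL) {i r : ℕ} (hi : i < nR) (hr : r < NL)
    (h3 : 1048576 ≤ rt r) : ∃ l : W10 →ₗ[ℝ] ℝ,
      (∀ v : V24, v.n ∈ DR vt rt (rp i) → v.n ∉ DR vt rt r → 0 < l (p24 v)) ∧
      (∀ v : V24, v.n ∈ DR vt rt r → v.n ∉ DR vt rt (rp i) → l (p24 v) < 0) ∧
      ∀ v : V24, v.n ∈ DR vt rt (rp i) → v.n ∈ DR vt rt r → l (p24 v) = 0 := by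
  have h := E.hsep i hi r hr
  obtain ⟨hp, hp3⟩ := E.hrp i hi
  unfold sepk at h
  have hb : Nat.blt (rt r) 1048576 = false := by
    rw [← Bool.not_eq_true, Nat.blt_eq]; exact not_lt.2 h3
  rw [hb, cond_false, Bool.cond_false_right, Bool.and_eq_true, Nat.blt_eq] at h
  obtain ⟨hs, h⟩ := h
  have hG := E.hfx _ hs
  unfold sepB at h
  simp only [Bool.cond_false_right, Bool.and_eq_true] at h
  obtain ⟨a1, a2, a3, b1, b2, b3⟩ := h
  obtain ⟨o1, o2, o3⟩ := digit_ok hV hp hp3
  obtain ⟨q1, q2, q3⟩ := digit_ok hV hr h3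
  set l := phiW (fG (fx (sl i r))) (fG_sum hG) with hl
  have A : ∀ v : V24, v.n ∈ DR vt rt (rp i) →
      0 < l (p24 v) ∨ (l (p24 v) = 0 ∧ v.n ∈ DR vt rt r) := by
    intro v hv
    rcases (mem_DR3 hV hp hp3).1 hv with e | e | e
    · rw [E.phi hG o1.1 o1.2 e, e]
      rcases cpos_spec a1 with g | ⟨g, g'⟩
      · exact Or.inl g
      · exact Or.inr ⟨g, mem3_spec hV hr h3 g'⟩
    · rw [E.phi hG o2.1 o2.2 e, e]
      rcases cpos_spec a2 with g | ⟨g, g'⟩
      · exact Or.inl g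
      · exact Or.inr ⟨g, mem3_spec hV hr h3 g'⟩
    · rw [E.phi hG o3.1 o3.2 e, e]
      rcases cpos_spec a3 with g | ⟨g, g'⟩
      · exact Or.inl g
      · exact Or.inr ⟨g, mem3_spec hV hr h3 g'⟩
  have B : ∀ v : V24, v.n ∈ DR vt rt r →
      l (p24 v) < 0 ∨ (l (p24 v) = 0 ∧ v.n ∈ DR vt rt (rp i)) := by
    intro v hv
    rcases (mem_DR3 hV hr h3).1 hv with e | e | e
    · rw [E.phi hG q1.1 q1.2 e, e]
      rcases cneg_spec b1 with g | ⟨g, g'⟩
      · exact Or.inl g
      · exact Or.inr ⟨g, mem3_spec hV hp hp3 g'⟩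
    · rw [E.phi hG q2.1 q2.2 e, e]
      rcases cneg_spec b2 with g | ⟨g, g'⟩
      · exact Or.inl g
      · exact Or.inr ⟨g, mem3_spec hV hp hp3 g'⟩
    · rw [E.phi hG q3.1 q3.2 e, e]
      rcases cneg_spec b3 with g | ⟨g, g'⟩
      · exact Or.inl g
      · exact Or.inr ⟨g, mem3_spec hV hp hp3 g'⟩
  refine ⟨l, fun v hv hv' => ?_, fun v hv hv' => ?_, fun v hv hv' => ?_⟩
  · rcases A v hv with g | ⟨_, g⟩
    · exact g
    · exact absurd g hv'
  · rcases B v hv with g | ⟨_, g⟩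
    · exact g
    · exact absurd g hv'
  · rcases A v hv with g | ⟨g, _⟩
    · rcases B v hv' with g' | ⟨g', _⟩
      · linarith
      · exact g'
    · exact g

theorem zz_spec {G x : ℕ} : zz vx G x = true ↔ (vl G (vx x) : ℝ) - 256 = 0 := by
  unfold zz
  rw [Nat.beq_eq]
  constructor
  · intro h
    rw [h]; norm_num
  · intro h
    have h1 : (vl G (vx x) : ℝ) = 256 := by linarith
    exact_mod_cast h1

theorem dul_spec {G x y z : ℕ} (h : dul vx G x y z = true) :
    (vl G (vx x) : ℝ) - 256 ≠ 0 ∧ (vl G (vx y) : ℝ) - 256 = 0 ∧ (vl G (vx z) : ℝ) - 256 = 0 := by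
  unfold dul at h
  rw [Bool.cond_false_left, Bool.and_eq_true, Bool.cond_false_right, Bool.and_eq_true,
    Bool.not_eq_true', zz_spec, zz_spec] at h
  obtain ⟨h1, h2, h3⟩ := h
  refine ⟨fun h => ?_, h2, h3⟩
  rw [← zz_spec (vx := vx), h1] at h
  exact Bool.false_ne_true h

/-- dual functionals -/
theorem EV.dual (E : EV vt rt cw vx fx up ob rp iv sl du nV NL nF nR)
    (hV : LV vt rt cw bp sr nV n NL) {i : ℕ} (hi : i < nR) {v : V24}
    (hv : v.n ∈ DR vt rt (rp i)) : ∃ l : W10 →ₗ[ℝ] ℝ, l (p24 v) ≠ 0 ∧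
      ∀ u : V24, u.n ∈ DR vt rt (rp i) → u ≠ v → l (p24 u) = 0 := by
  obtain ⟨hp, hp3⟩ := E.hrp i hi
  obtain ⟨hdu', h⟩ := E.hdul i hi
  have hdu0 := hdu' 0 (by norm_num)
  have hdu1 := hdu' 1 (by norm_num)
  have hdu2 := hdu' 2 (by norm_num)
  unfold dulk at h
  simp only [Bool.cond_false_right, Bool.and_eq_true] at h
  obtain ⟨a1, a2, a3⟩ := h
  obtain ⟨o1, o2, o3⟩ := digit_ok hV hp hp3
  have g1 := dul_spec a1
  have g2 := dul_spec a2
  have g3 := dul_spec a3
  have hu : ∀ {u : V24} {x : ℕ}, v.n = vt x → u.n = vt x → u = v := fun h1 h2 =>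
    V24.n_inj (h2.trans h1.symm)
  rcases (mem_DR3 hV hp hp3).1 hv with e | e | e
  · refine ⟨phiW (fG (fx (du i 0))) (fG_sum (E.hfx _ hdu0)), ?_, fun u hu1 hu2 => ?_⟩
    · rw [E.phi (E.hfx _ hdu0) o1.1 o1.2 e]
      exact g1.1
    · rcases (mem_DR3 hV hp hp3).1 hu1 with e' | e' | e'
      · exact absurd (hu e e') hu2
      · rw [E.phi (E.hfx _ hdu0) o2.1 o2.2 e']
        exact g1.2.1
      · rw [E.phi (E.hfx _ hdu0) o3.1 o3.2 e']
        exact g1.2.2
  · refine ⟨phiW (fG (fx (du i 1))) (fG_sum (E.hfx _ hdu1)), ?_, fun u hu1 hu2 => ?_⟩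
    · rw [E.phi (E.hfx _ hdu1) o2.1 o2.2 e]
      exact g2.1
    · rcases (mem_DR3 hV hp hp3).1 hu1 with e' | e' | e'
      · rw [E.phi (E.hfx _ hdu1) o1.1 o1.2 e']
        exact g2.2.1
      · exact absurd (hu e e') hu2
      · rw [E.phi (E.hfx _ hdu1) o3.1 o3.2 e']
        exact g2.2.2
  · refine ⟨phiW (fG (fx (du i 2))) (fG_sum (E.hfx _ hdu2)), ?_, fun u hu1 hu2 => ?_⟩
    · rw [E.phi (E.hfx _ hdu2) o3.1 o3.2 e]
      exact g3.1
    · rcases (mem_DR3 hV hp hp3).1 hu1 with e' | e' | e'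
      · rw [E.phi (E.hfx _ hdu2) o1.1 o1.2 e']
        exact g3.2.1
      · rw [E.phi (E.hfx _ hdu2) o2.1 o2.2 e']
        exact g3.2.2
      · exact absurd (hu e e') hu2

/-- each simplex is contained in a triangle -/
theorem EV.above (E : EV vt rt cw vx fx up ob rp iv sl du nV NL nF nR)
    (hV : LV vt rt cw bp sr nV n NL) : ∀ k r, NL - r ≤ k → r < NL →
      ∃ r' < NL, 1048576 ≤ rt r' ∧ DR vt rt r ⊆ DR vt rt r' := by
  intro k
  induction k with
  | zero => intro r h1 h2; omega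
  | succ k ih =>
    intro r h1 hr
    have h := E.hup r hr
    unfold upk at h
    rw [Bool.cond_true_left, Bool.or_eq_true, Nat.ble_eq] at h
    rcases h with h | h
    · exact ⟨r, hr, h, Finset.Subset.refl _⟩
    · rw [Bool.cond_false_right, Bool.and_eq_true, Nat.blt_eq, Bool.cond_false_right,
        Bool.and_eq_true, Nat.ble_eq, Bool.cond_true_left, Bool.or_eq_true, Bool.cond_true_left,
        Bool.or_eq_true, Bool.cond_false_right, Bool.and_eq_true, Nat.ble_eq, Nat.beq_eq,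
        Nat.beq_eq, Nat.beq_eq] at h
      obtain ⟨hu, hu2, h⟩ := h
      have hlen := hV.len hu
      have h2 : 2 ≤ (dl 8 (rt (up r))).length := by
        by_cases h5 : rt (up r) < 1048576
        · rw [hlen.2.1 hu2 h5]
        · rw [hlen.2.2 (by omega)]; omega
      obtain ⟨q, hq, e⟩ : ∃ q, q < (dl 8 (rt (up r))).length ∧ fr cw (up r) q = r := by
        rcases h with h | h | ⟨h5, h⟩
        · exact ⟨0, by omega, h⟩
        · exact ⟨1, by omega, h⟩
        · exact ⟨2, by rw [hlen.2.2 h5]; omega, h⟩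
      obtain ⟨f1, f2⟩ := hV.face hu hq h2
      rw [e] at f1 f2
      obtain ⟨r', g1, g2, g3⟩ := ih (up r) (by omega) hu
      refine ⟨r', g1, g2, Finset.Subset.trans ?_ g3⟩
      rw [f2]
      exact Finset.erase_subset _ _

theorem tri_of_card (hV : LV vt rt cw bp sr nV n NL) {r : ℕ} (hr : r < NL)
    (h : (DR vt rt r).card = 3) : 1048576 ≤ rt r := by
  rw [hV.card hr] at h
  by_contra h2
  have hlen := hV.len hr
  by_cases h5 : rt r < 1024
  · have := hlen.1 h5
    omega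
  · have := hlen.2.1 (by omega) (by omega)
    omega

/-- the orbits of the triangles -/
theorem EV.orbit (E : EV vt rt cw vx fx up ob rp iv sl du nV NL nF nR)
    (hV : LV vt rt cw bp sr nV n NL) (hI : IV vt rt iv NL) : ∀ k r, ob r / 2 ≤ k → r < NL →
      1048576 ≤ rt r → ∃ g : M10, ∃ i < nR, im g (DR vt rt r) = DR vt rt (rp i) := by
  intro k
  induction k with
  | zero =>
    intro r h1 hr h3
    have h := E.hob r hr
    unfold obk at h
    have hb : Nat.blt (rt r) 1048576 = false := by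
      rw [← Bool.not_eq_true, Nat.blt_eq]; exact not_lt.2 h3
    rw [hb, cond_false] at h
    by_cases hn : Nat.blt (ob r) nR = true
    · rw [hn, cond_true, Nat.beq_eq] at h
      rw [Nat.blt_eq] at hn
      exact ⟨1, ob r, hn, by rw [im_one, h]⟩
    · rw [Bool.not_eq_true] at hn
      rw [hn, cond_false] at h
      exfalso
      have h0 : Nat.div (ob r) 2 = 0 := Nat.le_zero.1 h1
      rw [h0] at h
      cases hc : Nat.beq (Nat.mod (ob r) 2) 0
      · rw [hc, cond_false, Nat.blt_eq] at h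
        exact absurd h (Nat.not_lt_zero _)
      · rw [hc, cond_true, Nat.blt_eq] at h
        exact absurd h (Nat.not_lt_zero _)
  | succ k ih =>
    intro r h1 hr h3
    have h := E.hob r hr
    unfold obk at h
    have hb : Nat.blt (rt r) 1048576 = false := by
      rw [← Bool.not_eq_true, Nat.blt_eq]; exact not_lt.2 h3
    rw [hb, cond_false] at h
    by_cases hn : Nat.blt (ob r) nR = true
    · rw [hn, cond_true, Nat.beq_eq] at h
      rw [Nat.blt_eq] at hn
      exact ⟨1, ob r, hn, by rw [im_one, h]⟩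
    · rw [Bool.not_eq_true] at hn
      rw [hn, cond_false] at h
      have step : ∀ c, Nat.div (ob (iv c r)) 2 < Nat.div (ob r) 2 →
          ∃ g : M10, ∃ i < nR, im g (DR vt rt r) = DR vt rt (rp i) := by
        intro c hc
        have hlt := hI.lt c r hr
        have heq := hI.eq c r hr
        have h4 : 1048576 ≤ rt (iv c r) := by
          refine tri_of_card hV hlt ?_
          rw [heq, card_im, hV.card hr]
          exact (hV.len hr).2.2 h3
        have hc' : ob (iv c r) / 2 < ob r / 2 := hc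
        obtain ⟨g, i, hi, e⟩ := ih (iv c r) (by omega) hlt h4
        refine ⟨g * RepM.gen c, i, hi, ?_⟩
        rw [im_mul, ← heq, e]
      cases hc : Nat.beq (Nat.mod (ob r) 2) 0
      · rw [hc, cond_false, Nat.blt_eq] at h
        exact step false h
      · rw [hc, cond_true, Nat.blt_eq] at h
        exact step true h

/-- the complex `L` is embedded -/
theorem EV.inj (E : EV vt rt cw vx fx up ob rp iv sl du nV NL nF nR)
    (hV : LV vt rt cw bp sr nV n NL) (hI : IV vt rt iv NL) :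
    Set.InjOn (fun t => linP p24 t) (cone (FV.pre V24.n (LK vt rt NL))) := by
  classical
  have hlt := hV.vlt
  have hsm : ∀ (g : M10) (d : Finset V24),
      (d.image (fun v => g • v)).image V24.n = im g (d.image V24.n) := fun g d =>
    (dic24 hlt).image_smul g d
  have hmem : ∀ (d : Finset V24) (v : V24), v.n ∈ d.image V24.n ↔ v ∈ d := by
    intro d v
    rw [Finset.mem_image]
    constructor
    · rintro ⟨w, hw, e⟩
      exact V24.n_inj e ▸ hw
    · exact fun h => ⟨v, h, rfl⟩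
  have hinjI : ∀ {c d : Finset V24}, c.image V24.n ⊆ d.image V24.n → c ⊆ d := by
    intro c d h v hv
    exact (hmem d v).1 (h ((hmem c v).2 hv))
  refine FV.injOn_of_sep p24_smul
    {d | ∃ r < NL, 1048576 ≤ rt r ∧ d.image V24.n = DR vt rt r}
    {d | ∃ i < nR, d.image V24.n = DR vt rt (rp i)} ?_ ?_ ?_ ?_ ?_
  · intro c hc
    have hc' : c.image V24.n ∈ LK vt rt NL := hc
    have h1 : ∃ r < NL, 1048576 ≤ rt r ∧ c.image V24.n ⊆ DR vt rt r := by
      rcases mem_LK.1 hc' with h | ⟨r, hr, h⟩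
      · rcases Nat.eq_zero_or_pos NL with h0 | h0
        · exfalso
          have := hV.hn
          omega
        · obtain ⟨r', g1, g2, -⟩ := E.above hV NL 0 (by omega) h0
          exact ⟨r', g1, g2, by rw [h]; exact Finset.empty_subset _⟩
      · obtain ⟨r', g1, g2, g3⟩ := E.above hV NL r (by omega) hr
        exact ⟨r', g1, g2, by rw [← h]; exact g3⟩
    obtain ⟨r, hr, h3, hsub⟩ := h1
    obtain ⟨d, hd⟩ := (dic24 hlt).surj (c := DR vt rt r) (mem_LK.2 (Or.inr ⟨r, hr, rfl⟩))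
    exact ⟨d, ⟨r, hr, h3, hd⟩, hinjI (by rw [hd]; exact hsub)⟩
  · rintro g d ⟨r, hr, h3, hd⟩
    have h4 : im g (DR vt rt r) ∈ LK vt rt NL :=
      hV.inv hI g _ (mem_LK.2 (Or.inr ⟨r, hr, rfl⟩))
    have hcard : (im g (DR vt rt r)).card = 3 := by
      rw [card_im, hV.card hr]
      exact (hV.len hr).2.2 h3
    rcases mem_LK.1 h4 with h5 | ⟨r', hr', h5⟩
    · rw [h5] at hcard
      simp at hcard
    · refine ⟨r', hr', tri_of_card hV hr' (by rw [h5]; exact hcard), ?_⟩
      rw [hsm, hd, h5]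
  · rintro d ⟨r, hr, h3, hd⟩
    obtain ⟨g, i, hi, e⟩ := E.orbit hV hI (ob r / 2) r le_rfl hr h3
    exact ⟨g, i, hi, by rw [hsm, hd, e]⟩
  · rintro p ⟨i, hi, hp⟩ d ⟨r, hr, h3, hd⟩
    obtain ⟨l, h1, h2, h4⟩ := E.sep hV hi hr h3
    refine ⟨l, fun v hv hv' => h1 v ?_ ?_, fun v hv hv' => h2 v ?_ ?_, fun v hv hv' => h4 v ?_ ?_⟩
    · rw [← hp]; exact (hmem p v).2 hv
    · rw [← hd]; exact fun h => hv' ((hmem d v).1 h)
    · rw [← hd]; exact (hmem d v).2 hv
    · rw [← hp]; exact fun h => hv' ((hmem p v).1 h)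
    · rw [← hp]; exact (hmem p v).2 hv
    · rw [← hd]; exact (hmem d v).2 hv'
  · rintro p ⟨i, hi, hp⟩ a ha h0
    funext v
    by_cases hv : v ∈ p
    · obtain ⟨l, h1, h2⟩ := E.dual hV hi (v := v) (by rw [← hp]; exact (hmem p v).2 hv)
      have e1 : l (linP p24 a) = ∑ u, a u * l (p24 u) := by
        rw [linP_apply, map_sum]
        exact Finset.sum_congr rfl fun u _ => by rw [map_smul, smul_eq_mul]
      rw [h0, map_zero, Finset.sum_eq_single v] at e1
      · exact (mul_eq_zero.1 e1.symm).resolve_right h1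
      · intro u _ hu
        by_cases hup : u ∈ p
        · rw [h2 u (by rw [← hp]; exact (hmem p u).2 hup) hu, mul_zero]
        · rw [ha u hup, zero_mul]
      · exact fun h => absurd (Finset.mem_univ _) h
    · exact ha v hv

end

end Pool.Agent.DF302A.EK
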