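import Pool.Agent.Work.MP_df302a_co.SCert
import Pool.Agent.Work.MP_df302a_co.SData

/-! # MP_df302a_co : check of the data of the complex -/

set_option autoImplicit false
set_option maxRecDepth 100000

namespace Pool.Agent.DF302A

theorem zkrec_0 : chunk (lrec zVT 481 zRT zCW 6001) 6721 9 0 = true := by decide +kernel

theorem zkrec_1 : chunk (lrec zVT 481 zRT zCW 6001) 6721 9 1 = true := by decide +kernel

theorem zkrec_2 : chunk (lrec zVT 481 zRT zCW 6001) 6721 9 2 = true := by decide +kernel

theorem zkrec_3 : chunk (lrec zVT 481 zRT zCW 6001) 6721 9 3 = true := by decide +kernel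

theorem zkrec_4 : chunk (lrec zVT 481 zRT zCW 6001) 6721 9 4 = true := by decide +kernel

theorem zkrec_5 : chunk (lrec zVT 481 zRT zCW 6001) 6721 9 5 = true := by decide +kernel

theorem zkrec_6 : chunk (lrec zVT 481 zRT zCW 6001) 6721 9 6 = true := by decide +kernel

theorem zkrec_7 : chunk (lrec zVT 481 zRT zCW 6001) 6721 9 7 = true := by decide +kernel

theorem zkrec_8 : chunk (lrec zVT 481 zRT zCW 6001) 6721 9 8 = true := by decide +kernel

theorem zkrec_9 : chunk (lrec zVT 481 zRT zCW 6001) 6721 9 9 = true := by decide +kernel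

theorem zkrec_10 : chunk (lrec zVT 481 zRT zCW 6001) 6721 9 10 = true := by decide +kernel

theorem zkrec_11 : chunk (lrec zVT 481 zRT zCW 6001) 6721 9 11 = true := by decide +kernel

theorem zkrec_12 : chunk (lrec zVT 481 zRT zCW 6001) 6721 9 12 = true := by decide +kernel

theorem zkrec_13 : chunk (lrec zVT 481 zRT zCW 6001) 6721 9 13 = true := by decide +kernel

theorem zkbir_0 : chunk (lbir zRT zCW zBP) 3000 9 0 = true := by decide +kernel

theorem zkbir_1 : chunk (lbir zRT zCW zBP) 3000 9 1 = true := by decide +kernel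

theorem zkbir_2 : chunk (lbir zRT zCW zBP) 3000 9 2 = true := by decide +kernel

theorem zkbir_3 : chunk (lbir zRT zCW zBP) 3000 9 3 = true := by decide +kernel

theorem zkbir_4 : chunk (lbir zRT zCW zBP) 3000 9 4 = true := by decide +kernel

theorem zkbir_5 : chunk (lbir zRT zCW zBP) 3000 9 5 = true := by decide +kernel

theorem zksrt_0 : chunk (lsrt zRT zSR 6721) 6720 9 0 = true := by decide +kernel

theorem zksrt_1 : chunk (lsrt zRT zSR 6721) 6720 9 1 = true := by decide +kernel

theorem zksrt_2 : chunk (lsrt zRT zSR 6721) 6720 9 2 = true := by decide +kernel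

theorem zksrt_3 : chunk (lsrt zRT zSR 6721) 6720 9 3 = true := by decide +kernel

theorem zksrt_4 : chunk (lsrt zRT zSR 6721) 6720 9 4 = true := by decide +kernel

theorem zksrt_5 : chunk (lsrt zRT zSR 6721) 6720 9 5 = true := by decide +kernel

theorem zksrt_6 : chunk (lsrt zRT zSR 6721) 6720 9 6 = true := by decide +kernel

theorem zksrt_7 : chunk (lsrt zRT zSR 6721) 6720 9 7 = true := by decide +kernel

theorem zksrt_8 : chunk (lsrt zRT zSR 6721) 6720 9 8 = true := by decide +kernel

theorem zksrt_9 : chunk (lsrt zRT zSR 6721) 6720 9 9 = true := by decide +kernel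

theorem zksrt_10 : chunk (lsrt zRT zSR 6721) 6720 9 10 = true := by decide +kernel

theorem zksrt_11 : chunk (lsrt zRT zSR 6721) 6720 9 11 = true := by decide +kernel

theorem zksrt_12 : chunk (lsrt zRT zSR 6721) 6720 9 12 = true := by decide +kernel

theorem zksrt_13 : chunk (lsrt zRT zSR 6721) 6720 9 13 = true := by decide +kernel

theorem zkin1_0 : chunk (linv zRT zI1 zQ1 6721) 6721 9 0 = true := by decide +kernel

theorem zkin1_1 : chunk (linv zRT zI1 zQ1 6721) 6721 9 1 = true := by decide +kernel

theorem zkin1_2 : chunk (linv zRT zI1 zQ1 6721) 6721 9 2 = true := by decide +kernel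

theorem zkin1_3 : chunk (linv zRT zI1 zQ1 6721) 6721 9 3 = true := by decide +kernel

theorem zkin1_4 : chunk (linv zRT zI1 zQ1 6721) 6721 9 4 = true := by decide +kernel

theorem zkin1_5 : chunk (linv zRT zI1 zQ1 6721) 6721 9 5 = true := by decide +kernel

theorem zkin1_6 : chunk (linv zRT zI1 zQ1 6721) 6721 9 6 = true := by decide +kernel

theorem zkin1_7 : chunk (linv zRT zI1 zQ1 6721) 6721 9 7 = true := by decide +kernel

theorem zkin1_8 : chunk (linv zRT zI1 zQ1 6721) 6721 9 8 = true := by decide +kernel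

theorem zkin1_9 : chunk (linv zRT zI1 zQ1 6721) 6721 9 9 = true := by decide +kernel

theorem zkin1_10 : chunk (linv zRT zI1 zQ1 6721) 6721 9 10 = true := by decide +kernel

theorem zkin1_11 : chunk (linv zRT zI1 zQ1 6721) 6721 9 11 = true := by decide +kernel

theorem zkin1_12 : chunk (linv zRT zI1 zQ1 6721) 6721 9 12 = true := by decide +kernel

theorem zkin1_13 : chunk (linv zRT zI1 zQ1 6721) 6721 9 13 = true := by decide +kernel

theorem zkin2_0 : chunk (linv zRT zI2 zQ2 6721) 6721 9 0 = true := by decide +kernel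

theorem zkin2_1 : chunk (linv zRT zI2 zQ2 6721) 6721 9 1 = true := by decide +kernel

theorem zkin2_2 : chunk (linv zRT zI2 zQ2 6721) 6721 9 2 = true := by decide +kernel

theorem zkin2_3 : chunk (linv zRT zI2 zQ2 6721) 6721 9 3 = true := by decide +kernel

theorem zkin2_4 : chunk (linv zRT zI2 zQ2 6721) 6721 9 4 = true := by decide +kernel

theorem zkin2_5 : chunk (linv zRT zI2 zQ2 6721) 6721 9 5 = true := by decide +kernel

theorem zkin2_6 : chunk (linv zRT zI2 zQ2 6721) 6721 9 6 = true := by decide +kernel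

theorem zkin2_7 : chunk (linv zRT zI2 zQ2 6721) 6721 9 7 = true := by decide +kernel

theorem zkin2_8 : chunk (linv zRT zI2 zQ2 6721) 6721 9 8 = true := by decide +kernel

theorem zkin2_9 : chunk (linv zRT zI2 zQ2 6721) 6721 9 9 = true := by decide +kernel

theorem zkin2_10 : chunk (linv zRT zI2 zQ2 6721) 6721 9 10 = true := by decide +kernel

theorem zkin2_11 : chunk (linv zRT zI2 zQ2 6721) 6721 9 11 = true := by decide +kernel

theorem zkin2_12 : chunk (linv zRT zI2 zQ2 6721) 6721 9 12 = true := by decide +kernel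

theorem zkin2_13 : chunk (linv zRT zI2 zQ2 6721) 6721 9 13 = true := by decide +kernel

theorem zkpos_0 : chunk (spos zSP zPS 6721) 457 9 0 = true := by decide +kernel

theorem zkstp_0 : chunk (sst zRT zCW zSP zPS zSB) 228 9 0 = true := by decide +kernel

theorem zkrec (i : ℕ) (hi : i < 6721) : (lrec zVT 481 zRT zCW 6001) i = true := by
  refine of_chunks (lrec zVT 481 zRT zCW 6001) 6721 9 14 (by norm_num) (fun j hj => ?_) i hi
  interval_cases j
  · exact zkrec_0
  · exact zkrec_1
  · exact zkrec_2
  · exact zkrec_3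
  · exact zkrec_4
  · exact zkrec_5
  · exact zkrec_6
  · exact zkrec_7
  · exact zkrec_8
  · exact zkrec_9
  · exact zkrec_10
  · exact zkrec_11
  · exact zkrec_12
  · exact zkrec_13

theorem zkbir (i : ℕ) (hi : i < 3000) : (lbir zRT zCW zBP) i = true := by
  refine of_chunks (lbir zRT zCW zBP) 3000 9 6 (by norm_num) (fun j hj => ?_) i hi
  interval_cases j
  · exact zkbir_0
  · exact zkbir_1
  · exact zkbir_2
  · exact zkbir_3
  · exact zkbir_4
  · exact zkbir_5

theorem zksrt (i : ℕ) (hi : i < 6720) : (lsrt zRT zSR 6721) i = true := by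
  refine of_chunks (lsrt zRT zSR 6721) 6720 9 14 (by norm_num) (fun j hj => ?_) i hi
  interval_cases j
  · exact zksrt_0
  · exact zksrt_1
  · exact zksrt_2
  · exact zksrt_3
  · exact zksrt_4
  · exact zksrt_5
  · exact zksrt_6
  · exact zksrt_7
  · exact zksrt_8
  · exact zksrt_9
  · exact zksrt_10
  · exact zksrt_11
  · exact zksrt_12
  · exact zksrt_13

theorem zkin1 (i : ℕ) (hi : i < 6721) : (linv zRT zI1 zQ1 6721) i = true := by
  refine of_chunks (linv zRT zI1 zQ1 6721) 6721 9 14 (by norm_num) (fun j hj => ?_) i hi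
  interval_cases j
  · exact zkin1_0
  · exact zkin1_1
  · exact zkin1_2
  · exact zkin1_3
  · exact zkin1_4
  · exact zkin1_5
  · exact zkin1_6
  · exact zkin1_7
  · exact zkin1_8
  · exact zkin1_9
  · exact zkin1_10
  · exact zkin1_11
  · exact zkin1_12
  · exact zkin1_13

theorem zkin2 (i : ℕ) (hi : i < 6721) : (linv zRT zI2 zQ2 6721) i = true := by
  refine of_chunks (linv zRT zI2 zQ2 6721) 6721 9 14 (by norm_num) (fun j hj => ?_) i hi
  interval_cases j
  · exact zkin2_0
  · exact zkin2_1
  · exact zkin2_2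
  · exact zkin2_3
  · exact zkin2_4
  · exact zkin2_5
  · exact zkin2_6
  · exact zkin2_7
  · exact zkin2_8
  · exact zkin2_9
  · exact zkin2_10
  · exact zkin2_11
  · exact zkin2_12
  · exact zkin2_13

theorem zkpos (i : ℕ) (hi : i < 457) : (spos zSP zPS 6721) i = true := by
  refine of_chunks (spos zSP zPS 6721) 457 9 1 (by norm_num) (fun j hj => ?_) i hi
  interval_cases j
  · exact zkpos_0

theorem zkstp (i : ℕ) (hi : i < 228) : (sst zRT zCW zSP zPS zSB) i = true := by
  refine of_chunks (sst zRT zCW zSP zPS zSB) 228 9 1 (by norm_num) (fun j hj => ?_) i hi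
  interval_cases j
  · exact zkstp_0

theorem zvt1 : ∀ a : Fin 480, zVT (a + 1) < zVT (a + 2) := by decide +kernel

theorem zvt2 : zVT 481 < 16777216 := by decide +kernel

theorem zVTV : VT zVT 481 := VT.of_mono (by norm_num) (fun a h1 h2 => by
  have := zvt1 ⟨a - 1, by omega⟩
  simp only at this
  rw [show a - 1 + 1 = a by omega, show a - 1 + 2 = a + 1 by omega] at this
  exact this) zvt2

theorem zq1 : ∀ a : Fin 481, pmOK zVT zQ1 481 g₁ (a + 1) := by decide +kernel

theorem zq2 : ∀ a : Fin 481, pmOK zVT zQ2 481 g₂ (a + 1) := by decide +kernel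

/-- the certificate of the complex -/
theorem zLV : LV zVT zRT zCW zBP zSR 481 3000 6721 where
  hT := zVTV
  hn := by norm_num
  hrec := fun r hr => zkrec r hr
  hbir := fun i hi => zkbir i hi
  hsr := fun k hk => zksrt k hk
  hlast := by decide +kernel
  h0 := by decide +kernel

/-- the images of the records -/
noncomputable def zIV (c : Bool) : ℕ → ℕ := cond c zI1 zI2

theorem zIVV : IV zVT zRT zIV 6721 := by
  refine zLV.iv (pm := fun c => cond c zQ1 zQ2) (fun c a h1 h2 => ?_) (fun c r hr => ?_)
  · cases c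
    · have h := zq2 ⟨a - 1, by omega⟩
      simp only at h
      rw [show a - 1 + 1 = a by omega] at h
      exact h.spec zVTV h1 h2 (g := RepM.gen false) rfl
    · have h := zq1 ⟨a - 1, by omega⟩
      simp only at h
      rw [show a - 1 + 1 = a by omega] at h
      exact h.spec zVTV h1 h2 (g := RepM.gen true) rfl
  · cases c
    · exact zkin2 r hr
    · exact zkin1 r hr

/-- the certificate of the attaching subcomplex -/
theorem zSV : SV zRT zCW zSP zPS zSB 228 6721 4074 where
  pos := fun j hj => zkpos j hj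
  h0 := by decide +kernel
  stp := fun i hi => zkstp i hi
  t0lt := by norm_num
  t0c := by decide +kernel
  t0n := by decide +kernel
  t00 := by decide +kernel
  t01 := by decide +kernel
  t02 := by decide +kernel

/-- the certificate of the attaching cycle -/
theorem zZV : ZV zRT zCW zSP zPS 228 4074 zP zN where
  hP := by decide +kernel
  hN := by decide +kernel
  bd := by decide +kernel

end Pool.Agent.DF302A
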