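import Pool.Agent.Work.MP_df302a_co.EmbB
import Pool.Agent.Work.MP_df302a_co.EmbD
import Pool.Agent.Work.MP_df302a_co.SCheck

/-! # MP_df302a_co : check of the data for the position of the complex `L`. -/

set_option autoImplicit false
set_option maxRecDepth 100000

namespace Pool.Agent.DF302A.EK

open Finset Pool.Agent.DF302A.Orb

theorem evx_0 : chunk (vxk zVT eVX) 481 9 0 = true := by decide +kernel

theorem evx : ∀ i, i < 481 → (vxk zVT eVX) i = true := by
  intro i hi
  refine of_chunks (vxk zVT eVX) 481 9 1 (by norm_num) (fun j hj => ?_) i hi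
  interval_cases j
  · exact evx_0

theorem efx_0 : chunk (fun s => fOK (eFX s)) 516 9 0 = true := by decide +kernel

theorem efx_1 : chunk (fun s => fOK (eFX s)) 516 9 1 = true := by decide +kernel

theorem efx : ∀ i, i < 516 → (fun s => fOK (eFX s)) i = true := by
  intro i hi
  refine of_chunks (fun s => fOK (eFX s)) 516 9 2 (by norm_num) (fun j hj => ?_) i hi
  interval_cases j
  · exact efx_0
  · exact efx_1

theorem esep0_0 : chunk (sepk zRT eVX eFX eS0 516 1202) 6721 10 0 = true := by decide +kernel

theorem esep0_1 : chunk (sepk zRT eVX eFX eS0 516 1202) 6721 10 1 = true := by decide +kernel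

theorem esep0_2 : chunk (sepk zRT eVX eFX eS0 516 1202) 6721 10 2 = true := by decide +kernel

theorem esep0_3 : chunk (sepk zRT eVX eFX eS0 516 1202) 6721 10 3 = true := by decide +kernel

theorem esep0_4 : chunk (sepk zRT eVX eFX eS0 516 1202) 6721 10 4 = true := by decide +kernel

theorem esep0_5 : chunk (sepk zRT eVX eFX eS0 516 1202) 6721 10 5 = true := by decide +kernel

theorem esep0_6 : chunk (sepk zRT eVX eFX eS0 516 1202) 6721 10 6 = true := by decide +kernel

theorem esep0 : ∀ i, i < 6721 → (sepk zRT eVX eFX eS0 516 1202) i = true := by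
  intro i hi
  refine of_chunks (sepk zRT eVX eFX eS0 516 1202) 6721 10 7 (by norm_num) (fun j hj => ?_) i hi
  interval_cases j
  · exact esep0_0
  · exact esep0_1
  · exact esep0_2
  · exact esep0_3
  · exact esep0_4
  · exact esep0_5
  · exact esep0_6

theorem esep1_0 : chunk (sepk zRT eVX eFX eS1 516 5356) 6721 10 0 = true := by decide +kernel

theorem esep1_1 : chunk (sepk zRT eVX eFX eS1 516 5356) 6721 10 1 = true := by decide +kernel

theorem esep1_2 : chunk (sepk zRT eVX eFX eS1 516 5356) 6721 10 2 = true := by decide +kernel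

theorem esep1_3 : chunk (sepk zRT eVX eFX eS1 516 5356) 6721 10 3 = true := by decide +kernel

theorem esep1_4 : chunk (sepk zRT eVX eFX eS1 516 5356) 6721 10 4 = true := by decide +kernel

theorem esep1_5 : chunk (sepk zRT eVX eFX eS1 516 5356) 6721 10 5 = true := by decide +kernel

theorem esep1_6 : chunk (sepk zRT eVX eFX eS1 516 5356) 6721 10 6 = true := by decide +kernel

theorem esep1 : ∀ i, i < 6721 → (sepk zRT eVX eFX eS1 516 5356) i = true := by
  intro i hi
  refine of_chunks (sepk zRT eVX eFX eS1 516 5356) 6721 10 7 (by norm_num) (fun j hj => ?_) i hi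
  interval_cases j
  · exact esep1_0
  · exact esep1_1
  · exact esep1_2
  · exact esep1_3
  · exact esep1_4
  · exact esep1_5
  · exact esep1_6

theorem esep2_0 : chunk (sepk zRT eVX eFX eS2 516 1700) 6721 10 0 = true := by decide +kernel

theorem esep2_1 : chunk (sepk zRT eVX eFX eS2 516 1700) 6721 10 1 = true := by decide +kernel

theorem esep2_2 : chunk (sepk zRT eVX eFX eS2 516 1700) 6721 10 2 = true := by decide +kernel

theorem esep2_3 : chunk (sepk zRT eVX eFX eS2 516 1700) 6721 10 3 = true := by decide +kernel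

theorem esep2_4 : chunk (sepk zRT eVX eFX eS2 516 1700) 6721 10 4 = true := by decide +kernel

theorem esep2_5 : chunk (sepk zRT eVX eFX eS2 516 1700) 6721 10 5 = true := by decide +kernel

theorem esep2_6 : chunk (sepk zRT eVX eFX eS2 516 1700) 6721 10 6 = true := by decide +kernel

theorem esep2 : ∀ i, i < 6721 → (sepk zRT eVX eFX eS2 516 1700) i = true := by
  intro i hi
  refine of_chunks (sepk zRT eVX eFX eS2 516 1700) 6721 10 7 (by norm_num) (fun j hj => ?_) i hi
  interval_cases j
  · exact esep2_0
  · exact esep2_1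
  · exact esep2_2
  · exact esep2_3
  · exact esep2_4
  · exact esep2_5
  · exact esep2_6

theorem esep3_0 : chunk (sepk zRT eVX eFX eS3 516 1332) 6721 10 0 = true := by decide +kernel

theorem esep3_1 : chunk (sepk zRT eVX eFX eS3 516 1332) 6721 10 1 = true := by decide +kernel

theorem esep3_2 : chunk (sepk zRT eVX eFX eS3 516 1332) 6721 10 2 = true := by decide +kernel

theorem esep3_3 : chunk (sepk zRT eVX eFX eS3 516 1332) 6721 10 3 = true := by decide +kernel

theorem esep3_4 : chunk (sepk zRT eVX eFX eS3 516 1332) 6721 10 4 = true := by decide +kernel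

theorem esep3_5 : chunk (sepk zRT eVX eFX eS3 516 1332) 6721 10 5 = true := by decide +kernel

theorem esep3_6 : chunk (sepk zRT eVX eFX eS3 516 1332) 6721 10 6 = true := by decide +kernel

theorem esep3 : ∀ i, i < 6721 → (sepk zRT eVX eFX eS3 516 1332) i = true := by
  intro i hi
  refine of_chunks (sepk zRT eVX eFX eS3 516 1332) 6721 10 7 (by norm_num) (fun j hj => ?_) i hi
  interval_cases j
  · exact esep3_0
  · exact esep3_1
  · exact esep3_2
  · exact esep3_3
  · exact esep3_4
  · exact esep3_5
  · exact esep3_6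

theorem esep4_0 : chunk (sepk zRT eVX eFX eS4 516 1178) 6721 10 0 = true := by decide +kernel

theorem esep4_1 : chunk (sepk zRT eVX eFX eS4 516 1178) 6721 10 1 = true := by decide +kernel

theorem esep4_2 : chunk (sepk zRT eVX eFX eS4 516 1178) 6721 10 2 = true := by decide +kernel

theorem esep4_3 : chunk (sepk zRT eVX eFX eS4 516 1178) 6721 10 3 = true := by decide +kernel

theorem esep4_4 : chunk (sepk zRT eVX eFX eS4 516 1178) 6721 10 4 = true := by decide +kernel

theorem esep4_5 : chunk (sepk zRT eVX eFX eS4 516 1178) 6721 10 5 = true := by decide +kernel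

theorem esep4_6 : chunk (sepk zRT eVX eFX eS4 516 1178) 6721 10 6 = true := by decide +kernel

theorem esep4 : ∀ i, i < 6721 → (sepk zRT eVX eFX eS4 516 1178) i = true := by
  intro i hi
  refine of_chunks (sepk zRT eVX eFX eS4 516 1178) 6721 10 7 (by norm_num) (fun j hj => ?_) i hi
  interval_cases j
  · exact esep4_0
  · exact esep4_1
  · exact esep4_2
  · exact esep4_3
  · exact esep4_4
  · exact esep4_5
  · exact esep4_6

theorem esep5_0 : chunk (sepk zRT eVX eFX eS5 516 1266) 6721 10 0 = true := by decide +kernel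

theorem esep5_1 : chunk (sepk zRT eVX eFX eS5 516 1266) 6721 10 1 = true := by decide +kernel

theorem esep5_2 : chunk (sepk zRT eVX eFX eS5 516 1266) 6721 10 2 = true := by decide +kernel

theorem esep5_3 : chunk (sepk zRT eVX eFX eS5 516 1266) 6721 10 3 = true := by decide +kernel

theorem esep5_4 : chunk (sepk zRT eVX eFX eS5 516 1266) 6721 10 4 = true := by decide +kernel

theorem esep5_5 : chunk (sepk zRT eVX eFX eS5 516 1266) 6721 10 5 = true := by decide +kernel

theorem esep5_6 : chunk (sepk zRT eVX eFX eS5 516 1266) 6721 10 6 = true := by decide +kernel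

theorem esep5 : ∀ i, i < 6721 → (sepk zRT eVX eFX eS5 516 1266) i = true := by
  intro i hi
  refine of_chunks (sepk zRT eVX eFX eS5 516 1266) 6721 10 7 (by norm_num) (fun j hj => ?_) i hi
  interval_cases j
  · exact esep5_0
  · exact esep5_1
  · exact esep5_2
  · exact esep5_3
  · exact esep5_4
  · exact esep5_5
  · exact esep5_6

theorem esep6_0 : chunk (sepk zRT eVX eFX eS6 516 1524) 6721 10 0 = true := by decide +kernel

theorem esep6_1 : chunk (sepk zRT eVX eFX eS6 516 1524) 6721 10 1 = true := by decide +kernel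

theorem esep6_2 : chunk (sepk zRT eVX eFX eS6 516 1524) 6721 10 2 = true := by decide +kernel

theorem esep6_3 : chunk (sepk zRT eVX eFX eS6 516 1524) 6721 10 3 = true := by decide +kernel

theorem esep6_4 : chunk (sepk zRT eVX eFX eS6 516 1524) 6721 10 4 = true := by decide +kernel

theorem esep6_5 : chunk (sepk zRT eVX eFX eS6 516 1524) 6721 10 5 = true := by decide +kernel

theorem esep6_6 : chunk (sepk zRT eVX eFX eS6 516 1524) 6721 10 6 = true := by decide +kernel

theorem esep6 : ∀ i, i < 6721 → (sepk zRT eVX eFX eS6 516 1524) i = true := by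
  intro i hi
  refine of_chunks (sepk zRT eVX eFX eS6 516 1524) 6721 10 7 (by norm_num) (fun j hj => ?_) i hi
  interval_cases j
  · exact esep6_0
  · exact esep6_1
  · exact esep6_2
  · exact esep6_3
  · exact esep6_4
  · exact esep6_5
  · exact esep6_6

theorem esep7_0 : chunk (sepk zRT eVX eFX eS7 516 5120) 6721 10 0 = true := by decide +kernel

theorem esep7_1 : chunk (sepk zRT eVX eFX eS7 516 5120) 6721 10 1 = true := by decide +kernel

theorem esep7_2 : chunk (sepk zRT eVX eFX eS7 516 5120) 6721 10 2 = true := by decide +kernel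

theorem esep7_3 : chunk (sepk zRT eVX eFX eS7 516 5120) 6721 10 3 = true := by decide +kernel

theorem esep7_4 : chunk (sepk zRT eVX eFX eS7 516 5120) 6721 10 4 = true := by decide +kernel

theorem esep7_5 : chunk (sepk zRT eVX eFX eS7 516 5120) 6721 10 5 = true := by decide +kernel

theorem esep7_6 : chunk (sepk zRT eVX eFX eS7 516 5120) 6721 10 6 = true := by decide +kernel

theorem esep7 : ∀ i, i < 6721 → (sepk zRT eVX eFX eS7 516 5120) i = true := by
  intro i hi
  refine of_chunks (sepk zRT eVX eFX eS7 516 5120) 6721 10 7 (by norm_num) (fun j hj => ?_) i hi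
  interval_cases j
  · exact esep7_0
  · exact esep7_1
  · exact esep7_2
  · exact esep7_3
  · exact esep7_4
  · exact esep7_5
  · exact esep7_6

theorem eup_0 : chunk (upk zRT zCW eUP 6721) 6721 10 0 = true := by decide +kernel

theorem eup_1 : chunk (upk zRT zCW eUP 6721) 6721 10 1 = true := by decide +kernel

theorem eup_2 : chunk (upk zRT zCW eUP 6721) 6721 10 2 = true := by decide +kernel

theorem eup_3 : chunk (upk zRT zCW eUP 6721) 6721 10 3 = true := by decide +kernel

theorem eup_4 : chunk (upk zRT zCW eUP 6721) 6721 10 4 = true := by decide +kernel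

theorem eup_5 : chunk (upk zRT zCW eUP 6721) 6721 10 5 = true := by decide +kernel

theorem eup_6 : chunk (upk zRT zCW eUP 6721) 6721 10 6 = true := by decide +kernel

theorem eup : ∀ i, i < 6721 → (upk zRT zCW eUP 6721) i = true := by
  intro i hi
  refine of_chunks (upk zRT zCW eUP 6721) 6721 10 7 (by norm_num) (fun j hj => ?_) i hi
  interval_cases j
  · exact eup_0
  · exact eup_1
  · exact eup_2
  · exact eup_3
  · exact eup_4
  · exact eup_5
  · exact eup_6

/-- the representatives -/
def eRP : ℕ → ℕ
  | 0 => 1202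
  | 1 => 5356
  | 2 => 1700
  | 3 => 1332
  | 4 => 1178
  | 5 => 1266
  | 6 => 1524
  | _ => 5120

/-- the tables of the separating functionals -/
noncomputable def eSL : ℕ → ℕ → ℕ
  | 0 => eS0
  | 1 => eS1
  | 2 => eS2
  | 3 => eS3
  | 4 => eS4
  | 5 => eS5
  | 6 => eS6
  | _ => eS7

/-- the dual functionals -/
def eDU : ℕ → ℕ → ℕ
  | 0, 0 => 57
  | 0, 1 => 56
  | 0, _ => 45
  | 1, 0 => 57
  | 1, 1 => 37
  | 1, _ => 45
  | 2, 0 => 173
  | 2, 1 => 102
  | 2, _ => 97
  | 3, 0 => 124
  | 3, 1 => 252
  | 3, _ => 99
  | 4, 0 => 144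
  | 4, 1 => 252
  | 4, _ => 95
  | 5, 0 => 343
  | 5, 1 => 45
  | 5, _ => 57
  | 6, 0 => 323
  | 6, 1 => 44
  | 6, _ => 57
  | _, 0 => 23
  | _, 1 => 44
  | _, _ => 57

theorem eob_0 : chunk (obk zRT zI1 zI2 eOB eRP 8) 6721 10 0 = true := by decide +kernel

theorem eob_1 : chunk (obk zRT zI1 zI2 eOB eRP 8) 6721 10 1 = true := by decide +kernel

theorem eob_2 : chunk (obk zRT zI1 zI2 eOB eRP 8) 6721 10 2 = true := by decide +kernel

theorem eob_3 : chunk (obk zRT zI1 zI2 eOB eRP 8) 6721 10 3 = true := by decide +kernel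

theorem eob_4 : chunk (obk zRT zI1 zI2 eOB eRP 8) 6721 10 4 = true := by decide +kernel

theorem eob_5 : chunk (obk zRT zI1 zI2 eOB eRP 8) 6721 10 5 = true := by decide +kernel

theorem eob_6 : chunk (obk zRT zI1 zI2 eOB eRP 8) 6721 10 6 = true := by decide +kernel

theorem eob : ∀ i, i < 6721 → (obk zRT zI1 zI2 eOB eRP 8) i = true := by
  intro i hi
  refine of_chunks (obk zRT zI1 zI2 eOB eRP 8) 6721 10 7 (by norm_num) (fun j hj => ?_) i hi
  interval_cases j
  · exact eob_0
  · exact eob_1
  · exact eob_2
  · exact eob_3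
  · exact eob_4
  · exact eob_5
  · exact eob_6

/-- the certificate for the position of `L` -/
theorem zEV : EV zVT zRT zCW eVX eFX eUP eOB eRP zIV eSL eDU 481 6721 516 8 where
  hvx := evx
  hfx := efx
  hrp i hi := by
    interval_cases i
    all_goals exact ⟨by decide +kernel, by decide +kernel⟩
  hsep i hi r hr := by
    interval_cases i
    · exact esep0 r hr
    · exact esep1 r hr
    · exact esep2 r hr
    · exact esep3 r hr
    · exact esep4 r hr
    · exact esep5 r hr
    · exact esep6 r hr
    · exact esep7 r hr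
  hdul i hi := by
    refine ⟨fun j hj => ?_, ?_⟩
    · interval_cases i <;> interval_cases j <;> decide
    · interval_cases i
      all_goals decide +kernel
  hup := eup
  hob := eob

/-- the complex `L` is embedded -/
theorem hinj24 : Set.InjOn (fun t => linP p24 t) (cone (FV.pre V24.n (LK zVT zRT 6721))) :=
  zEV.inj zLV zIVV

end Pool.Agent.DF302A.EK
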