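import Pool.Agent.Work.MP_df302a_co.Gauge4

/-! # MP_df302a_co : the gauge of a piecewise linear coordinate map. -/

namespace Pool.Agent.DF302A

open Filter Topology

namespace Gauge

section Mk

variable {V : Type*} [AddCommGroup V] [Module ℝ V] [FiniteDimensional ℝ V] {d : ℕ}


/-- additivity defect of a piecewise linear map -/
theorem map_defect (κ : EuclideanSpace ℝ (Fin d) → V) (hκ : PLMap κ) :
    ∃ (M : Finset (EuclideanSpace ℝ (Fin d) →ₗ[ℝ] ℝ)) (C : (V →ₗ[ℝ] ℝ) → ℝ), (∀ l, 0 ≤ C l) ∧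
      ∀ l y₁ y₂, |l (κ y₁) + l (κ y₂) - l (κ (y₁ + y₂))| ≤ C l * df M y₁ y₂ := by
  classical
  let b := Module.finBasis ℝ V
  choose M hM using fun i => pl_defect (hκ (b.coord i))
  refine ⟨Finset.univ.biUnion M, fun l => ∑ i, |l (b i)|,
    fun l => Finset.sum_nonneg fun i _ => abs_nonneg _, fun l y₁ y₂ => ?_⟩
  have h1 : ∀ v : V, l v = ∑ i, b.coord i v * l (b i) := by
    intro v
    conv_lhs => rw [← b.sum_repr v, map_sum]
    refine Finset.sum_congr rfl fun i _ => ?_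
    rw [map_smul, smul_eq_mul, Module.Basis.coord_apply]
  have h2 : l (κ y₁) + l (κ y₂) - l (κ (y₁ + y₂)) =
      ∑ i, (b.coord i (κ y₁) + b.coord i (κ y₂) - b.coord i (κ (y₁ + y₂))) * l (b i) := by
    rw [h1 (κ y₁), h1 (κ y₂), h1 (κ (y₁ + y₂)), ← Finset.sum_add_distrib,
      ← Finset.sum_sub_distrib]
    refine Finset.sum_congr rfl fun i _ => ?_
    ring
  rw [h2, Finset.sum_mul]
  refine (Finset.abs_sum_le_sum_abs _ _).trans (Finset.sum_le_sum fun i _ => ?_)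
  rw [abs_mul, mul_comm]
  exact mul_le_mul_of_nonneg_left
    (hM i _ (Finset.subset_biUnion_of_mem M (Finset.mem_univ i)) y₁ y₂) (abs_nonneg _)

/-- sign order in the source from sign order in the target -/
theorem map_sign (κ : EuclideanSpace ℝ (Fin d) → V) (g : V → EuclideanSpace ℝ (Fin d)) (hg : PLMap g) (hgκ : ∀ y, g (κ y) = y)
    (M : Finset (EuclideanSpace ℝ (Fin d) →ₗ[ℝ] ℝ)) : ∃ N : Finset (V →ₗ[ℝ] ℝ), ∀ y y₀,
      (∀ l ∈ N, Le1 (l (κ y)) (l (κ y₀))) → ∀ μ ∈ M, Le1 (μ y) (μ y₀) := by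
  classical
  choose N hN using fun μ : EuclideanSpace ℝ (Fin d) →ₗ[ℝ] ℝ => pl_sign (hg μ)
  refine ⟨M.biUnion N, fun y y₀ h μ hμ => ?_⟩
  have := hN μ (κ y) (κ y₀) fun l hl => h l (Finset.mem_biUnion.2 ⟨μ, hμ, hl⟩)
  simpa only [hgκ] using this

/-- the gauge attached to a finite set of functionals. -/
theorem exists_dt (κ : EuclideanSpace ℝ (Fin d) → V) (g : V → EuclideanSpace ℝ (Fin d)) (hκ : PLMap κ) (hg : PLMap g)
    (hgκ : ∀ y, g (κ y) = y) : ∃ N : Finset (V →ₗ[ℝ] ℝ), ∀ L : Finset (V →ₗ[ℝ] ℝ), N ⊆ L →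
      ∃ D : Dt L d, ∀ (i : L) y, D.s i y = i.1 (κ y) := by
  classical
  obtain ⟨M, C, hC, hM⟩ := map_defect κ hκ
  obtain ⟨N, hN⟩ := map_sign κ g hg hgκ M
  let b := Module.finBasis ℝ V
  refine ⟨N ∪ Finset.univ.image b.coord, fun L hL => ?_⟩
  have hLN : N ⊆ L := Finset.subset_union_left.trans hL
  have hLb : ∀ i, b.coord i ∈ L := fun i =>
    hL (Finset.mem_union_right _ (Finset.mem_image_of_mem _ (Finset.mem_univ i)))
  set K : ℝ := ∑ l ∈ L, C l + 1 with hK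
  have hK0 : 0 ≤ K := by
    have : 0 ≤ ∑ l ∈ L, C l := Finset.sum_nonneg fun l _ => hC l
    linarith
  set Ψ : EuclideanSpace ℝ (Fin d) → ℝ := fun y => K * ∑ μ ∈ M, |μ y| + ∑ l ∈ L, |l (κ y)| with hΨ
  -- key inequality
  have key : ∀ y₁ y₂, df M y₁ y₂ +
      ∑ l ∈ L, (|l (κ y₁)| + |l (κ y₂)| - |l (κ y₁) + l (κ y₂)|) ≤
      Ψ y₁ + Ψ y₂ - Ψ (y₁ + y₂) := by
    intro y₁ y₂
    have e1 : Ψ y₁ + Ψ y₂ - Ψ (y₁ + y₂) = K * df M y₁ y₂ +
        ∑ l ∈ L, (|l (κ y₁)| + |l (κ y₂)| - |l (κ (y₁ + y₂))|) := by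
      simp only [hΨ, df, Finset.sum_add_distrib, Finset.sum_sub_distrib]
      ring
    have e2 : ∑ l ∈ L, (|l (κ y₁)| + |l (κ y₂)| - |l (κ y₁) + l (κ y₂)|) ≤
        ∑ l ∈ L, (|l (κ y₁)| + |l (κ y₂)| - |l (κ (y₁ + y₂))| + C l * df M y₁ y₂) := by
      refine Finset.sum_le_sum fun l _ => ?_
      have h1 := hM l y₁ y₂
      have h2 : |l (κ (y₁ + y₂))| ≤ |l (κ y₁) + l (κ y₂)| +
          |l (κ y₁) + l (κ y₂) - l (κ (y₁ + y₂))| := by
        have := abs_sub (l (κ y₁) + l (κ y₂)) (l (κ y₁) + l (κ y₂) - l (κ (y₁ + y₂)))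
        have h3 : l (κ y₁) + l (κ y₂) - (l (κ y₁) + l (κ y₂) - l (κ (y₁ + y₂))) =
          l (κ (y₁ + y₂)) := by ring
        rw [h3] at this
        exact this
      linarith
    rw [Finset.sum_add_distrib (f := fun l : V →ₗ[ℝ] ℝ =>
      |l (κ y₁)| + |l (κ y₂)| - |l (κ (y₁ + y₂))|), ← Finset.sum_mul] at e2
    rw [e1, hK]
    linarith
  have hterm : ∀ (l : V →ₗ[ℝ] ℝ) y₁ y₂,
      0 ≤ |l (κ y₁)| + |l (κ y₂)| - |l (κ y₁) + l (κ y₂)| := fun l y₁ y₂ => by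
    linarith [abs_add_le (l (κ y₁)) (l (κ y₂))]
  refine ⟨{ s := fun i y => i.1 (κ y)
            Ψ := Ψ
            hs := ?_
            pl := ?_
            nn := ?_
            pos := ?_
            sub := ?_
            eq := ?_
            loc := ?_ }, fun i y => rfl⟩
  · intro i c y hc
    rw [hκ.hom hc, map_smul, smul_eq_mul]
  · exact (IsPL.smul K (IsPL.sum M (f := fun μ y => |μ y|) fun μ _ => (IsPL.lin μ).abs)).add
      (IsPL.sum L (f := fun l y => |l (κ y)|) fun l _ => (hκ l).abs)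
  · intro y
    exact add_nonneg (mul_nonneg hK0 (Finset.sum_nonneg fun μ _ => abs_nonneg _))
      (Finset.sum_nonneg fun l _ => abs_nonneg _)
  · intro y hy
    have h1 : 0 ≤ K * ∑ μ ∈ M, |μ y| := mul_nonneg hK0 (Finset.sum_nonneg fun μ _ => abs_nonneg _)
    have h2 : ∑ l ∈ L, |l (κ y)| ≤ 0 := by
      have : K * ∑ μ ∈ M, |μ y| + ∑ l ∈ L, |l (κ y)| = 0 := hy
      linarith
    have h3 : ∀ i, b.coord i (κ y) = 0 := by
      intro i
      have h4 : |b.coord i (κ y)| ≤ ∑ l ∈ L, |l (κ y)| :=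
        Finset.single_le_sum (f := fun l : V →ₗ[ℝ] ℝ => |l (κ y)|)
          (fun l _ => abs_nonneg _) (hLb i)
      exact abs_nonpos_iff.1 (h4.trans h2)
    have h5 : κ y = 0 := by
      rw [← b.sum_repr (κ y)]
      refine Finset.sum_eq_zero fun i _ => ?_
      rw [← Module.Basis.coord_apply, h3 i, zero_smul]
    rw [← hgκ y, h5, hg.map_zero]
  · intro y₁ y₂
    have h1 := key y₁ y₂
    have h2 := df_nonneg M y₁ y₂
    have h3 : 0 ≤ ∑ l ∈ L, (|l (κ y₁)| + |l (κ y₂)| - |l (κ y₁) + l (κ y₂)|) :=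
      Finset.sum_nonneg fun l _ => hterm l y₁ y₂
    linarith
  · intro y₁ y₂ he i
    have h1 := key y₁ y₂
    have h2 := df_nonneg M y₁ y₂
    have h3 : 0 ≤ ∑ l ∈ L, (|l (κ y₁)| + |l (κ y₂)| - |l (κ y₁) + l (κ y₂)|) :=
      Finset.sum_nonneg fun l _ => hterm l y₁ y₂
    have h4 : df M y₁ y₂ = 0 := by linarith
    have h5 : ∑ l ∈ L, (|l (κ y₁)| + |l (κ y₂)| - |l (κ y₁) + l (κ y₂)|) = 0 := by linarith
    have h6 := (Finset.sum_eq_zero_iff_of_nonneg fun l _ => hterm l y₁ y₂).1 h5 i.1 i.2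
    have h7 := hM i.1 y₁ y₂
    rw [h4, mul_zero] at h7
    have h8 := abs_nonpos_iff.1 h7
    exact ⟨mul_nonneg_of_abs (by linarith), by linarith⟩
  · intro y y₀ h
    have hμ : ∀ μ ∈ M, Le1 (μ y) (μ y₀) := hN y y₀ fun l hl => h ⟨l, hLN hl⟩
    have hl : ∀ l ∈ L, Le1 (l (κ y)) (l (κ y₀)) := fun l hl => h ⟨l, hl⟩
    have ev1 := eps_eventually M (fun μ => μ y) (fun μ => μ y₀) hμ
    have ev2 := eps_eventually L (fun l => l (κ y)) (fun l => l (κ y₀)) hl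
    obtain ⟨ε, ⟨h1, h2⟩, hε⟩ := ((ev1.and ev2).and self_mem_nhdsWithin).exists
    have hε0 : (0 : ℝ) < ε := hε
    have h3 : ∀ μ ∈ M, |μ y₀| = |μ (y₀ - ε • y)| + ε * |μ y| := fun μ hm => by
      rw [map_sub, map_smul, smul_eq_mul]
      exact abs_split (hμ μ hm) (h1 μ hm)
    have h4 : df M (y₀ - ε • y) (ε • y) = 0 := by
      refine Finset.sum_eq_zero fun μ hm => ?_
      rw [sub_add_cancel, h3 μ hm, map_smul μ ε y, smul_eq_mul, abs_mul, abs_of_pos hε0]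
      ring
    have h5 : ∀ l ∈ L, |l (κ y₀)| = |l (κ (y₀ - ε • y))| + ε * |l (κ y)| := fun l hm => by
      have h6 := hM l (y₀ - ε • y) (ε • y)
      rw [h4, mul_zero, sub_add_cancel, hκ.hom hε0.le, map_smul, smul_eq_mul] at h6
      have h7 := abs_nonpos_iff.1 h6
      have h8 : l (κ (y₀ - ε • y)) = l (κ y₀) - ε * l (κ y) := by linarith
      rw [h8]
      exact abs_split (hl l hm) (h2 l hm)
    refine ⟨ε, hε0, ?_⟩
    change K * ∑ μ ∈ M, |μ y₀| + ∑ l ∈ L, |l (κ y₀)| =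
      (K * ∑ μ ∈ M, |μ (y₀ - ε • y)| + ∑ l ∈ L, |l (κ (y₀ - ε • y))|) +
        ε * (K * ∑ μ ∈ M, |μ y| + ∑ l ∈ L, |l (κ y)|)
    rw [Finset.sum_congr rfl h3, Finset.sum_congr rfl h5, Finset.sum_add_distrib,
      Finset.sum_add_distrib, ← Finset.mul_sum, ← Finset.mul_sum]
    ring

/-- the gauge with the group action -/
theorem exists_act {G : Type} [Group G] [Finite G] (ρ : G →* (V ≃ₗ[ℝ] V))
    (κ : EuclideanSpace ℝ (Fin d) → V) (g : V → EuclideanSpace ℝ (Fin d)) (hκ : PLMap κ) (hg : PLMap g) (hgκ : ∀ y, g (κ y) = y)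
    (hinv : ∀ a : G, ∀ z ∈ Set.range κ, ρ a z ∈ Set.range κ)
    (hfaith : ∀ a : G, a ≠ 1 → ∃ z ∈ Set.range κ, ρ a z ≠ z) :
    ∃ (L : Finset (V →ₗ[ℝ] ℝ)) (D : Dt L d), Nonempty (Act G D) := by
  classical
  have := Fintype.ofFinite G
  obtain ⟨N, hN⟩ := exists_dt κ g hκ hg hgκ
  have hsep : ∀ a : G, ∃ l : V →ₗ[ℝ] ℝ, a ≠ 1 → ∃ y, 0 < l (κ y) ∧ l (ρ a (κ y)) < 0 := by
    intro a
    by_cases ha : a = 1
    · exact ⟨0, fun h => absurd ha h⟩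
    · obtain ⟨z, ⟨y, rfl⟩, hz⟩ := hfaith a ha
      obtain ⟨l, hl⟩ := sep_lin ρ a _ hz
      exact ⟨l, fun _ => ⟨y, hl⟩⟩
  choose σ hσ using hsep
  set L₀ : Finset (V →ₗ[ℝ] ℝ) := N ∪ Finset.univ.image σ with hL₀
  set L : Finset (V →ₗ[ℝ] ℝ) :=
    (L₀ ×ˢ (Finset.univ : Finset G)).image (fun p => p.1 ∘ₗ (ρ p.2 : V →ₗ[ℝ] V)) with hL
  have h0 : L₀ ⊆ L := by
    intro l hl
    refine Finset.mem_image.2 ⟨(l, 1), Finset.mem_product.2 ⟨hl, Finset.mem_univ _⟩, ?_⟩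
    ext v
    simp
  have hcl : ∀ l ∈ L, ∀ a : G, l ∘ₗ (ρ a : V →ₗ[ℝ] V) ∈ L := by
    intro l hl a
    obtain ⟨⟨m, b⟩, hmb, rfl⟩ := Finset.mem_image.1 hl
    refine Finset.mem_image.2 ⟨(m, b * a), Finset.mem_product.2
      ⟨(Finset.mem_product.1 hmb).1, Finset.mem_univ _⟩, ?_⟩
    ext v
    simp
  obtain ⟨D, hD⟩ := hN L (Finset.subset_union_left.trans h0)
  have hκα : ∀ a y, κ (g (ρ a (κ y))) = ρ a (κ y) := by
    intro a y
    obtain ⟨y', hy'⟩ := hinv a (κ y) ⟨y, rfl⟩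
    rw [← hy', hgκ]
  refine ⟨L, D, ⟨{
    α := fun a y => g (ρ a (κ y))
    one := ?_
    mul := ?_
    hom := ?_
    perm := ?_
    sep := ?_ }⟩⟩
  · intro y
    rw [map_one]
    exact hgκ y
  · intro a b y
    rw [hκα, map_mul]
    rfl
  · intro a c y hc
    rw [hκ.hom hc, map_smul, hg.hom hc]
  · intro i a
    refine ⟨⟨_, hcl i.1 i.2 a⟩, fun y => ?_⟩
    rw [hD, hD, hκα]
    rfl
  · intro a ha
    obtain ⟨y, h1, h2⟩ := hσ a ha
    have hmem : σ a ∈ L := h0 (Finset.mem_union_right _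
      (Finset.mem_image_of_mem _ (Finset.mem_univ a)))
    refine ⟨y, ⟨σ a, hmem⟩, ?_, ?_⟩
    · rw [hD]; exact h1
    · rw [hD, hκα]; exact h2

end Mk

end Gauge

end Pool.Agent.DF302A
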