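import Pool.Agent.Work.MP_df302a_co.GaugeA
import Pool.Agent.Work.MP_df302a_co.Gauge5

/-! # MP_df302a_co : a finite group acting on a piecewise linear space acts on a polytope. -/

namespace Pool.Agent.DF302A

/-- A finite group acting linearly on a vector space and preserving the image of a piecewise
linear coordinate map of `ℝ^d` (with a piecewise linear inverse), faithfully on this image, embeds
into the combinatorial automorphism group of a convex polytope of dimension `d`. -/
theorem gauge {G : Type} [Group G] [Finite G] {V : Type*} [AddCommGroup V] [Module ℝ V]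
    [FiniteDimensional ℝ V] (ρ : G →* (V ≃ₗ[ℝ] V)) {d : ℕ}
    (κ : EuclideanSpace ℝ (Fin d) → V) (g : V → EuclideanSpace ℝ (Fin d)) (hκ : PLMap κ)
    (hg : PLMap g) (hgκ : ∀ y, g (κ y) = y)
    (hinv : ∀ a : G, ∀ z ∈ Set.range κ, ρ a z ∈ Set.range κ)
    (hfaith : ∀ a : G, a ≠ 1 → ∃ z ∈ Set.range κ, ρ a z ≠ z) :
    ∃ P : Set (EuclideanSpace ℝ (Fin d)), IsPolytope P ∧
      ∃ φ : G →* CombAut P, Function.Injective φ := by
  obtain ⟨L, D, ⟨A⟩⟩ := Gauge.exists_act ρ κ g hκ hg hgκ hinv hfaith
  exact ⟨D.ball, D.isPolytope, A.φ, A.φ_inj⟩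

end Pool.Agent.DF302A
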