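import Pool.Agent.Work.MP_df302a_co.Defs

/-! # MP_df302a_co : module Poly -/

namespace Pool.Agent.DF302A

open Finset

section Poly

/-- the linear part of a geometric symmetry -/
noncomputable def linPart {d : ℕ} (P : Set (EuclideanSpace ℝ (Fin d))) :
    GeomSym P →* (EuclideanSpace ℝ (Fin d) ≃ₗ[ℝ] EuclideanSpace ℝ (Fin d)) :=
  AffineEquiv.linearHom.comp (GeomSym P).subtype

theorem IsPolytope.isCompact {d : ℕ} {P : Set (EuclideanSpace ℝ (Fin d))} (hP : IsPolytope P) :
    IsCompact P := by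
  obtain ⟨⟨s, rfl⟩, _⟩ := hP
  exact s.finite_toSet.isCompact_convexHull (𝕜 := ℝ)

theorem IsPolytope.nonempty {d : ℕ} {P : Set (EuclideanSpace ℝ (Fin d))} (hP : IsPolytope P) :
    P.Nonempty := hP.2.mono interior_subset

theorem linPart_injective {d : ℕ} (P : Set (EuclideanSpace ℝ (Fin d))) (hP : IsPolytope P) :
    Function.Injective (linPart P) := by
  rw [injective_iff_map_eq_one]
  rintro ⟨T, hT⟩ h
  have hlin : T.linear = 1 := h
  have hv : ∀ x, T x = x + T 0 := by
    intro x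
    have := T.map_vadd 0 x
    rw [hlin] at this
    simpa using this
  have hmem : ∀ x ∈ P, x + T 0 ∈ P := by
    intro x hx
    have hT' : T '' P = P := hT
    rw [← hv x]
    exact hT'.subset ⟨x, hx, rfl⟩
  obtain ⟨x0, hx0⟩ := hP.nonempty
  have hn : ∀ k : ℕ, x0 + (k : ℝ) • T 0 ∈ P := by
    intro k
    induction k with
    | zero => simpa using hx0
    | succ k ih =>
      have := hmem _ ih
      rw [add_assoc] at this
      convert this using 2
      push_cast
      module
  have h0 : T 0 = 0 := by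
    by_contra hne
    obtain ⟨C, hC⟩ := hP.isCompact.isBounded.exists_norm_le
    have hpos : 0 < ‖T 0‖ := norm_pos_iff.2 hne
    obtain ⟨k, hk⟩ := exists_nat_gt ((C + ‖x0‖) / ‖T 0‖)
    have h1 := hC _ (hn k)
    have h2 : ‖(k : ℝ) • T 0‖ ≤ ‖x0 + (k : ℝ) • T 0‖ + ‖x0‖ := by
      have : (k : ℝ) • T 0 = (x0 + (k : ℝ) • T 0) - x0 := by abel
      nth_rewrite 1 [this]
      exact norm_sub_le _ _
    rw [norm_smul, Real.norm_natCast] at h2
    rw [div_lt_iff₀ hpos] at hk
    linarith
  refine Subtype.ext ?_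
  show T = 1
  ext1 x
  rw [hv x, h0, add_zero]
  rfl

theorem cpd_lt_gcpd {d : ℕ} (P : Set (EuclideanSpace ℝ (Fin d))) (hP : IsPolytope P)
    {G : Type} [Group G] (φ : G →* CombAut P) (hφ : Function.Injective φ)
    (hG : ∀ n ≤ d, ∀ ρ : G →* ((Fin n → ℝ) ≃ₗ[ℝ] (Fin n → ℝ)), ¬ Function.Injective ρ) :
    cpd (CombAut P) < gcpd (CombAut P) := by
  have h1 : cpd (CombAut P) ≤ d := sInf_le ⟨d, rfl, P, hP, ⟨MulEquiv.refl _⟩⟩
  have h2 : ((d + 1 : ℕ) : ℕ∞) ≤ gcpd (CombAut P) := by
    refine le_sInf ?_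
    rintro n ⟨d', rfl, P', hP', ⟨e⟩⟩
    by_contra hlt
    rw [not_le] at hlt
    have hd : d' ≤ d := by
      have : d' < d + 1 := by exact_mod_cast hlt
      omega
    let c : EuclideanSpace ℝ (Fin d') ≃ₗ[ℝ] (Fin d' → ℝ) := WithLp.linearEquiv 2 ℝ (Fin d' → ℝ)
    let τ : (EuclideanSpace ℝ (Fin d') ≃ₗ[ℝ] EuclideanSpace ℝ (Fin d')) →*
        ((Fin d' → ℝ) ≃ₗ[ℝ] (Fin d' → ℝ)) :=
      { toFun := fun T => (c.symm.trans T).trans c
        map_one' := by
          ext1 x
          exact c.apply_symm_apply x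
        map_mul' := fun S T => by
          ext1 x
          show c (S (T (c.symm x))) = c (S (c.symm (c (T (c.symm x)))))
          rw [c.symm_apply_apply] }
    have hτ : Function.Injective τ := by
      intro S T h
      ext1 x
      have h3 := LinearEquiv.congr_fun h (c x)
      have h4 : c (S (c.symm (c x))) = c (T (c.symm (c x))) := h3
      rw [c.symm_apply_apply] at h4
      exact c.injective h4
    refine hG d' hd (τ.comp ((linPart P').comp (e.symm.toMonoidHom.comp φ))) ?_
    exact hτ.comp ((linPart_injective P' hP').comp (e.symm.injective.comp hφ))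
  refine lt_of_le_of_lt h1 (lt_of_lt_of_le ?_ h2)
  exact_mod_cast Nat.lt_succ_self d

end Poly

end Pool.Agent.DF302A
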