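import Pool.Agent.Work.MP_df302a_co.ThmB2
import Pool.Agent.Work.MP_df302a_co.Poly
import Pool.Agent.Work.MP_df302a_co.Rep
import Pool.Agent.Work.MP_df302a_co.Gauge

/-! # MP_df302a_co : assembly. An `M10`-invariant complex of chains of proper nonempty subsets of ten
points which can be deformed to a point gives a group with `cpd < gcpd`. -/

namespace Pool.Agent.DF302A

open Finset

section Fin

/-- action of a permutation on a subset of the ten points -/
def actS (g : Equiv.Perm (Fin 10)) (A : Finset (Fin 10)) : Finset (Fin 10) := A.map g.toEmbedding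

/-- action of a permutation on a family of subsets -/
def actC (g : Equiv.Perm (Fin 10)) (c : Finset (Finset (Fin 10))) : Finset (Finset (Fin 10)) :=
  c.image (actS g)

/-- the action of a permutation of the ten points on chains of subsets -/
def piX (g : Equiv.Perm (Fin 10)) : Equiv.Perm (Finset (Finset (Fin 10))) :=
  Equiv.finsetCongr (Equiv.finsetCongr g)

theorem piX_apply (g : Equiv.Perm (Fin 10)) (c : Finset (Finset (Fin 10))) :
    piX g c = actC g c := by
  simp only [piX, Equiv.finsetCongr_apply, actC]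
  ext A
  simp only [Finset.mem_map, Finset.mem_image, actS]
  rfl

theorem piX_mul (a b : Equiv.Perm (Fin 10)) : piX (a * b) = piX a * piX b := by
  ext c A
  simp only [piX_apply, Equiv.Perm.mul_apply, actC, Finset.mem_image, actS]
  constructor
  · rintro ⟨B, hB, rfl⟩
    refine ⟨B.map b.toEmbedding, ⟨B, hB, rfl⟩, ?_⟩
    rw [Finset.map_map]
    rfl
  · rintro ⟨_, ⟨B, hB, rfl⟩, rfl⟩
    refine ⟨B, hB, ?_⟩
    rw [Finset.map_map]
    rfl

theorem piX_one : piX 1 = 1 := by
  ext c A
  simp only [piX_apply, Equiv.Perm.one_apply, actC, Finset.mem_image, actS]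
  constructor
  · rintro ⟨B, hB, rfl⟩
    have : B.map (Equiv.toEmbedding (1 : Equiv.Perm (Fin 10))) = B := by
      ext x
      rw [Finset.mem_map]
      exact ⟨fun ⟨y, hy, h⟩ => h ▸ hy, fun h => ⟨x, h, rfl⟩⟩
    rw [this]; exact hB
  · intro hA
    refine ⟨A, hA, ?_⟩
    ext x
    rw [Finset.mem_map]
    exact ⟨fun ⟨y, hy, h⟩ => h ▸ hy, fun h => ⟨x, h, rfl⟩⟩

theorem piX_inv_apply (a : Equiv.Perm (Fin 10)) (c) : piX a (piX a⁻¹ c) = c := by
  rw [← Equiv.Perm.mul_apply, ← piX_mul, mul_inv_cancel, piX_one, Equiv.Perm.one_apply]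

theorem piX_inv_apply' (a : Equiv.Perm (Fin 10)) (c) : piX a⁻¹ (piX a c) = c := by
  rw [← Equiv.Perm.mul_apply, ← piX_mul, inv_mul_cancel, piX_one, Equiv.Perm.one_apply]

/-- the permutation representation -/
noncomputable def rhoX : Equiv.Perm (Fin 10) →*
    ((Finset (Finset (Fin 10)) → ℝ) ≃ₗ[ℝ] (Finset (Finset (Fin 10)) → ℝ)) where
  toFun a := LinearEquiv.funCongrLeft ℝ ℝ (piX a⁻¹)
  map_one' := by
    ext t x
    simp [LinearEquiv.funCongrLeft_apply, LinearMap.funLeft_apply, piX_one]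
  map_mul' a b := by
    apply LinearEquiv.ext
    intro t
    funext x
    simp [LinearEquiv.funCongrLeft_apply, LinearMap.funLeft_apply, piX_mul]

theorem rhoX_apply (a : Equiv.Perm (Fin 10)) (t : Finset (Finset (Fin 10)) → ℝ)
    (x : Finset (Finset (Fin 10))) : rhoX a t x = t (piX a⁻¹ x) := rfl

theorem actS_ssubset (a : Equiv.Perm (Fin 10)) {A B : Finset (Fin 10)} (h : A ⊂ B) :
    actS a A ⊂ actS a B := by
  unfold actS
  exact Finset.map_ssubset_map.2 h

theorem actC_Y (a : Equiv.Perm (Fin 10)) {c : Finset (Finset (Fin 10))}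
    (hc : c ∈ sd (bd (Finset.univ : Finset (Fin 10)))) :
    piX a c ∈ sd (bd (Finset.univ : Finset (Fin 10))) := by
  rw [piX_apply]
  refine ⟨?_, ?_⟩
  · intro σ hσ
    obtain ⟨A, hA, rfl⟩ := Finset.mem_image.1 hσ
    obtain ⟨h1, h2⟩ := hc.1 A hA
    refine ⟨?_, ?_⟩
    · have := actS_ssubset a h1
      have hu : actS a Finset.univ = Finset.univ := by
        unfold actS; exact Finset.map_univ_equiv a
      rwa [hu] at this
    · exact h2.map
  · intro σ hσ τ hτ hne
    obtain ⟨A, hA, rfl⟩ := Finset.mem_image.1 (Finset.mem_coe.1 hσ)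
    obtain ⟨B, hB, rfl⟩ := Finset.mem_image.1 (Finset.mem_coe.1 hτ)
    have hAB : A ≠ B := fun h => hne (by rw [h])
    rcases hc.2 (Finset.mem_coe.2 hA) (Finset.mem_coe.2 hB) hAB with h | h
    · left; exact Finset.map_subset_map.2 h
    · right; exact Finset.map_subset_map.2 h

theorem image_sdY (a : Equiv.Perm (Fin 10)) {σ : Finset (Finset (Finset (Fin 10)))}
    (hσ : σ ∈ sd (sd (bd (Finset.univ : Finset (Fin 10))))) :
    σ.image (piX a) ∈ sd (sd (bd (Finset.univ : Finset (Fin 10)))) := by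
  refine ⟨?_, ?_⟩
  · intro c hc
    obtain ⟨d, hd, rfl⟩ := Finset.mem_image.1 hc
    obtain ⟨h1, h2⟩ := hσ.1 d hd
    refine ⟨actC_Y a h1, ?_⟩
    rw [piX_apply]
    exact h2.image _
  · intro c hc d hd hne
    obtain ⟨c', hc', rfl⟩ := Finset.mem_image.1 (Finset.mem_coe.1 hc)
    obtain ⟨d', hd', rfl⟩ := Finset.mem_image.1 (Finset.mem_coe.1 hd)
    have : c' ≠ d' := fun h => hne (by rw [h])
    rcases hσ.2 (Finset.mem_coe.2 hc') (Finset.mem_coe.2 hd') this with h | h
    · left; rw [piX_apply, piX_apply]; exact Finset.image_subset_image h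
    · right; rw [piX_apply, piX_apply]; exact Finset.image_subset_image h

theorem K_inv {K : Set (Finset (Finset (Fin 10)))} (h1 : ∀ c ∈ K, actC g₁ c ∈ K)
    (h2 : ∀ c ∈ K, actC g₂ c ∈ K) (a : Equiv.Perm (Fin 10)) (ha : a ∈ M10) (c) :
    piX a c ∈ K ↔ c ∈ K := by
  have key : ∀ g : Equiv.Perm (Fin 10), (∀ c ∈ K, actC g c ∈ K) → ∀ c, piX g c ∈ K ↔ c ∈ K := by
    intro g hg
    have hpow : ∀ n : ℕ, ∀ c ∈ K, piX (g ^ n) c ∈ K := by
      intro n
      induction n with
      | zero => intro c hc; rw [pow_zero, piX_one]; exact hc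
      | succ n ih =>
        intro c hc
        rw [pow_succ', piX_mul, Equiv.Perm.mul_apply, piX_apply]
        exact hg _ (ih c hc)
    intro c
    constructor
    · intro h
      have h3 := hpow (orderOf g - 1) _ h
      have hinv : g ^ (orderOf g - 1) = g⁻¹ := by
        rw [eq_inv_iff_mul_eq_one, ← pow_succ, Nat.sub_add_cancel (orderOf_pos g),
          pow_orderOf_eq_one]
      rw [hinv, piX_inv_apply'] at h3
      exact h3
    · intro h
      rw [piX_apply]
      exact hg c h
  have key1 := key g₁ h1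
  have key2 := key g₂ h2
  revert c
  refine Subgroup.closure_induction (p := fun a _ => ∀ c, piX a c ∈ K ↔ c ∈ K) ?_ ?_ ?_ ?_ ha
  · intro x hx
    rcases hx with rfl | hx
    · exact key1
    · rw [Set.mem_singleton_iff.1 hx]; exact key2
  · intro c; rw [piX_one]; rfl
  · intro x y _ _ hx hy c
    rw [piX_mul, Equiv.Perm.mul_apply, hx, hy]
  · intro x _ hx c
    rw [← hx (piX x⁻¹ c), piX_inv_apply]

theorem fin_of_cert (K : Set (Finset (Finset (Fin 10))))
    (hK : Defo (sd (bd (Finset.univ : Finset (Fin 10)))) K)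
    (h1 : ∀ c ∈ K, actC g₁ c ∈ K) (h2 : ∀ c ∈ K, actC g₂ c ∈ K)
    (h3 : ∀ i : Fin 10, {{i}} ∈ K)
    (h4 : ∀ i : Fin 10, ∃ c ∈ sd (bd (Finset.univ : Finset (Fin 10))), {i} ∈ c ∧ c ∉ K) :
    ∃ (Γ : Type) (_ : Group Γ), cpd Γ < gcpd Γ := by
  classical
  set Y : Set (Finset (Finset (Fin 10))) := sd (bd (Finset.univ : Finset (Fin 10))) with hYdef
  have hY : Strong Y 9 := by
    have := strong_sd_bd (Finset.univ : Finset (Fin 10)) ⟨0, Finset.mem_univ _⟩
    simpa using this
  set f : Finset (Finset (Fin 10)) → ℝ := fun c => if c ∈ K then -1 else 1 with hf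
  have hC : Coord (sd Y) f 9 := by
    apply thmB2 hY hK f
    · intro c hc _; simp [hf, hc]
    · intro c _ hc; simp [hf, hc]
  obtain ⟨h, k, l, hh, hk, hkh, hhk, hl, hF⟩ := hC
  -- the kernel of l
  obtain ⟨w, hw⟩ : ∃ w, l w = 1 := by
    obtain ⟨v, hv⟩ : ∃ v, l v ≠ 0 := by
      by_contra hcon
      push Not at hcon
      exact hl (LinearMap.ext hcon)
    exact ⟨(l v)⁻¹ • v, by simp [hv]⟩
  have hker : Module.finrank ℝ (LinearMap.ker l) = 8 := by
    have h5 := LinearMap.finrank_range_add_finrank_ker l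
    have h6 : Module.finrank ℝ (LinearMap.range l) = 1 := by
      rw [LinearMap.range_eq_top.2]
      · simp
      · intro r
        exact ⟨r • w, by simp [hw]⟩
    rw [h6] at h5
    simp at h5
    omega
  obtain ⟨e⟩ : Nonempty (EuclideanSpace ℝ (Fin 8) ≃ₗ[ℝ] LinearMap.ker l) :=
    ⟨LinearEquiv.ofFinrankEq _ _ (by rw [hker]; simp)⟩
  let pr : (Fin 9 → ℝ) →ₗ[ℝ] LinearMap.ker l :=
    LinearMap.codRestrict (LinearMap.ker l) (LinearMap.id - l.smulRight w) (by
      intro y
      simp [hw])
  have hpr : ∀ y : LinearMap.ker l, pr y = y := by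
    intro y
    apply Subtype.ext
    have : l (y : Fin 9 → ℝ) = 0 := y.2
    simp [pr, this]
  let κ : EuclideanSpace ℝ (Fin 8) → (Finset (Finset (Fin 10)) → ℝ) :=
    fun y => k ((LinearMap.ker l).subtype.comp (e : EuclideanSpace ℝ (Fin 8) →ₗ[ℝ] _) y)
  let g : (Finset (Finset (Fin 10)) → ℝ) → EuclideanSpace ℝ (Fin 8) :=
    fun t => ((e.symm : LinearMap.ker l →ₗ[ℝ] _).comp pr) (h t)
  have hκPL : PLMap κ := hk.comp (PLMap.lin _)
  have hgPL : PLMap g := (PLMap.lin _).comp hh
  have hgκ : ∀ y, g (κ y) = y := by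
    intro y
    have h7 : h (κ y) = (e y : Fin 9 → ℝ) := (hhk _).2
    simp only [g, h7, LinearMap.comp_apply]
    rw [hpr]
    simp
  have hrange : ∀ t, t ∈ Set.range κ ↔ t ∈ cone (sd Y) ∧ ∑ x, f x * t x = 0 := by
    intro t
    constructor
    · rintro ⟨y, rfl⟩
      have h7 : h (κ y) = (e y : Fin 9 → ℝ) := (hhk _).2
      refine ⟨(hhk _).1, ?_⟩
      rw [hF _ (hhk _).1, h7]
      exact (e y).2
    · rintro ⟨ht, h0⟩
      rw [hF t ht] at h0
      refine ⟨e.symm ⟨h t, h0⟩, ?_⟩
      simp only [κ, LinearMap.comp_apply]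
      simp [hkh t ht]
  have hfinv : ∀ a : M10, ∀ x, f (piX (a : Equiv.Perm (Fin 10)) x) = f x := by
    intro a x
    have := K_inv h1 h2 a a.2 x
    simp only [hf, this]
  obtain ⟨P, hP, φ, hφ⟩ := gauge (rhoX.comp M10.subtype) κ g hκPL hgPL hgκ (by
    intro a z hz
    rw [hrange] at hz ⊢
    obtain ⟨⟨hz1, σ, hσ, hz2⟩, hz3⟩ := hz
    refine ⟨⟨?_, σ.image (piX a), image_sdY _ hσ, ?_⟩, ?_⟩
    · intro x; exact hz1 _
    · intro x hx
      show z (piX _ x) = 0
      apply hz2
      intro hmem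
      apply hx
      rw [Finset.mem_image]
      exact ⟨_, hmem, piX_inv_apply _ _⟩
    · rw [← hz3]
      refine Fintype.sum_equiv (piX (a : Equiv.Perm (Fin 10))⁻¹)
        (fun x => f x * ((rhoX.comp M10.subtype) a) z x) (fun x => f x * z x) ?_
      intro x
      have hr : ((rhoX.comp M10.subtype) a) z x = z (piX (a : Equiv.Perm (Fin 10))⁻¹ x) := rfl
      have hr2 := hfinv a (piX (a : Equiv.Perm (Fin 10))⁻¹ x)
      rw [piX_inv_apply] at hr2
      rw [hr, hr2]) (by
    intro a ha
    obtain ⟨i, hi⟩ : ∃ i, (a : Equiv.Perm (Fin 10)) i ≠ i := by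
      by_contra hcon
      push Not at hcon
      exact ha (Subtype.ext (Equiv.ext hcon))
    obtain ⟨c', hc'Y, hic', hc'K⟩ := h4 i
    set c : Finset (Finset (Fin 10)) := {{i}} with hc
    have hcc : c ≠ c' := fun h => hc'K (h ▸ h3 i)
    have hsubc : c ⊆ c' := by
      rw [hc]
      intro x hx
      rw [Finset.mem_singleton] at hx
      rw [hx]; exact hic'
    have hcY : c ∈ Y := by
      refine ⟨?_, ?_⟩
      · intro σ hσ
        exact hc'Y.1 σ (hsubc hσ)
      · exact hc'Y.2.mono (by exact_mod_cast hsubc)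
    have hcard : 1 < c'.card := by
      have := Finset.card_lt_card (hsubc.ssubset_of_ne hcc)
      rwa [hc, Finset.card_singleton] at this
    refine ⟨Pi.single c 1 + Pi.single c' 1, ?_, ?_⟩
    · rw [hrange]
      refine ⟨⟨?_, {c, c'}, ⟨?_, ?_⟩, ?_⟩, ?_⟩
      · intro x
        simp only [Pi.add_apply]
        have : ∀ u : Finset (Finset (Fin 10)),
            (0 : ℝ) ≤ (Pi.single u (1 : ℝ) : Finset (Finset (Fin 10)) → ℝ) x := by
          intro u
          by_cases hx : x = u
          · subst hx; simp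
          · simp [Pi.single_apply, hx]
        exact add_nonneg (this c) (this c')
      · intro σ hσ
        rw [Finset.mem_insert, Finset.mem_singleton] at hσ
        rcases hσ with rfl | rfl
        · exact ⟨hcY, by rw [hc]; exact Finset.singleton_nonempty _⟩
        · exact ⟨hc'Y, ⟨_, hic'⟩⟩
      · intro σ hσ τ hτ hστ
        rw [Finset.coe_insert, Finset.coe_singleton] at hσ hτ
        rcases hσ with rfl | hσ <;> rcases hτ with rfl | hτ
        · exact absurd rfl hστ
        · rw [Set.mem_singleton_iff] at hτ; rw [hτ]; left; exact hsubc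
        · rw [Set.mem_singleton_iff] at hσ; rw [hσ]; right; exact hsubc
        · rw [Set.mem_singleton_iff] at hσ hτ; rw [hσ, hτ] at hστ; exact absurd rfl hστ
      · intro x hx
        rw [Finset.mem_insert, Finset.mem_singleton, not_or] at hx
        simp [Pi.single_apply, hx.1, hx.2]
      · have hfc : f c = -1 := by simp only [hf]; rw [if_pos (h3 i)]
        have hfc' : f c' = 1 := by
          simp only [hf]
          rw [if_neg hc'K]
        simp only [Pi.add_apply, mul_add, Finset.sum_add_distrib, Pi.single_apply, mul_ite,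
          mul_one, mul_zero, Finset.sum_ite_eq', Finset.mem_univ, if_true, hfc, hfc']
        norm_num
    · intro heq
      have h8 := congrFun heq c
      have h9 : ((rhoX.comp M10.subtype) a) (Pi.single c 1 + Pi.single c' 1) c =
          (Pi.single c 1 + Pi.single c' 1 : Finset (Finset (Fin 10)) → ℝ)
            (piX (a : Equiv.Perm (Fin 10))⁻¹ c) := rfl
      rw [h9] at h8
      have h10 : piX (a : Equiv.Perm (Fin 10))⁻¹ c = {{(a : Equiv.Perm (Fin 10))⁻¹ i}} := by
        rw [piX_apply, hc]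
        simp [actC, actS]
      have h11 : (a : Equiv.Perm (Fin 10))⁻¹ i ≠ i := by
        intro h
        apply hi
        conv_lhs => rw [← h]
        simp
      have h12 : piX (a : Equiv.Perm (Fin 10))⁻¹ c ≠ c := by
        rw [h10, hc]
        intro h
        rw [Finset.singleton_inj, Finset.singleton_inj] at h
        exact h11 h
      have h13 : piX (a : Equiv.Perm (Fin 10))⁻¹ c ≠ c' := by
        rw [h10]
        intro h
        have := congrArg Finset.card h
        rw [Finset.card_singleton] at this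
        omega
      simp [Pi.single_apply, h12, h13, hcc] at h8)
  exact ⟨CombAut P, inferInstance, cpd_lt_gcpd P hP φ hφ (fun n hn ρ => no_rep n hn ρ)⟩

end Fin

end Pool.Agent.DF302A
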