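import Pool.Agent.Work.MP_df302a_co.PL

/-! # MP_df302a_co : module Sd (barycentric subdivision, rule R3). -/

namespace Pool.Agent.DF302A

open Finset MeasureTheory

section Sd
variable {V : Type*} [Fintype V] [DecidableEq V]

omit [Fintype V] [DecidableEq V] in
theorem isCx_sd (Y : Set (Finset V)) : IsCx (sd Y) := by
  refine ⟨⟨by simp, by simp⟩, ?_⟩
  rintro c ⟨h1, h2⟩ d hd
  exact ⟨fun σ hσ => h1 σ (hd hσ), h2.mono (by exact_mod_cast hd)⟩

/-- the linear map sending the vertex `σ` of the subdivision to the indicator of `σ` -/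
def sdB : (Finset V → ℝ) →ₗ[ℝ] (V → ℝ) where
  toFun s v := ∑ σ, if v ∈ σ then s σ else 0
  map_add' s s' := by
    funext v
    simp only [Pi.add_apply, ← Finset.sum_add_distrib]
    exact Finset.sum_congr rfl fun σ _ => by split_ifs <;> simp
  map_smul' c s := by
    funext v
    simp only [Pi.smul_apply, smul_eq_mul, Finset.mul_sum, RingHom.id_apply]
    exact Finset.sum_congr rfl fun σ _ => by split_ifs <;> simp

theorem sdB_apply (s : Finset V → ℝ) (v : V) : sdB s v = ∑ σ, if v ∈ σ then s σ else 0 := rfl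

/-- the supremum of `t` outside `σ` (at least `0` if `σ` is nonempty) -/
noncomputable def sdM (σ : Finset V) (h : σ.Nonempty) (t : V → ℝ) : ℝ :=
  univ.sup' (h.mono (subset_univ σ)) (fun v => if v ∈ σ then 0 else t v)

/-- the inverse of `sdB` on the cones -/
noncomputable def sdG (t : V → ℝ) (σ : Finset V) : ℝ :=
  if h : σ.Nonempty then max 0 (σ.inf' h t - sdM σ h t) else 0

theorem sdG_nonneg (t : V → ℝ) (σ : Finset V) : 0 ≤ sdG t σ := by
  unfold sdG
  split_ifs with h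
  · exact le_max_left _ _
  · exact le_rfl

theorem sdM_nonneg (σ : Finset V) (h : σ.Nonempty) (t : V → ℝ) : 0 ≤ sdM σ h t := by
  obtain ⟨v, hv⟩ := h
  unfold sdM
  have := Finset.le_sup' (fun v => if v ∈ σ then 0 else t v) (mem_univ v)
  simpa [hv] using this

theorem le_sdM (σ : Finset V) (h : σ.Nonempty) (t : V → ℝ) (v : V) (hv : v ∉ σ) :
    t v ≤ sdM σ h t := by
  unfold sdM
  have := Finset.le_sup' (fun v => if v ∈ σ then 0 else t v) (mem_univ v)
  simpa [hv] using this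

omit [Fintype V] [DecidableEq V] in
theorem isPL_coord (v : V) : IsPL (fun t : V → ℝ => t v) :=
  IsPL.lin (LinearMap.proj (R := ℝ) (φ := fun _ : V => ℝ) v)

theorem plMap_sdG : PLMap (sdG : (V → ℝ) → Finset V → ℝ) := by
  refine PLMap.pi fun σ => ?_
  by_cases h : σ.Nonempty
  · simp only [sdG, dif_pos h, sdM]
    refine IsPL.max IsPL.zero (IsPL.sub ?_ ?_)
    · exact IsPL.inf' σ h fun v _ => isPL_coord v
    · refine IsPL.sup' univ _ fun v _ => ?_
      by_cases hv : v ∈ σ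
      · simp only [hv, if_true]
        exact IsPL.zero
      · simp only [hv, if_false]
        exact isPL_coord v
  · simp only [sdG, dif_neg h]
    exact IsPL.zero

/-- the layer set -/
theorem sdG_eq_volume (t : V → ℝ) (σ : Finset V) (h : σ.Nonempty) :
    sdG t σ = volume.real {r : ℝ | 0 < r ∧ ∀ u, r ≤ t u ↔ u ∈ σ} := by
  have e : {r : ℝ | 0 < r ∧ ∀ u, r ≤ t u ↔ u ∈ σ} = Set.Ioc (sdM σ h t) (σ.inf' h t) := by
    ext r
    simp only [Set.mem_ofPred_eq, Set.mem_Ioc, sdM, Finset.sup'_lt_iff, Finset.le_inf'_iff]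
    constructor
    · rintro ⟨h0, h1⟩
      refine ⟨fun u _ => ?_, fun u hu => (h1 u).2 hu⟩
      split_ifs with hu
      · exact h0
      · exact not_le.1 fun hc => hu ((h1 u).1 hc)
    · rintro ⟨h1, h2⟩
      obtain ⟨v, hv⟩ := id h
      refine ⟨by simpa [hv] using h1 v (mem_univ v), fun u => ⟨fun hr => ?_, h2 u⟩⟩
      by_contra hu
      have := h1 u (mem_univ u)
      rw [if_neg hu] at this
      linarith
  rw [e, Real.volume_real_Ioc, max_comm, sdG, dif_pos h]

theorem sdB_sdG (t : V → ℝ) (ht : ∀ v, 0 ≤ t v) : sdB (sdG t) = t := by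
  funext v
  rw [sdB_apply, ← Finset.sum_filter]
  have e1 : ∑ σ ∈ univ.filter (fun σ : Finset V => v ∈ σ), sdG t σ =
      ∑ σ ∈ univ.filter (fun σ : Finset V => v ∈ σ),
        volume.real {r : ℝ | 0 < r ∧ ∀ u, r ≤ t u ↔ u ∈ σ} := by
    refine Finset.sum_congr rfl fun σ hσ => ?_
    rw [Finset.mem_filter] at hσ
    exact sdG_eq_volume t σ ⟨v, hσ.2⟩
  have hI : ∀ σ ∈ univ.filter (fun σ : Finset V => v ∈ σ),
      {r : ℝ | 0 < r ∧ ∀ u, r ≤ t u ↔ u ∈ σ} ⊆ Set.Ioc 0 (t v) := by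
    intro σ hσ r hr
    rw [Finset.mem_filter] at hσ
    exact ⟨hr.1, (hr.2 v).2 hσ.2⟩
  have e2 : (⋃ σ ∈ univ.filter (fun σ : Finset V => v ∈ σ),
      {r : ℝ | 0 < r ∧ ∀ u, r ≤ t u ↔ u ∈ σ}) = Set.Ioc 0 (t v) := by
    refine Set.Subset.antisymm (Set.iUnion₂_subset hI) ?_
    intro r hr
    refine Set.mem_iUnion₂.2 ⟨univ.filter (fun u => r ≤ t u), ?_, hr.1, fun u => ?_⟩
    · simpa using hr.2
    · simp
  have hm : ∀ σ ∈ univ.filter (fun σ : Finset V => v ∈ σ),
      MeasurableSet {r : ℝ | 0 < r ∧ ∀ u, r ≤ t u ↔ u ∈ σ} := by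
    intro σ _
    have e : {r : ℝ | 0 < r ∧ ∀ u, r ≤ t u ↔ u ∈ σ} =
        Set.Ioi 0 ∩ ⋂ u, {r : ℝ | r ≤ t u ↔ u ∈ σ} := by
      ext r
      simp
    rw [e]
    refine measurableSet_Ioi.inter (MeasurableSet.iInter fun u => ?_)
    by_cases hu : u ∈ σ
    · simp only [hu, iff_true]
      exact measurableSet_Iic
    · simp only [hu, iff_false, not_le]
      exact measurableSet_Ioi
  have hd : Set.PairwiseDisjoint (↑(univ.filter (fun σ : Finset V => v ∈ σ)))
      (fun σ : Finset V => {r : ℝ | 0 < r ∧ ∀ u, r ≤ t u ↔ u ∈ σ}) := by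
    intro σ _ τ _ hne
    refine Set.disjoint_left.2 fun r hr hr' => hne ?_
    ext u
    rw [← hr.2 u, ← hr'.2 u]
  rw [e1, ← measureReal_biUnion_finset hd hm (fun σ hσ => ?_), e2, Real.volume_real_Ioc]
  · simp [ht v]
  · refine ((measure_mono (hI σ hσ)).trans_lt ?_).ne
    rw [Real.volume_Ioc]
    exact ENNReal.ofReal_lt_top

theorem le_sdG_sdB (s : Finset V → ℝ) (hs : ∀ σ, 0 ≤ s σ) (c : Finset (Finset V))
    (hc : IsChain (· ⊆ ·) (c : Set (Finset V))) (hsc : ∀ σ, σ ∉ c → s σ = 0) (σ : Finset V)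
    (hσ : σ.Nonempty) : s σ ≤ sdG (sdB s) σ := by
  by_cases h0 : s σ = 0
  · rw [h0]
    exact sdG_nonneg _ _
  have hσc : σ ∈ c := by
    by_contra h
    exact h0 (hsc σ h)
  set T : ℝ := ∑ τ, if σ ⊂ τ then s τ else 0 with hT
  have hT0 : 0 ≤ T := Finset.sum_nonneg fun τ _ => by
    split_ifs
    · exact hs τ
    · exact le_rfl
  have h1 : s σ + T ≤ σ.inf' hσ (sdB s) := by
    refine Finset.le_inf' _ _ fun v hv => ?_
    have e : s σ = ∑ τ, if τ = σ then s τ else 0 := by simp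
    rw [sdB_apply, hT]
    nth_rewrite 1 [e]
    rw [← Finset.sum_add_distrib]
    refine Finset.sum_le_sum fun τ _ => ?_
    by_cases h : τ = σ
    · subst h
      simp [hv]
    · rw [if_neg h, zero_add]
      by_cases h' : σ ⊂ τ
      · rw [if_pos h', if_pos (h'.1 hv)]
      · rw [if_neg h']
        split_ifs
        · exact hs τ
        · exact le_rfl
  have h2 : sdM σ hσ (sdB s) ≤ T := by
    refine Finset.sup'_le _ _ fun v _ => ?_
    split_ifs with hv
    · exact hT0
    · rw [sdB_apply]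
      refine Finset.sum_le_sum fun τ _ => ?_
      by_cases hvt : v ∈ τ
      · rw [if_pos hvt]
        by_cases hτ0 : s τ = 0
        · rw [hτ0]
          simp
        have hτc : τ ∈ c := by
          by_contra h
          exact hτ0 (hsc τ h)
        have hne : σ ≠ τ := by
          rintro rfl
          exact hv hvt
        rcases hc (by exact_mod_cast hσc) (by exact_mod_cast hτc) hne with h | h
        · rw [if_pos (h.ssubset_of_ne hne)]
        · exact absurd (h hvt) hv
      · rw [if_neg hvt]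
        split_ifs
        · exact hs τ
        · exact le_rfl
  rw [sdG, dif_pos hσ]
  exact le_trans (by linarith) (le_max_right _ _)

theorem sdB_nonneg (s : Finset V → ℝ) (hs : ∀ σ, 0 ≤ s σ) (v : V) : 0 ≤ sdB s v := by
  rw [sdB_apply]
  refine Finset.sum_nonneg fun τ _ => ?_
  split_ifs
  · exact hs τ
  · exact le_rfl

theorem sdG_sdB {Y : Set (Finset V)} (s : Finset V → ℝ) (hs : s ∈ cone (sd Y)) :
    sdG (sdB s) = s := by
  obtain ⟨h0, c, ⟨hc1, hc2⟩, hsc⟩ := hs
  funext σ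
  rcases σ.eq_empty_or_nonempty with rfl | hσ
  · rw [sdG, dif_neg (by simp)]
    refine (hsc ∅ fun h => ?_).symm
    simpa using (hc1 ∅ h).2
  · obtain ⟨v, hv⟩ := id hσ
    have h1 := congrFun (sdB_sdG (sdB s) (sdB_nonneg s h0)) v
    rw [sdB_apply, sdB_apply] at h1
    have h2 : ∑ τ, (if v ∈ τ then sdG (sdB s) τ - s τ else 0) = 0 := by
      rw [← sub_eq_zero, ← Finset.sum_sub_distrib] at h1
      refine Eq.trans (Finset.sum_congr rfl fun τ _ => ?_) h1
      split_ifs <;> simp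
    rw [Finset.sum_eq_zero_iff_of_nonneg] at h2
    · have := h2 σ (mem_univ σ)
      rw [if_pos hv] at this
      linarith
    · intro τ _
      split_ifs with hvt
      · have := le_sdG_sdB s h0 c hc2 hsc τ ⟨v, hvt⟩
        linarith
      · exact le_rfl

theorem sdB_mem {Y : Set (Finset V)} (hY : IsCx Y) (s : Finset V → ℝ) (hs : s ∈ cone (sd Y)) :
    sdB s ∈ cone Y := by
  obtain ⟨h0, c, ⟨hc1, hc2⟩, hsc⟩ := hs
  refine ⟨sdB_nonneg s h0, ?_⟩
  rcases c.eq_empty_or_nonempty with rfl | hne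
  · refine ⟨∅, hY.1, fun v _ => ?_⟩
    rw [sdB_apply]
    refine Finset.sum_eq_zero fun τ _ => ?_
    rw [hsc τ (by simp)]
    simp
  · obtain ⟨σ, hσ, hmax⟩ := Finset.exists_max_image c Finset.card hne
    refine ⟨σ, (hc1 σ hσ).1, fun v hv => ?_⟩
    rw [sdB_apply]
    refine Finset.sum_eq_zero fun τ _ => ?_
    split_ifs with hvt
    · by_contra h
      have hτc : τ ∈ c := by
        by_contra h'
        exact h (hsc τ h')
      have hne' : τ ≠ σ := by
        rintro rfl
        exact hv hvt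
      rcases hc2 (by exact_mod_cast hτc) (by exact_mod_cast hσ) hne' with h' | h'
      · exact hv (h' hvt)
      · have := Finset.eq_of_subset_of_card_le h' (hmax τ hτc)
        exact hne' this.symm
    · rfl

theorem sdG_mem {Y : Set (Finset V)} (hY : IsCx Y) (t : V → ℝ) (ht : t ∈ cone Y) :
    sdG t ∈ cone (sd Y) := by
  obtain ⟨h0, ρ, hρ, hρt⟩ := ht
  refine ⟨sdG_nonneg t, univ.filter (fun σ => 0 < sdG t σ), ⟨fun σ hσ => ?_, ?_⟩, fun σ hσ => ?_⟩
  · rw [Finset.mem_filter] at hσ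
    have hpos := hσ.2
    have hne : σ.Nonempty := by
      by_contra h
      rw [sdG, dif_neg h] at hpos
      exact lt_irrefl _ hpos
    refine ⟨hY.2 ρ hρ σ fun v hv => ?_, hne⟩
    by_contra hvρ
    rw [sdG, dif_pos hne, lt_max_iff] at hpos
    rcases hpos with h | h
    · exact lt_irrefl _ h
    · have h1 := Finset.inf'_le t hv
      have h2 := sdM_nonneg σ hne t
      rw [hρt v hvρ] at h1
      linarith
  · intro σ hσ τ hτ _
    simp only [Finset.coe_filter, Set.mem_ofPred_eq, mem_univ, true_and] at hσ hτ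
    by_contra hcon
    push Not at hcon
    obtain ⟨h1, h2⟩ := hcon
    rw [Finset.not_subset] at h1 h2
    obtain ⟨u, hu, hu'⟩ := h1
    obtain ⟨w, hw, hw'⟩ := h2
    have key : ∀ (α : Finset V), 0 < sdG t α → ∀ a ∈ α, ∀ b, b ∉ α → t b < t a := by
      intro α hα a ha b hb
      rw [sdG, dif_pos ⟨a, ha⟩, lt_max_iff] at hα
      rcases hα with h | h
      · exact absurd h (lt_irrefl _)
      · have h1 := Finset.inf'_le t ha
        have h2 := le_sdM α ⟨a, ha⟩ t b hb
        linarith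
    have k1 := key σ hσ u hu w hw'
    have k2 := key τ hτ w hw u hu'
    linarith
  · rw [Finset.mem_filter] at hσ
    push Not at hσ
    exact le_antisymm (hσ (mem_univ σ)) (sdG_nonneg t σ)

theorem sd_sum (f : V → ℝ) (s : Finset V → ℝ) :
    ∑ c : Finset V, (∑ v ∈ c, f v) * s c = ∑ v, f v * sdB s v := by
  simp only [sdB_apply, Finset.mul_sum]
  rw [Finset.sum_comm]
  refine Finset.sum_congr rfl fun c _ => ?_
  rw [Finset.sum_mul, ← Finset.sum_filter_add_sum_filter_not univ (fun v => v ∈ c)]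
  have e : univ.filter (fun v => v ∈ c) = c := by
    ext v
    simp
  rw [e, Finset.sum_eq_zero (s := univ.filter fun v => v ∉ c), add_zero]
  · refine Finset.sum_congr rfl fun v hv => ?_
    rw [if_pos hv]
  · intro v hv
    rw [Finset.mem_filter] at hv
    rw [if_neg hv.2, mul_zero]

/-- (R3) -/
theorem Coord.sd {Y : Set (Finset V)} {f : V → ℝ} {m : ℕ} (hY : IsCx Y) (h : Coord Y f m) :
    Coord (sd Y) (fun c => ∑ v ∈ c, f v) m := by
  obtain ⟨h, k, l, hh, hk, h1, h2, hl, h3⟩ := h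
  refine ⟨fun s => h (sdB s), fun y => sdG (k y), l, hh.comp (PLMap.lin sdB), plMap_sdG.comp hk,
    fun s hs => ?_, fun y => ⟨sdG_mem hY _ (h2 y).1, ?_⟩, hl, fun s hs => ?_⟩
  · show sdG (k (h (sdB s))) = s
    rw [h1 _ (sdB_mem hY s hs), sdG_sdB s hs]
  · show h (sdB (sdG (k y))) = y
    rw [sdB_sdG _ (h2 y).1.1, (h2 y).2]
  · rw [sd_sum, h3 _ (sdB_mem hY s hs)]

theorem Sph.sd {Y : Set (Finset V)} {m : ℕ} (hY : IsCx Y) (h : Sph Y m) : Sph (sd Y) m := by
  obtain ⟨h, k, hh, hk, h1, h2⟩ := h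
  refine ⟨fun s => h (sdB s), fun y => sdG (k y), hh.comp (PLMap.lin sdB), plMap_sdG.comp hk,
    fun s hs => ?_, fun y => ⟨sdG_mem hY _ (h2 y).1, ?_⟩⟩
  · show sdG (k (h (sdB s))) = s
    rw [h1 _ (sdB_mem hY s hs), sdG_sdB s hs]
  · show h (sdB (sdG (k y))) = y
    rw [sdB_sdG _ (h2 y).1.1, (h2 y).2]

end Sd

end Pool.Agent.DF302A
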