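import Pool.Agent.Work.MP_df302a_co.GU
import Pool.Agent.Work.MP_df302a_co.Sd

/-!
# MP_df302a_co : positions of chains of subsets

The space `W10 = (Fin 10 → ℝ) / ℝ 1`, the classes of the indicator functions, the action of the
permutations.  The cones over the chains of proper nonempty subsets do not overlap.
-/

set_option autoImplicit false
set_option linter.unusedSectionVars false
set_option linter.unusedVariables false

namespace Pool.Agent.DF302A

open Finset Module

/-- the line of the constant functions -/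
def oneL : Submodule ℝ (Fin 10 → ℝ) := Submodule.span ℝ {fun _ => 1}

/-- functions modulo constants -/
abbrev W10 : Type := (Fin 10 → ℝ) ⧸ oneL

theorem mem_oneL {x : Fin 10 → ℝ} : x ∈ oneL ↔ ∃ c : ℝ, ∀ i, x i = c := by
  unfold oneL
  rw [Submodule.mem_span_singleton]
  constructor
  · rintro ⟨c, rfl⟩
    exact ⟨c, fun i => by simp⟩
  · rintro ⟨c, h⟩
    exact ⟨c, by ext i; simp [h i]⟩

theorem finrank_W10 : finrank ℝ W10 = 9 := by
  have h1 := Submodule.finrank_quotient_add_finrank oneL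
  have h2 : finrank ℝ oneL = 1 := by
    refine finrank_span_singleton (K := ℝ) ?_
    intro h
    have := congrFun h 0
    simp at this
  rw [h2, Module.finrank_fin_fun] at h1
  show finrank ℝ ((Fin 10 → ℝ) ⧸ oneL) = 9
  omega

/-- indicator function -/
def ind (A : Finset (Fin 10)) : Fin 10 → ℝ := fun i => if i ∈ A then 1 else 0

/-- class of the indicator function -/
def cls (A : Finset (Fin 10)) : W10 := oneL.mkQ (ind A)

/-- the action of the permutations on functions -/
noncomputable def rhoE (g : Equiv.Perm (Fin 10)) : (Fin 10 → ℝ) ≃ₗ[ℝ] (Fin 10 → ℝ) :=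
  LinearEquiv.funCongrLeft ℝ ℝ g⁻¹

theorem rhoE_apply (g : Equiv.Perm (Fin 10)) (x : Fin 10 → ℝ) (i : Fin 10) :
    rhoE g x i = x (g⁻¹ i) := rfl

theorem rhoE_map (g : Equiv.Perm (Fin 10)) :
    oneL.map (rhoE g : (Fin 10 → ℝ) →ₗ[ℝ] (Fin 10 → ℝ)) = oneL := by
  ext x
  rw [Submodule.mem_map, mem_oneL]
  constructor
  · rintro ⟨y, hy, rfl⟩
    obtain ⟨c, hc⟩ := mem_oneL.1 hy
    exact ⟨c, fun i => hc _⟩
  · rintro ⟨c, hc⟩
    refine ⟨x, mem_oneL.2 ⟨c, hc⟩, ?_⟩
    ext i
    show x (g⁻¹ i) = x i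
    rw [hc, hc]

/-- the action of the permutations on `W10` -/
noncomputable def rhoW : Equiv.Perm (Fin 10) →* (W10 ≃ₗ[ℝ] W10) where
  toFun g := Submodule.Quotient.equiv oneL oneL (rhoE g) (rhoE_map g)
  map_one' := by
    apply LinearEquiv.ext
    intro w
    obtain ⟨x, rfl⟩ := Submodule.mkQ_surjective oneL w
    show oneL.mkQ (rhoE 1 x) = oneL.mkQ x
    congr 1
  map_mul' a b := by
    apply LinearEquiv.ext
    intro w
    obtain ⟨x, rfl⟩ := Submodule.mkQ_surjective oneL w
    show oneL.mkQ (rhoE (a * b) x) = oneL.mkQ (rhoE a (rhoE b x))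
    congr 1

theorem rhoW_mk (g : Equiv.Perm (Fin 10)) (x : Fin 10 → ℝ) :
    rhoW g (oneL.mkQ x) = oneL.mkQ (fun i => x (g⁻¹ i)) := rfl

theorem rhoW_cls (g : Equiv.Perm (Fin 10)) (A : Finset (Fin 10)) :
    rhoW g (cls A) = cls (A.map g.toEmbedding) := by
  unfold cls
  rw [rhoW_mk]
  congr 1
  ext i
  have h : g⁻¹ i ∈ A ↔ i ∈ A.map g.toEmbedding := by
    rw [Finset.mem_map]
    constructor
    · intro h
      exact ⟨g⁻¹ i, h, by simp⟩
    · rintro ⟨j, hj, rfl⟩
      simpa using hj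
  show (if g⁻¹ i ∈ A then (1 : ℝ) else 0) = if i ∈ A.map g.toEmbedding then 1 else 0
  simp only [h]

theorem linP_cls (t : Finset (Fin 10) → ℝ) : linP cls t = oneL.mkQ (sdB t) := by
  rw [linP_apply]
  unfold cls
  simp only [← map_smul]
  rw [← map_sum]
  congr 1
  ext i
  rw [sdB_apply, Finset.sum_apply]
  refine Finset.sum_congr rfl fun A _ => ?_
  show t A * ind A i = _
  unfold ind
  split_ifs <;> simp

/-- a combination of a chain of proper subsets vanishes somewhere -/
theorem exists_zero {t : Finset (Fin 10) → ℝ}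
    (ht : t ∈ cone (sd (bd (Finset.univ : Finset (Fin 10))))) :
    (∀ i, 0 ≤ sdB t i) ∧ ∃ i, sdB t i = 0 := by
  obtain ⟨t0, c, hc, hout⟩ := ht
  refine ⟨sdB_nonneg t t0, ?_⟩
  by_cases hne : c.Nonempty
  · obtain ⟨A, hA, hmax⟩ := Finset.exists_max_image c Finset.card hne
    have hAs : A ⊂ Finset.univ := (hc.1 A hA).1
    obtain ⟨i, -, hi⟩ := Finset.exists_of_ssubset hAs
    refine ⟨i, ?_⟩
    rw [sdB_apply]
    refine Finset.sum_eq_zero fun B _ => ?_
    split_ifs with h
    · apply hout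
      intro hB
      by_cases hAB : B = A
      · exact hi (hAB ▸ h)
      · rcases hc.2 (Finset.mem_coe.2 hB) (Finset.mem_coe.2 hA) hAB with h1 | h1
        · exact hi (h1 h)
        · have h2 : A = B := Finset.eq_of_subset_of_card_le h1 (hmax B hB)
          exact hAB h2.symm
    · rfl
  · rw [Finset.not_nonempty_iff_eq_empty] at hne
    refine ⟨0, ?_⟩
    rw [sdB_apply]
    refine Finset.sum_eq_zero fun B _ => ?_
    split_ifs
    · exact hout B (by rw [hne]; exact Finset.notMem_empty B)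
    · rfl

/-- the cones over the chains of proper nonempty subsets do not overlap -/
theorem injOn_cls {K : Set (Finset (Finset (Fin 10)))}
    (hK : K ⊆ sd (bd (Finset.univ : Finset (Fin 10)))) :
    Set.InjOn (fun t => linP cls t) (cone K) := by
  intro t ht t' ht' h
  have hm : ∀ s ∈ cone K, s ∈ cone (sd (bd (Finset.univ : Finset (Fin 10)))) := by
    rintro s ⟨s0, c, hc, hout⟩
    exact ⟨s0, c, hK hc, hout⟩
  have h1 : linP cls t = linP cls t' := h
  rw [linP_cls, linP_cls, ← sub_eq_zero, ← map_sub] at h1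
  have h2 : sdB t - sdB t' ∈ oneL := (Submodule.Quotient.mk_eq_zero oneL).1 h1
  obtain ⟨c, hc⟩ := mem_oneL.1 h2
  obtain ⟨a1, i, hi⟩ := exists_zero (hm t ht)
  obtain ⟨b1, j, hj⟩ := exists_zero (hm t' ht')
  have e1 := hc i
  have e2 := hc j
  rw [Pi.sub_apply] at e1 e2
  have hc0 : c = 0 := by
    have := a1 j
    have := b1 i
    linarith
  have h3 : sdB t = sdB t' := by
    ext k
    have := hc k
    rw [Pi.sub_apply, hc0] at this
    linarith
  rw [← sdG_sdB t (hm t ht), ← sdG_sdB t' (hm t' ht'), h3]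

/-! ### the involution condition -/

/-- a functional of sum zero, as a functional on `W10` -/
noncomputable def phiW (f : Fin 10 → ℝ) (hf : ∑ i, f i = 0) : W10 →ₗ[ℝ] ℝ :=
  oneL.liftQ (Fintype.linearCombination ℝ f) (by
    intro x hx
    obtain ⟨c, hc⟩ := mem_oneL.1 hx
    rw [LinearMap.mem_ker, Fintype.linearCombination_apply]
    simp only [hc, smul_eq_mul]
    rw [← Finset.mul_sum, hf, mul_zero])

theorem phiW_mk (f : Fin 10 → ℝ) (hf : ∑ i, f i = 0) (x : Fin 10 → ℝ) :
    phiW f hf (oneL.mkQ x) = ∑ i, x i * f i := by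
  unfold phiW
  rw [Submodule.mkQ_apply, Submodule.liftQ_apply, Fintype.linearCombination_apply]
  rfl

theorem phiW_cls (f : Fin 10 → ℝ) (hf : ∑ i, f i = 0) (A : Finset (Fin 10)) :
    phiW f hf (cls A) = ∑ i ∈ A, f i := by
  unfold cls
  rw [phiW_mk]
  unfold ind
  simp

/-- a functional which vanishes on the classes and is not invariant -/
theorem exists_move {g : Equiv.Perm (Fin 10)} {T : Finset (Finset (Fin 10))} (f : Fin 10 → ℝ)
    (hf : ∑ i, f i = 0) (hT : ∀ A ∈ T, ∑ i ∈ A, f i = 0) (hg : ∃ i, f (g i) ≠ f i) :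
    ∃ w, rhoW g w - w ∉ Submodule.span ℝ (cls '' (T : Set (Finset (Fin 10)))) := by
  obtain ⟨i, hi⟩ := hg
  refine ⟨oneL.mkQ (Pi.single i 1), fun h => ?_⟩
  have h1 : ∀ w ∈ Submodule.span ℝ (cls '' (T : Set (Finset (Fin 10)))), phiW f hf w = 0 := by
    intro w hw
    have h2 : Submodule.span ℝ (cls '' (T : Set (Finset (Fin 10)))) ≤ LinearMap.ker (phiW f hf) := by
      rw [Submodule.span_le]
      rintro _ ⟨A, hA, rfl⟩
      rw [SetLike.mem_coe, LinearMap.mem_ker, phiW_cls]
      exact hT A hA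
    exact h2 hw
  have h3 := h1 _ h
  rw [map_sub, rhoW_mk, phiW_mk, phiW_mk, sub_eq_zero] at h3
  apply hi
  have e1 : ∑ j, (fun j => (Pi.single i (1 : ℝ) : Fin 10 → ℝ) (g⁻¹ j)) j * f j = f (g i) := by
    rw [Finset.sum_eq_single (g i)]
    · simp
    · intro j _ hj
      have h5 : g⁻¹ j ≠ i := fun h => hj (by rw [← h]; simp)
      show (Pi.single i (1 : ℝ) : Fin 10 → ℝ) (g⁻¹ j) * f j = 0
      rw [Pi.single_eq_of_ne h5, zero_mul]
    · intro h; exact absurd (Finset.mem_univ _) h
  have e2 : ∑ j, (Pi.single i (1 : ℝ) : Fin 10 → ℝ) j * f j = f i := by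
    rw [Finset.sum_eq_single i]
    · simp
    · intro j _ hj
      simp [hj]
    · intro h; exact absurd (Finset.mem_univ _) h
  rw [e1, e2] at h3
  exact h3

/-- dimension count: at most six classes, and the invariant functionals of sum zero which vanish on
them are determined by two values -/
theorem exists_move_of_two {g : Equiv.Perm (Fin 10)} {T : Finset (Finset (Fin 10))}
    (hT : T.card ≤ 6) (i₁ i₂ : Fin 10)
    (h : ∀ f : Fin 10 → ℝ, (∀ i, f (g i) = f i) → ∑ i, f i = 0 → (∀ A ∈ T, ∑ i ∈ A, f i = 0) →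
      f i₁ = 0 → f i₂ = 0 → ∀ i, f i = 0) :
    ∃ w, rhoW g w - w ∉ Submodule.span ℝ (cls '' (T : Set (Finset (Fin 10)))) := by
  classical
  set M : (Fin 10 → ℝ) →ₗ[ℝ] (T → ℝ) × (Fin 3 → ℝ) :=
    { toFun := fun f => (fun A => ∑ i ∈ A.1, f i, ![∑ i, f i, f i₁, f i₂])
      map_add' := fun f f' => by
        ext A
        · simp [Finset.sum_add_distrib]
        · fin_cases A <;> simp [Finset.sum_add_distrib]
      map_smul' := fun c f => by
        ext A
        · simp [Finset.mul_sum]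
        · fin_cases A <;> simp [Finset.mul_sum] } with hM
  have hlt : finrank ℝ ((T → ℝ) × (Fin 3 → ℝ)) < finrank ℝ (Fin 10 → ℝ) := by
    rw [finrank_prod, finrank_fintype_fun_eq_card, finrank_fintype_fun_eq_card,
      finrank_fintype_fun_eq_card, Fintype.card_coe, Fintype.card_fin, Fintype.card_fin]
    omega
  obtain ⟨f, hf, hne⟩ := (LinearMap.ker M).ne_bot_iff.1 (LinearMap.ker_ne_bot_of_finrank_lt hlt)
  have hf' : M f = 0 := hf
  have hf1 : ∀ A ∈ T, ∑ i ∈ A, f i = 0 := fun A hA =>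
    congrFun (congrArg Prod.fst hf') ⟨A, hA⟩
  have hf2 : ∑ i, f i = 0 := congrFun (congrArg Prod.snd hf') 0
  have hf3 : f i₁ = 0 := congrFun (congrArg Prod.snd hf') 1
  have hf4 : f i₂ = 0 := congrFun (congrArg Prod.snd hf') 2
  refine exists_move f hf2 hf1 ?_
  by_contra hc
  push Not at hc
  exact hne (funext (h f hc hf2 hf1 hf3 hf4))

end Pool.Agent.DF302A
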