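import Pool.Agent.Work.MP_df302a_co.GP
import Pool.Agent.Work.MP_df302a_co.Pos
import Pool.Agent.Work.MP_df302a_co.Rep
import Pool.Agent.Work.MP_df302a_co.Poly

/-! # MP_df302a_co : an invariant good cone in `W10` which contains the ten standard rays gives a
group with `cpd < gcpd`. -/

set_option autoImplicit false

namespace Pool.Agent.DF302A

open Finset

theorem M10_even (g : Equiv.Perm (Fin 10)) (hg : g ∈ M10) : Equiv.Perm.sign g = 1 := by
  refine Subgroup.closure_induction (p := fun g _ => Equiv.Perm.sign g = 1) ?_ ?_ ?_ ?_ hg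
  · intro x hx
    rcases hx with rfl | hx
    · decide
    · rw [Set.mem_singleton_iff.1 hx]
      decide
  · exact map_one _
  · intro x y _ _ hx hy
    rw [map_mul, hx, hy, one_mul]
  · intro x _ hx
    rw [map_inv, hx, inv_one]

/-- no element of `M10` is a transposition -/
theorem exists_two_moved (g : Equiv.Perm (Fin 10)) (hg : g ∈ M10) (hne : g ≠ 1) :
    ∃ i k : Fin 10, g i ≠ i ∧ k ≠ i ∧ k ≠ g i ∧ g k ≠ k := by
  obtain ⟨i, hi⟩ : ∃ i, g i ≠ i := by
    by_contra hcon
    push Not at hcon
    exact hne (Equiv.ext hcon)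
  by_contra hcon
  push Not at hcon
  have h1 : g = Equiv.swap i (g i) := by
    ext1 k
    by_cases hk : k = i
    · rw [hk, Equiv.swap_apply_left]
    by_cases hk' : k = g i
    · rw [hk', Equiv.swap_apply_right]
      by_contra h2
      have h3 : g (g i) ≠ g i := fun h => hi (g.injective h)
      have h4 := hcon i (g (g i)) hi h2 h3
      exact h3 (g.injective h4)
    · rw [Equiv.swap_apply_of_ne_of_ne hk hk']
      exact hcon i k hi hk hk'
  have h2 := M10_even g hg
  rw [h1, Equiv.Perm.sign_swap (Ne.symm hi)] at h2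
  exact absurd h2 (by decide)

/-- an invariant good cone in `W10` -/
theorem final_of_good (C : Set W10)
    (hC : ∀ a : M10, ∀ y ∈ C, rhoW (a : Equiv.Perm (Fin 10)) y ∈ C)
    (h1 : ∀ i : Fin 10, cls {i} ∈ C) (hn : Good C) :
    ∃ (Γ : Type) (_ : Group Γ), cpd Γ < gcpd Γ := by
  classical
  have hsum : ∀ i k : Fin 10, ∑ j, (Pi.single i (1 : ℝ) - Pi.single k (1 : ℝ) : Fin 10 → ℝ) j = 0 := by
    intro i k
    simp [Finset.sum_sub_distrib]
  have hval : ∀ i k j : Fin 10, phiW (Pi.single i (1 : ℝ) - Pi.single k (1 : ℝ)) (hsum i k) (cls {j}) =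
      (if j = i then 1 else 0) - (if j = k then 1 else 0) := by
    intro i k j
    rw [phiW_cls, Finset.sum_singleton, Pi.sub_apply, Pi.single_apply, Pi.single_apply]
  have hact : ∀ (a : Equiv.Perm (Fin 10)) (i : Fin 10), rhoW a (cls {i}) = cls {a i} := by
    intro a i
    rw [rhoW_cls, Finset.map_singleton]
    rfl
  obtain ⟨P, hP, φ, hφ⟩ := polytope_of_good (W := W10) (d := 8) finrank_W10
    (rhoW.comp M10.subtype) C hC hn (by
    intro a ha
    obtain ⟨i, k, hi, hk1, hk2, hk⟩ := exists_two_moved (a : Equiv.Perm (Fin 10)) a.2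
      (fun h => ha (Subtype.ext h))
    have e : ∀ j : Fin 10, (rhoW.comp M10.subtype) a (cls {j}) =
        cls {(a : Equiv.Perm (Fin 10)) j} := fun j => hact _ j
    refine ⟨cls {i}, h1 i, ?_, cls {k}, ?_⟩
    · intro h
      rw [e] at h
      have h2 := congrArg (phiW (Pi.single i (1 : ℝ) - Pi.single k (1 : ℝ)) (hsum i k)) h
      rw [hval, hval, if_neg hi, if_neg (Ne.symm hk2), if_pos rfl, if_neg (Ne.symm hk1)] at h2
      norm_num at h2
    · intro r h
      rw [e, e] at h
      obtain ⟨m, hm⟩ : ∃ m : Fin 10, m ∉ ({i, (a : Equiv.Perm (Fin 10)) i, k,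
          (a : Equiv.Perm (Fin 10)) k} : Finset (Fin 10)) := by
        by_contra hcon
        push Not at hcon
        have h3 : (Finset.univ : Finset (Fin 10)) ⊆ {i, (a : Equiv.Perm (Fin 10)) i, k,
          (a : Equiv.Perm (Fin 10)) k} := fun x _ => hcon x
        have h4 := Finset.card_le_card h3
        have h5 : ({i, (a : Equiv.Perm (Fin 10)) i, k, (a : Equiv.Perm (Fin 10)) k} :
          Finset (Fin 10)).card ≤ 4 := Finset.card_le_four
        rw [Finset.card_univ, Fintype.card_fin] at h4
        omega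
      simp only [Finset.mem_insert, Finset.mem_singleton, not_or] at hm
      obtain ⟨m1, m2, m3, m4⟩ := hm
      have h2 := congrArg (phiW (Pi.single k (1 : ℝ) - Pi.single m (1 : ℝ)) (hsum k m)) h
      rw [map_smul, map_sub, map_sub, hval, hval, hval, hval, if_neg hk, if_neg (Ne.symm m4),
        if_pos rfl, if_neg (Ne.symm m3), if_neg (Ne.symm hk2), if_neg (Ne.symm m2),
        if_neg (Ne.symm hk1), if_neg (Ne.symm m1)] at h2
      norm_num at h2)
  exact ⟨CombAut P, inferInstance, cpd_lt_gcpd P hP φ hφ (fun n hn ρ => no_rep n hn ρ)⟩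

end Pool.Agent.DF302A
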