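import Pool.Agent.Work.MP_df302a_co.Pos
import Pool.Agent.Work.MP_df302a_co.FreePos
import Pool.Agent.Work.MP_df302a_co.Rep

/-!
# MP_df302a_co : the complex with one free orbit of vertices

`L` is an invariant complex of chains of subsets of ten points, `S` a subcomplex, and the complex
`KF L S` is the union of `L` and of the cones over the translates of `S`.
-/

set_option autoImplicit false
set_option linter.unusedSectionVars false
set_option linter.unusedVariables false

namespace Pool.Agent.DF302A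

open Finset Module

/-- vertices: subsets of the ten points, and the elements of the group -/
def X10 : Type := Finset (Fin 10) ⊕ M10

noncomputable instance : Fintype M10 := Fintype.ofFinite M10

noncomputable instance : Fintype X10 := inferInstanceAs (Fintype (Finset (Fin 10) ⊕ M10))

instance : DecidableEq X10 := inferInstanceAs (DecidableEq (Finset (Fin 10) ⊕ M10))

/-- a subset, as a vertex -/
def X10.s (A : Finset (Fin 10)) : X10 := Sum.inl A

/-- a group element, as a vertex -/
def X10.y (g : M10) : X10 := Sum.inr g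

theorem X10.s_inj : Function.Injective X10.s := Sum.inl_injective

theorem X10.y_inj : Function.Injective X10.y := Sum.inr_injective

theorem X10.s_ne_y (A : Finset (Fin 10)) (g : M10) : X10.s A ≠ X10.y g := Sum.inl_ne_inr

theorem X10.cases' (x : X10) : (∃ A, x = X10.s A) ∨ ∃ g, x = X10.y g := by
  rcases x with A | g
  · exact Or.inl ⟨A, rfl⟩
  · exact Or.inr ⟨g, rfl⟩

/-- image of a subset -/
def actS' (g : M10) (A : Finset (Fin 10)) : Finset (Fin 10) :=
  A.map (g : Equiv.Perm (Fin 10)).toEmbedding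

theorem actS'_one (A : Finset (Fin 10)) : actS' 1 A = A := by
  unfold actS'
  ext i
  rw [Finset.mem_map]
  exact ⟨fun ⟨y, hy, h⟩ => h ▸ hy, fun h => ⟨i, h, rfl⟩⟩

theorem actS'_mul (g h : M10) (A : Finset (Fin 10)) : actS' (g * h) A = actS' g (actS' h A) := by
  unfold actS'
  rw [Finset.map_map]
  rfl

theorem actS'_inj (g : M10) : Function.Injective (actS' g) := Finset.map_injective _

/-- the action on the vertices -/
instance : MulAction M10 X10 where
  smul g x := Sum.map (actS' g) (fun h => g * h) x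
  one_smul x := by
    rcases x with A | h
    · show Sum.inl (actS' 1 A) = Sum.inl A
      rw [actS'_one]
    · show Sum.inr (1 * h) = Sum.inr h
      rw [one_mul]
  mul_smul a b x := by
    rcases x with A | h
    · show Sum.inl (actS' (a * b) A) = Sum.inl (actS' a (actS' b A))
      rw [actS'_mul]
    · show Sum.inr (a * b * h) = Sum.inr (a * (b * h))
      rw [mul_assoc]

theorem smul_s (g : M10) (A : Finset (Fin 10)) : g • X10.s A = X10.s (actS' g A) := rfl

theorem smul_y (g h : M10) : g • X10.y h = X10.y (g * h) := rfl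

/-- the complex `L` and the cones over the translates of `S` -/
def KF (L S : Set (Finset (Finset (Fin 10)))) : Set (Finset X10) :=
  {σ | (∃ c ∈ L, σ = c.image X10.s) ∨
    ∃ g : M10, ∃ c ∈ S, σ = insert (X10.y g) ((c.image (actS' g)).image X10.s)}

/-- the representation -/
noncomputable def rho10 : M10 →* (W10 ≃ₗ[ℝ] W10) := rhoW.comp M10.subtype

theorem rho10_cls (g : M10) (A : Finset (Fin 10)) : rho10 g (cls A) = cls (actS' g A) :=
  rhoW_cls _ _

/-- the data -/
structure FData (L S : Set (Finset (Finset (Fin 10)))) : Prop where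
  sub : L ⊆ sd (bd (Finset.univ : Finset (Fin 10)))
  cxL : IsCx L
  inv : ∀ g : M10, ∀ c ∈ L, c.image (actS' g) ∈ L
  card : ∀ c ∈ L, c.card ≤ 3
  SL : S ⊆ L
  cxS : IsCx S
  hinv : ∀ g : M10, g ≠ 1 → ∀ c ∈ S, ∀ c' ∈ S, ∃ w, rho10 g w - w ∉
    Submodule.span ℝ (cls '' (c ∪ c'.image (actS' g) : Finset (Finset (Fin 10))))

section
variable {L S : Set (Finset (Finset (Fin 10)))}

theorem s_notMem_y {c : Finset (Finset (Fin 10))} (g : M10) : X10.y g ∉ c.image X10.s := by
  intro h
  obtain ⟨A, -, hA⟩ := Finset.mem_image.1 h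
  exact X10.s_ne_y A g hA

theorem FData.isCx (D : FData L S) : IsCx (KF L S) := by
  classical
  refine ⟨Or.inl ⟨∅, D.cxL.1, by simp⟩, ?_⟩
  have hsub : ∀ (c : Finset (Finset (Fin 10))) (τ : Finset X10), τ ⊆ c.image X10.s →
      ∃ d ⊆ c, τ = d.image X10.s := by
    intro c τ h
    obtain ⟨d, hd, rfl⟩ := Finset.subset_image_iff.1 h
    exact ⟨d, by exact_mod_cast hd, rfl⟩
  rintro σ (⟨c, hc, rfl⟩ | ⟨g, c, hc, rfl⟩) τ hτ
  · obtain ⟨d, hd, rfl⟩ := hsub c τ hτ
    exact Or.inl ⟨d, D.cxL.2 c hc d hd, rfl⟩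
  · have hcL : c.image (actS' g) ∈ L := D.inv g c (D.SL hc)
    by_cases hy : X10.y g ∈ τ
    · have h1 : τ.erase (X10.y g) ⊆ (c.image (actS' g)).image X10.s := by
        intro x hx
        rcases Finset.mem_insert.1 (hτ (Finset.mem_of_mem_erase hx)) with h | h
        · exact absurd h (Finset.ne_of_mem_erase hx)
        · exact h
      obtain ⟨d, hd, he⟩ := hsub _ _ h1
      obtain ⟨d', hd', rfl⟩ := Finset.subset_image_iff.1 hd
      refine Or.inr ⟨g, d', D.cxS.2 c hc d' (by exact_mod_cast hd'), ?_⟩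
      rw [← he, Finset.insert_erase hy]
    · have h1 : τ ⊆ (c.image (actS' g)).image X10.s := by
        intro x hx
        rcases Finset.mem_insert.1 (hτ hx) with h | h
        · exact absurd (h ▸ hx) hy
        · exact h
      obtain ⟨d, hd, rfl⟩ := hsub _ _ h1
      exact Or.inl ⟨d, D.cxL.2 _ hcL d hd, rfl⟩

theorem FData.card_le (D : FData L S) : ∀ σ ∈ KF L S, σ.card ≤ 4 := by
  rintro σ (⟨c, hc, rfl⟩ | ⟨g, c, hc, rfl⟩)
  · exact (Finset.card_image_le.trans (D.card c hc)).trans (by norm_num)
  · refine (Finset.card_insert_le _ _).trans ?_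
    have h1 : ((c.image (actS' g)).image X10.s).card ≤ c.card :=
      Finset.card_image_le.trans Finset.card_image_le
    have := D.card c (D.SL hc)
    omega

theorem FData.smul (D : FData L S) (g : M10) :
    ∀ σ ∈ KF L S, σ.image (fun x => g • x) ∈ KF L S := by
  classical
  have h1 : ∀ c : Finset (Finset (Fin 10)), (c.image X10.s).image (fun x => g • x) =
      (c.image (actS' g)).image X10.s := by
    intro c
    rw [Finset.image_image, Finset.image_image]
    rfl
  rintro σ (⟨c, hc, rfl⟩ | ⟨h, c, hc, rfl⟩)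
  · exact Or.inl ⟨c.image (actS' g), D.inv g c hc, h1 c⟩
  · refine Or.inr ⟨g * h, c, hc, ?_⟩
    rw [Finset.image_insert, h1, smul_y]
    congr 2
    rw [Finset.image_image]
    refine Finset.image_congr fun A _ => ?_
    rw [Function.comp_apply, ← actS'_mul]

theorem mem_KF_y {g : M10} {σ : Finset X10} (h : σ ∈ KF L S) (hy : X10.y g ∈ σ) :
    ∃ c ∈ S, σ = insert (X10.y g) ((c.image (actS' g)).image X10.s) := by
  rcases h with ⟨c, hc, rfl⟩ | ⟨g', c, hc, rfl⟩
  · exact absurd hy (s_notMem_y g)
  · rcases Finset.mem_insert.1 hy with h | h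
    · have : g = g' := X10.y_inj h
      subst this
      exact ⟨c, hc, rfl⟩
    · exact absurd h (s_notMem_y g)

theorem mem_KF_of_not {σ : Finset X10} (h : σ ∈ KF L S) (hy : ∀ g : M10, X10.y g ∉ σ) :
    ∃ c ∈ L, σ = c.image X10.s := by
  rcases h with ⟨c, hc, rfl⟩ | ⟨g', c, hc, rfl⟩
  · exact ⟨c, hc, rfl⟩
  · exact absurd (Finset.mem_insert_self _ _) (hy g')

/-- preliminary positions -/
noncomputable def pos0 (x : X10) : W10 := Sum.elim cls (fun _ => 0) x

theorem pos0_s (A : Finset (Fin 10)) : pos0 (X10.s A) = cls A := rfl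

theorem pos0_image (c : Finset (Finset (Fin 10))) :
    pos0 '' (c.image X10.s : Finset X10) = cls '' (c : Set (Finset (Fin 10))) := by
  ext w
  constructor
  · rintro ⟨x, hx, rfl⟩
    rw [Finset.mem_coe] at hx
    obtain ⟨A, hA, rfl⟩ := Finset.mem_image.1 hx
    exact ⟨A, hA, rfl⟩
  · rintro ⟨A, hA, rfl⟩
    exact ⟨X10.s A, by rw [Finset.mem_coe]; exact Finset.mem_image_of_mem _ hA, rfl⟩

theorem linP_pos0 {t : X10 → ℝ} (ht : ∀ g : M10, t (X10.y g) = 0) :
    linP pos0 t = linP cls (fun A => t (X10.s A)) := by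
  rw [linP_apply, linP_apply]
  show ∑ x : Finset (Fin 10) ⊕ M10, t x • pos0 x = _
  rw [Fintype.sum_sum_type]
  have h2 : ∑ g : M10, t (Sum.inr g) • pos0 (Sum.inr g) = 0 :=
    Finset.sum_eq_zero fun g _ => by
      have := ht g
      show t (X10.y g) • pos0 (X10.y g) = 0
      rw [this, zero_smul]
  have h3 : ∀ g : M10, t (Sum.inr g) • pos0 (Sum.inr g) = 0 := fun g => by
    show t (X10.y g) • pos0 (X10.y g) = 0
    rw [ht g, zero_smul]
  simp only [h3, Finset.sum_const_zero, add_zero]
  rfl

theorem FData.position (D : FData L S) : ∃ p : X10 → W10,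
    (∀ (g : M10) x, p (g • x) = rho10 g (p x)) ∧ (∀ A, p (X10.s A) = cls A) ∧
      Set.InjOn (fun t => linP p t) (cone (KF L S)) := by
  classical
  have hfin : ∀ g : M10, g • X10.y 1 = X10.y g := fun g => by rw [smul_y, mul_one]
  -- equivariant preliminary positions: the free vertices are at 0
  have hp0 : ∀ (g : M10) x, pos0 (g • x) = rho10 g (pos0 x) := by
    intro g x
    rcases X10.cases' x with ⟨A, rfl⟩ | ⟨h, rfl⟩
    · rw [smul_s, pos0_s, pos0_s, rho10_cls]
    · rw [smul_y]
      show (0 : W10) = rho10 g 0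
      rw [map_zero]
  suffices h : ∃ p' : X10 → W10, (∀ (g : M10) x, p' (g • x) = rho10 g (p' x)) ∧
      (∀ x, (∀ g : M10, x ≠ g • X10.y 1) → p' x = pos0 x) ∧
      (∀ i : Empty, (fun i : Empty => (i.elim : W10 → ℝ)) i (p' (X10.y 1)) ≠ 0) ∧
      Set.InjOn (fun t => linP p' t) (cone (KF L S)) by
    obtain ⟨p, h1, h2, -, h3⟩ := h
    refine ⟨p, h1, fun A => ?_, h3⟩
    rw [h2 (X10.s A) fun g => by rw [hfin]; exact X10.s_ne_y A g]
    rfl
  refine exists_free_position rho10 (KF L S) D.isCx D.smul pos0 hp0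
    (X10.y 1) ?_ ?_ ?_ ?_ ?_ (fun i : Empty => i.elim) (fun i => i.elim) (fun i => i.elim)
  · intro g hg
    rw [hfin] at hg
    exact X10.y_inj hg
  · intro σ hσ g h hg hh
    rw [hfin] at hg hh
    obtain ⟨c, hc, rfl⟩ := mem_KF_y hσ hg
    rcases Finset.mem_insert.1 hh with h4 | h4
    · exact (X10.y_inj h4).symm
    · exact absurd h4 (s_notMem_y h)
  · -- injectivity without the free vertices
    intro t ht t' ht' h
    have hy : ∀ s ∈ cone {σ | σ ∈ KF L S ∧ ∀ g : M10, g • X10.y 1 ∉ σ},
        (∀ g : M10, s (X10.y g) = 0) ∧ (fun A => s (X10.s A)) ∈ cone L := by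
      rintro s ⟨s0, σ, ⟨hσ, hσy⟩, hout⟩
      obtain ⟨c, hc, rfl⟩ := mem_KF_of_not hσ fun g => by rw [← hfin]; exact hσy g
      refine ⟨fun g => hout _ (s_notMem_y g), fun A => s0 _, c, hc, fun A hA => hout _ ?_⟩
      intro h4
      obtain ⟨B, hB, e⟩ := Finset.mem_image.1 h4
      exact hA (X10.s_inj e ▸ hB)
    obtain ⟨a1, a2⟩ := hy t ht
    obtain ⟨b1, b2⟩ := hy t' ht'
    have h5 : linP pos0 t = linP pos0 t' := h
    rw [linP_pos0 a1, linP_pos0 b1] at h5
    have h6 := injOn_cls D.sub a2 b2 h5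
    funext x
    rcases X10.cases' x with ⟨A, rfl⟩ | ⟨g, rfl⟩
    · exact congrFun h6 A
    · rw [a1, b1]
  · -- first condition
    intro τ hyτ hτ σ hσ hσy
    obtain ⟨c, hc, he⟩ := mem_KF_y hτ (Finset.mem_insert_self _ _)
    obtain ⟨d, hd, rfl⟩ := mem_KF_of_not hσ fun g => by rw [← hfin]; exact hσy g
    have hcard : (τ ∪ d.image X10.s).card ≤ 6 := by
      refine (Finset.card_union_le _ _).trans ?_
      have e1 : (insert (X10.y 1) τ).card ≤ 4 := D.card_le _ hτ
      rw [Finset.card_insert_of_notMem hyτ] at e1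
      have e2 : (d.image X10.s).card ≤ 3 := Finset.card_image_le.trans (D.card d hd)
      omega
    intro htop
    have h7 := finrank_span_le_card (R := ℝ) (pos0 '' (τ ∪ d.image X10.s : Finset X10))
    rw [htop, finrank_top, finrank_W10, Set.toFinset_image, Finset.toFinset_coe] at h7
    have h8 := Finset.card_image_le (s := τ ∪ d.image X10.s) (f := pos0)
    omega
  · -- second condition
    intro g hg τ τ' hyτ hτ hyτ' hτ'
    obtain ⟨c, hc, he⟩ := mem_KF_y hτ (Finset.mem_insert_self _ _)
    rw [hfin] at hτ' hyτ'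
    obtain ⟨c', hc', he'⟩ := mem_KF_y hτ' (Finset.mem_insert_self _ _)
    have e1 : τ = c.image X10.s := by
      have h4 := congrArg (fun s => s.erase (X10.y 1)) he
      rw [Finset.erase_insert hyτ, Finset.erase_insert (s_notMem_y 1)] at h4
      rw [h4]
      congr 1
      conv_rhs => rw [← Finset.image_id (s := c)]
      exact Finset.image_congr fun A _ => actS'_one A
    have e2 : τ' = (c'.image (actS' g)).image X10.s := by
      have h4 := congrArg (fun s => s.erase (X10.y g)) he'
      rwa [Finset.erase_insert hyτ', Finset.erase_insert (s_notMem_y g)] at h4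
    have e3 : pos0 '' (τ ∪ τ' : Finset X10) =
        cls '' (c ∪ c'.image (actS' g) : Finset (Finset (Fin 10))) := by
      rw [e1, e2, ← Finset.image_union, pos0_image]
    rw [e3]
    refine ⟨?_, D.hinv g hg c hc c' hc'⟩
    have h7 := finrank_span_le_card (R := ℝ)
      (cls '' (c ∪ c'.image (actS' g) : Finset (Finset (Fin 10))))
    rw [Set.toFinset_image, Finset.toFinset_coe] at h7
    have h8 := Finset.card_image_le (s := c ∪ c'.image (actS' g)) (f := cls)
    have h9 := Finset.card_union_le c (c'.image (actS' g))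
    have h10 : (c'.image (actS' g)).card ≤ c'.card := Finset.card_image_le
    have h11 := D.card c (D.SL hc)
    have h12 := D.card c' (D.SL hc')
    rw [finrank_W10]
    omega

end

end Pool.Agent.DF302A
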