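import Pool.Agent.Work.MP_df302a_co.GSim
import Pool.Agent.Work.MP_df302a_co.BridgeG

/-! # MP_df302a_co : a complex which is equivalent to a point has good cones -/

set_option autoImplicit false

namespace Pool.Agent.DF302A

open Finset

section

variable {W : Type*} [AddCommGroup W] [Module ℝ W]

theorem Ind.comp {V Y : Type*} [DecidableEq Y] {q : Y → W} {e : V → Y}
    (he : Function.Injective e) {c : Finset V} (h : Ind q (c.image e)) : Ind (fun v => q (e v)) c := by
  have h1 : Function.Injective (fun v : c => (⟨e v, Finset.mem_image_of_mem e v.2⟩ :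
      {y // y ∈ c.image e})) := by
    intro a b hab
    exact Subtype.ext (he (congrArg Subtype.val hab))
  exact LinearIndependent.comp h _ h1

/-- (I) + (II) + (III): an embedded complex of dimension at most three (in a space of dimension
nine) which can be deformed abstractly into a point has a good cone. -/
theorem good_of_sim_pt [FiniteDimensional ℝ W] (hn : Module.finrank ℝ W = 9)
    {X : Type*} [Fintype X] [DecidableEq X] {K : Set (Finset X)} (hK : IsCx K)
    (h4 : ∀ σ ∈ K, σ.card ≤ 4) {p : X → W} (hp : Set.InjOn (fun t => linP p t) (cone K))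
    {V : Type*} [DecidableEq V] [Countable V] {e : X → V} (he : Function.Injective e) {v : V}
    (hS : PI.Sim ((fun σ : Finset X => σ.image e) '' K) (PI.pt v)) : Good (cK p K) := by
  obtain ⟨enc, henc⟩ := Countable.exists_injective_nat V
  obtain ⟨q, hq, hgood⟩ := bridge_good hn hK (by
    intro σ hσ τ hτ
    have h1 := h4 σ hσ
    have h2 := h4 τ hτ
    have h3 := Finset.card_union_le σ τ
    omega) hp (henc.comp he)
  rw [hgood]
  have e1 : cK q ((fun σ : Finset X => σ.image (enc ∘ e)) '' K) =
      cK (fun v => q (enc v)) ((fun σ : Finset X => σ.image e) '' K) := by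
    rw [cK_map (henc.comp he) (p := fun x => q (enc (e x))) (fun x => rfl),
      cK_map he (p := fun x => q (enc (e x))) (fun x => rfl)]
  have hq' : ∀ c : Finset V, c.card ≤ 9 → Ind (fun v => q (enc v)) c := by
    intro c hc
    apply Ind.comp henc
    apply hq
    rw [Finset.card_image_of_injective c henc]
    exact hc
  rw [e1, good_of_sim hq' hS]
  apply good_point
  have h1 := hq' {v} (by simp)
  have h2 := h1.ne_zero ⟨v, Finset.mem_singleton_self v⟩
  exact h2

end

end Pool.Agent.DF302A
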