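import Pool.Agent.Work.MP_df302a_co.GU

/-! # MP_df302a_co, part (II): links in the fan of an arrangement -/

set_option autoImplicit false
set_option linter.unusedSectionVars false

namespace Pool.Agent.DF302A.G5

open Finset

section

variable {W : Type*} [AddCommGroup W] [Module ℝ W]

theorem isCx_QL {ι : Type*} (L : ι → W →ₗ[ℝ] ℝ) : IsCx (QL L) := by
  refine ⟨⟨by simp, by simp⟩, ?_⟩
  rintro σ ⟨h1, h2⟩ τ hτ
  exact ⟨fun s hs => h1 s (hτ hs), fun s hs t ht => h2 s (hτ hs) t (hτ ht)⟩

theorem lk_QL {ι : Type*} [Fintype ι] [DecidableEq ι] (L : ι → W →ₗ[ℝ] ℝ) (s : ι → SignType)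
    (hs : s ≠ 0) (hs' : ∃ y, sg L y = s) : lkF (QL L) {s} = join (below L s) (above L s) := by
  classical
  ext c
  constructor
  · rintro ⟨hd, hc1, hc2⟩
    have hsc : s ∉ c := by
      intro h
      exact Finset.disjoint_left.mp hd h (Finset.mem_singleton_self s)
    have hcs : ∀ t ∈ c, t ∈ c ∪ {s} := fun t ht => Finset.mem_union_left _ ht
    have hss : s ∈ c ∪ {s} := Finset.mem_union_right _ (Finset.mem_singleton_self s)
    have hcQ : c ∈ QL L := ⟨fun t ht => hc1 t (hcs t ht), fun t ht u hu => hc2 t (hcs t ht) u (hcs u hu)⟩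
    refine ⟨c.filter fun t => SLe t s, ⟨(isCx_QL L).2 c hcQ _ (Finset.filter_subset _ _), ?_⟩,
      c.filter fun t => ¬ SLe t s, ⟨(isCx_QL L).2 c hcQ _ (Finset.filter_subset _ _), ?_⟩, ?_⟩
    · intro t ht
      rw [Finset.mem_filter] at ht
      exact ⟨ht.2, fun h => hsc (h ▸ ht.1)⟩
    · intro t ht
      rw [Finset.mem_filter] at ht
      refine ⟨?_, fun h => hsc (h ▸ ht.1)⟩
      rcases hc2 s hss t (hcs t ht.1) with h | h
      · exact h
      · exact absurd h ht.2
    · rw [Finset.filter_union_filter_not_eq]
  · rintro ⟨α, ⟨hα, hα'⟩, β, ⟨hβ, hβ'⟩, rfl⟩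
    refine ⟨?_, ?_, ?_⟩
    · rw [Finset.disjoint_singleton_right, Finset.mem_union]
      rintro (h | h)
      · exact (hα' s h).2 rfl
      · exact (hβ' s h).2 rfl
    · intro t ht
      rw [Finset.mem_union, Finset.mem_union, Finset.mem_singleton] at ht
      rcases ht with (h | h) | h
      · exact hα.1 t h
      · exact hβ.1 t h
      · exact h ▸ ⟨hs, hs'⟩
    · have key : ∀ t ∈ α ∪ β ∪ {s}, SLe t s ∨ SLe s t := by
        intro t ht
        rw [Finset.mem_union, Finset.mem_union, Finset.mem_singleton] at ht
        rcases ht with (h | h) | h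
        · exact Or.inl (hα' t h).1
        · exact Or.inr (hβ' t h).1
        · exact Or.inl (h ▸ SLe.refl s)
      have ha : ∀ t ∈ α ∪ β ∪ {s}, SLe t s → t ≠ s → t ∈ α := by
        intro t ht h1 h2
        rw [Finset.mem_union, Finset.mem_union, Finset.mem_singleton] at ht
        rcases ht with (h | h) | h
        · exact h
        · exact absurd (SLe.antisymm h1 (hβ' t h).1) h2
        · exact absurd h h2
      have hb : ∀ t ∈ α ∪ β ∪ {s}, SLe s t → t ≠ s → t ∈ β := by
        intro t ht h1 h2
        rw [Finset.mem_union, Finset.mem_union, Finset.mem_singleton] at ht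
        rcases ht with (h | h) | h
        · exact absurd (SLe.antisymm (hα' t h).1 h1) h2
        · exact h
        · exact absurd h h2
      intro t ht u hu
      by_cases hts : t = s
      · subst hts
        exact (key u hu).symm
      by_cases hus : u = s
      · subst hus
        exact key t ht
      rcases key t ht with h1 | h1
      · rcases key u hu with h2 | h2
        · exact hα.2 t (ha t ht h1 hts) u (ha u hu h2 hus)
        · exact Or.inl (h1.trans h2)
      · rcases key u hu with h2 | h2
        · exact Or.inr (h2.trans h1)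
        · exact hβ.2 t (hb t ht h1 hts) u (hb u hu h2 hus)

/-! ### the localised arrangement -/

variable {ι : Type*} [Fintype ι] [DecidableEq ι]

/-- the localised functionals -/
noncomputable def loc (L : ι → W →ₗ[ℝ] ℝ) (s : ι → SignType) :
    {i // s i = 0} → (W ⧸ spanC L s) →ₗ[ℝ] ℝ :=
  fun i => (spanC L s).liftQ (L i) (iInf_le (fun i : {i // s i = 0} => LinearMap.ker (L i)) i)

theorem loc_mk (L : ι → W →ₗ[ℝ] ℝ) (s : ι → SignType) (i : {i // s i = 0}) (y : W) :
    loc L s i (Submodule.Quotient.mk y) = L i y := rfl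

theorem mem_spanC {L : ι → W →ₗ[ℝ] ℝ} {s : ι → SignType} {y : W} :
    y ∈ spanC L s ↔ ∀ i, s i = 0 → L i y = 0 := by
  unfold spanC
  simp only [Submodule.mem_iInf, LinearMap.mem_ker, Subtype.forall]

theorem sep_loc (L : ι → W →ₗ[ℝ] ℝ) (s : ι → SignType) : Sep (loc L s) := by
  intro y hy
  induction y using Submodule.Quotient.induction_on with
  | H y =>
    rw [Submodule.Quotient.mk_eq_zero, mem_spanC]
    intro i hi
    exact hy ⟨i, hi⟩

/-- a sign vector of the localised arrangement, completed by `s` -/
def lift (s : ι → SignType) (u : {i // s i = 0} → SignType) : ι → SignType :=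
  fun i => if h : s i = 0 then u ⟨i, h⟩ else s i

theorem lift_in {s : ι → SignType} (u : {i // s i = 0} → SignType) {i : ι} (h : s i = 0) :
    lift s u i = u ⟨i, h⟩ := dif_pos h

theorem lift_out {s : ι → SignType} (u : {i // s i = 0} → SignType) {i : ι} (h : s i ≠ 0) :
    lift s u i = s i := dif_neg h

theorem lift_inj (s : ι → SignType) : Function.Injective (lift s) := by
  intro u v h
  funext i
  have := congrFun h i.1
  rwa [lift_in u i.2, lift_in v i.2] at this

theorem lift_res {s t : ι → SignType} (h : SLe s t) :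
    lift s (fun i : {i // s i = 0} => t i) = t := by
  funext i
  by_cases hi : s i = 0
  · rw [lift_in _ hi]
  · rw [lift_out _ hi]
    exact (h i).resolve_left hi

theorem SLe_lift (s : ι → SignType) (u : {i // s i = 0} → SignType) : SLe s (lift s u) := by
  intro i
  by_cases hi : s i = 0
  · exact Or.inl hi
  · exact Or.inr (lift_out u hi).symm

theorem lift_ne {s : ι → SignType} {u : {i // s i = 0} → SignType} (hu : u ≠ 0) :
    lift s u ≠ s := by
  intro h
  apply hu
  funext i
  have := congrFun h i.1
  rw [lift_in u i.2, i.2] at this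
  exact this

theorem SLe_lift_iff {s : ι → SignType} {u v : {i // s i = 0} → SignType} :
    SLe (lift s u) (lift s v) ↔ SLe u v := by
  constructor
  · intro h i
    have := h i.1
    rwa [lift_in u i.2, lift_in v i.2] at this
  · intro h i
    by_cases hi : s i = 0
    · rw [lift_in u hi, lift_in v hi]
      exact h ⟨i, hi⟩
    · rw [lift_out u hi, lift_out v hi]
      exact Or.inr rfl

/-- restriction of the sign vector of a point near the cell `s` -/
theorem sg_near {L : ι → W →ₗ[ℝ] ℝ} {s : ι → SignType} {y₀ : W} (h₀ : sg L y₀ = s) (y : W) :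
    ∃ ε : ℝ, 0 < ε ∧ sg L (y₀ + ε • y) = lift s (sg (loc L s) (Submodule.Quotient.mk y)) := by
  have hs : ∀ i, SignType.sign (L i y₀) = s i := fun i => congrFun h₀ i
  have h1 : ∀ i, ∃ ε : ℝ, 0 < ε ∧ ∀ δ : ℝ, 0 < δ → δ ≤ ε → s i ≠ 0 →
      SignType.sign (L i y₀ + δ * L i y) = s i := by
    intro i
    by_cases hi : s i = 0
    · exact ⟨1, one_pos, fun _ _ _ h => absurd hi h⟩
    · have hne : L i y₀ ≠ 0 := by
        intro h
        apply hi
        rw [← hs i, h, sign_zero]
      refine ⟨|L i y₀| / (2 * (|L i y| + 1)), by positivity, fun δ h0 h1 _ => ?_⟩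
      have hb : |δ * L i y| < |L i y₀| := by
        rw [abs_mul, abs_of_pos h0]
        have e1 : δ * |L i y| ≤ |L i y₀| / (2 * (|L i y| + 1)) * |L i y| :=
          mul_le_mul_of_nonneg_right h1 (abs_nonneg _)
        have e2 : |L i y₀| / (2 * (|L i y| + 1)) * |L i y| < |L i y₀| := by
          rw [div_mul_eq_mul_div, div_lt_iff₀ (by positivity)]
          have := abs_nonneg (L i y)
          have := abs_pos.2 hne
          nlinarith
        linarith
      rw [← hs i]
      rcases lt_or_gt_of_ne hne with h | h
      · rw [abs_of_neg h] at hb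
        rw [sign_neg h, sign_neg]
        linarith [(abs_lt.1 hb).2]
      · rw [abs_of_pos h] at hb
        rw [sign_pos h, sign_pos]
        linarith [(abs_lt.1 hb).1]
  choose e he0 he using h1
  obtain ⟨ε, hε0, hε⟩ : ∃ ε : ℝ, 0 < ε ∧ ∀ i, ε ≤ e i := by
    by_cases hι : (Finset.univ : Finset ι).Nonempty
    · refine ⟨Finset.univ.inf' hι e, ?_, fun i => Finset.inf'_le _ (Finset.mem_univ i)⟩
      rw [Finset.lt_inf'_iff]
      exact fun i _ => he0 i
    · exact ⟨1, one_pos, fun i => absurd ⟨i, Finset.mem_univ i⟩ hι⟩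
  refine ⟨ε, hε0, ?_⟩
  funext i
  show SignType.sign (L i (y₀ + ε • y)) = _
  rw [map_add, map_smul, smul_eq_mul]
  by_cases hi : s i = 0
  · rw [lift_in _ hi]
    have h2 : L i y₀ = 0 := by
      have := hs i
      rw [hi] at this
      exact sign_eq_zero_iff.1 this
    rw [h2, zero_add]
    show _ = SignType.sign (loc L s ⟨i, hi⟩ (Submodule.Quotient.mk y))
    rw [loc_mk, sign_mul, sign_pos hε0, one_mul]
  · rw [lift_out _ hi]
    exact he i ε hε0 (hε i) hi

theorem sg_loc {L : ι → W →ₗ[ℝ] ℝ} {s : ι → SignType} (y : W) :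
    sg (loc L s) (Submodule.Quotient.mk y) = fun i : {i // s i = 0} => sg L y i := rfl

theorem above_eq (L : ι → W →ₗ[ℝ] ℝ) (s : ι → SignType) (hs' : ∃ y, sg L y = s) :
    above L s = (Finset.image (lift s)) '' QL (loc L s) := by
  classical
  obtain ⟨y₀, h₀⟩ := hs'
  ext c
  constructor
  · rintro ⟨⟨hc1, hc2⟩, hc3⟩
    have hres : ∀ t ∈ c, lift s (fun i : {i // s i = 0} => t i) = t := fun t ht =>
      lift_res (hc3 t ht).1
    refine ⟨c.image fun t => fun i : {i // s i = 0} => t i, ⟨?_, ?_⟩, ?_⟩
    · intro u hu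
      obtain ⟨t, ht, rfl⟩ := Finset.mem_image.1 hu
      constructor
      · intro h
        apply (hc3 t ht).2
        rw [← hres t ht, h]
        funext i
        by_cases hi : s i = 0
        · rw [lift_in _ hi, hi]
          rfl
        · rw [lift_out _ hi]
      · obtain ⟨y, hy⟩ := (hc1 t ht).2
        exact ⟨Submodule.Quotient.mk y, by rw [sg_loc, hy]⟩
    · intro u hu v hv
      obtain ⟨t, ht, rfl⟩ := Finset.mem_image.1 hu
      obtain ⟨t', ht', rfl⟩ := Finset.mem_image.1 hv
      rcases hc2 t ht t' ht' with h | h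
      · exact Or.inl fun i => h i
      · exact Or.inr fun i => h i
    · rw [Finset.image_image]
      ext t
      simp only [Finset.mem_image, Function.comp_apply]
      constructor
      · rintro ⟨t', ht', rfl⟩
        rwa [hres t' ht']
      · intro ht
        exact ⟨t, ht, hres t ht⟩
  · rintro ⟨c, ⟨hc1, hc2⟩, rfl⟩
    refine ⟨⟨?_, ?_⟩, ?_⟩
    · intro t ht
      obtain ⟨u, hu, rfl⟩ := Finset.mem_image.1 ht
      obtain ⟨hu0, y, hy⟩ := hc1 u hu
      constructor
      · intro h
        apply hu0
        funext i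
        have := congrFun h i.1
        rwa [lift_in u i.2] at this
      · induction y using Submodule.Quotient.induction_on with
        | H y =>
          obtain ⟨ε, -, h1⟩ := sg_near h₀ y
          exact ⟨_, by rw [h1, hy]⟩
    · intro t ht t' ht'
      obtain ⟨u, hu, rfl⟩ := Finset.mem_image.1 ht
      obtain ⟨u', hu', rfl⟩ := Finset.mem_image.1 ht'
      rcases hc2 u hu u' hu' with h | h
      · exact Or.inl (SLe_lift_iff.2 h)
      · exact Or.inr (SLe_lift_iff.2 h)
    · intro t ht
      obtain ⟨u, hu, rfl⟩ := Finset.mem_image.1 ht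
      exact ⟨SLe_lift s u, lift_ne (hc1 u hu).1⟩

/-! ### transport of spheres along an injective map of the vertices -/

theorem sphV_map {X X' : Type*} [Fintype X] [DecidableEq X] [Fintype X'] [DecidableEq X']
    {V : Type*} [AddCommGroup V] [Module ℝ V] {Q : Set (Finset X)} (e : X → X')
    (he : Function.Injective e) (h : SphV Q V) : SphV ((Finset.image e) '' Q) V := by
  obtain ⟨h, k, H⟩ := h
  exact ⟨_, _, H.map e Set.univ (fun _ _ _ _ => Set.mem_univ _) he.injOn⟩

theorem coordV_map {X X' : Type*} [Fintype X] [DecidableEq X] [Fintype X'] [DecidableEq X']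
    {V : Type*} [AddCommGroup V] [Module ℝ V] {Q : Set (Finset X)} {f : X' → ℝ} (e : X → X')
    (he : Function.Injective e) (h : CoordV Q (fun x => f (e x)) V) :
    CoordV ((Finset.image e) '' Q) f V := by
  obtain ⟨h, k, l, H, h0, h1⟩ := h
  have hA : ∀ σ ∈ Q, ∀ x ∈ σ, x ∈ (Set.univ : Set X) := fun _ _ _ _ => Set.mem_univ _
  refine ⟨_, _, l, H.map e Set.univ hA he.injOn, h0, fun t ht => ?_⟩
  obtain ⟨a1, a2⟩ := pull_cone hA he.injOn ht
  show FF f t = l (h (pullL e Set.univ t))
  rw [← h1 _ a1, ← FF_push (e := e) (A := Set.univ) f, a2]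
  intro x hx
  exact pullL_out hx t

theorem sph_above [FiniteDimensional ℝ W] (L : ι → W →ₗ[ℝ] ℝ) (s : ι → SignType)
    (hs' : ∃ y, sg L y = s) : SphV (above L s) (W ⧸ spanC L s) := by
  classical
  rw [above_eq L s hs']
  obtain ⟨b, hb⟩ := exists_isB (loc L s)
  obtain ⟨k, hk⟩ := arr_fan (loc L s) (sep_loc L s) b hb
  exact sphV_map (lift s) (lift_inj s) ⟨_, _, hk⟩

/-- only the cell `t` above `s`, of one dimension more, is negative -/
theorem coord_above_ray [FiniteDimensional ℝ W] (L : ι → W →ₗ[ℝ] ℝ) (s t : ι → SignType)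
    (hs' : ∃ y, sg L y = s) (v : W) (hv : sg L v = t) (hst : SLe s t) (hne : t ≠ s)
    (hdim : ∀ y, (∀ i, t i = 0 → L i y = 0) → ∃ c : ℝ, ∀ i, s i = 0 → L i y = c * L i v) :
    CoordV (above L s) (pm {t}) (W ⧸ spanC L s) := by
  classical
  rw [above_eq L s hs']
  obtain ⟨b, hb⟩ := exists_isB (loc L s)
  set v' : W ⧸ spanC L s := Submodule.Quotient.mk v with hv'
  set u₀ : {i // s i = 0} → SignType := fun i => t i with hu₀
  have hu : sg (loc L s) v' = u₀ := by rw [hv', sg_loc, hv]
  have hlu : lift s u₀ = t := lift_res hst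
  have hu0 : u₀ ≠ 0 := by
    intro h
    apply hne
    rw [← hlu, h]
    funext i
    by_cases hi : s i = 0
    · rw [lift_in _ hi, hi]
      rfl
    · rw [lift_out _ hi]
  have hv0 : v' ≠ 0 := by
    intro h
    apply hu0
    rw [← hu, h]
    funext i
    show SignType.sign (loc L s i 0) = 0
    rw [map_zero, sign_zero]
  set C : Set (W ⧸ spanC L s) := {y | ∃ a : ℝ, 0 ≤ a ∧ y = a • v'} with hC
  have hsc : ∀ a : ℝ, 0 < a → sg (loc L s) (a • v') = u₀ := by
    intro a ha
    rw [← hu]
    funext i
    show SignType.sign (loc L s i (a • v')) = SignType.sign (loc L s i v')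
    rw [map_smul, smul_eq_mul, sign_mul, sign_pos ha, one_mul]
  have hcpt : Cpt (loc L s) C := by
    rintro _ y' ⟨a, ha, rfl⟩ hs
    rcases ha.eq_or_lt with h0 | h0
    · subst h0
      refine ⟨0, le_rfl, ?_⟩
      rw [zero_smul]
      apply sep_loc L s
      intro i
      rcases hs i with h | h
      · exact sign_eq_zero_iff.1 h
      · rw [zero_smul] at h
        have h2 : SignType.sign (loc L s i y') = SignType.sign (loc L s i 0) := h
        rw [map_zero, sign_zero] at h2
        exact sign_eq_zero_iff.1 h2
    · rw [hsc a h0] at hs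
      induction y' using Submodule.Quotient.induction_on with
      | H y =>
        obtain ⟨c, hc⟩ := hdim y (by
          intro i hi
          rcases hst i with h | h
          · rcases hs ⟨i, h⟩ with h2 | h2
            · exact sign_eq_zero_iff.1 h2
            · have h3 : SignType.sign (L i y) = t i := h2
              rw [hi] at h3
              exact sign_eq_zero_iff.1 h3
          · rcases hs ⟨i, by rw [h, hi]⟩ with h2 | h2
            · exact sign_eq_zero_iff.1 h2
            · have h3 : SignType.sign (L i y) = t i := h2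
              rw [hi] at h3
              exact sign_eq_zero_iff.1 h3)
        have hy : (Submodule.Quotient.mk y : W ⧸ spanC L s) = c • v' := by
          rw [hv', ← Submodule.Quotient.mk_smul, Submodule.Quotient.eq, mem_spanC]
          intro i hi
          rw [map_sub, map_smul, hc i hi, smul_eq_mul, sub_self]
        refine ⟨c, ?_, hy⟩
        by_contra hc0
        push Not at hc0
        obtain ⟨i, hi⟩ : ∃ i, u₀ i ≠ 0 := by
          by_contra h
          push Not at h
          exact hu0 (funext h)
        have h3 : SignType.sign (loc L s i (Submodule.Quotient.mk y)) = - u₀ i := by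
          rw [hy, map_smul, smul_eq_mul, sign_mul, sign_neg hc0, ← hu]
          show -1 * SignType.sign (loc L s i v') = - SignType.sign (loc L s i v')
          generalize SignType.sign (loc L s i v') = x
          revert x
          decide
        rcases hs i with h | h
        · have h4 : - u₀ i = 0 := by rw [← h3]; exact h
          apply hi
          revert h4
          generalize u₀ i = x
          revert x
          decide
        · have h4 : - u₀ i = u₀ i := by rw [← h3]; exact h
          apply hi
          revert h4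
          generalize u₀ i = x
          revert x
          decide
  have key := (good_iff_arr (loc L s) (sep_loc L s) b hb C ⟨0, le_rfl, (zero_smul ℝ v').symm⟩
    hcpt).1 (good_ray v' hv0)
  refine coordV_map (lift s) (lift_inj s) (key.of_eq ?_)
  intro σ hσ u huσ
  obtain ⟨hu1, y, hy⟩ := hσ.1 u huσ
  have hbu : sg (loc L s) (b u) = u := by rw [← hy]; exact hb y
  unfold pm
  by_cases h : u = u₀
  · have h1 : b u ∈ C := by
      refine hcpt v' (b u) ⟨1, zero_le_one, (one_smul ℝ v').symm⟩ ?_
      rw [hbu, hu, h]
      exact SLe.refl _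
    rw [if_pos (show u ∈ {u | b u ∈ C} from h1), if_pos (show lift s u ∈ ({t} : Set _) from by
      rw [h, hlu]; exact rfl)]
  · have h1 : b u ∉ C := by
      rintro ⟨a, ha, h2⟩
      rcases ha.eq_or_lt with h0 | h0
      · apply hu1
        rw [← hbu, h2, ← h0, zero_smul]
        funext i
        show SignType.sign (loc L s i 0) = 0
        rw [map_zero, sign_zero]
      · apply h
        rw [← hbu, h2, hsc a h0]
    rw [if_neg (show u ∉ {u | b u ∈ C} from h1), if_neg (show lift s u ∉ ({t} : Set _) from ?_)]
    intro h2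
    exact h (lift_inj s (h2.trans hlu.symm))

end

end Pool.Agent.DF302A.G5
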