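import Pool.Agent.Work.MP_df302a_co.GE
import Pool.Agent.Work.MP_df302a_co.G5

/-!
# MP_df302a_co, part (II), block G6: elementary expansions

The neighbourhood function of the cone of a complex is linearizable if and only if the one of an
elementary expansion is.
-/

set_option autoImplicit false

namespace Pool.Agent.DF302A

open Finset

section

variable {W : Type*} [AddCommGroup W] [Module ℝ W]

theorem sg_zero {ι : Type*} (L : ι → W →ₗ[ℝ] ℝ) : sg L (0 : W) = 0 := by
  funext i
  simp [sg]

theorem Cpt.congr {ι : Type*} {L : ι → W →ₗ[ℝ] ℝ} {C : Set W} (h : Cpt L C) {y y' : W}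
    (e : sg L y = sg L y') : y ∈ C ↔ y' ∈ C :=
  ⟨fun hy => h y y' hy (by rw [e]; exact SLe.refl _), fun hy => h y' y hy (by rw [e]; exact SLe.refl _)⟩

theorem sum_mem_cn {X : Type*} (p : X → W) (A : Finset X) : ∑ x ∈ A, p x ∈ cn p A :=
  ⟨fun _ => 1, fun _ _ => zero_le_one, by simp⟩

/-- the support of a point of a face is contained in the face -/
theorem subset_of_mem_cn {X : Type*} {p : X → W} {c A B : Finset X} (hc : Ind p c) (hA : A ⊆ c)
    (hB : B ⊆ c) (h : ∑ x ∈ A, p x ∈ cn p B) : A ⊆ B := by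
  classical
  obtain ⟨t, ht, e⟩ := h
  intro z hz
  by_contra hzB
  have h1 : ∑ x ∈ c, ((if x ∈ A then (1 : ℝ) else 0) - (if x ∈ B then t x else 0)) • p x = 0 := by
    simp only [sub_smul, Finset.sum_sub_distrib, ite_smul, zero_smul, one_smul]
    rw [Finset.sum_ite_mem, Finset.sum_ite_mem, Finset.inter_eq_right.mpr hA,
      Finset.inter_eq_right.mpr hB, e, sub_self]
  have h2 := (Fintype.linearIndependent_iff.mp hc)
    (fun x => ((if (x : X) ∈ A then (1 : ℝ) else 0) - (if (x : X) ∈ B then t x else 0))) (by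
      rw [← h1, ← Finset.sum_coe_sort c]) ⟨z, hA hz⟩
  simp [hz, hzB] at h2

/-- a point of a cone lies in the open cone of a face -/
theorem exists_supp {X : Type*} {p : X → W} {E : Finset X} {y : W} (hy : y ∈ cn p E) :
    ∃ A ⊆ E, ∃ t : X → ℝ, (∀ x ∈ A, 0 < t x) ∧ y = ∑ x ∈ A, t x • p x := by
  classical
  obtain ⟨t, ht, rfl⟩ := hy
  refine ⟨E.filter (fun x => 0 < t x), Finset.filter_subset _ _, t,
    fun x hx => (Finset.mem_filter.mp hx).2, ?_⟩
  symm
  apply Finset.sum_subset (Finset.filter_subset _ _)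
  intro x hx hx'
  have h2 : ¬ 0 < t x := fun h => hx' (Finset.mem_filter.mpr ⟨hx, h⟩)
  have : t x = 0 := le_antisymm (not_lt.mp h2) (ht x hx)
  rw [this, zero_smul]

theorem sg_comb {ι X : Type*} (L : ι → W →ₗ[ℝ] ℝ) (p : X → W) (A : Finset X)
    (hpos : ∀ i, ∀ x ∈ A, 0 ≤ L i (p x)) (t : X → ℝ) (ht : ∀ x ∈ A, 0 < t x) :
    sg L (∑ x ∈ A, t x • p x) = sg L (∑ x ∈ A, p x) := by
  funext i
  unfold sg
  rw [map_sum (L i), map_sum (L i)]
  simp only [map_smul, smul_eq_mul]
  by_cases h : ∀ x ∈ A, L i (p x) = 0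
  · rw [Finset.sum_eq_zero h, Finset.sum_eq_zero]
    intro x hx
    rw [h x hx, mul_zero]
  · push Not at h
    obtain ⟨x, hx, hne⟩ := h
    have hxp : 0 < L i (p x) := lt_of_le_of_ne (hpos i x hx) (Ne.symm hne)
    rw [sign_pos (Finset.sum_pos' (fun z hz => mul_nonneg (ht z hz).le (hpos i z hz))
      ⟨x, hx, mul_pos (ht x hx) hxp⟩), sign_pos (Finset.sum_pos' (hpos i) ⟨x, hx, hxp⟩)]

theorem sg_sum_le {ι X : Type*} (L : ι → W →ₗ[ℝ] ℝ) (p : X → W) {A B : Finset X} (hAB : A ⊆ B)
    (hpos : ∀ i, ∀ x ∈ B, 0 ≤ L i (p x)) : SLe (sg L (∑ x ∈ A, p x)) (sg L (∑ x ∈ B, p x)) := by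
  intro i
  unfold sg
  rw [map_sum (L i), map_sum (L i)]
  by_cases h : ∀ x ∈ A, L i (p x) = 0
  · left
    rw [Finset.sum_eq_zero h, sign_zero]
  · right
    push Not at h
    obtain ⟨x, hx, hne⟩ := h
    have hxp : 0 < L i (p x) := lt_of_le_of_ne (hpos i x (hAB hx)) (Ne.symm hne)
    rw [sign_pos (Finset.sum_pos' (fun z hz => hpos i z (hAB hz)) ⟨x, hx, hxp⟩),
      sign_pos (Finset.sum_pos' (hpos i) ⟨x, hAB hx, hxp⟩)]

/-- the cells of the faces are ordered like the faces -/
theorem sg_sum_le_iff {ι X : Type*} (L : ι → W →ₗ[ℝ] ℝ) (p : X → W) {E : Finset X}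
    (hE : Ind p E) (hpos : ∀ i, ∀ x ∈ E, 0 ≤ L i (p x)) (hcut : ∀ A ⊆ E, Cpt L (cn p A))
    {A B : Finset X} (hA : A ⊆ E) (hB : B ⊆ E) :
    SLe (sg L (∑ x ∈ A, p x)) (sg L (∑ x ∈ B, p x)) ↔ A ⊆ B := by
  constructor
  · intro h
    exact subset_of_mem_cn hE hA hB (hcut B hB _ _ (sum_mem_cn p B) h)
  · intro h
    exact sg_sum_le L p h fun i x hx => hpos i x (hB hx)

theorem sg_sum_inj {ι X : Type*} (L : ι → W →ₗ[ℝ] ℝ) (p : X → W) {E : Finset X}
    (hE : Ind p E) (hpos : ∀ i, ∀ x ∈ E, 0 ≤ L i (p x)) (hcut : ∀ A ⊆ E, Cpt L (cn p A))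
    {A B : Finset X} (hA : A ⊆ E) (hB : B ⊆ E)
    (h : sg L (∑ x ∈ A, p x) = sg L (∑ x ∈ B, p x)) : A = B :=
  Finset.Subset.antisymm
    ((sg_sum_le_iff L p hE hpos hcut hA hB).mp (by rw [h]; exact SLe.refl _))
    ((sg_sum_le_iff L p hE hpos hcut hB hA).mp (by rw [h]; exact SLe.refl _))

theorem sg_sum_ne_zero {ι X : Type*} (L : ι → W →ₗ[ℝ] ℝ) (p : X → W) {E : Finset X}
    (hE : Ind p E) (hpos : ∀ i, ∀ x ∈ E, 0 ≤ L i (p x)) (hcut : ∀ A ⊆ E, Cpt L (cn p A))
    {A : Finset X} (hA : A ⊆ E) (hne : A.Nonempty) : sg L (∑ x ∈ A, p x) ≠ 0 := by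
  intro h
  have h1 : sg L (∑ x ∈ A, p x) = sg L (∑ x ∈ (∅ : Finset X), p x) := by
    rw [h, Finset.sum_empty, sg_zero]
  have := sg_sum_inj L p hE hpos hcut hA (Finset.empty_subset E) h1
  exact hne.ne_empty this

/-- the cells in a simplicial cone -/
theorem exists_face {ι X : Type*} (L : ι → W →ₗ[ℝ] ℝ) (p : X → W) {E : Finset X}
    (hpos : ∀ i, ∀ x ∈ E, 0 ≤ L i (p x)) {y : W} (hy : y ∈ cn p E) :
    ∃ A ⊆ E, sg L y = sg L (∑ x ∈ A, p x) ∧ y ∈ cn p A := by
  obtain ⟨A, hA, t, ht, rfl⟩ := exists_supp hy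
  exact ⟨A, hA, sg_comb L p A (fun i x hx => hpos i x (hA hx)) t ht,
    t, fun x hx => (ht x hx).le, rfl⟩

/-- when all functionals are nonnegative on the independent vectors `p x`, and cut out the faces of
their cone, the cells below the cell of `∑ p x` are the faces (apply it to `X = ↥E`) -/
theorem below_simplex {ι : Type*} [Fintype ι] [DecidableEq ι] (L : ι → W →ₗ[ℝ] ℝ)
    {X : Type*} [Fintype X] [DecidableEq X] (p : X → W) (hp : LinearIndependent ℝ p)
    (hpos : ∀ i, ∀ x, 0 ≤ L i (p x)) (hcut : ∀ A : Finset X, Cpt L (cn p A)) :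
    below L (sg L (∑ x, p x)) =
      (Finset.image fun A : Finset X => sg L (∑ x ∈ A, p x)) '' sd (bd Finset.univ) := by
  classical
  have hE : Ind p (Finset.univ : Finset X) :=
    hp.comp (fun x : (Finset.univ : Finset X) => (x : X)) Subtype.val_injective
  have hpos' : ∀ i, ∀ x ∈ (Finset.univ : Finset X), 0 ≤ L i (p x) := fun i x _ => hpos i x
  have hcut' : ∀ A ⊆ (Finset.univ : Finset X), Cpt L (cn p A) := fun A _ => hcut A
  have hle : ∀ A B : Finset X, SLe (sg L (∑ x ∈ A, p x)) (sg L (∑ x ∈ B, p x)) ↔ A ⊆ B :=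
    fun A B => sg_sum_le_iff L p hE hpos' hcut' (Finset.subset_univ A) (Finset.subset_univ B)
  have hinj : ∀ A B : Finset X, sg L (∑ x ∈ A, p x) = sg L (∑ x ∈ B, p x) → A = B :=
    fun A B => sg_sum_inj L p hE hpos' hcut' (Finset.subset_univ A) (Finset.subset_univ B)
  ext c
  rw [L_sd_eq]
  constructor
  · rintro ⟨⟨h1, h2⟩, h3⟩
    have hface : ∀ t ∈ c, ∃ A : Finset X, A.Nonempty ∧ A ⊂ Finset.univ ∧
        t = sg L (∑ x ∈ A, p x) := by
      intro t ht
      obtain ⟨hne, y, rfl⟩ := h1 _ ht
      obtain ⟨hle', hne'⟩ := h3 _ ht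
      have hy : y ∈ cn p (Finset.univ : Finset X) :=
        hcut _ _ _ (sum_mem_cn p _) hle'
      obtain ⟨A, -, hA, -⟩ := exists_face L p hpos' hy
      refine ⟨A, ?_, ?_, hA⟩
      · by_contra h
        rw [Finset.not_nonempty_iff_eq_empty] at h
        apply hne
        rw [hA, h, Finset.sum_empty, sg_zero]
      · refine lt_of_le_of_ne (Finset.subset_univ A) ?_
        intro h
        apply hne'
        rw [hA, h]
    refine ⟨Finset.univ.filter (fun A => A.Nonempty ∧ A ⊂ Finset.univ ∧
      sg L (∑ x ∈ A, p x) ∈ c), ⟨?_, ?_⟩, ?_⟩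
    · intro A hA B hB
      have hA' := (Finset.mem_filter.mp hA).2.2.2
      have hB' := (Finset.mem_filter.mp hB).2.2.2
      rcases h2 _ hA' _ hB' with h | h
      · exact Or.inl ((hle A B).mp h)
      · exact Or.inr ((hle B A).mp h)
    · intro A hA
      have hA' := (Finset.mem_filter.mp hA).2
      exact ⟨hA'.2.1, hA'.1⟩
    · ext t
      rw [Finset.mem_image]
      constructor
      · rintro ⟨A, hA, rfl⟩
        exact (Finset.mem_filter.mp hA).2.2.2
      · intro ht
        obtain ⟨A, hne, hss, rfl⟩ := hface t ht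
        exact ⟨A, Finset.mem_filter.mpr ⟨Finset.mem_univ _, hne, hss, ht⟩, rfl⟩
  · rintro ⟨c', ⟨h1, h2⟩, rfl⟩
    refine ⟨⟨?_, ?_⟩, ?_⟩
    · intro s hs
      obtain ⟨A, hA, rfl⟩ := Finset.mem_image.mp hs
      obtain ⟨hss, hne⟩ := h2 A hA
      exact ⟨sg_sum_ne_zero L p hE hpos' hcut' (Finset.subset_univ A) hne, _, rfl⟩
    · intro s hs t ht
      obtain ⟨A, hA, rfl⟩ := Finset.mem_image.mp hs
      obtain ⟨B, hB, rfl⟩ := Finset.mem_image.mp ht
      rcases h1 A hA B hB with h | h
      · exact Or.inl ((hle A B).mpr h)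
      · exact Or.inr ((hle B A).mpr h)
    · intro t ht
      obtain ⟨A, hA, rfl⟩ := Finset.mem_image.mp ht
      obtain ⟨hss, hne⟩ := h2 A hA
      refine ⟨(hle A _).mpr hss.subset, ?_⟩
      intro h
      exact hss.ne (hinj _ _ h)

/-! ### the span of a simplicial cell -/

theorem spanC_simplex {ι : Type*} [Finite ι] {X : Type*} (L : ι → W →ₗ[ℝ] ℝ) (p : X → W)
    {A : Finset X} (hpos : ∀ i, ∀ x ∈ A, 0 ≤ L i (p x)) (hcut : Cpt L (cn p A)) :
    spanC L (sg L (∑ x ∈ A, p x)) = Submodule.span ℝ (p '' A) := by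
  classical
  have h1 : spanC L (sg L (∑ x ∈ A, p x)) = Submodule.span ℝ (p '' A) := by
    apply le_antisymm
    · intro y hy
      have hy' : ∀ i, sg L (∑ x ∈ A, p x) i = 0 → L i y = 0 := by
        intro i hi
        have := (Submodule.mem_iInf _).mp hy ⟨i, hi⟩
        exact LinearMap.mem_ker.mp this
      -- a small multiple
      have hex : ∃ ε : ℝ, 0 < ε ∧ ∀ i, sg L (∑ x ∈ A, p x) i ≠ 0 →
          0 < L i (∑ x ∈ A, p x) + ε * L i y := by
        have : ∀ i, ∃ δ : ℝ, 0 < δ ∧ ∀ ε, 0 < ε → ε ≤ δ → sg L (∑ x ∈ A, p x) i ≠ 0 →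
            0 < L i (∑ x ∈ A, p x) + ε * L i y := by
          intro i
          by_cases h : 0 < L i (∑ x ∈ A, p x)
          · refine ⟨L i (∑ x ∈ A, p x) / (|L i y| + 1), by positivity, ?_⟩
            intro ε hε hε' _
            have h3 : 0 < |L i y| + 1 := by positivity
            have h4 : ε * (|L i y| + 1) ≤ L i (∑ x ∈ A, p x) := (le_div_iff₀ h3).mp hε'
            have h5 : -|L i y| ≤ L i y := neg_abs_le _
            nlinarith
          · refine ⟨1, one_pos, fun ε _ _ hne => absurd ?_ hne⟩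
            have h3 : L i (∑ x ∈ A, p x) = 0 := by
              apply le_antisymm (not_lt.mp h)
              rw [map_sum (L i)]
              exact Finset.sum_nonneg (hpos i)
            show SignType.sign (L i (∑ x ∈ A, p x)) = 0
            rw [h3, sign_zero]
        choose δ hδ hδ' using this
        have := Fintype.ofFinite ι
        rcases isEmpty_or_nonempty ι with hι | hι
        · exact ⟨1, one_pos, fun i => hι.elim i⟩
        · obtain ⟨j, -, hj⟩ := Finset.exists_min_image Finset.univ δ Finset.univ_nonempty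
          exact ⟨δ j, hδ j, fun i hi => hδ' i (δ j) (hδ j) (hj i (Finset.mem_univ i)) hi⟩
      obtain ⟨ε, hε, hε'⟩ := hex
      have hm : ∑ x ∈ A, p x + ε • y ∈ cn p A := by
        refine hcut _ _ (sum_mem_cn p A) fun i => ?_
        by_cases h : sg L (∑ x ∈ A, p x) i = 0
        · left
          have h3 : L i (∑ x ∈ A, p x) = 0 := sign_eq_zero_iff.mp h
          show SignType.sign (L i (∑ x ∈ A, p x + ε • y)) = 0
          rw [map_add, map_smul, h3, hy' i h, smul_zero, add_zero, sign_zero]
        · right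
          have h3 := hε' i h
          have h4 : 0 < L i (∑ x ∈ A, p x) := by
            refine lt_of_le_of_ne ?_ ?_
            · rw [map_sum (L i)]
              exact Finset.sum_nonneg (hpos i)
            · intro h5
              apply h
              show SignType.sign (L i (∑ x ∈ A, p x)) = 0
              rw [← h5, sign_zero]
          show SignType.sign (L i (∑ x ∈ A, p x + ε • y)) = SignType.sign (L i (∑ x ∈ A, p x))
          rw [map_add, map_smul, smul_eq_mul, sign_pos h3, sign_pos h4]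
      have hsp : ∀ z ∈ cn p A, z ∈ Submodule.span ℝ (p '' A) := by
        rintro z ⟨t, -, rfl⟩
        exact Submodule.sum_mem _ fun x hx =>
          Submodule.smul_mem _ _ (Submodule.subset_span ⟨x, hx, rfl⟩)
      have h6 := Submodule.sub_mem _ (hsp _ hm) (hsp _ (sum_mem_cn p A))
      rw [add_sub_cancel_left] at h6
      have h7 := Submodule.smul_mem _ ε⁻¹ h6
      rwa [smul_smul, inv_mul_cancel₀ hε.ne', one_smul] at h7
    · rw [Submodule.span_le]
      rintro z ⟨x, hx, rfl⟩
      refine (Submodule.mem_iInf _).mpr ?_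
      rintro ⟨i, hi⟩
      rw [LinearMap.mem_ker]
      have h3 : L i (∑ x ∈ A, p x) = 0 := sign_eq_zero_iff.mp hi
      rw [map_sum (L i)] at h3
      exact (Finset.sum_eq_zero_iff_of_nonneg (hpos i)).mp h3 x hx
  exact h1

/-! ### the vertex change -/

theorem vx_below_above {ι : Type*} [Fintype ι] [DecidableEq ι] (L : ι → W →ₗ[ℝ] ℝ)
    (s : ι → SignType) : Disjoint (Vx (below L s)) (Vx (above L s)) := by
  rw [Set.disjoint_left]
  rintro t ⟨c, hc, htc⟩ ⟨d, hd, htd⟩
  exact (hc.2 t htc).2 ((hc.2 t htc).1.antisymm (hd.2 t htd).1)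

theorem CoordV.vertex_iff {X : Type*} [Fintype X] [DecidableEq X] {V V' : Type*} [AddCommGroup V]
    [Module ℝ V] [AddCommGroup V'] [Module ℝ V'] {Q : Set (Finset X)} {f g : X → ℝ} (b : X)
    (hl : CoordV (lkF Q {b}) f V') (hg : ∀ x, x ≠ b → g x = f x) :
    CoordV Q f V ↔ CoordV Q g V := by
  constructor
  · intro h
    exact h.vertex hl hg
  · intro h
    refine h.vertex (hl.of_eq ?_) fun x hx => (hg x hx).symm
    intro s hs x hx
    refine (hg x ?_).symm
    rintro rfl
    exact (mem_lkF.mp hs).1 hx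

/-- the cells below a simplicial cell are a sphere -/
theorem sphV_below {ι : Type*} [Fintype ι] [DecidableEq ι] (L : ι → W →ₗ[ℝ] ℝ)
    {X : Type*} [Fintype X] [DecidableEq X] [Nonempty X] (p : X → W) (hp : LinearIndependent ℝ p)
    (hpos : ∀ i, ∀ x, 0 ≤ L i (p x)) (hcut : ∀ A : Finset X, Cpt L (cn p A)) :
    SphV (below L (sg L (∑ x, p x))) (Fin ((Finset.univ : Finset X).card - 1) → ℝ) := by
  rw [below_simplex L p hp hpos hcut]
  have hE : Ind p (Finset.univ : Finset X) :=
    hp.comp (fun x : (Finset.univ : Finset X) => (x : X)) Subtype.val_injective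
  refine sph_iff.mp (Sph.map _ Set.univ (fun _ _ _ _ => Set.mem_univ _) ?_
    (sph_sd_bd Finset.univ Finset.univ_nonempty))
  intro A _ B _ h
  exact sg_sum_inj L p hE (fun i x _ => hpos i x) (fun A _ => hcut A) (Finset.subset_univ A)
    (Finset.subset_univ B) h

/-- all the cells below are negative with one exception -/
theorem coordV_below {ι : Type*} [Fintype ι] [DecidableEq ι] (L : ι → W →ₗ[ℝ] ℝ)
    {X : Type*} [Fintype X] [DecidableEq X] (p : X → W) (hp : LinearIndependent ℝ p)
    (hpos : ∀ i, ∀ x, 0 ≤ L i (p x)) (hcut : ∀ A : Finset X, Cpt L (cn p A))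
    (F : Finset X) (hF : F.Nonempty) (hF' : F ⊂ Finset.univ) (f : (ι → SignType) → ℝ)
    (hf : 0 < f (sg L (∑ x ∈ F, p x)))
    (hf' : ∀ A : Finset X, A.Nonempty → A ⊂ Finset.univ → A ≠ F → f (sg L (∑ x ∈ A, p x)) < 0) :
    CoordV (below L (sg L (∑ x, p x))) f (Fin ((Finset.univ : Finset X).card - 1) → ℝ) := by
  rw [below_simplex L p hp hpos hcut]
  have hE : Ind p (Finset.univ : Finset X) :=
    hp.comp (fun x : (Finset.univ : Finset X) => (x : X)) Subtype.val_injective
  have h1 : Coord (sd (bd (Finset.univ : Finset X))) (fun A => - f (sg L (∑ x ∈ A, p x)))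
      ((Finset.univ : Finset X).card - 1) := by
    refine coord_sd_bd Finset.univ F hF hF' _ ?_ ?_
    · show - f (sg L (∑ x ∈ F, p x)) < 0
      linarith
    · intro B hB hB' hne
      show 0 < - f (sg L (∑ x ∈ B, p x))
      have := hf' B hB hB' hne
      linarith
  have h2 := h1.neg
  simp only [neg_neg] at h2
  refine coord_iff.mp (Coord.map (f := f) _ Set.univ (fun _ _ _ _ => Set.mem_univ _) ?_ h2)
  intro A _ B _ h
  exact sg_sum_inj L p hE (fun i x _ => hpos i x) (fun A _ => hcut A) (Finset.subset_univ A)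
    (Finset.subset_univ B) h

/-- the cone of `K` and the cone of an elementary expansion -/
theorem good_expand [FiniteDimensional ℝ W] {X : Type*} [DecidableEq X] (p : X → W)
    (K : Set (Finset X)) (hK : IsCx K) (hKf : K.Finite) (E : Finset X) (x : X) (hx : x ∈ E)
    (h2 : 2 ≤ E.card) (hF : E.erase x ∉ K) (hy : ∀ y ∈ E, y ≠ x → E.erase y ∈ K)
    (hind : ∀ τ ∈ K, Ind p (τ ∪ E)) :
    Good (cK p K) ↔ Good (cK p (insert (E.erase x) (insert E K))) := by
  classical
  obtain ⟨n, L, hS, hpos0, hcut0⟩ := exists_dual_family p ((fun τ => τ ∪ E) '' K)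
    (hKf.image _) ⟨_, ∅, hK.1, rfl⟩ (by rintro c ⟨τ, hτ, rfl⟩; exact hind τ hτ)
  have hpos : ∀ i, ∀ z ∈ E, 0 ≤ L i (p z) :=
    hpos0 E (by rintro c ⟨τ, hτ, rfl⟩; exact Finset.subset_union_right)
  have hcut : ∀ τ ∈ K, ∀ A ⊆ τ ∪ E, Cpt L (cn p A) := fun τ hτ A hA => hcut0 _ ⟨τ, hτ, rfl⟩ A hA
  have hcutE : ∀ A ⊆ E, Cpt L (cn p A) := fun A hA =>
    hcut ∅ hK.1 A (by rw [Finset.empty_union]; exact hA)
  have hE : Ind p E := by
    have := hind ∅ hK.1
    rwa [Finset.empty_union] at this
  set F : Finset X := E.erase x with hFdef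
  have hFE : F ⊆ E := Finset.erase_subset _ _
  have hxF : x ∉ F := Finset.notMem_erase x E
  have hFcard : F.card = E.card - 1 := Finset.card_erase_of_mem hx
  have hFne : F.Nonempty := Finset.card_pos.mp (by omega)
  have hEne : E.Nonempty := ⟨x, hx⟩
  have hEF : E ≠ F := fun h => hxF (by rw [← h]; exact hx)
  have hEK : E ∉ K := fun h => hF (hK.2 E h F hFE)
  set K' : Set (Finset X) := insert F (insert E K) with hK'
  -- faces of `E` in `K`
  have hfaces : ∀ A ⊆ E, A ≠ E → A ≠ F → A ∈ K := by
    intro A hA hAE hAF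
    obtain ⟨z, hzE, hzA⟩ := Finset.exists_of_ssubset (lt_of_le_of_ne hA hAE)
    by_cases hex : ∃ y ∈ E, y ≠ x ∧ y ∉ A
    · obtain ⟨y, hyE, hyx, hyA⟩ := hex
      exact hK.2 _ (hy y hyE hyx) A fun w hw =>
        Finset.mem_erase.mpr ⟨fun h => hyA (h ▸ hw), hA hw⟩
    · push Not at hex
      exfalso
      have hzx : z = x := by
        by_contra h
        exact hzA (hex z hzE h)
      subst hzx
      apply hAF
      ext w
      rw [hFdef, Finset.mem_erase]
      constructor
      · intro hw
        exact ⟨fun h => hzA (h ▸ hw), hA hw⟩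
      · rintro ⟨h1, h3⟩
        exact hex w h3 h1
  -- the cones
  set C : Set W := cK p K with hCdef
  set C' : Set W := cK p K' with hC'def
  have hC : Cpt L C := cpt_cK fun c hc => hcut c hc c Finset.subset_union_left
  have hC' : Cpt L C' := by
    refine cpt_cK ?_
    rintro c (rfl | rfl | hc)
    · exact hcutE F hFE
    · exact hcutE c (Finset.Subset.refl c)
    · exact hcut c hc c Finset.subset_union_left
  have hCC' : C ⊆ C' := by
    rintro y ⟨c, hc, hyc⟩
    exact ⟨c, Set.mem_insert_of_mem _ (Set.mem_insert_of_mem _ hc), hyc⟩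
  have hsumC : ∀ A ⊆ E, ∑ z ∈ A, p z ∈ C → A ∈ K := by
    rintro A hA ⟨τ, hτ, h⟩
    exact hK.2 τ hτ A (subset_of_mem_cn (hind τ hτ) (hA.trans Finset.subset_union_right)
      Finset.subset_union_left h)
  set sE : Fin n → SignType := sg L (∑ z ∈ E, p z) with hsE
  set sF : Fin n → SignType := sg L (∑ z ∈ F, p z) with hsF
  have hle : ∀ A ⊆ E, ∀ B ⊆ E, (SLe (sg L (∑ z ∈ A, p z)) (sg L (∑ z ∈ B, p z)) ↔ A ⊆ B) :=
    fun A hA B hB => sg_sum_le_iff L p hE hpos hcutE hA hB
  have hinj : ∀ A ⊆ E, ∀ B ⊆ E, sg L (∑ z ∈ A, p z) = sg L (∑ z ∈ B, p z) → A = B :=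
    fun A hA B hB => sg_sum_inj L p hE hpos hcutE hA hB
  have hsEF : sE ≠ sF := fun h => hEF (hinj E (Finset.Subset.refl E) F hFE h)
  have hsE0 : sE ≠ 0 := sg_sum_ne_zero L p hE hpos hcutE (Finset.Subset.refl E) hEne
  have hsF0 : sF ≠ 0 := sg_sum_ne_zero L p hE hpos hcutE hFE hFne
  have hnew : ∀ y, y ∈ C' → y ∉ C → sg L y = sE ∨ sg L y = sF := by
    intro y hy' hyC
    have hyE : y ∈ cn p E := by
      obtain ⟨c, hc, hyc⟩ := hy'
      rcases hc with rfl | rfl | hc
      · obtain ⟨t, ht, rfl⟩ := hyc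
        refine ⟨fun z => if z ∈ F then t z else 0, fun z _ => ?_, ?_⟩
        · show 0 ≤ (if z ∈ F then t z else 0)
          split_ifs with h
          · exact ht z h
          · exact le_rfl
        · simp only [ite_smul, zero_smul]
          rw [Finset.sum_ite_mem, Finset.inter_eq_right.mpr hFE]
      · exact hyc
      · exact absurd ⟨c, hc, hyc⟩ hyC
    obtain ⟨A, hA, hs, hyA⟩ := exists_face L p hpos hyE
    by_cases h1 : A = E
    · left
      rw [hs, h1]
    · by_cases h3 : A = F
      · right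
        rw [hs, h3]
      · exact absurd ⟨A, hfaces A hA h1 h3, hyA⟩ hyC
  obtain ⟨b, hb⟩ := exists_isB L
  rw [good_iff_arr L hS b hb C (zero_mem_cK p ⟨∅, hK.1⟩) hC,
    good_iff_arr L hS b hb C' (zero_mem_cK p ⟨F, Set.mem_insert _ _⟩) hC']
  set f : (Fin n → SignType) → ℝ := pm {s | b s ∈ C} with hf
  have hfC : ∀ y, y ∈ C → f (sg L y) = -1 := by
    intro y hyC
    rw [hf]
    unfold pm
    exact if_pos ((hC.congr (hb y)).mpr hyC)
  have hfC' : ∀ y, y ∉ C → f (sg L y) = 1 := by
    intro y hyC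
    rw [hf]
    unfold pm
    exact if_neg fun h => hyC ((hC.congr (hb y)).mp h)
  set f1 : (Fin n → SignType) → ℝ := Function.update f sE (-1) with hf1
  set f2 : (Fin n → SignType) → ℝ := Function.update f1 sF (-1) with hf2
  -- step 1
  have s1 : CoordV (QL L) f W ↔ CoordV (QL L) f1 W := by
    have hb1 : CoordV (below L sE) f (Fin ((Finset.univ : Finset E).card - 1) → ℝ) := by
      have hsum : ∀ A : Finset E, ∑ z ∈ A, p z = ∑ z ∈ A.map (Function.Embedding.subtype _), p z := by
        intro A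
        rw [Finset.sum_map]
        rfl
      have hmap : ∀ A : Finset E, A.map (Function.Embedding.subtype _) ⊆ E := by
        intro A z hz
        obtain ⟨w, -, rfl⟩ := Finset.mem_map.mp hz
        exact w.2
      have hunivE : ∑ z : E, p z = ∑ z ∈ E, p z := Finset.sum_coe_sort E p
      have hFF : (Finset.univ.erase (⟨x, hx⟩ : E)).map (Function.Embedding.subtype _) = F := by
        ext z
        rw [hFdef, Finset.mem_map, Finset.mem_erase]
        constructor
        · rintro ⟨w, hw, rfl⟩
          refine ⟨fun h => (Finset.mem_erase.mp hw).1 (Subtype.ext h), w.2⟩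
        · rintro ⟨h1, h3⟩
          exact ⟨⟨z, h3⟩, Finset.mem_erase.mpr ⟨fun h => h1 (congrArg Subtype.val h),
            Finset.mem_univ _⟩, rfl⟩
      have key := coordV_below L (fun z : E => p z) hE (fun i z => hpos i z z.2)
        (fun A => by
          have := hcutE _ (hmap A)
          intro y y' hy1 hs1
          have e : ∀ y, y ∈ cn (fun z : E => p z) A ↔
              y ∈ cn p (A.map (Function.Embedding.subtype _)) := by
            intro y
            constructor
            · rintro ⟨t, ht, rfl⟩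
              refine ⟨fun z => if h : z ∈ E then t ⟨z, h⟩ else 0, ?_, ?_⟩
              · intro z hz
                obtain ⟨w, hw, rfl⟩ := Finset.mem_map.mp hz
                have hw' : (Function.Embedding.subtype fun z => z ∈ E) w ∈ E := w.2
                simp only [hw', dite_true]
                exact ht w hw
              · rw [Finset.sum_map]
                refine Finset.sum_congr rfl fun w hw => ?_
                have hw' : (Function.Embedding.subtype fun z => z ∈ E) w ∈ E := w.2
                simp only [hw', dite_true]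
                rfl
            · rintro ⟨t, ht, rfl⟩
              refine ⟨fun z => t z, fun z hz => ht _ (Finset.mem_map.mpr ⟨z, hz, rfl⟩), ?_⟩
              rw [Finset.sum_map]
              rfl
          rw [e] at hy1 ⊢
          exact this y y' hy1 hs1)
        (Finset.univ.erase ⟨x, hx⟩)
        (by
          rw [← Finset.map_nonempty (f := Function.Embedding.subtype _), hFF]
          exact hFne)
        (Finset.erase_ssubset (Finset.mem_univ _)) f
        (by
          rw [hsum, hFF, hfC' _ fun h => hF (hsumC F hFE h)]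
          exact one_pos)
        (by
          intro A hA hA' hne
          rw [hsum, hfC]
          · norm_num
          · have hAE : A.map (Function.Embedding.subtype _) ≠ E := by
              intro h
              apply hA'.ne
              ext z
              refine ⟨fun _ => Finset.mem_univ z, fun _ => ?_⟩
              have : (z : X) ∈ A.map (Function.Embedding.subtype _) := by rw [h]; exact z.2
              obtain ⟨w, hw, hwz⟩ := Finset.mem_map.mp this
              rwa [← Subtype.ext hwz]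
            have hAF : A.map (Function.Embedding.subtype _) ≠ F := by
              intro h
              apply hne
              apply Finset.map_injective (Function.Embedding.subtype _)
              rw [h, hFF]
            exact ⟨_, hfaces _ (hmap A) hAE hAF, sum_mem_cn p _⟩)
      rwa [hunivE] at key
    have hl : CoordV (lkF (QL L) {sE}) f
        ((W ⧸ spanC L sE) × (Fin ((Finset.univ : Finset E).card - 1) → ℝ)) := by
      rw [G5.lk_QL L sE hsE0 ⟨_, rfl⟩, join_comm]
      exact CoordV.join (vx_below_above L sE).symm (G5.sph_above L sE ⟨_, rfl⟩) hb1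
    exact CoordV.vertex_iff sE hl fun y hy1 => by rw [hf1, Function.update_of_ne hy1]
  -- step 2
  have s2 : CoordV (QL L) f1 W ↔ CoordV (QL L) f2 W := by
    have hFi : Ind p F := by
      have h1 : Ind p E := hE
      exact h1.comp (fun z : F => (⟨z, hFE z.2⟩ : E)) (fun z w h => by
        have := congrArg (fun u : E => (u : X)) h
        exact Subtype.ext this)
    have : Nonempty F := ⟨⟨_, hFne.choose_spec⟩⟩
    have hb2 : SphV (below L sF) (Fin ((Finset.univ : Finset F).card - 1) → ℝ) := by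
      have key := sphV_below L (fun z : F => p z) hFi (fun i z => hpos i z (hFE z.2)) ?_
      · have hunivF : ∑ z : F, p z = ∑ z ∈ F, p z := Finset.sum_coe_sort F p
        rwa [hunivF] at key
      · intro A y y' hy1 hs1
        have hmap : A.map (Function.Embedding.subtype _) ⊆ E := by
          intro z hz
          obtain ⟨w, -, rfl⟩ := Finset.mem_map.mp hz
          exact hFE w.2
        have e : ∀ y, y ∈ cn (fun z : F => p z) A ↔
            y ∈ cn p (A.map (Function.Embedding.subtype _)) := by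
          intro y
          constructor
          · rintro ⟨t, ht, rfl⟩
            refine ⟨fun z => if h : z ∈ F then t ⟨z, h⟩ else 0, ?_, ?_⟩
            · intro z hz
              obtain ⟨w, hw, rfl⟩ := Finset.mem_map.mp hz
              have hw' : (Function.Embedding.subtype fun z => z ∈ F) w ∈ F := w.2
              simp only [hw', dite_true]
              exact ht w hw
            · rw [Finset.sum_map]
              refine Finset.sum_congr rfl fun w hw => ?_
              have hw' : (Function.Embedding.subtype fun z => z ∈ F) w ∈ F := w.2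
              simp only [hw', dite_true]
              rfl
          · rintro ⟨t, ht, rfl⟩
            refine ⟨fun z => t z, fun z hz => ht _ (Finset.mem_map.mpr ⟨z, hz, rfl⟩), ?_⟩
            rw [Finset.sum_map]
            rfl
        rw [e] at hy1 ⊢
        exact hcutE _ hmap y y' hy1 hs1
    have ha2 : CoordV (above L sF) f1 (W ⧸ spanC L sF) := by
      have key := G5.coord_above_ray L sF sE ⟨_, rfl⟩ (∑ z ∈ E, p z) rfl
        ((hle F hFE E (Finset.Subset.refl E)).mpr hFE) hsEF ?_
      · refine key.of_eq fun c hc t ht => ?_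
        obtain ⟨⟨hc1, -⟩, hc2⟩ := hc
        by_cases htE : t = sE
        · rw [htE, hf1, Function.update_self]
          unfold pm
          exact if_pos rfl
        · rw [hf1, Function.update_of_ne htE]
          obtain ⟨-, y, rfl⟩ := hc1 t ht
          rw [hfC' y]
          · unfold pm
            exact if_neg htE
          · intro hyC
            have : ∑ z ∈ F, p z ∈ C := hC y _ hyC (hc2 _ ht).1
            exact hF (hsumC F hFE this)
      · intro y hy1
        have hyE : y ∈ spanC L sE := G5.mem_spanC.mpr hy1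
        rw [hsE, spanC_simplex L p hpos (hcutE E (Finset.Subset.refl E))] at hyE
        have hins : E = insert x F := (Finset.insert_erase hx).symm
        have h3 : y ∈ Submodule.span ℝ (insert (p x) (p '' F)) := by
          have : p '' (E : Set X) = insert (p x) (p '' F) := by
            rw [hins, Finset.coe_insert, Set.image_insert_eq]
          rwa [this] at hyE
        obtain ⟨c, w, hw, rfl⟩ := Submodule.mem_span_insert.mp h3
        have hL0 : ∀ i, sF i = 0 → ∀ z ∈ F, L i (p z) = 0 := by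
          intro i hi
          have h4 : L i (∑ z ∈ F, p z) = 0 := sign_eq_zero_iff.mp hi
          rw [map_sum (L i)] at h4
          exact (Finset.sum_eq_zero_iff_of_nonneg (fun z hz => hpos i z (hFE hz))).mp h4
        refine ⟨c, fun i hi => ?_⟩
        have hw0 : L i w = 0 := by
          have h5 : Submodule.span ℝ (p '' (F : Set X)) ≤ LinearMap.ker (L i) := by
            rw [Submodule.span_le]
            rintro z ⟨u, hu, rfl⟩
            exact LinearMap.mem_ker.mpr (hL0 i hi u hu)
          exact LinearMap.mem_ker.mp (h5 hw)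
        have h6 : L i (∑ z ∈ E, p z) = L i (p x) := by
          rw [map_sum (L i), hins, Finset.sum_insert hxF, Finset.sum_eq_zero (hL0 i hi), add_zero]
        rw [map_add, map_smul, hw0, add_zero, smul_eq_mul, h6]
    have hl : CoordV (lkF (QL L) {sF}) f1
        ((Fin ((Finset.univ : Finset F).card - 1) → ℝ) × (W ⧸ spanC L sF)) := by
      rw [G5.lk_QL L sF hsF0 ⟨_, rfl⟩]
      exact CoordV.join (vx_below_above L sF) hb2 ha2
    exact CoordV.vertex_iff sF hl fun y hy1 => by rw [hf2, Function.update_of_ne hy1]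
  -- step 3
  have hg : ∀ c ∈ QL L, ∀ s ∈ c, f2 s = pm {s | b s ∈ C'} s := by
    rintro c ⟨hc, -⟩ s hs
    obtain ⟨-, y, rfl⟩ := hc s hs
    have hpm : ∀ y, y ∈ C' → pm {s | b s ∈ C'} (sg L y) = -1 := by
      intro y hyC
      unfold pm
      exact if_pos ((hC'.congr (hb y)).mpr hyC)
    have hpm' : ∀ y, y ∉ C' → pm {s | b s ∈ C'} (sg L y) = 1 := by
      intro y hyC
      unfold pm
      exact if_neg fun h => hyC ((hC'.congr (hb y)).mp h)
    by_cases h1 : sg L y = sF
    · rw [h1, hf2, Function.update_self, hsF, hpm _ ⟨F, Set.mem_insert _ _, sum_mem_cn p F⟩]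
    · rw [hf2, Function.update_of_ne h1]
      by_cases h3 : sg L y = sE
      · rw [h3, hf1, Function.update_self, hsE,
          hpm _ ⟨E, Set.mem_insert_of_mem _ (Set.mem_insert _ _), sum_mem_cn p E⟩]
      · rw [hf1, Function.update_of_ne h3]
        by_cases hyC : y ∈ C
        · rw [hfC y hyC, hpm y (hCC' hyC)]
        · rw [hfC' y hyC, hpm']
          intro h
          rcases hnew y h hyC with h4 | h4
          · exact h3 h4
          · exact h1 h4
  have s3 : CoordV (QL L) f2 W ↔ CoordV (QL L) (pm {s | b s ∈ C'}) W :=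
    ⟨fun h => h.of_eq hg, fun h => h.of_eq fun c hc s hs => (hg c hc s hs).symm⟩
  exact (s1.trans s2).trans s3

theorem good_point [FiniteDimensional ℝ W] {X : Type*} (p : X → W) (v : X) (hv : p v ≠ 0) :
    Good (cK p {∅, {v}}) := by
  have e : cK p {∅, {v}} = {y : W | ∃ a : ℝ, 0 ≤ a ∧ y = a • p v} := by
    ext y
    constructor
    · rintro ⟨c, hc, t, ht, rfl⟩
      rcases hc with rfl | rfl
      · exact ⟨0, le_rfl, by simp⟩
      · exact ⟨t v, ht v (Finset.mem_singleton_self v), by simp⟩
    · rintro ⟨a, ha, rfl⟩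
      exact ⟨{v}, Or.inr rfl, fun _ => a, fun _ _ => ha, by simp⟩
  rw [e]
  exact good_ray (p v) hv

end

end Pool.Agent.DF302A
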