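import Pool.Agent.Work.MP_df302a_co.Defs

/-! # MP_df302a_co, part (I): definitions. Simple homotopy moves, environment, cells, certificates. -/

set_option autoImplicit false

namespace Pool.Agent.DF302A.PI

open Finset

section Basic
variable {V : Type*} [DecidableEq V]

/-- `L'` is the elementary expansion of the complex `L` by the pair `F`, `insert x F`. -/
structure Expn (L L' : Set (Finset V)) (F : Finset V) (x : V) : Prop where
  cx : IsCx L
  hx : x ∉ F
  ne : F.Nonempty
  hF : F ∉ L
  hy : ∀ y ∈ F, insert x (F.erase y) ∈ L
  eq : L' = insert F (insert (insert x F) L)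

/-- admissible complexes -/
def Adm (K : Set (Finset V)) : Prop :=
  IsCx K ∧ K.Finite ∧ (∀ σ ∈ K, σ.card ≤ 5) ∧ ∃ v, ∀ σ ∈ K, σ.card = 5 → v ∈ σ

/-- equivalence relation generated by elementary expansions of admissible complexes -/
inductive Sim : Set (Finset V) → Set (Finset V) → Prop
  | exp {K K' : Set (Finset V)} {F : Finset V} {x : V} (h : Expn K K' F x) (a : Adm K') : Sim K K'
  | refl (K : Set (Finset V)) : Sim K K
  | symm {K K' : Set (Finset V)} (h : Sim K K') : Sim K' K
  | trans {K K' K'' : Set (Finset V)} (h : Sim K K') (h' : Sim K' K'') : Sim K K''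

/-- equivalence relation generated by elementary expansions inside the complex `Z` -/
inductive Inn (Z : Set (Finset V)) : Set (Finset V) → Set (Finset V) → Prop
  | exp {L L' : Set (Finset V)} {F : Finset V} {x : V} (h : Expn L L' F x)
      (hZ : insert x F ∈ Z) : Inn Z L L'
  | refl (L : Set (Finset V)) : Inn Z L L
  | symm {L L' : Set (Finset V)} (h : Inn Z L L') : Inn Z L' L
  | trans {L L' L'' : Set (Finset V)} (h : Inn Z L L') (h' : Inn Z L' L'') : Inn Z L L''

/-- the simplices of the cone `v * L` which contain the vertex `v` -/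
def coneV (v : V) (L : Set (Finset V)) : Set (Finset V) := {σ | v ∈ σ ∧ σ.erase v ∈ L}

/-- finite complex of dimension at most three which does not contain the vertex `v` -/
structure Z3 (v : V) (Z : Set (Finset V)) : Prop where
  cx : IsCx Z
  fin : Z.Finite
  card : ∀ σ ∈ Z, σ.card ≤ 4
  fresh : ∀ σ ∈ Z, v ∉ σ

/-- closure of a set of simplices -/
def cl (S : Finset (Finset V)) : Set (Finset V) := {σ | ∃ t ∈ S, σ ⊆ t}

/-- the complex `{∅, {p}}` -/
def pt (p : V) : Set (Finset V) := {∅, {p}}

end Basic

section State
variable {V : Type*} [DecidableEq V]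

/-- the environment: everything is coned with `w`, except the marked triangles -/
def Env (w : V) (X : Finset V) (Mk : Finset (Finset V)) : Set (Finset V) :=
  {σ | σ.erase w ⊆ X ∧ (σ.erase w).card ≤ 3 ∧ (w ∈ σ → σ.erase w ∉ Mk)}

/-- simplices of the cells: a cell is a pair (tag, set of triangles) -/
def Cells (C : Finset (V × Finset (Finset V))) : Set (Finset V) :=
  {σ | ∃ c ∈ C, c.1 ∈ σ ∧ σ.erase c.1 ∈ cl c.2}

/-- the complex of a state -/
def ZZ (w : V) (X : Finset V) (Mk : Finset (Finset V)) (C : Finset (V × Finset (Finset V))) :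
    Set (Finset V) := Env w X Mk ∪ Cells C

/-- well formed states -/
structure WF (w : V) (X : Finset V) (Mk : Finset (Finset V))
    (C : Finset (V × Finset (Finset V))) : Prop where
  hw : w ∉ X
  mrk : ∀ t ∈ Mk, t ⊆ X ∧ t.card = 3
  tag : ∀ c ∈ C, c.1 ∉ X ∧ c.1 ≠ w
  inj : ∀ c ∈ C, ∀ c' ∈ C, c.1 = c'.1 → c = c'
  tri : ∀ c ∈ C, c.2.Nonempty ∧ ∀ t ∈ c.2, t ⊆ X ∧ t.card = 3

/-- fresh tag -/
structure Fresh (w : V) (X : Finset V) (C : Finset (V × Finset (Finset V))) (u : V) : Prop where
  hX : u ∉ X
  hw : u ≠ w
  hC : ∀ c ∈ C, c.1 ≠ u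

/-- sets of triangles from lists -/
def mkS (L : List (List V)) : Finset (Finset V) := (L.map List.toFinset).toFinset

/-- disc condition: `S` without `t` can be built from a point inside itself -/
def Disc (S : Finset (Finset V)) (t : Finset V) : Prop :=
  ∃ p, Inn (cl (S.erase t)) (pt p) (cl (S.erase t))

/-- the three vertices of a name -/
def rg (a : Fin 3 → V) : Finset V := Finset.univ.image a

end State

section Cert

/-- code of a finite set of labels -/
def code (s : List ℕ) : ℕ := (s.map (fun i => 2 ^ i)).sum

/-- all sublists of the given lists -/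
def closeTri (T : List (List ℕ)) : ℕ :=
  (T.flatMap List.sublists).foldl (fun L s => L ||| 2 ^ code s) 0

/-- a certificate: labels `< n`; `L0`, `L1` = two complexes, given by their maximal simplices;
`mv` = list of moves `(up, x, F)`. -/
structure Crt where
  n : ℕ
  L0 : List (List ℕ)
  L1 : List (List ℕ)
  mv : List (Bool × ℕ × List ℕ)

/-- one move; the state is the number whose bits are the codes of the simplices -/
def step (n : ℕ) (ok : List ℕ → Bool) (L : ℕ) (m : Bool × ℕ × List ℕ) : Option ℕ :=
  let x := m.2.1
  let F := m.2.2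
  let cF := code F
  let cE := 2 ^ x + cF
  if decide (x :: F).Nodup && (x :: F).all (fun i => decide (i < n)) && !F.isEmpty &&
      F.all (fun y => L.testBit (cE - 2 ^ y)) then
    if m.1 then
      if ok (x :: F) && !L.testBit cF then some (L ||| 2 ^ cF ||| 2 ^ cE) else none
    else
      if L.testBit cF && L.testBit cE &&
          (List.range n).all (fun y => (x :: F).contains y || !L.testBit (cF + 2 ^ y)) then
        some (L ^^^ 2 ^ cF ^^^ 2 ^ cE) else none
  else none

/-- all moves -/
def run (n : ℕ) (ok : List ℕ → Bool) : ℕ → List (Bool × ℕ × List ℕ) → Option ℕ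
  | L, [] => some L
  | L, m :: ms => match step n ok L m with
    | some L' => run n ok L' ms
    | none => none

/-- the checker: the starting complex is inside, all moves are correct, the result is `L1` -/
def Crt.check (c : Crt) (ok : List ℕ → Bool) : Bool :=
  c.L0.all (fun t => ok t && decide t.Nodup && t.all (fun i => decide (i < c.n))) &&
  c.L1.all (fun t => decide t.Nodup && t.all (fun i => decide (i < c.n))) &&
  !c.L0.isEmpty &&
  (match run c.n ok (closeTri c.L0) c.mv with
    | some L => L == closeTri c.L1
    | none => false)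

/-- `E` is a simplex of the environment or of a cell: labels `< m` are `w` (label `0`) and the
vertices of `X`; `mk` = marked triangles, `cells` = cells given as (tag, triangles) -/
def envOk (m : ℕ) (mk : List (List ℕ)) (cells : List (ℕ × List (List ℕ))) (E : List ℕ) : Bool :=
  (E.all (fun i => decide (i < m)) && decide ((E.erase 0).length ≤ 3) &&
    (!E.contains 0 || mk.all (fun t => !(t.all (fun i => E.contains i))))) ||
  cells.any (fun d => d.2.any (fun t => E.all (fun i => i == d.1 || t.contains i)))

/-- inside the complex generated by the triangles `T` -/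
def inOk (T : List (List ℕ)) (E : List ℕ) : Bool := T.any (fun t => E.all (fun i => t.contains i))

/-- image of label lists -/
def img {V : Type*} [DecidableEq V] (φ : ℕ → V) (T : List (List ℕ)) : Finset (Finset V) :=
  mkS (T.map (List.map φ))

end Cert

end Pool.Agent.DF302A.PI
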