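import Pool.Agent.Work.MP_df302a_co.G6
import Pool.Agent.Work.MP_df302a_co.I0

/-!
# MP_df302a_co, part (II), block G7: deformations of admissible complexes preserve good cones

If the vertices are in general position in a space of dimension at least nine, then an elementary
expansion of admissible complexes (dimension at most four, all the simplices of dimension four
contain a fixed vertex) does not change whether the cone is good.
-/

set_option autoImplicit false

namespace Pool.Agent.DF302A

open Finset

section

variable {W : Type*} [AddCommGroup W] [Module ℝ W]

theorem good_sim [FiniteDimensional ℝ W] {V : Type*} [DecidableEq V] (q : V → W)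
    (hq : ∀ c : Finset V, c.card ≤ 9 → Ind q c) {K K' : Set (Finset V)} (h : PI.Sim K K') :
    Good (cK q K) ↔ Good (cK q K') := by
  induction h with
  | @exp K K' F x h a =>
    obtain ⟨hcx, hfin, hcard, v, hv⟩ := a
    have hE : (insert x F).erase x = F := Finset.erase_insert h.hx
    have hKK' : K ⊆ K' := by
      rw [h.eq]
      exact fun σ hσ => Set.mem_insert_of_mem _ (Set.mem_insert_of_mem _ hσ)
    have hEK' : insert x F ∈ K' := by
      rw [h.eq]
      exact Set.mem_insert_of_mem _ (Set.mem_insert _ _)
    have key := good_expand q K h.cx (hfin.subset hKK') (insert x F) x (Finset.mem_insert_self x F)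
      (by
        rw [Finset.card_insert_of_notMem h.hx]
        have := Finset.card_pos.mpr h.ne
        omega)
      (by rw [hE]; exact h.hF)
      (by
        intro y hy hyx
        have hyF : y ∈ F := (Finset.mem_insert.mp hy).resolve_left hyx
        rw [Finset.erase_insert_of_ne (Ne.symm hyx)]
        exact h.hy y hyF)
      (by
        intro τ hτ
        apply hq
        have h1 := hcard τ (hKK' hτ)
        have h2 := hcard _ hEK'
        by_cases h5 : τ.card = 5 ∧ (insert x F).card = 5
        · have hvτ := hv τ (hKK' hτ) h5.1
          have hvE := hv _ hEK' h5.2
          have h6 := Finset.card_union_add_card_inter τ (insert x F)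
          have h7 : 0 < (τ ∩ insert x F).card :=
            Finset.card_pos.mpr ⟨v, Finset.mem_inter.mpr ⟨hvτ, hvE⟩⟩
          omega
        · have h6 := Finset.card_union_le τ (insert x F)
          omega)
    rw [hE] at key
    rw [h.eq]
    exact key
  | refl K => exact Iff.rfl
  | symm h ih => exact ih.symm
  | trans h h' ih ih' => exact ih.trans ih'

/-- contractible admissible complexes have good cones -/
theorem good_of_sim_pt [FiniteDimensional ℝ W] {V : Type*} [DecidableEq V] (q : V → W)
    (hq : ∀ c : Finset V, c.card ≤ 9 → Ind q c) {K : Set (Finset V)} {p : V}
    (h : PI.Sim K (PI.pt p)) : Good (cK q K) := by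
  rw [good_sim q hq h]
  have hp : q p ≠ 0 := by
    have h1 := hq {p} (by rw [Finset.card_singleton]; norm_num)
    exact h1.ne_zero (⟨p, Finset.mem_singleton_self p⟩ : ({p} : Finset V))
  exact good_point q p hp

end

end Pool.Agent.DF302A
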