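import Pool.Agent.Work.MP_df302a_co.G7
import Pool.Agent.Work.MP_df302a_co.BridgeG

/-!
# MP_df302a_co, part (II), block G7b: complexes that deform to a point have good cones

The vertices of the complex are in special (equivariant) positions; the bridge moves them to generic
positions, and there the deformation of the abstract complex can be followed.
-/

set_option autoImplicit false

namespace Pool.Agent.DF302A

open Finset

section

variable {W : Type*} [AddCommGroup W] [Module ℝ W]

/-- independence of relabelled vectors -/
theorem Ind.comp_inj {V V' : Type*} [DecidableEq V'] {q : V' → W} {c : V → V'}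
    (hc : Function.Injective c) {s : Finset V} (h : Ind q (s.image c)) :
    Ind (fun v => q (c v)) s :=
  LinearIndependent.comp h (fun x : s => (⟨c x, Finset.mem_image_of_mem c x.2⟩ : s.image c))
    (fun x y hxy => Subtype.ext (hc (congrArg (fun u : s.image c => (u : V')) hxy)))

/-- a complex of dimension at most three which deforms to a point, with vertices in positions
injective on its cone, has a good cone -/
theorem good_of_sim [FiniteDimensional ℝ W] (hn : Module.finrank ℝ W = 9)
    {X : Type*} [Fintype X] [DecidableEq X] {K : Set (Finset X)} (hK : IsCx K)
    (hc : ∀ σ ∈ K, ∀ τ ∈ K, (σ ∪ τ).card < 9) {p : X → W}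
    (hp : Set.InjOn (fun t => linP p t) (cone K))
    {V : Type*} [DecidableEq V] [Countable V] {e : X → V} (he : Function.Injective e) {v : V}
    (h : PI.Sim ((fun σ : Finset X => σ.image e) '' K) (PI.pt v)) : Good (cK p K) := by
  obtain ⟨c, hcode⟩ := Countable.exists_injective_nat V
  obtain ⟨q, hq, hg⟩ := bridge_good hn hK hc hp (e := fun x => c (e x)) (hcode.comp he)
  rw [hg]
  have e1 : (fun σ : Finset X => σ.image fun x => c (e x)) '' K =
      (fun σ : Finset V => σ.image c) '' ((fun σ : Finset X => σ.image e) '' K) := by
    rw [Set.image_image]
    refine Set.image_congr fun σ _ => ?_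
    rw [Finset.image_image]
    rfl
  rw [e1, cK_map (p := fun v => q (c v)) hcode (fun _ => rfl)]
  refine good_of_sim_pt (fun v => q (c v)) (fun s hs => ?_) h
  exact Ind.comp_inj hcode (hq _ (Finset.card_image_le.trans hs))

end

end Pool.Agent.DF302A
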