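import Pool.Agent.Work.MP_df302a_co.ThmB2

/-!
# MP_df302a_co, part (II): neighbourhood functions of polyhedral cones, definitions

`W` is a real vector space.  `sg L y` is the sign vector of `y` with respect to a finite family `L`
of linear functionals, `QL L` the complex of the chains of nonzero realizable sign vectors
(barycentric subdivision of the arrangement), `IsB L b` says that `b s` is a point of the open cell
`s`.  `Good A` says that the neighbourhood function of the polyhedral cone `A` (negative on `A`) is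
linearizable.
-/

set_option autoImplicit false

namespace Pool.Agent.DF302A

open Finset

section

variable {W : Type*} [AddCommGroup W] [Module ℝ W]

/-- face relation of sign vectors -/
def SLe {ι : Type*} (s t : ι → SignType) : Prop := ∀ i, s i = 0 ∨ s i = t i

/-- the sign vector of a point -/
noncomputable def sg {ι : Type*} (L : ι → W →ₗ[ℝ] ℝ) (y : W) : ι → SignType :=
  fun i => SignType.sign (L i y)

/-- the functionals separate the points -/
def Sep {ι : Type*} (L : ι → W →ₗ[ℝ] ℝ) : Prop := ∀ y, (∀ i, L i y = 0) → y = 0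

/-- the barycentric subdivision of the arrangement: chains of nonzero realizable sign vectors -/
def QL {ι : Type*} (L : ι → W →ₗ[ℝ] ℝ) : Set (Finset (ι → SignType)) :=
  {c | (∀ s ∈ c, s ≠ 0 ∧ ∃ y, sg L y = s) ∧ ∀ s ∈ c, ∀ t ∈ c, SLe s t ∨ SLe t s}

/-- `b s` is a point of the open cell `s` -/
def IsB {ι : Type*} (L : ι → W →ₗ[ℝ] ℝ) (b : (ι → SignType) → W) : Prop :=
  ∀ y, sg L (b (sg L y)) = sg L y

/-- `C` is a union of closed cells of the arrangement -/
def Cpt {ι : Type*} (L : ι → W →ₗ[ℝ] ℝ) (C : Set W) : Prop :=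
  ∀ y y', y ∈ C → SLe (sg L y') (sg L y) → y' ∈ C

/-- the linear map with values `p` -/
noncomputable def linP {X : Type*} [Fintype X] (p : X → W) : (X → ℝ) →ₗ[ℝ] W :=
  ∑ x, (LinearMap.proj x).smulRight (p x)

theorem linP_apply {X : Type*} [Fintype X] (p : X → W) (t : X → ℝ) :
    linP p t = ∑ x, t x • p x := by
  simp [linP]

open Classical in
/-- `-1` on `A`, `1` outside -/
noncomputable def pm {X : Type*} (A : Set X) (x : X) : ℝ := if x ∈ A then -1 else 1

/-- the closed simplicial cone spanned by the `p x`, `x ∈ c` -/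
def cn {X : Type*} (p : X → W) (c : Finset X) : Set W :=
  {y | ∃ t : X → ℝ, (∀ x ∈ c, 0 ≤ t x) ∧ y = ∑ x ∈ c, t x • p x}

/-- the cone of a complex with the vertices at the `p x` -/
def cK {X : Type*} (p : X → W) (K : Set (Finset X)) : Set W := {y | ∃ c ∈ K, y ∈ cn p c}

/-- the vectors of a finite set are linearly independent -/
def Ind {X : Type*} (p : X → W) (c : Finset X) : Prop := LinearIndependent ℝ fun x : c => p x

/-- the cones of `K` fit together (a simplicial fan) -/
def Emb {X : Type*} (p : X → W) (K : Set (Finset X)) : Prop :=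
  (∀ c ∈ K, Ind p c) ∧ ∀ c ∈ K, ∀ d ∈ K, ∀ y, y ∈ cn p c → y ∈ cn p d → ∃ e ∈ K, e ⊆ c ∧ e ⊆ d ∧
    y ∈ cn p e

/-- closed along all lines -/
def LineClosed (C : Set W) : Prop := ∀ x v : W, IsClosed {u : ℝ | x + u • v ∈ C}

/-- the polyhedral cone `A` is good: in some complete fan (with piecewise linear coordinates) in
which `A` is spanned by the negative vertices, the pattern is linearizable -/
def Good (A : Set W) : Prop :=
  ∃ (n : ℕ) (Q : Set (Finset (Fin n))) (h : (Fin n → ℝ) → W) (k : W → Fin n → ℝ) (f : Fin n → ℝ),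
    IsSph Q h k ∧ (∀ x, f x ≠ 0) ∧ (∀ y, y ∈ A ↔ ∀ x, 0 < f x → k y x = 0) ∧ CoordV Q f W

/-- the chains of cells above `s` -/
def above {ι : Type*} (L : ι → W →ₗ[ℝ] ℝ) (s : ι → SignType) : Set (Finset (ι → SignType)) :=
  {c | c ∈ QL L ∧ ∀ t ∈ c, SLe s t ∧ t ≠ s}

/-- the chains of cells below `s` -/
def below {ι : Type*} (L : ι → W →ₗ[ℝ] ℝ) (s : ι → SignType) : Set (Finset (ι → SignType)) :=
  {c | c ∈ QL L ∧ ∀ t ∈ c, SLe t s ∧ t ≠ s}

/-- the span of a cell -/
def spanC {ι : Type*} (L : ι → W →ₗ[ℝ] ℝ) (s : ι → SignType) : Submodule ℝ W :=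
  ⨅ i : {i // s i = 0}, LinearMap.ker (L i)

theorem SLe.refl {ι : Type*} (s : ι → SignType) : SLe s s := fun _ => Or.inr rfl

theorem SLe.trans {ι : Type*} {s t u : ι → SignType} (h : SLe s t) (h' : SLe t u) : SLe s u := by
  intro i
  rcases h i with h1 | h1
  · exact Or.inl h1
  · rcases h' i with h2 | h2
    · exact Or.inl (h1.trans h2)
    · exact Or.inr (h1.trans h2)

theorem SLe.antisymm {ι : Type*} {s t : ι → SignType} (h : SLe s t) (h' : SLe t s) : s = t := by
  funext i
  rcases h i with h1 | h1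
  · rcases h' i with h2 | h2
    · rw [h1, h2]
    · exact h2.symm
  · exact h1

theorem Cpt.mono {ι κ : Type*} {L : ι → W →ₗ[ℝ] ℝ} {D : κ → W →ₗ[ℝ] ℝ} (e : κ → ι)
    (he : ∀ i, L (e i) = D i) {C : Set W} (h : Cpt D C) : Cpt L C := by
  intro y y' hy hs
  refine h y y' hy fun i => ?_
  have := hs (e i)
  unfold sg at this ⊢
  rwa [he] at this

end

end Pool.Agent.DF302A
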