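import Pool.Agent.Work.MP_df302a_co.GDefs

/-!
# MP_df302a_co, part (II), block (E): dual families of simplicial cones

For a finite family of linearly independent sets of vectors there is a finite separating family of
functionals such that all their simplicial cones, with all their faces, are unions of closed cells.
-/

set_option autoImplicit false

namespace Pool.Agent.DF302A

open Finset

section

variable {W : Type*} [AddCommGroup W] [Module ℝ W]

theorem Cpt.zero_mem {ι : Type*} {L : ι → W →ₗ[ℝ] ℝ} {C : Set W} (h : Cpt L C)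
    (hne : C.Nonempty) : (0 : W) ∈ C := by
  obtain ⟨y, hy⟩ := hne
  refine h y 0 hy fun i => Or.inl ?_
  simp [sg]

theorem Cpt.union {ι : Type*} {L : ι → W →ₗ[ℝ] ℝ} {κ : Type*} {C : κ → Set W}
    (h : ∀ j, Cpt L (C j)) : Cpt L {y | ∃ j, y ∈ C j} := by
  rintro y y' ⟨j, hj⟩ hs
  exact ⟨j, h j y y' hj hs⟩

theorem Cpt.inter {ι : Type*} {L : ι → W →ₗ[ℝ] ℝ} {κ : Type*} {C : κ → Set W}
    (h : ∀ j, Cpt L (C j)) : Cpt L {y | ∀ j, y ∈ C j} := by
  intro y y' hy hs j
  exact h j y y' (hy j) hs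

theorem cpt_cK {ι : Type*} {L : ι → W →ₗ[ℝ] ℝ} {X : Type*} {p : X → W} {K : Set (Finset X)}
    (h : ∀ c ∈ K, Cpt L (cn p c)) : Cpt L (cK p K) := by
  rintro y y' ⟨c, hc, hy⟩ hs
  exact ⟨c, hc, h c hc y y' hy hs⟩

theorem zero_mem_cn {X : Type*} (p : X → W) (c : Finset X) : (0 : W) ∈ cn p c :=
  ⟨fun _ => 0, fun _ _ => le_rfl, by simp⟩

theorem zero_mem_cK {X : Type*} (p : X → W) {K : Set (Finset X)} (hK : K.Nonempty) :
    (0 : W) ∈ cK p K := by
  obtain ⟨c, hc⟩ := hK
  exact ⟨c, hc, zero_mem_cn p c⟩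

/-- dual functionals of an independent family and functionals cutting out its span -/
theorem exists_dual_aux {X : Type*} (p : X → W) (c : Finset X)
    (hc : Ind p c) : ∃ (D : X → W →ₗ[ℝ] ℝ) (P : W →ₗ[ℝ] W),
      (∀ x ∈ c, ∀ x' ∈ c, x ≠ x' → D x (p x') = 0) ∧ (∀ x ∈ c, D x (p x) = 1) ∧
      (∀ x ∈ c, P (p x) = 0) ∧ ∀ y, y = (∑ x ∈ c, D x y • p x) + P y := by
  classical
  let f : ({x // x ∈ c} → ℝ) →ₗ[ℝ] W := Fintype.linearCombination ℝ (fun x : {x // x ∈ c} => p x)
  have hf : Function.Injective f := by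
    rw [← LinearMap.ker_eq_bot, LinearMap.ker_eq_bot']
    intro t ht
    rw [Fintype.linearCombination_apply] at ht
    exact funext (Fintype.linearIndependent_iff.mp hc t ht)
  obtain ⟨g, hg⟩ := LinearMap.exists_leftInverse_of_injective f (LinearMap.ker_eq_bot.mpr hf)
  have hg' : ∀ t, g (f t) = t := fun t => by
    have := LinearMap.congr_fun hg t
    simpa using this
  have hfs : ∀ x : {x // x ∈ c}, f (Pi.single x 1) = p x := by
    intro x
    simp [f, Fintype.linearCombination_apply, Pi.single_apply]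
  have hgp : ∀ x : {x // x ∈ c}, g (p x) = Pi.single x 1 := by
    intro x
    rw [← hfs, hg']
  refine ⟨fun x => if h : x ∈ c then (LinearMap.proj (⟨x, h⟩ : {x // x ∈ c})).comp g else 0,
    LinearMap.id - f.comp g, ?_, ?_, ?_, ?_⟩
  · intro x hx x' hx' hne
    have h1 := hgp ⟨x', hx'⟩
    simp only [hx, dite_true, LinearMap.comp_apply, LinearMap.proj_apply]
    simp only at h1
    rw [h1]
    rw [Pi.single_apply, if_neg]
    intro h
    exact hne (congrArg Subtype.val h)
  · intro x hx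
    have h1 := hgp ⟨x, hx⟩
    simp only [hx, dite_true, LinearMap.comp_apply, LinearMap.proj_apply]
    simp only at h1
    rw [h1]
    simp
  · intro x hx
    have h1 := hgp ⟨x, hx⟩
    have h2 := hfs ⟨x, hx⟩
    simp only at h1 h2
    simp only [LinearMap.sub_apply, LinearMap.id_apply, LinearMap.comp_apply]
    rw [h1, h2, sub_self]
  · intro y
    have h1 : (∑ x ∈ c, (if h : x ∈ c then (LinearMap.proj (⟨x, h⟩ : {x // x ∈ c})).comp g
        else (0 : W →ₗ[ℝ] ℝ)) y • p x) = f (g y) := by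
      rw [← Finset.sum_coe_sort c]
      simp only [f, Fintype.linearCombination_apply]
      refine Finset.sum_congr rfl fun x _ => ?_
      rw [dif_pos x.2]
      rfl
    rw [h1]
    simp only [LinearMap.sub_apply, LinearMap.id_apply, LinearMap.comp_apply]
    abel

/-- membership in a face of the cone, by dual functionals -/
theorem mem_cn_iff_dual {X : Type*} {p : X → W} {c : Finset X} {D : X → W →ₗ[ℝ] ℝ}
    {P : W →ₗ[ℝ] W} (h1 : ∀ x ∈ c, ∀ x' ∈ c, x ≠ x' → D x (p x') = 0)
    (h2 : ∀ x ∈ c, D x (p x) = 1) (h3 : ∀ x ∈ c, P (p x) = 0)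
    (h4 : ∀ y, y = (∑ x ∈ c, D x y • p x) + P y) {c' : Finset X} (hc' : c' ⊆ c) (y : W) :
    y ∈ cn p c' ↔ P y = 0 ∧ (∀ x ∈ c', 0 ≤ D x y) ∧ ∀ x ∈ c, x ∉ c' → D x y = 0 := by
  classical
  constructor
  · rintro ⟨t, ht, rfl⟩
    have hD : ∀ x ∈ c, D x (∑ x' ∈ c', t x' • p x') = if x ∈ c' then t x else 0 := by
      intro x hx
      rw [map_sum]
      rw [Finset.sum_congr rfl (g := fun x' => if x' = x then t x else 0)]
      · rw [Finset.sum_ite_eq' c' x (fun _ => t x)]
      · intro x' hx'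
        rw [map_smul, smul_eq_mul]
        split_ifs with h
        · rw [h, h2 x hx, mul_one]
        · rw [h1 x hx x' (hc' hx') (Ne.symm h), mul_zero]
    refine ⟨?_, ?_, ?_⟩
    · rw [map_sum]
      refine Finset.sum_eq_zero fun x hx => ?_
      rw [map_smul, h3 x (hc' hx), smul_zero]
    · intro x hx
      rw [hD x (hc' hx), if_pos hx]
      exact ht x hx
    · intro x hx hx'
      rw [hD x hx, if_neg hx']
  · rintro ⟨hP, hpos, hz⟩
    refine ⟨fun x => D x y, hpos, ?_⟩
    have := h4 y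
    rw [hP, add_zero] at this
    rw [← Finset.sum_subset hc'] at this
    · exact this
    · intro x hx hx'
      rw [hz x hx hx', zero_smul]

/-- functionals which cut out all the faces of the cone of `c` and are nonnegative on it -/
theorem exists_dual [FiniteDimensional ℝ W] {X : Type*} (p : X → W) (c : Finset X)
    (hc : Ind p c) : ∃ (n : ℕ) (D : Fin n → W →ₗ[ℝ] ℝ), Sep D ∧ (∀ i, ∀ x ∈ c, 0 ≤ D i (p x)) ∧
      ∀ c' ⊆ c, ∀ y y', y ∈ cn p c' → SLe (sg D y') (sg D y) → y' ∈ cn p c' := by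
  classical
  obtain ⟨D, P, h1, h2, h3, h4⟩ := exists_dual_aux p c hc
  let bs := Module.finBasis ℝ W
  let F : {x // x ∈ c} ⊕ Fin (Module.finrank ℝ W) → W →ₗ[ℝ] ℝ :=
    Sum.elim (fun x => D x) (fun j => (bs.coord j).comp P)
  let e := (Fintype.equivFin ({x // x ∈ c} ⊕ Fin (Module.finrank ℝ W))).symm
  have hPz : ∀ y, (∀ j, bs.coord j (P y) = 0) → P y = 0 := by
    intro y hy
    exact (bs.forall_coord_eq_zero_iff).mp hy
  refine ⟨_, fun i => F (e i), ?_, ?_, ?_⟩
  · intro y hy
    have hF : ∀ i, F i y = 0 := by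
      intro i
      have := hy (e.symm i)
      simpa using this
    have hP : P y = 0 := hPz y fun j => hF (Sum.inr j)
    have := h4 y
    rw [hP, add_zero] at this
    rw [this]
    refine Finset.sum_eq_zero fun x hx => ?_
    have := hF (Sum.inl ⟨x, hx⟩)
    have h5 : D x y = 0 := this
    rw [h5, zero_smul]
  · intro i x hx
    show 0 ≤ F (e i) (p x)
    rcases e i with z | j
    · show 0 ≤ D z (p x)
      by_cases hz : (z : X) = x
      · rw [hz, h2 x hx]
        exact zero_le_one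
      · rw [h1 z z.2 x hx hz]
    · show 0 ≤ bs.coord j (P (p x))
      rw [h3 x hx, map_zero]
  · intro c' hc' y y' hy hs
    rw [mem_cn_iff_dual h1 h2 h3 h4 hc'] at hy ⊢
    obtain ⟨hP, hpos, hz⟩ := hy
    have hF : ∀ i, SignType.sign (F i y') = 0 ∨ SignType.sign (F i y') = SignType.sign (F i y) := by
      intro i
      have := hs (e.symm i)
      simpa [sg] using this
    refine ⟨?_, ?_, ?_⟩
    · refine hPz y' fun j => ?_
      have h5 := hF (Sum.inr j)
      have h6 : F (Sum.inr j) y = 0 := by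
        show bs.coord j (P y) = 0
        rw [hP, map_zero]
      rw [h6, sign_zero, or_self, sign_eq_zero_iff] at h5
      exact h5
    · intro x hx
      have h5 := hF (Sum.inl ⟨x, hc' hx⟩)
      have h6 : 0 ≤ F (Sum.inl ⟨x, hc' hx⟩) y := hpos x hx
      show 0 ≤ F (Sum.inl ⟨x, hc' hx⟩) y'
      rcases h5 with h5 | h5
      · rw [sign_eq_zero_iff] at h5
        rw [h5]
      · have h7 : 0 ≤ SignType.sign (F (Sum.inl ⟨x, hc' hx⟩) y) := sign_nonneg_iff.mpr h6
        rw [← h5] at h7
        exact sign_nonneg_iff.mp h7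
    · intro x hx hx'
      have h5 := hF (Sum.inl ⟨x, hx⟩)
      have h6 : F (Sum.inl ⟨x, hx⟩) y = 0 := hz x hx hx'
      rw [h6, sign_zero, or_self, sign_eq_zero_iff] at h5
      exact h5

/-- one separating family for finitely many independent sets; it is nonnegative on the vectors
common to all of them -/
theorem exists_dual_family [FiniteDimensional ℝ W] {X : Type*} (p : X → W)
    (T : Set (Finset X)) (hT : T.Finite) (hne : T.Nonempty) (h : ∀ c ∈ T, Ind p c) :
    ∃ (n : ℕ) (L : Fin n → W →ₗ[ℝ] ℝ), Sep L ∧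
      (∀ E : Finset X, (∀ c ∈ T, E ⊆ c) → ∀ i, ∀ x ∈ E, 0 ≤ L i (p x)) ∧
      ∀ c ∈ T, ∀ c' ⊆ c, Cpt L (cn p c') := by
  classical
  have hT' : Finite T := hT
  have : Fintype T := Fintype.ofFinite T
  choose n D hS hpos hcut using fun c : T => exists_dual p (c : Finset X) (h c c.2)
  let e := (Fintype.equivFin (Σ c : T, Fin (n c))).symm
  refine ⟨_, fun i => D (e i).1 (e i).2, ?_, ?_, ?_⟩
  · intro y hy
    obtain ⟨c, hc⟩ := hne
    refine hS ⟨c, hc⟩ y fun j => ?_
    have : D (e (e.symm ⟨⟨c, hc⟩, j⟩)).1 (e (e.symm ⟨⟨c, hc⟩, j⟩)).2 y = 0 :=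
      hy (e.symm ⟨⟨c, hc⟩, j⟩)
    rwa [e.apply_symm_apply] at this
  · intro E hE i x hx
    exact hpos (e i).1 (e i).2 x (hE _ (e i).1.2 hx)
  · intro c hc c' hc'
    refine Cpt.mono (D := D ⟨c, hc⟩) (fun j => e.symm ⟨⟨c, hc⟩, j⟩) ?_ ?_
    · intro j
      show D (e (e.symm ⟨⟨c, hc⟩, j⟩)).1 (e (e.symm ⟨⟨c, hc⟩, j⟩)).2 = _
      rw [e.apply_symm_apply]
    · intro y y' hy hs
      exact hcut ⟨c, hc⟩ c' hc' y y' hy hs

/-- the version for a finite complex -/
theorem exists_arr [FiniteDimensional ℝ W] {X : Type*} (p : X → W)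
    (K : Set (Finset X)) (hK : K.Finite) (hne : K.Nonempty) (h : ∀ c ∈ K, Ind p c) :
    ∃ (n : ℕ) (L : Fin n → W →ₗ[ℝ] ℝ), Sep L ∧ (∀ c ∈ K, Cpt L (cn p c)) ∧ Cpt L (cK p K) ∧
      (0 : W) ∈ cK p K := by
  obtain ⟨n, L, hS, -, hL⟩ := exists_dual_family p K hK hne h
  have h1 : ∀ c ∈ K, Cpt L (cn p c) := fun c hc => hL c hc c subset_rfl
  exact ⟨n, L, hS, h1, cpt_cK h1, zero_mem_cK p hne⟩

theorem cn_lineClosed {X : Type*} (p : X → W)
    (c : Finset X) (hc : Ind p c) : LineClosed (cn p c) := by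
  classical
  obtain ⟨D, P, h1, h2, h3, h4⟩ := exists_dual_aux p c hc
  intro x v
  -- functionals separating `P x, P v`
  have hset : {u : ℝ | x + u • v ∈ cn p c} = {u : ℝ | P x + u • P v = 0} ∩
      ⋂ z ∈ c, {u : ℝ | 0 ≤ D z x + u * D z v} := by
    ext u
    simp only [Set.mem_ofPred_eq, Set.mem_inter_iff, Set.mem_iInter]
    rw [mem_cn_iff_dual h1 h2 h3 h4 subset_rfl]
    simp only [map_add, map_smul, smul_eq_mul]
    constructor
    · rintro ⟨a, b, -⟩
      exact ⟨a, b⟩
    · rintro ⟨a, b⟩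
      exact ⟨a, b, fun z hz hz' => absurd hz hz'⟩
  rw [hset]
  refine IsClosed.inter ?_ (isClosed_biInter fun z _ => ?_)
  · by_cases hv : P v = 0
    · simp only [hv, smul_zero, add_zero]
      by_cases hx : P x = 0
      · simp [hx]
      · simp [hx]
    · have : {u : ℝ | P x + u • P v = 0}.Subsingleton := by
        intro u hu u' hu'
        simp only [Set.mem_ofPred_eq] at hu hu'
        have h5 : (u - u') • P v = 0 := by
          have : (u - u') • P v = (P x + u • P v) - (P x + u' • P v) := by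
            rw [sub_smul]; abel
          rw [this, hu, hu', sub_zero]
        rcases smul_eq_zero.mp h5 with h6 | h6
        · linarith
        · exact absurd h6 hv
      exact this.isClosed
  · exact isClosed_le continuous_const (by fun_prop)

/-- vectors in injective position on a complex are independent on its faces -/
theorem Ind.of_injOn {X : Type*} [Fintype X] [DecidableEq X] {K : Set (Finset X)} {p : X → W}
    (hp : Set.InjOn (fun t : X → ℝ => ∑ x, t x • p x) (cone K)) : ∀ c ∈ K, Ind p c := by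
  intro c hc
  unfold Ind
  rw [Fintype.linearIndependent_iff]
  intro g hg x
  let G : X → ℝ := fun x => if h : x ∈ c then g ⟨x, h⟩ else 0
  have hG : ∑ x, G x • p x = 0 := by
    rw [← hg]
    rw [← Finset.sum_subset (Finset.subset_univ c)]
    · rw [← Finset.sum_coe_sort c]
      refine Finset.sum_congr rfl fun x _ => ?_
      simp only [G, x.2, dite_true]
    · intro x _ hx
      simp [G, hx]
  have hpos : (fun x => max (G x) 0) ∈ cone K :=
    ⟨fun x => le_max_right _ _, c, hc, fun x hx => by simp [G, hx]⟩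
  have hneg : (fun x => max (- G x) 0) ∈ cone K :=
    ⟨fun x => le_max_right _ _, c, hc, fun x hx => by simp [G, hx]⟩
  have hsub : ∀ a : ℝ, max a 0 - max (-a) 0 = a := by
    intro a
    rcases le_total 0 a with h | h
    · rw [max_eq_left h, max_eq_right (by linarith)]; ring
    · rw [max_eq_right h, max_eq_left (by linarith)]; ring
  have heq := hp hpos hneg (by
    show ∑ x, max (G x) 0 • p x = ∑ x, max (- G x) 0 • p x
    rw [← sub_eq_zero, ← Finset.sum_sub_distrib, ← hG]
    refine Finset.sum_congr rfl fun x _ => ?_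
    rw [← sub_smul, hsub])
  have h5 : max (G x) 0 = max (- G x) 0 := congrFun heq x
  have h6 : G x = 0 := by
    rw [← hsub (G x), h5, sub_self]
  have h7 : G x = g x := by
    simp only [G]
    rw [dif_pos x.2]
  rw [← h7, h6]

end

end Pool.Agent.DF302A
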