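import Pool.Agent.Work.MP_df302a_co.GU
import Pool.Agent.Work.MP_df302a_co.Gauge

/-!
# MP_df302a_co : a good invariant cone gives a polytope (G8)
-/

set_option autoImplicit false

namespace Pool.Agent.DF302A

open Finset

namespace GP

section general

variable {W : Type*} [AddCommGroup W] [Module ℝ W]

/-- The permutation representation. -/
noncomputable def permRep {G : Type} [Group G] {X : Type*} (π : G →* Equiv.Perm X) :
    G →* ((X → ℝ) ≃ₗ[ℝ] (X → ℝ)) where
  toFun a := LinearEquiv.funCongrLeft ℝ ℝ (π a⁻¹)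
  map_one' := by
    ext t x
    simp [LinearEquiv.funCongrLeft_apply, LinearMap.funLeft_apply]
  map_mul' a b := by
    apply LinearEquiv.ext
    intro t
    funext x
    simp [LinearEquiv.funCongrLeft_apply, LinearMap.funLeft_apply]

theorem permRep_apply {G : Type} [Group G] {X : Type*} (π : G →* Equiv.Perm X) (a : G)
    (t : X → ℝ) (x : X) : permRep π a t x = t (π a⁻¹ x) := rfl

theorem perm_inv_apply {G : Type} [Group G] {X : Type*} (π : G →* Equiv.Perm X) (a : G) (x : X) :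
    π a (π a⁻¹ x) = x := by
  rw [← Equiv.Perm.mul_apply, ← map_mul, mul_inv_cancel, map_one, Equiv.Perm.one_apply]

/-- The polytope from an invariant coordinate. -/
theorem polytope_of_coordV [FiniteDimensional ℝ W] {d : ℕ} (hd : Module.finrank ℝ W = d + 1)
    {G : Type} [Group G] [Finite G] {X : Type*} [Fintype X] [DecidableEq X]
    (π : G →* Equiv.Perm X) {Q : Set (Finset X)} {f : X → ℝ}
    (hQ : ∀ a : G, ∀ σ ∈ Q, σ.image (π a) ∈ Q) (hf : ∀ (a : G) x, f (π a x) = f x)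
    (hC : CoordV Q f W)
    (hfaith : ∀ a : G, a ≠ 1 → ∃ t ∈ cone Q, FF f t = 0 ∧ permRep π a t ≠ t) :
    ∃ P : Set (EuclideanSpace ℝ (Fin d)), IsPolytope P ∧
      ∃ φ : G →* CombAut P, Function.Injective φ := by
  obtain ⟨h, k, l, H, hl, hF⟩ := hC
  obtain ⟨w, hw⟩ : ∃ w, l w = 1 := by
    obtain ⟨v, hv⟩ : ∃ v, l v ≠ 0 := by
      by_contra hcon
      push Not at hcon
      exact hl (LinearMap.ext hcon)
    exact ⟨(l v)⁻¹ • v, by simp [hv]⟩
  have hker : Module.finrank ℝ (LinearMap.ker l) = d := by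
    have h5 := LinearMap.finrank_range_add_finrank_ker l
    have h6 : Module.finrank ℝ (LinearMap.range l) = 1 := by
      rw [LinearMap.range_eq_top.2]
      · simp
      · intro r
        exact ⟨r • w, by simp [hw]⟩
    rw [h6, hd] at h5
    omega
  obtain ⟨e⟩ : Nonempty (EuclideanSpace ℝ (Fin d) ≃ₗ[ℝ] LinearMap.ker l) :=
    ⟨LinearEquiv.ofFinrankEq _ _ (by rw [hker]; simp)⟩
  let pr : W →ₗ[ℝ] LinearMap.ker l :=
    LinearMap.codRestrict (LinearMap.ker l) (LinearMap.id - l.smulRight w) (by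
      intro y
      simp [hw])
  have hpr : ∀ y : LinearMap.ker l, pr y = y := by
    intro y
    apply Subtype.ext
    have : l (y : W) = 0 := y.2
    simp [pr, this]
  let κ : EuclideanSpace ℝ (Fin d) → (X → ℝ) :=
    fun y => k ((LinearMap.ker l).subtype.comp (e : EuclideanSpace ℝ (Fin d) →ₗ[ℝ] _) y)
  let g : (X → ℝ) → EuclideanSpace ℝ (Fin d) :=
    fun t => ((e.symm : LinearMap.ker l →ₗ[ℝ] _).comp pr) (h t)
  have hκPL : PLMap κ := H.hk.comp (PLMap.lin _)
  have hgPL : PLMap g := (PLMap.lin _).comp H.hh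
  have hgκ : ∀ y, g (κ y) = y := by
    intro y
    have h7 : h (κ y) = (e y : W) := H.hk' _
    simp only [g, h7, LinearMap.comp_apply]
    rw [hpr]
    simp
  have hrange : ∀ t, t ∈ Set.range κ ↔ t ∈ cone Q ∧ FF f t = 0 := by
    intro t
    constructor
    · rintro ⟨y, rfl⟩
      have h7 : h (κ y) = (e y : W) := H.hk' _
      refine ⟨H.mem _, ?_⟩
      rw [hF _ (H.mem _), h7]
      exact (e y).2
    · rintro ⟨ht, h0⟩
      rw [hF t ht] at h0
      refine ⟨e.symm ⟨h t, h0⟩, ?_⟩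
      simp only [κ, LinearMap.comp_apply]
      simp [H.kh t ht]
  refine gauge (permRep π) κ g hκPL hgPL hgκ ?_ ?_
  · intro a z hz
    rw [hrange] at hz ⊢
    obtain ⟨⟨hz1, σ, hσ, hz2⟩, hz3⟩ := hz
    refine ⟨⟨fun x => hz1 _, σ.image (π a), hQ a σ hσ, ?_⟩, ?_⟩
    · intro x hx
      show z (π a⁻¹ x) = 0
      apply hz2
      intro hmem
      apply hx
      rw [Finset.mem_image]
      exact ⟨_, hmem, perm_inv_apply π a x⟩
    · rw [← hz3, FF_apply, FF_apply]
      refine Fintype.sum_equiv (π a⁻¹) (fun x => f x * (permRep π a) z x)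
        (fun x => f x * z x) ?_
      intro x
      rw [permRep_apply]
      have hr2 := hf a (π a⁻¹ x)
      rw [perm_inv_apply] at hr2
      rw [hr2]
  · intro a ha
    obtain ⟨t, ht, h0, hne⟩ := hfaith a ha
    exact ⟨t, (hrange t).2 ⟨ht, h0⟩, hne⟩

/-- Piecewise linear functions are continuous along lines. -/
theorem line_cont {F : W → ℝ} (hF : IsPL F) (x v : W) :
    Continuous fun s : ℝ => F (x + s • v) := by
  obtain ⟨A, B, hA, hB, hf⟩ := hF
  have h1 : ∀ (S : Finset (W →ₗ[ℝ] ℝ)) (hS : S.Nonempty),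
      Continuous fun s : ℝ => S.sup' hS fun a => a (x + s • v) := by
    intro S hS
    refine Continuous.finset_sup'_apply hS fun a _ => ?_
    have : (fun s : ℝ => a (x + s • v)) = fun s => a x + s * a v := by
      funext s
      rw [map_add, map_smul, smul_eq_mul]
    rw [this]
    exact continuous_const.add (continuous_id.mul continuous_const)
  have h2 : (fun s : ℝ => F (x + s • v)) = fun s =>
      A.sup' hA (fun a => a (x + s • v)) - B.sup' hB fun b => b (x + s • v) := by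
    funext s
    rw [hf]
  rw [h2]
  exact (h1 A hA).sub (h1 B hB)

/-- A good set is a union of closed cells of all sufficiently fine arrangements. -/
theorem exists_cpt {C : Set W} (hC : Good C) : ∃ M : Finset (W →ₗ[ℝ] ℝ), ∀ M', M ⊆ M' →
    Cpt (fun m : M' => (m : W →ₗ[ℝ] ℝ)) C := by
  obtain ⟨n, Q, h, k, f, H, h0, hA, -⟩ := hC
  obtain ⟨M, hM⟩ := exists_adapt_family H.hk
  refine ⟨M, fun M' hM' y y' hy hs => ?_⟩
  rw [hA] at hy ⊢
  intro x hx
  have had := hM M' hM' x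
  have hev : ∀ m : M', ∀ᶠ ε : ℝ in nhdsWithin 0 (Set.Ioi 0),
      0 ≤ (m : W →ₗ[ℝ] ℝ) (y - ε • y') * (m : W →ₗ[ℝ] ℝ) (ε • y') := by
    intro m
    rcases hs m with h1 | h1
    · have h2 : (m : W →ₗ[ℝ] ℝ) y' = 0 := sign_eq_zero_iff.1 h1
      exact Filter.Eventually.of_forall fun ε => by rw [map_smul, h2, smul_zero, mul_zero]
    · have h1' : SignType.sign ((m : W →ₗ[ℝ] ℝ) y') = SignType.sign ((m : W →ₗ[ℝ] ℝ) y) := h1
      by_cases h2 : (m : W →ₗ[ℝ] ℝ) y' = 0
      · exact Filter.Eventually.of_forall fun ε => by rw [map_smul, h2, smul_zero, mul_zero]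
      have hpos : 0 < (m : W →ₗ[ℝ] ℝ) y * (m : W →ₗ[ℝ] ℝ) y' := by
        rcases lt_or_gt_of_ne h2 with h3 | h3
        · have : (m : W →ₗ[ℝ] ℝ) y < 0 := by
            rw [← sign_eq_neg_one_iff, ← h1', sign_eq_neg_one_iff]; exact h3
          exact mul_pos_of_neg_of_neg this h3
        · have : 0 < (m : W →ₗ[ℝ] ℝ) y := by
            rw [← sign_eq_one_iff, ← h1', sign_eq_one_iff]; exact h3
          exact mul_pos this h3
      have hcont : Filter.Tendsto (fun ε : ℝ => (m : W →ₗ[ℝ] ℝ) y * (m : W →ₗ[ℝ] ℝ) y' -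
          ε * ((m : W →ₗ[ℝ] ℝ) y') ^ 2) (nhdsWithin 0 (Set.Ioi 0))
          (nhds ((m : W →ₗ[ℝ] ℝ) y * (m : W →ₗ[ℝ] ℝ) y' - 0 * ((m : W →ₗ[ℝ] ℝ) y') ^ 2)) :=
        ((continuous_const.sub (continuous_id.mul continuous_const)).tendsto 0).mono_left
          nhdsWithin_le_nhds
      rw [zero_mul, sub_zero] at hcont
      filter_upwards [hcont.eventually (lt_mem_nhds hpos), self_mem_nhdsWithin] with ε h3 h4
      have h4' : (0 : ℝ) < ε := h4
      rw [map_sub, map_smul, smul_eq_mul]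
      have : ((m : W →ₗ[ℝ] ℝ) y - ε * (m : W →ₗ[ℝ] ℝ) y') * (ε * (m : W →ₗ[ℝ] ℝ) y') =
          ε * ((m : W →ₗ[ℝ] ℝ) y * (m : W →ₗ[ℝ] ℝ) y' - ε * ((m : W →ₗ[ℝ] ℝ) y') ^ 2) := by
        ring
      rw [this]
      exact mul_nonneg h4'.le h3.le
  obtain ⟨ε, hε, hε0⟩ := ((Filter.eventually_all.2 hev).and self_mem_nhdsWithin).exists
  have hε0' : (0 : ℝ) < ε := hε0
  have h1 := had.add (y - ε • y') (ε • y') hε
  have h2 : y - ε • y' + ε • y' = y := sub_add_cancel _ _
  rw [h2, had.hom y' ε hε0'.le, hy x hx] at h1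
  have h3 : 0 ≤ k (y - ε • y') x := (H.mem _).1 x
  have h4 : 0 ≤ k y' x := (H.mem _).1 x
  nlinarith

end general

section equivariant

variable {W : Type*} [AddCommGroup W] [Module ℝ W]
variable {G : Type} [Group G] {ι : Type*}

/-- The action on the sign vectors of a `G`-stable arrangement. -/
def actP (G : Type) [Group G] (ι : Type*) : G →* Equiv.Perm (G × ι → SignType) where
  toFun a :=
    { toFun := fun s p => s (a⁻¹ * p.1, p.2)
      invFun := fun s p => s (a * p.1, p.2)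
      left_inv := fun s => by funext p; simp
      right_inv := fun s => by funext p; simp }
  map_one' := by
    ext s p
    simp
  map_mul' a b := by
    ext s p
    simp [mul_assoc]

theorem actP_apply (a : G) (s : G × ι → SignType) (p : G × ι) :
    actP G ι a s p = s (a⁻¹ * p.1, p.2) := rfl

/-- The translates of a family of functionals. -/
noncomputable def LG (ρ : G →* (W ≃ₗ[ℝ] W)) (L : ι → W →ₗ[ℝ] ℝ) (p : G × ι) : W →ₗ[ℝ] ℝ :=
  L p.2 ∘ₗ (ρ p.1⁻¹ : W →ₗ[ℝ] W)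

theorem rho_mul_apply (ρ : G →* (W ≃ₗ[ℝ] W)) (a b : G) (y : W) : ρ a (ρ b y) = ρ (a * b) y := by
  rw [map_mul]; rfl

theorem rho_inv_apply (ρ : G →* (W ≃ₗ[ℝ] W)) (a : G) (y : W) : ρ a⁻¹ (ρ a y) = y := by
  rw [rho_mul_apply, inv_mul_cancel, map_one]; rfl

theorem rho_apply_inv (ρ : G →* (W ≃ₗ[ℝ] W)) (a : G) (y : W) : ρ a (ρ a⁻¹ y) = y := by
  rw [rho_mul_apply, mul_inv_cancel, map_one]; rfl

theorem sg_LG (ρ : G →* (W ≃ₗ[ℝ] W)) (L : ι → W →ₗ[ℝ] ℝ) (a : G) (y : W) :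
    sg (LG ρ L) (ρ a y) = actP G ι a (sg (LG ρ L) y) := by
  funext p
  show SignType.sign (L p.2 (ρ p.1⁻¹ (ρ a y))) = SignType.sign (L p.2 (ρ (a⁻¹ * p.1)⁻¹ y))
  rw [rho_mul_apply, mul_inv_rev, inv_inv]

theorem sep_LG (ρ : G →* (W ≃ₗ[ℝ] W)) {L : ι → W →ₗ[ℝ] ℝ} (hL : Sep L) : Sep (LG ρ L) := by
  intro y hy
  refine hL y fun i => ?_
  have h := hy (1, i)
  have h2 : LG ρ L (1, i) y = L i y := by
    show L i (ρ 1⁻¹ y) = L i y
    rw [inv_one, map_one]; rfl
  rwa [h2] at h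

theorem cpt_LG (ρ : G →* (W ≃ₗ[ℝ] W)) {L : ι → W →ₗ[ℝ] ℝ} {C : Set W} (hC : Cpt L C) :
    Cpt (LG ρ L) C := by
  refine Cpt.mono (fun i => ((1 : G), i)) (fun i => ?_) hC
  apply LinearMap.ext
  intro y
  show L i (ρ 1⁻¹ y) = L i y
  rw [inv_one, map_one]; rfl

variable [Fintype G]

/-- An equivariant choice of points in the cells. -/
noncomputable def bG (ρ : G →* (W ≃ₗ[ℝ] W)) (b0 : (G × ι → SignType) → W)
    (s : G × ι → SignType) : W := ∑ a : G, ρ a⁻¹ (b0 (actP G ι a s))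

theorem bG_act (ρ : G →* (W ≃ₗ[ℝ] W)) (b0 : (G × ι → SignType) → W) (c : G)
    (s : G × ι → SignType) : bG ρ b0 (actP G ι c s) = ρ c (bG ρ b0 s) := by
  unfold bG
  rw [map_sum]
  refine Fintype.sum_equiv (Equiv.mulRight c) _ _ fun a => ?_
  rw [Equiv.coe_mulRight, rho_mul_apply, mul_inv_rev, mul_inv_cancel_left, map_mul]
  rfl

theorem sign_sum {κ : Type*} (S : Finset κ) (hS : S.Nonempty) (f : κ → ℝ) (σ : SignType)
    (h : ∀ i ∈ S, SignType.sign (f i) = σ) : SignType.sign (∑ i ∈ S, f i) = σ := by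
  rcases lt_trichotomy σ 0 with h1 | h1 | h1
  · have h2 : σ = -1 := by cases σ <;> simp_all
    rw [h2, sign_eq_neg_one_iff]
    exact Finset.sum_neg (fun i hi => by rw [← sign_eq_neg_one_iff, h i hi, h2]) hS
  · rw [h1, sign_eq_zero_iff]
    exact Finset.sum_eq_zero fun i hi => by rw [← sign_eq_zero_iff, h i hi, h1]
  · have h2 : σ = 1 := by cases σ <;> simp_all
    rw [h2, sign_eq_one_iff]
    exact Finset.sum_pos (fun i hi => by rw [← sign_eq_one_iff, h i hi, h2]) hS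

theorem isB_bG (ρ : G →* (W ≃ₗ[ℝ] W)) {L : ι → W →ₗ[ℝ] ℝ} {b0 : (G × ι → SignType) → W}
    (hb : IsB (LG ρ L) b0) : IsB (LG ρ L) (bG ρ b0) := by
  intro y
  have hterm : ∀ a : G, sg (LG ρ L) (ρ a⁻¹ (b0 (actP G ι a (sg (LG ρ L) y)))) =
      sg (LG ρ L) y := by
    intro a
    rw [sg_LG, ← sg_LG ρ L a y, hb (ρ a y), ← sg_LG, rho_inv_apply]
  funext p
  show SignType.sign (LG ρ L p (∑ a : G, ρ a⁻¹ (b0 (actP G ι a (sg (LG ρ L) y))))) = _
  rw [map_sum]
  exact sign_sum Finset.univ Finset.univ_nonempty _ _ fun a _ => congrFun (hterm a) p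

omit [Fintype G] in
theorem ql_act (ρ : G →* (W ≃ₗ[ℝ] W)) {L : ι → W →ₗ[ℝ] ℝ} [DecidableEq (G × ι → SignType)] (a : G)
    {σ : Finset (G × ι → SignType)} (hσ : σ ∈ QL (LG ρ L)) :
    σ.image (actP G ι a) ∈ QL (LG ρ L) := by
  refine ⟨fun s hs => ?_, fun s hs t ht => ?_⟩
  · obtain ⟨u, hu, rfl⟩ := Finset.mem_image.1 hs
    obtain ⟨h1, y, hy⟩ := hσ.1 u hu
    refine ⟨fun h => h1 ?_, ρ a y, by rw [sg_LG, hy]⟩
    funext p
    have := congrFun h (a * p.1, p.2)
    rw [actP_apply, inv_mul_cancel_left] at this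
    exact this
  · obtain ⟨u, hu, rfl⟩ := Finset.mem_image.1 hs
    obtain ⟨v, hv, rfl⟩ := Finset.mem_image.1 ht
    rcases hσ.2 u hu v hv with h | h
    · exact Or.inl fun p => h _
    · exact Or.inr fun p => h _

end equivariant

end GP

open GP

/-- G8: an invariant good cone gives a polytope on which the group acts. -/
theorem polytope_of_good {W : Type*} [AddCommGroup W] [Module ℝ W] [FiniteDimensional ℝ W]
    {d : ℕ} (hd : Module.finrank ℝ W = d + 1)
    {G : Type} [Group G] [Finite G] (ρ : G →* (W ≃ₗ[ℝ] W)) (C : Set W)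
    (hC : ∀ a : G, ∀ y ∈ C, ρ a y ∈ C) (hn : Good C)
    (hf : ∀ a : G, a ≠ 1 → ∃ y ∈ C, ρ a y ≠ y ∧ ∃ w, ∀ r : ℝ, ρ a w - w ≠ r • (ρ a y - y)) :
    ∃ P : Set (EuclideanSpace ℝ (Fin d)), IsPolytope P ∧
      ∃ φ : G →* CombAut P, Function.Injective φ := by
  classical
  have := Fintype.ofFinite G
  have h0C : (0 : W) ∈ C := by
    obtain ⟨n, Q, h, k, f, H, h0, hA, -⟩ := hn
    rw [hA]
    intro x _
    rw [H.hk.map_zero]
    rfl
  obtain ⟨M, hM⟩ := exists_cpt hn
  obtain ⟨M2, hM2⟩ := exists_sep (V := W)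
  set M' : Finset (W →ₗ[ℝ] ℝ) := M ∪ M2 with hM'
  set L0 : M' → W →ₗ[ℝ] ℝ := fun m => (m : W →ₗ[ℝ] ℝ) with hL0
  have hcpt0 : Cpt L0 C := hM M' Finset.subset_union_left
  have hsep0 : Sep L0 := hM2 M' Finset.subset_union_right
  set L : G × M' → W →ₗ[ℝ] ℝ := LG ρ L0 with hL
  have hcpt : Cpt L C := cpt_LG ρ hcpt0
  have hsep : Sep L := sep_LG ρ hsep0
  obtain ⟨b0, hb0⟩ := exists_isB L
  set b := bG ρ b0 with hb
  have hB : IsB L b := isB_bG ρ hb0
  have hco := (good_iff_arr L hsep b hB C h0C hcpt).1 hn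
  obtain ⟨k, hk⟩ := arr_fan L hsep b hB
  have hCiff : ∀ (a : G) y, ρ a y ∈ C ↔ y ∈ C := by
    intro a y
    refine ⟨fun h => ?_, hC a y⟩
    have := hC a⁻¹ _ h
    rwa [rho_inv_apply] at this
  have hfinv : ∀ (a : G) (s : G × M' → SignType),
      pm {s | b s ∈ C} (actP G M' a s) = pm {s | b s ∈ C} s := by
    intro a s
    have h1 : (actP G M' a s ∈ {s | b s ∈ C}) ↔ s ∈ {s | b s ∈ C} := by
      show b (actP G M' a s) ∈ C ↔ b s ∈ C
      rw [hb, bG_act, hCiff]
    unfold pm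
    simp only [h1]
  refine polytope_of_coordV hd (actP G M') (fun a σ hσ => ql_act ρ a hσ) hfinv hco ?_
  intro a ha
  obtain ⟨y, hyC, hay, w, hw⟩ := hf a ha
  by_contra hcon
  push Not at hcon
  -- the neighbourhood function
  set F : W → ℝ := fun z => FF (pm {s | b s ∈ C}) (k z) with hFdef
  have hFPL : IsPL F := (IsPL.lin (FF (pm {s | b s ∈ C}))).comp hk.hk
  -- points of the hypersurface are fixed
  have hlin : ∀ t : (G × M' → SignType) → ℝ,
      linP b (permRep (actP G M') a t) = ρ a (linP b t) := by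
    intro t
    rw [linP_apply, linP_apply, map_sum]
    refine Fintype.sum_equiv (actP G M' a⁻¹) _ _ fun s => ?_
    rw [permRep_apply, map_smul]
    congr 1
    rw [hb, bG_act, rho_apply_inv]
  have hfix : ∀ z, F z = 0 → ρ a z = z := by
    intro z hz
    have h1 := hcon (k z) (hk.mem z) hz
    have h2 := hlin (k z)
    rw [h1] at h2
    have h3 : linP b (k z) = z := hk.hk' z
    rw [h3] at h2
    exact h2.symm
  have hy0 : y ≠ 0 := by
    rintro rfl
    exact hay (map_zero _)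
  have hFy : F y < 0 := by
    obtain ⟨h1, h2⟩ := arr_top hB hk hy0
    have h3 : ∀ s, k y s ≠ 0 → pm {s | b s ∈ C} s = -1 := by
      intro s hs
      obtain ⟨h4, z, hz⟩ := h2 s hs
      have : b s ∈ C := by
        refine hcpt y (b s) hyC ?_
        rw [← hz, hB z, hz]
        exact h4
      unfold pm
      exact if_pos this
    have h5 : F y = -∑ s, k y s := by
      show FF _ (k y) = _
      rw [FF_apply, ← Finset.sum_neg_distrib]
      refine Finset.sum_congr rfl fun s _ => ?_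
      by_cases hs : k y s = 0
      · rw [hs, mul_zero, neg_zero]
      · rw [h3 s hs, neg_one_mul]
    rw [h5, neg_lt_zero]
    exact Finset.sum_pos' (fun s _ => (hk.mem y).1 s) ⟨_, Finset.mem_univ _, h1⟩
  obtain ⟨w0, hw0⟩ : ∃ w0, 0 < F w0 := by
    obtain ⟨h', k', l, H', l0, hl⟩ := hco
    obtain ⟨v, hv⟩ : ∃ v, l v ≠ 0 := by
      by_contra hcon
      push Not at hcon
      exact l0 (LinearMap.ext hcon)
    have hpos : ∃ v, 0 < l v := by
      rcases lt_or_gt_of_ne hv with h1 | h1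
      · exact ⟨-v, by rw [map_neg]; linarith⟩
      · exact ⟨v, h1⟩
    obtain ⟨v, hv⟩ := hpos
    refine ⟨linP b (k' v), ?_⟩
    show 0 < FF _ (k (linP b (k' v)))
    have h1 : k (linP b (k' v)) = k' v := hk.kh _ (H'.mem v)
    rw [h1, hl _ (H'.mem v), H'.hk']
    exact hv
  -- displacements are parallel
  have hpar : ∀ z, 0 < F z → ∃ r : ℝ, ρ a z - z = r • (ρ a y - y) := by
    intro z hz
    have hc : Continuous fun s : ℝ => F (y + s • (z - y)) := line_cont hFPL y (z - y)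
    have h1 : F (y + (0 : ℝ) • (z - y)) < 0 := by rw [zero_smul, add_zero]; exact hFy
    have h2 : 0 < F (y + (1 : ℝ) • (z - y)) := by
      rw [one_smul, add_sub_cancel]; exact hz
    obtain ⟨s, hs, hs0⟩ := intermediate_value_Icc (zero_le_one' ℝ) hc.continuousOn ⟨h1.le, h2.le⟩
    have hsne : s ≠ 0 := by
      rintro rfl
      exact h1.ne hs0
    have h3 := hfix _ hs0
    rw [map_add, map_smul, map_sub] at h3
    refine ⟨(s - 1) / s, ?_⟩
    have h4 : s • (ρ a z - z) = (s - 1) • (ρ a y - y) := by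
      have h5 : ρ a y + s • (ρ a z - ρ a y) - (y + s • (z - y)) = 0 := by
        rw [h3, sub_self]
      have h6 : s • (ρ a z - z) - (s - 1) • (ρ a y - y) =
          ρ a y + s • (ρ a z - ρ a y) - (y + s • (z - y)) := by
        simp only [smul_sub, sub_smul, one_smul]
        abel
      rw [← sub_eq_zero, h6, h5]
    rw [div_eq_inv_mul, mul_smul, ← h4, smul_smul, inv_mul_cancel₀ hsne, one_smul]
  -- contradiction
  have hc : Continuous fun s : ℝ => F (w0 + s • w) := line_cont hFPL w0 w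
  have h1 : 0 < F (w0 + (0 : ℝ) • w) := by rw [zero_smul, add_zero]; exact hw0
  have h2 : ∀ᶠ s : ℝ in nhds 0, 0 < F (w0 + s • w) :=
    (hc.tendsto 0).eventually (lt_mem_nhds h1)
  obtain ⟨s, hs, hs0⟩ := ((h2.filter_mono nhdsWithin_le_nhds).and
    (self_mem_nhdsWithin (a := (0 : ℝ)) (s := Set.Ioi 0))).exists
  have hs0' : (0 : ℝ) < s := hs0
  obtain ⟨r1, hr1⟩ := hpar w0 hw0
  obtain ⟨r2, hr2⟩ := hpar _ hs
  refine hw ((r2 - r1) / s) ?_
  have h4 : s • (ρ a w - w) = (r2 - r1) • (ρ a y - y) := by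
    rw [sub_smul, ← hr1, ← hr2, map_add, map_smul]
    simp only [smul_sub]
    abel
  rw [div_eq_inv_mul, mul_smul, ← h4, smul_smul, inv_mul_cancel₀ hs0'.ne', one_smul]

end Pool.Agent.DF302A
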