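import Pool.Agent.Work.MP_df302a_co.G6
import Pool.Agent.Work.MP_df302a_co.I0

/-! # MP_df302a_co : good cones and the moves of part (I) -/

set_option autoImplicit false

namespace Pool.Agent.DF302A

open Finset

section

variable {W : Type*} [AddCommGroup W] [Module ℝ W] [FiniteDimensional ℝ W]

/-- the union of two simplices of an admissible complex has at most nine vertices -/
theorem adm_card {V : Type*} [DecidableEq V] {K : Set (Finset V)} (h : PI.Adm K) {σ τ : Finset V}
    (hσ : σ ∈ K) (hτ : τ ∈ K) : (σ ∪ τ).card ≤ 9 := by
  obtain ⟨-, -, h5, v, hv⟩ := h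
  have h1 := h5 σ hσ
  have h2 := h5 τ hτ
  have h3 := Finset.card_union_add_card_inter σ τ
  by_cases h4 : σ.card = 5 ∧ τ.card = 5
  · have h6 : 0 < (σ ∩ τ).card :=
      Finset.card_pos.2 ⟨v, Finset.mem_inter.2 ⟨hv σ hσ h4.1, hv τ hτ h4.2⟩⟩
    omega
  · rcases not_and_or.1 h4 with h | h
    · omega
    · omega

/-- for positions in which nine vertices are always independent, good cones are invariant under
the moves -/
theorem good_of_sim {V : Type*} [DecidableEq V] {q : V → W}
    (hq : ∀ c : Finset V, c.card ≤ 9 → Ind q c) {K K' : Set (Finset V)} (h : PI.Sim K K') :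
    Good (cK q K) ↔ Good (cK q K') := by
  induction h with
  | @exp K K' F x h a =>
    have hE : (insert x F).erase x = F := Finset.erase_insert h.hx
    have hFK' : insert x F ∈ K' := by
      rw [h.eq]
      exact Set.mem_insert_of_mem _ (Set.mem_insert _ _)
    have hsub : K ⊆ K' := by
      rw [h.eq]
      exact fun σ hσ => Set.mem_insert_of_mem _ (Set.mem_insert_of_mem _ hσ)
    have key := good_expand q K h.cx (a.2.1.subset hsub) (insert x F) x
      (Finset.mem_insert_self x F) (by
        rw [Finset.card_insert_of_notMem h.hx]
        have := Finset.card_pos.2 h.ne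
        omega) (by rw [hE]; exact h.hF) (by
        intro y hy hyx
        rw [Finset.mem_insert] at hy
        have hyF := hy.resolve_left hyx
        rw [Finset.erase_insert_of_ne hyx.symm]
        exact h.hy y hyF) (fun τ hτ => hq _ (adm_card a (hsub hτ) hFK'))
    rw [hE] at key
    rw [h.eq]
    exact key
  | refl K => exact Iff.rfl
  | symm h ih => exact ih.symm
  | trans h h' ih ih' => exact ih.trans ih'

end

end Pool.Agent.DF302A
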