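import Pool.Agent.Work.MP_df302a_co.Gauge3

/-! # MP_df302a_co : construction of the gauge. -/

namespace Pool.Agent.DF302A

open Filter Topology

namespace Gauge

section Abs

theorem abs_split {u v ε : ℝ} (h : Le1 u v) (hle : ε * |u| ≤ |v|) :
    |v| = |v - ε * u| + ε * |u| := by
  rcases h with h | h
  · rw [h]; simp
  · rcases lt_or_gt_of_ne (show u ≠ 0 by rintro rfl; simp at h) with hu | hu
    · have hv : v < 0 := by
        by_contra hh
        push Not at hh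
        nlinarith
      rw [abs_of_neg hu, abs_of_neg hv] at *
      rw [abs_of_nonpos (by linarith)]
      ring
    · have hv : 0 < v := by
        by_contra hh
        push Not at hh
        nlinarith
      rw [abs_of_pos hu, abs_of_pos hv] at *
      rw [abs_of_nonneg (by linarith)]
      ring

theorem mul_nonneg_of_abs {u v : ℝ} (h : |u| + |v| ≤ |u + v|) : 0 ≤ u * v := by
  by_contra hh
  push Not at hh
  have h1 : (|u| + |v|) ^ 2 ≤ |u + v| ^ 2 := pow_le_pow_left₀ (by positivity) h 2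
  rw [sq_abs] at h1
  have h2 : |u| ^ 2 = u ^ 2 := sq_abs u
  have h3 : |v| ^ 2 = v ^ 2 := sq_abs v
  have h4 : 0 ≤ |u| * |v| := by positivity
  nlinarith

theorem eps_eventually {ι : Type*} (S : Finset ι) (u v : ι → ℝ) (h : ∀ i ∈ S, Le1 (u i) (v i)) :
    ∀ᶠ ε in 𝓝[>] (0 : ℝ), ∀ i ∈ S, ε * |u i| ≤ |v i| := by
  rw [Filter.eventually_all_finset]
  intro i hi
  rcases h i hi with h0 | h0
  · filter_upwards with ε
    rw [h0]; simp
  · have hv : v i ≠ 0 := by intro h1; rw [h1] at h0; simp at h0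
    have hc : Tendsto (fun ε : ℝ => |v i| - ε * |u i|) (𝓝[>] 0) (𝓝 (|v i| - 0 * |u i|)) := by
      apply Tendsto.mono_left _ nhdsWithin_le_nhds
      exact (Continuous.tendsto (by fun_prop) 0)
    have hpos : 0 < |v i| - 0 * |u i| := by simpa using hv
    filter_upwards [hc.eventually (lt_mem_nhds hpos)] with t ht
    linarith

end Abs

section Defect

variable {V : Type*} [AddCommGroup V] [Module ℝ V]

/-- defect of additivity of a sum of absolute values -/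
noncomputable def df (M : Finset (V →ₗ[ℝ] ℝ)) (y₁ y₂ : V) : ℝ :=
  ∑ μ ∈ M, (|μ y₁| + |μ y₂| - |μ (y₁ + y₂)|)

theorem df_term (μ : V →ₗ[ℝ] ℝ) (y₁ y₂ : V) : 0 ≤ |μ y₁| + |μ y₂| - |μ (y₁ + y₂)| := by
  rw [map_add]
  linarith [abs_add_le (μ y₁) (μ y₂)]

theorem df_nonneg (M : Finset (V →ₗ[ℝ] ℝ)) (y₁ y₂ : V) : 0 ≤ df M y₁ y₂ :=
  Finset.sum_nonneg fun μ _ => df_term μ y₁ y₂

theorem sup_defect (A : Finset (V →ₗ[ℝ] ℝ)) (hA : A.Nonempty) (M : Finset (V →ₗ[ℝ] ℝ))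
    (hM : ∀ a ∈ A, ∀ a' ∈ A, a - a' ∈ M) (y₁ y₂ : V) :
    0 ≤ A.sup' hA (fun a => a y₁) + A.sup' hA (fun a => a y₂) -
      A.sup' hA (fun a => a (y₁ + y₂)) ∧
    A.sup' hA (fun a => a y₁) + A.sup' hA (fun a => a y₂) -
      A.sup' hA (fun a => a (y₁ + y₂)) ≤ df M y₁ y₂ := by
  obtain ⟨a₁, ha₁, h₁⟩ := A.exists_mem_eq_sup' hA (fun a => a y₁)
  obtain ⟨a₂, ha₂, h₂⟩ := A.exists_mem_eq_sup' hA (fun a => a y₂)
  obtain ⟨a₀, ha₀, h₀⟩ := A.exists_mem_eq_sup' hA (fun a => a (y₁ + y₂))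
  have e1 := Finset.le_sup' (fun a : V →ₗ[ℝ] ℝ => a y₁) ha₀
  have e2 := Finset.le_sup' (fun a : V →ₗ[ℝ] ℝ => a y₂) ha₀
  have e3 := Finset.le_sup' (fun a : V →ₗ[ℝ] ℝ => a (y₁ + y₂)) ha₁
  have e4 := Finset.le_sup' (fun a : V →ₗ[ℝ] ℝ => a (y₁ + y₂)) ha₂
  have e5 := Finset.le_sup' (fun a : V →ₗ[ℝ] ℝ => a y₁) ha₂
  have e6 := Finset.le_sup' (fun a : V →ₗ[ℝ] ℝ => a y₂) ha₁
  constructor
  · rw [h₀, map_add]
    linarith
  · have hterm : (|(a₁ - a₂) y₁| + |(a₁ - a₂) y₂| - |(a₁ - a₂) (y₁ + y₂)|) ≤ df M y₁ y₂ :=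
      Finset.single_le_sum (f := fun μ : V →ₗ[ℝ] ℝ => |μ y₁| + |μ y₂| - |μ (y₁ + y₂)|)
        (fun μ _ => df_term μ y₁ y₂) (hM a₁ ha₁ a₂ ha₂)
    refine le_trans ?_ hterm
    rw [h₁, h₂]
    rw [h₁] at e5
    rw [h₂] at e6
    rw [map_add] at e3 e4
    rw [LinearMap.sub_apply, LinearMap.sub_apply, map_add (a₁ - a₂), LinearMap.sub_apply,
      LinearMap.sub_apply]
    rw [abs_of_nonneg (show 0 ≤ a₁ y₁ - a₂ y₁ by linarith),
      abs_of_nonpos (show a₁ y₂ - a₂ y₂ ≤ 0 by linarith)]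
    rcases abs_cases (a₁ y₁ - a₂ y₁ + (a₁ y₂ - a₂ y₂)) with ⟨h, _⟩ | ⟨h, _⟩ <;> rw [h] <;> linarith

/-- differences of elements of a finite set -/
noncomputable def dif (A B : Finset (V →ₗ[ℝ] ℝ)) : Finset (V →ₗ[ℝ] ℝ) := by
  classical
  exact (A ×ˢ B).image (fun p => p.1 - p.2)

theorem mem_dif {A B : Finset (V →ₗ[ℝ] ℝ)} {a b : V →ₗ[ℝ] ℝ} (ha : a ∈ A) (hb : b ∈ B) :
    a - b ∈ dif A B := by
  classical
  exact Finset.mem_image.2 ⟨(a, b), Finset.mem_product.2 ⟨ha, hb⟩, rfl⟩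

theorem pl_defect {f : V → ℝ} (hf : IsPL f) : ∃ M : Finset (V →ₗ[ℝ] ℝ), ∀ M', M ⊆ M' →
    ∀ y₁ y₂, |f y₁ + f y₂ - f (y₁ + y₂)| ≤ df M' y₁ y₂ := by
  classical
  obtain ⟨A, B, hA, hB, hf⟩ := hf
  refine ⟨dif A A ∪ dif B B, fun M' hM' y₁ y₂ => ?_⟩
  have h1 := sup_defect A hA M' (fun a ha a' ha' =>
    hM' (Finset.mem_union_left _ (mem_dif ha ha'))) y₁ y₂
  have h2 := sup_defect B hB M' (fun a ha a' ha' =>
    hM' (Finset.mem_union_right _ (mem_dif ha ha'))) y₁ y₂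
  rw [hf, hf, hf, abs_le]
  constructor <;> linarith [h1.1, h1.2, h2.1, h2.2]

/-- sign order of a piecewise linear function from finitely many functionals -/
theorem pl_sign {f : V → ℝ} (hf : IsPL f) : ∃ N : Finset (V →ₗ[ℝ] ℝ), ∀ z z₀,
    (∀ l ∈ N, Le1 (l z) (l z₀)) → Le1 (f z) (f z₀) := by
  classical
  obtain ⟨A, B, hA, hB, hf⟩ := hf
  refine ⟨dif A A ∪ (dif B B ∪ dif A B), fun z z₀ h => ?_⟩
  have key : ∀ (C : Finset (V →ₗ[ℝ] ℝ)) (hC : C.Nonempty),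
      (∀ a ∈ C, ∀ a' ∈ C, Le1 ((a - a') z) ((a - a') z₀)) →
      ∃ c ∈ C, C.sup' hC (fun l => l z) = c z ∧ C.sup' hC (fun l => l z₀) = c z₀ := by
    intro C hC hd
    obtain ⟨c, hc, h0⟩ := C.exists_mem_eq_sup' hC (fun l => l z₀)
    refine ⟨c, hc, le_antisymm (Finset.sup'_le _ _ fun a ha => ?_)
      (Finset.le_sup' (fun l : V →ₗ[ℝ] ℝ => l z) hc), h0⟩
    have h1 := Finset.le_sup' (fun l : V →ₗ[ℝ] ℝ => l z₀) ha
    rw [h0] at h1
    have h2 := hd a ha c hc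
    simp only [LinearMap.sub_apply] at h2
    rcases h2 with h2 | h2
    · linarith
    · by_contra hh
      push Not at hh
      nlinarith
  obtain ⟨a, ha, ha1, ha2⟩ := key A hA fun a ha a' ha' =>
    h _ (Finset.mem_union_left _ (mem_dif ha ha'))
  obtain ⟨b, hb, hb1, hb2⟩ := key B hB fun a ha a' ha' =>
    h _ (Finset.mem_union_right _ (Finset.mem_union_left _ (mem_dif ha ha')))
  have h3 := h _ (Finset.mem_union_right _ (Finset.mem_union_right _ (mem_dif ha hb)))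
  rw [hf, hf, ha1, ha2, hb1, hb2]
  exact h3

end Defect

section Sep

variable {V : Type*} [AddCommGroup V] [Module ℝ V]

theorem exists_one {z : V} (hz : z ≠ 0) : ∃ l : V →ₗ[ℝ] ℝ, l z = 1 := by
  by_contra hh
  push Not at hh
  apply hz
  rw [← Module.forall_dual_apply_eq_zero_iff ℝ z]
  intro l
  by_contra hl
  apply hh ((l z)⁻¹ • l)
  simp only [LinearMap.smul_apply, smul_eq_mul]
  exact inv_mul_cancel₀ hl

theorem sep_lin {G : Type} [Group G] [Finite G] (ρ : G →* (V ≃ₗ[ℝ] V)) (a : G) (z : V)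
    (h : ρ a z ≠ z) : ∃ l : V →ₗ[ℝ] ℝ, 0 < l z ∧ l (ρ a z) < 0 := by
  by_contra hh
  push Not at hh
  have hz : z ≠ 0 := by rintro rfl; exact h (map_zero _)
  obtain ⟨l₁, hl₁⟩ := exists_one hz
  have h0 : 0 ≤ l₁ (ρ a z) := hh l₁ (by rw [hl₁]; exact one_pos)
  have k1 : ∀ l : V →ₗ[ℝ] ℝ, l z = 0 → 0 ≤ l (ρ a z) := by
    intro l hl
    by_contra hneg
    push Not at hneg
    have h1 := hh (l₁ + ((l₁ (ρ a z) + 1) / (-l (ρ a z))) • l) (by
      simp only [LinearMap.add_apply, LinearMap.smul_apply, hl, hl₁, smul_zero, add_zero]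
      exact one_pos)
    simp only [LinearMap.add_apply, LinearMap.smul_apply, smul_eq_mul] at h1
    have h2 : (l₁ (ρ a z) + 1) / (-l (ρ a z)) * l (ρ a z) = -(l₁ (ρ a z) + 1) := by
      have : l (ρ a z) ≠ 0 := hneg.ne
      field_simp
    rw [h2] at h1
    linarith
  have k2 : ∀ l : V →ₗ[ℝ] ℝ, l z = 0 → l (ρ a z) = 0 := by
    intro l hl
    have h1 := k1 l hl
    have h2 := k1 (-l) (by simp [hl])
    simp only [LinearMap.neg_apply] at h2
    linarith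
  set c := l₁ (ρ a z) with hc
  have hcz : ρ a z = c • z := by
    rw [← sub_eq_zero, ← Module.forall_dual_apply_eq_zero_iff ℝ]
    intro l
    have h1 := k2 (l - (l z) • l₁) (by
      simp only [LinearMap.sub_apply, LinearMap.smul_apply, hl₁, smul_eq_mul, mul_one, sub_self])
    simp only [LinearMap.sub_apply, LinearMap.smul_apply, smul_eq_mul] at h1
    rw [map_sub, map_smul, smul_eq_mul, ← hc] at *
    linarith
  have hpow : ∀ k : ℕ, ρ (a ^ k) z = c ^ k • z := by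
    intro k
    induction k with
    | zero => simp
    | succ k ih =>
      rw [pow_succ, map_mul, LinearEquiv.mul_apply, hcz, map_smul, ih, smul_smul, pow_succ, mul_comm]
  have hn := hpow (Nat.card G)
  rw [pow_card_eq_one', map_one] at hn
  have hn' : c ^ (Nat.card G) = 1 := by
    have h1 : l₁ z = l₁ (c ^ (Nat.card G) • z) := by
      rw [← hn]; rfl
    rw [map_smul, hl₁, smul_eq_mul, mul_one] at h1
    exact h1.symm
  have hc1 : c = 1 := (pow_eq_one_iff_of_nonneg h0 (Nat.card_pos.ne')).1 hn'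
  exact h (by rw [hcz, hc1, one_smul])

end Sep

end Gauge

end Pool.Agent.DF302A
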