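import Pool.Agent.Work.MP_df302a_co.Arr
import Pool.Agent.Work.MP_df302a_co.Gauge4

/-!
# MP_df302a_co : neighbourhood functions and their uniqueness
-/

set_option linter.unusedSectionVars false
set_option linter.unusedVariables false

namespace Pool.Agent.DF302A

open Finset Filter

/-- inverse piecewise linear homeomorphisms -/
structure IsHomeo {V W : Type*} [AddCommGroup V] [Module ℝ V] [AddCommGroup W] [Module ℝ W]
    (a : V → W) (b : W → V) : Prop where
  ha : PLMap a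
  hb : PLMap b
  ba : ∀ y, b (a y) = y
  ab : ∀ y, a (b y) = y

section
variable {V W U : Type*} [AddCommGroup V] [Module ℝ V] [AddCommGroup W] [Module ℝ W]
  [AddCommGroup U] [Module ℝ U]

theorem IsHomeo.symm {a : V → W} {b : W → V} (h : IsHomeo a b) : IsHomeo b a :=
  ⟨h.hb, h.ha, h.ab, h.ba⟩

theorem IsHomeo.comp {a : V → W} {b : W → V} (h : IsHomeo a b) {c : W → U} {d : U → W}
    (h' : IsHomeo c d) : IsHomeo (fun y => c (a y)) fun y => b (d y) :=
  ⟨h'.ha.comp h.ha, h.hb.comp h'.hb, fun y => by rw [h'.ba, h.ba], fun y => by rw [h.ab, h'.ab]⟩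

theorem IsHomeo.refl : IsHomeo (fun y : V => y) fun y => y :=
  ⟨PLMap.id, PLMap.id, fun _ => rfl, fun _ => rfl⟩

theorem IsHomeo.lin (e : V ≃ₗ[ℝ] W) : IsHomeo (fun y => e y) fun y => e.symm y :=
  ⟨PLMap.lin e.toLinearMap, PLMap.lin e.symm.toLinearMap, fun _ => e.symm_apply_apply _,
    fun _ => e.apply_symm_apply _⟩

/-- `F` becomes a nonzero linear functional in suitable piecewise linear coordinates -/
def LinF (F : V → ℝ) : Prop :=
  ∃ (a b : V → V) (l : V →ₗ[ℝ] ℝ), IsHomeo a b ∧ l ≠ 0 ∧ ∀ y, F y = l (a y)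

theorem LinF.comp {F : V → ℝ} (h : LinF F) {a b : V → V} (hab : IsHomeo a b) :
    LinF fun y => F (a y) := by
  obtain ⟨c, d, l, hcd, h0, h1⟩ := h
  exact ⟨_, _, l, hab.comp hcd, h0, fun y => h1 _⟩

theorem LinF.congr {F F' : V → ℝ} (h : LinF F) (e : ∀ y, F y = F' y) : LinF F' := by
  obtain ⟨c, d, l, hcd, h0, h1⟩ := h
  exact ⟨c, d, l, hcd, h0, fun y => by rw [← e, h1]⟩

theorem LinF.trans {F : V → ℝ} (h : LinF F) {a : V → W} {b : W → V} (hab : IsHomeo a b)
    (e : V ≃ₗ[ℝ] W) : LinF fun w => F (b w) := by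
  obtain ⟨c, d, l, hcd, h0, h1⟩ := h
  refine ⟨_, _, l ∘ₗ e.symm.toLinearMap, hab.symm.comp (hcd.comp (IsHomeo.lin e)), ?_, fun y => ?_⟩
  · intro h2
    apply h0
    ext v
    have := congrArg (fun g : W →ₗ[ℝ] ℝ => g (e v)) h2
    simpa using this
  · simp [h1]

end

section
variable {X : Type*} [Fintype X] [DecidableEq X]
variable {V : Type*} [AddCommGroup V] [Module ℝ V]

theorem IsSph.h_zero {Q : Set (Finset X)} {h : (X → ℝ) → V} {k : V → X → ℝ}
    (H : IsSph Q h k) : h 0 = 0 := H.hh.map_zero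

theorem FF_mul (c f : X → ℝ) (t : X → ℝ) : FF f (mulL c t) = FF (fun x => c x * f x) t := by
  rw [FF_apply, FF_apply]
  refine Finset.sum_congr rfl fun x _ => ?_
  show f x * (c x * t x) = c x * f x * t x
  ring

/-- change of the absolute values of `f` -/
theorem LinF.scale {Q : Set (Finset X)} {h : (X → ℝ) → V} {k : V → X → ℝ}
    (H : IsSph Q h k) {f : X → ℝ} (hl : LinF fun y => FF f (k y)) {c : X → ℝ}
    (hc : ∀ x, 0 < c x) : LinF fun y => FF (fun x => c x * f x) (k y) := by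
  have hc' : ∀ x, 0 < (c x)⁻¹ := fun x => inv_pos.2 (hc x)
  have h1 : IsHomeo (fun y => h (mulL c (k y))) fun y => h (mulL (fun x => (c x)⁻¹) (k y)) := by
    refine ⟨H.hh.comp ((PLMap.lin _).comp H.hk), H.hh.comp ((PLMap.lin _).comp H.hk),
      fun y => ?_, fun y => ?_⟩
    · rw [H.kh _ (mulL_mem hc (H.mem y)), (mulL_inv hc _).2, H.hk']
    · rw [H.kh _ (mulL_mem hc' (H.mem y)), (mulL_inv hc _).1, H.hk']
  refine (hl.comp h1).congr fun y => ?_
  rw [H.kh _ (mulL_mem hc (H.mem y)), FF_mul]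

theorem LinF.congr_sign {Q : Set (Finset X)} {h : (X → ℝ) → V} {k : V → X → ℝ}
    (H : IsSph Q h k) {f g : X → ℝ} (hl : LinF fun y => FF f (k y))
    (hfg : ∀ x, (0 < f x ∧ 0 < g x) ∨ (f x < 0 ∧ g x < 0)) : LinF fun y => FF g (k y) := by
  have hc : ∀ x, 0 < g x / f x := fun x => by
    rcases hfg x with ⟨a, b⟩ | ⟨a, b⟩
    · exact div_pos b a
    · exact div_pos_of_neg_of_neg b a
  refine (hl.scale H hc).congr fun y => ?_
  congr 2
  funext x
  rcases hfg x with ⟨a, b⟩ | ⟨a, b⟩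
  · rw [div_mul_cancel₀ _ a.ne']
  · rw [div_mul_cancel₀ _ a.ne]

/-- positive values multiplied by `N` -/
noncomputable def fN (f : X → ℝ) (N : ℝ) : X → ℝ := fun x => if 0 < f x then N * f x else f x

theorem fN_sign {f : X → ℝ} (hf : ∀ x, f x ≠ 0) {N : ℝ} (hN : 0 < N) (x : X) :
    (0 < f x ∧ 0 < fN f N x) ∨ (f x < 0 ∧ fN f N x < 0) := by
  unfold fN
  rcases lt_or_gt_of_ne (hf x) with h | h
  · right
    rw [if_neg (not_lt.2 h.le)]
    exact ⟨h, h⟩
  · left
    rw [if_pos h]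
    exact ⟨h, mul_pos hN h⟩

theorem fN_pos {f : X → ℝ} (hf : ∀ x, f x ≠ 0) {t : X → ℝ} (ht : ∀ x, 0 ≤ t x)
    (hx : ∃ x, 0 < f x ∧ t x ≠ 0) : ∀ᶠ N : ℝ in atTop, 0 < FF (fN f N) t := by
  obtain ⟨x0, h0, h1⟩ := hx
  set P := ∑ x, (if 0 < f x then f x * t x else 0) with hP
  set M := ∑ x, (if 0 < f x then 0 else f x * t x) with hM
  have hPpos : 0 < P := by
    refine Finset.sum_pos' (fun x _ => ?_) ⟨x0, Finset.mem_univ _, ?_⟩
    · split_ifs with h
      · exact mul_nonneg h.le (ht x)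
      · exact le_rfl
    · rw [if_pos h0]
      exact mul_pos h0 (lt_of_le_of_ne (ht x0) (Ne.symm h1))
  have h2 : ∀ N : ℝ, FF (fN f N) t = N * P + M := by
    intro N
    rw [FF_apply, hP, hM, Finset.mul_sum, ← Finset.sum_add_distrib]
    refine Finset.sum_congr rfl fun x _ => ?_
    unfold fN
    split_ifs with h
    · ring
    · ring
  filter_upwards [eventually_gt_atTop (-M / P)] with N hN
  rw [h2]
  rw [div_lt_iff₀ hPpos] at hN
  linarith

theorem fN_neg {f : X → ℝ} (hf : ∀ x, f x ≠ 0) {t : X → ℝ} (ht : ∀ x, 0 ≤ t x) (h0 : t ≠ 0)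
    (hx : ∀ x, 0 < f x → t x = 0) (N : ℝ) : FF (fN f N) t < 0 := by
  obtain ⟨x0, h1⟩ : ∃ x, t x ≠ 0 := by
    by_contra hc
    push Not at hc
    exact h0 (funext hc)
  rw [FF_apply]
  refine Finset.sum_neg' (fun x _ => ?_) ⟨x0, Finset.mem_univ _, ?_⟩
  · by_cases h : 0 < f x
    · rw [hx x h, mul_zero]
    · unfold fN
      rw [if_neg h]
      exact mul_nonpos_of_nonpos_of_nonneg (not_lt.1 h) (ht x)
  · have h : ¬ 0 < f x0 := fun h => h1 (hx x0 h)
    unfold fN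
    rw [if_neg h]
    exact mul_neg_of_neg_of_pos (lt_of_le_of_ne (not_lt.1 h) (hf x0))
      (lt_of_le_of_ne (ht x0) (Ne.symm h1))

end

section
variable {V : Type*} [AddCommGroup V] [Module ℝ V]

/-- adapted families -/
theorem exists_adapt {f : V → ℝ} (hf : IsPL f) : ∃ M : Finset (V →ₗ[ℝ] ℝ), ∀ M', M ⊆ M' →
    Arr.Adapt (fun m : M' => (m : V →ₗ[ℝ] ℝ)) f := by
  obtain ⟨M, hM⟩ := Gauge.pl_defect hf
  refine ⟨M, fun M' hM' => ⟨fun y z h => ?_, fun y c hc => hf.hom hc y⟩⟩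
  have h1 := hM M' hM' y z
  have h2 : Gauge.df M' y z = 0 := by
    refine Finset.sum_eq_zero fun m hm => ?_
    have h3 : 0 ≤ m y * m z := h ⟨m, hm⟩
    rw [map_add]
    rcases mul_nonneg_iff.1 h3 with ⟨a, b⟩ | ⟨a, b⟩
    · rw [abs_of_nonneg a, abs_of_nonneg b, abs_of_nonneg (add_nonneg a b)]; ring
    · rw [abs_of_nonpos a, abs_of_nonpos b, abs_of_nonpos (add_nonpos a b)]; ring
  rw [h2] at h1
  have h4 := abs_nonpos_iff.1 h1
  linarith

theorem Arr.Adapt.FF {X : Type*} [Fintype X] [DecidableEq X] {I : Type*} [Fintype I]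
    {lam : I → V →ₗ[ℝ] ℝ} {k : V → X → ℝ} (hk : ∀ x, Arr.Adapt lam fun y => k y x) (f : X → ℝ) :
    Arr.Adapt lam fun y => FF f (k y) := by
  refine ⟨fun y z h => ?_, fun y c hc => ?_⟩
  · rw [FF_apply, FF_apply, FF_apply, ← Finset.sum_add_distrib]
    refine Finset.sum_congr rfl fun x _ => ?_
    rw [(hk x).add y z h, mul_add]
  · rw [FF_apply, FF_apply, Finset.mul_sum]
    refine Finset.sum_congr rfl fun x _ => ?_
    rw [(hk x).hom y c hc]
    ring

theorem exists_adapt_family {X : Type*} [Fintype X] {k : V → X → ℝ} (hk : PLMap k) :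
    ∃ M : Finset (V →ₗ[ℝ] ℝ), ∀ M', M ⊆ M' → ∀ x,
      Arr.Adapt (fun m : M' => (m : V →ₗ[ℝ] ℝ)) fun y => k y x := by
  classical
  have h : ∀ x, ∃ M : Finset (V →ₗ[ℝ] ℝ), ∀ M', M ⊆ M' →
      Arr.Adapt (fun m : M' => (m : V →ₗ[ℝ] ℝ)) fun y => k y x := fun x =>
    exists_adapt (hk.apply x)
  choose M hM using h
  exact ⟨Finset.univ.biUnion M, fun M' h x => hM x M' ((Finset.subset_biUnion_of_mem M
    (Finset.mem_univ x)).trans h)⟩

/-- a finite separating set of functionals -/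
theorem exists_sep [FiniteDimensional ℝ V] : ∃ M : Finset (V →ₗ[ℝ] ℝ), ∀ M', M ⊆ M' →
    ∀ y : V, (∀ m : M', (m : V →ₗ[ℝ] ℝ) y = 0) → y = 0 := by
  classical
  set e := Module.finBasis ℝ V
  refine ⟨Finset.univ.image fun i => e.coord i, fun M' hM' y h => ?_⟩
  rw [← e.forall_coord_eq_zero_iff]
  intro i
  exact h ⟨e.coord i, hM' (Finset.mem_image_of_mem _ (Finset.mem_univ i))⟩

/-- sign of a function adapted to an arrangement -/
theorem LinF.of_adapt {I : Type*} [Fintype I] [DecidableEq I] {lam : I → V →ₗ[ℝ] ℝ}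
    (hsep : ∀ y, (∀ i, lam i y = 0) → y = 0) {b : (I → SignType) → V}
    (hb : ∀ c ∈ Arr.Cell lam, Arr.sg lam (b c) = c) {F F' : V → ℝ} (hF : Arr.Adapt lam F)
    (hF' : Arr.Adapt lam F')
    (hs : ∀ c ∈ Arr.Cell lam, (0 < F (b c) ∧ 0 < F' (b c)) ∨ (F (b c) < 0 ∧ F' (b c) < 0))
    (hl : LinF F) : LinF F' := by
  classical
  obtain ⟨k, hk⟩ := Arr.isSph hsep hb
  have key : ∀ G : V → ℝ, Arr.Adapt lam G →
      ∀ y, G y = FF (fun c => if c ∈ Arr.Cell lam then G (b c) else 1) (k y) := by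
    intro G hG y
    have h1 := hG.BB_eq hb (hk.mem y)
    have h2 : BB b (k y) = y := hk.hk' y
    rw [h2] at h1
    rw [h1, FF_apply]
    refine Finset.sum_congr rfl fun c _ => ?_
    by_cases hc : c ∈ Arr.Cell lam
    · rw [if_pos hc, mul_comm]
    · obtain ⟨-, σ, hσ, hout⟩ := hk.mem y
      have h3 : k y c = 0 := hout c fun h4 => hc (hσ.1 c h4)
      rw [h3, zero_mul, mul_zero]
  have h1 : LinF fun y => FF (fun c => if c ∈ Arr.Cell lam then F (b c) else 1) (k y) :=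
    hl.congr (key F hF)
  refine (LinF.congr_sign hk h1 (g := fun c => if c ∈ Arr.Cell lam then F' (b c) else 1)
    fun c => ?_).congr fun y => (key F' hF' y).symm
  by_cases hc : c ∈ Arr.Cell lam
  · rw [if_pos hc, if_pos hc]
    exact hs c hc
  · rw [if_neg hc, if_neg hc]
    exact Or.inl ⟨one_pos, one_pos⟩

/-- (U) neighbourhood functions of the same set -/
theorem LinF.unique [FiniteDimensional ℝ V] {X X' : Type*} [Fintype X] [DecidableEq X]
    [Fintype X'] [DecidableEq X'] {Q : Set (Finset X)} {h : (X → ℝ) → V} {k : V → X → ℝ}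
    {f : X → ℝ} {Q' : Set (Finset X')} {h' : (X' → ℝ) → V} {k' : V → X' → ℝ} {f' : X' → ℝ}
    (H : IsSph Q h k) (h0 : ∀ x, f x ≠ 0) (H' : IsSph Q' h' k') (h0' : ∀ x, f' x ≠ 0)
    (hA : ∀ y, (∀ x, 0 < f x → k y x = 0) ↔ ∀ x, 0 < f' x → k' y x = 0)
    (hl : LinF fun y => FF f (k y)) : LinF fun y => FF f' (k' y) := by
  classical
  obtain ⟨M1, hM1⟩ := exists_adapt_family H.hk
  obtain ⟨M2, hM2⟩ := exists_adapt_family H'.hk
  obtain ⟨M3, hM3⟩ := exists_sep (V := V)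
  set M := M1 ∪ (M2 ∪ M3) with hM
  have s1 : M1 ⊆ M := Finset.subset_union_left
  have s2 : M2 ⊆ M := Finset.subset_union_left.trans Finset.subset_union_right
  have s3 : M3 ⊆ M := Finset.subset_union_right.trans Finset.subset_union_right
  set lam : M → V →ₗ[ℝ] ℝ := fun m => (m : V →ₗ[ℝ] ℝ) with hlam
  have hsep : ∀ y, (∀ i, lam i y = 0) → y = 0 := hM3 M s3
  obtain ⟨b, hb⟩ := Arr.exists_b lam
  have hbne : ∀ c ∈ Arr.Cell lam, b c ≠ 0 := fun c hc hbc => by
    have := hb c hc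
    rw [hbc, Arr.sg_zero] at this
    exact hc.1 this.symm
  -- large constants
  have e1 : ∀ᶠ N : ℝ in atTop, ∀ c, (¬ ∀ x, 0 < f x → k (b c) x = 0) →
      0 < FF (fN f N) (k (b c)) := by
    rw [Filter.eventually_all]
    intro c
    by_cases hc : ∀ x, 0 < f x → k (b c) x = 0
    · exact Eventually.of_forall fun N hn => absurd hc hn
    · have h3 : ∃ x, 0 < f x ∧ k (b c) x ≠ 0 := by
        by_contra hn
        push Not at hn
        exact hc hn
      filter_upwards [fN_pos h0 (H.mem (b c)).1 h3] with N hN _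
      exact hN
  have e2 : ∀ᶠ N : ℝ in atTop, ∀ c, (¬ ∀ x, 0 < f' x → k' (b c) x = 0) →
      0 < FF (fN f' N) (k' (b c)) := by
    rw [Filter.eventually_all]
    intro c
    by_cases hc : ∀ x, 0 < f' x → k' (b c) x = 0
    · exact Eventually.of_forall fun N hn => absurd hc hn
    · have h3 : ∃ x, 0 < f' x ∧ k' (b c) x ≠ 0 := by
        by_contra hn
        push Not at hn
        exact hc hn
      filter_upwards [fN_pos h0' (H'.mem (b c)).1 h3] with N hN _
      exact hN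
  obtain ⟨N, hN1, hN2, hN⟩ := (e1.and (e2.and (eventually_gt_atTop 0))).exists
  have a1 : LinF fun y => FF (fN f N) (k y) :=
    LinF.congr_sign H hl (fN_sign h0 hN)
  have a2 : LinF fun y => FF (fN f' N) (k' y) := by
    refine LinF.of_adapt hsep hb (Arr.Adapt.FF (hM1 M s1) _) (Arr.Adapt.FF (hM2 M s2) _)
      (fun c hc => ?_) a1
    by_cases hc0 : ∀ x, 0 < f x → k (b c) x = 0
    · right
      refine ⟨fN_neg h0 (H.mem _).1 (fun h3 => hbne c hc ?_) hc0 N,
        fN_neg h0' (H'.mem _).1 (fun h3 => hbne c hc ?_) ((hA _).1 hc0) N⟩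
      · rw [← H.hk' (b c), h3, H.h_zero]
      · rw [← H'.hk' (b c), h3, H'.h_zero]
    · exact Or.inl ⟨hN1 c hc0, hN2 c fun h4 => hc0 ((hA _).2 h4)⟩
  refine LinF.congr_sign H' a2 fun x => ?_
  rcases fN_sign h0' hN x with ⟨p, q⟩ | ⟨p, q⟩
  · exact Or.inl ⟨q, p⟩
  · exact Or.inr ⟨q, p⟩

end

end Pool.Agent.DF302A
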