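import Pool.Agent.Work.MP_df302a_co.GDefs
import Pool.Agent.Work.MP_df302a_co.Uniq

/-!
# MP_df302a_co : neighbourhood functions (API in the vocabulary of GDefs)
-/

set_option autoImplicit false
set_option linter.unusedSectionVars false
set_option linter.unusedVariables false

namespace Pool.Agent.DF302A

open Finset

section

variable {W : Type*} [AddCommGroup W] [Module ℝ W]

theorem isPL_of_cover {ι : Type*} [Finite ι] (f : W → ℝ) (C : ι → Set W) (l : ι → W →ₗ[ℝ] ℝ)
    (hc : ∀ i, LineClosed (C i)) (hcov : ∀ y, ∃ i, y ∈ C i) (hf : ∀ i, ∀ y ∈ C i, f y = l i y) :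
    IsPL f := by
  have := Fintype.ofFinite ι
  exact isPL_cover C hcov hc fun i => ⟨l i, hf i⟩

theorem linP_eq_BB {X : Type*} [Fintype X] [DecidableEq X] (p : X → W) (t : X → ℝ) : linP p t = BB p t := by
  rw [linP_apply, BB_apply]

/-- a bijective linear map from the cone of a complex to `W` has a piecewise linear inverse -/
theorem fan_of_bij {X : Type*} [Fintype X] [DecidableEq X]
    (Q : Set (Finset X)) (hQ : IsCx Q) (p : X → W)
    (hinj : ∀ t ∈ cone Q, ∀ t' ∈ cone Q, linP p t = linP p t' → t = t')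
    (hsurj : ∀ y, ∃ t ∈ cone Q, linP p t = y) :
    ∃ k, IsSph Q (fun t => linP p t) k := by
  obtain ⟨k, hk⟩ := fan_isSph p (fun t ht t' ht' h => hinj t ht t' ht' (by
    rw [linP_eq_BB, linP_eq_BB]; exact h)) (fun y => by
    obtain ⟨t, ht, h⟩ := hsurj y
    exact ⟨t, ht, by rw [← linP_eq_BB, h]⟩)
  refine ⟨k, ?_⟩
  have e : (fun t => linP p t) = fun t => BB p t := funext fun t => linP_eq_BB p t
  rw [e]
  exact hk

theorem exists_isB {ι : Type*} (L : ι → W →ₗ[ℝ] ℝ) : ∃ b, IsB L b := by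
  classical
  refine ⟨fun s => if h : ∃ y, sg L y = s then h.choose else 0, fun y => ?_⟩
  have h : ∃ z, sg L z = sg L y := ⟨y, rfl⟩
  show sg L (if h : ∃ z, sg L z = sg L y then h.choose else 0) = sg L y
  rw [dif_pos h]
  exact h.choose_spec

theorem ch_eq {ι : Type*} [Fintype ι] [DecidableEq ι] (L : ι → W →ₗ[ℝ] ℝ) : Arr.Ch L = QL L := by
  ext c
  constructor
  · rintro ⟨h1, h2⟩
    refine ⟨fun s hs => h1 s hs, fun s hs t ht => ?_⟩
    by_cases h : s = t
    · exact Or.inl fun i => Or.inr (by rw [h])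
    · exact h2 hs ht h
  · rintro ⟨h1, h2⟩
    exact ⟨fun s hs => h1 s hs, fun s hs t ht _ => h2 s hs t ht⟩

theorem IsB.cell {ι : Type*} {L : ι → W →ₗ[ℝ] ℝ} {b : (ι → SignType) → W} (hb : IsB L b) :
    ∀ c ∈ Arr.Cell L, Arr.sg L (b c) = c := by
  rintro c ⟨-, y, rfl⟩
  exact hb y

theorem arr_fan {ι : Type*} [Fintype ι] [DecidableEq ι]
    (L : ι → W →ₗ[ℝ] ℝ) (hL : Sep L) (b : (ι → SignType) → W) (hb : IsB L b) :
    ∃ k, IsSph (QL L) (fun t => linP b t) k := by
  obtain ⟨k, hk⟩ := Arr.isSph hL hb.cell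
  refine ⟨k, ?_⟩
  have e : (fun t => linP b t) = fun t => BB b t := funext fun t => linP_eq_BB b t
  rw [e, ← ch_eq]
  exact hk

/-- the top cell of `k y` is the cell of `y` -/
theorem arr_top {ι : Type*} [Fintype ι] [DecidableEq ι]
    {L : ι → W →ₗ[ℝ] ℝ} {b : (ι → SignType) → W} (hb : IsB L b)
    {k : W → (ι → SignType) → ℝ} (hk : IsSph (QL L) (fun t => linP b t) k) {y : W} (hy : y ≠ 0) :
    0 < k y (sg L y) ∧ ∀ s, k y s ≠ 0 → SLe s (sg L y) ∧ ∃ z, sg L z = s := by
  have h1 : k y ∈ cone (Arr.Ch L) := by rw [ch_eq]; exact hk.mem y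
  have h2 : BB b (k y) = y := by rw [← linP_eq_BB]; exact hk.hk' y
  have h0 : k y ≠ 0 := fun h => hy (by rw [← h2, h, map_zero])
  obtain ⟨a1, a2, a3⟩ := Arr.sg_BB hb.cell h1 h0
  rw [h2] at a1 a2 a3
  refine ⟨a1, fun s hs => ⟨a3 s hs, ?_⟩⟩
  obtain ⟨-, σ, hσ, hout⟩ := h1
  have h3 : s ∈ σ := by
    by_contra h4
    exact hs (hout s h4)
  exact (hσ.1 s h3).2

/-- only the signs matter -/
theorem CoordV.of_sign {X : Type*} [Fintype X] [DecidableEq X] {Q : Set (Finset X)} {f g : X → ℝ}
    (H : CoordV Q f W)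
    (hfg : ∀ s ∈ Q, ∀ x ∈ s, (0 < f x ∧ 0 < g x) ∨ (f x < 0 ∧ g x < 0) ∨ (f x = 0 ∧ g x = 0)) :
    CoordV Q g W := by
  classical
  have hc : ∀ x, 0 < (if 0 < g x / f x then g x / f x else 1) := by
    intro x
    split_ifs with h
    · exact h
    · exact one_pos
  refine (H.mul hc).of_eq fun s hs x hx => ?_
  rcases hfg s hs x hx with ⟨a, b⟩ | ⟨a, b⟩ | ⟨a, b⟩
  · rw [if_pos (div_pos b a), div_mul_cancel₀ _ a.ne']
  · rw [if_pos (div_pos_of_neg_of_neg b a), div_mul_cancel₀ _ a.ne]
  · rw [a, b, mul_zero]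

theorem linF_iff_coordV {X : Type*} [Fintype X] [DecidableEq X] {Q : Set (Finset X)}
    {h : (X → ℝ) → W} {k : W → X → ℝ} (H : IsSph Q h k) (f : X → ℝ) :
    (LinF fun y => FF f (k y)) ↔ CoordV Q f W := by
  constructor
  · rintro ⟨a, b, l, hab, h0, h1⟩
    refine ⟨fun t => a (h t), fun y => k (b y), l, ⟨hab.ha.comp H.hh, H.hk.comp hab.hb,
      fun t ht => ?_, fun y => H.mem _, fun y => ?_⟩, h0, fun t ht => ?_⟩
    · rw [hab.ba, H.kh t ht]
    · rw [H.hk', hab.ab]
    · have e : FF f (k (h t)) = l (a (h t)) := h1 (h t)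
      rw [H.kh t ht] at e
      exact e
  · rintro ⟨h', k', l, H', h0, h1⟩
    refine ⟨fun y => h' (k y), fun y => h (k' y), l, ⟨H'.hh.comp H.hk, H.hh.comp H'.hk,
      fun y => ?_, fun y => ?_⟩, h0, fun y => h1 _ (H.mem y)⟩
    · rw [H'.kh _ (H.mem y), H.hk']
    · rw [H.kh _ (H'.mem y), H'.hk']

/-- (U): the property can be tested in any complete fan -/
theorem good_iff [FiniteDimensional ℝ W] {X : Type*} [Fintype X] [DecidableEq X]
    {Q : Set (Finset X)} {h : (X → ℝ) → W} {k : W → X → ℝ} (H : IsSph Q h k) {f : X → ℝ}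
    (h0 : ∀ x, f x ≠ 0) {A : Set W} (hA : ∀ y, y ∈ A ↔ ∀ x, 0 < f x → k y x = 0) :
    Good A ↔ CoordV Q f W := by
  constructor
  · rintro ⟨n, Q', h', k', f', H', h0', hA', hc⟩
    rw [← linF_iff_coordV H]
    exact LinF.unique H' h0' H h0 (fun y => by rw [← hA, ← hA']) ((linF_iff_coordV H' f').2 hc)
  · intro hc
    classical
    set e : X ≃ Fin (Fintype.card X) := Fintype.equivFin X with he
    set u : (Fin (Fintype.card X) → ℝ) →ₗ[ℝ] (X → ℝ) := LinearMap.funLeft ℝ ℝ e with hu
    set v : (X → ℝ) →ₗ[ℝ] (Fin (Fintype.card X) → ℝ) := LinearMap.funLeft ℝ ℝ e.symm with hv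
    have huv : ∀ t, u (v t) = t := fun t => by
      ext x; simp [hu, hv, LinearMap.funLeft_apply]
    have hvu : ∀ t, v (u t) = t := fun t => by
      ext x; simp [hu, hv, LinearMap.funLeft_apply]
    set Q' : Set (Finset (Fin (Fintype.card X))) := {σ | σ.image e.symm ∈ Q} with hQ'
    have hmem : ∀ t ∈ cone Q, v t ∈ cone Q' := by
      rintro t ⟨t0, σ, hσ, hout⟩
      refine ⟨fun x => t0 _, σ.image e, ?_, fun x hx => ?_⟩
      · show (σ.image e).image e.symm ∈ Q
        rw [Finset.image_image]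
        simpa using hσ
      · refine hout _ fun h1 => hx ?_
        exact Finset.mem_image.2 ⟨_, h1, by simp⟩
    have hmem' : ∀ t ∈ cone Q', u t ∈ cone Q := by
      rintro t ⟨t0, σ, hσ, hout⟩
      refine ⟨fun x => t0 _, σ.image e.symm, hσ, fun x hx => ?_⟩
      refine hout _ fun h1 => hx ?_
      exact Finset.mem_image.2 ⟨_, h1, by simp⟩
    have hFF : ∀ t : Fin (Fintype.card X) → ℝ, FF (fun x => f (e.symm x)) t = FF f (u t) := by
      intro t
      rw [FF_apply, FF_apply]
      exact Fintype.sum_equiv e.symm _ _ fun x => by simp [hu, LinearMap.funLeft_apply]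
    obtain ⟨h', k', l, H', l0, hl⟩ := hc
    refine ⟨Fintype.card X, Q', fun t => h (u t), fun y => v (k y), fun x => f (e.symm x),
      ⟨H.hh.comp (PLMap.lin u), (PLMap.lin v).comp H.hk, fun t ht => ?_, fun y => hmem _ (H.mem y),
        fun y => ?_⟩, fun x => h0 _, fun y => ?_, fun t => h' (u t), fun y => v (k' y), l,
      ⟨H'.hh.comp (PLMap.lin u), (PLMap.lin v).comp H'.hk, fun t ht => ?_,
        fun y => hmem _ (H'.mem y), fun y => ?_⟩, l0, fun t ht => ?_⟩
    · rw [H.kh _ (hmem' t ht), hvu]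
    · rw [huv, H.hk']
    · rw [hA]
      constructor
      · intro h1 x hx
        exact h1 (e.symm x) hx
      · intro h1 x hx
        have := h1 (e x) (by simpa using hx)
        simpa [hv, LinearMap.funLeft_apply] using this
    · rw [H'.kh _ (hmem' t ht), hvu]
    · rw [huv, H'.hk']
    · rw [hFF, hl _ (hmem' t ht)]

theorem Good.homeo {A : Set W} (HA : Good A) {a b : W → W} (hab : IsHomeo a b) :
    Good {w | b w ∈ A} := by
  obtain ⟨n, Q, h, k, f, H, h0, hA, hc⟩ := HA
  exact ⟨n, Q, fun t => a (h t), fun y => k (b y), f, ⟨hab.ha.comp H.hh, H.hk.comp hab.hb,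
    fun t ht => by rw [hab.ba, H.kh t ht], fun y => H.mem _, fun y => by rw [H.hk', hab.ab]⟩, h0,
    fun y => hA _, hc⟩

/-- `Good` is invariant under piecewise linear homeomorphisms -/
theorem good_homeo_iff {A B : Set W} {a b : W → W} (hab : IsHomeo a b)
    (hAB : ∀ y, y ∈ A ↔ a y ∈ B) : Good A ↔ Good B := by
  constructor
  · intro h
    have : {w | b w ∈ A} = B := by
      ext w
      show b w ∈ A ↔ w ∈ B
      rw [hAB, hab.ab]
    rw [← this]
    exact h.homeo hab
  · intro h
    have : {w | a w ∈ B} = A := by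
      ext w
      show a w ∈ B ↔ w ∈ A
      rw [hAB]
    rw [← this]
    exact h.homeo hab.symm

/-- piecewise linear homeomorphisms preserve good cones -/
theorem good_image {T T' : W → W} (hT : PLMap T) (hT' : PLMap T') (h1 : ∀ y, T' (T y) = y)
    (h2 : ∀ y, T (T' y) = y) (A : Set W) : Good A ↔ Good (T '' A) := by
  refine good_homeo_iff (a := T) (b := T') ⟨hT, hT', h1, h2⟩ fun y => ⟨fun h => ⟨y, h, rfl⟩, ?_⟩
  rintro ⟨z, hz, e⟩
  have : z = y := by rw [← h1 z, e, h1]
  rw [← this]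
  exact hz

theorem pm_ne {X : Type*} (A : Set X) (x : X) : pm A x ≠ 0 := by
  unfold pm
  split_ifs
  · norm_num
  · norm_num

theorem pm_pos {X : Type*} {A : Set X} {x : X} : 0 < pm A x ↔ x ∉ A := by
  unfold pm
  split_ifs with h
  · simp [h]
  · simp [h]

theorem pm_neg {X : Type*} {A : Set X} {x : X} : pm A x < 0 ↔ x ∈ A := by
  unfold pm
  split_ifs with h
  · simp [h]
  · simp [h]

/-- the property can be tested in any arrangement for which `C` is a union of closed cells -/
theorem good_iff_arr [FiniteDimensional ℝ W] {ι : Type*} [Fintype ι] [DecidableEq ι]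
    (L : ι → W →ₗ[ℝ] ℝ) (hL : Sep L) (b : (ι → SignType) → W) (hb : IsB L b) (C : Set W)
    (h0 : (0 : W) ∈ C) (hC : Cpt L C) :
    Good C ↔ CoordV (QL L) (pm {s | b s ∈ C}) W := by
  obtain ⟨k, hk⟩ := arr_fan L hL b hb
  refine good_iff hk (pm_ne _) fun y => ?_
  constructor
  · intro hy s hs
    rw [pm_pos] at hs
    by_contra hks
    have hy0 : y ≠ 0 := by
      rintro rfl
      exact hks (by rw [hk.hk.map_zero]; rfl)
    obtain ⟨h1, z, hz⟩ := (arr_top hb hk hy0).2 s hks
    refine hs (hC y (b s) hy ?_)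
    rw [← hz, hb z, hz]
    exact h1
  · intro hy
    by_cases hy0 : y = 0
    · rw [hy0]
      exact h0
    · have h1 := (arr_top hb hk hy0).1
      have h2 : b (sg L y) ∈ C := by
        by_contra h3
        exact h1.ne' (hy _ (pm_pos.2 h3))
      refine hC _ y h2 ?_
      rw [hb y]
      exact fun i => Or.inr rfl

theorem mem_cn_iff {X : Type*} [Fintype X] [DecidableEq X] (p : X → W) (c : Finset X) (y : W) :
    y ∈ cn p c ↔ ∃ t : X → ℝ, (∀ x, 0 ≤ t x) ∧ (∀ x, x ∉ c → t x = 0) ∧ linP p t = y := by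
  constructor
  · rintro ⟨t, ht, rfl⟩
    refine ⟨fun x => if x ∈ c then t x else 0, fun x => ?_, fun x hx => if_neg hx, ?_⟩
    · show 0 ≤ if x ∈ c then t x else 0
      split_ifs with h
      · exact ht x h
      · exact le_rfl
    · rw [linP_apply]
      simp only [ite_smul, zero_smul]
      rw [Finset.sum_ite_mem, Finset.univ_inter]
  · rintro ⟨t, h0, h1, rfl⟩
    refine ⟨t, fun x _ => h0 x, ?_⟩
    rw [linP_apply]
    refine (Finset.sum_subset (Finset.subset_univ c) fun x _ hx => ?_).symm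
    rw [h1 x hx, zero_smul]

/-- the property can be tested in any complete simplicial fan -/
theorem good_iff_fan [FiniteDimensional ℝ W] {X : Type*} [Fintype X] [DecidableEq X]
    {Q : Set (Finset X)} (hQ : IsCx Q) {p : X → W} {k : W → X → ℝ}
    (H : IsSph Q (fun t => linP p t) k) (A : Set X) :
    Good (cK p {σ | σ ∈ Q ∧ ∀ x ∈ σ, x ∈ A}) ↔ CoordV Q (pm A) W := by
  classical
  refine good_iff H (pm_ne _) fun y => ?_
  constructor
  · rintro ⟨c, ⟨hc, hcA⟩, hy⟩ x hx
    rw [pm_pos] at hx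
    obtain ⟨t, t0, t1, rfl⟩ := (mem_cn_iff p c y).1 hy
    have h2 := H.kh t ⟨t0, c, hc, t1⟩
    rw [h2]
    exact t1 x fun h3 => hx (hcA x h3)
  · intro hy
    obtain ⟨t0, σ, hσ, hout⟩ := H.mem y
    refine ⟨σ.filter fun x => x ∈ A, ⟨hQ.2 σ hσ _ (Finset.filter_subset _ _), fun x hx =>
      (Finset.mem_filter.1 hx).2⟩, ?_⟩
    rw [mem_cn_iff]
    refine ⟨k y, t0, fun x hx => ?_, H.hk' y⟩
    by_cases h1 : x ∈ σ
    · exact hy x (pm_pos.2 fun h2 => hx (Finset.mem_filter.2 ⟨h1, h2⟩))
    · exact hout x h1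

/-- functions adapted to an arrangement with the right signs -/
theorem coordV_of_adapt {ι : Type*} [Fintype ι] [DecidableEq ι]
    {L : ι → W →ₗ[ℝ] ℝ} (hL : Sep L) {b : (ι → SignType) → W} (hb : IsB L b) {F : W → ℝ}
    (hF : Arr.Adapt L F) (hl : LinF F) {f : (ι → SignType) → ℝ}
    (hs : ∀ c, c ≠ 0 → (∃ y, sg L y = c) → (0 < F (b c) ∧ 0 < f c) ∨ (F (b c) < 0 ∧ f c < 0)) :
    CoordV (QL L) f W := by
  obtain ⟨k, hk⟩ := arr_fan L hL b hb
  have h1 : ∀ y, F y = FF (fun c => F (b c)) (k y) := by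
    intro y
    have h2 : k y ∈ cone (Arr.Ch L) := by rw [ch_eq]; exact hk.mem y
    have h3 : BB b (k y) = y := by rw [← linP_eq_BB]; exact hk.hk' y
    have h4 := hF.BB_eq hb.cell h2
    rw [h3] at h4
    rw [h4, FF_apply]
    exact Finset.sum_congr rfl fun c _ => mul_comm _ _
  have h2 : CoordV (QL L) (fun c => F (b c)) W := (linF_iff_coordV hk _).1 (hl.congr h1)
  refine h2.of_sign fun s hs' c hc => ?_
  rcases hs c (hs'.1 c hc).1 (hs'.1 c hc).2 with h | h
  · exact Or.inl h
  · exact Or.inr (Or.inl h)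

/-- a basis containing a given vector -/
theorem exists_basis [FiniteDimensional ℝ W] (v : W) (hv : v ≠ 0) :
    ∃ (n : ℕ) (B : Module.Basis (Fin n) ℝ W) (o : Fin n), B o = v := by
  have hli : LinearIndepOn ℝ id ({v} : Set W) := by
    rw [linearIndepOn_singleton_iff]
    exact hv
  have h1 : Finite (hli.extend (Set.subset_univ _)) :=
    Module.Finite.finite_basis (Module.Basis.extend hli)
  have h2 : Fintype (hli.extend (Set.subset_univ _)) := Fintype.ofFinite _
  have hvmem : v ∈ hli.extend (Set.subset_univ {v}) :=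
    hli.subset_extend _ (Set.mem_singleton v)
  refine ⟨_, (Module.Basis.extend hli).reindex (Fintype.equivFin _),
    Fintype.equivFin _ ⟨v, hvmem⟩, ?_⟩
  simp

/-- a single ray -/
theorem good_ray [FiniteDimensional ℝ W] (v : W) (hv : v ≠ 0) :
    Good {y : W | ∃ a : ℝ, 0 ≤ a ∧ y = a • v} := by
  classical
  obtain ⟨n, B, o, hBo⟩ := exists_basis v hv
  set L : Fin n → W →ₗ[ℝ] ℝ := fun i => B.coord i with hLdef
  have hsep : Sep L := fun y hy => by
    rw [← B.forall_coord_eq_zero_iff]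
    exact hy
  have hLv : ∀ i, L i v = if i = o then 1 else 0 := by
    intro i
    show B.coord i v = _
    rw [← hBo, Module.Basis.coord_apply, B.repr_self, Finsupp.single_apply]
    simp only [eq_comm]
  set b : (Fin n → SignType) → W := fun s => ∑ i, ((s i : SignType) : ℝ) • B i
    with hbdef
  have hLb : ∀ s i, L i (b s) = ((s i : SignType) : ℝ) := by
    intro s i
    show B.coord i (∑ j, ((s j : SignType) : ℝ) • B j) = _
    rw [Module.Basis.coord_apply, map_sum, Finsupp.finsetSum_apply]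
    simp only [map_smul, B.repr_self, Finsupp.smul_apply, Finsupp.single_apply, smul_eq_mul,
      mul_ite, mul_one, mul_zero]
    simp
  have hsc : ∀ s : SignType, SignType.sign ((s : SignType) : ℝ) = s := by
    intro s
    cases s <;> simp
  have hb : IsB L b := by
    intro y
    ext i
    show SignType.sign (L i (b (sg L y))) = sg L y i
    rw [hLb, hsc]
  set N : W → ℝ := fun y => ∑ i, (if i = o then 0 else |L i y|) with hN
  have hNPL : IsPL N := IsPL.sum _ fun i _ => IsPL.ite _ IsPL.zero (IsPL.lin (L i)).abs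
  set F : W → ℝ := fun y => 2 * N y - L o y with hF
  have hNv : ∀ y (c : ℝ), N (y + c • v) = N y := by
    intro y c
    refine Finset.sum_congr rfl fun i _ => ?_
    by_cases hi : i = o
    · rw [if_pos hi, if_pos hi]
    · rw [if_neg hi, if_neg hi, map_add, map_smul, hLv, if_neg hi, smul_zero, add_zero]
  have hlin : LinF F := by
    refine ⟨fun y => y - (2 * N y) • v, fun y => y + (2 * N y) • v, -(L o), ⟨?_, ?_, fun y => ?_,
      fun y => ?_⟩, ?_, fun y => ?_⟩
    · exact PLMap.id.sub (PLMap.smul_const (hNPL.smul 2) v)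
    · exact PLMap.id.add (PLMap.smul_const (hNPL.smul 2) v)
    · have h1 : N (y - (2 * N y) • v) = N y := by
        rw [sub_eq_add_neg, ← neg_smul]; exact hNv _ _
      show y - (2 * N y) • v + (2 * N (y - (2 * N y) • v)) • v = y
      rw [h1]; abel
    · have h1 : N (y + (2 * N y) • v) = N y := hNv _ _
      show y + (2 * N y) • v - (2 * N (y + (2 * N y) • v)) • v = y
      rw [h1]; abel
    · intro h
      have h1 : L o v = 0 := by
        have := congrArg (fun l : W →ₗ[ℝ] ℝ => l v) (neg_eq_zero.1 h)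
        simpa using this
      rw [hLv, if_pos rfl] at h1
      exact one_ne_zero h1
    · show 2 * N y - L o y = -(L o (y - (2 * N y) • v))
      rw [map_sub, map_smul, hLv, if_pos rfl, smul_eq_mul]
      ring
  have hadapt : Arr.Adapt L F := by
    refine ⟨fun y z h => ?_, fun y c hc => ?_⟩
    · have h1 : N (y + z) = N y + N z := by
        rw [hN, ← Finset.sum_add_distrib]
        refine Finset.sum_congr rfl fun i _ => ?_
        by_cases hi : i = o
        · simp [hi]
        · rw [if_neg hi, if_neg hi, if_neg hi, map_add]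
          rcases mul_nonneg_iff.1 (h i) with ⟨p, q⟩ | ⟨p, q⟩
          · rw [abs_of_nonneg p, abs_of_nonneg q, abs_of_nonneg (add_nonneg p q)]
          · rw [abs_of_nonpos p, abs_of_nonpos q, abs_of_nonpos (add_nonpos p q)]; ring
      show 2 * N (y + z) - L o (y + z) = (2 * N y - L o y) + (2 * N z - L o z)
      rw [h1, map_add]; ring
    · have h1 : N (c • y) = c * N y := hNPL.hom hc y
      show 2 * N (c • y) - L o (c • y) = c * (2 * N y - L o y)
      rw [h1, map_smul, smul_eq_mul]; ring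
  have hray : ∀ y, (∃ a : ℝ, 0 ≤ a ∧ y = a • v) ↔ (∀ i, i ≠ o → L i y = 0) ∧ 0 ≤ L o y := by
    intro y
    constructor
    · rintro ⟨a, ha, rfl⟩
      refine ⟨fun i hi => ?_, ?_⟩
      · rw [map_smul, hLv, if_neg hi, smul_zero]
      · rw [map_smul, hLv, if_pos rfl, smul_eq_mul, mul_one]; exact ha
    · rintro ⟨h1, h2⟩
      refine ⟨L o y, h2, ?_⟩
      rw [← sub_eq_zero]
      refine hsep _ fun i => ?_
      rw [map_sub, map_smul, hLv]
      by_cases hi : i = o
      · rw [if_pos hi, hi, smul_eq_mul, mul_one, sub_self]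
      · rw [if_neg hi, h1 i hi, smul_zero, sub_zero]
  have hcpt : Cpt L {y : W | ∃ a : ℝ, 0 ≤ a ∧ y = a • v} := by
    intro y y' hy hs
    rw [Set.mem_ofPred_eq, hray] at hy ⊢
    refine ⟨fun i hi => ?_, ?_⟩
    · rcases hs i with h1 | h1
      · exact sign_eq_zero_iff.1 h1
      · have h2 : SignType.sign (L i y') = SignType.sign (L i y) := h1
        rw [hy.1 i hi, sign_zero] at h2
        exact sign_eq_zero_iff.1 h2
    · rcases hs o with h1 | h1
      · exact (sign_eq_zero_iff.1 h1).ge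
      · have h2 : SignType.sign (L o y') = SignType.sign (L o y) := h1
        have h3 : 0 ≤ SignType.sign (L o y) := sign_nonneg_iff.2 hy.2
        rw [← h2] at h3
        exact sign_nonneg_iff.1 h3
  rw [good_iff_arr L hsep b hb {y : W | ∃ a : ℝ, 0 ≤ a ∧ y = a • v} ⟨0, le_rfl, by simp⟩ hcpt]
  refine coordV_of_adapt hsep hb hadapt hlin fun c hc0 _ => ?_
  have hFb : F (b c) = 2 * (∑ i, if i = o then 0 else |((c i : SignType) : ℝ)|) -
      ((c o : SignType) : ℝ) := by
    show 2 * (∑ i, (if i = o then 0 else |L i (b c)|)) - L o (b c) = _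
    simp only [hLb]
  by_cases hmem : b c ∈ {y : W | ∃ a : ℝ, 0 ≤ a ∧ y = a • v}
  · right
    refine ⟨?_, pm_neg.2 hmem⟩
    rw [Set.mem_ofPred_eq, hray] at hmem
    have h1 : ∀ i, i ≠ o → c i = 0 := fun i hi => by
      have := hmem.1 i hi
      rw [hLb] at this
      rw [← hsc (c i), this, sign_zero]
    have h2 : c o ≠ 0 := fun h3 => hc0 (by
      ext i
      by_cases hi : i = o
      · rw [hi, h3]; rfl
      · rw [h1 i hi]; rfl)
    have h3 : (∑ i, if i = o then (0 : ℝ) else |((c i : SignType) : ℝ)|) = 0 :=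
      Finset.sum_eq_zero fun i _ => by
        by_cases hi : i = o
        · rw [if_pos hi]
        · rw [if_neg hi, h1 i hi]; simp
    rw [hFb, h3]
    have h4 := hmem.2
    rw [hLb] at h4
    have h5 : ((c o : SignType) : ℝ) ≠ 0 := fun h6 => h2 (by rw [← hsc (c o), h6, sign_zero])
    have h6 : 0 < ((c o : SignType) : ℝ) := lt_of_le_of_ne h4 (Ne.symm h5)
    linarith
  · left
    refine ⟨?_, pm_pos.2 hmem⟩
    rw [hFb]
    have hle : ((c o : SignType) : ℝ) ≤ 1 := by
      cases c o <;> norm_num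
    by_cases h1 : ∀ i, i ≠ o → c i = 0
    · have h3 : (∑ i, if i = o then (0 : ℝ) else |((c i : SignType) : ℝ)|) = 0 :=
        Finset.sum_eq_zero fun i _ => by
          by_cases hi : i = o
          · rw [if_pos hi]
          · rw [if_neg hi, h1 i hi]; simp
      rw [h3]
      have h4 : ¬ 0 ≤ ((c o : SignType) : ℝ) := by
        intro h5
        apply hmem
        rw [Set.mem_ofPred_eq, hray]
        refine ⟨fun i hi => ?_, ?_⟩
        · rw [hLb, h1 i hi]; simp
        · rw [hLb]; exact h5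
      linarith [not_le.1 h4]
    · push Not at h1
      obtain ⟨i, hi, hci⟩ := h1
      have h3 : 1 ≤ ∑ i, if i = o then (0 : ℝ) else |((c i : SignType) : ℝ)| := by
        have h4 : (1 : ℝ) ≤ if i = o then (0 : ℝ) else |((c i : SignType) : ℝ)| := by
          rw [if_neg hi]
          rcases hcc : c i with _ | _ | _
          · exact absurd hcc hci
          · simp
          · simp
        refine h4.trans (Finset.single_le_sum (f := fun i => if i = o then (0 : ℝ) else
          |((c i : SignType) : ℝ)|) (fun j _ => ?_) (Finset.mem_univ i))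
        show 0 ≤ if j = o then (0 : ℝ) else |((c j : SignType) : ℝ)|
        split_ifs
        · exact le_rfl
        · exact abs_nonneg _
      linarith

end

end Pool.Agent.DF302A
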