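import Pool.Agent.Work.MP_df302a_co.PL

/-! # MP_df302a_co : gauge functions and their polytopes (abstract part). -/

namespace Pool.Agent.DF302A

open Filter Topology

namespace Gauge

section Local
variable {V : Type*} [AddCommGroup V] [Module ℝ V]

theorem cv_local {f : V → ℝ} (hf : IsCv f) (y x : V) :
    ∃ c : ℝ, ∀ᶠ t in 𝓝[>] (0 : ℝ), f (y + t • x) = f y + t * c := by
  classical
  obtain ⟨A, hA, hf⟩ := hf
  obtain ⟨a1, ha1, h1⟩ := A.exists_mem_eq_sup' hA (fun l => l y)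
  have hBn : (A.filter (fun a => a y = a1 y)).Nonempty := ⟨a1, by simp [ha1]⟩
  obtain ⟨a0, ha0, h0⟩ := (A.filter (fun a => a y = a1 y)).exists_max_image (fun l => l x) hBn
  obtain ⟨ha0A, ha0y⟩ := Finset.mem_filter.1 ha0
  refine ⟨a0 x, ?_⟩
  have key : ∀ a ∈ A, ∀ᶠ t in 𝓝[>] (0 : ℝ), a (y + t • x) ≤ a0 (y + t • x) := by
    intro a ha
    have hle : a y ≤ a0 y := by
      rw [ha0y, ← h1]
      exact Finset.le_sup' (fun l : V →ₗ[ℝ] ℝ => l y) ha
    rcases hle.lt_or_eq with hlt | heq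
    · have hc : Tendsto (fun t : ℝ => (a0 y + t * a0 x) - (a y + t * a x)) (𝓝[>] 0)
          (𝓝 ((a0 y + 0 * a0 x) - (a y + 0 * a x))) := by
        apply Tendsto.mono_left _ nhdsWithin_le_nhds
        exact (Continuous.tendsto (by fun_prop) 0)
      have hpos : 0 < (a0 y + 0 * a0 x) - (a y + 0 * a x) := by linarith
      filter_upwards [hc.eventually (lt_mem_nhds hpos)] with t ht
      simp only [map_add, map_smul, smul_eq_mul]
      linarith
    · filter_upwards [self_mem_nhdsWithin] with t ht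
      have hx : a x ≤ a0 x := h0 a (by simp [ha, heq, ha0y])
      have ht' : (0 : ℝ) < t := ht
      simp only [map_add, map_smul, smul_eq_mul]
      nlinarith
  filter_upwards [(Filter.eventually_all_finset A).2 key] with t ht
  rw [hf, hf]
  have e1 : A.sup' hA (fun l => l (y + t • x)) = a0 (y + t • x) :=
    le_antisymm (Finset.sup'_le _ _ fun a ha => ht a ha)
      (Finset.le_sup' (fun l : V →ₗ[ℝ] ℝ => l (y + t • x)) ha0A)
  rw [e1, h1, ← ha0y]
  simp only [map_add, map_smul, smul_eq_mul]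

theorem pl_local {f : V → ℝ} (hf : IsPL f) (y x : V) :
    ∃ c : ℝ, ∀ᶠ t in 𝓝[>] (0 : ℝ), f (y + t • x) = f y + t * c := by
  obtain ⟨g, h, hg, hh, hf⟩ := isPL_iff.1 hf
  obtain ⟨c1, h1⟩ := cv_local hg y x
  obtain ⟨c2, h2⟩ := cv_local hh y x
  refine ⟨c1 - c2, ?_⟩
  filter_upwards [h1, h2] with t ht1 ht2
  rw [hf, hf, ht1, ht2]
  ring

/-- two points on a small interval. -/
theorem pl_local' {f : V → ℝ} (hf : IsPL f) (y x : V) :
    ∃ c t : ℝ, 0 < t ∧ f (y + t • x) = f y + t * c ∧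
      f (y + (2 * t) • x) = f y + (2 * t) * c := by
  obtain ⟨c, hc⟩ := pl_local hf y x
  obtain ⟨u, hu, hu'⟩ := (mem_nhdsGT_iff_exists_Ioo_subset).1 hc
  have hu0 : (0 : ℝ) < u := hu
  refine ⟨c, u / 4, by linarith, hu' ⟨by linarith, by linarith⟩, hu' ⟨by linarith, by linarith⟩⟩

end Local

/-- sign order of two reals -/
def Le1 (u v : ℝ) : Prop := u = 0 ∨ 0 < u * v

theorem Le1.refl (u : ℝ) : Le1 u u := by
  by_cases h : u = 0
  · exact Or.inl h
  · exact Or.inr (mul_self_pos.2 h)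

theorem Le1.trans {u v w : ℝ} (h1 : Le1 u v) (h2 : Le1 v w) : Le1 u w := by
  rcases h1 with h1 | h1
  · exact Or.inl h1
  · rcases h2 with h2 | h2
    · rw [h2] at h1; simp at h1
    · right
      have hv : v ≠ 0 := by rintro rfl; simp at h1
      have h3 : 0 < (u * v) * (v * w) := mul_pos h1 h2
      have h4 : (u * v) * (v * w) = (u * w) * (v * v) := by ring
      rw [h4] at h3
      exact pos_of_mul_pos_left h3 (mul_self_pos.2 hv).le

/-- The data: finitely many sign functions and a gauge. -/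
structure Dt (ι : Type*) (d : ℕ) where
  /-- sign functions -/
  s : ι → EuclideanSpace ℝ (Fin d) → ℝ
  /-- gauge -/
  Ψ : EuclideanSpace ℝ (Fin d) → ℝ
  hs : ∀ i c y, 0 ≤ c → s i (c • y) = c * s i y
  pl : IsPL Ψ
  nn : ∀ y, 0 ≤ Ψ y
  pos : ∀ y, Ψ y = 0 → y = 0
  sub : ∀ y₁ y₂, Ψ (y₁ + y₂) ≤ Ψ y₁ + Ψ y₂
  eq : ∀ y₁ y₂, Ψ (y₁ + y₂) = Ψ y₁ + Ψ y₂ →
    ∀ i, 0 ≤ s i y₁ * s i y₂ ∧ s i (y₁ + y₂) = s i y₁ + s i y₂
  loc : ∀ y y₀, (∀ i, Le1 (s i y) (s i y₀)) → ∃ ε : ℝ, 0 < ε ∧ Ψ y₀ = Ψ (y₀ - ε • y) + ε * Ψ y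

namespace Dt

variable {ι : Type*} {d : ℕ} (D : Dt ι d)


/-- sign order of two points -/
def Le (y y₀ : EuclideanSpace ℝ (Fin d)) : Prop := ∀ i, Le1 (D.s i y) (D.s i y₀)

theorem Le.refl (y : EuclideanSpace ℝ (Fin d)) : D.Le y y := fun _ => Le1.refl _

theorem Le.trans {y₁ y₂ y₃ : EuclideanSpace ℝ (Fin d)} (h1 : D.Le y₁ y₂) (h2 : D.Le y₂ y₃) : D.Le y₁ y₃ :=
  fun i => (h1 i).trans (h2 i)

theorem hom {c : ℝ} (hc : 0 ≤ c) (y : EuclideanSpace ℝ (Fin d)) : D.Ψ (c • y) = c * D.Ψ y := D.pl.hom hc y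

theorem zero : D.Ψ 0 = 0 := D.pl.map_zero

theorem s_zero (i : ι) : D.s i 0 = 0 := by
  have := D.hs i 0 0 le_rfl
  simpa using this

theorem pos' {y : EuclideanSpace ℝ (Fin d)} (hy : y ≠ 0) : 0 < D.Ψ y :=
  lt_of_le_of_ne (D.nn y) fun h => hy (D.pos y h.symm)

theorem le_smul {c : ℝ} (hc : 0 < c) {y y₀ : EuclideanSpace ℝ (Fin d)} : D.Le (c • y) y₀ ↔ D.Le y y₀ := by
  unfold Le
  refine forall_congr' fun i => ?_
  rw [D.hs i c y hc.le]
  unfold Le1
  rw [mul_assoc]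
  constructor
  · rintro (h | h)
    · left
      rcases mul_eq_zero.1 h with h | h
      · exact absurd h hc.ne'
      · exact h
    · exact Or.inr (pos_of_mul_pos_right h hc.le)
  · rintro (h | h)
    · left; rw [h, mul_zero]
    · exact Or.inr (mul_pos hc h)

theorem le_zero {y : EuclideanSpace ℝ (Fin d)} (h : D.Le y 0) : y = 0 := by
  obtain ⟨ε, hε, he⟩ := D.loc y 0 h
  have h1 := D.nn (0 - ε • y)
  have h2 := D.nn y
  rw [D.zero] at he
  have : ε * D.Ψ y ≤ 0 := by linarith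
  have h3 : D.Ψ y ≤ 0 := by
    by_contra hh
    push Not at hh
    nlinarith [mul_pos hε hh]
  exact D.pos y (le_antisymm h3 h2)

theorem conv {y y₀ : EuclideanSpace ℝ (Fin d)} {ε : ℝ} (hε : 0 < ε) (h : D.Ψ y₀ = D.Ψ (y₀ - ε • y) + ε * D.Ψ y) :
    D.Le y y₀ := by
  intro i
  have h1 := D.eq (y₀ - ε • y) (ε • y) (by rw [sub_add_cancel, D.hom hε.le]; exact h) i
  rw [sub_add_cancel, D.hs i ε y hε.le] at h1
  obtain ⟨h2, h3⟩ := h1
  set u := D.s i y
  set v := D.s i (y₀ - ε • y)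
  rw [h3]
  have h4 : 0 ≤ v * u := by
    have : 0 ≤ ε * (v * u) := by linarith [h2, (by ring : v * (ε * u) = ε * (v * u))]
    exact nonneg_of_mul_nonneg_right this hε
  by_cases hu : u = 0
  · exact Or.inl hu
  · right
    have := mul_self_pos.2 hu
    nlinarith [mul_pos hε this]

/-- support functional at a point -/
theorem supp (y : EuclideanSpace ℝ (Fin d)) : ∃ l : EuclideanSpace ℝ (Fin d) →ₗ[ℝ] ℝ, (∀ x, l x ≤ D.Ψ x) ∧ l y = D.Ψ y := by
  by_cases hy : y = 0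
  · exact ⟨0, fun x => by simpa using D.nn x, by rw [hy, D.zero]; simp⟩
  · obtain ⟨l, hl1, hl2⟩ := exists_extension_of_le_sublinear
      (LinearPMap.mkSpanSingleton (K := ℝ) y (D.Ψ y) hy) D.Ψ
      (fun c hc x => D.hom hc.le x) D.sub (by
        rintro ⟨x, hx⟩
        obtain ⟨c, rfl⟩ := Submodule.mem_span_singleton.1 hx
        rw [LinearPMap.mkSpanSingleton'_apply]
        simp only [smul_eq_mul, RingHom.id_apply]
        rcases le_total 0 c with hc | hc
        · rw [D.hom hc]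
        · exact (mul_nonpos_of_nonpos_of_nonneg hc (D.nn y)).trans (D.nn _))
    refine ⟨l, hl2, ?_⟩
    have := hl1 ⟨y, Submodule.mem_span_singleton_self y⟩
    rw [this]
    exact LinearPMap.mkSpanSingleton'_apply_self _ _ _ _

theorem supp_lt {y₀ x : EuclideanSpace ℝ (Fin d)} (hx : ¬ D.Le x y₀) :
    ∃ l : EuclideanSpace ℝ (Fin d) →ₗ[ℝ] ℝ, (∀ z, l z ≤ D.Ψ z) ∧ l y₀ = D.Ψ y₀ ∧ l x < D.Ψ x := by
  obtain ⟨c, t, ht, h1, h2⟩ := pl_local' D.pl y₀ (-x)
  obtain ⟨l, hl, hl'⟩ := D.supp (y₀ + t • (-x))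
  have e0 := hl y₀
  have e2 := hl (y₀ + (2 * t) • (-x))
  rw [h2] at e2
  rw [h1] at hl'
  simp only [map_add, map_smul, map_neg, smul_eq_mul] at e2 hl'
  have e3 : l y₀ = D.Ψ y₀ := by linarith
  have e4 : l x = -c := by
    have : t * (l x + c) = 0 := by linarith
    rcases mul_eq_zero.1 this with h | h
    · exact absurd h ht.ne'
    · linarith
  refine ⟨l, hl, e3, lt_of_le_of_ne (hl x) fun heq => hx ?_⟩
  refine D.conv ht ?_
  have e5 : y₀ - t • x = y₀ + t • (-x) := by rw [smul_neg, sub_eq_add_neg]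
  rw [e5, h1, ← heq, e4]
  ring

section Cnt
variable [Finite ι]

open Classical in
/-- number of nonzero signs -/
noncomputable def cnt (y : EuclideanSpace ℝ (Fin d)) : ℕ := Nat.card {i : ι // D.s i y ≠ 0}

theorem Le.symm_of_cnt {y' y : EuclideanSpace ℝ (Fin d)} (h : D.Le y' y) (hc : D.cnt y ≤ D.cnt y') : D.Le y y' := by
  classical
  have := Fintype.ofFinite ι
  have hsub : (Finset.univ.filter fun i => D.s i y' ≠ 0) ⊆
      (Finset.univ.filter fun i => D.s i y ≠ 0) := by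
    intro i hi
    simp only [Finset.mem_filter, Finset.mem_univ, true_and] at hi ⊢
    rcases h i with h1 | h1
    · exact absurd h1 hi
    · intro h2
      rw [h2] at h1
      simp at h1
  have e1 : D.cnt y = (Finset.univ.filter fun i => D.s i y ≠ 0).card := by
    unfold cnt
    rw [Nat.card_eq_fintype_card, Fintype.card_subtype]
  have e2 : D.cnt y' = (Finset.univ.filter fun i => D.s i y' ≠ 0).card := by
    unfold cnt
    rw [Nat.card_eq_fintype_card, Fintype.card_subtype]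
  have heq := Finset.eq_of_subset_of_card_le hsub (by rw [← e1, ← e2]; exact hc)
  intro i
  by_cases hi : D.s i y = 0
  · exact Or.inl hi
  · right
    have : i ∈ (Finset.univ.filter fun i => D.s i y' ≠ 0) := by
      rw [heq]; simp [hi]
    simp only [Finset.mem_filter, Finset.mem_univ, true_and] at this
    rcases h i with h1 | h1
    · exact absurd h1 this
    · rw [mul_comm]; exact h1

theorem cnt_lt {y' y : EuclideanSpace ℝ (Fin d)} (h : D.Le y' y) (hc : ¬ D.Le y y') : D.cnt y' < D.cnt y := by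
  by_contra hh
  push Not at hh
  exact hc (Le.symm_of_cnt D h hh)

/-- every dominated functional touches the gauge along a cell -/
theorem cell (l : EuclideanSpace ℝ (Fin d) →ₗ[ℝ] ℝ) (hl : ∀ z, l z ≤ D.Ψ z) :
    ∃ y₀, l y₀ = D.Ψ y₀ ∧ ∀ y, l y = D.Ψ y ↔ D.Le y y₀ := by
  classical
  have := Fintype.ofFinite ι
  have hbd : ∀ y, D.cnt y ≤ Nat.card ι := by
    intro y
    exact Nat.card_le_card_of_injective (Subtype.val) Subtype.val_injective
  -- choose maximal count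
  obtain ⟨y₀, hy₀, hmax⟩ : ∃ y₀, l y₀ = D.Ψ y₀ ∧ ∀ y, l y = D.Ψ y → D.cnt y ≤ D.cnt y₀ := by
    have hex : ∃ n, ∃ y, l y = D.Ψ y ∧ D.cnt y = n := ⟨_, 0, by rw [D.zero]; simp, rfl⟩
    have hne : {n | ∃ y, l y = D.Ψ y ∧ D.cnt y = n}.Nonempty := hex
    have hba : BddAbove {n | ∃ y, l y = D.Ψ y ∧ D.cnt y = n} :=
      ⟨Nat.card ι, by rintro n ⟨y, _, rfl⟩; exact hbd y⟩
    obtain ⟨y₀, h1, h2⟩ := Nat.sSup_mem hne hba
    exact ⟨y₀, h1, fun y hy => by rw [h2]; exact le_csSup hba ⟨y, hy, rfl⟩⟩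
  refine ⟨y₀, hy₀, fun y => ⟨fun hy => ?_, fun hy => ?_⟩⟩
  · have h1 : D.Ψ (y + y₀) = D.Ψ y + D.Ψ y₀ := by
      refine le_antisymm (D.sub _ _) ?_
      have := hl (y + y₀)
      rw [map_add, hy, hy₀] at this
      exact this
    have h2 : l (y + y₀) = D.Ψ (y + y₀) := by rw [map_add, hy, hy₀, h1]
    have h3 := D.eq y y₀ h1
    have h4 : D.Le y₀ (y + y₀) := by
      intro i
      obtain ⟨ha, hb⟩ := h3 i
      rw [hb]
      by_cases h0 : D.s i y₀ = 0
      · exact Or.inl h0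
      · right
        have := mul_self_pos.2 h0
        nlinarith
    have h5 : D.Le y (y + y₀) := by
      intro i
      obtain ⟨ha, hb⟩ := h3 i
      rw [hb]
      by_cases h0 : D.s i y = 0
      · exact Or.inl h0
      · right
        have := mul_self_pos.2 h0
        nlinarith
    exact h5.trans D (Le.symm_of_cnt D h4 (hmax _ h2))
  · obtain ⟨ε, hε, he⟩ := D.loc y y₀ hy
    have h1 := hl (y₀ - ε • y)
    have h2 := hl y
    rw [map_sub, map_smul, smul_eq_mul, hy₀] at h1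
    refine le_antisymm h2 ?_
    have : ε * D.Ψ y ≤ ε * l y := by linarith
    exact le_of_mul_le_mul_left this hε

/-- every cell is the contact set of a dominated functional -/
theorem cell' (y₀ : EuclideanSpace ℝ (Fin d)) : ∃ l : EuclideanSpace ℝ (Fin d) →ₗ[ℝ] ℝ, (∀ z, l z ≤ D.Ψ z) ∧ ∀ y, l y = D.Ψ y ↔ D.Le y y₀ := by
  classical
  -- minimal count
  have hex : ∃ n, ∃ l : EuclideanSpace ℝ (Fin d) →ₗ[ℝ] ℝ, (∀ z, l z ≤ D.Ψ z) ∧ l y₀ = D.Ψ y₀ ∧
      ∃ y₁, l y₁ = D.Ψ y₁ ∧ (∀ y, l y = D.Ψ y ↔ D.Le y y₁) ∧ D.cnt y₁ = n := by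
    obtain ⟨l, hl, hl'⟩ := D.supp y₀
    obtain ⟨y₁, h1, h2⟩ := D.cell l hl
    exact ⟨_, l, hl, hl', y₁, h1, h2, rfl⟩
  obtain ⟨l, hl, hl', y₁, h1, h2, h3⟩ := Nat.find_spec hex
  have hmin := fun m => Nat.find_min' hex (m := m)
  rw [← h3] at hmin
  have h01 : D.Le y₀ y₁ := (h2 y₀).1 hl'
  have h10 : D.Le y₁ y₀ := by
    by_contra hh
    obtain ⟨m, hm, hm', hm''⟩ := D.supp_lt hh
    have hav : ∀ z, ((1 / 2 : ℝ) • (l + m)) z ≤ D.Ψ z := by
      intro z
      simp only [LinearMap.smul_apply, LinearMap.add_apply, smul_eq_mul]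
      linarith [hl z, hm z]
    obtain ⟨y₂, h4, h5⟩ := D.cell _ hav
    have h6 : ((1 / 2 : ℝ) • (l + m)) y₀ = D.Ψ y₀ := by
      simp only [LinearMap.smul_apply, LinearMap.add_apply, smul_eq_mul]
      linarith
    have h7 := hmin _ ⟨_, hav, h6, y₂, h4, h5, rfl⟩
    have h8 : D.Le y₂ y₁ := by
      rw [← h2]
      simp only [LinearMap.smul_apply, LinearMap.add_apply, smul_eq_mul] at h4
      linarith [hl y₂, hm y₂]
    have h9 : ¬ D.Le y₁ y₂ := by
      rw [← h5]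
      simp only [LinearMap.smul_apply, LinearMap.add_apply, smul_eq_mul]
      intro h
      linarith [hl y₁, hm y₁]
    exact absurd h7 (not_le.2 (D.cnt_lt h8 h9))
  exact ⟨l, hl, fun y => (h2 y).trans ⟨fun h => h.trans D h10, fun h => h.trans D h01⟩⟩

end Cnt

end Dt

end Gauge

end Pool.Agent.DF302A
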