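import Pool.Agent.Work.MP_df302a_co.Gauge2

/-! # MP_df302a_co : exposed faces of the unit ball of a gauge, and the group action. -/

namespace Pool.Agent.DF302A

open Filter Topology

namespace Gauge

namespace Dt

variable {ι : Type*} {d : ℕ} (D : Dt ι d)


/-- unit ball -/
def ball : Set (EuclideanSpace ℝ (Fin d)) := {y | D.Ψ y ≤ 1}

/-- the proper face of a point -/
def fc (y₀ : EuclideanSpace ℝ (Fin d)) : Set (EuclideanSpace ℝ (Fin d)) := {y | D.Ψ y = 1 ∧ D.Le y y₀}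

theorem norm_one {y : EuclideanSpace ℝ (Fin d)} (hy : y ≠ 0) : D.Ψ ((D.Ψ y)⁻¹ • y) = 1 := by
  have h := D.pos' hy
  rw [D.hom (inv_nonneg.2 h.le), inv_mul_cancel₀ h.ne']

theorem norm_mem_fc {y : EuclideanSpace ℝ (Fin d)} (hy : y ≠ 0) : (D.Ψ y)⁻¹ • y ∈ D.fc y :=
  ⟨D.norm_one hy, (D.le_smul (inv_pos.2 (D.pos' hy))).2 (Le.refl D y)⟩

/-- a functional bounded by `1` on the ball is dominated by the gauge -/
theorem dom_of_ball (l : EuclideanSpace ℝ (Fin d) →ₗ[ℝ] ℝ) (hl : ∀ y ∈ D.ball, l y ≤ 1) (z : EuclideanSpace ℝ (Fin d)) : l z ≤ D.Ψ z := by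
  by_cases hz : z = 0
  · rw [hz, D.zero]; simp
  · have h := D.pos' hz
    have h1 := hl ((D.Ψ z)⁻¹ • z) (D.norm_one hz).le
    rw [map_smul, smul_eq_mul, inv_mul_le_iff₀ h, mul_one] at h1
    exact h1

theorem fc_exposed [Finite ι] {y₀ : EuclideanSpace ℝ (Fin d)} (hy₀ : y₀ ≠ 0) : IsExposed ℝ D.ball (D.fc y₀) := by
  intro _
  obtain ⟨l, hl, hl'⟩ := D.cell' y₀
  refine ⟨LinearMap.toContinuousLinearMap l, ?_⟩
  ext x
  constructor
  · rintro ⟨h1, h2⟩
    refine ⟨h1.le, fun y hy => ?_⟩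
    have e1 : l x = 1 := by rw [(hl' x).2 h2, h1]
    have e2 : l y ≤ 1 := (hl y).trans hy
    simpa [e1] using e2
  · rintro ⟨h1, h2⟩
    have e1 : (1 : ℝ) ≤ l x := by
      have h3 := h2 ((D.Ψ y₀)⁻¹ • y₀) (D.norm_one hy₀).le
      have h4 : l ((D.Ψ y₀)⁻¹ • y₀) = 1 := by
        rw [map_smul, smul_eq_mul, (hl' y₀).2 (Le.refl D y₀), inv_mul_cancel₀ (D.pos' hy₀).ne']
      have h5 : l ((D.Ψ y₀)⁻¹ • y₀) ≤ l x := by simpa using h3
      linarith
    have e2 := hl x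
    have e3 : D.Ψ x ≤ 1 := h1
    exact ⟨le_antisymm e3 (e1.trans e2), (hl' x).1 (le_antisymm e2 (e3.trans e1))⟩

theorem exposed_cases [Finite ι] {F : Set (EuclideanSpace ℝ (Fin d))} (hF : IsExposed ℝ D.ball F) :
    F = ∅ ∨ F = D.ball ∨ ∃ y₀, y₀ ≠ 0 ∧ F = D.fc y₀ := by
  rcases F.eq_empty_or_nonempty with h | hne
  · exact Or.inl h
  right
  obtain ⟨l, hl⟩ := hF hne
  by_cases h0 : ∀ y ∈ D.ball, l y ≤ 0
  · left
    have hl0 : ∀ y, l y = 0 := by
      intro y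
      have hd : ∀ z, l z ≤ 0 := by
        intro z
        by_cases hz : z = 0
        · rw [hz]; simp
        · have h1 := h0 ((D.Ψ z)⁻¹ • z) (D.norm_one hz).le
          rw [map_smul, smul_eq_mul] at h1
          have h2 := inv_pos.2 (D.pos' hz)
          by_contra hh
          push Not at hh
          linarith [mul_pos h2 hh]
      have h1 := hd y
      have h2 := hd (-y)
      rw [map_neg] at h2
      linarith
    rw [hl]
    ext x
    simp [hl0]
  · right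
    push Not at h0
    obtain ⟨w, hw, hw0⟩ := h0
    obtain ⟨x, hx⟩ := hne
    have hx' := hx
    rw [hl] at hx'
    obtain ⟨hxb, hxm⟩ := hx'
    have hm : 0 < l x := hw0.trans_le (hxm w hw)
    set m := (l x)⁻¹ • (l : EuclideanSpace ℝ (Fin d) →ₗ[ℝ] ℝ) with hmdef
    have hmv : ∀ y, m y = (l x)⁻¹ * l y := fun y => by simp [hmdef]
    have hmb : ∀ y ∈ D.ball, m y ≤ 1 := by
      intro y hy
      rw [hmv, inv_mul_le_iff₀ hm, mul_one]
      exact hxm y hy
    have hmd := D.dom_of_ball m hmb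
    obtain ⟨y₀, hy₀, hy₀'⟩ := D.cell m hmd
    have hmx : m x = 1 := by rw [hmv, inv_mul_cancel₀ hm.ne']
    have hxΨ : D.Ψ x = 1 := le_antisymm hxb (hmx ▸ hmd x)
    refine ⟨y₀, ?_, ?_⟩
    · rintro rfl
      have := (hy₀' x).1 (by rw [hmx, hxΨ])
      have := D.le_zero this
      rw [this, map_zero] at hm
      exact lt_irrefl _ hm
    · ext y
      constructor
      · intro hy
        have hy' := hy
        rw [hl] at hy'
        obtain ⟨hyb, hym⟩ := hy'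
        have e1 : l y = l x := le_antisymm (hxm y hyb) (hym x hxb)
        have e2 : m y = 1 := by rw [hmv, e1, inv_mul_cancel₀ hm.ne']
        have e3 : D.Ψ y = 1 := le_antisymm hyb (e2 ▸ hmd y)
        exact ⟨e3, (hy₀' y).1 (by rw [e2, e3])⟩
      · rintro ⟨h1, h2⟩
        rw [hl]
        refine ⟨h1.le, fun z hz => ?_⟩
        have e1 : m y = 1 := by rw [(hy₀' y).2 h2, h1]
        rw [hmv, inv_mul_eq_iff_eq_mul₀ hm.ne', mul_one] at e1
        rw [e1]
        exact hxm z hz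

theorem ball_exposed : IsExposed ℝ D.ball D.ball := fun _ => ⟨0, by ext x; simp⟩

end Dt

/-- a gauge with a group action preserving the cells -/
structure Act (G : Type) [Group G] {ι : Type*} {d : ℕ} (D : Dt ι d) where
  /-- the action -/
  α : G → EuclideanSpace ℝ (Fin d) → EuclideanSpace ℝ (Fin d)
  one : ∀ y, α 1 y = y
  mul : ∀ a b y, α a (α b y) = α (a * b) y
  hom : ∀ a (c : ℝ) y, 0 ≤ c → α a (c • y) = c • α a y
  perm : ∀ i a, ∃ j, ∀ y, D.s i (α a y) = D.s j y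
  sep : ∀ a, a ≠ 1 → ∃ y i, 0 < D.s i y ∧ D.s i (α a y) < 0

namespace Act

variable {G : Type} [Group G] {ι : Type*} {d : ℕ} {D : Dt ι d} (A : Act G D)


theorem zero (a : G) : A.α a 0 = 0 := by
  have := A.hom a 0 0 le_rfl
  simpa using this

theorem inv_left (a : G) (y : EuclideanSpace ℝ (Fin d)) : A.α a⁻¹ (A.α a y) = y := by rw [A.mul, inv_mul_cancel, A.one]

theorem ne {a : G} {y : EuclideanSpace ℝ (Fin d)} (hy : y ≠ 0) : A.α a y ≠ 0 := by
  intro h
  apply hy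
  rw [← A.inv_left a y, h, A.zero]

theorem le_of (a : G) {y y₀ : EuclideanSpace ℝ (Fin d)} (h : D.Le y y₀) : D.Le (A.α a y) (A.α a y₀) := by
  intro i
  obtain ⟨j, hj⟩ := A.perm i a
  rw [hj, hj]
  exact h j

theorem le_iff (a : G) {y y₀ : EuclideanSpace ℝ (Fin d)} : D.Le (A.α a y) (A.α a y₀) ↔ D.Le y y₀ := by
  refine ⟨fun h => ?_, A.le_of a⟩
  have := A.le_of a⁻¹ h
  rwa [A.inv_left, A.inv_left] at this

/-- the normalised action -/
noncomputable def Θ (a : G) (y : EuclideanSpace ℝ (Fin d)) : EuclideanSpace ℝ (Fin d) := (D.Ψ y / D.Ψ (A.α a y)) • A.α a y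

theorem Θ_zero (a : G) : A.Θ a 0 = 0 := by simp [Θ, A.zero]

theorem Ψ_Θ (a : G) (y : EuclideanSpace ℝ (Fin d)) : D.Ψ (A.Θ a y) = D.Ψ y := by
  by_cases hy : y = 0
  · rw [hy, A.Θ_zero]
  · have h1 := D.pos' hy
    have h2 := D.pos' (A.ne (a := a) hy)
    rw [Θ, D.hom (div_nonneg h1.le h2.le), div_mul_cancel₀ _ h2.ne']

theorem Θ_one (y : EuclideanSpace ℝ (Fin d)) : A.Θ 1 y = y := by
  by_cases hy : y = 0
  · rw [hy, A.Θ_zero]
  · rw [Θ, A.one, div_self (D.pos' hy).ne', one_smul]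

theorem Θ_mul (a b : G) (y : EuclideanSpace ℝ (Fin d)) : A.Θ a (A.Θ b y) = A.Θ (a * b) y := by
  by_cases hy : y = 0
  · rw [hy, A.Θ_zero, A.Θ_zero, A.Θ_zero]
  · have h1 := D.pos' hy
    have h2 := D.pos' (A.ne (a := b) hy)
    have h3 := D.pos' (A.ne (a := a * b) hy)
    have hc : 0 < D.Ψ y / D.Ψ (A.α b y) := div_pos h1 h2
    have e1 : A.Θ a (A.Θ b y) = (D.Ψ (A.Θ b y) / D.Ψ (A.α a (A.Θ b y))) • A.α a (A.Θ b y) := rfl
    rw [e1, A.Ψ_Θ]
    have e2 : A.α a (A.Θ b y) = (D.Ψ y / D.Ψ (A.α b y)) • A.α (a * b) y := by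
      rw [Θ, A.hom _ _ _ hc.le, A.mul]
    rw [e2, D.hom hc.le, smul_smul, Θ]
    congr 1
    rw [mul_comm (D.Ψ y / D.Ψ (A.α b y)), div_mul_eq_mul_div, mul_div_mul_right _ _ hc.ne']

theorem Θ_le (a : G) {y y₀ : EuclideanSpace ℝ (Fin d)} (hy : y ≠ 0) : D.Le (A.Θ a y) (A.α a y₀) ↔ D.Le y y₀ := by
  rw [Θ, D.le_smul (div_pos (D.pos' hy) (D.pos' (A.ne hy))), A.le_iff]

theorem Θ_inj (a : G) : Function.Injective (A.Θ a) := by
  intro x y h
  have h1 : A.Θ a⁻¹ (A.Θ a x) = A.Θ a⁻¹ (A.Θ a y) := by rw [h]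
  rwa [A.Θ_mul, A.Θ_mul, inv_mul_cancel, A.Θ_one, A.Θ_one] at h1

theorem image_comp (a b : G) (S : Set (EuclideanSpace ℝ (Fin d))) : A.Θ a '' (A.Θ b '' S) = A.Θ (a * b) '' S := by
  rw [Set.image_image]
  exact Set.image_congr fun y _ => A.Θ_mul a b y

theorem image_one (S : Set (EuclideanSpace ℝ (Fin d))) : A.Θ 1 '' S = S := by
  have : A.Θ 1 '' S = id '' S := Set.image_congr fun y _ => A.Θ_one y
  rw [this, Set.image_id]

theorem mem_image (a : G) (S : Set (EuclideanSpace ℝ (Fin d))) (y : EuclideanSpace ℝ (Fin d)) : y ∈ A.Θ a '' S ↔ A.Θ a⁻¹ y ∈ S := by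
  constructor
  · rintro ⟨x, hx, rfl⟩
    rwa [A.Θ_mul, inv_mul_cancel, A.Θ_one]
  · intro h
    exact ⟨_, h, by rw [A.Θ_mul, mul_inv_cancel, A.Θ_one]⟩

theorem image_ball (a : G) : A.Θ a '' D.ball = D.ball := by
  ext y
  rw [A.mem_image]
  unfold Dt.ball
  rw [Set.mem_ofPred_eq, Set.mem_ofPred_eq, A.Ψ_Θ]

theorem image_fc (a : G) {y₀ : EuclideanSpace ℝ (Fin d)} : A.Θ a '' D.fc y₀ = D.fc (A.α a y₀) := by
  ext y
  rw [A.mem_image]
  unfold Dt.fc
  rw [Set.mem_ofPred_eq, Set.mem_ofPred_eq, A.Ψ_Θ]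
  refine and_congr_right fun h => ?_
  have hy : y ≠ 0 := by
    rintro rfl
    rw [D.zero] at h
    exact zero_ne_one h
  have := A.Θ_le a⁻¹ (y₀ := A.α a y₀) hy
  rwa [A.inv_left] at this

theorem image_exposed [Finite ι] (a : G) {F : Set (EuclideanSpace ℝ (Fin d))} (hF : IsExposed ℝ D.ball F) :
    IsExposed ℝ D.ball (A.Θ a '' F) := by
  rcases D.exposed_cases hF with h | h | ⟨y₀, hy₀, h⟩
  · rw [h, Set.image_empty]
    intro hh
    exact absurd hh Set.not_nonempty_empty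
  · rw [h, A.image_ball]
  · rw [h, A.image_fc]
    exact D.fc_exposed (A.ne hy₀)

/-- the action on faces -/
noncomputable def φ [Finite ι] : G →* CombAut D.ball where
  toFun a :=
    { toFun := fun F => ⟨A.Θ a '' F.1, A.image_exposed a F.2⟩
      invFun := fun F => ⟨A.Θ a⁻¹ '' F.1, A.image_exposed a⁻¹ F.2⟩
      left_inv := fun F => Subtype.ext (by
        change A.Θ a⁻¹ '' (A.Θ a '' F.1) = F.1
        rw [A.image_comp, inv_mul_cancel, A.image_one])
      right_inv := fun F => Subtype.ext (by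
        change A.Θ a '' (A.Θ a⁻¹ '' F.1) = F.1
        rw [A.image_comp, mul_inv_cancel, A.image_one])
      map_rel_iff' := fun {F F'} => by
        change A.Θ a '' F.1 ⊆ A.Θ a '' F'.1 ↔ F.1 ⊆ F'.1
        exact Set.image_subset_image_iff (A.Θ_inj a) }
  map_one' := by
    apply RelIso.ext
    intro F
    exact Subtype.ext (A.image_one F.1)
  map_mul' a b := by
    apply RelIso.ext
    intro F
    exact Subtype.ext (A.image_comp a b F.1).symm

theorem φ_inj [Finite ι] : Function.Injective A.φ := by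
  rw [injective_iff_map_eq_one]
  intro a ha
  by_contra hne
  obtain ⟨y, i, h1, h2⟩ := A.sep a hne
  have hy : y ≠ 0 := by
    rintro rfl
    rw [D.s_zero] at h1
    exact lt_irrefl _ h1
  have h3 : A.Θ a '' D.fc y = D.fc y := by
    have h4 : A.φ a ⟨D.fc y, D.fc_exposed hy⟩ = ⟨D.fc y, D.fc_exposed hy⟩ := by
      rw [ha]; rfl
    exact congrArg Subtype.val h4
  rw [A.image_fc] at h3
  have h5 := D.norm_mem_fc hy
  rw [← h3] at h5
  have h6 := (D.le_smul (inv_pos.2 (D.pos' hy))).1 h5.2 i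
  rcases h6 with h6 | h6
  · exact h1.ne' h6
  · exact absurd (mul_neg_of_pos_of_neg h1 h2) (not_lt.2 h6.le)

end Act

end Gauge

end Pool.Agent.DF302A
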