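import Pool.Agent.Work.MP_df302a_co.Gauge2

/-! # MP_df302a_co : the unit ball of a gauge is a polytope. -/

namespace Pool.Agent.DF302A

open Filter Topology

/-- piecewise linear functions on a finite dimensional space are continuous -/
theorem IsPL.continuous {E : Type*} [NormedAddCommGroup E] [NormedSpace ℝ E]
    [FiniteDimensional ℝ E] {f : E → ℝ} (hf : IsPL f) : Continuous f := by
  obtain ⟨A, B, hA, hB, h⟩ := hf
  have h1 : f = fun y => A.sup' hA (fun a => a y) - B.sup' hB (fun b => b y) := funext h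
  rw [h1]
  refine Continuous.sub ?_ ?_
  · exact Continuous.finset_sup'_apply hA fun a _ => a.continuous_of_finiteDimensional
  · exact Continuous.finset_sup'_apply hB fun a _ => a.continuous_of_finiteDimensional

namespace Gauge

namespace Dt

variable {ι : Type*} {d : ℕ} (D : Dt ι d)

theorem convex_ball : Convex ℝ {y | D.Ψ y ≤ 1} := by
  intro y hy z hz a b ha hb hab
  have h1 := D.sub (a • y) (b • z)
  rw [D.hom ha, D.hom hb] at h1
  have hy' : D.Ψ y ≤ 1 := hy
  have hz' : D.Ψ z ≤ 1 := hz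
  show D.Ψ (a • y + b • z) ≤ 1
  have h2 := mul_le_mul_of_nonneg_left hy' ha
  have h3 := mul_le_mul_of_nonneg_left hz' hb
  linarith

theorem exists_bound : ∃ c : ℝ, 0 < c ∧ ∀ y, c * ‖y‖ ≤ D.Ψ y := by
  obtain ⟨c, hc, h⟩ : ∃ c : ℝ, 0 < c ∧
      ∀ y ∈ Metric.sphere (0 : EuclideanSpace ℝ (Fin d)) 1, c ≤ D.Ψ y := by
    rcases (Metric.sphere (0 : EuclideanSpace ℝ (Fin d)) 1).eq_empty_or_nonempty with h0 | h0
    · exact ⟨1, one_pos, fun y hy => by rw [h0] at hy; exact absurd hy (Set.notMem_empty y)⟩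
    · obtain ⟨z, hz, hz'⟩ := (isCompact_sphere (0 : EuclideanSpace ℝ (Fin d)) 1).exists_isMinOn h0
        D.pl.continuous.continuousOn
      refine ⟨D.Ψ z, D.pos' ?_, fun y hy => hz' hy⟩
      rintro rfl
      simp at hz
  refine ⟨c, hc, fun y => ?_⟩
  by_cases hy : y = 0
  · rw [hy, norm_zero, mul_zero, D.zero]
  · have hn : 0 < ‖y‖ := norm_pos_iff.2 hy
    have h1 := h (‖y‖⁻¹ • y) (by
      rw [mem_sphere_zero_iff_norm, norm_smul, norm_inv, norm_norm, inv_mul_cancel₀ hn.ne'])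
    rw [D.hom (inv_nonneg.2 hn.le)] at h1
    have h2 := mul_le_mul_of_nonneg_left h1 hn.le
    rw [mul_inv_cancel_left₀ hn.ne'] at h2
    linarith

theorem isCompact_ball : IsCompact {y | D.Ψ y ≤ 1} := by
  obtain ⟨c, hc, h⟩ := D.exists_bound
  refine (isCompact_closedBall (0 : EuclideanSpace ℝ (Fin d)) c⁻¹).of_isClosed_subset
    (isClosed_le D.pl.continuous continuous_const) fun y hy => ?_
  have hy' : D.Ψ y ≤ 1 := hy
  rw [mem_closedBall_zero_iff]
  have h1 := (h y).trans hy'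
  have h2 := mul_le_mul_of_nonneg_left h1 (inv_nonneg.2 hc.le)
  rwa [inv_mul_cancel_left₀ hc.ne', mul_one] at h2

theorem interior_ball : (interior {y | D.Ψ y ≤ 1}).Nonempty := by
  have h : {y | D.Ψ y < 1} ⊆ interior {y | D.Ψ y ≤ 1} :=
    interior_maximal (fun y hy => le_of_lt (show D.Ψ y < 1 from hy))
      (isOpen_lt D.pl.continuous continuous_const)
  exact ⟨0, h (by show D.Ψ 0 < 1; rw [D.zero]; exact one_pos)⟩

theorem extreme_one {y : EuclideanSpace ℝ (Fin d)}
    (hy : y ∈ Set.extremePoints ℝ {y | D.Ψ y ≤ 1}) (h0 : y ≠ 0) : D.Ψ y = 1 := by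
  rw [mem_extremePoints] at hy
  obtain ⟨h1, h2⟩ := hy
  have h1' : D.Ψ y ≤ 1 := h1
  by_contra hne
  have hlt : D.Ψ y < 1 := lt_of_le_of_ne h1' hne
  have hp := D.pos' h0
  have h3 := h2 0 (by show D.Ψ 0 ≤ 1; rw [D.zero]; exact zero_le_one)
    ((D.Ψ y)⁻¹ • y) (by
      show D.Ψ _ ≤ 1
      rw [D.hom (inv_nonneg.2 hp.le), inv_mul_cancel₀ hp.ne'])
    ⟨1 - D.Ψ y, D.Ψ y, by linarith, hp, by ring, by
      rw [smul_zero, zero_add, smul_smul, mul_inv_cancel₀ hp.ne', one_smul]⟩
  exact h0 h3.1.symm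

theorem extreme_eq {y y' : EuclideanSpace ℝ (Fin d)}
    (hy : y ∈ Set.extremePoints ℝ {y | D.Ψ y ≤ 1}) (hy' : y' ∈ Set.extremePoints ℝ {y | D.Ψ y ≤ 1})
    (hs : ∀ i, SignType.sign (D.s i y) = SignType.sign (D.s i y')) : y = y' := by
  by_cases h0' : y' = 0
  · subst h0'
    refine D.le_zero fun i => Or.inl ?_
    have := hs i
    rw [D.s_zero, sign_zero, sign_eq_zero_iff] at this
    exact this
  by_cases h0 : y = 0
  · subst h0
    refine (D.le_zero fun i => Or.inl ?_).symm
    have := hs i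
    rw [D.s_zero, sign_zero, eq_comm, sign_eq_zero_iff] at this
    exact this
  have e1 := D.extreme_one hy h0
  have e2 := D.extreme_one hy' h0'
  have hle : D.Le y' y := by
    intro i
    rcases lt_trichotomy (D.s i y') 0 with h | h | h
    · right
      have h1 := hs i
      rw [sign_neg h, sign_eq_neg_one_iff] at h1
      exact mul_pos_of_neg_of_neg h h1
    · exact Or.inl h
    · right
      have h1 := hs i
      rw [sign_pos h, sign_eq_one_iff] at h1
      exact mul_pos h h1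
  obtain ⟨ε, hε, he⟩ := D.loc y' y hle
  rw [e1, e2, mul_one] at he
  -- it is enough to prove that `y` is a positive multiple of `y'`
  have key : ∀ c : ℝ, 0 ≤ c → y = c • y' → y = y' := by
    intro c hc h
    have h1 := e1
    rw [h, D.hom hc, e2, mul_one] at h1
    rw [h, h1, one_smul]
  have hb := D.nn (y - ε • y')
  rcases hb.eq_or_lt with hb | hb
  · have h1 := D.pos _ hb.symm
    exact key ε hε.le (sub_eq_zero.1 h1)
  · rw [mem_extremePoints] at hy
    have h3 := hy.2 ((D.Ψ (y - ε • y'))⁻¹ • (y - ε • y')) (by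
        show D.Ψ _ ≤ 1
        rw [D.hom (inv_nonneg.2 hb.le), inv_mul_cancel₀ hb.ne'])
      y' (by show D.Ψ _ ≤ 1; rw [e2])
      ⟨D.Ψ (y - ε • y'), ε, hb, hε, he.symm, by
        rw [smul_smul, mul_inv_cancel₀ hb.ne', one_smul, sub_add_cancel]⟩
    exact h3.2.symm

/-- the unit ball of a gauge is a polytope -/
theorem isPolytope [Finite ι] : IsPolytope {y | D.Ψ y ≤ 1} := by
  have hfin : (Set.extremePoints ℝ {y | D.Ψ y ≤ 1}).Finite := by
    refine Set.Finite.of_finite_image (f := fun y i => SignType.sign (D.s i y))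
      (Set.toFinite _) ?_
    intro y hy y' hy' h
    exact D.extreme_eq hy hy' fun i => congrFun h i
  refine ⟨⟨hfin.toFinset, ?_⟩, D.interior_ball⟩
  rw [Set.Finite.coe_toFinset]
  have h := closure_convexHull_extremePoints D.isCompact_ball D.convex_ball
  have hc : IsClosed (convexHull ℝ (Set.extremePoints ℝ {y | D.Ψ y ≤ 1})) :=
    hfin.isClosed_convexHull ℝ
  rw [hc.closure_eq] at h
  exact h.symm

end Dt

end Gauge

end Pool.Agent.DF302A
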