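import Pool.Agent.Work.MP_df302a_co.LCert

/-! # MP_df302a_co : certificate for the attaching subcomplex and the attaching cycle. -/

set_option autoImplicit false

namespace Pool.Agent.DF302A

open Finset Pool.Agent.DF302A.Orb Pool.Agent.DF302A.PI

/-! ### the functions evaluated by the kernel -/

/-- is the record `f` among the first `k` records of the list `sp` -/
noncomputable def isin (sp ps : ℕ → ℕ) (k f : ℕ) : Bool :=
  cond (Nat.blt (ps f) k) (Nat.beq (sp (ps f)) f) false

/-- check of the facet number `q` of the record `e` at the step `k` -/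
noncomputable def sfck (cw sp ps : ℕ → ℕ) (k e p q : ℕ) : Bool :=
  cond (Nat.beq q p) true (isin sp ps k (fr cw e q))

/-- check of an expansion of the record `e` and its facet number `p` -/
noncomputable def sstp (rt cw sp ps : ℕ → ℕ) (k e f p : ℕ) : Bool :=
  cond (Nat.ble (Nat.pow 1024 p) (rt e))
    (cond (Nat.ble 1024 (rt e))
      (cond (Nat.beq (fr cw e p) f)
        (cond (sfck cw sp ps k e p 0) (cond (sfck cw sp ps k e p 1)
          (cond (Nat.blt (rt e) 1048576) true (sfck cw sp ps k e p 2)) false) false)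
        false) false) false

/-- check of the expansion number `i` -/
noncomputable def sst (rt cw sp ps sb : ℕ → ℕ) (i : ℕ) : Bool :=
  sstp rt cw sp ps (Nat.add (Nat.mul 2 i) 1) (sp (Nat.add (Nat.mul 2 i) 2))
    (sp (Nat.add (Nat.mul 2 i) 1)) (sb i)

/-- check of the positions -/
noncomputable def spos (sp ps : ℕ → ℕ) (NL j : ℕ) : Bool :=
  cond (Nat.blt (sp j) NL) (Nat.beq (ps (sp j)) j) false

/-- check of all elements of a list -/
noncomputable def allL (f : ℕ → Bool) (l : List ℕ) : Bool :=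
  List.rec true (fun a _ ih => cond (f a) ih false) l

/-- removal of one entry -/
noncomputable def rem1 (x : ℕ) (l : List ℕ) : (List ℕ → Bool) → Bool :=
  List.rec (fun _ => false) (fun a l ih k => cond (Nat.beq a x) (k l) (ih (fun r => k (a :: r)))) l

/-- comparison of two lists up to permutation -/
noncomputable def permB (l : List ℕ) : List ℕ → Bool :=
  List.rec (fun l' => List.rec true (fun _ _ _ => false) l') (fun x _ ih l' => rem1 x l' ih) l

/-- the positive part of the boundary of `P - N` -/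
noncomputable def bpos (cw : ℕ → ℕ) (P N : List ℕ) : List ℕ :=
  P.map (fun r => fr cw r 0) ++ (P.map (fun r => fr cw r 2) ++ N.map (fun r => fr cw r 1))

/-! ### the attaching subcomplex -/

/-- certificate for the attaching subcomplex -/
structure SV (rt cw sp ps sb : ℕ → ℕ) (ns NL t0 : ℕ) : Prop where
  pos : ∀ j, j < 2 * ns + 1 → spos sp ps NL j = true
  h0 : rt (sp 0) < 1024
  stp : ∀ i, i < ns → sst rt cw sp ps sb i = true
  t0lt : t0 < NL
  t0c : 1048576 ≤ rt t0
  t0n : isin sp ps (2 * ns + 1) t0 = false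
  t00 : isin sp ps (2 * ns + 1) (fr cw t0 0) = true
  t01 : isin sp ps (2 * ns + 1) (fr cw t0 1) = true
  t02 : isin sp ps (2 * ns + 1) (fr cw t0 2) = true

/-- the complex of the first `k` records of the list `sp` -/
noncomputable def SK (vt rt sp : ℕ → ℕ) (k : ℕ) : Finset (Finset ℕ) :=
  insert ∅ ((Finset.range k).image (fun j => DR vt rt (sp j)))

section
variable {vt rt cw bp sr sp ps sb : ℕ → ℕ} {nV n NL ns t0 : ℕ}

theorem mem_SK {k : ℕ} {c : Finset ℕ} :
    c ∈ SK vt rt sp k ↔ c = ∅ ∨ ∃ j < k, DR vt rt (sp j) = c := by simp [SK]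

theorem isin_spec {k f : ℕ} (h : isin sp ps k f = true) : ∃ j < k, sp j = f := by
  unfold isin at h
  rw [Bool.cond_false_right, Bool.and_eq_true, Nat.blt_eq, Nat.beq_eq] at h
  exact ⟨_, h.1, h.2⟩

theorem SV.lt (hS : SV rt cw sp ps sb ns NL t0) {j : ℕ} (hj : j < 2 * ns + 1) :
    sp j < NL ∧ ps (sp j) = j := by
  have h := hS.pos j hj
  unfold spos at h
  rw [Bool.cond_false_right, Bool.and_eq_true, Nat.blt_eq, Nat.beq_eq] at h
  exact h

theorem SV.bld (hV : LV vt rt cw bp sr nV n NL) (hS : SV rt cw sp ps sb ns NL t0) :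
    ∀ I, I ≤ ns → Bld (SK vt rt sp (2 * I + 1)) := by
  intro I
  induction I with
  | zero =>
    intro _
    have h1 : SK vt rt sp (2 * 0 + 1) = {∅, {vt (rt (sp 0))}} := by
      rw [SK, show 2 * 0 + 1 = 1 from rfl, Finset.range_one, Finset.image_singleton,
        hV.point (hS.lt (j := 0) (by omega)).1 hS.h0]
    rw [h1]
    exact Bld.point _
  | succ I ih =>
    intro hI
    have hs := hS.stp I (by omega)
    unfold sst sstp at hs
    simp only [Bool.cond_false_right, Bool.and_eq_true, Bool.cond_true_left, Bool.or_eq_true] at hs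
    obtain ⟨h1, h2, h3, h4, h5, h6⟩ := hs
    rw [Nat.ble_eq] at h1 h2
    rw [Nat.beq_eq] at h3
    obtain ⟨hE, hE2⟩ := hS.lt (j := 2 * I + 2) (by omega)
    obtain ⟨hF, hF2⟩ := hS.lt (j := 2 * I + 1) (by omega)
    have h1' : 1024 ^ (sb I) ≤ rt (sp (2 * I + 2)) := h1
    have h2' : 1024 ≤ rt (sp (2 * I + 2)) := h2
    have h3' : fr cw (sp (2 * I + 2)) (sb I) = sp (2 * I + 1) := h3
    have hlt := (lrec_facts (hV.hrec _ hE)).1
    have hp : sb I < (dl 8 (rt (sp (2 * I + 2)))).length :=
      lt_length_dl 8 _ _ (hlt.trans (by norm_num)) h1'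
    have hl2 : 1 < (dl 8 (rt (sp (2 * I + 2)))).length :=
      lt_length_dl 8 _ _ (hlt.trans (by norm_num)) (by rw [pow_one]; exact h2')
    have key : ∀ q, q ≠ sb I → sfck cw sp ps (Nat.add (Nat.mul 2 I) 1)
        (sp (Nat.add (Nat.mul 2 I) 2)) (sb I) q = true →
        DR vt rt (fr cw (sp (2 * I + 2)) q) ∈ SK vt rt sp (2 * I + 1) := by
      intro q hq h
      unfold sfck at h
      rw [Bool.cond_true_left, Bool.or_eq_true, Nat.beq_eq] at h
      rcases h with h | h
      · exact absurd h hq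
      · obtain ⟨j, hj, hj2⟩ := isin_spec h
        refine mem_SK.2 (Or.inr ⟨j, hj, ?_⟩)
        rw [hj2]
        rfl
    have h7 := hV.bstep (ih (by omega)) hE hF hp hl2 h3' ?_ ?_
    · have h8 : SK vt rt sp (2 * (I + 1) + 1) =
          insert (DR vt rt (sp (2 * I + 1))) (insert (DR vt rt (sp (2 * I + 2)))
            (SK vt rt sp (2 * I + 1))) := by
        ext c
        rw [Finset.mem_insert, Finset.mem_insert, mem_SK, mem_SK]
        constructor
        · rintro (h | ⟨r, hr, h⟩)
          · exact Or.inr (Or.inr (Or.inl h))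
          · rcases (by omega : r < 2 * I + 1 ∨ r = 2 * I + 1 ∨ r = 2 * I + 2) with h7 | h7 | h7
            · exact Or.inr (Or.inr (Or.inr ⟨r, h7, h⟩))
            · subst h7; exact Or.inl h.symm
            · subst h7; exact Or.inr (Or.inl h.symm)
        · rintro (h | h | h | ⟨r, hr, h⟩)
          · exact Or.inr ⟨2 * I + 1, by omega, h.symm⟩
          · exact Or.inr ⟨2 * I + 2, by omega, h.symm⟩
          · exact Or.inl h
          · exact Or.inr ⟨r, by omega, h⟩
      rw [h8]
      exact h7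
    · rw [mem_SK]
      rintro (h7 | ⟨r, hr, h7⟩)
      · exact hV.ne_empty hF h7
      · have h8 := hS.lt (j := r) (by omega)
        have h9 := hV.injD h8.1 hF h7
        have h10 := h8.2
        rw [h9, hF2] at h10
        omega
    · intro q hq hqp
      have hlen := hV.len hE
      have hq3 : q = 0 ∨ q = 1 ∨ (q = 2 ∧ ¬ rt (sp (2 * I + 2)) < 1048576) := by
        have h13 := (hV.len13 hE).2
        by_cases hlt2 : rt (sp (2 * I + 2)) < 1048576
        · have := hlen.2.1 h2' hlt2
          omega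
        · omega
      rcases hq3 with rfl | rfl | ⟨rfl, hc⟩
      · exact key 0 hqp h4
      · exact key 1 hqp h5
      · rcases h6 with h6 | h6
        · rw [Nat.blt_eq] at h6
          exact absurd h6 hc
        · exact key 2 hqp h6

/-- the attaching subcomplex -/
theorem SV.main (hV : LV vt rt cw bp sr nV n NL) (hS : SV rt cw sp ps sb ns NL t0) :
    Bld (SK vt rt sp (2 * ns + 1)) ∧ SK vt rt sp (2 * ns + 1) ⊆ LK vt rt NL ∧
    DR vt rt t0 ∈ LK vt rt NL ∧ DR vt rt t0 ∉ SK vt rt sp (2 * ns + 1) ∧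
    (DR vt rt t0).card = 3 ∧ ∀ x ∈ DR vt rt t0, (DR vt rt t0).erase x ∈
      SK vt rt sp (2 * ns + 1) := by
  have hl := (hV.len hS.t0lt).2.2 hS.t0c
  refine ⟨SV.bld hV hS ns le_rfl, ?_, mem_LK.2 (Or.inr ⟨t0, hS.t0lt, rfl⟩), ?_,
    by rw [hV.card hS.t0lt, hl], ?_⟩
  · intro c hc
    rcases mem_SK.1 hc with rfl | ⟨j, hj, rfl⟩
    · exact mem_LK.2 (Or.inl rfl)
    · exact mem_LK.2 (Or.inr ⟨_, (hS.lt hj).1, rfl⟩)
  · intro hc
    rcases mem_SK.1 hc with h | ⟨j, hj, h⟩
    · exact hV.ne_empty hS.t0lt h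
    · have h1 := hS.lt hj
      have h2 := hV.injD h1.1 hS.t0lt h
      have h3 := hS.t0n
      have h4 : isin sp ps (2 * ns + 1) t0 = true := by
        unfold isin
        rw [← h2, Bool.cond_false_right, Bool.and_eq_true, Nat.blt_eq, Nat.beq_eq, h1.2]
        exact ⟨hj, rfl⟩
      rw [h3] at h4
      exact absurd h4 (by simp)
  · intro x hx
    obtain ⟨a, ha, rfl⟩ := mem_SN.1 hx
    obtain ⟨q, hq, rfl⟩ := List.getElem_of_mem ha
    rw [← (hV.face hS.t0lt hq (by omega)).2]
    have key : ∀ f, isin sp ps (2 * ns + 1) f = true → DR vt rt f ∈ SK vt rt sp (2 * ns + 1) := by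
      intro f h
      obtain ⟨j, hj, hj2⟩ := isin_spec h
      exact mem_SK.2 (Or.inr ⟨j, hj, by rw [hj2]⟩)
    rcases (by omega : q = 0 ∨ q = 1 ∨ q = 2) with rfl | rfl | rfl
    · exact key _ hS.t00
    · exact key _ hS.t01
    · exact key _ hS.t02

/-! ### the attaching cycle -/

/-- the chain with the positive records `P` and the negative records `N` -/
noncomputable def zc (vt rt : ℕ → ℕ) (P N : List ℕ) : M :=
  (P.map (fun r => sg (DR vt rt r))).sum - (N.map (fun r => sg (DR vt rt r))).sum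

/-- check of a record of the cycle -/
noncomputable def zrec (rt sp ps : ℕ → ℕ) (k t0 r : ℕ) : Bool :=
  cond (Nat.ble 1048576 (rt r)) (cond (Nat.beq r t0) true (isin sp ps k r)) false

theorem allL_spec {f : ℕ → Bool} : ∀ {l : List ℕ}, allL f l = true → ∀ a ∈ l, f a = true := by
  intro l
  induction l with
  | nil => intro _ a ha; exact absurd ha (List.not_mem_nil)
  | cons b l ih =>
    intro h a ha
    have e : allL f (b :: l) = cond (f b) (allL f l) false := rfl
    rw [e, Bool.cond_false_right, Bool.and_eq_true] at h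
    rcases List.mem_cons.1 ha with rfl | ha
    · exact h.1
    · exact ih h.2 a ha

theorem rem1_spec (x : ℕ) : ∀ (l : List ℕ) (k : List ℕ → Bool), rem1 x l k = true →
    ∃ r, l.Perm (x :: r) ∧ k r = true := by
  intro l
  induction l with
  | nil => intro k h; exact absurd h (by simp [rem1])
  | cons a l ih =>
    intro k h
    have e : rem1 x (a :: l) k = cond (Nat.beq a x) (k l) (rem1 x l (fun r => k (a :: r))) := rfl
    rw [e] at h
    by_cases hax : a = x
    · subst hax
      rw [show Nat.beq a a = true by rw [Nat.beq_eq], cond_true] at h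
      exact ⟨l, List.Perm.refl _, h⟩
    · have hb : Nat.beq a x = false := by rw [← Bool.not_eq_true, Nat.beq_eq]; exact hax
      rw [hb, cond_false] at h
      obtain ⟨r, h1, h2⟩ := ih _ h
      exact ⟨a :: r, (h1.cons a).trans (List.Perm.swap x a r), h2⟩

theorem permB_spec : ∀ (l l' : List ℕ), permB l l' = true → l.Perm l' := by
  intro l
  induction l with
  | nil =>
    intro l' h
    cases l' with
    | nil => exact List.Perm.refl _
    | cons a l' => exact absurd h (by simp [permB])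
  | cons x l ih =>
    intro l' h
    have e : permB (x :: l) l' = rem1 x l' (permB l) := rfl
    rw [e] at h
    obtain ⟨r, h1, h2⟩ := rem1_spec x l' _ h
    exact ((ih r h2).cons x).trans h1.symm

/-- certificate for the cycle -/
structure ZV (rt cw sp ps : ℕ → ℕ) (ns t0 : ℕ) (P N : List ℕ) : Prop where
  hP : allL (zrec rt sp ps (2 * ns + 1) t0) P = true
  hN : allL (zrec rt sp ps (2 * ns + 1) t0) N = true
  bd : permB (bpos cw P N) (bpos cw N P) = true

theorem SV.zlt (hS : SV rt cw sp ps sb ns NL t0) {r : ℕ}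
    (h : zrec rt sp ps (2 * ns + 1) t0 r = true) :
    r < NL ∧ 1048576 ≤ rt r ∧ (r = t0 ∨ ∃ j < 2 * ns + 1, sp j = r) := by
  unfold zrec at h
  rw [Bool.cond_false_right, Bool.and_eq_true, Nat.ble_eq, Bool.cond_true_left, Bool.or_eq_true,
    Nat.beq_eq] at h
  obtain ⟨h1, h2 | h2⟩ := h
  · exact ⟨h2 ▸ hS.t0lt, h1, Or.inl h2⟩
  · obtain ⟨j, hj, hj2⟩ := isin_spec h2
    exact ⟨hj2 ▸ (hS.lt hj).1, h1, Or.inr ⟨j, hj, hj2⟩⟩

theorem LV.bd3 (hV : LV vt rt cw bp sr nV n NL) {r : ℕ} (hr : r < NL) (h3 : 1048576 ≤ rt r) :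
    bd3 (DR vt rt r) = sg (DR vt rt (fr cw r 0)) - sg (DR vt rt (fr cw r 1)) +
      sg (DR vt rt (fr cw r 2)) := by
  have hl := (hV.len hr).2.2 h3
  have key : ∀ q < 3, opp (DR vt rt r) q = DR vt rt (fr cw r q) := by
    intro q hq
    rw [DR, DR, opp_SN hV.hT (hV.vc hr) q (by omega), (hV.facet hr (by omega) (by omega)).2]
  rw [Orb.bd3, key 0 (by norm_num), key 1 (by norm_num), key 2 (by norm_num)]

theorem D_sum (hV : LV vt rt cw bp sr nV n NL) : ∀ P : List ℕ,
    (∀ r ∈ P, r < NL ∧ 1048576 ≤ rt r) →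
    D (P.map (fun r => sg (DR vt rt r))).sum =
      ((P.map (fun r => fr cw r 0)).map (fun r => sg (DR vt rt r))).sum +
      ((P.map (fun r => fr cw r 2)).map (fun r => sg (DR vt rt r))).sum -
      ((P.map (fun r => fr cw r 1)).map (fun r => sg (DR vt rt r))).sum := by
  intro P
  induction P with
  | nil => intro _; simp
  | cons a P ih =>
    intro h
    have h1 := ih fun r hr => h r (List.mem_cons_of_mem _ hr)
    have h2 := hV.bd3 (h a List.mem_cons_self).1 (h a List.mem_cons_self).2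
    simp only [List.map_cons, List.sum_cons]
    rw [map_add, h1, D_sg, h2]
    abel

theorem ZV.cycle (hV : LV vt rt cw bp sr nV n NL) (hS : SV rt cw sp ps sb ns NL t0)
    {P N : List ℕ} (hZ : ZV rt cw sp ps ns t0 P N) : D (zc vt rt P N) = 0 := by
  have hP : ∀ r ∈ P, r < NL ∧ 1048576 ≤ rt r := fun r hr =>
    ⟨(hS.zlt (allL_spec hZ.hP r hr)).1, (hS.zlt (allL_spec hZ.hP r hr)).2.1⟩
  have hN : ∀ r ∈ N, r < NL ∧ 1048576 ≤ rt r := fun r hr =>
    ⟨(hS.zlt (allL_spec hZ.hN r hr)).1, (hS.zlt (allL_spec hZ.hN r hr)).2.1⟩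
  have hp := ((permB_spec _ _ hZ.bd).map (fun r => sg (DR vt rt r))).sum_eq
  unfold bpos at hp
  simp only [List.map_append, List.sum_append] at hp
  rw [zc, map_sub, D_sum hV P hP, D_sum hV N hN, sub_eq_zero]
  have e : ∀ a b c d e f : M, a + (b + c) = d + (e + f) → a + b - f = d + e - c := by
    intro a b c d e f h
    rw [sub_eq_sub_iff_add_eq_add, add_assoc, h]
    abel
  exact e _ _ _ _ _ _ hp

theorem sum_supp (P : List ℕ) (t : Finset ℕ)
    (h : (P.map (fun r => (sg (DR vt rt r) : M))).sum t ≠ 0) : ∃ r ∈ P, DR vt rt r = t := by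
  induction P with
  | nil => exact absurd rfl h
  | cons a P ih =>
    by_cases ha : DR vt rt a = t
    · exact ⟨a, List.mem_cons_self, ha⟩
    · rw [List.map_cons, List.sum_cons, Finsupp.add_apply, sg, Finsupp.single_eq_of_ne (Ne.symm ha),
        zero_add] at h
      obtain ⟨r, hr, h1⟩ := ih h
      exact ⟨r, List.mem_cons_of_mem _ hr, h1⟩

theorem ZV.supp (hV : LV vt rt cw bp sr nV n NL) (hS : SV rt cw sp ps sb ns NL t0)
    {P N : List ℕ} (hZ : ZV rt cw sp ps ns t0 P N) (t : Finset ℕ)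
    (h : zc vt rt P N t ≠ 0) :
    t ∈ insert (DR vt rt t0) (SK vt rt sp (2 * ns + 1)) ∧ t.card = 3 := by
  have h1 : ∃ r, zrec rt sp ps (2 * ns + 1) t0 r = true ∧ DR vt rt r = t := by
    rw [zc, Finsupp.sub_apply] at h
    by_cases hp : (P.map (fun r => (sg (DR vt rt r) : M))).sum t = 0
    · have hn : (N.map (fun r => (sg (DR vt rt r) : M))).sum t ≠ 0 := by
        intro h0
        rw [hp, h0] at h
        exact h (sub_zero 0)
      obtain ⟨r, hr, h2⟩ := sum_supp N t hn
      exact ⟨r, allL_spec hZ.hN r hr, h2⟩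
    · obtain ⟨r, hr, h2⟩ := sum_supp P t hp
      exact ⟨r, allL_spec hZ.hP r hr, h2⟩
  obtain ⟨r, hr, rfl⟩ := h1
  obtain ⟨g1, g2, g3⟩ := hS.zlt hr
  refine ⟨?_, by rw [hV.card g1, (hV.len g1).2.2 g2]⟩
  rcases g3 with rfl | ⟨j, hj, rfl⟩
  · exact Finset.mem_insert_self _ _
  · exact Finset.mem_insert_of_mem (mem_SK.2 (Or.inr ⟨j, hj, rfl⟩))

end

end Pool.Agent.DF302A
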