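import Pool.Agent.Work.MP_df302a_co.HData
import Pool.Agent.Work.MP_df302a_co.SCert
import Pool.Agent.Work.MP_df302a_co.SData

/-! # MP_df302a_co : the condition on the spans for the attaching subcomplex -/

set_option autoImplicit false
set_option maxRecDepth 100000

namespace Pool.Agent.DF302A

namespace HI

/-- a triangle containing the simplex -/
def MJ : ℕ := 0x4c0002024e0203034f0301014d0137018337363684363838853853530707510705056605191967191b1b7a1b2d2d782d2b2b5e2b12126012141432147f325f5f13135d13111177112a2a792a2c2c1a1a651a5050040452040606940647479247454510105c100f0f5a0f0e0e5b0e705b232395234848964849495549090920096c2021216e2122226d228f6d42428d424040724026267126242431247e3169691d1d6b1d1f1f8a1f3d3d8c3d3f3f30307d302f2f7b2f2e2e7c2e626216166416181859180d0d570d0b0b340b8034333381333535823588823b3b863b3a3a3939873975752929742927275427080897084a4a4b4a6f4b2828762856330a0a580a0c0c630c1717611715158b2f3e3e893e3c3c6a3c1e1e681e1c1c251c73258e73414190414343910f44449344464638363737454546442b2b2c2a272743414040353334343f3d3c3c14121111222120201b190e0e100e0b0b0c0a2e2e302e242409094a0803010000000036003a3a48231f1d1c1c1816151505050604310632313a0102023e2f3d3d1e1e1d1d251c2625412642414322131312122a112d2a1a1a191904040704440f474446065a02230e4b234948080821080a0a0d0a170c16161515760c3b39292928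

/-- check that a record lies in a triangle -/
noncomputable def inT (c m : ℕ) : Bool :=
  (dl 8 c).all (fun a => [0, 1, 2].any (fun k => Nat.beq (zVT a) (vc (tri m) k)))

theorem inT_spec {c m : ℕ} (h : inT c m = true) :
    ∀ v ∈ SN zVT c, ∃ k ∈ [0, 1, 2], v = vc (tri m) k := by
  intro v hv
  obtain ⟨a, ha, rfl⟩ := mem_SN.1 hv
  rw [inT, List.all_eq_true] at h
  obtain ⟨k, hk, h2⟩ := List.any_eq_true.1 (h a ha)
  rw [Nat.beq_eq] at h2
  exact ⟨k, hk, h2⟩

/-- check of the simplex number `j` -/
noncomputable def chS (j : ℕ) : Bool :=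
  Nat.blt (MJ / 2 ^ (8 * j) % 256) 152 && inT (zRT (zSP j)) (MJ / 2 ^ (8 * j) % 256)

theorem S_ok : all chS 457 = true := by decide +kernel

theorem t0_ok : (Nat.blt (MJ / 2 ^ (8 * 457) % 256) 152 &&
    inT (zRT 4074) (MJ / 2 ^ (8 * 457) % 256)) = true := by decide +kernel

theorem S_max : ∀ c ∈ insert (DR zVT zRT 4074) (SK zVT zRT zSP 457), ∃ m < 152, ∀ v ∈ c,
    ∃ k ∈ [0, 1, 2], v = vc (tri m) k := by
  intro c hc
  rcases Finset.mem_insert.1 hc with rfl | hc
  · have h := t0_ok
    rw [Bool.and_eq_true, Nat.blt_eq] at h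
    exact ⟨_, h.1, inT_spec h.2⟩
  · rcases mem_SK.1 hc with rfl | ⟨j, hj, rfl⟩
    · exact ⟨0, by norm_num, fun v hv => absurd hv (Finset.notMem_empty v)⟩
    · have h := all_spec S_ok j hj
      rw [chS, Bool.and_eq_true, Nat.blt_eq] at h
      exact ⟨_, h.1, inT_spec h.2⟩

/-- the condition on the spans, for the attaching subcomplex -/
theorem hmv (g : M10) (hg : g ≠ 1)
    (c : Finset V24) (hc : c ∈ FV.pre V24.n (insert (DR zVT zRT 4074) (SK zVT zRT zSP 457)))
    (c' : Finset V24) (hc' : c' ∈ FV.pre V24.n (insert (DR zVT zRT 4074) (SK zVT zRT zSP 457))) :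
    ∃ w, FV.rho g w - w ∉
      Submodule.span ℝ (p24 '' (c ∪ c'.image (fun v => g • v) : Finset V24)) :=
  hmove II_ok B_ok C_ok S_max g hg c hc c' hc'

end HI

end Pool.Agent.DF302A
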