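import Pool.Agent.Work.MP_df302a_co.FreeN
import Pool.Agent.Work.MP_df302a_co.Tabs

/-! # MP_df302a_co : the elements of the group move a free vertex away from the spans. -/

set_option autoImplicit false
set_option linter.unusedSectionVars false

namespace Pool.Agent.DF302A

namespace HI

open Finset Module

/-- the real vector of a code -/
def rv (a : ℕ) : Fin 10 → ℝ := fun i => ((dv a i : ℕ) : ℝ)

theorem p24_eq (a : V24) : p24 a = oneL.mkQ (rv a.n) := rfl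

/-- a functional which vanishes on the vectors and is not invariant -/
theorem moveV {g : Equiv.Perm (Fin 10)} {T : Finset V24} (f : Fin 10 → ℝ)
    (hf : ∑ i, f i = 0) (hT : ∀ a ∈ T, ∑ i, rv a.n i * f i = 0) (hg : ∃ i, f (g i) ≠ f i) :
    ∃ w, rhoW g w - w ∉ Submodule.span ℝ (p24 '' (T : Set V24)) := by
  obtain ⟨i, hi⟩ := hg
  refine ⟨oneL.mkQ (Pi.single i 1), fun h => ?_⟩
  have h1 : ∀ w ∈ Submodule.span ℝ (p24 '' (T : Set V24)), phiW f hf w = 0 := by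
    intro w hw
    have h2 : Submodule.span ℝ (p24 '' (T : Set V24)) ≤ LinearMap.ker (phiW f hf) := by
      rw [Submodule.span_le]
      rintro _ ⟨A, hA, rfl⟩
      rw [SetLike.mem_coe, LinearMap.mem_ker, p24_eq, phiW_mk]
      exact hT A hA
    exact h2 hw
  have h3 := h1 _ h
  rw [map_sub, rhoW_mk, phiW_mk, phiW_mk, sub_eq_zero] at h3
  apply hi
  have e1 : ∑ j, (fun j => (Pi.single i (1 : ℝ) : Fin 10 → ℝ) (g⁻¹ j)) j * f j = f (g i) := by
    rw [Finset.sum_eq_single (g i)]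
    · simp
    · intro j _ hj
      have h5 : g⁻¹ j ≠ i := fun h => hj (by rw [← h]; simp)
      show (Pi.single i (1 : ℝ) : Fin 10 → ℝ) (g⁻¹ j) * f j = 0
      rw [Pi.single_eq_of_ne h5, zero_mul]
    · intro h; exact absurd (Finset.mem_univ _) h
  have e2 : ∑ j, (Pi.single i (1 : ℝ) : Fin 10 → ℝ) j * f j = f i := by
    rw [Finset.sum_eq_single i]
    · simp
    · intro j _ hj
      simp [hj]
    · intro h; exact absurd (Finset.mem_univ _) h
  rw [e1, e2] at h3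
  exact h3

/-- dimension count -/
theorem moveV_of_two {g : Equiv.Perm (Fin 10)} {T : Finset V24} (hT : T.card ≤ 6)
    (i₁ i₂ : Fin 10)
    (h : ∀ f : Fin 10 → ℝ, (∀ i, f (g i) = f i) → ∑ i, f i = 0 →
      (∀ a ∈ T, ∑ i, rv a.n i * f i = 0) → f i₁ = 0 → f i₂ = 0 → ∀ i, f i = 0) :
    ∃ w, rhoW g w - w ∉ Submodule.span ℝ (p24 '' (T : Set V24)) := by
  classical
  set M : (Fin 10 → ℝ) →ₗ[ℝ] (T → ℝ) × (Fin 3 → ℝ) :=
    { toFun := fun f => (fun a => ∑ i, rv a.1.n i * f i, ![∑ i, f i, f i₁, f i₂])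
      map_add' := fun f f' => by
        ext A
        · simp [Finset.sum_add_distrib, mul_add]
        · fin_cases A <;> simp [Finset.sum_add_distrib]
      map_smul' := fun c f => by
        ext A
        · simp [Finset.mul_sum, mul_left_comm]
        · fin_cases A <;> simp [Finset.mul_sum] } with hM
  have hlt : finrank ℝ ((T → ℝ) × (Fin 3 → ℝ)) < finrank ℝ (Fin 10 → ℝ) := by
    rw [finrank_prod, finrank_fintype_fun_eq_card, finrank_fintype_fun_eq_card,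
      finrank_fintype_fun_eq_card, Fintype.card_coe, Fintype.card_fin, Fintype.card_fin]
    omega
  obtain ⟨f, hf, hne⟩ := (LinearMap.ker M).ne_bot_iff.1 (LinearMap.ker_ne_bot_of_finrank_lt hlt)
  have hf' : M f = 0 := hf
  have hf1 : ∀ a ∈ T, ∑ i, rv a.n i * f i = 0 := fun a ha =>
    congrFun (congrArg Prod.fst hf') ⟨a, ha⟩
  have hf2 : ∑ i, f i = 0 := congrFun (congrArg Prod.snd hf') 0
  have hf3 : f i₁ = 0 := congrFun (congrArg Prod.snd hf') 1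
  have hf4 : f i₂ = 0 := congrFun (congrArg Prod.snd hf') 2
  refine moveV f hf2 hf1 ?_
  by_contra hc
  push Not at hc
  exact hne (funext (h f hc hf2 hf1 hf3 hf4))

/-! ### orbits -/

/-- the first `n` points of the orbit of `r`, as a mask -/
def om (T : ℕ) : ℕ → ℕ → ℕ
  | 0, _ => 0
  | n + 1, r => 2 ^ r ||| om T n (dg T r)

theorem om_spec {g : Equiv.Perm (Fin 10)} {f : Fin 10 → ℝ} (hf : ∀ i, f (g i) = f i) :
    ∀ (n : ℕ) (r i : Fin 10), (om (pk g) n r).testBit i = true → f i = f r := by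
  intro n
  induction n with
  | zero => intro r i h; simp [om] at h
  | succ n ih =>
    intro r i h
    rw [om, Nat.testBit_or, Bool.or_eq_true, Nat.testBit_two_pow, dg_pk] at h
    rcases h with h | h
    · have : r = i := Fin.ext (by simpa using h)
      rw [this]
    · rw [ih (g r) i h, hf]

/-- two orbits -/
def ta (T r₁ r₂ : ℕ) : Bool :=
  Nat.blt r₁ 10 && Nat.blt r₂ 10 && Nat.beq (om T 8 r₁ ||| om T 8 r₂) 1023

/-- a fixed point and three orbits -/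
def tb' (T p r₁ r₂ r₃ : ℕ) : Bool :=
  !Nat.beq r₁ p && !Nat.beq r₂ p && !Nat.beq r₃ p && Nat.blt p 10 && Nat.blt r₁ 10 && Nat.blt r₂ 10 && Nat.blt r₃ 10 && Nat.beq (dg T p) p &&
    Nat.beq (om T 1 p ||| (om T 8 r₁ ||| (om T 8 r₂ ||| om T 8 r₃))) 1023

theorem bit1023 (i : Fin 10) : Nat.testBit 1023 i = true := by
  revert i
  decide

theorem ta_spec {g : Equiv.Perm (Fin 10)} {r₁ r₂ : ℕ} (h : ta (pk g) r₁ r₂ = true) :
    ∃ i₁ i₂ : Fin 10, ∀ f : Fin 10 → ℝ, (∀ i, f (g i) = f i) → f i₁ = 0 → f i₂ = 0 →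
      ∀ i, f i = 0 := by
  rw [ta, Bool.and_eq_true, Bool.and_eq_true, Nat.blt_eq, Nat.blt_eq, Nat.beq_eq] at h
  obtain ⟨⟨h1, h2⟩, h3⟩ := h
  refine ⟨⟨r₁, h1⟩, ⟨r₂, h2⟩, fun f hf e1 e2 i => ?_⟩
  have h4 := bit1023 i
  rw [← h3, Nat.testBit_or, Bool.or_eq_true] at h4
  rcases h4 with h4 | h4
  · rw [om_spec hf 8 ⟨r₁, h1⟩ i h4, e1]
  · rw [om_spec hf 8 ⟨r₂, h2⟩ i h4, e2]

theorem tb_spec {g : Equiv.Perm (Fin 10)} {p r₁ r₂ r₃ : ℕ} (h : tb' (pk g) p r₁ r₂ r₃ = true) :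
    ∃ p i₁ i₂ i₃ : Fin 10, g p = p ∧ (i₁ ≠ p ∧ i₂ ≠ p ∧ i₃ ≠ p) ∧ ∀ f : Fin 10 → ℝ,
      (∀ i, f (g i) = f i) → f p = 0 → f i₁ = 0 → f i₂ = 0 → f i₃ = 0 → ∀ i, f i = 0 := by
  rw [tb', Bool.and_eq_true, Bool.and_eq_true, Bool.and_eq_true, Bool.and_eq_true,
    Bool.and_eq_true, Bool.and_eq_true, Bool.and_eq_true, Bool.and_eq_true, Nat.blt_eq,
    Nat.blt_eq, Nat.blt_eq, Nat.blt_eq, Nat.beq_eq, Nat.beq_eq] at h
  obtain ⟨⟨⟨⟨⟨⟨⟨⟨k1, k2⟩, k3⟩, h0⟩, h1⟩, h2⟩, h3⟩, h4⟩, h5⟩ := h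
  have hk : ∀ r : ℕ, (!Nat.beq r p) = true → r ≠ p := by
    intro r hr e
    rw [e, Nat.beq_refl] at hr
    exact absurd hr (by simp)
  refine ⟨⟨p, h0⟩, ⟨r₁, h1⟩, ⟨r₂, h2⟩, ⟨r₃, h3⟩, ?_,
    ⟨fun e => hk _ k1 (congrArg Fin.val e), fun e => hk _ k2 (congrArg Fin.val e),
      fun e => hk _ k3 (congrArg Fin.val e)⟩, fun f hf e0 e1 e2 e3 i => ?_⟩
  · apply Fin.ext
    rw [← dg_pk]
    exact h4
  have h6 := bit1023 i
  rw [← h5, Nat.testBit_or, Bool.or_eq_true, Nat.testBit_or, Bool.or_eq_true, Nat.testBit_or,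
    Bool.or_eq_true] at h6
  rcases h6 with h6 | h6 | h6 | h6
  · rw [om_spec hf 1 ⟨p, h0⟩ i h6, e0]
  · rw [om_spec hf 8 ⟨r₁, h1⟩ i h6, e1]
  · rw [om_spec hf 8 ⟨r₂, h2⟩ i h6, e2]
  · rw [om_spec hf 8 ⟨r₃, h3⟩ i h6, e3]

/-- elements with two orbits -/
theorem move_A {g : Equiv.Perm (Fin 10)} {i₁ i₂ : Fin 10} (h : ∀ f : Fin 10 → ℝ,
    (∀ i, f (g i) = f i) → f i₁ = 0 → f i₂ = 0 → ∀ i, f i = 0) {T : Finset V24}
    (hT : T.card ≤ 6) : ∃ w, rhoW g w - w ∉ Submodule.span ℝ (p24 '' (T : Set V24)) :=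
  moveV_of_two hT i₁ i₂ fun f hf _ _ e1 e2 => h f hf e1 e2

/-- elements with a fixed point and three other orbits -/
theorem move_B {g : Equiv.Perm (Fin 10)} {p i₁ i₂ i₃ : Fin 10} (hp : g p = p)
    (hn : i₁ ≠ p ∧ i₂ ≠ p ∧ i₃ ≠ p)
    (h : ∀ f : Fin 10 → ℝ, (∀ i, f (g i) = f i) → f p = 0 → f i₁ = 0 → f i₂ = 0 → f i₃ = 0 →
      ∀ i, f i = 0) {T : Finset V24} (hT : T.card ≤ 6) {a : V24} (ha : a ∈ T)
    (hne : 10 * rv a.n p ≠ ∑ i, rv a.n i) :
    ∃ w, rhoW g w - w ∉ Submodule.span ℝ (p24 '' (T : Set V24)) := by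
  by_contra hcon
  -- the indicator function of `p`
  have hsp : ∀ i, (Pi.single p (1 : ℝ) : Fin 10 → ℝ) (g i) = (Pi.single p (1 : ℝ) : Fin 10 → ℝ) i := by
    intro i
    by_cases hi : i = p
    · rw [hi, hp]
    · have : g i ≠ p := fun e => hi (g.injective (by rw [e, hp]))
      rw [Pi.single_eq_of_ne this, Pi.single_eq_of_ne hi]
  -- an invariant function of sum zero which vanishes at `i₁`, `i₂`, `i₃` is zero
  have h0 : ∀ f : Fin 10 → ℝ, (∀ i, f (g i) = f i) → ∑ i, f i = 0 → f i₁ = 0 → f i₂ = 0 →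
      f i₃ = 0 → ∀ i, f i = 0 := by
    intro f hf hs e1 e2 e3
    have h1 := h (fun i => f i - f p * (Pi.single p (1 : ℝ) : Fin 10 → ℝ) i)
      (fun i => by rw [hf, hsp]) (by simp) (by simp [e1, hn.1]) (by simp [e2, hn.2.1])
      (by simp [e3, hn.2.2])
    have h2 : ∀ i, f i = f p * (Pi.single p (1 : ℝ) : Fin 10 → ℝ) i := fun i => by
      have := h1 i
      linarith
    have h3 : ∑ i, f i = f p := by
      rw [Finset.sum_congr rfl fun i _ => h2 i, ← Finset.mul_sum]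
      simp
    rw [h3] at hs
    intro i
    rw [h2 i, hs, zero_mul]
  -- the function `10 δ_p - 1`
  set e : Fin 10 → ℝ := fun i => 10 * (Pi.single p (1 : ℝ) : Fin 10 → ℝ) i - 1 with he
  have he1 : ∀ i, e (g i) = e i := fun i => by simp only [he]; rw [hsp]
  have he2 : ∑ i, e i = 0 := by
    simp only [he]
    rw [Finset.sum_sub_distrib, ← Finset.mul_sum]
    simp
  have he3 : ∑ i, rv a.n i * e i ≠ 0 := by
    have : ∑ i, rv a.n i * e i = 10 * rv a.n p - ∑ i, rv a.n i := by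
      simp only [he]
      have h1 : ∀ i, rv a.n i * (10 * (Pi.single p (1 : ℝ) : Fin 10 → ℝ) i - 1) =
          10 * (rv a.n i * (Pi.single p (1 : ℝ) : Fin 10 → ℝ) i) - rv a.n i := fun i => by ring
      rw [Finset.sum_congr rfl fun i _ => h1 i, Finset.sum_sub_distrib, ← Finset.mul_sum]
      congr 2
      rw [Finset.sum_eq_single p]
      · simp
      · intro j _ hj
        simp [hj]
      · intro h; exact absurd (Finset.mem_univ _) h
    rw [this]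
    exact sub_ne_zero.2 hne
  -- the functions given by the dimension count
  have key : ∀ j₁ j₂ : Fin 10, ∃ f : Fin 10 → ℝ, (∀ i, f (g i) = f i) ∧ ∑ i, f i = 0 ∧
      (∀ a ∈ T, ∑ i, rv a.n i * f i = 0) ∧ f j₁ = 0 ∧ f j₂ = 0 ∧ ∃ i, f i ≠ 0 := by
    intro j₁ j₂
    by_contra hc
    refine hcon (moveV_of_two hT j₁ j₂ fun f h1 h2 h3 h4 h5 => ?_)
    by_contra h6
    push Not at h6
    exact hc ⟨f, h1, h2, h3, h4, h5, h6⟩
  obtain ⟨f₁, a1, a2, a3, a4, a5, a6⟩ := key i₂ i₃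
  obtain ⟨f₂, b1, b2, b3, b4, b5, b6⟩ := key i₁ i₃
  obtain ⟨f₃, c1, c2, c3, c4, c5, c6⟩ := key i₁ i₂
  have a7 : f₁ i₁ ≠ 0 := fun e1 => by
    obtain ⟨i, hi⟩ := a6
    exact hi (h0 f₁ a1 a2 e1 a4 a5 i)
  have b7 : f₂ i₂ ≠ 0 := fun e1 => by
    obtain ⟨i, hi⟩ := b6
    exact hi (h0 f₂ b1 b2 b4 e1 b5 i)
  have c7 : f₃ i₃ ≠ 0 := fun e1 => by
    obtain ⟨i, hi⟩ := c6
    exact hi (h0 f₃ c1 c2 c4 c5 e1 i)
  set u : Fin 10 → ℝ := fun i => e i - e i₁ / f₁ i₁ * f₁ i - e i₂ / f₂ i₂ * f₂ i -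
    e i₃ / f₃ i₃ * f₃ i with hu
  have h1 : ∀ i, u i = 0 := by
    refine h0 u ?_ ?_ ?_ ?_ ?_
    · intro i
      simp only [hu]
      rw [he1, a1, b1, c1]
    · simp only [hu]
      rw [Finset.sum_sub_distrib, Finset.sum_sub_distrib, Finset.sum_sub_distrib,
        ← Finset.mul_sum, ← Finset.mul_sum, ← Finset.mul_sum, he2, a2, b2, c2]
      ring
    · simp only [hu]
      rw [b4, c4]
      field_simp
      ring
    · simp only [hu]
      rw [a4, c5]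
      field_simp
      ring
    · simp only [hu]
      rw [a5, b5]
      field_simp
      ring
  apply he3
  have h2 : ∀ i, rv a.n i * e i = e i₁ / f₁ i₁ * (rv a.n i * f₁ i) +
      e i₂ / f₂ i₂ * (rv a.n i * f₂ i) + e i₃ / f₃ i₃ * (rv a.n i * f₃ i) := by
    intro i
    have h3 := h1 i
    simp only [hu] at h3
    have h4 : e i = e i₁ / f₁ i₁ * f₁ i + e i₂ / f₂ i₂ * f₂ i + e i₃ / f₃ i₃ * f₃ i := by
      linarith
    rw [h4]
    ring
  rw [Finset.sum_congr rfl fun i _ => h2 i, Finset.sum_add_distrib, Finset.sum_add_distrib,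
    ← Finset.mul_sum, ← Finset.mul_sum, ← Finset.mul_sum, a3 a ha, b3 a ha, c3 a ha]
  ring

/-! ### involutions -/

/-- digit of a vector -/
def vd (a i : ℕ) : ℕ := a / 4 ^ i % 4

theorem rv_apply (a : ℕ) (i : Fin 10) : rv a i = (vd a i : ℝ) := rfl

/-- sum over the pair number `q` -/
def hq (E a q : ℕ) : ℕ := vd a (dg E (2 * q)) + vd a (dg E (2 * q + 1))

/-- positive part of a determinant -/
def ps (a b c : ℕ → ℕ) (u v w : ℕ) : ℕ := a u * (b v * c w) + a v * (b w * c u) + a w * (b u * c v)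

/-- negative part of a determinant -/
def ng (a b c : ℕ → ℕ) (u v w : ℕ) : ℕ := a w * (b v * c u) + a v * (b u * c w) + a u * (b w * c v)

/-- a determinant of size four is not zero -/
def dt (a b c : ℕ → ℕ) (p₀ p₁ p₂ p₃ : ℕ) : Bool :=
  !Nat.beq (ps a b c p₁ p₂ p₃ + ng a b c p₀ p₂ p₃ + ps a b c p₀ p₁ p₃ + ng a b c p₀ p₁ p₂)
    (ng a b c p₁ p₂ p₃ + ps a b c p₀ p₂ p₃ + ng a b c p₀ p₁ p₃ + ps a b c p₀ p₁ p₂)

/-- the fifteen choices of four columns, as permutations of the six columns -/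
def CL : List (ℕ × ℕ × ℕ × ℕ × ℕ × ℕ) :=
  [(0, 1, 2, 3, 4, 5), (0, 1, 2, 4, 3, 5), (0, 1, 2, 5, 3, 4), (0, 1, 3, 4, 2, 5),
   (0, 1, 3, 5, 2, 4), (0, 1, 4, 5, 2, 3), (0, 2, 3, 4, 1, 5), (0, 2, 3, 5, 1, 4),
   (0, 2, 4, 5, 1, 3), (0, 3, 4, 5, 1, 2), (1, 2, 3, 4, 0, 5), (1, 2, 3, 5, 0, 4),
   (1, 2, 4, 5, 0, 3), (1, 3, 4, 5, 0, 2), (2, 3, 4, 5, 0, 1)]

/-- three rows have rank three modulo the row of ones -/
def rk3 (a b c : ℕ → ℕ) : Bool := CL.any (fun s => dt a b c s.1 s.2.1 s.2.2.1 s.2.2.2.1)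

theorem det_zero (a b c : ℕ → ℕ) {p₀ p₁ p₂ p₃ : ℕ} (h : dt a b c p₀ p₁ p₂ p₃ = true)
    {x₀ x₁ x₂ x₃ : ℝ} (e0 : x₀ + x₁ + x₂ + x₃ = 0)
    (e1 : x₀ * a p₀ + x₁ * a p₁ + x₂ * a p₂ + x₃ * a p₃ = 0)
    (e2 : x₀ * b p₀ + x₁ * b p₁ + x₂ * b p₂ + x₃ * b p₃ = 0)
    (e3 : x₀ * c p₀ + x₁ * c p₁ + x₂ * c p₂ + x₃ * c p₃ = 0) :
    x₀ = 0 ∧ x₁ = 0 ∧ x₂ = 0 ∧ x₃ = 0 := by
  set P : ℕ := ps a b c p₁ p₂ p₃ + ng a b c p₀ p₂ p₃ + ps a b c p₀ p₁ p₃ + ng a b c p₀ p₁ p₂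
    with hP
  set N : ℕ := ng a b c p₁ p₂ p₃ + ps a b c p₀ p₂ p₃ + ng a b c p₀ p₁ p₃ + ps a b c p₀ p₁ p₂
    with hN
  have hne : P ≠ N := by
    intro e
    rw [dt, ← hP, ← hN, e, Nat.beq_refl] at h
    exact absurd h (by simp)
  have hd : ((P : ℝ) - N) ≠ 0 := sub_ne_zero.2 (by exact_mod_cast hne)
  have hPN : ((P : ℝ) - N) =
      ((a p₁ * (b p₂ * c p₃) + a p₂ * (b p₃ * c p₁) + a p₃ * (b p₁ * c p₂) -
        (a p₃ * (b p₂ * c p₁) + a p₂ * (b p₁ * c p₃) + a p₁ * (b p₃ * c p₂))) -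
      (a p₀ * (b p₂ * c p₃) + a p₂ * (b p₃ * c p₀) + a p₃ * (b p₀ * c p₂) -
        (a p₃ * (b p₂ * c p₀) + a p₂ * (b p₀ * c p₃) + a p₀ * (b p₃ * c p₂))) +
      (a p₀ * (b p₁ * c p₃) + a p₁ * (b p₃ * c p₀) + a p₃ * (b p₀ * c p₁) -
        (a p₃ * (b p₁ * c p₀) + a p₁ * (b p₀ * c p₃) + a p₀ * (b p₃ * c p₁))) -
      (a p₀ * (b p₁ * c p₂) + a p₁ * (b p₂ * c p₀) + a p₂ * (b p₀ * c p₁) -
        (a p₂ * (b p₁ * c p₀) + a p₁ * (b p₀ * c p₂) + a p₀ * (b p₂ * c p₁))) : ℝ) := by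
    rw [hP, hN]
    simp only [ps, ng]
    push_cast
    ring
  have key : ∀ x : ℝ, ((P : ℝ) - N) * x = 0 → x = 0 := fun x hx =>
    (mul_eq_zero.1 hx).resolve_left hd
  refine ⟨key _ ?_, key _ ?_, key _ ?_, key _ ?_⟩ <;> rw [hPN]
  · linear_combination
      ((a p₁ * (b p₂ * c p₃) + a p₂ * (b p₃ * c p₁) + a p₃ * (b p₁ * c p₂) -
        (a p₃ * (b p₂ * c p₁) + a p₂ * (b p₁ * c p₃) + a p₁ * (b p₃ * c p₂)) : ℝ)) * e0 -
      ((b p₂ * c p₃ - b p₃ * c p₂ - (b p₁ * c p₃ - b p₃ * c p₁) + (b p₁ * c p₂ - b p₂ * c p₁) :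
        ℝ)) * e1 +
      ((a p₂ * c p₃ - a p₃ * c p₂ - (a p₁ * c p₃ - a p₃ * c p₁) + (a p₁ * c p₂ - a p₂ * c p₁) :
        ℝ)) * e2 -
      ((a p₂ * b p₃ - a p₃ * b p₂ - (a p₁ * b p₃ - a p₃ * b p₁) + (a p₁ * b p₂ - a p₂ * b p₁) :
        ℝ)) * e3
  · linear_combination
      -((a p₀ * (b p₂ * c p₃) + a p₂ * (b p₃ * c p₀) + a p₃ * (b p₀ * c p₂) -
        (a p₃ * (b p₂ * c p₀) + a p₂ * (b p₀ * c p₃) + a p₀ * (b p₃ * c p₂)) : ℝ)) * e0 +
      ((b p₂ * c p₃ - b p₃ * c p₂ - (b p₀ * c p₃ - b p₃ * c p₀) + (b p₀ * c p₂ - b p₂ * c p₀) :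
        ℝ)) * e1 -
      ((a p₂ * c p₃ - a p₃ * c p₂ - (a p₀ * c p₃ - a p₃ * c p₀) + (a p₀ * c p₂ - a p₂ * c p₀) :
        ℝ)) * e2 +
      ((a p₂ * b p₃ - a p₃ * b p₂ - (a p₀ * b p₃ - a p₃ * b p₀) + (a p₀ * b p₂ - a p₂ * b p₀) :
        ℝ)) * e3
  · linear_combination
      ((a p₀ * (b p₁ * c p₃) + a p₁ * (b p₃ * c p₀) + a p₃ * (b p₀ * c p₁) -
        (a p₃ * (b p₁ * c p₀) + a p₁ * (b p₀ * c p₃) + a p₀ * (b p₃ * c p₁)) : ℝ)) * e0 -
      ((b p₁ * c p₃ - b p₃ * c p₁ - (b p₀ * c p₃ - b p₃ * c p₀) + (b p₀ * c p₁ - b p₁ * c p₀) :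
        ℝ)) * e1 +
      ((a p₁ * c p₃ - a p₃ * c p₁ - (a p₀ * c p₃ - a p₃ * c p₀) + (a p₀ * c p₁ - a p₁ * c p₀) :
        ℝ)) * e2 -
      ((a p₁ * b p₃ - a p₃ * b p₁ - (a p₀ * b p₃ - a p₃ * b p₀) + (a p₀ * b p₁ - a p₁ * b p₀) :
        ℝ)) * e3
  · linear_combination
      -((a p₀ * (b p₁ * c p₂) + a p₁ * (b p₂ * c p₀) + a p₂ * (b p₀ * c p₁) -
        (a p₂ * (b p₁ * c p₀) + a p₁ * (b p₀ * c p₂) + a p₀ * (b p₂ * c p₁)) : ℝ)) * e0 +
      ((b p₁ * c p₂ - b p₂ * c p₁ - (b p₀ * c p₂ - b p₂ * c p₀) + (b p₀ * c p₁ - b p₁ * c p₀) :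
        ℝ)) * e1 -
      ((a p₁ * c p₂ - a p₂ * c p₁ - (a p₀ * c p₂ - a p₂ * c p₀) + (a p₀ * c p₁ - a p₁ * c p₀) :
        ℝ)) * e2 +
      ((a p₁ * b p₂ - a p₂ * b p₁ - (a p₀ * b p₂ - a p₂ * b p₀) + (a p₀ * b p₁ - a p₁ * b p₀) :
        ℝ)) * e3

theorem CL_sum : ∀ s ∈ CL, ∀ F : ℕ → ℝ, F 0 + F 1 + F 2 + F 3 + F 4 + F 5 =
    F s.1 + F s.2.1 + F s.2.2.1 + F s.2.2.2.1 + F s.2.2.2.2.1 + F s.2.2.2.2.2 := by
  intro s hs F
  simp only [CL, List.mem_cons, List.not_mem_nil, or_false] at hs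
  rcases hs with rfl | rfl | rfl | rfl | rfl | rfl | rfl | rfl | rfl | rfl | rfl | rfl | rfl |
    rfl | rfl <;> ring

theorem CL_lt : ∀ s ∈ CL, s.2.2.2.2.1 < 6 ∧ s.2.2.2.2.2 < 6 := by decide

theorem CL_all : ∀ s ∈ CL, ∀ q < 6, q = s.1 ∨ q = s.2.1 ∨ q = s.2.2.1 ∨ q = s.2.2.2.1 ∨
    q = s.2.2.2.2.1 ∨ q = s.2.2.2.2.2 := by decide

/-- check of the list of the pairs of an involution; the two fixed points are written twice -/
def chE (T E : ℕ) : Bool :=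
  [0, 1, 2, 3, 4, 5, 6, 7, 8, 9, 10, 11].all (fun k => Nat.blt (dg E k) 10) &&
  ([0, 1, 2, 3, 4, 5].all (fun q => Nat.beq (dg T (dg E (2 * q))) (dg E (2 * q + 1))) &&
  (Nat.beq (dg E 8) (dg E 9) && (Nat.beq (dg E 10) (dg E 11) &&
  Nat.beq (2 ^ dg E 0 ||| (2 ^ dg E 1 ||| (2 ^ dg E 2 ||| (2 ^ dg E 3 ||| (2 ^ dg E 4 |||
    (2 ^ dg E 5 ||| (2 ^ dg E 6 ||| (2 ^ dg E 7 ||| (2 ^ dg E 8 ||| 2 ^ dg E 10))))))))) 1023)))

/-- value of a function at a number -/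
def at' (f : Fin 10 → ℝ) (n : ℕ) : ℝ := f ⟨n % 10, Nat.mod_lt _ (by norm_num)⟩

theorem at_val (f : Fin 10 → ℝ) (i : Fin 10) : at' f i = f i := by
  unfold at'
  congr 1
  exact Fin.ext (Nat.mod_eq_of_lt i.2)

section
variable {g : Equiv.Perm (Fin 10)} {E : ℕ}

theorem chE_spec (h : chE (pk g) E = true) : (∀ k < 12, dg E k < 10) ∧
    (∀ q < 6, dg (pk g) (dg E (2 * q)) = dg E (2 * q + 1)) ∧ dg E 8 = dg E 9 ∧
    dg E 10 = dg E 11 ∧ (∀ i : Fin 10, ∃ k ∈ [0, 1, 2, 3, 4, 5, 6, 7, 8, 10], dg E k = i) := by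
  rw [chE, Bool.and_eq_true, Bool.and_eq_true, Bool.and_eq_true, Bool.and_eq_true,
    List.all_eq_true, List.all_eq_true, Nat.beq_eq, Nat.beq_eq, Nat.beq_eq] at h
  obtain ⟨h1, h2, h3, h4, h5⟩ := h
  refine ⟨?_, ?_, h3, h4, ?_⟩
  · intro k hk
    have : k ∈ [0, 1, 2, 3, 4, 5, 6, 7, 8, 9, 10, 11] := by
      simp only [List.mem_cons, List.not_mem_nil, or_false]
      omega
    have := h1 k this
    rwa [Nat.blt_eq] at this
  · intro q hq
    have : q ∈ [0, 1, 2, 3, 4, 5] := by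
      simp only [List.mem_cons, List.not_mem_nil, or_false]
      omega
    have := h2 q this
    rwa [Nat.beq_eq] at this
  · intro i
    have h6 := bit1023 i
    rw [← h5] at h6
    simp only [Nat.testBit_or, Bool.or_eq_true, Nat.testBit_two_pow, decide_eq_true_eq] at h6
    simp only [List.mem_cons, List.not_mem_nil, or_false, exists_eq_or_imp, exists_eq_left]
    exact h6

/-- sums over the ten points -/
theorem sum10 (h : chE (pk g) E = true) (F : Fin 10 → ℝ) : ∑ i, F i =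
    at' F (dg E 0) + at' F (dg E 1) + at' F (dg E 2) + at' F (dg E 3) + at' F (dg E 4) +
    at' F (dg E 5) + at' F (dg E 6) + at' F (dg E 7) + at' F (dg E 8) + at' F (dg E 10) := by
  obtain ⟨h1, -, -, -, h5⟩ := chE_spec h
  set ps : Fin 10 → ℕ := ![0, 1, 2, 3, 4, 5, 6, 7, 8, 10] with hps
  set e : Fin 10 → Fin 10 := fun j => ⟨dg E (ps j) % 10, Nat.mod_lt _ (by norm_num)⟩ with he
  have hs : Function.Surjective e := by
    intro i
    obtain ⟨k, hk, hk2⟩ := h5 i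
    have h6 : ∃ j : Fin 10, ps j = k := by
      simp only [List.mem_cons, List.not_mem_nil, or_false] at hk
      rcases hk with rfl | rfl | rfl | rfl | rfl | rfl | rfl | rfl | rfl | rfl
      · exact ⟨0, rfl⟩
      · exact ⟨1, rfl⟩
      · exact ⟨2, rfl⟩
      · exact ⟨3, rfl⟩
      · exact ⟨4, rfl⟩
      · exact ⟨5, rfl⟩
      · exact ⟨6, rfl⟩
      · exact ⟨7, rfl⟩
      · exact ⟨8, rfl⟩
      · exact ⟨9, rfl⟩
    obtain ⟨j, hj⟩ := h6
    refine ⟨j, Fin.ext ?_⟩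
    show dg E (ps j) % 10 = i
    rw [hj, hk2]
    exact Nat.mod_eq_of_lt i.2
  have hb : Function.Bijective e := (Finite.injective_iff_surjective.2 hs : _) |> fun hi => ⟨hi, hs⟩
  rw [← (Equiv.ofBijective e hb).sum_comp F]
  simp only [Fin.sum_univ_succ, Fin.sum_univ_zero, Equiv.ofBijective_apply]
  have e0 : ∀ j : Fin 10, F (e j) = at' F (dg E (ps j)) := fun j => rfl
  simp only [e0]
  simp only [hps]
  show at' F (dg E 0) + (at' F (dg E 1) + (at' F (dg E 2) + (at' F (dg E 3) + (at' F (dg E 4) +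
    (at' F (dg E 5) + (at' F (dg E 6) + (at' F (dg E 7) + (at' F (dg E 8) +
    (at' F (dg E 10) + 0))))))))) = _
  ring

/-- the unknowns -/
noncomputable def xq (E : ℕ) (f : Fin 10 → ℝ) (q : ℕ) : ℝ :=
  if q < 4 then at' f (dg E (2 * q)) else at' f (dg E (2 * q)) / 2

theorem at_inv (h : chE (pk g) E = true) {f : Fin 10 → ℝ} (hf : ∀ i, f (g i) = f i) {q : ℕ}
    (hq : q < 6) : at' f (dg E (2 * q + 1)) = at' f (dg E (2 * q)) := by
  obtain ⟨h1, h2, -, -, -⟩ := chE_spec h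
  have h3 := h1 (2 * q) (by omega)
  have h4 := h2 q hq
  have h5 : dg (pk g) (dg E (2 * q)) = g ⟨dg E (2 * q), h3⟩ := dg_pk g ⟨dg E (2 * q), h3⟩
  rw [← h4, h5, at_val, hf, ← at_val f ⟨dg E (2 * q), h3⟩]

theorem sum_f (h : chE (pk g) E = true) {f : Fin 10 → ℝ} (hf : ∀ i, f (g i) = f i) :
    ∑ i, f i = 2 * (xq E f 0 + xq E f 1 + xq E f 2 + xq E f 3 + xq E f 4 + xq E f 5) := by
  rw [sum10 h]
  have a0 := at_inv h hf (q := 0) (by norm_num)
  have a1 := at_inv h hf (q := 1) (by norm_num)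
  have a2 := at_inv h hf (q := 2) (by norm_num)
  have a3 := at_inv h hf (q := 3) (by norm_num)
  norm_num at a0 a1 a2 a3
  norm_num [xq]
  rw [a0, a1, a2, a3]
  ring

theorem at_mul (f r : Fin 10 → ℝ) (n : ℕ) : at' (fun i => r i * f i) n = at' r n * at' f n := rfl

theorem at_rv (a : ℕ) {n : ℕ} (hn : n < 10) : at' (rv a) n = (vd a n : ℝ) := by
  unfold at'
  rw [rv_apply]
  congr 2
  exact Nat.mod_eq_of_lt hn

theorem sum_rv (h : chE (pk g) E = true) {f : Fin 10 → ℝ} (hf : ∀ i, f (g i) = f i) (a : ℕ) :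
    ∑ i, rv a i * f i = xq E f 0 * hq E a 0 + xq E f 1 * hq E a 1 + xq E f 2 * hq E a 2 +
      xq E f 3 * hq E a 3 + xq E f 4 * hq E a 4 + xq E f 5 * hq E a 5 := by
  obtain ⟨h1, h2, h3, h4, -⟩ := chE_spec h
  rw [sum10 h]
  simp only [at_mul]
  have a0 := at_inv h hf (q := 0) (by norm_num)
  have a1 := at_inv h hf (q := 1) (by norm_num)
  have a2 := at_inv h hf (q := 2) (by norm_num)
  have a3 := at_inv h hf (q := 3) (by norm_num)
  norm_num at a0 a1 a2 a3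
  norm_num [xq, hq]
  rw [a0, a1, a2, a3, ← h3, ← h4, at_rv a (h1 0 (by norm_num)), at_rv a (h1 1 (by norm_num)),
    at_rv a (h1 2 (by norm_num)), at_rv a (h1 3 (by norm_num)), at_rv a (h1 4 (by norm_num)),
    at_rv a (h1 5 (by norm_num)), at_rv a (h1 6 (by norm_num)), at_rv a (h1 7 (by norm_num)),
    at_rv a (h1 8 (by norm_num)), at_rv a (h1 10 (by norm_num))]
  ring

/-- an invariant function with vanishing unknowns is zero -/
theorem zero_of_x (h : chE (pk g) E = true) {f : Fin 10 → ℝ} (hf : ∀ i, f (g i) = f i)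
    (hx : ∀ q < 6, xq E f q = 0) : ∀ i, f i = 0 := by
  obtain ⟨h1, h2, h3, h4, h5⟩ := chE_spec h
  have h6 : ∀ q < 6, at' f (dg E (2 * q)) = 0 := by
    intro q hq
    have := hx q hq
    unfold xq at this
    split_ifs at this
    · exact this
    · linarith
  have h7 : ∀ k < 12, at' f (dg E k) = 0 := by
    intro k hk
    rcases Nat.even_or_odd' k with ⟨q, rfl | rfl⟩
    · exact h6 q (by omega)
    · rw [at_inv h hf (by omega)]
      exact h6 q (by omega)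
  intro i
  obtain ⟨k, hk, hk2⟩ := h5 i
  have hk3 : k < 12 := by
    simp only [List.mem_cons, List.not_mem_nil, or_false] at hk
    omega
  have := h7 k hk3
  rw [hk2, at_val] at this
  exact this

/-- involutions: a triangle of rank three -/
theorem move_C1 (h : chE (pk g) E = true) {u v w : ℕ}
    (hr : rk3 (hq E u) (hq E v) (hq E w) = true) {T : Finset V24} (hT : T.card ≤ 6)
    (hu : ∀ a ∈ ({u, v, w} : Set ℕ), ∀ f : Fin 10 → ℝ, (∀ i, f (g i) = f i) →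
      (∀ a ∈ T, ∑ i, rv a.n i * f i = 0) → ∑ i, rv a i * f i = 0) :
    ∃ w, rhoW g w - w ∉ Submodule.span ℝ (p24 '' (T : Set V24)) := by
  rw [rk3, List.any_eq_true] at hr
  obtain ⟨s, hs, hd⟩ := hr
  obtain ⟨h1, -⟩ := chE_spec h
  obtain ⟨l5, l6⟩ := CL_lt s hs
  refine moveV_of_two hT ⟨dg E (2 * s.2.2.2.2.1), h1 _ (by omega)⟩
    ⟨dg E (2 * s.2.2.2.2.2), h1 _ (by omega)⟩ fun f hf hs0 hfT e5 e6 => ?_
  have z5 : xq E f s.2.2.2.2.1 = 0 := by
    have : at' f (dg E (2 * s.2.2.2.2.1)) = 0 :=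
      (at_val f ⟨dg E (2 * s.2.2.2.2.1), h1 _ (by omega)⟩).trans e5
    unfold xq
    rw [this]
    simp
  have z6 : xq E f s.2.2.2.2.2 = 0 := by
    have : at' f (dg E (2 * s.2.2.2.2.2)) = 0 :=
      (at_val f ⟨dg E (2 * s.2.2.2.2.2), h1 _ (by omega)⟩).trans e6
    unfold xq
    rw [this]
    simp
  have k0 : xq E f s.1 + xq E f s.2.1 + xq E f s.2.2.1 + xq E f s.2.2.2.1 = 0 := by
    have h2 := sum_f h hf
    rw [hs0] at h2
    have h3 := CL_sum s hs (xq E f)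
    rw [z5, z6] at h3
    linarith
  have kk : ∀ a ∈ ({u, v, w} : Set ℕ), xq E f s.1 * hq E a s.1 + xq E f s.2.1 * hq E a s.2.1 +
      xq E f s.2.2.1 * hq E a s.2.2.1 + xq E f s.2.2.2.1 * hq E a s.2.2.2.1 = 0 := by
    intro a ha
    have h2 := hu a ha f hf hfT
    rw [sum_rv h hf] at h2
    have h3 := CL_sum s hs (fun q => xq E f q * hq E a q)
    simp only [z5, z6, zero_mul, add_zero] at h3
    rw [← h3]
    exact h2
  obtain ⟨x0, x1, x2, x3⟩ := det_zero _ _ _ hd k0 (kk u (by simp)) (kk v (by simp)) (kk w (by simp))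
  refine zero_of_x h hf fun q hq => ?_
  rcases CL_all s hs q hq with rfl | rfl | rfl | rfl | rfl | rfl
  · exact x0
  · exact x1
  · exact x2
  · exact x3
  · exact z5
  · exact z6

end

/-! ### pairs of triangles with an explicit functional -/

/-- sum of ten terms -/
def s10 (F : ℕ → ℕ) : ℕ := F 0 + (F 1 + (F 2 + (F 3 + (F 4 + (F 5 + (F 6 + (F 7 + (F 8 + F 9))))))))

theorem s10_eq (F : ℕ → ℕ) : ((s10 F : ℕ) : ℝ) = ∑ i : Fin 10, (F i : ℝ) := by
  simp only [s10, Fin.sum_univ_succ, Fin.sum_univ_zero]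
  push_cast
  simp only [add_zero]
  rfl

/-- vertex number `k` of a triangle -/
def vc (t k : ℕ) : ℕ := t / 2 ^ (24 * k) % 16777216

/-- check of an explicit functional -/
def pOK (T F t t' : ℕ) : Bool :=
  [0, 1, 2].all (fun k => Nat.beq (10 * s10 (fun i => vd (vc t k) i * dg F i))
    (s10 (fun i => dg F i) * s10 (fun i => vd (vc t k) i))) &&
  ([0, 1, 2].all (fun k => Nat.beq (10 * s10 (fun i => vd (vc t' k) i * dg F (dg T i)))
    (s10 (fun i => dg F i) * s10 (fun i => vd (vc t' k) i))) &&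
  [0, 1, 2, 3, 4, 5, 6, 7, 8, 9].any (fun i => !Nat.beq (dg F (dg T i)) (dg F i)))

/-- vertex number `k` of a triangle -/
def vx (t k : ℕ) : V24 := ⟨vc t k, Nat.mod_lt _ (by norm_num)⟩

theorem rv_smul (g : M10) (a : V24) (i : Fin 10) :
    rv (g • a).n i = rv a.n ((g : Equiv.Perm (Fin 10))⁻¹ i) := by
  show ((dv (g • a).n i : ℕ) : ℝ) = _
  rw [V24.smul_n, dv_smul a.lt]
  rfl

theorem sum_smul (g : M10) (a : V24) (f : Fin 10 → ℝ) : ∑ i, rv (g • a).n i * f i =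
    ∑ i, rv a.n i * f ((g : Equiv.Perm (Fin 10)) i) := by
  rw [← Equiv.sum_comp (g : Equiv.Perm (Fin 10)) (fun i => rv (g • a).n i * f i)]
  refine Finset.sum_congr rfl fun i _ => ?_
  rw [rv_smul]
  simp

/-- a pair of triangles with an explicit functional -/
theorem move_C2 {g : M10} {F t t' : ℕ} (h : pOK (pk (g : Equiv.Perm (Fin 10))) F t t' = true)
    {T : Finset V24} (hT : ∀ a ∈ T, (∃ k ∈ [0, 1, 2], a = vx t k) ∨
      ∃ k ∈ [0, 1, 2], a = g • vx t' k) :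
    ∃ w, rhoW (g : Equiv.Perm (Fin 10)) w - w ∉ Submodule.span ℝ (p24 '' (T : Set V24)) := by
  rw [pOK, Bool.and_eq_true, Bool.and_eq_true, List.all_eq_true, List.all_eq_true,
    List.any_eq_true] at h
  obtain ⟨h1, h2, i, hi, h3⟩ := h
  set m : ℕ := s10 (fun i => dg F i) with hm
  have hmR : (m : ℝ) = ∑ i : Fin 10, (dg F i : ℝ) := s10_eq _
  set f : Fin 10 → ℝ := fun i => 10 * (dg F i : ℝ) - m with hf
  refine moveV f ?_ ?_ ?_
  · simp only [hf]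
    rw [Finset.sum_sub_distrib, ← Finset.mul_sum, ← hmR]
    simp
  · intro a ha
    rcases hT a ha with ⟨k, hk, rfl⟩ | ⟨k, hk, rfl⟩
    · have h4 := h1 k hk
      rw [Nat.beq_eq] at h4
      have h5 := congrArg (fun n : ℕ => (n : ℝ)) h4
      simp only [Nat.cast_mul, s10_eq] at h5
      simp only [hf]
      have h6 : ∀ i : Fin 10, rv (vx t k).n i * (10 * (dg F i : ℝ) - m) =
          10 * ((vd (vc t k) i : ℝ) * (dg F i : ℝ)) - m * (vd (vc t k) i : ℝ) := fun i => by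
        rw [rv_apply]
        show (vd (vc t k) i : ℝ) * _ = _
        ring
      rw [Finset.sum_congr rfl fun i _ => h6 i, Finset.sum_sub_distrib, ← Finset.mul_sum,
        ← Finset.mul_sum]
      push_cast at h5
      linarith
    · have h4 := h2 k hk
      rw [Nat.beq_eq] at h4
      have h5 := congrArg (fun n : ℕ => (n : ℝ)) h4
      simp only [Nat.cast_mul, s10_eq] at h5
      rw [sum_smul]
      simp only [hf]
      have h6 : ∀ i : Fin 10, rv (vx t' k).n i *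
          (10 * (dg F ((g : Equiv.Perm (Fin 10)) i) : ℝ) - m) =
          10 * ((vd (vc t' k) i : ℝ) * (dg F (dg (pk (g : Equiv.Perm (Fin 10))) i) : ℝ)) -
            m * (vd (vc t' k) i : ℝ) := fun i => by
        rw [rv_apply, dg_pk]
        show (vd (vc t' k) i : ℝ) * _ = _
        ring
      rw [Finset.sum_congr rfl fun i _ => h6 i, Finset.sum_sub_distrib, ← Finset.mul_sum,
        ← Finset.mul_sum]
      push_cast at h5
      linarith
  · have hi' : i < 10 := by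
      simp only [List.mem_cons, List.not_mem_nil, or_false] at hi
      omega
    refine ⟨⟨i, hi'⟩, fun e => ?_⟩
    simp only [hf] at e
    have h4 : (dg F ((g : Equiv.Perm (Fin 10)) ⟨i, hi'⟩) : ℝ) = dg F i := by
      linarith
    have h5 : dg F (dg (pk (g : Equiv.Perm (Fin 10))) i) = dg F i := by
      have h6 := dg_pk (g : Equiv.Perm (Fin 10)) ⟨i, hi'⟩
      have h7 : ((⟨i, hi'⟩ : Fin 10) : ℕ) = i := rfl
      rw [h7] at h6
      rw [h6]
      exact_mod_cast h4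
    rw [h5, Nat.beq_refl] at h3
    exact absurd h3 (by simp)

/-! ### the whole check -/

/-- rank of a triangle -/
def rkT (E t : ℕ) : Bool := rk3 (hq E (vc t 0)) (hq E (vc t 1)) (hq E (vc t 2))

/-- explicit functionals for the pairs -/
def prs (T : ℕ) (tri : ℕ → ℕ) (t : ℕ) : List ℕ → List (ℕ × List ℕ) → Bool
  | [], [] => true
  | F :: l, r :: R => pOK T F t (tri r.1) && prs T tri t l R
  | _, _ => false

theorem prs_spec {T : ℕ} {tri : ℕ → ℕ} {t : ℕ} : ∀ (l : List ℕ) (R : List (ℕ × List ℕ)),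
    prs T tri t l R = true → ∀ r ∈ R, ∃ F, pOK T F t (tri r.1) = true := by
  intro l
  induction l with
  | nil =>
    intro R h r hr
    cases R with
    | nil => simp at hr
    | cons r' R => exact absurd h (by simp [prs])
  | cons F l ih =>
    intro R h r hr
    cases R with
    | nil => simp at hr
    | cons r' R =>
      rw [prs, Bool.and_eq_true] at h
      rcases List.mem_cons.1 hr with rfl | hr
      · exact ⟨F, h.1⟩
      · exact ih R h.2 r hr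

/-- check of an involution: packed table, list of pairs, deficient triangles with the functionals -/
def chI (tri : ℕ → ℕ) (n : ℕ) (e : ℕ × ℕ × List (ℕ × List ℕ)) : Bool :=
  chE e.1 e.2.1 && (all (fun m => rkT e.2.1 (tri m) || e.2.2.any (fun r => Nat.beq r.1 m)) n &&
    e.2.2.all (fun r => prs e.1 tri (tri r.1) r.2 e.2.2))

/-- check of the elements with three other orbits: a good vertex in every triangle -/
def chB (tri : ℕ → ℕ) (m : ℕ) : Bool :=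
  [0, 1, 2].any (fun k => [0, 1, 2, 3, 4, 5, 6, 7, 8, 9].all (fun p =>
    !Nat.beq (10 * vd (vc (tri m) k) p) (s10 (fun i => vd (vc (tri m) k) i))))

/-- cycle type of the element number `k + 1` -/
def chT (CO : ℕ) (I : List (ℕ × ℕ × List (ℕ × List ℕ))) (k : ℕ) : Bool :=
  match CO / 2 ^ (20 * k) % 16 with
  | 1 => ta (tab (k + 1)) (dg (CO / 2 ^ (20 * k)) 1) (dg (CO / 2 ^ (20 * k)) 2)
  | 2 => tb' (tab (k + 1)) (dg (CO / 2 ^ (20 * k)) 1) (dg (CO / 2 ^ (20 * k)) 2)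
      (dg (CO / 2 ^ (20 * k)) 3) (dg (CO / 2 ^ (20 * k)) 4)
  | _ => I.any (fun e => Nat.beq e.1 (tab (k + 1)))

theorem hmove {tri : ℕ → ℕ} {n CO : ℕ} {I : List (ℕ × ℕ × List (ℕ × List ℕ))}
    (hI : ∀ e ∈ I, chI tri n e = true) (hB : all (chB tri) n = true)
    (hC : all (chT CO I) 719 = true) {S : Finset (Finset ℕ)}
    (hS : ∀ c ∈ S, ∃ m < n, ∀ v ∈ c, ∃ k ∈ [0, 1, 2], v = vc (tri m) k) (g : M10) (hg : g ≠ 1)
    (c : Finset V24) (hc : c ∈ FV.pre V24.n S) (c' : Finset V24) (hc' : c' ∈ FV.pre V24.n S) :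
    ∃ w, FV.rho g w - w ∉
      Submodule.span ℝ (p24 '' (c ∪ c'.image (fun v => g • v) : Finset V24)) := by
  classical
  obtain ⟨m, hm, h1⟩ := hS _ hc
  obtain ⟨m', hm', h1'⟩ := hS _ hc'
  set D : Finset V24 := {vx (tri m) 0, vx (tri m) 1, vx (tri m) 2} with hD
  set D' : Finset V24 := {vx (tri m') 0, vx (tri m') 1, vx (tri m') 2} with hD'
  set T : Finset V24 := D ∪ D'.image (fun v => g • v) with hT
  have hDm : ∀ a : V24, a ∈ D ↔ ∃ k ∈ [0, 1, 2], a = vx (tri m) k := by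
    intro a
    simp [hD]
  have hDm' : ∀ a : V24, a ∈ D' ↔ ∃ k ∈ [0, 1, 2], a = vx (tri m') k := by
    intro a
    simp [hD']
  have hcD : c ⊆ D := by
    intro a ha
    obtain ⟨k, hk, e⟩ := h1 a.n (Finset.mem_image_of_mem _ ha)
    exact (hDm a).2 ⟨k, hk, V24.n_inj e⟩
  have hcD' : c' ⊆ D' := by
    intro a ha
    obtain ⟨k, hk, e⟩ := h1' a.n (Finset.mem_image_of_mem _ ha)
    exact (hDm' a).2 ⟨k, hk, V24.n_inj e⟩
  have hsub : c ∪ c'.image (fun v => g • v) ⊆ T :=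
    Finset.union_subset_union hcD (Finset.image_subset_image hcD')
  suffices h : ∃ w, rhoW (g : Equiv.Perm (Fin 10)) w - w ∉
      Submodule.span ℝ (p24 '' (T : Set V24)) by
    obtain ⟨w, hw⟩ := h
    exact ⟨w, fun h2 => hw (Submodule.span_mono (Set.image_mono (Finset.coe_subset.2 hsub)) h2)⟩
  have hTc : T.card ≤ 6 := by
    have e1 : D.card ≤ 3 := Finset.card_le_three
    have e2 : D'.card ≤ 3 := Finset.card_le_three
    have e3 : (D'.image (fun v => g • v)).card ≤ D'.card := Finset.card_image_le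
    have := Finset.card_union_le D (D'.image (fun v => g • v))
    rw [hT]
    omega
  obtain ⟨k, hk, ek⟩ := mem_tabs g.2
  have hk0 : k ≠ 0 := by
    rintro rfl
    apply hg
    rw [tab0] at ek
    exact Subtype.ext (pk_inj ek)
  have hcl := all_spec hC (k - 1) (by omega)
  unfold chT at hcl
  rw [show k - 1 + 1 = k by omega, ← ek] at hcl
  split at hcl
  · obtain ⟨i₁, i₂, h2⟩ := ta_spec hcl
    exact move_A h2 hTc
  · obtain ⟨p, i₁, i₂, i₃, h2, h3, h4⟩ := tb_spec hcl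
    have h5 := all_spec hB m hm
    rw [chB, List.any_eq_true] at h5
    obtain ⟨j, hj, h6⟩ := h5
    rw [List.all_eq_true] at h6
    refine move_B h2 h3 h4 hTc (a := vx (tri m) j)
      (Finset.mem_union_left _ ((hDm _).2 ⟨j, hj, rfl⟩)) ?_
    have h7 := h6 p (by have := p.2; simp only [List.mem_cons, List.not_mem_nil, or_false]; omega)
    intro e
    have h8 : ∑ i, rv (vx (tri m) j).n i = ((s10 (fun i => vd (vc (tri m) j) i) : ℕ) : ℝ) := by
      rw [s10_eq]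
      rfl
    rw [h8, rv_apply] at e
    have h9 : 10 * vd (vc (tri m) j) p = s10 (fun i => vd (vc (tri m) j) i) := by
      exact_mod_cast e
    rw [h9, Nat.beq_refl] at h7
    exact absurd h7 (by simp)
  · rw [List.any_eq_true] at hcl
    obtain ⟨e, he, he2⟩ := hcl
    rw [Nat.beq_eq] at he2
    have h2 := hI e he
    rw [chI, Bool.and_eq_true, Bool.and_eq_true, he2] at h2
    obtain ⟨h3, h4, h5⟩ := h2
    -- invariance of the sums
    have hin : ∀ t k, ∀ f : Fin 10 → ℝ, (∀ i, f ((g : Equiv.Perm (Fin 10)) i) = f i) →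
        ∑ i, rv (g • vx t k).n i * f i = 0 → ∑ i, rv (vc t k) i * f i = 0 := by
      intro t k f hf h6
      rw [sum_smul] at h6
      simp only [hf] at h6
      exact h6
    by_cases hr : rkT e.2.1 (tri m) = true
    · refine move_C1 h3 hr hTc ?_
      intro a ha f _ hfT
      have : a = vc (tri m) 0 ∨ a = vc (tri m) 1 ∨ a = vc (tri m) 2 := by simpa using ha
      rcases this with rfl | rfl | rfl
      · exact hfT (vx (tri m) 0) (Finset.mem_union_left _ ((hDm _).2 ⟨0, by simp, rfl⟩))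
      · exact hfT (vx (tri m) 1) (Finset.mem_union_left _ ((hDm _).2 ⟨1, by simp, rfl⟩))
      · exact hfT (vx (tri m) 2) (Finset.mem_union_left _ ((hDm _).2 ⟨2, by simp, rfl⟩))
    by_cases hr' : rkT e.2.1 (tri m') = true
    · refine move_C1 h3 hr' hTc ?_
      intro a ha f hf hfT
      have h6 : ∀ k ∈ [0, 1, 2], ∑ i, rv (vc (tri m') k) i * f i = 0 := by
        intro k hk
        refine hin _ _ f hf (hfT _ (Finset.mem_union_right _ (Finset.mem_image.2 ⟨_, ?_, rfl⟩)))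
        exact (hDm' _).2 ⟨k, hk, rfl⟩
      have : a = vc (tri m') 0 ∨ a = vc (tri m') 1 ∨ a = vc (tri m') 2 := by simpa using ha
      rcases this with rfl | rfl | rfl
      · exact h6 0 (by simp)
      · exact h6 1 (by simp)
      · exact h6 2 (by simp)
    have h6 := all_spec h4 m hm
    have h6' := all_spec h4 m' hm'
    rw [Bool.or_eq_true] at h6 h6'
    obtain ⟨r, hr2, hr3⟩ := List.any_eq_true.1 (h6.resolve_left hr)
    obtain ⟨r', hr2', hr3'⟩ := List.any_eq_true.1 (h6'.resolve_left hr')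
    rw [Nat.beq_eq] at hr3 hr3'
    rw [List.all_eq_true] at h5
    obtain ⟨F, hF⟩ := prs_spec _ _ (h5 r hr2) r' hr2'
    rw [hr3, hr3'] at hF
    refine move_C2 hF ?_
    intro a ha
    rcases Finset.mem_union.1 ha with ha | ha
    · exact Or.inl ((hDm a).1 ha)
    · obtain ⟨b, hb, rfl⟩ := Finset.mem_image.1 ha
      obtain ⟨k, hk, rfl⟩ := (hDm' b).1 hb
      exact Or.inr ⟨k, hk, rfl⟩

end HI

end Pool.Agent.DF302A
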