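import Pool.Agent.Work.MP_df302a_co.I0

/-! # MP_df302a_co, part (I), module I1: elementary lemmas on `Sim` and `Inn`. -/

set_option autoImplicit false

namespace Pool.Agent.DF302A.PI

open Finset

variable {V : Type*} [DecidableEq V]

theorem mem_coneV {v : V} {L : Set (Finset V)} {σ : Finset V} :
    σ ∈ coneV v L ↔ v ∈ σ ∧ σ.erase v ∈ L := Iff.rfl

theorem coneV_mono {v : V} {L L' : Set (Finset V)} (h : L ⊆ L') : coneV v L ⊆ coneV v L' :=
  fun _ hσ => ⟨hσ.1, h hσ.2⟩

theorem finite_coneV {v : V} {L : Set (Finset V)} (hL : L.Finite) : (coneV v L).Finite := by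
  refine (hL.image (insert v)).subset (fun σ hσ => ⟨σ.erase v, hσ.2, ?_⟩)
  exact Finset.insert_erase hσ.1

theorem isCx_coneV {v : V} {Z L : Set (Finset V)} (hZ : IsCx Z) (hL : IsCx L) (hLZ : L ⊆ Z) :
    IsCx (Z ∪ coneV v L) := by
  refine ⟨Or.inl hZ.1, fun σ hσ τ hτ => ?_⟩
  rcases hσ with hσ | ⟨hv, hσ⟩
  · exact Or.inl (hZ.2 σ hσ τ hτ)
  · by_cases hvτ : v ∈ τ
    · exact Or.inr ⟨hvτ, hL.2 _ hσ _ (Finset.erase_subset_erase v hτ)⟩
    · refine Or.inl (hZ.2 _ (hLZ hσ) _ fun z hz => ?_)
      exact Finset.mem_erase.2 ⟨fun e => hvτ (e ▸ hz), hτ hz⟩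

theorem adm_coneV {v : V} {Z L : Set (Finset V)} (hZ : Z3 v Z) (hL : IsCx L) (hLZ : L ⊆ Z) :
    Adm (Z ∪ coneV v L) := by
  refine ⟨isCx_coneV hZ.cx hL hLZ, hZ.fin.union (finite_coneV (hZ.fin.subset hLZ)), ?_, v, ?_⟩
  · rintro σ (hσ | ⟨hv, hσ⟩)
    · exact (hZ.card σ hσ).trans (by norm_num)
    · have h1 := hZ.card _ (hLZ hσ)
      have h2 := Finset.card_erase_add_one hv
      omega
  · rintro σ (hσ | ⟨hv, hσ⟩) h5
    · have := hZ.card σ hσ
      omega
    · exact hv

theorem adm_Z3 {v : V} {Z : Set (Finset V)} (hZ : Z3 v Z) : Adm Z := by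
  refine ⟨hZ.cx, hZ.fin, fun σ hσ => (hZ.card σ hσ).trans (by norm_num), v, fun σ hσ h5 => ?_⟩
  have := hZ.card σ hσ
  omega

theorem Expn.sub {L L' : Set (Finset V)} {F : Finset V} {x : V} (h : Expn L L' F x) : L ⊆ L' := by
  rw [h.eq]
  exact fun σ hσ => Or.inr (Or.inr hσ)

theorem Expn.isCx {L L' : Set (Finset V)} {F : Finset V} {x : V} (h : Expn L L' F x) :
    IsCx L' := by
  rw [h.eq]
  refine ⟨Or.inr (Or.inr h.cx.1), fun σ hσ τ hτ => ?_⟩
  have sub : ∀ t, t ⊂ F → t ∈ L := by
    intro t ht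
    obtain ⟨y, hy, hyt⟩ := Finset.exists_of_ssubset ht
    refine h.cx.2 _ (h.hy y hy) t fun z hz => ?_
    exact Finset.mem_insert_of_mem (Finset.mem_erase.2 ⟨fun e => hyt (e ▸ hz), ht.1 hz⟩)
  rcases hσ with rfl | rfl | hσ
  · rcases eq_or_ssubset_of_subset hτ with rfl | ht
    · exact Or.inl rfl
    · exact Or.inr (Or.inr (sub τ ht))
  · by_cases e : τ = insert x F
    · exact Or.inr (Or.inl e)
    by_cases e' : τ = F
    · exact Or.inl e'
    · refine Or.inr (Or.inr ?_)
      by_cases hxt : x ∈ τ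
      · obtain ⟨y, hy, hyt⟩ : ∃ y ∈ F, y ∉ τ := by
          by_contra hcon
          push Not at hcon
          exact e (Finset.Subset.antisymm hτ (Finset.insert_subset hxt hcon))
        refine h.cx.2 _ (h.hy y hy) τ fun z hz => ?_
        rcases Finset.mem_insert.1 (hτ hz) with rfl | hz'
        · exact Finset.mem_insert_self _ _
        · exact Finset.mem_insert_of_mem (Finset.mem_erase.2 ⟨fun e => hyt (e ▸ hz), hz'⟩)
      · refine sub τ (lt_of_le_of_ne (fun z hz => ?_) e')
        rcases Finset.mem_insert.1 (hτ hz) with rfl | h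
        · exact absurd hz hxt
        · exact h
  · exact Or.inr (Or.inr (h.cx.2 σ hσ τ hτ))

theorem Expn.notMem {L L' : Set (Finset V)} {F : Finset V} {x : V} (h : Expn L L' F x) :
    insert x F ∉ L := fun h1 => h.hF (h.cx.2 _ h1 _ (Finset.subset_insert x F))

theorem Inn.subset_iff {Z L L' : Set (Finset V)} (hZ : IsCx Z) (h : Inn Z L L') :
    L ⊆ Z ↔ L' ⊆ Z := by
  induction h with
  | exp h hE =>
    constructor
    · intro hL
      rw [h.eq]
      rintro σ (rfl | rfl | hσ)
      · exact hZ.2 _ hE _ (Finset.subset_insert _ _)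
      · exact hE
      · exact hL hσ
    · intro hL
      exact h.sub.trans hL
  | refl L => exact Iff.rfl
  | symm _ ih => exact ih.symm
  | trans _ _ ih1 ih2 => exact ih1.trans ih2

theorem Inn.isCx_iff {Z L L' : Set (Finset V)} (h : Inn Z L L') : IsCx L ↔ IsCx L' := by
  induction h with
  | exp h hE => exact ⟨fun _ => h.isCx, fun _ => h.cx⟩
  | refl L => exact Iff.rfl
  | symm _ ih => exact ih.symm
  | trans _ _ ih1 ih2 => exact ih1.trans ih2

theorem Inn.mono {Z Z' L L' : Set (Finset V)} (hZ : Z ⊆ Z') (h : Inn Z L L') : Inn Z' L L' := by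
  induction h with
  | exp h hE => exact Inn.exp h (hZ hE)
  | refl L => exact Inn.refl L
  | symm _ ih => exact ih.symm
  | trans _ _ ih1 ih2 => exact ih1.trans ih2

/-- an expansion inside `Z` gives an expansion of the cones -/
theorem expn_cone {v : V} {Z L L' : Set (Finset V)} {F : Finset V} {x : V} (hZ : Z3 v Z)
    (hLZ : L ⊆ Z) (h : Expn L L' F x) (hE : insert x F ∈ Z) :
    Expn (Z ∪ coneV v L) (Z ∪ coneV v L') (insert v F) x := by
  have hFZ : F ∈ Z := hZ.cx.2 _ hE _ (Finset.subset_insert x F)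
  have hvE : v ∉ insert x F := hZ.fresh _ hE
  have hvF : v ∉ F := hZ.fresh _ hFZ
  have hvx : v ≠ x := fun e => hvE (by rw [e]; exact Finset.mem_insert_self _ _)
  have hcone : ∀ s : Finset V, v ∉ s → ∀ L : Set (Finset V), insert v s ∈ coneV v L ↔ s ∈ L := by
    intro s hs L
    rw [mem_coneV, Finset.erase_insert hs]
    exact ⟨fun h => h.2, fun h => ⟨Finset.mem_insert_self _ _, h⟩⟩
  refine ⟨isCx_coneV hZ.cx h.cx hLZ, ?_, ⟨v, Finset.mem_insert_self _ _⟩, ?_, ?_, ?_⟩
  · rw [Finset.mem_insert, not_or]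
    exact ⟨hvx.symm, h.hx⟩
  · rintro (h1 | h1)
    · exact hZ.fresh _ h1 (Finset.mem_insert_self _ _)
    · exact h.hF ((hcone F hvF L).1 h1)
  · intro y hy
    rcases Finset.mem_insert.1 hy with rfl | hy
    · rw [Finset.erase_insert hvF]
      exact Or.inl hE
    · have hyv : y ≠ v := fun e => hvF (e ▸ hy)
      rw [Finset.erase_insert_of_ne hyv.symm, Finset.insert_comm]
      refine Or.inr ((hcone _ ?_ L).2 (h.hy y hy))
      intro h1
      rcases Finset.mem_insert.1 h1 with h2 | h2
      · exact hvx h2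
      · exact hvF (Finset.mem_of_mem_erase h2)
  · rw [h.eq]
    ext σ
    constructor
    · rintro (hσ | ⟨h1, h2⟩)
      · exact Or.inr (Or.inr (Or.inl hσ))
      · rcases h2 with h2 | h2 | h2
        · refine Or.inl ?_
          rw [← h2, Finset.insert_erase h1]
        · refine Or.inr (Or.inl ?_)
          rw [Finset.insert_comm, ← h2, Finset.insert_erase h1]
        · exact Or.inr (Or.inr (Or.inr ⟨h1, h2⟩))
    · rintro (rfl | rfl | hσ | hσ)
      · exact Or.inr ((hcone F hvF _).2 (Or.inl rfl))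
      · rw [Finset.insert_comm]
        exact Or.inr ((hcone _ hvE _).2 (Or.inr (Or.inl rfl)))
      · exact Or.inl hσ
      · exact Or.inr ⟨hσ.1, Or.inr (Or.inr hσ.2)⟩

/-- (CL) the fundamental lemma -/
theorem sim_cone {v : V} {Z L L' : Set (Finset V)} (hZ : Z3 v Z) (hL : IsCx L) (hLZ : L ⊆ Z)
    (h : Inn Z L L') : Sim (Z ∪ coneV v L) (Z ∪ coneV v L') := by
  induction h with
  | exp h hE =>
    have h1 := (Inn.exp h hE).subset_iff hZ.cx
    exact Sim.exp (expn_cone hZ hLZ h hE) (adm_coneV hZ h.isCx (h1.1 hLZ))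
  | refl L => exact Sim.refl _
  | symm h ih => exact (ih (h.isCx_iff.2 hL) ((h.subset_iff hZ.cx).2 hLZ)).symm
  | trans h1 h2 ih1 ih2 =>
    exact (ih1 hL hLZ).trans (ih2 (h1.isCx_iff.1 hL) ((h1.subset_iff hZ.cx).1 hLZ))

omit [DecidableEq V] in
theorem isCx_pt (p : V) : IsCx (pt p) := by
  refine ⟨Or.inl rfl, fun σ hσ τ hτ => ?_⟩
  rcases hσ with rfl | rfl
  · exact Or.inl (Finset.subset_empty.1 hτ)
  · exact Finset.subset_singleton_iff.1 hτ

/-- cone over a point -/
theorem sim_pt {v p : V} {Z : Set (Finset V)} (hZ : Z3 v Z) (hp : {p} ∈ Z) :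
    Sim Z (Z ∪ coneV v (pt p)) := by
  have hpv : p ≠ v := fun e => hZ.fresh _ hp (by simp [e])
  have hsub : pt p ⊆ Z := by
    rintro s (rfl | rfl)
    · exact hZ.cx.1
    · exact hp
  refine Sim.exp (F := {v}) (x := p) ⟨hZ.cx, by simpa using hpv, ⟨v, by simp⟩,
    fun h => hZ.fresh _ h (by simp), fun y hy => ?_, ?_⟩ (adm_coneV hZ (isCx_pt p) hsub)
  · obtain rfl := Finset.mem_singleton.1 hy
    have : insert p (({y} : Finset V).erase y) = {p} := by simp
    rw [this]
    exact hp
  · ext σ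
    constructor
    · rintro (hσ | ⟨h1, h2⟩)
      · exact Or.inr (Or.inr hσ)
      · rcases h2 with h2 | h2
        · refine Or.inl ?_
          rw [← Finset.insert_erase h1, h2]
          rfl
        · refine Or.inr (Or.inl ?_)
          have h3 : σ.erase v = {p} := h2
          rw [← Finset.insert_erase h1, h3]
          exact Finset.pair_comm v p
    · rintro (rfl | rfl | hσ)
      · exact Or.inr ⟨by simp, Or.inl (by simp)⟩
      · refine Or.inr ⟨by simp, Or.inr ?_⟩
        show (insert p {v} : Finset V).erase v = {p}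
        rw [Finset.erase_insert_of_ne hpv]
        simp
      · exact Or.inl hσ

/-- a cone over a complex `H` which is collapsible inside `Z` can be added -/
theorem sim_coneAdd {v p : V} {Z H : Set (Finset V)} (hZ : Z3 v Z) (hp : {p} ∈ Z)
    (h : Inn Z (pt p) H) : Sim Z (Z ∪ coneV v H) := by
  have hsub : pt p ⊆ Z := by
    rintro s (rfl | rfl)
    · exact hZ.cx.1
    · exact hp
  exact (sim_pt hZ hp).trans (sim_cone hZ (isCx_pt p) hsub h)

/-- a cone is collapsible -/
theorem inn_cone {w : V} {Z D : Set (Finset V)} (hD : IsCx D) (hf : D.Finite)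
    (hw : ∀ σ ∈ D, w ∉ σ) (h1 : D ∪ coneV w D ⊆ Z) : Inn Z (pt w) (D ∪ coneV w D) := by
  induction hn : D.ncard using Nat.strong_induction_on generalizing D with
  | _ n ih =>
    by_cases h0 : D = {∅}
    · have : D ∪ coneV w D = pt w := by
        rw [h0]
        ext σ
        constructor
        · rintro (hσ | ⟨h2, h3⟩)
          · exact Or.inl hσ
          · refine Or.inr ?_
            have h3' : σ.erase w = ∅ := h3
            show σ = {w}
            rw [← Finset.insert_erase h2, h3']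
            rfl
        · rintro (rfl | rfl)
          · exact Or.inl rfl
          · exact Or.inr ⟨by simp, by simp⟩
      rw [this]
      exact Inn.refl _
    · obtain ⟨s, hs, hmax⟩ := Set.exists_max_image D Finset.card hf ⟨∅, hD.1⟩
      have hs0 : s ≠ ∅ := by
        rintro rfl
        refine h0 (Set.eq_singleton_iff_unique_mem.2 ⟨hD.1, fun t ht => ?_⟩)
        have := hmax t ht
        simpa using this
      have hws : w ∉ s := hw s hs
      have hD' : IsCx (D \ {s}) := by
        refine ⟨⟨hD.1, fun h => hs0 h.symm⟩, fun r hr t ht => ⟨hD.2 r hr.1 t ht, fun e => hr.2 ?_⟩⟩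
        obtain rfl : t = s := e
        exact (Finset.eq_of_subset_of_card_le ht (hmax r hr.1)).symm
      have hsub : D \ {s} ⊆ D := Set.sdiff_subset
      have hcard : (D \ {s}).ncard < n := by
        rw [← hn]
        exact Set.ncard_sdiff_singleton_lt_of_mem hs hf
      have key := ih _ hcard hD' (hf.subset hsub) (fun σ hσ => hw σ hσ.1)
        ((Set.union_subset_union hsub (coneV_mono hsub)).trans h1) rfl
      have hcE : insert w s ∈ coneV w D := by
        rw [mem_coneV, Finset.erase_insert hws]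
        exact ⟨Finset.mem_insert_self _ _, hs⟩
      refine key.trans (Inn.exp (F := s) (x := w) ⟨?_, hws, Finset.nonempty_of_ne_empty hs0, ?_,
        ?_, ?_⟩ (h1 (Or.inr hcE)))
      · exact isCx_coneV hD' hD' (le_refl _)
      · rintro (h2 | h2)
        · exact h2.2 rfl
        · exact hws h2.1
      · intro y hy
        refine Or.inr ?_
        rw [mem_coneV, Finset.erase_insert (fun h => hws (Finset.mem_of_mem_erase h))]
        refine ⟨Finset.mem_insert_self _ _, hD.2 s hs _ (Finset.erase_subset _ _), fun e => ?_⟩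
        have e' : s.erase y = s := e
        exact (Finset.notMem_erase y s) (e'.symm ▸ hy)
      · ext σ
        constructor
        · rintro (h2 | ⟨h2, h3⟩)
          · by_cases e : σ = s
            · exact Or.inl e
            · exact Or.inr (Or.inr (Or.inl ⟨h2, e⟩))
          · by_cases e : σ.erase w = s
            · refine Or.inr (Or.inl ?_)
              rw [← e, Finset.insert_erase h2]
            · exact Or.inr (Or.inr (Or.inr ⟨h2, h3, e⟩))
        · rintro (rfl | rfl | h2 | h2)
          · exact Or.inl hs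
          · exact Or.inr hcE
          · exact Or.inl h2.1
          · exact Or.inr ⟨h2.1, h2.2.1⟩

/-- a simplex is collapsible -/
theorem inn_simplex {Z : Set (Finset V)} {τ : Finset V} {p : V} (hp : p ∈ τ)
    (h : ∀ σ, σ ⊆ τ → σ ∈ Z) : Inn Z (pt p) {σ | σ ⊆ τ} := by
  have e : ({σ | σ ⊆ τ} : Set (Finset V)) = {σ | σ ⊆ τ.erase p} ∪ coneV p {σ | σ ⊆ τ.erase p} := by
    ext σ
    constructor
    · intro hσ
      by_cases hpσ : p ∈ σ
      · exact Or.inr ⟨hpσ, Finset.erase_subset_erase p hσ⟩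
      · refine Or.inl fun z hz => Finset.mem_erase.2 ⟨fun e => hpσ (e ▸ hz), hσ hz⟩
    · rintro (hσ | ⟨h1, h2⟩)
      · exact fun z hz => Finset.mem_of_mem_erase (hσ hz)
      · intro z hz
        by_cases hzp : z = p
        · rw [hzp]; exact hp
        · exact Finset.mem_of_mem_erase (h2 (Finset.mem_erase.2 ⟨hzp, hz⟩))
  rw [e]
  refine inn_cone ⟨Finset.empty_subset _, fun σ hσ t ht => ht.trans hσ⟩ ?_ ?_ ?_
  · exact (Finset.finite_toSet (τ.erase p).powerset).subset
      (fun σ hσ => Finset.mem_coe.2 (Finset.mem_powerset.2 hσ))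
  · intro σ hσ hpσ
    exact Finset.notMem_erase p τ (hσ hpσ)
  · rw [← e]
    exact fun σ hσ => h σ hσ

/-- a tetrahedron can be replaced by the cone over its boundary -/
theorem sim_tet {v : V} {Z : Set (Finset V)} {τ : Finset V} (hZ : Z3 v Z) (hτ : τ ∉ Z)
    (hc : τ.card = 4) (hb : ∀ σ, σ ⊂ τ → σ ∈ Z) (hv : v ∉ τ) :
    Sim (insert τ Z) (Z ∪ coneV v {σ | σ ⊂ τ}) := by
  have hZ' : Z3 v (insert τ Z) := by
    refine ⟨⟨Or.inr hZ.cx.1, ?_⟩, hZ.fin.insert τ, ?_, ?_⟩
    · rintro σ (rfl | hσ) t ht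
      · rcases eq_or_ssubset_of_subset ht with rfl | ht
        · exact Or.inl rfl
        · exact Or.inr (hb t ht)
      · exact Or.inr (hZ.cx.2 σ hσ t ht)
    · rintro σ (rfl | hσ)
      · exact hc.le
      · exact hZ.card σ hσ
    · rintro σ (rfl | hσ)
      · exact hv
      · exact hZ.fresh σ hσ
  obtain ⟨p, hp⟩ : τ.Nonempty := Finset.card_pos.1 (by omega)
  have hall : ∀ σ, σ ⊆ τ → σ ∈ insert τ Z := by
    intro σ hσ
    rcases eq_or_ssubset_of_subset hσ with rfl | h
    · exact Or.inl rfl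
    · exact Or.inr (hb σ h)
  have h1 : Sim (insert τ Z) (insert τ Z ∪ coneV v {σ | σ ⊆ τ}) :=
    sim_coneAdd hZ' (hall _ (Finset.singleton_subset_iff.2 hp)) (inn_simplex hp hall)
  refine h1.trans (Sim.symm ?_)
  refine Sim.exp (F := τ) (x := v) ⟨?_, hv, ⟨p, hp⟩, ?_, ?_, ?_⟩
    (adm_coneV hZ' ⟨Finset.empty_subset _, fun σ hσ t ht => ht.trans hσ⟩ (fun σ hσ => hall σ hσ))
  · refine isCx_coneV hZ.cx ⟨?_, fun σ hσ t ht => ?_⟩ (fun σ hσ => hb σ hσ)
    · exact Finset.empty_ssubset.2 ⟨p, hp⟩
    · exact lt_of_le_of_lt ht hσ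
  · rintro (h | h)
    · exact hτ h
    · exact hv h.1
  · intro y hy
    refine Or.inr ?_
    rw [mem_coneV, Finset.erase_insert (fun h => hv (Finset.mem_of_mem_erase h))]
    exact ⟨Finset.mem_insert_self _ _, Finset.erase_ssubset hy⟩
  · ext σ
    constructor
    · rintro ((rfl | hσ) | ⟨h2, h3⟩)
      · exact Or.inl rfl
      · exact Or.inr (Or.inr (Or.inl hσ))
      · rcases eq_or_ssubset_of_subset (show σ.erase v ⊆ τ from h3) with h4 | h4
        · refine Or.inr (Or.inl ?_)
          rw [← h4, Finset.insert_erase h2]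
        · exact Or.inr (Or.inr (Or.inr ⟨h2, h4⟩))
    · rintro (rfl | rfl | hσ | hσ)
      · exact Or.inl (Or.inl rfl)
      · refine Or.inr ⟨Finset.mem_insert_self _ _, ?_⟩
        rw [Finset.erase_insert hv]
        exact Finset.Subset.refl τ
      · exact Or.inl (Or.inr hσ)
      · exact Or.inr ⟨hσ.1, (show σ.erase v ⊂ τ from hσ.2).1⟩

/-- adding a triangle `t` and the tetrahedron `w + t` is an expansion -/
theorem sim_pair {Z : Set (Finset V)} {t : Finset V} {w : V} (hZ : IsCx Z) (hf : Z.Finite)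
    (hc : ∀ σ ∈ Z, σ.card ≤ 4) (ht : t.card = 3) (hw : w ∉ t) (htZ : t ∉ Z)
    (hy : ∀ y ∈ t, insert w (t.erase y) ∈ Z) : Sim Z (insert t (insert (insert w t) Z)) := by
  have hexp : Expn Z (insert t (insert (insert w t) Z)) t w :=
    ⟨hZ, hw, Finset.card_pos.1 (by omega), htZ, hy, rfl⟩
  have hcard : ∀ σ ∈ insert t (insert (insert w t) Z), σ.card ≤ 4 := by
    rintro σ (rfl | rfl | hσ)
    · omega
    · rw [Finset.card_insert_of_notMem hw]
      omega
    · exact hc σ hσ
  refine Sim.exp hexp ⟨hexp.isCx, (hf.insert _).insert _,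
    fun σ hσ => (hcard σ hσ).trans (by norm_num), w, fun σ hσ h5 => ?_⟩
  have := hcard σ hσ
  omega

theorem Sim.finite_iff {K K' : Set (Finset V)} (h : Sim K K') : K.Finite ↔ K'.Finite := by
  induction h with
  | exp h a => exact ⟨fun _ => a.2.1, fun _ => a.2.1.subset h.sub⟩
  | refl K => exact Iff.rfl
  | symm _ ih => exact ih.symm
  | trans _ _ ih1 ih2 => exact ih1.trans ih2

/-- transport to a predicate which is invariant under elementary expansions -/
theorem Sim.good {e : V → ℕ} (he : Function.Injective e) (Good : Finset (Finset ℕ) → Prop)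
    (hG : ∀ (K : Finset (Finset ℕ)) (F : Finset ℕ) (x : ℕ), (∀ σ ∈ K, ∀ τ, τ ⊆ σ → τ ∈ K) →
      x ∉ F → F.Nonempty → F ∉ K → (∀ y ∈ F, insert x (F.erase y) ∈ K) →
      (∀ σ ∈ K, (σ ∪ insert x F).card ≤ 9) →
      (Good K ↔ Good (insert F (insert (insert x F) K))))
    {K K' : Set (Finset V)} (h : Sim K K') (A A' : Finset (Finset ℕ))
    (hA : (A : Set (Finset ℕ)) = (fun σ : Finset V => σ.image e) '' K)
    (hA' : (A' : Set (Finset ℕ)) = (fun σ : Finset V => σ.image e) '' K') :
    Good A ↔ Good A' := by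
  have hinj : Function.Injective (fun σ : Finset V => σ.image e) :=
    Finset.image_injective he
  induction h generalizing A A' with
  | @exp K K' F x h a =>
    have hmem : ∀ s : Finset V, s.image e ∈ A ↔ s ∈ K := by
      intro s
      rw [← Finset.mem_coe, hA]
      exact hinj.mem_set_image
    have hex : ∀ σ ∈ A, ∃ s ∈ K, s.image e = σ := by
      intro σ hσ
      rw [← Finset.mem_coe, hA] at hσ
      exact hσ
    have hA2 : A' = insert (F.image e) (insert (insert (e x) (F.image e)) A) := by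
      apply Finset.coe_injective
      rw [hA', Finset.coe_insert, Finset.coe_insert, hA, h.eq, Set.image_insert_eq,
        Set.image_insert_eq, Finset.image_insert]
    rw [hA2]
    refine hG A (F.image e) (e x) ?_ ?_ (h.ne.image e) ?_ ?_ ?_
    · intro σ hσ τ hτ
      obtain ⟨s, hs, rfl⟩ := hex σ hσ
      obtain ⟨t, ht, rfl⟩ := Finset.subset_image_iff.1 hτ
      exact (hmem t).2 (h.cx.2 s hs t (by exact_mod_cast ht))
    · intro h1
      obtain ⟨y, hy, e1⟩ := Finset.mem_image.1 h1
      exact h.hx (he e1 ▸ hy)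
    · rw [hmem]
      exact h.hF
    · intro y hy
      obtain ⟨y, hy', rfl⟩ := Finset.mem_image.1 hy
      have e2 : insert (e x) ((F.image e).erase (e y)) = (insert x (F.erase y)).image e := by
        rw [Finset.image_insert, Finset.image_erase he]
      rw [e2, hmem]
      exact h.hy y hy'
    · intro σ hσ
      obtain ⟨s, hs, rfl⟩ := hex σ hσ
      have e3 : s.image e ∪ insert (e x) (F.image e) = (s ∪ insert x F).image e := by
        rw [Finset.image_union, Finset.image_insert]
      rw [e3, Finset.card_image_of_injective _ he]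
      have hs' : s ∈ K' := h.sub hs
      have hE' : insert x F ∈ K' := by
        rw [h.eq]
        exact Or.inr (Or.inl rfl)
      obtain ⟨_, _, h5, v, hv⟩ := a
      have h6 := h5 s hs'
      have h7 := h5 _ hE'
      have h8 := Finset.card_union_add_card_inter s (insert x F)
      by_contra h9
      push Not at h9
      have h10 : 0 < (s ∩ insert x F).card :=
        Finset.card_pos.2 ⟨v, Finset.mem_inter.2 ⟨hv s hs' (by omega), hv _ hE' (by omega)⟩⟩
      omega
  | refl K =>
    have : A = A' := Finset.coe_injective (by rw [hA, hA'])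
    rw [this]
  | symm _ ih => exact (ih A' A hA' hA).symm
  | @trans K K' K'' h1 h2 ih1 ih2 =>
    have hfA : K.Finite := by
      refine Set.Finite.of_finite_image (f := fun σ : Finset V => σ.image e) ?_ hinj.injOn
      rw [← hA]
      exact A.finite_toSet
    have hf' : ((fun σ : Finset V => σ.image e) '' K').Finite := (h1.finite_iff.1 hfA).image _
    exact (ih1 A hf'.toFinset hA (by simp)).trans (ih2 hf'.toFinset A' (by simp) hA')

end Pool.Agent.DF302A.PI
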