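import Pool.Agent.Work.MP_df302a_co.I1

/-! # MP_df302a_co, part (I), module I2: states. -/

set_option autoImplicit false
set_option linter.unusedSectionVars false

namespace Pool.Agent.DF302A.PI

open Finset

variable {V : Type*} [DecidableEq V] {w : V} {X : Finset V} {Mk : Finset (Finset V)}
  {C : Finset (V × Finset (Finset V))}

theorem card_le_erase (s : Finset V) (a : V) : s.card ≤ (s.erase a).card + 1 := by
  have := Finset.pred_card_le_card_erase (s := s) (a := a)
  omega

theorem isCx_cl {S : Finset (Finset V)} (hS : S.Nonempty) : IsCx (cl S) := by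
  obtain ⟨t, ht⟩ := hS
  exact ⟨⟨t, ht, by simp⟩, fun σ ⟨s, hs, h⟩ τ hτ => ⟨s, hs, hτ.trans h⟩⟩

theorem mem_ZZ_of_sub {σ : Finset V} (hw : w ∉ X) (h1 : σ ⊆ X) (h2 : σ.card ≤ 3) :
    σ ∈ ZZ w X Mk C := by
  have hwσ : w ∉ σ := fun h => hw (h1 h)
  left
  show σ.erase w ⊆ X ∧ (σ.erase w).card ≤ 3 ∧ (w ∈ σ → σ.erase w ∉ Mk)
  rw [Finset.erase_eq_of_notMem hwσ]
  exact ⟨h1, h2, fun h => absurd h hwσ⟩

theorem cl_sub_ZZ (hw : w ∉ X) {S : Finset (Finset V)} (hSX : ∀ t ∈ S, t ⊆ X ∧ t.card = 3) :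
    cl S ⊆ ZZ w X Mk C := by
  rintro σ ⟨t, ht, h⟩
  exact mem_ZZ_of_sub hw (h.trans (hSX t ht).1) ((Finset.card_le_card h).trans (hSX t ht).2.le)

/-- the complex of a well formed state -/
theorem z3_ZZ (h : WF w X Mk C) {v : V} (hv : Fresh w X C v) : Z3 v (ZZ w X Mk C) := by
  refine ⟨⟨mem_ZZ_of_sub h.hw (by simp) (by simp), fun σ hσ τ hτ => ?_⟩, ?_, ?_, ?_⟩
  · rcases hσ with ⟨h1, h2, h3⟩ | ⟨c, hc, h1, t, ht, h2⟩
    · left
      have hsub : τ.erase w ⊆ σ.erase w := Finset.erase_subset_erase _ hτ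
      refine ⟨hsub.trans h1, (Finset.card_le_card hsub).trans h2, fun hw hm => ?_⟩
      refine h3 (hτ hw) ?_
      rwa [← Finset.eq_of_subset_of_card_le hsub (by rw [(h.mrk _ hm).2]; exact h2)]
    · by_cases hcτ : c.1 ∈ τ
      · right
        exact ⟨c, hc, hcτ, t, ht, (Finset.erase_subset_erase _ hτ).trans h2⟩
      · have h3 : τ ⊆ t := by
          rw [← Finset.erase_eq_of_notMem hcτ]
          exact (Finset.erase_subset_erase _ hτ).trans h2
        obtain ⟨h4, h5⟩ := (h.tri c hc).2 t ht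
        exact mem_ZZ_of_sub h.hw (h3.trans h4) ((Finset.card_le_card h3).trans h5.le)
  · refine Set.Finite.subset (Finset.finite_toSet (insert w (X ∪ C.image Prod.fst)).powerset) ?_
    intro σ hσ
    simp only [Finset.coe_powerset, Set.mem_preimage, Set.mem_powerset_iff, Finset.coe_subset]
    rcases hσ with ⟨h1, h2, h3⟩ | ⟨c, hc, h1, t, ht, h2⟩
    · intro z hz
      by_cases e : z = w
      · simp [e]
      · simp [h1 (Finset.mem_erase.2 ⟨e, hz⟩)]
    · intro z hz
      by_cases e : z = c.1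
      · subst e
        simp only [Finset.mem_insert, Finset.mem_union, Finset.mem_image]
        exact Or.inr (Or.inr ⟨c, hc, rfl⟩)
      · have := ((h.tri c hc).2 t ht).1 (h2 (Finset.mem_erase.2 ⟨e, hz⟩))
        simp [this]
  · intro σ hσ
    rcases hσ with ⟨h1, h2, h3⟩ | ⟨c, hc, h1, t, ht, h2⟩
    · have := card_le_erase (σ) w
      omega
    · have h3 := card_le_erase (σ) c.1
      have h4 := Finset.card_le_card h2
      have h5 := ((h.tri c hc).2 t ht).2
      omega
  · intro σ hσ hvσ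
    rcases hσ with ⟨h1, h2, h3⟩ | ⟨c, hc, h1, t, ht, h2⟩
    · exact hv.hX (h1 (Finset.mem_erase.2 ⟨hv.hw, hvσ⟩))
    · exact hv.hX (((h.tri c hc).2 t ht).1 (h2 (Finset.mem_erase.2 ⟨(hv.hC c hc).symm, hvσ⟩)))

theorem ZZ_insert (u : V) (S : Finset (Finset V)) :
    ZZ w X Mk (insert (u, S) C) = ZZ w X Mk C ∪ coneV u (cl S) := by
  ext σ
  simp only [ZZ, Cells, coneV, Set.mem_union, Set.mem_ofPred_eq, Finset.mem_insert]
  constructor
  · rintro (h | ⟨c, rfl | hc, h⟩)
    · exact Or.inl (Or.inl h)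
    · exact Or.inr h
    · exact Or.inl (Or.inr ⟨c, hc, h⟩)
  · rintro ((h | ⟨c, hc, h⟩) | h)
    · exact Or.inl h
    · exact Or.inr ⟨c, Or.inr hc, h⟩
    · exact Or.inr ⟨(u, S), Or.inl rfl, h⟩

/-- replacement of a cell -/
theorem sim_repl (h : WF w X Mk C) {u : V} (hu : Fresh w X C u) {S S' : Finset (Finset V)}
    (hS : S.Nonempty) (hSX : ∀ t ∈ S, t ⊆ X ∧ t.card = 3)
    (hI : Inn (ZZ w X Mk C) (cl S) (cl S')) :
    Sim (ZZ w X Mk (insert (u, S) C)) (ZZ w X Mk (insert (u, S') C)) := by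
  rw [ZZ_insert, ZZ_insert]
  exact sim_cone (z3_ZZ h hu) (isCx_cl hS) (cl_sub_ZZ h.hw hSX) hI

theorem pt_sub {Z : Set (Finset V)} (hZ : IsCx Z) {p : V} (hp : {p} ∈ Z) : pt p ⊆ Z := by
  rintro σ (rfl | rfl)
  · exact hZ.1
  · exact hp

/-- a new vertex -/
theorem sim_vertex (h : WF w X Mk C) {y : V} (hy : Fresh w X C y) :
    Sim (ZZ w X Mk C) (ZZ w (insert y X) Mk C) := by
  set D : Set (Finset V) := {σ | σ ⊆ X ∧ σ.card ≤ 2} with hD
  have hwy : w ≠ y := hy.hw.symm
  have e : ZZ w (insert y X) Mk C = ZZ w X Mk C ∪ coneV y (D ∪ coneV w D) := by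
    ext σ
    simp only [ZZ, Env, coneV, hD, Set.mem_union, Set.mem_ofPred_eq]
    constructor
    · rintro (⟨h1, h2, h3⟩ | h1)
      · by_cases hyσ : y ∈ σ
        · right
          refine ⟨hyσ, ?_⟩
          have hyw : y ∈ σ.erase w := Finset.mem_erase.2 ⟨hy.hw, hyσ⟩
          have h4 : (σ.erase w).erase y ⊆ X := Finset.subset_insert_iff.1 h1
          have h5 : ((σ.erase w).erase y).card ≤ 2 := by
            rw [Finset.card_erase_of_mem hyw]
            omega
          by_cases hwσ : w ∈ σ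
          · right
            refine ⟨Finset.mem_erase.2 ⟨hwy, hwσ⟩, ?_⟩
            rw [Finset.erase_right_comm]
            exact ⟨h4, h5⟩
          · left
            rw [Finset.erase_eq_of_notMem hwσ] at h4 h5
            exact ⟨h4, h5⟩
        · left; left
          have hyw : y ∉ σ.erase w := fun h => hyσ (Finset.mem_of_mem_erase h)
          exact ⟨(Finset.subset_insert_iff_of_notMem hyw).1 h1, h2, h3⟩
      · exact Or.inl (Or.inr h1)
    · rintro ((⟨h1, h2, h3⟩ | h1) | ⟨h1, ⟨h2, h3⟩ | ⟨h2, h3, h4⟩⟩)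
      · exact Or.inl ⟨h1.trans (Finset.subset_insert _ _), h2, h3⟩
      · exact Or.inr h1
      · left
        have h4 : σ ⊆ insert y X := by
          rw [← Finset.insert_erase h1]
          exact Finset.insert_subset_insert _ h2
        have h5 : w ∉ σ := fun hw => h.hw (h2 (Finset.mem_erase.2 ⟨hwy, hw⟩))
        have h6 := card_le_erase (σ) y
        rw [Finset.erase_eq_of_notMem h5]
        exact ⟨h4, by omega, fun hw => absurd hw h5⟩
      · left
        have h5 : y ∈ σ.erase w := Finset.mem_erase.2 ⟨hy.hw, h1⟩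
        rw [Finset.erase_right_comm] at h3 h4
        have h6 := card_le_erase (σ.erase w) y
        refine ⟨Finset.subset_insert_iff.2 h3, by omega, fun _ hm => ?_⟩
        exact hy.hX ((h.mrk _ hm).1 h5)
  rw [e]
  have hZ := z3_ZZ h hy
  have hDc : IsCx D := ⟨⟨by simp, by simp⟩, fun σ hσ τ hτ =>
    ⟨hτ.trans hσ.1, (Finset.card_le_card hτ).trans hσ.2⟩⟩
  have hDw : ∀ σ ∈ D, w ∉ σ := fun σ hσ hwσ => h.hw (hσ.1 hwσ)
  have hsub : D ∪ coneV w D ⊆ ZZ w X Mk C := by
    rintro σ (⟨h1, h2⟩ | ⟨h1, h2, h3⟩)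
    · exact mem_ZZ_of_sub h.hw h1 (by omega)
    · left
      exact ⟨h2, by omega, fun _ hm => by have := (h.mrk _ hm).2; omega⟩
  refine sim_coneAdd hZ (p := w) ?_ (inn_cone hDc ?_ hDw hsub)
  · exact hsub (Or.inr ⟨by simp, by simp [hD]⟩)
  · exact hZ.fin.subset (Set.subset_union_left.trans hsub)

/-- the marked triangle `t` is only contained in itself -/
theorem eq_of_sub_ZZ (h : WF w X Mk C) {t : Finset V} (htM : t ∈ Mk) (htC : ∀ c ∈ C, t ∉ c.2)
    {σ : Finset V} (hσ : σ ∈ ZZ w X Mk C) (ht : t ⊆ σ) : σ = t := by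
  obtain ⟨htX, ht3⟩ := h.mrk t htM
  have hwt : w ∉ t := fun hw => h.hw (htX hw)
  rcases hσ with ⟨h1, h2, h3⟩ | ⟨c, hc, h1, t', ht', h2⟩
  · have h4 : t ⊆ σ.erase w := by
      rw [← Finset.erase_eq_of_notMem hwt]
      exact Finset.erase_subset_erase _ ht
    have h5 : t = σ.erase w := Finset.eq_of_subset_of_card_le h4 (by omega)
    by_cases hwσ : w ∈ σ
    · exact absurd (h5 ▸ htM) (h3 hwσ)
    · rw [h5, Finset.erase_eq_of_notMem hwσ]
  · have hct : c.1 ∉ t := fun hc' => (h.tag c hc).1 (htX hc')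
    have h4 : t ⊆ σ.erase c.1 := by
      rw [← Finset.erase_eq_of_notMem hct]
      exact Finset.erase_subset_erase _ ht
    have h5 : t = t' := Finset.eq_of_subset_of_card_le (h4.trans h2)
      (by rw [((h.tri c hc).2 t' ht').2, ht3])
    exact absurd (h5 ▸ ht') (htC c hc)

/-- a cell with a private triangle `t` disappears and `t` becomes unmarked -/
theorem sim_private (h : WF w X Mk C) {u : V} (hu : Fresh w X C u) {S : Finset (Finset V)}
    (hSX : ∀ t ∈ S, t ⊆ X ∧ t.card = 3) {t : Finset V} (htM : t ∈ Mk) (htS : t ∈ S)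
    (htC : ∀ c ∈ C, t ∉ c.2) (hd : Disc S t) (he : ∀ y ∈ t, t.erase y ∈ cl (S.erase t)) :
    Sim (ZZ w X Mk (insert (u, S) C)) (ZZ w X (Mk.erase t) C) := by
  obtain ⟨htX, ht3⟩ := h.mrk t htM
  have hwt : w ∉ t := fun hw => h.hw (htX hw)
  have hut : u ∉ t := fun hw => hu.hX (htX hw)
  have hZ := z3_ZZ h hu
  set Z := ZZ w X Mk C with hZdef
  set Z' : Set (Finset V) := Z \ {t} with hZ'def
  have hsub : Z' ⊆ Z := Set.sdiff_subset
  have htZ : t ∈ Z := mem_ZZ_of_sub h.hw htX ht3.le
  have hne : t.Nonempty := by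
    rw [← Finset.card_pos]
    omega
  obtain ⟨y0, hy0⟩ := hne
  have hZ' : Z3 u Z' := by
    refine ⟨⟨⟨hZ.cx.1, ?_⟩, fun σ hσ τ hτ => ⟨hZ.cx.2 σ hσ.1 τ hτ, ?_⟩⟩, hZ.fin.subset hsub,
      fun σ hσ => hZ.card σ hσ.1, fun σ hσ => hZ.fresh σ hσ.1⟩
    · intro e
      rw [Set.mem_singleton_iff] at e
      rw [← e] at ht3
      simp at ht3
    · intro e
      rw [Set.mem_singleton_iff] at e
      subst e
      exact hσ.2 (eq_of_sub_ZZ h htM htC hσ.1 hτ)
  -- the disc
  set E := S.erase t with hE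
  have hEne : E.Nonempty := by
    obtain ⟨s, hs, _⟩ := he y0 hy0
    exact ⟨s, hs⟩
  have hEcx : IsCx (cl E) := isCx_cl hEne
  have hEZ : cl E ⊆ Z' := by
    intro σ hσ
    refine ⟨cl_sub_ZZ h.hw (fun s hs => hSX s (Finset.mem_of_mem_erase hs)) hσ, ?_⟩
    intro e
    rw [Set.mem_singleton_iff] at e
    subst e
    obtain ⟨s, hs, h1⟩ := hσ
    have h2 := hSX s (Finset.mem_of_mem_erase hs)
    exact Finset.ne_of_mem_erase hs (Finset.eq_of_subset_of_card_le h1 (by omega)).symm
  obtain ⟨p, hp⟩ := hd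
  have hpE : pt p ⊆ cl E := (hp.subset_iff hEcx).2 (Set.Subset.refl _)
  have hpZ : {p} ∈ Z' := hEZ (hpE (by simp [pt]))
  have s1 : Sim Z' (Z' ∪ coneV u (cl E)) := sim_coneAdd hZ' hpZ (hp.mono hEZ)
  have hfull : ZZ w X Mk (insert (u, S) C) = Z ∪ coneV u (cl S) := ZZ_insert u S
  have s2 : Sim (Z' ∪ coneV u (cl E)) (ZZ w X Mk (insert (u, S) C)) := by
    rw [hfull]
    refine Sim.exp (F := t) (x := u) ⟨isCx_coneV hZ'.cx hEcx hEZ, hut, ⟨y0, hy0⟩, ?_, ?_, ?_⟩
      (adm_coneV hZ (isCx_cl ⟨t, htS⟩) (cl_sub_ZZ h.hw hSX))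
    · rintro (h1 | h1)
      · exact h1.2 rfl
      · exact hut h1.1
    · intro y hy
      right
      refine ⟨by simp, ?_⟩
      rw [Finset.erase_insert (fun hu' => hut (Finset.mem_of_mem_erase hu'))]
      exact he y hy
    · ext σ
      simp only [Set.mem_union, Set.mem_insert_iff]
      constructor
      · rintro (h1 | ⟨h1, s, hs, h2⟩)
        · by_cases e : σ = t
          · exact Or.inl e
          · exact Or.inr (Or.inr (Or.inl ⟨h1, e⟩))
        · by_cases e : s = t
          · subst e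
            by_cases e1 : σ.erase u = s
            · right; left
              rw [← e1, Finset.insert_erase h1]
            · right; right; right
              refine ⟨h1, ?_⟩
              obtain ⟨z, hz, hz'⟩ := Finset.exists_of_ssubset (lt_of_le_of_ne h2 e1)
              refine hEcx.2 _ (he z hz) _ fun q hq => ?_
              exact Finset.mem_erase.2 ⟨fun e => hz' (e ▸ hq), h2 hq⟩
          · exact Or.inr (Or.inr (Or.inr ⟨h1, s, Finset.mem_erase.2 ⟨e, hs⟩, h2⟩))
      · rintro (rfl | rfl | h1 | ⟨h1, s, hs, h2⟩)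
        · exact Or.inl htZ
        · right
          refine ⟨by simp, t, htS, ?_⟩
          rw [Finset.erase_insert hut]
        · exact Or.inl h1.1
        · exact Or.inr ⟨h1, s, Finset.mem_of_mem_erase hs, h2⟩
  have s3 : Sim Z' (ZZ w X (Mk.erase t) C) := by
    have e : ZZ w X (Mk.erase t) C = insert t (insert (insert w t) Z') := by
      ext σ
      simp only [Set.mem_insert_iff]
      constructor
      · intro hσ
        by_cases e1 : σ = t
        · exact Or.inl e1
        by_cases e2 : σ = insert w t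
        · exact Or.inr (Or.inl e2)
        refine Or.inr (Or.inr ⟨?_, e1⟩)
        rcases hσ with ⟨h1, h2, h3⟩ | h1
        · left
          refine ⟨h1, h2, fun hw hm => h3 hw (Finset.mem_erase.2 ⟨fun e => e2 ?_, hm⟩)⟩
          rw [← e, Finset.insert_erase hw]
        · exact Or.inr h1
      · rintro (rfl | rfl | h1)
        · exact mem_ZZ_of_sub h.hw htX ht3.le
        · left
          refine ⟨?_, ?_, fun _ => ?_⟩
          · rwa [Finset.erase_insert hwt]
          · rw [Finset.erase_insert hwt, ht3]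
          · rw [Finset.erase_insert hwt]
            exact Finset.notMem_erase _ _
        · rcases h1.1 with ⟨h1, h2, h3⟩ | h1
          · left
            exact ⟨h1, h2, fun hw hm => h3 hw (Finset.mem_of_mem_erase hm)⟩
          · exact Or.inr h1
    rw [e]
    refine sim_pair hZ'.cx hZ'.fin hZ'.card ht3 hwt (fun h1 => h1.2 rfl) fun y hy => ?_
    have h1 : w ∉ t.erase y := fun h => hwt (Finset.mem_of_mem_erase h)
    refine ⟨?_, ?_⟩
    · left
      refine ⟨?_, ?_, fun _ hm => ?_⟩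
      · rw [Finset.erase_insert h1]
        exact (Finset.erase_subset _ _).trans htX
      · rw [Finset.erase_insert h1, Finset.card_erase_of_mem hy]
        omega
      · rw [Finset.erase_insert h1] at hm
        have := (h.mrk _ hm).2
        rw [Finset.card_erase_of_mem hy] at this
        omega
    · intro e
      rw [Set.mem_singleton_iff] at e
      exact hwt (e ▸ Finset.mem_insert_self w _)
  exact (s2.symm.trans s1.symm).trans s3

/-- well formed states with an additional vertex -/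
theorem WF.vertex (h : WF w X Mk C) {y : V} (hy : Fresh w X C y) : WF w (insert y X) Mk C := by
  refine ⟨?_, fun t ht => ⟨(h.mrk t ht).1.trans (Finset.subset_insert _ _), (h.mrk t ht).2⟩,
    fun c hc => ⟨?_, (h.tag c hc).2⟩, h.inj, fun c hc => ⟨(h.tri c hc).1, fun t ht =>
      ⟨((h.tri c hc).2 t ht).1.trans (Finset.subset_insert _ _), ((h.tri c hc).2 t ht).2⟩⟩⟩
  · intro hw
    rcases Finset.mem_insert.1 hw with e | hw
    · exact hy.hw e.symm
    · exact h.hw hw
  · intro hw
    rcases Finset.mem_insert.1 hw with e | hw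
    · exact hy.hC c hc e
    · exact (h.tag c hc).1 hw

theorem Fresh.vertex {y v : V} (hv : Fresh w X C v) (hvy : v ≠ y) : Fresh w (insert y X) C v :=
  ⟨fun h => (Finset.mem_insert.1 h).elim hvy hv.hX, hv.hw, hv.hC⟩

/-- a new name `y` with a cell in which `y` is private -/
theorem sim_name (h : WF w X Mk C) {y : Fin 3 → V} (hy : Function.Injective y)
    (hyF : ∀ i, Fresh w X C (y i)) {u : V} (hu : Fresh w X C u) (huy : ∀ i, u ≠ y i)
    {S : Finset (Finset V)} (hSX : ∀ t ∈ S, t ⊆ X ∪ rg y ∧ t.card = 3) (hS : rg y ∈ S)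
    (hd : Disc S (rg y)) (he : ∀ x ∈ rg y, (rg y).erase x ∈ cl (S.erase (rg y))) :
    Sim (ZZ w X Mk C) (ZZ w (X ∪ rg y) (insert (rg y) Mk) (insert (u, S) C)) := by
  have hX3 : X ∪ rg y = insert (y 0) (insert (y 1) (insert (y 2) X)) := by
    ext z
    simp only [rg, Finset.mem_union, Finset.mem_image, Finset.mem_univ, true_and,
      Finset.mem_insert, Fin.exists_fin_succ, Fin.exists_fin_zero]
    constructor
    · rintro (h | h | h | h | h)
      · tauto
      · exact Or.inl h.symm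
      · exact Or.inr (Or.inl h.symm)
      · exact Or.inr (Or.inr (Or.inl h.symm))
      · exact h.elim
    · rintro (h | h | h | h)
      · exact Or.inr (Or.inl h.symm)
      · exact Or.inr (Or.inr (Or.inl h.symm))
      · exact Or.inr (Or.inr (Or.inr (Or.inl h.symm)))
      · exact Or.inl h
  have n10 : y 1 ≠ y 2 := fun e => by have := hy e; simp at this
  have n00 : y 0 ≠ y 1 := fun e => by have := hy e; simp at this
  have n01 : y 0 ≠ y 2 := fun e => by have := hy e; simp at this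
  have w1 := h.vertex (hyF 2)
  have f1 := (hyF 1).vertex n10
  have w2 := w1.vertex f1
  have f0 := ((hyF 0).vertex n01).vertex n00
  have w3 := w2.vertex f0
  have s1 : Sim (ZZ w X Mk C) (ZZ w (X ∪ rg y) Mk C) := by
    rw [hX3]
    exact ((sim_vertex h (hyF 2)).trans (sim_vertex w1 f1)).trans (sim_vertex w2 f0)
  rw [← hX3] at w3
  have hc3 : (rg y).card = 3 := by
    rw [rg, Finset.card_image_of_injective _ hy]
    simp
  have hM : rg y ∉ Mk := fun hm =>
    (hyF 0).hX ((h.mrk _ hm).1 (Finset.mem_image_of_mem y (Finset.mem_univ 0)))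
  have w4 : WF w (X ∪ rg y) (insert (rg y) Mk) C := by
    refine ⟨w3.hw, fun t ht => ?_, w3.tag, w3.inj, w3.tri⟩
    rcases Finset.mem_insert.1 ht with rfl | ht
    · exact ⟨Finset.subset_union_right, hc3⟩
    · exact w3.mrk t ht
  have hu' : Fresh w (X ∪ rg y) C u := by
    rw [hX3]
    exact ((hu.vertex (huy 2)).vertex (huy 1)).vertex (huy 0)
  have s2 := sim_private w4 hu' hSX (Finset.mem_insert_self _ _) hS ?_ hd he
  · rw [Finset.erase_insert hM] at s2
    exact s1.trans s2.symm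
  · intro c hc hcm
    exact (hyF 0).hX (((h.tri c hc).2 _ hcm).1 (Finset.mem_image_of_mem y (Finset.mem_univ 0)))

/-- the complex with an empty set of vertices -/
theorem ZZ_empty : ZZ w (∅ : Finset V) ∅ ∅ = pt w := by
  ext σ
  simp only [ZZ, Env, Cells, pt, Set.mem_union, Set.mem_ofPred_eq, Set.mem_insert_iff,
    Set.mem_singleton_iff, Finset.notMem_empty, false_and, exists_false, or_false,
    Finset.subset_empty, not_false_eq_true, implies_true, and_true]
  constructor
  · rintro ⟨h1, -⟩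
    by_cases hw : w ∈ σ
    · right
      rw [← Finset.insert_erase hw, h1]
      rfl
    · left
      rwa [Finset.erase_eq_of_notMem hw] at h1
  · rintro (rfl | rfl)
    · simp
    · simp

end Pool.Agent.DF302A.PI
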