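import Pool.Agent.Work.MP_df302a_co.I2

/-! # MP_df302a_co, part (I), module I3: soundness of the certificate checker. -/

set_option autoImplicit false

namespace Pool.Agent.DF302A.PI

open Finset

namespace I3

/-- bit mask of a finite set of labels -/
def mask (s : Finset ℕ) : ℕ := ∑ i ∈ s, 2 ^ i

theorem mask_inj {s t : Finset ℕ} (h : mask s = mask t) : s = t :=
  Finset.geomSum_injective (le_refl 2) h

theorem code_eq {l : List ℕ} (hl : l.Nodup) : code l = mask l.toFinset := by
  unfold code mask
  exact (List.sum_toFinset (fun i => 2 ^ i) hl).symm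

theorem mask_insert {x : ℕ} {s : Finset ℕ} (hx : x ∉ s) : mask (insert x s) = 2 ^ x + mask s := by
  unfold mask
  exact Finset.sum_insert hx

theorem mask_erase {y : ℕ} {s : Finset ℕ} (hy : y ∈ s) : mask (s.erase y) = mask s - 2 ^ y := by
  have h : mask (s.erase y) + 2 ^ y = mask s := by
    unfold mask
    exact Finset.sum_erase_add s (fun i => 2 ^ i) hy
  omega

/-- simplices of a state -/
def DD (n L : ℕ) : Set (Finset ℕ) := {σ | (∀ i ∈ σ, i < n) ∧ L.testBit (mask σ) = true}

theorem mem_DD {n L : ℕ} {σ : Finset ℕ} :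
    σ ∈ DD n L ↔ (∀ i ∈ σ, i < n) ∧ L.testBit (mask σ) = true := Iff.rfl

theorem foldl_testBit (S : List (List ℕ)) (k : ℕ) : ∀ L : ℕ,
    ((S.foldl (fun L s => L ||| 2 ^ code s) L).testBit k = true) ↔
      (L.testBit k = true ∨ ∃ s ∈ S, code s = k) := by
  induction S with
  | nil => intro L; simp
  | cons a S ih =>
    intro L
    rw [List.foldl_cons, ih, Nat.testBit_or, Nat.testBit_two_pow]
    simp only [Bool.or_eq_true, decide_eq_true_eq, List.mem_cons, exists_eq_or_imp]
    tauto

theorem testBit_closeTri (T : List (List ℕ)) (k : ℕ) :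
    (closeTri T).testBit k = true ↔ ∃ t ∈ T, ∃ s, s.Sublist t ∧ code s = k := by
  unfold closeTri
  rw [foldl_testBit]
  simp only [Nat.zero_testBit, Bool.false_eq_true, false_or, List.mem_flatMap, List.mem_sublists]
  constructor
  · rintro ⟨s, ⟨t, ht, hst⟩, hk⟩; exact ⟨t, ht, s, hst, hk⟩
  · rintro ⟨t, ht, s, hst, hk⟩; exact ⟨s, ⟨t, ht, hst⟩, hk⟩

theorem DD_closeTri {n : ℕ} {T : List (List ℕ)} (hT : ∀ t ∈ T, t.Nodup ∧ ∀ i ∈ t, i < n) :
    DD n (closeTri T) = {σ | ∃ t ∈ T, σ ⊆ t.toFinset} := by
  ext σ
  rw [mem_DD, testBit_closeTri]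
  constructor
  · rintro ⟨_, t, ht, s, hst, hk⟩
    refine ⟨t, ht, ?_⟩
    have hs : s.Nodup := (hT t ht).1.sublist hst
    rw [code_eq hs] at hk
    rw [← mask_inj hk]
    intro i hi
    rw [List.mem_toFinset] at hi ⊢
    exact hst.subset hi
  · rintro ⟨t, ht, hσ⟩
    refine ⟨fun i hi => (hT t ht).2 i (List.mem_toFinset.1 (hσ hi)), t, ht,
      t.filter (fun i => i ∈ σ), List.filter_sublist, ?_⟩
    rw [code_eq ((hT t ht).1.filter _)]
    congr 1
    ext i
    simp only [List.mem_toFinset, List.mem_filter, decide_eq_true_eq]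
    constructor
    · exact fun h => h.2
    · exact fun h => ⟨List.mem_toFinset.1 (hσ h), h⟩

section img
variable {V : Type*} [DecidableEq V]

/-- image of a set of simplices -/
def im (φ : ℕ → V) (D : Set (Finset ℕ)) : Set (Finset V) := {s | ∃ σ ∈ D, σ.image φ = s}

theorem map_toFinset (φ : ℕ → V) (l : List ℕ) : (l.map φ).toFinset = l.toFinset.image φ := by
  ext v
  simp

theorem mem_img {φ : ℕ → V} {T : List (List ℕ)} {s : Finset V} :
    s ∈ img φ T ↔ ∃ t ∈ T, t.toFinset.image φ = s := by
  unfold img mkS
  simp only [List.map_map, List.mem_toFinset, List.mem_map, Function.comp_apply, map_toFinset]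

theorem cl_img {φ : ℕ → V} {T : List (List ℕ)} :
    cl (img φ T) = im φ {σ | ∃ t ∈ T, σ ⊆ t.toFinset} := by
  ext s
  constructor
  · rintro ⟨t', ht', hs⟩
    obtain ⟨t, ht, rfl⟩ := mem_img.1 ht'
    refine ⟨t.toFinset.filter (fun i => φ i ∈ s), ⟨t, ht, Finset.filter_subset _ _⟩, ?_⟩
    ext v
    simp only [Finset.mem_image, Finset.mem_filter]
    constructor
    · rintro ⟨i, ⟨_, hi⟩, rfl⟩; exact hi
    · intro hv
      obtain ⟨i, hi, rfl⟩ := Finset.mem_image.1 (hs hv)
      exact ⟨i, ⟨hi, hv⟩, rfl⟩
  · rintro ⟨σ, ⟨t, ht, hσ⟩, rfl⟩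
    exact ⟨t.toFinset.image φ, mem_img.2 ⟨t, ht, rfl⟩, Finset.image_subset_image hσ⟩

theorem image_inj {φ : ℕ → V} {n : ℕ} (hφ : Set.InjOn φ {i | i < n}) {a b : Finset ℕ}
    (ha : ∀ i ∈ a, i < n) (hb : ∀ i ∈ b, i < n) (h : a.image φ = b.image φ) : a = b := by
  ext v
  constructor
  · intro hv
    have h1 : φ v ∈ b.image φ := h ▸ Finset.mem_image_of_mem φ hv
    obtain ⟨v', hv', he⟩ := Finset.mem_image.1 h1
    exact hφ (hb v' hv') (ha v hv) he ▸ hv'
  · intro hv
    have h1 : φ v ∈ a.image φ := h.symm ▸ Finset.mem_image_of_mem φ hv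
    obtain ⟨v', hv', he⟩ := Finset.mem_image.1 h1
    exact hφ (ha v' hv') (hb v hv) he ▸ hv'

theorem image_erase' {φ : ℕ → V} {n : ℕ} (hφ : Set.InjOn φ {i | i < n}) {a : Finset ℕ} {y : ℕ}
    (ha : ∀ i ∈ a, i < n) (hy : y < n) : (a.erase y).image φ = (a.image φ).erase (φ y) := by
  ext w
  simp only [Finset.mem_image, Finset.mem_erase]
  constructor
  · rintro ⟨v, ⟨hvy, hv⟩, rfl⟩
    exact ⟨fun h => hvy (hφ (ha v hv) hy h), v, hv, rfl⟩
  · rintro ⟨hw, v, hv, rfl⟩
    exact ⟨v, ⟨fun h => hw (by rw [h]), hv⟩, rfl⟩

theorem isCx_im {φ : ℕ → V} {D : Set (Finset ℕ)} (hD : IsCx D) : IsCx (im φ D) := by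
  constructor
  · exact ⟨∅, hD.1, rfl⟩
  · rintro s ⟨σ, hσ, rfl⟩ t ht
    refine ⟨σ.filter (fun v => φ v ∈ t), hD.2 σ hσ _ (Finset.filter_subset _ _), ?_⟩
    ext w
    simp only [Finset.mem_image, Finset.mem_filter]
    constructor
    · rintro ⟨v, ⟨_, hv⟩, rfl⟩; exact hv
    · intro hw
      obtain ⟨v, hv, rfl⟩ := Finset.mem_image.1 (ht hw)
      exact ⟨v, ⟨hv, hw⟩, rfl⟩

theorem expn_im {φ : ℕ → V} {n : ℕ} (hφ : Set.InjOn φ {i | i < n}) {D D' : Set (Finset ℕ)}
    {F : Finset ℕ} {x : ℕ} (hD : ∀ σ ∈ D, ∀ i ∈ σ, i < n) (hFn : ∀ i ∈ F, i < n) (hxn : x < n)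
    (h : Expn D D' F x) : Expn (im φ D) (im φ D') (F.image φ) (φ x) := by
  refine ⟨isCx_im h.cx, ?_, h.ne.image φ, ?_, ?_, ?_⟩
  · rw [Finset.mem_image]
    rintro ⟨v, hv, he⟩
    exact h.hx (hφ (hFn v hv) hxn he ▸ hv)
  · rintro ⟨s, hs, he⟩
    exact h.hF (image_inj hφ (hD s hs) hFn he ▸ hs)
  · intro y hy
    obtain ⟨v, hv, rfl⟩ := Finset.mem_image.1 hy
    refine ⟨_, h.hy v hv, ?_⟩
    rw [Finset.image_insert, image_erase' hφ hFn (hFn v hv)]
  · rw [h.eq]
    ext s
    constructor
    · rintro ⟨σ, rfl | rfl | hσ, rfl⟩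
      · exact Or.inl rfl
      · exact Or.inr (Or.inl (Finset.image_insert _ _ _))
      · exact Or.inr (Or.inr ⟨σ, hσ, rfl⟩)
    · rintro (rfl | rfl | ⟨σ, hσ, rfl⟩)
      · exact ⟨F, Or.inl rfl, rfl⟩
      · exact ⟨insert x F, Or.inr (Or.inl rfl), Finset.image_insert _ _ _⟩
      · exact ⟨σ, Or.inr (Or.inr hσ), rfl⟩

end img

/-- the tests of a step which do not depend on the direction -/
theorem step_common {n : ℕ} {L x : ℕ} {F : List ℕ}
    (h : (decide (x :: F).Nodup && (x :: F).all (fun i => decide (i < n)) && !F.isEmpty &&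
      F.all (fun y => L.testBit (2 ^ x + code F - 2 ^ y))) = true) :
    x ∉ F.toFinset ∧ F.toFinset.Nonempty ∧ x < n ∧ (∀ i ∈ F.toFinset, i < n) ∧
      code F = mask F.toFinset ∧ 2 ^ x + code F = mask (insert x F.toFinset) ∧
      ∀ y ∈ F.toFinset, L.testBit (mask (insert x (F.toFinset.erase y))) = true := by
  simp only [Bool.and_eq_true, decide_eq_true_eq, List.all_eq_true, Bool.not_eq_true',
    List.isEmpty_eq_false_iff, List.nodup_cons, List.mem_cons, forall_eq_or_imp] at h
  obtain ⟨⟨⟨⟨hx, hF⟩, hxn, hFn⟩, hne⟩, hall⟩ := h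
  have hx' : x ∉ F.toFinset := by rwa [List.mem_toFinset]
  have hc := code_eq hF
  have hE : 2 ^ x + code F = mask (insert x F.toFinset) := by rw [mask_insert hx', hc]
  refine ⟨hx', ?_, hxn, ?_, hc, hE, ?_⟩
  · obtain ⟨a, ha⟩ := List.exists_mem_of_ne_nil F hne
    exact ⟨a, List.mem_toFinset.2 ha⟩
  · intro i hi; exact hFn i (List.mem_toFinset.1 hi)
  · intro y hy
    have hyx : y ≠ x := fun h => hx' (h ▸ hy)
    have h1 := hall y (List.mem_toFinset.1 hy)
    rw [hE] at h1
    rw [← Finset.erase_insert_of_ne hyx.symm, mask_erase (Finset.mem_insert_of_mem hy)]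
    exact h1

theorem step_sound {n : ℕ} {ok : List ℕ → Bool} {V : Type*} [DecidableEq V] {φ : ℕ → V}
    (hφ : Set.InjOn φ {i | i < n}) {Z : Set (Finset V)} (hZ : IsCx Z)
    (hok : ∀ E : List ℕ, ok E = true → (∀ i ∈ E, i < n) → (E.map φ).toFinset ∈ Z)
    {L L' : ℕ} {m : Bool × ℕ × List ℕ} (hcx : IsCx (DD n L)) (hsub : im φ (DD n L) ⊆ Z)
    (h : step n ok L m = some L') :
    IsCx (DD n L') ∧ im φ (DD n L') ⊆ Z ∧ Inn Z (im φ (DD n L)) (im φ (DD n L')) := by
  obtain ⟨up, x, F⟩ := m
  unfold step at h
  simp only at h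
  split at h
  · rename_i hc
    obtain ⟨hxF, hne, hxn, hFn, hcF, hcE, hfac⟩ := step_common hc
    rw [hcE, hcF] at h
    set f := F.toFinset with hf
    have hEn : ∀ i ∈ insert x f, i < n := by
      intro i hi
      rcases Finset.mem_insert.1 hi with rfl | hi
      · exact hxn
      · exact hFn i hi
    have hfE : f ≠ insert x f := fun h => hxF (h ▸ Finset.mem_insert_self _ _)
    split at h
    · -- expansion
      split at h
      · rename_i _ hc2
        rw [Bool.and_eq_true] at hc2
        obtain ⟨hokE, hnF⟩ := hc2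
        rw [Bool.not_eq_true'] at hnF
        have hL' := (Option.some.inj h).symm
        have hD' : DD n L' = insert f (insert (insert x f) (DD n L)) := by
          ext σ
          rw [hL']
          simp only [mem_DD, Nat.testBit_or, Nat.testBit_two_pow, Bool.or_eq_true,
            decide_eq_true_eq, Set.mem_insert_iff]
          constructor
          · rintro ⟨h1, (h2 | h2) | h2⟩
            · exact Or.inr (Or.inr ⟨h1, h2⟩)
            · exact Or.inl (mask_inj h2).symm
            · exact Or.inr (Or.inl (mask_inj h2).symm)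
          · rintro (rfl | rfl | ⟨h1, h2⟩)
            · exact ⟨hFn, Or.inl (Or.inr rfl)⟩
            · exact ⟨hEn, Or.inr rfl⟩
            · exact ⟨h1, Or.inl (Or.inl h2)⟩
        have hexp : Expn (DD n L) (DD n L') f x := by
          refine ⟨hcx, hxF, hne, ?_, ?_, hD'⟩
          · rintro ⟨_, h2⟩
            rw [hnF] at h2
            cases h2
          · intro y hy
            refine ⟨?_, hfac y hy⟩
            intro i hi
            rcases Finset.mem_insert.1 hi with rfl | hi
            · exact hxn
            · exact hFn i (Finset.mem_of_mem_erase hi)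
        have hEZ : (insert x f).image φ ∈ Z := by
          have := hok (x :: F) hokE (by
            intro i hi
            apply hEn
            rw [Finset.mem_insert, List.mem_toFinset]
            exact List.mem_cons.1 hi)
          rw [map_toFinset, List.toFinset_cons] at this
          exact this
        have hFZ : f.image φ ∈ Z :=
          hZ.2 _ hEZ _ (Finset.image_subset_image (Finset.subset_insert _ _))
        refine ⟨?_, ?_, ?_⟩
        · rw [hD']
          constructor
          · exact Or.inr (Or.inr hcx.1)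
          · rintro σ (rfl | rfl | hσ) τ hτ
            · by_cases h1 : τ = f
              · exact Or.inl h1
              · right; right
                obtain ⟨y, hy, hyt⟩ : ∃ y ∈ f, y ∉ τ := by
                  by_contra hcon
                  push Not at hcon
                  exact h1 (Finset.Subset.antisymm hτ hcon)
                refine hcx.2 _ (hexp.hy y hy) _ ?_
                intro i hi
                exact Finset.mem_insert_of_mem
                  (Finset.mem_erase.2 ⟨fun h => hyt (h ▸ hi), hτ hi⟩)
            · by_cases h1 : τ = insert x f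
              · exact Or.inr (Or.inl h1)
              · by_cases h2 : τ = f
                · exact Or.inl h2
                · right; right
                  obtain ⟨y, hy, hyt⟩ : ∃ y ∈ f, y ∉ τ := by
                    by_contra hcon
                    push Not at hcon
                    by_cases hx : x ∈ τ
                    · apply h1
                      apply Finset.Subset.antisymm hτ
                      intro i hi
                      rcases Finset.mem_insert.1 hi with rfl | hi
                      · exact hx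
                      · exact hcon i hi
                    · apply h2
                      apply Finset.Subset.antisymm ?_ hcon
                      intro i hi
                      rcases Finset.mem_insert.1 (hτ hi) with rfl | hi'
                      · exact absurd hi hx
                      · exact hi'
                  refine hcx.2 _ (hexp.hy y hy) _ ?_
                  intro i hi
                  rcases Finset.mem_insert.1 (hτ hi) with rfl | hi'
                  · exact Finset.mem_insert_self _ _
                  · exact Finset.mem_insert_of_mem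
                      (Finset.mem_erase.2 ⟨fun h => hyt (h ▸ hi), hi'⟩)
            · exact Or.inr (Or.inr (hcx.2 σ hσ τ hτ))
        · rw [hD']
          rintro s ⟨σ, rfl | rfl | hσ, rfl⟩
          · exact hFZ
          · exact hEZ
          · exact hsub ⟨σ, hσ, rfl⟩
        · refine Inn.exp (expn_im hφ (fun σ hσ => hσ.1) hFn hxn hexp) ?_
          rw [← Finset.image_insert]
          exact hEZ
      · cases h
    · -- collapse
      split at h
      · rename_i _ hc2
        rw [Bool.and_eq_true, Bool.and_eq_true] at hc2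
        obtain ⟨⟨hFL, hEL⟩, hfr⟩ := hc2
        have hL' := (Option.some.inj h).symm
        have hFL' : f ∈ DD n L := ⟨hFn, hFL⟩
        have hEL' : insert x f ∈ DD n L := ⟨hEn, hEL⟩
        have hfree : ∀ y, y < n → y ∉ insert x f → insert y f ∉ DD n L := by
          intro y hy hyE hyD
          have h1 := List.all_eq_true.1 hfr y (List.mem_range.2 hy)
          rw [Bool.or_eq_true, Bool.not_eq_true'] at h1
          rcases h1 with h1 | h1
          · apply hyE
            rw [List.contains_iff_mem] at h1
            rw [Finset.mem_insert, List.mem_toFinset]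
            exact List.mem_cons.1 h1
          · have h2 := hyD.2
            have hyf : y ∉ f := fun h => hyE (Finset.mem_insert_of_mem h)
            rw [mask_insert hyf, add_comm, h1] at h2
            cases h2
        have hD' : DD n L' = DD n L \ {f, insert x f} := by
          ext σ
          rw [hL']
          simp only [mem_DD, Nat.testBit_xor, Nat.testBit_two_pow, Set.mem_sdiff,
            Set.mem_insert_iff, Set.mem_singleton_iff, not_or]
          constructor
          · rintro ⟨h1, h2⟩
            by_cases hs1 : σ = f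
            · exfalso
              rw [hs1] at h2
              have : mask (insert x f) ≠ mask f := fun h => hfE (mask_inj h).symm
              simp [hFL, this] at h2
            · by_cases hs2 : σ = insert x f
              · exfalso
                rw [hs2] at h2
                have : mask f ≠ mask (insert x f) := fun h => hfE (mask_inj h)
                simp [hEL, this] at h2
              · have e1 : mask f ≠ mask σ := fun h => hs1 (mask_inj h).symm
                have e2 : mask (insert x f) ≠ mask σ := fun h => hs2 (mask_inj h).symm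
                simp only [e1, e2, decide_false, Bool.xor_false] at h2
                exact ⟨⟨h1, h2⟩, hs1, hs2⟩
          · rintro ⟨⟨h1, h2⟩, hs1, hs2⟩
            have e1 : mask f ≠ mask σ := fun h => hs1 (mask_inj h).symm
            have e2 : mask (insert x f) ≠ mask σ := fun h => hs2 (mask_inj h).symm
            refine ⟨h1, ?_⟩
            simp only [e1, e2, decide_false, Bool.xor_false]
            exact h2
        have hcof : ∀ σ ∈ DD n L, f ⊆ σ → σ = f ∨ σ = insert x f := by
          intro σ hσ hfσ
          have h1 : ∀ y ∈ σ, y ∈ insert x f := by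
            intro y hy
            by_contra hyE
            refine hfree y (hσ.1 y hy) hyE (hcx.2 σ hσ _ ?_)
            intro i hi
            rcases Finset.mem_insert.1 hi with rfl | hi
            · exact hy
            · exact hfσ hi
          by_cases hx : x ∈ σ
          · right
            apply Finset.Subset.antisymm h1
            intro i hi
            rcases Finset.mem_insert.1 hi with rfl | hi
            · exact hx
            · exact hfσ hi
          · left
            apply Finset.Subset.antisymm ?_ hfσ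
            intro i hi
            rcases Finset.mem_insert.1 (h1 i hi) with rfl | hi'
            · exact absurd hi hx
            · exact hi'
        have hcx' : IsCx (DD n L') := by
          rw [hD']
          constructor
          · refine ⟨hcx.1, ?_⟩
            simp only [Set.mem_insert_iff, Set.mem_singleton_iff, not_or]
            exact ⟨fun h => hne.ne_empty h.symm, fun h => (Finset.insert_ne_empty _ _) h.symm⟩
          · rintro σ ⟨hσ, hσ2⟩ τ hτ
            refine ⟨hcx.2 σ hσ τ hτ, ?_⟩
            intro hτ2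
            apply hσ2
            have hfτ : f ⊆ τ := by
              rcases hτ2 with h | h
              · rw [h]
              · rw [Set.mem_singleton_iff.1 h]; exact Finset.subset_insert _ _
            exact hcof σ hσ (hfτ.trans hτ)
        have hexp : Expn (DD n L') (DD n L) f x := by
          refine ⟨hcx', hxF, hne, ?_, ?_, ?_⟩
          · rw [hD']
            rintro ⟨_, h2⟩
            exact h2 (Or.inl rfl)
          · intro y hy
            rw [hD']
            refine ⟨⟨?_, hfac y hy⟩, ?_⟩
            · intro i hi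
              rcases Finset.mem_insert.1 hi with rfl | hi
              · exact hxn
              · exact hFn i (Finset.mem_of_mem_erase hi)
            · rintro (h2 | h2)
              · exact hxF (h2 ▸ Finset.mem_insert_self _ _)
              · have h3 : y ∈ insert x (f.erase y) := by
                  rw [Set.mem_singleton_iff.1 h2]; exact Finset.mem_insert_of_mem hy
                rcases Finset.mem_insert.1 h3 with h4 | h4
                · exact hxF (h4 ▸ hy)
                · exact (Finset.notMem_erase y f) h4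
          · rw [hD']
            ext σ
            simp only [Set.mem_insert_iff, Set.mem_sdiff, Set.mem_singleton_iff, not_or]
            constructor
            · intro hσ
              by_cases h1 : σ = f
              · exact Or.inl h1
              · by_cases h2 : σ = insert x f
                · exact Or.inr (Or.inl h2)
                · exact Or.inr (Or.inr ⟨hσ, h1, h2⟩)
            · rintro (rfl | rfl | h)
              · exact hFL'
              · exact hEL'
              · exact h.1
        refine ⟨hcx', ?_, ?_⟩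
        · rintro s ⟨σ, hσ, rfl⟩
          rw [hD'] at hσ
          exact hsub ⟨σ, hσ.1, rfl⟩
        · refine Inn.symm (Inn.exp (expn_im hφ (fun σ hσ => hσ.1) hFn hxn hexp) ?_)
          rw [← Finset.image_insert]
          exact hsub ⟨_, hEL', rfl⟩
      · cases h
  · cases h

theorem run_sound {n : ℕ} {ok : List ℕ → Bool} {V : Type*} [DecidableEq V] {φ : ℕ → V}
    (hφ : Set.InjOn φ {i | i < n}) {Z : Set (Finset V)} (hZ : IsCx Z)
    (hok : ∀ E : List ℕ, ok E = true → (∀ i ∈ E, i < n) → (E.map φ).toFinset ∈ Z)
    (ms : List (Bool × ℕ × List ℕ)) :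
    ∀ {L L' : ℕ}, IsCx (DD n L) → im φ (DD n L) ⊆ Z → run n ok L ms = some L' →
      Inn Z (im φ (DD n L)) (im φ (DD n L')) := by
  induction ms with
  | nil =>
    intro L L' _ _ h
    simp only [run, Option.some.injEq] at h
    subst h
    exact Inn.refl _
  | cons m ms ih =>
    intro L L' hcx hsub h
    simp only [run] at h
    cases hs : step n ok L m with
    | none => rw [hs] at h; cases h
    | some L1 =>
      rw [hs] at h
      obtain ⟨h1, h2, h3⟩ := step_sound hφ hZ hok hcx hsub hs
      exact Inn.trans h3 (ih h1 h2 h)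

end I3

open I3

/-- soundness of the checker -/
theorem Crt.sound (c : Crt) (ok : List ℕ → Bool) (h : c.check ok = true) {V : Type*}
    [DecidableEq V] (φ : ℕ → V) (hφ : Set.InjOn φ {i | i < c.n}) (Z : Set (Finset V))
    (hZ : IsCx Z) (hok : ∀ E : List ℕ, ok E = true → (∀ i ∈ E, i < c.n) →
      (E.map φ).toFinset ∈ Z) : Inn Z (cl (img φ c.L0)) (cl (img φ c.L1)) := by
  unfold Crt.check at h
  simp only [Bool.and_eq_true, List.all_eq_true, decide_eq_true_eq, Bool.not_eq_true',
    List.isEmpty_eq_false_iff] at h
  obtain ⟨⟨⟨h0, h1⟩, hne⟩, hrun⟩ := h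
  have hT0 : ∀ t ∈ c.L0, t.Nodup ∧ ∀ i ∈ t, i < c.n := fun t ht => ⟨(h0 t ht).1.2, (h0 t ht).2⟩
  have hD0 := DD_closeTri hT0
  have hD1 := DD_closeTri h1
  have hcx : IsCx (DD c.n (closeTri c.L0)) := by
    rw [hD0]
    constructor
    · obtain ⟨t, ht⟩ := List.exists_mem_of_ne_nil c.L0 hne
      exact ⟨t, ht, Finset.empty_subset _⟩
    · rintro σ ⟨t, ht, hσ⟩ τ hτ
      exact ⟨t, ht, hτ.trans hσ⟩
  have hsub : im φ (DD c.n (closeTri c.L0)) ⊆ Z := by
    rw [hD0]
    rintro s ⟨σ, ⟨t, ht, hσ⟩, rfl⟩
    have h2 := hok t (h0 t ht).1.1 (h0 t ht).2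
    rw [I3.map_toFinset] at h2
    exact hZ.2 _ h2 _ (Finset.image_subset_image hσ)
  cases hr : run c.n ok (closeTri c.L0) c.mv with
  | none => rw [hr] at hrun; cases hrun
  | some L =>
    rw [hr] at hrun
    have hL : L = closeTri c.L1 := by simpa using hrun
    have h3 := run_sound hφ hZ hok c.mv hcx hsub hr
    rw [hL, hD0, hD1] at h3
    rw [cl_img, cl_img]
    exact h3

/-- soundness of the test `envOk` -/
theorem I3.envOk_sound {n m : ℕ} {mk : List (List ℕ)} {cells : List (ℕ × List (List ℕ))}
    (hm : m ≤ n) (hmkm : ∀ s ∈ mk, ∀ i ∈ s, i < m)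
    {V : Type*} [DecidableEq V] {w : V} {X : Finset V} {Mk : Finset (Finset V)}
    {C : Finset (V × Finset (Finset V))} (hwf : WF w X Mk C) (φ : ℕ → V)
    (hφ : Set.InjOn φ {i | i < n}) (h0 : φ 0 = w) (hX : ∀ i, 0 < i → i < m → φ i ∈ X)
    (hmk : ∀ t ∈ Mk, t ⊆ (Finset.range m).image φ →
      ∃ s ∈ mk, (s.map φ).toFinset = t)
    (hcells : ∀ d ∈ cells, (φ d.1, img φ d.2) ∈ C)
    {E : List ℕ} (hE : envOk m mk cells E = true) : (E.map φ).toFinset ∈ ZZ w X Mk C := by
  unfold envOk at hE
  rw [Bool.or_eq_true] at hE
  rcases hE with hE | hE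
  · left
    simp only [Bool.and_eq_true, List.all_eq_true, decide_eq_true_eq, Bool.or_eq_true,
      Bool.not_eq_true'] at hE
    obtain ⟨⟨h1, h2⟩, h3⟩ := hE
    have key : ∀ v ∈ ((E.map φ).toFinset).erase w, ∃ i ∈ E, i ≠ 0 ∧ i < m ∧ φ i = v := by
      intro v hv
      rw [Finset.mem_erase, List.mem_toFinset, List.mem_map] at hv
      obtain ⟨hvw, i, hi, rfl⟩ := hv
      exact ⟨i, hi, fun h => hvw (by rw [h, h0]), h1 i hi, rfl⟩
    refine ⟨?_, ?_, ?_⟩
    · intro v hv
      obtain ⟨i, _, hi0, him, rfl⟩ := key v hv
      exact hX i (Nat.pos_of_ne_zero hi0) him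
    · refine le_trans ?_ h2
      have hsub : ((E.map φ).toFinset).erase w ⊆ ((E.erase 0).map φ).toFinset := by
        intro v hv
        obtain ⟨i, hi, hi0, _, rfl⟩ := key v hv
        rw [List.mem_toFinset, List.mem_map]
        exact ⟨i, (List.mem_erase_of_ne hi0).2 hi, rfl⟩
      refine (Finset.card_le_card hsub).trans ((List.toFinset_card_le _).trans ?_)
      rw [List.length_map]
    · intro hw ht
      rw [List.mem_toFinset, List.mem_map] at hw
      obtain ⟨j, hj, hjw⟩ := hw
      have hjm := h1 j hj
      have hj0 : j = 0 := by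
        apply hφ (show j < n by omega) (show 0 < n by omega)
        rw [hjw, h0]
      subst hj0
      have h4 : ∀ t ∈ mk, (!t.all fun i => E.contains i) = true := by
        rcases h3 with h3 | h3
        · exfalso
          rw [← Bool.not_eq_true, List.contains_iff_mem] at h3
          exact h3 hj
        · intro t ht; rw [h3 t ht]; rfl
      obtain ⟨s, hs, hst⟩ := hmk _ ht (by
        intro v hv
        obtain ⟨i, _, _, him, rfl⟩ := key v hv
        exact Finset.mem_image_of_mem _ (Finset.mem_range.2 him))
      have h5 := h4 s hs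
      rw [Bool.not_eq_true', ← Bool.not_eq_true] at h5
      apply h5
      rw [List.all_eq_true]
      intro i hi
      rw [List.contains_iff_mem]
      have h6 : φ i ∈ ((E.map φ).toFinset).erase w := by
        rw [← hst, List.mem_toFinset]
        exact List.mem_map_of_mem hi
      obtain ⟨k, hk, _, hkm, hki⟩ := key _ h6
      have : k = i := hφ (show k < n by omega) (show i < n from
        lt_of_lt_of_le (hmkm s hs i hi) hm) hki
      rw [← this]
      exact hk
  · rw [List.any_eq_true] at hE
    obtain ⟨d, hd, hE⟩ := hE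
    rw [List.any_eq_true] at hE
    obtain ⟨t, ht, hE⟩ := hE
    rw [List.all_eq_true] at hE
    have hdC := hcells d hd
    have htS : t.toFinset.image φ ∈ img φ d.2 := I3.mem_img.2 ⟨t, ht, rfl⟩
    have hsub : ∀ v ∈ (E.map φ).toFinset, v = φ d.1 ∨ v ∈ t.toFinset.image φ := by
      intro v hv
      rw [List.mem_toFinset, List.mem_map] at hv
      obtain ⟨i, hi, rfl⟩ := hv
      have h1 := hE i hi
      rw [Bool.or_eq_true, beq_iff_eq, List.contains_iff_mem] at h1
      rcases h1 with h1 | h1
      · left; rw [h1]
      · right; exact Finset.mem_image_of_mem _ (List.mem_toFinset.2 h1)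
    by_cases hd1 : φ d.1 ∈ (E.map φ).toFinset
    · right
      refine ⟨_, hdC, hd1, _, htS, ?_⟩
      intro v hv
      rw [Finset.mem_erase] at hv
      exact (hsub v hv.2).resolve_left hv.1
    · left
      have hsub2 : (E.map φ).toFinset ⊆ t.toFinset.image φ := by
        intro v hv
        exact (hsub v hv).resolve_left (fun h => hd1 (h ▸ hv))
      obtain ⟨hX', hc⟩ := (hwf.tri _ hdC).2 _ htS
      have hw : w ∉ (E.map φ).toFinset := fun h => hwf.hw (hX' (hsub2 h))
      refine ⟨?_, ?_, fun h => absurd h hw⟩
      · rw [Finset.erase_eq_of_notMem hw]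
        exact hsub2.trans hX'
      · rw [Finset.erase_eq_of_notMem hw]
        exact (Finset.card_le_card hsub2).trans hc.le

theorem I3.isCx_ZZ {V : Type*} [DecidableEq V] {w : V} {X : Finset V} {Mk : Finset (Finset V)}
    {C : Finset (V × Finset (Finset V))} (hwf : WF w X Mk C) : IsCx (ZZ w X Mk C) := by
  constructor
  · left
    refine ⟨?_, ?_, ?_⟩
    · simp
    · simp
    · intro h; simp at h
  · rintro σ (hσ | hσ) τ hτ
    · left
      obtain ⟨h1, h2, h3⟩ := hσ
      have hsub : τ.erase w ⊆ σ.erase w := Finset.erase_subset_erase _ hτ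
      refine ⟨hsub.trans h1, (Finset.card_le_card hsub).trans h2, ?_⟩
      intro hw hM
      have h4 := (hwf.mrk _ hM).2
      have h5 : τ.erase w = σ.erase w := Finset.eq_of_subset_of_card_le hsub (by rw [h4]; exact h2)
      rw [h5] at hM
      exact h3 (hτ hw) hM
    · obtain ⟨c, hc, hcσ, t, ht, hσt⟩ := hσ
      by_cases hcτ : c.1 ∈ τ
      · right
        exact ⟨c, hc, hcτ, t, ht, (Finset.erase_subset_erase _ hτ).trans hσt⟩
      · left
        obtain ⟨htX, htc⟩ := (hwf.tri c hc).2 t ht
        have hτt : τ ⊆ t := by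
          intro v hv
          exact hσt (Finset.mem_erase.2 ⟨fun h => hcτ (h ▸ hv), hτ hv⟩)
        have hw : w ∉ τ := fun h => hwf.hw (htX (hτt h))
        rw [Env, Set.mem_ofPred_eq, Finset.erase_eq_of_notMem hw]
        exact ⟨hτt.trans htX, (Finset.card_le_card hτt).trans htc.le, fun h => absurd h hw⟩

/-- use of a certificate in a state: labels `< m` are `w` and vertices, the others are tags -/
theorem Crt.use (c : Crt) (m : ℕ) (mk : List (List ℕ)) (cells : List (ℕ × List (List ℕ)))
    (h : c.check (envOk m mk cells) = true) (hm : m ≤ c.n) (hmkm : ∀ s ∈ mk, ∀ i ∈ s, i < m)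
    {V : Type*} [DecidableEq V] {w : V} {X : Finset V} {Mk : Finset (Finset V)}
    {C : Finset (V × Finset (Finset V))} (hwf : WF w X Mk C) (φ : ℕ → V)
    (hφ : Set.InjOn φ {i | i < c.n}) (h0 : φ 0 = w) (hX : ∀ i, 0 < i → i < m → φ i ∈ X)
    (hmk : ∀ t ∈ Mk, t ⊆ (Finset.range m).image φ →
      ∃ s ∈ mk, (s.map φ).toFinset = t)
    (hcells : ∀ d ∈ cells, (φ d.1, img φ d.2) ∈ C)
    {u : V} (hu : Fresh w X C u) (hL0 : ∀ t ∈ img φ c.L0, t ⊆ X ∧ t.card = 3) :
    Sim (ZZ w X Mk (insert (u, img φ c.L0) C)) (ZZ w X Mk (insert (u, img φ c.L1) C)) := by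
  refine sim_repl hwf hu ?_ hL0 ?_
  · have hne : c.L0 ≠ [] := by
      unfold Crt.check at h
      simp only [Bool.and_eq_true, Bool.not_eq_true', List.isEmpty_eq_false_iff] at h
      exact h.1.2
    obtain ⟨t, ht⟩ := List.exists_mem_of_ne_nil c.L0 hne
    exact ⟨_, I3.mem_img.2 ⟨t, ht, rfl⟩⟩
  · exact Crt.sound c _ h φ hφ _ (I3.isCx_ZZ hwf)
      (fun E hE _ => I3.envOk_sound hm hmkm hwf φ hφ h0 hX hmk hcells hE)

theorem I3.isCx_cl {V : Type*} [DecidableEq V] {S : Finset (Finset V)} (hS : S.Nonempty) :
    IsCx (cl S) := by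
  obtain ⟨t, ht⟩ := hS
  exact ⟨⟨t, ht, Finset.empty_subset _⟩, fun σ ⟨s, hs, hσ⟩ τ hτ => ⟨s, hs, hτ.trans hσ⟩⟩

/-- discs -/
theorem Crt.disc (c : Crt) (h : c.check (inOk c.L1) = true) (p : ℕ) (hp : c.L0 = [[p]])
    {V : Type*} [DecidableEq V] (φ : ℕ → V) (hφ : Set.InjOn φ {i | i < c.n})
    {S : Finset (Finset V)} {t : Finset V} (hS : S.erase t = img φ c.L1) : Disc S t := by
  refine ⟨φ p, ?_⟩
  rw [hS]
  have hpt : pt (φ p) = cl (img φ c.L0) := by
    rw [hp]
    ext σ
    constructor
    · rintro (h1 | h1)
      · exact ⟨{φ p}, I3.mem_img.2 ⟨[p], by simp, by simp⟩, by rw [h1]; exact Finset.empty_subset _⟩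
      · rw [Set.mem_singleton_iff.1 h1]
        exact ⟨{φ p}, I3.mem_img.2 ⟨[p], by simp, by simp⟩, Finset.Subset.refl _⟩
    · rintro ⟨t, ht, hσ⟩
      obtain ⟨s, hs, rfl⟩ := I3.mem_img.1 ht
      rw [List.mem_singleton] at hs
      rw [hs] at hσ
      have h2 : σ ⊆ {φ p} := by simpa using hσ
      rcases Finset.subset_singleton_iff.1 h2 with h3 | h3
      · exact Or.inl h3
      · exact Or.inr h3
  rw [hpt]
  refine Crt.sound c _ h φ hφ _ (I3.isCx_cl ?_) ?_
  · have h1 : inOk c.L1 [p] = true := by
      unfold Crt.check at h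
      simp only [Bool.and_eq_true, List.all_eq_true] at h
      exact (h.1.1.1 [p] (by rw [hp]; simp)).1.1
    unfold inOk at h1
    rw [List.any_eq_true] at h1
    obtain ⟨t, ht, _⟩ := h1
    exact ⟨_, I3.mem_img.2 ⟨t, ht, rfl⟩⟩
  · intro E hE _
    unfold inOk at hE
    rw [List.any_eq_true] at hE
    obtain ⟨t, ht, h1⟩ := hE
    refine ⟨_, I3.mem_img.2 ⟨t, ht, rfl⟩, ?_⟩
    intro v hv
    rw [List.mem_toFinset, List.mem_map] at hv
    obtain ⟨i, hi, rfl⟩ := hv
    have h2 := List.all_eq_true.1 h1 i hi
    rw [List.contains_iff_mem] at h2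
    exact Finset.mem_image_of_mem _ (List.mem_toFinset.2 h2)

/-- certificate for `sim_cap` -/
def I3.capC : Crt :=
  ⟨5, [[2, 3, 4], [1, 3, 4], [1, 2, 4], [1, 2, 3]], [[2, 3, 4], [0, 3, 4], [0, 2, 4], [0, 2, 3]],
    [(true, 4, [0]), (true, 4, [0, 3]), (true, 4, [0, 2]), (true, 4, [0, 1]), (true, 4, [0, 1, 3]),
      (true, 4, [0, 1, 2]), (true, 1, [0, 2, 3]), (false, 0, [1, 2, 3]), (false, 4, [0, 1, 2]),
      (false, 4, [0, 1, 3]), (false, 4, [0, 1]), (false, 4, [1, 2]), (false, 4, [1, 3]),
      (false, 4, [1])]⟩

theorem I3.capC_check : I3.capC.check (envOk 5 [[2, 3, 4]] []) = true := by decide +kernel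

/-- the labelling for `sim_cap` -/
def I3.capφ {V : Type*} (w z a b c : V) : ℕ → V
  | 0 => w
  | 1 => z
  | 2 => a
  | 3 => b
  | _ => c

variable {V : Type*} [DecidableEq V] {w : V} {X : Finset V} {Mk : Finset (Finset V)}
  {C : Finset (V × Finset (Finset V))}

/-- a marked triangle with the cell `t ∪ z * bd t` is the same as an unmarked triangle -/
theorem sim_cap (h : WF w X Mk C) {u : V} (hu : Fresh w X C u) {t : Finset V} (ht : t ∈ Mk)
    {z : V} (hz : z ∈ X) (hzt : z ∉ t) (hzM : ∀ y ∈ t, insert z (t.erase y) ∉ Mk) :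
    Sim (ZZ w X Mk (insert (u, insert t (t.image (fun y => insert z (t.erase y)))) C))
      (ZZ w X (Mk.erase t) C) := by
  obtain ⟨htX, htc⟩ := h.mrk t ht
  obtain ⟨a, b, c, hab, hac, hbc, rfl⟩ := Finset.card_eq_three.1 htc
  have ha : a ∈ X := htX (by simp)
  have hb : b ∈ X := htX (by simp)
  have hc : c ∈ X := htX (by simp)
  have hwz : w ≠ z := fun e => h.hw (e ▸ hz)
  have hwa : w ≠ a := fun e => h.hw (e ▸ ha)
  have hwb : w ≠ b := fun e => h.hw (e ▸ hb)
  have hwc : w ≠ c := fun e => h.hw (e ▸ hc)
  have hza : z ≠ a := fun e => hzt (by simp [e])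
  have hzb : z ≠ b := fun e => hzt (by simp [e])
  have hzc : z ≠ c := fun e => hzt (by simp [e])
  have hφ : Set.InjOn (I3.capφ w z a b c) {i | i < 5} := by
    intro i hi j hj he
    have hi' : i < 5 := hi
    have hj' : j < 5 := hj
    interval_cases i <;> interval_cases j <;>
      first
      | rfl
      | (exfalso
         simp only [I3.capφ] at he
         first
         | exact hwz he | exact hwz he.symm | exact hwa he | exact hwa he.symm
         | exact hwb he | exact hwb he.symm | exact hwc he | exact hwc he.symm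
         | exact hza he | exact hza he.symm | exact hzb he | exact hzb he.symm
         | exact hzc he | exact hzc he.symm | exact hab he | exact hab he.symm
         | exact hac he | exact hac he.symm | exact hbc he | exact hbc he.symm)
  have e1 : ({a, b, c} : Finset V).erase a = {b, c} := by
    rw [Finset.erase_insert]; simp [hab, hac]
  have e2 : ({a, b, c} : Finset V).erase b = {a, c} := by
    rw [Finset.insert_comm, Finset.erase_insert]; simp [hab.symm, hbc]
  have e3 : ({a, b, c} : Finset V).erase c = {a, b} := by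
    rw [Finset.pair_comm b c, Finset.insert_comm, Finset.erase_insert]
    simp [hac.symm, hbc.symm]
  have hL0 : img (I3.capφ w z a b c) I3.capC.L0
      = insert {a, b, c} (({a, b, c} : Finset V).image
        (fun y => insert z (({a, b, c} : Finset V).erase y))) := by
    rw [Finset.image_insert, Finset.image_insert, Finset.image_singleton, e1, e2, e3]
    unfold img mkS I3.capC
    simp only [List.map_cons, List.map_nil, I3.capφ, List.toFinset_cons, List.toFinset_nil,
      insert_empty_eq]
  have hinn := Crt.sound I3.capC _ I3.capC_check (I3.capφ w z a b c) hφ (ZZ w X Mk C)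
    (I3.isCx_ZZ h) (fun E hE _ => I3.envOk_sound (n := 5) (le_refl 5) (by decide) h
      (I3.capφ w z a b c) hφ rfl (by
        intro i h1 h2
        interval_cases i
        · exact hz
        · exact ha
        · exact hb
        · exact hc) (by
        intro t ht' hsub
        refine ⟨[2, 3, 4], by simp, ?_⟩
        obtain ⟨htX', htc'⟩ := h.mrk t ht'
        have hsub' : t ⊆ {z, a, b, c} := by
          intro v hv
          obtain ⟨i, hi, rfl⟩ := Finset.mem_image.1 (hsub hv)
          rw [Finset.mem_range] at hi
          interval_cases i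
          · exact absurd (htX' hv) h.hw
          · simp [I3.capφ]
          · simp [I3.capφ]
          · simp [I3.capφ]
          · simp [I3.capφ]
        simp only [List.map_cons, List.map_nil, I3.capφ, List.toFinset_cons, List.toFinset_nil,
          insert_empty_eq]
        by_cases hzt' : z ∈ t
        · exfalso
          have h4 : (t.erase z).card = 2 := by rw [Finset.card_erase_of_mem hzt', htc']
          have h5 : t.erase z ⊆ {a, b, c} := by
            intro v hv
            rw [Finset.mem_erase] at hv
            have := hsub' hv.2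
            rw [Finset.mem_insert] at this
            exact this.resolve_left hv.1
          obtain ⟨y, hy, hye⟩ : ∃ y ∈ ({a, b, c} : Finset V), t.erase z
              = ({a, b, c} : Finset V).erase y := by
            have h6 : (({a, b, c} : Finset V) \ t.erase z).card = 1 := by
              rw [Finset.card_sdiff_of_subset h5, h4, htc]
            obtain ⟨y, hy⟩ := Finset.card_eq_one.1 h6
            have hy' : y ∈ ({a, b, c} : Finset V) \ t.erase z := by rw [hy]; simp
            refine ⟨y, (Finset.mem_sdiff.1 hy').1, ?_⟩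
            rw [← Finset.sdiff_singleton_eq_erase y, ← hy, Finset.sdiff_sdiff_eq_self h5]
          apply hzM y hy
          rw [← hye, Finset.insert_erase hzt']
          exact ht'
        · have h5 : t ⊆ {a, b, c} := by
            intro v hv
            have := hsub' hv
            rw [Finset.mem_insert] at this
            exact this.resolve_left (fun e => hzt' (e ▸ hv))
          exact (Finset.eq_of_subset_of_card_le h5 (by rw [htc, htc'])).symm)
      (by simp) hE)
  have hrepl := sim_repl h hu (S := img (I3.capφ w z a b c) I3.capC.L0)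
    (S' := img (I3.capφ w z a b c) I3.capC.L1) (by rw [hL0]; simp) (by
      rw [hL0]
      intro s hs
      rw [Finset.mem_insert, Finset.mem_image] at hs
      rcases hs with rfl | ⟨y, hy, rfl⟩
      · exact ⟨htX, htc⟩
      · refine ⟨?_, ?_⟩
        · intro v hv
          rcases Finset.mem_insert.1 hv with rfl | hv
          · exact hz
          · exact htX (Finset.mem_of_mem_erase hv)
        · rw [Finset.card_insert_of_notMem (fun e => hzt (Finset.mem_of_mem_erase e)),
            Finset.card_erase_of_mem hy, htc]) hinn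
  rw [hL0] at hrepl
  refine hrepl.trans ?_
  rw [ZZ_insert]
  have hwt : w ∉ ({a, b, c} : Finset V) := fun e => h.hw (htX e)
  have f1 : (insert w ({a, b, c} : Finset V)).erase w = {a, b, c} := Finset.erase_insert hwt
  have f2 : ∀ y ∈ ({a, b, c} : Finset V), (insert w ({a, b, c} : Finset V)).erase y
      = insert w (({a, b, c} : Finset V).erase y) := fun y hy =>
    Finset.erase_insert_of_ne (fun e => hwt (e ▸ hy))
  have hL1 : img (I3.capφ w z a b c) I3.capC.L1
      = insert {a, b, c} (({a, b, c} : Finset V).image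
        (fun y => insert w (({a, b, c} : Finset V).erase y))) := by
    rw [Finset.image_insert, Finset.image_insert, Finset.image_singleton, e1, e2, e3]
    unfold img mkS I3.capC
    simp only [List.map_cons, List.map_nil, I3.capφ, List.toFinset_cons, List.toFinset_nil,
      insert_empty_eq]
  have hcl : cl (img (I3.capφ w z a b c) I3.capC.L1)
      = {σ | σ ⊂ insert w ({a, b, c} : Finset V)} := by
    rw [hL1]
    ext σ
    constructor
    · rintro ⟨s, hs, hσ⟩
      obtain ⟨y, hy, hys⟩ : ∃ y ∈ insert w ({a, b, c} : Finset V),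
          s = (insert w ({a, b, c} : Finset V)).erase y := by
        rw [Finset.mem_insert, Finset.mem_image] at hs
        rcases hs with rfl | ⟨y, hy, rfl⟩
        · exact ⟨w, Finset.mem_insert_self _ _, f1.symm⟩
        · exact ⟨y, Finset.mem_insert_of_mem hy, (f2 y hy).symm⟩
      rw [hys] at hσ
      exact lt_of_le_of_lt hσ (Finset.erase_ssubset hy)
    · intro hσ
      have hσ' : σ ⊂ insert w ({a, b, c} : Finset V) := hσ
      have hσ1 := hσ'.1
      obtain ⟨y, hy, hyσ⟩ := Finset.exists_of_ssubset hσ'
      have h7 : σ ⊆ (insert w ({a, b, c} : Finset V)).erase y := by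
        intro v hv
        exact Finset.mem_erase.2 ⟨fun e => hyσ (e ▸ hv), hσ1 hv⟩
      rcases Finset.mem_insert.1 hy with rfl | hy
      · exact ⟨{a, b, c}, Finset.mem_insert_self _ _, by rw [← f1]; exact h7⟩
      · rw [f2 y hy] at h7
        exact ⟨_, Finset.mem_insert_of_mem (Finset.mem_image_of_mem _ hy), h7⟩
  rw [hcl]
  have hτZ : insert w ({a, b, c} : Finset V) ∉ ZZ w X Mk C := by
    rintro (h8 | h8)
    · apply h8.2.2 (Finset.mem_insert_self _ _)
      rw [f1]
      exact ht
    · obtain ⟨c', hc', hcτ, _⟩ := h8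
      rcases Finset.mem_insert.1 hcτ with h9 | h9
      · exact (h.tag c' hc').2 h9
      · exact (h.tag c' hc').1 (htX h9)
  have hbZ : ∀ σ, σ ⊂ insert w ({a, b, c} : Finset V) → σ ∈ ZZ w X Mk C := by
    intro σ hσ
    left
    have h10 : σ.erase w ⊆ {a, b, c} := by
      intro v hv
      rw [Finset.mem_erase] at hv
      exact (Finset.mem_insert.1 (hσ.1 hv.2)).resolve_left hv.1
    refine ⟨h10.trans htX, (Finset.card_le_card h10).trans htc.le, ?_⟩
    intro hwσ hM
    have h11 : σ.erase w = {a, b, c} :=
      Finset.eq_of_subset_of_card_le h10 (by rw [htc, (h.mrk _ hM).2])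
    have h12 : σ = insert w {a, b, c} := by rw [← h11, Finset.insert_erase hwσ]
    exact hσ.ne h12
  have huτ : u ∉ insert w ({a, b, c} : Finset V) := by
    intro h13
    rcases Finset.mem_insert.1 h13 with h14 | h14
    · exact hu.hw h14
    · exact hu.hX (htX h14)
  refine Sim.trans (Sim.symm (sim_tet (z3_ZZ h hu) hτZ ?_ hbZ huτ)) ?_
  · rw [Finset.card_insert_of_notMem hwt, htc]
  · have heq : insert (insert w ({a, b, c} : Finset V)) (ZZ w X Mk C)
        = ZZ w X (Mk.erase {a, b, c}) C := by
      ext σ
      constructor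
      · rintro (rfl | (h15 | h15))
        · left
          refine ⟨by rw [f1]; exact htX, by rw [f1]; exact htc.le, ?_⟩
          intro _
          rw [f1]
          exact Finset.notMem_erase _ _
        · left
          exact ⟨h15.1, h15.2.1, fun hw hM => h15.2.2 hw (Finset.mem_of_mem_erase hM)⟩
        · right; exact h15
      · rintro (h15 | h15)
        · by_cases h16 : w ∈ σ ∧ σ.erase w = {a, b, c}
          · left
            rw [← h16.2, Finset.insert_erase h16.1]
          · right; left
            refine ⟨h15.1, h15.2.1, fun hw hM => h15.2.2 hw (Finset.mem_erase.2 ⟨?_, hM⟩)⟩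
            exact fun e => h16 ⟨hw, e⟩
        · right; right; exact h15
    rw [heq]
    exact Sim.refl _

end Pool.Agent.DF302A.PI
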