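import Pool.Agent.Work.MP_df302a_co.I0

/-! # MP_df302a_co, part (I), module I4D: certificates of the macros. -/

set_option autoImplicit false

namespace Pool.Agent.DF302A.PI

/-- the marked triangles of `k` names -/
def mks (k : ℕ) : List (List ℕ) := (List.range k).map (fun i => [2 + 3 * i, 3 + 3 * i, 4 + 3 * i])

/-- certificate -/
def c_eqSymm : Crt := ⟨8,
    [[2, 3, 4], [5, 6, 7], [2, 3, 5], [3, 5, 6], [3, 4, 6], [4, 6, 7], [4, 2, 7], [2, 7, 5]],
    [[5, 6, 7], [2, 3, 4], [5, 6, 2], [6, 2, 3], [6, 7, 3], [7, 3, 4], [7, 5, 4], [5, 4, 2]],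
    [(true, 7, [0]), (true, 6, [3, 7]), (true, 7, [0, 6]), (true, 7, [0, 4]), (true, 7, [0, 3]),
    (true, 7, [0, 4, 6]), (true, 7, [0, 3, 6]), (true, 6, [0, 3, 4]), (true, 0, [3, 4, 7]),
    (false, 0, [3, 4, 6]), (false, 7, [0, 3, 4]), (false, 7, [0, 3, 6]), (false, 7, [0, 4, 6]),
    (false, 7, [0, 3]), (false, 7, [0, 4]), (false, 7, [0, 6]), (false, 7, [4, 6]), (false, 7,
    [0]), (true, 7, [0]), (true, 7, [4, 5]), (true, 7, [0, 5]), (true, 7, [0, 4]), (true, 7, [0,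
    2]), (true, 7, [0, 4, 5]), (true, 7, [0, 2, 5]), (true, 7, [0, 2, 4]), (true, 0, [2, 4, 5]),
    (false, 0, [2, 4, 7]), (false, 5, [0, 2, 4]), (false, 7, [0, 2, 5]), (false, 7, [0, 4, 5]),
    (false, 7, [0, 2]), (false, 7, [0, 4]), (false, 7, [0, 5]), (false, 5, [2, 7]), (false, 7,
    [0]), (true, 6, [0]), (true, 5, [2, 6]), (true, 6, [0, 5]), (true, 6, [0, 3]), (true, 6, [0,
    2]), (true, 6, [0, 3, 5]), (true, 6, [0, 2, 5]), (true, 5, [0, 2, 3]), (true, 0, [2, 3, 6]),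
    (false, 0, [2, 3, 5]), (false, 6, [0, 2, 3]), (false, 6, [0, 2, 5]), (false, 6, [0, 3, 5]),
    (false, 6, [0, 2]), (false, 6, [0, 3]), (false, 6, [0, 5]), (false, 6, [3, 5]), (false, 6,
    [0])]⟩

theorem c_eqSymm_check : c_eqSymm.check (envOk 8 (mks 2) []) = true := by
  decide +kernel

/-- certificate -/
def c_addComm : Crt := ⟨11,
    [[2, 3, 4], [5, 6, 7], [3, 7, 6], [3, 6, 4], [8, 9, 10], [8, 4, 2], [8, 2, 3], [8, 9, 3], [9,
    3, 7], [9, 7, 5], [9, 10, 5], [10, 5, 6], [10, 6, 4], [10, 8, 4]],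
    [[5, 6, 7], [2, 3, 4], [6, 4, 3], [6, 3, 7], [8, 9, 10], [8, 7, 5], [8, 5, 6], [8, 9, 6], [9,
    6, 4], [9, 4, 2], [9, 10, 2], [10, 2, 3], [10, 3, 7], [10, 8, 7]],
    [(true, 10, [0]), (true, 9, [7, 10]), (true, 10, [0, 9]), (true, 10, [0, 7]), (true, 10, [0,
    5]), (true, 10, [0, 7, 9]), (true, 10, [0, 5, 9]), (true, 9, [0, 5, 7]), (true, 0, [5, 7,
    10]), (false, 0, [5, 7, 9]), (false, 10, [0, 5, 7]), (false, 10, [0, 5, 9]), (false, 10, [0,
    7, 9]), (false, 10, [0, 5]), (false, 10, [0, 7]), (false, 10, [0, 9]), (false, 10, [5, 9]),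
    (false, 10, [0]), (true, 9, [0]), (true, 8, [2, 9]), (true, 9, [0, 8]), (true, 9, [0, 3]),
    (true, 9, [0, 2]), (true, 9, [0, 3, 8]), (true, 9, [0, 2, 8]), (true, 8, [0, 2, 3]), (true, 0,
    [2, 3, 9]), (false, 0, [2, 3, 8]), (false, 9, [0, 2, 3]), (false, 9, [0, 2, 8]), (false, 9,
    [0, 3, 8]), (false, 9, [0, 2]), (false, 9, [0, 3]), (false, 9, [0, 8]), (false, 9, [3, 8]),
    (false, 9, [0]), (true, 10, [0]), (true, 10, [6, 8]), (true, 10, [0, 8]), (true, 10, [0, 6]),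
    (true, 10, [0, 4]), (true, 10, [0, 6, 8]), (true, 10, [0, 4, 8]), (true, 10, [0, 4, 6]),
    (true, 0, [4, 6, 8]), (false, 0, [4, 6, 10]), (false, 8, [0, 4, 6]), (false, 10, [0, 4, 8]),
    (false, 10, [0, 6, 8]), (false, 10, [0, 4]), (false, 10, [0, 6]), (false, 10, [0, 8]), (false,
    8, [4, 10]), (false, 10, [0]), (true, 10, [0]), (true, 10, [5, 8]), (true, 10, [0, 8]), (true,
    10, [0, 6]), (true, 10, [0, 5]), (true, 10, [0, 6, 8]), (true, 10, [0, 5, 8]), (true, 10, [0,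
    5, 6]), (true, 0, [5, 6, 8]), (false, 0, [5, 6, 10]), (false, 8, [0, 5, 6]), (false, 10, [0,
    5, 8]), (false, 10, [0, 6, 8]), (false, 10, [0, 5]), (false, 10, [0, 6]), (false, 10, [0, 8]),
    (false, 8, [6, 10]), (false, 10, [0]), (true, 9, [0]), (true, 8, [4, 9]), (true, 9, [0, 8]),
    (true, 9, [0, 4]), (true, 9, [0, 2]), (true, 9, [0, 4, 8]), (true, 9, [0, 2, 8]), (true, 8,
    [0, 2, 4]), (true, 0, [2, 4, 9]), (false, 0, [2, 4, 8]), (false, 9, [0, 2, 4]), (false, 9, [0,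
    2, 8]), (false, 9, [0, 4, 8]), (false, 9, [0, 2]), (false, 9, [0, 4]), (false, 9, [0, 8]),
    (false, 9, [2, 8]), (false, 9, [0]), (true, 10, [0]), (true, 9, [3, 10]), (true, 10, [0, 9]),
    (true, 10, [0, 7]), (true, 10, [0, 3]), (true, 10, [0, 7, 9]), (true, 10, [0, 3, 9]), (true,
    9, [0, 3, 7]), (true, 0, [3, 7, 10]), (false, 0, [3, 7, 9]), (false, 10, [0, 3, 7]), (false,
    10, [0, 3, 9]), (false, 10, [0, 7, 9]), (false, 10, [0, 3]), (false, 10, [0, 7]), (false, 10,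
    [0, 9]), (false, 10, [7, 9]), (false, 10, [0]), (true, 10, [0]), (true, 9, [2, 10]), (true,
    10, [0, 9]), (true, 10, [0, 3]), (true, 10, [0, 2]), (true, 10, [0, 3, 9]), (true, 10, [0, 2,
    9]), (true, 9, [0, 2, 3]), (true, 0, [2, 3, 10]), (false, 0, [2, 3, 9]), (false, 10, [0, 2,
    3]), (false, 10, [0, 2, 9]), (false, 10, [0, 3, 9]), (false, 10, [0, 2]), (false, 10, [0, 3]),
    (false, 10, [0, 9]), (false, 10, [3, 9]), (false, 10, [0]), (true, 9, [0]), (true, 8, [6, 9]),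
    (true, 9, [0, 8]), (true, 9, [0, 6]), (true, 9, [0, 4]), (true, 9, [0, 6, 8]), (true, 9, [0,
    4, 8]), (true, 8, [0, 4, 6]), (true, 0, [4, 6, 9]), (false, 0, [4, 6, 8]), (false, 9, [0, 4,
    6]), (false, 9, [0, 4, 8]), (false, 9, [0, 6, 8]), (false, 9, [0, 4]), (false, 9, [0, 6]),
    (false, 9, [0, 8]), (false, 9, [4, 8]), (false, 9, [0]), (true, 10, [0]), (true, 10, [7, 8]),
    (true, 10, [0, 8]), (true, 10, [0, 7]), (true, 10, [0, 5]), (true, 10, [0, 7, 8]), (true, 10,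
    [0, 5, 8]), (true, 10, [0, 5, 7]), (true, 0, [5, 7, 8]), (false, 0, [5, 7, 10]), (false, 8,
    [0, 5, 7]), (false, 10, [0, 5, 8]), (false, 10, [0, 7, 8]), (false, 10, [0, 5]), (false, 10,
    [0, 7]), (false, 10, [0, 8]), (false, 8, [5, 10]), (false, 10, [0])]⟩

theorem c_addComm_check : c_addComm.check (envOk 11 (mks 3) []) = true := by
  decide +kernel

/-- certificate -/
def c_capEq : Crt := ⟨9,
    [[2, 3, 4], [5, 6, 7], [2, 3, 5], [3, 5, 6], [3, 4, 6], [4, 6, 7], [4, 2, 7], [2, 7, 5]],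
    [[5, 6, 7], [1, 5, 6], [1, 5, 7], [1, 6, 7]],
    [(true, 4, [8]), (true, 8, [1]), (true, 4, [3, 8]), (true, 4, [2, 8]), (true, 8, [1, 4]),
    (true, 8, [1, 3]), (true, 8, [1, 2]), (true, 4, [2, 3, 8]), (true, 8, [1, 3, 4]), (true, 8,
    [1, 2, 4]), (true, 8, [1, 2, 3]), (false, 8, [2, 3, 4]), (false, 1, [2, 3, 8]), (false, 4, [1,
    2, 8]), (false, 4, [1, 3, 8]), (false, 4, [1, 8]), (false, 4, [2, 8]), (false, 4, [3, 8]),
    (false, 4, [8]), (true, 6, [0]), (true, 4, [1, 6]), (true, 6, [0, 4]), (true, 6, [0, 3]),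
    (true, 6, [0, 1]), (true, 6, [0, 3, 4]), (true, 6, [0, 1, 4]), (true, 4, [0, 1, 3]), (true, 0,
    [1, 3, 6]), (false, 0, [1, 3, 4]), (false, 6, [0, 1, 3]), (false, 6, [0, 1, 4]), (false, 6,
    [0, 3, 4]), (false, 6, [0, 1]), (false, 6, [0, 3]), (false, 6, [0, 4]), (false, 6, [3, 4]),
    (false, 6, [0]), (true, 6, [0]), (true, 6, [1, 5]), (true, 6, [0, 5]), (true, 6, [0, 3]),
    (true, 6, [0, 1]), (true, 6, [0, 3, 5]), (true, 6, [0, 1, 5]), (true, 6, [0, 1, 3]), (true, 0,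
    [1, 3, 5]), (false, 0, [1, 3, 6]), (false, 5, [0, 1, 3]), (false, 6, [0, 1, 5]), (false, 6,
    [0, 3, 5]), (false, 6, [0, 1]), (false, 6, [0, 3]), (false, 6, [0, 5]), (false, 5, [3, 6]),
    (false, 6, [0]), (true, 7, [0]), (true, 6, [1, 7]), (true, 7, [0, 6]), (true, 7, [0, 4]),
    (true, 7, [0, 1]), (true, 7, [0, 4, 6]), (true, 7, [0, 1, 6]), (true, 6, [0, 1, 4]), (true, 0,
    [1, 4, 7]), (false, 0, [1, 4, 6]), (false, 7, [0, 1, 4]), (false, 7, [0, 1, 6]), (false, 7,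
    [0, 4, 6]), (false, 7, [0, 1]), (false, 7, [0, 4]), (false, 7, [0, 6]), (false, 7, [4, 6]),
    (false, 7, [0]), (true, 7, [0]), (true, 7, [0, 4]), (true, 7, [0, 2]), (true, 7, [0, 1]),
    (true, 7, [0, 2, 4]), (true, 7, [0, 1, 4]), (true, 4, [0, 1, 2]), (true, 0, [1, 2, 7]),
    (false, 0, [1, 2, 4]), (false, 7, [0, 1, 2]), (false, 7, [0, 1, 4]), (false, 7, [0, 2, 4]),
    (false, 7, [0, 1]), (false, 7, [0, 2]), (false, 7, [0, 4]), (false, 7, [1, 4]), (false, 7, [2,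
    4]), (false, 7, [0]), (false, 7, [4]), (true, 5, [0]), (true, 5, [0, 3]), (true, 5, [0, 2]),
    (true, 5, [0, 1]), (true, 5, [0, 2, 3]), (true, 5, [0, 1, 3]), (true, 3, [0, 1, 2]), (true, 0,
    [1, 2, 5]), (false, 0, [1, 2, 3]), (false, 5, [0, 1, 2]), (false, 5, [0, 1, 3]), (false, 5,
    [0, 2, 3]), (false, 5, [0, 1]), (false, 5, [0, 2]), (false, 5, [0, 3]), (false, 5, [1, 3]),
    (false, 5, [2, 3]), (false, 5, [0]), (false, 5, [3]), (true, 7, [0]), (true, 7, [0, 5]),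
    (true, 7, [0, 2]), (true, 7, [0, 1]), (true, 7, [0, 2, 5]), (true, 7, [0, 1, 2]), (true, 2,
    [0, 1, 5]), (true, 0, [1, 5, 7]), (false, 0, [1, 2, 5]), (false, 7, [0, 1, 2]), (false, 7, [0,
    1, 5]), (false, 7, [0, 2, 5]), (false, 7, [0, 1]), (false, 7, [0, 2]), (false, 7, [0, 5]),
    (false, 7, [1, 2]), (false, 7, [2, 5]), (false, 7, [0]), (false, 7, [2])]⟩

/-- the cell used -/
def s_capEq : List (ℕ × List (List ℕ)) :=
    [(8, [[2, 3, 4], [1, 2, 3], [1, 2, 4], [1, 3, 4]])]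

theorem c_capEq_check : c_capEq.check (envOk 8 (mks 2) s_capEq) = true := by
  decide +kernel

/-- certificate -/
def c_addZero : Crt := ⟨12,
    [[2, 3, 4], [5, 6, 7], [3, 7, 6], [3, 6, 4], [8, 9, 10], [8, 4, 2], [8, 2, 3], [8, 9, 3], [9,
    3, 7], [9, 7, 5], [9, 10, 5], [10, 5, 6], [10, 6, 4], [10, 8, 4]],
    [[2, 3, 4], [8, 9, 10], [2, 3, 8], [3, 8, 9], [3, 4, 9], [4, 9, 10], [4, 2, 10], [2, 10, 8]],
    [(true, 7, [11]), (true, 11, [1]), (true, 7, [6, 11]), (true, 7, [5, 11]), (true, 11, [1, 7]),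
    (true, 11, [1, 6]), (true, 11, [1, 5]), (true, 7, [5, 6, 11]), (true, 11, [1, 6, 7]), (true,
    11, [1, 5, 7]), (true, 11, [1, 5, 6]), (false, 11, [5, 6, 7]), (false, 1, [5, 6, 11]), (false,
    7, [1, 5, 11]), (false, 7, [1, 6, 11]), (false, 7, [1, 11]), (false, 7, [5, 11]), (false, 7,
    [6, 11]), (false, 7, [11]), (true, 9, [0]), (true, 7, [6, 9]), (true, 9, [0, 7]), (true, 9,
    [0, 6]), (true, 9, [0, 3]), (true, 9, [0, 6, 7]), (true, 9, [0, 3, 7]), (true, 7, [0, 3, 6]),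
    (true, 0, [3, 6, 9]), (false, 0, [3, 6, 7]), (false, 9, [0, 3, 6]), (false, 9, [0, 3, 7]),
    (false, 9, [0, 6, 7]), (false, 9, [0, 3]), (false, 9, [0, 6]), (false, 9, [0, 7]), (false, 9,
    [3, 7]), (false, 9, [0]), (true, 9, [0]), (true, 6, [4, 9]), (true, 9, [0, 6]), (true, 9, [0,
    4]), (true, 9, [0, 3]), (true, 9, [0, 4, 6]), (true, 9, [0, 3, 6]), (true, 6, [0, 3, 4]),
    (true, 0, [3, 4, 9]), (false, 0, [3, 4, 6]), (false, 9, [0, 3, 4]), (false, 9, [0, 3, 6]),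
    (false, 9, [0, 4, 6]), (false, 9, [0, 3]), (false, 9, [0, 4]), (false, 9, [0, 6]), (false, 9,
    [3, 6]), (false, 9, [0]), (true, 10, [0]), (true, 8, [2, 10]), (true, 10, [0, 8]), (true, 10,
    [0, 4]), (true, 10, [0, 2]), (true, 10, [0, 4, 8]), (true, 10, [0, 2, 8]), (true, 8, [0, 2,
    4]), (true, 0, [2, 4, 10]), (false, 0, [2, 4, 8]), (false, 10, [0, 2, 4]), (false, 10, [0, 2,
    8]), (false, 10, [0, 4, 8]), (false, 10, [0, 2]), (false, 10, [0, 4]), (false, 10, [0, 8]),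
    (false, 10, [4, 8]), (false, 10, [0]), (true, 9, [0]), (true, 7, [1, 9]), (true, 9, [0, 7]),
    (true, 9, [0, 6]), (true, 9, [0, 1]), (true, 9, [0, 6, 7]), (true, 9, [0, 1, 7]), (true, 7,
    [0, 1, 6]), (true, 0, [1, 6, 9]), (false, 0, [1, 6, 7]), (false, 9, [0, 1, 6]), (false, 9, [0,
    1, 7]), (false, 9, [0, 6, 7]), (false, 9, [0, 1]), (false, 9, [0, 6]), (false, 9, [0, 7]),
    (false, 9, [6, 7]), (false, 9, [0]), (true, 9, [0]), (true, 9, [0, 7]), (true, 9, [0, 5]),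
    (true, 9, [0, 1]), (true, 9, [0, 5, 7]), (true, 9, [0, 1, 7]), (true, 7, [0, 1, 5]), (true, 0,
    [1, 5, 9]), (false, 0, [1, 5, 7]), (false, 9, [0, 1, 5]), (false, 9, [0, 1, 7]), (false, 9,
    [0, 5, 7]), (false, 9, [0, 1]), (false, 9, [0, 5]), (false, 9, [0, 7]), (false, 9, [1, 7]),
    (false, 9, [5, 7]), (false, 9, [0]), (false, 9, [7]), (true, 9, [0]), (true, 9, [0, 6]),
    (true, 9, [0, 5]), (true, 9, [0, 1]), (true, 9, [0, 1, 6]), (true, 9, [0, 1, 5]), (true, 1,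
    [0, 5, 6]), (true, 0, [5, 6, 9]), (false, 0, [1, 5, 6]), (false, 9, [0, 1, 5]), (false, 9, [0,
    1, 6]), (false, 9, [0, 5, 6]), (false, 9, [0, 1]), (false, 9, [0, 5]), (false, 9, [0, 6]),
    (false, 9, [1, 5]), (false, 9, [1, 6]), (false, 9, [0]), (false, 9, [1]), (true, 10, [0]),
    (true, 10, [0, 9]), (true, 10, [0, 6]), (true, 10, [0, 5]), (true, 10, [0, 5, 9]), (true, 10,
    [0, 5, 6]), (true, 5, [0, 6, 9]), (true, 0, [6, 9, 10]), (false, 0, [5, 6, 9]), (false, 10,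
    [0, 5, 6]), (false, 10, [0, 5, 9]), (false, 10, [0, 6, 9]), (false, 10, [0, 5]), (false, 10,
    [0, 6]), (false, 10, [0, 9]), (false, 10, [5, 6]), (false, 10, [5, 9]), (false, 10, [0]),
    (false, 10, [5]), (true, 10, [0]), (true, 10, [0, 9]), (true, 10, [0, 6]), (true, 10, [0, 4]),
    (true, 10, [0, 6, 9]), (true, 10, [0, 4, 6]), (true, 6, [0, 4, 9]), (true, 0, [4, 9, 10]),
    (false, 0, [4, 6, 9]), (false, 10, [0, 4, 6]), (false, 10, [0, 4, 9]), (false, 10, [0, 6, 9]),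
    (false, 10, [0, 4]), (false, 10, [0, 6]), (false, 10, [0, 9]), (false, 10, [4, 6]), (false,
    10, [6, 9]), (false, 10, [0]), (false, 10, [6])]⟩

/-- the cell used -/
def s_addZero : List (ℕ × List (List ℕ)) :=
    [(11, [[5, 6, 7], [1, 5, 6], [1, 5, 7], [1, 6, 7]])]

theorem c_addZero_check : c_addZero.check (envOk 11 (mks 3) s_addZero) = true := by
  decide +kernel

/-- certificate -/
def c_eqSub : Crt := ⟨12,
    [[2, 3, 4], [1, 2, 3], [1, 2, 4], [1, 3, 4]],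
    [[8, 9, 10], [5, 6, 7], [8, 9, 5], [9, 5, 6], [9, 10, 6], [10, 6, 7], [10, 8, 7], [8, 7, 5]],
    [(true, 4, [11]), (true, 11, [10]), (true, 11, [9]), (true, 11, [8]), (true, 11, [7]), (true,
    11, [6]), (true, 11, [5]), (true, 11, [9, 10]), (true, 11, [8, 10]), (true, 11, [8, 9]),
    (true, 11, [7, 9]), (true, 11, [6, 10]), (true, 11, [6, 7]), (true, 11, [5, 10]), (true, 11,
    [5, 9]), (true, 11, [5, 7]), (true, 11, [5, 6]), (true, 11, [4, 10]), (true, 11, [4, 8]),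
    (true, 11, [4, 6]), (true, 4, [3, 11]), (true, 11, [3, 9]), (true, 11, [3, 8]), (true, 11, [3,
    7]), (true, 11, [3, 6]), (true, 4, [2, 11]), (true, 11, [2, 8]), (true, 11, [8, 9, 10]),
    (true, 11, [5, 9, 10]), (true, 11, [5, 7, 9]), (true, 11, [5, 6, 10]), (true, 11, [5, 6, 7]),
    (true, 11, [4, 8, 10]), (true, 11, [4, 6, 10]), (true, 11, [3, 8, 9]), (true, 11, [3, 7, 9]),
    (true, 11, [3, 6, 7]), (true, 11, [3, 4, 6]), (true, 11, [2, 4, 8]), (true, 4, [2, 3, 11]),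
    (true, 11, [2, 3, 8]), (false, 11, [2, 3, 4]), (false, 8, [2, 3, 11]), (false, 8, [2, 4, 11]),
    (false, 6, [3, 4, 11]), (false, 7, [3, 6, 11]), (false, 9, [3, 7, 11]), (false, 9, [3, 8,
    11]), (false, 10, [4, 6, 11]), (false, 10, [4, 8, 11]), (false, 5, [6, 7, 11]), (false, 10,
    [5, 6, 11]), (false, 9, [5, 7, 11]), (false, 10, [5, 9, 11]), (false, 10, [8, 9, 11]), (false,
    8, [2, 11]), (false, 9, [3, 11]), (false, 10, [4, 11]), (false, 10, [5, 11]), (false, 10, [6,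
    11]), (false, 9, [7, 11]), (false, 10, [8, 11]), (false, 10, [9, 11]), (false, 10, [11]),
    (true, 9, [0]), (true, 9, [7, 8]), (true, 9, [0, 8]), (true, 9, [0, 7]), (true, 9, [0, 3]),
    (true, 9, [0, 7, 8]), (true, 9, [0, 3, 8]), (true, 9, [0, 3, 7]), (true, 0, [3, 7, 8]),
    (false, 0, [3, 7, 9]), (false, 8, [0, 3, 7]), (false, 9, [0, 3, 8]), (false, 9, [0, 7, 8]),
    (false, 9, [0, 3]), (false, 9, [0, 7]), (false, 9, [0, 8]), (false, 8, [3, 9]), (false, 9,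
    [0]), (true, 7, [0]), (true, 6, [4, 7]), (true, 7, [0, 6]), (true, 7, [0, 4]), (true, 7, [0,
    3]), (true, 7, [0, 4, 6]), (true, 7, [0, 3, 6]), (true, 6, [0, 3, 4]), (true, 0, [3, 4, 7]),
    (false, 0, [3, 4, 6]), (false, 7, [0, 3, 4]), (false, 7, [0, 3, 6]), (false, 7, [0, 4, 6]),
    (false, 7, [0, 3]), (false, 7, [0, 4]), (false, 7, [0, 6]), (false, 7, [3, 6]), (false, 7,
    [0]), (true, 9, [0]), (true, 9, [5, 8]), (true, 9, [0, 8]), (true, 9, [0, 7]), (true, 9, [0,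
    5]), (true, 9, [0, 7, 8]), (true, 9, [0, 5, 8]), (true, 9, [0, 5, 7]), (true, 0, [5, 7, 8]),
    (false, 0, [5, 7, 9]), (false, 8, [0, 5, 7]), (false, 9, [0, 5, 8]), (false, 9, [0, 7, 8]),
    (false, 9, [0, 5]), (false, 9, [0, 7]), (false, 9, [0, 8]), (false, 8, [7, 9]), (false, 9,
    [0]), (true, 10, [0]), (true, 10, [6, 9]), (true, 10, [0, 9]), (true, 10, [0, 6]), (true, 10,
    [0, 5]), (true, 10, [0, 6, 9]), (true, 10, [0, 5, 9]), (true, 10, [0, 5, 6]), (true, 0, [5, 6,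
    9]), (false, 0, [5, 6, 10]), (false, 9, [0, 5, 6]), (false, 10, [0, 5, 9]), (false, 10, [0, 6,
    9]), (false, 10, [0, 5]), (false, 10, [0, 6]), (false, 10, [0, 9]), (false, 9, [5, 10]),
    (false, 10, [0]), (true, 10, [0]), (true, 6, [7, 10]), (true, 10, [0, 7]), (true, 10, [0, 6]),
    (true, 10, [0, 4]), (true, 10, [0, 6, 7]), (true, 10, [0, 4, 6]), (true, 6, [0, 4, 7]), (true,
    0, [4, 7, 10]), (false, 0, [4, 6, 7]), (false, 10, [0, 4, 6]), (false, 10, [0, 4, 7]), (false,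
    10, [0, 6, 7]), (false, 10, [0, 4]), (false, 10, [0, 6]), (false, 10, [0, 7]), (false, 10, [4,
    6]), (false, 10, [0]), (true, 8, [0]), (true, 4, [1, 8]), (true, 8, [0, 4]), (true, 8, [0,
    2]), (true, 8, [0, 1]), (true, 8, [0, 2, 4]), (true, 8, [0, 1, 4]), (true, 4, [0, 1, 2]),
    (true, 0, [1, 2, 8]), (false, 0, [1, 2, 4]), (false, 8, [0, 1, 2]), (false, 8, [0, 1, 4]),
    (false, 8, [0, 2, 4]), (false, 8, [0, 1]), (false, 8, [0, 2]), (false, 8, [0, 4]), (false, 8,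
    [2, 4]), (false, 8, [0]), (true, 8, [0]), (true, 8, [0, 3]), (true, 8, [0, 2]), (true, 8, [0,
    1]), (true, 8, [0, 2, 3]), (true, 8, [0, 1, 2]), (true, 2, [0, 1, 3]), (true, 0, [1, 3, 8]),
    (false, 0, [1, 2, 3]), (false, 8, [0, 1, 2]), (false, 8, [0, 1, 3]), (false, 8, [0, 2, 3]),
    (false, 8, [0, 1]), (false, 8, [0, 2]), (false, 8, [0, 3]), (false, 8, [1, 2]), (false, 8, [2,
    3]), (false, 8, [0]), (false, 8, [2]), (true, 8, [0]), (true, 8, [0, 4]), (true, 8, [0, 3]),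
    (true, 8, [0, 1]), (true, 8, [0, 1, 4]), (true, 8, [0, 1, 3]), (true, 1, [0, 3, 4]), (true, 0,
    [3, 4, 8]), (false, 0, [1, 3, 4]), (false, 8, [0, 1, 3]), (false, 8, [0, 1, 4]), (false, 8,
    [0, 3, 4]), (false, 8, [0, 1]), (false, 8, [0, 3]), (false, 8, [0, 4]), (false, 8, [1, 3]),
    (false, 8, [1, 4]), (false, 8, [0]), (false, 8, [1]), (true, 8, [0]), (true, 8, [0, 7]),
    (true, 8, [0, 4]), (true, 8, [0, 3]), (true, 8, [0, 3, 7]), (true, 8, [0, 3, 4]), (true, 3,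
    [0, 4, 7]), (true, 0, [4, 7, 8]), (false, 0, [3, 4, 7]), (false, 8, [0, 3, 4]), (false, 8, [0,
    3, 7]), (false, 8, [0, 4, 7]), (false, 8, [0, 3]), (false, 8, [0, 4]), (false, 8, [0, 7]),
    (false, 8, [3, 4]), (false, 8, [3, 7]), (false, 8, [0]), (false, 8, [3]), (true, 10, [0]),
    (true, 10, [0, 8]), (true, 10, [0, 7]), (true, 10, [0, 4]), (true, 10, [0, 4, 8]), (true, 10,
    [0, 4, 7]), (true, 4, [0, 7, 8]), (true, 0, [7, 8, 10]), (false, 0, [4, 7, 8]), (false, 10,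
    [0, 4, 7]), (false, 10, [0, 4, 8]), (false, 10, [0, 7, 8]), (false, 10, [0, 4]), (false, 10,
    [0, 7]), (false, 10, [0, 8]), (false, 10, [4, 7]), (false, 10, [4, 8]), (false, 10, [0]),
    (false, 10, [4])]⟩

/-- the cell used -/
def s_eqSub : List (ℕ × List (List ℕ)) :=
    [(11, [[2, 3, 4], [5, 6, 7], [3, 7, 6], [3, 6, 4], [8, 9, 10], [8, 4, 2], [8, 2, 3], [8, 9,
    3], [9, 3, 7], [9, 7, 5], [9, 10, 5], [10, 5, 6], [10, 6, 4], [10, 8, 4]])]

theorem c_eqSub_check : c_eqSub.check (envOk 11 (mks 3) s_eqSub) = true := by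
  decide +kernel

/-- certificate -/
def c_addUniq : Crt := ⟨15,
    [[2, 3, 4], [5, 6, 7], [3, 7, 6], [3, 6, 4], [11, 12, 13], [11, 4, 2], [11, 2, 3], [11, 12,
    3], [12, 3, 7], [12, 7, 5], [12, 13, 5], [13, 5, 6], [13, 6, 4], [13, 11, 4]],
    [[8, 9, 10], [11, 12, 13], [8, 9, 11], [9, 11, 12], [9, 10, 12], [10, 12, 13], [10, 8, 13],
    [8, 13, 11]],
    [(true, 7, [14]), (true, 14, [10]), (true, 14, [9]), (true, 14, [8]), (true, 14, [9, 10]),
    (true, 14, [8, 10]), (true, 14, [8, 9]), (true, 14, [7, 9]), (true, 7, [6, 14]), (true, 14,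
    [6, 10]), (true, 7, [5, 14]), (true, 14, [5, 10]), (true, 14, [5, 9]), (true, 6, [4, 14]),
    (true, 14, [4, 10]), (true, 14, [4, 8]), (true, 7, [3, 14]), (true, 14, [3, 9]), (true, 14,
    [3, 8]), (true, 4, [2, 14]), (true, 14, [2, 8]), (true, 14, [8, 9, 10]), (true, 14, [5, 9,
    10]), (true, 14, [5, 7, 9]), (true, 7, [5, 6, 14]), (true, 14, [5, 6, 10]), (true, 14, [4, 8,
    10]), (true, 14, [4, 6, 10]), (true, 14, [3, 8, 9]), (true, 14, [3, 7, 9]), (true, 7, [3, 6,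
    14]), (true, 6, [3, 4, 14]), (true, 14, [2, 4, 8]), (true, 4, [2, 3, 14]), (true, 14, [2, 3,
    8]), (false, 14, [2, 3, 4]), (false, 8, [2, 3, 14]), (false, 8, [2, 4, 14]), (false, 14, [3,
    4, 6]), (false, 14, [3, 6, 7]), (false, 9, [3, 7, 14]), (false, 9, [3, 8, 14]), (false, 10,
    [4, 6, 14]), (false, 10, [4, 8, 14]), (false, 14, [5, 6, 7]), (false, 10, [5, 6, 14]), (false,
    9, [5, 7, 14]), (false, 10, [5, 9, 14]), (false, 10, [8, 9, 14]), (false, 8, [2, 14]), (false,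
    14, [3, 4]), (false, 14, [3, 6]), (false, 9, [3, 14]), (false, 10, [4, 14]), (false, 10, [5,
    14]), (false, 14, [6, 7]), (false, 10, [6, 14]), (false, 9, [7, 14]), (false, 10, [8, 14]),
    (false, 10, [9, 14]), (false, 10, [14]), (true, 11, [0]), (true, 3, [8, 11]), (true, 11, [0,
    8]), (true, 11, [0, 3]), (true, 11, [0, 2]), (true, 11, [0, 3, 8]), (true, 11, [0, 2, 3]),
    (true, 3, [0, 2, 8]), (true, 0, [2, 8, 11]), (false, 0, [2, 3, 8]), (false, 11, [0, 2, 3]),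
    (false, 11, [0, 2, 8]), (false, 11, [0, 3, 8]), (false, 11, [0, 2]), (false, 11, [0, 3]),
    (false, 11, [0, 8]), (false, 11, [2, 3]), (false, 11, [0]), (true, 13, [0]), (true, 6, [10,
    13]), (true, 13, [0, 10]), (true, 13, [0, 6]), (true, 13, [0, 4]), (true, 13, [0, 6, 10]),
    (true, 13, [0, 4, 6]), (true, 6, [0, 4, 10]), (true, 0, [4, 10, 13]), (false, 0, [4, 6, 10]),
    (false, 13, [0, 4, 6]), (false, 13, [0, 4, 10]), (false, 13, [0, 6, 10]), (false, 13, [0, 4]),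
    (false, 13, [0, 6]), (false, 13, [0, 10]), (false, 13, [4, 6]), (false, 13, [0]), (true, 12,
    [0]), (true, 7, [9, 12]), (true, 12, [0, 9]), (true, 12, [0, 7]), (true, 12, [0, 5]), (true,
    12, [0, 7, 9]), (true, 12, [0, 5, 7]), (true, 7, [0, 5, 9]), (true, 0, [5, 9, 12]), (false, 0,
    [5, 7, 9]), (false, 12, [0, 5, 7]), (false, 12, [0, 5, 9]), (false, 12, [0, 7, 9]), (false,
    12, [0, 5]), (false, 12, [0, 7]), (false, 12, [0, 9]), (false, 12, [5, 7]), (false, 12, [0]),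
    (true, 12, [0]), (true, 9, [10, 12]), (true, 12, [0, 10]), (true, 12, [0, 9]), (true, 12, [0,
    5]), (true, 12, [0, 9, 10]), (true, 12, [0, 5, 9]), (true, 9, [0, 5, 10]), (true, 0, [5, 10,
    12]), (false, 0, [5, 9, 10]), (false, 12, [0, 5, 9]), (false, 12, [0, 5, 10]), (false, 12, [0,
    9, 10]), (false, 12, [0, 5]), (false, 12, [0, 9]), (false, 12, [0, 10]), (false, 12, [5, 9]),
    (false, 12, [0]), (true, 11, [0]), (true, 8, [9, 11]), (true, 11, [0, 9]), (true, 11, [0, 8]),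
    (true, 11, [0, 3]), (true, 11, [0, 8, 9]), (true, 11, [0, 3, 8]), (true, 8, [0, 3, 9]), (true,
    0, [3, 9, 11]), (false, 0, [3, 8, 9]), (false, 11, [0, 3, 8]), (false, 11, [0, 3, 9]), (false,
    11, [0, 8, 9]), (false, 11, [0, 3]), (false, 11, [0, 8]), (false, 11, [0, 9]), (false, 11, [3,
    8]), (false, 11, [0]), (true, 13, [0]), (true, 10, [8, 13]), (true, 13, [0, 10]), (true, 13,
    [0, 8]), (true, 13, [0, 4]), (true, 13, [0, 8, 10]), (true, 13, [0, 4, 10]), (true, 10, [0, 4,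
    8]), (true, 0, [4, 8, 13]), (false, 0, [4, 8, 10]), (false, 13, [0, 4, 8]), (false, 13, [0, 4,
    10]), (false, 13, [0, 8, 10]), (false, 13, [0, 4]), (false, 13, [0, 8]), (false, 13, [0, 10]),
    (false, 13, [4, 10]), (false, 13, [0]), (true, 12, [0]), (true, 12, [0, 9]), (true, 12, [0,
    7]), (true, 12, [0, 3]), (true, 12, [0, 7, 9]), (true, 12, [0, 3, 7]), (true, 7, [0, 3, 9]),
    (true, 0, [3, 9, 12]), (false, 0, [3, 7, 9]), (false, 12, [0, 3, 7]), (false, 12, [0, 3, 9]),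
    (false, 12, [0, 7, 9]), (false, 12, [0, 3]), (false, 12, [0, 7]), (false, 12, [0, 9]), (false,
    12, [3, 7]), (false, 12, [7, 9]), (false, 12, [0]), (false, 12, [7]), (true, 12, [0]), (true,
    12, [0, 11]), (true, 12, [0, 9]), (true, 12, [0, 3]), (true, 12, [0, 3, 11]), (true, 12, [0,
    3, 9]), (true, 3, [0, 9, 11]), (true, 0, [9, 11, 12]), (false, 0, [3, 9, 11]), (false, 12, [0,
    3, 9]), (false, 12, [0, 3, 11]), (false, 12, [0, 9, 11]), (false, 12, [0, 3]), (false, 12, [0,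
    9]), (false, 12, [0, 11]), (false, 12, [3, 9]), (false, 12, [3, 11]), (false, 12, [0]),
    (false, 12, [3]), (true, 11, [0]), (true, 11, [0, 8]), (true, 11, [0, 4]), (true, 11, [0, 2]),
    (true, 11, [0, 2, 8]), (true, 11, [0, 2, 4]), (true, 2, [0, 4, 8]), (true, 0, [4, 8, 11]),
    (false, 0, [2, 4, 8]), (false, 11, [0, 2, 4]), (false, 11, [0, 2, 8]), (false, 11, [0, 4, 8]),
    (false, 11, [0, 2]), (false, 11, [0, 4]), (false, 11, [0, 8]), (false, 11, [2, 4]), (false,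
    11, [2, 8]), (false, 11, [0]), (false, 11, [2]), (true, 13, [0]), (true, 13, [0, 11]), (true,
    13, [0, 8]), (true, 13, [0, 4]), (true, 13, [0, 4, 11]), (true, 13, [0, 4, 8]), (true, 4, [0,
    8, 11]), (true, 0, [8, 11, 13]), (false, 0, [4, 8, 11]), (false, 13, [0, 4, 8]), (false, 13,
    [0, 4, 11]), (false, 13, [0, 8, 11]), (false, 13, [0, 4]), (false, 13, [0, 8]), (false, 13,
    [0, 11]), (false, 13, [4, 8]), (false, 13, [4, 11]), (false, 13, [0]), (false, 13, [4]),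
    (true, 13, [0]), (true, 13, [0, 10]), (true, 13, [0, 6]), (true, 13, [0, 5]), (true, 13, [0,
    6, 10]), (true, 13, [0, 5, 6]), (true, 6, [0, 5, 10]), (true, 0, [5, 10, 13]), (false, 0, [5,
    6, 10]), (false, 13, [0, 5, 6]), (false, 13, [0, 5, 10]), (false, 13, [0, 6, 10]), (false, 13,
    [0, 5]), (false, 13, [0, 6]), (false, 13, [0, 10]), (false, 13, [5, 6]), (false, 13, [6, 10]),
    (false, 13, [0]), (false, 13, [6]), (true, 13, [0]), (true, 13, [0, 12]), (true, 13, [0, 10]),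
    (true, 13, [0, 5]), (true, 13, [0, 5, 12]), (true, 13, [0, 5, 10]), (true, 5, [0, 10, 12]),
    (true, 0, [10, 12, 13]), (false, 0, [5, 10, 12]), (false, 13, [0, 5, 10]), (false, 13, [0, 5,
    12]), (false, 13, [0, 10, 12]), (false, 13, [0, 5]), (false, 13, [0, 10]), (false, 13, [0,
    12]), (false, 13, [5, 10]), (false, 13, [5, 12]), (false, 13, [0]), (false, 13, [5])]⟩

/-- the cell used -/
def s_addUniq : List (ℕ × List (List ℕ)) :=
    [(14, [[2, 3, 4], [5, 6, 7], [3, 7, 6], [3, 6, 4], [8, 9, 10], [8, 4, 2], [8, 2, 3], [8, 9,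
    3], [9, 3, 7], [9, 7, 5], [9, 10, 5], [10, 5, 6], [10, 6, 4], [10, 8, 4]])]

theorem c_addUniq_check : c_addUniq.check (envOk 14 (mks 4) s_addUniq) = true := by
  decide +kernel

/-- certificate -/
def c_subCap : Crt := ⟨9,
    [[2, 3, 4], [1, 2, 3], [1, 2, 4], [1, 3, 4]],
    [[5, 6, 7], [1, 5, 6], [1, 5, 7], [1, 6, 7]],
    [(true, 4, [8]), (true, 8, [7]), (true, 8, [6]), (true, 8, [5]), (true, 8, [6, 7]), (true, 8,
    [5, 7]), (true, 8, [5, 6]), (true, 8, [4, 7]), (true, 8, [4, 6]), (true, 4, [3, 8]), (true, 8,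
    [3, 6]), (true, 8, [3, 5]), (true, 4, [2, 8]), (true, 8, [2, 7]), (true, 8, [2, 5]), (true, 8,
    [5, 6, 7]), (true, 8, [4, 6, 7]), (true, 8, [3, 5, 6]), (true, 8, [3, 4, 6]), (true, 8, [2, 5,
    7]), (true, 8, [2, 4, 7]), (true, 4, [2, 3, 8]), (true, 8, [2, 3, 5]), (false, 8, [2, 3, 4]),
    (false, 5, [2, 3, 8]), (false, 7, [2, 4, 8]), (false, 7, [2, 5, 8]), (false, 6, [3, 4, 8]),
    (false, 6, [3, 5, 8]), (false, 7, [4, 6, 8]), (false, 7, [5, 6, 8]), (false, 7, [2, 8]),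
    (false, 6, [3, 8]), (false, 7, [4, 8]), (false, 7, [5, 8]), (false, 7, [6, 8]), (false, 7,
    [8]), (true, 6, [0]), (true, 4, [1, 6]), (true, 6, [0, 4]), (true, 6, [0, 3]), (true, 6, [0,
    1]), (true, 6, [0, 3, 4]), (true, 6, [0, 1, 4]), (true, 4, [0, 1, 3]), (true, 0, [1, 3, 6]),
    (false, 0, [1, 3, 4]), (false, 6, [0, 1, 3]), (false, 6, [0, 1, 4]), (false, 6, [0, 3, 4]),
    (false, 6, [0, 1]), (false, 6, [0, 3]), (false, 6, [0, 4]), (false, 6, [3, 4]), (false, 6,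
    [0]), (true, 6, [0]), (true, 6, [1, 5]), (true, 6, [0, 5]), (true, 6, [0, 3]), (true, 6, [0,
    1]), (true, 6, [0, 3, 5]), (true, 6, [0, 1, 5]), (true, 6, [0, 1, 3]), (true, 0, [1, 3, 5]),
    (false, 0, [1, 3, 6]), (false, 5, [0, 1, 3]), (false, 6, [0, 1, 5]), (false, 6, [0, 3, 5]),
    (false, 6, [0, 1]), (false, 6, [0, 3]), (false, 6, [0, 5]), (false, 5, [3, 6]), (false, 6,
    [0]), (true, 7, [0]), (true, 6, [1, 7]), (true, 7, [0, 6]), (true, 7, [0, 4]), (true, 7, [0,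
    1]), (true, 7, [0, 4, 6]), (true, 7, [0, 1, 6]), (true, 6, [0, 1, 4]), (true, 0, [1, 4, 7]),
    (false, 0, [1, 4, 6]), (false, 7, [0, 1, 4]), (false, 7, [0, 1, 6]), (false, 7, [0, 4, 6]),
    (false, 7, [0, 1]), (false, 7, [0, 4]), (false, 7, [0, 6]), (false, 7, [4, 6]), (false, 7,
    [0]), (true, 7, [0]), (true, 7, [0, 4]), (true, 7, [0, 2]), (true, 7, [0, 1]), (true, 7, [0,
    2, 4]), (true, 7, [0, 1, 4]), (true, 4, [0, 1, 2]), (true, 0, [1, 2, 7]), (false, 0, [1, 2,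
    4]), (false, 7, [0, 1, 2]), (false, 7, [0, 1, 4]), (false, 7, [0, 2, 4]), (false, 7, [0, 1]),
    (false, 7, [0, 2]), (false, 7, [0, 4]), (false, 7, [1, 4]), (false, 7, [2, 4]), (false, 7,
    [0]), (false, 7, [4]), (true, 5, [0]), (true, 5, [0, 3]), (true, 5, [0, 2]), (true, 5, [0,
    1]), (true, 5, [0, 2, 3]), (true, 5, [0, 1, 3]), (true, 3, [0, 1, 2]), (true, 0, [1, 2, 5]),
    (false, 0, [1, 2, 3]), (false, 5, [0, 1, 2]), (false, 5, [0, 1, 3]), (false, 5, [0, 2, 3]),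
    (false, 5, [0, 1]), (false, 5, [0, 2]), (false, 5, [0, 3]), (false, 5, [1, 3]), (false, 5, [2,
    3]), (false, 5, [0]), (false, 5, [3]), (true, 7, [0]), (true, 7, [0, 5]), (true, 7, [0, 2]),
    (true, 7, [0, 1]), (true, 7, [0, 2, 5]), (true, 7, [0, 1, 2]), (true, 2, [0, 1, 5]), (true, 0,
    [1, 5, 7]), (false, 0, [1, 2, 5]), (false, 7, [0, 1, 2]), (false, 7, [0, 1, 5]), (false, 7,
    [0, 2, 5]), (false, 7, [0, 1]), (false, 7, [0, 2]), (false, 7, [0, 5]), (false, 7, [1, 2]),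
    (false, 7, [2, 5]), (false, 7, [0]), (false, 7, [2])]⟩

/-- the cell used -/
def s_subCap : List (ℕ × List (List ℕ)) :=
    [(8, [[2, 3, 4], [5, 6, 7], [2, 3, 5], [3, 5, 6], [3, 4, 6], [4, 6, 7], [4, 2, 7], [2, 7,
    5]])]

theorem c_subCap_check : c_subCap.check (envOk 8 (mks 2) s_subCap) = true := by
  decide +kernel

/-- certificate -/
def c_subEq : Crt := ⟨12,
    [[2, 3, 4], [8, 9, 10], [2, 3, 8], [3, 8, 9], [3, 4, 9], [4, 9, 10], [4, 2, 10], [2, 10, 8]],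
    [[5, 6, 7], [8, 9, 10], [5, 6, 8], [6, 8, 9], [6, 7, 9], [7, 9, 10], [7, 5, 10], [5, 10, 8]],
    [(true, 4, [11]), (true, 11, [7]), (true, 11, [6]), (true, 11, [5]), (true, 11, [6, 7]),
    (true, 11, [5, 7]), (true, 11, [5, 6]), (true, 11, [4, 7]), (true, 11, [4, 6]), (true, 4, [3,
    11]), (true, 11, [3, 6]), (true, 11, [3, 5]), (true, 4, [2, 11]), (true, 11, [2, 7]), (true,
    11, [2, 5]), (true, 11, [5, 6, 7]), (true, 11, [4, 6, 7]), (true, 11, [3, 5, 6]), (true, 11,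
    [3, 4, 6]), (true, 11, [2, 5, 7]), (true, 11, [2, 4, 7]), (true, 4, [2, 3, 11]), (true, 11,
    [2, 3, 5]), (false, 11, [2, 3, 4]), (false, 5, [2, 3, 11]), (false, 7, [2, 4, 11]), (false, 7,
    [2, 5, 11]), (false, 6, [3, 4, 11]), (false, 6, [3, 5, 11]), (false, 7, [4, 6, 11]), (false,
    7, [5, 6, 11]), (false, 7, [2, 11]), (false, 6, [3, 11]), (false, 7, [4, 11]), (false, 7, [5,
    11]), (false, 7, [6, 11]), (false, 7, [11]), (true, 9, [0]), (true, 4, [6, 9]), (true, 9, [0,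
    6]), (true, 9, [0, 4]), (true, 9, [0, 3]), (true, 9, [0, 4, 6]), (true, 9, [0, 3, 4]), (true,
    4, [0, 3, 6]), (true, 0, [3, 6, 9]), (false, 0, [3, 4, 6]), (false, 9, [0, 3, 4]), (false, 9,
    [0, 3, 6]), (false, 9, [0, 4, 6]), (false, 9, [0, 3]), (false, 9, [0, 4]), (false, 9, [0, 6]),
    (false, 9, [3, 4]), (false, 9, [0]), (true, 10, [0]), (true, 4, [7, 10]), (true, 10, [0, 7]),
    (true, 10, [0, 4]), (true, 10, [0, 2]), (true, 10, [0, 4, 7]), (true, 10, [0, 2, 4]), (true,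
    4, [0, 2, 7]), (true, 0, [2, 7, 10]), (false, 0, [2, 4, 7]), (false, 10, [0, 2, 4]), (false,
    10, [0, 2, 7]), (false, 10, [0, 4, 7]), (false, 10, [0, 2]), (false, 10, [0, 4]), (false, 10,
    [0, 7]), (false, 10, [2, 4]), (false, 10, [0]), (true, 10, [0]), (true, 7, [5, 10]), (true,
    10, [0, 7]), (true, 10, [0, 5]), (true, 10, [0, 2]), (true, 10, [0, 5, 7]), (true, 10, [0, 2,
    7]), (true, 7, [0, 2, 5]), (true, 0, [2, 5, 10]), (false, 0, [2, 5, 7]), (false, 10, [0, 2,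
    5]), (false, 10, [0, 2, 7]), (false, 10, [0, 5, 7]), (false, 10, [0, 2]), (false, 10, [0, 5]),
    (false, 10, [0, 7]), (false, 10, [2, 7]), (false, 10, [0]), (true, 9, [0]), (true, 6, [7, 9]),
    (true, 9, [0, 7]), (true, 9, [0, 6]), (true, 9, [0, 4]), (true, 9, [0, 6, 7]), (true, 9, [0,
    4, 6]), (true, 6, [0, 4, 7]), (true, 0, [4, 7, 9]), (false, 0, [4, 6, 7]), (false, 9, [0, 4,
    6]), (false, 9, [0, 4, 7]), (false, 9, [0, 6, 7]), (false, 9, [0, 4]), (false, 9, [0, 6]),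
    (false, 9, [0, 7]), (false, 9, [4, 6]), (false, 9, [0]), (true, 8, [0]), (true, 3, [5, 8]),
    (true, 8, [0, 5]), (true, 8, [0, 3]), (true, 8, [0, 2]), (true, 8, [0, 3, 5]), (true, 8, [0,
    2, 3]), (true, 3, [0, 2, 5]), (true, 0, [2, 5, 8]), (false, 0, [2, 3, 5]), (false, 8, [0, 2,
    3]), (false, 8, [0, 2, 5]), (false, 8, [0, 3, 5]), (false, 8, [0, 2]), (false, 8, [0, 3]),
    (false, 8, [0, 5]), (false, 8, [2, 3]), (false, 8, [0]), (true, 8, [0]), (true, 5, [6, 8]),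
    (true, 8, [0, 6]), (true, 8, [0, 5]), (true, 8, [0, 3]), (true, 8, [0, 5, 6]), (true, 8, [0,
    3, 5]), (true, 5, [0, 3, 6]), (true, 0, [3, 6, 8]), (false, 0, [3, 5, 6]), (false, 8, [0, 3,
    5]), (false, 8, [0, 3, 6]), (false, 8, [0, 5, 6]), (false, 8, [0, 3]), (false, 8, [0, 5]),
    (false, 8, [0, 6]), (false, 8, [3, 5]), (false, 8, [0]), (true, 10, [0]), (true, 10, [0, 9]),
    (true, 10, [0, 7]), (true, 10, [0, 4]), (true, 10, [0, 4, 9]), (true, 10, [0, 4, 7]), (true,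
    4, [0, 7, 9]), (true, 0, [7, 9, 10]), (false, 0, [4, 7, 9]), (false, 10, [0, 4, 7]), (false,
    10, [0, 4, 9]), (false, 10, [0, 7, 9]), (false, 10, [0, 4]), (false, 10, [0, 7]), (false, 10,
    [0, 9]), (false, 10, [4, 7]), (false, 10, [4, 9]), (false, 10, [0]), (false, 10, [4]), (true,
    10, [0]), (true, 10, [0, 8]), (true, 10, [0, 5]), (true, 10, [0, 2]), (true, 10, [0, 2, 8]),
    (true, 10, [0, 2, 5]), (true, 2, [0, 5, 8]), (true, 0, [5, 8, 10]), (false, 0, [2, 5, 8]),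
    (false, 10, [0, 2, 5]), (false, 10, [0, 2, 8]), (false, 10, [0, 5, 8]), (false, 10, [0, 2]),
    (false, 10, [0, 5]), (false, 10, [0, 8]), (false, 10, [2, 5]), (false, 10, [2, 8]), (false,
    10, [0]), (false, 10, [2]), (true, 9, [0]), (true, 9, [0, 8]), (true, 9, [0, 6]), (true, 9,
    [0, 3]), (true, 9, [0, 3, 8]), (true, 9, [0, 3, 6]), (true, 3, [0, 6, 8]), (true, 0, [6, 8,
    9]), (false, 0, [3, 6, 8]), (false, 9, [0, 3, 6]), (false, 9, [0, 3, 8]), (false, 9, [0, 6,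
    8]), (false, 9, [0, 3]), (false, 9, [0, 6]), (false, 9, [0, 8]), (false, 9, [3, 6]), (false,
    9, [3, 8]), (false, 9, [0]), (false, 9, [3])]⟩

/-- the cell used -/
def s_subEq : List (ℕ × List (List ℕ)) :=
    [(11, [[2, 3, 4], [5, 6, 7], [2, 3, 5], [3, 5, 6], [3, 4, 6], [4, 6, 7], [4, 2, 7], [2, 7,
    5]])]

theorem c_subEq_check : c_subEq.check (envOk 11 (mks 3) s_subEq) = true := by
  decide +kernel

/-- certificate -/
def c_subAdd1 : Crt := ⟨15,
    [[2, 3, 4], [8, 9, 10], [3, 10, 9], [3, 9, 4], [11, 12, 13], [11, 4, 2], [11, 2, 3], [11, 12,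
    3], [12, 3, 10], [12, 10, 8], [12, 13, 8], [13, 8, 9], [13, 9, 4], [13, 11, 4]],
    [[5, 6, 7], [8, 9, 10], [6, 10, 9], [6, 9, 7], [11, 12, 13], [11, 7, 5], [11, 5, 6], [11, 12,
    6], [12, 6, 10], [12, 10, 8], [12, 13, 8], [13, 8, 9], [13, 9, 7], [13, 11, 7]],
    [(true, 4, [14]), (true, 14, [7]), (true, 14, [6]), (true, 14, [5]), (true, 14, [6, 7]),
    (true, 14, [5, 7]), (true, 14, [5, 6]), (true, 14, [4, 7]), (true, 14, [4, 6]), (true, 4, [3,
    14]), (true, 14, [3, 6]), (true, 14, [3, 5]), (true, 4, [2, 14]), (true, 14, [2, 7]), (true,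
    14, [2, 5]), (true, 14, [5, 6, 7]), (true, 14, [4, 6, 7]), (true, 14, [3, 5, 6]), (true, 14,
    [3, 4, 6]), (true, 14, [2, 5, 7]), (true, 14, [2, 4, 7]), (true, 4, [2, 3, 14]), (true, 14,
    [2, 3, 5]), (false, 14, [2, 3, 4]), (false, 5, [2, 3, 14]), (false, 7, [2, 4, 14]), (false, 7,
    [2, 5, 14]), (false, 6, [3, 4, 14]), (false, 6, [3, 5, 14]), (false, 7, [4, 6, 14]), (false,
    7, [5, 6, 14]), (false, 7, [2, 14]), (false, 6, [3, 14]), (false, 7, [4, 14]), (false, 7, [5,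
    14]), (false, 7, [6, 14]), (false, 7, [14]), (true, 9, [0]), (true, 4, [6, 9]), (true, 9, [0,
    6]), (true, 9, [0, 4]), (true, 9, [0, 3]), (true, 9, [0, 4, 6]), (true, 9, [0, 3, 4]), (true,
    4, [0, 3, 6]), (true, 0, [3, 6, 9]), (false, 0, [3, 4, 6]), (false, 9, [0, 3, 4]), (false, 9,
    [0, 3, 6]), (false, 9, [0, 4, 6]), (false, 9, [0, 3]), (false, 9, [0, 4]), (false, 9, [0, 6]),
    (false, 9, [3, 4]), (false, 9, [0]), (true, 11, [0]), (true, 4, [7, 11]), (true, 11, [0, 7]),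
    (true, 11, [0, 4]), (true, 11, [0, 2]), (true, 11, [0, 4, 7]), (true, 11, [0, 2, 4]), (true,
    4, [0, 2, 7]), (true, 0, [2, 7, 11]), (false, 0, [2, 4, 7]), (false, 11, [0, 2, 4]), (false,
    11, [0, 2, 7]), (false, 11, [0, 4, 7]), (false, 11, [0, 2]), (false, 11, [0, 4]), (false, 11,
    [0, 7]), (false, 11, [2, 4]), (false, 11, [0]), (true, 10, [0]), (true, 9, [6, 10]), (true,
    10, [0, 9]), (true, 10, [0, 6]), (true, 10, [0, 3]), (true, 10, [0, 6, 9]), (true, 10, [0, 3,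
    9]), (true, 9, [0, 3, 6]), (true, 0, [3, 6, 10]), (false, 0, [3, 6, 9]), (false, 10, [0, 3,
    6]), (false, 10, [0, 3, 9]), (false, 10, [0, 6, 9]), (false, 10, [0, 3]), (false, 10, [0, 6]),
    (false, 10, [0, 9]), (false, 10, [3, 9]), (false, 10, [0]), (true, 11, [0]), (true, 3, [5,
    11]), (true, 11, [0, 5]), (true, 11, [0, 3]), (true, 11, [0, 2]), (true, 11, [0, 3, 5]),
    (true, 11, [0, 2, 3]), (true, 3, [0, 2, 5]), (true, 0, [2, 5, 11]), (false, 0, [2, 3, 5]),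
    (false, 11, [0, 2, 3]), (false, 11, [0, 2, 5]), (false, 11, [0, 3, 5]), (false, 11, [0, 2]),
    (false, 11, [0, 3]), (false, 11, [0, 5]), (false, 11, [2, 3]), (false, 11, [0]), (true, 13,
    [0]), (true, 11, [7, 13]), (true, 13, [0, 11]), (true, 13, [0, 7]), (true, 13, [0, 4]), (true,
    13, [0, 7, 11]), (true, 13, [0, 4, 11]), (true, 11, [0, 4, 7]), (true, 0, [4, 7, 13]), (false,
    0, [4, 7, 11]), (false, 13, [0, 4, 7]), (false, 13, [0, 4, 11]), (false, 13, [0, 7, 11]),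
    (false, 13, [0, 4]), (false, 13, [0, 7]), (false, 13, [0, 11]), (false, 13, [4, 11]), (false,
    13, [0]), (true, 9, [0]), (true, 6, [7, 9]), (true, 9, [0, 7]), (true, 9, [0, 6]), (true, 9,
    [0, 4]), (true, 9, [0, 6, 7]), (true, 9, [0, 4, 6]), (true, 6, [0, 4, 7]), (true, 0, [4, 7,
    9]), (false, 0, [4, 6, 7]), (false, 9, [0, 4, 6]), (false, 9, [0, 4, 7]), (false, 9, [0, 6,
    7]), (false, 9, [0, 4]), (false, 9, [0, 6]), (false, 9, [0, 7]), (false, 9, [4, 6]), (false,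
    9, [0]), (true, 11, [0]), (true, 5, [6, 11]), (true, 11, [0, 6]), (true, 11, [0, 5]), (true,
    11, [0, 3]), (true, 11, [0, 5, 6]), (true, 11, [0, 3, 5]), (true, 5, [0, 3, 6]), (true, 0, [3,
    6, 11]), (false, 0, [3, 5, 6]), (false, 11, [0, 3, 5]), (false, 11, [0, 3, 6]), (false, 11,
    [0, 5, 6]), (false, 11, [0, 3]), (false, 11, [0, 5]), (false, 11, [0, 6]), (false, 11, [3,
    5]), (false, 11, [0]), (true, 12, [0]), (true, 10, [6, 12]), (true, 12, [0, 10]), (true, 12,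
    [0, 6]), (true, 12, [0, 3]), (true, 12, [0, 6, 10]), (true, 12, [0, 3, 10]), (true, 10, [0, 3,
    6]), (true, 0, [3, 6, 12]), (false, 0, [3, 6, 10]), (false, 12, [0, 3, 6]), (false, 12, [0, 3,
    10]), (false, 12, [0, 6, 10]), (false, 12, [0, 3]), (false, 12, [0, 6]), (false, 12, [0, 10]),
    (false, 12, [3, 10]), (false, 12, [0]), (true, 13, [0]), (true, 13, [0, 9]), (true, 13, [0,
    7]), (true, 13, [0, 4]), (true, 13, [0, 4, 9]), (true, 13, [0, 4, 7]), (true, 4, [0, 7, 9]),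
    (true, 0, [7, 9, 13]), (false, 0, [4, 7, 9]), (false, 13, [0, 4, 7]), (false, 13, [0, 4, 9]),
    (false, 13, [0, 7, 9]), (false, 13, [0, 4]), (false, 13, [0, 7]), (false, 13, [0, 9]), (false,
    13, [4, 7]), (false, 13, [4, 9]), (false, 13, [0]), (false, 13, [4]), (true, 11, [0]), (true,
    11, [0, 7]), (true, 11, [0, 5]), (true, 11, [0, 2]), (true, 11, [0, 2, 7]), (true, 11, [0, 2,
    5]), (true, 2, [0, 5, 7]), (true, 0, [5, 7, 11]), (false, 0, [2, 5, 7]), (false, 11, [0, 2,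
    5]), (false, 11, [0, 2, 7]), (false, 11, [0, 5, 7]), (false, 11, [0, 2]), (false, 11, [0, 5]),
    (false, 11, [0, 7]), (false, 11, [2, 5]), (false, 11, [2, 7]), (false, 11, [0]), (false, 11,
    [2]), (true, 12, [0]), (true, 12, [0, 11]), (true, 12, [0, 6]), (true, 12, [0, 3]), (true, 12,
    [0, 3, 11]), (true, 12, [0, 3, 6]), (true, 3, [0, 6, 11]), (true, 0, [6, 11, 12]), (false, 0,
    [3, 6, 11]), (false, 12, [0, 3, 6]), (false, 12, [0, 3, 11]), (false, 12, [0, 6, 11]), (false,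
    12, [0, 3]), (false, 12, [0, 6]), (false, 12, [0, 11]), (false, 12, [3, 6]), (false, 12, [3,
    11]), (false, 12, [0]), (false, 12, [3])]⟩

/-- the cell used -/
def s_subAdd1 : List (ℕ × List (List ℕ)) :=
    [(14, [[2, 3, 4], [5, 6, 7], [2, 3, 5], [3, 5, 6], [3, 4, 6], [4, 6, 7], [4, 2, 7], [2, 7,
    5]])]

theorem c_subAdd1_check : c_subAdd1.check (envOk 14 (mks 4) s_subAdd1) = true := by
  decide +kernel

/-- certificate -/
def c_subAdd3 : Crt := ⟨15,
    [[8, 9, 10], [11, 12, 13], [9, 13, 12], [9, 12, 10], [2, 3, 4], [2, 10, 8], [2, 8, 9], [2, 3,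
    9], [3, 9, 13], [3, 13, 11], [3, 4, 11], [4, 11, 12], [4, 12, 10], [4, 2, 10]],
    [[8, 9, 10], [11, 12, 13], [9, 13, 12], [9, 12, 10], [5, 6, 7], [5, 10, 8], [5, 8, 9], [5, 6,
    9], [6, 9, 13], [6, 13, 11], [6, 7, 11], [7, 11, 12], [7, 12, 10], [7, 5, 10]],
    [(true, 4, [14]), (true, 14, [7]), (true, 14, [6]), (true, 14, [5]), (true, 14, [6, 7]),
    (true, 14, [5, 7]), (true, 14, [5, 6]), (true, 14, [4, 7]), (true, 14, [4, 6]), (true, 4, [3,
    14]), (true, 14, [3, 6]), (true, 14, [3, 5]), (true, 4, [2, 14]), (true, 14, [2, 7]), (true,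
    14, [2, 5]), (true, 14, [5, 6, 7]), (true, 14, [4, 6, 7]), (true, 14, [3, 5, 6]), (true, 14,
    [3, 4, 6]), (true, 14, [2, 5, 7]), (true, 14, [2, 4, 7]), (true, 4, [2, 3, 14]), (true, 14,
    [2, 3, 5]), (false, 14, [2, 3, 4]), (false, 5, [2, 3, 14]), (false, 7, [2, 4, 14]), (false, 7,
    [2, 5, 14]), (false, 6, [3, 4, 14]), (false, 6, [3, 5, 14]), (false, 7, [4, 6, 14]), (false,
    7, [5, 6, 14]), (false, 7, [2, 14]), (false, 6, [3, 14]), (false, 7, [4, 14]), (false, 7, [5,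
    14]), (false, 7, [6, 14]), (false, 7, [14]), (true, 11, [0]), (true, 4, [6, 11]), (true, 11,
    [0, 6]), (true, 11, [0, 4]), (true, 11, [0, 3]), (true, 11, [0, 4, 6]), (true, 11, [0, 3, 4]),
    (true, 4, [0, 3, 6]), (true, 0, [3, 6, 11]), (false, 0, [3, 4, 6]), (false, 11, [0, 3, 4]),
    (false, 11, [0, 3, 6]), (false, 11, [0, 4, 6]), (false, 11, [0, 3]), (false, 11, [0, 4]),
    (false, 11, [0, 6]), (false, 11, [3, 4]), (false, 11, [0]), (true, 10, [0]), (true, 4, [7,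
    10]), (true, 10, [0, 7]), (true, 10, [0, 4]), (true, 10, [0, 2]), (true, 10, [0, 4, 7]),
    (true, 10, [0, 2, 4]), (true, 4, [0, 2, 7]), (true, 0, [2, 7, 10]), (false, 0, [2, 4, 7]),
    (false, 10, [0, 2, 4]), (false, 10, [0, 2, 7]), (false, 10, [0, 4, 7]), (false, 10, [0, 2]),
    (false, 10, [0, 4]), (false, 10, [0, 7]), (false, 10, [2, 4]), (false, 10, [0]), (true, 9,
    [0]), (true, 3, [5, 9]), (true, 9, [0, 5]), (true, 9, [0, 3]), (true, 9, [0, 2]), (true, 9,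
    [0, 3, 5]), (true, 9, [0, 2, 3]), (true, 3, [0, 2, 5]), (true, 0, [2, 5, 9]), (false, 0, [2,
    3, 5]), (false, 9, [0, 2, 3]), (false, 9, [0, 2, 5]), (false, 9, [0, 3, 5]), (false, 9, [0,
    2]), (false, 9, [0, 3]), (false, 9, [0, 5]), (false, 9, [2, 3]), (false, 9, [0]), (true, 9,
    [0]), (true, 9, [5, 8]), (true, 9, [0, 8]), (true, 9, [0, 5]), (true, 9, [0, 2]), (true, 9,
    [0, 5, 8]), (true, 9, [0, 2, 8]), (true, 9, [0, 2, 5]), (true, 0, [2, 5, 8]), (false, 0, [2,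
    5, 9]), (false, 8, [0, 2, 5]), (false, 9, [0, 2, 8]), (false, 9, [0, 5, 8]), (false, 9, [0,
    2]), (false, 9, [0, 5]), (false, 9, [0, 8]), (false, 8, [2, 9]), (false, 9, [0]), (true, 13,
    [0]), (true, 11, [6, 13]), (true, 13, [0, 11]), (true, 13, [0, 6]), (true, 13, [0, 3]), (true,
    13, [0, 6, 11]), (true, 13, [0, 3, 11]), (true, 11, [0, 3, 6]), (true, 0, [3, 6, 13]), (false,
    0, [3, 6, 11]), (false, 13, [0, 3, 6]), (false, 13, [0, 3, 11]), (false, 13, [0, 6, 11]),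
    (false, 13, [0, 3]), (false, 13, [0, 6]), (false, 13, [0, 11]), (false, 13, [3, 11]), (false,
    13, [0]), (true, 9, [0]), (true, 5, [6, 9]), (true, 9, [0, 6]), (true, 9, [0, 5]), (true, 9,
    [0, 3]), (true, 9, [0, 5, 6]), (true, 9, [0, 3, 5]), (true, 5, [0, 3, 6]), (true, 0, [3, 6,
    9]), (false, 0, [3, 5, 6]), (false, 9, [0, 3, 5]), (false, 9, [0, 3, 6]), (false, 9, [0, 5,
    6]), (false, 9, [0, 3]), (false, 9, [0, 5]), (false, 9, [0, 6]), (false, 9, [3, 5]), (false,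
    9, [0]), (true, 10, [0]), (true, 7, [5, 10]), (true, 10, [0, 7]), (true, 10, [0, 5]), (true,
    10, [0, 2]), (true, 10, [0, 5, 7]), (true, 10, [0, 2, 7]), (true, 7, [0, 2, 5]), (true, 0, [2,
    5, 10]), (false, 0, [2, 5, 7]), (false, 10, [0, 2, 5]), (false, 10, [0, 2, 7]), (false, 10,
    [0, 5, 7]), (false, 10, [0, 2]), (false, 10, [0, 5]), (false, 10, [0, 7]), (false, 10, [2,
    7]), (false, 10, [0]), (true, 11, [0]), (true, 6, [7, 11]), (true, 11, [0, 7]), (true, 11, [0,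
    6]), (true, 11, [0, 4]), (true, 11, [0, 6, 7]), (true, 11, [0, 4, 6]), (true, 6, [0, 4, 7]),
    (true, 0, [4, 7, 11]), (false, 0, [4, 6, 7]), (false, 11, [0, 4, 6]), (false, 11, [0, 4, 7]),
    (false, 11, [0, 6, 7]), (false, 11, [0, 4]), (false, 11, [0, 6]), (false, 11, [0, 7]), (false,
    11, [4, 6]), (false, 11, [0]), (true, 12, [0]), (true, 11, [7, 12]), (true, 12, [0, 11]),
    (true, 12, [0, 7]), (true, 12, [0, 4]), (true, 12, [0, 7, 11]), (true, 12, [0, 4, 11]), (true,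
    11, [0, 4, 7]), (true, 0, [4, 7, 12]), (false, 0, [4, 7, 11]), (false, 12, [0, 4, 7]), (false,
    12, [0, 4, 11]), (false, 12, [0, 7, 11]), (false, 12, [0, 4]), (false, 12, [0, 7]), (false,
    12, [0, 11]), (false, 12, [4, 11]), (false, 12, [0]), (true, 13, [0]), (true, 13, [0, 9]),
    (true, 13, [0, 6]), (true, 13, [0, 3]), (true, 13, [0, 3, 9]), (true, 13, [0, 3, 6]), (true,
    3, [0, 6, 9]), (true, 0, [6, 9, 13]), (false, 0, [3, 6, 9]), (false, 13, [0, 3, 6]), (false,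
    13, [0, 3, 9]), (false, 13, [0, 6, 9]), (false, 13, [0, 3]), (false, 13, [0, 6]), (false, 13,
    [0, 9]), (false, 13, [3, 6]), (false, 13, [3, 9]), (false, 13, [0]), (false, 13, [3]), (true,
    10, [0]), (true, 10, [0, 8]), (true, 10, [0, 5]), (true, 10, [0, 2]), (true, 10, [0, 2, 8]),
    (true, 10, [0, 2, 5]), (true, 2, [0, 5, 8]), (true, 0, [5, 8, 10]), (false, 0, [2, 5, 8]),
    (false, 10, [0, 2, 5]), (false, 10, [0, 2, 8]), (false, 10, [0, 5, 8]), (false, 10, [0, 2]),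
    (false, 10, [0, 5]), (false, 10, [0, 8]), (false, 10, [2, 5]), (false, 10, [2, 8]), (false,
    10, [0]), (false, 10, [2]), (true, 12, [0]), (true, 12, [0, 10]), (true, 12, [0, 7]), (true,
    12, [0, 4]), (true, 12, [0, 4, 10]), (true, 12, [0, 4, 7]), (true, 4, [0, 7, 10]), (true, 0,
    [7, 10, 12]), (false, 0, [4, 7, 10]), (false, 12, [0, 4, 7]), (false, 12, [0, 4, 10]), (false,
    12, [0, 7, 10]), (false, 12, [0, 4]), (false, 12, [0, 7]), (false, 12, [0, 10]), (false, 12,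
    [4, 7]), (false, 12, [4, 10]), (false, 12, [0]), (false, 12, [4])]⟩

/-- the cell used -/
def s_subAdd3 : List (ℕ × List (List ℕ)) :=
    [(14, [[2, 3, 4], [5, 6, 7], [2, 3, 5], [3, 5, 6], [3, 4, 6], [4, 6, 7], [4, 2, 7], [2, 7,
    5]])]

theorem c_subAdd3_check : c_subAdd3.check (envOk 14 (mks 4) s_subAdd3) = true := by
  decide +kernel

/-- certificate -/
def c_assoc1 : Crt := ⟨18,
    [[14, 15, 16], [8, 9, 10], [15, 10, 9], [15, 9, 16], [11, 12, 13], [11, 16, 14], [11, 14, 15],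
    [11, 12, 15], [12, 15, 10], [12, 10, 8], [12, 13, 8], [13, 8, 9], [13, 9, 16], [13, 11, 16]],
    [[2, 3, 4], [2, 3, 11], [2, 4, 11], [3, 4, 6], [3, 6, 7], [3, 7, 10], [3, 10, 11], [4, 6, 11],
    [5, 6, 7], [5, 6, 9], [5, 7, 10], [5, 9, 10], [6, 9, 11], [8, 9, 10], [8, 9, 13], [8, 10, 12],
    [8, 12, 13], [9, 11, 13], [10, 11, 12], [11, 12, 13]],
    [(true, 16, [17]), (true, 17, [7]), (true, 17, [6]), (true, 17, [5]), (true, 17, [4]), (true,
    17, [3]), (true, 17, [2]), (true, 16, [15, 17]), (true, 16, [14, 17]), (true, 17, [7, 15]),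
    (true, 17, [6, 16]), (true, 17, [6, 7]), (true, 17, [5, 16]), (true, 17, [5, 15]), (true, 17,
    [5, 7]), (true, 17, [5, 6]), (true, 17, [4, 16]), (true, 17, [4, 14]), (true, 17, [4, 6]),
    (true, 17, [3, 15]), (true, 17, [3, 14]), (true, 17, [3, 7]), (true, 17, [3, 6]), (true, 17,
    [3, 4]), (true, 17, [2, 14]), (true, 17, [2, 4]), (true, 17, [2, 3]), (true, 16, [14, 15,
    17]), (true, 17, [5, 15, 16]), (true, 17, [5, 7, 15]), (true, 17, [5, 6, 16]), (true, 17, [5,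
    6, 7]), (true, 17, [4, 14, 16]), (true, 17, [4, 6, 16]), (true, 17, [3, 14, 15]), (true, 17,
    [3, 7, 15]), (true, 17, [3, 6, 7]), (true, 17, [3, 4, 6]), (true, 17, [2, 4, 14]), (true, 17,
    [2, 3, 14]), (true, 17, [2, 3, 4]), (false, 17, [14, 15, 16]), (false, 3, [14, 15, 17]),
    (false, 2, [3, 14, 17]), (false, 4, [2, 3, 17]), (false, 14, [2, 4, 17]), (false, 6, [3, 4,
    17]), (false, 7, [3, 6, 17]), (false, 15, [3, 7, 17]), (false, 16, [4, 6, 17]), (false, 16,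
    [4, 14, 17]), (false, 5, [6, 7, 17]), (false, 16, [5, 6, 17]), (false, 15, [5, 7, 17]),
    (false, 16, [5, 15, 17]), (false, 14, [2, 17]), (false, 15, [3, 17]), (false, 16, [4, 17]),
    (false, 16, [5, 17]), (false, 16, [6, 17]), (false, 15, [7, 17]), (false, 16, [14, 17]),
    (false, 16, [15, 17]), (false, 16, [17]), (true, 16, [0]), (true, 16, [5, 9]), (true, 16, [0,
    15]), (true, 16, [0, 9]), (true, 16, [0, 5]), (true, 16, [0, 9, 15]), (true, 16, [0, 5, 15]),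
    (true, 16, [0, 5, 9]), (true, 0, [5, 9, 15]), (false, 0, [5, 15, 16]), (false, 9, [0, 5, 15]),
    (false, 16, [0, 5, 9]), (false, 16, [0, 9, 15]), (false, 16, [0, 5]), (false, 16, [0, 9]),
    (false, 16, [0, 15]), (false, 9, [15, 16]), (false, 16, [0]), (true, 15, [0]), (true, 15, [3,
    11]), (true, 15, [0, 14]), (true, 15, [0, 11]), (true, 15, [0, 3]), (true, 15, [0, 11, 14]),
    (true, 15, [0, 3, 14]), (true, 15, [0, 3, 11]), (true, 0, [3, 11, 14]), (false, 0, [3, 14,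
    15]), (false, 11, [0, 3, 14]), (false, 15, [0, 3, 11]), (false, 15, [0, 11, 14]), (false, 15,
    [0, 3]), (false, 15, [0, 11]), (false, 15, [0, 14]), (false, 11, [14, 15]), (false, 15, [0]),
    (true, 15, [0]), (true, 15, [10, 11]), (true, 15, [0, 12]), (true, 15, [0, 11]), (true, 15,
    [0, 10]), (true, 15, [0, 11, 12]), (true, 15, [0, 10, 12]), (true, 15, [0, 10, 11]), (true, 0,
    [10, 11, 12]), (false, 0, [10, 12, 15]), (false, 11, [0, 10, 12]), (false, 15, [0, 10, 11]),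
    (false, 15, [0, 11, 12]), (false, 15, [0, 10]), (false, 15, [0, 11]), (false, 15, [0, 12]),
    (false, 11, [12, 15]), (false, 15, [0]), (true, 15, [0]), (true, 15, [3, 10]), (true, 15, [0,
    11]), (true, 15, [0, 10]), (true, 15, [0, 3]), (true, 15, [0, 10, 11]), (true, 15, [0, 3,
    11]), (true, 15, [0, 3, 10]), (true, 0, [3, 10, 11]), (false, 0, [3, 11, 15]), (false, 10, [0,
    3, 11]), (false, 15, [0, 3, 10]), (false, 15, [0, 10, 11]), (false, 15, [0, 3]), (false, 15,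
    [0, 10]), (false, 15, [0, 11]), (false, 10, [11, 15]), (false, 15, [0]), (true, 16, [0]),
    (true, 16, [4, 11]), (true, 16, [0, 14]), (true, 16, [0, 11]), (true, 16, [0, 4]), (true, 16,
    [0, 11, 14]), (true, 16, [0, 4, 14]), (true, 16, [0, 4, 11]), (true, 0, [4, 11, 14]), (false,
    0, [4, 14, 16]), (false, 11, [0, 4, 14]), (false, 16, [0, 4, 11]), (false, 16, [0, 11, 14]),
    (false, 16, [0, 4]), (false, 16, [0, 11]), (false, 16, [0, 14]), (false, 11, [14, 16]),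
    (false, 16, [0]), (true, 16, [0]), (true, 16, [9, 11]), (true, 16, [0, 13]), (true, 16, [0,
    11]), (true, 16, [0, 9]), (true, 16, [0, 11, 13]), (true, 16, [0, 9, 13]), (true, 16, [0, 9,
    11]), (true, 0, [9, 11, 13]), (false, 0, [9, 13, 16]), (false, 11, [0, 9, 13]), (false, 16,
    [0, 9, 11]), (false, 16, [0, 11, 13]), (false, 16, [0, 9]), (false, 16, [0, 11]), (false, 16,
    [0, 13]), (false, 11, [13, 16]), (false, 16, [0]), (true, 15, [0]), (true, 15, [7, 10]),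
    (true, 15, [0, 10]), (true, 15, [0, 7]), (true, 15, [0, 3]), (true, 15, [0, 7, 10]), (true,
    15, [0, 3, 10]), (true, 15, [0, 3, 7]), (true, 0, [3, 7, 10]), (false, 0, [3, 7, 15]), (false,
    10, [0, 3, 7]), (false, 15, [0, 3, 10]), (false, 15, [0, 7, 10]), (false, 15, [0, 3]), (false,
    15, [0, 7]), (false, 15, [0, 10]), (false, 10, [3, 15]), (false, 15, [0]), (true, 14, [0]),
    (true, 14, [2, 11]), (true, 14, [0, 11]), (true, 14, [0, 4]), (true, 14, [0, 2]), (true, 14,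
    [0, 4, 11]), (true, 14, [0, 2, 11]), (true, 14, [0, 2, 4]), (true, 0, [2, 4, 11]), (false, 0,
    [2, 4, 14]), (false, 11, [0, 2, 4]), (false, 14, [0, 2, 11]), (false, 14, [0, 4, 11]), (false,
    14, [0, 2]), (false, 14, [0, 4]), (false, 14, [0, 11]), (false, 11, [4, 14]), (false, 14,
    [0]), (true, 16, [0]), (true, 16, [6, 9]), (true, 16, [0, 9]), (true, 16, [0, 6]), (true, 16,
    [0, 5]), (true, 16, [0, 6, 9]), (true, 16, [0, 5, 9]), (true, 16, [0, 5, 6]), (true, 0, [5, 6,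
    9]), (false, 0, [5, 6, 16]), (false, 9, [0, 5, 6]), (false, 16, [0, 5, 9]), (false, 16, [0, 6,
    9]), (false, 16, [0, 5]), (false, 16, [0, 6]), (false, 16, [0, 9]), (false, 9, [5, 16]),
    (false, 16, [0]), (true, 15, [0]), (true, 15, [5, 10]), (true, 15, [0, 10]), (true, 15, [0,
    7]), (true, 15, [0, 5]), (true, 15, [0, 7, 10]), (true, 15, [0, 5, 10]), (true, 15, [0, 5,
    7]), (true, 0, [5, 7, 10]), (false, 0, [5, 7, 15]), (false, 10, [0, 5, 7]), (false, 15, [0, 5,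
    10]), (false, 15, [0, 7, 10]), (false, 15, [0, 5]), (false, 15, [0, 7]), (false, 15, [0, 10]),
    (false, 10, [7, 15]), (false, 15, [0]), (true, 16, [0]), (true, 16, [6, 11]), (true, 16, [0,
    11]), (true, 16, [0, 6]), (true, 16, [0, 4]), (true, 16, [0, 6, 11]), (true, 16, [0, 4, 11]),
    (true, 16, [0, 4, 6]), (true, 0, [4, 6, 11]), (false, 0, [4, 6, 16]), (false, 11, [0, 4, 6]),
    (false, 16, [0, 4, 11]), (false, 16, [0, 6, 11]), (false, 16, [0, 4]), (false, 16, [0, 6]),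
    (false, 16, [0, 11]), (false, 11, [4, 16]), (false, 16, [0]), (true, 15, [0]), (true, 15, [0,
    10]), (true, 15, [0, 9]), (true, 15, [0, 5]), (true, 15, [0, 9, 10]), (true, 15, [0, 5, 10]),
    (true, 15, [0, 5, 9]), (true, 0, [5, 9, 10]), (false, 0, [5, 9, 15]), (false, 10, [0, 5, 9]),
    (false, 15, [0, 5, 10]), (false, 15, [0, 9, 10]), (false, 15, [0, 5]), (false, 15, [0, 9]),
    (false, 15, [0, 10]), (false, 10, [5, 15]), (false, 10, [9, 15]), (false, 15, [0]), (false,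
    10, [15]), (true, 14, [0]), (true, 14, [0, 11]), (true, 14, [0, 3]), (true, 14, [0, 2]),
    (true, 14, [0, 3, 11]), (true, 14, [0, 2, 11]), (true, 14, [0, 2, 3]), (true, 0, [2, 3, 11]),
    (false, 0, [2, 3, 14]), (false, 11, [0, 2, 3]), (false, 14, [0, 2, 11]), (false, 14, [0, 3,
    11]), (false, 14, [0, 2]), (false, 14, [0, 3]), (false, 14, [0, 11]), (false, 11, [2, 14]),
    (false, 11, [3, 14]), (false, 14, [0]), (false, 11, [14]), (true, 16, [0]), (true, 16, [0,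
    11]), (true, 16, [0, 9]), (true, 16, [0, 6]), (true, 16, [0, 9, 11]), (true, 16, [0, 6, 11]),
    (true, 16, [0, 6, 9]), (true, 0, [6, 9, 11]), (false, 0, [6, 9, 16]), (false, 11, [0, 6, 9]),
    (false, 16, [0, 6, 11]), (false, 16, [0, 9, 11]), (false, 16, [0, 6]), (false, 16, [0, 9]),
    (false, 16, [0, 11]), (false, 11, [6, 16]), (false, 11, [9, 16]), (false, 16, [0]), (false,
    11, [16])]⟩

/-- the cell used -/
def s_assoc1 : List (ℕ × List (List ℕ)) :=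
    [(17, [[2, 3, 4], [5, 6, 7], [3, 7, 6], [3, 6, 4], [14, 15, 16], [14, 4, 2], [14, 2, 3], [14,
    15, 3], [15, 3, 7], [15, 7, 5], [15, 16, 5], [16, 5, 6], [16, 6, 4], [16, 14, 4]])]

theorem c_assoc1_check : c_assoc1.check (envOk 17 (mks 5) s_assoc1) = true := by
  decide +kernel

/-- certificate -/
def c_assoc3 : Crt := ⟨18,
    [[2, 3, 4], [14, 15, 16], [3, 16, 15], [3, 15, 4], [11, 12, 13], [11, 4, 2], [11, 2, 3], [11,
    12, 3], [12, 3, 16], [12, 16, 14], [12, 13, 14], [13, 14, 15], [13, 15, 4], [13, 11, 4]],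
    [[2, 3, 4], [2, 3, 11], [2, 4, 11], [3, 4, 13], [3, 7, 8], [3, 7, 12], [3, 8, 13], [3, 11,
    12], [4, 11, 13], [5, 6, 7], [5, 6, 12], [5, 7, 12], [6, 7, 9], [6, 9, 10], [6, 10, 13], [6,
    12, 13], [7, 8, 9], [8, 9, 10], [8, 10, 13], [11, 12, 13]],
    [(true, 16, [17]), (true, 17, [10]), (true, 17, [9]), (true, 17, [8]), (true, 17, [7]), (true,
    17, [6]), (true, 17, [5]), (true, 16, [15, 17]), (true, 16, [14, 17]), (true, 17, [10, 15]),
    (true, 17, [9, 16]), (true, 17, [9, 10]), (true, 17, [8, 16]), (true, 17, [8, 15]), (true, 17,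
    [8, 10]), (true, 17, [8, 9]), (true, 17, [7, 16]), (true, 17, [7, 14]), (true, 17, [7, 9]),
    (true, 17, [6, 15]), (true, 17, [6, 14]), (true, 17, [6, 10]), (true, 17, [6, 9]), (true, 17,
    [6, 7]), (true, 17, [5, 14]), (true, 17, [5, 7]), (true, 17, [5, 6]), (true, 16, [14, 15,
    17]), (true, 17, [8, 15, 16]), (true, 17, [8, 10, 15]), (true, 17, [8, 9, 16]), (true, 17, [8,
    9, 10]), (true, 17, [7, 14, 16]), (true, 17, [7, 9, 16]), (true, 17, [6, 14, 15]), (true, 17,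
    [6, 10, 15]), (true, 17, [6, 9, 10]), (true, 17, [6, 7, 9]), (true, 17, [5, 7, 14]), (true,
    17, [5, 6, 14]), (true, 17, [5, 6, 7]), (false, 17, [14, 15, 16]), (false, 6, [14, 15, 17]),
    (false, 5, [6, 14, 17]), (false, 7, [5, 6, 17]), (false, 14, [5, 7, 17]), (false, 9, [6, 7,
    17]), (false, 10, [6, 9, 17]), (false, 15, [6, 10, 17]), (false, 16, [7, 9, 17]), (false, 16,
    [7, 14, 17]), (false, 8, [9, 10, 17]), (false, 16, [8, 9, 17]), (false, 15, [8, 10, 17]),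
    (false, 16, [8, 15, 17]), (false, 14, [5, 17]), (false, 15, [6, 17]), (false, 16, [7, 17]),
    (false, 16, [8, 17]), (false, 16, [9, 17]), (false, 15, [10, 17]), (false, 16, [14, 17]),
    (false, 16, [15, 17]), (false, 16, [17]), (true, 15, [0]), (true, 15, [6, 13]), (true, 15, [0,
    14]), (true, 15, [0, 13]), (true, 15, [0, 6]), (true, 15, [0, 13, 14]), (true, 15, [0, 6,
    14]), (true, 15, [0, 6, 13]), (true, 0, [6, 13, 14]), (false, 0, [6, 14, 15]), (false, 13, [0,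
    6, 14]), (false, 15, [0, 6, 13]), (false, 15, [0, 13, 14]), (false, 15, [0, 6]), (false, 15,
    [0, 13]), (false, 15, [0, 14]), (false, 13, [14, 15]), (false, 15, [0]), (true, 16, [0]),
    (true, 16, [7, 12]), (true, 16, [0, 14]), (true, 16, [0, 12]), (true, 16, [0, 7]), (true, 16,
    [0, 12, 14]), (true, 16, [0, 7, 14]), (true, 16, [0, 7, 12]), (true, 0, [7, 12, 14]), (false,
    0, [7, 14, 16]), (false, 12, [0, 7, 14]), (false, 16, [0, 7, 12]), (false, 16, [0, 12, 14]),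
    (false, 16, [0, 7]), (false, 16, [0, 12]), (false, 16, [0, 14]), (false, 12, [14, 16]),
    (false, 16, [0]), (true, 15, [0]), (true, 15, [10, 13]), (true, 15, [0, 13]), (true, 15, [0,
    10]), (true, 15, [0, 6]), (true, 15, [0, 10, 13]), (true, 15, [0, 6, 13]), (true, 15, [0, 6,
    10]), (true, 0, [6, 10, 13]), (false, 0, [6, 10, 15]), (false, 13, [0, 6, 10]), (false, 15,
    [0, 6, 13]), (false, 15, [0, 10, 13]), (false, 15, [0, 6]), (false, 15, [0, 10]), (false, 15,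
    [0, 13]), (false, 13, [6, 15]), (false, 15, [0]), (true, 15, [0]), (true, 15, [3, 13]), (true,
    15, [0, 13]), (true, 15, [0, 4]), (true, 15, [0, 3]), (true, 15, [0, 4, 13]), (true, 15, [0,
    3, 13]), (true, 15, [0, 3, 4]), (true, 0, [3, 4, 13]), (false, 0, [3, 4, 15]), (false, 13, [0,
    3, 4]), (false, 15, [0, 3, 13]), (false, 15, [0, 4, 13]), (false, 15, [0, 3]), (false, 15, [0,
    4]), (false, 15, [0, 13]), (false, 13, [4, 15]), (false, 15, [0]), (true, 14, [0]), (true, 14,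
    [5, 12]), (true, 14, [0, 12]), (true, 14, [0, 7]), (true, 14, [0, 5]), (true, 14, [0, 7, 12]),
    (true, 14, [0, 5, 12]), (true, 14, [0, 5, 7]), (true, 0, [5, 7, 12]), (false, 0, [5, 7, 14]),
    (false, 12, [0, 5, 7]), (false, 14, [0, 5, 12]), (false, 14, [0, 7, 12]), (false, 14, [0, 5]),
    (false, 14, [0, 7]), (false, 14, [0, 12]), (false, 12, [7, 14]), (false, 14, [0]), (true, 16,
    [0]), (true, 16, [3, 7]), (true, 16, [0, 12]), (true, 16, [0, 7]), (true, 16, [0, 3]), (true,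
    16, [0, 7, 12]), (true, 16, [0, 3, 12]), (true, 16, [0, 3, 7]), (true, 0, [3, 7, 12]), (false,
    0, [3, 12, 16]), (false, 7, [0, 3, 12]), (false, 16, [0, 3, 7]), (false, 16, [0, 7, 12]),
    (false, 16, [0, 3]), (false, 16, [0, 7]), (false, 16, [0, 12]), (false, 7, [12, 16]), (false,
    16, [0]), (true, 14, [0]), (true, 14, [6, 12]), (true, 14, [0, 12]), (true, 14, [0, 6]),
    (true, 14, [0, 5]), (true, 14, [0, 6, 12]), (true, 14, [0, 5, 12]), (true, 14, [0, 5, 6]),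
    (true, 0, [5, 6, 12]), (false, 0, [5, 6, 14]), (false, 12, [0, 5, 6]), (false, 14, [0, 5,
    12]), (false, 14, [0, 6, 12]), (false, 14, [0, 5]), (false, 14, [0, 6]), (false, 14, [0, 12]),
    (false, 12, [5, 14]), (false, 14, [0]), (true, 15, [0]), (true, 15, [8, 13]), (true, 15, [0,
    13]), (true, 15, [0, 10]), (true, 15, [0, 8]), (true, 15, [0, 10, 13]), (true, 15, [0, 8,
    13]), (true, 15, [0, 8, 10]), (true, 0, [8, 10, 13]), (false, 0, [8, 10, 15]), (false, 13, [0,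
    8, 10]), (false, 15, [0, 8, 13]), (false, 15, [0, 10, 13]), (false, 15, [0, 8]), (false, 15,
    [0, 10]), (false, 15, [0, 13]), (false, 13, [10, 15]), (false, 15, [0]), (true, 16, [0]),
    (true, 16, [3, 8]), (true, 16, [0, 15]), (true, 16, [0, 8]), (true, 16, [0, 3]), (true, 16,
    [0, 8, 15]), (true, 16, [0, 3, 15]), (true, 16, [0, 3, 8]), (true, 0, [3, 8, 15]), (false, 0,
    [3, 15, 16]), (false, 8, [0, 3, 15]), (false, 16, [0, 3, 8]), (false, 16, [0, 8, 15]), (false,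
    16, [0, 3]), (false, 16, [0, 8]), (false, 16, [0, 15]), (false, 8, [15, 16]), (false, 16,
    [0]), (true, 16, [0]), (true, 16, [7, 8]), (true, 16, [0, 8]), (true, 16, [0, 7]), (true, 16,
    [0, 3]), (true, 16, [0, 7, 8]), (true, 16, [0, 3, 8]), (true, 16, [0, 3, 7]), (true, 0, [3, 7,
    8]), (false, 0, [3, 7, 16]), (false, 8, [0, 3, 7]), (false, 16, [0, 3, 8]), (false, 16, [0, 7,
    8]), (false, 16, [0, 3]), (false, 16, [0, 7]), (false, 16, [0, 8]), (false, 8, [3, 16]),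
    (false, 16, [0]), (true, 14, [0]), (true, 14, [0, 13]), (true, 14, [0, 12]), (true, 14, [0,
    6]), (true, 14, [0, 12, 13]), (true, 14, [0, 6, 13]), (true, 14, [0, 6, 12]), (true, 0, [6,
    12, 13]), (false, 0, [6, 12, 14]), (false, 13, [0, 6, 12]), (false, 14, [0, 6, 13]), (false,
    14, [0, 12, 13]), (false, 14, [0, 6]), (false, 14, [0, 12]), (false, 14, [0, 13]), (false, 13,
    [6, 14]), (false, 13, [12, 14]), (false, 14, [0]), (false, 13, [14]), (true, 16, [0]), (true,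
    16, [0, 9]), (true, 16, [0, 8]), (true, 16, [0, 7]), (true, 16, [0, 8, 9]), (true, 16, [0, 7,
    9]), (true, 16, [0, 7, 8]), (true, 0, [7, 8, 9]), (false, 0, [7, 8, 16]), (false, 9, [0, 7,
    8]), (false, 16, [0, 7, 9]), (false, 16, [0, 8, 9]), (false, 16, [0, 7]), (false, 16, [0, 8]),
    (false, 16, [0, 9]), (false, 9, [7, 16]), (false, 9, [8, 16]), (false, 16, [0]), (false, 9,
    [16]), (true, 15, [0]), (true, 15, [0, 13]), (true, 15, [0, 8]), (true, 15, [0, 3]), (true,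
    15, [0, 8, 13]), (true, 15, [0, 3, 13]), (true, 15, [0, 3, 8]), (true, 0, [3, 8, 13]), (false,
    0, [3, 8, 15]), (false, 13, [0, 3, 8]), (false, 15, [0, 3, 13]), (false, 15, [0, 8, 13]),
    (false, 15, [0, 3]), (false, 15, [0, 8]), (false, 15, [0, 13]), (false, 13, [3, 15]), (false,
    13, [8, 15]), (false, 15, [0]), (false, 13, [15])]⟩

/-- the cell used -/
def s_assoc3 : List (ℕ × List (List ℕ)) :=
    [(17, [[5, 6, 7], [8, 9, 10], [6, 10, 9], [6, 9, 7], [14, 15, 16], [14, 7, 5], [14, 5, 6],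
    [14, 15, 6], [15, 6, 10], [15, 10, 8], [15, 16, 8], [16, 8, 9], [16, 9, 7], [16, 14, 7]])]

theorem c_assoc3_check : c_assoc3.check (envOk 17 (mks 5) s_assoc3) = true := by
  decide +kernel

/-- certificate -/
def c_assoc2 : Crt := ⟨14,
    [[2, 3, 4], [2, 3, 11], [2, 4, 11], [3, 4, 6], [3, 6, 7], [3, 7, 10], [3, 10, 11], [4, 6, 11],
    [5, 6, 7], [5, 6, 9], [5, 7, 10], [5, 9, 10], [6, 9, 11], [8, 9, 10], [8, 9, 13], [8, 10, 12],
    [8, 12, 13], [9, 11, 13], [10, 11, 12], [11, 12, 13]],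
    [[2, 3, 4], [2, 3, 11], [2, 4, 11], [3, 4, 13], [3, 7, 8], [3, 7, 12], [3, 8, 13], [3, 11,
    12], [4, 11, 13], [5, 6, 7], [5, 6, 12], [5, 7, 12], [6, 7, 9], [6, 9, 10], [6, 10, 13], [6,
    12, 13], [7, 8, 9], [8, 9, 10], [8, 10, 13], [11, 12, 13]],
    [(true, 12, [0]), (true, 11, [3, 12]), (true, 12, [0, 11]), (true, 12, [0, 10]), (true, 12,
    [0, 3]), (true, 12, [0, 10, 11]), (true, 12, [0, 3, 11]), (true, 11, [0, 3, 10]), (true, 0,
    [3, 10, 12]), (false, 0, [3, 10, 11]), (false, 12, [0, 3, 10]), (false, 12, [0, 3, 11]),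
    (false, 12, [0, 10, 11]), (false, 12, [0, 3]), (false, 12, [0, 10]), (false, 12, [0, 11]),
    (false, 12, [10, 11]), (false, 12, [0]), (true, 12, [0]), (true, 10, [7, 12]), (true, 12, [0,
    10]), (true, 12, [0, 7]), (true, 12, [0, 3]), (true, 12, [0, 7, 10]), (true, 12, [0, 3, 10]),
    (true, 10, [0, 3, 7]), (true, 0, [3, 7, 12]), (false, 0, [3, 7, 10]), (false, 12, [0, 3, 7]),
    (false, 12, [0, 3, 10]), (false, 12, [0, 7, 10]), (false, 12, [0, 3]), (false, 12, [0, 7]),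
    (false, 12, [0, 10]), (false, 12, [3, 10]), (false, 12, [0]), (true, 13, [0]), (true, 11, [6,
    13]), (true, 13, [0, 11]), (true, 13, [0, 9]), (true, 13, [0, 6]), (true, 13, [0, 9, 11]),
    (true, 13, [0, 6, 11]), (true, 11, [0, 6, 9]), (true, 0, [6, 9, 13]), (false, 0, [6, 9, 11]),
    (false, 13, [0, 6, 9]), (false, 13, [0, 6, 11]), (false, 13, [0, 9, 11]), (false, 13, [0, 6]),
    (false, 13, [0, 9]), (false, 13, [0, 11]), (false, 13, [9, 11]), (false, 13, [0]), (true, 13,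
    [0]), (true, 11, [4, 13]), (true, 13, [0, 11]), (true, 13, [0, 6]), (true, 13, [0, 4]), (true,
    13, [0, 6, 11]), (true, 13, [0, 4, 11]), (true, 11, [0, 4, 6]), (true, 0, [4, 6, 13]), (false,
    0, [4, 6, 11]), (false, 13, [0, 4, 6]), (false, 13, [0, 4, 11]), (false, 13, [0, 6, 11]),
    (false, 13, [0, 4]), (false, 13, [0, 6]), (false, 13, [0, 11]), (false, 13, [6, 11]), (false,
    13, [0]), (true, 13, [0]), (true, 6, [3, 13]), (true, 13, [0, 6]), (true, 13, [0, 4]), (true,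
    13, [0, 3]), (true, 13, [0, 4, 6]), (true, 13, [0, 3, 6]), (true, 6, [0, 3, 4]), (true, 0, [3,
    4, 13]), (false, 0, [3, 4, 6]), (false, 13, [0, 3, 4]), (false, 13, [0, 3, 6]), (false, 13,
    [0, 4, 6]), (false, 13, [0, 3]), (false, 13, [0, 4]), (false, 13, [0, 6]), (false, 13, [4,
    6]), (false, 13, [0]), (true, 13, [0]), (true, 13, [6, 8]), (true, 13, [0, 9]), (true, 13, [0,
    8]), (true, 13, [0, 6]), (true, 13, [0, 8, 9]), (true, 13, [0, 6, 9]), (true, 13, [0, 6, 8]),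
    (true, 0, [6, 8, 9]), (false, 0, [6, 9, 13]), (false, 8, [0, 6, 9]), (false, 13, [0, 6, 8]),
    (false, 13, [0, 8, 9]), (false, 13, [0, 6]), (false, 13, [0, 8]), (false, 13, [0, 9]), (false,
    8, [9, 13]), (false, 13, [0]), (true, 13, [0]), (true, 13, [3, 8]), (true, 13, [0, 8]), (true,
    13, [0, 6]), (true, 13, [0, 3]), (true, 13, [0, 6, 8]), (true, 13, [0, 3, 8]), (true, 13, [0,
    3, 6]), (true, 0, [3, 6, 8]), (false, 0, [3, 6, 13]), (false, 8, [0, 3, 6]), (false, 13, [0,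
    3, 8]), (false, 13, [0, 6, 8]), (false, 13, [0, 3]), (false, 13, [0, 6]), (false, 13, [0, 8]),
    (false, 8, [6, 13]), (false, 13, [0]), (true, 13, [0]), (true, 12, [10, 13]), (true, 13, [0,
    12]), (true, 13, [0, 10]), (true, 13, [0, 8]), (true, 13, [0, 10, 12]), (true, 13, [0, 8,
    12]), (true, 12, [0, 8, 10]), (true, 0, [8, 10, 13]), (false, 0, [8, 10, 12]), (false, 13, [0,
    8, 10]), (false, 13, [0, 8, 12]), (false, 13, [0, 10, 12]), (false, 13, [0, 8]), (false, 13,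
    [0, 10]), (false, 13, [0, 12]), (false, 13, [8, 12]), (false, 13, [0]), (true, 10, [0]),
    (true, 9, [6, 10]), (true, 10, [0, 9]), (true, 10, [0, 6]), (true, 10, [0, 5]), (true, 10, [0,
    6, 9]), (true, 10, [0, 5, 9]), (true, 9, [0, 5, 6]), (true, 0, [5, 6, 10]), (false, 0, [5, 6,
    9]), (false, 10, [0, 5, 6]), (false, 10, [0, 5, 9]), (false, 10, [0, 6, 9]), (false, 10, [0,
    5]), (false, 10, [0, 6]), (false, 10, [0, 9]), (false, 10, [5, 9]), (false, 10, [0]), (true,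
    12, [0]), (true, 10, [5, 12]), (true, 12, [0, 10]), (true, 12, [0, 7]), (true, 12, [0, 5]),
    (true, 12, [0, 7, 10]), (true, 12, [0, 5, 10]), (true, 10, [0, 5, 7]), (true, 0, [5, 7, 12]),
    (false, 0, [5, 7, 10]), (false, 12, [0, 5, 7]), (false, 12, [0, 5, 10]), (false, 12, [0, 7,
    10]), (false, 12, [0, 5]), (false, 12, [0, 7]), (false, 12, [0, 10]), (false, 12, [7, 10]),
    (false, 12, [0]), (true, 8, [0]), (true, 6, [7, 8]), (true, 8, [0, 7]), (true, 8, [0, 6]),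
    (true, 8, [0, 3]), (true, 8, [0, 6, 7]), (true, 8, [0, 3, 6]), (true, 6, [0, 3, 7]), (true, 0,
    [3, 7, 8]), (false, 0, [3, 6, 7]), (false, 8, [0, 3, 6]), (false, 8, [0, 3, 7]), (false, 8,
    [0, 6, 7]), (false, 8, [0, 3]), (false, 8, [0, 6]), (false, 8, [0, 7]), (false, 8, [3, 6]),
    (false, 8, [0]), (true, 12, [0]), (true, 10, [6, 12]), (true, 12, [0, 10]), (true, 12, [0,
    6]), (true, 12, [0, 5]), (true, 12, [0, 6, 10]), (true, 12, [0, 5, 10]), (true, 10, [0, 5,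
    6]), (true, 0, [5, 6, 12]), (false, 0, [5, 6, 10]), (false, 12, [0, 5, 6]), (false, 12, [0, 5,
    10]), (false, 12, [0, 6, 10]), (false, 12, [0, 5]), (false, 12, [0, 6]), (false, 12, [0, 10]),
    (false, 12, [5, 10]), (false, 12, [0]), (true, 13, [0]), (true, 12, [6, 13]), (true, 13, [0,
    12]), (true, 13, [0, 10]), (true, 13, [0, 6]), (true, 13, [0, 10, 12]), (true, 13, [0, 6,
    12]), (true, 12, [0, 6, 10]), (true, 0, [6, 10, 13]), (false, 0, [6, 10, 12]), (false, 13, [0,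
    6, 10]), (false, 13, [0, 6, 12]), (false, 13, [0, 10, 12]), (false, 13, [0, 6]), (false, 13,
    [0, 10]), (false, 13, [0, 12]), (false, 13, [10, 12]), (false, 13, [0]), (true, 9, [0]),
    (true, 8, [7, 9]), (true, 9, [0, 8]), (true, 9, [0, 7]), (true, 9, [0, 6]), (true, 9, [0, 7,
    8]), (true, 9, [0, 6, 8]), (true, 8, [0, 6, 7]), (true, 0, [6, 7, 9]), (false, 0, [6, 7, 8]),
    (false, 9, [0, 6, 7]), (false, 9, [0, 6, 8]), (false, 9, [0, 7, 8]), (false, 9, [0, 6]),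
    (false, 9, [0, 7]), (false, 9, [0, 8]), (false, 9, [6, 8]), (false, 9, [0])]⟩

theorem c_assoc2_check : c_assoc2.check (envOk 14 (mks 4) []) = true := by
  decide +kernel

/-- certificate -/
def c_tetA0 : Crt := ⟨19,
    [[2, 3, 4], [2, 3, 5], [2, 4, 5], [3, 4, 5]],
    [[2, 3, 4], [2, 3, 5], [2, 4, 5], [3, 4, 6], [3, 5, 8], [3, 6, 8], [4, 5, 7], [4, 6, 7], [5,
    7, 8], [6, 7, 8]],
    [(true, 5, [18]), (true, 18, [8]), (true, 18, [7]), (true, 18, [6]), (true, 18, [7, 8]),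
    (true, 18, [6, 8]), (true, 18, [6, 7]), (true, 18, [5, 8]), (true, 18, [5, 7]), (true, 5, [4,
    18]), (true, 18, [4, 7]), (true, 18, [4, 6]), (true, 5, [3, 18]), (true, 18, [3, 8]), (true,
    18, [3, 6]), (true, 18, [6, 7, 8]), (true, 18, [5, 7, 8]), (true, 18, [4, 6, 7]), (true, 18,
    [4, 5, 7]), (true, 18, [3, 6, 8]), (true, 18, [3, 5, 8]), (true, 5, [3, 4, 18]), (true, 18,
    [3, 4, 6]), (false, 18, [3, 4, 5]), (false, 6, [3, 4, 18]), (false, 8, [3, 5, 18]), (false, 8,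
    [3, 6, 18]), (false, 7, [4, 5, 18]), (false, 7, [4, 6, 18]), (false, 8, [5, 7, 18]), (false,
    8, [6, 7, 18]), (false, 8, [3, 18]), (false, 7, [4, 18]), (false, 8, [5, 18]), (false, 8, [6,
    18]), (false, 8, [7, 18]), (false, 8, [18])]⟩

/-- the cell used -/
def s_tetA0 : List (ℕ × List (List ℕ)) :=
    [(18, [[3, 4, 5], [6, 7, 8], [3, 4, 6], [4, 6, 7], [4, 5, 7], [5, 7, 8], [5, 3, 8], [3, 8,
    6]])]

theorem c_tetA0_check : c_tetA0.check (envOk 18 [[3, 4, 5], [2, 4, 5], [2, 3, 5], [2, 3, 4], [6, 7, 8], [9, 10, 11], [12, 13, 14], [15, 16, 17]] s_tetA0) = true := by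
  decide +kernel

/-- certificate -/
def c_tetA1 : Crt := ⟨19,
    [[2, 3, 4], [2, 3, 5], [2, 4, 5], [3, 4, 6], [3, 5, 8], [3, 6, 8], [4, 5, 7], [4, 6, 7], [5,
    7, 8], [6, 7, 8]],
    [[2, 3, 4], [2, 3, 5], [2, 4, 9], [2, 5, 11], [2, 9, 11], [3, 4, 6], [3, 5, 8], [3, 6, 8], [4,
    5, 7], [4, 5, 10], [4, 6, 7], [4, 9, 10], [5, 7, 8], [5, 10, 11], [6, 7, 8], [9, 10, 11]],
    [(true, 5, [18]), (true, 18, [11]), (true, 18, [10]), (true, 18, [9]), (true, 18, [10, 11]),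
    (true, 18, [9, 11]), (true, 18, [9, 10]), (true, 18, [5, 11]), (true, 18, [5, 10]), (true, 5,
    [4, 18]), (true, 18, [4, 10]), (true, 18, [4, 9]), (true, 5, [2, 18]), (true, 18, [2, 11]),
    (true, 18, [2, 9]), (true, 18, [9, 10, 11]), (true, 18, [5, 10, 11]), (true, 18, [4, 9, 10]),
    (true, 18, [4, 5, 10]), (true, 18, [2, 9, 11]), (true, 18, [2, 5, 11]), (true, 5, [2, 4, 18]),
    (true, 18, [2, 4, 9]), (false, 18, [2, 4, 5]), (false, 9, [2, 4, 18]), (false, 11, [2, 5,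
    18]), (false, 11, [2, 9, 18]), (false, 10, [4, 5, 18]), (false, 10, [4, 9, 18]), (false, 11,
    [5, 10, 18]), (false, 11, [9, 10, 18]), (false, 11, [2, 18]), (false, 10, [4, 18]), (false,
    11, [5, 18]), (false, 11, [9, 18]), (false, 11, [10, 18]), (false, 11, [18])]⟩

/-- the cell used -/
def s_tetA1 : List (ℕ × List (List ℕ)) :=
    [(18, [[2, 4, 5], [9, 10, 11], [2, 4, 9], [4, 9, 10], [4, 5, 10], [5, 10, 11], [5, 2, 11], [2,
    11, 9]])]

theorem c_tetA1_check : c_tetA1.check (envOk 18 [[3, 4, 5], [2, 4, 5], [2, 3, 5], [2, 3, 4], [6, 7, 8], [9, 10, 11], [12, 13, 14], [15, 16, 17]] s_tetA1) = true := by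
  decide +kernel

/-- certificate -/
def c_tetA2 : Crt := ⟨19,
    [[2, 3, 4], [2, 3, 5], [2, 4, 9], [2, 5, 11], [2, 9, 11], [3, 4, 6], [3, 5, 8], [3, 6, 8], [4,
    5, 7], [4, 5, 10], [4, 6, 7], [4, 9, 10], [5, 7, 8], [5, 10, 11], [6, 7, 8], [9, 10, 11]],
    [[2, 3, 4], [2, 3, 12], [2, 4, 9], [2, 5, 11], [2, 5, 14], [2, 9, 11], [2, 12, 14], [3, 4, 6],
    [3, 5, 8], [3, 5, 13], [3, 6, 8], [3, 12, 13], [4, 5, 7], [4, 5, 10], [4, 6, 7], [4, 9, 10],
    [5, 7, 8], [5, 10, 11], [5, 13, 14], [6, 7, 8], [9, 10, 11], [12, 13, 14]],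
    [(true, 5, [18]), (true, 18, [14]), (true, 18, [13]), (true, 18, [12]), (true, 18, [13, 14]),
    (true, 18, [12, 14]), (true, 18, [12, 13]), (true, 18, [5, 14]), (true, 18, [5, 13]), (true,
    5, [3, 18]), (true, 18, [3, 13]), (true, 18, [3, 12]), (true, 5, [2, 18]), (true, 18, [2,
    14]), (true, 18, [2, 12]), (true, 18, [12, 13, 14]), (true, 18, [5, 13, 14]), (true, 18, [3,
    12, 13]), (true, 18, [3, 5, 13]), (true, 18, [2, 12, 14]), (true, 18, [2, 5, 14]), (true, 5,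
    [2, 3, 18]), (true, 18, [2, 3, 12]), (false, 18, [2, 3, 5]), (false, 12, [2, 3, 18]), (false,
    14, [2, 5, 18]), (false, 14, [2, 12, 18]), (false, 13, [3, 5, 18]), (false, 13, [3, 12, 18]),
    (false, 14, [5, 13, 18]), (false, 14, [12, 13, 18]), (false, 14, [2, 18]), (false, 13, [3,
    18]), (false, 14, [5, 18]), (false, 14, [12, 18]), (false, 14, [13, 18]), (false, 14, [18])]⟩

/-- the cell used -/
def s_tetA2 : List (ℕ × List (List ℕ)) :=
    [(18, [[2, 3, 5], [12, 13, 14], [2, 3, 12], [3, 12, 13], [3, 5, 13], [5, 13, 14], [5, 2, 14],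
    [2, 14, 12]])]

theorem c_tetA2_check : c_tetA2.check (envOk 18 [[3, 4, 5], [2, 4, 5], [2, 3, 5], [2, 3, 4], [6, 7, 8], [9, 10, 11], [12, 13, 14], [15, 16, 17]] s_tetA2) = true := by
  decide +kernel

/-- certificate -/
def c_tetA3 : Crt := ⟨19,
    [[2, 3, 4], [2, 3, 12], [2, 4, 9], [2, 5, 11], [2, 5, 14], [2, 9, 11], [2, 12, 14], [3, 4, 6],
    [3, 5, 8], [3, 5, 13], [3, 6, 8], [3, 12, 13], [4, 5, 7], [4, 5, 10], [4, 6, 7], [4, 9, 10],
    [5, 7, 8], [5, 10, 11], [5, 13, 14], [6, 7, 8], [9, 10, 11], [12, 13, 14]],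
    [[2, 3, 12], [2, 3, 15], [2, 4, 9], [2, 4, 17], [2, 5, 11], [2, 5, 14], [2, 9, 11], [2, 12,
    14], [2, 15, 17], [3, 4, 6], [3, 4, 16], [3, 5, 8], [3, 5, 13], [3, 6, 8], [3, 12, 13], [3,
    15, 16], [4, 5, 7], [4, 5, 10], [4, 6, 7], [4, 9, 10], [4, 16, 17], [5, 7, 8], [5, 10, 11],
    [5, 13, 14], [6, 7, 8], [9, 10, 11], [12, 13, 14], [15, 16, 17]],
    [(true, 4, [18]), (true, 18, [17]), (true, 18, [16]), (true, 18, [15]), (true, 18, [16, 17]),
    (true, 18, [15, 17]), (true, 18, [15, 16]), (true, 18, [4, 17]), (true, 18, [4, 16]), (true,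
    4, [3, 18]), (true, 18, [3, 16]), (true, 18, [3, 15]), (true, 4, [2, 18]), (true, 18, [2,
    17]), (true, 18, [2, 15]), (true, 18, [15, 16, 17]), (true, 18, [4, 16, 17]), (true, 18, [3,
    15, 16]), (true, 18, [3, 4, 16]), (true, 18, [2, 15, 17]), (true, 18, [2, 4, 17]), (true, 4,
    [2, 3, 18]), (true, 18, [2, 3, 15]), (false, 18, [2, 3, 4]), (false, 15, [2, 3, 18]), (false,
    17, [2, 4, 18]), (false, 17, [2, 15, 18]), (false, 16, [3, 4, 18]), (false, 16, [3, 15, 18]),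
    (false, 17, [4, 16, 18]), (false, 17, [15, 16, 18]), (false, 17, [2, 18]), (false, 16, [3,
    18]), (false, 17, [4, 18]), (false, 17, [15, 18]), (false, 17, [16, 18]), (false, 17, [18])]⟩

/-- the cell used -/
def s_tetA3 : List (ℕ × List (List ℕ)) :=
    [(18, [[2, 3, 4], [15, 16, 17], [2, 3, 15], [3, 15, 16], [3, 4, 16], [4, 16, 17], [4, 2, 17],
    [2, 17, 15]])]

theorem c_tetA3_check : c_tetA3.check (envOk 18 [[3, 4, 5], [2, 4, 5], [2, 3, 5], [2, 3, 4], [6, 7, 8], [9, 10, 11], [12, 13, 14], [15, 16, 17]] s_tetA3) = true := by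
  decide +kernel

/-- certificate -/
def c_tetB : Crt := ⟨18,
    [[2, 3, 12], [2, 3, 15], [2, 4, 9], [2, 4, 17], [2, 5, 11], [2, 5, 14], [2, 9, 11], [2, 12,
    14], [2, 15, 17], [3, 4, 6], [3, 4, 16], [3, 5, 8], [3, 5, 13], [3, 6, 8], [3, 12, 13], [3,
    15, 16], [4, 5, 7], [4, 5, 10], [4, 6, 7], [4, 9, 10], [4, 16, 17], [5, 7, 8], [5, 10, 11],
    [5, 13, 14], [6, 7, 8], [9, 10, 11], [12, 13, 14], [15, 16, 17]],
    [[6, 7, 8], [6, 7, 17], [6, 8, 15], [6, 15, 16], [6, 16, 17], [7, 8, 14], [7, 9, 10], [7, 9,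
    17], [7, 10, 14], [8, 12, 13], [8, 12, 15], [8, 13, 14], [9, 10, 11], [9, 11, 17], [10, 11,
    14], [11, 14, 17], [12, 13, 14], [12, 14, 15], [14, 15, 17], [15, 16, 17]],
    [(true, 16, [0]), (true, 4, [6, 16]), (true, 16, [0, 6]), (true, 16, [0, 4]), (true, 16, [0,
    3]), (true, 16, [0, 4, 6]), (true, 16, [0, 3, 4]), (true, 4, [0, 3, 6]), (true, 0, [3, 6,
    16]), (false, 0, [3, 4, 6]), (false, 16, [0, 3, 4]), (false, 16, [0, 3, 6]), (false, 16, [0,
    4, 6]), (false, 16, [0, 3]), (false, 16, [0, 4]), (false, 16, [0, 6]), (false, 16, [3, 4]),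
    (false, 16, [0]), (true, 17, [0]), (true, 16, [6, 17]), (true, 17, [0, 16]), (true, 17, [0,
    6]), (true, 17, [0, 4]), (true, 17, [0, 6, 16]), (true, 17, [0, 4, 16]), (true, 16, [0, 4,
    6]), (true, 0, [4, 6, 17]), (false, 0, [4, 6, 16]), (false, 17, [0, 4, 6]), (false, 17, [0, 4,
    16]), (false, 17, [0, 6, 16]), (false, 17, [0, 4]), (false, 17, [0, 6]), (false, 17, [0, 16]),
    (false, 17, [4, 16]), (false, 17, [0]), (true, 16, [0]), (true, 16, [6, 15]), (true, 16, [0,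
    15]), (true, 16, [0, 6]), (true, 16, [0, 3]), (true, 16, [0, 6, 15]), (true, 16, [0, 3, 15]),
    (true, 16, [0, 3, 6]), (true, 0, [3, 6, 15]), (false, 0, [3, 6, 16]), (false, 15, [0, 3, 6]),
    (false, 16, [0, 3, 15]), (false, 16, [0, 6, 15]), (false, 16, [0, 3]), (false, 16, [0, 6]),
    (false, 16, [0, 15]), (false, 15, [3, 16]), (false, 16, [0]), (true, 15, [0]), (true, 6, [8,
    15]), (true, 15, [0, 8]), (true, 15, [0, 6]), (true, 15, [0, 3]), (true, 15, [0, 6, 8]),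
    (true, 15, [0, 3, 6]), (true, 6, [0, 3, 8]), (true, 0, [3, 8, 15]), (false, 0, [3, 6, 8]),
    (false, 15, [0, 3, 6]), (false, 15, [0, 3, 8]), (false, 15, [0, 6, 8]), (false, 15, [0, 3]),
    (false, 15, [0, 6]), (false, 15, [0, 8]), (false, 15, [3, 6]), (false, 15, [0]), (true, 17,
    [0]), (true, 6, [7, 17]), (true, 17, [0, 7]), (true, 17, [0, 6]), (true, 17, [0, 4]), (true,
    17, [0, 6, 7]), (true, 17, [0, 4, 6]), (true, 6, [0, 4, 7]), (true, 0, [4, 7, 17]), (false, 0,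
    [4, 6, 7]), (false, 17, [0, 4, 6]), (false, 17, [0, 4, 7]), (false, 17, [0, 6, 7]), (false,
    17, [0, 4]), (false, 17, [0, 6]), (false, 17, [0, 7]), (false, 17, [4, 6]), (false, 17, [0]),
    (true, 13, [0]), (true, 5, [8, 13]), (true, 13, [0, 8]), (true, 13, [0, 5]), (true, 13, [0,
    3]), (true, 13, [0, 5, 8]), (true, 13, [0, 3, 5]), (true, 5, [0, 3, 8]), (true, 0, [3, 8,
    13]), (false, 0, [3, 5, 8]), (false, 13, [0, 3, 5]), (false, 13, [0, 3, 8]), (false, 13, [0,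
    5, 8]), (false, 13, [0, 3]), (false, 13, [0, 5]), (false, 13, [0, 8]), (false, 13, [3, 5]),
    (false, 13, [0]), (true, 13, [0]), (true, 13, [8, 12]), (true, 13, [0, 12]), (true, 13, [0,
    8]), (true, 13, [0, 3]), (true, 13, [0, 8, 12]), (true, 13, [0, 3, 12]), (true, 13, [0, 3,
    8]), (true, 0, [3, 8, 12]), (false, 0, [3, 8, 13]), (false, 12, [0, 3, 8]), (false, 13, [0, 3,
    12]), (false, 13, [0, 8, 12]), (false, 13, [0, 3]), (false, 13, [0, 8]), (false, 13, [0, 12]),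
    (false, 12, [3, 13]), (false, 13, [0]), (true, 14, [0]), (true, 13, [8, 14]), (true, 14, [0,
    13]), (true, 14, [0, 8]), (true, 14, [0, 5]), (true, 14, [0, 8, 13]), (true, 14, [0, 5, 13]),
    (true, 13, [0, 5, 8]), (true, 0, [5, 8, 14]), (false, 0, [5, 8, 13]), (false, 14, [0, 5, 8]),
    (false, 14, [0, 5, 13]), (false, 14, [0, 8, 13]), (false, 14, [0, 5]), (false, 14, [0, 8]),
    (false, 14, [0, 13]), (false, 14, [5, 13]), (false, 14, [0]), (true, 14, [0]), (true, 8, [7,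
    14]), (true, 14, [0, 8]), (true, 14, [0, 7]), (true, 14, [0, 5]), (true, 14, [0, 7, 8]),
    (true, 14, [0, 5, 8]), (true, 8, [0, 5, 7]), (true, 0, [5, 7, 14]), (false, 0, [5, 7, 8]),
    (false, 14, [0, 5, 7]), (false, 14, [0, 5, 8]), (false, 14, [0, 7, 8]), (false, 14, [0, 5]),
    (false, 14, [0, 7]), (false, 14, [0, 8]), (false, 14, [5, 8]), (false, 14, [0]), (true, 15,
    [0]), (true, 8, [12, 15]), (true, 15, [0, 12]), (true, 15, [0, 8]), (true, 15, [0, 3]), (true,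
    15, [0, 8, 12]), (true, 15, [0, 3, 8]), (true, 8, [0, 3, 12]), (true, 0, [3, 12, 15]), (false,
    0, [3, 8, 12]), (false, 15, [0, 3, 8]), (false, 15, [0, 3, 12]), (false, 15, [0, 8, 12]),
    (false, 15, [0, 3]), (false, 15, [0, 8]), (false, 15, [0, 12]), (false, 15, [3, 8]), (false,
    15, [0]), (true, 15, [0]), (true, 15, [0, 12]), (true, 15, [0, 3]), (true, 15, [0, 2]), (true,
    15, [0, 3, 12]), (true, 15, [0, 2, 3]), (true, 3, [0, 2, 12]), (true, 0, [2, 12, 15]), (false,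
    0, [2, 3, 12]), (false, 15, [0, 2, 3]), (false, 15, [0, 2, 12]), (false, 15, [0, 3, 12]),
    (false, 15, [0, 2]), (false, 15, [0, 3]), (false, 15, [0, 12]), (false, 15, [2, 3]), (false,
    15, [3, 12]), (false, 15, [0]), (false, 15, [3]), (true, 15, [0]), (true, 12, [14, 15]),
    (true, 15, [0, 14]), (true, 15, [0, 12]), (true, 15, [0, 2]), (true, 15, [0, 12, 14]), (true,
    15, [0, 2, 12]), (true, 12, [0, 2, 14]), (true, 0, [2, 14, 15]), (false, 0, [2, 12, 14]),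
    (false, 15, [0, 2, 12]), (false, 15, [0, 2, 14]), (false, 15, [0, 12, 14]), (false, 15, [0,
    2]), (false, 15, [0, 12]), (false, 15, [0, 14]), (false, 15, [2, 12]), (false, 15, [0]),
    (true, 17, [0]), (true, 15, [14, 17]), (true, 17, [0, 15]), (true, 17, [0, 14]), (true, 17,
    [0, 2]), (true, 17, [0, 14, 15]), (true, 17, [0, 2, 15]), (true, 15, [0, 2, 14]), (true, 0,
    [2, 14, 17]), (false, 0, [2, 14, 15]), (false, 17, [0, 2, 14]), (false, 17, [0, 2, 15]),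
    (false, 17, [0, 14, 15]), (false, 17, [0, 2]), (false, 17, [0, 14]), (false, 17, [0, 15]),
    (false, 17, [2, 15]), (false, 17, [0]), (true, 10, [0]), (true, 5, [7, 10]), (true, 10, [0,
    7]), (true, 10, [0, 5]), (true, 10, [0, 4]), (true, 10, [0, 5, 7]), (true, 10, [0, 4, 5]),
    (true, 5, [0, 4, 7]), (true, 0, [4, 7, 10]), (false, 0, [4, 5, 7]), (false, 10, [0, 4, 5]),
    (false, 10, [0, 4, 7]), (false, 10, [0, 5, 7]), (false, 10, [0, 4]), (false, 10, [0, 5]),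
    (false, 10, [0, 7]), (false, 10, [4, 5]), (false, 10, [0]), (true, 10, [0]), (true, 10, [7,
    9]), (true, 10, [0, 9]), (true, 10, [0, 7]), (true, 10, [0, 4]), (true, 10, [0, 7, 9]), (true,
    10, [0, 4, 9]), (true, 10, [0, 4, 7]), (true, 0, [4, 7, 9]), (false, 0, [4, 7, 10]), (false,
    9, [0, 4, 7]), (false, 10, [0, 4, 9]), (false, 10, [0, 7, 9]), (false, 10, [0, 4]), (false,
    10, [0, 7]), (false, 10, [0, 9]), (false, 9, [4, 10]), (false, 10, [0]), (true, 17, [0]),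
    (true, 7, [9, 17]), (true, 17, [0, 9]), (true, 17, [0, 7]), (true, 17, [0, 4]), (true, 17, [0,
    7, 9]), (true, 17, [0, 4, 7]), (true, 7, [0, 4, 9]), (true, 0, [4, 9, 17]), (false, 0, [4, 7,
    9]), (false, 17, [0, 4, 7]), (false, 17, [0, 4, 9]), (false, 17, [0, 7, 9]), (false, 17, [0,
    4]), (false, 17, [0, 7]), (false, 17, [0, 9]), (false, 17, [4, 7]), (false, 17, [0]), (true,
    17, [0]), (true, 17, [0, 9]), (true, 17, [0, 4]), (true, 17, [0, 2]), (true, 17, [0, 4, 9]),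
    (true, 17, [0, 2, 4]), (true, 4, [0, 2, 9]), (true, 0, [2, 9, 17]), (false, 0, [2, 4, 9]),
    (false, 17, [0, 2, 4]), (false, 17, [0, 2, 9]), (false, 17, [0, 4, 9]), (false, 17, [0, 2]),
    (false, 17, [0, 4]), (false, 17, [0, 9]), (false, 17, [2, 4]), (false, 17, [4, 9]), (false,
    17, [0]), (false, 17, [4]), (true, 17, [0]), (true, 9, [11, 17]), (true, 17, [0, 11]), (true,
    17, [0, 9]), (true, 17, [0, 2]), (true, 17, [0, 9, 11]), (true, 17, [0, 2, 9]), (true, 9, [0,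
    2, 11]), (true, 0, [2, 11, 17]), (false, 0, [2, 9, 11]), (false, 17, [0, 2, 9]), (false, 17,
    [0, 2, 11]), (false, 17, [0, 9, 11]), (false, 17, [0, 2]), (false, 17, [0, 9]), (false, 17,
    [0, 11]), (false, 17, [2, 9]), (false, 17, [0]), (true, 14, [0]), (true, 7, [10, 14]), (true,
    14, [0, 10]), (true, 14, [0, 7]), (true, 14, [0, 5]), (true, 14, [0, 7, 10]), (true, 14, [0,
    5, 7]), (true, 7, [0, 5, 10]), (true, 0, [5, 10, 14]), (false, 0, [5, 7, 10]), (false, 14, [0,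
    5, 7]), (false, 14, [0, 5, 10]), (false, 14, [0, 7, 10]), (false, 14, [0, 5]), (false, 14, [0,
    7]), (false, 14, [0, 10]), (false, 14, [5, 7]), (false, 14, [0]), (true, 17, [0]), (true, 17,
    [11, 14]), (true, 17, [0, 14]), (true, 17, [0, 11]), (true, 17, [0, 2]), (true, 17, [0, 11,
    14]), (true, 17, [0, 2, 14]), (true, 17, [0, 2, 11]), (true, 0, [2, 11, 14]), (false, 0, [2,
    11, 17]), (false, 14, [0, 2, 11]), (false, 17, [0, 2, 14]), (false, 17, [0, 11, 14]), (false,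
    17, [0, 2]), (false, 17, [0, 11]), (false, 17, [0, 14]), (false, 14, [2, 17]), (false, 17,
    [0]), (true, 14, [0]), (true, 14, [0, 11]), (true, 14, [0, 5]), (true, 14, [0, 2]), (true, 14,
    [0, 2, 11]), (true, 14, [0, 2, 5]), (true, 2, [0, 5, 11]), (true, 0, [5, 11, 14]), (false, 0,
    [2, 5, 11]), (false, 14, [0, 2, 5]), (false, 14, [0, 2, 11]), (false, 14, [0, 5, 11]), (false,
    14, [0, 2]), (false, 14, [0, 5]), (false, 14, [0, 11]), (false, 14, [2, 5]), (false, 14, [2,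
    11]), (false, 14, [0]), (false, 14, [2]), (true, 14, [0]), (true, 14, [0, 11]), (true, 14, [0,
    10]), (true, 14, [0, 5]), (true, 14, [0, 5, 11]), (true, 14, [0, 5, 10]), (true, 5, [0, 10,
    11]), (true, 0, [10, 11, 14]), (false, 0, [5, 10, 11]), (false, 14, [0, 5, 10]), (false, 14,
    [0, 5, 11]), (false, 14, [0, 10, 11]), (false, 14, [0, 5]), (false, 14, [0, 10]), (false, 14,
    [0, 11]), (false, 14, [5, 10]), (false, 14, [5, 11]), (false, 14, [0]), (false, 14, [5])]⟩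

theorem c_tetB_check : c_tetB.check (envOk 18 [[3, 4, 5], [2, 4, 5], [2, 3, 5], [2, 3, 4], [6, 7, 8], [9, 10, 11], [12, 13, 14], [15, 16, 17]] []) = true := by
  decide +kernel

/-- certificate -/
def c_tetD : Crt := ⟨15,
    [[8, 9, 10], [11, 12, 13], [8, 9, 11], [9, 11, 12], [9, 10, 12], [10, 12, 13], [10, 8, 13],
    [8, 13, 11]],
    [[2, 3, 4], [2, 3, 13], [2, 4, 13], [3, 4, 6], [3, 6, 7], [3, 7, 11], [3, 11, 13], [4, 6, 13],
    [5, 6, 7], [5, 6, 13], [5, 7, 12], [5, 12, 13], [7, 11, 12], [11, 12, 13]],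
    [(true, 10, [14]), (true, 14, [7]), (true, 14, [6]), (true, 14, [5]), (true, 14, [4]), (true,
    14, [3]), (true, 14, [2]), (true, 10, [9, 14]), (true, 10, [8, 14]), (true, 14, [7, 9]),
    (true, 14, [6, 10]), (true, 14, [6, 7]), (true, 14, [5, 10]), (true, 14, [5, 9]), (true, 14,
    [5, 7]), (true, 14, [5, 6]), (true, 14, [4, 10]), (true, 14, [4, 8]), (true, 14, [4, 6]),
    (true, 14, [3, 9]), (true, 14, [3, 8]), (true, 14, [3, 7]), (true, 14, [3, 6]), (true, 14, [3,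
    4]), (true, 14, [2, 8]), (true, 14, [2, 4]), (true, 14, [2, 3]), (true, 10, [8, 9, 14]),
    (true, 14, [5, 9, 10]), (true, 14, [5, 7, 9]), (true, 14, [5, 6, 10]), (true, 14, [5, 6, 7]),
    (true, 14, [4, 8, 10]), (true, 14, [4, 6, 10]), (true, 14, [3, 8, 9]), (true, 14, [3, 7, 9]),
    (true, 14, [3, 6, 7]), (true, 14, [3, 4, 6]), (true, 14, [2, 4, 8]), (true, 14, [2, 3, 8]),
    (true, 14, [2, 3, 4]), (false, 14, [8, 9, 10]), (false, 3, [8, 9, 14]), (false, 2, [3, 8,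
    14]), (false, 4, [2, 3, 14]), (false, 8, [2, 4, 14]), (false, 6, [3, 4, 14]), (false, 7, [3,
    6, 14]), (false, 9, [3, 7, 14]), (false, 10, [4, 6, 14]), (false, 10, [4, 8, 14]), (false, 5,
    [6, 7, 14]), (false, 10, [5, 6, 14]), (false, 9, [5, 7, 14]), (false, 10, [5, 9, 14]), (false,
    8, [2, 14]), (false, 9, [3, 14]), (false, 10, [4, 14]), (false, 10, [5, 14]), (false, 10, [6,
    14]), (false, 9, [7, 14]), (false, 10, [8, 14]), (false, 10, [9, 14]), (false, 10, [14]),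
    (true, 11, [0]), (true, 9, [3, 11]), (true, 11, [0, 9]), (true, 11, [0, 8]), (true, 11, [0,
    3]), (true, 11, [0, 8, 9]), (true, 11, [0, 3, 9]), (true, 9, [0, 3, 8]), (true, 0, [3, 8,
    11]), (false, 0, [3, 8, 9]), (false, 11, [0, 3, 8]), (false, 11, [0, 3, 9]), (false, 11, [0,
    8, 9]), (false, 11, [0, 3]), (false, 11, [0, 8]), (false, 11, [0, 9]), (false, 11, [8, 9]),
    (false, 11, [0]), (true, 12, [0]), (true, 10, [5, 12]), (true, 12, [0, 10]), (true, 12, [0,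
    9]), (true, 12, [0, 5]), (true, 12, [0, 9, 10]), (true, 12, [0, 5, 10]), (true, 10, [0, 5,
    9]), (true, 0, [5, 9, 12]), (false, 0, [5, 9, 10]), (false, 12, [0, 5, 9]), (false, 12, [0, 5,
    10]), (false, 12, [0, 9, 10]), (false, 12, [0, 5]), (false, 12, [0, 9]), (false, 12, [0, 10]),
    (false, 12, [9, 10]), (false, 12, [0]), (true, 13, [0]), (true, 10, [4, 13]), (true, 13, [0,
    10]), (true, 13, [0, 8]), (true, 13, [0, 4]), (true, 13, [0, 8, 10]), (true, 13, [0, 4, 10]),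
    (true, 10, [0, 4, 8]), (true, 0, [4, 8, 13]), (false, 0, [4, 8, 10]), (false, 13, [0, 4, 8]),
    (false, 13, [0, 4, 10]), (false, 13, [0, 8, 10]), (false, 13, [0, 4]), (false, 13, [0, 8]),
    (false, 13, [0, 10]), (false, 13, [8, 10]), (false, 13, [0]), (true, 13, [0]), (true, 11, [3,
    13]), (true, 13, [0, 11]), (true, 13, [0, 8]), (true, 13, [0, 3]), (true, 13, [0, 8, 11]),
    (true, 13, [0, 3, 11]), (true, 11, [0, 3, 8]), (true, 0, [3, 8, 13]), (false, 0, [3, 8, 11]),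
    (false, 13, [0, 3, 8]), (false, 13, [0, 3, 11]), (false, 13, [0, 8, 11]), (false, 13, [0, 3]),
    (false, 13, [0, 8]), (false, 13, [0, 11]), (false, 13, [8, 11]), (false, 13, [0]), (true, 13,
    [0]), (true, 12, [5, 13]), (true, 13, [0, 12]), (true, 13, [0, 10]), (true, 13, [0, 5]),
    (true, 13, [0, 10, 12]), (true, 13, [0, 5, 12]), (true, 12, [0, 5, 10]), (true, 0, [5, 10,
    13]), (false, 0, [5, 10, 12]), (false, 13, [0, 5, 10]), (false, 13, [0, 5, 12]), (false, 13,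
    [0, 10, 12]), (false, 13, [0, 5]), (false, 13, [0, 10]), (false, 13, [0, 12]), (false, 13,
    [10, 12]), (false, 13, [0]), (true, 11, [0]), (true, 9, [7, 11]), (true, 11, [0, 9]), (true,
    11, [0, 7]), (true, 11, [0, 3]), (true, 11, [0, 7, 9]), (true, 11, [0, 3, 9]), (true, 9, [0,
    3, 7]), (true, 0, [3, 7, 11]), (false, 0, [3, 7, 9]), (false, 11, [0, 3, 7]), (false, 11, [0,
    3, 9]), (false, 11, [0, 7, 9]), (false, 11, [0, 3]), (false, 11, [0, 7]), (false, 11, [0, 9]),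
    (false, 11, [3, 9]), (false, 11, [0]), (true, 13, [0]), (true, 8, [2, 13]), (true, 13, [0,
    8]), (true, 13, [0, 3]), (true, 13, [0, 2]), (true, 13, [0, 3, 8]), (true, 13, [0, 2, 8]),
    (true, 8, [0, 2, 3]), (true, 0, [2, 3, 13]), (false, 0, [2, 3, 8]), (false, 13, [0, 2, 3]),
    (false, 13, [0, 2, 8]), (false, 13, [0, 3, 8]), (false, 13, [0, 2]), (false, 13, [0, 3]),
    (false, 13, [0, 8]), (false, 13, [3, 8]), (false, 13, [0]), (true, 13, [0]), (true, 10, [6,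
    13]), (true, 13, [0, 10]), (true, 13, [0, 6]), (true, 13, [0, 5]), (true, 13, [0, 6, 10]),
    (true, 13, [0, 5, 10]), (true, 10, [0, 5, 6]), (true, 0, [5, 6, 13]), (false, 0, [5, 6, 10]),
    (false, 13, [0, 5, 6]), (false, 13, [0, 5, 10]), (false, 13, [0, 6, 10]), (false, 13, [0, 5]),
    (false, 13, [0, 6]), (false, 13, [0, 10]), (false, 13, [5, 10]), (false, 13, [0]), (true, 12,
    [0]), (true, 11, [7, 12]), (true, 12, [0, 11]), (true, 12, [0, 9]), (true, 12, [0, 7]), (true,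
    12, [0, 9, 11]), (true, 12, [0, 7, 11]), (true, 11, [0, 7, 9]), (true, 0, [7, 9, 12]), (false,
    0, [7, 9, 11]), (false, 12, [0, 7, 9]), (false, 12, [0, 7, 11]), (false, 12, [0, 9, 11]),
    (false, 12, [0, 7]), (false, 12, [0, 9]), (false, 12, [0, 11]), (false, 12, [9, 11]), (false,
    12, [0]), (true, 12, [0]), (true, 12, [0, 9]), (true, 12, [0, 7]), (true, 12, [0, 5]), (true,
    12, [0, 7, 9]), (true, 12, [0, 5, 9]), (true, 9, [0, 5, 7]), (true, 0, [5, 7, 12]), (false, 0,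
    [5, 7, 9]), (false, 12, [0, 5, 7]), (false, 12, [0, 5, 9]), (false, 12, [0, 7, 9]), (false,
    12, [0, 5]), (false, 12, [0, 7]), (false, 12, [0, 9]), (false, 12, [5, 9]), (false, 12, [7,
    9]), (false, 12, [0]), (false, 12, [9]), (true, 13, [0]), (true, 13, [0, 10]), (true, 13, [0,
    6]), (true, 13, [0, 4]), (true, 13, [0, 6, 10]), (true, 13, [0, 4, 10]), (true, 10, [0, 4,
    6]), (true, 0, [4, 6, 13]), (false, 0, [4, 6, 10]), (false, 13, [0, 4, 6]), (false, 13, [0, 4,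
    10]), (false, 13, [0, 6, 10]), (false, 13, [0, 4]), (false, 13, [0, 6]), (false, 13, [0, 10]),
    (false, 13, [4, 10]), (false, 13, [6, 10]), (false, 13, [0]), (false, 13, [10]), (true, 13,
    [0]), (true, 13, [0, 8]), (true, 13, [0, 4]), (true, 13, [0, 2]), (true, 13, [0, 4, 8]),
    (true, 13, [0, 2, 8]), (true, 8, [0, 2, 4]), (true, 0, [2, 4, 13]), (false, 0, [2, 4, 8]),
    (false, 13, [0, 2, 4]), (false, 13, [0, 2, 8]), (false, 13, [0, 4, 8]), (false, 13, [0, 2]),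
    (false, 13, [0, 4]), (false, 13, [0, 8]), (false, 13, [2, 8]), (false, 13, [4, 8]), (false,
    13, [0]), (false, 13, [8])]⟩

/-- the cell used -/
def s_tetD : List (ℕ × List (List ℕ)) :=
    [(14, [[2, 3, 4], [5, 6, 7], [3, 7, 6], [3, 6, 4], [8, 9, 10], [8, 4, 2], [8, 2, 3], [8, 9,
    3], [9, 3, 7], [9, 7, 5], [9, 10, 5], [10, 5, 6], [10, 6, 4], [10, 8, 4]])]

theorem c_tetD_check : c_tetD.check (envOk 14 (mks 4) s_tetD) = true := by
  decide +kernel

/-- certificate -/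
def c_tetE : Crt := ⟨18,
    [[2, 3, 4], [2, 3, 16], [2, 4, 16], [3, 4, 9], [3, 9, 10], [3, 10, 14], [3, 14, 16], [4, 9,
    16], [8, 9, 10], [8, 9, 16], [8, 10, 15], [8, 15, 16], [10, 14, 15], [14, 15, 16]],
    [[2, 3, 4], [2, 3, 7], [2, 4, 9], [2, 7, 12], [2, 8, 9], [2, 8, 11], [2, 11, 12], [3, 4, 9],
    [3, 7, 10], [3, 9, 10], [5, 6, 7], [5, 6, 10], [5, 7, 10], [6, 7, 12], [6, 10, 11], [6, 11,
    13], [6, 12, 13], [8, 9, 10], [8, 10, 11], [11, 12, 13]],
    [(true, 16, [17]), (true, 17, [13]), (true, 17, [12]), (true, 17, [11]), (true, 17, [7]),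
    (true, 17, [6]), (true, 17, [5]), (true, 16, [15, 17]), (true, 16, [14, 17]), (true, 17, [13,
    15]), (true, 17, [12, 16]), (true, 17, [12, 13]), (true, 17, [11, 16]), (true, 17, [11, 15]),
    (true, 17, [11, 13]), (true, 17, [11, 12]), (true, 17, [7, 16]), (true, 17, [7, 14]), (true,
    17, [7, 12]), (true, 17, [6, 15]), (true, 17, [6, 14]), (true, 17, [6, 13]), (true, 17, [6,
    12]), (true, 17, [6, 7]), (true, 17, [5, 14]), (true, 17, [5, 7]), (true, 17, [5, 6]), (true,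
    16, [14, 15, 17]), (true, 17, [11, 15, 16]), (true, 17, [11, 13, 15]), (true, 17, [11, 12,
    16]), (true, 17, [11, 12, 13]), (true, 17, [7, 14, 16]), (true, 17, [7, 12, 16]), (true, 17,
    [6, 14, 15]), (true, 17, [6, 13, 15]), (true, 17, [6, 12, 13]), (true, 17, [6, 7, 12]), (true,
    17, [5, 7, 14]), (true, 17, [5, 6, 14]), (true, 17, [5, 6, 7]), (false, 17, [14, 15, 16]),
    (false, 6, [14, 15, 17]), (false, 5, [6, 14, 17]), (false, 7, [5, 6, 17]), (false, 14, [5, 7,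
    17]), (false, 12, [6, 7, 17]), (false, 13, [6, 12, 17]), (false, 15, [6, 13, 17]), (false, 16,
    [7, 12, 17]), (false, 16, [7, 14, 17]), (false, 11, [12, 13, 17]), (false, 16, [11, 12, 17]),
    (false, 15, [11, 13, 17]), (false, 16, [11, 15, 17]), (false, 14, [5, 17]), (false, 15, [6,
    17]), (false, 16, [7, 17]), (false, 16, [11, 17]), (false, 16, [12, 17]), (false, 15, [13,
    17]), (false, 16, [14, 17]), (false, 16, [15, 17]), (false, 16, [17]), (true, 16, [0]), (true,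
    16, [3, 7]), (true, 16, [0, 14]), (true, 16, [0, 7]), (true, 16, [0, 3]), (true, 16, [0, 7,
    14]), (true, 16, [0, 3, 14]), (true, 16, [0, 3, 7]), (true, 0, [3, 7, 14]), (false, 0, [3, 14,
    16]), (false, 7, [0, 3, 14]), (false, 16, [0, 3, 7]), (false, 16, [0, 7, 14]), (false, 16, [0,
    3]), (false, 16, [0, 7]), (false, 16, [0, 14]), (false, 7, [14, 16]), (false, 16, [0]), (true,
    16, [0]), (true, 16, [2, 7]), (true, 16, [0, 7]), (true, 16, [0, 3]), (true, 16, [0, 2]),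
    (true, 16, [0, 3, 7]), (true, 16, [0, 2, 7]), (true, 16, [0, 2, 3]), (true, 0, [2, 3, 7]),
    (false, 0, [2, 3, 16]), (false, 7, [0, 2, 3]), (false, 16, [0, 2, 7]), (false, 16, [0, 3, 7]),
    (false, 16, [0, 2]), (false, 16, [0, 3]), (false, 16, [0, 7]), (false, 7, [3, 16]), (false,
    16, [0]), (true, 14, [0]), (true, 14, [7, 10]), (true, 14, [0, 10]), (true, 14, [0, 7]),
    (true, 14, [0, 3]), (true, 14, [0, 7, 10]), (true, 14, [0, 3, 10]), (true, 14, [0, 3, 7]),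
    (true, 0, [3, 7, 10]), (false, 0, [3, 7, 14]), (false, 10, [0, 3, 7]), (false, 14, [0, 3,
    10]), (false, 14, [0, 7, 10]), (false, 14, [0, 3]), (false, 14, [0, 7]), (false, 14, [0, 10]),
    (false, 10, [3, 14]), (false, 14, [0]), (true, 16, [0]), (true, 16, [2, 9]), (true, 16, [0,
    9]), (true, 16, [0, 4]), (true, 16, [0, 2]), (true, 16, [0, 4, 9]), (true, 16, [0, 2, 9]),
    (true, 16, [0, 2, 4]), (true, 0, [2, 4, 9]), (false, 0, [2, 4, 16]), (false, 9, [0, 2, 4]),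
    (false, 16, [0, 2, 9]), (false, 16, [0, 4, 9]), (false, 16, [0, 2]), (false, 16, [0, 4]),
    (false, 16, [0, 9]), (false, 9, [4, 16]), (false, 16, [0]), (true, 16, [0]), (true, 16, [8,
    11]), (true, 16, [0, 15]), (true, 16, [0, 11]), (true, 16, [0, 8]), (true, 16, [0, 11, 15]),
    (true, 16, [0, 8, 15]), (true, 16, [0, 8, 11]), (true, 0, [8, 11, 15]), (false, 0, [8, 15,
    16]), (false, 11, [0, 8, 15]), (false, 16, [0, 8, 11]), (false, 16, [0, 11, 15]), (false, 16,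
    [0, 8]), (false, 16, [0, 11]), (false, 16, [0, 15]), (false, 11, [15, 16]), (false, 16, [0]),
    (true, 16, [0]), (true, 16, [2, 12]), (true, 16, [0, 12]), (true, 16, [0, 7]), (true, 16, [0,
    2]), (true, 16, [0, 7, 12]), (true, 16, [0, 2, 12]), (true, 16, [0, 2, 7]), (true, 0, [2, 7,
    12]), (false, 0, [2, 7, 16]), (false, 12, [0, 2, 7]), (false, 16, [0, 2, 12]), (false, 16, [0,
    7, 12]), (false, 16, [0, 2]), (false, 16, [0, 7]), (false, 16, [0, 12]), (false, 12, [7, 16]),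
    (false, 16, [0]), (true, 15, [0]), (true, 15, [6, 11]), (true, 15, [0, 13]), (true, 15, [0,
    11]), (true, 15, [0, 6]), (true, 15, [0, 11, 13]), (true, 15, [0, 6, 13]), (true, 15, [0, 6,
    11]), (true, 0, [6, 11, 13]), (false, 0, [6, 13, 15]), (false, 11, [0, 6, 13]), (false, 15,
    [0, 6, 11]), (false, 15, [0, 11, 13]), (false, 15, [0, 6]), (false, 15, [0, 11]), (false, 15,
    [0, 13]), (false, 11, [13, 15]), (false, 15, [0]), (true, 14, [0]), (true, 14, [5, 10]),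
    (true, 14, [0, 10]), (true, 14, [0, 7]), (true, 14, [0, 5]), (true, 14, [0, 7, 10]), (true,
    14, [0, 5, 10]), (true, 14, [0, 5, 7]), (true, 0, [5, 7, 10]), (false, 0, [5, 7, 14]), (false,
    10, [0, 5, 7]), (false, 14, [0, 5, 10]), (false, 14, [0, 7, 10]), (false, 14, [0, 5]), (false,
    14, [0, 7]), (false, 14, [0, 10]), (false, 10, [7, 14]), (false, 14, [0]), (true, 16, [0]),
    (true, 16, [2, 8]), (true, 16, [0, 9]), (true, 16, [0, 8]), (true, 16, [0, 2]), (true, 16, [0,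
    8, 9]), (true, 16, [0, 2, 9]), (true, 16, [0, 2, 8]), (true, 0, [2, 8, 9]), (false, 0, [2, 9,
    16]), (false, 8, [0, 2, 9]), (false, 16, [0, 2, 8]), (false, 16, [0, 8, 9]), (false, 16, [0,
    2]), (false, 16, [0, 8]), (false, 16, [0, 9]), (false, 8, [9, 16]), (false, 16, [0]), (true,
    14, [0]), (true, 14, [6, 10]), (true, 14, [0, 10]), (true, 14, [0, 6]), (true, 14, [0, 5]),
    (true, 14, [0, 6, 10]), (true, 14, [0, 5, 10]), (true, 14, [0, 5, 6]), (true, 0, [5, 6, 10]),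
    (false, 0, [5, 6, 14]), (false, 10, [0, 5, 6]), (false, 14, [0, 5, 10]), (false, 14, [0, 6,
    10]), (false, 14, [0, 5]), (false, 14, [0, 6]), (false, 14, [0, 10]), (false, 10, [5, 14]),
    (false, 14, [0]), (true, 16, [0]), (true, 16, [2, 11]), (true, 16, [0, 11]), (true, 16, [0,
    8]), (true, 16, [0, 2]), (true, 16, [0, 8, 11]), (true, 16, [0, 2, 11]), (true, 16, [0, 2,
    8]), (true, 0, [2, 8, 11]), (false, 0, [2, 8, 16]), (false, 11, [0, 2, 8]), (false, 16, [0, 2,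
    11]), (false, 16, [0, 8, 11]), (false, 16, [0, 2]), (false, 16, [0, 8]), (false, 16, [0, 11]),
    (false, 11, [8, 16]), (false, 16, [0]), (true, 15, [0]), (true, 15, [10, 11]), (true, 15, [0,
    11]), (true, 15, [0, 10]), (true, 15, [0, 8]), (true, 15, [0, 10, 11]), (true, 15, [0, 8,
    11]), (true, 15, [0, 8, 10]), (true, 0, [8, 10, 11]), (false, 0, [8, 10, 15]), (false, 11, [0,
    8, 10]), (false, 15, [0, 8, 11]), (false, 15, [0, 10, 11]), (false, 15, [0, 8]), (false, 15,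
    [0, 10]), (false, 15, [0, 11]), (false, 11, [8, 15]), (false, 15, [0]), (true, 15, [0]),
    (true, 15, [0, 14]), (true, 15, [0, 10]), (true, 15, [0, 6]), (true, 15, [0, 10, 14]), (true,
    15, [0, 6, 14]), (true, 14, [0, 6, 10]), (true, 0, [6, 10, 15]), (false, 0, [6, 10, 14]),
    (false, 15, [0, 6, 10]), (false, 15, [0, 6, 14]), (false, 15, [0, 10, 14]), (false, 15, [0,
    6]), (false, 15, [0, 10]), (false, 15, [0, 14]), (false, 15, [6, 14]), (false, 15, [10, 14]),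
    (false, 15, [0]), (false, 15, [14]), (true, 15, [0]), (true, 15, [0, 11]), (true, 15, [0,
    10]), (true, 15, [0, 6]), (true, 15, [0, 10, 11]), (true, 15, [0, 6, 11]), (true, 15, [0, 6,
    10]), (true, 0, [6, 10, 11]), (false, 0, [6, 10, 15]), (false, 11, [0, 6, 10]), (false, 15,
    [0, 6, 11]), (false, 15, [0, 10, 11]), (false, 15, [0, 6]), (false, 15, [0, 10]), (false, 15,
    [0, 11]), (false, 11, [6, 15]), (false, 11, [10, 15]), (false, 15, [0]), (false, 11, [15]),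
    (true, 16, [0]), (true, 16, [0, 12]), (true, 16, [0, 11]), (true, 16, [0, 2]), (true, 16, [0,
    11, 12]), (true, 16, [0, 2, 12]), (true, 16, [0, 2, 11]), (true, 0, [2, 11, 12]), (false, 0,
    [2, 11, 16]), (false, 12, [0, 2, 11]), (false, 16, [0, 2, 12]), (false, 16, [0, 11, 12]),
    (false, 16, [0, 2]), (false, 16, [0, 11]), (false, 16, [0, 12]), (false, 12, [2, 16]), (false,
    12, [11, 16]), (false, 16, [0]), (false, 12, [16])]⟩

/-- the cell used -/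
def s_tetE : List (ℕ × List (List ℕ)) :=
    [(17, [[5, 6, 7], [11, 12, 13], [6, 13, 12], [6, 12, 7], [14, 15, 16], [14, 7, 5], [14, 5, 6],
    [14, 15, 6], [15, 6, 13], [15, 13, 11], [15, 16, 11], [16, 11, 12], [16, 12, 7], [16, 14,
    7]])]

theorem c_tetE_check : c_tetE.check (envOk 17 (mks 5) s_tetE) = true := by
  decide +kernel

/-- certificate -/
def c_tetC : Crt := ⟨14,
    [[2, 3, 4], [2, 3, 13], [2, 4, 11], [2, 11, 12], [2, 12, 13], [3, 4, 10], [3, 5, 6], [3, 5,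
    13], [3, 6, 10], [4, 8, 9], [4, 8, 11], [4, 9, 10], [5, 6, 7], [5, 7, 13], [6, 7, 10], [7, 10,
    13], [8, 9, 10], [8, 10, 11], [10, 11, 13], [11, 12, 13]],
    [[2, 3, 4], [2, 3, 7], [2, 4, 9], [2, 7, 12], [2, 8, 9], [2, 8, 11], [2, 11, 12], [3, 4, 9],
    [3, 7, 10], [3, 9, 10], [5, 6, 7], [5, 6, 10], [5, 7, 10], [6, 7, 12], [6, 10, 11], [6, 11,
    13], [6, 12, 13], [8, 9, 10], [8, 10, 11], [11, 12, 13]],
    [(true, 13, [0]), (true, 13, [2, 5]), (true, 13, [0, 5]), (true, 13, [0, 3]), (true, 13, [0,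
    2]), (true, 13, [0, 3, 5]), (true, 13, [0, 2, 5]), (true, 13, [0, 2, 3]), (true, 0, [2, 3,
    5]), (false, 0, [2, 3, 13]), (false, 5, [0, 2, 3]), (false, 13, [0, 2, 5]), (false, 13, [0, 3,
    5]), (false, 13, [0, 2]), (false, 13, [0, 3]), (false, 13, [0, 5]), (false, 5, [3, 13]),
    (false, 13, [0]), (true, 11, [0]), (true, 11, [2, 8]), (true, 11, [0, 8]), (true, 11, [0, 4]),
    (true, 11, [0, 2]), (true, 11, [0, 4, 8]), (true, 11, [0, 2, 8]), (true, 11, [0, 2, 4]),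
    (true, 0, [2, 4, 8]), (false, 0, [2, 4, 11]), (false, 8, [0, 2, 4]), (false, 11, [0, 2, 8]),
    (false, 11, [0, 4, 8]), (false, 11, [0, 2]), (false, 11, [0, 4]), (false, 11, [0, 8]), (false,
    8, [4, 11]), (false, 11, [0]), (true, 13, [0]), (true, 13, [2, 7]), (true, 13, [0, 7]), (true,
    13, [0, 5]), (true, 13, [0, 2]), (true, 13, [0, 5, 7]), (true, 13, [0, 2, 7]), (true, 13, [0,
    2, 5]), (true, 0, [2, 5, 7]), (false, 0, [2, 5, 13]), (false, 7, [0, 2, 5]), (false, 13, [0,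
    2, 7]), (false, 13, [0, 5, 7]), (false, 13, [0, 2]), (false, 13, [0, 5]), (false, 13, [0, 7]),
    (false, 7, [5, 13]), (false, 13, [0]), (true, 13, [0]), (true, 10, [6, 13]), (true, 13, [0,
    10]), (true, 13, [0, 7]), (true, 13, [0, 6]), (true, 13, [0, 7, 10]), (true, 13, [0, 6, 10]),
    (true, 10, [0, 6, 7]), (true, 0, [6, 7, 13]), (false, 0, [6, 7, 10]), (false, 13, [0, 6, 7]),
    (false, 13, [0, 6, 10]), (false, 13, [0, 7, 10]), (false, 13, [0, 6]), (false, 13, [0, 7]),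
    (false, 13, [0, 10]), (false, 13, [7, 10]), (false, 13, [0]), (true, 13, [0]), (true, 13, [7,
    12]), (true, 13, [0, 12]), (true, 13, [0, 7]), (true, 13, [0, 2]), (true, 13, [0, 7, 12]),
    (true, 13, [0, 2, 12]), (true, 13, [0, 2, 7]), (true, 0, [2, 7, 12]), (false, 0, [2, 7, 13]),
    (false, 12, [0, 2, 7]), (false, 13, [0, 2, 12]), (false, 13, [0, 7, 12]), (false, 13, [0, 2]),
    (false, 13, [0, 7]), (false, 13, [0, 12]), (false, 12, [2, 13]), (false, 13, [0]), (true, 10,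
    [0]), (true, 10, [3, 9]), (true, 10, [0, 9]), (true, 10, [0, 4]), (true, 10, [0, 3]), (true,
    10, [0, 4, 9]), (true, 10, [0, 3, 9]), (true, 10, [0, 3, 4]), (true, 0, [3, 4, 9]), (false, 0,
    [3, 4, 10]), (false, 9, [0, 3, 4]), (false, 10, [0, 3, 9]), (false, 10, [0, 4, 9]), (false,
    10, [0, 3]), (false, 10, [0, 4]), (false, 10, [0, 9]), (false, 9, [4, 10]), (false, 10, [0]),
    (true, 10, [0]), (true, 6, [5, 10]), (true, 10, [0, 6]), (true, 10, [0, 5]), (true, 10, [0,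
    3]), (true, 10, [0, 5, 6]), (true, 10, [0, 3, 6]), (true, 6, [0, 3, 5]), (true, 0, [3, 5,
    10]), (false, 0, [3, 5, 6]), (false, 10, [0, 3, 5]), (false, 10, [0, 3, 6]), (false, 10, [0,
    5, 6]), (false, 10, [0, 3]), (false, 10, [0, 5]), (false, 10, [0, 6]), (false, 10, [3, 6]),
    (false, 10, [0]), (true, 7, [0]), (true, 5, [3, 7]), (true, 7, [0, 5]), (true, 7, [0, 3]),
    (true, 7, [0, 2]), (true, 7, [0, 3, 5]), (true, 7, [0, 2, 5]), (true, 5, [0, 2, 3]), (true, 0,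
    [2, 3, 7]), (false, 0, [2, 3, 5]), (false, 7, [0, 2, 3]), (false, 7, [0, 2, 5]), (false, 7,
    [0, 3, 5]), (false, 7, [0, 2]), (false, 7, [0, 3]), (false, 7, [0, 5]), (false, 7, [2, 5]),
    (false, 7, [0]), (true, 9, [0]), (true, 8, [2, 9]), (true, 9, [0, 8]), (true, 9, [0, 4]),
    (true, 9, [0, 2]), (true, 9, [0, 4, 8]), (true, 9, [0, 2, 8]), (true, 8, [0, 2, 4]), (true, 0,
    [2, 4, 9]), (false, 0, [2, 4, 8]), (false, 9, [0, 2, 4]), (false, 9, [0, 2, 8]), (false, 9,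
    [0, 4, 8]), (false, 9, [0, 2]), (false, 9, [0, 4]), (false, 9, [0, 8]), (false, 9, [4, 8]),
    (false, 9, [0]), (true, 13, [0]), (true, 13, [6, 12]), (true, 13, [0, 12]), (true, 13, [0,
    7]), (true, 13, [0, 6]), (true, 13, [0, 7, 12]), (true, 13, [0, 6, 12]), (true, 13, [0, 6,
    7]), (true, 0, [6, 7, 12]), (false, 0, [6, 7, 13]), (false, 12, [0, 6, 7]), (false, 13, [0, 6,
    12]), (false, 13, [0, 7, 12]), (false, 13, [0, 6]), (false, 13, [0, 7]), (false, 13, [0, 12]),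
    (false, 12, [7, 13]), (false, 13, [0]), (true, 10, [0]), (true, 5, [7, 10]), (true, 10, [0,
    7]), (true, 10, [0, 5]), (true, 10, [0, 3]), (true, 10, [0, 5, 7]), (true, 10, [0, 3, 5]),
    (true, 5, [0, 3, 7]), (true, 0, [3, 7, 10]), (false, 0, [3, 5, 7]), (false, 10, [0, 3, 5]),
    (false, 10, [0, 3, 7]), (false, 10, [0, 5, 7]), (false, 10, [0, 3]), (false, 10, [0, 5]),
    (false, 10, [0, 7]), (false, 10, [3, 5]), (false, 10, [0]), (true, 13, [0]), (true, 13, [6,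
    11]), (true, 13, [0, 11]), (true, 13, [0, 10]), (true, 13, [0, 6]), (true, 13, [0, 10, 11]),
    (true, 13, [0, 6, 11]), (true, 13, [0, 6, 10]), (true, 0, [6, 10, 11]), (false, 0, [6, 10,
    13]), (false, 11, [0, 6, 10]), (false, 13, [0, 6, 11]), (false, 13, [0, 10, 11]), (false, 13,
    [0, 6]), (false, 13, [0, 10]), (false, 13, [0, 11]), (false, 11, [10, 13]), (false, 13, [0])]⟩

theorem c_tetC_check : c_tetC.check (envOk 14 (mks 4) []) = true := by
  decide +kernel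

/-- certificate -/
def c_discEq : Crt := ⟨6,
    [[0]],
    [[0, 1, 2], [0, 1, 3], [1, 3, 4], [1, 2, 4], [2, 4, 5], [2, 0, 5], [0, 5, 3]],
    [(true, 0, [5]), (true, 5, [4]), (true, 5, [3]), (true, 5, [2]), (true, 4, [1]), (true, 5, [2,
    4]), (true, 4, [1, 2]), (true, 5, [0, 3]), (true, 5, [0, 2]), (true, 2, [0, 1]), (true, 0, [1,
    3]), (true, 1, [3, 4])]⟩

theorem c_discEq_check : c_discEq.check (inOk c_discEq.L1) = true := by
  decide +kernel

/-- certificate -/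
def c_discAdd3 : Crt := ⟨9,
    [[0]],
    [[0, 1, 2], [3, 4, 5], [1, 5, 4], [1, 4, 2], [6, 2, 0], [6, 0, 1], [6, 7, 1], [7, 1, 5], [7,
    5, 3], [7, 8, 3], [8, 3, 4], [8, 4, 2], [8, 6, 2]],
    [(true, 0, [6]), (true, 6, [8]), (true, 8, [7]), (true, 7, [5]), (true, 8, [4]), (true, 8,
    [3]), (true, 8, [2]), (true, 7, [1]), (true, 8, [3, 7]), (true, 7, [3, 5]), (true, 8, [3, 4]),
    (true, 3, [4, 5]), (true, 8, [2, 6]), (true, 8, [2, 4]), (true, 7, [1, 5]), (true, 5, [1, 4]),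
    (true, 4, [1, 2]), (true, 6, [0, 2]), (true, 2, [0, 1]), (true, 0, [1, 6]), (true, 1, [6, 7])]⟩

theorem c_discAdd3_check : c_discAdd3.check (inOk c_discAdd3.L1) = true := by
  decide +kernel

/-- certificate -/
def c_discAdd1 : Crt := ⟨9,
    [[0]],
    [[3, 4, 5], [1, 5, 4], [1, 4, 2], [6, 7, 8], [6, 2, 0], [6, 0, 1], [6, 7, 1], [7, 1, 5], [7,
    5, 3], [7, 8, 3], [8, 3, 4], [8, 4, 2], [8, 6, 2]],
    [(true, 0, [6]), (true, 6, [8]), (true, 8, [7]), (true, 7, [5]), (true, 8, [4]), (true, 8,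
    [3]), (true, 8, [2]), (true, 7, [1]), (true, 8, [6, 7]), (true, 8, [3, 7]), (true, 7, [3, 5]),
    (true, 8, [3, 4]), (true, 3, [4, 5]), (true, 8, [2, 6]), (true, 8, [2, 4]), (true, 7, [1, 6]),
    (true, 7, [1, 5]), (true, 5, [1, 4]), (true, 4, [1, 2]), (true, 6, [0, 2]), (true, 6, [0, 1])]⟩

theorem c_discAdd1_check : c_discAdd1.check (inOk c_discAdd1.L1) = true := by
  decide +kernel

/-- certificate -/
def c_discCap : Crt := ⟨4,
    [[0]],
    [[0, 1, 2], [0, 1, 3], [0, 2, 3]],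
    [(true, 0, [3]), (true, 3, [2]), (true, 3, [1]), (true, 3, [0, 2]), (true, 3, [0, 1]), (true,
    0, [1, 2])]⟩

theorem c_discCap_check : c_discCap.check (inOk c_discCap.L1) = true := by
  decide +kernel

/-- certificate -/
def c_capW : Crt := ⟨5,
    [[0, 2, 3], [0, 2, 4], [0, 3, 4], [2, 3, 4]],
    [[1, 2, 3], [1, 2, 4], [1, 3, 4], [2, 3, 4]],
    [(true, 4, [1]), (true, 4, [1, 3]), (true, 4, [1, 2]), (true, 4, [0, 1]), (true, 4, [0, 1,
    3]), (true, 4, [0, 1, 2]), (true, 0, [1, 2, 3]), (false, 1, [0, 2, 3]), (false, 4, [0, 1, 2]),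
    (false, 4, [0, 1, 3]), (false, 4, [0, 1]), (false, 4, [0, 2]), (false, 4, [0, 3]), (false, 4,
    [0])]⟩

theorem c_capW_check : c_capW.check (envOk 5 (mks 1) []) = true := by
  decide +kernel

end Pool.Agent.DF302A.PI
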