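import Pool.Agent.Work.MP_df302a_co.I3
import Pool.Agent.Work.MP_df302a_co.I4D

/-! # MP_df302a_co, part (I), module I4: names, standard cells, macros. -/

set_option autoImplicit false

namespace Pool.Agent.DF302A.PI

open Finset

section Std
variable {V : Type*}

/-- the sphere `t_a ∪ z * bd t_a` -/
def capL (z : V) (a : Fin 3 → V) : List (List V) :=
  [[a 0, a 1, a 2], [z, a 0, a 1], [z, a 0, a 2], [z, a 1, a 2]]

/-- the sphere of `a = b` -/
def eqL (a b : Fin 3 → V) : List (List V) :=
  [[a 0, a 1, a 2], [b 0, b 1, b 2], [a 0, a 1, b 0], [a 1, b 0, b 1], [a 1, a 2, b 1],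
   [a 2, b 1, b 2], [a 2, a 0, b 2], [a 0, b 2, b 0]]

/-- the sphere of `a + b = c` -/
def addL (a b c : Fin 3 → V) : List (List V) :=
  [[a 0, a 1, a 2], [b 0, b 1, b 2], [a 1, b 2, b 1], [a 1, b 1, a 2], [c 0, c 1, c 2],
   [c 0, a 2, a 0], [c 0, a 0, a 1], [c 0, c 1, a 1], [c 1, a 1, b 2], [c 1, b 2, b 0],
   [c 1, c 2, b 0], [c 2, b 0, b 1], [c 2, b 1, a 2], [c 2, c 0, a 2]]

/-- the boundary of a tetrahedron -/
def tetL (p : Fin 4 → V) : List (List V) :=
  [[p 0, p 1, p 2], [p 0, p 1, p 3], [p 0, p 2, p 3], [p 1, p 2, p 3]]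

/-- the vertices of triples as a list -/
def flt (ns : List (Fin 3 → V)) : List V := ns.flatMap (fun a => [a 0, a 1, a 2])

variable [DecidableEq V]

/-- general position of a list of triples in a state: pairwise disjoint triples of distinct vertices,
not containing `z`, and no other marked triangles on the vertices `z` and the triples -/
structure Loc (w z : V) (X : Finset V) (Mk : Finset (Finset V)) (ns : List (Fin 3 → V)) : Prop where
  nd : (z :: flt ns).Nodup
  sub : ∀ v ∈ z :: flt ns, v ∈ X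
  mrk : ∀ t ∈ Mk, (∀ v ∈ t, v ∈ z :: flt ns) → ∃ a ∈ ns, rg a = t

/-- labels, with a tag at the end -/
def lab (w : V) (vs : List V) (v : V) (i : ℕ) : V := (w :: (vs ++ [v])).getD i w

/-- labels -/
def nlab (w : V) (vs : List V) (i : ℕ) : V := (w :: vs).getD i w

end Std

variable {V : Type*} [DecidableEq V] {w z : V} {X : Finset V} {Mk : Finset (Finset V)}
  {C : Finset (V × Finset (Finset V))}

omit [DecidableEq V] in
theorem nlab_eq (w : V) (vs : List V) (v : V) (i : ℕ) (hi : i < vs.length + 1) :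
    nlab w vs i = lab w vs v i := by
  unfold nlab lab
  have e : w :: (vs ++ [v]) = (w :: vs) ++ [v] := rfl
  rw [e, List.getD_append _ _ _ _ (by simpa using hi)]

theorem img_nlab (w : V) (vs : List V) (v : V) (T : List (List ℕ))
    (hT : T.all (fun t => t.all (fun i => decide (i < vs.length + 1))) = true) :
    img (nlab w vs) T = img (lab w vs v) T := by
  unfold img
  congr 1
  apply List.map_congr_left
  intro t ht
  apply List.map_congr_left
  intro i hi
  have h1 := List.all_eq_true.1 (List.all_eq_true.1 hT t ht) i hi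
  exact nlab_eq w vs v i (by simpa using h1)

/-- use of a certificate with a list of vertices and one tag -/
theorem useG (c : Crt) (m : ℕ) (mk : List (List ℕ)) (cells : List (ℕ × List (List ℕ)))
    (h : c.check (envOk m mk cells) = true) (hwf : WF w X Mk C) (vs : List V)
    (hm : m = vs.length + 1) (hnd : vs.Nodup) (hsub : ∀ v ∈ vs, v ∈ X) (v : V) (hvX : v ∉ X)
    (hvw : v ≠ w) (hn : c.n ≤ m + 1)
    (hmk : ∀ t ∈ Mk, (∀ x ∈ t, x ∈ vs) → ∃ s ∈ mk, (s.map (nlab w vs)).toFinset = t)
    (hmkm : mk.all (fun s => s.all (fun i => decide (i < m))) = true)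
    (hcells : ∀ d ∈ cells, (lab w vs v d.1, img (lab w vs v) d.2) ∈ C)
    {u : V} (hu : Fresh w X C u) (hmn : m ≤ c.n)
    (hL0 : c.L0.all (fun t => decide (t.length = 3) && decide t.Nodup &&
      t.all (fun i => decide (0 < i ∧ i < m))) = true)
    (hL1 : c.L1.all (fun t => t.all (fun i => decide (i < m))) = true) :
    Sim (ZZ w X Mk (insert (u, img (nlab w vs) c.L0) C))
      (ZZ w X Mk (insert (u, img (nlab w vs) c.L1) C)) := by
  have hL0' : c.L0.all (fun t => t.all (fun i => decide (i < vs.length + 1))) = true := by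
    rw [List.all_eq_true] at hL0 ⊢
    intro t ht
    have h1 := hL0 t ht
    simp only [Bool.and_eq_true, decide_eq_true_eq, List.all_eq_true] at h1
    rw [List.all_eq_true]
    intro i hi
    rw [decide_eq_true_eq, ← hm]
    exact (h1.2 i hi).2
  rw [img_nlab w vs v c.L0 hL0', img_nlab w vs v c.L1 (by rw [← hm]; exact hL1)]
  have hmkm' : ∀ s ∈ mk, ∀ i ∈ s, i < m := by
    intro s hs i hi
    have := List.all_eq_true.1 (List.all_eq_true.1 hmkm s hs) i hi
    simpa using this
  have hL : (w :: (vs ++ [v])).Nodup := by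
    rw [List.nodup_cons]
    constructor
    · intro hw
      rcases List.mem_append.1 hw with h1 | h1
      · exact hwf.hw (hsub _ h1)
      · exact hvw (List.mem_singleton.1 h1).symm
    · rw [List.nodup_append]
      refine ⟨hnd, by simp, ?_⟩
      intro a ha b hb hab
      rw [List.mem_singleton] at hb
      subst hb
      subst hab
      exact hvX (hsub _ ha)
  have hlen : (w :: (vs ++ [v])).length = m + 1 := by simp [hm]
  have hinj : Set.InjOn (lab w vs v) {i | i < c.n} := by
    intro i hi j hj hij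
    have hi' : i < (w :: (vs ++ [v])).length := lt_of_lt_of_le hi (by rw [hlen]; exact hn)
    have hj' : j < (w :: (vs ++ [v])).length := lt_of_lt_of_le hj (by rw [hlen]; exact hn)
    unfold lab at hij
    rw [List.getD_eq_getElem _ _ hi', List.getD_eq_getElem _ _ hj'] at hij
    exact (List.Nodup.getElem_inj_iff hL).1 hij
  have hlt : ∀ i, 0 < i → i < m → lab w vs v i ∈ vs := by
    intro i h0 hi
    obtain ⟨j, rfl⟩ : ∃ j, i = j + 1 := ⟨i - 1, by omega⟩
    have hj : j < vs.length := by omega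
    unfold lab
    rw [List.getD_cons_succ, List.getD_append _ _ _ _ hj, List.getD_eq_getElem _ _ hj]
    exact List.getElem_mem hj
  refine Crt.use c m mk cells h hmn hmkm' hwf (lab w vs v) hinj rfl
    (fun i h0 hi => hsub _ (hlt i h0 hi)) ?_ hcells hu ?_
  · intro t ht hsubt
    have hkey : ∃ s ∈ mk, (s.map (nlab w vs)).toFinset = t := by
      apply hmk t ht
      intro x hx
      obtain ⟨i, hi, rfl⟩ := Finset.mem_image.1 (hsubt hx)
      rcases Nat.eq_zero_or_pos i with rfl | h0
      · exfalso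
        exact hwf.hw ((hwf.mrk t ht).1 hx)
      · exact hlt i h0 (Finset.mem_range.1 hi)
    obtain ⟨s, hs, hst⟩ := hkey
    refine ⟨s, hs, ?_⟩
    rw [← hst]
    congr 1
    apply List.map_congr_left
    intro i hi
    exact (nlab_eq w vs v i (by rw [← hm]; exact hmkm' s hs i hi)).symm
  · intro t ht
    unfold img mkS at ht
    rw [List.mem_toFinset, List.mem_map] at ht
    obtain ⟨l, hl, rfl⟩ := ht
    obtain ⟨l', hl', rfl⟩ := List.mem_map.1 hl
    have h1 := List.all_eq_true.1 hL0 l' hl'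
    simp only [Bool.and_eq_true, decide_eq_true_eq, List.all_eq_true] at h1
    obtain ⟨⟨h1, h2⟩, h3⟩ := h1
    constructor
    · intro x hx
      rw [List.mem_toFinset, List.mem_map] at hx
      obtain ⟨i, hi, rfl⟩ := hx
      exact hsub _ (hlt i (h3 i hi).1 (h3 i hi).2)
    · rw [List.toFinset_card_of_nodup, List.length_map, h1]
      refine List.Nodup.map_on ?_ h2
      intro i hi j hj hij
      exact hinj (lt_of_lt_of_le (h3 i hi).2 hmn) (lt_of_lt_of_le (h3 j hj).2 hmn) hij


omit [DecidableEq V] in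
theorem flt_len (ns : List (Fin 3 → V)) : (flt ns).length = 3 * ns.length := by
  induction ns with
  | nil => rfl
  | cons a l ih =>
    have : flt (a :: l) = [a 0, a 1, a 2] ++ flt l := rfl
    rw [this, List.length_append, ih, List.length_cons]
    simp only [List.length_cons, List.length_nil]
    ring

omit [DecidableEq V] in
theorem nlab_flt (w z : V) (ns : List (Fin 3 → V)) (i : ℕ) (hi : i < ns.length) (j : ℕ)
    (hj : j < 3) : nlab w (z :: flt ns) (2 + 3 * i + j) = (ns[i]) ⟨j, hj⟩ := by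
  induction ns generalizing i with
  | nil => simp at hi
  | cons a l ih =>
    have h1 : flt (a :: l) = [a 0, a 1, a 2] ++ flt l := rfl
    cases i with
    | zero =>
      unfold nlab
      rw [h1]
      interval_cases j <;> rfl
    | succ i =>
      have h2 : i < l.length := by simpa using hi
      have := ih i h2
      unfold nlab at this ⊢
      rw [h1]
      have e : 2 + 3 * (i + 1) + j = (2 + 3 * i + j) + 3 := by ring
      rw [e]
      have e2 : 2 + 3 * i + j = (3 * i + j) + 2 := by ring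
      rw [e2] at this ⊢
      simpa using this

/-- use of a certificate with names and one tag -/
theorem useL (c : Crt) (k : ℕ) (cells : List (ℕ × List (List ℕ)))
    (h : c.check (envOk (2 + 3 * k) (mks k) cells) = true) (hwf : WF w X Mk C)
    (ns : List (Fin 3 → V)) (hk : ns.length = k) (hL : Loc w z X Mk ns) (v : V) (hvX : v ∉ X)
    (hvw : v ≠ w) (hn : c.n ≤ 2 + 3 * k + 1)
    (hcells : ∀ d ∈ cells, (lab w (z :: flt ns) v d.1, img (lab w (z :: flt ns) v) d.2) ∈ C)
    {u : V} (hu : Fresh w X C u) (hmn : 2 + 3 * k ≤ c.n)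
    (hL0 : c.L0.all (fun t => decide (t.length = 3) && decide t.Nodup &&
      t.all (fun i => decide (0 < i ∧ i < 2 + 3 * k))) = true)
    (hL1 : c.L1.all (fun t => t.all (fun i => decide (i < 2 + 3 * k))) = true) :
    Sim (ZZ w X Mk (insert (u, img (nlab w (z :: flt ns)) c.L0) C))
      (ZZ w X Mk (insert (u, img (nlab w (z :: flt ns)) c.L1) C)) := by
  have hlen : (z :: flt ns).length = 3 * k + 1 := by
    rw [List.length_cons, flt_len, hk]
  refine useG c (2 + 3 * k) (mks k) cells h hwf (z :: flt ns) ?_ hL.nd hL.sub v hvX hvw hn ?_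
    ?_ hcells hu hmn hL0 hL1
  · rw [hlen]; ring
  · intro t ht htv
    obtain ⟨a, ha, rfl⟩ := hL.mrk t ht htv
    obtain ⟨i, hi, rfl⟩ := List.getElem_of_mem ha
    refine ⟨[2 + 3 * i, 3 + 3 * i, 4 + 3 * i], ?_, ?_⟩
    · unfold mks
      rw [List.mem_map]
      exact ⟨i, by rw [List.mem_range, ← hk]; exact hi, rfl⟩
    · have e0 := nlab_flt w z ns i hi 0 (by norm_num)
      have e1 := nlab_flt w z ns i hi 1 (by norm_num)
      have e2 := nlab_flt w z ns i hi 2 (by norm_num)
      have f1 : 3 + 3 * i = 2 + 3 * i + 1 := by ring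
      have f2 : 4 + 3 * i = 2 + 3 * i + 2 := by ring
      have f0 : 2 + 3 * i = 2 + 3 * i + 0 := rfl
      rw [f1, f2]
      simp only [List.map_cons, List.map_nil]
      rw [e1, e2]
      rw [show nlab w (z :: flt ns) (2 + 3 * i) = (ns[i]) 0 from e0]
      ext x
      simp only [List.toFinset_cons, List.toFinset_nil, Finset.mem_insert, Finset.notMem_empty,
        or_false, rg, Finset.mem_image, Finset.mem_univ, true_and]
      constructor
      · rintro (rfl | rfl | rfl)
        · exact ⟨0, rfl⟩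
        · exact ⟨1, rfl⟩
        · exact ⟨2, rfl⟩
      · rintro ⟨j, rfl⟩
        fin_cases j
        · left; rfl
        · right; left; rfl
        · right; right; rfl
  · unfold mks
    rw [List.all_eq_true]
    intro s hs
    obtain ⟨i, hi, rfl⟩ := List.mem_map.1 hs
    have hi' := List.mem_range.1 hi
    simp only [List.all_cons, List.all_nil, Bool.and_true, Bool.and_eq_true, decide_eq_true_eq]
    omega

variable {u : V}

omit [DecidableEq V] in
theorem mem_flt {ns : List (Fin 3 → V)} {v : V} : v ∈ flt ns ↔ ∃ a ∈ ns, ∃ i, a i = v := by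
  unfold flt
  rw [List.mem_flatMap]
  constructor
  · rintro ⟨a, ha, hv⟩
    simp only [List.mem_cons, List.not_mem_nil, or_false] at hv
    rcases hv with rfl | rfl | rfl
    · exact ⟨a, ha, 0, rfl⟩
    · exact ⟨a, ha, 1, rfl⟩
    · exact ⟨a, ha, 2, rfl⟩
  · rintro ⟨a, ha, i, rfl⟩
    refine ⟨a, ha, ?_⟩
    fin_cases i <;> simp

/-- general position from pairwise conditions -/
theorem Loc.of {ns : List (Fin 3 → V)} (hz : z ∈ X) (inj : ∀ a ∈ ns, Function.Injective a)
    (sub : ∀ a ∈ ns, ∀ i, a i ∈ X ∧ a i ≠ z) (disj : ns.Pairwise (fun a b => ∀ i j, a i ≠ b j))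
    (mrk : ∀ t ∈ Mk, t ⊆ insert z (ns.toFinset.biUnion rg) → ∃ a ∈ ns, rg a = t) :
    Loc w z X Mk ns := by
  have h1 : ∀ l : List (Fin 3 → V), (∀ a ∈ l, Function.Injective a) →
      l.Pairwise (fun a b => ∀ i j, a i ≠ b j) → (flt l).Nodup := by
    intro l
    induction l with
    | nil => intro _ _; exact List.nodup_nil
    | cons a l ih =>
      intro h1 h2
      rw [List.pairwise_cons] at h2
      have e : flt (a :: l) = [a 0, a 1, a 2] ++ flt l := rfl
      rw [e, List.nodup_append]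
      have ha := h1 a List.mem_cons_self
      refine ⟨?_, ih (fun b hb => h1 b (List.mem_cons_of_mem _ hb)) h2.2, ?_⟩
      · have h01 : a 0 ≠ a 1 := fun h => absurd (ha h) (by decide)
        have h02 : a 0 ≠ a 2 := fun h => absurd (ha h) (by decide)
        have h12 : a 1 ≠ a 2 := fun h => absurd (ha h) (by decide)
        simp [h01, h02, h12]
      · intro x hx y hy hxy
        subst hxy
        obtain ⟨b, hb, j, hj⟩ := mem_flt.1 hy
        have hx' : ∃ i, a i = x := by
          simp only [List.mem_cons, List.not_mem_nil, or_false] at hx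
          rcases hx with h | h | h
          · exact ⟨0, h.symm⟩
          · exact ⟨1, h.symm⟩
          · exact ⟨2, h.symm⟩
        obtain ⟨i, hi⟩ := hx'
        exact h2.1 b hb i j (hi.trans hj.symm)
  refine ⟨?_, ?_, ?_⟩
  · rw [List.nodup_cons]
    refine ⟨?_, h1 ns inj disj⟩
    intro hzf
    obtain ⟨a, ha, i, hi⟩ := mem_flt.1 hzf
    exact (sub a ha i).2 hi
  · intro v hv
    rcases List.mem_cons.1 hv with rfl | hv
    · exact hz
    · obtain ⟨a, ha, i, rfl⟩ := mem_flt.1 hv
      exact (sub a ha i).1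
  · intro t ht htv
    apply mrk t ht
    intro x hx
    rw [Finset.mem_insert]
    rcases List.mem_cons.1 (htv x hx) with rfl | h
    · left; rfl
    · right
      obtain ⟨a, ha, i, rfl⟩ := mem_flt.1 h
      rw [Finset.mem_biUnion]
      exact ⟨a, List.mem_toFinset.2 ha, Finset.mem_image.2 ⟨i, Finset.mem_univ _, rfl⟩⟩

theorem mac_eqSymm {a b : Fin 3 → V} (hwf : WF w X Mk C) (hL : Loc w z X Mk [a, b])
    (hu : Fresh w X C u) :
    Sim (ZZ w X Mk (insert (u, mkS (eqL a b)) C)) (ZZ w X Mk (insert (u, mkS (eqL b a)) C)) :=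
  useL c_eqSymm 2 [] c_eqSymm_check hwf [a, b] rfl hL u hu.hX hu.hw (by decide)
    (fun d hd => absurd hd List.not_mem_nil) hu (by decide) (by decide) (by decide)

theorem mac_addComm {a b c : Fin 3 → V} (hwf : WF w X Mk C) (hL : Loc w z X Mk [a, b, c])
    (hu : Fresh w X C u) :
    Sim (ZZ w X Mk (insert (u, mkS (addL a b c)) C))
      (ZZ w X Mk (insert (u, mkS (addL b a c)) C)) :=
  useL c_addComm 3 [] c_addComm_check hwf [a, b, c] rfl hL u hu.hX hu.hw (by decide)
    (fun d hd => absurd hd List.not_mem_nil) hu (by decide) (by decide) (by decide)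

theorem mac_capEq {a b : Fin 3 → V} {v : V} (hwf : WF w X Mk C) (hL : Loc w z X Mk [a, b])
    (hv : (v, mkS (capL z a)) ∈ C) (hu : Fresh w X C u) :
    Sim (ZZ w X Mk (insert (u, mkS (eqL a b)) C)) (ZZ w X Mk (insert (u, mkS (capL z b)) C)) :=
  useL c_capEq 2 s_capEq c_capEq_check hwf [a, b] rfl hL v (hwf.tag _ hv).1 (hwf.tag _ hv).2
    (by decide) (by
      intro d hd
      rw [s_capEq, List.mem_singleton] at hd
      subst hd
      exact hv) hu (by decide) (by decide) (by decide)

theorem mac_addZero {a b c : Fin 3 → V} {v : V} (hwf : WF w X Mk C)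
    (hL : Loc w z X Mk [a, b, c]) (hv : (v, mkS (capL z b)) ∈ C) (hu : Fresh w X C u) :
    Sim (ZZ w X Mk (insert (u, mkS (addL a b c)) C)) (ZZ w X Mk (insert (u, mkS (eqL a c)) C)) :=
  useL c_addZero 3 s_addZero c_addZero_check hwf [a, b, c] rfl hL v (hwf.tag _ hv).1
    (hwf.tag _ hv).2 (by decide) (by
      intro d hd
      rw [s_addZero, List.mem_singleton] at hd
      subst hd
      exact hv) hu (by decide) (by decide) (by decide)

theorem mac_eqSub {c y x : Fin 3 → V} {v : V} (hwf : WF w X Mk C)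
    (hL : Loc w z X Mk [c, y, x]) (hv : (v, mkS (addL c y x)) ∈ C) (hu : Fresh w X C u) :
    Sim (ZZ w X Mk (insert (u, mkS (eqL x y)) C)) (ZZ w X Mk (insert (u, mkS (capL z c)) C)) :=
  Sim.symm (useL c_eqSub 3 s_eqSub c_eqSub_check hwf [c, y, x] rfl hL v (hwf.tag _ hv).1
    (hwf.tag _ hv).2 (by decide) (by
      intro d hd
      rw [s_eqSub, List.mem_singleton] at hd
      subst hd
      exact hv) hu (by decide) (by decide) (by decide))

theorem mac_addUniq {a b c d : Fin 3 → V} {v : V} (hwf : WF w X Mk C)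
    (hL : Loc w z X Mk [a, b, c, d]) (hv : (v, mkS (addL a b c)) ∈ C) (hu : Fresh w X C u) :
    Sim (ZZ w X Mk (insert (u, mkS (addL a b d)) C)) (ZZ w X Mk (insert (u, mkS (eqL c d)) C)) :=
  useL c_addUniq 4 s_addUniq c_addUniq_check hwf [a, b, c, d] rfl hL v (hwf.tag _ hv).1
    (hwf.tag _ hv).2 (by decide) (by
      intro d hd
      rw [s_addUniq, List.mem_singleton] at hd
      subst hd
      exact hv) hu (by decide) (by decide) (by decide)

theorem mac_subCap {a b : Fin 3 → V} {v : V} (hwf : WF w X Mk C) (hL : Loc w z X Mk [a, b])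
    (hv : (v, mkS (eqL a b)) ∈ C) (hu : Fresh w X C u) :
    Sim (ZZ w X Mk (insert (u, mkS (capL z a)) C)) (ZZ w X Mk (insert (u, mkS (capL z b)) C)) :=
  useL c_subCap 2 s_subCap c_subCap_check hwf [a, b] rfl hL v (hwf.tag _ hv).1 (hwf.tag _ hv).2
    (by decide) (by
      intro d hd
      rw [s_subCap, List.mem_singleton] at hd
      subst hd
      exact hv) hu (by decide) (by decide) (by decide)

theorem mac_subEq {a b c : Fin 3 → V} {v : V} (hwf : WF w X Mk C)
    (hL : Loc w z X Mk [a, b, c]) (hv : (v, mkS (eqL a b)) ∈ C) (hu : Fresh w X C u) :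
    Sim (ZZ w X Mk (insert (u, mkS (eqL a c)) C)) (ZZ w X Mk (insert (u, mkS (eqL b c)) C)) :=
  useL c_subEq 3 s_subEq c_subEq_check hwf [a, b, c] rfl hL v (hwf.tag _ hv).1
    (hwf.tag _ hv).2 (by decide) (by
      intro d hd
      rw [s_subEq, List.mem_singleton] at hd
      subst hd
      exact hv) hu (by decide) (by decide) (by decide)

theorem mac_subAdd1 {a b c d : Fin 3 → V} {v : V} (hwf : WF w X Mk C)
    (hL : Loc w z X Mk [a, b, c, d]) (hv : (v, mkS (eqL a b)) ∈ C) (hu : Fresh w X C u) :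
    Sim (ZZ w X Mk (insert (u, mkS (addL a c d)) C))
      (ZZ w X Mk (insert (u, mkS (addL b c d)) C)) :=
  useL c_subAdd1 4 s_subAdd1 c_subAdd1_check hwf [a, b, c, d] rfl hL v (hwf.tag _ hv).1
    (hwf.tag _ hv).2 (by decide) (by
      intro d hd
      rw [s_subAdd1, List.mem_singleton] at hd
      subst hd
      exact hv) hu (by decide) (by decide) (by decide)

theorem mac_subAdd3 {a b c d : Fin 3 → V} {v : V} (hwf : WF w X Mk C)
    (hL : Loc w z X Mk [a, b, c, d]) (hv : (v, mkS (eqL a b)) ∈ C) (hu : Fresh w X C u) :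
    Sim (ZZ w X Mk (insert (u, mkS (addL c d a)) C))
      (ZZ w X Mk (insert (u, mkS (addL c d b)) C)) :=
  useL c_subAdd3 4 s_subAdd3 c_subAdd3_check hwf [a, b, c, d] rfl hL v (hwf.tag _ hv).1
    (hwf.tag _ hv).2 (by decide) (by
      intro d hd
      rw [s_subAdd3, List.mem_singleton] at hd
      subst hd
      exact hv) hu (by decide) (by decide) (by decide)

/-- sublists of triples -/
theorem Loc.sublist {ns ns' : List (Fin 3 → V)} (h : ns'.Sublist ns) (hL : Loc w z X Mk ns) :
    Loc w z X Mk ns' := by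
  have hf : ∀ {l l' : List (Fin 3 → V)}, l'.Sublist l → (flt l').Sublist (flt l) := by
    intro l l' h
    exact List.Sublist.flatMap h _
  have h1 : (z :: flt ns').Sublist (z :: flt ns) := (hf h).cons_cons z
  have hnil : ∀ a ∈ ns, ∀ i : Fin 3, a i ∈ flt ns := by
    intro a ha i
    unfold flt
    rw [List.mem_flatMap]
    refine ⟨a, ha, ?_⟩
    fin_cases i <;> simp
  refine ⟨hL.nd.sublist h1, fun v hv => hL.sub v (h1.subset hv), ?_⟩
  intro t ht htv
  obtain ⟨a, ha, rfl⟩ := hL.mrk t ht (fun v hv => h1.subset (htv v hv))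
  have h2 : a 0 ∈ z :: flt ns' := htv _ (Finset.mem_image.2 ⟨0, Finset.mem_univ _, rfl⟩)
  have hz : z ∉ flt ns := (List.nodup_cons.1 hL.nd).1
  have h3 : a 0 ∈ flt ns' := by
    rcases List.mem_cons.1 h2 with h | h
    · exact absurd (h ▸ hnil a ha 0) hz
    · exact h
  unfold flt at h3
  rw [List.mem_flatMap] at h3
  obtain ⟨b, hb, hab⟩ := h3
  have hbn : b ∈ ns := h.subset hb
  refine ⟨b, hb, ?_⟩
  have hnd : (flt ns).Nodup := (List.nodup_cons.1 hL.nd).2
  -- two triples of the list with a common vertex are equal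
  have key : ∀ l : List (Fin 3 → V), (flt l).Nodup → ∀ a ∈ l, ∀ b ∈ l, a 0 ∈ [b 0, b 1, b 2] →
      a = b := by
    intro l
    induction l with
    | nil => intro _ a ha; simp at ha
    | cons c l ih =>
      intro hn a ha b hb hab
      have h1 : flt (c :: l) = [c 0, c 1, c 2] ++ flt l := rfl
      rw [h1, List.nodup_append] at hn
      obtain ⟨_, hn2, hn3⟩ := hn
      have hm : ∀ d ∈ l, ∀ i : Fin 3, d i ∈ flt l := by
        intro d hd i
        unfold flt
        rw [List.mem_flatMap]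
        refine ⟨d, hd, ?_⟩
        fin_cases i <;> simp
      rcases List.mem_cons.1 ha with rfl | ha'
      · rcases List.mem_cons.1 hb with rfl | hb'
        · rfl
        · exfalso
          refine hn3 (a 0) (by simp) (a 0) ?_ rfl
          unfold flt
          rw [List.mem_flatMap]
          exact ⟨b, hb', hab⟩
      · rcases List.mem_cons.1 hb with rfl | hb'
        · exfalso
          exact hn3 (a 0) hab (a 0) (hm a ha' 0) rfl
        · exact ih hn2 a ha' b hb' hab
  rw [key ns hnd a ha b hbn hab]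

/-- `(a + b) + c = a + (b + c)` with `x = a + b`, `y = b + c` -/
theorem mac_assoc {a b c d x y : Fin 3 → V} {v v' : V} (hwf : WF w X Mk C)
    (hL : Loc w z X Mk [a, b, c, d, x, y]) (hv : (v, mkS (addL a b x)) ∈ C)
    (hv' : (v', mkS (addL b c y)) ∈ C) (hu : Fresh w X C u) :
    Sim (ZZ w X Mk (insert (u, mkS (addL x c d)) C))
      (ZZ w X Mk (insert (u, mkS (addL a y d)) C)) := by
  have h1 := useL c_assoc1 5 s_assoc1 c_assoc1_check hwf [a, b, c, d, x] rfl
    (hL.sublist (by simp)) v (hwf.tag _ hv).1 (hwf.tag _ hv).2 (by decide) (by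
      intro d hd
      rw [s_assoc1, List.mem_singleton] at hd
      subst hd
      exact hv) hu (by decide) (by decide) (by decide)
  have h2 := useL c_assoc2 4 [] c_assoc2_check hwf [a, b, c, d] rfl
    (hL.sublist (by simp)) u hu.hX hu.hw (by decide)
    (fun d hd => absurd hd List.not_mem_nil) hu (by decide) (by decide) (by decide)
  have h3 := useL c_assoc3 5 s_assoc3 c_assoc3_check hwf [a, b, c, d, y] rfl
    (hL.sublist (by simp)) v' (hwf.tag _ hv').1 (hwf.tag _ hv').2 (by decide) (by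
      intro d hd
      rw [s_assoc3, List.mem_singleton] at hd
      subst hd
      exact hv') hu (by decide) (by decide) (by decide)
  exact Sim.trans h1 (Sim.trans h2 (Sim.symm h3))

/-! ## discs -/

theorem mem_img_list {φ : ℕ → V} {T : List (List ℕ)} {x : Finset V} :
    x ∈ img φ T ↔ ∃ s ∈ T, (s.map φ).toFinset = x := by
  unfold img mkS
  rw [List.mem_toFinset, List.mem_map]
  constructor
  · rintro ⟨l, hl, rfl⟩
    obtain ⟨l', hl', rfl⟩ := List.mem_map.1 hl
    exact ⟨l', hl', rfl⟩
  · rintro ⟨s, hs, rfl⟩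
    exact ⟨s.map φ, List.mem_map.2 ⟨s, hs, rfl⟩, rfl⟩

theorem toFinset_map (φ : ℕ → V) (s : List ℕ) : (s.map φ).toFinset = s.toFinset.image φ := by
  ext x
  simp only [List.mem_toFinset, List.mem_map, Finset.mem_image]

theorem erase_img {φ : ℕ → V} {n : ℕ} (hφ : Set.InjOn φ {i | i < n}) (T : List (List ℕ))
    (t : List ℕ) (hT : T.all (fun s => s.all (fun i => decide (i < n))) = true)
    (ht : t.all (fun i => decide (i < n)) = true) :
    (img φ T).erase (t.map φ).toFinset =
      img φ (T.filter (fun s => decide (s.toFinset ≠ t.toFinset))) := by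
  ext x
  rw [Finset.mem_erase, mem_img_list, mem_img_list]
  constructor
  · rintro ⟨hx, s, hs, rfl⟩
    refine ⟨s, List.mem_filter.2 ⟨hs, ?_⟩, rfl⟩
    rw [decide_eq_true_eq]
    intro h
    apply hx
    rw [toFinset_map, toFinset_map, h]
  · rintro ⟨s, hs, rfl⟩
    obtain ⟨hs, h2⟩ := List.mem_filter.1 hs
    rw [decide_eq_true_eq] at h2
    refine ⟨?_, s, hs, rfl⟩
    intro h
    apply h2
    rw [toFinset_map, toFinset_map] at h
    have h1 : ∀ i ∈ s, i < n := by
      intro i hi
      have := List.all_eq_true.1 (List.all_eq_true.1 hT s hs) i hi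
      simpa using this
    have h3 : ∀ i ∈ t, i < n := by
      intro i hi
      have := List.all_eq_true.1 ht i hi
      simpa using this
    ext i
    constructor
    · intro hi
      have : φ i ∈ t.toFinset.image φ := by
        rw [← h]; exact Finset.mem_image_of_mem φ hi
      obtain ⟨j, hj, hij⟩ := Finset.mem_image.1 this
      rw [← hφ (h3 j (List.mem_toFinset.1 hj)) (h1 i (List.mem_toFinset.1 hi)) hij]
      exact hj
    · intro hi
      have : φ i ∈ s.toFinset.image φ := by
        rw [h]; exact Finset.mem_image_of_mem φ hi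
      obtain ⟨j, hj, hij⟩ := Finset.mem_image.1 this
      rw [← hφ (h1 j (List.mem_toFinset.1 hj)) (h3 i (List.mem_toFinset.1 hi)) hij]
      exact hj

theorem edge_img {φ : ℕ → V} (T : List (List ℕ)) (t : List ℕ)
    (h : t.all (fun i => T.any (fun s => t.all (fun j => j == i || s.contains j))) = true) :
    ∀ y ∈ (t.map φ).toFinset, (t.map φ).toFinset.erase y ∈ cl (img φ T) := by
  intro y hy
  rw [List.mem_toFinset, List.mem_map] at hy
  obtain ⟨i, hi, rfl⟩ := hy
  have h1 := List.all_eq_true.1 h i hi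
  obtain ⟨s, hs, h2⟩ := List.any_eq_true.1 h1
  refine ⟨(s.map φ).toFinset, mem_img_list.2 ⟨s, hs, rfl⟩, ?_⟩
  intro x hx
  obtain ⟨hx1, hx2⟩ := Finset.mem_erase.1 hx
  rw [List.mem_toFinset, List.mem_map] at hx2
  obtain ⟨j, hj, rfl⟩ := hx2
  have h3 := List.all_eq_true.1 h2 j hj
  rw [Bool.or_eq_true] at h3
  rcases h3 with h3 | h3
  · exfalso
    apply hx1
    rw [beq_iff_eq] at h3
    rw [h3]
  · rw [List.contains_iff_mem] at h3
    rw [List.mem_toFinset, List.mem_map]
    exact ⟨j, h3, rfl⟩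

theorem disc_gen (c : Crt) (h : c.check (inOk c.L1) = true) (p : ℕ) (hp : c.L0 = [[p]])
    (vs : List V) (d : V) (hvs : vs.Nodup) (hn : c.n = vs.length) (T : List (List ℕ))
    (t : List ℕ) (hT : T.all (fun s => s.all (fun i => decide (i < c.n))) = true)
    (ht : t.all (fun i => decide (i < c.n)) = true)
    (hc : T.filter (fun s => decide (s.toFinset ≠ t.toFinset)) = c.L1)
    (he : t.all (fun i => c.L1.any (fun s => t.all (fun j => j == i || s.contains j))) = true) :
    Disc (img (fun i => vs.getD i d) T) (t.map (fun i => vs.getD i d)).toFinset ∧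
      ∀ y ∈ (t.map (fun i => vs.getD i d)).toFinset,
        (t.map (fun i => vs.getD i d)).toFinset.erase y ∈
          cl ((img (fun i => vs.getD i d) T).erase (t.map (fun i => vs.getD i d)).toFinset) := by
  have hinj : Set.InjOn (fun i => vs.getD i d) {i | i < c.n} := by
    intro i hi j hj hij
    have hi' : i < vs.length := by rw [← hn]; exact hi
    have hj' : j < vs.length := by rw [← hn]; exact hj
    simp only at hij
    rw [List.getD_eq_getElem _ _ hi', List.getD_eq_getElem _ _ hj'] at hij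
    exact (List.Nodup.getElem_inj_iff hvs).1 hij
  have h1 := erase_img hinj T t hT ht
  rw [hc] at h1
  refine ⟨Crt.disc c h p hp _ hinj h1, ?_⟩
  rw [h1]
  exact edge_img _ _ he

theorem rg_list (a : Fin 3 → V) : rg a = [a 0, a 1, a 2].toFinset := by
  ext x
  simp only [rg, Finset.mem_image, Finset.mem_univ, true_and, List.mem_toFinset, List.mem_cons,
    List.not_mem_nil, or_false]
  constructor
  · rintro ⟨j, rfl⟩
    fin_cases j
    · left; rfl
    · right; left; rfl
    · right; right; rfl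
  · rintro (rfl | rfl | rfl)
    · exact ⟨0, rfl⟩
    · exact ⟨1, rfl⟩
    · exact ⟨2, rfl⟩

theorem disc_cap' {z : V} {a : Fin 3 → V} (h : [z, a 0, a 1, a 2].Nodup) :
    Disc (mkS (capL z a)) (rg a) ∧ ∀ y ∈ rg a, (rg a).erase y ∈ cl ((mkS (capL z a)).erase (rg a)) := by
  rw [rg_list]
  exact disc_gen c_discCap c_discCap_check _ rfl [z, a 0, a 1, a 2] z h rfl
    (capL 0 ![1, 2, 3]) [1, 2, 3] (by decide) (by decide) (by decide) (by decide)

theorem disc_eq' {a b : Fin 3 → V} (h : [a 0, a 1, a 2, b 0, b 1, b 2].Nodup) :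
    Disc (mkS (eqL a b)) (rg b) ∧ ∀ y ∈ rg b, (rg b).erase y ∈ cl ((mkS (eqL a b)).erase (rg b)) := by
  rw [rg_list]
  exact disc_gen c_discEq c_discEq_check _ rfl [a 0, a 1, a 2, b 0, b 1, b 2] (a 0) h rfl
    (eqL ![0, 1, 2] ![3, 4, 5]) [3, 4, 5] (by decide) (by decide) (by decide) (by decide)

theorem disc_add3' {a b c : Fin 3 → V}
    (h : [a 0, a 1, a 2, b 0, b 1, b 2, c 0, c 1, c 2].Nodup) :
    Disc (mkS (addL a b c)) (rg c) ∧
      ∀ y ∈ rg c, (rg c).erase y ∈ cl ((mkS (addL a b c)).erase (rg c)) := by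
  rw [rg_list]
  exact disc_gen c_discAdd3 c_discAdd3_check _ rfl
    [a 0, a 1, a 2, b 0, b 1, b 2, c 0, c 1, c 2] (a 0) h rfl
    (addL ![0, 1, 2] ![3, 4, 5] ![6, 7, 8]) [6, 7, 8] (by decide) (by decide) (by decide)
    (by decide)

theorem disc_add1' {a b c : Fin 3 → V}
    (h : [a 0, a 1, a 2, b 0, b 1, b 2, c 0, c 1, c 2].Nodup) :
    Disc (mkS (addL a b c)) (rg a) ∧
      ∀ y ∈ rg a, (rg a).erase y ∈ cl ((mkS (addL a b c)).erase (rg a)) := by
  rw [rg_list]
  exact disc_gen c_discAdd1 c_discAdd1_check _ rfl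
    [a 0, a 1, a 2, b 0, b 1, b 2, c 0, c 1, c 2] (a 0) h rfl
    (addL ![0, 1, 2] ![3, 4, 5] ![6, 7, 8]) [0, 1, 2] (by decide) (by decide) (by decide)
    (by decide)

theorem nd_one {a : Fin 3 → V} (ha : Function.Injective a) : [a 0, a 1, a 2].Nodup := by
  have h01 : a 0 ≠ a 1 := fun h => absurd (ha h) (by decide)
  have h02 : a 0 ≠ a 2 := fun h => absurd (ha h) (by decide)
  have h12 : a 1 ≠ a 2 := fun h => absurd (ha h) (by decide)
  simp [h01, h02, h12]

theorem nd_app {a : Fin 3 → V} {l : List V} (ha : Function.Injective a) (hl : l.Nodup)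
    (h : ∀ i, a i ∉ l) : (a 0 :: a 1 :: a 2 :: l).Nodup := by
  have h1 := nd_one ha
  simp only [List.nodup_cons, List.mem_cons, List.not_mem_nil, or_false, not_or] at h1 ⊢
  exact ⟨⟨h1.1.1, h1.1.2, h 0⟩, ⟨h1.2.1, h 1⟩, h 2, hl⟩

theorem disc_cap {z : V} {a : Fin 3 → V} (ha : Function.Injective a) (hz : ∀ i, a i ≠ z) :
    Disc (mkS (capL z a)) (rg a) := by
  refine (disc_cap' ?_).1
  rw [List.nodup_cons]
  refine ⟨?_, nd_one ha⟩
  simp only [List.mem_cons, List.not_mem_nil, or_false, not_or]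
  exact ⟨(hz 0).symm, (hz 1).symm, (hz 2).symm⟩

theorem disc_eq {a b : Fin 3 → V} (ha : Function.Injective a) (hb : Function.Injective b)
    (hab : ∀ i j, a i ≠ b j) : Disc (mkS (eqL a b)) (rg b) := by
  refine (disc_eq' ?_).1
  refine nd_app ha (nd_one hb) ?_
  intro i
  simp only [List.mem_cons, List.not_mem_nil, or_false, not_or]
  exact ⟨hab i 0, hab i 1, hab i 2⟩

theorem nd_three {a b c : Fin 3 → V} (ha : Function.Injective a) (hb : Function.Injective b)
    (hc : Function.Injective c) (hab : ∀ i j, a i ≠ b j) (hac : ∀ i j, a i ≠ c j)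
    (hbc : ∀ i j, b i ≠ c j) : [a 0, a 1, a 2, b 0, b 1, b 2, c 0, c 1, c 2].Nodup := by
  refine nd_app ha (nd_app hb (nd_one hc) ?_) ?_
  · intro i
    simp only [List.mem_cons, List.not_mem_nil, or_false, not_or]
    exact ⟨hbc i 0, hbc i 1, hbc i 2⟩
  · intro i
    simp only [List.mem_cons, List.not_mem_nil, or_false, not_or]
    exact ⟨hab i 0, hab i 1, hab i 2, hac i 0, hac i 1, hac i 2⟩

theorem disc_add3 {a b c : Fin 3 → V} (ha : Function.Injective a) (hb : Function.Injective b)
    (hc : Function.Injective c) (hab : ∀ i j, a i ≠ b j) (hac : ∀ i j, a i ≠ c j)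
    (hbc : ∀ i j, b i ≠ c j) : Disc (mkS (addL a b c)) (rg c) :=
  (disc_add3' (nd_three ha hb hc hab hac hbc)).1

theorem disc_add1 {a b c : Fin 3 → V} (ha : Function.Injective a) (hb : Function.Injective b)
    (hc : Function.Injective c) (hab : ∀ i j, a i ≠ b j) (hac : ∀ i j, a i ≠ c j)
    (hbc : ∀ i j, b i ≠ c j) : Disc (mkS (addL a b c)) (rg a) :=
  (disc_add1' (nd_three ha hb hc hab hac hbc)).1

/-! ## the tetrahedron -/

/-- the faces of a tetrahedron, as triples; `fct p i` is opposite to `p i` -/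
def fct (p : Fin 4 → V) (i : Fin 4) : Fin 3 → V :=
  match i with
  | 0 => ![p 1, p 2, p 3]
  | 1 => ![p 0, p 2, p 3]
  | 2 => ![p 0, p 1, p 3]
  | 3 => ![p 0, p 1, p 2]

/-- general position for the tetrahedron macro -/
structure LocT (z : V) (X : Finset V) (Mk : Finset (Finset V)) (p : Fin 4 → V)
    (ns : List (Fin 3 → V)) : Prop where
  nd : (z :: p 0 :: p 1 :: p 2 :: p 3 :: flt ns).Nodup
  sub : ∀ v ∈ z :: p 0 :: p 1 :: p 2 :: p 3 :: flt ns, v ∈ X
  mrk : ∀ t ∈ Mk, (∀ v ∈ t, v ∈ z :: p 0 :: p 1 :: p 2 :: p 3 :: flt ns) →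
    (∃ i, rg (fct p i) = t) ∨ ∃ a ∈ ns, rg a = t

theorem useT (c : Crt) (mk : List (List ℕ)) (cells : List (ℕ × List (List ℕ)))
    (hmk : mk = [[3, 4, 5], [2, 4, 5], [2, 3, 5], [2, 3, 4], [6, 7, 8], [9, 10, 11], [12, 13, 14],
      [15, 16, 17]])
    (h : c.check (envOk 18 mk cells) = true) (hwf : WF w X Mk C)
    (p : Fin 4 → V) (a₀ a₁ a₂ a₃ : Fin 3 → V) (hL : LocT z X Mk p [a₀, a₁, a₂, a₃]) (v : V)
    (hvX : v ∉ X) (hvw : v ≠ w) (hn : c.n ≤ 19)
    (hcells : ∀ d ∈ cells,
      (lab w (z :: p 0 :: p 1 :: p 2 :: p 3 :: flt [a₀, a₁, a₂, a₃]) v d.1,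
        img (lab w (z :: p 0 :: p 1 :: p 2 :: p 3 :: flt [a₀, a₁, a₂, a₃]) v) d.2) ∈ C)
    {u : V} (hu : Fresh w X C u) (hmn : 18 ≤ c.n)
    (hL0 : c.L0.all (fun t => decide (t.length = 3) && decide t.Nodup &&
      t.all (fun i => decide (0 < i ∧ i < 18))) = true)
    (hL1 : c.L1.all (fun t => t.all (fun i => decide (i < 18))) = true) :
    Sim (ZZ w X Mk (insert (u,
        img (nlab w (z :: p 0 :: p 1 :: p 2 :: p 3 :: flt [a₀, a₁, a₂, a₃])) c.L0) C))
      (ZZ w X Mk (insert (u,
        img (nlab w (z :: p 0 :: p 1 :: p 2 :: p 3 :: flt [a₀, a₁, a₂, a₃])) c.L1) C)) := by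
  refine useG c 18 mk cells h hwf _ rfl hL.nd hL.sub v hvX hvw hn ?_ (by rw [hmk]; decide) hcells
    hu hmn hL0 hL1
  intro t ht htv
  rcases hL.mrk t ht htv with ⟨i, rfl⟩ | ⟨a, ha, rfl⟩
  · rw [hmk]
    fin_cases i
    · exact ⟨[3, 4, 5], by decide, by rw [rg_list]; rfl⟩
    · exact ⟨[2, 4, 5], by decide, by rw [rg_list]; rfl⟩
    · exact ⟨[2, 3, 5], by decide, by rw [rg_list]; rfl⟩
    · exact ⟨[2, 3, 4], by decide, by rw [rg_list]; rfl⟩
  · rw [hmk]
    simp only [List.mem_cons, List.not_mem_nil, or_false] at ha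
    rcases ha with rfl | rfl | rfl | rfl
    · exact ⟨[6, 7, 8], by decide, by rw [rg_list]; rfl⟩
    · exact ⟨[9, 10, 11], by decide, by rw [rg_list]; rfl⟩
    · exact ⟨[12, 13, 14], by decide, by rw [rg_list]; rfl⟩
    · exact ⟨[15, 16, 17], by decide, by rw [rg_list]; rfl⟩


end Pool.Agent.DF302A.PI
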