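import Pool.Agent.Work.MP_df302a_co.I4

/-! # MP_df302a_co, part (I), module I4T: the tetrahedron macro. -/

set_option autoImplicit false

namespace Pool.Agent.DF302A.PI

open Finset

variable {V : Type*} [DecidableEq V] {w z : V} {X : Finset V} {Mk : Finset (Finset V)}
  {C : Finset (V × Finset (Finset V))} {u : V}

theorem t01 : c_tetA0.L1 = c_tetA1.L0 := by decide
theorem t12 : c_tetA1.L1 = c_tetA2.L0 := by decide
theorem t23 : c_tetA2.L1 = c_tetA3.L0 := by decide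
theorem t3B : c_tetA3.L1 = c_tetB.L0 := by decide

theorem tBC {a₀ a₁ a₂ a₃ : Fin 3 → V} (p : Fin 4 → V) :
    img (nlab w (z :: p 0 :: p 1 :: p 2 :: p 3 :: flt [a₀, a₁, a₂, a₃])) c_tetB.L1 =
    img (nlab w (z :: flt [a₀, a₁, a₂, a₃])) c_tetC.L0 := rfl

theorem tCE {a₀ a₁ a₂ a₃ y : Fin 3 → V} :
    img (nlab w (z :: flt [a₀, a₁, a₂, a₃])) c_tetC.L1 =
    img (nlab w (z :: flt [a₀, a₁, a₂, a₃, y])) c_tetE.L1 := rfl

theorem tDE {a₀ a₁ a₂ a₃ x y : Fin 3 → V} :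
    img (nlab w (z :: flt [a₀, a₂, x, y])) c_tetD.L1 =
    img (nlab w (z :: flt [a₀, a₁, a₂, a₃, y])) c_tetE.L0 := rfl

theorem tA {a₀ a₁ a₂ a₃ : Fin 3 → V} (p : Fin 4 → V) :
    mkS (tetL p) =
    img (nlab w (z :: p 0 :: p 1 :: p 2 :: p 3 :: flt [a₀, a₁, a₂, a₃])) c_tetA0.L0 := rfl

theorem tD {a₀ a₂ x y : Fin 3 → V} :
    mkS (eqL x y) = img (nlab w (z :: flt [a₀, a₂, x, y])) c_tetD.L0 := rfl

/-- the tetrahedron macro: `a_i` = name of the face opposite to `p i`, `x = a₀ + a₂`, `y = a₁ + a₃` -/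
theorem mac_tet {p : Fin 4 → V} {a₀ a₁ a₂ a₃ x y : Fin 3 → V} {v₀ v₁ v₂ v₃ v v' : V}
    (hwf : WF w X Mk C) (hT : LocT z X Mk p [a₀, a₁, a₂, a₃])
    (hL : Loc w z X Mk [a₀, a₁, a₂, a₃, x, y])
    (h₀ : (v₀, mkS (eqL (fct p 0) a₀)) ∈ C) (h₁ : (v₁, mkS (eqL (fct p 1) a₁)) ∈ C)
    (h₂ : (v₂, mkS (eqL (fct p 2) a₂)) ∈ C) (h₃ : (v₃, mkS (eqL (fct p 3) a₃)) ∈ C)
    (hv : (v, mkS (addL a₀ a₂ x)) ∈ C) (hv' : (v', mkS (addL a₁ a₃ y)) ∈ C)
    (hu : Fresh w X C u) :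
    Sim (ZZ w X Mk (insert (u, mkS (tetL p)) C)) (ZZ w X Mk (insert (u, mkS (eqL x y)) C)) := by
  have e0 := useT c_tetA0 _ s_tetA0 rfl c_tetA0_check hwf p a₀ a₁ a₂ a₃ hT v₀ (hwf.tag _ h₀).1
    (hwf.tag _ h₀).2 (by decide) (by
      intro d hd
      rw [s_tetA0, List.mem_singleton] at hd
      subst hd
      exact h₀) hu (by decide) (by decide) (by decide)
  have e1 := useT c_tetA1 _ s_tetA1 rfl c_tetA1_check hwf p a₀ a₁ a₂ a₃ hT v₁ (hwf.tag _ h₁).1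
    (hwf.tag _ h₁).2 (by decide) (by
      intro d hd
      rw [s_tetA1, List.mem_singleton] at hd
      subst hd
      exact h₁) hu (by decide) (by decide) (by decide)
  have e2 := useT c_tetA2 _ s_tetA2 rfl c_tetA2_check hwf p a₀ a₁ a₂ a₃ hT v₂ (hwf.tag _ h₂).1
    (hwf.tag _ h₂).2 (by decide) (by
      intro d hd
      rw [s_tetA2, List.mem_singleton] at hd
      subst hd
      exact h₂) hu (by decide) (by decide) (by decide)
  have e3 := useT c_tetA3 _ s_tetA3 rfl c_tetA3_check hwf p a₀ a₁ a₂ a₃ hT v₃ (hwf.tag _ h₃).1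
    (hwf.tag _ h₃).2 (by decide) (by
      intro d hd
      rw [s_tetA3, List.mem_singleton] at hd
      subst hd
      exact h₃) hu (by decide) (by decide) (by decide)
  have e4 := useT c_tetB _ [] rfl c_tetB_check hwf p a₀ a₁ a₂ a₃ hT u hu.hX hu.hw (by decide)
    (fun d hd => absurd hd List.not_mem_nil) hu (by decide) (by decide) (by decide)
  have e5 := useL c_tetC 4 [] c_tetC_check hwf [a₀, a₁, a₂, a₃] rfl (hL.sublist (by simp)) u hu.hX
    hu.hw (by decide) (fun d hd => absurd hd List.not_mem_nil) hu (by decide) (by decide)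
    (by decide)
  have e6 := useL c_tetD 4 s_tetD c_tetD_check hwf [a₀, a₂, x, y] rfl (hL.sublist (by simp)) v
    (hwf.tag _ hv).1 (hwf.tag _ hv).2 (by decide) (by
      intro d hd
      rw [s_tetD, List.mem_singleton] at hd
      subst hd
      exact hv) hu (by decide) (by decide) (by decide)
  have e7 := useL c_tetE 5 s_tetE c_tetE_check hwf [a₀, a₁, a₂, a₃, y] rfl
    (hL.sublist (by simp)) v' (hwf.tag _ hv').1 (hwf.tag _ hv').2 (by decide) (by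
      intro d hd
      rw [s_tetE, List.mem_singleton] at hd
      subst hd
      exact hv') hu (by decide) (by decide) (by decide)
  rw [t01] at e0
  rw [t12] at e1
  rw [t23] at e2
  rw [t3B] at e3
  rw [tBC] at e4
  rw [tCE (y := y)] at e5
  rw [tDE (a₁ := a₁) (a₃ := a₃)] at e6
  rw [tA (w := w) (z := z) (a₀ := a₀) (a₁ := a₁) (a₂ := a₂) (a₃ := a₃) p,
    tD (w := w) (z := z) (a₀ := a₀) (a₂ := a₂) (x := x) (y := y)]
  exact Sim.trans e0 (Sim.trans e1 (Sim.trans e2 (Sim.trans e3 (Sim.trans e4 (Sim.trans e5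
    (Sim.symm (Sim.trans e6 e7)))))))

omit [DecidableEq V] in
theorem mem_fct (p : Fin 4 → V) (i : Fin 4) (j : Fin 3) : ∃ k, fct p i j = p k := by
  fin_cases i <;> fin_cases j
  · exact ⟨1, rfl⟩
  · exact ⟨2, rfl⟩
  · exact ⟨3, rfl⟩
  · exact ⟨0, rfl⟩
  · exact ⟨2, rfl⟩
  · exact ⟨3, rfl⟩
  · exact ⟨0, rfl⟩
  · exact ⟨1, rfl⟩
  · exact ⟨3, rfl⟩
  · exact ⟨0, rfl⟩
  · exact ⟨1, rfl⟩
  · exact ⟨2, rfl⟩

omit [DecidableEq V] in
theorem mem_four (p : Fin 4 → V) (k : Fin 4) (z : V) (l : List V) :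
    p k ∈ z :: p 0 :: p 1 :: p 2 :: p 3 :: l := by
  fin_cases k <;> simp

omit [DecidableEq V] in
theorem four_notMem {z : V} {p : Fin 4 → V} {l : List V}
    (h : (z :: p 0 :: p 1 :: p 2 :: p 3 :: l).Nodup) (k : Fin 4) : p k ∉ z :: l := by
  simp only [List.nodup_cons, List.mem_cons, not_or] at h
  obtain ⟨⟨h1, h2, h3, h4, h5⟩, ⟨_, _, _, g0⟩, ⟨_, _, g1⟩, ⟨_, g2⟩, g3, _⟩ := h
  rw [List.mem_cons, not_or]
  fin_cases k
  · exact ⟨fun h => h1 h.symm, g0⟩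
  · exact ⟨fun h => h2 h.symm, g1⟩
  · exact ⟨fun h => h3 h.symm, g2⟩
  · exact ⟨fun h => h4 h.symm, g3⟩

theorem LocT.loc {p : Fin 4 → V} {ns : List (Fin 3 → V)} (h : LocT z X Mk p ns) :
    Loc w z X Mk ns := by
  have hsub : (z :: flt ns).Sublist (z :: p 0 :: p 1 :: p 2 :: p 3 :: flt ns) := by
    refine List.Sublist.cons_cons z ?_
    exact List.Sublist.cons _ (List.Sublist.cons _ (List.Sublist.cons _ (List.Sublist.cons _
      (List.Sublist.refl _))))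
  refine ⟨h.nd.sublist hsub, fun v hv => h.sub v (hsub.subset hv), ?_⟩
  intro t ht htv
  rcases h.mrk t ht (fun v hv => hsub.subset (htv v hv)) with ⟨i, rfl⟩ | h1
  · exfalso
    obtain ⟨k, hk⟩ := mem_fct p i 0
    have h2 : p k ∈ z :: flt ns := by
      apply htv
      rw [← hk]
      exact Finset.mem_image.2 ⟨0, Finset.mem_univ _, rfl⟩
    exact four_notMem h.nd k h2
  · exact h1

theorem LocT.init {p : Fin 4 → V} {ns l : List (Fin 3 → V)} (h : LocT z X Mk p (ns ++ l)) :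
    LocT z X Mk p ns := by
  have hf : flt (ns ++ l) = flt ns ++ flt l := by
    unfold flt
    exact List.flatMap_append
  have hsub : (z :: p 0 :: p 1 :: p 2 :: p 3 :: flt ns).Sublist
      (z :: p 0 :: p 1 :: p 2 :: p 3 :: flt (ns ++ l)) := by
    rw [hf]
    have h1 : (flt ns).Sublist (flt ns ++ flt l) := List.sublist_append_left _ _
    exact ((((h1.cons_cons _).cons_cons _).cons_cons _).cons_cons _).cons_cons _
  refine ⟨h.nd.sublist hsub, fun v hv => h.sub v (hsub.subset hv), ?_⟩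
  intro t ht htv
  rcases h.mrk t ht (fun v hv => hsub.subset (htv v hv)) with h1 | ⟨a, ha, rfl⟩
  · exact Or.inl h1
  · right
    rcases List.mem_append.1 ha with ha | ha
    · exact ⟨a, ha, rfl⟩
    · exfalso
      have h2 : a 0 ∈ z :: p 0 :: p 1 :: p 2 :: p 3 :: flt ns :=
        htv _ (Finset.mem_image.2 ⟨0, Finset.mem_univ _, rfl⟩)
      have h3 : a 0 ∈ flt l := mem_flt.2 ⟨a, ha, 0, rfl⟩
      have hnd := h.nd
      rw [hf] at hnd
      have e : z :: p 0 :: p 1 :: p 2 :: p 3 :: (flt ns ++ flt l) =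
          (z :: p 0 :: p 1 :: p 2 :: p 3 :: flt ns) ++ flt l := rfl
      rw [e, List.nodup_append] at hnd
      exact hnd.2.2 _ h2 _ h3 rfl

/-- the tetrahedron macro, with one general position hypothesis -/
theorem mac_tet' {p : Fin 4 → V} {a₀ a₁ a₂ a₃ x y : Fin 3 → V} {v₀ v₁ v₂ v₃ vx vy : V}
    (hwf : WF w X Mk C) (hL : LocT z X Mk p [a₀, a₁, a₂, a₃, x, y])
    (h₀ : (v₀, mkS (eqL (fct p 0) a₀)) ∈ C) (h₁ : (v₁, mkS (eqL (fct p 1) a₁)) ∈ C)
    (h₂ : (v₂, mkS (eqL (fct p 2) a₂)) ∈ C) (h₃ : (v₃, mkS (eqL (fct p 3) a₃)) ∈ C)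
    (hx : (vx, mkS (addL a₀ a₂ x)) ∈ C) (hy : (vy, mkS (addL a₁ a₃ y)) ∈ C)
    (hu : Fresh w X C u) :
    Sim (ZZ w X Mk (insert (u, mkS (tetL p)) C)) (ZZ w X Mk (insert (u, mkS (eqL x y)) C)) :=
  mac_tet hwf (LocT.init (ns := [a₀, a₁, a₂, a₃]) (l := [x, y]) hL) hL.loc h₀ h₁ h₂ h₃ hx hy hu

end Pool.Agent.DF302A.PI
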