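import Pool.Agent.Work.MP_df302a_co.I4

/-! # MP_df302a_co, part (I), module I5: terms, names, relators, general states. -/

set_option autoImplicit false

namespace Pool.Agent.DF302A.PI

open Finset

/-- terms; `base t` = generator of the triangle `t` of `K`, `fr n` = free names -/
inductive Tm
  | base (t : Finset ℕ)
  | fr (n : ℕ)
  | zero
  | add (a b : Tm)
  | sub (a b : Tm)
deriving DecidableEq

/-- names: the term itself (index `0`) and two copies for its two arguments -/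
abbrev Nm := Tm × Fin 3

/-- vertices: `w`, `z`, vertices of names, tags of definitional cells, free tags, tags of simplices
of `K`, vertices of `K` -/
inductive Vx
  | w
  | z
  | n (a : Nm) (i : Fin 3)
  | d (a : Nm)
  | u (k : ℕ)
  | e (t : Finset ℕ)
  | k (j : ℕ)
deriving DecidableEq

deriving instance Countable for Tm
deriving instance Countable for Vx

/-- tags -/
def Vx.isTag : Vx → Prop
  | .d _ => True
  | .u _ => True
  | .e _ => True
  | _ => False

/-- the three vertices of a name -/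
def nv (a : Nm) : Fin 3 → Vx := fun i => Vx.n a i

/-- the marked triangle of a name -/
def nt (a : Nm) : Finset Vx := rg (nv a)

/-- relators -/
inductive Rel
  | cap (a : Nm)
  | eq (a b : Nm)
  | add (a b c : Nm)
deriving DecidableEq

/-- the names of a relator -/
def Rel.nms : Rel → Finset Nm
  | .cap a => {a}
  | .eq a b => {a, b}
  | .add a b c => {a, b, c}

/-- the names are different -/
def Rel.nd : Rel → Prop
  | .cap _ => True
  | .eq a b => a ≠ b
  | .add a b c => a ≠ b ∧ a ≠ c ∧ b ≠ c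

/-- the sphere of a relator -/
def Rel.S : Rel → Finset (Finset Vx)
  | .cap a => mkS (capL Vx.z (nv a))
  | .eq a b => mkS (eqL (nv a) (nv b))
  | .add a b c => mkS (addL (nv a) (nv b) (nv c))

/-- general states -/
structure Gs where
  X : Finset Vx
  Mk : Finset (Finset Vx)
  C : Finset (Vx × Finset (Finset Vx))

/-- well formed general states -/
structure Gs.ok (Q : Gs) : Prop where
  wf : WF Vx.w Q.X Q.Mk Q.C
  z : Vx.z ∈ Q.X
  tg : ∀ c ∈ Q.C, c.1.isTag
  xt : ∀ x ∈ Q.X, ¬ x.isTag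
  nm : ∀ t ∈ Q.Mk, ∀ a i, Vx.n a i ∈ t → t = nt a
  nz : ∀ t ∈ Q.Mk, Vx.z ∉ t
  nx : ∀ a i, Vx.n a i ∈ Q.X → nt a ∈ Q.Mk

/-- the complex -/
def Gs.Z (Q : Gs) : Set (Finset Vx) := ZZ Vx.w Q.X Q.Mk Q.C

/-- names of a state -/
def Gs.has (Q : Gs) (a : Nm) : Prop := nt a ∈ Q.Mk

instance : LE Gs := ⟨fun Q Q' => Q.X ⊆ Q'.X ∧ Q.Mk ⊆ Q'.Mk ∧ Q.C ⊆ Q'.C⟩

/-- add a cell -/
def Gs.cell (Q : Gs) (u : Vx) (S : Finset (Finset Vx)) : Gs := ⟨Q.X, Q.Mk, insert (u, S) Q.C⟩

/-- add a name -/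
def Gs.name (Q : Gs) (y : Nm) : Gs := ⟨Q.X ∪ nt y, insert (nt y) Q.Mk, Q.C⟩

/-- fresh tag -/
def Gs.free (Q : Gs) (u : Vx) : Prop := u.isTag ∧ ∀ c ∈ Q.C, c.1 ≠ u

/-- `r` is a cell of `Q` -/
def Gs.holds (Q : Gs) (r : Rel) : Prop := ∃ v, (v, r.S) ∈ Q.C

/-- the names of `r` are different names of `Q` -/
def Gs.fits (Q : Gs) (r : Rel) : Prop := r.nd ∧ ∀ a ∈ r.nms, Q.has a

/-- `r` and `r'` can be replaced by each other in all states containing `Q` -/
def Rep (Q : Gs) (r r' : Rel) : Prop :=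
  ∀ Q' : Gs, Q ≤ Q' → Q'.ok → ∀ u, Q'.free u → Sim (Q'.cell u r.S).Z (Q'.cell u r'.S).Z

/-- `p` and `q` are equal in `Q` -/
def Eqv (Q : Gs) (p q : Nm) : Prop := ∀ c, ¬ Q.has c → Rep (Q.name c) (.eq p c) (.eq q c)

/-- closed sets of terms -/
def Closed (F : Finset Tm) : Prop :=
  Tm.zero ∈ F ∧ ∀ s ∈ F, match s with
    | .base _ => True
    | .fr _ => False
    | .zero => True
    | .add a b => a ∈ F ∧ b ∈ F
    | .sub a b => a ∈ F ∧ b ∈ F

/-- names belonging to a term -/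
def Tm.names : Tm → Finset Nm
  | .base t => {(.base t, 0)}
  | .fr n => {(.fr n, 0)}
  | .zero => {(.zero, 0)}
  | .add a b => {(.add a b, 0), (.add a b, 1), (.add a b, 2)}
  | .sub a b => {(.sub a b, 0), (.sub a b, 1), (.sub a b, 2)}

/-- definitional cells of a term -/
def Tm.defs : Tm → Finset (Vx × Rel)
  | .base _ => ∅
  | .fr _ => ∅
  | .zero => {(Vx.d (.zero, 0), .cap (.zero, 0))}
  | .add a b => {(Vx.d (.add a b, 1), .eq (a, 0) (.add a b, 1)),
      (Vx.d (.add a b, 2), .eq (b, 0) (.add a b, 2)),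
      (Vx.d (.add a b, 0), .add (.add a b, 1) (.add a b, 2) (.add a b, 0))}
  | .sub a b => {(Vx.d (.sub a b, 1), .eq (a, 0) (.sub a b, 1)),
      (Vx.d (.sub a b, 2), .eq (b, 0) (.sub a b, 2)),
      (Vx.d (.sub a b, 0), .add (.sub a b, 0) (.sub a b, 2) (.sub a b, 1))}

/-- the state with names `N` and cells `P` -/
def Gs.mk' (N : Finset Nm) (P : Finset (Vx × Rel)) : Gs :=
  ⟨insert Vx.z (N.biUnion nt), N.image nt, P.image (fun c => (c.1, c.2.S))⟩

/-- the state of a closed set of terms -/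
def St (F : Finset Tm) : Gs := Gs.mk' (F.biUnion Tm.names) (F.biUnion Tm.defs)

/-- the state of a closed set of terms with caps on some terms -/
def Caps {ι : Type} [Fintype ι] (F : Finset Tm) (tg : ι → Vx) (s : ι → Tm) : Gs :=
  Gs.mk' (F.biUnion Tm.names)
    (F.biUnion Tm.defs ∪ Finset.univ.image (fun i => (tg i, Rel.cap (s i, 0))))

/-- evaluation -/
def Tm.eval : Tm → (Finset ℕ → ℤ)
  | .base t => Pi.single t 1
  | .fr _ => 0
  | .zero => 0
  | .add a b => a.eval + b.eval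
  | .sub a b => a.eval - b.eval

section
variable {V : Type*} [DecidableEq V]

theorem rg_eq (y : Fin 3 → V) : rg y = {y 0, y 1, y 2} := by
  ext x
  simp only [rg, mem_image, mem_univ, true_and, mem_insert, mem_singleton]
  constructor
  · rintro ⟨i, rfl⟩
    fin_cases i <;> simp
  · rintro (h | h | h)
    · exact ⟨0, h.symm⟩
    · exact ⟨1, h.symm⟩
    · exact ⟨2, h.symm⟩

theorem mem_mkS {L : List (List V)} {t : Finset V} :
    t ∈ mkS L ↔ ∃ l ∈ L, l.toFinset = t := by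
  simp [mkS]

theorem erase_cl {S : Finset (Finset V)} {y : Fin 3 → V} (hy : Function.Injective y)
    (h0 : ∃ v, v ∉ rg y ∧ ({v, y 1, y 2} : Finset V) ∈ S)
    (h1 : ∃ v, v ∉ rg y ∧ ({v, y 0, y 2} : Finset V) ∈ S)
    (h2 : ∃ v, v ∉ rg y ∧ ({v, y 0, y 1} : Finset V) ∈ S) :
    ∀ x ∈ rg y, (rg y).erase x ∈ cl (S.erase (rg y)) := by
  have aux : ∀ v : V, ∀ t : Finset V, v ∉ rg y → insert v t ∈ S → insert v t ∈ S.erase (rg y) := by
    intro v t hv ht
    refine mem_erase.2 ⟨fun h => hv ?_, ht⟩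
    rw [← h]
    exact mem_insert_self _ _
  intro x hx
  rw [rg_eq] at hx
  simp only [mem_insert, mem_singleton] at hx
  rcases hx with rfl | rfl | rfl
  · obtain ⟨v, hv, hS⟩ := h0
    refine ⟨_, aux v _ hv hS, ?_⟩
    intro x hx
    rw [rg_eq] at hx
    simp only [mem_erase, mem_insert, mem_singleton] at hx ⊢
    tauto
  · obtain ⟨v, hv, hS⟩ := h1
    refine ⟨_, aux v _ hv hS, ?_⟩
    intro x hx
    rw [rg_eq] at hx
    simp only [mem_erase, mem_insert, mem_singleton] at hx ⊢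
    tauto
  · obtain ⟨v, hv, hS⟩ := h2
    refine ⟨_, aux v _ hv hS, ?_⟩
    intro x hx
    rw [rg_eq] at hx
    simp only [mem_erase, mem_insert, mem_singleton] at hx ⊢
    tauto

theorem not_mem_rg {v : V} {y : Fin 3 → V} (h : ∀ i, y i ≠ v) : v ∉ rg y := by
  simp only [rg, mem_image, mem_univ, true_and, not_exists]
  exact h

theorem card3 {x y z : V} (h1 : x ≠ y) (h2 : x ≠ z) (h3 : y ≠ z) :
    ([x, y, z].toFinset).card = 3 := by
  rw [List.toFinset_card_of_nodup]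
  · rfl
  · simp [h1, h2, h3]

theorem sub3 {x y z : V} {X : Finset V} (h1 : x ∈ X) (h2 : y ∈ X) (h3 : z ∈ X) :
    [x, y, z].toFinset ⊆ X := by
  intro v hv
  simp only [List.mem_toFinset, List.mem_cons, List.not_mem_nil, or_false] at hv
  rcases hv with rfl | rfl | rfl <;> assumption

theorem capL_tri {z : V} {a : Fin 3 → V} {X : Finset V} (ha : Function.Injective a)
    (hz : ∀ i, a i ≠ z) (hzX : z ∈ X) (haX : ∀ i, a i ∈ X) :
    ∀ t ∈ mkS (capL z a), t ⊆ X ∧ t.card = 3 := by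
  have i01 : a 0 ≠ a 1 := ha.ne (by decide)
  have i02 : a 0 ≠ a 2 := ha.ne (by decide)
  have i12 : a 1 ≠ a 2 := ha.ne (by decide)
  intro t ht
  obtain ⟨l, hl, rfl⟩ := mem_mkS.1 ht
  simp only [capL, List.mem_cons, List.not_mem_nil, or_false] at hl
  rcases hl with rfl | rfl | rfl | rfl <;> refine ⟨sub3 ?_ ?_ ?_, card3 ?_ ?_ ?_⟩ <;>
    first | exact hzX | exact haX _ | exact (hz _).symm | exact i01 | exact i02 | exact i12

theorem eqL_tri {a b : Fin 3 → V} {X : Finset V} (ha : Function.Injective a)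
    (hb : Function.Injective b) (hab : ∀ i j, a i ≠ b j) (haX : ∀ i, a i ∈ X)
    (hbX : ∀ i, b i ∈ X) : ∀ t ∈ mkS (eqL a b), t ⊆ X ∧ t.card = 3 := by
  have i01 : a 0 ≠ a 1 := ha.ne (by decide)
  have i02 : a 0 ≠ a 2 := ha.ne (by decide)
  have i12 : a 1 ≠ a 2 := ha.ne (by decide)
  have j01 : b 0 ≠ b 1 := hb.ne (by decide)
  have j02 : b 0 ≠ b 2 := hb.ne (by decide)
  have j12 : b 1 ≠ b 2 := hb.ne (by decide)
  intro t ht
  obtain ⟨l, hl, rfl⟩ := mem_mkS.1 ht
  simp only [eqL, List.mem_cons, List.not_mem_nil, or_false] at hl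
  rcases hl with rfl | rfl | rfl | rfl | rfl | rfl | rfl | rfl <;>
    refine ⟨sub3 ?_ ?_ ?_, card3 ?_ ?_ ?_⟩ <;>
    (first | exact haX _ | exact hbX _ | exact hab _ _ | exact (hab _ _).symm | exact i01 | exact i02 | exact i12 | exact i01.symm | exact i02.symm | exact i12.symm | exact j01 | exact j02 | exact j12 | exact j01.symm | exact j02.symm | exact j12.symm)

theorem addL_tri {a b c : Fin 3 → V} {X : Finset V} (ha : Function.Injective a)
    (hb : Function.Injective b) (hc : Function.Injective c) (hab : ∀ i j, a i ≠ b j)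
    (hac : ∀ i j, a i ≠ c j) (hbc : ∀ i j, b i ≠ c j) (haX : ∀ i, a i ∈ X)
    (hbX : ∀ i, b i ∈ X) (hcX : ∀ i, c i ∈ X) :
    ∀ t ∈ mkS (addL a b c), t ⊆ X ∧ t.card = 3 := by
  have i01 : a 0 ≠ a 1 := ha.ne (by decide)
  have i02 : a 0 ≠ a 2 := ha.ne (by decide)
  have i12 : a 1 ≠ a 2 := ha.ne (by decide)
  have j01 : b 0 ≠ b 1 := hb.ne (by decide)
  have j02 : b 0 ≠ b 2 := hb.ne (by decide)
  have j12 : b 1 ≠ b 2 := hb.ne (by decide)
  have k01 : c 0 ≠ c 1 := hc.ne (by decide)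
  have k02 : c 0 ≠ c 2 := hc.ne (by decide)
  have k12 : c 1 ≠ c 2 := hc.ne (by decide)
  intro t ht
  obtain ⟨l, hl, rfl⟩ := mem_mkS.1 ht
  simp only [addL, List.mem_cons, List.not_mem_nil, or_false] at hl
  rcases hl with rfl | rfl | rfl | rfl | rfl | rfl | rfl | rfl | rfl | rfl | rfl | rfl | rfl | rfl <;>
    refine ⟨sub3 ?_ ?_ ?_, card3 ?_ ?_ ?_⟩ <;>
    (first | exact haX _ | exact hbX _ | exact hcX _ | exact hab _ _ | exact (hab _ _).symm | exact hac _ _ | exact (hac _ _).symm | exact hbc _ _ | exact (hbc _ _).symm | exact i01 | exact i02 | exact i12 | exact i01.symm | exact i02.symm | exact i12.symm | exact j01 | exact j02 | exact j12 | exact j01.symm | exact j02.symm | exact j12.symm | exact k01 | exact k02 | exact k12 | exact k01.symm | exact k02.symm | exact k12.symm)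

theorem mem_mkS' {L : List (List V)} {x y z : V} {t : Finset V} (hl : [x, y, z] ∈ L)
    (h : t = {x, y, z}) : t ∈ mkS L := by
  refine mem_mkS.2 ⟨_, hl, ?_⟩
  rw [h]
  simp [List.toFinset_cons]

theorem capL_erase {z : V} {a : Fin 3 → V} (ha : Function.Injective a) (hz : ∀ i, a i ≠ z) :
    ∀ x ∈ rg a, (rg a).erase x ∈ cl ((mkS (capL z a)).erase (rg a)) := by
  refine erase_cl ha ⟨z, not_mem_rg hz, ?_⟩ ⟨z, not_mem_rg hz, ?_⟩ ⟨z, not_mem_rg hz, ?_⟩
  · exact mem_mkS' (x := z) (y := a 1) (z := a 2) (by simp [capL]) rfl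
  · exact mem_mkS' (x := z) (y := a 0) (z := a 2) (by simp [capL]) rfl
  · exact mem_mkS' (x := z) (y := a 0) (z := a 1) (by simp [capL]) rfl

theorem eqL_erase {a b : Fin 3 → V} (hb : Function.Injective b) (hab : ∀ i j, a i ≠ b j) :
    ∀ x ∈ rg b, (rg b).erase x ∈ cl ((mkS (eqL a b)).erase (rg b)) := by
  refine erase_cl hb ⟨a 2, not_mem_rg fun i => (hab _ _).symm, ?_⟩
    ⟨a 0, not_mem_rg fun i => (hab _ _).symm, ?_⟩ ⟨a 1, not_mem_rg fun i => (hab _ _).symm, ?_⟩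
  · exact mem_mkS' (x := a 2) (y := b 1) (z := b 2) (by simp [eqL]) rfl
  · exact mem_mkS' (x := a 0) (y := b 2) (z := b 0) (by simp [eqL]) (by ext; simp; tauto)
  · exact mem_mkS' (x := a 1) (y := b 0) (z := b 1) (by simp [eqL]) rfl

theorem addL_erase3 {a b c : Fin 3 → V} (hc : Function.Injective c) (hac : ∀ i j, a i ≠ c j)
    (hbc : ∀ i j, b i ≠ c j) :
    ∀ x ∈ rg c, (rg c).erase x ∈ cl ((mkS (addL a b c)).erase (rg c)) := by
  refine erase_cl hc ⟨b 0, not_mem_rg fun i => (hbc _ _).symm, ?_⟩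
    ⟨a 2, not_mem_rg fun i => (hac _ _).symm, ?_⟩ ⟨a 1, not_mem_rg fun i => (hac _ _).symm, ?_⟩
  · exact mem_mkS' (x := c 1) (y := c 2) (z := b 0) (by simp [addL]) (by ext; simp; tauto)
  · exact mem_mkS' (x := c 2) (y := c 0) (z := a 2) (by simp [addL]) (by ext; simp; tauto)
  · exact mem_mkS' (x := c 0) (y := c 1) (z := a 1) (by simp [addL]) (by ext; simp; tauto)

theorem addL_erase1 {a b c : Fin 3 → V} (ha : Function.Injective a) (hab : ∀ i j, a i ≠ b j)
    (hac : ∀ i j, a i ≠ c j) :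
    ∀ x ∈ rg a, (rg a).erase x ∈ cl ((mkS (addL a b c)).erase (rg a)) := by
  refine erase_cl ha ⟨b 1, not_mem_rg fun i => hab _ _, ?_⟩
    ⟨c 0, not_mem_rg fun i => hac _ _, ?_⟩ ⟨c 0, not_mem_rg fun i => hac _ _, ?_⟩
  · exact mem_mkS' (x := a 1) (y := b 1) (z := a 2) (by simp [addL]) (by ext; simp; tauto)
  · exact mem_mkS' (x := c 0) (y := a 2) (z := a 0) (by simp [addL]) (by ext; simp; tauto)
  · exact mem_mkS' (x := c 0) (y := a 0) (z := a 1) (by simp [addL]) (by ext; simp)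

end

/-! ## the macros for states (proved from I4) -/

theorem nv_inj (a : Nm) : Function.Injective (nv a) := fun i j h => by
  simpa [nv] using h

theorem nv_ne {a b : Nm} (h : a ≠ b) : ∀ i j, nv a i ≠ nv b j := fun i j hij => by
  simp only [nv, Vx.n.injEq] at hij
  exact h hij.1

theorem nv_ne_z (a : Nm) : ∀ i, nv a i ≠ Vx.z := fun i h => by simp [nv] at h

theorem mem_nt {a : Nm} {x : Vx} : x ∈ nt a ↔ ∃ i, Vx.n a i = x := by
  simp [nt, rg, nv]

theorem nt_card (a : Nm) : (nt a).card = 3 := by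
  rw [nt, rg, card_image_of_injective _ (nv_inj a)]
  simp

theorem Gs.ok.sub_of_has {Q : Gs} (h : Q.ok) {a : Nm} (ha : Q.has a) : ∀ i, nv a i ∈ Q.X :=
  fun i => (h.wf.mrk _ ha).1 (mem_nt.2 ⟨i, rfl⟩)

theorem Gs.ok.name {Q : Gs} (h : Q.ok) {y : Nm} (hy : ¬ Q.has y) : (Q.name y).ok := by
  have hX : ∀ x, x ∈ (Q.name y).X ↔ x ∈ Q.X ∨ x ∈ nt y := fun x => by
    simp [Gs.name]
  have hM : ∀ t, t ∈ (Q.name y).Mk ↔ t = nt y ∨ t ∈ Q.Mk := fun t => by
    simp [Gs.name]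
  constructor
  · constructor
    · rw [hX, mem_nt]
      rintro (h1 | ⟨i, h1⟩)
      · exact h.wf.hw h1
      · cases h1
    · intro t ht
      rcases (hM t).1 ht with rfl | h1
      · exact ⟨subset_union_right, nt_card y⟩
      · exact ⟨(h.wf.mrk t h1).1.trans subset_union_left, (h.wf.mrk t h1).2⟩
    · intro c hc
      refine ⟨?_, (h.wf.tag c hc).2⟩
      rw [hX, mem_nt]
      rintro (h1 | ⟨i, h1⟩)
      · exact (h.wf.tag c hc).1 h1
      · have := h.tg c hc
        rw [← h1] at this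
        exact this
    · exact h.wf.inj
    · intro c hc
      exact ⟨(h.wf.tri c hc).1, fun t ht =>
        ⟨((h.wf.tri c hc).2 t ht).1.trans subset_union_left, ((h.wf.tri c hc).2 t ht).2⟩⟩
  · exact (hX _).2 (Or.inl h.z)
  · exact h.tg
  · intro x hx
    rcases (hX x).1 hx with h1 | h1
    · exact h.xt x h1
    · obtain ⟨i, rfl⟩ := mem_nt.1 h1
      exact fun h => h
  · intro t ht a i hai
    rcases (hM t).1 ht with rfl | h1
    · obtain ⟨j, hj⟩ := mem_nt.1 hai
      rw [Vx.n.injEq] at hj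
      rw [hj.1]
    · exact h.nm t h1 a i hai
  · intro t ht hz
    rcases (hM t).1 ht with rfl | h1
    · obtain ⟨j, hj⟩ := mem_nt.1 hz
      cases hj
    · exact h.nz t h1 hz
  · intro a i hai
    rcases (hX _).1 hai with h1 | h1
    · exact (hM _).2 (Or.inr (h.nx a i h1))
    · obtain ⟨j, hj⟩ := mem_nt.1 h1
      rw [Vx.n.injEq] at hj
      exact (hM _).2 (Or.inl (by rw [hj.1]))

theorem Gs.ok.fresh {Q : Gs} (h : Q.ok) {u : Vx} (hu : Q.free u) : Fresh Vx.w Q.X Q.C u :=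
  ⟨fun h1 => h.xt u h1 hu.1, fun h1 => by
    have := hu.1
    rw [h1] at this
    exact this, hu.2⟩

theorem Rel.S_tri {Q : Gs} (h : Q.ok) {r : Rel} (hr : Q.fits r) :
    ∀ t ∈ r.S, t ⊆ Q.X ∧ t.card = 3 := by
  obtain ⟨h1, h2⟩ := hr
  cases r with
  | cap a =>
    exact capL_tri (nv_inj a) (nv_ne_z a) h.z (h.sub_of_has (h2 a (by simp [Rel.nms])))
  | eq a b =>
    exact eqL_tri (nv_inj a) (nv_inj b) (nv_ne h1) (h.sub_of_has (h2 a (by simp [Rel.nms])))
      (h.sub_of_has (h2 b (by simp [Rel.nms])))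
  | add a b c =>
    exact addL_tri (nv_inj a) (nv_inj b) (nv_inj c) (nv_ne h1.1) (nv_ne h1.2.1) (nv_ne h1.2.2)
      (h.sub_of_has (h2 a (by simp [Rel.nms]))) (h.sub_of_has (h2 b (by simp [Rel.nms])))
      (h.sub_of_has (h2 c (by simp [Rel.nms])))

/-- the marked triangles of a relator belong to its sphere -/
theorem Rel.nt_mem_S {r : Rel} {a : Nm} (ha : a ∈ r.nms) : nt a ∈ r.S := by
  have e : ∀ b : Nm, nt b = {nv b 0, nv b 1, nv b 2} := fun b => rg_eq (nv b)
  cases r with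
  | cap b =>
    simp only [Rel.nms, mem_singleton] at ha
    subst ha
    exact mem_mkS' (x := nv a 0) (y := nv a 1) (z := nv a 2) (by simp [capL]) (e a)
  | eq b c =>
    simp only [Rel.nms, mem_insert, mem_singleton] at ha
    rcases ha with rfl | rfl
    · exact mem_mkS' (x := nv a 0) (y := nv a 1) (z := nv a 2) (by simp [eqL]) (e a)
    · exact mem_mkS' (x := nv a 0) (y := nv a 1) (z := nv a 2) (by simp [eqL]) (e a)
  | add b c d =>
    simp only [Rel.nms, mem_insert, mem_singleton] at ha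
    rcases ha with rfl | rfl | rfl
    · exact mem_mkS' (x := nv a 0) (y := nv a 1) (z := nv a 2) (by simp [addL]) (e a)
    · exact mem_mkS' (x := nv a 0) (y := nv a 1) (z := nv a 2) (by simp [addL]) (e a)
    · exact mem_mkS' (x := nv a 0) (y := nv a 1) (z := nv a 2) (by simp [addL]) (e a)

theorem Rel.S_nonempty (r : Rel) : r.S.Nonempty := by
  cases r with
  | cap a => exact ⟨_, Rel.nt_mem_S (a := a) (by simp [Rel.nms])⟩
  | eq a b => exact ⟨_, Rel.nt_mem_S (a := a) (by simp [Rel.nms])⟩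
  | add a b c => exact ⟨_, Rel.nt_mem_S (a := a) (by simp [Rel.nms])⟩

theorem Gs.ok.cell {Q : Gs} (h : Q.ok) {u : Vx} (hu : Q.free u) {r : Rel} (hr : Q.fits r) :
    (Q.cell u r.S).ok := by
  have hC : ∀ c, c ∈ (Q.cell u r.S).C ↔ c = (u, r.S) ∨ c ∈ Q.C := fun c => by
    simp [Gs.cell]
  have hf := h.fresh hu
  refine ⟨⟨h.wf.hw, h.wf.mrk, ?_, ?_, ?_⟩, h.z, ?_, h.xt, h.nm, h.nz, h.nx⟩
  · intro c hc
    rcases (hC c).1 hc with rfl | h1
    · exact ⟨hf.hX, hf.hw⟩
    · exact h.wf.tag c h1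
  · intro c hc c' hc' hcc
    rcases (hC c).1 hc with rfl | h1
    · rcases (hC c').1 hc' with rfl | h2
      · rfl
      · exact absurd hcc.symm (hu.2 c' h2)
    · rcases (hC c').1 hc' with rfl | h2
      · exact absurd hcc (hu.2 c h1)
      · exact h.wf.inj c h1 c' h2 hcc
  · intro c hc
    rcases (hC c).1 hc with rfl | h1
    · exact ⟨r.S_nonempty, Rel.S_tri h hr⟩
    · exact h.wf.tri c h1
  · intro c hc
    rcases (hC c).1 hc with rfl | h1
    · exact hu.1
    · exact h.tg c h1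

theorem Gs.ok.loc {Q : Gs} (h : Q.ok) {ns : List Nm} (hn : ns.Nodup) (hh : ∀ a ∈ ns, Q.has a) :
    Loc Vx.w Vx.z Q.X Q.Mk (ns.map nv) := by
  refine Loc.of h.z ?_ ?_ ?_ ?_
  · intro a ha
    obtain ⟨b, hb, rfl⟩ := List.mem_map.1 ha
    exact nv_inj b
  · intro a ha i
    obtain ⟨b, hb, rfl⟩ := List.mem_map.1 ha
    exact ⟨h.sub_of_has (hh b hb) i, nv_ne_z b i⟩
  · rw [List.pairwise_map]
    exact hn.imp fun hab => nv_ne hab
  · intro t ht hsub
    have hc := (h.wf.mrk t ht).2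
    obtain ⟨x, hx⟩ : t.Nonempty := by
      rw [← card_pos, hc]
      norm_num
    have hx1 := hsub hx
    rw [mem_insert] at hx1
    rcases hx1 with rfl | hx1
    · exact absurd hx (h.nz t ht)
    · rw [mem_biUnion] at hx1
      obtain ⟨a, ha, hxa⟩ := hx1
      rw [List.mem_toFinset] at ha
      obtain ⟨b, hb, rfl⟩ := List.mem_map.1 ha
      obtain ⟨i, rfl⟩ := mem_nt.1 hxa
      exact ⟨nv b, ha, (h.nm t ht b i hx).symm⟩

/-- new names -/
theorem sim_intro {Q : Gs} (h : Q.ok) {y : Nm} (hy : ¬ Q.has y) {u : Vx} (hu : Q.free u) {r : Rel}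
    (hr : (Q.name y).fits r)
    (hp : r = .cap y ∨ (∃ p, r = .eq p y) ∨ (∃ p q, r = .add p q y) ∨ (∃ p q, r = .add y p q)) :
    Sim Q.Z ((Q.name y).cell u r.S).Z := by
  have hok := h.name hy
  have key : Disc r.S (nt y) ∧ (∀ x ∈ nt y, (nt y).erase x ∈ cl (r.S.erase (nt y))) ∧
      nt y ∈ r.S := by
    rcases hp with rfl | ⟨p, rfl⟩ | ⟨p, q, rfl⟩ | ⟨p, q, rfl⟩
    · exact ⟨disc_cap (nv_inj y) (nv_ne_z y), capL_erase (nv_inj y) (nv_ne_z y),
        Rel.nt_mem_S (by simp [Rel.nms])⟩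
    · have h1 : p ≠ y := hr.1
      exact ⟨disc_eq (nv_inj p) (nv_inj y) (nv_ne h1), eqL_erase (nv_inj y) (nv_ne h1),
        Rel.nt_mem_S (by simp [Rel.nms])⟩
    · have h1 : p ≠ q ∧ p ≠ y ∧ q ≠ y := hr.1
      exact ⟨disc_add3 (nv_inj p) (nv_inj q) (nv_inj y) (nv_ne h1.1) (nv_ne h1.2.1)
        (nv_ne h1.2.2), addL_erase3 (nv_inj y) (nv_ne h1.2.1) (nv_ne h1.2.2),
        Rel.nt_mem_S (by simp [Rel.nms])⟩
    · have h1 : y ≠ p ∧ y ≠ q ∧ p ≠ q := hr.1
      exact ⟨disc_add1 (nv_inj y) (nv_inj p) (nv_inj q) (nv_ne h1.1) (nv_ne h1.2.1)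
        (nv_ne h1.2.2), addL_erase1 (nv_inj y) (nv_ne h1.1) (nv_ne h1.2.1),
        Rel.nt_mem_S (by simp [Rel.nms])⟩
  have huy : ∀ i, u ≠ nv y i := fun i hi => by
    have := hu.1
    rw [hi] at this
    exact this
  have hyF : ∀ i, Fresh Vx.w Q.X Q.C (nv y i) := fun i =>
    ⟨fun h1 => hy (h.nx y i h1), fun h1 => by simp [nv] at h1, fun c hc h1 => by
      have := h.tg c hc
      rw [h1] at this
      exact this⟩
  exact sim_name h.wf (nv_inj y) hyF (h.fresh hu) huy (Rel.S_tri hok hr) key.2.2 key.1 key.2.1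

variable {Q : Gs} {a b c d x y : Nm}

theorem Gs.has_mono {Q Q' : Gs} (h : Q ≤ Q') {a : Nm} (ha : Q.has a) : Q'.has a := h.2.1 ha

theorem Gs.holds_mono {Q Q' : Gs} (h : Q ≤ Q') {r : Rel} (hr : Q.holds r) : Q'.holds r := by
  obtain ⟨v, hv⟩ := hr
  exact ⟨v, h.2.2 hv⟩

theorem Gs.fits_mono {Q Q' : Gs} (h : Q ≤ Q') {r : Rel} (hr : Q.fits r) : Q'.fits r :=
  ⟨hr.1, fun a ha => Gs.has_mono h (hr.2 a ha)⟩

theorem rep_eqSymm (hf : Q.fits (.eq a b)) :
    Rep Q (.eq a b) (.eq b a) := by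
  intro Q' hQ hok u hu
  have hL : Loc Vx.w Vx.z Q'.X Q'.Mk [nv a, nv b] := by
    refine hok.loc (ns := [a, b]) ?_ ?_
    · have h1 := hf.1
      simp only [Rel.nd] at h1
      simp [h1]
    · intro e he
      have h2 := hf.2
      simp only [Rel.nms, Finset.mem_insert, Finset.mem_singleton] at h2
      simp only [List.mem_cons, List.not_mem_nil, or_false] at he
      exact Gs.has_mono hQ (h2 e he)
  change Sim (ZZ Vx.w Q'.X Q'.Mk (insert (u, mkS (eqL (nv a) (nv b))) Q'.C))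
    (ZZ Vx.w Q'.X Q'.Mk (insert (u, mkS (eqL (nv b) (nv a))) Q'.C))
  exact mac_eqSymm hok.wf hL (hok.fresh hu)

theorem rep_addComm (hf : Q.fits (.add a b c)) :
    Rep Q (.add a b c) (.add b a c) := by
  intro Q' hQ hok u hu
  have hL : Loc Vx.w Vx.z Q'.X Q'.Mk [nv a, nv b, nv c] := by
    refine hok.loc (ns := [a, b, c]) ?_ ?_
    · have h1 := hf.1
      simp only [Rel.nd] at h1
      simp [h1.1, h1.2.1, h1.2.2]
    · intro e he
      have h2 := hf.2
      simp only [Rel.nms, Finset.mem_insert, Finset.mem_singleton] at h2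
      simp only [List.mem_cons, List.not_mem_nil, or_false] at he
      exact Gs.has_mono hQ (h2 e he)
  change Sim (ZZ Vx.w Q'.X Q'.Mk (insert (u, mkS (addL (nv a) (nv b) (nv c))) Q'.C))
    (ZZ Vx.w Q'.X Q'.Mk (insert (u, mkS (addL (nv b) (nv a) (nv c))) Q'.C))
  exact mac_addComm hok.wf hL (hok.fresh hu)

theorem rep_capEq (h : Q.holds (.cap a)) (hf : Q.fits (.eq a b)) :
    Rep Q (.eq a b) (.cap b) := by
  intro Q' hQ hok u hu
  obtain ⟨v0, hv0⟩ := Gs.holds_mono hQ h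
  change (v0, mkS (capL Vx.z (nv a))) ∈ Q'.C at hv0
  have hL : Loc Vx.w Vx.z Q'.X Q'.Mk [nv a, nv b] := by
    refine hok.loc (ns := [a, b]) ?_ ?_
    · have h1 := hf.1
      simp only [Rel.nd] at h1
      simp [h1]
    · intro e he
      have h2 := hf.2
      simp only [Rel.nms, Finset.mem_insert, Finset.mem_singleton] at h2
      simp only [List.mem_cons, List.not_mem_nil, or_false] at he
      exact Gs.has_mono hQ (h2 e he)
  change Sim (ZZ Vx.w Q'.X Q'.Mk (insert (u, mkS (eqL (nv a) (nv b))) Q'.C))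
    (ZZ Vx.w Q'.X Q'.Mk (insert (u, mkS (capL Vx.z (nv b))) Q'.C))
  exact mac_capEq hok.wf hL hv0 (hok.fresh hu)

theorem rep_addZero (h : Q.holds (.cap b)) (hf : Q.fits (.add a b c)) :
    Rep Q (.add a b c) (.eq a c) := by
  intro Q' hQ hok u hu
  obtain ⟨v0, hv0⟩ := Gs.holds_mono hQ h
  change (v0, mkS (capL Vx.z (nv b))) ∈ Q'.C at hv0
  have hL : Loc Vx.w Vx.z Q'.X Q'.Mk [nv a, nv b, nv c] := by
    refine hok.loc (ns := [a, b, c]) ?_ ?_
    · have h1 := hf.1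
      simp only [Rel.nd] at h1
      simp [h1.1, h1.2.1, h1.2.2]
    · intro e he
      have h2 := hf.2
      simp only [Rel.nms, Finset.mem_insert, Finset.mem_singleton] at h2
      simp only [List.mem_cons, List.not_mem_nil, or_false] at he
      exact Gs.has_mono hQ (h2 e he)
  change Sim (ZZ Vx.w Q'.X Q'.Mk (insert (u, mkS (addL (nv a) (nv b) (nv c))) Q'.C))
    (ZZ Vx.w Q'.X Q'.Mk (insert (u, mkS (eqL (nv a) (nv c))) Q'.C))
  exact mac_addZero hok.wf hL hv0 (hok.fresh hu)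

theorem rep_eqSub (h : Q.holds (.add c y x)) (hf : Q.fits (.add c y x)) :
    Rep Q (.eq x y) (.cap c) := by
  intro Q' hQ hok u hu
  obtain ⟨v0, hv0⟩ := Gs.holds_mono hQ h
  change (v0, mkS (addL (nv c) (nv y) (nv x))) ∈ Q'.C at hv0
  have hL : Loc Vx.w Vx.z Q'.X Q'.Mk [nv c, nv y, nv x] := by
    refine hok.loc (ns := [c, y, x]) ?_ ?_
    · have h1 := hf.1
      simp only [Rel.nd] at h1
      simp [h1.1, h1.2.1, h1.2.2]
    · intro e he
      have h2 := hf.2
      simp only [Rel.nms, Finset.mem_insert, Finset.mem_singleton] at h2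
      simp only [List.mem_cons, List.not_mem_nil, or_false] at he
      exact Gs.has_mono hQ (h2 e he)
  change Sim (ZZ Vx.w Q'.X Q'.Mk (insert (u, mkS (eqL (nv x) (nv y))) Q'.C))
    (ZZ Vx.w Q'.X Q'.Mk (insert (u, mkS (capL Vx.z (nv c))) Q'.C))
  exact mac_eqSub hok.wf hL hv0 (hok.fresh hu)

theorem rep_addUniq (h : Q.holds (.add a b c)) (hf : Q.fits (.add a b c))
    (hd : Q.has d) (h1 : d ≠ a) (h2 : d ≠ b) (h3 : d ≠ c) :
    Rep Q (.add a b d) (.eq c d) := by
  intro Q' hQ hok u hu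
  obtain ⟨v0, hv0⟩ := Gs.holds_mono hQ h
  change (v0, mkS (addL (nv a) (nv b) (nv c))) ∈ Q'.C at hv0
  have hL : Loc Vx.w Vx.z Q'.X Q'.Mk [nv a, nv b, nv c, nv d] := by
    refine hok.loc (ns := [a, b, c, d]) ?_ ?_
    · have h1' := hf.1
      simp only [Rel.nd] at h1'
      simp [h1'.1, h1'.2.1, h1'.2.2, h1.symm, h2.symm, h3.symm]
    · intro e he
      have h2' := hf.2
      simp only [Rel.nms, Finset.mem_insert, Finset.mem_singleton] at h2'
      simp only [List.mem_cons, List.not_mem_nil, or_false] at he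
      rcases he with he | he | he | he
      · exact Gs.has_mono hQ (h2' e (Or.inl he))
      · exact Gs.has_mono hQ (h2' e (Or.inr (Or.inl he)))
      · exact Gs.has_mono hQ (h2' e (Or.inr (Or.inr he)))
      · rw [he]; exact Gs.has_mono hQ hd
  change Sim (ZZ Vx.w Q'.X Q'.Mk (insert (u, mkS (addL (nv a) (nv b) (nv d))) Q'.C))
    (ZZ Vx.w Q'.X Q'.Mk (insert (u, mkS (eqL (nv c) (nv d))) Q'.C))
  exact mac_addUniq hok.wf hL hv0 (hok.fresh hu)

theorem rep_subCap (h : Q.holds (.eq a b)) (hf : Q.fits (.eq a b)) :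
    Rep Q (.cap a) (.cap b) := by
  intro Q' hQ hok u hu
  obtain ⟨v0, hv0⟩ := Gs.holds_mono hQ h
  change (v0, mkS (eqL (nv a) (nv b))) ∈ Q'.C at hv0
  have hL : Loc Vx.w Vx.z Q'.X Q'.Mk [nv a, nv b] := by
    refine hok.loc (ns := [a, b]) ?_ ?_
    · have h1 := hf.1
      simp only [Rel.nd] at h1
      simp [h1]
    · intro e he
      have h2 := hf.2
      simp only [Rel.nms, Finset.mem_insert, Finset.mem_singleton] at h2
      simp only [List.mem_cons, List.not_mem_nil, or_false] at he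
      exact Gs.has_mono hQ (h2 e he)
  change Sim (ZZ Vx.w Q'.X Q'.Mk (insert (u, mkS (capL Vx.z (nv a))) Q'.C))
    (ZZ Vx.w Q'.X Q'.Mk (insert (u, mkS (capL Vx.z (nv b))) Q'.C))
  exact mac_subCap hok.wf hL hv0 (hok.fresh hu)

theorem rep_subEq (h : Q.holds (.eq a b)) (hf : Q.fits (.add a b c)) :
    Rep Q (.eq a c) (.eq b c) := by
  intro Q' hQ hok u hu
  obtain ⟨v0, hv0⟩ := Gs.holds_mono hQ h
  change (v0, mkS (eqL (nv a) (nv b))) ∈ Q'.C at hv0
  have hL : Loc Vx.w Vx.z Q'.X Q'.Mk [nv a, nv b, nv c] := by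
    refine hok.loc (ns := [a, b, c]) ?_ ?_
    · have h1 := hf.1
      simp only [Rel.nd] at h1
      simp [h1.1, h1.2.1, h1.2.2]
    · intro e he
      have h2 := hf.2
      simp only [Rel.nms, Finset.mem_insert, Finset.mem_singleton] at h2
      simp only [List.mem_cons, List.not_mem_nil, or_false] at he
      exact Gs.has_mono hQ (h2 e he)
  change Sim (ZZ Vx.w Q'.X Q'.Mk (insert (u, mkS (eqL (nv a) (nv c))) Q'.C))
    (ZZ Vx.w Q'.X Q'.Mk (insert (u, mkS (eqL (nv b) (nv c))) Q'.C))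
  exact mac_subEq hok.wf hL hv0 (hok.fresh hu)

theorem rep_subAdd1 (h : Q.holds (.eq a b)) (hf : Q.fits (.eq a b)) (hf1 : Q.fits (.add a c d))
    (hf2 : Q.fits (.add b c d)) :
    Rep Q (.add a c d) (.add b c d) := by
  intro Q' hQ hok u hu
  obtain ⟨v0, hv0⟩ := Gs.holds_mono hQ h
  change (v0, mkS (eqL (nv a) (nv b))) ∈ Q'.C at hv0
  have hL : Loc Vx.w Vx.z Q'.X Q'.Mk [nv a, nv b, nv c, nv d] := by
    refine hok.loc (ns := [a, b, c, d]) ?_ ?_
    · have h0 := hf.1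
      have h1 := hf1.1
      have h2 := hf2.1
      simp only [Rel.nd] at h0 h1 h2
      simp [h0, h1.1, h1.2.1, h1.2.2, h2.1, h2.2.1, h2.2.2]
    · intro e he
      have h2' := hf1.2
      have h3' := hf2.2
      simp only [Rel.nms, Finset.mem_insert, Finset.mem_singleton] at h2' h3'
      simp only [List.mem_cons, List.not_mem_nil, or_false] at he
      rcases he with he | he | he | he
      · exact Gs.has_mono hQ (h2' e (by rw [he]; simp))
      · exact Gs.has_mono hQ (h3' e (by rw [he]; simp))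
      · exact Gs.has_mono hQ (h2' e (by rw [he]; simp))
      · exact Gs.has_mono hQ (h2' e (by rw [he]; simp))
  change Sim (ZZ Vx.w Q'.X Q'.Mk (insert (u, mkS (addL (nv a) (nv c) (nv d))) Q'.C))
    (ZZ Vx.w Q'.X Q'.Mk (insert (u, mkS (addL (nv b) (nv c) (nv d))) Q'.C))
  exact mac_subAdd1 hok.wf hL hv0 (hok.fresh hu)

theorem rep_subAdd3 (h : Q.holds (.eq a b)) (hf : Q.fits (.eq a b)) (hf1 : Q.fits (.add c d a))
    (hf2 : Q.fits (.add c d b)) :
    Rep Q (.add c d a) (.add c d b) := by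
  intro Q' hQ hok u hu
  obtain ⟨v0, hv0⟩ := Gs.holds_mono hQ h
  change (v0, mkS (eqL (nv a) (nv b))) ∈ Q'.C at hv0
  have hL : Loc Vx.w Vx.z Q'.X Q'.Mk [nv a, nv b, nv c, nv d] := by
    refine hok.loc (ns := [a, b, c, d]) ?_ ?_
    · have h0 := hf.1
      have h1 := hf1.1
      have h2 := hf2.1
      simp only [Rel.nd] at h0 h1 h2
      simp [h0, h1.1, h1.2.1.symm, h1.2.2.symm, h2.1, h2.2.1.symm, h2.2.2.symm]
    · intro e he
      have h2' := hf1.2
      have h3' := hf2.2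
      simp only [Rel.nms, Finset.mem_insert, Finset.mem_singleton] at h2' h3'
      simp only [List.mem_cons, List.not_mem_nil, or_false] at he
      rcases he with he | he | he | he
      · exact Gs.has_mono hQ (h2' e (by rw [he]; simp))
      · exact Gs.has_mono hQ (h3' e (by rw [he]; simp))
      · exact Gs.has_mono hQ (h2' e (by rw [he]; simp))
      · exact Gs.has_mono hQ (h2' e (by rw [he]; simp))
  change Sim (ZZ Vx.w Q'.X Q'.Mk (insert (u, mkS (addL (nv c) (nv d) (nv a))) Q'.C))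
    (ZZ Vx.w Q'.X Q'.Mk (insert (u, mkS (addL (nv c) (nv d) (nv b))) Q'.C))
  exact mac_subAdd3 hok.wf hL hv0 (hok.fresh hu)

/-- `(a + b) + c = a + (b + c)`, `x = a + b`, `y = b + c`; all six names are different -/
theorem rep_assoc (h : Q.holds (.add a b x)) (h' : Q.holds (.add b c y))
    (hn : [a, b, c, d, x, y].Nodup) (hh : ∀ e ∈ [a, b, c, d, x, y], Q.has e) :
    Rep Q (.add x c d) (.add a y d) := by
  intro Q' hQ hok u hu
  obtain ⟨v0, hv0⟩ := Gs.holds_mono hQ h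
  change (v0, mkS (addL (nv a) (nv b) (nv x))) ∈ Q'.C at hv0
  obtain ⟨v1, hv1⟩ := Gs.holds_mono hQ h'
  change (v1, mkS (addL (nv b) (nv c) (nv y))) ∈ Q'.C at hv1
  have hL : Loc Vx.w Vx.z Q'.X Q'.Mk [nv a, nv b, nv c, nv d, nv x, nv y] := by
    refine hok.loc (ns := [a, b, c, d, x, y]) ?_ ?_
    · exact hn
    · exact fun e he => Gs.has_mono hQ (hh e he)
  change Sim (ZZ Vx.w Q'.X Q'.Mk (insert (u, mkS (addL (nv x) (nv c) (nv d))) Q'.C))
    (ZZ Vx.w Q'.X Q'.Mk (insert (u, mkS (addL (nv a) (nv y) (nv d))) Q'.C))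
  exact mac_assoc hok.wf hL hv0 hv1 (hok.fresh hu)

end Pool.Agent.DF302A.PI
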