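import Mathlib

set_option autoImplicit false

/-! Term calculus: an abstract calculus of cells over names, the group of terms, and the
reduction of unimodular presentations. -/

namespace Pool.Agent.DF302A.PI.Calc

inductive Cell (N : Type)
  | cap (a : N)
  | eq (a b : N)
  | add (a b c : N)

namespace Cell
variable {N : Type}

/-- all names in `A` and pairwise distinct. -/
def WF (A : Finset N) : Cell N → Prop
  | cap a => a ∈ A
  | eq a b => a ∈ A ∧ b ∈ A ∧ a ≠ b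
  | add a b c => a ∈ A ∧ b ∈ A ∧ c ∈ A ∧ a ≠ b ∧ a ≠ c ∧ b ≠ c

theorem WF.mono {A B : Finset N} (h : A ⊆ B) {x : Cell N} (hx : x.WF A) : x.WF B := by
  cases x with
  | cap a => exact h hx
  | eq a b => exact ⟨h hx.1, h hx.2.1, hx.2.2⟩
  | add a b c => exact ⟨h hx.1, h hx.2.1, h hx.2.2.1, hx.2.2.2⟩

end Cell

open Cell

/-- context: finite set of names and a finite multiset of cells. -/
structure Ctx (N : Type) where
  A : Finset N
  Γ : Multiset (Cell N)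

namespace Ctx
variable {N : Type}

def WF (w : Ctx N) : Prop := ∀ x ∈ w.Γ, Cell.WF w.A x

/-- extension of contexts. -/
def le (w w' : Ctx N) : Prop := w.A ⊆ w'.A ∧ ∀ x ∈ w.Γ, x ∈ w'.Γ

theorem le.refl' (w : Ctx N) : w.le w := ⟨fun _ h => h, fun _ h => h⟩

theorem le.le_trans {w w' w'' : Ctx N} (h : w.le w') (h' : w'.le w'') : w.le w'' :=
  ⟨fun _ hx => h'.1 (h.1 hx), fun x hx => h'.2 x (h.2 x hx)⟩

/-- add a cell. -/
def cons (w : Ctx N) (x : Cell N) : Ctx N := ⟨w.A, x ::ₘ w.Γ⟩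

/-- add a name and a cell. -/
def ext [DecidableEq N] (w : Ctx N) (c : N) (x : Cell N) : Ctx N := ⟨insert c w.A, x ::ₘ w.Γ⟩

theorem le_cons (w : Ctx N) (x : Cell N) : w.le (w.cons x) :=
  ⟨fun _ h => h, fun _ h => Multiset.mem_cons_of_mem h⟩

theorem le_ext [DecidableEq N] (w : Ctx N) (c : N) (x : Cell N) : w.le (w.ext c x) :=
  ⟨fun _ h => Finset.mem_insert_of_mem h, fun _ h => Multiset.mem_cons_of_mem h⟩

theorem WF.cons {w : Ctx N} (h : w.WF) {x : Cell N} (hx : x.WF w.A) : (w.cons x).WF := by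
  intro y hy
  rcases Multiset.mem_cons.1 hy with rfl | hy
  · exact hx
  · exact h y hy

theorem WF.ext [DecidableEq N] {w : Ctx N} (h : w.WF) {c : N} {x : Cell N}
    (hx : x.WF (insert c w.A)) : (w.ext c x).WF := by
  intro y hy
  rcases Multiset.mem_cons.1 hy with rfl | hy
  · exact hx
  · exact (h y hy).mono (Finset.subset_insert _ _)

end Ctx

/-- The rules. -/
structure Calculus (N : Type) [DecidableEq N] where
  R : Ctx N → Ctx N → Prop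
  refl : ∀ w, R w w
  symm : ∀ {w w'}, R w w' → R w' w
  trans : ∀ {w w' w''}, R w w' → R w' w'' → R w w''
  new_cap : ∀ {w : Ctx N} {a : N}, w.WF → a ∉ w.A → R w (w.ext a (cap a))
  new_eq : ∀ {w : Ctx N} {a b : N}, w.WF → a ∈ w.A → b ∉ w.A → R w (w.ext b (eq a b))
  new_add3 : ∀ {w : Ctx N} {a b c : N}, w.WF → a ∈ w.A → b ∈ w.A → a ≠ b → c ∉ w.A →
    R w (w.ext c (add a b c))
  new_add1 : ∀ {w : Ctx N} {a b c : N}, w.WF → b ∈ w.A → c ∈ w.A → b ≠ c → a ∉ w.A →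
    R w (w.ext a (add a b c))
  eq_comm : ∀ {w : Ctx N} {a b : N}, w.WF → (eq a b).WF w.A →
    R (w.cons (eq a b)) (w.cons (eq b a))
  add_comm : ∀ {w : Ctx N} {a b c : N}, w.WF → (add a b c).WF w.A →
    R (w.cons (add a b c)) (w.cons (add b a c))
  eq_cap : ∀ {w : Ctx N} {a b : N}, w.WF → eq a b ∈ w.Γ →
    R (w.cons (cap a)) (w.cons (cap b))
  eq_eq : ∀ {w : Ctx N} {a b c : N}, w.WF → eq a b ∈ w.Γ → c ∈ w.A → c ≠ a → c ≠ b →
    R (w.cons (eq a c)) (w.cons (eq b c))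
  eq_add1 : ∀ {w : Ctx N} {a b c d : N}, w.WF → eq a b ∈ w.Γ →
    (add a c d).WF w.A → (add b c d).WF w.A →
    R (w.cons (add a c d)) (w.cons (add b c d))
  eq_add3 : ∀ {w : Ctx N} {a b c d : N}, w.WF → eq a b ∈ w.Γ →
    (add c d a).WF w.A → (add c d b).WF w.A →
    R (w.cons (add c d a)) (w.cons (add c d b))
  add_eq : ∀ {w : Ctx N} {a b c c' : N}, w.WF → add a b c ∈ w.Γ →
    c' ∈ w.A → c' ≠ a → c' ≠ b → c' ≠ c →
    R (w.cons (add a b c')) (w.cons (eq c c'))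
  assoc : ∀ {w : Ctx N} {a b c x y d : N}, w.WF → [a, b, c, x, y, d].Nodup → d ∈ w.A →
    add a b x ∈ w.Γ → add b c y ∈ w.Γ →
    R (w.cons (add x c d)) (w.cons (add a y d))
  cap_eq : ∀ {w : Ctx N} {a b : N}, w.WF → cap a ∈ w.Γ → b ∈ w.A → b ≠ a →
    R (w.cons (cap b)) (w.cons (eq a b))
  cap_add : ∀ {w : Ctx N} {a b c : N}, w.WF → cap b ∈ w.Γ → (add a b c).WF w.A →
    R (w.cons (add a b c)) (w.cons (eq a c))
  add_cap : ∀ {w : Ctx N} {x y z : N}, w.WF → add z y x ∈ w.Γ →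
    R (w.cons (eq x y)) (w.cons (cap z))

section
variable {N : Type} [DecidableEq N] (C : Calculus N)

/-- interchangeable in all extensions. -/
def Intc (w : Ctx N) (X Y : Cell N) : Prop :=
  ∀ w' : Ctx N, w.le w' → w'.WF → C.R (w'.cons X) (w'.cons Y)

/-- equal names: `eq a c` and `eq b c` are interchangeable in all extensions. -/
def Eqv (w : Ctx N) (a b : N) : Prop :=
  ∀ w' : Ctx N, w.le w' → w'.WF → ∀ c ∈ w'.A, c ≠ a → c ≠ b →
    C.R (w'.cons (eq a c)) (w'.cons (eq b c))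

variable {C}

theorem Intc.rfl' {w : Ctx N} {X : Cell N} : Intc C w X X := fun _ _ _ => C.refl _

theorem Intc.symm {w : Ctx N} {X Y : Cell N} (h : Intc C w X Y) : Intc C w Y X :=
  fun w' hl hw => C.symm (h w' hl hw)

theorem Intc.trans {w : Ctx N} {X Y Z : Cell N} (h : Intc C w X Y) (h' : Intc C w Y Z) :
    Intc C w X Z :=
  fun w' hl hw => C.trans (h w' hl hw) (h' w' hl hw)

theorem Intc.mono {w w' : Ctx N} (hle : w.le w') {X Y : Cell N} (h : Intc C w X Y) :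
    Intc C w' X Y :=
  fun v hl hw => h v (hle.le_trans hl) hw

theorem Eqv.mono {w w' : Ctx N} (hle : w.le w') {a b : N} (h : Eqv C w a b) : Eqv C w' a b :=
  fun v hl hw => h v (hle.le_trans hl) hw

theorem Eqv.refl (w : Ctx N) (a : N) : Eqv C w a a := fun _ _ _ _ _ _ _ => C.refl _

theorem Eqv.symm {w : Ctx N} {a b : N} (h : Eqv C w a b) : Eqv C w b a :=
  fun w' hl hw c hc h1 h2 => C.symm (h w' hl hw c hc h2 h1)

theorem Eqv.intc {w : Ctx N} {a b c : N} (h : Eqv C w a b) (hc : c ∈ w.A) (h1 : c ≠ a)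
    (h2 : c ≠ b) : Intc C w (eq a c) (eq b c) :=
  fun w' hl hw => h w' hl hw c (hl.1 hc) h1 h2

theorem ext_cons (w : Ctx N) (X Y : Cell N) (c : N) :
    (w.cons X).ext c Y = (w.ext c Y).cons X := by
  simp [Ctx.cons, Ctx.ext, Multiset.cons_swap]

theorem ext_cons_swap (w : Ctx N) (X Y : Cell N) (c : N) :
    (w.ext c Y).cons X = (w.ext c X).cons Y := by
  simp [Ctx.cons, Ctx.ext, Multiset.cons_swap]

theorem ext_mono {w w' : Ctx N} (h : w.le w') (c : N) (X : Cell N) :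
    (w.ext c X).le (w'.ext c X) := by
  refine ⟨Finset.insert_subset_insert _ h.1, ?_⟩
  intro x hx
  rcases Multiset.mem_cons.1 hx with rfl | hx
  · exact Multiset.mem_cons_self _ _
  · exact Multiset.mem_cons_of_mem (h.2 x hx)

theorem mem_ext_self (w : Ctx N) (c : N) (X : Cell N) : X ∈ (w.ext c X).Γ :=
  Multiset.mem_cons_self _ _

theorem mem_ext_A (w : Ctx N) (c : N) (X : Cell N) : c ∈ (w.ext c X).A :=
  Finset.mem_insert_self _ _

theorem mem_ext_A' {w : Ctx N} {a : N} (c : N) (X : Cell N) (h : a ∈ w.A) : a ∈ (w.ext c X).A :=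
  Finset.mem_insert_of_mem h

/-! rules as interchangeability statements -/

theorem Intc.eqComm {w : Ctx N} {a b : N} (h : (eq a b).WF w.A) :
    Intc C w (eq a b) (eq b a) :=
  fun _ hl hw => C.eq_comm hw (h.mono hl.1)

theorem Intc.addComm {w : Ctx N} {a b c : N} (h : (add a b c).WF w.A) :
    Intc C w (add a b c) (add b a c) :=
  fun _ hl hw => C.add_comm hw (h.mono hl.1)

theorem Intc.eqCap {w : Ctx N} {a b : N} (h : eq a b ∈ w.Γ) : Intc C w (cap a) (cap b) :=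
  fun _ hl hw => C.eq_cap hw (hl.2 _ h)

theorem Intc.eqEq {w : Ctx N} {a b c : N} (h : eq a b ∈ w.Γ) (hc : c ∈ w.A) (h1 : c ≠ a)
    (h2 : c ≠ b) : Intc C w (eq a c) (eq b c) :=
  fun _ hl hw => C.eq_eq hw (hl.2 _ h) (hl.1 hc) h1 h2

theorem Intc.eqAdd1 {w : Ctx N} {a b c d : N} (h : eq a b ∈ w.Γ) (h1 : (add a c d).WF w.A)
    (h2 : (add b c d).WF w.A) : Intc C w (add a c d) (add b c d) :=
  fun _ hl hw => C.eq_add1 hw (hl.2 _ h) (h1.mono hl.1) (h2.mono hl.1)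

theorem Intc.eqAdd3 {w : Ctx N} {a b c d : N} (h : eq a b ∈ w.Γ) (h1 : (add c d a).WF w.A)
    (h2 : (add c d b).WF w.A) : Intc C w (add c d a) (add c d b) :=
  fun _ hl hw => C.eq_add3 hw (hl.2 _ h) (h1.mono hl.1) (h2.mono hl.1)

theorem Intc.addEq {w : Ctx N} {a b c c' : N} (h : add a b c ∈ w.Γ) (hc : c' ∈ w.A)
    (h1 : c' ≠ a) (h2 : c' ≠ b) (h3 : c' ≠ c) : Intc C w (add a b c') (eq c c') :=
  fun _ hl hw => C.add_eq hw (hl.2 _ h) (hl.1 hc) h1 h2 h3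

theorem Intc.assoc {w : Ctx N} {a b c x y d : N} (h : [a, b, c, x, y, d].Nodup)
    (hd : d ∈ w.A) (h1 : add a b x ∈ w.Γ) (h2 : add b c y ∈ w.Γ) :
    Intc C w (add x c d) (add a y d) :=
  fun _ hl hw => C.assoc hw h (hl.1 hd) (hl.2 _ h1) (hl.2 _ h2)

theorem Intc.capEq {w : Ctx N} {a b : N} (h : cap a ∈ w.Γ) (hb : b ∈ w.A) (hne : b ≠ a) :
    Intc C w (cap b) (eq a b) :=
  fun _ hl hw => C.cap_eq hw (hl.2 _ h) (hl.1 hb) hne

theorem Intc.capAdd {w : Ctx N} {a b c : N} (h : cap b ∈ w.Γ) (h1 : (add a b c).WF w.A) :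
    Intc C w (add a b c) (eq a c) :=
  fun _ hl hw => C.cap_add hw (hl.2 _ h) (h1.mono hl.1)

theorem Intc.addCap {w : Ctx N} {x y z : N} (h : add z y x ∈ w.Γ) :
    Intc C w (eq x y) (cap z) :=
  fun _ hl hw => C.add_cap hw (hl.2 _ h)

/-! derived rules -/

theorem Intc.eqEq2 {w : Ctx N} {a b c : N} (h : eq a b ∈ w.Γ) (ha : a ∈ w.A) (hb : b ∈ w.A)
    (hc : c ∈ w.A) (h1 : c ≠ a) (h2 : c ≠ b) : Intc C w (eq c a) (eq c b) :=
  (Intc.eqComm ⟨hc, ha, h1⟩).trans ((Intc.eqEq h hc h1 h2).trans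
    (Intc.eqComm ⟨hb, hc, h2.symm⟩))

theorem Intc.eqAdd2 {w : Ctx N} {a b c d : N} (h : eq a b ∈ w.Γ) (h1 : (add c a d).WF w.A)
    (h2 : (add c b d).WF w.A) : Intc C w (add c a d) (add c b d) := by
  obtain ⟨q1, q2, q3, q4, q5, q6⟩ := h1
  obtain ⟨r1, r2, r3, r4, r5, r6⟩ := h2
  exact (Intc.addComm ⟨q1, q2, q3, q4, q5, q6⟩).trans
    ((Intc.eqAdd1 h ⟨q2, q1, q3, q4.symm, q6, q5⟩ ⟨r2, r1, r3, r4.symm, r6, r5⟩).trans
    (Intc.addComm ⟨r2, r1, r3, r4.symm, r6, r5⟩))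

theorem Intc.fresh [Infinite N] {w : Ctx N} {a : N} (ha : a ∈ w.A) (S : Finset N)
    {X Y : Cell N} (hX : X.WF w.A) (hY : Y.WF w.A)
    (h : ∀ c, c ∉ w.A → c ∉ S → Intc C (w.ext c (eq a c)) X Y) : Intc C w X Y := by
  intro w' hle hw'
  obtain ⟨c, hc⟩ := Infinite.exists_notMem_finset (w'.A ∪ S)
  have hcA : c ∉ w'.A := fun h => hc (Finset.mem_union_left _ h)
  have hcS : c ∉ S := fun h => hc (Finset.mem_union_right _ h)
  have hca : a ≠ c := fun h => hcA (h ▸ hle.1 ha)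
  have e1 := C.new_eq (hw'.cons (hX.mono hle.1)) (hle.1 ha) hcA
  have e2 := C.new_eq (hw'.cons (hY.mono hle.1)) (hle.1 ha) hcA
  rw [ext_cons] at e1 e2
  refine C.trans e1 (C.trans ?_ (C.symm e2))
  exact h c (fun h => hcA (hle.1 h)) hcS _ (ext_mono hle _ _)
    (hw'.ext ⟨Finset.mem_insert_of_mem (hle.1 ha), Finset.mem_insert_self _ _, hca⟩)

theorem Intc.freshAdd [Infinite N] {w : Ctx N} {a b : N} (ha : a ∈ w.A) (hb : b ∈ w.A)
    (hab : a ≠ b) (S : Finset N)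
    {X Y : Cell N} (hX : X.WF w.A) (hY : Y.WF w.A)
    (h : ∀ c, c ∉ w.A → c ∉ S → Intc C (w.ext c (add a b c)) X Y) : Intc C w X Y := by
  intro w' hle hw'
  obtain ⟨c, hc⟩ := Infinite.exists_notMem_finset (w'.A ∪ S)
  have hcA : c ∉ w'.A := fun h => hc (Finset.mem_union_left _ h)
  have hcS : c ∉ S := fun h => hc (Finset.mem_union_right _ h)
  have hca : a ≠ c := fun h => hcA (h ▸ hle.1 ha)
  have hcb : b ≠ c := fun h => hcA (h ▸ hle.1 hb)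
  have e1 := C.new_add3 (hw'.cons (hX.mono hle.1)) (hle.1 ha) (hle.1 hb) hab hcA
  have e2 := C.new_add3 (hw'.cons (hY.mono hle.1)) (hle.1 ha) (hle.1 hb) hab hcA
  rw [ext_cons] at e1 e2
  refine C.trans e1 (C.trans ?_ (C.symm e2))
  exact h c (fun h => hcA (hle.1 h)) hcS _ (ext_mono hle _ _)
    (hw'.ext ⟨Finset.mem_insert_of_mem (hle.1 ha), Finset.mem_insert_of_mem (hle.1 hb),
      Finset.mem_insert_self _ _, hab, hca, hcb⟩)

/-- the replacement trick. -/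
theorem Eqv.repl [Infinite N] {w : Ctx N} {a b : N} (hab : Eqv C w a b) (ha : a ∈ w.A)
    (hb : b ∈ w.A) (S : Finset N) {X Z : Cell N} (hX : X.WF w.A) (hZ : Z.WF w.A)
    (Y : N → Cell N) (hY : ∀ c, c ∉ w.A → (Y c).WF (insert c w.A))
    (h1 : ∀ c, c ∉ w.A → c ∉ S → Intc C (w.ext c (eq a c)) X (Y c))
    (h2 : ∀ c, c ∉ w.A → c ∉ S → Intc C (w.ext c (eq b c)) Z (Y c)) : Intc C w X Z := by
  intro w' hle hw'
  obtain ⟨c, hc⟩ := Infinite.exists_notMem_finset (w'.A ∪ S)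
  have hcA : c ∉ w'.A := fun h => hc (Finset.mem_union_left _ h)
  have hcS : c ∉ S := fun h => hc (Finset.mem_union_right _ h)
  have hcw : c ∉ w.A := fun h => hcA (hle.1 h)
  have hca : a ≠ c := fun h => hcA (h ▸ hle.1 ha)
  have hcb : b ≠ c := fun h => hcA (h ▸ hle.1 hb)
  have e1 := C.new_eq (hw'.cons (hX.mono hle.1)) (hle.1 ha) hcA
  have e2 := C.new_eq (hw'.cons (hZ.mono hle.1)) (hle.1 hb) hcA
  rw [ext_cons] at e1 e2
  have hYw : (Y c).WF (insert c w'.A) := (hY c hcw).mono (Finset.insert_subset_insert _ hle.1)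
  have f1 : C.R ((w'.ext c (eq a c)).cons X) ((w'.ext c (eq a c)).cons (Y c)) :=
    h1 c hcw hcS _ (ext_mono hle _ _)
      (hw'.ext ⟨Finset.mem_insert_of_mem (hle.1 ha), Finset.mem_insert_self _ _, hca⟩)
  have f2 : C.R ((w'.ext c (eq b c)).cons Z) ((w'.ext c (eq b c)).cons (Y c)) :=
    h2 c hcw hcS _ (ext_mono hle _ _)
      (hw'.ext ⟨Finset.mem_insert_of_mem (hle.1 hb), Finset.mem_insert_self _ _, hcb⟩)
  have m : C.R ((w'.ext c (Y c)).cons (eq a c)) ((w'.ext c (Y c)).cons (eq b c)) :=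
    hab _ (hle.le_trans (Ctx.le_ext _ _ _)) (hw'.ext hYw) c (mem_ext_A _ _ _) hca.symm hcb.symm
  rw [ext_cons_swap w' (eq a c), ext_cons_swap w' (eq b c)] at m
  exact C.trans e1 (C.trans f1 (C.trans m (C.trans (C.symm f2) (C.symm e2))))

theorem Eqv.of_mem {w : Ctx N} {a b : N} (h : eq a b ∈ w.Γ) : Eqv C w a b :=
  fun _ hl hw _ hc h1 h2 => C.eq_eq hw (hl.2 _ h) hc h1 h2

/-- it suffices to check `Eqv` against names outside a finite set. -/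
theorem Eqv.of_weak [Infinite N] {w : Ctx N} {a b : N} (ha : a ∈ w.A) (hb : b ∈ w.A)
    (S : Finset N)
    (h : ∀ w' : Ctx N, w.le w' → ∀ c ∈ w'.A, c ∉ S → Intc C w' (eq a c) (eq b c)) :
    Eqv C w a b := by
  intro w' hle hw' e he h1 h2
  have ha' := hle.1 ha
  have hb' := hle.1 hb
  have := Intc.fresh (C := C) (w := w') (a := e) he S (X := eq a e) (Y := eq b e)
    ⟨ha', he, h1.symm⟩ ⟨hb', he, h2.symm⟩ (fun c hc hcS => by
      have hca : c ≠ a := fun h => hc (h ▸ ha')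
      have hcb : c ≠ b := fun h => hc (h ▸ hb')
      have hce : c ≠ e := fun h => hc (h ▸ he)
      have q : eq e c ∈ (w'.ext c (eq e c)).Γ := mem_ext_self _ _ _
      have A1 := mem_ext_A' c (eq e c) ha'
      have A2 := mem_ext_A' c (eq e c) hb'
      have A3 := mem_ext_A' c (eq e c) he
      have A4 := mem_ext_A w' c (eq e c)
      exact (Intc.eqEq2 q A3 A4 A1 h1.symm hca.symm).trans
        ((h _ (hle.le_trans (Ctx.le_ext _ _ _)) c A4 hcS).trans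
          (Intc.eqEq2 q A3 A4 A2 h2.symm hcb.symm).symm))
  exact this w' (Ctx.le.refl' _) hw'

theorem Eqv.trans [Infinite N] {w : Ctx N} {a b c : N} (ha : a ∈ w.A) (hc : c ∈ w.A)
    (h : Eqv C w a b) (h' : Eqv C w b c) : Eqv C w a c := by
  refine Eqv.of_weak ha hc {a, b, c} ?_
  intro w' hle e he hS
  simp only [Finset.mem_insert, Finset.mem_singleton, not_or] at hS
  exact ((h.mono hle).intc he hS.1 hS.2.1).trans ((h'.mono hle).intc he hS.2.1 hS.2.2)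

theorem Eqv.eq1 {w : Ctx N} {a b c : N} (h : Eqv C w a b)
    (h1 : (eq a c).WF w.A) (h2 : (eq b c).WF w.A) : Intc C w (eq a c) (eq b c) :=
  h.intc h1.2.1 h1.2.2.symm h2.2.2.symm

theorem Eqv.eq2 {w : Ctx N} {a b c : N} (h : Eqv C w a b)
    (h1 : (eq c a).WF w.A) (h2 : (eq c b).WF w.A) : Intc C w (eq c a) (eq c b) :=
  (Intc.eqComm h1).trans ((h.intc h1.1 h1.2.2 h2.2.2).trans
    (Intc.eqComm ⟨h2.2.1, h2.1, h2.2.2.symm⟩))

theorem Eqv.capc [Infinite N] {w : Ctx N} {a b : N} (h : Eqv C w a b) (ha : a ∈ w.A)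
    (hb : b ∈ w.A) : Intc C w (cap a) (cap b) :=
  h.repl ha hb ∅ (X := Cell.cap a) (Z := Cell.cap b) ha hb (fun c => Cell.cap c)
    (fun _ _ => Finset.mem_insert_self _ _)
    (fun _ _ _ => Intc.eqCap (mem_ext_self _ _ _))
    (fun _ _ _ => Intc.eqCap (mem_ext_self _ _ _))

theorem Eqv.add1 [Infinite N] {w : Ctx N} {a b c d : N} (h : Eqv C w a b)
    (h1 : (add a c d).WF w.A) (h2 : (add b c d).WF w.A) :
    Intc C w (add a c d) (add b c d) := by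
  have h1' := h1
  have h2' := h2
  obtain ⟨q1, q2, q3, q4, q5, q6⟩ := h1
  obtain ⟨r1, r2, r3, r4, r5, r6⟩ := h2
  have hY : ∀ e, e ∉ w.A → (add e c d).WF (insert e w.A) := fun e he =>
    ⟨Finset.mem_insert_self _ _, Finset.mem_insert_of_mem q2, Finset.mem_insert_of_mem q3,
      fun h => he (h ▸ q2), fun h => he (h ▸ q3), q6⟩
  exact h.repl q1 r1 ∅ h1' h2' (fun e => add e c d) hY
    (fun e he _ => Intc.eqAdd1 (mem_ext_self _ _ _)
      (h1'.mono (Finset.subset_insert _ _)) (hY e he))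
    (fun e he _ => Intc.eqAdd1 (mem_ext_self _ _ _)
      (h2'.mono (Finset.subset_insert _ _)) (hY e he))

theorem Eqv.add2 [Infinite N] {w : Ctx N} {a b c d : N} (h : Eqv C w a b)
    (h1 : (add c a d).WF w.A) (h2 : (add c b d).WF w.A) :
    Intc C w (add c a d) (add c b d) := by
  obtain ⟨q1, q2, q3, q4, q5, q6⟩ := h1
  obtain ⟨r1, r2, r3, r4, r5, r6⟩ := h2
  exact (Intc.addComm ⟨q1, q2, q3, q4, q5, q6⟩).trans
    ((h.add1 ⟨q2, q1, q3, q4.symm, q6, q5⟩ ⟨r2, r1, r3, r4.symm, r6, r5⟩).trans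
    (Intc.addComm ⟨r2, r1, r3, r4.symm, r6, r5⟩))

theorem Eqv.add3 [Infinite N] {w : Ctx N} {a b c d : N} (h : Eqv C w a b)
    (h1 : (add c d a).WF w.A) (h2 : (add c d b).WF w.A) :
    Intc C w (add c d a) (add c d b) := by
  have h1' := h1
  have h2' := h2
  obtain ⟨q1, q2, q3, q4, q5, q6⟩ := h1
  obtain ⟨r1, r2, r3, r4, r5, r6⟩ := h2
  have hY : ∀ e, e ∉ w.A → (add c d e).WF (insert e w.A) := fun e he =>
    ⟨Finset.mem_insert_of_mem q1, Finset.mem_insert_of_mem q2, Finset.mem_insert_self _ _,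
      q4, fun h => he (h ▸ q1), fun h => he (h ▸ q2)⟩
  exact h.repl q3 r3 ∅ h1' h2' (fun e => add c d e) hY
    (fun e he _ => Intc.eqAdd3 (mem_ext_self _ _ _)
      (h1'.mono (Finset.subset_insert _ _)) (hY e he))
    (fun e he _ => Intc.eqAdd3 (mem_ext_self _ _ _)
      (h2'.mono (Finset.subset_insert _ _)) (hY e he))

/-- congruence of addition. -/
theorem Eqv.add_congr [Infinite N] {w : Ctx N} {a b a' b' e : N} (h : Eqv C w a a')
    (h' : Eqv C w b b') (h1 : (add a b e).WF w.A) (h2 : (add a' b' e).WF w.A) :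
    Intc C w (add a b e) (add a' b' e) := by
  have h1' := h1
  have h2' := h2
  obtain ⟨q1, q2, q3, q4, q5, q6⟩ := h1
  obtain ⟨r1, r2, r3, r4, r5, r6⟩ := h2
  refine Intc.fresh (a := a) q1 ∅ h1' h2' ?_
  intro c hc _
  have hcw : ∀ {x}, x ∈ w.A → c ≠ x := fun hx h => hc (h ▸ hx)
  have hw1 : w.A ⊆ (w.ext c (eq a c)).A := Finset.subset_insert _ _
  have hc1 : c ∈ (w.ext c (eq a c)).A := mem_ext_A _ _ _
  refine Intc.fresh (a := b) (hw1 q2) ∅ (h1'.mono hw1) (h2'.mono hw1) ?_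
  intro d hd _
  set w1 := w.ext c (eq a c) with hw1d
  set w2 := w1.ext d (eq b d) with hw2d
  have hw2 : w1.A ⊆ w2.A := Finset.subset_insert _ _
  have hdw : ∀ {x}, x ∈ w1.A → d ≠ x := fun hx h => hd (h ▸ hx)
  have hd2 : d ∈ w2.A := mem_ext_A _ _ _
  have hc2 : c ∈ w2.A := hw2 hc1
  have m1 : eq a c ∈ w2.Γ := Multiset.mem_cons_of_mem (mem_ext_self _ _ _)
  have m2 : eq b d ∈ w2.Γ := mem_ext_self _ _ _
  have le2 : w.le w2 := (Ctx.le_ext _ _ _).le_trans (Ctx.le_ext _ _ _)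
  have E1 : Eqv C w2 c a' :=
    Eqv.trans hc2 (hw2 (hw1 r1)) (Eqv.of_mem m1).symm (h.mono le2)
  have E2 : Eqv C w2 d b' :=
    Eqv.trans hd2 (hw2 (hw1 r2)) (Eqv.of_mem m2).symm (h'.mono le2)
  have W0 : (add a b e).WF w2.A := h1'.mono le2.1
  have W1 : (add c b e).WF w2.A := ⟨hc2, hw2 (hw1 q2), hw2 (hw1 q3), hcw q2, hcw q3, q6⟩
  have W2 : (add c d e).WF w2.A :=
    ⟨hc2, hd2, hw2 (hw1 q3), (hdw hc1).symm, hcw q3, hdw (hw1 q3)⟩
  have W3 : (add a' d e).WF w2.A :=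
    ⟨hw2 (hw1 r1), hd2, hw2 (hw1 q3), (hdw (hw1 r1)).symm, r5, hdw (hw1 q3)⟩
  have W4 : (add a' b' e).WF w2.A := h2'.mono le2.1
  exact (Intc.eqAdd1 m1 W0 W1).trans ((Intc.eqAdd2 m2 W1 W2).trans
    ((E1.add1 W2 W3).trans (E2.add2 W3 W4)))

/-- sums of equal names are equal. -/
theorem Eqv.sum_congr [Infinite N] {w : Ctx N} (hw : w.WF) {a b c a' b' c' : N}
    (h : Eqv C w a a') (h' : Eqv C w b b') (m : add a b c ∈ w.Γ) (m' : add a' b' c' ∈ w.Γ) :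
    Eqv C w c c' := by
  have h1 := hw _ m
  have h2 := hw _ m'
  obtain ⟨q1, q2, q3, q4, q5, q6⟩ := h1
  obtain ⟨r1, r2, r3, r4, r5, r6⟩ := h2
  refine Eqv.of_weak q3 r3 {a, b, c, a', b', c'} ?_
  intro w' hle e he hS
  simp only [Finset.mem_insert, Finset.mem_singleton, not_or] at hS
  obtain ⟨s1, s2, s3, s4, s5, s6⟩ := hS
  exact (Intc.addEq (hle.2 _ m) he s1 s2 s3).symm.trans
    (((h.mono hle).add_congr (h'.mono hle)
      ⟨hle.1 q1, hle.1 q2, he, q4, Ne.symm s1, Ne.symm s2⟩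
      ⟨hle.1 r1, hle.1 r2, he, r4, Ne.symm s4, Ne.symm s5⟩).trans
    (Intc.addEq (hle.2 _ m') he s4 s5 s6))

theorem Intc.of_wf {w : Ctx N} {X Y : Cell N}
    (h : ∀ w' : Ctx N, w.le w' → w'.WF → Intc C w' X Y) : Intc C w X Y :=
  fun w' hl hw => h w' hl hw w' (Ctx.le.refl' _) hw

theorem Intc.fresh' [Infinite N] {w : Ctx N} (hw : w.WF) {a : N} (ha : a ∈ w.A)
    {X Y : Cell N} (hX : X.WF w.A) (hY : Y.WF w.A)
    (h : ∀ (v : Ctx N) (c : N), w.le v → v.WF → c ∈ v.A → eq a c ∈ v.Γ → (∀ x ∈ w.A, x ≠ c) →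
      Intc C v X Y) : Intc C w X Y := by
  refine Intc.fresh ha ∅ hX hY ?_
  intro c hc _
  have hn : ∀ x ∈ w.A, x ≠ c := fun x hx h => hc (h ▸ hx)
  exact h _ c (Ctx.le_ext _ _ _)
    (hw.ext ⟨Finset.mem_insert_of_mem ha, Finset.mem_insert_self _ _, hn a ha⟩)
    (mem_ext_A _ _ _) (mem_ext_self _ _ _) hn

theorem Intc.freshAdd' [Infinite N] {w : Ctx N} (hw : w.WF) {a b : N} (ha : a ∈ w.A)
    (hb : b ∈ w.A) (hab : a ≠ b)
    {X Y : Cell N} (hX : X.WF w.A) (hY : Y.WF w.A)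
    (h : ∀ (v : Ctx N) (c : N), w.le v → v.WF → c ∈ v.A → add a b c ∈ v.Γ →
      (∀ x ∈ w.A, x ≠ c) → Intc C v X Y) : Intc C w X Y := by
  refine Intc.freshAdd ha hb hab ∅ hX hY ?_
  intro c hc _
  have hn : ∀ x ∈ w.A, x ≠ c := fun x hx h => hc (h ▸ hx)
  exact h _ c (Ctx.le_ext _ _ _)
    (hw.ext ⟨Finset.mem_insert_of_mem ha, Finset.mem_insert_of_mem hb,
      Finset.mem_insert_self _ _, hab, hn a ha, hn b hb⟩)
    (mem_ext_A _ _ _) (mem_ext_self _ _ _) hn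

/-- associativity. -/
theorem Eqv.sum_assoc [Infinite N] {w : Ctx N} (hw : w.WF) {a b c x y d a' b' c' x' y' d' : N}
    (ha : Eqv C w a a') (hb : Eqv C w b b') (hc : Eqv C w c c') (hx : Eqv C w x x')
    (hy : Eqv C w y y') (m1 : add a b x ∈ w.Γ) (m2 : add x' c d ∈ w.Γ)
    (m3 : add b' c' y ∈ w.Γ) (m4 : add a' y' d' ∈ w.Γ) :
    Eqv C w d d' := by
  obtain ⟨a1, a2, a3, a4, a5, a6⟩ := hw _ m1
  obtain ⟨b1, b2, b3, b4, b5, b6⟩ := hw _ m2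
  obtain ⟨c1, c2, c3, c4, c5, c6⟩ := hw _ m3
  obtain ⟨d1, d2, d3, d4, d5, d6⟩ := hw _ m4
  refine Eqv.of_weak b3 d3 {x', c, d, a', y', d'} ?_
  intro w₀ hle₀ e he hS
  simp only [Finset.mem_insert, Finset.mem_singleton, not_or] at hS
  obtain ⟨s1, s2, s3, s4, s5, s6⟩ := hS
  have A1 : (add x' c e).WF w₀.A := ⟨hle₀.1 b1, hle₀.1 b2, he, b4, Ne.symm s1, Ne.symm s2⟩
  have A2 : (add a' y' e).WF w₀.A := ⟨hle₀.1 d1, hle₀.1 d2, he, d4, Ne.symm s4, Ne.symm s5⟩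
  have B1 : Intc C w₀ (eq d e) (add x' c e) := (Intc.addEq (hle₀.2 _ m2) he s1 s2 s3).symm
  have B2 : Intc C w₀ (add a' y' e) (eq d' e) := Intc.addEq (hle₀.2 _ m4) he s4 s5 s6
  refine B1.trans (Intc.trans ?_ B2)
  refine Intc.of_wf ?_
  intro w₁ hle₁ hw₁
  have L1 := hle₀.le_trans hle₁
  refine Intc.fresh' hw₁ (L1.1 a1) (A1.mono hle₁.1) (A2.mono hle₁.1) ?_
  intro w₂ a₂ hle₂ hw₂ p2 q2 n2
  have L2 := L1.le_trans hle₂
  have M2 := hle₁.le_trans hle₂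
  refine Intc.fresh' hw₂ (L2.1 a2) (A1.mono M2.1) (A2.mono M2.1) ?_
  intro w₃ b₂ hle₃ hw₃ p3 q3 n3
  have L3 := L2.le_trans hle₃
  have M3 := M2.le_trans hle₃
  refine Intc.fresh' hw₃ (L3.1 b2) (A1.mono M3.1) (A2.mono M3.1) ?_
  intro w₄ c₂ hle₄ hw₄ p4 q4 n4
  have L4 := L3.le_trans hle₄
  have M4 := M3.le_trans hle₄
  have p2' : a₂ ∈ w₄.A := hle₄.1 (hle₃.1 p2)
  have p3' : b₂ ∈ w₄.A := hle₄.1 p3
  refine Intc.freshAdd' hw₄ p2' p3' (n3 _ p2) (A1.mono M4.1) (A2.mono M4.1) ?_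
  intro w₅ x₂ hle₅ hw₅ p5 q5 n5
  have L5 := L4.le_trans hle₅
  have M5 := M4.le_trans hle₅
  refine Intc.freshAdd' hw₅ (hle₅.1 p3') (hle₅.1 p4) (n4 _ p3) (A1.mono M5.1)
    (A2.mono M5.1) ?_
  intro w₆ y₂ hle₆ hw₆ p6 q6 n6
  have L6 := L5.le_trans hle₆
  have M6 := M5.le_trans hle₆
  -- memberships
  have E2 : a₂ ∈ w₆.A := hle₆.1 (hle₅.1 p2')
  have E3 : b₂ ∈ w₆.A := hle₆.1 (hle₅.1 p3')
  have E4 : c₂ ∈ w₆.A := hle₆.1 (hle₅.1 p4)
  have E5 : x₂ ∈ w₆.A := hle₆.1 p5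
  have Ee : e ∈ w₆.A := M6.1 he
  have G2 : eq a a₂ ∈ w₆.Γ := hle₆.2 _ (hle₅.2 _ (hle₄.2 _ (hle₃.2 _ q2)))
  have G3 : eq b b₂ ∈ w₆.Γ := hle₆.2 _ (hle₅.2 _ (hle₄.2 _ q3))
  have G4 : eq c c₂ ∈ w₆.Γ := hle₆.2 _ (hle₅.2 _ q4)
  have G5 : add a₂ b₂ x₂ ∈ w₆.Γ := hle₆.2 _ q5
  have e1 : e ∈ w₁.A := hle₁.1 he
  have e2 : e ∈ w₂.A := hle₂.1 e1
  have e3 : e ∈ w₃.A := hle₃.1 e2
  have e4 : e ∈ w₄.A := hle₄.1 e3
  have e5 : e ∈ w₅.A := hle₅.1 e4
  have nd : [a₂, b₂, c₂, x₂, y₂, e].Nodup := by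
    have h1 := n3 _ p2
    have h2 := n4 _ (hle₃.1 p2)
    have h3 := n5 _ p2'
    have h4 := n6 _ (hle₅.1 p2')
    have h5 := (n2 _ e1).symm
    have h6 := n4 _ p3
    have h7 := n5 _ p3'
    have h8 := n6 _ (hle₅.1 p3')
    have h9 := (n3 _ e2).symm
    have h10 := n5 _ p4
    have h11 := n6 _ (hle₅.1 p4)
    have h12 := (n4 _ e3).symm
    have h13 := n6 _ p5
    have h14 := (n5 _ e4).symm
    have h15 := (n6 _ e5).symm
    simp [h1, h2, h3, h4, h5, h6, h7, h8, h9, h10, h11, h12, h13, h14, h15]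
  -- equalities
  have F2 : Eqv C w₆ a a₂ := Eqv.of_mem G2
  have F3 : Eqv C w₆ b b₂ := Eqv.of_mem G3
  have F4 : Eqv C w₆ c c₂ := Eqv.of_mem G4
  have F5 : Eqv C w₆ x x₂ := Eqv.sum_congr hw₆ F2 F3 (L6.2 _ m1) G5
  have F3' : Eqv C w₆ b' b₂ := Eqv.trans (L6.1 c1) E3 (hb.mono L6).symm F3
  have F4' : Eqv C w₆ c' c₂ := Eqv.trans (L6.1 c2) E4 (hc.mono L6).symm F4
  have F6 : Eqv C w₆ y y₂ := Eqv.sum_congr hw₆ F3' F4' (L6.2 _ m3) q6
  have F5' : Eqv C w₆ x' x₂ := Eqv.trans (L6.1 b1) E5 (hx.mono L6).symm F5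
  have F6' : Eqv C w₆ y₂ y' := Eqv.trans p6 (L6.1 d2) F6.symm (hy.mono L6)
  have F2' : Eqv C w₆ a₂ a' := Eqv.trans E2 (L6.1 d1) F2.symm (ha.mono L6)
  have hm := nd
  simp only [List.nodup_cons, List.mem_cons, List.not_mem_nil, or_false, not_or,
    not_false_eq_true, List.nodup_nil, and_true] at hm
  obtain ⟨⟨k1, k2, k3, k4, k5⟩, ⟨k6, k7, k8, k9⟩, ⟨k10, k11, k12⟩, ⟨k13, k14⟩, k15⟩ := hm
  exact (F5'.add_congr F4 (A1.mono M6.1) ⟨E5, E4, Ee, Ne.symm k10, k14, k12⟩).trans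
    ((Intc.assoc nd Ee G5 q6).trans
    (F2'.add_congr F6' ⟨E2, p6, Ee, k4, k5, k15⟩ (A2.mono M6.1)))

/-- commutativity. -/
theorem Eqv.sum_comm [Infinite N] {w : Ctx N} (hw : w.WF) {a b c a' b' c' : N}
    (h : Eqv C w a a') (h' : Eqv C w b b') (m : add a b c ∈ w.Γ) (m' : add b' a' c' ∈ w.Γ) :
    Eqv C w c c' := by
  obtain ⟨q1, q2, q3, q4, q5, q6⟩ := hw _ m
  obtain ⟨r1, r2, r3, r4, r5, r6⟩ := hw _ m'
  refine Eqv.of_weak q3 r3 {a, b, c, a', b', c'} ?_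
  intro w' hle e he hS
  simp only [Finset.mem_insert, Finset.mem_singleton, not_or] at hS
  obtain ⟨s1, s2, s3, s4, s5, s6⟩ := hS
  exact (Intc.addEq (hle.2 _ m) he s1 s2 s3).symm.trans
    (((h.mono hle).add_congr (h'.mono hle)
      ⟨hle.1 q1, hle.1 q2, he, q4, Ne.symm s1, Ne.symm s2⟩
      ⟨hle.1 r2, hle.1 r1, he, r4.symm, Ne.symm s4, Ne.symm s5⟩).trans
    ((Intc.addComm ⟨hle.1 r2, hle.1 r1, he, r4.symm, Ne.symm s4, Ne.symm s5⟩).trans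
    (Intc.addEq (hle.2 _ m') he s5 s4 s6)))

/-- adding a capped name changes nothing. -/
theorem Eqv.sum_cap [Infinite N] {w : Ctx N} (hw : w.WF) {a b c z : N}
    (hz : Cell.cap z ∈ w.Γ) (hb : Eqv C w b z) (m : add a b c ∈ w.Γ) :
    Eqv C w c a := by
  obtain ⟨q1, q2, q3, q4, q5, q6⟩ := hw _ m
  have hzA : z ∈ w.A := hw _ hz
  refine Eqv.of_weak q3 q1 {a, b, c, z} ?_
  intro w₀ hle e he hS
  simp only [Finset.mem_insert, Finset.mem_singleton, not_or] at hS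
  obtain ⟨s1, s2, s3, s4⟩ := hS
  have B1 : Intc C w₀ (eq c e) (add a b e) := (Intc.addEq (hle.2 _ m) he s1 s2 s3).symm
  refine B1.trans ?_
  refine Intc.of_wf ?_
  intro w₁ hle₁ hw₁
  have L1 := hle.le_trans hle₁
  have A1 : (add a b e).WF w₁.A := ⟨L1.1 q1, L1.1 q2, hle₁.1 he, q4, Ne.symm s1, Ne.symm s2⟩
  have A2 : (eq a e).WF w₁.A := ⟨L1.1 q1, hle₁.1 he, Ne.symm s1⟩
  refine Intc.fresh' hw₁ (L1.1 q1) A1 A2 ?_
  intro w₂ c₂ hle₂ hw₂ p2 m2 n2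
  have L2 := L1.le_trans hle₂
  have M2 := hle₁.le_trans hle₂
  have W1 : (add c₂ z e).WF w₂.A := ⟨p2, L2.1 hzA, M2.1 he, (n2 _ (L1.1 hzA)).symm,
    (n2 _ (hle₁.1 he)).symm, Ne.symm s4⟩
  have W2 : (eq c₂ e).WF w₂.A := ⟨p2, M2.1 he, (n2 _ (hle₁.1 he)).symm⟩
  exact ((Eqv.of_mem m2).add_congr (hb.mono L2) (A1.mono hle₂.1) W1).trans
    ((Intc.capAdd (L2.2 _ hz) W1).trans
      ((Eqv.of_mem m2).symm.eq1 W2 (A2.mono hle₂.1)))

/-- `z + y = x` : then `x = y` and `z = 0` are interchangeable. -/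
theorem Eqv.diff_cap [Infinite N] {w : Ctx N} (hw : w.WF) {x y z x' y' : N}
    (m : add z y x ∈ w.Γ) (hx : Eqv C w x' x) (hy : Eqv C w y' y) (h : (eq x' y').WF w.A) :
    Intc C w (eq x' y') (Cell.cap z) := by
  obtain ⟨q1, q2, q3, q4, q5, q6⟩ := hw _ m
  refine Intc.fresh' hw h.1 h q1 ?_
  intro w₁ c hle₁ hw₁ p1 m1 n1
  have hcx := n1 _ q3
  have hcy' := n1 _ h.2.1
  have hcy := n1 _ q2
  have W1 : (eq c y').WF w₁.A := ⟨p1, hle₁.1 h.2.1, (n1 _ h.2.1).symm⟩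
  have W2 : (eq c y).WF w₁.A := ⟨p1, hle₁.1 q2, (n1 _ q2).symm⟩
  have W3 : (eq x y).WF w₁.A := ⟨hle₁.1 q3, hle₁.1 q2, q6.symm⟩
  have E1 : Eqv C w₁ c x := Eqv.trans p1 (hle₁.1 q3) (Eqv.of_mem m1).symm (hx.mono hle₁)
  exact ((Eqv.of_mem m1).eq1 (h.mono hle₁.1) W1).trans
    (((hy.mono hle₁).eq2 W1 W2).trans ((E1.eq1 W2 W3).trans (Intc.addCap (hle₁.2 _ m))))

/-- in presence of `cap z`, a name equal to `z` gives: `b = z` interchangeable with cap b. -/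
theorem Eqv.cap_eq' [Infinite N] {w : Ctx N} (hw : w.WF) {z z' b : N}
    (hz : Cell.cap z ∈ w.Γ) (h : Eqv C w z' z) (hb : (eq z' b).WF w.A) :
    Intc C w (eq z' b) (Cell.cap b) := by
  have hzA : z ∈ w.A := hw _ hz
  refine Intc.fresh' hw hb.2.1 hb hb.2.1 ?_
  intro w₁ c hle₁ hw₁ p1 m1 n1
  have W1 : (eq z' c).WF w₁.A := ⟨hle₁.1 hb.1, p1, n1 _ hb.1⟩
  have W2 : (eq z c).WF w₁.A := ⟨hle₁.1 hzA, p1, n1 _ hzA⟩
  exact ((Eqv.of_mem m1).eq2 (hb.mono hle₁.1) W1).trans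
    (((h.mono hle₁).eq1 W1 W2).trans
    ((Intc.capEq (hle₁.2 _ hz) p1 (n1 _ hzA).symm).symm.trans
      ((Eqv.of_mem m1).symm.capc p1 (hle₁.1 hb.2.1))))

end

end Pool.Agent.DF302A.PI.Calc
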