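import Mathlib

/-!
# Row operations over the integers

`RowEq`: the equivalence relation on families of elements of an additive group generated by the
operations `v_i ↦ v_i + v_j` (`i ≠ j`) and `v_i ↦ -v_i`.  A family of `n` vectors of `ℤ^n` with unit
determinant is equivalent to the standard basis.
-/

set_option autoImplicit false

namespace Pool.Agent.DF302A

open Function

variable {ι κ W W' : Type*}

/-- generated by `v_i ↦ v_i + v_j` and `v_i ↦ -v_i` -/
inductive RowEq [DecidableEq ι] [AddCommGroup W] : (ι → W) → (ι → W) → Prop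
  | refl (M : ι → W) : RowEq M M
  | symm {M N : ι → W} : RowEq M N → RowEq N M
  | trans {M N P : ι → W} : RowEq M N → RowEq N P → RowEq M P
  | add (M : ι → W) (i j : ι) (h : i ≠ j) : RowEq M (update M i (M i + M j))
  | neg (M : ι → W) (i : ι) : RowEq M (update M i (-M i))

namespace RowEq

variable [DecidableEq ι] [DecidableEq κ] [AddCommGroup W] [AddCommGroup W']

/-- an equivalence relation that is stable under the operations contains `RowEq` -/
theorem lift {R : (ι → W) → (ι → W) → Prop} (hR : Equivalence R)
    (h1 : ∀ M i j, i ≠ j → R M (update M i (M i + M j)))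
    (h2 : ∀ M i, R M (update M i (-M i))) {M N : ι → W} (h : RowEq M N) : R M N := by
  induction h with
  | refl M => exact hR.refl M
  | symm _ ih => exact hR.symm ih
  | trans _ _ ih1 ih2 => exact hR.trans ih1 ih2
  | add M i j h => exact h1 M i j h
  | neg M i => exact h2 M i

theorem sub (M : ι → W) (i j : ι) (h : i ≠ j) : RowEq M (update M i (M i - M j)) := by
  have h1 := RowEq.add (update M i (M i - M j)) i j h
  rw [update_self, update_of_ne h.symm, sub_add_cancel, update_idem, update_eq_self] at h1
  exact h1.symm

theorem add_nsmul (M : ι → W) (i j : ι) (h : i ≠ j) (c : ℕ) :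
    RowEq M (update M i (M i + c • M j)) := by
  induction c with
  | zero =>
    rw [zero_smul, add_zero, update_eq_self]
    exact RowEq.refl M
  | succ c ih =>
    have h1 := RowEq.add (update M i (M i + c • M j)) i j h
    rw [update_self, update_of_ne h.symm, update_idem, add_assoc, ← succ_nsmul] at h1
    exact ih.trans h1

theorem add_zsmul (M : ι → W) (i j : ι) (h : i ≠ j) (c : ℤ) :
    RowEq M (update M i (M i + c • M j)) := by
  rcases Int.eq_nat_or_neg c with ⟨k, rfl | rfl⟩
  · rw [natCast_zsmul]
    exact add_nsmul M i j h k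
  · have h1 := add_nsmul (update M i (M i + (-(k : ℤ)) • M j)) i j h k
    rw [update_self, update_of_ne h.symm, update_idem, neg_smul, natCast_zsmul,
      neg_add_cancel_right, update_eq_self] at h1
    rw [neg_smul, natCast_zsmul]
    exact h1.symm

/-- additive maps -/
theorem map (f : W →+ W') {M N : ι → W} (h : RowEq M N) :
    RowEq (fun i => f (M i)) (fun i => f (N i)) := by
  induction h with
  | refl M => exact RowEq.refl _
  | symm _ ih => exact ih.symm
  | trans _ _ ih1 ih2 => exact ih1.trans ih2
  | add M i j h =>
    have h1 := RowEq.add (fun i => f (M i)) i j h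
    have e : (fun k => f (update M i (M i + M j) k))
        = update (fun i => f (M i)) i (f (M i) + f (M j)) := by
      funext k
      rcases eq_or_ne k i with rfl | hk
      · simp
      · simp [update_of_ne hk]
    rw [e]
    exact h1
  | neg M i =>
    have h1 := RowEq.neg (fun i => f (M i)) i
    have e : (fun k => f (update M i (-M i) k)) = update (fun i => f (M i)) i (-f (M i)) := by
      funext k
      rcases eq_or_ne k i with rfl | hk
      · simp
      · simp [update_of_ne hk]
    rw [e]
    exact h1

/-- change of the index set -/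
theorem reindex (e : κ ≃ ι) {M N : ι → W} (h : RowEq M N) :
    RowEq (fun k => M (e k)) (fun k => N (e k)) := by
  induction h with
  | refl M => exact RowEq.refl _
  | symm _ ih => exact ih.symm
  | trans _ _ ih1 ih2 => exact ih1.trans ih2
  | add M i j h =>
    have h1 := RowEq.add (fun k => M (e k)) (e.symm i) (e.symm j)
      (fun h2 => h (e.symm.injective h2))
    have e1 : (fun k => update M i (M i + M j) (e k))
        = update (fun k => M (e k)) (e.symm i)
          (M (e (e.symm i)) + M (e (e.symm j))) := by
      funext k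
      rcases eq_or_ne k (e.symm i) with rfl | hk
      · simp
      · have hk' : e k ≠ i := fun h3 => hk (by rw [← h3]; simp)
        rw [update_of_ne hk, update_of_ne hk']
    rw [e1]
    exact h1
  | neg M i =>
    have h1 := RowEq.neg (fun k => M (e k)) (e.symm i)
    have e1 : (fun k => update M i (-M i) (e k))
        = update (fun k => M (e k)) (e.symm i) (-M (e (e.symm i))) := by
      funext k
      rcases eq_or_ne k (e.symm i) with rfl | hk
      · simp
      · have hk' : e k ≠ i := fun h3 => hk (by rw [← h3]; simp)
        rw [update_of_ne hk, update_of_ne hk']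
    rw [e1]
    exact h1

/-- operations on the rows `1, …, n` -/
theorem cons {n : ℕ} (a : W) {M N : Fin n → W} (h : RowEq M N) :
    RowEq (Fin.cons a M : Fin (n + 1) → W) (Fin.cons a N) := by
  induction h with
  | refl M => exact RowEq.refl _
  | symm _ ih => exact ih.symm
  | trans _ _ ih1 ih2 => exact ih1.trans ih2
  | add M i j h =>
    have h1 := RowEq.add (Fin.cons a M : Fin (n + 1) → W) i.succ j.succ
      (fun h2 => h (Fin.succ_injective _ h2))
    rw [Fin.cons_succ, Fin.cons_succ, ← Fin.cons_update] at h1
    exact h1
  | neg M i =>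
    have h1 := RowEq.neg (Fin.cons a M : Fin (n + 1) → W) i.succ
    rw [Fin.cons_succ, ← Fin.cons_update] at h1
    exact h1

theorem cons_add_zsmul {n : ℕ} (a : W) (L : Fin n → W) (j : Fin n) (c : ℤ) :
    RowEq (Fin.cons a L : Fin (n + 1) → W) (Fin.cons (a + c • L j) L) := by
  have h1 := add_zsmul (Fin.cons a L : Fin (n + 1) → W) 0 j.succ (Fin.succ_ne_zero j).symm c
  rw [Fin.cons_zero, Fin.cons_succ, Fin.update_cons_zero] at h1
  exact h1

theorem cons_add_sum {n : ℕ} (a : W) (L : Fin n → W) (c : Fin n → ℤ) (s : Finset (Fin n)) :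
    RowEq (Fin.cons a L : Fin (n + 1) → W) (Fin.cons (a + ∑ j ∈ s, c j • L j) L) := by
  classical
  induction s using Finset.induction_on with
  | empty =>
    rw [Finset.sum_empty, add_zero]
    exact RowEq.refl _
  | insert j s hj ih =>
    have h1 := cons_add_zsmul (a + ∑ j ∈ s, c j • L j) L j (c j)
    rw [Finset.sum_insert hj, add_comm (c j • L j), ← add_assoc]
    exact ih.trans h1

/-- Euclid's algorithm for one coordinate -/
theorem exists_zero [Fintype ι] (φ : W →+ ℤ) (k : ι) (M : ι → W) :
    ∃ N, RowEq M N ∧ ∀ i, i ≠ k → φ (N i) = 0 := by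
  induction hm : ∑ i, (φ (M i)).natAbs using Nat.strong_induction_on generalizing M with
  | _ m ih =>
  by_cases h : ∃ i j, i ≠ j ∧ φ (M j) ≠ 0 ∧ (φ (M j)).natAbs ≤ (φ (M i)).natAbs
  · obtain ⟨i, j, hij, hj, hle⟩ := h
    obtain ⟨x, hx, hx2⟩ : ∃ x, RowEq M (update M i x) ∧
        (φ x).natAbs < (φ (M i)).natAbs := by
      by_cases hs : 0 ≤ φ (M i) * φ (M j)
      · refine ⟨M i - M j, RowEq.sub M i j hij, ?_⟩
        rw [map_sub]
        rcases le_total 0 (φ (M i)) with h1 | h1 <;> rcases le_total 0 (φ (M j)) with h2 | h2
        · omega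
        · have : φ (M i) * φ (M j) = 0 := le_antisymm (mul_nonpos_of_nonneg_of_nonpos h1 h2) hs
          rcases mul_eq_zero.1 this with h3 | h3
          · rw [h3] at hle
            omega
          · exact absurd h3 hj
        · have : φ (M i) * φ (M j) = 0 := le_antisymm (mul_nonpos_of_nonpos_of_nonneg h1 h2) hs
          rcases mul_eq_zero.1 this with h3 | h3
          · rw [h3] at hle
            omega
          · exact absurd h3 hj
        · omega
      · refine ⟨M i + M j, RowEq.add M i j hij, ?_⟩
        rw [map_add]
        rcases le_total 0 (φ (M i)) with h1 | h1 <;> rcases le_total 0 (φ (M j)) with h2 | h2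
        · exact absurd (mul_nonneg h1 h2) hs
        · omega
        · omega
        · exact absurd (mul_nonneg_of_nonpos_of_nonpos h1 h2) hs
    have hlt : ∑ l, (φ (update M i x l)).natAbs < m := by
      rw [← hm]
      refine Finset.sum_lt_sum (fun l _ => ?_) ⟨i, Finset.mem_univ i, ?_⟩
      · rcases eq_or_ne l i with rfl | hl
        · rw [update_self]
          exact hx2.le
        · rw [update_of_ne hl]
      · rw [update_self]
        exact hx2
    obtain ⟨N, h1, h2⟩ := ih _ hlt (update M i x) rfl
    exact ⟨N, hx.trans h1, h2⟩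
  · push_neg at h
    by_cases h0 : ∃ j, j ≠ k ∧ φ (M j) ≠ 0
    · obtain ⟨j, hjk, hj⟩ := h0
      have hz : ∀ i, i ≠ j → φ (M i) = 0 := by
        intro i hi
        by_contra h4
        have h5 := h i j hi hj
        have h6 := h j i hi.symm h4
        omega
      have s1 := RowEq.add M k j hjk.symm
      have s2 := RowEq.sub (update M k (M k + M j)) j k hjk
      refine ⟨_, s1.trans s2, fun i hi => ?_⟩
      rcases eq_or_ne i j with rfl | hij
      · rw [update_self, update_of_ne hi, update_self, map_sub, map_add, hz k hi.symm]
        ring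
      · rw [update_of_ne hij, update_of_ne hi]
        exact hz i hij
    · push_neg at h0
      exact ⟨M, RowEq.refl M, h0⟩

end RowEq

section det

open Matrix

variable [Fintype ι] [DecidableEq ι]

theorem isUnit_det_iff {M N : ι → ι → ℤ} (h : RowEq M N) :
    IsUnit (Matrix.of M).det ↔ IsUnit (Matrix.of N).det := by
  induction h with
  | refl M => exact Iff.rfl
  | symm _ ih => exact ih.symm
  | trans _ _ ih1 ih2 => exact ih1.trans ih2
  | add M i j h =>
    have h1 := Matrix.det_updateRow_add_self (Matrix.of M) h
    have e : Matrix.of (update M i (M i + M j))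
        = (Matrix.of M).updateRow i ((Matrix.of M) i + (Matrix.of M) j) := rfl
    rw [e, h1]
  | neg M i =>
    have h1 := Matrix.det_updateRow_smul (Matrix.of M) i (-1) ((Matrix.of M) i)
    have e : Matrix.of (update M i (-M i))
        = (Matrix.of M).updateRow i ((-1 : ℤ) • (Matrix.of M) i) := by
      rw [neg_one_smul]
      rfl
    rw [e, h1, Matrix.updateRow_eq_self, neg_one_mul, IsUnit.neg_iff]

end det

/-- prepending a zero -/
def consZero (n : ℕ) : (Fin n → ℤ) →+ (Fin (n + 1) → ℤ) where
  toFun v := Fin.cons 0 v
  map_zero' := by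
    funext i
    refine Fin.cases ?_ (fun j => ?_) i <;> simp
  map_add' v w := by
    funext i
    refine Fin.cases ?_ (fun j => ?_) i <;> simp

/-- a square matrix over `ℤ` with unit determinant is row equivalent to the identity -/
theorem rowEq_one : ∀ {n : ℕ} (M : Fin n → Fin n → ℤ), IsUnit (Matrix.of M).det →
    RowEq M (fun i => Pi.single i 1)
  | 0, M, _ => by
    have e : M = fun i => Pi.single i 1 := by
      funext i
      exact i.elim0
    rw [e]
    exact RowEq.refl _
  | n + 1, M, hM => by
    obtain ⟨N, h1, h2⟩ := RowEq.exists_zero (Pi.evalAddMonoidHom (fun _ : Fin (n + 1) => ℤ) 0) 0 M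
    have hN := (isUnit_det_iff h1).1 hM
    have hN0 : ∀ i : Fin n, N i.succ 0 = 0 := fun i => h2 i.succ (Fin.succ_ne_zero i)
    have hdet : (Matrix.of N).det = N 0 0 *
        (Matrix.of (fun i j : Fin n => N i.succ j.succ)).det := by
      rw [Matrix.det_succ_column_zero, Fin.sum_univ_succ, Finset.sum_eq_zero]
      · simp only [Fin.val_zero, pow_zero, one_mul, add_zero, Matrix.of_apply]
        rfl
      · intro i _
        rw [Matrix.of_apply, hN0 i]
        ring
    rw [hdet] at hN
    have hu := isUnit_of_mul_isUnit_left hN
    have ih := rowEq_one (fun i j : Fin n => N i.succ j.succ) (isUnit_of_mul_isUnit_right hN)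
    -- make the corner equal to one
    obtain ⟨P, h3, h4, h5⟩ : ∃ P : Fin (n + 1) → Fin (n + 1) → ℤ, RowEq N P ∧ P 0 0 = 1 ∧
        ∀ i : Fin n, P i.succ = N i.succ := by
      rcases Int.isUnit_iff.1 hu with h6 | h6
      · exact ⟨N, RowEq.refl N, h6, fun _ => rfl⟩
      · refine ⟨_, RowEq.neg N 0, ?_, fun i => ?_⟩
        · rw [update_self, Pi.neg_apply, h6, neg_neg]
        · rw [update_of_ne (Fin.succ_ne_zero i)]
    have e1 : P = Fin.cons (P 0) (fun i => consZero n (fun j => N i.succ j.succ)) := by
      funext i
      refine Fin.cases ?_ (fun i => ?_) i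
      · rw [Fin.cons_zero]
      · rw [Fin.cons_succ, h5]
        funext j
        refine Fin.cases ?_ (fun j => ?_) j
        · exact hN0 i
        · rfl
    have s1 := RowEq.cons (P 0) (RowEq.map (consZero n) ih)
    have s2 := RowEq.cons_add_sum (P 0) (fun i : Fin n => consZero n (Pi.single i 1))
      (fun j => -P 0 j.succ) Finset.univ
    have e2 : (Fin.cons (P 0 + ∑ j : Fin n, (-P 0 j.succ) • consZero n (Pi.single j 1))
        (fun i : Fin n => consZero n (Pi.single i 1)) : Fin (n + 1) → Fin (n + 1) → ℤ)
        = fun i => Pi.single i 1 := by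
      funext i
      refine Fin.cases ?_ (fun i => ?_) i
      · rw [Fin.cons_zero]
        funext j
        refine Fin.cases ?_ (fun j => ?_) j
        · rw [Pi.add_apply, Finset.sum_apply, Finset.sum_eq_zero, h4, add_zero, Pi.single_eq_same]
          intro j _
          rw [Pi.smul_apply]
          exact smul_zero _
        · rw [Pi.add_apply, Finset.sum_apply, Finset.sum_eq_single j,
            Pi.single_eq_of_ne (Fin.succ_ne_zero j)]
          · rw [Pi.smul_apply]
            change P 0 j.succ + (-P 0 j.succ) • (Pi.single j (1 : ℤ) : Fin n → ℤ) j = 0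
            rw [Pi.single_eq_same, smul_eq_mul]
            ring
          · intro l _ hl
            rw [Pi.smul_apply]
            change (-P 0 l.succ) • (Pi.single l (1 : ℤ) : Fin n → ℤ) j = 0
            rw [Pi.single_eq_of_ne hl.symm, smul_zero]
          · intro h
            exact absurd (Finset.mem_univ j) h
      · rw [Fin.cons_succ]
        funext j
        refine Fin.cases ?_ (fun j => ?_) j
        · rw [Pi.single_eq_of_ne (Fin.succ_ne_zero i).symm]
          rfl
        · change (Pi.single i (1 : ℤ) : Fin n → ℤ) j = _
          rcases eq_or_ne j i with rfl | hj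
          · rw [Pi.single_eq_same, Pi.single_eq_same]
          · rw [Pi.single_eq_of_ne hj, Pi.single_eq_of_ne (fun h => hj (Fin.succ_injective _ h))]
    refine h1.trans (h3.trans ?_)
    rw [e1]
    refine s1.trans ?_
    rw [← e2]
    exact s2

/-- the same for an arbitrary finite index set -/
theorem rowEq_single [Fintype ι] [DecidableEq ι] (M : ι → ι → ℤ)
    (hM : IsUnit (Matrix.of M).det) : RowEq M (fun i => Pi.single i 1) := by
  classical
  let e := Fintype.equivFin ι
  have h1 : IsUnit (Matrix.of (fun i j => M (e.symm i) (e.symm j))).det := by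
    have h2 := Matrix.det_submatrix_equiv_self e.symm (Matrix.of M)
    have h3 : Matrix.of (fun i j => M (e.symm i) (e.symm j))
        = (Matrix.of M).submatrix e.symm e.symm := rfl
    rw [h3, h2]
    exact hM
  have h2 := rowEq_one _ h1
  let f : (Fin (Fintype.card ι) → ℤ) →+ (ι → ℤ) :=
    { toFun := fun v i => v (e i)
      map_zero' := rfl
      map_add' := fun _ _ => rfl }
  have h3 := RowEq.map f (RowEq.reindex e h2)
  have e1 : (fun k => f (fun j => M (e.symm (e k)) (e.symm j))) = M := by
    funext k j
    change M (e.symm (e k)) (e.symm (e j)) = M k j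
    rw [e.symm_apply_apply, e.symm_apply_apply]
  have e2 : (fun k => f (Pi.single (e k) 1)) = fun i : ι => (Pi.single i 1 : ι → ℤ) := by
    funext k j
    change (Pi.single (e k) (1 : ℤ) : Fin (Fintype.card ι) → ℤ) (e j) = _
    rcases eq_or_ne j k with rfl | hj
    · rw [Pi.single_eq_same, Pi.single_eq_same]
    · rw [Pi.single_eq_of_ne hj, Pi.single_eq_of_ne (fun h => hj (e.injective h))]
  rw [e1, e2] at h3
  exact h3

/-- the rows generate `ℤ^ι` -/
theorem rowEq_single_of_span [Fintype ι] [DecidableEq ι] (M : ι → ι → ℤ)
    (hM : Submodule.span ℤ (Set.range M) = ⊤) : RowEq M (fun i => Pi.single i 1) := by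
  refine rowEq_single M ?_
  have h1 : ∀ i : ι, ∃ c : ι → ℤ, ∑ j, c j • M j = Pi.single i 1 := by
    intro i
    have h2 : (Pi.single i 1 : ι → ℤ) ∈ Submodule.span ℤ (Set.range M) := by
      rw [hM]
      exact Submodule.mem_top
    exact (Submodule.mem_span_range_iff_exists_fun ℤ).1 h2
  choose c hc using h1
  have h3 : Matrix.of c * Matrix.of M = 1 := by
    ext i j
    rw [Matrix.mul_apply]
    have h4 := congrFun (hc i) j
    rw [Finset.sum_apply] at h4
    simp only [Pi.smul_apply, smul_eq_mul] at h4
    simp only [Matrix.of_apply]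
    rw [h4, Matrix.one_apply]
    rcases eq_or_ne j i with rfl | hj
    · rw [Pi.single_eq_same, if_pos rfl]
    · rw [Pi.single_eq_of_ne hj, if_neg hj.symm]
  have h4 := congrArg Matrix.det h3
  rw [Matrix.det_mul, Matrix.det_one] at h4
  exact IsUnit.of_mul_eq_one_right _ h4

end Pool.Agent.DF302A
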