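import Pool.Agent.Work.MP_df302a_co.I5
import Pool.Agent.Work.MP_df302a_co.I6A
import Pool.Agent.Work.MP_df302a_co.RowEq

/-! # MP_df302a_co, part (I), module I6B: the group of terms, states in the abstract calculus. -/

set_option autoImplicit false

namespace Pool.Agent.DF302A.PI.Calc

open Cell

/-! ### the group of terms -/

/-- the defining cells of a term -/
def defs : Tm → Multiset (Cell Nm)
  | .base _ => 0
  | .fr _ => 0
  | .zero => {cap (.zero, 0)}
  | .add a b => {eq (a, 0) (.add a b, 1), eq (b, 0) (.add a b, 2),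
      add (.add a b, 1) (.add a b, 2) (.add a b, 0)}
  | .sub a b => {eq (a, 0) (.sub a b, 1), eq (b, 0) (.sub a b, 2),
      add (.sub a b, 0) (.sub a b, 2) (.sub a b, 1)}

instance : Infinite Tm := Infinite.of_injective Tm.fr (fun _ _ h => Tm.fr.inj h)

instance : Infinite Nm := by
  have : Nonempty Tm := ⟨Tm.zero⟩
  infer_instance

theorem mem_names (s : Tm) : ((s, 0) : Nm) ∈ s.names := by
  cases s <;> simp [Tm.names]

theorem mem_names_add (s t : Tm) (k : Fin 3) : ((Tm.add s t, k) : Nm) ∈ (Tm.add s t).names := by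
  fin_cases k <;> simp [Tm.names]

theorem mem_names_sub (s t : Tm) (k : Fin 3) : ((Tm.sub s t, k) : Nm) ∈ (Tm.sub s t).names := by
  fin_cases k <;> simp [Tm.names]

/-- terms without free names -/
def pur : Tm → Prop
  | .base _ => True
  | .fr _ => False
  | .zero => True
  | .add a b => pur a ∧ pur b
  | .sub a b => pur a ∧ pur b

/-- `w` contains the names of the terms in `F` with their defining cells. -/
def Mod (F : Finset Tm) (w : Ctx Nm) : Prop :=
  w.WF ∧ (∀ s ∈ F, s.names ⊆ w.A) ∧ ∀ s ∈ F, ∀ y ∈ defs s, y ∈ w.Γ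

theorem Mod.mono {F G : Finset Tm} {w : Ctx Nm} (h : Mod G w) (hFG : F ⊆ G) : Mod F w :=
  ⟨h.1, fun x hx => h.2.1 x (hFG hx), fun x hx => h.2.2 x (hFG hx)⟩

theorem Mod.has {F : Finset Tm} {w : Ctx Nm} (h : Mod F w) {s : Tm} (hs : s ∈ F) :
    ((s, 0) : Nm) ∈ w.A := h.2.1 s hs (mem_names s)

variable (C : Calculus Nm)

/-- equality of terms. -/
def TEq (s t : Tm) : Prop :=
  ∃ F : Finset Tm, (∀ s ∈ F, pur s) ∧ ∀ w, Mod F w → Eqv C w (s, 0) (t, 0)

theorem TEq.refl (s : Tm) : TEq C s s := ⟨∅, by simp, fun _ _ => Eqv.refl _ _⟩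

variable {C}

theorem TEq.symm {s t : Tm} (h : TEq C s t) : TEq C t s := by
  obtain ⟨F, pF, hF⟩ := h
  exact ⟨F, pF, fun w hw => (hF w hw).symm⟩

theorem pur_union {F G : Finset Tm} (hF : ∀ s ∈ F, pur s) (hG : ∀ s ∈ G, pur s) :
    ∀ s ∈ F ∪ G, pur s := by
  intro s hs
  rcases Finset.mem_union.1 hs with h | h
  · exact hF s h
  · exact hG s h

theorem TEq.trans {s t u : Tm} (ps : pur s) (pu : pur u) (h : TEq C s t) (h' : TEq C t u) :
    TEq C s u := by
  obtain ⟨F, pF, hF⟩ := h
  obtain ⟨G, pG, hG⟩ := h'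
  refine ⟨F ∪ G ∪ {s, u}, pur_union (pur_union pF pG) (by simp [ps, pu]), fun w hw => ?_⟩
  refine Eqv.trans (hw.has (by simp)) (hw.has (by simp)) (hF w (hw.mono ?_))
    (hG w (hw.mono ?_))
  · intro x hx; simp [hx]
  · intro x hx; simp [hx]

theorem add_cell {w : Ctx Nm} {s t : Tm} (hw : Mod {Tm.add s t} w) :
    add (Tm.add s t, 1) (Tm.add s t, 2) (Tm.add s t, 0) ∈ w.Γ :=
  hw.2.2 (Tm.add s t) (by simp) _ (by simp [defs])

theorem sub_cell {w : Ctx Nm} {s t : Tm} (hw : Mod {Tm.sub s t} w) :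
    add (Tm.sub s t, 0) (Tm.sub s t, 2) (Tm.sub s t, 1) ∈ w.Γ :=
  hw.2.2 (Tm.sub s t) (by simp) _ (by simp [defs])

theorem zero_cell {w : Ctx Nm} (hw : Mod {Tm.zero} w) : cap (Tm.zero, 0) ∈ w.Γ :=
  hw.2.2 Tm.zero (by simp) _ (by simp [defs])

theorem add_arg1 {w : Ctx Nm} {s t : Tm} (hw : Mod {Tm.add s t} w) :
    Eqv C w (s, 0) (Tm.add s t, 1) :=
  Eqv.of_mem (hw.2.2 (Tm.add s t) (by simp) _ (by simp [defs]))

theorem add_arg2 {w : Ctx Nm} {s t : Tm} (hw : Mod {Tm.add s t} w) :
    Eqv C w (t, 0) (Tm.add s t, 2) :=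
  Eqv.of_mem (hw.2.2 (Tm.add s t) (by simp) _ (by simp [defs]))

theorem sub_arg1 {w : Ctx Nm} {s t : Tm} (hw : Mod {Tm.sub s t} w) :
    Eqv C w (s, 0) (Tm.sub s t, 1) :=
  Eqv.of_mem (hw.2.2 (Tm.sub s t) (by simp) _ (by simp [defs]))

theorem sub_arg2 {w : Ctx Nm} {s t : Tm} (hw : Mod {Tm.sub s t} w) :
    Eqv C w (t, 0) (Tm.sub s t, 2) :=
  Eqv.of_mem (hw.2.2 (Tm.sub s t) (by simp) _ (by simp [defs]))

theorem Mod.hasA {F : Finset Tm} {w : Ctx Nm} (h : Mod F w) {s t : Tm} (hs : Tm.add s t ∈ F)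
    (k : Fin 3) : ((Tm.add s t, k) : Nm) ∈ w.A := h.2.1 _ hs (mem_names_add s t k)

theorem Mod.hasS {F : Finset Tm} {w : Ctx Nm} (h : Mod F w) {s t : Tm} (hs : Tm.sub s t ∈ F)
    (k : Fin 3) : ((Tm.sub s t, k) : Nm) ∈ w.A := h.2.1 _ hs (mem_names_sub s t k)

theorem TEq.add_congr {s t s' t' : Tm} (ps : pur s) (pt : pur t) (ps' : pur s') (pt' : pur t')
    (h : TEq C s s') (h' : TEq C t t') :
    TEq C (Tm.add s t) (Tm.add s' t') := by
  obtain ⟨F, pF, hF⟩ := h
  obtain ⟨G, pG, hG⟩ := h'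
  refine ⟨F ∪ G ∪ {s, t, s', t', Tm.add s t, Tm.add s' t'}, pur_union (pur_union pF pG)
    (by simp [pur, ps, pt, ps', pt']), fun w hw => ?_⟩
  have w1 : Mod {Tm.add s t} w := hw.mono (by simp)
  have w2 : Mod {Tm.add s' t'} w := hw.mono (by simp)
  have wF : Mod F w := hw.mono (by intro x hx; simp [hx])
  have wG : Mod G w := hw.mono (by intro x hx; simp [hx])
  have a1 := w1.hasA (s := s) (t := t) (by simp) 1
  have a2 := w1.hasA (s := s) (t := t) (by simp) 2
  have b1 := w2.hasA (s := s') (t := t') (by simp) 1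
  have b2 := w2.hasA (s := s') (t := t') (by simp) 2
  refine Eqv.sum_congr hw.1 ?_ ?_ (add_cell w1) (add_cell w2)
  · exact Eqv.trans a1 b1 (add_arg1 w1).symm
      (Eqv.trans (hw.has (by simp)) b1 (hF w wF) (add_arg1 w2))
  · exact Eqv.trans a2 b2 (add_arg2 w1).symm
      (Eqv.trans (hw.has (by simp)) b2 (hG w wG) (add_arg2 w2))

theorem TEq.add_comm {s t : Tm} (ps : pur s) (pt : pur t) :
    TEq C (Tm.add s t) (Tm.add t s) := by
  refine ⟨{s, t, Tm.add s t, Tm.add t s}, by simp [pur, ps, pt], fun w hw => ?_⟩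
  have w1 : Mod {Tm.add s t} w := hw.mono (by simp)
  have w2 : Mod {Tm.add t s} w := hw.mono (by simp)
  have a1 := w1.hasA (s := s) (t := t) (by simp) 1
  have a2 := w1.hasA (s := s) (t := t) (by simp) 2
  have b1 := w2.hasA (s := t) (t := s) (by simp) 1
  have b2 := w2.hasA (s := t) (t := s) (by simp) 2
  exact Eqv.sum_comm hw.1 (Eqv.trans a1 b2 (add_arg1 w1).symm (add_arg2 w2))
    (Eqv.trans a2 b1 (add_arg2 w1).symm (add_arg1 w2)) (add_cell w1) (add_cell w2)

theorem TEq.add_assoc {s t u : Tm} (ps : pur s) (pt : pur t) (pu : pur u) :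
    TEq C (Tm.add (Tm.add s t) u) (Tm.add s (Tm.add t u)) := by
  refine ⟨{s, t, u, Tm.add s t, Tm.add t u, Tm.add (Tm.add s t) u,
    Tm.add s (Tm.add t u)}, by simp [pur, ps, pt, pu], fun w hw => ?_⟩
  have w1 : Mod {Tm.add s t} w := hw.mono (by simp)
  have w2 : Mod {Tm.add (Tm.add s t) u} w := hw.mono (by simp)
  have w3 : Mod {Tm.add t u} w := hw.mono (by simp)
  have w4 : Mod {Tm.add s (Tm.add t u)} w := hw.mono (by simp)
  have a1 := w1.hasA (s := s) (t := t) (by simp) 1
  have a2 := w1.hasA (s := s) (t := t) (by simp) 2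
  have b2 := w2.hasA (s := Tm.add s t) (t := u) (by simp) 2
  have c1 := w3.hasA (s := t) (t := u) (by simp) 1
  have c2 := w3.hasA (s := t) (t := u) (by simp) 2
  have d1 := w4.hasA (s := s) (t := Tm.add t u) (by simp) 1
  exact Eqv.sum_assoc hw.1
    (Eqv.trans a1 d1 (add_arg1 w1).symm (add_arg1 w4))
    (Eqv.trans a2 c1 (add_arg2 w1).symm (add_arg1 w3))
    (Eqv.trans b2 c2 (add_arg2 w2).symm (add_arg2 w3))
    (add_arg1 w2) (add_arg2 w4) (add_cell w1) (add_cell w2) (add_cell w3) (add_cell w4)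

theorem TEq.add_zero {s : Tm} (ps : pur s) : TEq C (Tm.add s Tm.zero) s := by
  refine ⟨{s, Tm.zero, Tm.add s Tm.zero}, by simp [pur, ps], fun w hw => ?_⟩
  have w1 : Mod {Tm.add s Tm.zero} w := hw.mono (by simp)
  have w2 : Mod {Tm.zero} w := hw.mono (by simp)
  exact Eqv.trans (w1.hasA (by simp) 0) (hw.has (by simp))
    (Eqv.sum_cap hw.1 (zero_cell w2) (add_arg2 w1).symm (add_cell w1)) (add_arg1 w1).symm

theorem TEq.sub_add {s t : Tm} (ps : pur s) (pt : pur t) :
    TEq C (Tm.add (Tm.sub s t) t) s := by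
  refine ⟨{s, t, Tm.sub s t, Tm.add (Tm.sub s t) t}, by simp [pur, ps, pt], fun w hw => ?_⟩
  have w1 : Mod {Tm.sub s t} w := hw.mono (by simp)
  have w2 : Mod {Tm.add (Tm.sub s t) t} w := hw.mono (by simp)
  have a2 := w1.hasS (s := s) (t := t) (by simp) 2
  have b2 := w2.hasA (s := Tm.sub s t) (t := t) (by simp) 2
  exact Eqv.trans (w2.hasA (by simp) 0) (hw.has (by simp))
    (Eqv.sum_congr hw.1 (add_arg1 w2).symm
      (Eqv.trans b2 a2 (add_arg2 w2).symm (sub_arg2 w1)) (add_cell w2) (sub_cell w1))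
    (sub_arg1 w1).symm

/-- pure terms -/
abbrev Pt := {s : Tm // pur s}

variable (C) in
/-- the setoid. -/
def tsetoid : Setoid Pt :=
  ⟨fun s t => TEq C s.1 t.1, fun s => TEq.refl C s.1, fun h => TEq.symm h,
    fun {s _ u} h h' => TEq.trans s.2 u.2 h h'⟩

variable (C) in
/-- the group of terms. -/
def H : Type := Quotient (tsetoid C)

variable (C) in
def H.mk (s : Pt) : H C := Quotient.mk (tsetoid C) s

def Pt.add (s t : Pt) : Pt := ⟨Tm.add s.1 t.1, s.2, t.2⟩
def Pt.sub (s t : Pt) : Pt := ⟨Tm.sub s.1 t.1, s.2, t.2⟩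
def Pt.zero : Pt := ⟨Tm.zero, trivial⟩

theorem H.mk_eq {s t : Pt} : H.mk C s = H.mk C t ↔ TEq C s.1 t.1 :=
  ⟨fun h => Quotient.exact h, fun h => Quotient.sound h⟩

instance : Add (H C) := ⟨Quotient.map₂ Pt.add
  (fun s s' h t t' h' => TEq.add_congr s.2 t.2 s'.2 t'.2 h h')⟩

instance : Zero (H C) := ⟨H.mk C Pt.zero⟩

theorem H.mk_add (s t : Pt) : H.mk C (Pt.add s t) = H.mk C s + H.mk C t := rfl

theorem H.mk_zero : H.mk C Pt.zero = 0 := rfl

theorem H.add_comm' (a b : H C) : a + b = b + a := by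
  induction a using Quotient.inductionOn
  induction b using Quotient.inductionOn
  rename_i a b
  exact Quotient.sound (TEq.add_comm a.2 b.2)

theorem H.add_zero' (a : H C) : a + 0 = a := by
  induction a using Quotient.inductionOn
  rename_i a
  exact Quotient.sound (TEq.add_zero a.2)

instance : AddCommMonoid (H C) where
  add_assoc := by
    intro a b c
    induction a using Quotient.inductionOn
    induction b using Quotient.inductionOn
    induction c using Quotient.inductionOn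
    rename_i a b c
    exact Quotient.sound (TEq.add_assoc a.2 b.2 c.2)
  add_comm := H.add_comm'
  zero_add := fun a => by rw [H.add_comm', H.add_zero']
  add_zero := H.add_zero'
  nsmul := nsmulRec

theorem H.mk_sub_add (s t : Pt) : H.mk C (Pt.sub s t) + H.mk C t = H.mk C s :=
  Quotient.sound (TEq.sub_add s.2 t.2)

theorem H.isAddUnit (h : H C) : ∃ h' : H C, h' + h = 0 := by
  obtain ⟨s, rfl⟩ : ∃ s, H.mk C s = h := Quotient.exists_rep h
  exact ⟨H.mk C (Pt.sub Pt.zero s), H.mk_sub_add _ _⟩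

noncomputable instance : Neg (H C) := ⟨fun h => Classical.choose (H.isAddUnit h)⟩

noncomputable instance : AddCommGroup (H C) where
  neg_add_cancel h := Classical.choose_spec (H.isAddUnit h)
  zsmul := zsmulRec
  add_comm := _root_.add_comm

theorem H.mk_sub (s t : Pt) : H.mk C (Pt.sub s t) = H.mk C s - H.mk C t :=
  eq_sub_of_add_eq (H.mk_sub_add s t)

/-- evaluation with finite support. -/
noncomputable def evalF : Tm → (Finset ℕ →₀ ℤ)
  | .base t => Finsupp.single t 1
  | .fr _ => 0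
  | .zero => 0
  | .add s t => evalF s + evalF t
  | .sub s t => evalF s - evalF t

theorem H.evalF (s : Tm) (ps : pur s) :
    Finsupp.liftAddHom (fun t => (zmultiplesHom (H C)) (H.mk C ⟨Tm.base t, trivial⟩))
      (evalF s) = H.mk C ⟨s, ps⟩ := by
  induction s with
  | base i => simp [Calc.evalF]
  | fr i => exact ps.elim
  | zero => rw [Calc.evalF, map_zero]; rfl
  | add s t hs ht => rw [Calc.evalF, map_add, hs ps.1, ht ps.2, ← H.mk_add]; rfl
  | sub s t hs ht => rw [Calc.evalF, map_sub, hs ps.1, ht ps.2, ← H.mk_sub]; rfl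

/-- equal values imply equal terms. -/
theorem TEq.of_eval {s t : Tm} (ps : pur s) (pt : pur t) (h : evalF s = evalF t) :
    TEq C s t := by
  have := H.mk_eq (C := C) (s := ⟨s, ps⟩) (t := ⟨t, pt⟩)
  rw [← this, ← H.evalF, ← H.evalF, h]

/-! ### closed sets of terms -/

/-- the arguments of a term -/
def args : Tm → Finset Tm
  | .add a b => {a, b}
  | .sub a b => {a, b}
  | _ => ∅

def tsize : Tm → ℕ
  | .add a b => tsize a + tsize b + 1
  | .sub a b => tsize a + tsize b + 1
  | _ => 0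

theorem tsize_lt {s t : Tm} (h : t ∈ args s) : tsize t < tsize s := by
  cases s with
  | add a b =>
    simp only [args, Finset.mem_insert, Finset.mem_singleton] at h
    rcases h with rfl | rfl <;> simp only [tsize] <;> omega
  | sub a b =>
    simp only [args, Finset.mem_insert, Finset.mem_singleton] at h
    rcases h with rfl | rfl <;> simp only [tsize] <;> omega
  | base t => simp [args] at h
  | fr n => simp [args] at h
  | zero => simp [args] at h

/-- closed under arguments -/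
def Cl (F : Finset Tm) : Prop := ∀ s ∈ F, args s ⊆ F

theorem Cl.union {F G : Finset Tm} (hF : Cl F) (hG : Cl G) : Cl (F ∪ G) := by
  intro x hx y hy
  rcases Finset.mem_union.1 hx with h | h
  · exact Finset.mem_union_left _ (hF x h hy)
  · exact Finset.mem_union_right _ (hG x h hy)

theorem exists_cl1 (s : Tm) (ps : pur s) : ∃ F, Cl F ∧ (∀ s ∈ F, pur s) ∧ s ∈ F := by
  induction s with
  | base t => exact ⟨{.base t}, by intro x hx; simp only [Finset.mem_singleton] at hx; subst hx; simp [args], by simpa using ps, by simp⟩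
  | fr n => exact ps.elim
  | zero => exact ⟨{.zero}, by intro x hx; simp only [Finset.mem_singleton] at hx; subst hx; simp [args], by simpa using ps, by simp⟩
  | add a b ha hb =>
    obtain ⟨F, h1, p1, h2⟩ := ha ps.1
    obtain ⟨G, h3, p3, h4⟩ := hb ps.2
    refine ⟨insert (.add a b) (F ∪ G), ?_, ?_, Finset.mem_insert_self _ _⟩
    · intro x hx y hy
      rcases Finset.mem_insert.1 hx with rfl | hx
      · simp only [args, Finset.mem_insert, Finset.mem_singleton] at hy
        rcases hy with rfl | rfl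
        · exact Finset.mem_insert_of_mem (Finset.mem_union_left _ h2)
        · exact Finset.mem_insert_of_mem (Finset.mem_union_right _ h4)
      · exact Finset.mem_insert_of_mem ((h1.union h3) x hx hy)
    · intro x hx
      rcases Finset.mem_insert.1 hx with rfl | hx
      · exact ps
      · exact pur_union p1 p3 x hx
  | sub a b ha hb =>
    obtain ⟨F, h1, p1, h2⟩ := ha ps.1
    obtain ⟨G, h3, p3, h4⟩ := hb ps.2
    refine ⟨insert (.sub a b) (F ∪ G), ?_, ?_, Finset.mem_insert_self _ _⟩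
    · intro x hx y hy
      rcases Finset.mem_insert.1 hx with rfl | hx
      · simp only [args, Finset.mem_insert, Finset.mem_singleton] at hy
        rcases hy with rfl | rfl
        · exact Finset.mem_insert_of_mem (Finset.mem_union_left _ h2)
        · exact Finset.mem_insert_of_mem (Finset.mem_union_right _ h4)
      · exact Finset.mem_insert_of_mem ((h1.union h3) x hx hy)
    · intro x hx
      rcases Finset.mem_insert.1 hx with rfl | hx
      · exact ps
      · exact pur_union p1 p3 x hx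

theorem exists_cl (S : Finset Tm) (pS : ∀ s ∈ S, pur s) :
    ∃ F, Cl F ∧ (∀ s ∈ F, pur s) ∧ S ⊆ F := by
  induction S using Finset.induction_on with
  | empty => exact ⟨∅, by simp [Cl], by simp, by simp⟩
  | insert y S hy ihS =>
    obtain ⟨F, h1, p1, h2⟩ := ihS (fun s hs => pS s (Finset.mem_insert_of_mem hs))
    obtain ⟨G, h3, p3, h4⟩ := exists_cl1 y (pS y (Finset.mem_insert_self _ _))
    refine ⟨F ∪ G, h1.union h3, pur_union p1 p3, ?_⟩
    intro z hz
    rcases Finset.mem_insert.1 hz with rfl | hz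
    · exact Finset.mem_union_right _ h4
    · exact Finset.mem_union_left _ (h2 hz)

/-! ### states -/

/-- defining cells relative to the leaves `base t`, `t ∈ T`. -/
def DT (T : Finset (Finset ℕ)) : Tm → Multiset (Cell Nm)
  | .base t => if t ∈ T then 0 else {cap (.base t, 0)}
  | s => defs s

theorem defs_sub_DT (T : Finset (Finset ℕ)) (s : Tm) (y : Cell Nm) (h : y ∈ defs s) :
    y ∈ DT T s := by
  cases s with
  | base t => simp [defs] at h
  | fr n => exact h
  | zero => exact h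
  | add a b => exact h
  | sub a b => exact h

/-- names of the state. -/
def NA (A0 : Finset Nm) (F : Finset Tm) : Finset Nm := A0 ∪ F.biUnion Tm.names

/-- the state. -/
def Sta (T : Finset (Finset ℕ)) (A0 : Finset Nm) (F : Finset Tm) (Γ : Multiset (Cell Nm)) :
    Ctx Nm :=
  ⟨NA A0 F, Γ + ∑ s ∈ F, DT T s⟩

theorem NA_mono {A0 : Finset Nm} {F F' : Finset Tm} (h : F ⊆ F') : NA A0 F ⊆ NA A0 F' :=
  Finset.union_subset_union_right (Finset.biUnion_subset_biUnion_of_subset_left _ h)

theorem mem_NA {A0 : Finset Nm} {F : Finset Tm} {s : Tm} (hs : s ∈ F) {z : Nm}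
    (hz : z ∈ s.names) : z ∈ NA A0 F :=
  Finset.mem_union_right _ (Finset.mem_biUnion.2 ⟨s, hs, hz⟩)

/-- the leaves. -/
def leaves (T : Finset (Finset ℕ)) : Finset Tm := T.image Tm.base

theorem names_fst {s : Tm} {x : Nm} (h : x ∈ s.names) : x.1 = s := by
  cases s <;> simp only [Tm.names, Finset.mem_insert, Finset.mem_singleton] at h <;>
    rcases h with rfl | rfl | rfl <;> rfl

theorem mem_biUnion_names {F : Finset Tm} {x : Nm} (h : x ∈ F.biUnion Tm.names) : x.1 ∈ F := by
  obtain ⟨s, hs, hx⟩ := Finset.mem_biUnion.1 h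
  rwa [names_fst hx]

variable {T : Finset (Finset ℕ)} {A0 : Finset Nm}

theorem DT_WF {F : Finset Tm} (hF : Cl F) (pF : ∀ s ∈ F, pur s) {x : Tm} (hx : x ∈ F)
    {y : Cell Nm} (hy : y ∈ DT T x) : y.WF (NA A0 F) := by
  have hm : ∀ s ∈ F, ∀ z ∈ s.names, z ∈ NA A0 F := fun s hs z hz => mem_NA hs hz
  have hc := hF x hx
  cases x with
  | base t =>
    simp only [DT] at hy
    split_ifs at hy
    · simp at hy
    · rw [Multiset.mem_singleton] at hy
      subst hy
      exact hm _ hx _ (mem_names _)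
  | fr n => exact (pF _ hx).elim
  | zero =>
    simp only [DT, defs, Multiset.mem_singleton] at hy
    subst hy
    exact hm _ hx _ (mem_names _)
  | add a b =>
    have ha : a ∈ F := hc (by simp [args])
    have hb : b ∈ F := hc (by simp [args])
    simp only [DT, defs, Multiset.insert_eq_cons, Multiset.mem_cons,
      Multiset.mem_singleton] at hy
    rcases hy with rfl | rfl | rfl
    · exact ⟨hm _ ha _ (mem_names _), hm _ hx _ (mem_names_add _ _ _), by simp⟩
    · exact ⟨hm _ hb _ (mem_names _), hm _ hx _ (mem_names_add _ _ _), by simp⟩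
    · exact ⟨hm _ hx _ (mem_names_add _ _ _), hm _ hx _ (mem_names_add _ _ _),
        hm _ hx _ (mem_names_add _ _ _), by simp, by simp, by simp⟩
  | sub a b =>
    have ha : a ∈ F := hc (by simp [args])
    have hb : b ∈ F := hc (by simp [args])
    simp only [DT, defs, Multiset.insert_eq_cons, Multiset.mem_cons,
      Multiset.mem_singleton] at hy
    rcases hy with rfl | rfl | rfl
    · exact ⟨hm _ ha _ (mem_names _), hm _ hx _ (mem_names_sub _ _ _), by simp⟩
    · exact ⟨hm _ hb _ (mem_names _), hm _ hx _ (mem_names_sub _ _ _), by simp⟩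
    · exact ⟨hm _ hx _ (mem_names_sub _ _ _), hm _ hx _ (mem_names_sub _ _ _),
        hm _ hx _ (mem_names_sub _ _ _), by simp, by simp, by simp⟩

theorem Sta_WF {F : Finset Tm} (hF : Cl F) (pF : ∀ s ∈ F, pur s) {Γ : Multiset (Cell Nm)}
    (h : ∀ x ∈ Γ, x.WF (NA A0 F)) : (Sta T A0 F Γ).WF := by
  intro y hy
  rcases Multiset.mem_add.1 hy with hy | hy
  · exact h y hy
  · obtain ⟨x, hx, hy⟩ := Multiset.mem_sum.1 hy
    exact DT_WF hF pF hx hy

theorem Sta_Mod {F G : Finset Tm} (hF : Cl F) (pF : ∀ s ∈ F, pur s) {Γ : Multiset (Cell Nm)}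
    (h : ∀ x ∈ Γ, x.WF (NA A0 F)) (hG : G ⊆ F) : Mod G (Sta T A0 F Γ) := by
  refine ⟨Sta_WF hF pF h, ?_, ?_⟩
  · intro x hx z hz
    exact mem_NA (hG hx) hz
  · intro x hx y hy
    exact Multiset.mem_add.2 (Or.inr (Multiset.mem_sum.2 ⟨x, hG hx, defs_sub_DT T x y hy⟩))

theorem Sta_step {C : Calculus Nm} (hA : ∀ x ∈ A0, ¬ pur x.1) {F : Finset Tm} {x : Tm}
    (hx : x ∉ F) (hF : Cl F) (pF : ∀ s ∈ F, pur s) (px : pur x) (hc : args x ⊆ F)
    (hT : leaves T ⊆ F)
    {Γ : Multiset (Cell Nm)} (h : ∀ x ∈ Γ, x.WF (NA A0 F)) :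
    C.R (Sta T A0 F Γ) (Sta T A0 (insert x F) Γ) := by
  have hW : (Sta T A0 F Γ).WF := Sta_WF hF pF h
  have hxA : ∀ k, ((x, k) : Nm) ∉ (Sta T A0 F Γ).A := by
    intro k hk
    rcases Finset.mem_union.1 hk with hk | hk
    · exact hA _ hk px
    · exact hx (mem_biUnion_names hk)
  have hm : ∀ s ∈ F, ((s, 0) : Nm) ∈ (Sta T A0 F Γ).A := fun s hs => mem_NA hs (mem_names s)
  have key1 : ∀ y, x.names = {(x, 0)} → DT T x = {y} →
      Sta T A0 (insert x F) Γ = (Sta T A0 F Γ).ext (x, 0) y := by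
    intro y hn hy
    simp only [Sta, NA, Ctx.ext, Finset.biUnion_insert, Finset.sum_insert hx, hy, hn,
      Ctx.mk.injEq]
    rw [Multiset.singleton_add, Multiset.add_cons]
    refine ⟨?_, rfl⟩
    ext z
    simp only [Finset.mem_union, Finset.mem_insert, Finset.mem_singleton]
    tauto
  have key3 : ∀ y1 y2 y3 : Cell Nm, x.names = {(x, 0), (x, 1), (x, 2)} → DT T x = {y1, y2, y3} →
      Sta T A0 (insert x F) Γ =
        (((Sta T A0 F Γ).ext (x, 1) y1).ext (x, 2) y2).ext (x, 0) y3 := by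
    intro y1 y2 y3 hn hy
    simp only [Sta, NA, Ctx.ext, Finset.biUnion_insert, Finset.sum_insert hx, hy, hn,
      Ctx.mk.injEq]
    constructor
    · ext z
      simp only [Finset.mem_union, Finset.mem_insert, Finset.mem_singleton]
      tauto
    · simp only [Multiset.insert_eq_cons, ← Multiset.singleton_add]
      abel
  cases x with
  | base t =>
    have ht : t ∉ T := fun ht => hx (hT (Finset.mem_image_of_mem _ ht))
    rw [key1 (cap (.base t, 0)) rfl (by simp [DT, ht])]
    exact C.new_cap hW (hxA 0)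
  | fr n => exact px.elim
  | zero =>
    rw [key1 (cap (.zero, 0)) rfl rfl]
    exact C.new_cap hW (hxA 0)
  | add a b =>
    have ha : a ∈ F := hc (by simp [args])
    have hb : b ∈ F := hc (by simp [args])
    rw [key3 _ _ _ rfl rfl]
    have e1 := C.new_eq (a := (a, 0)) (b := (Tm.add a b, 1)) hW (hm _ ha) (hxA 1)
    have W1 : ((Sta T A0 F Γ).ext (Tm.add a b, 1) (eq (a, 0) (Tm.add a b, 1))).WF :=
      hW.ext ⟨Finset.mem_insert_of_mem (hm _ ha), Finset.mem_insert_self _ _, by simp⟩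
    have e2 := C.new_eq (a := (b, 0)) (b := (Tm.add a b, 2)) W1
      (Finset.mem_insert_of_mem (hm _ hb)) (by
        intro hh
        rcases Finset.mem_insert.1 hh with hh | hh
        · simp at hh
        · exact hxA 2 hh)
    have W2 := W1.ext (c := (Tm.add a b, 2)) (x := eq (b, 0) (Tm.add a b, 2))
      ⟨Finset.mem_insert_of_mem (Finset.mem_insert_of_mem (hm _ hb)),
        Finset.mem_insert_self _ _, by simp⟩
    have e3 := C.new_add3 (a := (Tm.add a b, 1)) (b := (Tm.add a b, 2)) (c := (Tm.add a b, 0)) W2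
      (Finset.mem_insert_of_mem (Finset.mem_insert_self _ _)) (Finset.mem_insert_self _ _)
      (by simp) (by
        intro hh
        rcases Finset.mem_insert.1 hh with hh | hh
        · simp at hh
        · rcases Finset.mem_insert.1 hh with hh | hh
          · simp at hh
          · exact hxA 0 hh)
    exact C.trans e1 (C.trans e2 e3)
  | sub a b =>
    have ha : a ∈ F := hc (by simp [args])
    have hb : b ∈ F := hc (by simp [args])
    rw [key3 _ _ _ rfl rfl]
    have e1 := C.new_eq (a := (a, 0)) (b := (Tm.sub a b, 1)) hW (hm _ ha) (hxA 1)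
    have W1 : ((Sta T A0 F Γ).ext (Tm.sub a b, 1) (eq (a, 0) (Tm.sub a b, 1))).WF :=
      hW.ext ⟨Finset.mem_insert_of_mem (hm _ ha), Finset.mem_insert_self _ _, by simp⟩
    have e2 := C.new_eq (a := (b, 0)) (b := (Tm.sub a b, 2)) W1
      (Finset.mem_insert_of_mem (hm _ hb)) (by
        intro hh
        rcases Finset.mem_insert.1 hh with hh | hh
        · simp at hh
        · exact hxA 2 hh)
    have W2 := W1.ext (c := (Tm.sub a b, 2)) (x := eq (b, 0) (Tm.sub a b, 2))
      ⟨Finset.mem_insert_of_mem (Finset.mem_insert_of_mem (hm _ hb)),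
        Finset.mem_insert_self _ _, by simp⟩
    have e3 := C.new_add1 (a := (Tm.sub a b, 0)) (b := (Tm.sub a b, 2)) (c := (Tm.sub a b, 1)) W2
      (Finset.mem_insert_self _ _) (Finset.mem_insert_of_mem (Finset.mem_insert_self _ _))
      (by simp) (by
        intro hh
        rcases Finset.mem_insert.1 hh with hh | hh
        · simp at hh
        · rcases Finset.mem_insert.1 hh with hh | hh
          · simp at hh
          · exact hxA 0 hh)
    exact C.trans e1 (C.trans e2 e3)

/-- adding defined terms does not change the state. -/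
theorem Sta_expand {C : Calculus Nm} (hA : ∀ x ∈ A0, ¬ pur x.1) {F F' : Finset Tm}
    (hF : Cl F) (hF' : Cl F') (pF' : ∀ s ∈ F', pur s) (hFF : F ⊆ F') (hT : leaves T ⊆ F)
    {Γ : Multiset (Cell Nm)} (h : ∀ x ∈ Γ, x.WF (NA A0 F)) :
    C.R (Sta T A0 F Γ) (Sta T A0 F' Γ) := by
  induction' hk : (F' \ F).card with k ih generalizing F'
  · have : F' = F := by
      rw [Finset.card_eq_zero, Finset.sdiff_eq_empty_iff_subset] at hk
      exact Finset.Subset.antisymm hk hFF
    rw [this]; exact C.refl _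
  · have hne : (F' \ F).Nonempty := by rw [← Finset.card_pos]; omega
    obtain ⟨x, hx, hmax⟩ := Finset.exists_max_image (F' \ F) tsize hne
    have hx1 : x ∈ F' := (Finset.mem_sdiff.1 hx).1
    have hx2 : x ∉ F := (Finset.mem_sdiff.1 hx).2
    have hcl : Cl (F'.erase x) := by
      intro y hy z hz
      have hyF' := Finset.mem_of_mem_erase hy
      refine Finset.mem_erase.2 ⟨?_, hF' y hyF' hz⟩
      rintro rfl
      by_cases hyF : y ∈ F
      · exact hx2 (hF y hyF hz)
      · have := hmax y (Finset.mem_sdiff.2 ⟨hyF', hyF⟩)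
        have := tsize_lt hz
        omega
    have hsub : F ⊆ F'.erase x := fun y hy => Finset.mem_erase.2 ⟨fun e => hx2 (e ▸ hy), hFF hy⟩
    have hcard : (F'.erase x \ F).card = k := by
      have : F'.erase x \ F = (F' \ F).erase x := by
        ext y; simp only [Finset.mem_sdiff, Finset.mem_erase]; tauto
      rw [this, Finset.card_erase_of_mem hx, hk]; rfl
    have pe : ∀ s ∈ F'.erase x, pur s := fun s hs => pF' s (Finset.mem_of_mem_erase hs)
    have h1 := ih hcl pe hsub hcard
    have hchild : args x ⊆ F'.erase x := by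
      intro y hy
      refine Finset.mem_erase.2 ⟨?_, hF' x hx1 hy⟩
      rintro rfl
      exact absurd (tsize_lt hy) (lt_irrefl _)
    have h2 := Sta_step (C := C) (T := T) hA (F := F'.erase x) (x := x) (by simp) hcl pe
      (pF' x hx1) hchild (hT.trans hsub) (Γ := Γ) (fun y hy => (h y hy).mono (NA_mono hsub))
    rw [Finset.insert_erase hx1] at h2
    exact C.trans h1 h2

theorem Sta_cons {F : Finset Tm} {Γ : Multiset (Cell Nm)}
    (X : Cell Nm) : Sta T A0 F (X ::ₘ Γ) = (Sta T A0 F Γ).cons X := by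
  simp [Sta, Ctx.cons]

/-- interchange in states. -/
theorem Sta_intc {C : Calculus Nm} (hA : ∀ x ∈ A0, ¬ pur x.1) {F : Finset Tm} (hF : Cl F)
    (pF : ∀ s ∈ F, pur s) (hT : leaves T ⊆ F)
    {Γ : Multiset (Cell Nm)} (h : ∀ x ∈ Γ, x.WF (NA A0 F)) {X Y : Cell Nm}
    (hX : X.WF (NA A0 F)) (hY : Y.WF (NA A0 F)) (G : Finset Tm) (pG : ∀ s ∈ G, pur s)
    (hG : ∀ w : Ctx Nm, Mod (F ∪ G) w → (∀ x ∈ Γ, x ∈ w.Γ) → Intc C w X Y) :
    C.R (Sta T A0 F (X ::ₘ Γ)) (Sta T A0 F (Y ::ₘ Γ)) := by
  obtain ⟨F', hF', pF', hs⟩ := exists_cl (F ∪ G) (pur_union pF pG)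
  have hFF : F ⊆ F' := Finset.subset_union_left.trans hs
  have hmono : NA A0 F ⊆ NA A0 F' := NA_mono hFF
  have e1 := Sta_expand (C := C) (T := T) hA hF hF' pF' hFF hT (Γ := X ::ₘ Γ) (by
    intro y hy
    rcases Multiset.mem_cons.1 hy with rfl | hy
    · exact hX
    · exact h y hy)
  have e2 := Sta_expand (C := C) (T := T) hA hF hF' pF' hFF hT (Γ := Y ::ₘ Γ) (by
    intro y hy
    rcases Multiset.mem_cons.1 hy with rfl | hy
    · exact hY
    · exact h y hy)
  refine C.trans e1 (C.trans ?_ (C.symm e2))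
  rw [Sta_cons, Sta_cons]
  have hΓ : ∀ x ∈ Γ, x.WF (NA A0 F') := fun x hx => (h x hx).mono hmono
  exact hG (Sta T A0 F' Γ) (Sta_Mod hF' pF' hΓ hs)
    (fun x hx => Multiset.mem_add.2 (Or.inl hx)) _ (Ctx.le.refl' _) (Sta_WF hF' pF' hΓ)

section fam
variable {ι : Type} [Fintype ι]

/-- the caps of a family of terms. -/
def caps (s : ι → Tm) : Multiset (Cell Nm) := ∑ i, {cap (s i, 0)}

theorem mem_caps {s : ι → Tm} {x : Cell Nm} : x ∈ caps s ↔ ∃ i, x = cap (s i, 0) := by
  simp [caps, Multiset.mem_sum]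

/-- equivalence of families of terms. -/
def FR (C : Calculus Nm) (T : Finset (Finset ℕ)) (A0 : Finset Nm) (s s' : ι → Tm) : Prop :=
  ∀ F, Cl F → (∀ s ∈ F, pur s) → leaves T ⊆ F → (∀ i, s i ∈ F) → (∀ i, s' i ∈ F) →
    C.R (Sta T A0 F (caps s)) (Sta T A0 F (caps s'))

theorem caps_WF {s : ι → Tm} {F : Finset Tm}
    (h : ∀ i, s i ∈ F) : ∀ x ∈ caps s, x.WF (NA A0 F) := by
  intro x hx
  obtain ⟨i, rfl⟩ := mem_caps.1 hx
  exact mem_NA (h i) (mem_names _)

variable {C : Calculus Nm}

theorem FR.refl (s : ι → Tm) : FR C T A0 s s := fun _ _ _ _ _ _ => C.refl _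

theorem FR.symm {s s' : ι → Tm} (h : FR C T A0 s s') : FR C T A0 s' s :=
  fun F h1 h1' h2 h3 h4 => C.symm (h F h1 h1' h2 h4 h3)

theorem FR.trans (hA : ∀ x ∈ A0, ¬ pur x.1) {s s' s'' : ι → Tm} (ps' : ∀ i, pur (s' i))
    (h : FR C T A0 s s') (h' : FR C T A0 s' s'') :
    FR C T A0 s s'' := by
  intro F h1 pF h2 h3 h4
  obtain ⟨F', hF', pF', hs⟩ := exists_cl (F ∪ Finset.univ.image s')
    (pur_union pF (by intro s hs; obtain ⟨i, _, rfl⟩ := Finset.mem_image.1 hs; exact ps' i))
  have hFF : F ⊆ F' := Finset.subset_union_left.trans hs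
  have hm : ∀ i, s' i ∈ F' := fun i =>
    hs (Finset.mem_union_right _ (Finset.mem_image_of_mem _ (Finset.mem_univ i)))
  have e1 := Sta_expand (C := C) (T := T) hA h1 hF' pF' hFF h2 (caps_WF h3)
  have e2 := Sta_expand (C := C) (T := T) hA h1 hF' pF' hFF h2 (caps_WF h4)
  exact C.trans e1 (C.trans (h F' hF' pF' (h2.trans hFF) (fun i => hFF (h3 i)) hm)
    (C.trans (h' F' hF' pF' (h2.trans hFF) hm (fun i => hFF (h4 i))) (C.symm e2)))

variable [DecidableEq ι]

theorem caps_update (s : ι → Tm) (i : ι) (t : Tm) :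
    caps (Function.update s i t) =
      cap (t, 0) ::ₘ ∑ j ∈ Finset.univ.erase i, {cap (s j, 0)} := by
  rw [caps, ← Finset.add_sum_erase _ _ (Finset.mem_univ i), Function.update_self,
    Multiset.singleton_add]
  congr 1
  refine Finset.sum_congr rfl fun j hj => ?_
  rw [Function.update_of_ne (Finset.ne_of_mem_erase hj)]

/-- replace one term. -/
theorem FR.update (hA : ∀ x ∈ A0, ¬ pur x.1) (s : ι → Tm) (i : ι) (t : Tm)
    (G : Finset Tm) (pG : ∀ s ∈ G, pur s)
    (hG : ∀ w : Ctx Nm, Mod (G ∪ {s i, t}) w →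
      (∀ j, j ≠ i → cap (s j, 0) ∈ w.Γ) →
      Intc C w (cap (s i, 0)) (cap (t, 0))) :
    FR C T A0 s (Function.update s i t) := by
  intro F h1 pF h2 h3 h4
  have e : caps s = caps (Function.update s i (s i)) := by rw [Function.update_eq_self]
  rw [e, caps_update, caps_update]
  have ht : t ∈ F := by have := h4 i; rwa [Function.update_self] at this
  have hm : ∀ z ∈ F, ((z, 0) : Nm) ∈ NA A0 F := fun z hz => mem_NA hz (mem_names _)
  refine Sta_intc hA h1 pF h2 ?_ (hm _ (h3 i)) (hm _ ht) G pG ?_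
  · intro x hx
    obtain ⟨j, hj, hx⟩ := Multiset.mem_sum.1 hx
    rw [Multiset.mem_singleton] at hx
    subst hx
    exact hm _ (h3 j)
  · intro w hw hΓ
    refine hG w (hw.mono ?_) ?_
    · intro z hz
      simp only [Finset.mem_union, Finset.mem_insert, Finset.mem_singleton] at hz ⊢
      rcases hz with hz | rfl | rfl
      · exact Or.inr hz
      · exact Or.inl (h3 i)
      · exact Or.inl ht
    · intro j hj
      refine hΓ _ (Multiset.mem_sum.2 ⟨j, Finset.mem_erase.2 ⟨hj, Finset.mem_univ _⟩, ?_⟩)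
      exact Multiset.mem_singleton_self _

theorem FR.of_eval1 (hA : ∀ x ∈ A0, ¬ pur x.1) (s : ι → Tm) (i : ι) (t : Tm)
    (ps : pur (s i)) (pt : pur t) (h : evalF (s i) = evalF t) :
    FR C T A0 s (Function.update s i t) := by
  obtain ⟨G, pG, hG⟩ := TEq.of_eval (C := C) ps pt h
  refine FR.update hA s i t G pG ?_
  intro w hw _
  exact (hG w (hw.mono Finset.subset_union_left)).capc (hw.has (by simp)) (hw.has (by simp))

theorem FR.of_eval (hA : ∀ x ∈ A0, ¬ pur x.1) (s s' : ι → Tm) (ps : ∀ i, pur (s i))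
    (ps' : ∀ i, pur (s' i)) (h : ∀ i, evalF (s i) = evalF (s' i)) :
    FR C T A0 s s' := by
  have key : ∀ S : Finset ι, FR C T A0 s (S.piecewise s' s) := by
    intro S
    induction S using Finset.induction_on with
    | empty => simpa using FR.refl s
    | insert i S hi ih =>
      refine FR.trans hA ?_ ih ?_
      · intro j
        by_cases hj : j ∈ S
        · rw [Finset.piecewise_eq_of_mem _ _ _ hj]; exact ps' j
        · rw [Finset.piecewise_eq_of_notMem _ _ _ hj]; exact ps j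
      rw [Finset.piecewise_insert]
      refine FR.of_eval1 hA _ _ _ ?_ (ps' i) ?_
      · rw [Finset.piecewise_eq_of_notMem _ _ _ hi]; exact ps i
      · rw [Finset.piecewise_eq_of_notMem _ _ _ hi, h]
  simpa using key Finset.univ

theorem FR.add (hA : ∀ x ∈ A0, ¬ pur x.1) (s : ι → Tm) (i j : ι) (hij : i ≠ j)
    (pj : pur (s j)) :
    FR C T A0 s (Function.update s i (Tm.add (s i) (s j))) := by
  refine FR.update hA s i _ {s j} (by simpa using pj) ?_
  intro w hw hcap
  have hz := hcap j hij.symm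
  have w1 : Mod {Tm.add (s i) (s j)} w := hw.mono (by simp)
  have e2 := Eqv.sum_cap hw.1 hz (add_arg2 (C := C) w1).symm (add_cell w1)
  exact (Eqv.trans (hw.has (by simp)) (hw.has (by simp)) (add_arg1 w1) e2.symm).capc
    (hw.has (by simp)) (hw.has (by simp))

theorem FR.neg (hA : ∀ x ∈ A0, ¬ pur x.1) (s : ι → Tm) (i : ι) :
    FR C T A0 s (Function.update s i (Tm.sub Tm.zero (s i))) := by
  refine FR.update hA s i _ {Tm.zero} (by simp [pur]) ?_
  intro w hw hcap
  have w1 : Mod {Tm.sub Tm.zero (s i)} w := hw.mono (by simp)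
  have w2 : Mod {Tm.zero} w := hw.mono (by simp)
  have W : (eq ((Tm.zero, 0) : Nm) (Tm.sub Tm.zero (s i), 2)).WF w.A :=
    ⟨hw.has (by simp), w1.hasS (by simp) 2, by simp⟩
  have e2 := Eqv.diff_cap hw.1 (sub_cell w1) (sub_arg1 (C := C) w1) (Eqv.refl _ _) W
  have e3 := Eqv.cap_eq' (C := C) hw.1 (zero_cell w2) (Eqv.refl _ _) W
  exact ((sub_arg2 w1).capc (hw.has (by simp)) (w1.hasS (by simp) 2)).trans (e3.symm.trans e2)

/-- vectors as finitely supported functions. -/
noncomputable def vecF (e : ι → Finset ℕ) : (ι → ℤ) →+ (Finset ℕ →₀ ℤ) where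
  toFun v := ∑ i, Finsupp.single (e i) (v i)
  map_zero' := by simp
  map_add' := by intro v w; simp [Finset.sum_add_distrib]

/-- the values of pure terms. -/
def evals : AddSubgroup (Finset ℕ →₀ ℤ) where
  carrier := {f | ∃ s : Tm, pur s ∧ evalF s = f}
  zero_mem' := ⟨Tm.zero, trivial, rfl⟩
  add_mem' := by
    rintro _ _ ⟨s, ps, rfl⟩ ⟨t, pt, rfl⟩
    exact ⟨Tm.add s t, ⟨ps, pt⟩, rfl⟩
  neg_mem' := by
    rintro _ ⟨s, ps, rfl⟩
    exact ⟨Tm.sub Tm.zero s, ⟨trivial, ps⟩, by rw [evalF, evalF, zero_sub]⟩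

theorem exists_evalF (e : ι → Finset ℕ) (v : ι → ℤ) :
    ∃ s : Tm, pur s ∧ evalF s = vecF e v := by
  have : vecF e v ∈ evals := by
    refine AddSubgroup.sum_mem _ fun i _ => ?_
    have h1 : Finsupp.single (e i) (1 : ℤ) ∈ evals := ⟨Tm.base (e i), trivial, rfl⟩
    have h2 := AddSubgroup.zsmul_mem _ h1 (v i)
    rwa [Finsupp.smul_single, smul_eq_mul, mul_one] at h2
  exact this

noncomputable def tv (e : ι → Finset ℕ) (v : ι → ℤ) : Tm :=
  Classical.choose (exists_evalF e v)

theorem pur_tv (e : ι → Finset ℕ) (v : ι → ℤ) : pur (tv e v) :=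
  (Classical.choose_spec (exists_evalF e v)).1

theorem evalF_tv (e : ι → Finset ℕ) (v : ι → ℤ) : evalF (tv e v) = vecF e v :=
  (Classical.choose_spec (exists_evalF e v)).2

theorem FR.update_eval (hA : ∀ x ∈ A0, ¬ pur x.1) (e : ι → Finset ℕ)
    (v : ι → ι → ℤ) (i : ι) (t : Tm) (pt : pur t) (x : ι → ℤ) (h : evalF t = vecF e x)
    (h0 : FR C T A0 (fun i => tv e (v i)) (Function.update (fun i => tv e (v i)) i t)) :
    FR C T A0 (fun i => tv e (v i)) (fun j => tv e (Function.update v i x j)) := by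
  have pu : ∀ j, pur (Function.update (fun i => tv e (v i)) i t j) := by
    intro j
    by_cases hj : j = i
    · subst hj; simpa using pt
    · rw [Function.update_of_ne hj]; exact pur_tv _ _
  refine FR.trans hA pu h0 (FR.of_eval hA _ _ pu (fun j => pur_tv _ _) ?_)
  intro j
  by_cases hj : j = i
  · subst hj; simp [h, evalF_tv]
  · simp [Function.update_of_ne hj]

theorem FR.of_rowEq (hA : ∀ x ∈ A0, ¬ pur x.1) (e : ι → Finset ℕ)
    {v w : ι → ι → ℤ} (h : RowEq v w) :
    FR C T A0 (fun i => tv e (v i)) (fun i => tv e (w i)) := by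
  refine RowEq.lift (R := fun v w => FR C T A0 (fun i => tv e (v i)) (fun i => tv e (w i)))
    ⟨fun v => FR.refl _, fun h => h.symm, fun h h' => FR.trans hA (fun i => pur_tv _ _) h h'⟩
    ?_ ?_ h
  · intro v i j hij
    exact FR.update_eval hA e v i (Tm.add (tv e (v i)) (tv e (v j)))
      ⟨pur_tv _ _, pur_tv _ _⟩ _
      (by rw [evalF, evalF_tv, evalF_tv, map_add]) (FR.add hA _ i j hij (pur_tv _ _))
  · intro v i
    exact FR.update_eval hA e v i (Tm.sub Tm.zero (tv e (v i))) ⟨trivial, pur_tv _ _⟩ _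
      (by rw [evalF, evalF, evalF_tv, map_neg, zero_sub]) (FR.neg hA _ i)

/-- the caps of the leaves disappear. -/
theorem Sta_leaves (e : ι → Finset ℕ) (he : Function.Injective e) :
    C.R (Sta (Finset.univ.image e) ∅ (leaves (Finset.univ.image e))
      (caps (fun i => Tm.base (e i)))) ⟨∅, 0⟩ := by
  have h1 : ∀ S : Finset ι, C.R ⟨∅, 0⟩
      ⟨(leaves (S.image e)).biUnion Tm.names, ∑ i ∈ S, {cap (Tm.base (e i), 0)}⟩ := by
    intro S
    induction S using Finset.induction_on with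
    | empty => simpa [leaves] using C.refl _
    | insert i S hi ih =>
      refine C.trans ih ?_
      have hnot : ((Tm.base (e i), 0) : Nm) ∉ (leaves (S.image e)).biUnion Tm.names := by
        intro h
        have := mem_biUnion_names h
        simp only [leaves, Finset.mem_image, Tm.base.injEq] at this
        obtain ⟨_, ⟨j, hj, rfl⟩, h⟩ := this
        exact hi (he h ▸ hj)
      have hW : Ctx.WF (⟨(leaves (S.image e)).biUnion Tm.names,
          ∑ i ∈ S, {cap (Tm.base (e i), 0)}⟩ : Ctx Nm) := by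
        intro x hx
        have hx' : x ∈ ∑ i ∈ S, ({cap (Tm.base (e i), 0)} : Multiset (Cell Nm)) := hx
        obtain ⟨j, hj, hx'⟩ := Multiset.mem_sum.1 hx'
        rw [Multiset.mem_singleton] at hx'
        subst hx'
        exact Finset.mem_biUnion.2 ⟨Tm.base (e j), Finset.mem_image_of_mem _
          (Finset.mem_image_of_mem _ hj), mem_names _⟩
      have := C.new_cap hW hnot
      convert this using 1
      simp only [Ctx.ext, Ctx.mk.injEq]
      constructor
      · rw [leaves, Finset.image_insert, Finset.image_insert, Finset.biUnion_insert, ← leaves]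
        ext z
        simp [Tm.names]
      · rw [Finset.sum_insert hi, Multiset.singleton_add]
  have h2 := h1 Finset.univ
  refine C.symm ?_
  have hD : ∀ x ∈ leaves (Finset.univ.image e), DT (Finset.univ.image e) x = 0 := by
    intro x hx
    obtain ⟨t, ht, rfl⟩ := Finset.mem_image.1 hx
    simp only [DT, if_pos ht]
  convert h2 using 1
  simp only [Sta, NA, Ctx.mk.injEq, Finset.empty_union, true_and]
  rw [Finset.sum_eq_zero hD, add_zero, caps]

theorem leaves_cl (T : Finset (Finset ℕ)) : Cl (leaves T) := by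
  intro x hx
  obtain ⟨i, hi, rfl⟩ := Finset.mem_image.1 hx
  simp [args]

/-- unimodular families of terms give the trivial state. -/
theorem unimodular (e : ι → Finset ℕ) (he : Function.Injective e) (M : ι → ι → ℤ)
    (hM : Submodule.span ℤ (Set.range M) = ⊤) (s : ι → Tm) (ps : ∀ i, pur (s i))
    (hs : ∀ i, evalF (s i) = vecF e (M i))
    {F : Finset Tm} (hF : Cl F) (pF : ∀ s ∈ F, pur s)
    (hT : leaves (Finset.univ.image e) ⊆ F) (hsF : ∀ i, s i ∈ F) :
    C.R (Sta (Finset.univ.image e) ∅ F (caps s)) ⟨∅, 0⟩ := by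
  have hA : ∀ x ∈ (∅ : Finset Nm), ¬ pur x.1 := by simp
  have pb : ∀ i, pur (Tm.base (e i)) := fun _ => trivial
  have h1 : FR C (Finset.univ.image e) ∅ s (fun i => Tm.base (e i)) := by
    refine FR.trans hA (fun i => pur_tv _ _)
      (FR.of_eval hA _ (fun i => tv e (M i)) ps (fun i => pur_tv _ _) (fun i => ?_))
      (FR.trans hA (fun i => pur_tv _ _) (FR.of_rowEq hA e (rowEq_single_of_span M hM))
        (FR.of_eval hA _ _ (fun i => pur_tv _ _) pb (fun i => ?_)))
    · rw [hs, evalF_tv]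
    · rw [evalF_tv, evalF, vecF]
      simp only [AddMonoidHom.coe_mk, ZeroHom.coe_mk]
      rw [Finset.sum_eq_single i]
      · simp
      · intro j _ hj; simp [hj]
      · intro h; exact absurd (Finset.mem_univ _) h
  have hb : ∀ i : ι, Tm.base (e i) ∈ leaves (Finset.univ.image e) := fun i =>
    Finset.mem_image_of_mem _ (Finset.mem_image_of_mem _ (Finset.mem_univ i))
  have h2 := h1 F hF pF hT hsF (fun i => hT (hb i))
  have h3 := Sta_expand (C := C) (T := Finset.univ.image e) hA (leaves_cl _) hF pF hT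
    (Finset.Subset.refl _)
    (caps_WF (A0 := ∅) (s := fun i => Tm.base (e i)) (fun i => hb i))
  exact C.trans h2 (C.trans (C.symm h3) (Sta_leaves e he))

end fam

end Pool.Agent.DF302A.PI.Calc
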