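import Pool.Agent.Work.MP_df302a_co.I5
import Pool.Agent.Work.MP_df302a_co.I6A

/-! # MP_df302a_co, part (I), module I6C: the states form a model of the abstract calculus. -/

set_option autoImplicit false

namespace Pool.Agent.DF302A.PI

open Finset

/-! ## general states -/

theorem nt_inj : Function.Injective nt := by
  intro a b h
  have h1 : Vx.n a 0 ∈ nt b := by
    rw [← h]
    exact mem_nt.mpr ⟨0, rfl⟩
  obtain ⟨i, hi⟩ := mem_nt.mp h1
  exact (Vx.n.inj hi).1.symm

theorem Gs.le_refl (Q : Gs) : Q ≤ Q := ⟨subset_rfl, subset_rfl, subset_rfl⟩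

theorem Gs.le_trans {Q Q' Q'' : Gs} (h : Q ≤ Q') (h' : Q' ≤ Q'') : Q ≤ Q'' :=
  ⟨h.1.trans h'.1, h.2.1.trans h'.2.1, h.2.2.trans h'.2.2⟩

theorem Gs.le_cell (Q : Gs) (u : Vx) (S : Finset (Finset Vx)) : Q ≤ Q.cell u S :=
  ⟨subset_rfl, subset_rfl, subset_insert _ _⟩

theorem Gs.le_name (Q : Gs) (y : Nm) : Q ≤ Q.name y :=
  ⟨subset_union_left, subset_insert _ _, subset_rfl⟩

theorem Gs.has.mono {Q Q' : Gs} (h : Q ≤ Q') {a : Nm} (ha : Q.has a) : Q'.has a := h.2.1 ha

theorem Gs.fits.mono {Q Q' : Gs} (h : Q ≤ Q') {r : Rel} (hr : Q.fits r) : Q'.fits r :=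
  ⟨hr.1, fun a ha => h.2.1 (hr.2 a ha)⟩

theorem Gs.holds.mono {Q Q' : Gs} (h : Q ≤ Q') {r : Rel} (hr : Q.holds r) : Q'.holds r := by
  obtain ⟨v, hv⟩ := hr
  exact ⟨v, h.2.2 hv⟩

theorem Gs.has_name (Q : Gs) (y : Nm) : (Q.name y).has y := mem_insert_self _ _

theorem Gs.has_name_iff (Q : Gs) (y a : Nm) : (Q.name y).has a ↔ a = y ∨ Q.has a := by
  show nt a ∈ insert (nt y) Q.Mk ↔ _
  rw [mem_insert, nt_inj.eq_iff]
  rfl

theorem Gs.has_cell_iff (Q : Gs) (u : Vx) (S : Finset (Finset Vx)) (a : Nm) :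
    (Q.cell u S).has a ↔ Q.has a := Iff.rfl

theorem Gs.holds_cell (Q : Gs) (u : Vx) (r : Rel) : (Q.cell u r.S).holds r :=
  ⟨u, mem_insert_self _ _⟩

theorem Gs.cell_comm (Q : Gs) (u u' : Vx) (S S' : Finset (Finset Vx)) :
    (Q.cell u S).cell u' S' = (Q.cell u' S').cell u S := by
  simp only [Gs.cell, Gs.mk.injEq, true_and]
  exact Finset.insert_comm _ _ _

theorem Gs.cell_name (Q : Gs) (u : Vx) (S : Finset (Finset Vx)) (y : Nm) :
    (Q.cell u S).name y = (Q.name y).cell u S := rfl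

theorem Gs.free.cell {Q : Gs} {u u' : Vx} (h : Q.free u) (hne : u' ≠ u)
    (S : Finset (Finset Vx)) : (Q.cell u' S).free u := by
  refine ⟨h.1, fun c hc => ?_⟩
  rcases mem_insert.mp hc with rfl | hc
  · exact hne
  · exact h.2 c hc

theorem Gs.free.name {Q : Gs} {u : Vx} (h : Q.free u) (y : Nm) : (Q.name y).free u := h

theorem Gs.exists_new (Q : Gs) : ∃ n : ℕ, ¬ Q.has (Tm.fr n, 0) := by
  have hi : Set.InjOn (fun n : ℕ => nt (Tm.fr n, 0))
      ((fun n : ℕ => nt (Tm.fr n, 0)) ⁻¹' (Q.Mk : Set (Finset Vx))) := by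
    intro m _ n _ h
    have h1 := nt_inj h
    simpa using h1
  obtain ⟨n, hn⟩ := Infinite.exists_notMem_finset (Q.Mk.preimage _ hi)
  exact ⟨n, fun h => hn (mem_preimage.mpr h)⟩

theorem fits_eq {Q : Gs} {a b : Nm} (ha : Q.has a) (hb : Q.has b) (h : a ≠ b) :
    Q.fits (.eq a b) := by
  refine ⟨h, fun c hc => ?_⟩
  simp only [Rel.nms, mem_insert, mem_singleton] at hc
  rcases hc with rfl | rfl
  · exact ha
  · exact hb

theorem fits_cap {Q : Gs} {a : Nm} (ha : Q.has a) : Q.fits (.cap a) := by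
  refine ⟨trivial, fun c hc => ?_⟩
  simp only [Rel.nms, mem_singleton] at hc
  rw [hc]
  exact ha

theorem fits_add {Q : Gs} {a b c : Nm} (ha : Q.has a) (hb : Q.has b) (hc : Q.has c) (h1 : a ≠ b)
    (h2 : a ≠ c) (h3 : b ≠ c) : Q.fits (.add a b c) := by
  refine ⟨⟨h1, h2, h3⟩, fun d hd => ?_⟩
  simp only [Rel.nms, mem_insert, mem_singleton] at hd
  rcases hd with rfl | rfl | rfl
  · exact ha
  · exact hb
  · exact hc

/-- replacing the first of two cells -/
theorem sim_left {B : Gs} (hB : B.ok) {u u' : Vx} (hu : B.free u) (hu' : B.free u')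
    (hne : u ≠ u') {r r' s : Rel} (hs : B.fits s) (hrep : Rep (B.cell u' s.S) r r') :
    Sim ((B.cell u r.S).cell u' s.S).Z ((B.cell u r'.S).cell u' s.S).Z := by
  rw [B.cell_comm u u' r.S s.S, B.cell_comm u u' r'.S s.S]
  exact hrep _ (Gs.le_refl _) (hB.cell hu' hs) u (hu.cell hne.symm _)

/-- replacing the second of two cells -/
theorem sim_right {B : Gs} (hB : B.ok) {u u' : Vx} (hu : B.free u) (hu' : B.free u')
    (hne : u ≠ u') {r r' s : Rel} (hs : B.fits s) (hrep : Rep (B.cell u s.S) r r') :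
    Sim ((B.cell u s.S).cell u' r.S).Z ((B.cell u s.S).cell u' r'.S).Z :=
  hrep _ (Gs.le_refl _) (hB.cell hu hs) u' (hu'.cell hne _)

/-- changing the tag of a cell -/
theorem retag {Q : Gs} (h : Q.ok) {u u' : Vx} (hne : u ≠ u') (hu : Q.free u) (hu' : Q.free u')
    {r : Rel} (hr : Q.fits r) : Sim (Q.cell u r.S).Z (Q.cell u' r.S).Z := by
  obtain ⟨n, hn⟩ := Q.exists_new
  generalize hc : ((Tm.fr n, 0) : Nm) = c at hn
  have hB : (Q.name c).ok := h.name hn
  have huB : (Q.name c).free u := hu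
  have huB' : (Q.name c).free u' := hu'
  have hcB : (Q.name c).has c := Q.has_name c
  have hle : Q ≤ Q.name c := Q.le_name c
  have hnew : ∀ {a : Nm}, Q.has a → a ≠ c := fun {a} ha he => hn (he ▸ ha)
  -- introduction and removal of `c` together with a cell
  have hI : ∀ {v v' : Vx}, Q.free v → Q.free v' → v ≠ v' → ∀ {r0 s : Rel}, Q.fits r0 →
      (Q.name c).fits s →
      (s = .cap c ∨ (∃ p, s = .eq p c) ∨ (∃ p q, s = .add p q c) ∨ (∃ p q, s = .add c p q)) →
      Sim (Q.cell v r0.S).Z (((Q.name c).cell v r0.S).cell v' s.S).Z := by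
    intro v v' hv hv' hvv r0 s h0 hs hp
    exact sim_intro (h.cell hv h0) hn (hv'.cell hvv _) (hs.mono ((Q.name c).le_cell _ _)) hp
  cases r with
  | cap a =>
    have ha : Q.has a := hr.2 a (by simp [Rel.nms])
    have haB : (Q.name c).has a := ha.mono hle
    have hac := hnew ha
    refine (hI hu hu' hne hr (s := .cap c) (fits_cap hcB) (Or.inl rfl)).trans ?_
    -- u : cap a → eq c a
    refine (sim_left hB huB huB' hne (r := .cap a) (r' := .eq c a) (s := .cap c) (fits_cap hcB)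
      ?_).trans ?_
    · intro Q' hQ' hok v hv
      have h1 : Rep ((Q.name c).cell u' (Rel.cap c).S) (.eq c a) (.cap a) :=
        rep_capEq (Gs.holds_cell _ _ _) (fits_eq hcB haB hac.symm)
      exact (h1 Q' hQ' hok v hv).symm
    -- u' : cap c → cap a
    refine (sim_right hB huB huB' hne (r := .cap c) (r' := .cap a) (s := .eq c a)
      (fits_eq hcB haB hac.symm) ?_).trans ?_
    · exact rep_subCap (Gs.holds_cell _ _ _) (fits_eq hcB haB hac.symm)
    -- u : eq c a → eq a c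
    refine (sim_left hB huB huB' hne (r := .eq c a) (r' := .eq a c) (s := .cap a) (fits_cap haB)
      ?_).trans ?_
    · exact rep_eqSymm (fits_eq hcB haB hac.symm)
    have h1 := hI hu' hu hne.symm hr (s := .eq a c) (fits_eq haB hcB hac) (Or.inr (Or.inl ⟨a, rfl⟩))
    rw [Gs.cell_comm] at h1
    exact h1.symm
  | eq a b =>
    have ha : Q.has a := hr.2 a (by simp [Rel.nms])
    have hb : Q.has b := hr.2 b (by simp [Rel.nms])
    have hab : a ≠ b := hr.1
    have haB : (Q.name c).has a := ha.mono hle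
    have hbB : (Q.name c).has b := hb.mono hle
    have hac := hnew ha
    have hbc := hnew hb
    refine (hI hu hu' hne hr (s := .eq a c) (fits_eq haB hcB hac)
      (Or.inr (Or.inl ⟨a, rfl⟩))).trans ?_
    -- u : eq a b → eq c b
    refine (sim_left hB huB huB' hne (r := .eq a b) (r' := .eq c b) (s := .eq a c)
      (fits_eq haB hcB hac) ?_).trans ?_
    · exact rep_subEq (Gs.holds_cell _ _ _) (fits_add haB hcB hbB hac hab hbc.symm)
    -- u' : eq a c → eq c a
    refine (sim_right hB huB huB' hne (r := .eq a c) (r' := .eq c a) (s := .eq c b)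
      (fits_eq hcB hbB hbc.symm) ?_).trans ?_
    · exact rep_eqSymm (fits_eq haB hcB hac)
    -- u' : eq c a → eq b a
    refine (sim_right hB huB huB' hne (r := .eq c a) (r' := .eq b a) (s := .eq c b)
      (fits_eq hcB hbB hbc.symm) ?_).trans ?_
    · exact rep_subEq (Gs.holds_cell _ _ _) (fits_add hcB hbB haB hbc.symm hac.symm hab.symm)
    -- u' : eq b a → eq a b
    refine (sim_right hB huB huB' hne (r := .eq b a) (r' := .eq a b) (s := .eq c b)
      (fits_eq hcB hbB hbc.symm) ?_).trans ?_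
    · exact rep_eqSymm (fits_eq hbB haB hab.symm)
    -- u : eq c b → eq b c
    refine (sim_left hB huB huB' hne (r := .eq c b) (r' := .eq b c) (s := .eq a b)
      (fits_eq haB hbB hab) ?_).trans ?_
    · exact rep_eqSymm (fits_eq hcB hbB hbc.symm)
    have h1 := hI hu' hu hne.symm hr (s := .eq b c) (fits_eq hbB hcB hbc) (Or.inr (Or.inl ⟨b, rfl⟩))
    rw [Gs.cell_comm] at h1
    exact h1.symm
  | add a b x =>
    have ha : Q.has a := hr.2 a (by simp [Rel.nms])
    have hb : Q.has b := hr.2 b (by simp [Rel.nms])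
    have hx : Q.has x := hr.2 x (by simp [Rel.nms])
    obtain ⟨hab, hax, hbx⟩ := hr.1
    have haB : (Q.name c).has a := ha.mono hle
    have hbB : (Q.name c).has b := hb.mono hle
    have hxB : (Q.name c).has x := hx.mono hle
    have hac := hnew ha
    have hbc := hnew hb
    have hxc := hnew hx
    refine (hI hu hu' hne hr (s := .add a b c) (fits_add haB hbB hcB hab hac hbc)
      (Or.inr (Or.inr (Or.inl ⟨a, b, rfl⟩)))).trans ?_
    -- u : add a b x → eq c x
    refine (sim_left hB huB huB' hne (r := .add a b x) (r' := .eq c x) (s := .add a b c)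
      (fits_add haB hbB hcB hab hac hbc) ?_).trans ?_
    · exact rep_addUniq (Gs.holds_cell _ _ _) (fits_add haB hbB hcB hab hac hbc) hxB hax.symm
        hbx.symm hxc
    -- u' : add a b c → add a b x
    refine (sim_right hB huB huB' hne (r := .add a b c) (r' := .add a b x) (s := .eq c x)
      (fits_eq hcB hxB hxc.symm) ?_).trans ?_
    · exact rep_subAdd3 (Gs.holds_cell _ _ _) (fits_eq hcB hxB hxc.symm)
        (fits_add haB hbB hcB hab hac hbc) (fits_add haB hbB hxB hab hax hbx)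
    -- u : eq c x → eq x c
    refine (sim_left hB huB huB' hne (r := .eq c x) (r' := .eq x c) (s := .add a b x)
      (fits_add haB hbB hxB hab hax hbx) ?_).trans ?_
    · exact rep_eqSymm (fits_eq hcB hxB hxc.symm)
    have h1 := hI hu' hu hne.symm hr (s := .eq x c) (fits_eq hxB hcB hxc) (Or.inr (Or.inl ⟨x, rfl⟩))
    rw [Gs.cell_comm] at h1
    exact h1.symm

/-! ## states given by names and tagged relators -/

/-- admissible sets of tagged relators -/
structure Gd (N : Finset Nm) (P : Finset (Vx × Rel)) : Prop where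
  tag : ∀ c ∈ P, c.1.isTag
  nd : ∀ c ∈ P, c.2.nd
  nms : ∀ c ∈ P, ∀ a ∈ c.2.nms, a ∈ N
  inj : ∀ c ∈ P, ∀ c' ∈ P, c.1 = c'.1 → c = c'

theorem mk'_has {N : Finset Nm} {P : Finset (Vx × Rel)} {a : Nm} :
    (Gs.mk' N P).has a ↔ a ∈ N := by
  show nt a ∈ N.image nt ↔ _
  rw [mem_image]
  constructor
  · rintro ⟨b, hb, h⟩
    rwa [← nt_inj h]
  · intro h
    exact ⟨a, h, rfl⟩

theorem mk'_name (N : Finset Nm) (P : Finset (Vx × Rel)) (y : Nm) :
    (Gs.mk' N P).name y = Gs.mk' (insert y N) P := by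
  simp only [Gs.mk', Gs.name, image_insert, biUnion_insert, Gs.mk.injEq, and_true, true_and]
  ext x
  simp only [mem_union, mem_insert]
  tauto

theorem mk'_cell (N : Finset Nm) (P : Finset (Vx × Rel)) (u : Vx) (r : Rel) :
    (Gs.mk' N P).cell u r.S = Gs.mk' N (insert (u, r) P) := by
  simp only [Gs.mk', Gs.cell, image_insert]

theorem mk'_free {N : Finset Nm} {P : Finset (Vx × Rel)} {u : Vx} :
    (Gs.mk' N P).free u ↔ u.isTag ∧ ∀ c ∈ P, c.1 ≠ u := by
  simp only [Gs.mk', Gs.free, mem_image, forall_exists_index, and_imp, forall_apply_eq_imp_iff₂]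

theorem mk'_fits {N : Finset Nm} {P : Finset (Vx × Rel)} {r : Rel} :
    (Gs.mk' N P).fits r ↔ r.nd ∧ ∀ a ∈ r.nms, a ∈ N := by
  unfold Gs.fits
  simp only [mk'_has]

theorem mk'_holds {N : Finset Nm} {P : Finset (Vx × Rel)} {v : Vx} {r : Rel} (h : (v, r) ∈ P) :
    (Gs.mk' N P).holds r :=
  ⟨v, mem_image.mpr ⟨(v, r), h, rfl⟩⟩

theorem Gd.mono {N N' : Finset Nm} {P P' : Finset (Vx × Rel)} (h : Gd N P) (hN : N ⊆ N')
    (hP : P' ⊆ P) : Gd N' P' :=
  ⟨fun c hc => h.tag c (hP hc), fun c hc => h.nd c (hP hc),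
    fun c hc a ha => hN (h.nms c (hP hc) a ha), fun c hc c' hc' => h.inj c (hP hc) c' (hP hc')⟩

theorem Gd.insert {N : Finset Nm} {P : Finset (Vx × Rel)} (h : Gd N P) {u : Vx} {r : Rel}
    (hu : (Gs.mk' N P).free u) (hr : (Gs.mk' N P).fits r) : Gd N (insert (u, r) P) := by
  rw [mk'_free] at hu
  rw [mk'_fits] at hr
  refine ⟨?_, ?_, ?_, ?_⟩
  · intro c hc
    rcases mem_insert.mp hc with rfl | hc
    · exact hu.1
    · exact h.tag c hc
  · intro c hc
    rcases mem_insert.mp hc with rfl | hc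
    · exact hr.1
    · exact h.nd c hc
  · intro c hc
    rcases mem_insert.mp hc with rfl | hc
    · exact hr.2
    · exact h.nms c hc
  · intro c hc c' hc' he
    rcases mem_insert.mp hc with rfl | hc
    · rcases mem_insert.mp hc' with rfl | hc'
      · rfl
      · exact absurd he.symm (hu.2 c' hc')
    · rcases mem_insert.mp hc' with rfl | hc'
      · exact absurd he (hu.2 c hc)
      · exact h.inj c hc c' hc' he

theorem mk'_empty_ok : (Gs.mk' ∅ ∅).ok := by
  have hX : (Gs.mk' ∅ ∅).X = {Vx.z} := by simp [Gs.mk']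
  have hM : (Gs.mk' ∅ ∅).Mk = ∅ := by simp [Gs.mk']
  have hC : (Gs.mk' ∅ ∅).C = ∅ := by simp [Gs.mk']
  refine ⟨⟨?_, ?_, ?_, ?_, ?_⟩, ?_, ?_, ?_, ?_, ?_, ?_⟩
  · rw [hX]; simp
  · rw [hM]; simp
  · rw [hC]; simp
  · rw [hC]; simp
  · rw [hC]; simp
  · rw [hX]; simp
  · rw [hC]; simp
  · rw [hX]; simp [Vx.isTag]
  · rw [hM]; simp
  · rw [hM]; simp
  · rw [hX]; simp

theorem Gd.ok {N : Finset Nm} {P : Finset (Vx × Rel)} (h : Gd N P) : (Gs.mk' N P).ok := by
  induction P using Finset.induction_on with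
  | empty =>
    clear h
    induction N using Finset.induction_on with
    | empty => exact mk'_empty_ok
    | insert a N ha ih =>
      rw [← mk'_name]
      refine ih.name ?_
      rwa [mk'_has]
  | insert c P hc ih =>
    have h' : Gd N P := h.mono subset_rfl (subset_insert _ _)
    obtain ⟨u, r⟩ := c
    rw [← mk'_cell]
    refine (ih h').cell ?_ ?_
    · rw [mk'_free]
      refine ⟨h.tag _ (mem_insert_self _ _), fun c' hc' he => ?_⟩
      have := h.inj _ (mem_insert_of_mem hc') _ (mem_insert_self _ _) he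
      exact hc (this ▸ hc')
    · rw [mk'_fits]
      exact ⟨h.nd _ (mem_insert_self _ _), h.nms _ (mem_insert_self _ _)⟩

theorem exists_tag (P : Finset (Vx × Rel)) : ∃ k : ℕ, ∀ c ∈ P, c.1 ≠ Vx.u k := by
  have hi : Set.InjOn Vx.u (Vx.u ⁻¹' ((P.image Prod.fst : Finset Vx) : Set Vx)) := by
    intro m _ n _ h
    exact Vx.u.inj h
  obtain ⟨n, hn⟩ := Infinite.exists_notMem_finset ((P.image Prod.fst).preimage _ hi)
  refine ⟨n, fun c hc h => hn (mem_preimage.mpr ?_)⟩
  rw [← h]
  exact mem_image_of_mem _ hc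

/-! ## retagging of whole states -/

theorem sim_retag_all (N : Finset Nm) : ∀ (n : ℕ) (P P' E : Finset (Vx × Rel)), P.card = n →
    P.val.map Prod.snd = P'.val.map Prod.snd → Disjoint P E → Disjoint P' E → Gd N (P ∪ E) →
    Gd N (P' ∪ E) → Sim (Gs.mk' N (P ∪ E)).Z (Gs.mk' N (P' ∪ E)).Z := by
  intro n
  induction n with
  | zero =>
    intro P P' E hn hm _ _ _ _
    have h1 : P = ∅ := card_eq_zero.mp hn
    have h2 : P' = ∅ := by
      rw [h1] at hm
      have h3 := congrArg Multiset.card hm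
      simp only [empty_val, Multiset.map_zero, Multiset.card_zero, Multiset.card_map] at h3
      exact card_eq_zero.mp h3.symm
    rw [h1, h2]
    exact Sim.refl _
  | succ n ih =>
    intro P P' E hn hm hd hd' hg hg'
    obtain ⟨⟨u, r⟩, hu⟩ : P.Nonempty := card_pos.mp (by omega)
    have hr : r ∈ P'.val.map Prod.snd := by
      rw [← hm]
      exact Multiset.mem_map.mpr ⟨(u, r), hu, rfl⟩
    obtain ⟨⟨u', r'⟩, hu', he⟩ := Multiset.mem_map.mp hr
    simp only at he
    subst he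
    obtain ⟨k, hk⟩ := exists_tag (P ∪ P' ∪ E)
    have hkP : ∀ c ∈ P, c.1 ≠ Vx.u k := fun c hc =>
      hk c (mem_union_left _ (mem_union_left _ hc))
    have hkP' : ∀ c ∈ P', c.1 ≠ Vx.u k := fun c hc =>
      hk c (mem_union_left _ (mem_union_right _ hc))
    have hkE : ∀ c ∈ E, c.1 ≠ Vx.u k := fun c hc => hk c (mem_union_right _ hc)
    -- the retagging step
    have key : ∀ {R : Finset (Vx × Rel)} {v : Vx}, (v, r') ∈ R → Disjoint R E → Gd N (R ∪ E) →
        (∀ c ∈ R, c.1 ≠ Vx.u k) →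
        Sim (Gs.mk' N (R ∪ E)).Z (Gs.mk' N (R.erase (v, r') ∪ insert (Vx.u k, r') E)).Z ∧
        Gd N (R.erase (v, r') ∪ insert (Vx.u k, r') E) := by
      intro R v hv hRE hG hkR
      have h1 : R ∪ E = insert (v, r') (R.erase (v, r') ∪ E) := by
        rw [← insert_union, insert_erase hv]
      have h2 : R.erase (v, r') ∪ insert (Vx.u k, r') E
          = insert (Vx.u k, r') (R.erase (v, r') ∪ E) := by
        rw [union_insert]
      have h3 : Gd N (R.erase (v, r') ∪ E) := by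
        refine hG.mono subset_rfl ?_
        exact union_subset_union (erase_subset _ _) subset_rfl
      have hvn : (v, r') ∉ R.erase (v, r') ∪ E := by
        intro h
        rcases mem_union.mp h with h | h
        · exact notMem_erase _ _ h
        · exact disjoint_left.mp hRE hv h
      have hmem : (v, r') ∈ R ∪ E := mem_union_left _ hv
      have hfits : (Gs.mk' N (R.erase (v, r') ∪ E)).fits r' := by
        rw [mk'_fits]
        exact ⟨hG.nd _ hmem, hG.nms _ hmem⟩
      have hfv : (Gs.mk' N (R.erase (v, r') ∪ E)).free v := by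
        rw [mk'_free]
        refine ⟨hG.tag _ hmem, fun c hc he => ?_⟩
        have hcR : c ∈ R ∪ E := by
          rcases mem_union.mp hc with h | h
          · exact mem_union_left _ (erase_subset _ _ h)
          · exact mem_union_right _ h
        have := hG.inj c hcR _ hmem he
        rw [this] at hc
        exact hvn hc
      have hfk : (Gs.mk' N (R.erase (v, r') ∪ E)).free (Vx.u k) := by
        rw [mk'_free]
        refine ⟨trivial, fun c hc => ?_⟩
        rcases mem_union.mp hc with h | h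
        · exact hkR c (erase_subset _ _ h)
        · exact hkE c h
      have hne : v ≠ Vx.u k := hkR _ hv
      constructor
      · rw [h1, h2, ← mk'_cell, ← mk'_cell]
        exact retag h3.ok hne hfv hfk hfits
      · rw [h2]
        exact h3.insert hfk hfits
    obtain ⟨s1, g1⟩ := key hu hd hg hkP
    obtain ⟨s2, g2⟩ := key hu' hd' hg' hkP'
    refine s1.trans (Sim.trans (ih (P.erase (u, r')) (P'.erase (u', r')) _ ?_ ?_ ?_ ?_ g1 g2)
      s2.symm)
    · rw [card_erase_of_mem hu, hn]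
      rfl
    · rw [erase_val, erase_val]
      have e1 : Multiset.map Prod.snd P.val = r' ::ₘ (P.val.erase (u, r')).map Prod.snd := by
        conv_lhs => rw [← Multiset.cons_erase (show (u, r') ∈ P.val from hu)]
        rw [Multiset.map_cons]
      have e2 : Multiset.map Prod.snd P'.val = r' ::ₘ (P'.val.erase (u', r')).map Prod.snd := by
        conv_lhs => rw [← Multiset.cons_erase (show (u', r') ∈ P'.val from hu')]
        rw [Multiset.map_cons]
      rw [e1, e2] at hm
      exact (Multiset.cons_inj_right _).mp hm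
    · rw [disjoint_insert_right]
      exact ⟨fun h => hkP _ (erase_subset _ _ h) rfl, hd.mono_left (erase_subset _ _)⟩
    · rw [disjoint_insert_right]
      exact ⟨fun h => hkP' _ (erase_subset _ _ h) rfl, hd'.mono_left (erase_subset _ _)⟩

/-! ## realizations of contexts -/

/-- the relator of an abstract cell -/
def toRel : Calc.Cell Nm → Rel
  | .cap a => .cap a
  | .eq a b => .eq a b
  | .add a b c => .add a b c

/-- `P` is the set of cells of the context `w`, with tags -/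
structure Real (w : Calc.Ctx Nm) (P : Finset (Vx × Rel)) : Prop where
  val : P.val.map Prod.snd = w.Γ.map toRel
  tag : ∀ c ∈ P, c.1.isTag
  inj : ∀ c ∈ P, ∀ c' ∈ P, c.1 = c'.1 → c = c'

theorem toRel_wf {A : Finset Nm} {x : Calc.Cell Nm} (h : x.WF A) :
    (toRel x).nd ∧ ∀ a ∈ (toRel x).nms, a ∈ A := by
  cases x with
  | cap a =>
    refine ⟨trivial, fun b hb => ?_⟩
    simp only [toRel, Rel.nms, mem_singleton] at hb
    rw [hb]; exact h
  | eq a b =>
    refine ⟨h.2.2, fun c hc => ?_⟩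
    simp only [toRel, Rel.nms, mem_insert, mem_singleton] at hc
    rcases hc with rfl | rfl
    · exact h.1
    · exact h.2.1
  | add a b c =>
    refine ⟨⟨h.2.2.2.1, h.2.2.2.2.1, h.2.2.2.2.2⟩, fun d hd => ?_⟩
    simp only [toRel, Rel.nms, mem_insert, mem_singleton] at hd
    rcases hd with rfl | rfl | rfl
    · exact h.1
    · exact h.2.1
    · exact h.2.2.1

theorem Real.gd {w : Calc.Ctx Nm} (hw : w.WF) {P : Finset (Vx × Rel)} (h : Real w P) :
    Gd w.A P := by
  have key : ∀ c ∈ P, ∃ x ∈ w.Γ, toRel x = c.2 := by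
    intro c hc
    have h1 : c.2 ∈ P.val.map Prod.snd := Multiset.mem_map.mpr ⟨c, hc, rfl⟩
    rw [h.val] at h1
    exact Multiset.mem_map.mp h1
  refine ⟨h.tag, ?_, ?_, h.inj⟩
  · intro c hc
    obtain ⟨x, hx, he⟩ := key c hc
    rw [← he]
    exact (toRel_wf (hw x hx)).1
  · intro c hc
    obtain ⟨x, hx, he⟩ := key c hc
    rw [← he]
    exact (toRel_wf (hw x hx)).2

theorem Real.unique {w : Calc.Ctx Nm} (hw : w.WF) {P P' : Finset (Vx × Rel)} (h : Real w P)
    (h' : Real w P') : Sim (Gs.mk' w.A P).Z (Gs.mk' w.A P').Z := by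
  have := sim_retag_all w.A P.card P P' ∅ rfl (h.val.trans h'.val.symm) (disjoint_empty_right _)
    (disjoint_empty_right _) (by rw [union_empty]; exact h.gd hw)
    (by rw [union_empty]; exact h'.gd hw)
  rwa [union_empty, union_empty] at this

theorem Real.cons {w : Calc.Ctx Nm} {P : Finset (Vx × Rel)} (h : Real w P) {u : Vx}
    (hu : u.isTag) (hf : ∀ c ∈ P, c.1 ≠ u) (x : Calc.Cell Nm) :
    Real (w.cons x) (insert (u, toRel x) P) := by
  have hn : (u, toRel x) ∉ P := fun hh => hf _ hh rfl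
  refine ⟨?_, ?_, ?_⟩
  · rw [insert_val_of_notMem hn, Multiset.map_cons, h.val]
    simp [Calc.Ctx.cons]
  · intro c hc
    rcases mem_insert.mp hc with rfl | hc
    · exact hu
    · exact h.tag c hc
  · intro c hc c' hc' he
    rcases mem_insert.mp hc with rfl | hc
    · rcases mem_insert.mp hc' with rfl | hc'
      · rfl
      · exact absurd he.symm (hf c' hc')
    · rcases mem_insert.mp hc' with rfl | hc'
      · exact absurd he (hf c hc)
      · exact h.inj c hc c' hc' he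

theorem Real.ext {w : Calc.Ctx Nm} {P : Finset (Vx × Rel)} (h : Real w P) {u : Vx}
    (hu : u.isTag) (hf : ∀ c ∈ P, c.1 ≠ u) (a : Nm) (x : Calc.Cell Nm) :
    Real (w.ext a x) (insert (u, toRel x) P) := by
  have := h.cons hu hf x
  exact ⟨this.val, this.tag, this.inj⟩

theorem exists_real (w : Calc.Ctx Nm) : ∃ P, Real w P := by
  obtain ⟨A, Γ⟩ := w
  induction Γ using Multiset.induction_on with
  | empty => exact ⟨∅, by simp, by simp, by simp⟩
  | cons x Γ ih =>
    obtain ⟨P, hP⟩ := ih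
    obtain ⟨k, hk⟩ := exists_tag P
    exact ⟨_, hP.cons (u := Vx.u k) trivial hk x⟩

theorem Real.holds {w : Calc.Ctx Nm} {P : Finset (Vx × Rel)} (h : Real w P)
    {x : Calc.Cell Nm} (hx : x ∈ w.Γ) : (Gs.mk' w.A P).holds (toRel x) := by
  have h1 : toRel x ∈ w.Γ.map toRel := Multiset.mem_map.mpr ⟨x, hx, rfl⟩
  rw [← h.val] at h1
  obtain ⟨⟨v, r⟩, hv, he⟩ := Multiset.mem_map.mp h1
  simp only at he
  rw [← he]
  exact mk'_holds hv

/-- the relation on contexts -/
def RR (w w' : Calc.Ctx Nm) : Prop :=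
  w = w' ∨ (w.WF ∧ w'.WF ∧ ∀ P P', Real w P → Real w' P' →
    Sim (Gs.mk' w.A P).Z (Gs.mk' w'.A P').Z)

theorem RR.symm {w w' : Calc.Ctx Nm} (h : RR w w') : RR w' w := by
  rcases h with h | ⟨h1, h2, h3⟩
  · exact Or.inl h.symm
  · exact Or.inr ⟨h2, h1, fun P P' hP hP' => (h3 P' P hP' hP).symm⟩

theorem RR.trans {w w' w'' : Calc.Ctx Nm} (h : RR w w') (h' : RR w' w'') : RR w w'' := by
  rcases h with h | ⟨h1, h2, h3⟩
  · rwa [h]
  · rcases h' with h' | ⟨h4, h5, h6⟩
    · rw [← h']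
      exact Or.inr ⟨h1, h2, h3⟩
    · refine Or.inr ⟨h1, h5, fun P P' hP hP' => ?_⟩
      obtain ⟨P'', hP''⟩ := exists_real w'
      exact (h3 P P'' hP hP'').trans (h6 P'' P' hP'' hP')

theorem RR.of_rep {w : Calc.Ctx Nm} (hw : w.WF) {x y : Calc.Cell Nm} (hx : x.WF w.A)
    (hy : y.WF w.A)
    (h : ∀ P, Real w P → (Gs.mk' w.A P).ok → Rep (Gs.mk' w.A P) (toRel x) (toRel y)) :
    RR (w.cons x) (w.cons y) := by
  refine Or.inr ⟨hw.cons hx, hw.cons hy, fun P P' hP hP' => ?_⟩
  obtain ⟨P0, hP0⟩ := exists_real w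
  obtain ⟨k, hk⟩ := exists_tag P0
  have h1 := hP0.cons (u := Vx.u k) trivial hk x
  have h2 := hP0.cons (u := Vx.u k) trivial hk y
  have h3 := h P0 hP0 (hP0.gd hw).ok _ (Gs.le_refl _) (hP0.gd hw).ok (Vx.u k)
    (mk'_free.mpr ⟨trivial, hk⟩)
  rw [mk'_cell, mk'_cell] at h3
  exact (Real.unique (hw.cons hx) hP h1).trans (h3.trans (Real.unique (hw.cons hy) h2 hP'))

theorem RR.of_intro {w : Calc.Ctx Nm} (hw : w.WF) {c : Nm} (hc : c ∉ w.A) {x : Calc.Cell Nm}
    (hx : x.WF (insert c w.A))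
    (hp : toRel x = .cap c ∨ (∃ p, toRel x = .eq p c) ∨ (∃ p q, toRel x = .add p q c) ∨
      (∃ p q, toRel x = .add c p q)) : RR w (w.ext c x) := by
  refine Or.inr ⟨hw, hw.ext hx, fun P P' hP hP' => ?_⟩
  obtain ⟨k, hk⟩ := exists_tag P
  have h1 := hP.ext (u := Vx.u k) trivial hk c x
  have hn : ¬ (Gs.mk' w.A P).has c := by rwa [mk'_has]
  have h2 := sim_intro (hP.gd hw).ok hn (u := Vx.u k) (mk'_free.mpr ⟨trivial, hk⟩)
    (r := toRel x) (by rw [mk'_name, mk'_fits]; exact toRel_wf hx) hp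
  rw [mk'_name, mk'_cell] at h2
  exact h2.trans (Real.unique (hw.ext hx) h1 hP')

theorem fits_of_wf {w : Calc.Ctx Nm} {P : Finset (Vx × Rel)} {x : Calc.Cell Nm}
    (h : x.WF w.A) : (Gs.mk' w.A P).fits (toRel x) := by
  rw [mk'_fits]
  exact toRel_wf h

/-- the states form a model of the abstract calculus -/
def model : Calc.Calculus Nm where
  R := RR
  refl := fun w => Or.inl rfl
  symm := RR.symm
  trans := RR.trans
  new_cap := fun {w a} hw ha => RR.of_intro hw ha (mem_insert_self _ _) (Or.inl rfl)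
  new_eq := fun {w a b} hw ha hb => RR.of_intro hw hb
    ⟨mem_insert_of_mem ha, mem_insert_self _ _, fun h => hb (h ▸ ha)⟩ (Or.inr (Or.inl ⟨a, rfl⟩))
  new_add3 := fun {w a b c} hw ha hb hab hc => RR.of_intro hw hc
    ⟨mem_insert_of_mem ha, mem_insert_of_mem hb, mem_insert_self _ _, hab,
      fun h => hc (h ▸ ha), fun h => hc (h ▸ hb)⟩ (Or.inr (Or.inr (Or.inl ⟨a, b, rfl⟩)))
  new_add1 := fun {w a b c} hw hb hc hbc ha => RR.of_intro hw ha
    ⟨mem_insert_self _ _, mem_insert_of_mem hb, mem_insert_of_mem hc,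
      fun h => ha (h ▸ hb), fun h => ha (h ▸ hc), hbc⟩ (Or.inr (Or.inr (Or.inr ⟨b, c, rfl⟩)))
  eq_comm := fun {w a b} hw h => RR.of_rep hw h ⟨h.2.1, h.1, h.2.2.symm⟩ fun P hP hok =>
    rep_eqSymm (fits_of_wf (x := .eq a b) h)
  add_comm := fun {w a b c} hw h => RR.of_rep hw h
    ⟨h.2.1, h.1, h.2.2.1, h.2.2.2.1.symm, h.2.2.2.2.2, h.2.2.2.2.1⟩ fun P hP hok =>
    rep_addComm (fits_of_wf (x := .add a b c) h)
  eq_cap := fun {w a b} hw h => RR.of_rep hw (hw _ h).1 (hw _ h).2.1 fun P hP hok =>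
    rep_subCap (hP.holds h) (fits_of_wf (x := .eq a b) (hw _ h))
  eq_eq := fun {w a b c} hw h hc h1 h2 => by
    have h3 := hw _ h
    refine RR.of_rep hw ⟨h3.1, hc, h1.symm⟩ ⟨h3.2.1, hc, h2.symm⟩ fun P hP hok => ?_
    exact rep_subEq (hP.holds h) (fits_of_wf (x := .add a b c)
      ⟨h3.1, h3.2.1, hc, h3.2.2, h1.symm, h2.symm⟩)
  eq_add1 := fun {w a b c d} hw h h1 h2 => RR.of_rep hw h1 h2 fun P hP hok =>
    rep_subAdd1 (hP.holds h) (fits_of_wf (x := .eq a b) (hw _ h))
      (fits_of_wf (x := .add a c d) h1) (fits_of_wf (x := .add b c d) h2)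
  eq_add3 := fun {w a b c d} hw h h1 h2 => RR.of_rep hw h1 h2 fun P hP hok =>
    rep_subAdd3 (hP.holds h) (fits_of_wf (x := .eq a b) (hw _ h))
      (fits_of_wf (x := .add c d a) h1) (fits_of_wf (x := .add c d b) h2)
  add_eq := fun {w a b c c'} hw h hc h1 h2 h3 => by
    obtain ⟨ha, hb, hcA, hab, hac, hbc⟩ := hw _ h
    refine RR.of_rep hw ⟨ha, hb, hc, hab, h1.symm, h2.symm⟩ ⟨hcA, hc, h3.symm⟩ fun P hP hok => ?_
    exact rep_addUniq (hP.holds h) (fits_of_wf (x := .add a b c) (hw _ h)) (mk'_has.mpr hc) h1 h2 h3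
  assoc := fun {w a b c x y d} hw hn hd h h' => by
    obtain ⟨ha, hb, hx, hab, hax, hbx⟩ := hw _ h
    obtain ⟨-, hc, hy, hbc, hby, hcy⟩ := hw _ h'
    simp only [List.nodup_cons, List.mem_cons, List.not_mem_nil, or_false, not_or,
      List.nodup_nil, and_true, not_false_eq_true] at hn
    obtain ⟨⟨-, nac, nax, nay, nad⟩, ⟨nbc, nbx, nby, nbd⟩, ⟨ncx, ncy, ncd⟩, ⟨nxy, nxd⟩, nyd⟩ := hn
    refine RR.of_rep hw ⟨hx, hc, hd, Ne.symm ncx, nxd, ncd⟩
      ⟨ha, hy, hd, nay, nad, nyd⟩ fun P hP hok => ?_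
    refine rep_assoc (hP.holds h) (hP.holds h') ?_ ?_
    · simp only [List.nodup_cons, List.mem_cons, List.not_mem_nil, or_false, not_or,
        List.nodup_nil, and_true, not_false_eq_true]
      exact ⟨⟨hab, nac, nad, nax, nay⟩, ⟨nbc, nbd, nbx, nby⟩, ⟨ncd, ncx, ncy⟩,
        ⟨Ne.symm nxd, Ne.symm nyd⟩, nxy⟩
    · intro e he
      simp only [List.mem_cons, List.not_mem_nil, or_false] at he
      rw [mk'_has]
      rcases he with rfl | rfl | rfl | rfl | rfl | rfl
      · exact ha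
      · exact hb
      · exact hc
      · exact hd
      · exact hx
      · exact hy
  cap_eq := fun {w a b} hw h hb hne => by
    have ha : a ∈ w.A := hw _ h
    refine RR.of_rep hw (x := .cap b) hb ⟨ha, hb, hne.symm⟩ fun P hP hok => ?_
    have h1 : Rep (Gs.mk' w.A P) (.eq a b) (.cap b) :=
      rep_capEq (hP.holds h) (fits_of_wf (x := .eq a b) ⟨ha, hb, hne.symm⟩)
    intro Q' hQ' hok' v hv
    exact (h1 Q' hQ' hok' v hv).symm
  cap_add := fun {w a b c} hw h h1 => by
    refine RR.of_rep hw h1 ⟨h1.1, h1.2.2.1, h1.2.2.2.2.1⟩ fun P hP hok => ?_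
    exact rep_addZero (hP.holds h) (fits_of_wf (x := .add a b c) h1)
  add_cap := fun {w x y z} hw h => by
    have h1 := hw _ h
    refine RR.of_rep hw ⟨h1.2.2.1, h1.2.1, h1.2.2.2.2.2.symm⟩ h1.1 fun P hP hok => ?_
    exact rep_eqSub (hP.holds h) (fits_of_wf (x := .add z y x) h1)

end Pool.Agent.DF302A.PI
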