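import Pool.Agent.Work.MP_df302a_co.I5

/-! # MP_df302a_co, part (I), module I7D: data on a 3-complex and the pure state (definitions). -/

set_option autoImplicit false

namespace Pool.Agent.DF302A.PI

open Finset

/-- data on a simplicial complex `K` of dimension at most three (vertices = natural numbers) -/
structure KData (K A : Finset (Finset ℕ)) : Prop where
  e : ∅ ∈ K
  down : ∀ σ ∈ K, ∀ τ, τ ⊆ σ → τ ∈ K
  card : ∀ σ ∈ K, σ.card ≤ 4
  sub : A ⊆ K
  edges : ∀ σ ∈ K, σ.card ≤ 2 → σ ∈ A
  Acard : ∀ σ ∈ A, σ.card ≤ 3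
  coll : ∃ p, Inn (↑A : Set (Finset ℕ)) (pt p) (↑A : Set (Finset ℕ))

/-- triangles of `K` -/
def tris (K : Finset (Finset ℕ)) : Finset (Finset ℕ) := K.filter (fun σ => σ.card = 3)
/-- tetrahedra of `K` -/
def tets (K : Finset (Finset ℕ)) : Finset (Finset ℕ) := K.filter (fun σ => σ.card = 4)

/-- face of a simplex opposite to its `i`-th smallest vertex -/
def opp (τ : Finset ℕ) (i : ℕ) : Finset ℕ := τ.erase ((τ.sort (· ≤ ·)).getD i 0)

/-- the term of a relator: a triangle of `A` or the boundary of a tetrahedron -/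
def relTm (τ : Finset ℕ) : Tm :=
  if τ.card = 3 then .base τ
  else .sub (.add (.base (opp τ 0)) (.base (opp τ 2))) (.add (.base (opp τ 1)) (.base (opp τ 3)))

/-- the relators -/
def relI (K A : Finset (Finset ℕ)) : Finset (Finset ℕ) := tris A ∪ tets K

/-- the complex `K` with vertices in `Vx` -/
def KV (K : Finset (Finset ℕ)) : Set (Finset Vx) := (fun σ : Finset ℕ => σ.image Vx.k) '' ↑K

/-- boundary relation of `t` or of a tetrahedron, as a vector -/
def relV (τ : Finset ℕ) : Finset ℕ → ℤ := (relTm τ).eval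

/-- the name of a triangle -/
def bn (t : Finset ℕ) : Nm := (Tm.base t, 0)
/-- first auxiliary name of a tetrahedron -/
def xn (τ : Finset ℕ) : Nm := (Tm.fr (2 * Encodable.encode τ), 0)
/-- second auxiliary name of a tetrahedron -/
def yn (τ : Finset ℕ) : Nm := (Tm.fr (2 * Encodable.encode τ + 1), 0)

/-- the pure state of `K`: names = triangles and two names for every tetrahedron -/
def PK (K A : Finset (Finset ℕ)) : Gs :=
  Gs.mk' ((tris K).image bn ∪ (tets K).image xn ∪ (tets K).image yn)
    ((tris A).image (fun t => (Vx.e t, Rel.cap (bn t))) ∪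
      (tets K).image (fun τ => (Vx.d (xn τ), Rel.add (bn (opp τ 0)) (bn (opp τ 2)) (xn τ))) ∪
      (tets K).image (fun τ => (Vx.d (yn τ), Rel.add (bn (opp τ 1)) (bn (opp τ 3)) (yn τ))) ∪
      (tets K).image (fun τ => (Vx.e τ, Rel.eq (xn τ) (yn τ))))

end Pool.Agent.DF302A.PI
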