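import Pool.Agent.Work.MP_df302a_co.I6C
import Pool.Agent.Work.MP_df302a_co.I7D

/-! # MP_df302a_co, part (I), module I6F: the pure state realizes its abstract context. -/

set_option autoImplicit false

namespace Pool.Agent.DF302A.PI

open Finset

theorem getD_sort_mem {τ : Finset ℕ} {i : ℕ} (hi : i < τ.card) :
    (τ.sort (· ≤ ·)).getD i 0 ∈ τ := by
  have hl : i < (τ.sort (· ≤ ·)).length := by rwa [length_sort]
  rw [List.getD_eq_getElem _ _ hl]
  exact (mem_sort (· ≤ ·)).mp (List.getElem_mem hl)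

theorem opp_card {τ : Finset ℕ} {i : ℕ} (hτ : τ.card = 4) (hi : i < 4) : (opp τ i).card = 3 := by
  unfold opp
  rw [card_erase_of_mem (getD_sort_mem (by omega)), hτ]

theorem opp_mem {K A : Finset (Finset ℕ)} (h : KData K A) {τ : Finset ℕ} (hτ : τ ∈ tets K)
    {i : ℕ} (hi : i < 4) : opp τ i ∈ tris K := by
  obtain ⟨h1, h2⟩ := mem_filter.mp hτ
  exact mem_filter.mpr ⟨h.down τ h1 _ (erase_subset _ _), opp_card h2 hi⟩

theorem opp_ne {τ : Finset ℕ} (hτ : τ.card = 4) {i j : ℕ} (hi : i < 4) (hj : j < 4)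
    (hij : i ≠ j) : opp τ i ≠ opp τ j := by
  intro he
  have hli : i < (τ.sort (· ≤ ·)).length := by rw [length_sort]; omega
  have hlj : j < (τ.sort (· ≤ ·)).length := by rw [length_sort]; omega
  have h1 : (τ.sort (· ≤ ·)).getD i 0 ∉ opp τ j := by
    rw [← he]
    exact notMem_erase _ _
  have h2 : (τ.sort (· ≤ ·)).getD i 0 ∈ τ := getD_sort_mem (by omega)
  have h3 : (τ.sort (· ≤ ·)).getD i 0 = (τ.sort (· ≤ ·)).getD j 0 := by
    by_contra hne
    exact h1 (mem_erase.mpr ⟨hne, h2⟩)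
  rw [List.getD_eq_getElem _ _ hli, List.getD_eq_getElem _ _ hlj] at h3
  have h4 := (List.Nodup.getElem_inj_iff (sort_nodup τ (· ≤ ·))).mp h3
  exact hij h4

theorem bn_inj : Function.Injective bn := by
  intro s t h
  have h1 : Tm.base s = Tm.base t := congrArg Prod.fst h
  exact Tm.base.inj h1

theorem xn_inj : Function.Injective xn := by
  intro s t h
  have h1 : Tm.fr (2 * Encodable.encode s) = Tm.fr (2 * Encodable.encode t) := congrArg Prod.fst h
  have h2 := Tm.fr.inj h1
  exact Encodable.encode_injective (by omega)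

theorem yn_inj : Function.Injective yn := by
  intro s t h
  have h1 : Tm.fr (2 * Encodable.encode s + 1) = Tm.fr (2 * Encodable.encode t + 1) :=
    congrArg Prod.fst h
  have h2 := Tm.fr.inj h1
  exact Encodable.encode_injective (by omega)

theorem bn_ne_xn (s t : Finset ℕ) : bn s ≠ xn t := by
  intro h
  have h1 : Tm.base s = Tm.fr (2 * Encodable.encode t) := congrArg Prod.fst h
  exact Tm.noConfusion h1

theorem bn_ne_yn (s t : Finset ℕ) : bn s ≠ yn t := by
  intro h
  have h1 : Tm.base s = Tm.fr (2 * Encodable.encode t + 1) := congrArg Prod.fst h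
  exact Tm.noConfusion h1

theorem xn_ne_yn (s t : Finset ℕ) : xn s ≠ yn t := by
  intro h
  have h1 : Tm.fr (2 * Encodable.encode s) = Tm.fr (2 * Encodable.encode t + 1) :=
    congrArg Prod.fst h
  have h2 := Tm.fr.inj h1
  omega

/-- the names of the pure state -/
def PKN (K : Finset (Finset ℕ)) : Finset Nm :=
  (tris K).image bn ∪ (tets K).image xn ∪ (tets K).image yn

/-- the tagged relators of the pure state -/
def PKP (K A : Finset (Finset ℕ)) : Finset (Vx × Rel) :=
  (tris A).image (fun t => (Vx.e t, Rel.cap (bn t))) ∪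
    (tets K).image (fun τ => (Vx.d (xn τ), Rel.add (bn (opp τ 0)) (bn (opp τ 2)) (xn τ))) ∪
    (tets K).image (fun τ => (Vx.d (yn τ), Rel.add (bn (opp τ 1)) (bn (opp τ 3)) (yn τ))) ∪
    (tets K).image (fun τ => (Vx.e τ, Rel.eq (xn τ) (yn τ)))

theorem PK_eq (K A : Finset (Finset ℕ)) : PK K A = Gs.mk' (PKN K) (PKP K A) := rfl

/-- the abstract context of the pure state -/
def PKc (K A : Finset (Finset ℕ)) : Calc.Ctx Nm :=
  ⟨PKN K, (tris A).val.map (fun t => Calc.Cell.cap (bn t)) +
    (tets K).val.map (fun τ => Calc.Cell.add (bn (opp τ 0)) (bn (opp τ 2)) (xn τ)) +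
    (tets K).val.map (fun τ => Calc.Cell.add (bn (opp τ 1)) (bn (opp τ 3)) (yn τ)) +
    (tets K).val.map (fun τ => Calc.Cell.eq (xn τ) (yn τ))⟩

theorem bn_mem {K : Finset (Finset ℕ)} {t : Finset ℕ} (h : t ∈ tris K) : bn t ∈ PKN K :=
  mem_union_left _ (mem_union_left _ (mem_image_of_mem _ h))

theorem xn_mem {K : Finset (Finset ℕ)} {t : Finset ℕ} (h : t ∈ tets K) : xn t ∈ PKN K :=
  mem_union_left _ (mem_union_right _ (mem_image_of_mem _ h))

theorem yn_mem {K : Finset (Finset ℕ)} {t : Finset ℕ} (h : t ∈ tets K) : yn t ∈ PKN K :=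
  mem_union_right _ (mem_image_of_mem _ h)

theorem pk_wf {K A : Finset (Finset ℕ)} (h : KData K A) : (PKc K A).WF := by
  intro x hx
  simp only [PKc, Multiset.mem_add, Multiset.mem_map, mem_val] at hx
  rcases hx with ((⟨t, ht, rfl⟩ | ⟨τ, hτ, rfl⟩) | ⟨τ, hτ, rfl⟩) | ⟨τ, hτ, rfl⟩
  · obtain ⟨h1, h2⟩ := mem_filter.mp ht
    exact bn_mem (mem_filter.mpr ⟨h.sub h1, h2⟩)
  · have h4 := (mem_filter.mp hτ).2
    exact ⟨bn_mem (opp_mem h hτ (by norm_num)), bn_mem (opp_mem h hτ (by norm_num)), xn_mem hτ,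
      fun he => opp_ne h4 (by norm_num) (by norm_num) (by norm_num) (bn_inj he),
      bn_ne_xn _ _, bn_ne_xn _ _⟩
  · have h4 := (mem_filter.mp hτ).2
    exact ⟨bn_mem (opp_mem h hτ (by norm_num)), bn_mem (opp_mem h hτ (by norm_num)), yn_mem hτ,
      fun he => opp_ne h4 (by norm_num) (by norm_num) (by norm_num) (bn_inj he),
      bn_ne_yn _ _, bn_ne_yn _ _⟩
  · exact ⟨xn_mem hτ, yn_mem hτ, xn_ne_yn _ _⟩

theorem union_val_of_disjoint {α : Type*} [DecidableEq α] {s t : Finset α} (h : Disjoint s t) :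
    (s ∪ t).val = s.val + t.val := by
  rw [← disjUnion_eq_union s t h]
  rfl

theorem image_val_of_inj {α β : Type*} [DecidableEq β] {s : Finset α} {f : α → β}
    (h : Set.InjOn f s) : (s.image f).val = s.val.map f := by
  rw [image_val]
  exact Multiset.dedup_eq_self.mpr ((Multiset.nodup_map_iff_of_inj_on h).mpr s.nodup)

theorem pk_real {K A : Finset (Finset ℕ)} (h : KData K A) : Real (PKc K A) (PKP K A) := by
  have ht : ∀ t ∈ tris A, t.card = 3 := fun t ht => (mem_filter.mp ht).2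
  have hτ : ∀ t ∈ tets K, t.card = 4 := fun t ht => (mem_filter.mp ht).2
  refine ⟨?_, ?_, ?_⟩
  · unfold PKP
    rw [union_val_of_disjoint, union_val_of_disjoint, union_val_of_disjoint, image_val_of_inj,
      image_val_of_inj, image_val_of_inj, image_val_of_inj]
    · simp only [PKc, Multiset.map_add, Multiset.map_map, Function.comp_def, toRel]
    · intro s _ t _ he
      exact Vx.e.inj (congrArg Prod.fst he)
    · intro s _ t _ he
      exact yn_inj (Vx.d.inj (congrArg Prod.fst he))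
    · intro s _ t _ he
      exact xn_inj (Vx.d.inj (congrArg Prod.fst he))
    · intro s _ t _ he
      exact Vx.e.inj (congrArg Prod.fst he)
    · rw [disjoint_left]
      intro c hc hc'
      obtain ⟨s, hs, rfl⟩ := mem_image.mp hc
      obtain ⟨t, ht', he⟩ := mem_image.mp hc'
      exact Vx.noConfusion (congrArg Prod.fst he)
    · rw [disjoint_left]
      intro c hc hc'
      obtain ⟨t, ht', rfl⟩ := mem_image.mp hc'
      rcases mem_union.mp hc with hc | hc
      · obtain ⟨s, hs, he⟩ := mem_image.mp hc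
        exact Vx.noConfusion (congrArg Prod.fst he)
      · obtain ⟨s, hs, he⟩ := mem_image.mp hc
        exact xn_ne_yn _ _ (Vx.d.inj (congrArg Prod.fst he))
    · rw [disjoint_left]
      intro c hc hc'
      obtain ⟨t, ht', rfl⟩ := mem_image.mp hc'
      rcases mem_union.mp hc with hc | hc
      · rcases mem_union.mp hc with hc | hc
        · obtain ⟨s, hs, he⟩ := mem_image.mp hc
          have h1 : s = t := Vx.e.inj (congrArg Prod.fst he)
          have h2 := ht s hs
          have h3 := hτ t ht'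
          rw [h1] at h2
          omega
        · obtain ⟨s, hs, he⟩ := mem_image.mp hc
          exact Vx.noConfusion (congrArg Prod.fst he)
      · obtain ⟨s, hs, he⟩ := mem_image.mp hc
        exact Vx.noConfusion (congrArg Prod.fst he)
  · intro c hc
    unfold PKP at hc
    simp only [mem_union, mem_image] at hc
    rcases hc with ((⟨t, _, rfl⟩ | ⟨t, _, rfl⟩) | ⟨t, _, rfl⟩) | ⟨t, _, rfl⟩ <;> trivial
  · intro c hc c' hc' he
    unfold PKP at hc hc'
    simp only [mem_union, mem_image] at hc hc'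
    rcases hc with ((⟨t, h1, rfl⟩ | ⟨t, h1, rfl⟩) | ⟨t, h1, rfl⟩) | ⟨t, h1, rfl⟩ <;>
    rcases hc' with ((⟨s, h2, rfl⟩ | ⟨s, h2, rfl⟩) | ⟨s, h2, rfl⟩) | ⟨s, h2, rfl⟩ <;>
    simp only at he ⊢
    · rw [Vx.e.inj he]
    · exact Vx.noConfusion he
    · exact Vx.noConfusion he
    · exfalso
      have h3 := ht t h1
      have h4 := hτ s h2
      rw [Vx.e.inj he] at h3
      omega
    · exact Vx.noConfusion he
    · rw [xn_inj (Vx.d.inj he)]
    · exact absurd (Vx.d.inj he) (xn_ne_yn _ _)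
    · exact Vx.noConfusion he
    · exact Vx.noConfusion he
    · exact absurd (Vx.d.inj he).symm (xn_ne_yn _ _)
    · rw [yn_inj (Vx.d.inj he)]
    · exact Vx.noConfusion he
    · exfalso
      have h3 := ht s h2
      have h4 := hτ t h1
      rw [← Vx.e.inj he] at h3
      omega
    · exact Vx.noConfusion he
    · exact Vx.noConfusion he
    · rw [Vx.e.inj he]

/-- the empty state is a point -/
theorem sim_empty : Sim (Gs.mk' ∅ ∅).Z (pt Vx.w) := by
  have h1 : (Gs.mk' ∅ ∅).Z = ZZ Vx.w (insert Vx.z ∅) ∅ ∅ := by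
    simp [Gs.mk', Gs.Z]
  have h2 : WF Vx.w (∅ : Finset Vx) ∅ ∅ :=
    ⟨by simp, by simp, by simp, by simp, by simp⟩
  have h3 : Fresh Vx.w (∅ : Finset Vx) ∅ Vx.z :=
    ⟨by simp, fun he => Vx.noConfusion he, by simp⟩
  have h4 := sim_vertex h2 h3
  rw [ZZ_empty] at h4
  rw [h1]
  exact h4.symm

/-- the pure state of a unimodular presentation is equivalent to a point -/
theorem pure_final_of {K A : Finset (Finset ℕ)} (h : KData K A)
    (hR : model.R (PKc K A) ⟨∅, 0⟩) : Sim (PK K A).Z (pt Vx.w) := by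
  rw [PK_eq]
  have hE : Real (⟨∅, 0⟩ : Calc.Ctx Nm) ∅ := ⟨by simp, by simp, by simp⟩
  have hEW : (⟨∅, 0⟩ : Calc.Ctx Nm).WF := by
    intro x hx
    simp at hx
  rcases hR with hR | ⟨h1, h2, h3⟩
  · have hr : Real (⟨∅, 0⟩ : Calc.Ctx Nm) (PKP K A) := hR ▸ pk_real h
    have h4 := Real.unique hEW hr hE
    have h5 : PKN K = ∅ := congrArg Calc.Ctx.A hR
    rw [h5]
    exact h4.trans sim_empty
  · exact (h3 _ _ (pk_real h) hE).trans sim_empty

end Pool.Agent.DF302A.PI
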