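import Pool.Agent.Work.MP_df302a_co.I6B
import Pool.Agent.Work.MP_df302a_co.I6F

/-! # MP_df302a_co, part (I), module I6E: the pure presentation is trivial in the calculus. -/

set_option autoImplicit false

namespace Pool.Agent.DF302A.PI.Calc

open Cell

section cluster
variable {T : Finset (Finset ℕ)} {A0 : Finset Nm} {C : Calculus Nm}

theorem multiset_swap3 (a b c : Cell Nm) (Γ : Multiset (Cell Nm)) :
    a ::ₘ b ::ₘ c ::ₘ Γ = c ::ₘ a ::ₘ b ::ₘ Γ := by
  rw [Multiset.cons_swap b c, Multiset.cons_swap a c]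

/-- a relator `a + b = c + d` with two private names is the cap of the term
`(a + b) - (c + d)`. -/
theorem cluster (hA : ∀ x ∈ A0, ¬ pur x.1) {F : Finset Tm} (hF : Cl F)
    (pF : ∀ s ∈ F, pur s) (hT : leaves T ⊆ F) {Γ : Multiset (Cell Nm)}
    (hΓ : ∀ x ∈ Γ, x.WF (NA A0 F)) {a b c d : Finset ℕ} (hab : a ≠ b) (hcd : c ≠ d)
    (hz : Tm.sub (.add (.base a) (.base b)) (.add (.base c) (.base d)) ∈ F) {x y : Nm}
    (hx : ¬ pur x.1) (hy : ¬ pur y.1) (hxy : x ≠ y) (hxA : x ∉ A0) (hyA : y ∉ A0) :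
    C.R (Sta T (insert x (insert y A0)) F
      (add (bn a) (bn b) x ::ₘ add (bn c) (bn d) y ::ₘ eq x y ::ₘ Γ))
      (Sta T A0 F
        (cap (Tm.sub (.add (.base a) (.base b)) (.add (.base c) (.base d)), 0) ::ₘ Γ)) := by
  set p : Tm := .add (.base a) (.base b) with hp
  set q : Tm := .add (.base c) (.base d) with hq
  set z : Tm := .sub p q with hzd
  have pmem : p ∈ F := hF z hz (by simp [args, hzd])
  have qmem : q ∈ F := hF z hz (by simp [args, hzd])
  have amem : Tm.base a ∈ F := hF p pmem (by simp [args, hp])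
  have bmem : Tm.base b ∈ F := hF p pmem (by simp [args, hp])
  have cmem : Tm.base c ∈ F := hF q qmem (by simp [args, hq])
  have dmem : Tm.base d ∈ F := hF q qmem (by simp [args, hq])
  set A1 := insert x (insert y A0) with hA1
  have hA' : ∀ u ∈ A1, ¬ pur u.1 := by
    intro u hu
    rcases Finset.mem_insert.1 hu with rfl | hu
    · exact hx
    rcases Finset.mem_insert.1 hu with rfl | hu
    · exact hy
    exact hA u hu
  have hsub : NA A0 F ⊆ NA A1 F := by
    refine Finset.union_subset_union_left ?_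
    intro u hu
    exact Finset.mem_insert_of_mem (Finset.mem_insert_of_mem hu)
  have xm : x ∈ NA A1 F := Finset.mem_union_left _ (Finset.mem_insert_self _ _)
  have ym : y ∈ NA A1 F :=
    Finset.mem_union_left _ (Finset.mem_insert_of_mem (Finset.mem_insert_self _ _))
  have nm : ∀ s ∈ F, ((s, 0) : Nm) ∈ NA A0 F := fun s hs => mem_NA hs (mem_names s)
  have ne : ∀ (s : Tm) (k : Fin 3) (u : Nm), pur s → ¬ pur u.1 → (s, k) ≠ u := by
    rintro s k u h1 h2 rfl
    exact h2 h1
  have Wx : (add (bn a) (bn b) x).WF (NA A1 F) :=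
    ⟨hsub (nm _ amem), hsub (nm _ bmem), xm, by simpa [bn] using hab,
      ne _ _ _ trivial hx, ne _ _ _ trivial hx⟩
  have Wy : (add (bn c) (bn d) y).WF (NA A1 F) :=
    ⟨hsub (nm _ cmem), hsub (nm _ dmem), ym, by simpa [bn] using hcd,
      ne _ _ _ trivial hy, ne _ _ _ trivial hy⟩
  have Wxy : (eq x y).WF (NA A1 F) := ⟨xm, ym, hxy⟩
  have Wz : (cap ((z, 0) : Nm)).WF (NA A1 F) := hsub (nm _ hz)
  have hΓ1 : ∀ u ∈ add (bn a) (bn b) x ::ₘ add (bn c) (bn d) y ::ₘ Γ, u.WF (NA A1 F) := by
    intro u hu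
    rcases Multiset.mem_cons.1 hu with rfl | hu
    · exact Wx
    rcases Multiset.mem_cons.1 hu with rfl | hu
    · exact Wy
    exact (hΓ u hu).mono hsub
  have e1 := Sta_intc (C := C) (T := T) hA' hF pF hT hΓ1 Wxy Wz ∅ (by simp) (by
    intro w hw hwΓ
    have wp : Mod {p} w := hw.mono (by simpa using pmem)
    have wq : Mod {q} w := hw.mono (by simpa using qmem)
    have wz : Mod {z} w := hw.mono (by simpa using hz)
    have mx : add (bn a) (bn b) x ∈ w.Γ := hwΓ _ (Multiset.mem_cons_self _ _)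
    have my : add (bn c) (bn d) y ∈ w.Γ :=
      hwΓ _ (Multiset.mem_cons_of_mem (Multiset.mem_cons_self _ _))
    obtain ⟨-, -, ex, -⟩ := hw.1 _ mx
    obtain ⟨-, -, ey, -⟩ := hw.1 _ my
    have E1 : Eqv C w x (p, 0) :=
      Eqv.sum_congr hw.1 (add_arg1 (C := C) wp) (add_arg2 (C := C) wp) mx (add_cell wp)
    have E2 : Eqv C w y (q, 0) :=
      Eqv.sum_congr hw.1 (add_arg1 (C := C) wq) (add_arg2 (C := C) wq) my (add_cell wq)
    have z1 := wz.hasS (s := p) (t := q) (by simp [hzd]) 1
    have z2 := wz.hasS (s := p) (t := q) (by simp [hzd]) 2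
    exact Eqv.diff_cap hw.1 (sub_cell wz) (Eqv.trans ex z1 E1 (sub_arg1 wz))
      (Eqv.trans ey z2 E2 (sub_arg2 wz)) ⟨ex, ey, hxy⟩)
  rw [multiset_swap3]
  refine C.trans e1 ?_
  -- remove the private names
  have hΓ2 : ∀ u ∈ cap ((z, 0) : Nm) ::ₘ Γ, u.WF (NA A0 F) := by
    intro u hu
    rcases Multiset.mem_cons.1 hu with rfl | hu
    · exact nm _ hz
    exact hΓ u hu
  have W0 : (Sta T A0 F (cap ((z, 0) : Nm) ::ₘ Γ)).WF := Sta_WF hF pF hΓ2
  have hyN : y ∉ NA A0 F := by
    intro h
    rcases Finset.mem_union.1 h with h | h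
    · exact hyA h
    · exact hy (pF _ (mem_biUnion_names h))
  have hxN : x ∉ NA A0 F := by
    intro h
    rcases Finset.mem_union.1 h with h | h
    · exact hxA h
    · exact hx (pF _ (mem_biUnion_names h))
  have f1 := C.new_add3 (a := bn c) (b := bn d) (c := y) W0 (nm _ cmem) (nm _ dmem)
    (by simpa [bn] using hcd) hyN
  have W1 : ((Sta T A0 F (cap ((z, 0) : Nm) ::ₘ Γ)).ext y (add (bn c) (bn d) y)).WF :=
    W0.ext ⟨Finset.mem_insert_of_mem (nm _ cmem), Finset.mem_insert_of_mem (nm _ dmem),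
      Finset.mem_insert_self _ _, by simpa [bn] using hcd, ne _ _ _ trivial hy,
      ne _ _ _ trivial hy⟩
  have f2 := C.new_add3 (a := bn a) (b := bn b) (c := x) W1
    (Finset.mem_insert_of_mem (nm _ amem)) (Finset.mem_insert_of_mem (nm _ bmem))
    (by simpa [bn] using hab) (by
      intro h
      rcases Finset.mem_insert.1 h with h | h
      · exact hxy h
      · exact hxN h)
  refine C.symm (C.trans f1 ?_)
  convert f2 using 1
  simp only [Sta, Ctx.ext, Ctx.mk.injEq]
  constructor
  · rw [hA1, NA, NA, Finset.insert_union, Finset.insert_union]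
  · simp only [← Multiset.singleton_add]
    abel

end cluster

/-! ### evaluation -/

theorem evalF_apply (s : Tm) (t : Finset ℕ) : evalF s t = s.eval t := by
  induction s with
  | base u =>
    simp only [evalF, Tm.eval, Finsupp.single_apply, Pi.single_apply, eq_comm]
  | fr n => rfl
  | zero => rfl
  | add a b ha hb => simp only [evalF, Tm.eval, Finsupp.add_apply, Pi.add_apply, ha, hb]
  | sub a b ha hb => simp only [evalF, Tm.eval, Finsupp.sub_apply, Pi.sub_apply, ha, hb]

theorem evalF_eq_vecF {ι : Type} [Fintype ι] [DecidableEq ι] (e : ι → Finset ℕ)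
    (he : Function.Injective e) (s : Tm) (h : ∀ t, t ∉ Set.range e → s.eval t = 0) :
    evalF s = vecF e (fun i => s.eval (e i)) := by
  ext t
  rw [evalF_apply]
  simp only [vecF, AddMonoidHom.coe_mk, ZeroHom.coe_mk, Finsupp.coe_finsetSum,
    Finset.sum_apply, Finsupp.single_apply]
  by_cases ht : t ∈ Set.range e
  · obtain ⟨i, rfl⟩ := ht
    rw [Finset.sum_eq_single i]
    · simp
    · intro j _ hj
      rw [if_neg (fun h => hj (he h))]
    · intro hi; exact absurd (Finset.mem_univ _) hi
  · rw [h t ht, Finset.sum_eq_zero]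
    intro i _
    rw [if_neg (fun h' => ht ⟨i, h'⟩)]

/-! ### faces -/

theorem sort_getD_mem {τ : Finset ℕ} {n i : ℕ} (h : τ.card = n) (hi : i < n) :
    (τ.sort (· ≤ ·)).getD i 0 ∈ τ := by
  have hl : i < (τ.sort (· ≤ ·)).length := by rw [Finset.length_sort, h]; exact hi
  rw [List.getD_eq_getElem _ _ hl]
  exact (Finset.mem_sort (· ≤ ·)).1 (List.getElem_mem hl)

theorem opp_mem' {K A : Finset (Finset ℕ)} (h : KData K A) {τ : Finset ℕ} (hτ : τ ∈ tets K)
    {i : ℕ} (hi : i < 4) : opp τ i ∈ tris K := by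
  obtain ⟨h1, h2⟩ := Finset.mem_filter.1 hτ
  refine Finset.mem_filter.2 ⟨h.down τ h1 _ (Finset.erase_subset _ _), ?_⟩
  rw [opp, Finset.card_erase_of_mem (sort_getD_mem h2 hi), h2]

theorem opp_ne' {K : Finset (Finset ℕ)} {τ : Finset ℕ} (hτ : τ ∈ tets K)
    {i j : ℕ} (hi : i < 4) (hj : j < 4) (hij : i ≠ j) : opp τ i ≠ opp τ j := by
  obtain ⟨h1, h2⟩ := Finset.mem_filter.1 hτ
  have hli : i < (τ.sort (· ≤ ·)).length := by rw [Finset.length_sort, h2]; exact hi
  have hlj : j < (τ.sort (· ≤ ·)).length := by rw [Finset.length_sort, h2]; exact hj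
  intro he
  have hne : (τ.sort (· ≤ ·)).getD i 0 ≠ (τ.sort (· ≤ ·)).getD j 0 := by
    rw [List.getD_eq_getElem _ _ hli, List.getD_eq_getElem _ _ hlj]
    intro h
    exact hij ((List.Nodup.getElem_inj_iff (Finset.sort_nodup τ (· ≤ ·))).1 h)
  have : (τ.sort (· ≤ ·)).getD j 0 ∈ opp τ i :=
    Finset.mem_erase.2 ⟨hne.symm, sort_getD_mem h2 hj⟩
  rw [he] at this
  exact (Finset.mem_erase.1 this).1 rfl

theorem relTm_tet {τ : Finset ℕ} (h : τ.card = 4) : relTm τ =
    .sub (.add (.base (opp τ 0)) (.base (opp τ 2))) (.add (.base (opp τ 1)) (.base (opp τ 3))) := by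
  rw [relTm, if_neg (by omega)]

theorem relTm_tri {τ : Finset ℕ} (h : τ.card = 3) : relTm τ = .base τ := by
  rw [relTm, if_pos h]

theorem pur_relTm (τ : Finset ℕ) : pur (relTm τ) := by
  rw [relTm]; split_ifs <;> simp [pur]

theorem relV_zero {K A : Finset (Finset ℕ)} (h : KData K A) {τ : Finset ℕ}
    (hτ : τ ∈ relI K A) {t : Finset ℕ} (ht : t ∉ tris K) : (relTm τ).eval t = 0 := by
  rcases Finset.mem_union.1 hτ with hτ | hτ
  · obtain ⟨h1, h2⟩ := Finset.mem_filter.1 hτ
    rw [relTm_tri h2, Tm.eval, Pi.single_apply, if_neg]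
    rintro rfl
    exact ht (Finset.mem_filter.2 ⟨h.sub h1, h2⟩)
  · have hc := (Finset.mem_filter.1 hτ).2
    have key : ∀ i < 4, (Pi.single (opp τ i) 1 : Finset ℕ → ℤ) t = 0 := by
      intro i hi
      rw [Pi.single_apply, if_neg]
      rintro rfl
      exact ht (opp_mem' h hτ hi)
    rw [relTm_tet hc]
    simp only [Tm.eval, Pi.sub_apply, Pi.add_apply]
    rw [key 0 (by norm_num), key 1 (by norm_num), key 2 (by norm_num), key 3 (by norm_num)]
    simp

theorem xn_inj {σ τ : Finset ℕ} (h : xn σ = xn τ) : σ = τ := by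
  simp only [xn, Prod.mk.injEq, Tm.fr.injEq, and_true] at h
  exact Encodable.encode_injective (by omega)

theorem yn_inj {σ τ : Finset ℕ} (h : yn σ = yn τ) : σ = τ := by
  simp only [yn, Prod.mk.injEq, Tm.fr.injEq, and_true] at h
  exact Encodable.encode_injective (by omega)

theorem xn_ne_yn (σ τ : Finset ℕ) : xn σ ≠ yn τ := by
  intro h
  simp only [xn, yn, Prod.mk.injEq, Tm.fr.injEq, and_true] at h
  omega

/-! ### the presentation -/

/-- the private names of the tetrahedra in `S` -/
def privN (S : Finset (Finset ℕ)) : Finset Nm := S.image xn ∪ S.image yn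

/-- the cells of a tetrahedron -/
def clu (τ : Finset ℕ) : Multiset (Cell Nm) :=
  {add (bn (opp τ 0)) (bn (opp τ 2)) (xn τ),
      add (bn (opp τ 1)) (bn (opp τ 3)) (yn τ), eq (xn τ) (yn τ)}

theorem privN_pur (S : Finset (Finset ℕ)) : ∀ x ∈ privN S, ¬ pur x.1 := by
  intro x hx
  rcases Finset.mem_union.1 hx with hx | hx
  · obtain ⟨τ, _, rfl⟩ := Finset.mem_image.1 hx
    exact fun h => h
  · obtain ⟨τ, _, rfl⟩ := Finset.mem_image.1 hx
    exact fun h => h

theorem privN_insert {τ : Finset ℕ} {S : Finset (Finset ℕ)} :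
    privN (insert τ S) = insert (xn τ) (insert (yn τ) (privN S)) := by
  ext z
  simp only [privN, Finset.image_insert, Finset.mem_union, Finset.mem_insert]
  tauto

theorem xn_notMem_privN {τ : Finset ℕ} {S : Finset (Finset ℕ)} (h : τ ∉ S) :
    xn τ ∉ privN S := by
  intro hx
  rcases Finset.mem_union.1 hx with hx | hx
  · obtain ⟨σ, hσ, e⟩ := Finset.mem_image.1 hx
    exact h (xn_inj e ▸ hσ)
  · obtain ⟨σ, hσ, e⟩ := Finset.mem_image.1 hx
    exact xn_ne_yn _ _ e.symm

theorem yn_notMem_privN {τ : Finset ℕ} {S : Finset (Finset ℕ)} (h : τ ∉ S) :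
    yn τ ∉ privN S := by
  intro hx
  rcases Finset.mem_union.1 hx with hx | hx
  · obtain ⟨σ, hσ, e⟩ := Finset.mem_image.1 hx
    exact xn_ne_yn _ _ e
  · obtain ⟨σ, hσ, e⟩ := Finset.mem_image.1 hx
    exact h (yn_inj e ▸ hσ)

/-- the intermediate cells -/
def midG (A S U : Finset (Finset ℕ)) : Multiset (Cell Nm) :=
  ∑ t ∈ A, {cap (bn t)} + ∑ τ ∈ S, {cap (relTm τ, 0)} + ∑ τ ∈ U, clu τ

theorem midG_WF {K A : Finset (Finset ℕ)} (h : KData K A) {F : Finset Tm}
    (hT : leaves (tris K) ⊆ F) (hR : ∀ τ ∈ tets K, relTm τ ∈ F) {S U : Finset (Finset ℕ)}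
    (hS : S ⊆ tets K) (hU : U ⊆ tets K) :
    ∀ x ∈ midG (tris A) S U, x.WF (NA (privN U) F) := by
  have hb : ∀ t ∈ tris K, bn t ∈ NA (privN U) F := fun t ht =>
    mem_NA (hT (Finset.mem_image_of_mem _ ht)) (mem_names _)
  intro x hx
  rcases Multiset.mem_add.1 hx with hx | hx
  · rcases Multiset.mem_add.1 hx with hx | hx
    · obtain ⟨t, ht, hx⟩ := Multiset.mem_sum.1 hx
      rw [Multiset.mem_singleton] at hx
      subst hx
      obtain ⟨h1, h2⟩ := Finset.mem_filter.1 ht
      exact hb t (Finset.mem_filter.2 ⟨h.sub h1, h2⟩)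
    · obtain ⟨t, ht, hx⟩ := Multiset.mem_sum.1 hx
      rw [Multiset.mem_singleton] at hx
      subst hx
      exact mem_NA (hR _ (hS ht)) (mem_names _)
  · obtain ⟨τ, ht, hx⟩ := Multiset.mem_sum.1 hx
    have hτ := hU ht
    have hxn : xn τ ∈ NA (privN U) F :=
      Finset.mem_union_left _ (Finset.mem_union_left _ (Finset.mem_image_of_mem _ ht))
    have hyn : yn τ ∈ NA (privN U) F :=
      Finset.mem_union_left _ (Finset.mem_union_right _ (Finset.mem_image_of_mem _ ht))
    have hbi : ∀ {s t : Finset ℕ}, s ≠ t → bn s ≠ bn t := fun hst e => hst (by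
      simpa [bn] using e)
    simp only [clu, Multiset.insert_eq_cons, Multiset.mem_cons, Multiset.mem_singleton] at hx
    rcases hx with rfl | rfl | rfl
    · exact ⟨hb _ (opp_mem' h hτ (by norm_num)), hb _ (opp_mem' h hτ (by norm_num)), hxn,
        hbi (opp_ne' hτ (by norm_num) (by norm_num) (by norm_num)), by simp [bn, xn],
        by simp [bn, xn]⟩
    · exact ⟨hb _ (opp_mem' h hτ (by norm_num)), hb _ (opp_mem' h hτ (by norm_num)), hyn,
        hbi (opp_ne' hτ (by norm_num) (by norm_num) (by norm_num)), by simp [bn, yn],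
        by simp [bn, yn]⟩
    · exact ⟨hxn, hyn, xn_ne_yn _ _⟩

theorem midG_step (A S U : Finset (Finset ℕ)) {τ : Finset ℕ} (hS : τ ∉ S) (hU : τ ∉ U) :
    midG A S (insert τ U) = add (bn (opp τ 0)) (bn (opp τ 2)) (xn τ) ::ₘ
      add (bn (opp τ 1)) (bn (opp τ 3)) (yn τ) ::ₘ eq (xn τ) (yn τ) ::ₘ midG A S U ∧
    midG A (insert τ S) U = cap (relTm τ, 0) ::ₘ midG A S U := by
  constructor
  · simp only [midG, Finset.sum_insert hU, clu, Multiset.insert_eq_cons,
      ← Multiset.singleton_add]
    abel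
  · simp only [midG, Finset.sum_insert hS, ← Multiset.singleton_add]
    abel

theorem mid_reduce {K A : Finset (Finset ℕ)} (h : KData K A) (C : Calculus Nm) {F : Finset Tm}
    (hF : Cl F) (pF : ∀ s ∈ F, pur s)
    (hT : leaves (tris K) ⊆ F) (hR : ∀ τ ∈ tets K, relTm τ ∈ F) (S : Finset (Finset ℕ)) :
    S ⊆ tets K → C.R (Sta (tris K) (privN (tets K)) F (midG (tris A) ∅ (tets K)))
      (Sta (tris K) (privN (tets K \ S)) F (midG (tris A) S (tets K \ S))) := by
  induction S using Finset.induction_on with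
  | empty => intro _; rw [Finset.sdiff_empty]; exact C.refl _
  | insert τ S hτ ih =>
    intro hS
    have hS' : S ⊆ tets K := fun x hx => hS (Finset.mem_insert_of_mem hx)
    have hτK : τ ∈ tets K := hS (Finset.mem_insert_self _ _)
    refine C.trans (ih hS') ?_
    set U := tets K \ insert τ S with hUd
    have hU : tets K \ S = insert τ U := by
      ext z
      simp only [hUd, Finset.mem_sdiff, Finset.mem_insert]
      constructor
      · rintro ⟨h1, h2⟩
        by_cases hz : z = τ
        · exact Or.inl hz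
        · exact Or.inr ⟨h1, fun h => h.elim hz h2⟩
      · rintro (rfl | ⟨h1, h2⟩)
        · exact ⟨hτK, hτ⟩
        · exact ⟨h1, fun h => h2 (Or.inr h)⟩
    have hτU : τ ∉ U := by simp [hUd]
    have hUK : U ⊆ tets K := Finset.sdiff_subset
    rw [hU, privN_insert, (midG_step (tris A) S U hτ hτU).1, (midG_step (tris A) S U hτ hτU).2]
    have hc : τ.card = 4 := (Finset.mem_filter.1 hτK).2
    have := cluster (C := C) (T := tris K) (privN_pur U) hF pF hT
      (midG_WF h hT hR hS' hUK) (a := opp τ 0) (b := opp τ 2) (c := opp τ 1) (d := opp τ 3)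
      (opp_ne' hτK (by norm_num) (by norm_num) (by norm_num))
      (opp_ne' hτK (by norm_num) (by norm_num) (by norm_num))
      (by rw [← relTm_tet hc]; exact hR τ hτK) (x := xn τ) (y := yn τ)
      (fun h => h) (fun h => h) (xn_ne_yn _ _) (xn_notMem_privN hτU) (yn_notMem_privN hτU)
    rw [← relTm_tet hc] at this
    exact this

theorem sum_single (S : Finset (Finset ℕ)) (f : Finset ℕ → Cell Nm) :
    ∑ t ∈ S, ({f t} : Multiset (Cell Nm)) = S.val.map f := by
  rw [Finset.sum, ← Multiset.sum_map_singleton (S.val.map f), Multiset.map_map]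
  rfl

theorem PKc_eq (K A : Finset (Finset ℕ)) :
    PKc K A = Sta (tris K) (privN (tets K)) (leaves (tris K)) (midG (tris A) ∅ (tets K)) := by
  have hD : ∀ x ∈ leaves (tris K), DT (tris K) x = 0 := by
    intro x hx
    obtain ⟨t, ht, rfl⟩ := Finset.mem_image.1 hx
    simp only [DT, if_pos ht]
  simp only [PKc, Sta, Ctx.mk.injEq]
  constructor
  · ext z
    simp only [PKN, NA, privN, leaves, Finset.mem_union, Finset.mem_image,
      Finset.mem_biUnion]
    constructor
    · rintro ((⟨t, ht, rfl⟩ | h) | h)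
      · exact Or.inr ⟨Tm.base t, ⟨t, ht, rfl⟩, mem_names _⟩
      · exact Or.inl (Or.inl h)
      · exact Or.inl (Or.inr h)
    · rintro ((h | h) | ⟨s, ⟨t, ht, rfl⟩, hz⟩)
      · exact Or.inl (Or.inr h)
      · exact Or.inr h
      · refine Or.inl (Or.inl ⟨t, ht, ?_⟩)
        simp only [Tm.names, Finset.mem_singleton] at hz
        rw [hz]; rfl
  · rw [Finset.sum_eq_zero hD, add_zero, midG, Finset.sum_empty, add_zero, ← sum_single,
      ← sum_single, ← sum_single, ← sum_single, add_assoc, add_assoc,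
      ← Finset.sum_add_distrib, ← Finset.sum_add_distrib]
    congr 1

theorem PKc_trivial (C : Calculus Nm) {K A : Finset (Finset ℕ)} (h : KData K A)
    (hc : (relI K A).card = (tris K).card)
    (hspan : Submodule.span ℤ (Set.range fun (i : relI K A) =>
      (fun t : tris K => relV i.1 t.1)) = ⊤) : C.R (PKc K A) ⟨∅, 0⟩ := by
  obtain ⟨F, hF, pF, hs⟩ := exists_cl (leaves (tris K) ∪ (tets K).image relTm)
    (pur_union (by
      intro s hs
      obtain ⟨t, _, rfl⟩ := Finset.mem_image.1 hs
      trivial) (by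
      intro s hs
      obtain ⟨t, _, rfl⟩ := Finset.mem_image.1 hs
      exact pur_relTm t))
  have hT : leaves (tris K) ⊆ F := Finset.subset_union_left.trans hs
  have hR : ∀ τ ∈ tets K, relTm τ ∈ F := fun τ hτ =>
    hs (Finset.mem_union_right _ (Finset.mem_image_of_mem _ hτ))
  have e1 := Sta_expand (C := C) (T := tris K) (privN_pur (tets K)) (leaves_cl (tris K)) hF pF
    hT (Finset.Subset.refl _) (Γ := midG (tris A) ∅ (tets K)) (by
      -- well formedness over the leaves
      have hb : ∀ t ∈ tris K, bn t ∈ NA (privN (tets K)) (leaves (tris K)) := fun t ht =>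
        mem_NA (Finset.mem_image_of_mem _ ht) (mem_names _)
      intro x hx
      rw [midG, Finset.sum_empty, add_zero] at hx
      rcases Multiset.mem_add.1 hx with hx | hx
      · obtain ⟨t, ht, hx⟩ := Multiset.mem_sum.1 hx
        rw [Multiset.mem_singleton] at hx
        subst hx
        obtain ⟨h1, h2⟩ := Finset.mem_filter.1 ht
        exact hb t (Finset.mem_filter.2 ⟨h.sub h1, h2⟩)
      · obtain ⟨τ, ht, hx⟩ := Multiset.mem_sum.1 hx
        have hxn : xn τ ∈ NA (privN (tets K)) (leaves (tris K)) :=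
          Finset.mem_union_left _ (Finset.mem_union_left _ (Finset.mem_image_of_mem _ ht))
        have hyn : yn τ ∈ NA (privN (tets K)) (leaves (tris K)) :=
          Finset.mem_union_left _ (Finset.mem_union_right _ (Finset.mem_image_of_mem _ ht))
        have hbi : ∀ {s t : Finset ℕ}, s ≠ t → bn s ≠ bn t := fun hst e => hst (by
          simpa [bn] using e)
        simp only [clu, Multiset.insert_eq_cons, Multiset.mem_cons,
          Multiset.mem_singleton] at hx
        rcases hx with rfl | rfl | rfl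
        · exact ⟨hb _ (opp_mem' h ht (by norm_num)), hb _ (opp_mem' h ht (by norm_num)), hxn,
            hbi (opp_ne' ht (by norm_num) (by norm_num) (by norm_num)), by simp [bn, xn],
            by simp [bn, xn]⟩
        · exact ⟨hb _ (opp_mem' h ht (by norm_num)), hb _ (opp_mem' h ht (by norm_num)), hyn,
            hbi (opp_ne' ht (by norm_num) (by norm_num) (by norm_num)), by simp [bn, yn],
            by simp [bn, yn]⟩
        · exact ⟨hxn, hyn, xn_ne_yn _ _⟩)
  have e2 := mid_reduce h C hF pF hT hR (tets K) (Finset.Subset.refl _)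
  rw [Finset.sdiff_self] at e2
  rw [PKc_eq]
  refine C.trans e1 (C.trans e2 ?_)
  -- the unimodular family
  classical
  let ev : relI K A ≃ tris K := Fintype.equivOfCardEq (by simpa using hc)
  let e : relI K A → Finset ℕ := fun i => (ev i).1
  have he : Function.Injective e := fun i j hij => ev.injective (Subtype.ext hij)
  have himg : Finset.univ.image e = tris K := by
    ext t
    simp only [Finset.mem_image, Finset.mem_univ, true_and]
    constructor
    · rintro ⟨i, rfl⟩; exact (ev i).2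
    · intro ht; exact ⟨ev.symm ⟨t, ht⟩, by simp [e]⟩
  have hrange : ∀ t, t ∉ Set.range e → t ∉ tris K := by
    intro t ht ht'
    exact ht ⟨ev.symm ⟨t, ht'⟩, by simp [e]⟩
  let M : relI K A → relI K A → ℤ := fun i j => (relTm i.1).eval (e j)
  have hM : Submodule.span ℤ (Set.range M) = ⊤ := by
    let L : (tris K → ℤ) ≃ₗ[ℤ] (relI K A → ℤ) := LinearEquiv.funCongrLeft ℤ ℤ ev
    have : Set.range M = L '' (Set.range fun (i : relI K A) =>
        (fun t : tris K => relV i.1 t.1)) := by
      rw [← Set.range_comp]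
      rfl
    rw [this, ← LinearEquiv.coe_coe, ← Submodule.map_span, hspan, Submodule.map_top,
      LinearEquiv.range]
  have key := unimodular (C := C) e he M hM (fun i => relTm i.1) (fun i => pur_relTm _)
    (fun i => evalF_eq_vecF e he _ (fun t ht => relV_zero h i.2 (hrange t ht))) (F := F) hF pF
    (by rw [himg]; exact hT) (by
      intro i
      rcases Finset.mem_union.1 i.2 with hi | hi
      · obtain ⟨h1, h2⟩ := Finset.mem_filter.1 hi
        rw [relTm_tri h2]
        exact hT (Finset.mem_image_of_mem _ (Finset.mem_filter.2 ⟨h.sub h1, h2⟩))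
      · exact hR _ hi)
  rw [himg] at key
  have hcaps : midG (tris A) (tets K) ∅ = caps (fun i : relI K A => relTm i.1) := by
    rw [midG, Finset.sum_empty, add_zero, caps]
    rw [Finset.sum_coe_sort (relI K A) (fun τ => ({cap (relTm τ, 0)} : Multiset (Cell Nm)))]
    rw [relI, Finset.sum_union]
    · congr 1
      refine Finset.sum_congr rfl fun t ht => ?_
      rw [relTm_tri (Finset.mem_filter.1 ht).2]; rfl
    · rw [Finset.disjoint_left]
      intro t h1 h2
      have := (Finset.mem_filter.1 h1).2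
      have := (Finset.mem_filter.1 h2).2
      omega
  have hp : privN ∅ = ∅ := by simp [privN]
  rw [hcaps, hp]
  exact key

end Pool.Agent.DF302A.PI.Calc

namespace Pool.Agent.DF302A.PI

/-- the pure presentation state is simple homotopy equivalent to a point -/
theorem pure_final {K A : Finset (Finset ℕ)} (h : KData K A)
    (hc : (relI K A).card = (tris K).card)
    (hspan : Submodule.span ℤ (Set.range fun (i : relI K A) =>
      (fun t : tris K => relV i.1 t.1)) = ⊤) : Sim (PK K A).Z (pt Vx.w) :=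
  pure_final_of h (Calc.PKc_trivial model h hc hspan)

end Pool.Agent.DF302A.PI
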