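import Pool.Agent.Work.MP_df302a_co.I7K
import Pool.Agent.Work.MP_df302a_co.I6E

/-! # MP_df302a_co, part (I), module I7: the final theorem of part (I). -/

set_option autoImplicit false

namespace Pool.Agent.DF302A.PI

open Finset

/-- PART (I): a 3-complex with a collapsible 2-dimensional subcomplex containing all edges and
with unimodular relations is equivalent to a point -/
theorem partI {K A : Finset (Finset ℕ)} (h : KData K A) (hc : (relI K A).card = (tris K).card)
    (hspan : Submodule.span ℤ (Set.range fun (i : relI K A) =>
      (fun t : tris K => relV i.1 t.1)) = ⊤) : Sim (KV K) (pt Vx.w) :=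
  (sim_K h).trans (pure_final h hc hspan)

end Pool.Agent.DF302A.PI
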