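import Pool.Agent.Work.MP_df302a_co.I7G

/-! # MP_df302a_co, part (I), module I7A: from a complex to the environment. -/

set_option autoImplicit false
set_option linter.unusedSectionVars false

namespace Pool.Agent.DF302A.PI

open Finset

variable {V : Type*} [DecidableEq V]

theorem erase_eq_iff {w : V} {s σ : Finset V} (hw : w ∉ s) :
    σ.erase w = s ↔ σ = s ∨ σ = insert w s := by
  constructor
  · rintro rfl
    by_cases h : w ∈ σ
    · exact Or.inr (Finset.insert_erase h).symm
    · exact Or.inl (Finset.erase_eq_of_notMem h).symm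
  · rintro (rfl | rfl)
    · exact Finset.erase_eq_of_notMem hw
    · exact Finset.erase_insert hw

/-- adding all pairs `s`, `w + s`, `s ∈ P` -/
theorem sim_pairs {Z : Set (Finset V)} {w : V} (hZ : IsCx Z) (hf : Z.Finite)
    (hc : ∀ σ ∈ Z, σ.card ≤ 4) (P : Finset (Finset V))
    (hP : ∀ s ∈ P, s.Nonempty ∧ s.card ≤ 3 ∧ w ∉ s ∧ s ∉ Z)
    (hy : ∀ s ∈ P, ∀ y ∈ s, insert w (s.erase y) ∈ Z ∨ s.erase y ∈ P) :
    Adm (Z ∪ {σ | σ.erase w ∈ P}) ∧ Sim Z (Z ∪ {σ | σ.erase w ∈ P}) := by
  induction hn : P.card using Nat.strong_induction_on generalizing P with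
  | _ n ih =>
    rcases P.eq_empty_or_nonempty with rfl | hne
    · have e : (Z ∪ {σ | σ.erase w ∈ (∅ : Finset (Finset V))}) = Z := by simp
      rw [e]
      exact ⟨⟨hZ, hf, fun σ hσ => (hc σ hσ).trans (by norm_num), w, fun σ hσ h5 => by
        have := hc σ hσ
        omega⟩, Sim.refl _⟩
    · obtain ⟨s, hs, hmax⟩ := P.exists_max_image Finset.card hne
      obtain ⟨a1, a2, a3, a4⟩ := hP s hs
      have hsm : ∀ r ∈ P, ∀ y ∈ r, r.erase y ∈ P → r.erase y ∈ P.erase s := by
        intro r hr y hyr h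
        refine Finset.mem_erase.2 ⟨fun e => ?_, h⟩
        have h1 := hmax r hr
        have h2 := Finset.card_erase_of_mem hyr
        have h3 : 0 < r.card := Finset.card_pos.2 ⟨y, hyr⟩
        rw [← e, h2] at h1
        omega
      obtain ⟨b1, b2⟩ := ih (P.erase s).card (by rw [← hn]; exact Finset.card_erase_lt_of_mem hs)
        (P.erase s) (fun r hr => hP r (Finset.mem_of_mem_erase hr))
        (fun r hr y hyr => (hy r (Finset.mem_of_mem_erase hr) y hyr).imp id
          (hsm r (Finset.mem_of_mem_erase hr) y hyr)) rfl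
      set Z' := Z ∪ {σ | σ.erase w ∈ P.erase s} with hZ'
      have he : Z ∪ {σ | σ.erase w ∈ P} = insert s (insert (insert w s) Z') := by
        ext σ
        have h1 := erase_eq_iff (σ := σ) a3
        simp only [hZ', Set.mem_union, Set.mem_ofPred_eq, Set.mem_insert_iff, Finset.mem_erase]
        by_cases e : σ.erase w = s
        · rw [e]
          have := h1.1 e
          tauto
        · have h2 : ¬ (σ = s ∨ σ = insert w s) := fun h => e (h1.2 h)
          tauto
      have hex : Expn Z' (Z ∪ {σ | σ.erase w ∈ P}) s w := by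
        refine ⟨b1.1, a3, a1, ?_, fun y hys => ?_, he⟩
        · rintro (h | h)
          · exact a4 h
          · have h' : s.erase w ∈ P.erase s := h
            rw [Finset.erase_eq_of_notMem a3] at h'
            exact Finset.notMem_erase _ _ h'
        · rcases hy s hs y hys with h | h
          · exact Or.inl h
          · right
            show (insert w (s.erase y)).erase w ∈ P.erase s
            rw [Finset.erase_insert fun h => a3 (Finset.mem_of_mem_erase h)]
            exact hsm s hs y hys h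
      have hadm : Adm (Z ∪ {σ | σ.erase w ∈ P}) := by
        have h4 : ∀ σ ∈ Z ∪ {σ | σ.erase w ∈ P}, σ.card ≤ 4 := by
          rintro σ (h | h)
          · exact hc σ h
          · have h1 := (hP _ h).2.1
            have h2 := card_le_erase σ w
            omega
        refine ⟨hex.isCx, ?_, fun σ hσ => (h4 σ hσ).trans (by norm_num), w, fun σ hσ h5 => ?_⟩
        · rw [he]
          exact (b1.2.1.insert _).insert _
        · have := h4 σ hσ
          omega
      exact ⟨hadm, b2.trans (Sim.exp hex hadm)⟩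

/-- from a complex with a collapsible subcomplex `A` to the environment -/
theorem stageA {K A : Finset (Finset V)} {w : V} (hK : IsCx (↑K : Set (Finset V)))
    (hc : ∀ σ ∈ K, σ.card ≤ 4) (hAK : A ⊆ K) (hE : ∀ σ ∈ K, σ.card ≤ 2 → σ ∈ A)
    (hA3 : ∀ σ ∈ A, σ.card ≤ 3) (hw : ∀ σ ∈ K, w ∉ σ) {p : V}
    (hcoll : Inn (↑A : Set (Finset V)) (pt p) (↑A : Set (Finset V))) :
    Sim (↑K : Set (Finset V)) (Env w (K.biUnion id) ((K.filter fun s => s.card = 3) \ A) ∪
      (↑(K.filter fun s => s.card = 4) : Set (Finset V))) := by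
  have hA : IsCx (↑A : Set (Finset V)) := hcoll.isCx_iff.1 (isCx_pt p)
  have hAK' : (↑A : Set (Finset V)) ⊆ ↑K := by exact_mod_cast hAK
  have hpA : pt p ⊆ (↑A : Set (Finset V)) := (hcoll.subset_iff hA).2 (Set.Subset.refl _)
  have hZ : Z3 w (↑K : Set (Finset V)) :=
    ⟨hK, K.finite_toSet, fun σ hσ => hc σ (by exact_mod_cast hσ),
      fun σ hσ => hw σ (by exact_mod_cast hσ)⟩
  have s1 : Sim (↑K : Set (Finset V)) (↑K ∪ coneV w ↑A) :=
    sim_coneAdd hZ (hAK' (hpA (by simp [pt]))) (hcoll.mono hAK')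
  set P : Finset (Finset V) := (K.biUnion id).powerset.filter fun s => s.card ≤ 3 ∧ s ∉ K with hP
  have memP : ∀ s, s ∈ P ↔ s ⊆ K.biUnion id ∧ s.card ≤ 3 ∧ s ∉ K := by
    intro s
    simp [hP]
  have subX : ∀ σ ∈ K, σ ⊆ K.biUnion id := fun σ hσ => Finset.subset_biUnion_of_mem id hσ
  have hwX : w ∉ K.biUnion id := by
    intro h
    obtain ⟨σ, hσ, h⟩ := Finset.mem_biUnion.1 h
    exact hw σ hσ h
  have hZ2 : IsCx (↑K ∪ coneV w ↑A : Set (Finset V)) := isCx_coneV hK hA hAK'
  have s2 := (sim_pairs (w := w) hZ2 (adm_coneV hZ hA hAK').2.1 (fun σ hσ => ?_) P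
    (fun s hs => ?_) (fun s hs y hy => ?_)).2
  rotate_left
  · rcases hσ with h | ⟨h1, h2⟩
    · exact hc σ (by exact_mod_cast h)
    · have h3 := hA3 _ (by exact_mod_cast h2)
      have h4 := card_le_erase σ w
      omega
  · obtain ⟨h1, h2, h3⟩ := (memP s).1 hs
    refine ⟨?_, h2, fun h => hwX (h1 h), ?_⟩
    · rw [Finset.nonempty_iff_ne_empty]
      rintro rfl
      exact h3 (by exact_mod_cast hK.1)
    · rintro (h | h)
      · exact h3 (by exact_mod_cast h)
      · exact hwX (h1 h.1)
  · obtain ⟨h1, h2, h3⟩ := (memP s).1 hs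
    by_cases hK' : s.erase y ∈ K
    · left; right
      have h4 : w ∉ s.erase y := hw _ hK'
      refine ⟨Finset.mem_insert_self _ _, ?_⟩
      rw [Finset.erase_insert h4]
      have := hE _ hK' (by rw [Finset.card_erase_of_mem hy]; omega)
      exact_mod_cast this
    · right
      exact (memP _).2 ⟨(Finset.erase_subset _ _).trans h1,
        (Finset.card_le_card (Finset.erase_subset _ _)).trans h2, hK'⟩
  have e : (↑K ∪ coneV w ↑A : Set (Finset V)) ∪ {σ | σ.erase w ∈ P} =
      Env w (K.biUnion id) ((K.filter fun s => s.card = 3) \ A) ∪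
      (↑(K.filter fun s => s.card = 4) : Set (Finset V)) := by
    ext σ
    constructor
    · rintro ((h | ⟨h1, h2⟩) | h)
      · have h' : σ ∈ K := by exact_mod_cast h
        have hwσ := hw σ h'
        by_cases h4 : σ.card = 4
        · right
          simp [h', h4]
        · left
          have := hc σ h'
          refine ⟨?_, ?_, fun hh => absurd hh hwσ⟩
          · rw [Finset.erase_eq_of_notMem hwσ]
            exact subX σ h'
          · rw [Finset.erase_eq_of_notMem hwσ]
            omega
      · have h' : σ.erase w ∈ A := by exact_mod_cast h2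
        left
        refine ⟨subX _ (hAK h'), hA3 _ h', fun _ hh => ?_⟩
        exact (Finset.mem_sdiff.1 hh).2 h'
      · obtain ⟨h1, h2, h3⟩ := (memP _).1 h
        left
        refine ⟨h1, h2, fun _ hh => h3 ?_⟩
        exact (Finset.mem_filter.1 (Finset.mem_sdiff.1 hh).1).1
    · rintro (⟨h1, h2, h3⟩ | h)
      · by_cases hσ : σ.erase w ∈ K
        · by_cases hwσ : w ∈ σ
          · left; right
            refine ⟨hwσ, ?_⟩
            by_cases h5 : σ.erase w ∈ A
            · exact_mod_cast h5
            · exfalso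
              have h6 : ¬ (σ.erase w).card ≤ 2 := fun h => h5 (hE _ hσ h)
              exact h3 hwσ (Finset.mem_sdiff.2 ⟨Finset.mem_filter.2 ⟨hσ, by omega⟩, h5⟩)
          · left; left
            rw [Finset.erase_eq_of_notMem hwσ] at hσ
            exact_mod_cast hσ
        · right
          exact (memP _).2 ⟨h1, h2, hσ⟩
      · left; left
        have := (Finset.mem_filter.1 (by exact_mod_cast h : σ ∈ K.filter fun s => s.card = 4)).1
        exact_mod_cast this
  rw [e] at s2
  exact s1.trans s2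

/-- facets of a simplex -/
def facets (τ : Finset V) : Finset (Finset V) := τ.image fun y => τ.erase y

theorem cl_facets {τ : Finset V} : cl (facets τ) = {σ | σ ⊂ τ} := by
  ext σ
  constructor
  · rintro ⟨s, hs, h⟩
    obtain ⟨y, hy, rfl⟩ := Finset.mem_image.1 hs
    exact lt_of_le_of_lt h (Finset.erase_ssubset hy)
  · intro h
    obtain ⟨y, hy, hyσ⟩ := Finset.exists_of_ssubset h
    refine ⟨τ.erase y, Finset.mem_image_of_mem _ hy, fun z hz => ?_⟩
    exact Finset.mem_erase.2 ⟨fun e => hyσ (e ▸ hz), h.1 hz⟩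

variable {w : V} {X : Finset V} {Mk : Finset (Finset V)} {C : Finset (V × Finset (Finset V))}

/-- a cell may be added to a well formed state -/
theorem WF.addCell (h : WF w X Mk C) {u : V} (hu : Fresh w X C u) {S : Finset (Finset V)}
    (hS : S.Nonempty) (hSX : ∀ t ∈ S, t ⊆ X ∧ t.card = 3) : WF w X Mk (insert (u, S) C) := by
  refine ⟨h.hw, h.mrk, fun c hc => ?_, fun c hc c' hc' e => ?_, fun c hc => ?_⟩
  · rcases Finset.mem_insert.1 hc with rfl | hc
    · exact ⟨hu.hX, hu.hw⟩
    · exact h.tag c hc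
  · rcases Finset.mem_insert.1 hc with rfl | hc <;> rcases Finset.mem_insert.1 hc' with rfl | hc'
    · rfl
    · exact absurd e.symm (hu.hC c' hc')
    · exact absurd e (hu.hC c hc)
    · exact h.inj c hc c' hc' e
  · rcases Finset.mem_insert.1 hc with rfl | hc
    · exact ⟨hS, hSX⟩
    · exact h.tri c hc

/-- tetrahedra are replaced by cells -/
theorem stageB (h : WF w X Mk C) (T : Finset (Finset V)) (hT : ∀ τ ∈ T, τ ⊆ X ∧ τ.card = 4)
    (tg : Finset V → V) (htg : ∀ τ ∈ T, Fresh w X C (tg τ))
    (hinj : ∀ τ ∈ T, ∀ τ' ∈ T, tg τ = tg τ' → τ = τ') :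
    WF w X Mk (C ∪ T.image fun τ => (tg τ, facets τ)) ∧
    Sim (ZZ w X Mk C ∪ (↑T : Set (Finset V)))
      (ZZ w X Mk (C ∪ T.image fun τ => (tg τ, facets τ))) := by
  have key : ∀ D : Finset (Finset V), D ⊆ T →
      WF w X Mk (C ∪ D.image fun τ => (tg τ, facets τ)) ∧
      Sim (ZZ w X Mk C ∪ (↑T : Set (Finset V)))
        (ZZ w X Mk (C ∪ D.image fun τ => (tg τ, facets τ)) ∪ (↑(T \ D) : Set (Finset V))) := by
    intro D
    induction D using Finset.induction_on with
    | empty =>
      intro _
      simp only [Finset.image_empty, Finset.union_empty, Finset.sdiff_empty]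
      exact ⟨h, Sim.refl _⟩
    | insert τ D hτ ih =>
      intro hD
      obtain ⟨h1, h2⟩ := ih ((Finset.subset_insert _ _).trans hD)
      have hτT : τ ∈ T := hD (Finset.mem_insert_self _ _)
      obtain ⟨hτX, hτ4⟩ := hT τ hτT
      have hf := htg τ hτT
      have hfr : Fresh w X (C ∪ D.image fun τ => (tg τ, facets τ)) (tg τ) := by
        refine ⟨hf.hX, hf.hw, fun c hc => ?_⟩
        rcases Finset.mem_union.1 hc with hc | hc
        · exact hf.hC c hc
        · obtain ⟨σ, hσ, rfl⟩ := Finset.mem_image.1 hc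
          exact fun e => hτ (hinj σ (hD (Finset.mem_insert_of_mem hσ)) τ hτT e ▸ hσ)
      have hfacX : ∀ t ∈ facets τ, t ⊆ X ∧ t.card = 3 := by
        intro t ht
        obtain ⟨y, hy, rfl⟩ := Finset.mem_image.1 ht
        refine ⟨(Finset.erase_subset _ _).trans hτX, ?_⟩
        rw [Finset.card_erase_of_mem hy]
        omega
      have hne : (facets τ).Nonempty := by
        have : τ.Nonempty := by
          rw [← Finset.card_pos]
          omega
        exact this.image _
      have e3 : (C ∪ (insert τ D).image fun τ => (tg τ, facets τ)) =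
          insert (tg τ, facets τ) (C ∪ D.image fun τ => (tg τ, facets τ)) := by
        rw [Finset.image_insert, Finset.union_insert]
      rw [e3]
      refine ⟨h1.addCell hfr hne hfacX, h2.trans ?_⟩
      set C' := C ∪ D.image fun τ => (tg τ, facets τ) with hC'
      set R := T \ insert τ D with hR
      have hZ3 := z3_ZZ h1 hfr
      have hbd : ∀ σ ∈ T, ∀ ρ, ρ ⊂ σ → ρ ∈ ZZ w X Mk C' := by
        intro σ hσ ρ hρ
        refine mem_ZZ_of_sub h.hw (hρ.1.trans (hT σ hσ).1) ?_
        have := Finset.card_lt_card hρ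
        rw [(hT σ hσ).2] at this
        omega
      have hRT : ∀ σ ∈ R, σ ∈ T := fun σ hσ => (Finset.mem_sdiff.1 hσ).1
      have hZ3' : Z3 (tg τ) (ZZ w X Mk C' ∪ (↑R : Set (Finset V))) := by
        refine ⟨⟨Or.inl hZ3.cx.1, ?_⟩, hZ3.fin.union R.finite_toSet, ?_, ?_⟩
        · rintro σ (hσ | hσ) ρ hρ
          · exact Or.inl (hZ3.cx.2 σ hσ ρ hρ)
          · rcases eq_or_ssubset_of_subset hρ with rfl | hρ
            · exact Or.inr hσ
            · exact Or.inl (hbd σ (hRT σ (by exact_mod_cast hσ)) ρ hρ)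
        · rintro σ (hσ | hσ)
          · exact hZ3.card σ hσ
          · exact (hT σ (hRT σ (by exact_mod_cast hσ))).2.le
        · rintro σ (hσ | hσ)
          · exact hZ3.fresh σ hσ
          · exact fun hh => hf.hX ((hT σ (hRT σ (by exact_mod_cast hσ))).1 hh)
      have hwτ : w ∉ τ := fun hh => h.hw (hτX hh)
      have hτZ : τ ∉ ZZ w X Mk C' ∪ (↑R : Set (Finset V)) := by
        rintro ((⟨a1, a2, a3⟩ | ⟨c, hc, a1, a2⟩) | a)
        · rw [Finset.erase_eq_of_notMem hwτ] at a2
          omega
        · exact (h1.tag c hc).1 (hτX a1)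
        · have a' : τ ∈ R := by exact_mod_cast a
          exact (Finset.mem_sdiff.1 a').2 (Finset.mem_insert_self _ _)
      have key := sim_tet hZ3' hτZ hτ4 (fun σ hσ => Or.inl (hbd τ hτT σ hσ))
        (fun hh => hf.hX (hτX hh))
      have e4 : ZZ w X Mk C' ∪ (↑(T \ D) : Set (Finset V)) =
          insert τ (ZZ w X Mk C' ∪ (↑R : Set (Finset V))) := by
        ext σ
        simp only [hR, Finset.coe_sdiff, Finset.coe_insert, Set.mem_union, Set.mem_insert_iff,
          Set.mem_sdiff, Finset.mem_coe, not_or]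
        by_cases e : σ = τ
        · subst e
          simp [hτ, hτT]
        · simp [e]
      have e5 : ZZ w X Mk (insert (tg τ, facets τ) C') ∪ (↑R : Set (Finset V)) =
          (ZZ w X Mk C' ∪ (↑R : Set (Finset V))) ∪ coneV (tg τ) {σ | σ ⊂ τ} := by
        rw [ZZ_insert, cl_facets, Set.union_right_comm]
      rw [e4, e5]
      exact key
  obtain ⟨h1, h2⟩ := key T (Finset.Subset.refl _)
  rw [Finset.sdiff_self, Finset.coe_empty, Set.union_empty] at h2
  exact ⟨h1, h2⟩

end Pool.Agent.DF302A.PI
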