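import Pool.Agent.Work.MP_df302a_co.I7D
import Pool.Agent.Work.MP_df302a_co.I7A

/-! # MP_df302a_co, part (I), module I7B: vertices and triples of a complex. -/

set_option autoImplicit false
set_option linter.unusedSectionVars false

namespace Pool.Agent.DF302A.PI

open Finset

section General
variable {V W : Type*} [DecidableEq V] [DecidableEq W]

theorem expn_image {f : V → W} (hf : Function.Injective f) {L L' : Set (Finset V)} {F : Finset V}
    {x : V} (h : Expn L L' F x) : Expn (Finset.image f '' L) (Finset.image f '' L') (F.image f)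
      (f x) := by
  have hF : Function.Injective (Finset.image f) := Finset.image_injective hf
  obtain ⟨hcx, hx, hne, hF', hy, rfl⟩ := h
  refine ⟨⟨⟨∅, hcx.1, by simp⟩, ?_⟩, ?_, hne.image _, ?_, ?_, ?_⟩
  · rintro _ ⟨σ, hσ, rfl⟩ τ hτ
    obtain ⟨ρ, hρ, rfl⟩ := Finset.subset_image_iff.1 hτ
    exact ⟨ρ, hcx.2 σ hσ ρ (by exact_mod_cast hρ), rfl⟩
  · intro h
    obtain ⟨y, hy', e⟩ := Finset.mem_image.1 h
    exact hx (hf e ▸ hy')
  · rintro ⟨σ, hσ, e⟩
    exact hF' (hF e ▸ hσ)
  · intro y hy'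
    obtain ⟨z, hz, rfl⟩ := Finset.mem_image.1 hy'
    refine ⟨_, hy z hz, ?_⟩
    rw [Finset.image_insert, Finset.image_erase hf]
  · rw [Set.image_insert_eq, Set.image_insert_eq, Finset.image_insert]

theorem inn_image {f : V → W} (hf : Function.Injective f) {Z L L' : Set (Finset V)}
    (h : Inn Z L L') : Inn (Finset.image f '' Z) (Finset.image f '' L) (Finset.image f '' L') := by
  induction h with
  | exp h hZ =>
    refine Inn.exp (expn_image hf h) ⟨_, hZ, ?_⟩
    rw [Finset.image_insert]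
  | refl L => exact Inn.refl _
  | symm _ ih => exact ih.symm
  | trans _ _ ih1 ih2 => exact ih1.trans ih2

theorem image_pt {f : V → W} (p : V) : Finset.image f '' (pt p) = pt (f p) := by
  rw [pt, pt, Set.image_insert_eq, Set.image_singleton]
  simp

variable {w : V} {X : Finset V} {Mk : Finset (Finset V)} {C : Finset (V × Finset (Finset V))}

theorem WF.addMarks (h : WF w X Mk C) {M : Finset (Finset V)}
    (hM : ∀ t ∈ M, t ⊆ X ∧ t.card = 3) : WF w X (Mk ∪ M) C :=
  ⟨h.hw, fun t ht => (Finset.mem_union.1 ht).elim (h.mrk t) (hM t), h.tag, h.inj, h.tri⟩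

theorem WF.addCells {ι : Type*} [DecidableEq ι] (h : WF w X Mk C) (D : Finset ι) {u : ι → V}
    {S : ι → Finset (Finset V)} (hu : ∀ i ∈ D, ∀ i' ∈ D, u i = u i' → i = i')
    (hf : ∀ i ∈ D, Fresh w X C (u i)) (hne : ∀ i ∈ D, (S i).Nonempty)
    (hS : ∀ i ∈ D, ∀ t ∈ S i, t ⊆ X ∧ t.card = 3) :
    WF w X Mk (C ∪ D.image fun i => (u i, S i)) := by
  induction D using Finset.induction_on with
  | empty =>
    rw [Finset.image_empty, Finset.union_empty]
    exact h
  | insert i D hi ih =>
    have hs : ∀ {j}, j ∈ D → j ∈ insert i D := fun hj => Finset.mem_insert_of_mem hj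
    have h1 := ih (fun i hi i' hi' => hu i (hs hi) i' (hs hi')) (fun i hi => hf i (hs hi))
      (fun i hi => hne i (hs hi)) (fun i hi => hS i (hs hi))
    have hii := Finset.mem_insert_self i D
    rw [Finset.image_insert, Finset.union_insert]
    refine h1.addCell ⟨(hf i hii).hX, (hf i hii).hw, fun c hc => ?_⟩ (hne i hii) (hS i hii)
    rcases Finset.mem_union.1 hc with hc | hc
    · exact (hf i hii).hC c hc
    · obtain ⟨j, hj, rfl⟩ := Finset.mem_image.1 hc
      exact fun e => hi (hu j (hs hj) i hii e ▸ hj)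

end General

namespace S7

/-! ### vertices of simplices of `K` -/

/-- a simplex with vertices in `Vx` -/
def kt (t : Finset ℕ) : Finset Vx := t.image Vx.k

theorem k_inj : Function.Injective Vx.k := fun a b h => by simpa using h

theorem kt_inj : Function.Injective kt := Finset.image_injective k_inj

theorem kt_card (t : Finset ℕ) : (kt t).card = t.card := Finset.card_image_of_injective _ k_inj

theorem mem_kt {t : Finset ℕ} {v : Vx} : v ∈ kt t ↔ ∃ j ∈ t, Vx.k j = v := by
  simp [kt]

/-- the vertices of a triangle, in increasing order -/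
noncomputable def tv (t : Finset ℕ) : Fin 3 → Vx :=
  if h : t.card = 3 then fun i => Vx.k (t.orderEmbOfFin h i) else fun _ => Vx.w

/-- the vertices of a tetrahedron, in increasing order -/
noncomputable def pv (t : Finset ℕ) : Fin 4 → Vx :=
  if h : t.card = 4 then fun i => Vx.k (t.orderEmbOfFin h i) else fun _ => Vx.w

theorem tv_eq {t : Finset ℕ} (h : t.card = 3) (i : Fin 3) :
    tv t i = Vx.k (t.orderEmbOfFin h i) := by
  simp [tv, h]

theorem pv_eq {t : Finset ℕ} (h : t.card = 4) (i : Fin 4) :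
    pv t i = Vx.k (t.orderEmbOfFin h i) := by
  simp [pv, h]

theorem tv_inj {t : Finset ℕ} (h : t.card = 3) : Function.Injective (tv t) := by
  intro i j e
  rw [tv_eq h, tv_eq h] at e
  exact (t.orderEmbOfFin h).injective (k_inj e)

theorem pv_inj {t : Finset ℕ} (h : t.card = 4) : Function.Injective (pv t) := by
  intro i j e
  rw [pv_eq h, pv_eq h] at e
  exact (t.orderEmbOfFin h).injective (k_inj e)

theorem mem_orderEmb {n : ℕ} {t : Finset ℕ} (h : t.card = n) {j : ℕ} :
    j ∈ t ↔ ∃ i, t.orderEmbOfFin h i = j := by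
  have := Finset.range_orderEmbOfFin t h
  rw [← Finset.mem_coe, ← this]
  rfl

theorem rg_tv {t : Finset ℕ} (h : t.card = 3) : rg (tv t) = kt t := by
  ext v
  rw [mem_rg, mem_kt]
  constructor
  · rintro ⟨i, rfl⟩
    exact ⟨_, Finset.orderEmbOfFin_mem t h i, (tv_eq h i).symm⟩
  · rintro ⟨j, hj, rfl⟩
    obtain ⟨i, rfl⟩ := (mem_orderEmb h).1 hj
    exact ⟨i, tv_eq h i⟩

theorem tv_mem {t : Finset ℕ} (h : t.card = 3) (i : Fin 3) : tv t i ∈ kt t := by
  rw [← rg_tv h]
  exact mem_rg.2 ⟨i, rfl⟩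

theorem pv_mem {t : Finset ℕ} (h : t.card = 4) (i : Fin 4) : pv t i ∈ kt t := by
  rw [pv_eq h]
  exact mem_kt.2 ⟨_, Finset.orderEmbOfFin_mem t h i, rfl⟩

theorem mem_kt_pv {t : Finset ℕ} (h : t.card = 4) {v : Vx} : v ∈ kt t ↔ ∃ i, pv t i = v := by
  rw [mem_kt]
  constructor
  · rintro ⟨j, hj, rfl⟩
    obtain ⟨i, rfl⟩ := (mem_orderEmb h).1 hj
    exact ⟨i, pv_eq h i⟩
  · rintro ⟨i, rfl⟩
    exact ⟨_, Finset.orderEmbOfFin_mem t h i, (pv_eq h i).symm⟩

theorem tv_k {t : Finset ℕ} (h : t.card = 3) (i : Fin 3) : ∃ j ∈ t, tv t i = Vx.k j :=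
  ⟨_, Finset.orderEmbOfFin_mem t h i, tv_eq h i⟩

theorem pv_k {t : Finset ℕ} (h : t.card = 4) (i : Fin 4) : ∃ j ∈ t, pv t i = Vx.k j :=
  ⟨_, Finset.orderEmbOfFin_mem t h i, pv_eq h i⟩

theorem opp_eq {τ : Finset ℕ} (h : τ.card = 4) (i : Fin 4) :
    opp τ i = τ.erase (τ.orderEmbOfFin h i) := by
  rw [opp, Finset.orderEmbOfFin_apply]
  congr 1
  rw [List.getD_eq_getElem]
  rfl

theorem opp_card {τ : Finset ℕ} (h : τ.card = 4) (i : Fin 4) : (opp τ i).card = 3 := by
  rw [opp_eq h, Finset.card_erase_of_mem (Finset.orderEmbOfFin_mem τ h i), h]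

theorem opp_sub (τ : Finset ℕ) (i : ℕ) : opp τ i ⊆ τ := Finset.erase_subset _ _

theorem tv_opp {τ : Finset ℕ} (h : τ.card = 4) (i : Fin 4) :
    tv (opp τ i) = fun j => pv τ (Fin.succAbove i j) := by
  have h3 := opp_card h i
  have key : (fun j => τ.orderEmbOfFin h (Fin.succAbove i j)) = (opp τ i).orderEmbOfFin h3 := by
    refine Finset.orderEmbOfFin_unique h3 (fun j => ?_) ?_
    · rw [opp_eq h]
      refine Finset.mem_erase.2 ⟨fun e => ?_, Finset.orderEmbOfFin_mem τ h _⟩
      exact Fin.succAbove_ne i j ((τ.orderEmbOfFin h).injective e)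
    · intro a b hab
      exact (τ.orderEmbOfFin h).strictMono (Fin.strictMono_succAbove i hab)
  funext j
  rw [tv_eq h3, pv_eq h, ← key]

theorem opp_ne {τ : Finset ℕ} (h : τ.card = 4) {i j : Fin 4} (hij : i ≠ j) :
    opp τ i ≠ opp τ j := by
  intro e
  rw [opp_eq h, opp_eq h] at e
  have h1 : τ.orderEmbOfFin h j ∈ τ.erase (τ.orderEmbOfFin h i) :=
    Finset.mem_erase.2 ⟨fun e => hij ((τ.orderEmbOfFin h).injective e).symm,
      Finset.orderEmbOfFin_mem τ h j⟩
  rw [e] at h1
  exact Finset.notMem_erase _ _ h1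

/-- the facets of a tetrahedron -/
theorem facets_kt {τ : Finset ℕ} (h : τ.card = 4) : facets (kt τ) = mkS (tetL (pv τ)) := by
  have hi := pv_inj h
  have e : kt τ = {pv τ 0, pv τ 1, pv τ 2, pv τ 3} := by
    ext v
    rw [mem_kt_pv h]
    simp only [Fin.exists_fin_succ, Fin.exists_fin_zero, Finset.mem_insert, Finset.mem_singleton]
    constructor
    · rintro (h | h | h | h | h)
      · exact Or.inl h.symm
      · exact Or.inr (Or.inl h.symm)
      · exact Or.inr (Or.inr (Or.inl h.symm))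
      · exact Or.inr (Or.inr (Or.inr h.symm))
      · exact h.elim
    · rintro (h | h | h | h)
      · exact Or.inl h.symm
      · exact Or.inr (Or.inl h.symm)
      · exact Or.inr (Or.inr (Or.inl h.symm))
      · exact Or.inr (Or.inr (Or.inr (Or.inl h.symm)))
  have n01 : pv τ 0 ≠ pv τ 1 := hi.ne (by decide)
  have n02 : pv τ 0 ≠ pv τ 2 := hi.ne (by decide)
  have n03 : pv τ 0 ≠ pv τ 3 := hi.ne (by decide)
  have n12 : pv τ 1 ≠ pv τ 2 := hi.ne (by decide)
  have n13 : pv τ 1 ≠ pv τ 3 := hi.ne (by decide)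
  have n23 : pv τ 2 ≠ pv τ 3 := hi.ne (by decide)
  have e0 : (kt τ).erase (pv τ 0) = {pv τ 1, pv τ 2, pv τ 3} := by
    rw [e]
    ext x
    simp only [Finset.mem_erase, Finset.mem_insert, Finset.mem_singleton]
    constructor
    · rintro ⟨h1, h2⟩
      tauto
    · rintro (rfl | rfl | rfl)
      · exact ⟨n01.symm, by tauto⟩
      · exact ⟨n02.symm, by tauto⟩
      · exact ⟨n03.symm, by tauto⟩
  have e1 : (kt τ).erase (pv τ 1) = {pv τ 0, pv τ 2, pv τ 3} := by
    rw [e]
    ext x
    simp only [Finset.mem_erase, Finset.mem_insert, Finset.mem_singleton]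
    constructor
    · rintro ⟨h1, h2⟩
      tauto
    · rintro (rfl | rfl | rfl)
      · exact ⟨n01, by tauto⟩
      · exact ⟨n12.symm, by tauto⟩
      · exact ⟨n13.symm, by tauto⟩
  have e2 : (kt τ).erase (pv τ 2) = {pv τ 0, pv τ 1, pv τ 3} := by
    rw [e]
    ext x
    simp only [Finset.mem_erase, Finset.mem_insert, Finset.mem_singleton]
    constructor
    · rintro ⟨h1, h2⟩
      tauto
    · rintro (rfl | rfl | rfl)
      · exact ⟨n02, by tauto⟩
      · exact ⟨n12, by tauto⟩
      · exact ⟨n23.symm, by tauto⟩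
  have e3 : (kt τ).erase (pv τ 3) = {pv τ 0, pv τ 1, pv τ 2} := by
    rw [e]
    ext x
    simp only [Finset.mem_erase, Finset.mem_insert, Finset.mem_singleton]
    constructor
    · rintro ⟨h1, h2⟩
      tauto
    · rintro (rfl | rfl | rfl)
      · exact ⟨n03, by tauto⟩
      · exact ⟨n13, by tauto⟩
      · exact ⟨n23, by tauto⟩
  have hf : facets (kt τ) = {(kt τ).erase (pv τ 0), (kt τ).erase (pv τ 1),
      (kt τ).erase (pv τ 2), (kt τ).erase (pv τ 3)} := by
    rw [facets]
    conv_lhs => arg 2; rw [e]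
    simp only [Finset.image_insert, Finset.image_singleton]
  rw [hf, e0, e1, e2, e3]
  ext s
  simp only [mkS, tetL, List.map_cons, List.map_nil, List.toFinset_cons, List.toFinset_nil,
    Finset.mem_insert, Finset.mem_singleton, insert_empty_eq]
  tauto

theorem rg3 {V : Type*} [DecidableEq V] (y : Fin 3 → V) : rg y = {y 0, y 1, y 2} := by
  ext x
  rw [mem_rg]
  simp only [Fin.exists_fin_succ, Fin.exists_fin_zero, Finset.mem_insert, Finset.mem_singleton]
  constructor
  · rintro (h | h | h | h)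
    · exact Or.inl h.symm
    · exact Or.inr (Or.inl h.symm)
    · exact Or.inr (Or.inr h.symm)
    · exact h.elim
  · rintro (h | h | h)
    · exact Or.inl h.symm
    · exact Or.inr (Or.inl h.symm)
    · exact Or.inr (Or.inr (Or.inl h.symm))

/-- the cap cell of `sim_cap` is the standard one -/
theorem cap_eq {V : Type*} [DecidableEq V] {z : V} {a : Fin 3 → V} (ha : Function.Injective a) :
    insert (rg a) ((rg a).image fun y => insert z ((rg a).erase y)) = mkS (capL z a) := by
  have n01 : a 0 ≠ a 1 := ha.ne (by decide)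
  have n02 : a 0 ≠ a 2 := ha.ne (by decide)
  have n12 : a 1 ≠ a 2 := ha.ne (by decide)
  have e := rg3 a
  have e0 : (rg a).erase (a 0) = {a 1, a 2} := by
    rw [e]
    ext x
    simp only [Finset.mem_erase, Finset.mem_insert, Finset.mem_singleton]
    constructor
    · rintro ⟨h1, h2⟩
      tauto
    · rintro (rfl | rfl)
      · exact ⟨n01.symm, by tauto⟩
      · exact ⟨n02.symm, by tauto⟩
  have e1 : (rg a).erase (a 1) = {a 0, a 2} := by
    rw [e]
    ext x
    simp only [Finset.mem_erase, Finset.mem_insert, Finset.mem_singleton]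
    constructor
    · rintro ⟨h1, h2⟩
      tauto
    · rintro (rfl | rfl)
      · exact ⟨n01, by tauto⟩
      · exact ⟨n12.symm, by tauto⟩
  have e2 : (rg a).erase (a 2) = {a 0, a 1} := by
    rw [e]
    ext x
    simp only [Finset.mem_erase, Finset.mem_insert, Finset.mem_singleton]
    constructor
    · rintro ⟨h1, h2⟩
      tauto
    · rintro (rfl | rfl)
      · exact ⟨n02, by tauto⟩
      · exact ⟨n12, by tauto⟩
  have hf : ((rg a).image fun y => insert z ((rg a).erase y)) =
      {insert z ((rg a).erase (a 0)), insert z ((rg a).erase (a 1)),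
        insert z ((rg a).erase (a 2))} := by
    conv_lhs => arg 2; rw [e]
    simp only [Finset.image_insert, Finset.image_singleton]
  rw [hf, e0, e1, e2, e]
  ext s
  simp only [mkS, capL, List.map_cons, List.map_nil, List.toFinset_cons, List.toFinset_nil,
    Finset.mem_insert, Finset.mem_singleton, insert_empty_eq]
  tauto

/-! ### the triangles of the standard spheres -/

section Tri
variable {V : Type*} [DecidableEq V]

theorem mem_mkS3 {L : List (List V)} {t : Finset V} : t ∈ mkS L ↔ ∃ l ∈ L, l.toFinset = t := by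
  simp [mkS]

theorem tri_of {L : List (List V)} {X : Finset V}
    (h : ∀ l ∈ L, ∃ x y z, l = [x, y, z] ∧ x ∈ X ∧ y ∈ X ∧ z ∈ X ∧ x ≠ y ∧ x ≠ z ∧ y ≠ z) :
    ∀ t ∈ mkS L, t ⊆ X ∧ t.card = 3 := by
  intro t ht
  obtain ⟨l, hl, rfl⟩ := mem_mkS3.1 ht
  obtain ⟨x, y, z, rfl, h1, h2, h3, h4, h5, h6⟩ := h l hl
  constructor
  · intro v hv
    simp only [List.mem_toFinset, List.mem_cons, List.not_mem_nil, or_false] at hv
    rcases hv with rfl | rfl | rfl <;> assumption
  · rw [List.toFinset_card_of_nodup]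
    · rfl
    · simp [h4, h5, h6]

theorem tri_cap {z : V} {a : Fin 3 → V} {X : Finset V} (ha : Function.Injective a)
    (hz : ∀ i, a i ≠ z) (hzX : z ∈ X) (haX : ∀ i, a i ∈ X) :
    ∀ t ∈ mkS (capL z a), t ⊆ X ∧ t.card = 3 := by
  have i01 : a 0 ≠ a 1 := ha.ne (by decide)
  have i02 : a 0 ≠ a 2 := ha.ne (by decide)
  have i12 : a 1 ≠ a 2 := ha.ne (by decide)
  have z0 := (hz 0).symm
  have z1 := (hz 1).symm
  have z2 := (hz 2).symm
  refine tri_of fun l hl => ?_
  simp only [capL, List.mem_cons, List.not_mem_nil, or_false] at hl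
  rcases hl with rfl | rfl | rfl | rfl <;>
    exact ⟨_, _, _, rfl, by first | exact hzX | exact haX _, by first | exact hzX | exact haX _,
      by first | exact hzX | exact haX _, by assumption, by assumption, by assumption⟩

theorem tri_eq {a b : Fin 3 → V} {X : Finset V} (ha : Function.Injective a)
    (hb : Function.Injective b) (hab : ∀ i j, a i ≠ b j) (haX : ∀ i, a i ∈ X)
    (hbX : ∀ i, b i ∈ X) : ∀ t ∈ mkS (eqL a b), t ⊆ X ∧ t.card = 3 := by
  have ia : ∀ i j, i ≠ j → a i ≠ a j := fun i j h => ha.ne h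
  have ib : ∀ i j, i ≠ j → b i ≠ b j := fun i j h => hb.ne h
  refine tri_of fun l hl => ?_
  simp only [eqL, List.mem_cons, List.not_mem_nil, or_false] at hl
  rcases hl with rfl | rfl | rfl | rfl | rfl | rfl | rfl | rfl <;>
    exact ⟨_, _, _, rfl, by first | exact haX _ | exact hbX _, by first | exact haX _ | exact hbX _,
      by first | exact haX _ | exact hbX _,
      by first | exact ia _ _ (by decide) | exact ib _ _ (by decide) | exact hab _ _ |
        exact (hab _ _).symm,
      by first | exact ia _ _ (by decide) | exact ib _ _ (by decide) | exact hab _ _ |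
        exact (hab _ _).symm,
      by first | exact ia _ _ (by decide) | exact ib _ _ (by decide) | exact hab _ _ |
        exact (hab _ _).symm⟩

theorem tri_add {a b c : Fin 3 → V} {X : Finset V} (ha : Function.Injective a)
    (hb : Function.Injective b) (hc : Function.Injective c) (hab : ∀ i j, a i ≠ b j)
    (hac : ∀ i j, a i ≠ c j) (hbc : ∀ i j, b i ≠ c j) (haX : ∀ i, a i ∈ X)
    (hbX : ∀ i, b i ∈ X) (hcX : ∀ i, c i ∈ X) :
    ∀ t ∈ mkS (addL a b c), t ⊆ X ∧ t.card = 3 := by
  have ia : ∀ i j, i ≠ j → a i ≠ a j := fun i j h => ha.ne h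
  have ib : ∀ i j, i ≠ j → b i ≠ b j := fun i j h => hb.ne h
  have ic : ∀ i j, i ≠ j → c i ≠ c j := fun i j h => hc.ne h
  refine tri_of fun l hl => ?_
  simp only [addL, List.mem_cons, List.not_mem_nil, or_false] at hl
  rcases hl with rfl | rfl | rfl | rfl | rfl | rfl | rfl | rfl | rfl | rfl | rfl | rfl | rfl | rfl <;>
    exact ⟨_, _, _, rfl, by first | exact haX _ | exact hbX _ | exact hcX _,
      by first | exact haX _ | exact hbX _ | exact hcX _,
      by first | exact haX _ | exact hbX _ | exact hcX _,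
      by first | exact ia _ _ (by decide) | exact ib _ _ (by decide) | exact ic _ _ (by decide) |
        exact hab _ _ | exact (hab _ _).symm | exact hac _ _ | exact (hac _ _).symm |
        exact hbc _ _ | exact (hbc _ _).symm,
      by first | exact ia _ _ (by decide) | exact ib _ _ (by decide) | exact ic _ _ (by decide) |
        exact hab _ _ | exact (hab _ _).symm | exact hac _ _ | exact (hac _ _).symm |
        exact hbc _ _ | exact (hbc _ _).symm,
      by first | exact ia _ _ (by decide) | exact ib _ _ (by decide) | exact ic _ _ (by decide) |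
        exact hab _ _ | exact (hab _ _).symm | exact hac _ _ | exact (hac _ _).symm |
        exact hbc _ _ | exact (hbc _ _).symm⟩

theorem mkS_ne {L : List (List V)} (h : L ≠ []) : (mkS L).Nonempty := by
  obtain ⟨l, hl⟩ := List.exists_mem_of_ne_nil L h
  exact ⟨_, mem_mkS3.2 ⟨l, hl, rfl⟩⟩

theorem rg_mem_mkS {a : Fin 3 → V} {L : List (List V)} (h : [a 0, a 1, a 2] ∈ L) :
    rg a ∈ mkS L := by
  refine mem_mkS3.2 ⟨_, h, ?_⟩
  rw [rg3]
  simp

theorem nodup6 {a b : Fin 3 → V} (ha : Function.Injective a) (hb : Function.Injective b)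
    (hab : ∀ i j, a i ≠ b j) : [a 0, a 1, a 2, b 0, b 1, b 2].Nodup := by
  have ia : ∀ i j, i ≠ j → a i ≠ a j := fun i j h => ha.ne h
  have ib : ∀ i j, i ≠ j → b i ≠ b j := fun i j h => hb.ne h
  simp only [List.nodup_cons, List.mem_cons, List.not_mem_nil, or_false, not_or,
    not_false_eq_true, List.nodup_nil, and_true]
  refine ⟨⟨ia 0 1 (by decide), ia 0 2 (by decide), hab _ _, hab _ _, hab _ _⟩,
    ⟨ia 1 2 (by decide), hab _ _, hab _ _, hab _ _⟩, ⟨hab _ _, hab _ _, hab _ _⟩,
    ⟨ib 0 1 (by decide), ib 0 2 (by decide)⟩, ib 1 2 (by decide)⟩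

theorem nodup9 {a b c : Fin 3 → V} (ha : Function.Injective a) (hb : Function.Injective b)
    (hc : Function.Injective c) (hab : ∀ i j, a i ≠ b j) (hac : ∀ i j, a i ≠ c j)
    (hbc : ∀ i j, b i ≠ c j) : [a 0, a 1, a 2, b 0, b 1, b 2, c 0, c 1, c 2].Nodup := by
  have ia : ∀ i j, i ≠ j → a i ≠ a j := fun i j h => ha.ne h
  have ib : ∀ i j, i ≠ j → b i ≠ b j := fun i j h => hb.ne h
  have ic : ∀ i j, i ≠ j → c i ≠ c j := fun i j h => hc.ne h
  simp only [List.nodup_cons, List.mem_cons, List.not_mem_nil, or_false, not_or,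
    not_false_eq_true, List.nodup_nil, and_true]
  refine ⟨⟨ia 0 1 (by decide), ia 0 2 (by decide), hab _ _, hab _ _, hab _ _, hac _ _, hac _ _,
      hac _ _⟩,
    ⟨ia 1 2 (by decide), hab _ _, hab _ _, hab _ _, hac _ _, hac _ _, hac _ _⟩,
    ⟨hab _ _, hab _ _, hab _ _, hac _ _, hac _ _, hac _ _⟩,
    ⟨ib 0 1 (by decide), ib 0 2 (by decide), hbc _ _, hbc _ _, hbc _ _⟩,
    ⟨ib 1 2 (by decide), hbc _ _, hbc _ _, hbc _ _⟩, ⟨hbc _ _, hbc _ _, hbc _ _⟩,
    ⟨ic 0 1 (by decide), ic 0 2 (by decide)⟩, ic 1 2 (by decide)⟩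

end Tri

end S7

end Pool.Agent.DF302A.PI
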