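import Pool.Agent.Work.MP_df302a_co.I7B

/-! # MP_df302a_co, part (I), module I7C: the states between `K` and the pure state. -/

set_option autoImplicit false
set_option linter.unusedSectionVars false

namespace Pool.Agent.DF302A.PI

open Finset

namespace S7

variable {K A : Finset (Finset ℕ)}

/-! ### basic facts -/

theorem mem_tris {K : Finset (Finset ℕ)} {t : Finset ℕ} : t ∈ tris K ↔ t ∈ K ∧ t.card = 3 := by
  simp [tris]

theorem mem_tets {K : Finset (Finset ℕ)} {t : Finset ℕ} : t ∈ tets K ↔ t ∈ K ∧ t.card = 4 := by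
  simp [tets]

theorem triA (h : KData K A) {t : Finset ℕ} (ht : t ∈ tris A) : t ∈ tris K :=
  mem_tris.2 ⟨h.sub (mem_tris.1 ht).1, (mem_tris.1 ht).2⟩

theorem oppK (h : KData K A) {τ : Finset ℕ} (ht : τ ∈ tets K) (i : Fin 4) :
    opp τ i ∈ tris K :=
  mem_tris.2 ⟨h.down τ (mem_tets.1 ht).1 _ (opp_sub _ _), opp_card (mem_tets.1 ht).2 i⟩

/-- vertices of `K` -/
def XK (K : Finset (Finset ℕ)) : Finset Vx := (K.image kt).biUnion id
/-- vertices of the names of triangles -/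
def XB (K : Finset (Finset ℕ)) : Finset Vx := (tris K).biUnion fun t => rg (nv (bn t))
/-- vertices of the first auxiliary names -/
def XX (K : Finset (Finset ℕ)) : Finset Vx := (tets K).biUnion fun t => rg (nv (xn t))
/-- vertices of the second auxiliary names -/
def XY (K : Finset (Finset ℕ)) : Finset Vx := (tets K).biUnion fun t => rg (nv (yn t))

/-- marks -/
def MT (K : Finset (Finset ℕ)) : Finset (Finset Vx) := (tris K).image kt
/-- marks -/
def MB (K : Finset (Finset ℕ)) : Finset (Finset Vx) := (tris K).image fun t => rg (nv (bn t))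
/-- marks -/
def MX (K : Finset (Finset ℕ)) : Finset (Finset Vx) := (tets K).image fun t => rg (nv (xn t))
/-- marks -/
def MY (K : Finset (Finset ℕ)) : Finset (Finset Vx) := (tets K).image fun t => rg (nv (yn t))

/-- cells of tetrahedra -/
noncomputable def cT (K : Finset (Finset ℕ)) : Finset (Vx × Finset (Finset Vx)) :=
  (tets K).image fun τ => (Vx.e τ, mkS (tetL (pv τ)))
/-- caps on the triangles of `A` -/
noncomputable def cC (A : Finset (Finset ℕ)) : Finset (Vx × Finset (Finset Vx)) :=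
  (tris A).image fun t => (Vx.e t, mkS (capL Vx.z (tv t)))
/-- triangle = name -/
noncomputable def cE (K : Finset (Finset ℕ)) : Finset (Vx × Finset (Finset Vx)) :=
  (tris K).image fun t => (Vx.d (bn t), mkS (eqL (tv t) (nv (bn t))))
/-- name = triangle -/
noncomputable def cE' (K : Finset (Finset ℕ)) : Finset (Vx × Finset (Finset Vx)) :=
  (tris K).image fun t => (Vx.d (bn t), mkS (eqL (nv (bn t)) (tv t)))
/-- caps on the names of the triangles of `A` -/
def cC' (A : Finset (Finset ℕ)) : Finset (Vx × Finset (Finset Vx)) :=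
  (tris A).image fun t => (Vx.e t, mkS (capL Vx.z (nv (bn t))))
/-- definition of the first auxiliary names -/
def cX (K : Finset (Finset ℕ)) : Finset (Vx × Finset (Finset Vx)) :=
  (tets K).image fun τ =>
    (Vx.d (xn τ), mkS (addL (nv (bn (opp τ 0))) (nv (bn (opp τ 2))) (nv (xn τ))))
/-- definition of the second auxiliary names -/
def cY (K : Finset (Finset ℕ)) : Finset (Vx × Finset (Finset Vx)) :=
  (tets K).image fun τ =>
    (Vx.d (yn τ), mkS (addL (nv (bn (opp τ 1))) (nv (bn (opp τ 3))) (nv (yn τ))))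
/-- relations -/
def cT' (K : Finset (Finset ℕ)) : Finset (Vx × Finset (Finset Vx)) :=
  (tets K).image fun τ => (Vx.e τ, mkS (eqL (nv (xn τ)) (nv (yn τ))))

theorem mem_XK {v : Vx} : v ∈ XK K ↔ ∃ σ ∈ K, v ∈ kt σ := by
  simp [XK]

theorem kt_sub {σ : Finset ℕ} (h : σ ∈ K) : kt σ ⊆ XK K := fun _ hv => mem_XK.2 ⟨σ, h, hv⟩

theorem XK_k {v : Vx} (h : v ∈ XK K) : ∃ j, v = Vx.k j := by
  obtain ⟨σ, _, hv⟩ := mem_XK.1 h
  obtain ⟨j, _, e⟩ := mem_kt.1 hv
  exact ⟨j, e.symm⟩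

theorem nvj_inj (a : Nm) : Function.Injective (nv a) := fun i j h => by
  simpa [nv] using h

theorem nvj_ne {a b : Nm} (h : a ≠ b) (i j : Fin 3) : nv a i ≠ nv b j := fun e => by
  simp only [nv, Vx.n.injEq] at e
  exact h e.1

theorem bn_inj {s t : Finset ℕ} (h : bn s = bn t) : s = t := by
  simpa [bn] using h

theorem xn_inj {s t : Finset ℕ} (h : xn s = xn t) : s = t := by
  simp only [xn, Prod.mk.injEq, Tm.fr.injEq, and_true] at h
  exact Encodable.encode_injective (by omega)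

theorem yn_inj {s t : Finset ℕ} (h : yn s = yn t) : s = t := by
  simp only [yn, Prod.mk.injEq, Tm.fr.injEq, and_true] at h
  exact Encodable.encode_injective (by omega)

theorem bn_xn {s t : Finset ℕ} : bn s ≠ xn t := by
  simp [bn, xn]

theorem bn_yn {s t : Finset ℕ} : bn s ≠ yn t := by
  simp [bn, yn]

theorem xn_yn {s t : Finset ℕ} : xn s ≠ yn t := by
  intro h
  simp only [xn, yn, Prod.mk.injEq, Tm.fr.injEq, and_true] at h
  omega

theorem mem_XB {v : Vx} : v ∈ XB K ↔ ∃ t ∈ tris K, ∃ i, nv (bn t) i = v := by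
  simp [XB, mem_rg]

theorem mem_XX {v : Vx} : v ∈ XX K ↔ ∃ t ∈ tets K, ∃ i, nv (xn t) i = v := by
  simp [XX, mem_rg]

theorem mem_XY {v : Vx} : v ∈ XY K ↔ ∃ t ∈ tets K, ∃ i, nv (yn t) i = v := by
  simp [XY, mem_rg]

/-- all vertices of the mixed states -/
def X4 (K : Finset (Finset ℕ)) : Finset Vx := ((insert Vx.z (XK K) ∪ XB K) ∪ XX K) ∪ XY K

theorem mem_X4 {v : Vx} : v ∈ X4 K ↔ v = Vx.z ∨ v ∈ XK K ∨ v ∈ XB K ∨ v ∈ XX K ∨ v ∈ XY K := by
  simp only [X4, Finset.mem_union, Finset.mem_insert]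
  tauto

/-- not a tag and not `w` -/
theorem X4_nt {v : Vx} (h : v ∈ X4 K) : ¬ v.isTag ∧ v ≠ Vx.w := by
  rcases mem_X4.1 h with rfl | h | h | h | h
  · simp [Vx.isTag]
  · obtain ⟨j, rfl⟩ := XK_k h
    simp [Vx.isTag]
  · obtain ⟨t, _, i, rfl⟩ := mem_XB.1 h
    simp [Vx.isTag, nv]
  · obtain ⟨t, _, i, rfl⟩ := mem_XX.1 h
    simp [Vx.isTag, nv]
  · obtain ⟨t, _, i, rfl⟩ := mem_XY.1 h
    simp [Vx.isTag, nv]

theorem fresh_tag {X : Finset Vx} (hX : X ⊆ X4 K) {C : Finset (Vx × Finset (Finset Vx))} {u : Vx}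
    (hu : u.isTag) (hC : ∀ c ∈ C, c.1 ≠ u) : Fresh Vx.w X C u :=
  ⟨fun h => (X4_nt (hX h)).1 hu, fun h => by rw [h] at hu; exact hu, hC⟩

theorem tag_e (t : Finset ℕ) : (Vx.e t).isTag := trivial
theorem tag_d (a : Nm) : (Vx.d a).isTag := trivial

theorem cT_tag {c : Vx × Finset (Finset Vx)} (h : c ∈ cT K) : ∃ τ ∈ tets K, c.1 = Vx.e τ := by
  obtain ⟨τ, hτ, rfl⟩ := Finset.mem_image.1 h
  exact ⟨τ, hτ, rfl⟩
theorem cC_tag {c : Vx × Finset (Finset Vx)} (h : c ∈ cC A) : ∃ τ ∈ tris A, c.1 = Vx.e τ := by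
  obtain ⟨τ, hτ, rfl⟩ := Finset.mem_image.1 h
  exact ⟨τ, hτ, rfl⟩
theorem cC'_tag {c : Vx × Finset (Finset Vx)} (h : c ∈ cC' A) : ∃ τ ∈ tris A, c.1 = Vx.e τ := by
  obtain ⟨τ, hτ, rfl⟩ := Finset.mem_image.1 h
  exact ⟨τ, hτ, rfl⟩
theorem cE_tag {c : Vx × Finset (Finset Vx)} (h : c ∈ cE K) : ∃ τ ∈ tris K, c.1 = Vx.d (bn τ) := by
  obtain ⟨τ, hτ, rfl⟩ := Finset.mem_image.1 h
  exact ⟨τ, hτ, rfl⟩
theorem cX_tag {c : Vx × Finset (Finset Vx)} (h : c ∈ cX K) : ∃ τ ∈ tets K, c.1 = Vx.d (xn τ) := by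
  obtain ⟨τ, hτ, rfl⟩ := Finset.mem_image.1 h
  exact ⟨τ, hτ, rfl⟩
theorem cY_tag {c : Vx × Finset (Finset Vx)} (h : c ∈ cY K) : ∃ τ ∈ tets K, c.1 = Vx.d (yn τ) := by
  obtain ⟨τ, hτ, rfl⟩ := Finset.mem_image.1 h
  exact ⟨τ, hτ, rfl⟩
theorem cT'_tag {c : Vx × Finset (Finset Vx)} (h : c ∈ cT' K) : ∃ τ ∈ tets K, c.1 = Vx.e τ := by
  obtain ⟨τ, hτ, rfl⟩ := Finset.mem_image.1 h
  exact ⟨τ, hτ, rfl⟩

theorem e_ne {s t : Finset ℕ} {n m : ℕ} (hs : s.card = n) (ht : t.card = m) (h : n ≠ m) :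
    Vx.e s ≠ Vx.e t := fun e => h (by rw [← hs, ← ht, Vx.e.inj e])

/-! ### step 1: the environment and the cells of the tetrahedra -/

/-- back to natural numbers -/
def unk (σ : Finset Vx) : Finset ℕ := σ.image fun v => match v with
  | .k j => j
  | _ => 0

theorem unk_kt (t : Finset ℕ) : unk (kt t) = t := by
  simp [unk, kt, Finset.image_image, Function.comp_def]

theorem st2 (h : KData K A) :
    WF Vx.w (XK K) (MT K \ (tris A).image kt) (cT K) ∧
    Sim (KV K) (ZZ Vx.w (XK K) (MT K \ (tris A).image kt) (cT K)) := by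
  have hKV : KV K = (↑(K.image kt) : Set (Finset Vx)) := by
    rw [Finset.coe_image]
    rfl
  have e1 : ((K.image kt).filter fun s => s.card = 3) \ (A.image kt) =
      MT K \ (tris A).image kt := by
    ext s
    simp only [MT, Finset.mem_sdiff, Finset.mem_filter, Finset.mem_image, mem_tris]
    constructor
    · rintro ⟨⟨⟨t, ht, rfl⟩, h3⟩, hA⟩
      rw [kt_card] at h3
      exact ⟨⟨t, ⟨ht, h3⟩, rfl⟩, fun ⟨a, ha, e⟩ => hA ⟨a, ha.1, e⟩⟩
    · rintro ⟨⟨t, ⟨ht, h3⟩, rfl⟩, hA⟩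
      refine ⟨⟨⟨t, ht, rfl⟩, by rwa [kt_card]⟩, fun ⟨a, ha, e⟩ => hA ⟨a, ⟨ha, ?_⟩, e⟩⟩
      rw [← kt_card, e, kt_card, h3]
  have e2 : ((K.image kt).filter fun s => s.card = 4) = (tets K).image kt := by
    ext s
    simp only [Finset.mem_filter, Finset.mem_image, mem_tets]
    constructor
    · rintro ⟨⟨t, ht, rfl⟩, h3⟩
      rw [kt_card] at h3
      exact ⟨t, ⟨ht, h3⟩, rfl⟩
    · rintro ⟨t, ⟨ht, h3⟩, rfl⟩
      exact ⟨⟨t, ht, rfl⟩, by rwa [kt_card]⟩
  obtain ⟨p, hp⟩ := h.coll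
  have hp' : Inn (↑(A.image kt) : Set (Finset Vx)) (pt (Vx.k p)) (↑(A.image kt)) := by
    have := inn_image k_inj hp
    rw [image_pt] at this
    rw [Finset.coe_image]
    exact this
  have s1 := stageA (K := K.image kt) (A := A.image kt) (w := Vx.w) (p := Vx.k p) ?_ ?_ ?_ ?_ ?_ ?_
    hp'
  rotate_left
  · refine ⟨?_, fun σ hσ τ hτ => ?_⟩
    · exact Finset.mem_coe.2 (Finset.mem_image.2 ⟨∅, h.e, by simp [kt]⟩)
    · obtain ⟨s, hs, rfl⟩ := Finset.mem_image.1 (Finset.mem_coe.1 hσ)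
      obtain ⟨r, hr, rfl⟩ := Finset.subset_image_iff.1 hτ
      exact Finset.mem_coe.2 (Finset.mem_image.2 ⟨r, h.down s hs r (by exact_mod_cast hr), rfl⟩)
  · intro σ hσ
    obtain ⟨s, hs, rfl⟩ := Finset.mem_image.1 hσ
    rw [kt_card]
    exact h.card s hs
  · exact Finset.image_subset_image h.sub
  · intro σ hσ hc
    obtain ⟨s, hs, rfl⟩ := Finset.mem_image.1 hσ
    rw [kt_card] at hc
    exact Finset.mem_image_of_mem _ (h.edges s hs hc)
  · intro σ hσ
    obtain ⟨s, hs, rfl⟩ := Finset.mem_image.1 hσ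
    rw [kt_card]
    exact h.Acard s hs
  · intro σ hσ hw
    obtain ⟨s, hs, rfl⟩ := Finset.mem_image.1 hσ
    obtain ⟨j, _, e⟩ := mem_kt.1 hw
    exact Vx.noConfusion e
  rw [e1, e2, ← hKV] at s1
  have hwf : WF Vx.w (XK K) (MT K \ (tris A).image kt) ∅ := by
    refine ⟨fun hw => ?_, fun t ht => ?_, by simp, by simp, by simp⟩
    · obtain ⟨j, e⟩ := XK_k hw
      exact Vx.noConfusion e
    · obtain ⟨s, hs, rfl⟩ := Finset.mem_image.1 (Finset.mem_sdiff.1 ht).1
      obtain ⟨h1, h2⟩ := mem_tris.1 hs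
      exact ⟨kt_sub h1, by rw [kt_card, h2]⟩
  obtain ⟨b1, b2⟩ := stageB hwf ((tets K).image kt) (fun τ hτ => by
      obtain ⟨s, hs, rfl⟩ := Finset.mem_image.1 hτ
      obtain ⟨h1, h2⟩ := mem_tets.1 hs
      exact ⟨kt_sub h1, by rw [kt_card, h2]⟩) (fun σ => Vx.e (unk σ)) (fun τ hτ => ⟨fun hh => by
      obtain ⟨j, e⟩ := XK_k hh
      exact Vx.noConfusion e, fun hh => Vx.noConfusion hh, by simp⟩) (fun τ hτ τ' hτ' e => by
      obtain ⟨s, hs, rfl⟩ := Finset.mem_image.1 hτ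
      obtain ⟨s', hs', rfl⟩ := Finset.mem_image.1 hτ'
      simp only [unk_kt, Vx.e.injEq] at e
      rw [e])
  have e3 : ((∅ : Finset (Vx × Finset (Finset Vx))) ∪
      ((tets K).image kt).image fun τ => (Vx.e (unk τ), facets τ)) = cT K := by
    rw [Finset.empty_union, Finset.image_image, cT]
    refine Finset.image_congr fun τ hτ => ?_
    have h4 := (mem_tets.1 (Finset.mem_coe.1 hτ)).2
    simp only [Function.comp_apply, unk_kt, facets_kt h4]
  rw [e3] at b1 b2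
  refine ⟨b1, s1.trans ?_⟩
  have e4 : ZZ Vx.w (XK K) (MT K \ (tris A).image kt) ∅ =
      Env Vx.w (XK K) (MT K \ (tris A).image kt) := by
    ext σ
    simp [ZZ, Cells]
  rw [e4] at b2
  exact b2

/-! ### step 2: the vertex `z` and the caps on `A` -/

theorem sub_X4_1 : insert Vx.z (XK K) ⊆ X4 K := fun v hv => by
  rw [mem_X4]
  rcases Finset.mem_insert.1 hv with h | h
  · exact Or.inl h
  · exact Or.inr (Or.inl h)

theorem z_not : Vx.z ∉ XK K := fun h => by
  obtain ⟨j, e⟩ := XK_k h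
  exact Vx.noConfusion e

theorem capTri {X : Finset Vx} {t : Finset ℕ} (h3 : t.card = 3) (hz : Vx.z ∈ X)
    (hX : kt t ⊆ X) : ∀ s ∈ mkS (capL Vx.z (tv t)), s ⊆ X ∧ s.card = 3 := by
  refine tri_cap (tv_inj h3) (fun i e => ?_) hz (fun i => hX (tv_mem h3 i))
  obtain ⟨j, _, e'⟩ := tv_k h3 i
  rw [e] at e'
  exact Vx.noConfusion e'

theorem st4 (h : KData K A) :
    WF Vx.w (insert Vx.z (XK K)) (MT K) (cT K ∪ cC A) ∧
    Sim (KV K) (ZZ Vx.w (insert Vx.z (XK K)) (MT K) (cT K ∪ cC A)) := by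
  obtain ⟨a1, a2⟩ := st2 h
  have hfz : Fresh Vx.w (XK K) (cT K) Vx.z := by
    refine ⟨z_not, fun e => Vx.noConfusion e, fun c hc e => ?_⟩
    obtain ⟨τ, _, e'⟩ := cT_tag hc
    rw [e] at e'
    exact Vx.noConfusion e'
  have a3 := a1.vertex hfz
  have a4 := a2.trans (sim_vertex a1 hfz)
  have hMA : (tris A).image kt ⊆ MT K := by
    intro s hs
    obtain ⟨t, ht, rfl⟩ := Finset.mem_image.1 hs
    exact Finset.mem_image_of_mem _ (triA h ht)
  have hM : MT K \ (tris A).image kt ∪ (tris A).image kt = MT K :=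
    Finset.sdiff_union_of_subset hMA
  have a5 : WF Vx.w (insert Vx.z (XK K)) (MT K) (cT K) := by
    rw [← hM]
    refine a3.addMarks fun s hs => ?_
    obtain ⟨t, ht, rfl⟩ := Finset.mem_image.1 hs
    obtain ⟨h1, h2⟩ := mem_tris.1 (triA h ht)
    exact ⟨(kt_sub h1).trans (Finset.subset_insert _ _), by rw [kt_card, h2]⟩
  have hfr : ∀ t ∈ tris A, Fresh Vx.w (insert Vx.z (XK K)) (cT K) (Vx.e t) := by
    intro t ht
    refine fresh_tag sub_X4_1 (tag_e t) fun c hc => ?_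
    obtain ⟨τ, hτ, e⟩ := cT_tag hc
    rw [e]
    exact e_ne (mem_tets.1 hτ).2 (mem_tris.1 ht).2 (by norm_num)
  have a6 : WF Vx.w (insert Vx.z (XK K)) (MT K) (cT K ∪ cC A) := by
    refine a5.addCells (tris A) (fun i _ i' _ e => Vx.e.inj e) hfr
      (fun i _ => mkS_ne (by simp [capL])) fun t ht => ?_
    obtain ⟨h1, h2⟩ := mem_tris.1 (triA h ht)
    exact capTri h2 (Finset.mem_insert_self _ _) ((kt_sub h1).trans (Finset.subset_insert _ _))
  refine ⟨a6, a4.trans (Sim.symm ?_)⟩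
  have key := sim_privAll (w := Vx.w) (X := insert Vx.z (XK K)) (Mk := MT K \ (tris A).image kt)
    (C := cT K) (tris A) (u := Vx.e) (S := fun t => mkS (capL Vx.z (tv t))) (t := kt)
    (fun i _ i' _ e => Vx.e.inj e) (fun t ht => (hfr t ht).hC) (by rw [hM]; exact a6) ?_
  · rw [hM] at key
    exact key
  · intro t ht E hE htE hwf hu
    obtain ⟨h1, h2⟩ := mem_tris.1 ht
    have hnot : kt t ∉ MT K \ (tris A).image kt ∪ E.image kt := by
      intro hh
      rcases Finset.mem_union.1 hh with hh | hh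
      · exact (Finset.mem_sdiff.1 hh).2 (Finset.mem_image_of_mem _ ht)
      · obtain ⟨s, hs, e⟩ := Finset.mem_image.1 hh
        exact htE (kt_inj e ▸ hs)
    have hzt : Vx.z ∉ kt t := fun hh => by
      obtain ⟨j, _, e⟩ := mem_kt.1 hh
      exact Vx.noConfusion e
    have := sim_cap hwf hu (Finset.mem_insert_self _ _) (z := Vx.z) (Finset.mem_insert_self _ _)
      hzt ?_
    · rw [Finset.erase_insert hnot] at this
      rw [← cap_eq (tv_inj h2), rg_tv h2]
      exact this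
    · intro y hy hh
      have hz : Vx.z ∈ insert Vx.z ((kt t).erase y) := Finset.mem_insert_self _ _
      have hs : ∃ s, kt s = insert Vx.z ((kt t).erase y) := by
        rcases Finset.mem_insert.1 hh with hh | hh
        · exact ⟨_, hh.symm⟩
        rcases Finset.mem_union.1 hh with hh | hh
        · obtain ⟨s, _, e⟩ := Finset.mem_image.1 (Finset.mem_sdiff.1 hh).1
          exact ⟨s, e⟩
        · obtain ⟨s, _, e⟩ := Finset.mem_image.1 hh
          exact ⟨s, e⟩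
      obtain ⟨s, e⟩ := hs
      rw [← e] at hz
      obtain ⟨j, _, e⟩ := mem_kt.1 hz
      exact Vx.noConfusion e

end S7

end Pool.Agent.DF302A.PI
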