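import Pool.Agent.Work.MP_df302a_co.I2

/-! # MP_df302a_co, part (I), module I7G: families of moves. -/

set_option autoImplicit false
set_option linter.unusedSectionVars false

namespace Pool.Agent.DF302A.PI

open Finset

variable {V ι : Type*} [DecidableEq V] [DecidableEq ι] {w : V} {X : Finset V}
  {Mk : Finset (Finset V)} {C : Finset (V × Finset (Finset V))}

/-- finitely many new vertices -/
theorem sim_vertices (h : WF w X Mk C) (D : Finset V) (hD : ∀ y ∈ D, Fresh w X C y) :
    WF w (X ∪ D) Mk C ∧ Sim (ZZ w X Mk C) (ZZ w (X ∪ D) Mk C) := by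
  induction D using Finset.induction_on with
  | empty =>
    rw [Finset.union_empty]
    exact ⟨h, Sim.refl _⟩
  | insert y D hy ih =>
    obtain ⟨h1, h2⟩ := ih (fun y hy => hD y (Finset.mem_insert_of_mem hy))
    have h0 := hD y (Finset.mem_insert_self _ _)
    have h3 : Fresh w (X ∪ D) C y := ⟨fun hh => (Finset.mem_union.1 hh).elim h0.hX hy, h0.hw, h0.hC⟩
    rw [Finset.union_insert]
    exact ⟨h1.vertex h3, h2.trans (sim_vertex h1 h3)⟩

/-- well formed states: adding a name and a cell -/
theorem WF.addName (h : WF w X Mk C) {y : Fin 3 → V} (hy : Function.Injective y)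
    (hyF : ∀ i, Fresh w X C (y i)) {u : V} (hu : Fresh w X C u) (huy : ∀ i, u ≠ y i)
    {S : Finset (Finset V)} (hSX : ∀ t ∈ S, t ⊆ X ∪ rg y ∧ t.card = 3) (hS : rg y ∈ S) :
    WF w (X ∪ rg y) (insert (rg y) Mk) (insert (u, S) C) := by
  have hc3 : (rg y).card = 3 := by
    rw [rg, Finset.card_image_of_injective _ hy]
    simp
  have hmem : ∀ {v : V}, v ∈ rg y → ∃ i, y i = v := fun hv => by
    obtain ⟨i, _, e⟩ := Finset.mem_image.1 hv
    exact ⟨i, e⟩
  refine ⟨?_, ?_, ?_, ?_, ?_⟩
  · intro hw
    rcases Finset.mem_union.1 hw with hw | hw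
    · exact h.hw hw
    · obtain ⟨i, e⟩ := hmem hw
      exact (hyF i).hw e
  · intro t ht
    rcases Finset.mem_insert.1 ht with rfl | ht
    · exact ⟨Finset.subset_union_right, hc3⟩
    · exact ⟨(h.mrk t ht).1.trans Finset.subset_union_left, (h.mrk t ht).2⟩
  · intro c hc
    rcases Finset.mem_insert.1 hc with rfl | hc
    · refine ⟨fun hh => ?_, hu.hw⟩
      rcases Finset.mem_union.1 hh with hh | hh
      · exact hu.hX hh
      · obtain ⟨i, e⟩ := hmem hh
        exact huy i e.symm
    · refine ⟨fun hh => ?_, (h.tag c hc).2⟩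
      rcases Finset.mem_union.1 hh with hh | hh
      · exact (h.tag c hc).1 hh
      · obtain ⟨i, e⟩ := hmem hh
        exact (hyF i).hC c hc e.symm
  · intro c hc c' hc' e
    rcases Finset.mem_insert.1 hc with rfl | hc <;> rcases Finset.mem_insert.1 hc' with rfl | hc'
    · rfl
    · exact absurd e.symm (hu.hC c' hc')
    · exact absurd e (hu.hC c hc)
    · exact h.inj c hc c' hc' e
  · intro c hc
    rcases Finset.mem_insert.1 hc with rfl | hc
    · exact ⟨⟨_, hS⟩, hSX⟩
    · exact ⟨(h.tri c hc).1, fun t ht =>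
        ⟨((h.tri c hc).2 t ht).1.trans Finset.subset_union_left, ((h.tri c hc).2 t ht).2⟩⟩

/-- a family of new names with their cells -/
structure NameFam (w : V) (X : Finset V) (C : Finset (V × Finset (Finset V))) (D : Finset ι)
    (y : ι → Fin 3 → V) (u : ι → V) (S : ι → Finset (Finset V)) : Prop where
  inj : ∀ i ∈ D, Function.Injective (y i)
  yf : ∀ i ∈ D, ∀ j, Fresh w X C (y i j)
  yd : ∀ i ∈ D, ∀ i' ∈ D, i ≠ i' → ∀ j j', y i j ≠ y i' j'
  uf : ∀ i ∈ D, Fresh w X C (u i)
  uy : ∀ i ∈ D, ∀ i' ∈ D, ∀ j, u i ≠ y i' j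
  ui : ∀ i ∈ D, ∀ i' ∈ D, u i = u i' → i = i'
  st : ∀ i ∈ D, ∀ t ∈ S i, t ⊆ X ∪ rg (y i) ∧ t.card = 3
  sy : ∀ i ∈ D, rg (y i) ∈ S i
  sd : ∀ i ∈ D, Disc (S i) (rg (y i))
  se : ∀ i ∈ D, ∀ x ∈ rg (y i), (rg (y i)).erase x ∈ cl ((S i).erase (rg (y i)))

theorem NameFam.mono {D D' : Finset ι} {y : ι → Fin 3 → V} {u : ι → V}
    {S : ι → Finset (Finset V)} (h : NameFam w X C D' y u S) (hD : D ⊆ D') :
    NameFam w X C D y u S :=
  ⟨fun i hi => h.inj i (hD hi), fun i hi => h.yf i (hD hi),
    fun i hi i' hi' => h.yd i (hD hi) i' (hD hi'), fun i hi => h.uf i (hD hi),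
    fun i hi i' hi' => h.uy i (hD hi) i' (hD hi'), fun i hi i' hi' => h.ui i (hD hi) i' (hD hi'),
    fun i hi => h.st i (hD hi), fun i hi => h.sy i (hD hi), fun i hi => h.sd i (hD hi),
    fun i hi => h.se i (hD hi)⟩

theorem mem_rg {y : Fin 3 → V} {v : V} : v ∈ rg y ↔ ∃ i, y i = v := by
  simp [rg]

/-- finitely many new names -/
theorem sim_names (h : WF w X Mk C) (D : Finset ι) {y : ι → Fin 3 → V} {u : ι → V}
    {S : ι → Finset (Finset V)} (hF : NameFam w X C D y u S) :
    WF w (X ∪ D.biUnion fun i => rg (y i)) (Mk ∪ D.image fun i => rg (y i))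
      (C ∪ D.image fun i => (u i, S i)) ∧
    Sim (ZZ w X Mk C) (ZZ w (X ∪ D.biUnion fun i => rg (y i)) (Mk ∪ D.image fun i => rg (y i))
      (C ∪ D.image fun i => (u i, S i))) := by
  induction D using Finset.induction_on with
  | empty =>
    simp only [Finset.biUnion_empty, Finset.image_empty, Finset.union_empty]
    exact ⟨h, Sim.refl _⟩
  | insert i D hi ih =>
    obtain ⟨h1, h2⟩ := ih (hF.mono (Finset.subset_insert _ _))
    have hii := Finset.mem_insert_self i D
    have hne : ∀ j ∈ D, i ≠ j := fun j hj e => hi (e ▸ hj)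
    have hfr : ∀ {v : V}, Fresh w X C v → (∀ j ∈ D, v ∉ rg (y j)) → (∀ j ∈ D, u j ≠ v) →
        Fresh w (X ∪ D.biUnion fun i => rg (y i)) (C ∪ D.image fun i => (u i, S i)) v := by
      intro v hv h3 h4
      refine ⟨fun hh => ?_, hv.hw, fun c hc => ?_⟩
      · rcases Finset.mem_union.1 hh with hh | hh
        · exact hv.hX hh
        · obtain ⟨j, hj, hj'⟩ := Finset.mem_biUnion.1 hh
          exact h3 j hj hj'
      · rcases Finset.mem_union.1 hc with hc | hc
        · exact hv.hC c hc
        · obtain ⟨j, hj, rfl⟩ := Finset.mem_image.1 hc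
          exact h4 j hj
    have f1 : ∀ j, Fresh w (X ∪ D.biUnion fun i => rg (y i)) (C ∪ D.image fun i => (u i, S i))
        (y i j) := by
      intro j
      refine hfr (hF.yf i hii j) (fun k hk hh => ?_) (fun k hk => ?_)
      · obtain ⟨l, e⟩ := mem_rg.1 hh
        exact hF.yd i hii k (Finset.mem_insert_of_mem hk) (hne k hk) j l e.symm
      · exact hF.uy k (Finset.mem_insert_of_mem hk) i hii j
    have f2 : Fresh w (X ∪ D.biUnion fun i => rg (y i)) (C ∪ D.image fun i => (u i, S i))
        (u i) := by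
      refine hfr (hF.uf i hii) (fun k hk hh => ?_) (fun k hk e => ?_)
      · obtain ⟨l, e⟩ := mem_rg.1 hh
        exact hF.uy i hii k (Finset.mem_insert_of_mem hk) l e.symm
      · exact hne k hk (hF.ui k (Finset.mem_insert_of_mem hk) i hii e).symm
    have f3 : ∀ t ∈ S i, t ⊆ (X ∪ D.biUnion fun i => rg (y i)) ∪ rg (y i) ∧ t.card = 3 := by
      intro t ht
      obtain ⟨a1, a2⟩ := hF.st i hii t ht
      refine ⟨a1.trans (Finset.union_subset_union Finset.subset_union_left (Finset.Subset.refl _)),
        a2⟩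
    have e1 : (X ∪ (insert i D).biUnion fun i => rg (y i)) =
        (X ∪ D.biUnion fun i => rg (y i)) ∪ rg (y i) := by
      rw [Finset.biUnion_insert]
      ext v
      simp only [Finset.mem_union]
      tauto
    have e2 : (Mk ∪ (insert i D).image fun i => rg (y i)) =
        insert (rg (y i)) (Mk ∪ D.image fun i => rg (y i)) := by
      rw [Finset.image_insert, Finset.union_insert]
    have e3 : (C ∪ (insert i D).image fun i => (u i, S i)) =
        insert (u i, S i) (C ∪ D.image fun i => (u i, S i)) := by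
      rw [Finset.image_insert, Finset.union_insert]
    rw [e1, e2, e3]
    exact ⟨h1.addName (hF.inj i hii) f1 f2 (hF.uy i hii i hii) f3 (hF.sy i hii),
      h2.trans (sim_name h1 (hF.inj i hii) f1 f2 (hF.uy i hii i hii) f3 (hF.sy i hii)
        (hF.sd i hii) (hF.se i hii))⟩

theorem WF.mono (h : WF w X Mk C) {Mk' : Finset (Finset V)} {C' : Finset (V × Finset (Finset V))}
    (hM : Mk' ⊆ Mk) (hC : C' ⊆ C) : WF w X Mk' C' :=
  ⟨h.hw, fun t ht => h.mrk t (hM ht), fun c hc => h.tag c (hC hc),
    fun c hc c' hc' => h.inj c (hC hc) c' (hC hc'), fun c hc => h.tri c (hC hc)⟩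

/-- replacement of a family of cells -/
theorem sim_replAll (D : Finset ι) {u : ι → V} {S S' : ι → Finset (Finset V)}
    (hu : ∀ i ∈ D, ∀ i' ∈ D, u i = u i' → i = i')
    (huC : ∀ i ∈ D, ∀ c ∈ C, c.1 ≠ u i)
    (h : WF w X Mk (C ∪ D.image fun i => (u i, S i)))
    (h' : WF w X Mk (C ∪ D.image fun i => (u i, S' i)))
    (hr : ∀ i ∈ D, ∀ C', C ⊆ C' → WF w X Mk C' → Fresh w X C' (u i) →
      Sim (ZZ w X Mk (insert (u i, S i) C')) (ZZ w X Mk (insert (u i, S' i) C'))) :
    Sim (ZZ w X Mk (C ∪ D.image fun i => (u i, S i)))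
      (ZZ w X Mk (C ∪ D.image fun i => (u i, S' i))) := by
  have key : ∀ E : Finset ι, E ⊆ D →
      Sim (ZZ w X Mk (C ∪ D.image fun i => (u i, S i)))
        (ZZ w X Mk ((C ∪ E.image fun i => (u i, S' i)) ∪ (D \ E).image fun i => (u i, S i))) := by
    intro E
    induction E using Finset.induction_on with
    | empty =>
      intro _
      simp only [Finset.image_empty, Finset.union_empty, Finset.sdiff_empty]
      exact Sim.refl _
    | insert i E hi ih =>
      intro hE
      have hED : E ⊆ D := (Finset.subset_insert _ _).trans hE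
      have hiD : i ∈ D := hE (Finset.mem_insert_self _ _)
      set C' := (C ∪ E.image fun i => (u i, S' i)) ∪ (D \ insert i E).image fun i => (u i, S i)
        with hC'
      have hsplit : ∀ c ∈ C', c ∈ C ∨ (∃ j ∈ E, c = (u j, S' j)) ∨
          (∃ j ∈ D, j ∉ insert i E ∧ c = (u j, S j)) := by
        intro c hc
        rcases Finset.mem_union.1 hc with hc | hc
        · rcases Finset.mem_union.1 hc with hc | hc
          · exact Or.inl hc
          · obtain ⟨j, hj, rfl⟩ := Finset.mem_image.1 hc
            exact Or.inr (Or.inl ⟨j, hj, rfl⟩)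
        · obtain ⟨j, hj, rfl⟩ := Finset.mem_image.1 hc
          rw [Finset.mem_sdiff] at hj
          exact Or.inr (Or.inr ⟨j, hj.1, hj.2, rfl⟩)
      have hin : ∀ c ∈ C', c ∈ (C ∪ D.image fun i => (u i, S i)) ∨
          c ∈ (C ∪ D.image fun i => (u i, S' i)) := by
        intro c hc
        rcases hsplit c hc with hc | ⟨j, hj, rfl⟩ | ⟨j, hj, _, rfl⟩
        · exact Or.inl (Finset.mem_union_left _ hc)
        · exact Or.inr (Finset.mem_union_right _ (Finset.mem_image_of_mem _ (hED hj)))
        · exact Or.inl (Finset.mem_union_right _ (Finset.mem_image_of_mem _ hj))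
      have hwf : WF w X Mk C' := by
        refine ⟨h.hw, h.mrk, fun c hc => ?_, fun c hc c' hc' e => ?_, fun c hc => ?_⟩
        · exact (hin c hc).elim (h.tag c) (h'.tag c)
        · rcases hsplit c hc with h1 | ⟨j, hj, rfl⟩ | ⟨j, hj, hjE, rfl⟩ <;>
            rcases hsplit c' hc' with h2 | ⟨k, hk, rfl⟩ | ⟨k, hk, hkE, rfl⟩
          · exact h.inj c (Finset.mem_union_left _ h1) c' (Finset.mem_union_left _ h2) e
          · exact absurd e (huC k (hED hk) c h1)
          · exact absurd e (huC k hk c h1)
          · exact absurd e.symm (huC j (hED hj) c' h2)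
          · rw [hu j (hED hj) k (hED hk) e]
          · exact absurd (Finset.mem_insert_of_mem (hu j (hED hj) k hk e ▸ hj)) hkE
          · exact absurd e.symm (huC j hj c' h2)
          · exact absurd (Finset.mem_insert_of_mem ((hu j hj k (hED hk) e).symm ▸ hk)) hjE
          · rw [hu j hj k hk e]
        · exact (hin c hc).elim (h.tri c) (h'.tri c)
      have hfr : Fresh w X C' (u i) := by
        have h1 := h.tag (u i, S i) (Finset.mem_union_right _
          (Finset.mem_image_of_mem (fun i => (u i, S i)) hiD))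
        refine ⟨h1.1, h1.2, fun c hc => ?_⟩
        rcases hsplit c hc with hc | ⟨j, hj, rfl⟩ | ⟨j, hj, hjE, rfl⟩
        · exact huC i hiD c hc
        · exact fun e => hi (hu j (hED hj) i hiD e ▸ hj)
        · exact fun e => hjE (hu j hj i hiD e ▸ Finset.mem_insert_self _ _)
      have e1 : (C ∪ E.image fun i => (u i, S' i)) ∪ (D \ E).image (fun i => (u i, S i)) =
          insert (u i, S i) C' := by
        have : D \ E = insert i (D \ insert i E) := by
          ext j
          simp only [Finset.mem_sdiff, Finset.mem_insert]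
          constructor
          · rintro ⟨a1, a2⟩
            by_cases e : j = i
            · exact Or.inl e
            · exact Or.inr ⟨a1, fun hh => hh.elim e a2⟩
          · rintro (rfl | ⟨a1, a2⟩)
            · exact ⟨hiD, hi⟩
            · exact ⟨a1, fun hh => a2 (Or.inr hh)⟩
        rw [this, Finset.image_insert, Finset.union_insert]
      have e2 : (C ∪ (insert i E).image fun i => (u i, S' i)) ∪
          (D \ insert i E).image (fun i => (u i, S i)) = insert (u i, S' i) C' := by
        rw [Finset.image_insert, Finset.union_insert, Finset.insert_union]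
      rw [e2]
      refine Sim.trans (e1 ▸ ih hED) (hr i hiD C' ?_ hwf hfr)
      exact Finset.subset_union_left.trans Finset.subset_union_left
  have := key D (Finset.Subset.refl _)
  rwa [Finset.sdiff_self, Finset.image_empty, Finset.union_empty] at this

/-- a family of cells with marks is removed -/
theorem sim_privAll (D : Finset ι) {u : ι → V} {S : ι → Finset (Finset V)}
    {t : ι → Finset V} (hu : ∀ i ∈ D, ∀ i' ∈ D, u i = u i' → i = i')
    (huC : ∀ i ∈ D, ∀ c ∈ C, c.1 ≠ u i)
    (h : WF w X (Mk ∪ D.image t) (C ∪ D.image fun i => (u i, S i)))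
    (hr : ∀ i ∈ D, ∀ E, E ⊆ D → i ∉ E →
      WF w X (insert (t i) (Mk ∪ E.image t)) (C ∪ E.image fun i => (u i, S i)) →
      Fresh w X (C ∪ E.image fun i => (u i, S i)) (u i) →
      Sim (ZZ w X (insert (t i) (Mk ∪ E.image t))
          (insert (u i, S i) (C ∪ E.image fun i => (u i, S i))))
        (ZZ w X (Mk ∪ E.image t) (C ∪ E.image fun i => (u i, S i)))) :
    Sim (ZZ w X (Mk ∪ D.image t) (C ∪ D.image fun i => (u i, S i))) (ZZ w X Mk C) := by
  have key : ∀ E : Finset ι, E ⊆ D →
      Sim (ZZ w X (Mk ∪ E.image t) (C ∪ E.image fun i => (u i, S i))) (ZZ w X Mk C) := by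
    intro E
    induction E using Finset.induction_on with
    | empty =>
      intro _
      simp only [Finset.image_empty, Finset.union_empty]
      exact Sim.refl _
    | insert i E hi ih =>
      intro hE
      have hED : E ⊆ D := (Finset.subset_insert _ _).trans hE
      have hiD : i ∈ D := hE (Finset.mem_insert_self _ _)
      have e1 : Mk ∪ (insert i E).image t = insert (t i) (Mk ∪ E.image t) := by
        rw [Finset.image_insert, Finset.union_insert]
      have e2 : (C ∪ (insert i E).image fun i => (u i, S i)) =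
          insert (u i, S i) (C ∪ E.image fun i => (u i, S i)) := by
        rw [Finset.image_insert, Finset.union_insert]
      rw [e1, e2]
      refine (hr i hiD E hED hi ?_ ?_).trans (ih hED)
      · refine h.mono ?_ ?_
        · rw [← e1]
          exact Finset.union_subset_union (Finset.Subset.refl _) (Finset.image_subset_image hE)
        · exact Finset.union_subset_union (Finset.Subset.refl _) (Finset.image_subset_image hED)
      · have h1 := h.tag (u i, S i) (Finset.mem_union_right _
          (Finset.mem_image_of_mem (fun i => (u i, S i)) hiD))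
        refine ⟨h1.1, h1.2, fun c hc => ?_⟩
        rcases Finset.mem_union.1 hc with hc | hc
        · exact huC i hiD c hc
        · obtain ⟨j, hj, rfl⟩ := Finset.mem_image.1 hc
          exact fun e => hi (hu j (hED hj) i hiD e ▸ hj)
  exact key D (Finset.Subset.refl _)

end Pool.Agent.DF302A.PI
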