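import Pool.Agent.Work.MP_df302a_co.I7C
import Pool.Agent.Work.MP_df302a_co.I4

/-! # MP_df302a_co, part (I), module I7H: names for the triangles. -/

set_option autoImplicit false
set_option linter.unusedSectionVars false

namespace Pool.Agent.DF302A.PI

open Finset

namespace S7

variable {K A : Finset (Finset ℕ)}

theorem sub_X4_2 : insert Vx.z (XK K) ∪ XB K ⊆ X4 K := fun v hv => by
  rw [mem_X4]
  simp only [Finset.mem_union, Finset.mem_insert] at hv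
  tauto

theorem sub_X4_3 : (insert Vx.z (XK K) ∪ XB K) ∪ XX K ⊆ X4 K := fun v hv => by
  rw [mem_X4]
  simp only [Finset.mem_union, Finset.mem_insert] at hv
  tauto

theorem tv_ne_nv {t : Finset ℕ} (h3 : t.card = 3) (a : Nm) (i j : Fin 3) : tv t i ≠ nv a j := by
  obtain ⟨k, _, e⟩ := tv_k h3 i
  rw [e]
  exact fun e' => Vx.noConfusion e'

theorem kt_sub1 {t : Finset ℕ} (h : t ∈ K) : kt t ⊆ insert Vx.z (XK K) :=
  (kt_sub h).trans (Finset.subset_insert _ _)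

/-! ### step 3: the names of the triangles -/

theorem fam5 : NameFam Vx.w (insert Vx.z (XK K)) (cT K ∪ cC A) (tris K) (fun t => nv (bn t))
    (fun t => Vx.d (bn t)) (fun t => mkS (eqL (tv t) (nv (bn t)))) := by
  have hX : ∀ (a : Nm) (j : Fin 3), nv a j ∉ insert Vx.z (XK K) := by
    intro a j hh
    rcases Finset.mem_insert.1 hh with e | hh
    · exact Vx.noConfusion e
    · obtain ⟨k, e⟩ := XK_k hh
      exact Vx.noConfusion e
  have hC : ∀ c ∈ cT K ∪ cC A, ∃ t, c.1 = Vx.e t := by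
    intro c hc
    rcases Finset.mem_union.1 hc with hc | hc
    · obtain ⟨τ, _, e⟩ := cT_tag hc
      exact ⟨τ, e⟩
    · obtain ⟨τ, _, e⟩ := cC_tag hc
      exact ⟨τ, e⟩
  refine ⟨fun t _ => nvj_inj _, fun t _ j => ⟨hX _ _, fun e => Vx.noConfusion e, fun c hc e => ?_⟩,
    fun t _ t' _ hne j j' => nvj_ne (fun e => hne (bn_inj e)) _ _,
    fun t _ => fresh_tag sub_X4_1 (tag_d _) fun c hc e => ?_,
    fun t _ t' _ j e => Vx.noConfusion e, fun t _ t' _ e => bn_inj (Vx.d.inj e),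
    fun t ht => ?_, fun t _ => rg_mem_mkS (by simp [eqL]), fun t ht => ?_, fun t ht => ?_⟩
  · obtain ⟨τ, e'⟩ := hC c hc
    rw [e'] at e
    exact Vx.noConfusion e
  · obtain ⟨τ, e'⟩ := hC c hc
    rw [e'] at e
    exact Vx.noConfusion e
  · obtain ⟨h1, h3⟩ := mem_tris.1 ht
    refine tri_eq (tv_inj h3) (nvj_inj _) (tv_ne_nv h3 _)
      (fun i => Finset.mem_union_left _ (kt_sub1 h1 (tv_mem h3 i)))
      (fun i => Finset.mem_union_right _ (mem_rg.2 ⟨i, rfl⟩))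
  · obtain ⟨h1, h3⟩ := mem_tris.1 ht
    exact (disc_eq' (nodup6 (tv_inj h3) (nvj_inj _) (tv_ne_nv h3 _))).1
  · obtain ⟨h1, h3⟩ := mem_tris.1 ht
    exact (disc_eq' (nodup6 (tv_inj h3) (nvj_inj _) (tv_ne_nv h3 _))).2

theorem st5 (h : KData K A) :
    WF Vx.w (insert Vx.z (XK K) ∪ XB K) (MT K ∪ MB K) ((cT K ∪ cC A) ∪ cE K) ∧
    Sim (KV K) (ZZ Vx.w (insert Vx.z (XK K) ∪ XB K) (MT K ∪ MB K) ((cT K ∪ cC A) ∪ cE K)) := by
  obtain ⟨a1, a2⟩ := st4 h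
  obtain ⟨b1, b2⟩ := sim_names a1 (tris K) fam5
  exact ⟨b1, a2.trans b2⟩

/-! ### general position of a triangle and a name -/

theorem flt2 {V : Type*} (a b : Fin 3 → V) : flt [a, b] = [a 0, a 1, a 2, b 0, b 1, b 2] := rfl

theorem mem_flt {V : Type*} {ns : List (Fin 3 → V)} {v : V} :
    v ∈ flt ns ↔ ∃ a ∈ ns, ∃ i, a i = v := by
  simp only [flt, List.mem_flatMap, List.mem_cons, List.not_mem_nil, or_false]
  constructor
  · rintro ⟨a, ha, h⟩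
    refine ⟨a, ha, ?_⟩
    rcases h with h | h | h
    · exact ⟨0, h.symm⟩
    · exact ⟨1, h.symm⟩
    · exact ⟨2, h.symm⟩
  · rintro ⟨a, ha, i, rfl⟩
    refine ⟨a, ha, ?_⟩
    fin_cases i
    · exact Or.inl rfl
    · exact Or.inr (Or.inl rfl)
    · exact Or.inr (Or.inr rfl)

/-- marks are triangles of `K` or names -/
def MKind (K : Finset (Finset ℕ)) (M : Finset (Finset Vx)) : Prop :=
  ∀ m ∈ M, (∃ s ∈ tris K, m = kt s) ∨ ∃ a : Nm, m = rg (nv a)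

theorem MKind.union {M M' : Finset (Finset Vx)} (h : MKind K M) (h' : MKind K M') :
    MKind K (M ∪ M') := fun m hm => (Finset.mem_union.1 hm).elim (h m) (h' m)

theorem kind_MT : MKind K (MT K) := fun m hm => by
  obtain ⟨s, hs, rfl⟩ := Finset.mem_image.1 hm
  exact Or.inl ⟨s, hs, rfl⟩
theorem kind_MB : MKind K (MB K) := fun m hm => by
  obtain ⟨s, hs, rfl⟩ := Finset.mem_image.1 hm
  exact Or.inr ⟨_, rfl⟩
theorem kind_MX : MKind K (MX K) := fun m hm => by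
  obtain ⟨s, hs, rfl⟩ := Finset.mem_image.1 hm
  exact Or.inr ⟨_, rfl⟩
theorem kind_MY : MKind K (MY K) := fun m hm => by
  obtain ⟨s, hs, rfl⟩ := Finset.mem_image.1 hm
  exact Or.inr ⟨_, rfl⟩

theorem z_ne_tv {t : Finset ℕ} (h3 : t.card = 3) (i : Fin 3) : Vx.z ≠ tv t i := by
  obtain ⟨k, _, e⟩ := tv_k h3 i
  rw [e]
  exact fun e' => Vx.noConfusion e'

theorem z_ne_nv (a : Nm) (i : Fin 3) : Vx.z ≠ nv a i := fun e => Vx.noConfusion e

theorem loc2 {X : Finset Vx} {M : Finset (Finset Vx)} (hM : MKind K M) {t : Finset ℕ}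
    (ht : t ∈ tris K) (hz : Vx.z ∈ X) (h1 : kt t ⊆ X) (h2 : ∀ i, nv (bn t) i ∈ X) :
    Loc Vx.w Vx.z X M [tv t, nv (bn t)] := by
  have h3 := (mem_tris.1 ht).2
  refine ⟨?_, ?_, ?_⟩
  · rw [flt2, List.nodup_cons]
    refine ⟨?_, nodup6 (tv_inj h3) (nvj_inj _) (tv_ne_nv h3 _)⟩
    simp only [List.mem_cons, List.not_mem_nil, or_false, not_or]
    exact ⟨z_ne_tv h3 _, z_ne_tv h3 _, z_ne_tv h3 _, z_ne_nv _ _, z_ne_nv _ _, z_ne_nv _ _⟩
  · intro v hv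
    rcases List.mem_cons.1 hv with rfl | hv
    · exact hz
    · obtain ⟨a, ha, i, rfl⟩ := mem_flt.1 hv
      simp only [List.mem_cons, List.not_mem_nil, or_false] at ha
      rcases ha with rfl | rfl
      · exact h1 (tv_mem h3 i)
      · exact h2 i
  · intro m hm hv
    rcases hM m hm with ⟨s, hs, rfl⟩ | ⟨a, rfl⟩
    · refine ⟨tv t, by simp, ?_⟩
      rw [rg_tv h3]
      congr 1
      symm
      refine Finset.eq_of_subset_of_card_le (fun j hj => ?_) (by rw [h3, (mem_tris.1 hs).2])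
      rcases List.mem_cons.1 (hv (Vx.k j) (mem_kt.2 ⟨j, hj, rfl⟩)) with e | hh
      · exact absurd e (fun e => Vx.noConfusion e)
      · obtain ⟨a, ha, i, e⟩ := mem_flt.1 hh
        simp only [List.mem_cons, List.not_mem_nil, or_false] at ha
        rcases ha with rfl | rfl
        · obtain ⟨k, hk, e'⟩ := tv_k h3 i
          rw [e'] at e
          exact Vx.k.inj e ▸ hk
        · exact absurd e (fun e => Vx.noConfusion e)
    · refine ⟨nv (bn t), by simp, ?_⟩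
      rcases List.mem_cons.1 (hv (nv a 0) (mem_rg.2 ⟨0, rfl⟩)) with e | hh
      · exact absurd e.symm (z_ne_nv _ _)
      · obtain ⟨b, hb, i, e⟩ := mem_flt.1 hh
        simp only [List.mem_cons, List.not_mem_nil, or_false] at hb
        rcases hb with rfl | rfl
        · exact absurd e (tv_ne_nv h3 _ _ _)
        · simp only [nv, Vx.n.injEq] at e
          rw [e.1]

theorem bn_mem_XB {t : Finset ℕ} (ht : t ∈ tris K) (i : Fin 3) : nv (bn t) i ∈ XB K :=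
  mem_XB.2 ⟨t, ht, i, rfl⟩

/-! ### step 4: the caps on the names -/

theorem cell_C' {X : Finset Vx} {a : Nm} (hz : Vx.z ∈ X) (h : ∀ i, nv a i ∈ X) :
    ∀ s ∈ mkS (capL Vx.z (nv a)), s ⊆ X ∧ s.card = 3 :=
  tri_cap (nvj_inj a) (fun i => (z_ne_nv a i).symm) hz h

theorem fr_e {X : Finset Vx} (hX : X ⊆ X4 K) {t : Finset ℕ} (h3 : t.card = 3)
    {C : Finset (Vx × Finset (Finset Vx))}
    (hC : ∀ c ∈ C, (∃ τ, τ.card = 4 ∧ c.1 = Vx.e τ) ∨ ∃ a, c.1 = Vx.d a) :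
    Fresh Vx.w X C (Vx.e t) := by
  refine fresh_tag hX (tag_e t) fun c hc e => ?_
  rcases hC c hc with ⟨τ, h4, e'⟩ | ⟨a, e'⟩
  · rw [e'] at e
    exact e_ne h4 h3 (by norm_num) e
  · rw [e'] at e
    exact Vx.noConfusion e

theorem st6 (h : KData K A) :
    WF Vx.w (insert Vx.z (XK K) ∪ XB K) (MT K ∪ MB K) ((cT K ∪ cE K) ∪ cC' A) ∧
    Sim (KV K) (ZZ Vx.w (insert Vx.z (XK K) ∪ XB K) (MT K ∪ MB K) ((cT K ∪ cE K) ∪ cC' A)) := by
  obtain ⟨a1, a2⟩ := st5 h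
  rw [Finset.union_right_comm] at a1 a2
  have hzX : Vx.z ∈ insert Vx.z (XK K) ∪ XB K :=
    Finset.mem_union_left _ (Finset.mem_insert_self _ _)
  have hkind : ∀ c ∈ cT K ∪ cE K, (∃ τ, τ.card = 4 ∧ c.1 = Vx.e τ) ∨ ∃ a, c.1 = Vx.d a := by
    intro c hc
    rcases Finset.mem_union.1 hc with hc | hc
    · obtain ⟨τ, hτ, e⟩ := cT_tag hc
      exact Or.inl ⟨τ, (mem_tets.1 hτ).2, e⟩
    · obtain ⟨τ, hτ, e⟩ := cE_tag hc
      exact Or.inr ⟨_, e⟩
  have hfr : ∀ t ∈ tris A, Fresh Vx.w (insert Vx.z (XK K) ∪ XB K) (cT K ∪ cE K) (Vx.e t) :=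
    fun t ht => fr_e sub_X4_2 (mem_tris.1 ht).2 hkind
  have b1 : WF Vx.w (insert Vx.z (XK K) ∪ XB K) (MT K ∪ MB K) ((cT K ∪ cE K) ∪ cC' A) := by
    refine (a1.mono (Finset.Subset.refl _) Finset.subset_union_left).addCells (tris A)
      (fun i _ i' _ e => Vx.e.inj e) hfr (fun i _ => mkS_ne (by simp [capL])) fun t ht => ?_
    exact cell_C' hzX fun i => Finset.mem_union_right _ (bn_mem_XB (triA h ht) i)
  refine ⟨b1, a2.trans ?_⟩
  refine sim_replAll (tris A) (u := Vx.e) (S := fun t => mkS (capL Vx.z (tv t)))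
    (S' := fun t => mkS (capL Vx.z (nv (bn t)))) (fun i _ i' _ e => Vx.e.inj e)
    (fun t ht => (hfr t ht).hC) a1 b1 fun t ht C' hC' hwf hu => ?_
  have htK := triA h ht
  refine mac_subCap (v := Vx.d (bn t)) hwf (loc2 (kind_MT.union kind_MB) htK hzX
    ((kt_sub1 (mem_tris.1 htK).1).trans Finset.subset_union_left)
    (fun i => Finset.mem_union_right _ (bn_mem_XB htK i))) (hC' ?_) hu
  exact Finset.mem_union_right _ (Finset.mem_image_of_mem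
    (fun t => (Vx.d (bn t), mkS (eqL (tv t) (nv (bn t))))) htK)

/-! ### step 5: the auxiliary names of the tetrahedra -/

theorem tag_d_ne {X : Finset Vx} (hX : X ⊆ X4 K) {a : Nm}
    {C : Finset (Vx × Finset (Finset Vx))}
    (hC : ∀ c ∈ C, (∃ τ, c.1 = Vx.e τ) ∨ ∃ b, b ≠ a ∧ c.1 = Vx.d b) :
    Fresh Vx.w X C (Vx.d a) := by
  refine fresh_tag hX (tag_d a) fun c hc e => ?_
  rcases hC c hc with ⟨τ, e'⟩ | ⟨b, hb, e'⟩
  · rw [e'] at e
    exact Vx.noConfusion e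
  · rw [e'] at e
    exact hb (Vx.d.inj e)

/-- a family of auxiliary names `a + b = y` -/
theorem famAdd {X : Finset Vx} (hX : X ⊆ X4 K) {C : Finset (Vx × Finset (Finset Vx))}
    (hCt : ∀ c ∈ C, c.1.isTag) (D : Finset (Finset ℕ)) (a b y : Finset ℕ → Nm)
    (hyi : ∀ s t, y s = y t → s = t)
    (hab : ∀ t ∈ D, a t ≠ b t) (hay : ∀ t ∈ D, a t ≠ y t) (hby : ∀ t ∈ D, b t ≠ y t)
    (haX : ∀ t ∈ D, ∀ i, nv (a t) i ∈ X) (hbX : ∀ t ∈ D, ∀ i, nv (b t) i ∈ X)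
    (hyX : ∀ t i, nv (y t) i ∉ X)
    (hyC : ∀ t, ∀ c ∈ C, (∃ τ, c.1 = Vx.e τ) ∨ ∃ b, b ≠ y t ∧ c.1 = Vx.d b) :
    NameFam Vx.w X C D (fun t => nv (y t)) (fun t => Vx.d (y t))
      (fun t => mkS (addL (nv (a t)) (nv (b t)) (nv (y t)))) := by
  have hn : ∀ t ∈ D, [nv (a t) 0, nv (a t) 1, nv (a t) 2, nv (b t) 0, nv (b t) 1, nv (b t) 2,
      nv (y t) 0, nv (y t) 1, nv (y t) 2].Nodup := fun t ht =>
    nodup9 (nvj_inj _) (nvj_inj _) (nvj_inj _) (nvj_ne (hab t ht)) (nvj_ne (hay t ht))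
      (nvj_ne (hby t ht))
  refine ⟨fun t _ => nvj_inj _, fun t _ j => ⟨hyX t j, fun e => Vx.noConfusion e,
    fun c hc e => ?_⟩,
    fun t _ t' _ hne j j' => nvj_ne (fun e => hne (hyi _ _ e)) _ _,
    fun t _ => tag_d_ne hX (hyC t),
    fun t _ t' _ j e => Vx.noConfusion e, fun t _ t' _ e => hyi _ _ (Vx.d.inj e),
    fun t ht => ?_, fun t _ => rg_mem_mkS (by simp [addL]), fun t ht => (disc_add3' (hn t ht)).1,
    fun t ht => (disc_add3' (hn t ht)).2⟩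
  · have := hCt c hc
    rw [e] at this
    exact this
  · refine tri_add (nvj_inj _) (nvj_inj _) (nvj_inj _) (nvj_ne (hab t ht)) (nvj_ne (hay t ht))
      (nvj_ne (hby t ht)) (fun i => Finset.mem_union_left _ (haX t ht i))
      (fun i => Finset.mem_union_left _ (hbX t ht i))
      (fun i => Finset.mem_union_right _ (mem_rg.2 ⟨i, rfl⟩))

/-- the cells of the state 6 -/
theorem kind6 {c : Vx × Finset (Finset Vx)} (hc : c ∈ (cT K ∪ cE K) ∪ cC' A) :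
    (∃ τ, c.1 = Vx.e τ) ∨ ∃ s, c.1 = Vx.d (bn s) := by
  rcases Finset.mem_union.1 hc with hc | hc
  · rcases Finset.mem_union.1 hc with hc | hc
    · obtain ⟨τ, _, e⟩ := cT_tag hc
      exact Or.inl ⟨τ, e⟩
    · obtain ⟨τ, _, e⟩ := cE_tag hc
      exact Or.inr ⟨τ, e⟩
  · obtain ⟨τ, _, e⟩ := cC'_tag hc
    exact Or.inl ⟨τ, e⟩

theorem nv_not_1 (a : Nm) (i : Fin 3) : nv a i ∉ insert Vx.z (XK K) := by
  intro hh
  rcases Finset.mem_insert.1 hh with e | hh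
  · exact Vx.noConfusion e
  · obtain ⟨k, e⟩ := XK_k hh
    exact Vx.noConfusion e

theorem nv_name {a b : Nm} {i j : Fin 3} (e : nv a i = nv b j) : a = b := by
  simp only [nv, Vx.n.injEq] at e
  exact e.1

theorem st7 (h : KData K A) :
    WF Vx.w ((insert Vx.z (XK K) ∪ XB K) ∪ XX K) ((MT K ∪ MB K) ∪ MX K)
      (((cT K ∪ cE K) ∪ cC' A) ∪ cX K) ∧
    Sim (KV K) (ZZ Vx.w ((insert Vx.z (XK K) ∪ XB K) ∪ XX K) ((MT K ∪ MB K) ∪ MX K)
      (((cT K ∪ cE K) ∪ cC' A) ∪ cX K)) := by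
  obtain ⟨a1, a2⟩ := st6 h
  suffices hfam : NameFam Vx.w (insert Vx.z (XK K) ∪ XB K) ((cT K ∪ cE K) ∪ cC' A) (tets K)
      (fun t => nv (xn t)) (fun t => Vx.d (xn t))
      (fun t => mkS (addL (nv (bn (opp t 0))) (nv (bn (opp t 2))) (nv (xn t)))) by
    obtain ⟨b1, b2⟩ := sim_names a1 (tets K) hfam
    exact ⟨b1, a2.trans b2⟩
  refine famAdd (K := K) sub_X4_2
    (fun c hc => ?_) (tets K) (fun τ => bn (opp τ 0)) (fun τ => bn (opp τ 2)) xn
    (fun s t e => xn_inj e) (fun τ hτ e => ?_) (fun τ _ => bn_xn) (fun τ _ => bn_xn)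
    (fun τ hτ i => Finset.mem_union_right _ (bn_mem_XB (oppK h hτ 0) i))
    (fun τ hτ i => Finset.mem_union_right _ (bn_mem_XB (oppK h hτ 2) i)) (fun τ i hh => ?_)
    (fun τ c hc => ?_)
  · rcases kind6 hc with ⟨τ, e⟩ | ⟨s, e⟩
    · rw [e]; trivial
    · rw [e]; trivial
  · exact opp_ne (mem_tets.1 hτ).2 (i := 0) (j := 2) (by decide) (bn_inj e)
  · rcases Finset.mem_union.1 hh with hh | hh
    · exact nv_not_1 _ _ hh
    · obtain ⟨s, _, j, e⟩ := mem_XB.1 hh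
      exact bn_xn (nv_name e)
  · rcases kind6 hc with ⟨τ, e⟩ | ⟨s, e⟩
    · exact Or.inl ⟨τ, e⟩
    · exact Or.inr ⟨bn s, bn_xn, e⟩

theorem st8 (h : KData K A) :
    WF Vx.w (X4 K) (((MT K ∪ MB K) ∪ MX K) ∪ MY K)
      ((((cT K ∪ cE K) ∪ cC' A) ∪ cX K) ∪ cY K) ∧
    Sim (KV K) (ZZ Vx.w (X4 K) (((MT K ∪ MB K) ∪ MX K) ∪ MY K)
      ((((cT K ∪ cE K) ∪ cC' A) ∪ cX K) ∪ cY K)) := by
  obtain ⟨a1, a2⟩ := st7 h
  have kind7 : ∀ c ∈ ((cT K ∪ cE K) ∪ cC' A) ∪ cX K,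
      (∃ τ, c.1 = Vx.e τ) ∨ (∃ s, c.1 = Vx.d (bn s)) ∨ ∃ s, c.1 = Vx.d (xn s) := by
    intro c hc
    rcases Finset.mem_union.1 hc with hc | hc
    · rcases kind6 hc with h | h
      · exact Or.inl h
      · exact Or.inr (Or.inl h)
    · obtain ⟨τ, _, e⟩ := cX_tag hc
      exact Or.inr (Or.inr ⟨τ, e⟩)
  suffices hfam : NameFam Vx.w ((insert Vx.z (XK K) ∪ XB K) ∪ XX K)
      (((cT K ∪ cE K) ∪ cC' A) ∪ cX K) (tets K)
      (fun t => nv (yn t)) (fun t => Vx.d (yn t))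
      (fun t => mkS (addL (nv (bn (opp t 1))) (nv (bn (opp t 3))) (nv (yn t)))) by
    obtain ⟨b1, b2⟩ := sim_names a1 (tets K) hfam
    exact ⟨b1, a2.trans b2⟩
  refine famAdd (K := K) sub_X4_3
    (fun c hc => ?_) (tets K) (fun τ => bn (opp τ 1)) (fun τ => bn (opp τ 3)) yn
    (fun s t e => yn_inj e) (fun τ hτ e => ?_) (fun τ _ => bn_yn) (fun τ _ => bn_yn)
    (fun τ hτ i => Finset.mem_union_left _ (Finset.mem_union_right _ (bn_mem_XB (oppK h hτ 1) i)))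
    (fun τ hτ i => Finset.mem_union_left _ (Finset.mem_union_right _ (bn_mem_XB (oppK h hτ 3) i)))
    (fun τ i hh => ?_) (fun τ c hc => ?_)
  · rcases kind7 c hc with ⟨τ, e⟩ | ⟨s, e⟩ | ⟨s, e⟩
    · rw [e]; trivial
    · rw [e]; trivial
    · rw [e]; trivial
  · exact opp_ne (mem_tets.1 hτ).2 (i := 1) (j := 3) (by decide) (bn_inj e)
  · rcases Finset.mem_union.1 hh with hh | hh
    · rcases Finset.mem_union.1 hh with hh | hh
      · exact nv_not_1 _ _ hh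
      · obtain ⟨s, _, j, e⟩ := mem_XB.1 hh
        exact bn_yn (nv_name e)
    · obtain ⟨s, _, j, e⟩ := mem_XX.1 hh
      exact xn_yn (nv_name e)
  · rcases kind7 c hc with ⟨τ, e⟩ | ⟨s, e⟩ | ⟨s, e⟩
    · exact Or.inl ⟨τ, e⟩
    · exact Or.inr ⟨bn s, bn_yn, e⟩
    · exact Or.inr ⟨xn s, xn_yn, e⟩

end S7

end Pool.Agent.DF302A.PI
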