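import Pool.Agent.Work.MP_df302a_co.I7H
import Pool.Agent.Work.MP_df302a_co.I4T

/-! # MP_df302a_co, part (I), module I7K: from the mixed state to the pure state. -/

set_option autoImplicit false
set_option linter.unusedSectionVars false

namespace Pool.Agent.DF302A.PI

open Finset

namespace S7

variable {K A : Finset (Finset ℕ)}

/-! ### general position of a tetrahedron and its names -/

theorem fct_pv {τ : Finset ℕ} (h : τ.card = 4) (i : Fin 4) : fct (pv τ) i = tv (opp τ i) := by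
  rw [tv_opp h]
  funext j
  fin_cases i <;> fin_cases j <;> rfl

theorem nodup_flt (l : List Nm) (hl : l.Nodup) : (flt (l.map nv)).Nodup := by
  induction l with
  | nil => exact List.nodup_nil
  | cons a l ih =>
    rw [List.nodup_cons] at hl
    have e : flt ((a :: l).map nv) = [nv a 0, nv a 1, nv a 2] ++ flt (l.map nv) := rfl
    rw [e, List.nodup_append]
    have ia : ∀ i j, i ≠ j → nv a i ≠ nv a j := fun i j h => (nvj_inj a).ne h
    refine ⟨?_, ih hl.2, ?_⟩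
    · simp only [List.nodup_cons, List.mem_cons, List.not_mem_nil, or_false, not_or,
        not_false_eq_true, List.nodup_nil, and_true]
      exact ⟨⟨ia 0 1 (by decide), ia 0 2 (by decide)⟩, ia 1 2 (by decide)⟩
    · intro v hv v' hv' e
      obtain ⟨b, hb, i, e2⟩ := mem_flt.1 hv'
      obtain ⟨b', hb', rfl⟩ := List.mem_map.1 hb
      have h3 : ∃ j, nv a j = v := by
        simp only [List.mem_cons, List.not_mem_nil, or_false] at hv
        rcases hv with rfl | rfl | rfl <;> exact ⟨_, rfl⟩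
      obtain ⟨j, h3⟩ := h3
      rw [← e2, ← h3] at e
      exact hl.1 (nv_name e ▸ hb')

theorem locT {X : Finset Vx} {M : Finset (Finset Vx)} (hM : MKind K M) {τ : Finset ℕ}
    (h4 : τ.card = 4) {ns : List Nm} (hns : ns.Nodup) (hz : Vx.z ∈ X) (h1 : kt τ ⊆ X)
    (h2 : ∀ a ∈ ns, ∀ i, nv a i ∈ X) : LocT Vx.z X M (pv τ) (ns.map nv) := by
  have zp : ∀ i, Vx.z ≠ pv τ i := fun i e => by
    obtain ⟨k, _, e'⟩ := pv_k h4 i
    rw [e'] at e
    exact Vx.noConfusion e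
  have pn : ∀ i (a : Nm) j, pv τ i ≠ nv a j := fun i a j e => by
    obtain ⟨k, _, e'⟩ := pv_k h4 i
    rw [e'] at e
    exact Vx.noConfusion e
  have pf : ∀ i, pv τ i ∉ flt (ns.map nv) := fun i hh => by
    obtain ⟨a, ha, j, e⟩ := mem_flt.1 hh
    obtain ⟨b, _, rfl⟩ := List.mem_map.1 ha
    exact pn i b j e.symm
  have zf : Vx.z ∉ flt (ns.map nv) := fun hh => by
    obtain ⟨a, ha, j, e⟩ := mem_flt.1 hh
    obtain ⟨b, _, rfl⟩ := List.mem_map.1 ha
    exact z_ne_nv b j e.symm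
  have pp : ∀ i j, i ≠ j → pv τ i ≠ pv τ j := fun i j h => (pv_inj h4).ne h
  refine ⟨?_, ?_, ?_⟩
  · simp only [List.nodup_cons, List.mem_cons, not_or]
    exact ⟨⟨zp 0, zp 1, zp 2, zp 3, zf⟩,
      ⟨pp 0 1 (by decide), pp 0 2 (by decide), pp 0 3 (by decide), pf 0⟩,
      ⟨pp 1 2 (by decide), pp 1 3 (by decide), pf 1⟩, ⟨pp 2 3 (by decide), pf 2⟩, pf 3,
      nodup_flt ns hns⟩
  · intro v hv
    simp only [List.mem_cons] at hv
    rcases hv with rfl | rfl | rfl | rfl | rfl | hv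
    · exact hz
    · exact h1 (pv_mem h4 0)
    · exact h1 (pv_mem h4 1)
    · exact h1 (pv_mem h4 2)
    · exact h1 (pv_mem h4 3)
    · obtain ⟨a, ha, j, rfl⟩ := mem_flt.1 hv
      obtain ⟨b, hb, rfl⟩ := List.mem_map.1 ha
      exact h2 b hb j
  · intro m hm hv
    rcases hM m hm with ⟨s, hs, rfl⟩ | ⟨a, rfl⟩
    · left
      have hsτ : s ⊆ τ := by
        intro j hj
        have hp : ∃ i, pv τ i = Vx.k j := by
          have := hv (Vx.k j) (mem_kt.2 ⟨j, hj, rfl⟩)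
          simp only [List.mem_cons] at this
          rcases this with e | e | e | e | e | hh
          · exact absurd e (fun e => Vx.noConfusion e)
          · exact ⟨0, e.symm⟩
          · exact ⟨1, e.symm⟩
          · exact ⟨2, e.symm⟩
          · exact ⟨3, e.symm⟩
          · obtain ⟨a, ha, i, e⟩ := mem_flt.1 hh
            obtain ⟨b, _, rfl⟩ := List.mem_map.1 ha
            exact absurd e (fun e => Vx.noConfusion e)
        obtain ⟨i, e⟩ := hp
        obtain ⟨k, hk, e'⟩ := pv_k h4 i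
        rw [e] at e'
        exact Vx.k.inj e' ▸ hk
      have hs3 := (mem_tris.1 hs).2
      obtain ⟨y, hy, hys⟩ : ∃ y ∈ τ, y ∉ s := by
        by_contra hcon
        push Not at hcon
        have := Finset.card_le_card (fun y hy => hcon y hy : τ ⊆ s)
        omega
      obtain ⟨i, rfl⟩ := (mem_orderEmb h4).1 hy
      refine ⟨i, ?_⟩
      rw [fct_pv h4, rg_tv (opp_card h4 i)]
      congr 1
      symm
      refine Finset.eq_of_subset_of_card_le (fun j hj => ?_) (by rw [opp_card h4 i, hs3])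
      rw [opp_eq h4]
      exact Finset.mem_erase.2 ⟨fun e => hys (e ▸ hj), hsτ hj⟩
    · right
      have := hv (nv a 0) (mem_rg.2 ⟨0, rfl⟩)
      simp only [List.mem_cons] at this
      rcases this with e | e | e | e | e | hh
      · exact absurd e.symm (z_ne_nv _ _)
      · exact absurd e.symm (pn _ _ _)
      · exact absurd e.symm (pn _ _ _)
      · exact absurd e.symm (pn _ _ _)
      · exact absurd e.symm (pn _ _ _)
      · obtain ⟨b, hb, i, e⟩ := mem_flt.1 hh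
        obtain ⟨b', hb', rfl⟩ := List.mem_map.1 hb
        refine ⟨nv b', hb, ?_⟩
        rw [nv_name e]

theorem locN {X : Finset Vx} {M : Finset (Finset Vx)} (hM : MKind K M) {ns : List Nm}
    (hns : ns.Nodup) (hz : Vx.z ∈ X) (h2 : ∀ a ∈ ns, ∀ i, nv a i ∈ X) :
    Loc Vx.w Vx.z X M (ns.map nv) := by
  have zf : Vx.z ∉ flt (ns.map nv) := fun hh => by
    obtain ⟨a, ha, j, e⟩ := mem_flt.1 hh
    obtain ⟨b, _, rfl⟩ := List.mem_map.1 ha
    exact z_ne_nv b j e.symm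
  refine ⟨List.nodup_cons.2 ⟨zf, nodup_flt ns hns⟩, ?_, ?_⟩
  · intro v hv
    rcases List.mem_cons.1 hv with rfl | hv
    · exact hz
    · obtain ⟨a, ha, j, rfl⟩ := mem_flt.1 hv
      obtain ⟨b, hb, rfl⟩ := List.mem_map.1 ha
      exact h2 b hb j
  · intro m hm hv
    rcases hM m hm with ⟨s, hs, rfl⟩ | ⟨a, rfl⟩
    · exfalso
      have hne : s.Nonempty := by
        rw [← Finset.card_pos, (mem_tris.1 hs).2]
        norm_num
      obtain ⟨j, hj⟩ := hne
      rcases List.mem_cons.1 (hv (Vx.k j) (mem_kt.2 ⟨j, hj, rfl⟩)) with e | hh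
      · exact Vx.noConfusion e
      · obtain ⟨a, ha, i, e⟩ := mem_flt.1 hh
        obtain ⟨b, _, rfl⟩ := List.mem_map.1 ha
        exact Vx.noConfusion e
    · rcases List.mem_cons.1 (hv (nv a 0) (mem_rg.2 ⟨0, rfl⟩)) with e | hh
      · exact absurd e.symm (z_ne_nv _ _)
      · obtain ⟨b, hb, i, e⟩ := mem_flt.1 hh
        obtain ⟨b', hb', rfl⟩ := List.mem_map.1 hb
        refine ⟨nv b', hb, ?_⟩
        rw [nv_name e]

/-! ### step 6: the tetrahedra become relations between names -/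

theorem union5a {α : Type*} [DecidableEq α] (a b c d e : Finset α) :
    (((a ∪ b) ∪ c) ∪ d) ∪ e = (((b ∪ c) ∪ d) ∪ e) ∪ a := by
  ext x
  simp only [Finset.mem_union]
  tauto

theorem union5b {α : Type*} [DecidableEq α] (a b c d e : Finset α) :
    (((a ∪ b) ∪ c) ∪ d) ∪ e = (((b ∪ c) ∪ d) ∪ e) ∪ a := by
  ext x
  simp only [Finset.mem_union]
  tauto

theorem union4a {α : Type*} [DecidableEq α] (a b c d : Finset α) :
    ((a ∪ b) ∪ c) ∪ d = ((b ∪ c) ∪ d) ∪ a := by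
  ext x
  simp only [Finset.mem_union]
  tauto

/-- the marks of all names -/
def M5 (K : Finset (Finset ℕ)) : Finset (Finset Vx) := (MB K ∪ MX K) ∪ MY K

theorem M4_eq : ((MT K ∪ MB K) ∪ MX K) ∪ MY K = M5 K ∪ MT K :=
  union4a _ _ _ _

theorem kind_M4 : MKind K (M5 K ∪ MT K) :=
  ((kind_MB.union kind_MX).union kind_MY).union kind_MT

theorem zX4 : Vx.z ∈ X4 K := mem_X4.2 (Or.inl rfl)

theorem kt_X4 {t : Finset ℕ} (ht : t ∈ K) : kt t ⊆ X4 K := fun _ hv =>
  mem_X4.2 (Or.inr (Or.inl (kt_sub ht hv)))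

theorem bn_X4 {t : Finset ℕ} (ht : t ∈ tris K) (i : Fin 3) : nv (bn t) i ∈ X4 K :=
  mem_X4.2 (Or.inr (Or.inr (Or.inl (bn_mem_XB ht i))))

theorem xn_X4 {t : Finset ℕ} (ht : t ∈ tets K) (i : Fin 3) : nv (xn t) i ∈ X4 K :=
  mem_X4.2 (Or.inr (Or.inr (Or.inr (Or.inl (mem_XX.2 ⟨t, ht, i, rfl⟩)))))

theorem yn_X4 {t : Finset ℕ} (ht : t ∈ tets K) (i : Fin 3) : nv (yn t) i ∈ X4 K :=
  mem_X4.2 (Or.inr (Or.inr (Or.inr (Or.inr (mem_XY.2 ⟨t, ht, i, rfl⟩)))))

theorem st9 (h : KData K A) :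
    WF Vx.w (X4 K) (M5 K ∪ MT K) ((((cE K ∪ cC' A) ∪ cX K) ∪ cY K) ∪ cT' K) ∧
    Sim (KV K) (ZZ Vx.w (X4 K) (M5 K ∪ MT K) ((((cE K ∪ cC' A) ∪ cX K) ∪ cY K) ∪ cT' K)) := by
  obtain ⟨a1, a2⟩ := st8 h
  have e : (((cT K ∪ cE K) ∪ cC' A) ∪ cX K) ∪ cY K =
      (((cE K ∪ cC' A) ∪ cX K) ∪ cY K) ∪ cT K := union5a _ _ _ _ _
  rw [M4_eq, e] at a1 a2
  have htag : ∀ c ∈ ((cE K ∪ cC' A) ∪ cX K) ∪ cY K,
      (∃ τ, τ.card = 3 ∧ c.1 = Vx.e τ) ∨ ∃ a, c.1 = Vx.d a := by
    intro c hc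
    rcases Finset.mem_union.1 hc with hc | hc
    · rcases Finset.mem_union.1 hc with hc | hc
      · rcases Finset.mem_union.1 hc with hc | hc
        · obtain ⟨τ, _, e⟩ := cE_tag hc
          exact Or.inr ⟨_, e⟩
        · obtain ⟨τ, hτ, e⟩ := cC'_tag hc
          exact Or.inl ⟨τ, (mem_tris.1 hτ).2, e⟩
      · obtain ⟨τ, _, e⟩ := cX_tag hc
        exact Or.inr ⟨_, e⟩
    · obtain ⟨τ, _, e⟩ := cY_tag hc
      exact Or.inr ⟨_, e⟩
  have hfr : ∀ t ∈ tets K,
      Fresh Vx.w (X4 K) (((cE K ∪ cC' A) ∪ cX K) ∪ cY K) (Vx.e t) := by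
    intro t ht
    refine fresh_tag (Finset.Subset.refl _) (tag_e t) fun c hc e => ?_
    rcases htag c hc with ⟨τ, h3, e'⟩ | ⟨a, e'⟩
    · rw [e'] at e
      exact e_ne h3 (mem_tets.1 ht).2 (by norm_num) e
    · rw [e'] at e
      exact Vx.noConfusion e
  have b1 : WF Vx.w (X4 K) (M5 K ∪ MT K) ((((cE K ∪ cC' A) ∪ cX K) ∪ cY K) ∪ cT' K) := by
    refine (a1.mono (Finset.Subset.refl _) Finset.subset_union_left).addCells (tets K)
      (fun i _ i' _ e => Vx.e.inj e) hfr (fun i _ => mkS_ne (by simp [eqL])) fun t ht => ?_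
    exact tri_eq (nvj_inj _) (nvj_inj _) (nvj_ne xn_yn) (xn_X4 ht) (yn_X4 ht)
  refine ⟨b1, a2.trans ?_⟩
  refine sim_replAll (tets K) (u := Vx.e) (S := fun τ => mkS (tetL (pv τ)))
    (S' := fun τ => mkS (eqL (nv (xn τ)) (nv (yn τ)))) (fun i _ i' _ e => Vx.e.inj e)
    (fun t ht => (hfr t ht).hC) a1 b1 fun τ hτ C' hC' hwf hu => ?_
  obtain ⟨hτK, h4⟩ := mem_tets.1 hτ
  have hE : ∀ i : Fin 4, (Vx.d (bn (opp τ i)), mkS (eqL (fct (pv τ) i) (nv (bn (opp τ i))))) ∈ C' := by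
    intro i
    rw [fct_pv h4]
    refine hC' ?_
    refine Finset.mem_union_left _ (Finset.mem_union_left _ (Finset.mem_union_left _ ?_))
    exact Finset.mem_image_of_mem
      (fun t => (Vx.d (bn t), mkS (eqL (tv t) (nv (bn t))))) (oppK h hτ i)
  have o : ∀ i j : Fin 4, i ≠ j → bn (opp τ i) ≠ bn (opp τ j) :=
    fun i j hij e => opp_ne h4 hij (bn_inj e)
  have h4n : [bn (opp τ (0 : Fin 4)), bn (opp τ (1 : Fin 4)), bn (opp τ (2 : Fin 4)),
      bn (opp τ (3 : Fin 4))].Nodup := by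
    simp only [List.nodup_cons, List.mem_cons, List.not_mem_nil, or_false, not_or,
      not_false_eq_true, List.nodup_nil, and_true]
    exact ⟨⟨o 0 1 (by decide), o 0 2 (by decide), o 0 3 (by decide)⟩,
      ⟨o 1 2 (by decide), o 1 3 (by decide)⟩, o 2 3 (by decide)⟩
  have h6n : [bn (opp τ (0 : Fin 4)), bn (opp τ (1 : Fin 4)), bn (opp τ (2 : Fin 4)),
      bn (opp τ (3 : Fin 4)), xn τ, yn τ].Nodup := by
    simp only [List.nodup_cons, List.mem_cons, List.not_mem_nil, or_false, not_or,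
      not_false_eq_true, List.nodup_nil, and_true]
    exact ⟨⟨o 0 1 (by decide), o 0 2 (by decide), o 0 3 (by decide), bn_xn, bn_yn⟩,
      ⟨o 1 2 (by decide), o 1 3 (by decide), bn_xn, bn_yn⟩,
      ⟨o 2 3 (by decide), bn_xn, bn_yn⟩, ⟨bn_xn, bn_yn⟩, xn_yn⟩
  have hT := locT (X := X4 K) (kind_M4 (K := K)) h4 h4n zX4 (kt_X4 hτK) (fun a ha i => ?_)
  · have hL := locN (X := X4 K) (kind_M4 (K := K)) h6n zX4 (fun a ha i => ?_)
    · refine mac_tet hwf hT hL (hE 0) (hE 1) (hE 2) (hE 3) (v := Vx.d (xn τ))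
        (v' := Vx.d (yn τ)) (hC' ?_) (hC' ?_) hu
      · refine Finset.mem_union_left _ (Finset.mem_union_right _ ?_)
        exact Finset.mem_image_of_mem (fun τ =>
          (Vx.d (xn τ), mkS (addL (nv (bn (opp τ 0))) (nv (bn (opp τ 2))) (nv (xn τ))))) hτ
      · refine Finset.mem_union_right _ ?_
        exact Finset.mem_image_of_mem (fun τ =>
          (Vx.d (yn τ), mkS (addL (nv (bn (opp τ 1))) (nv (bn (opp τ 3))) (nv (yn τ))))) hτ
    · simp only [List.mem_cons, List.not_mem_nil, or_false] at ha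
      rcases ha with rfl | rfl | rfl | rfl | rfl | rfl
      · exact bn_X4 (oppK h hτ 0) i
      · exact bn_X4 (oppK h hτ 1) i
      · exact bn_X4 (oppK h hτ 2) i
      · exact bn_X4 (oppK h hτ 3) i
      · exact xn_X4 hτ i
      · exact yn_X4 hτ i
  · simp only [List.mem_cons, List.not_mem_nil, or_false] at ha
    rcases ha with rfl | rfl | rfl | rfl
    · exact bn_X4 (oppK h hτ 0) i
    · exact bn_X4 (oppK h hτ 1) i
    · exact bn_X4 (oppK h hτ 2) i
    · exact bn_X4 (oppK h hτ 3) i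

/-! ### step 7: the cells `triangle = name` are turned -/

/-- the cells of the pure state -/
def cP (K A : Finset (Finset ℕ)) : Finset (Vx × Finset (Finset Vx)) :=
  ((cC' A ∪ cX K) ∪ cY K) ∪ cT' K

theorem cP_tag {c : Vx × Finset (Finset Vx)} (hc : c ∈ cP K A) :
    (∃ τ, c.1 = Vx.e τ) ∨ (∃ s, c.1 = Vx.d (xn s)) ∨ ∃ s, c.1 = Vx.d (yn s) := by
  rcases Finset.mem_union.1 hc with hc | hc
  · rcases Finset.mem_union.1 hc with hc | hc
    · rcases Finset.mem_union.1 hc with hc | hc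
      · obtain ⟨τ, hτ, e⟩ := cC'_tag hc
        exact Or.inl ⟨τ, e⟩
      · obtain ⟨τ, _, e⟩ := cX_tag hc
        exact Or.inr (Or.inl ⟨_, e⟩)
    · obtain ⟨τ, _, e⟩ := cY_tag hc
      exact Or.inr (Or.inr ⟨_, e⟩)
  · obtain ⟨τ, _, e⟩ := cT'_tag hc
    exact Or.inl ⟨τ, e⟩

theorem cP_ne {c : Vx × Finset (Finset Vx)} (hc : c ∈ cP K A) (t : Finset ℕ) :
    c.1 ≠ Vx.d (bn t) := by
  intro e
  rcases cP_tag hc with ⟨τ, e'⟩ | ⟨τ, e'⟩ | ⟨τ, e'⟩ <;> rw [e'] at e
  · exact Vx.noConfusion e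
  · exact bn_xn (Vx.d.inj e).symm
  · exact bn_yn (Vx.d.inj e).symm

theorem st10 (h : KData K A) :
    WF Vx.w (X4 K) (M5 K ∪ MT K) (cP K A ∪ cE' K) ∧
    Sim (KV K) (ZZ Vx.w (X4 K) (M5 K ∪ MT K) (cP K A ∪ cE' K)) := by
  obtain ⟨a1, a2⟩ := st9 h
  have e : (((cE K ∪ cC' A) ∪ cX K) ∪ cY K) ∪ cT' K = cP K A ∪ cE K := union5b _ _ _ _ _
  rw [e] at a1 a2
  have hfr : ∀ t ∈ tris K, Fresh Vx.w (X4 K) (cP K A) (Vx.d (bn t)) :=
    fun t _ => fresh_tag (Finset.Subset.refl _) (tag_d _) fun c hc => cP_ne hc t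
  have b1 : WF Vx.w (X4 K) (M5 K ∪ MT K) (cP K A ∪ cE' K) := by
    refine (a1.mono (Finset.Subset.refl _) Finset.subset_union_left).addCells (tris K)
      (fun i _ i' _ e => bn_inj (Vx.d.inj e)) hfr (fun i _ => mkS_ne (by simp [eqL]))
      fun t ht => ?_
    obtain ⟨h1, h3⟩ := mem_tris.1 ht
    exact tri_eq (nvj_inj _) (tv_inj h3) (fun i j e => tv_ne_nv h3 _ j i e.symm) (bn_X4 ht)
      (fun i => kt_X4 h1 (tv_mem h3 i))
  refine ⟨b1, a2.trans ?_⟩
  refine sim_replAll (tris K) (u := fun t => Vx.d (bn t))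
    (S := fun t => mkS (eqL (tv t) (nv (bn t)))) (S' := fun t => mkS (eqL (nv (bn t)) (tv t)))
    (fun i _ i' _ e => bn_inj (Vx.d.inj e)) (fun t ht => (hfr t ht).hC) a1 b1
    fun t ht C' hC' hwf hu => ?_
  exact mac_eqSymm hwf (loc2 kind_M4 ht zX4 (kt_X4 (mem_tris.1 ht).1) (bn_X4 ht)) hu

/-! ### step 8: the triangles of `K` become private and disappear -/

theorem nv_not_kt {a : Nm} {i : Fin 3} {t : Finset ℕ} : nv a i ∉ kt t := fun h => by
  obtain ⟨j, _, e⟩ := mem_kt.1 h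
  exact Vx.noConfusion e

/-- a triangle with a vertex of a name is not a triangle of `K` -/
theorem ne_kt {s : Finset Vx} {a : Nm} {i : Fin 3} {t : Finset ℕ} (h : nv a i ∈ s) :
    kt t ≠ s := fun e => nv_not_kt (e ▸ h)

theorem not_cap {a : Nm} {t : Finset ℕ} : kt t ∉ mkS (capL Vx.z (nv a)) := by
  intro h
  obtain ⟨l, hl, e⟩ := mem_mkS3.1 h
  simp only [capL, List.mem_cons, List.not_mem_nil, or_false] at hl
  rcases hl with rfl | rfl | rfl | rfl
  · exact ne_kt (a := a) (i := 0) (by simp) e.symm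
  · exact ne_kt (a := a) (i := 0) (by simp) e.symm
  · exact ne_kt (a := a) (i := 0) (by simp) e.symm
  · exact ne_kt (a := a) (i := 1) (by simp) e.symm

theorem not_all {L : List (List Vx)} {t : Finset ℕ}
    (hL : ∀ l ∈ L, ∃ (a : Nm) (i : Fin 3), nv a i ∈ l) : kt t ∉ mkS L := by
  intro h
  obtain ⟨l, hl, e⟩ := mem_mkS3.1 h
  obtain ⟨a, i, hi⟩ := hL l hl
  exact ne_kt (a := a) (i := i) (by simpa using hi) e.symm

theorem not_eqN {a b : Nm} {t : Finset ℕ} : kt t ∉ mkS (eqL (nv a) (nv b)) := by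
  refine not_all fun l hl => ?_
  simp only [eqL, List.mem_cons, List.not_mem_nil, or_false] at hl
  rcases hl with rfl | rfl | rfl | rfl | rfl | rfl | rfl | rfl <;>
    exact ⟨_, _, List.mem_cons_self⟩

theorem not_addN {a b c : Nm} {t : Finset ℕ} : kt t ∉ mkS (addL (nv a) (nv b) (nv c)) := by
  refine not_all fun l hl => ?_
  simp only [addL, List.mem_cons, List.not_mem_nil, or_false] at hl
  rcases hl with rfl | rfl | rfl | rfl | rfl | rfl | rfl | rfl | rfl | rfl | rfl | rfl | rfl | rfl <;>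
    exact ⟨_, _, List.mem_cons_self⟩

theorem not_cP {c : Vx × Finset (Finset Vx)} (hc : c ∈ cP K A) (t : Finset ℕ) : kt t ∉ c.2 := by
  rcases Finset.mem_union.1 hc with hc | hc
  · rcases Finset.mem_union.1 hc with hc | hc
    · rcases Finset.mem_union.1 hc with hc | hc
      · obtain ⟨τ, _, rfl⟩ := Finset.mem_image.1 hc
        exact not_cap
      · obtain ⟨τ, _, rfl⟩ := Finset.mem_image.1 hc
        exact not_addN
    · obtain ⟨τ, _, rfl⟩ := Finset.mem_image.1 hc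
      exact not_addN
  · obtain ⟨τ, _, rfl⟩ := Finset.mem_image.1 hc
    exact not_eqN

/-- `kt t` is only used by its own cell -/
theorem not_E' {s t : Finset ℕ} (h3 : s.card = 3) (hne : s ≠ t) :
    kt t ∉ mkS (eqL (nv (bn s)) (tv s)) := by
  intro h
  obtain ⟨l, hl, e⟩ := mem_mkS3.1 h
  simp only [eqL, List.mem_cons, List.not_mem_nil, or_false] at hl
  rcases hl with rfl | rfl | rfl | rfl | rfl | rfl | rfl | rfl
  · exact ne_kt (a := bn s) (i := 0) (by simp) e.symm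
  · have : kt t = rg (tv s) := by
      rw [← e, rg3]
      simp
    rw [rg_tv h3] at this
    exact hne (kt_inj this).symm
  · exact ne_kt (a := bn s) (i := 0) (by simp) e.symm
  · exact ne_kt (a := bn s) (i := 1) (by simp) e.symm
  · exact ne_kt (a := bn s) (i := 1) (by simp) e.symm
  · exact ne_kt (a := bn s) (i := 2) (by simp) e.symm
  · exact ne_kt (a := bn s) (i := 2) (by simp) e.symm
  · exact ne_kt (a := bn s) (i := 0) (by simp) e.symm

theorem M5_ne {m : Finset Vx} (hm : m ∈ M5 K) : ∃ a : Nm, m = rg (nv a) := by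
  rcases Finset.mem_union.1 hm with hm | hm
  · rcases Finset.mem_union.1 hm with hm | hm
    · obtain ⟨τ, _, rfl⟩ := Finset.mem_image.1 hm
      exact ⟨_, rfl⟩
    · obtain ⟨τ, _, rfl⟩ := Finset.mem_image.1 hm
      exact ⟨_, rfl⟩
  · obtain ⟨τ, _, rfl⟩ := Finset.mem_image.1 hm
    exact ⟨_, rfl⟩

theorem st11 (h : KData K A) :
    WF Vx.w (X4 K) (M5 K) (cP K A) ∧ Sim (KV K) (ZZ Vx.w (X4 K) (M5 K) (cP K A)) := by
  obtain ⟨a1, a2⟩ := st10 h
  refine ⟨a1.mono Finset.subset_union_left Finset.subset_union_left, a2.trans ?_⟩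
  refine sim_privAll (tris K) (u := fun t => Vx.d (bn t))
    (S := fun t => mkS (eqL (nv (bn t)) (tv t))) (t := kt)
    (fun i _ i' _ e => bn_inj (Vx.d.inj e)) (fun t _ c hc => cP_ne hc t) a1
    fun t ht E hE htE hwf hu => ?_
  obtain ⟨h1, h3⟩ := mem_tris.1 ht
  have hnot : kt t ∉ M5 K ∪ E.image kt := by
    intro hh
    rcases Finset.mem_union.1 hh with hh | hh
    · obtain ⟨a, e⟩ := M5_ne hh
      exact ne_kt (a := a) (i := 0) (mem_rg.2 ⟨0, rfl⟩) e
    · obtain ⟨s, hs, e⟩ := Finset.mem_image.1 hh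
      exact htE (kt_inj e ▸ hs)
  have hd := disc_eq' (nodup6 (nvj_inj (bn t)) (tv_inj h3)
    (fun i j e => tv_ne_nv h3 _ j i e.symm))
  rw [rg_tv h3] at hd
  have := sim_private hwf hu (S := mkS (eqL (nv (bn t)) (tv t))) (t := kt t)
    (tri_eq (nvj_inj _) (tv_inj h3) (fun i j e => tv_ne_nv h3 _ j i e.symm) (bn_X4 ht)
      (fun i => kt_X4 h1 (tv_mem h3 i))) (Finset.mem_insert_self _ _)
    (by rw [← rg_tv h3]; exact rg_mem_mkS (by simp [eqL])) (fun c hc => ?_) hd.1 hd.2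
  · rw [Finset.erase_insert hnot] at this
    exact this
  · rcases Finset.mem_union.1 hc with hc | hc
    · exact not_cP hc t
    · obtain ⟨s, hs, rfl⟩ := Finset.mem_image.1 hc
      exact not_E' (mem_tris.1 (hE hs)).2 fun e => htE (e ▸ hs)

/-! ### step 9: the vertices of `K` disappear -/

/-- restriction of the set of vertices -/
theorem WF.restrict' {w' : Vx} {X X' : Finset Vx} {Mk : Finset (Finset Vx)}
    {C : Finset (Vx × Finset (Finset Vx))} (h : WF w' X Mk C) (hX : X' ⊆ X)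
    (hM : ∀ m ∈ Mk, m ⊆ X') (hC : ∀ c ∈ C, ∀ t ∈ c.2, t ⊆ X') : WF w' X' Mk C :=
  ⟨fun hw => h.hw (hX hw), fun m hm => ⟨hM m hm, (h.mrk m hm).2⟩,
    fun c hc => ⟨fun hh => (h.tag c hc).1 (hX hh), (h.tag c hc).2⟩, h.inj,
    fun c hc => ⟨(h.tri c hc).1, fun t ht => ⟨hC c hc t ht, ((h.tri c hc).2 t ht).2⟩⟩⟩

/-- the vertices of the pure state -/
def X5 (K : Finset (Finset ℕ)) : Finset Vx := insert Vx.z ((XB K ∪ XX K) ∪ XY K)

theorem mem_X5 {v : Vx} : v ∈ X5 K ↔ v = Vx.z ∨ v ∈ XB K ∨ v ∈ XX K ∨ v ∈ XY K := by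
  simp only [X5, Finset.mem_union, Finset.mem_insert]
  tauto

theorem X4_X5 : X4 K = X5 K ∪ XK K := by
  ext v
  rw [mem_X4, Finset.mem_union, mem_X5]
  tauto

theorem bn_X5 {t : Finset ℕ} (ht : t ∈ tris K) (i : Fin 3) : nv (bn t) i ∈ X5 K :=
  mem_X5.2 (Or.inr (Or.inl (bn_mem_XB ht i)))

theorem xn_X5 {t : Finset ℕ} (ht : t ∈ tets K) (i : Fin 3) : nv (xn t) i ∈ X5 K :=
  mem_X5.2 (Or.inr (Or.inr (Or.inl (mem_XX.2 ⟨t, ht, i, rfl⟩))))

theorem yn_X5 {t : Finset ℕ} (ht : t ∈ tets K) (i : Fin 3) : nv (yn t) i ∈ X5 K :=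
  mem_X5.2 (Or.inr (Or.inr (Or.inr (mem_XY.2 ⟨t, ht, i, rfl⟩))))

theorem rg_sub {a : Nm} {X : Finset Vx} (h : ∀ i, nv a i ∈ X) : rg (nv a) ⊆ X := fun v hv => by
  obtain ⟨i, rfl⟩ := mem_rg.1 hv
  exact h i

theorem st12 (h : KData K A) : Sim (KV K) (ZZ Vx.w (X5 K) (M5 K) (cP K A)) := by
  obtain ⟨a1, a2⟩ := st11 h
  have hz : Vx.z ∈ X5 K := mem_X5.2 (Or.inl rfl)
  have b1 : WF Vx.w (X5 K) (M5 K) (cP K A) := by
    refine WF.restrict' a1 (X4_X5 (K := K) ▸ Finset.subset_union_left) (fun m hm => ?_)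
      (fun c hc t ht => ?_)
    · rcases Finset.mem_union.1 hm with hm | hm
      · rcases Finset.mem_union.1 hm with hm | hm
        · obtain ⟨τ, hτ, rfl⟩ := Finset.mem_image.1 hm
          exact rg_sub (bn_X5 hτ)
        · obtain ⟨τ, hτ, rfl⟩ := Finset.mem_image.1 hm
          exact rg_sub (xn_X5 hτ)
      · obtain ⟨τ, hτ, rfl⟩ := Finset.mem_image.1 hm
        exact rg_sub (yn_X5 hτ)
    · rcases Finset.mem_union.1 hc with hc | hc
      · rcases Finset.mem_union.1 hc with hc | hc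
        · rcases Finset.mem_union.1 hc with hc | hc
          · obtain ⟨τ, hτ, rfl⟩ := Finset.mem_image.1 hc
            exact (cell_C' hz (bn_X5 (triA h hτ)) t ht).1
          · obtain ⟨τ, hτ, rfl⟩ := Finset.mem_image.1 hc
            exact (tri_add (nvj_inj _) (nvj_inj _) (nvj_inj _)
              (nvj_ne fun e => opp_ne (mem_tets.1 hτ).2 (i := 0) (j := 2) (by decide) (bn_inj e))
              (nvj_ne bn_xn) (nvj_ne bn_xn) (bn_X5 (oppK h hτ 0)) (bn_X5 (oppK h hτ 2))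
              (xn_X5 hτ) t ht).1
        · obtain ⟨τ, hτ, rfl⟩ := Finset.mem_image.1 hc
          exact (tri_add (nvj_inj _) (nvj_inj _) (nvj_inj _)
            (nvj_ne fun e => opp_ne (mem_tets.1 hτ).2 (i := 1) (j := 3) (by decide) (bn_inj e))
            (nvj_ne bn_yn) (nvj_ne bn_yn) (bn_X5 (oppK h hτ 1)) (bn_X5 (oppK h hτ 3))
            (yn_X5 hτ) t ht).1
      · obtain ⟨τ, hτ, rfl⟩ := Finset.mem_image.1 hc
        exact (tri_eq (nvj_inj _) (nvj_inj _) (nvj_ne xn_yn) (xn_X5 hτ) (yn_X5 hτ) t ht).1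
  have b2 := (sim_vertices b1 (XK K) fun v hv => ?_).2
  · rw [← X4_X5] at b2
    exact a2.trans b2.symm
  · obtain ⟨j, rfl⟩ := XK_k hv
    refine ⟨fun hh => ?_, fun e => Vx.noConfusion e, fun c hc e => ?_⟩
    · rcases mem_X5.1 hh with e | hh | hh | hh
      · exact Vx.noConfusion e
      · obtain ⟨_, _, _, e⟩ := mem_XB.1 hh
        exact Vx.noConfusion e
      · obtain ⟨_, _, _, e⟩ := mem_XX.1 hh
        exact Vx.noConfusion e
      · obtain ⟨_, _, _, e⟩ := mem_XY.1 hh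
        exact Vx.noConfusion e
    · rcases cP_tag hc with ⟨τ, e'⟩ | ⟨τ, e'⟩ | ⟨τ, e'⟩ <;> rw [e'] at e <;>
        exact Vx.noConfusion e

theorem PK_Z : (PK K A).Z = ZZ Vx.w (X5 K) (M5 K) (cP K A) := by
  have e1 : (PK K A).X = X5 K := by
    simp only [PK, Gs.mk', X5, XB, XX, XY, Finset.union_biUnion, Finset.image_biUnion]
    rfl
  have e2 : (PK K A).Mk = M5 K := by
    simp only [PK, Gs.mk', M5, MB, MX, MY, nt, Finset.image_union, Finset.image_image,
      Function.comp_def]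
  have e3 : (PK K A).C = cP K A := by
    simp only [PK, Gs.mk', cP, cC', cX, cY, cT', Finset.image_union, Finset.image_image,
      Function.comp_def, Rel.S]
  rw [Gs.Z, e1, e2, e3]

end S7

/-- the complex `K` is equivalent to its pure state -/
theorem sim_K {K A : Finset (Finset ℕ)} (h : KData K A) : Sim (KV K) (PK K A).Z := by
  rw [S7.PK_Z]
  exact S7.st12 h

end Pool.Agent.DF302A.PI
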