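import Pool.Agent.Work.MP_df302a_co.Coord
import Pool.Agent.Work.MP_df302a_co.Sd

/-! # MP_df302a_co : links in barycentric subdivisions and Lemma L -/

set_option autoImplicit false

namespace Pool.Agent.DF302A

open Finset

section Chains

/-- the members of `c` are pairwise comparable -/
def L_IsCh {X : Type*} (c : Finset (Finset X)) : Prop := ∀ A ∈ c, ∀ B ∈ c, A ⊆ B ∨ B ⊆ A

/-- the complex of chains in `P` -/
def L_ChP {X : Type*} (P : Set (Finset X)) : Set (Finset (Finset X)) :=
  {c | L_IsCh c ∧ ∀ B ∈ c, B ∈ P}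

theorem L_IsCh.mono {X : Type*} {c c' : Finset (Finset X)} (h : L_IsCh c) (hc : c' ⊆ c) :
    L_IsCh c' :=
  fun A hA B hB => h A (hc hA) B (hc hB)

theorem L_isChain_iff {X : Type*} (c : Finset (Finset X)) :
    IsChain (· ⊆ ·) (c : Set (Finset X)) ↔ L_IsCh c := by
  constructor
  · intro h A hA B hB
    by_cases hAB : A = B
    · left; rw [hAB]
    · exact h hA hB hAB
  · intro h A hA B hB _
    exact h A hA B hB

theorem L_sd_eq {X : Type*} [Fintype X] [DecidableEq X] (Y : Set (Finset X)) :
    sd Y = L_ChP {σ | σ ∈ Y ∧ σ.Nonempty} := by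
  ext c
  constructor
  · rintro ⟨h1, h2⟩
    exact ⟨(L_isChain_iff c).mp h2, h1⟩
  · rintro ⟨h1, h2⟩
    exact ⟨h2, (L_isChain_iff c).mpr h1⟩

theorem L_single_mem_ChP {X : Type*} (P : Set (Finset X)) (A : Finset X) :
    ({A} : Finset (Finset X)) ∈ L_ChP P ↔ A ∈ P := by
  constructor
  · intro h
    exact h.2 A (Finset.mem_singleton_self A)
  · intro h
    refine ⟨fun B hB C hC => ?_, fun B hB => ?_⟩
    · rw [Finset.mem_singleton] at hB hC
      subst hB; subst hC
      exact Or.inl (Finset.Subset.refl _)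
    · rw [Finset.mem_singleton] at hB
      rwa [hB]

theorem L_single_mem_sd {X : Type*} [Fintype X] [DecidableEq X] (Y : Set (Finset X))
    (A : Finset X) : ({A} : Finset (Finset X)) ∈ sd Y ↔ A ∈ Y ∧ A.Nonempty := by
  rw [L_sd_eq, L_single_mem_ChP]
  rfl

theorem lkF_empty {V : Type*} [Fintype V] [DecidableEq V] (Q : Set (Finset V)) :
    lkF Q ∅ = Q := by
  ext s
  simp [lkF]

theorem single_mem_lkF {V : Type*} [Fintype V] [DecidableEq V] (Q : Set (Finset V))
    (c : Finset V) (v : V) : {v} ∈ lkF Q c ↔ v ∉ c ∧ insert v c ∈ Q := by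
  unfold lkF
  rw [Finset.insert_eq]
  constructor
  · rintro ⟨h1, h2⟩
    exact ⟨Finset.disjoint_singleton_left.mp h1, h2⟩
  · rintro ⟨h1, h2⟩
    exact ⟨Finset.disjoint_singleton_left.mpr h1, h2⟩

theorem isCx_lkF {V : Type*} [Fintype V] [DecidableEq V] {Y : Set (Finset V)} (hY : IsCx Y)
    {c : Finset V} (hc : c ∈ Y) : IsCx (lkF Y c) := by
  constructor
  · exact ⟨Finset.disjoint_empty_left c, by rwa [Finset.empty_union]⟩
  · rintro σ ⟨h1, h2⟩ τ hτ
    exact ⟨Finset.disjoint_of_subset_left hτ h1,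
      hY.2 _ h2 _ (Finset.union_subset_union_left hτ)⟩

theorem join_comm {V : Type*} [Fintype V] [DecidableEq V] (Q₁ Q₂ : Set (Finset V)) :
    join Q₁ Q₂ = join Q₂ Q₁ := by
  ext s
  constructor <;>
  · rintro ⟨a, ha, b, hb, rfl⟩
    exact ⟨b, hb, a, ha, Finset.union_comm a b⟩

section
variable {X : Type*} [Fintype X] [DecidableEq X]

/-- the link of a chain with largest element `M` -/
theorem L_lk_ChP_max (P : Set (Finset X)) (c : Finset (Finset X)) (hc : c ∈ L_ChP P)
    (M : Finset X) (hM : M ∈ c) (hmax : ∀ B ∈ c, B ⊆ M) :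
    lkF (L_ChP P) c =
      join (lkF (L_ChP {B | B ∈ P ∧ B ⊂ M}) (c.erase M)) (L_ChP {B | B ∈ P ∧ M ⊂ B}) := by
  ext s
  constructor
  · rintro ⟨hd, hs⟩
    have hcmp : ∀ B ∈ s, B ⊂ M ∨ M ⊂ B := by
      intro B hB
      have hne : B ≠ M := by
        rintro rfl
        exact Finset.disjoint_left.mp hd hB hM
      rcases hs.1 B (Finset.mem_union_left _ hB) M (Finset.mem_union_right _ hM) with h | h
      · exact Or.inl (lt_of_le_of_ne h hne)
      · exact Or.inr (lt_of_le_of_ne h (Ne.symm hne))
    refine ⟨s.filter (fun B => B ⊂ M), ⟨?_, ?_, ?_⟩, s.filter (fun B => M ⊂ B), ⟨?_, ?_⟩, ?_⟩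
    · rw [Finset.disjoint_left] at hd ⊢
      intro B hB hB'
      exact hd (Finset.mem_of_mem_filter B hB) (Finset.mem_of_mem_erase hB')
    · apply hs.1.mono
      intro B hB
      rcases Finset.mem_union.mp hB with h | h
      · exact Finset.mem_union_left _ (Finset.mem_of_mem_filter B h)
      · exact Finset.mem_union_right _ (Finset.mem_of_mem_erase h)
    · intro B hB
      rcases Finset.mem_union.mp hB with h | h
      · have h' := Finset.mem_filter.mp h
        exact ⟨hs.2 B (Finset.mem_union_left _ h'.1), h'.2⟩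
      · have h' := Finset.mem_erase.mp h
        exact ⟨hs.2 B (Finset.mem_union_right _ h'.2), lt_of_le_of_ne (hmax B h'.2) h'.1⟩
    · apply hs.1.mono
      intro B hB
      exact Finset.mem_union_left _ (Finset.mem_of_mem_filter B hB)
    · intro B hB
      have h' := Finset.mem_filter.mp hB
      exact ⟨hs.2 B (Finset.mem_union_left _ h'.1), h'.2⟩
    · ext B
      simp only [Finset.mem_union, Finset.mem_filter]
      constructor
      · intro hB
        rcases hcmp B hB with h | h
        · exact Or.inl ⟨hB, h⟩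
        · exact Or.inr ⟨hB, h⟩
      · rintro (h | h) <;> exact h.1
  · rintro ⟨a, ⟨had, ha⟩, b, hb, rfl⟩
    have haM : ∀ B ∈ a, B ∈ P ∧ B ⊂ M := fun B hB => ha.2 B (Finset.mem_union_left _ hB)
    refine ⟨?_, ?_, ?_⟩
    · rw [Finset.disjoint_left]
      intro B hB hBc
      rcases Finset.mem_union.mp hB with h | h
      · rw [Finset.disjoint_left] at had
        exact had h (Finset.mem_erase.mpr ⟨(haM B h).2.ne, hBc⟩)
      · exact (lt_of_lt_of_le (hb.2 B h).2 (hmax B hBc)).ne rfl
    · -- chain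
      have key : ∀ B ∈ a ∪ b ∪ c, (B ∈ a ∪ c.erase M) ∨ B = M ∨ B ∈ b := by
        intro B hB
        rcases Finset.mem_union.mp hB with h | h
        · rcases Finset.mem_union.mp h with h | h
          · exact Or.inl (Finset.mem_union_left _ h)
          · exact Or.inr (Or.inr h)
        · by_cases hBM : B = M
          · exact Or.inr (Or.inl hBM)
          · exact Or.inl (Finset.mem_union_right _ (Finset.mem_erase.mpr ⟨hBM, h⟩))
      intro B hB C hC
      rcases key B hB with h1 | h1 | h1 <;> rcases key C hC with h2 | h2 | h2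
      · exact ha.1 B h1 C h2
      · left; rw [h2]; exact (ha.2 B h1).2.subset
      · left; exact ((ha.2 B h1).2.trans (hb.2 C h2).2).subset
      · right; rw [h1]; exact (ha.2 C h2).2.subset
      · left; rw [h1, h2]
      · left; rw [h1]; exact (hb.2 C h2).2.subset
      · right; exact ((ha.2 C h2).2.trans (hb.2 B h1).2).subset
      · right; rw [h2]; exact (hb.2 B h1).2.subset
      · exact hb.1 B h1 C h2
    · intro B hB
      rcases Finset.mem_union.mp hB with h | h
      · rcases Finset.mem_union.mp h with h | h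
        · exact (haM B h).1
        · exact (hb.2 B h).1
      · exact hc.2 B h

/-- a nonempty chain has a largest element -/
theorem L_exists_max {c : Finset (Finset X)} (hc : L_IsCh c) (hne : c.Nonempty) :
    ∃ M ∈ c, ∀ B ∈ c, B ⊆ M := by
  obtain ⟨M, hM, hmax⟩ := c.exists_max_image (fun B => B.card) hne
  refine ⟨M, hM, fun B hB => ?_⟩
  rcases hc B hB M hM with h | h
  · exact h
  · rw [Finset.eq_of_subset_of_card_le h (hmax B hB)]

/-- the part above `M` -/
theorem L_up_eq {Y : Set (Finset X)} (hY : IsCx Y) (M : Finset X) :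
    L_ChP {B | B ∈ {σ | σ ∈ Y ∧ σ.Nonempty} ∧ M ⊂ B} =
      (Finset.image (fun G => G ∪ M)) '' (sd (lkF Y M)) := by
  ext s
  constructor
  · rintro ⟨h1, h2⟩
    refine ⟨s.image (fun B => B \ M), ?_, ?_⟩
    · rw [L_sd_eq]
      refine ⟨?_, ?_⟩
      · intro A hA B hB
        obtain ⟨A', hA', rfl⟩ := Finset.mem_image.mp hA
        obtain ⟨B', hB', rfl⟩ := Finset.mem_image.mp hB
        rcases h1 A' hA' B' hB' with h | h
        · exact Or.inl (Finset.sdiff_subset_sdiff h (Finset.Subset.refl _))
        · exact Or.inr (Finset.sdiff_subset_sdiff h (Finset.Subset.refl _))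
      · intro A hA
        obtain ⟨A', hA', rfl⟩ := Finset.mem_image.mp hA
        have h3 := h2 A' hA'
        refine ⟨⟨Finset.sdiff_disjoint, ?_⟩, ?_⟩
        · rw [Finset.sdiff_union_of_subset h3.2.subset]
          exact h3.1.1
        · rw [Finset.sdiff_nonempty]
          exact h3.2.2
    · rw [Finset.image_image]
      conv_rhs => rw [← Finset.image_id (s := s)]
      apply Finset.image_congr
      intro B hB
      exact Finset.sdiff_union_of_subset (h2 B hB).2.subset
  · rintro ⟨c, hc, rfl⟩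
    rw [L_sd_eq] at hc
    refine ⟨?_, ?_⟩
    · intro A hA B hB
      obtain ⟨A', hA', rfl⟩ := Finset.mem_image.mp hA
      obtain ⟨B', hB', rfl⟩ := Finset.mem_image.mp hB
      rcases hc.1 A' hA' B' hB' with h | h
      · exact Or.inl (Finset.union_subset_union_left h)
      · exact Or.inr (Finset.union_subset_union_left h)
    · intro A hA
      obtain ⟨A', hA', rfl⟩ := Finset.mem_image.mp hA
      obtain ⟨⟨hd, hu⟩, hne⟩ := hc.2 A' hA'
      refine ⟨⟨hu, hne.mono Finset.subset_union_left⟩, ?_⟩
      rw [Finset.ssubset_iff_subset_ne]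
      refine ⟨Finset.subset_union_right, ?_⟩
      intro h
      obtain ⟨x, hx⟩ := hne
      have : x ∈ M := by rw [h]; exact Finset.mem_union_left _ hx
      exact Finset.disjoint_left.mp hd hx this

/-- the part below `M` -/
theorem L_dn_eq {Y : Set (Finset X)} (hY : IsCx Y) {M : Finset X} (hM : M ∈ Y) :
    L_ChP {B | B ∈ {σ | σ ∈ Y ∧ σ.Nonempty} ∧ B ⊂ M} = sd (bd M) := by
  rw [L_sd_eq]
  congr 1
  ext B
  constructor
  · rintro ⟨⟨_, h2⟩, h3⟩
    exact ⟨h3, h2⟩
  · rintro ⟨h1, h2⟩
    exact ⟨⟨hY.2 M hM B (Finset.ssubset_iff_subset_ne.mp h1).1, h2⟩, h1⟩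

/-- link of a chain with largest element `M` in the barycentric subdivision -/
theorem lk_sd_max {Y : Set (Finset X)} (hY : IsCx Y) (c : Finset (Finset X)) (hc : c ∈ sd Y)
    (M : Finset X) (hM : M ∈ c) (hmax : ∀ B ∈ c, B ⊆ M) :
    lkF (sd Y) c = join (lkF (sd (bd M)) (c.erase M))
      ((Finset.image (fun G => G ∪ M)) '' (sd (lkF Y M))) := by
  have hMY : M ∈ Y := (hc.1 M hM).1
  rw [L_sd_eq Y] at hc ⊢
  rw [L_lk_ChP_max _ c hc M hM hmax, L_up_eq hY M, L_dn_eq hY hMY]

end

end Chains

section LemL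
variable {V : Type*} [Fintype V] [DecidableEq V]

/-- link of a vertex in the barycentric subdivision = join of the part below and the part above -/
theorem lk_sd {Y : Set (Finset V)} (hY : IsCx Y) (F : Finset V) (hF : F ∈ Y) (hF' : F.Nonempty) :
    lkF (sd Y) {F} = join (sd (bd F)) ((Finset.image (fun G => G ∪ F)) '' (sd (lkF Y F))) := by
  have h := lk_sd_max hY {F} ((L_single_mem_sd Y F).mpr ⟨hF, hF'⟩) F
    (Finset.mem_singleton_self F) (fun B hB => by rw [Finset.mem_singleton] at hB; rw [hB])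
  rw [h, Finset.erase_singleton, lkF_empty]

theorem isCx_bd {I : Finset V} (hI : I.Nonempty) : IsCx (bd I) :=
  ⟨Finset.empty_ssubset.mpr hI, fun _ hσ _ hτ => lt_of_le_of_lt hτ hσ⟩

theorem lkF_bd {I A : Finset V} (hA : A ⊂ I) : lkF (bd I) A = bd (I \ A) := by
  ext σ
  constructor
  · rintro ⟨hd, hu⟩
    have h1 : σ ⊆ I \ A := by
      intro x hx
      rw [Finset.mem_sdiff]
      exact ⟨(Finset.ssubset_iff_subset_ne.mp hu).1 (Finset.mem_union_left _ hx),
        fun hxA => Finset.disjoint_left.mp hd hx hxA⟩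
    refine lt_of_le_of_ne h1 ?_
    rintro rfl
    apply (Finset.ssubset_iff_subset_ne.mp hu).2
    exact Finset.sdiff_union_of_subset hA.subset
  · intro h
    have h1 : σ ⊆ I \ A := (Finset.ssubset_iff_subset_ne.mp h).1
    have hd : Disjoint σ A := Finset.disjoint_of_subset_left h1 Finset.sdiff_disjoint
    refine ⟨hd, ?_⟩
    refine lt_of_le_of_ne (Finset.union_subset (h1.trans Finset.sdiff_subset) hA.subset) ?_
    intro he
    apply (Finset.ssubset_iff_subset_ne.mp h).2
    rw [← he, Finset.union_sdiff_right, Finset.sdiff_eq_self_of_disjoint hd]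

theorem L_sum_ite (a : V) (c : Finset V) (hc : c.Nonempty) (hne : c ≠ {a}) :
    0 < ∑ v ∈ c, (if v = a then (-(1 / 2) : ℝ) else 1) := by
  by_cases ha : a ∈ c
  · have hex : ∃ b ∈ c, b ≠ a := by
      by_contra hcon
      push Not at hcon
      apply hne
      ext x
      constructor
      · intro hx
        rw [Finset.mem_singleton]
        exact hcon x hx
      · intro hx
        rw [Finset.mem_singleton] at hx
        rwa [hx]
    obtain ⟨b, hb, hba⟩ := hex
    have hb' : b ∈ c.erase a := Finset.mem_erase.mpr ⟨hba, hb⟩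
    rw [← Finset.add_sum_erase c _ ha, if_pos rfl]
    have h1 : ∑ v ∈ c.erase a, (if v = a then (-(1 / 2) : ℝ) else 1) = (c.erase a).card := by
      rw [Finset.card_eq_sum_ones, Nat.cast_sum]
      apply Finset.sum_congr rfl
      intro x hx
      rw [if_neg (Finset.ne_of_mem_erase hx), Nat.cast_one]
    rw [h1]
    have h2 : 1 ≤ (c.erase a).card := Finset.card_pos.mpr ⟨b, hb'⟩
    have h3 : (1 : ℝ) ≤ ((c.erase a).card : ℝ) := by exact_mod_cast h2
    linarith
  · apply Finset.sum_pos
    · intro x hx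
      have : x ≠ a := fun h => ha (h ▸ hx)
      rw [if_neg this]
      exact one_pos
    · exact hc

/-- if only the vertex `a` is negative, then in the subdivision only `{a}` is negative -/
theorem L_sd_only {Y : Set (Finset V)} (hY : IsCx Y) {m : ℕ} (a : V)
    (h : Coord Y (fun v => if v = a then (-(1 / 2) : ℝ) else 1) m) (f : Finset V → ℝ)
    (hn : f {a} < 0) (hp : ∀ B : Finset V, B.Nonempty → B ∈ Y → B ≠ {a} → 0 < f B) :
    Coord (sd Y) f m := by
  refine Coord.congr_sign (isCx_sd Y) (Coord.sd hY h) ?_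
  intro B hB
  obtain ⟨hBY, hBne⟩ := (L_single_mem_sd Y B).mp hB
  by_cases hBa : B = {a}
  · subst hBa
    right; left
    refine ⟨?_, hn⟩
    simp
  · left
    exact ⟨L_sum_ite a B hBne hBa, hp B hBne hBY hBa⟩

/-- the upper part of the link is a sphere -/
theorem sph_up {Y : Set (Finset V)} (hY : IsCx Y) {M : Finset V} (hM : M ∈ Y) {m : ℕ}
    (h : Sph (lkF Y M) m) :
    Sph ((Finset.image (fun G => G ∪ M)) '' (sd (lkF Y M))) m := by
  refine Sph.map (fun G => G ∪ M) {G | Disjoint G M} ?_ ?_ (Sph.sd (isCx_lkF hY hM) h)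
  · intro σ hσ x hx
    exact (hσ.1 x hx).1.1
  · intro G hG H hH hGH
    have h1 : (G ∪ M) \ M = (H ∪ M) \ M := by rw [show G ∪ M = H ∪ M from hGH]
    rwa [Finset.union_sdiff_right, Finset.union_sdiff_right,
      Finset.sdiff_eq_self_of_disjoint hG, Finset.sdiff_eq_self_of_disjoint hH] at h1

/-- a coordinate on the upper part of the link -/
theorem coord_up {Y : Set (Finset V)} {M : Finset V} {m : ℕ} (f : Finset V → ℝ)
    (h : Coord (sd (lkF Y M)) (fun G => f (G ∪ M)) m) :
    Coord ((Finset.image (fun G => G ∪ M)) '' (sd (lkF Y M))) f m := by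
  refine Coord.map (fun G => G ∪ M) {G | Disjoint G M} ?_ ?_ h
  · intro σ hσ x hx
    exact (hσ.1 x hx).1.1
  · intro G hG H hH hGH
    have h1 : (G ∪ M) \ M = (H ∪ M) \ M := by rw [show G ∪ M = H ∪ M from hGH]
    rwa [Finset.union_sdiff_right, Finset.union_sdiff_right,
      Finset.sdiff_eq_self_of_disjoint hG, Finset.sdiff_eq_self_of_disjoint hH] at h1

theorem L_up_mem {Y : Set (Finset V)} {M : Finset V} {σ : Finset (Finset V)}
    (hσ : σ ∈ (Finset.image (fun G => G ∪ M)) '' (sd (lkF Y M))) {x : Finset V} (hx : x ∈ σ) :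
    M ⊂ x := by
  obtain ⟨c, hc, rfl⟩ := hσ
  obtain ⟨G, hG, rfl⟩ := Finset.mem_image.mp hx
  obtain ⟨⟨hd, _⟩, hne⟩ := hc.1 G hG
  refine lt_of_le_of_ne Finset.subset_union_right ?_
  intro h
  obtain ⟨y, hy⟩ := hne
  have h2 : y ∈ M := by rw [h]; exact Finset.mem_union_left _ hy
  exact Finset.disjoint_left.mp hd hy h2

theorem L_dn_mem {M : Finset V} {σ : Finset (Finset V)} (hσ : σ ∈ sd (bd M)) {x : Finset V}
    (hx : x ∈ σ) : x ⊂ M := (hσ.1 x hx).1

/-- link of the vertex `M`, coordinate below -/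
theorem coord_lk_dn {Y : Set (Finset V)} (hY : IsCx Y) {M : Finset V} (hM : M ∈ Y)
    (hM' : M.Nonempty) {m₁ m₂ : ℕ} (f : Finset V → ℝ) (h1 : Coord (sd (bd M)) f m₁)
    (h2 : Sph (lkF Y M) m₂) : Coord (lkF (sd Y) {M}) f (m₂ + m₁) := by
  rw [lk_sd hY M hM hM', join_comm]
  refine Coord.join {B | M ⊆ B} ?_ ?_ (sph_up hY hM h2) h1
  · intro σ hσ x hx
    exact (L_up_mem hσ hx).subset
  · intro σ hσ x hx hxM
    exact absurd (lt_of_lt_of_le (L_dn_mem hσ hx) hxM) (lt_irrefl _)

/-- link of the vertex `M`, coordinate above -/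
theorem coord_lk_up {Y : Set (Finset V)} (hY : IsCx Y) {M : Finset V} (hM : M ∈ Y)
    (hM' : M.Nonempty) {m₁ m₂ : ℕ} (f : Finset V → ℝ) (h1 : Sph (sd (bd M)) m₁)
    (h2 : Coord (sd (lkF Y M)) (fun G => f (G ∪ M)) m₂) :
    Coord (lkF (sd Y) {M}) f (m₁ + m₂) := by
  rw [lk_sd hY M hM hM']
  refine Coord.join {B | B ⊂ M} ?_ ?_ h1 (coord_up f h2)
  · intro σ hσ x hx
    exact L_dn_mem hσ hx
  · intro σ hσ x hx hxM
    exact absurd (lt_trans (L_up_mem hσ hx) hxM) (lt_irrefl _)

theorem L_only_single (I : Finset V) (a : V) (haI : ({a} : Finset V) ⊂ I) (f : Finset V → ℝ)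
    (hn : f {a} < 0) (hp : ∀ B : Finset V, B.Nonempty → B ⊂ I → B ≠ {a} → 0 < f B) :
    Coord (sd (bd I)) f (I.card - 1) := by
  have ha : a ∈ I := haI.subset (Finset.mem_singleton_self a)
  have hex : ∃ b ∈ I, b ≠ a := by
    obtain ⟨b, hb, hb'⟩ := Finset.exists_of_ssubset haI
    exact ⟨b, hb, fun h => hb' (by rw [h]; exact Finset.mem_singleton_self a)⟩
  obtain ⟨b, hb, hba⟩ := hex
  have h1 : Coord (bd I) (fun v => if v = a then (-(1 / 2) : ℝ) else 1) (I.card - 1) := by
    apply coord_bd
    · exact ⟨b, hb, by rw [if_neg hba]; exact one_pos⟩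
    · exact ⟨a, ha, by rw [if_pos rfl]; norm_num⟩
  exact L_sd_only (isCx_bd ⟨a, ha⟩) a h1 f hn (fun B hB hBI hBa => hp B hB hBI hBa)

/-- Lemma L: only the vertex `A` of the barycentric subdivision of the boundary of `I` is negative -/
theorem coord_sd_bd (I A : Finset V) (hA : A.Nonempty) (hAI : A ⊂ I) (f : Finset V → ℝ)
    (hn : f A < 0) (hp : ∀ B : Finset V, B.Nonempty → B ⊂ I → B ≠ A → 0 < f B) :
    Coord (sd (bd I)) f (I.card - 1) := by
  induction hI : I.card using Nat.strong_induction_on generalizing I A f with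
  | _ N ih =>
  subst hI
  have hIne : I.Nonempty := hA.mono hAI.subset
  have hcard : A.card < I.card := Finset.card_lt_card hAI
  have hA1 : 1 ≤ A.card := Finset.card_pos.mpr hA
  rcases hA1.lt_or_eq with hA2 | hA1'
  · -- `A` has at least two elements
    obtain ⟨w, hw⟩ := hA
    have hwA : ({w} : Finset V) ⊂ A := by
      refine lt_of_le_of_ne (Finset.singleton_subset_iff.mpr hw) ?_
      rintro h
      rw [← h, Finset.card_singleton] at hA2
      exact lt_irrefl _ hA2
    have hwI : ({w} : Finset V) ⊂ I := lt_trans hwA hAI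
    have hAne : A.Nonempty := ⟨w, hw⟩
    have hY : IsCx (bd I) := isCx_bd hIne
    have hwAne : ({w} : Finset V) ≠ A := hwA.ne
    set f2 : Finset V → ℝ := Function.update f {w} (-1) with hf2
    set f1 : Finset V → ℝ := Function.update f2 A 1 with hf1
    have hf1w : f1 {w} = -1 := by
      rw [hf1, Function.update_of_ne hwAne, hf2, Function.update_self]
    have hf1p : ∀ B : Finset V, B.Nonempty → B ⊂ I → B ≠ {w} → 0 < f1 B := by
      intro B hB hBI hBw
      by_cases hBA : B = A
      · rw [hBA, hf1, Function.update_self]; exact one_pos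
      · rw [hf1, Function.update_of_ne hBA, hf2, Function.update_of_ne hBw]
        exact hp B hB hBI hBA
    have hN : I.card - 1 = (I.card - 2) + 1 := by omega
    -- step 0
    have s0 : Coord (sd (bd I)) f1 ((I.card - 2) + 1) := by
      rw [← hN]
      exact L_only_single I w hwI f1 (by rw [hf1w]; norm_num) hf1p
    -- step 1: change the value at `A`
    have hcompl : (I \ A).card = I.card - A.card := Finset.card_sdiff_of_subset hAI.subset
    have s1 : Coord (sd (bd I)) f2 ((I.card - 2) + 1) := by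
      refine Coord.vertex (isCx_sd _) A ((L_single_mem_sd _ _).mpr ⟨hAI, hAne⟩) s0 ?_ ?_
      · have hc := L_only_single A w hwA f1 (by rw [hf1w]; norm_num)
          (fun B hB hBA hBw => hf1p B hB (lt_trans hBA hAI) hBw)
        have hs : Sph (lkF (bd I) A) ((I \ A).card - 1) := by
          rw [lkF_bd hAI]
          exact sph_bd _ (Finset.sdiff_nonempty.mpr hAI.2)
        have := coord_lk_dn hY (M := A) hAI hAne f1 hc hs
        have e : (I \ A).card - 1 + (A.card - 1) = I.card - 2 := by omega
        rwa [e] at this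
      · intro x hx
        rw [hf1, Function.update_of_ne hx]
    -- step 2: change the value at `{w}`
    rw [hN]
    refine Coord.vertex (isCx_sd _) ({w} : Finset V)
      ((L_single_mem_sd _ _).mpr ⟨hwI, Finset.singleton_nonempty w⟩) s1 ?_ ?_
    · have hs : Sph (sd (bd ({w} : Finset V))) 0 := by
        have := sph_bd ({w} : Finset V) (Finset.singleton_nonempty w)
        rw [Finset.card_singleton] at this
        exact Sph.sd (isCx_bd (Finset.singleton_nonempty w)) this
      have hcw : (I \ {w}).card = I.card - 1 := by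
        rw [Finset.card_sdiff_of_subset hwI.subset, Finset.card_singleton]
      have hAw : (A \ {w}).Nonempty := Finset.sdiff_nonempty.mpr hwA.2
      have hAwI : A \ {w} ⊂ I \ {w} := by
        obtain ⟨z, hz, hzA⟩ := Finset.exists_of_ssubset hAI
        refine Finset.ssubset_iff_subset_ne.mpr
          ⟨Finset.sdiff_subset_sdiff hAI.subset (Finset.Subset.refl _), ?_⟩
        intro h
        have hzw : z ∉ ({w} : Finset V) := by
          intro h'
          rw [Finset.mem_singleton] at h'
          exact hzA (h' ▸ hw)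
        have : z ∈ A \ {w} := by rw [h]; exact Finset.mem_sdiff.mpr ⟨hz, hzw⟩
        exact hzA (Finset.mem_sdiff.mp this).1
      have hne : ∀ B : Finset V, B.Nonempty → B ⊂ I \ {w} → B ∪ {w} ≠ {w} := by
        intro B hB hBI h
        obtain ⟨x, hx⟩ := hB
        have h1 : x ∈ ({w} : Finset V) := by rw [← h]; exact Finset.mem_union_left _ hx
        exact (Finset.mem_sdiff.mp (hBI.subset hx)).2 h1
      have hc : Coord (sd (bd (I \ {w}))) (fun G => f2 (G ∪ {w})) ((I \ {w}).card - 1) := by
        refine ih (I \ {w}).card (by omega) (I \ {w}) (A \ {w}) hAw hAwI _ ?_ ?_ rfl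
        · have e : A \ {w} ∪ {w} = A := Finset.sdiff_union_of_subset hwA.subset
          simp only [e]
          rw [hf2, Function.update_of_ne hwAne.symm]
          exact hn
        · intro B hB hBI hBA
          have h1 := hne B hB hBI
          rw [hf2, Function.update_of_ne h1]
          apply hp
          · exact hB.mono Finset.subset_union_left
          · have h2 : B ∈ lkF (bd I) {w} := by rw [lkF_bd hwI]; exact hBI
            exact h2.2
          · intro h3
            apply hBA
            rw [← h3, Finset.union_sdiff_right]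
            exact (Finset.sdiff_eq_self_of_disjoint (Finset.disjoint_of_subset_left hBI.subset
              Finset.sdiff_disjoint)).symm
      rw [← lkF_bd hwI] at hc
      have := coord_lk_up hY (M := {w}) hwI (Finset.singleton_nonempty w) f2 hs hc
      have e : 0 + ((I \ {w}).card - 1) = I.card - 2 := by omega
      rwa [e] at this
    · intro x hx
      rw [hf2, Function.update_of_ne hx]
  · -- `A` is a singleton
    obtain ⟨a, rfl⟩ := Finset.card_eq_one.mp hA1'.symm
    exact L_only_single I a hAI f hn hp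

end LemL

end Pool.Agent.DF302A
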