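import Pool.Agent.Work.MP_df302a_co.Fin97
import Pool.Agent.Work.MP_df302a_co.DAsm
import Pool.Agent.Work.MP_df302a_co.G10

/-! # MP_df302a_co : assembly -/

set_option autoImplicit false

namespace Pool.Agent.DF302A

open Finset Pool.Agent.DF302A.Orb Pool.Agent.DF302A.PI

/-- the records of the ten points -/
def qRec : Fin 10 → ℕ := ![1, 5, 9, 13, 89, 111, 153, 157, 161, 165]

theorem qRec_lt : ∀ i : Fin 10, qRec i < 6721 := by decide

theorem zRT_qRec : ∀ i : Fin 10, zRT (qRec i) = i + 1 := by decide +kernel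

theorem zVT_q : ∀ i : Fin 10, zVT ((i : ℕ) + 1) = 1048576 + 4 ^ (i : ℕ) := by decide +kernel

theorem dv_q : ∀ i j : Fin 10, (dv (1048576 + 4 ^ (i : ℕ)) j : ℕ) = if j = i then 1 else 0 := by
  decide +kernel

theorem q_lt (i : Fin 10) : 1048576 + 4 ^ (i : ℕ) < 16777216 := by
  have h : 4 ^ (i : ℕ) ≤ 4 ^ 9 := Nat.pow_le_pow_right (by norm_num) (by omega)
  have h2 : (4 : ℕ) ^ 9 = 262144 := by norm_num
  omega

theorem q_mem (i : Fin 10) : ({1048576 + 4 ^ (i : ℕ)} : Finset ℕ) ∈ zL := by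
  refine mem_LK.2 (Or.inr ⟨qRec i, qRec_lt i, ?_⟩)
  have h1 : zRT (qRec i) < 1024 := by rw [zRT_qRec]; omega
  rw [DR, SN, (zLV.digits (qRec_lt i)).1 h1, zRT_qRec, List.map_singleton, zVT_q]
  rfl

theorem mem_pre {V0 : Type} [DecidableEq V0] {e0 : V0 → ℕ} {L : Finset (Finset ℕ)}
    {c : Finset V0} : c ∈ FV.pre e0 L ↔ c.image e0 ∈ L := Iff.rfl

theorem V24_n_mk (a : ℕ) (h : a < 16777216) : V24.n ⟨a, h⟩ = a := rfl

/-- the vertex of a point -/
noncomputable def qV (i : Fin 10) : V24 := ⟨1048576 + 4 ^ (i : ℕ), q_lt i⟩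

theorem p24_q (i : Fin 10) : p24 (qV i) = cls {i} := by
  unfold p24 cls
  congr 1
  funext j
  rw [qV, V24_n_mk, dv_q]
  unfold ind
  by_cases h : j = i <;> simp [h]

theorem q_pre (i : Fin 10) : ({qV i} : Finset V24) ∈ FV.pre V24.n zL := by
  rw [mem_pre, Finset.image_singleton, qV, V24_n_mk]
  exact q_mem i

theorem main_of
    (hφ : ∃ φ : M →ₗ[ℤ] ℤ, φ (zc zVT zRT zP zN) = 1 ∧
      ∀ g : M10, g ≠ 1 → φ (mg g (zc zVT zRT zP zN)) = 0)
    (hinj : Set.InjOn (fun t => linP p24 t) (cone (FV.pre V24.n zL)))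
    (hmv : ∀ g : M10, g ≠ 1 → ∀ c ∈ FV.pre V24.n zS, ∀ c' ∈ FV.pre V24.n zS,
      ∃ w, FV.rho g w - w ∉
        Submodule.span ℝ (p24 '' (c ∪ c'.image (fun v => g • v) : Finset V24))) :
    ∃ (Γ : Type) (_ : Group Γ), cpd Γ < gcpd Γ := by
  obtain ⟨A, -, hK, hcard, hspan⟩ := zcone hφ
  have hDic : FV.Dic V24.n y24 zL := dic24 zL_lt
  have hS := hDic.sim zS_sub hK hcard hspan
  have D := data24 zL_isCx zL_inv zL_card zS_isCx zS_sub zL_lt hinj hmv
  obtain ⟨p, hp1, hp2, hp3⟩ := D.position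
  have hgood : Good (cK p (FV.KV (FV.pre V24.n zL) (FV.pre V24.n zS))) :=
    good_of_sim_pt finrank_W10 D.isCx D.card_le hp3 hDic.k_inj hS
  refine final_of_good _ ?_ ?_ hgood
  · rintro a y ⟨c, hc, t, ht, rfl⟩
    refine ⟨c.image (fun x => a • x), D.smul a c hc, fun x => t (a⁻¹ • x), ?_, ?_⟩
    · intro x hx
      obtain ⟨x', hx', rfl⟩ := Finset.mem_image.1 hx
      show 0 ≤ t (a⁻¹ • a • x')
      rw [inv_smul_smul]
      exact ht x' hx'
    · rw [Finset.sum_image fun x _ y _ h => MulAction.injective a h, map_sum]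
      refine Finset.sum_congr rfl fun x _ => ?_
      show _ = t (a⁻¹ • a • x) • p (a • x)
      rw [map_smul, inv_smul_smul, hp1]
      rfl
  · intro i
    rw [← p24_q, ← hp2]
    refine ⟨{Sum.inl (qV i)}, Or.inl ⟨{qV i}, q_pre i, ?_⟩, fun _ => 1, fun _ _ => zero_le_one, ?_⟩
    · rw [Finset.image_singleton]
    · rw [Finset.sum_singleton, one_smul]

end Pool.Agent.DF302A
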