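import Pool.Agent.Work.MP_df302a_co.Main97
import Pool.Agent.Work.MP_df302a_co.PhiD
import Pool.Agent.Work.MP_df302a_co.EmbC
import Pool.Agent.Work.MP_df302a_co.HFin

/-! # MP_df302a_co : the theorem -/

set_option autoImplicit false

namespace Pool.Agent.DF302A

theorem cpd_lt_gcpd_exists : ∃ (Γ : Type) (_ : Group Γ), cpd Γ < gcpd Γ :=
  main_of phi_ok EK.hinj24 fun g hg c hc c' hc' => HI.hmv g hg c hc c' hc'

end Pool.Agent.DF302A
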