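import Pool.Agent.Work.MP_df302a_co.I7

/-! # MP_df302a_co : orbits of expansions. A complex `K` with an action of a group `G` on its
vertices is built from a smaller complex `L` by orbits of elementary expansions and one orbit of
tetrahedra. This gives the data needed in part (I). -/

set_option autoImplicit false

namespace Pool.Agent.DF302A.Orb

open Finset Pool.Agent.DF302A.PI

section Act
variable {G : Type*} [Group G] [MulAction G ℕ]

/-- image of a simplex -/
def im (g : G) (c : Finset ℕ) : Finset ℕ := c.image (fun v => g • v)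

theorem mem_im {g : G} {c : Finset ℕ} {v : ℕ} : v ∈ im g c ↔ ∃ a ∈ c, g • a = v := by simp [im]

theorem im_one (c : Finset ℕ) : im (1 : G) c = c := by simp [im]

theorem im_mul (g h : G) (c : Finset ℕ) : im (g * h) c = im g (im h c) := by
  simp only [im, Finset.image_image, Function.comp_def, mul_smul]

theorem card_im (g : G) (c : Finset ℕ) : (im g c).card = c.card :=
  Finset.card_image_of_injective _ (MulAction.injective g)

theorem im_inv_im (g : G) (c : Finset ℕ) : im g⁻¹ (im g c) = c := by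
  rw [← im_mul, inv_mul_cancel, im_one]

theorem im_im_inv (g : G) (c : Finset ℕ) : im g (im g⁻¹ c) = c := by
  rw [← im_mul, mul_inv_cancel, im_one]

theorem im_inj (g : G) : Function.Injective (im g) := fun a b h => by
  rw [← im_inv_im g a, h, im_inv_im]

theorem im_erase (g : G) (c : Finset ℕ) (x : ℕ) : im g (c.erase x) = (im g c).erase (g • x) :=
  Finset.image_erase (MulAction.injective g) c x

theorem im_insert (g : G) (c : Finset ℕ) (x : ℕ) : im g (insert x c) = insert (g • x) (im g c) :=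
  Finset.image_insert _ _ _

theorem im_subset {g : G} {c d : Finset ℕ} : im g c ⊆ im g d ↔ c ⊆ d :=
  Finset.image_subset_image_iff (MulAction.injective g)

theorem subset_im {g : G} {c d : Finset ℕ} (h : d ⊆ im g c) : ∃ e, e ⊆ c ∧ d = im g e :=
  ⟨im g⁻¹ d, by rw [← im_subset (g := g), im_im_inv]; exact h, (im_im_inv g d).symm⟩

/-- the group preserves the order of the vertices of `c` -/
def Ord (G : Type*) [Group G] [MulAction G ℕ] (c : Finset ℕ) : Prop :=
  ∀ g : G, ∀ a ∈ c, ∀ b ∈ c, a < b → g • a < g • b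

theorem Ord.mono {c d : Finset ℕ} (h : Ord G c) (hd : d ⊆ c) : Ord G d :=
  fun g a ha b hb hab => h g a (hd ha) b (hd hb) hab

theorem Ord.im {c : Finset ℕ} (h : Ord G c) (g : G) : Ord G (im g c) := by
  intro k a ha b hb hab
  obtain ⟨a, ha', rfl⟩ := mem_im.1 ha
  obtain ⟨b, hb', rfl⟩ := mem_im.1 hb
  have hlt : a < b := by
    rcases lt_trichotomy a b with h1 | h1 | h1
    · exact h1
    · subst h1; exact absurd hab (lt_irrefl _)
    · exact absurd (h g b hb' a ha' h1) (not_lt_of_gt hab)
  have := h (k * g) a ha' b hb' hlt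
  rwa [mul_smul, mul_smul] at this

theorem sort_im {c : Finset ℕ} (h : Ord G c) (g : G) :
    (Orb.im g c).sort (· ≤ ·) = (c.sort (· ≤ ·)).map (fun v => g • v) := by
  have hs : ((c.sort (· ≤ ·)).map (fun v => g • v)).Pairwise (· < ·) := by
    rw [List.pairwise_map]
    have h1 : (c.sort (· ≤ ·)).Pairwise (· < ·) := (Finset.sortedLT_sort c).pairwise
    refine List.Pairwise.imp_of_mem ?_ h1
    intro a b ha hb hab
    exact h g a ((Finset.mem_sort _).1 ha) b ((Finset.mem_sort _).1 hb) hab
  have h2 : ((c.sort (· ≤ ·)).map (fun v => g • v)).toFinset = Orb.im g c := by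
    ext v
    simp only [List.mem_toFinset, List.mem_map, Finset.mem_sort, mem_im]
  rw [← h2]
  exact List.toFinset_sort (· ≤ ·) (hs.imp fun hab => ne_of_lt hab) |>.2 (hs.imp fun hab => le_of_lt hab)

theorem opp_im {c : Finset ℕ} (h : Ord G c) (g : G) (i : ℕ) (hi : i < c.card) :
    opp (im g c) i = im g (opp c i) := by
  have hl : (c.sort (· ≤ ·)).length = c.card := Finset.length_sort _
  unfold opp
  rw [sort_im h g, im_erase]
  congr 1
  rw [List.getD_eq_getElem _ _ (by rw [List.length_map, hl]; exact hi), List.getElem_map,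
    List.getD_eq_getElem _ _ (by rw [hl]; exact hi)]

section Chains

/-- chains: formal sums of simplices -/
abbrev M := Finset ℕ →₀ ℤ

/-- the simplex `t` as a chain -/
noncomputable def sg (t : Finset ℕ) : M := Finsupp.single t 1

/-- the boundary of a tetrahedron -/
noncomputable def bd4 (τ : Finset ℕ) : M := sg (opp τ 0) - sg (opp τ 1) + sg (opp τ 2) - sg (opp τ 3)

/-- the relation of `τ` -/
noncomputable def rel (τ : Finset ℕ) : M := if τ.card = 3 then sg τ else bd4 τ

/-- all relations -/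
noncomputable def R (K A : Finset (Finset ℕ)) : Submodule ℤ M :=
  Submodule.span ℤ (rel '' {τ | τ ∈ tris A ∨ τ ∈ tets K})

/-- action of the group on chains -/
noncomputable def mg (g : G) : M →ₗ[ℤ] M := Finsupp.lmapDomain ℤ ℤ (im g)

theorem mg_sg (g : G) (t : Finset ℕ) : mg g (sg t) = sg (im g t) := by
  simp [mg, sg, Finsupp.mapDomain_single]

theorem mg_mul (g h : G) (m : M) : mg g (mg h m) = mg (g * h) m := by
  have e : im (g * h) = im g ∘ im h := by funext c; exact im_mul g h c
  simp only [mg, Finsupp.lmapDomain_apply, e, Finsupp.mapDomain_comp]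

theorem mg_one (m : M) : mg (1 : G) m = m := by
  have e : im (1 : G) = id := by funext c; exact im_one c
  simp only [mg, Finsupp.lmapDomain_apply, e, Finsupp.mapDomain_id]

theorem mg_bd4 {g : G} {τ : Finset ℕ} (h : Ord G τ) (hc : τ.card = 4) :
    mg g (bd4 τ) = bd4 (im g τ) := by
  simp only [bd4, map_add, map_sub, mg_sg]
  rw [opp_im h g 0 (by omega), opp_im h g 1 (by omega), opp_im h g 2 (by omega),
    opp_im h g 3 (by omega)]

theorem mem_tris {K : Finset (Finset ℕ)} {c : Finset ℕ} : c ∈ tris K ↔ c ∈ K ∧ c.card = 3 := by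
  simp [tris]

theorem mem_tets {K : Finset (Finset ℕ)} {c : Finset ℕ} : c ∈ tets K ↔ c ∈ K ∧ c.card = 4 := by
  simp [tets]

theorem R_mono {K K' A A' : Finset (Finset ℕ)} (hK : K ⊆ K') (hA : A ⊆ A') : R K A ≤ R K' A' := by
  refine Submodule.span_mono (Set.image_mono ?_)
  rintro τ (h | h)
  · exact Or.inl (mem_tris.2 ⟨hA (mem_tris.1 h).1, (mem_tris.1 h).2⟩)
  · exact Or.inr (mem_tets.2 ⟨hK (mem_tets.1 h).1, (mem_tets.1 h).2⟩)

end Chains

section Orbit
variable [Fintype G]

/-- orbit of a simplex -/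
def orb (G : Type*) [Group G] [MulAction G ℕ] [Fintype G] (c : Finset ℕ) : Finset (Finset ℕ) :=
  Finset.univ.image (fun g : G => im g c)

theorem mem_orb {c d : Finset ℕ} : d ∈ orb G c ↔ ∃ g : G, im g c = d := by simp [orb]

theorem self_mem_orb (c : Finset ℕ) : c ∈ orb G c := mem_orb.2 ⟨1, im_one c⟩

theorem im_mem_orb {c d : Finset ℕ} (g : G) (h : d ∈ orb G c) : im g d ∈ orb G c := by
  obtain ⟨k, rfl⟩ := mem_orb.1 h
  exact mem_orb.2 ⟨g * k, im_mul g k c⟩

theorem card_of_mem_orb {c d : Finset ℕ} (h : d ∈ orb G c) : d.card = c.card := by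
  obtain ⟨k, rfl⟩ := mem_orb.1 h
  exact card_im k c

theorem card_image_eq {ι α β : Type*} [Fintype ι] [DecidableEq α] [DecidableEq β] (f : ι → α)
    (f' : ι → β) (h : ∀ i j, f i = f j ↔ f' i = f' j) :
    (Finset.univ.image f).card = (Finset.univ.image f').card := by
  classical
  have h1 : ((Finset.univ.image (fun i => (f i, f' i))).image Prod.fst).card =
      (Finset.univ.image (fun i => (f i, f' i))).card := by
    refine Finset.card_image_of_injOn ?_
    rintro ⟨a, b⟩ hab ⟨a', b'⟩ hab' e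
    simp only [Finset.coe_image, Finset.coe_univ, Set.image_univ, Set.mem_range, Prod.mk.injEq]
      at hab hab' e
    obtain ⟨i, rfl, rfl⟩ := hab
    obtain ⟨j, rfl, rfl⟩ := hab'
    rw [Prod.mk.injEq]
    exact ⟨e, (h i j).1 e⟩
  have h2 : ((Finset.univ.image (fun i => (f i, f' i))).image Prod.snd).card =
      (Finset.univ.image (fun i => (f i, f' i))).card := by
    refine Finset.card_image_of_injOn ?_
    rintro ⟨a, b⟩ hab ⟨a', b'⟩ hab' e
    simp only [Finset.coe_image, Finset.coe_univ, Set.image_univ, Set.mem_range, Prod.mk.injEq]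
      at hab hab' e
    obtain ⟨i, rfl, rfl⟩ := hab
    obtain ⟨j, rfl, rfl⟩ := hab'
    rw [Prod.mk.injEq]
    exact ⟨(h i j).2 e, e⟩
  rw [Finset.image_image] at h1 h2
  exact h1.trans h2.symm

/-- adding a facet and its simplex to a complex -/
theorem isCx_add {K : Set (Finset ℕ)} (hK : IsCx K) {F : Finset ℕ} {x : ℕ} (hx : x ∉ F)
    (hy : ∀ y ∈ F, insert x (F.erase y) ∈ K) (hne : F.Nonempty) :
    IsCx (insert F (insert (insert x F) K)) := by
  obtain ⟨h0, hd⟩ := hK
  have hsub : ∀ τ : Finset ℕ, τ ⊂ F → τ ∈ K := by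
    intro τ hτ
    obtain ⟨y, hy1, hy2⟩ := Finset.exists_of_ssubset hτ
    refine hd _ (hy y hy1) τ ?_
    intro z hz
    exact Finset.mem_insert_of_mem (Finset.mem_erase.2 ⟨fun h => hy2 (h ▸ hz), hτ.1 hz⟩)
  refine ⟨Or.inr (Or.inr h0), ?_⟩
  rintro σ (rfl | rfl | hσ) τ hτ
  · rcases eq_or_ssubset_of_subset hτ with rfl | h
    · exact Or.inl rfl
    · exact Or.inr (Or.inr (hsub τ h))
  · rcases eq_or_ssubset_of_subset hτ with rfl | h
    · exact Or.inr (Or.inl rfl)
    · obtain ⟨y, hy1, hy2⟩ := Finset.exists_of_ssubset h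
      rcases Finset.mem_insert.1 hy1 with rfl | hy3
      · have h3 : τ ⊆ F := by
          intro z hz
          rcases Finset.mem_insert.1 (h.1 hz) with rfl | h4
          · exact absurd hz hy2
          · exact h4
        rcases eq_or_ssubset_of_subset h3 with rfl | h4
        · exact Or.inl rfl
        · exact Or.inr (Or.inr (hsub τ h4))
      · refine Or.inr (Or.inr (hd _ (hy y hy3) τ ?_))
        intro z hz
        rcases Finset.mem_insert.1 (h.1 hz) with rfl | h4
        · exact Finset.mem_insert_self _ _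
        · exact Finset.mem_insert_of_mem (Finset.mem_erase.2 ⟨fun h => hy2 (h ▸ hz), h4⟩)
  · exact Or.inr (Or.inr (hd σ hσ τ hτ))

/-- data of an orbit of expansions -/
structure OStep (G : Type*) [Group G] [MulAction G ℕ] (K : Finset (Finset ℕ)) (E : Finset ℕ)
    (x : ℕ) : Prop where
  hx : x ∈ E
  h2 : 2 ≤ E.card
  h4 : E.card ≤ 4
  hF : E.erase x ∉ K
  hy : ∀ y ∈ E, y ≠ x → E.erase y ∈ K
  hst : ∀ g : G, im g (E.erase x) = E.erase x → im g E = E
  ord : Ord G E

/-- the complex after an orbit of expansions -/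
def nxt (G : Type*) [Group G] [MulAction G ℕ] [Fintype G] (K : Finset (Finset ℕ)) (E : Finset ℕ)
    (x : ℕ) : Finset (Finset ℕ) := K ∪ orb G (E.erase x) ∪ orb G E

theorem mem_nxt {K : Finset (Finset ℕ)} {E c : Finset ℕ} {x : ℕ} :
    c ∈ nxt G K E x ↔ c ∈ K ∨ (∃ g : G, im g (E.erase x) = c) ∨ ∃ g : G, im g E = c := by
  simp [nxt, mem_orb]

theorem nxt_inv {K : Finset (Finset ℕ)} {E : Finset ℕ} {x : ℕ}
    (h : ∀ g : G, ∀ c ∈ K, im g c ∈ K) (g : G) (c : Finset ℕ) (hc : c ∈ nxt G K E x) :
    im g c ∈ nxt G K E x := by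
  rw [mem_nxt] at hc ⊢
  rcases hc with hc | ⟨k, rfl⟩ | ⟨k, rfl⟩
  · exact Or.inl (h g c hc)
  · exact Or.inr (Or.inl ⟨g * k, im_mul g k _⟩)
  · exact Or.inr (Or.inr ⟨g * k, im_mul g k _⟩)

/-- the orbit of expansions, one after the other, inside any complex which contains the result.
`A` need not be invariant. -/
theorem inn_orbit {A : Finset (Finset ℕ)} {E : Finset ℕ} {x : ℕ} (hA : IsCx (A : Set (Finset ℕ)))
    (hx : x ∈ E) (h2 : 2 ≤ E.card) (hF : ∀ g : G, im g (E.erase x) ∉ A)
    (hy : ∀ g : G, ∀ y ∈ E, y ≠ x → im g (E.erase y) ∈ A)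
    (hst : ∀ g : G, im g (E.erase x) = E.erase x → im g E = E) {Z : Set (Finset ℕ)}
    (hZ : ∀ g : G, im g E ∈ Z) :
    IsCx ((nxt G A E x : Finset (Finset ℕ)) : Set (Finset ℕ)) ∧
      Inn Z (A : Set (Finset ℕ)) ((nxt G A E x : Finset (Finset ℕ)) : Set (Finset ℕ)) := by
  classical
  have hne : (E.erase x).Nonempty := by
    rw [← Finset.card_pos, Finset.card_erase_of_mem hx]; omega
  have hst' : ∀ g h : G, im g (E.erase x) = im h (E.erase x) → im g E = im h E := by
    intro g h e
    have := hst (h⁻¹ * g) (by rw [im_mul, e, im_inv_im])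
    rw [im_mul] at this
    rw [← im_im_inv h (im g E), this]
  have key : ∀ S : Finset G,
      IsCx (((A ∪ S.image (fun g => im g (E.erase x)) ∪ S.image (fun g => im g E) :
        Finset (Finset ℕ)) : Set (Finset ℕ))) ∧
      Inn Z (A : Set (Finset ℕ)) ((A ∪ S.image (fun g => im g (E.erase x)) ∪
        S.image (fun g => im g E) : Finset (Finset ℕ)) : Set (Finset ℕ)) := by
    intro S
    induction S using Finset.induction_on with
    | empty => 
      simp only [Finset.image_empty, Finset.union_empty]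
      exact ⟨hA, Inn.refl _⟩
    | insert g S hg ih =>
      set AS := A ∪ S.image (fun g => im g (E.erase x)) ∪ S.image (fun g => im g E) with hAS
      by_cases hmem : im g (E.erase x) ∈ S.image (fun g => im g (E.erase x))
      · obtain ⟨k, hk, e⟩ := Finset.mem_image.1 hmem
        have e2 : im g E ∈ S.image (fun g => im g E) :=
          Finset.mem_image.2 ⟨k, hk, hst' k g e⟩
        have : A ∪ (insert g S).image (fun g => im g (E.erase x)) ∪
            (insert g S).image (fun g => im g E) = AS := by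
          rw [Finset.image_insert, Finset.image_insert, Finset.insert_eq_of_mem hmem,
            Finset.insert_eq_of_mem e2]
        rw [this]
        exact ih
      · have e1 : im g E = insert (g • x) (im g (E.erase x)) := by
          rw [← im_insert, Finset.insert_erase hx]
        have hxn : g • x ∉ im g (E.erase x) := by
          rw [im_erase]; exact Finset.notMem_erase _ _
        have hcF : (im g (E.erase x)).card + 1 = E.card := by
          rw [card_im, Finset.card_erase_of_mem hx]; omega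
        have hyy : ∀ y ∈ im g (E.erase x), insert (g • x) ((im g (E.erase x)).erase y) ∈ A := by
          intro y hyy
          obtain ⟨y, hy', rfl⟩ := mem_im.1 hyy
          have h5 := Finset.mem_erase.1 hy'
          have h6 := hy g y h5.2 h5.1
          have h7 : insert (g • x) ((im g (E.erase x)).erase (g • y)) = im g (E.erase y) := by
            rw [← im_erase, ← im_insert]
            congr 1
            rw [Finset.erase_right_comm, Finset.insert_erase (Finset.mem_erase.2 ⟨h5.1.symm, hx⟩)]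
          rw [h7]
          exact h6
        have hAS' : ∀ c ∈ A, c ∈ AS := fun c hc => by
          rw [hAS]; exact Finset.mem_union_left _ (Finset.mem_union_left _ hc)
        have hnF : im g (E.erase x) ∉ AS := by
          rw [hAS, Finset.mem_union, Finset.mem_union]
          rintro ((h | h) | h)
          · exact hF g h
          · exact hmem h
          · obtain ⟨k, _, e⟩ := Finset.mem_image.1 h
            have := congrArg Finset.card e
            rw [card_im] at this
            omega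
        have heq : ((A ∪ (insert g S).image (fun g => im g (E.erase x)) ∪
            (insert g S).image (fun g => im g E) : Finset (Finset ℕ)) : Set (Finset ℕ)) =
            insert (im g (E.erase x)) (insert (insert (g • x) (im g (E.erase x)))
              (AS : Set (Finset ℕ))) := by
          rw [← e1, hAS]
          ext c
          simp only [Finset.coe_union, Set.mem_union, Finset.mem_coe, Finset.mem_image,
            Finset.mem_insert, Set.mem_insert_iff, exists_eq_or_imp]
          rw [eq_comm (a := im g (E.erase x)), eq_comm (a := im g E)]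
          generalize (∃ a ∈ S, im a (E.erase x) = c) = p1
          generalize (∃ a ∈ S, im a E = c) = p2
          generalize (c = im g (E.erase x)) = p3
          generalize (c = im g E) = p4
          generalize (c ∈ A) = p5
          tauto
        rw [heq]
        refine ⟨isCx_add ih.1 hxn (fun y hy' => hAS' _ (hyy y hy'))
          (Finset.card_pos.1 (by omega)), ?_⟩
        refine ih.2.trans (Inn.exp (F := im g (E.erase x)) (x := g • x)
          ⟨ih.1, hxn, Finset.card_pos.1 (by omega), fun h => hnF h,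
            fun y hy' => hAS' _ (hyy y hy'), rfl⟩ ?_)
        rw [← e1]
        exact hZ g
  exact key Finset.univ

/-! ### the state -/

/-- invariants of the construction -/
structure St (G : Type*) [Group G] [MulAction G ℕ] (K A : Finset (Finset ℕ)) (d : ℕ) : Prop where
  cxK : IsCx (K : Set (Finset ℕ))
  cxA : IsCx (A : Set (Finset ℕ))
  inv : ∀ g : G, ∀ c ∈ K, im g c ∈ K
  card : ∀ c ∈ K, c.card ≤ 4
  sub : A ⊆ K
  low : ∀ c ∈ K, c.card ≤ 2 → c ∈ A
  A3 : ∀ c ∈ A, c.card ≤ 3
  coll : ∃ p, Inn (A : Set (Finset ℕ)) (pt p) (A : Set (Finset ℕ))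
  cnt : (tris A).card + (tets K).card + d = (tris K).card
  ord : ∀ c ∈ K, Ord G c

omit [Fintype G] in
theorem OStep.F_notMem {K : Finset (Finset ℕ)} {E : Finset ℕ} {x : ℕ} (h : OStep G K E x)
    (hinv : ∀ g : G, ∀ c ∈ K, im g c ∈ K) (g : G) : im g (E.erase x) ∉ K := fun hm =>
  h.hF (by have := hinv g⁻¹ _ hm; rwa [im_inv_im] at this)

omit [Fintype G] in
theorem OStep.facet {K : Finset (Finset ℕ)} {E : Finset ℕ} {x : ℕ} (h : OStep G K E x)
    (hinv : ∀ g : G, ∀ c ∈ K, im g c ∈ K) (g : G) (y : ℕ) (hy : y ∈ E) (hyx : y ≠ x) :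
    im g (E.erase y) ∈ K := hinv g _ (h.hy y hy hyx)

omit [Fintype G] in
theorem OStep.E_notMem {K : Finset (Finset ℕ)} {E : Finset ℕ} {x : ℕ} (h : OStep G K E x)
    (hcx : IsCx (K : Set (Finset ℕ)))
    (hinv : ∀ g : G, ∀ c ∈ K, im g c ∈ K) (g : G) : im g E ∉ K := fun hm =>
  h.F_notMem hinv g (hcx.2 _ hm _ (im_subset.2 (Finset.erase_subset _ _)))

omit [Fintype G] in
/-- the orbits of `F` and of `E` have the same size -/
theorem OStep.eq_iff {K : Finset (Finset ℕ)} {E : Finset ℕ} {x : ℕ} (h : OStep G K E x)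
    (hinv : ∀ g : G, ∀ c ∈ K, im g c ∈ K) (g k : G) :
    im g (E.erase x) = im k (E.erase x) ↔ im g E = im k E := by
  constructor
  · intro e
    have := h.hst (k⁻¹ * g) (by rw [im_mul, e, im_inv_im])
    rw [im_mul] at this
    rw [← im_im_inv k (im g E), this]
  · intro e
    have e1 : im (k⁻¹ * g) E = E := by rw [im_mul, e, im_inv_im]
    have hx1 : (k⁻¹ * g) • x ∈ E := by
      have : (k⁻¹ * g) • x ∈ im (k⁻¹ * g) E := mem_im.2 ⟨x, h.hx, rfl⟩
      rwa [e1] at this
    have hx2 : (k⁻¹ * g) • x = x := by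
      by_contra hne
      have h1 := h.hy _ hx1 hne
      have h2 : im (k⁻¹ * g) (E.erase x) = E.erase ((k⁻¹ * g) • x) := by rw [im_erase, e1]
      rw [← h2] at h1
      exact h.F_notMem hinv _ h1
    have e2 : im (k⁻¹ * g) (E.erase x) = E.erase x := by rw [im_erase, e1, hx2]
    rw [im_mul] at e2
    rw [← im_im_inv k (im g (E.erase x)), e2]

theorem tris_union {K K' : Finset (Finset ℕ)} : tris (K ∪ K') = tris K ∪ tris K' := by
  simp [tris, Finset.filter_union]

theorem tets_union {K K' : Finset (Finset ℕ)} : tets (K ∪ K') = tets K ∪ tets K' := by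
  simp [tets, Finset.filter_union]

theorem tris_orb {c : Finset ℕ} : tris (orb G c) = if c.card = 3 then orb G c else ∅ := by
  split_ifs with h
  · ext d
    rw [mem_tris]
    exact ⟨fun h => h.1, fun h1 => ⟨h1, by rw [card_of_mem_orb h1, h]⟩⟩
  · ext d
    rw [mem_tris]
    simp only [Finset.notMem_empty, iff_false, not_and]
    intro h1 h2
    exact h (by rw [← card_of_mem_orb h1, h2])

theorem tets_orb {c : Finset ℕ} : tets (orb G c) = if c.card = 4 then orb G c else ∅ := by
  split_ifs with h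
  · ext d
    rw [mem_tets]
    exact ⟨fun h => h.1, fun h1 => ⟨h1, by rw [card_of_mem_orb h1, h]⟩⟩
  · ext d
    rw [mem_tets]
    simp only [Finset.notMem_empty, iff_false, not_and]
    intro h1 h2
    exact h (by rw [← card_of_mem_orb h1, h2])

theorem card_union_orb {S : Finset (Finset ℕ)} {c : Finset ℕ} (h : ∀ g : G, im g c ∉ S) :
    (S ∪ orb G c).card = S.card + (orb G c).card := by
  refine Finset.card_union_of_disjoint (Finset.disjoint_left.2 ?_)
  intro d hd hd'
  obtain ⟨g, rfl⟩ := mem_orb.1 hd'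
  exact h g hd

theorem OStep.card_orb {K : Finset (Finset ℕ)} {E : Finset ℕ} {x : ℕ} (h : OStep G K E x)
    (hinv : ∀ g : G, ∀ c ∈ K, im g c ∈ K) : (orb G (E.erase x)).card = (orb G E).card :=
  card_image_eq _ _ (fun g k => h.eq_iff hinv g k)

theorem OStep.isCx {K : Finset (Finset ℕ)} {E : Finset ℕ} {x : ℕ} (h : OStep G K E x)
    (hcx : IsCx (K : Set (Finset ℕ))) (hinv : ∀ g : G, ∀ c ∈ K, im g c ∈ K) :
    IsCx ((nxt G K E x : Finset (Finset ℕ)) : Set (Finset ℕ)) :=
  (inn_orbit hcx h.hx h.h2 (h.F_notMem hinv) (fun g y hy hyx => h.facet hinv g y hy hyx) h.hst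
    (Z := Set.univ) (fun _ => trivial)).1

theorem nxt_ord {K : Finset (Finset ℕ)} {E : Finset ℕ} {x : ℕ} (h : OStep G K E x)
    (ho : ∀ c ∈ K, Ord G c) (c : Finset ℕ) (hc : c ∈ nxt G K E x) : Ord G c := by
  rcases mem_nxt.1 hc with hc | ⟨g, rfl⟩ | ⟨g, rfl⟩
  · exact ho c hc
  · exact (h.ord.mono (Finset.erase_subset _ _)).im g
  · exact h.ord.im g

theorem nxt_card {K : Finset (Finset ℕ)} {E : Finset ℕ} {x : ℕ} (h : OStep G K E x)
    (ho : ∀ c ∈ K, c.card ≤ 4) (c : Finset ℕ) (hc : c ∈ nxt G K E x) : c.card ≤ 4 := by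
  rcases mem_nxt.1 hc with hc | ⟨g, rfl⟩ | ⟨g, rfl⟩
  · exact ho c hc
  · rw [card_im]
    exact (Finset.card_le_card (Finset.erase_subset _ _)).trans h.h4
  · rw [card_im]
    exact h.h4

/-- a step with tetrahedra -/
theorem St.up4 {K A : Finset (Finset ℕ)} {d : ℕ} (S : St G K A d) {E : Finset ℕ} {x : ℕ}
    (h : OStep G K E x) (hE : E.card = 4) : St G (nxt G K E x) A d := by
  have hF3 : (E.erase x).card = 3 := by rw [Finset.card_erase_of_mem h.hx, hE]
  refine ⟨h.isCx S.cxK S.inv, S.cxA, fun g c hc => nxt_inv S.inv g c hc, nxt_card h S.card,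
    fun c hc => mem_nxt.2 (Or.inl (S.sub hc)), ?_, S.A3, S.coll, ?_, nxt_ord h S.ord⟩
  · intro c hc h2
    rcases mem_nxt.1 hc with hc | ⟨g, rfl⟩ | ⟨g, rfl⟩
    · exact S.low c hc h2
    · rw [card_im] at h2; omega
    · rw [card_im] at h2; omega
  · have e1 : tris (nxt G K E x) = tris K ∪ orb G (E.erase x) := by
      rw [nxt, tris_union, tris_union, tris_orb, tris_orb, if_pos hF3, if_neg (by omega),
        Finset.union_empty]
    have e2 : tets (nxt G K E x) = tets K ∪ orb G E := by
      rw [nxt, tets_union, tets_union, tets_orb, tets_orb, if_neg (by omega), if_pos hE,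
        Finset.union_empty]
    rw [e1, e2, card_union_orb (fun g hm => h.F_notMem S.inv g (mem_tris.1 hm).1),
      card_union_orb (fun g hm => h.E_notMem S.cxK S.inv g (mem_tets.1 hm).1), h.card_orb S.inv]
    have := S.cnt
    omega

/-- a step of dimension at most two -/
theorem St.upA {K A : Finset (Finset ℕ)} {d : ℕ} (S : St G K A d) {E : Finset ℕ} {x : ℕ}
    (h : OStep G K E x) (hE : E.card ≤ 3) : St G (nxt G K E x) (nxt G A E x) d := by
  have hFc : (E.erase x).card + 1 = E.card := by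
    rw [Finset.card_erase_of_mem h.hx]; have := h.h2; omega
  have hFA : ∀ g : G, im g (E.erase x) ∉ A := fun g hm => h.F_notMem S.inv g (S.sub hm)
  have hyA : ∀ g : G, ∀ y ∈ E, y ≠ x → im g (E.erase y) ∈ A := by
    intro g y hy hyx
    refine S.low _ (h.facet S.inv g y hy hyx) ?_
    rw [card_im, Finset.card_erase_of_mem hy]; omega
  obtain ⟨p, hp⟩ := S.coll
  have hin := inn_orbit S.cxA h.hx h.h2 hFA hyA h.hst
    (Z := ((nxt G A E x : Finset (Finset ℕ)) : Set (Finset ℕ)))
    (fun g => mem_nxt.2 (Or.inr (Or.inr ⟨g, rfl⟩)))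
  refine ⟨h.isCx S.cxK S.inv, hin.1, fun g c hc => nxt_inv S.inv g c hc, nxt_card h S.card,
    ?_, ?_, ?_, ⟨p, ?_⟩, ?_, nxt_ord h S.ord⟩
  · intro c hc
    rcases mem_nxt.1 hc with hc | hc | hc
    · exact mem_nxt.2 (Or.inl (S.sub hc))
    · exact mem_nxt.2 (Or.inr (Or.inl hc))
    · exact mem_nxt.2 (Or.inr (Or.inr hc))
  · intro c hc h2
    rcases mem_nxt.1 hc with hc | hc | hc
    · exact mem_nxt.2 (Or.inl (S.low c hc h2))
    · exact mem_nxt.2 (Or.inr (Or.inl hc))
    · exact mem_nxt.2 (Or.inr (Or.inr hc))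
  · intro c hc
    rcases mem_nxt.1 hc with hc | ⟨g, rfl⟩ | ⟨g, rfl⟩
    · exact S.A3 c hc
    · rw [card_im]; omega
    · rw [card_im]; omega
  · refine Inn.trans (Inn.mono ?_ hp) hin.2
    intro c hc
    exact mem_nxt.2 (Or.inl hc)
  · have e2 : tets (nxt G K E x) = tets K := by
      rw [nxt, tets_union, tets_union, tets_orb, tets_orb, if_neg (by omega), if_neg (by omega),
        Finset.union_empty, Finset.union_empty]
    rcases eq_or_ne E.card 3 with h3 | h3
    · have e1 : tris (nxt G K E x) = tris K ∪ orb G E := by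
        rw [nxt, tris_union, tris_union, tris_orb, tris_orb, if_neg (by omega), if_pos h3,
          Finset.union_empty]
      have e3 : tris (nxt G A E x) = tris A ∪ orb G E := by
        rw [nxt, tris_union, tris_union, tris_orb, tris_orb, if_neg (by omega), if_pos h3,
          Finset.union_empty]
      rw [e1, e2, e3, card_union_orb (fun g hm => h.E_notMem S.cxK S.inv g (mem_tris.1 hm).1),
        card_union_orb (fun g hm => h.E_notMem S.cxK S.inv g (S.sub (mem_tris.1 hm).1))]
      have := S.cnt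
      omega
    · have e1 : tris (nxt G K E x) = tris K := by
        rw [nxt, tris_union, tris_union, tris_orb, tris_orb, if_neg (by omega), if_neg h3,
          Finset.union_empty, Finset.union_empty]
      have e3 : tris (nxt G A E x) = tris A := by
        rw [nxt, tris_union, tris_union, tris_orb, tris_orb, if_neg (by omega), if_neg h3,
          Finset.union_empty, Finset.union_empty]
      rw [e1, e2, e3]
      exact S.cnt

/-- the last step: one orbit of tetrahedra -/
theorem St.tau {K A : Finset (Finset ℕ)} {d : ℕ} (S : St G K A d) {τ : Finset ℕ}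
    (hc : τ.card = 4) (hτ : τ ∉ K) (hy : ∀ y ∈ τ, τ.erase y ∈ K) (ho : Ord G τ)
    (hd : (orb G τ).card = d) : St G (K ∪ orb G τ) A 0 := by
  have hn : ∀ g : G, im g τ ∉ K := fun g hm =>
    hτ (by have := S.inv g⁻¹ _ hm; rwa [im_inv_im] at this)
  refine ⟨⟨Finset.mem_coe.2 (Finset.mem_union_left _ S.cxK.1), ?_⟩, S.cxA, ?_, ?_,
    fun c hc => Finset.mem_union_left _ (S.sub hc), ?_, S.A3, S.coll, ?_, ?_⟩
  · intro σ hσ t ht
    rcases Finset.mem_union.1 (Finset.mem_coe.1 hσ) with hσ | hσ
    · exact Finset.mem_coe.2 (Finset.mem_union_left _ (S.cxK.2 σ hσ t ht))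
    · obtain ⟨g, rfl⟩ := mem_orb.1 hσ
      obtain ⟨e, he, rfl⟩ := subset_im ht
      refine Finset.mem_coe.2 ?_
      rcases eq_or_ssubset_of_subset he with rfl | hss
      · exact Finset.mem_union_right _ (mem_orb.2 ⟨g, rfl⟩)
      · obtain ⟨y, hy1, hy2⟩ := Finset.exists_of_ssubset hss
        refine Finset.mem_union_left _ (S.inv g _ (S.cxK.2 _ (hy y hy1) e ?_))
        intro z hz
        exact Finset.mem_erase.2 ⟨fun h => hy2 (h ▸ hz), hss.1 hz⟩
  · intro g c hc'
    rcases Finset.mem_union.1 hc' with h | h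
    · exact Finset.mem_union_left _ (S.inv g c h)
    · exact Finset.mem_union_right _ (im_mem_orb g h)
  · intro c hc'
    rcases Finset.mem_union.1 hc' with h | h
    · exact S.card c h
    · rw [card_of_mem_orb h, hc]
  · intro c hc' h2
    rcases Finset.mem_union.1 hc' with h | h
    · exact S.low c h h2
    · rw [card_of_mem_orb h, hc] at h2; omega
  · have e1 : tris (K ∪ orb G τ) = tris K := by
      rw [tris_union, tris_orb, if_neg (by omega), Finset.union_empty]
    have e2 : tets (K ∪ orb G τ) = tets K ∪ orb G τ := by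
      rw [tets_union, tets_orb, if_pos hc]
    rw [e1, e2, card_union_orb (fun g hm => hn g (mem_tets.1 hm).1), hd]
    have := S.cnt
    omega
  · intro c hc'
    rcases Finset.mem_union.1 hc' with h | h
    · exact S.ord c h
    · obtain ⟨g, rfl⟩ := mem_orb.1 h
      exact ho.im g

/-! ### the whole construction -/

/-- complexes after `i` orbits of expansions -/
def KK (G : Type*) [Group G] [MulAction G ℕ] [Fintype G] (L : Finset (Finset ℕ))
    (E : ℕ → Finset ℕ) (x : ℕ → ℕ) : ℕ → Finset (Finset ℕ)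
  | 0 => L
  | i + 1 => nxt G (KK G L E x i) (E i) (x i)

/-- the two-dimensional collapsible complexes -/
def AA (G : Type*) [Group G] [MulAction G ℕ] [Fintype G] (A : Finset (Finset ℕ))
    (E : ℕ → Finset ℕ) (x : ℕ → ℕ) : ℕ → Finset (Finset ℕ)
  | 0 => A
  | i + 1 => if (E i).card = 4 then AA G A E x i else nxt G (AA G A E x i) (E i) (x i)

variable {L A₀ : Finset (Finset ℕ)} {E : ℕ → Finset ℕ} {x : ℕ → ℕ} {τ : Finset ℕ} {N d : ℕ}

theorem KK_mono {i j : ℕ} (h : i ≤ j) : KK G L E x i ⊆ KK G L E x j := by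
  induction j, h using Nat.le_induction with
  | base => exact fun c hc => hc
  | succ j _ ih => exact fun c hc => mem_nxt.2 (Or.inl (ih hc))

theorem AA_mono {i j : ℕ} (h : i ≤ j) : AA G A₀ E x i ⊆ AA G A₀ E x j := by
  induction j, h using Nat.le_induction with
  | base => exact fun c hc => hc
  | succ j _ ih =>
    intro c hc
    rw [AA]
    split_ifs
    · exact ih hc
    · exact mem_nxt.2 (Or.inl (ih hc))

theorem mem_KK {i : ℕ} {c : Finset ℕ} : c ∈ KK G L E x i ↔
    c ∈ L ∨ ∃ j < i, (∃ g : G, im g ((E j).erase (x j)) = c) ∨ ∃ g : G, im g (E j) = c := by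
  induction i with
  | zero => simp [KK]
  | succ i ih =>
    rw [KK, mem_nxt, ih]
    constructor
    · rintro ((h | ⟨j, hj, h⟩) | h)
      · exact Or.inl h
      · exact Or.inr ⟨j, by omega, h⟩
      · exact Or.inr ⟨i, by omega, h⟩
    · rintro (h | ⟨j, hj, h⟩)
      · exact Or.inl (Or.inl h)
      · rcases eq_or_ne j i with rfl | hne
        · exact Or.inr h
        · exact Or.inl (Or.inr ⟨j, by omega, h⟩)

theorem st_KK (S : St G L A₀ d) (h : ∀ i < N, OStep G (KK G L E x i) (E i) (x i)) :
    ∀ i ≤ N, St G (KK G L E x i) (AA G A₀ E x i) d := by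
  intro i
  induction i with
  | zero => intro _; exact S
  | succ i ih =>
    intro hi
    have h1 := ih (by omega)
    have h2 := h i (by omega)
    rw [KK, AA]
    split_ifs with h3
    · exact h1.up4 h2 h3
    · exact h1.upA h2 (by have := h2.h4; omega)

/-- the invariant relations -/
noncomputable def B (G : Type*) [Group G] [MulAction G ℕ] (E : ℕ → Finset ℕ) (τ : Finset ℕ)
    (N : ℕ) : Submodule ℤ M :=
  Submodule.span ℤ {m | (∃ i < N, ∃ g : G, ((E i).card = 4 ∧ m = bd4 (im g (E i))) ∨
    ((E i).card = 3 ∧ m = sg (im g (E i)))) ∨ ∃ g : G, m = bd4 (im g τ)}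

omit [Fintype G] in
theorem B_tet {i : ℕ} (hi : i < N) (h : (E i).card = 4) (g : G) : bd4 (im g (E i)) ∈ B G E τ N :=
  Submodule.subset_span (Or.inl ⟨i, hi, g, Or.inl ⟨h, rfl⟩⟩)

omit [Fintype G] in
theorem B_tri {i : ℕ} (hi : i < N) (h : (E i).card = 3) (g : G) : sg (im g (E i)) ∈ B G E τ N :=
  Submodule.subset_span (Or.inl ⟨i, hi, g, Or.inr ⟨h, rfl⟩⟩)

omit [Fintype G] in
theorem B_tau (g : G) : bd4 (im g τ) ∈ B G E τ N :=
  Submodule.subset_span (Or.inr ⟨g, rfl⟩)

omit [Fintype G] in
theorem B_inv (hE : ∀ i < N, Ord G (E i)) (hτ : Ord G τ) (hc : τ.card = 4) (g : G) {m : M}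
    (hm : m ∈ B G E τ N) : mg g m ∈ B G E τ N := by
  induction hm using Submodule.span_induction with
  | mem m hm =>
    rcases hm with ⟨i, hi, k, ⟨h, rfl⟩ | ⟨h, rfl⟩⟩ | ⟨k, rfl⟩
    · rw [mg_bd4 ((hE i hi).im k) (by rw [card_im, h]), ← im_mul]
      exact B_tet hi h _
    · rw [mg_sg, ← im_mul]
      exact B_tri hi h _
    · rw [mg_bd4 (hτ.im k) (by rw [card_im, hc]), ← im_mul]
      exact B_tau _
  | zero => rw [map_zero]; exact Submodule.zero_mem _
  | add a b _ _ ha hb => rw [map_add]; exact Submodule.add_mem _ ha hb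
  | smul r a _ ha => rw [map_smul]; exact Submodule.smul_mem _ _ ha

theorem B_le (hc : τ.card = 4) :
    B G E τ N ≤ R (KK G L E x N ∪ orb G τ) (AA G A₀ E x N) := by
  refine Submodule.span_le.2 ?_
  rintro m (⟨i, hi, k, ⟨h, rfl⟩ | ⟨h, rfl⟩⟩ | ⟨k, rfl⟩)
  · have e : bd4 (im k (E i)) = rel (im k (E i)) := by rw [rel, if_neg (by rw [card_im, h]; omega)]
    rw [SetLike.mem_coe, e]
    refine Submodule.subset_span ⟨_, Or.inr (mem_tets.2 ⟨?_, by rw [card_im, h]⟩), rfl⟩
    exact Finset.mem_union_left _ (mem_KK.2 (Or.inr ⟨i, hi, Or.inr ⟨k, rfl⟩⟩))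
  · have e : sg (im k (E i)) = rel (im k (E i)) := by rw [rel, if_pos (by rw [card_im, h])]
    rw [SetLike.mem_coe, e]
    refine Submodule.subset_span ⟨_, Or.inl (mem_tris.2 ⟨?_, by rw [card_im, h]⟩), rfl⟩
    refine AA_mono (i := i + 1) (by omega) ?_
    rw [AA, if_neg (by omega)]
    exact mem_nxt.2 (Or.inr (Or.inr ⟨k, rfl⟩))
  · have e : bd4 (im k τ) = rel (im k τ) := by rw [rel, if_neg (by rw [card_im, hc]; omega)]
    rw [SetLike.mem_coe, e]
    refine Submodule.subset_span ⟨_, Or.inr (mem_tets.2 ⟨?_, by rw [card_im, hc]⟩), rfl⟩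
    exact Finset.mem_union_right _ (mem_orb.2 ⟨k, rfl⟩)

/-- chains of triangles of `L` -/
noncomputable def TL (L : Finset (Finset ℕ)) : Submodule ℤ M :=
  Submodule.span ℤ (sg '' {t | t ∈ tris L})

omit [Fintype G] in
theorem TL_inv (hL : ∀ g : G, ∀ c ∈ L, im g c ∈ L) (g : G) {m : M} (hm : m ∈ TL L) :
    mg g m ∈ TL L := by
  induction hm using Submodule.span_induction with
  | mem m hm =>
    obtain ⟨t, ht, rfl⟩ := hm
    rw [mg_sg]
    exact Submodule.subset_span ⟨_, mem_tris.2 ⟨hL g t (mem_tris.1 ht).1, by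
      rw [card_im]; exact (mem_tris.1 ht).2⟩, rfl⟩
  | zero => rw [map_zero]; exact Submodule.zero_mem _
  | add a b _ _ ha hb => rw [map_add]; exact Submodule.add_mem _ ha hb
  | smul r a _ ha => rw [map_smul]; exact Submodule.smul_mem _ _ ha

/-- all triangles are relations as soon as those of `L` are -/
theorem all_tris (hL : ∀ g : G, ∀ c ∈ L, im g c ∈ L)
    (hx : ∀ i < N, x i ∈ E i)
    (hE : ∀ i < N, Ord G (E i)) (hτ : Ord G τ) (hc : τ.card = 4)
    (hw : ∀ i < N, (E i).card = 4 → ∃ w ∈ TL L, sg ((E i).erase (x i)) - w ∈ B G E τ N)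
    (h : ∀ t ∈ tris L, sg t ∈ R (KK G L E x N ∪ orb G τ) (AA G A₀ E x N)) :
    ∀ t ∈ tris (KK G L E x N ∪ orb G τ),
      sg t ∈ R (KK G L E x N ∪ orb G τ) (AA G A₀ E x N) := by
  have hB : B G E τ N ≤ R (KK G L E x N ∪ orb G τ) (AA G A₀ E x N) := B_le hc
  have hT : TL L ≤ R (KK G L E x N ∪ orb G τ) (AA G A₀ E x N) := by
    refine Submodule.span_le.2 ?_
    rintro _ ⟨t, ht, rfl⟩
    exact h t ht
  intro t ht
  obtain ⟨ht1, ht3⟩ := mem_tris.1 ht
  rcases Finset.mem_union.1 ht1 with h1 | h1
  · rcases mem_KK.1 h1 with h2 | ⟨j, hj, ⟨g, rfl⟩ | ⟨g, rfl⟩⟩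
    · exact h t (mem_tris.2 ⟨h2, ht3⟩)
    · have h4 : (E j).card = 4 := by
        rw [card_im, Finset.card_erase_of_mem (hx j hj)] at ht3; omega
      obtain ⟨w, hw1, hw2⟩ := hw j hj h4
      have h5 := B_inv hE hτ hc g hw2
      rw [map_sub, mg_sg] at h5
      have h6 := Submodule.add_mem _ (hB h5) (hT (TL_inv hL g hw1))
      rwa [sub_add_cancel] at h6
    · rw [card_im] at ht3
      exact hB (B_tri hj ht3 g)
  · rw [card_of_mem_orb h1] at ht3
    omega

end Orbit

end Act

section Final

theorem coe_rel (τ : Finset ℕ) : (⇑(rel τ) : Finset ℕ → ℤ) = relV τ := by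
  have e : ∀ t : Finset ℕ, (⇑(sg t) : Finset ℕ → ℤ) = Pi.single t 1 := by
    intro t
    funext c
    rw [sg, Finsupp.single_apply, Pi.single_apply]
    simp only [eq_comm]
  rw [rel, relV, relTm]
  split_ifs
  · rw [e, Tm.eval]
  · simp only [bd4, Tm.eval, Finsupp.coe_sub, Finsupp.coe_add, e]
    abel

theorem span_top {K A : Finset (Finset ℕ)} (h : ∀ t ∈ tris K, sg t ∈ R K A) :
    Submodule.span ℤ (Set.range fun (i : relI K A) => (fun t : tris K => relV i.1 t.1)) = ⊤ := by
  obtain ⟨res, hres⟩ : ∃ res : M →ₗ[ℤ] (tris K → ℤ), ∀ m t, res m t = m t.1 :=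
    ⟨LinearMap.pi (fun t => Finsupp.lapply t.1), fun m t => rfl⟩
  have h1 : Submodule.map res (R K A) ≤
      Submodule.span ℤ (Set.range fun (i : relI K A) => (fun t : tris K => relV i.1 t.1)) := by
    rw [R, Submodule.map_span]
    refine Submodule.span_mono ?_
    rintro _ ⟨_, ⟨τ, hτ, rfl⟩, rfl⟩
    have hm : τ ∈ relI K A := Finset.mem_union.2 hτ
    refine ⟨⟨τ, hm⟩, ?_⟩
    funext t
    rw [hres]
    exact (congrFun (coe_rel τ) t.1).symm
  rw [eq_top_iff]
  intro v _
  have h2 : v = ∑ t : tris K, v t • res (sg t.1) := by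
    funext t
    rw [Finset.sum_apply]
    simp only [Pi.smul_apply, hres, sg, Finsupp.single_apply,
      smul_eq_mul, mul_ite, mul_one, mul_zero]
    rw [Finset.sum_eq_single t]
    · simp
    · intro b _ hb
      rw [if_neg]
      intro e
      exact hb (Subtype.ext e)
    · intro hn
      exact absurd (Finset.mem_univ t) hn
  rw [h2]
  refine Submodule.sum_mem _ fun t _ => Submodule.smul_mem _ _ (h1 ?_)
  exact Submodule.mem_map_of_mem (h t.1 t.2)

variable {G : Type*} [Group G] [MulAction G ℕ]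

/-- the data of part (I) -/
theorem St.final {K A : Finset (Finset ℕ)} (S : St G K A 0) (h : ∀ t ∈ tris K, sg t ∈ R K A) :
    KData K A ∧ (relI K A).card = (tris K).card ∧
    Submodule.span ℤ (Set.range fun (i : relI K A) =>
      (fun t : tris K => relV i.1 t.1)) = ⊤ := by
  refine ⟨⟨S.cxK.1, fun σ hσ τ hτ => S.cxK.2 σ hσ τ hτ, S.card, S.sub, S.low, S.A3, S.coll⟩, ?_,
    span_top h⟩
  have hd : Disjoint (tris A) (tets K) := by
    refine Finset.disjoint_left.2 fun c hc hc' => ?_
    have h1 := (mem_tris.1 hc).2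
    have h2 := (mem_tets.1 hc').2
    omega
  rw [relI, Finset.card_union_of_disjoint hd]
  exact S.cnt

end Final

end Pool.Agent.DF302A.Orb
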