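import Pool.Agent.Work.MP_df302a_co.Defs

/-!
# Piecewise linear functions

A function on a real vector space is called piecewise linear (homogeneous) when it is the
difference of two maxima of finitely many linear functionals. This file proves the closure
properties: sums, differences, scalar multiples, maxima, minima, compositions.
-/

namespace Pool.Agent.DF302A

section Cv

variable {V : Type*} [AddCommGroup V] [Module ℝ V]

/-- The maximum of finitely many linear functionals. -/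
def IsCv (f : V → ℝ) : Prop :=
  ∃ (A : Finset (V →ₗ[ℝ] ℝ)) (hA : A.Nonempty), ∀ v, f v = A.sup' hA (fun l => l v)

theorem isPL_iff {f : V → ℝ} : IsPL f ↔ ∃ g h : V → ℝ, IsCv g ∧ IsCv h ∧ ∀ v, f v = g v - h v := by
  constructor
  · rintro ⟨A, B, hA, hB, h⟩
    exact ⟨_, _, ⟨A, hA, fun v => rfl⟩, ⟨B, hB, fun v => rfl⟩, h⟩
  · rintro ⟨g, h, ⟨A, hA, hg⟩, ⟨B, hB, hh⟩, hf⟩
    exact ⟨A, B, hA, hB, fun v => by rw [hf, hg, hh]⟩

theorem IsCv.lin (l : V →ₗ[ℝ] ℝ) : IsCv (fun v => l v) :=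
  ⟨{l}, Finset.singleton_nonempty l, fun v => by simp⟩

theorem IsCv.congr {f g : V → ℝ} (hf : IsCv f) (h : ∀ v, f v = g v) : IsCv g := by
  obtain ⟨A, hA, hf⟩ := hf
  exact ⟨A, hA, fun v => by rw [← h, hf]⟩

theorem IsCv.add {f g : V → ℝ} (hf : IsCv f) (hg : IsCv g) : IsCv (fun v => f v + g v) := by
  classical
  obtain ⟨A, hA, hf⟩ := hf
  obtain ⟨B, hB, hg⟩ := hg
  refine ⟨(A ×ˢ B).image (fun p => p.1 + p.2), (hA.product hB).image _, fun v => ?_⟩
  beta_reduce
  rw [hf, hg]
  apply le_antisymm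
  · obtain ⟨a, ha, ha'⟩ := A.exists_mem_eq_sup' hA (fun l => l v)
    obtain ⟨b, hb, hb'⟩ := B.exists_mem_eq_sup' hB (fun l => l v)
    rw [ha', hb']
    have hm : a + b ∈ (A ×ˢ B).image (fun p => p.1 + p.2) :=
      Finset.mem_image.2 ⟨(a, b), Finset.mem_product.2 ⟨ha, hb⟩, rfl⟩
    exact Finset.le_sup' (fun l : V →ₗ[ℝ] ℝ => l v) hm
  · refine Finset.sup'_le _ _ fun l hl => ?_
    obtain ⟨⟨a, b⟩, hp, rfl⟩ := Finset.mem_image.1 hl
    obtain ⟨ha, hb⟩ := Finset.mem_product.1 hp
    have h1 := Finset.le_sup' (fun l : V →ₗ[ℝ] ℝ => l v) ha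
    have h2 := Finset.le_sup' (fun l : V →ₗ[ℝ] ℝ => l v) hb
    simp only [LinearMap.add_apply]
    exact add_le_add h1 h2

theorem IsCv.max {f g : V → ℝ} (hf : IsCv f) (hg : IsCv g) :
    IsCv (fun v => Max.max (f v) (g v)) := by
  classical
  obtain ⟨A, hA, hf⟩ := hf
  obtain ⟨B, hB, hg⟩ := hg
  refine ⟨A ∪ B, hA.mono Finset.subset_union_left, fun v => ?_⟩
  beta_reduce
  rw [hf, hg, Finset.sup'_union hA hB]

theorem IsCv.smul {f : V → ℝ} (hf : IsCv f) {c : ℝ} (hc : 0 ≤ c) : IsCv (fun v => c * f v) := by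
  classical
  obtain ⟨A, hA, hf⟩ := hf
  refine ⟨A.image (fun l => c • l), hA.image _, fun v => ?_⟩
  beta_reduce
  rw [hf]
  apply le_antisymm
  · obtain ⟨a, ha, ha'⟩ := A.exists_mem_eq_sup' hA (fun l => l v)
    rw [ha']
    have hm : c • a ∈ A.image (fun l => c • l) := Finset.mem_image.2 ⟨a, ha, rfl⟩
    exact Finset.le_sup' (fun l : V →ₗ[ℝ] ℝ => l v) hm
  · refine Finset.sup'_le _ _ fun l hl => ?_
    obtain ⟨a, ha, rfl⟩ := Finset.mem_image.1 hl
    have h1 := Finset.le_sup' (fun l : V →ₗ[ℝ] ℝ => l v) ha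
    simp only [LinearMap.smul_apply, smul_eq_mul]
    exact mul_le_mul_of_nonneg_left h1 hc

theorem IsCv.isPL {f : V → ℝ} (hf : IsCv f) : IsPL f :=
  isPL_iff.2 ⟨f, fun v => (0 : V →ₗ[ℝ] ℝ) v, hf, IsCv.lin 0, fun v => by simp⟩

theorem IsPL.congr {f g : V → ℝ} (hf : IsPL f) (h : ∀ v, f v = g v) : IsPL g := by
  obtain ⟨A, B, hA, hB, hf⟩ := hf
  exact ⟨A, B, hA, hB, fun v => by rw [← h, hf]⟩

theorem IsPL.lin (l : V →ₗ[ℝ] ℝ) : IsPL (fun v => l v) := (IsCv.lin l).isPL

theorem IsPL.zero : IsPL (fun _ : V => (0 : ℝ)) := (IsPL.lin (0 : V →ₗ[ℝ] ℝ)).congr fun v => by simp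

theorem IsPL.add {f g : V → ℝ} (hf : IsPL f) (hg : IsPL g) : IsPL (fun v => f v + g v) := by
  obtain ⟨f1, f2, h1, h2, hf⟩ := isPL_iff.1 hf
  obtain ⟨g1, g2, h3, h4, hg⟩ := isPL_iff.1 hg
  exact isPL_iff.2 ⟨_, _, h1.add h3, h2.add h4, fun v => by rw [hf, hg]; ring⟩

theorem IsPL.neg {f : V → ℝ} (hf : IsPL f) : IsPL (fun v => -f v) := by
  obtain ⟨f1, f2, h1, h2, hf⟩ := isPL_iff.1 hf
  exact isPL_iff.2 ⟨_, _, h2, h1, fun v => by rw [hf]; ring⟩

theorem IsPL.sub {f g : V → ℝ} (hf : IsPL f) (hg : IsPL g) : IsPL (fun v => f v - g v) :=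
  (hf.add hg.neg).congr fun v => by ring

theorem IsPL.smul {f : V → ℝ} (c : ℝ) (hf : IsPL f) : IsPL (fun v => c * f v) := by
  obtain ⟨f1, f2, h1, h2, hf⟩ := isPL_iff.1 hf
  rcases le_total 0 c with hc | hc
  · exact isPL_iff.2 ⟨_, _, h1.smul hc, h2.smul hc, fun v => by rw [hf]; ring⟩
  · exact isPL_iff.2 ⟨_, _, h2.smul (neg_nonneg.2 hc), h1.smul (neg_nonneg.2 hc),
      fun v => by rw [hf]; ring⟩

theorem IsPL.max {f g : V → ℝ} (hf : IsPL f) (hg : IsPL g) :
    IsPL (fun v => Max.max (f v) (g v)) := by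
  obtain ⟨f1, f2, h1, h2, hf⟩ := isPL_iff.1 hf
  obtain ⟨g1, g2, h3, h4, hg⟩ := isPL_iff.1 hg
  refine isPL_iff.2 ⟨_, _, (h1.add h4).max (h3.add h2), h2.add h4, fun v => ?_⟩
  rw [hf, hg, ← max_sub_sub_right]
  congr 1 <;> ring

theorem IsPL.min {f g : V → ℝ} (hf : IsPL f) (hg : IsPL g) :
    IsPL (fun v => Min.min (f v) (g v)) :=
  ((hf.neg.max hg.neg).neg).congr fun v => by rw [max_neg_neg, neg_neg]

theorem IsPL.abs {f : V → ℝ} (hf : IsPL f) : IsPL (fun v => |f v|) :=
  (hf.max hf.neg).congr fun _ => (abs_eq_max_neg).symm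

theorem IsPL.sum {ι : Type*} (s : Finset ι) {f : ι → V → ℝ} (hf : ∀ i ∈ s, IsPL (f i)) :
    IsPL (fun v => ∑ i ∈ s, f i v) := by
  classical
  induction s using Finset.induction_on with
  | empty => exact IsPL.zero.congr fun v => by simp
  | insert a s ha ih =>
    refine ((hf a (Finset.mem_insert_self a s)).add
      (ih fun i hi => hf i (Finset.mem_insert_of_mem hi))).congr fun v => ?_
    rw [Finset.sum_insert ha]

theorem IsPL.sup' {ι : Type*} (s : Finset ι) (hs : s.Nonempty) {f : ι → V → ℝ}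
    (hf : ∀ i ∈ s, IsPL (f i)) : IsPL (fun v => s.sup' hs (fun i => f i v)) := by
  classical
  induction hs using Finset.Nonempty.cons_induction with
  | singleton a => exact (hf a (Finset.mem_singleton_self a)).congr fun v => by simp
  | cons a s ha hs ih =>
    refine ((hf a (Finset.mem_cons_self a s)).max
      (ih fun i hi => hf i (Finset.mem_cons_of_mem hi))).congr fun v => ?_
    rw [Finset.sup'_cons hs]

theorem IsPL.inf' {ι : Type*} (s : Finset ι) (hs : s.Nonempty) {f : ι → V → ℝ}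
    (hf : ∀ i ∈ s, IsPL (f i)) : IsPL (fun v => s.inf' hs (fun i => f i v)) := by
  classical
  induction hs using Finset.Nonempty.cons_induction with
  | singleton a => exact (hf a (Finset.mem_singleton_self a)).congr fun v => by simp
  | cons a s ha hs ih =>
    refine ((hf a (Finset.mem_cons_self a s)).min
      (ih fun i hi => hf i (Finset.mem_cons_of_mem hi))).congr fun v => ?_
    rw [Finset.inf'_cons hs]

/-- `max 0 (sup f)`, also for the empty set (value `0`). -/
theorem IsPL.posSup {ι : Type*} (s : Finset ι) {f : ι → V → ℝ} (hf : ∀ i ∈ s, IsPL (f i)) :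
    IsPL (fun v => s.fold Max.max 0 (fun i => f i v)) := by
  classical
  induction s using Finset.induction_on with
  | empty => exact IsPL.zero.congr fun v => by simp
  | insert a s ha ih =>
    refine ((hf a (Finset.mem_insert_self a s)).max
      (ih fun i hi => hf i (Finset.mem_insert_of_mem hi))).congr fun v => ?_
    rw [Finset.fold_insert ha]

theorem IsPL.pos {f : V → ℝ} (hf : IsPL f) : IsPL (fun v => Max.max (f v) 0) := hf.max IsPL.zero

theorem IsPL.ite {f g : V → ℝ} (p : Prop) [Decidable p] (hf : IsPL f) (hg : IsPL g) :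
    IsPL (fun v => if p then f v else g v) := by
  split_ifs
  · exact hf
  · exact hg

/-- Positive homogeneity. -/
theorem IsPL.hom {f : V → ℝ} (hf : IsPL f) {c : ℝ} (hc : 0 ≤ c) (v : V) :
    f (c • v) = c * f v := by
  have key : ∀ {g : V → ℝ}, IsCv g → g (c • v) = c * g v := by
    rintro g ⟨A, hA, hg⟩
    rw [hg, hg]
    apply le_antisymm
    · refine Finset.sup'_le _ _ fun l hl => ?_
      rw [map_smul, smul_eq_mul]
      exact mul_le_mul_of_nonneg_left (Finset.le_sup' (fun l : V →ₗ[ℝ] ℝ => l v) hl) hc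
    · obtain ⟨a, ha, ha'⟩ := A.exists_mem_eq_sup' hA (fun l => l v)
      rw [ha']
      have := Finset.le_sup' (fun l : V →ₗ[ℝ] ℝ => l (c • v)) ha
      have h2 : a (c • v) = c * a v := by rw [map_smul, smul_eq_mul]
      rw [← h2]
      exact this
  obtain ⟨f1, f2, h1, h2, hf⟩ := isPL_iff.1 hf
  rw [hf, hf, key h1, key h2]
  ring

theorem IsPL.map_zero {f : V → ℝ} (hf : IsPL f) : f 0 = 0 := by
  have := hf.hom le_rfl (0 : V)
  simpa using this

end Cv

section PLMap

variable {V W U : Type*} [AddCommGroup V] [Module ℝ V] [AddCommGroup W] [Module ℝ W]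
  [AddCommGroup U] [Module ℝ U]

theorem PLMap.congr {f g : V → W} (hf : PLMap f) (h : ∀ v, f v = g v) : PLMap g :=
  fun l => (hf l).congr fun v => by rw [h]

theorem PLMap.lin (L : V →ₗ[ℝ] W) : PLMap (fun v => L v) := fun l => IsPL.lin (l ∘ₗ L)

theorem PLMap.id : PLMap (fun v : V => v) := fun l => IsPL.lin l

theorem PLMap.zero : PLMap (fun _ : V => (0 : W)) := fun l => IsPL.zero.congr fun v => by simp

theorem PLMap.add {f g : V → W} (hf : PLMap f) (hg : PLMap g) : PLMap (fun v => f v + g v) :=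
  fun l => ((hf l).add (hg l)).congr fun v => by simp

theorem PLMap.neg {f : V → W} (hf : PLMap f) : PLMap (fun v => -f v) :=
  fun l => (hf l).neg.congr fun v => by simp

theorem PLMap.sub {f g : V → W} (hf : PLMap f) (hg : PLMap g) : PLMap (fun v => f v - g v) :=
  fun l => ((hf l).sub (hg l)).congr fun v => by simp

theorem PLMap.smul {f : V → W} (hf : PLMap f) (c : ℝ) : PLMap (fun v => c • f v) :=
  fun l => (IsPL.smul c (hf l)).congr fun v => by simp

/-- A piecewise linear function times a fixed vector. -/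
theorem PLMap.smul_const {f : V → ℝ} (hf : IsPL f) (w : W) : PLMap (fun v => f v • w) :=
  fun l => (IsPL.smul (l w) hf).congr fun v => by simp [mul_comm]

theorem PLMap.sum {ι : Type*} (s : Finset ι) {f : ι → V → W} (hf : ∀ i ∈ s, PLMap (f i)) :
    PLMap (fun v => ∑ i ∈ s, f i v) :=
  fun l => (IsPL.sum s (f := fun i v => l (f i v)) fun i hi => hf i hi l).congr fun v => by
    rw [map_sum]

/-- Composition of a piecewise linear function with a piecewise linear map. -/
theorem IsPL.comp {f : W → ℝ} (hf : IsPL f) {g : V → W} (hg : PLMap g) :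
    IsPL (fun v => f (g v)) := by
  obtain ⟨A, B, hA, hB, h⟩ := hf
  refine ((IsPL.sup' A hA (f := fun l v => l (g v)) fun l _ => hg l).sub
    (IsPL.sup' B hB (f := fun l v => l (g v)) fun l _ => hg l)).congr fun v => ?_
  rw [h]

theorem PLMap.comp {f : W → U} (hf : PLMap f) {g : V → W} (hg : PLMap g) :
    PLMap (fun v => f (g v)) := fun l => (hf l).comp hg

theorem PLMap.linComp (L : W →ₗ[ℝ] U) {g : V → W} (hg : PLMap g) : PLMap (fun v => L (g v)) :=
  (PLMap.lin L).comp hg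

/-- A map into a finite product is piecewise linear when its coordinates are. -/
theorem PLMap.pi {ι : Type*} [Finite ι] {f : V → (ι → ℝ)} (hf : ∀ i, IsPL (fun v => f v i)) :
    PLMap f := by
  classical
  have := Fintype.ofFinite ι
  intro l
  refine (IsPL.sum Finset.univ (f := fun i v => l (Pi.single i 1) * f v i)
    fun i _ => IsPL.smul _ (hf i)).congr fun v => ?_
  conv_rhs => rw [← Finset.univ_sum_single (f v), map_sum]
  refine Finset.sum_congr rfl fun i _ => ?_
  have : Pi.single i (f v i) = (f v i) • (Pi.single i 1 : ι → ℝ) := by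
    rw [← Pi.single_smul', smul_eq_mul, mul_one]
  rw [this, map_smul, smul_eq_mul, mul_comm]

theorem PLMap.apply {ι : Type*} {f : V → (ι → ℝ)} (hf : PLMap f) (i : ι) :
    IsPL (fun v => f v i) := hf (LinearMap.proj i)

theorem PLMap.pi_iff {ι : Type*} [Finite ι] {f : V → (ι → ℝ)} :
    PLMap f ↔ ∀ i, IsPL (fun v => f v i) := ⟨fun h i => h.apply i, PLMap.pi⟩

/-- A pair of piecewise linear maps. -/
theorem PLMap.prod {f : V → W} {g : V → U} (hf : PLMap f) (hg : PLMap g) :
    PLMap (fun v => (f v, g v)) := by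
  intro l
  refine ((hf (l ∘ₗ LinearMap.inl ℝ W U)).add (hg (l ∘ₗ LinearMap.inr ℝ W U))).congr fun v => ?_
  simp only [LinearMap.comp_apply, LinearMap.inl_apply, LinearMap.inr_apply, ← map_add,
    Prod.mk_add_mk, add_zero, zero_add]

theorem PLMap.fst {f : V → W × U} (hf : PLMap f) : PLMap (fun v => (f v).1) :=
  PLMap.linComp (LinearMap.fst ℝ W U) hf

theorem PLMap.snd {f : V → W × U} (hf : PLMap f) : PLMap (fun v => (f v).2) :=
  PLMap.linComp (LinearMap.snd ℝ W U) hf

/-- A real valued map is piecewise linear as a map iff it is as a function. -/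
theorem IsPL.plMap {f : V → ℝ} (hf : IsPL f) : PLMap f :=
  fun l => (IsPL.smul (l 1) hf).congr fun v => by
    rw [← smul_eq_mul, mul_comm_smul_aux l (f v)]
  where
  mul_comm_smul_aux (l : ℝ →ₗ[ℝ] ℝ) (x : ℝ) : l 1 • x = l x := by
    rw [smul_eq_mul, mul_comm, ← smul_eq_mul, ← map_smul, smul_eq_mul, mul_one]

theorem PLMap.isPL {f : V → ℝ} (hf : PLMap f) : IsPL f := hf LinearMap.id

theorem PLMap.hom {f : V → W} (hf : PLMap f) {c : ℝ} (hc : 0 ≤ c) (v : V) :
    f (c • v) = c • f v := by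
  classical
  by_contra h
  have h' : f (c • v) - c • f v ≠ 0 := sub_ne_zero.2 h
  obtain ⟨l, hl⟩ : ∃ l : W →ₗ[ℝ] ℝ, l (f (c • v) - c • f v) ≠ 0 := by
    by_contra hl
    push Not at hl
    exact h' ((Module.forall_dual_apply_eq_zero_iff ℝ _).1 hl)
  apply hl
  rw [map_sub, (hf l).hom hc v, map_smul, smul_eq_mul, sub_self]

theorem PLMap.map_zero {f : V → W} (hf : PLMap f) : f 0 = 0 := by
  have := hf.hom le_rfl (0 : V)
  simpa using this

end PLMap

end Pool.Agent.DF302A
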