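import Pool.Agent.Work.MP_df302a_co.OrbB

/-! # MP_df302a_co : a cochain on the translates of a cycle, checked by the kernel

A chain of triangles is given by two lists of numbers of triangles. A walk through the group moves the
two lists by generators. After each step the value of the cochain is computed; if it is zero, the
number of the group element is noted in a mask. -/

set_option autoImplicit false

namespace Pool.Agent.DF302A.PhiC

open Finset Pool.Agent.DF302A.PI Pool.Agent.DF302A.Orb

/-! ### functions for the kernel -/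

/-- evaluate the number, then go on -/
noncomputable def fo {α : Type} (n : ℕ) (f : ℕ → α) : α :=
  Nat.rec (f 0) (fun m _ => f (Nat.succ m)) n

theorem ble_true {a b : ℕ} (h : a ≤ b) : Nat.ble a b = true := by rw [Nat.ble_eq]; exact h

theorem ble_false {a b : ℕ} (h : ¬ a ≤ b) : Nat.ble a b = false := by
  rw [Bool.eq_false_iff]
  intro h'
  rw [Nat.ble_eq] at h'
  exact h h'

theorem fo_eq {α : Type} (n : ℕ) (f : ℕ → α) : fo n f = f n := by cases n <;> rfl

/-- map a list -/
noncomputable def mapF {α : Type} (f : ℕ → ℕ) (l : List ℕ) : (List ℕ → α) → α :=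
  List.rec (motive := fun _ => (List ℕ → α) → α) (fun k => k [])
    (fun r _ ih k => fo (f r) fun r' => ih fun l' => k (r' :: l')) l

theorem mapF_eq {α : Type} (f : ℕ → ℕ) (l : List ℕ) (k : List ℕ → α) :
    mapF f l k = k (l.map f) := by
  induction l generalizing k with
  | nil => rfl
  | cons r l ih =>
    have h : mapF f (r :: l) k = fo (f r) fun r' => mapF f l fun l' => k (r' :: l') := rfl
    rw [h, fo_eq, ih]
    rfl

/-- sum of the values of the large numbers, and of `off` -/
noncomputable def sF {α : Type} (f : ℕ → ℕ) (b off : ℕ) (l : List ℕ) :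
    ℕ → ℕ → (ℕ → ℕ → α) → α :=
  List.rec (motive := fun _ => ℕ → ℕ → (ℕ → ℕ → α) → α) (fun x y k => k x y)
    (fun r _ ih x y k => cond (Nat.ble b r)
      (fo (Nat.add x (f (Nat.sub r b))) fun x' => fo (Nat.add y off) fun y' => ih x' y' k)
      (ih x y k)) l

/-- sum of the values -/
def s1 (f : ℕ → ℕ) (b : ℕ) (l : List ℕ) : ℕ := (l.map fun r => if b ≤ r then f (r - b) else 0).sum

/-- sum of `off` -/
def s2 (b off : ℕ) (l : List ℕ) : ℕ := (l.map fun r => if b ≤ r then off else 0).sum

theorem sF_eq {α : Type} (f : ℕ → ℕ) (b off : ℕ) (l : List ℕ) (x y : ℕ) (k : ℕ → ℕ → α) :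
    sF f b off l x y k = k (x + s1 f b l) (y + s2 b off l) := by
  induction l generalizing x y with
  | nil => rfl
  | cons r l ih =>
    have h : sF f b off (r :: l) x y k = cond (Nat.ble b r)
      (fo (Nat.add x (f (Nat.sub r b))) fun x' => fo (Nat.add y off) fun y' => sF f b off l x' y' k)
      (sF f b off l x y k) := rfl
    have h1 : s1 f b (r :: l) = (if b ≤ r then f (r - b) else 0) + s1 f b l := rfl
    have h2 : s2 b off (r :: l) = (if b ≤ r then off else 0) + s2 b off l := rfl
    rw [h, h1, h2]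
    by_cases hb : b ≤ r
    · rw [ble_true hb, cond_true, fo_eq, fo_eq, ih, if_pos hb, if_pos hb, ← add_assoc, ← add_assoc]
      rfl
    · rw [ble_false hb, cond_false, ih, if_neg hb, if_neg hb, zero_add, zero_add]

/-- comparison of lists -/
noncomputable def beqL (l : List ℕ) : List ℕ → Bool :=
  List.rec (motive := fun _ => List ℕ → Bool)
    (fun l' => List.rec (motive := fun _ => Bool) true (fun _ _ _ => false) l')
    (fun a _ ih l' => List.rec (motive := fun _ => Bool) false
      (fun b t _ => cond (Nat.beq a b) (ih t) false) l') l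

theorem beqL_eq {l l' : List ℕ} (h : beqL l l' = true) : l = l' := by
  induction l generalizing l' with
  | nil =>
    cases l' with
    | nil => rfl
    | cons b t => exact absurd h (by show ¬ (false = true); simp)
  | cons a l ih =>
    cases l' with
    | nil => exact absurd h (by show ¬ (false = true); simp)
    | cons b t =>
      have h1 : cond (Nat.beq a b) (beqL l t) false = true := h
      cases hb : Nat.beq a b with
      | false => rw [hb] at h1; simp at h1
      | true =>
        rw [hb] at h1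
        rw [Nat.eq_of_beq_eq_true hb, ih h1]

/-- the walk -/
noncomputable def run {α : Type} (iv nx : Bool → ℕ → ℕ) (f : ℕ → ℕ) (b off : ℕ) (l : List Bool) :
    List ℕ → List ℕ → ℕ → ℕ → (List ℕ → List ℕ → ℕ → ℕ → α) → α :=
  List.rec (motive := fun _ => List ℕ → List ℕ → ℕ → ℕ → (List ℕ → List ℕ → ℕ → ℕ → α) → α)
    (fun P N j a k => k P N j a)
    (fun c _ ih P N j a k =>
      mapF (iv c) P fun P' => mapF (iv c) N fun N' => fo (nx c j) fun j' =>
      sF f b off P' 0 0 fun x y => sF f b off N' y x fun y' x' =>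
      cond (Nat.beq x' y')
        (fo (Nat.lor a (Nat.shiftLeft 1 j')) fun a' => ih P' N' j' a' k) (ih P' N' j' a k)) l

/-- the walk, in plain form -/
def st (iv nx : Bool → ℕ → ℕ) (f : ℕ → ℕ) (b off : ℕ) :
    List Bool → List ℕ × List ℕ × ℕ × ℕ → List ℕ × List ℕ × ℕ × ℕ
  | [], x => x
  | c :: l, x => st iv nx f b off l (x.1.map (iv c), x.2.1.map (iv c), nx c x.2.2.1,
      if s1 f b (x.1.map (iv c)) + s2 b off (x.2.1.map (iv c)) =
        s2 b off (x.1.map (iv c)) + s1 f b (x.2.1.map (iv c))
      then x.2.2.2 ||| 2 ^ (nx c x.2.2.1) else x.2.2.2)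

theorem run_eq {α : Type} (iv nx : Bool → ℕ → ℕ) (f : ℕ → ℕ) (b off : ℕ) (l : List Bool)
    (P N : List ℕ) (j a : ℕ) (k : List ℕ → List ℕ → ℕ → ℕ → α) :
    run iv nx f b off l P N j a k = k (st iv nx f b off l (P, N, j, a)).1
      (st iv nx f b off l (P, N, j, a)).2.1 (st iv nx f b off l (P, N, j, a)).2.2.1
      (st iv nx f b off l (P, N, j, a)).2.2.2 := by
  induction l generalizing P N j a with
  | nil => rfl
  | cons c l ih =>
    have h : run iv nx f b off (c :: l) P N j a k =
      (mapF (iv c) P fun P' => mapF (iv c) N fun N' => fo (nx c j) fun j' =>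
      sF f b off P' 0 0 fun x y => sF f b off N' y x fun y' x' =>
      cond (Nat.beq x' y')
        (fo (Nat.lor a (Nat.shiftLeft 1 j')) fun a' => run iv nx f b off l P' N' j' a' k)
        (run iv nx f b off l P' N' j' a k)) := rfl
    rw [h]
    simp only [fo_eq, mapF_eq, sF_eq, ih, zero_add]
    rw [st]
    by_cases h1 : s1 f b (P.map (iv c)) + s2 b off (N.map (iv c)) =
        s2 b off (P.map (iv c)) + s1 f b (N.map (iv c))
    · have h2 : Nat.beq (s1 f b (P.map (iv c)) + s2 b off (N.map (iv c)))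
          (s2 b off (P.map (iv c)) + s1 f b (N.map (iv c))) = true := by
        rw [h1]; exact Nat.beq_refl _
      have h3 : Nat.lor a (Nat.shiftLeft 1 (nx c j)) = a ||| 2 ^ (nx c j) := by
        show a ||| (1 <<< (nx c j)) = a ||| 2 ^ (nx c j)
        rw [Nat.shiftLeft_eq, one_mul]
      rw [h2, cond_true, if_pos h1, h3]
    · have h2 : Nat.beq (s1 f b (P.map (iv c)) + s2 b off (N.map (iv c)))
          (s2 b off (P.map (iv c)) + s1 f b (N.map (iv c))) = false := by
        rw [Bool.eq_false_iff]; exact fun h => h1 (Nat.eq_of_beq_eq_true h)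
      rw [h2, cond_false, if_neg h1]

/-- one part of the walk -/
noncomputable def chk (iv nx : Bool → ℕ → ℕ) (f : ℕ → ℕ) (b off : ℕ) (l : List Bool)
    (P N : List ℕ) (j a : ℕ) (P' N' : List ℕ) (j' a' : ℕ) : Bool :=
  run iv nx f b off l P N j a fun P₁ N₁ j₁ a₁ =>
    cond (beqL P₁ P') (cond (beqL N₁ N') (cond (Nat.beq j₁ j') (Nat.beq a₁ a') false) false) false

theorem chk_spec {iv nx : Bool → ℕ → ℕ} {f : ℕ → ℕ} {b off : ℕ} {l : List Bool} {P N : List ℕ}
    {j a : ℕ} {P' N' : List ℕ} {j' a' : ℕ}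
    (h : chk iv nx f b off l P N j a P' N' j' a' = true) :
    st iv nx f b off l (P, N, j, a) = (P', N', j', a') := by
  rw [chk, run_eq] at h
  generalize st iv nx f b off l (P, N, j, a) = x at h ⊢
  obtain ⟨x1, x2, x3, x4⟩ := x
  cases h1 : beqL x1 P' with
  | false => simp [h1] at h
  | true =>
    cases h2 : beqL x2 N' with
    | false => simp [h1, h2] at h
    | true =>
      cases h3 : Nat.beq x3 j' with
      | false => simp only [h1, h2, h3, cond_true, cond_false] at h; simp at h
      | true =>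
        simp only [h1, h2, h3, cond_true] at h
        rw [beqL_eq h1, beqL_eq h2, Nat.eq_of_beq_eq_true h3, Nat.eq_of_beq_eq_true h]

theorem st_append (iv nx : Bool → ℕ → ℕ) (f : ℕ → ℕ) (b off : ℕ) (l m : List Bool)
    (x : List ℕ × List ℕ × ℕ × ℕ) :
    st iv nx f b off (l ++ m) x = st iv nx f b off m (st iv nx f b off l x) := by
  induction l generalizing x with
  | nil => rfl
  | cons e l ih =>
    rw [List.cons_append, st, st, ih]

/-- two parts of a walk -/
theorem st_trans {iv nx : Bool → ℕ → ℕ} {f : ℕ → ℕ} {b off : ℕ} {l m : List Bool}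
    {x y z : List ℕ × List ℕ × ℕ × ℕ} (h : st iv nx f b off l x = y)
    (h' : st iv nx f b off m y = z) : st iv nx f b off (l ++ m) x = z := by
  rw [st_append, h, h']

/-- all entries are smaller than `m` -/
noncomputable def ltL (m : ℕ) (l : List ℕ) : Bool :=
  List.rec (motive := fun _ => Bool) true (fun r _ ih => cond (Nat.ble m r) false ih) l

theorem ltL_spec {m : ℕ} {l : List ℕ} (h : ltL m l = true) : ∀ r ∈ l, r < m := by
  induction l with
  | nil => simp
  | cons r l ih =>
    have h1 : cond (Nat.ble m r) false (ltL m l) = true := h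
    by_cases h2 : m ≤ r
    · rw [ble_true h2] at h1; simp at h1
    · rw [ble_false h2, cond_false] at h1
      intro s hs
      rcases List.mem_cons.1 hs with rfl | hs
      · exact not_le.1 h2
      · exact ih h1 s hs

/-- the check of the start and of the final mask: the value of the cochain is one -/
noncomputable def chk0 (f : ℕ → ℕ) (b off NL n j a : ℕ) (P N : List ℕ) : Bool :=
  cond (ltL NL P) (cond (ltL NL N) (cond (sF f b off P 0 0 fun x y => sF f b off N y x fun y' x' =>
    Nat.beq x' (Nat.add y' 1)) (Nat.beq (Nat.add (Nat.lor a (Nat.shiftLeft 1 j)) 1) (Nat.pow 2 n))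
      false) false) false

theorem chk0_spec {f : ℕ → ℕ} {b off NL n j a : ℕ} {P N : List ℕ}
    (h : chk0 f b off NL n j a P N = true) : (∀ r ∈ P, r < NL) ∧ (∀ r ∈ N, r < NL) ∧
      s1 f b P + s2 b off N = s2 b off P + s1 f b N + 1 ∧ a ||| 2 ^ j = 2 ^ n - 1 := by
  rw [chk0] at h
  simp only [sF_eq, zero_add] at h
  cases h1 : ltL NL P with
  | false => simp [h1] at h
  | true =>
  cases h2 : ltL NL N with
  | false => simp [h1, h2] at h
  | true =>
  rw [h1, h2, cond_true, cond_true] at h
  cases h3 : Nat.beq (s1 f b P + s2 b off N) (Nat.add (s2 b off P + s1 f b N) 1) with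
  | false => rw [h3] at h; simp at h
  | true =>
  rw [h3, cond_true] at h
  have h4 := Nat.eq_of_beq_eq_true h
  have h5 : Nat.lor a (Nat.shiftLeft 1 j) = a ||| 2 ^ j := by
    show a ||| (1 <<< j) = a ||| 2 ^ j
    rw [Nat.shiftLeft_eq, one_mul]
  rw [h5] at h4
  have h6 : (a ||| 2 ^ j) + 1 = 2 ^ n := h4
  exact ⟨ltL_spec h1, ltL_spec h2, Nat.eq_of_beq_eq_true h3, by omega⟩

/-! ### meaning -/

/-- the chain of two lists -/
noncomputable def val (T : ℕ → Finset ℕ) (P N : List ℕ) : M :=
  (P.map fun r => sg (T r)).sum - (N.map fun r => sg (T r)).sum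

/-- the values of the cochain -/
def FF (f : ℕ → ℕ) (b off r : ℕ) : ℤ := if b ≤ r then (f (r - b) : ℤ) - off else 0

/-- the cochain -/
noncomputable def phi (T : ℕ → Finset ℕ) (f : ℕ → ℕ) (b off NL : ℕ) : M →ₗ[ℤ] ℤ :=
  ∑ r ∈ Finset.range NL, FF f b off r • Finsupp.lapply (T r)

section Sem
variable {G : Type*} [Group G] [MulAction G ℕ]

/-- the tables of the generators -/
structure Tb (gen : Bool → G) (iv : Bool → ℕ → ℕ) (T : ℕ → Finset ℕ) (NL : ℕ) : Prop where
  inj : ∀ r < NL, ∀ r' < NL, T r = T r' → r = r'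
  lt : ∀ c, ∀ r < NL, iv c r < NL
  eq : ∀ c, ∀ r < NL, T (iv c r) = im (gen c) (T r)

/-- the table of the group -/
structure Cay (gen : Bool → G) (nx : Bool → ℕ → ℕ) (n j₀ : ℕ) (Rel : G → ℕ → Prop) : Prop where
  one : Rel 1 j₀
  mul : ∀ c g j, Rel g j → Rel (gen c * g) (nx c j)
  ex : ∀ g, ∃ j < n, Rel g j
  uniq : ∀ g g' j, Rel g j → Rel g' j → g = g'

variable {gen : Bool → G} {iv nx : Bool → ℕ → ℕ} {T : ℕ → Finset ℕ} {NL n j₀ : ℕ}
  {Rel : G → ℕ → Prop} {f : ℕ → ℕ} {b off : ℕ}

theorem Tb.map_lt (h : Tb gen iv T NL) (c : Bool) {l : List ℕ} (hl : ∀ r ∈ l, r < NL) :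
    ∀ r ∈ l.map (iv c), r < NL := by
  intro r hr
  obtain ⟨r, hr', rfl⟩ := List.mem_map.1 hr
  exact h.lt c r (hl r hr')

theorem Tb.map_sum (h : Tb gen iv T NL) (c : Bool) {l : List ℕ} (hl : ∀ r ∈ l, r < NL) :
    ((l.map (iv c)).map fun r => sg (T r)).sum = mg (gen c) (l.map fun r => sg (T r)).sum := by
  induction l with
  | nil => simp
  | cons r l ih =>
    rw [List.map_cons, List.map_cons, List.sum_cons, ih fun r hr => hl r (List.mem_cons_of_mem _ hr),
      List.map_cons, List.sum_cons, map_add, mg_sg, h.eq c r (hl r List.mem_cons_self)]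

theorem Tb.val (h : Tb gen iv T NL) (c : Bool) {P N : List ℕ}
    (hP : ∀ r ∈ P, r < NL) (hN : ∀ r ∈ N, r < NL) :
    val T (P.map (iv c)) (N.map (iv c)) = mg (gen c) (PhiC.val T P N) := by
  rw [PhiC.val, PhiC.val, h.map_sum c hP, h.map_sum c hN, map_sub]

theorem phi_sg (hT : ∀ r < NL, ∀ r' < NL, T r = T r' → r = r') {r : ℕ} (hr : r < NL) :
    phi T f b off NL (sg (T r)) = FF f b off r := by
  simp only [phi, LinearMap.sum_apply, LinearMap.smul_apply, Finsupp.lapply_apply, smul_eq_mul]
  rw [Finset.sum_eq_single r]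
  · rw [sg, Finsupp.single_eq_same, mul_one]
  · intro k hk hne
    rw [sg, Finsupp.single_apply, if_neg, mul_zero]
    intro e
    exact hne (hT k (Finset.mem_range.1 hk) r hr e.symm)
  · intro hk
    exact absurd (Finset.mem_range.2 hr) hk

theorem phi_sum (hT : ∀ r < NL, ∀ r' < NL, T r = T r' → r = r') {l : List ℕ}
    (hl : ∀ r ∈ l, r < NL) : phi T f b off NL (l.map fun r => sg (T r)).sum =
      (s1 f b l : ℤ) - s2 b off l := by
  induction l with
  | nil => simp [s1, s2]
  | cons r l ih =>
    have h1 : s1 f b (r :: l) = (if b ≤ r then f (r - b) else 0) + s1 f b l := rfl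
    have h2 : s2 b off (r :: l) = (if b ≤ r then off else 0) + s2 b off l := rfl
    rw [List.map_cons, List.sum_cons, map_add, ih fun r hr => hl r (List.mem_cons_of_mem _ hr),
      phi_sg hT (hl r List.mem_cons_self), h1, h2, FF]
    split_ifs <;> push_cast <;> ring

theorem phi_val (hT : ∀ r < NL, ∀ r' < NL, T r = T r' → r = r') {P N : List ℕ}
    (hP : ∀ r ∈ P, r < NL) (hN : ∀ r ∈ N, r < NL) : phi T f b off NL (val T P N) =
      ((s1 f b P + s2 b off N : ℕ) : ℤ) - ((s2 b off P + s1 f b N : ℕ) : ℤ) := by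
  rw [val, map_sub, phi_sum hT hP, phi_sum hT hN]
  push_cast
  ring

theorem walk (h : Tb gen iv T NL) (hc : Cay gen nx n j₀ Rel) (z : M) (l : List Bool) :
    ∀ (P N : List ℕ) (j a : ℕ) (g : G), (∀ r ∈ P, r < NL) → (∀ r ∈ N, r < NL) →
      val T P N = mg g z → Rel g j →
      ∀ i, (st iv nx f b off l (P, N, j, a)).2.2.2.testBit i = true →
        a.testBit i = true ∨ ∃ g, Rel g i ∧ phi T f b off NL (mg g z) = 0 := by
  induction l with
  | nil => intro P N j a g _ _ _ _ i hi; exact Or.inl hi
  | cons c l ih =>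
    intro P N j a g hP hN hg hj i hi
    have hP' := h.map_lt c hP
    have hN' := h.map_lt c hN
    have hg' : val T (P.map (iv c)) (N.map (iv c)) = mg (gen c * g) z := by
      rw [h.val c hP hN, hg, mg_mul]
    have hj' := hc.mul c g j hj
    rw [st] at hi
    rcases ih _ _ _ _ (gen c * g) hP' hN' hg' hj' i hi with h1 | h1
    · split_ifs at h1 with h2
      · rw [Nat.testBit_or, Bool.or_eq_true] at h1
        rcases h1 with h1 | h1
        · exact Or.inl h1
        · rw [Nat.testBit_two_pow, decide_eq_true_iff] at h1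
          refine Or.inr ⟨gen c * g, h1 ▸ hj', ?_⟩
          rw [← hg', phi_val h.inj hP' hN', sub_eq_zero]
          exact_mod_cast h2
      · exact Or.inl h1
    · exact Or.inr h1

/-- the result -/
theorem phi_all (h : Tb gen iv T NL) (hc : Cay gen nx n j₀ Rel) {l : List Bool}
    {P N P' N' : List ℕ} {j' a : ℕ}
    (hst : st iv nx f b off l (P, N, j₀, 0) = (P', N', j', a))
    (h0 : chk0 f b off NL n j₀ a P N = true) :
    phi T f b off NL (val T P N) = 1 ∧
      ∀ g : G, g ≠ 1 → phi T f b off NL (mg g (val T P N)) = 0 := by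
  obtain ⟨hP, hN, h1, h2⟩ := chk0_spec h0
  refine ⟨?_, fun g hg => ?_⟩
  · rw [phi_val h.inj hP hN, h1]
    push_cast
    ring
  · obtain ⟨j, hj, hgj⟩ := hc.ex g
    have h3 : (a ||| 2 ^ j₀).testBit j = true := by
      rw [h2, Nat.testBit_two_pow_sub_one, decide_eq_true_iff]
      exact hj
    rw [Nat.testBit_or, Bool.or_eq_true] at h3
    rcases h3 with h3 | h3
    · have h4 := walk (f := f) (b := b) (off := off) h hc (val T P N) l P N j₀ 0 1 hP hN
        (mg_one _).symm hc.one j (by rw [hst]; exact h3)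
      rcases h4 with h4 | ⟨g', h5, h6⟩
      · simp at h4
      · rw [hc.uniq g g' j hgj h5]
        exact h6
    · rw [Nat.testBit_two_pow, decide_eq_true_iff] at h3
      exact absurd (hc.uniq g 1 j hgj (h3 ▸ hc.one)) hg

end Sem

end Pool.Agent.DF302A.PhiC
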