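import Pool.Agent.Work.MP_df302a_co.PhiC
import Pool.Agent.Work.MP_df302a_co.Tabs

/-! # MP_df302a_co : the table of the group for the walk. -/

set_option autoImplicit false

namespace Pool.Agent.DF302A.PhiC

open Pool.Agent.DF302A.HI

/-- number of the product with a generator -/
def nxt (c : Bool) (j : ℕ) : ℕ := cond c (nx N1 j) (nx N2 j)

/-- the number of an element -/
def RelM (g : M10) (j : ℕ) : Prop := j < 720 ∧ pk (g : Equiv.Perm (Fin 10)) = tab j

theorem cayM : Cay RepM.gen nxt 720 0 RelM where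
  one := ⟨by norm_num, tab0.symm⟩
  mul := by
    rintro c g j ⟨hj, e⟩
    cases c with
    | true =>
      obtain ⟨h1, h2⟩ := clo_spec (all_spec clo1 j hj)
      refine ⟨h1, ?_⟩
      have h3 : ((RepM.gen true * g : M10) : Equiv.Perm (Fin 10)) = g₁ * g := rfl
      rw [h3, pk_mul, e]
      exact h2.symm
    | false =>
      obtain ⟨h1, h2⟩ := clo_spec (all_spec clo2 j hj)
      refine ⟨h1, ?_⟩
      have h3 : ((RepM.gen false * g : M10) : Equiv.Perm (Fin 10)) = g₂ * g := rfl
      rw [h3, pk_mul, e]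
      exact h2.symm
  ex := by
    intro g
    obtain ⟨j, hj, e⟩ := mem_tabs g.2
    exact ⟨j, hj, hj, e⟩
  uniq := by
    rintro g g' j ⟨_, e⟩ ⟨_, e'⟩
    exact Subtype.ext (pk_inj (e.trans e'.symm))

end Pool.Agent.DF302A.PhiC
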