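import Mathlib

/-!
# A group with nine-fold elementary abelian subgroup has no small faithful representation

`RData G ...` collects relations which hold in the Mathieu group `M_10`. They exclude injective
homomorphisms into the endomorphisms of a real vector space of dimension at most `8`.
-/

set_option autoImplicit false

namespace Pool.Agent.DF302A

open LinearMap Module

/-- Relations between elements of a group. -/
structure RData {G : Type*} [Group G] (a b t u v y s : G) : Prop where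
  a1 : a ≠ 1
  a3 : a ^ 3 = 1
  b3 : b ^ 3 = 1
  ab : a * b = b * a
  t2 : t ^ 2 = 1
  ta : t * a = a ^ 2 * t
  v4 : v ^ 4 = 1
  y5 : y ^ 5 = 1
  vy : v * y = y ^ 2 * v
  cE : ∀ i j : Fin 3, ¬ (i = 0 ∧ j = 0) → IsConj a (a ^ (i : ℕ) * b ^ (j : ℕ))
  ct : ∀ i j : Fin 3, IsConj t (a ^ (i : ℕ) * b ^ (j : ℕ) * t)
  cu : ∀ i j : Fin 3, IsConj u (a ^ (i : ℕ) * b ^ (j : ℕ) * u)
  cv : ∀ i j : Fin 3, IsConj v (a ^ (i : ℕ) * b ^ (j : ℕ) * v)
  cs0 : IsConj t (a ^ 0 * b ^ 0 * s)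
  cs1 : IsConj a (a ^ 1 * b ^ 0 * s)
  cs2 : IsConj a (a ^ 2 * b ^ 0 * s)
  cs3 : IsConj u (a ^ 1 * b ^ 2 * s)
  cs4 : IsConj u (a ^ 2 * b ^ 1 * s)
  cs5 : IsConj y (a ^ 0 * b ^ 1 * s)
  cs6 : IsConj y (a ^ 0 * b ^ 2 * s)
  cs7 : IsConj y (a ^ 1 * b ^ 1 * s)
  cs8 : IsConj y (a ^ 2 * b ^ 2 * s)
  cy : ∀ i : Fin 5, i ≠ 0 → IsConj y (y ^ (i : ℕ) * v ^ 0)
  cF1 : ∀ i : Fin 5, IsConj v (y ^ (i : ℕ) * v ^ 1)
  cF2 : ∀ i : Fin 5, IsConj t (y ^ (i : ℕ) * v ^ 2)
  cF3 : ∀ i : Fin 5, IsConj v (y ^ (i : ℕ) * v ^ 3)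

section rep

variable {V : Type*} [AddCommGroup V] [Module ℝ V] [FiniteDimensional ℝ V]

theorem Rep_trace_nat (P : Module.End ℝ V) (hP : IsIdempotentElem P) :
    ∃ k : ℕ, k ≤ finrank ℝ V ∧ trace ℝ V P = k ∧ (k = 0 → P = 0) ∧
      (k = finrank ℝ V → P = 1) := by
  have h : IsProj (range P) P := hP.isProj_range
  refine ⟨finrank ℝ (range P), Submodule.finrank_le _, h.trace, fun h0 => ?_, fun h1 => ?_⟩
  · exact LinearMap.range_eq_bot.1 (Submodule.finrank_eq_zero.1 h0)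
  · have h2 : range P = ⊤ := Submodule.eq_top_of_finrank_eq h1
    refine LinearMap.ext fun x => ?_
    exact h.map_id x (h2 ▸ Submodule.mem_top)

/-- the average over the powers of an element -/
noncomputable def av (k : ℕ) (x : Module.End ℝ V) : Module.End ℝ V :=
  (k : ℝ)⁻¹ • ∑ i ∈ Finset.range k, x ^ i

omit [FiniteDimensional ℝ V] in
theorem mul_sum_pow (k : ℕ) (x : Module.End ℝ V) (hx : x ^ k = 1) :
    x * ∑ i ∈ Finset.range k, x ^ i = ∑ i ∈ Finset.range k, x ^ i := by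
  have h := mul_geom_sum x k
  rw [hx, sub_self, sub_mul, one_mul, sub_eq_zero] at h
  exact h

omit [FiniteDimensional ℝ V] in
theorem mul_av (k : ℕ) (x : Module.End ℝ V) (hx : x ^ k = 1) : x * av k x = av k x := by
  unfold av
  rw [mul_smul_comm, mul_sum_pow k x hx]

omit [FiniteDimensional ℝ V] in
theorem pow_mul_av (k : ℕ) (x : Module.End ℝ V) (hx : x ^ k = 1) (i : ℕ) :
    x ^ i * av k x = av k x := by
  induction i with
  | zero => rw [pow_zero, one_mul]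
  | succ i ih => rw [pow_succ, mul_assoc, mul_av k x hx, ih]

omit [FiniteDimensional ℝ V] in
theorem av_idem (k : ℕ) (hk : 0 < k) (x : Module.End ℝ V) (hx : x ^ k = 1) :
    IsIdempotentElem (av k x) := by
  show av k x * av k x = av k x
  have h : av k x * av k x = (k : ℝ)⁻¹ • ∑ i ∈ Finset.range k, x ^ i * av k x := by
    rw [← Finset.sum_mul, ← smul_mul_assoc]
    rfl
  rw [h, Finset.sum_congr rfl fun i _ => pow_mul_av k x hx i, Finset.sum_const,
    Finset.card_range, ← Nat.cast_smul_eq_nsmul ℝ, smul_smul,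
    inv_mul_cancel₀ (Nat.cast_ne_zero.2 hk.ne'), one_smul]

omit [FiniteDimensional ℝ V] in
theorem trace_av_mul (k l : ℕ) (x z g : Module.End ℝ V) :
    trace ℝ V (av k x * av l z * g) = (k : ℝ)⁻¹ * (l : ℝ)⁻¹ *
      ∑ i ∈ Finset.range k, ∑ j ∈ Finset.range l, trace ℝ V (x ^ i * z ^ j * g) := by
  unfold av
  rw [smul_mul_smul_comm, Finset.sum_mul_sum, smul_mul_assoc, map_smul, smul_eq_mul,
    Finset.sum_mul, map_sum]
  congr 1
  refine Finset.sum_congr rfl fun i _ => ?_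
  rw [Finset.sum_mul, map_sum]

variable {G : Type*} [Group G]

omit [FiniteDimensional ℝ V] in
theorem trace_conj (ρ : G →* Module.End ℝ V) {g h : G} (hc : IsConj g h) :
    trace ℝ V (ρ h) = trace ℝ V (ρ g) := by
  obtain ⟨c, rfl⟩ := isConj_iff.1 hc
  rw [map_mul, trace_mul_comm, ← map_mul, ← mul_assoc, inv_mul_cancel, one_mul]

omit [FiniteDimensional ℝ V] in
theorem commute_av (k l : ℕ) (x z : Module.End ℝ V)
    (h : Commute (∑ i ∈ Finset.range k, x ^ i) z) : Commute (av k x) (av l z) := by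
  unfold av
  exact ((Commute.sum_right _ _ _ fun j _ => h.pow_right j).smul_left _).smul_right _

omit [FiniteDimensional ℝ V] in
theorem commute_sum (k : ℕ) (x z : Module.End ℝ V) (h : Commute x z) :
    Commute (∑ i ∈ Finset.range k, x ^ i) z := by
  show (∑ i ∈ Finset.range k, x ^ i) * z = z * ∑ i ∈ Finset.range k, x ^ i
  rw [Finset.sum_mul, Finset.mul_sum]
  exact Finset.sum_congr rfl fun i _ => h.pow_left i

omit [FiniteDimensional ℝ V] in
theorem av_mul_idem (k l : ℕ) (hk : 0 < k) (hl : 0 < l) (x z : Module.End ℝ V) (hx : x ^ k = 1)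
    (hz : z ^ l = 1) (h : Commute (∑ i ∈ Finset.range k, x ^ i) z) :
    IsIdempotentElem (av k x * av l z) :=
  IsIdempotentElem.mul_of_commute (commute_av k l x z h) (av_idem k hk x hx) (av_idem l hl z hz)

omit [FiniteDimensional ℝ V] in
theorem sum_semi (k : ℕ) (x z : Module.End ℝ V) (h : z * x = x ^ 2 * z)
    (hs : ∑ i ∈ Finset.range k, (x ^ 2) ^ i = ∑ i ∈ Finset.range k, x ^ i) :
    Commute (∑ i ∈ Finset.range k, x ^ i) z := by
  have h1 : SemiconjBy z x (x ^ 2) := h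
  show (∑ i ∈ Finset.range k, x ^ i) * z = z * ∑ i ∈ Finset.range k, x ^ i
  rw [← hs, Finset.sum_mul, hs, Finset.mul_sum]
  exact Finset.sum_congr rfl fun i _ => (h1.pow_right i).symm

omit [FiniteDimensional ℝ V] in
theorem sum_three (x : Module.End ℝ V) (h : x ^ 3 = 1) :
    ∑ i ∈ Finset.range 3, (x ^ 2) ^ i = ∑ i ∈ Finset.range 3, x ^ i := by
  have h4 : x ^ 4 = x := by rw [pow_succ, h, one_mul]
  simp only [Finset.sum_range_succ, Finset.sum_range_zero, ← pow_mul]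
  norm_num [h4]
  abel

omit [FiniteDimensional ℝ V] in
theorem sum_five (x : Module.End ℝ V) (h : x ^ 5 = 1) :
    ∑ i ∈ Finset.range 5, (x ^ 2) ^ i = ∑ i ∈ Finset.range 5, x ^ i := by
  have h6 : x ^ 6 = x := by rw [pow_succ, h, one_mul]
  have h8 : x ^ 8 = x ^ 3 := by rw [show 8 = 5 + 3 from rfl, pow_add, h, one_mul]
  simp only [Finset.sum_range_succ, Finset.sum_range_zero, ← pow_mul]
  norm_num [h6, h8]
  abel

/-- The relations exclude faithful representations of dimension at most `8`. -/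
theorem RData.false {a b t u v y s : G} (D : RData a b t u v y s) (hV : finrank ℝ V ≤ 8)
    (ρ : G →* Module.End ℝ V) (hρ : Function.Injective ρ) : False := by
  set n := finrank ℝ V with hn
  set χ : G → ℝ := fun g => trace ℝ V (ρ g) with hχ
  have hc : ∀ {g h : G}, IsConj g h → χ h = χ g := fun h => trace_conj ρ h
  have hpow : ∀ (g : G) (k : ℕ), g ^ k = 1 → ρ g ^ k = 1 := fun g k h => by
    rw [← map_pow, h, map_one]
  have ha := hpow a 3 D.a3
  have hb := hpow b 3 D.b3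
  have ht := hpow t 2 D.t2
  have hv := hpow v 4 D.v4
  have hy := hpow y 5 D.y5
  have h1 : χ 1 = n := by
    show trace ℝ V (ρ 1) = n
    rw [map_one, LinearMap.trace_one]
  have hsum : ∀ (k l : ℕ) (x z g : G), trace ℝ V (av k (ρ x) * av l (ρ z) * ρ g) =
      (k : ℝ)⁻¹ * (l : ℝ)⁻¹ *
        ∑ i ∈ Finset.range k, ∑ j ∈ Finset.range l, χ (x ^ i * z ^ j * g) := fun k l x z g => by
    rw [trace_av_mul]
    simp only [hχ, map_mul, map_pow]
  -- averages
  have hPa := av_idem 3 (by norm_num) (ρ a) ha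
  have hPt := av_idem 2 (by norm_num) (ρ t) ht
  have hab : Commute (ρ a) (ρ b) := by
    show ρ a * ρ b = ρ b * ρ a
    rw [← map_mul, D.ab, map_mul]
  have hE := av_mul_idem 3 3 (by norm_num) (by norm_num) (ρ a) (ρ b) ha hb
    (commute_sum 3 (ρ a) (ρ b) hab)
  have hta : ρ t * ρ a = ρ a ^ 2 * ρ t := by rw [← map_mul, D.ta, map_mul, map_pow]
  have hS := av_mul_idem 3 2 (by norm_num) (by norm_num) (ρ a) (ρ t) ha ht
    (sum_semi 3 (ρ a) (ρ t) hta (sum_three (ρ a) ha))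
  have hvy : ρ v * ρ y = ρ y ^ 2 * ρ v := by rw [← map_mul, D.vy, map_mul, map_pow]
  have hF := av_mul_idem 5 4 (by norm_num) (by norm_num) (ρ y) (ρ v) hy hv
    (sum_semi 5 (ρ y) (ρ v) hvy (sum_five (ρ y) hy))
  obtain ⟨ka, hka, hka1, hka2, hka3⟩ := Rep_trace_nat _ hPa
  obtain ⟨kt, hkt, hkt1, hkt2, hkt3⟩ := Rep_trace_nat _ hPt
  obtain ⟨kE, hkE, hkE1, hkE2, hkE3⟩ := Rep_trace_nat _ hE
  obtain ⟨ks, hks, hks1, hks2, hks3⟩ := Rep_trace_nat _ hS
  obtain ⟨kF, hkF, hkF1, hkF2, hkF3⟩ := Rep_trace_nat _ hF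
  have hsum1 : ∀ (k : ℕ) (x : G), trace ℝ V (av k (ρ x)) =
      (k : ℝ)⁻¹ * ∑ i ∈ Finset.range k, χ (x ^ i) := fun k x => by
    unfold av
    rw [map_smul, smul_eq_mul, map_sum]
    simp only [hχ, map_pow]
  -- class values on `E`
  have c01 : χ (a ^ 0 * b ^ 1) = χ a := hc (D.cE 0 1 (by decide))
  have c02 : χ (a ^ 0 * b ^ 2) = χ a := hc (D.cE 0 2 (by decide))
  have c10 : χ (a ^ 1 * b ^ 0) = χ a := hc (D.cE 1 0 (by decide))
  have c11 : χ (a ^ 1 * b ^ 1) = χ a := hc (D.cE 1 1 (by decide))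
  have c12 : χ (a ^ 1 * b ^ 2) = χ a := hc (D.cE 1 2 (by decide))
  have c20 : χ (a ^ 2 * b ^ 0) = χ a := hc (D.cE 2 0 (by decide))
  have c21 : χ (a ^ 2 * b ^ 1) = χ a := hc (D.cE 2 1 (by decide))
  have c22 : χ (a ^ 2 * b ^ 2) = χ a := hc (D.cE 2 2 (by decide))
  have c00 : χ (a ^ 0 * b ^ 0) = n := by rw [pow_zero, pow_zero, mul_one, h1]
  have ca2 : χ (a ^ 2) = χ a := by rw [← c20, pow_zero, mul_one]
  have e1 : (ka : ℝ) = (3 : ℝ)⁻¹ * (n + 2 * χ a) := by
    rw [← hka1, hsum1]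
    simp only [Finset.sum_range_succ, Finset.sum_range_zero, pow_zero, pow_one, h1, ca2]
    push_cast
    ring
  have e2 : (kt : ℝ) = (2 : ℝ)⁻¹ * (n + χ t) := by
    rw [← hkt1, hsum1]
    simp only [Finset.sum_range_succ, Finset.sum_range_zero, pow_zero, pow_one, h1]
    push_cast
    ring
  have e3 : (kE : ℝ) = (9 : ℝ)⁻¹ * (n + 8 * χ a) := by
    have h := hsum 3 3 a b 1
    rw [map_one, mul_one, hkE1] at h
    rw [h]
    simp only [Finset.sum_range_succ, Finset.sum_range_zero, mul_one, c00, c01, c02, c10, c11,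
      c12, c20, c21, c22]
    push_cast
    ring
  have t0 : χ (a ^ 0 * t ^ 1) = χ t := by rw [pow_zero, one_mul, pow_one]
  have t1 : χ (a ^ 1 * t ^ 1) = χ t := by
    have h : χ (a ^ 1 * b ^ 0 * t) = χ t := hc (D.ct 1 0)
    rw [pow_zero, mul_one] at h
    rw [pow_one t]
    exact h
  have t2 : χ (a ^ 2 * t ^ 1) = χ t := by
    have h : χ (a ^ 2 * b ^ 0 * t) = χ t := hc (D.ct 2 0)
    rw [pow_zero, mul_one] at h
    rw [pow_one t]
    exact h
  have e4 : (ks : ℝ) = (6 : ℝ)⁻¹ * (n + 2 * χ a + 3 * χ t) := by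
    have h := hsum 3 2 a t 1
    rw [map_one, mul_one, hks1] at h
    rw [h]
    simp only [Finset.sum_range_succ, Finset.sum_range_zero, mul_one, t0, t1, t2]
    simp only [pow_zero, pow_one, mul_one, h1, ca2]
    push_cast
    ring
  -- the dimension
  have f1 : 3 * kE + n = 4 * ka := by
    have : (3 * kE + n : ℝ) = 4 * ka := by rw [e3, e1]; ring
    exact_mod_cast this
  have f2 : 2 * ks + n = ka + 2 * kt := by
    have : (2 * ks + n : ℝ) = ka + 2 * kt := by rw [e4, e1, e2]; ring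
    exact_mod_cast this
  have f3 : ka ≠ n := fun h => by
    have h2 := mul_av 3 (ρ a) ha
    rw [hka3 h, mul_one] at h2
    exact D.a1 (hρ (h2.trans (map_one ρ).symm))
  have f4 : n = 8 ∧ kE = 0 := by omega
  have hn8 : (n : ℝ) = 8 := by exact_mod_cast f4.1
  have hχa : χ a = -1 := by
    rw [f4.2, hn8] at e3
    push_cast at e3
    linarith
  -- sums over cosets of `E` vanish
  have hz : ∀ g : G, ∑ i ∈ Finset.range 3, ∑ j ∈ Finset.range 3, χ (a ^ i * b ^ j * g) = 0 :=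
    fun g => by
      have h := hsum 3 3 a b g
      rw [hkE2 f4.2, zero_mul, map_zero] at h
      have h3 : ((3 : ℕ) : ℝ)⁻¹ * ((3 : ℕ) : ℝ)⁻¹ ≠ 0 := by norm_num
      exact (mul_eq_zero.1 h.symm).resolve_left h3
  have hz2 : ∀ g : G, (∀ i j : Fin 3, IsConj g (a ^ (i : ℕ) * b ^ (j : ℕ) * g)) → χ g = 0 :=
    fun g hg => by
      have h := hz g
      have d00 : χ (a ^ 0 * b ^ 0 * g) = χ g := hc (hg 0 0)
      have d01 : χ (a ^ 0 * b ^ 1 * g) = χ g := hc (hg 0 1)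
      have d02 : χ (a ^ 0 * b ^ 2 * g) = χ g := hc (hg 0 2)
      have d10 : χ (a ^ 1 * b ^ 0 * g) = χ g := hc (hg 1 0)
      have d11 : χ (a ^ 1 * b ^ 1 * g) = χ g := hc (hg 1 1)
      have d12 : χ (a ^ 1 * b ^ 2 * g) = χ g := hc (hg 1 2)
      have d20 : χ (a ^ 2 * b ^ 0 * g) = χ g := hc (hg 2 0)
      have d21 : χ (a ^ 2 * b ^ 1 * g) = χ g := hc (hg 2 1)
      have d22 : χ (a ^ 2 * b ^ 2 * g) = χ g := hc (hg 2 2)
      simp only [Finset.sum_range_succ, Finset.sum_range_zero, d00, d01, d02, d10, d11, d12,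
        d20, d21, d22] at h
      linarith
  have hχt := hz2 t D.ct
  have hχu := hz2 u D.cu
  have hχv := hz2 v D.cv
  have hχy : χ y = 1 / 2 := by
    have h := hz s
    simp only [Finset.sum_range_succ, Finset.sum_range_zero, hc D.cs0, hc D.cs1, hc D.cs2,
      hc D.cs3, hc D.cs4, hc D.cs5, hc D.cs6, hc D.cs7, hc D.cs8, hχt, hχu, hχa] at h
    linarith
  have e5 : (kF : ℝ) = 1 / 2 := by
    have h := hsum 5 4 y v 1
    rw [map_one, mul_one, hkF1] at h
    rw [h]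
    have y1 : χ (y ^ 1 * v ^ 0) = χ y := hc (D.cy 1 (by decide))
    have y2 : χ (y ^ 2 * v ^ 0) = χ y := hc (D.cy 2 (by decide))
    have y3 : χ (y ^ 3 * v ^ 0) = χ y := hc (D.cy 3 (by decide))
    have y4 : χ (y ^ 4 * v ^ 0) = χ y := hc (D.cy 4 (by decide))
    have y0 : χ (y ^ 0 * v ^ 0) = n := by rw [pow_zero, pow_zero, mul_one, h1]
    have v0 : ∀ i : Fin 5, χ (y ^ (i : ℕ) * v ^ 1) = χ v := fun i => hc (D.cF1 i)
    have w0 : ∀ i : Fin 5, χ (y ^ (i : ℕ) * v ^ 2) = χ t := fun i => hc (D.cF2 i)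
    have z0 : ∀ i : Fin 5, χ (y ^ (i : ℕ) * v ^ 3) = χ v := fun i => hc (D.cF3 i)
    have v00 : χ (y ^ 0 * v ^ 1) = χ v := v0 0
    have v01 : χ (y ^ 1 * v ^ 1) = χ v := v0 1
    have v02 : χ (y ^ 2 * v ^ 1) = χ v := v0 2
    have v03 : χ (y ^ 3 * v ^ 1) = χ v := v0 3
    have v04 : χ (y ^ 4 * v ^ 1) = χ v := v0 4
    have w00 : χ (y ^ 0 * v ^ 2) = χ t := w0 0
    have w01 : χ (y ^ 1 * v ^ 2) = χ t := w0 1
    have w02 : χ (y ^ 2 * v ^ 2) = χ t := w0 2
    have w03 : χ (y ^ 3 * v ^ 2) = χ t := w0 3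
    have w04 : χ (y ^ 4 * v ^ 2) = χ t := w0 4
    have z00 : χ (y ^ 0 * v ^ 3) = χ v := z0 0
    have z01 : χ (y ^ 1 * v ^ 3) = χ v := z0 1
    have z02 : χ (y ^ 2 * v ^ 3) = χ v := z0 2
    have z03 : χ (y ^ 3 * v ^ 3) = χ v := z0 3
    have z04 : χ (y ^ 4 * v ^ 3) = χ v := z0 4
    simp only [Finset.sum_range_succ, Finset.sum_range_zero, mul_one, y0, y1, y2, y3, y4,
      v00, v01, v02, v03, v04, w00, w01, w02, w03, w04, z00, z01, z02, z03, z04, hχt, hχv, hχy,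
      hn8]
    norm_num
  have e6 : (2 * kF : ℝ) = 1 := by rw [e5]; norm_num
  have e7 : 2 * kF = 1 := by exact_mod_cast e6
  omega

end rep

end Pool.Agent.DF302A
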