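import Pool.Agent.Work.MP_df302a_co.SCheck

/-! # MP_df302a_co : the complex `L` and the attaching subcomplex `S` of the data -/

set_option autoImplicit false

namespace Pool.Agent.DF302A

open Finset Pool.Agent.DF302A.Orb Pool.Agent.DF302A.PI

theorem isCx_insert {A : Finset (Finset ℕ)} {t : Finset ℕ} (h : IsCx (A : Set (Finset ℕ)))
    (hf : ∀ x ∈ t, t.erase x ∈ A) : IsCx ((insert t A : Finset (Finset ℕ)) : Set (Finset ℕ)) := by
  refine ⟨Finset.mem_coe.2 (Finset.mem_insert_of_mem (Finset.mem_coe.1 h.1)), ?_⟩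
  intro σ hσ τ hτ
  rcases Finset.mem_insert.1 (Finset.mem_coe.1 hσ) with rfl | hσ
  · rcases eq_or_ssubset_of_subset hτ with rfl | hss
    · exact hσ
    · obtain ⟨y, hy, hyτ⟩ := Finset.exists_of_ssubset hss
      refine Finset.mem_coe.2 (Finset.mem_insert_of_mem (Finset.mem_coe.1 ?_))
      exact h.2 _ (Finset.mem_coe.2 (hf y hy)) _ fun z hz =>
        Finset.mem_erase.2 ⟨fun e => hyτ (e ▸ hz), hτ hz⟩
  · exact Finset.mem_coe.2 (Finset.mem_insert_of_mem (Finset.mem_coe.1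
      (h.2 σ (Finset.mem_coe.2 hσ) τ hτ)))

/-- the attaching subcomplex -/
noncomputable def zS : Finset (Finset ℕ) := insert (DR zVT zRT 4074) (SK zVT zRT zSP 457)

/-- the complex `L` -/
noncomputable def zL : Finset (Finset ℕ) := LK zVT zRT 6721

theorem zL_isCx : IsCx (zL : Set (Finset ℕ)) := zLV.isCx le_rfl

theorem zL_inv : ∀ g : M10, ∀ c ∈ zL, im g c ∈ zL := zLV.inv zIVV

theorem zL_card : ∀ c ∈ zL, c.card ≤ 3 := zLV.card_le

theorem zL_lt : ∀ c ∈ zL, ∀ v ∈ c, v < 16777216 := zLV.vlt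

theorem zS_sub : zS ⊆ zL := by
  obtain ⟨-, h2, h3, -, -, -⟩ := zSV.main zLV
  intro c hc
  rcases Finset.mem_insert.1 hc with rfl | hc
  · exact h3
  · exact h2 hc

theorem zS_isCx : IsCx (zS : Set (Finset ℕ)) := by
  obtain ⟨h1, -, -, -, -, h6⟩ := zSV.main zLV
  exact isCx_insert h1.isCx h6

end Pool.Agent.DF302A
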