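import Pool.Agent.Work.MP_df302a_co.LemL

/-! # MP_df302a_co : Theorem B -/

set_option autoImplicit false

namespace Pool.Agent.DF302A

open Finset

section ThmB
variable {V : Type*} [Fintype V] [DecidableEq V]

theorem sph_join' {Q₁ Q₂ : Set (Finset V)} {m₁ m₂ : ℕ} (A : Set V)
    (h1 : ∀ σ ∈ Q₁, ∀ x ∈ σ, x ∈ A) (h2 : ∀ σ ∈ Q₂, ∀ x ∈ σ, x ∉ A)
    (hS : Sph Q₁ m₁) (hS' : Sph Q₂ m₂) {m : ℕ} (hm : m₁ + m₂ = m) : Sph (join Q₁ Q₂) m := by
  subst hm
  exact Sph.join A h1 h2 hS hS'

theorem sph_sd_bd (I : Finset V) (hI : I.Nonempty) : Sph (sd (bd I)) (I.card - 1) :=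
  Sph.sd (isCx_bd hI) (sph_bd I hI)

/-- Collapsible complexes are complexes inside `Y`. -/
theorem Collap.isCx {Y : Set (Finset V)} (hY : IsCx Y) {K : Set (Finset V)} (hK : Collap Y K) :
    IsCx K ∧ K ⊆ Y := by
  induction hK with
  | point v hv =>
    refine ⟨⟨Set.mem_insert _ _, ?_⟩, ?_⟩
    · rintro σ (rfl | hσ) τ hτ
      · rw [Finset.subset_empty.mp hτ]
        exact Set.mem_insert _ _
      · rw [Set.mem_singleton_iff] at hσ
        subst hσ
        rcases Finset.subset_singleton_iff.mp hτ with h | h
        · rw [h]; exact Set.mem_insert _ _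
        · rw [h]; exact Set.mem_insert_of_mem _ rfl
    · rintro σ (rfl | hσ)
      · exact hY.1
      · rw [Set.mem_singleton_iff] at hσ
        rwa [hσ]
  | step K E x hK hE hx h2 hF hy ih =>
    obtain ⟨⟨h0, hd⟩, hKY⟩ := ih
    have hFK : ∀ τ : Finset V, τ ⊆ E.erase x →
        τ ∈ insert (E.erase x) (insert E K) := by
      intro τ hτ
      by_cases he : τ = E.erase x
      · rw [he]; exact Set.mem_insert _ _
      · have hss : τ ⊂ E.erase x := lt_of_le_of_ne hτ he
        obtain ⟨y, hyE, hyτ⟩ := Finset.exists_of_ssubset hss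
        have hyE' := Finset.mem_erase.mp hyE
        refine Set.mem_insert_of_mem _ (Set.mem_insert_of_mem _ ?_)
        refine hd _ (hy y hyE'.2 hyE'.1) τ ?_
        intro z hz
        refine Finset.mem_erase.mpr ⟨fun h => hyτ (h ▸ hz), ?_⟩
        exact Finset.mem_of_mem_erase (hτ hz)
    refine ⟨⟨Set.mem_insert_of_mem _ (Set.mem_insert_of_mem _ h0), ?_⟩, ?_⟩
    · rintro σ (rfl | rfl | hσ) τ hτ
      · exact hFK τ hτ
      · by_cases he : τ = σ
        · rw [he]; exact Set.mem_insert_of_mem _ (Set.mem_insert _ _)
        · by_cases hxτ : x ∈ τ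
          · have hss : τ ⊂ σ := lt_of_le_of_ne hτ he
            obtain ⟨y, hyE, hyτ⟩ := Finset.exists_of_ssubset hss
            have hyx : y ≠ x := fun h => hyτ (h ▸ hxτ)
            refine Set.mem_insert_of_mem _ (Set.mem_insert_of_mem _ ?_)
            refine hd _ (hy y hyE hyx) τ ?_
            intro z hz
            exact Finset.mem_erase.mpr ⟨fun h => hyτ (h ▸ hz), hτ hz⟩
          · apply hFK
            intro z hz
            exact Finset.mem_erase.mpr ⟨fun h => hxτ (h ▸ hz), hτ hz⟩
      · exact Set.mem_insert_of_mem _ (Set.mem_insert_of_mem _ (hd σ hσ τ hτ))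
    · rintro σ (rfl | rfl | hσ)
      · exact hY.2 E hE _ (Finset.erase_subset _ _)
      · exact hE
      · exact hKY hσ

theorem thmB {Y : Set (Finset V)} {m : ℕ} (hY : Strong Y m) {K : Set (Finset V)}
    (hK : Collap Y K) (f : Finset V → ℝ) (hn : ∀ c ∈ K, c.Nonempty → f c < 0)
    (hp : ∀ c ∈ Y, c ∉ K → 0 < f c) : Coord (sd Y) f m := by
  obtain ⟨hYc, hS⟩ := hY
  induction hK generalizing f with
  | point v hv =>
    obtain ⟨_, _, h3⟩ := hS ∅ hYc.1
    have h4 := h3 v (Finset.notMem_empty v) hv (fun u => if u = v then (-(1 / 2) : ℝ) else 1)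
      (by simp) (fun w _ hw _ => by simp [hw])
    rw [lkF_empty, Finset.card_empty, Nat.sub_zero] at h4
    refine L_sd_only hYc v h4 f ?_ ?_
    · exact hn _ (Set.mem_insert_of_mem _ rfl) (Finset.singleton_nonempty v)
    · intro B hB hBY hBv
      apply hp B hBY
      rintro (h | h)
      · exact hB.ne_empty h
      · exact hBv h
  | step K E x hK hE hx h2 hF hy ih =>
    have hKc := (Collap.isCx hYc hK)
    have hK'c := (Collap.isCx hYc (Collap.step K E x hK hE hx h2 hF hy)).1
    set F : Finset V := E.erase x with hFdef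
    have hFcard : F.card = E.card - 1 := Finset.card_erase_of_mem hx
    have hFne : F.Nonempty := Finset.card_pos.mp (by omega)
    have hEne : E.Nonempty := ⟨x, hx⟩
    have hFE : F ⊂ E := Finset.erase_ssubset hx
    have hFY : F ∈ Y := hYc.2 E hE F hFE.subset
    have hEK : E ∉ K := fun h => hF (hKc.1.2 E h F hFE.subset)
    have hxF : x ∉ F := Finset.notMem_erase x E
    have hEm : E.card ≤ m := (hS E hE).1
    obtain ⟨m', rfl⟩ : ∃ m', m = m' + 1 := ⟨m - 1, by omega⟩
    set f2 : Finset V → ℝ := Function.update f F 1 with hf2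
    set f1 : Finset V → ℝ := Function.update f2 E 1 with hf1
    have hf1K : ∀ c ∈ K, f1 c = f c := by
      intro c hc
      have h1 : c ≠ E := fun h => hEK (h ▸ hc)
      have h2' : c ≠ F := fun h => hF (h ▸ hc)
      rw [hf1, Function.update_of_ne h1, hf2, Function.update_of_ne h2']
    have s0 : Coord (sd Y) f1 (m' + 1) := by
      apply ih f1
      · intro c hc hcne
        rw [hf1K c hc]
        exact hn c (Set.mem_insert_of_mem _ (Set.mem_insert_of_mem _ hc)) hcne
      · intro c hc hcK
        by_cases h1 : c = E
        · rw [h1, hf1, Function.update_self]; exact one_pos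
        · by_cases h3 : c = F
          · rw [hf1, Function.update_of_ne h1, h3, hf2, Function.update_self]; exact one_pos
          · rw [hf1, Function.update_of_ne h1, hf2, Function.update_of_ne h3]
            apply hp c hc
            rintro (h | h | h)
            · exact h3 h
            · exact h1 h
            · exact hcK h
    have s1 : Coord (sd Y) f2 (m' + 1) := by
      refine Coord.vertex (isCx_sd _) E ((L_single_mem_sd _ _).mpr ⟨hE, hEne⟩) s0 ?_ ?_
      · have hc : Coord (sd (bd E)) f1 (E.card - 1) := by
          have h3 : Coord (sd (bd E)) (fun B => - f1 B) (E.card - 1) := by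
            refine coord_sd_bd E F hFne hFE _ ?_ ?_
            · change - f1 F < 0
              rw [hf1, Function.update_of_ne hFE.ne, hf2, Function.update_self]
              norm_num
            · intro B hB hBE hBF
              have hBK : B ∈ K := by
                have h4 : B ∈ insert F (insert E K) :=
                  hK'c.2 E (Set.mem_insert_of_mem _ (Set.mem_insert _ _)) B hBE.subset
                rcases h4 with h | h | h
                · exact absurd h hBF
                · exact absurd h hBE.ne
                · exact h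
              rw [hf1K B hBK]
              have := hn B (Set.mem_insert_of_mem _ (Set.mem_insert_of_mem _ hBK)) hB
              linarith
          have h4 := Coord.neg h3
          simpa only [neg_neg] using h4
        have h5 := coord_lk_dn hYc hE hEne f1 hc (hS E hE).2.1
        have e : m' + 1 - E.card + (E.card - 1) = m' := by omega
        rwa [e] at h5
      · intro y hy'
        rw [hf1, Function.update_of_ne hy']
    refine Coord.vertex (isCx_sd _) F ((L_single_mem_sd _ _).mpr ⟨hFY, hFne⟩) s1 ?_ ?_
    · have hins : insert x F = E := Finset.insert_erase hx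
      have h3 := (hS F hFY).2.2 x hxF (by rw [hins]; exact hE)
        (fun u => if u = x then (-(1 / 2) : ℝ) else 1) (by simp) (fun w _ hw _ => by simp [hw])
      have hc : Coord (sd (lkF Y F)) (fun G => f2 (G ∪ F)) (m' + 1 - F.card) := by
        refine L_sd_only (isCx_lkF hYc hFY) x h3 _ ?_ ?_
        · have e : {x} ∪ F = E := by rw [← Finset.insert_eq, hins]
          simp only [e]
          rw [hf2, Function.update_of_ne hFE.ne.symm]
          exact hn E (Set.mem_insert_of_mem _ (Set.mem_insert _ _)) hEne
        · intro B hB hBY hBx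
          obtain ⟨hd, hu⟩ := hBY
          have hBF : B ∪ F ≠ F := by
            intro h
            obtain ⟨y, hyB⟩ := hB
            have h1 : y ∈ F := by rw [← h]; exact Finset.mem_union_left _ hyB
            exact Finset.disjoint_left.mp hd hyB h1
          rw [hf2, Function.update_of_ne hBF]
          apply hp _ hu
          rintro (h | h | h)
          · exact hBF h
          · apply hBx
            have h1 : (B ∪ F) \ F = E \ F := by rw [h]
            rw [Finset.union_sdiff_right, Finset.sdiff_eq_self_of_disjoint hd] at h1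
            rw [h1, hFdef, Finset.sdiff_erase_self hx]
          · exact hF (hKc.1.2 _ h F Finset.subset_union_right)
      have h5 := coord_lk_up hYc hFY hFne f2 (sph_sd_bd F hFne) hc
      have e : F.card - 1 + (m' + 1 - F.card) = m' := by omega
      rwa [e] at h5
    · intro y hy'
      rw [hf2, Function.update_of_ne hy']

theorem B_insert_mem {Y : Set (Finset V)} {c : Finset (Finset V)} (hc : c ∈ sd Y)
    {B : Finset V} (hB : B ∈ Y) (hBne : B.Nonempty) (hcmp : ∀ C ∈ c, B ⊆ C ∨ C ⊆ B) :
    insert B c ∈ sd Y := by
  rw [L_sd_eq] at hc ⊢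
  refine ⟨?_, ?_⟩
  · intro C hC D hD
    rcases Finset.mem_insert.mp hC with rfl | hC' <;> rcases Finset.mem_insert.mp hD with h | hD'
    · left; rw [h]
    · exact hcmp D hD'
    · rw [h]; exact (hcmp C hC').symm
    · exact hc.1 C hC' D hD'
  · intro C hC
    rcases Finset.mem_insert.mp hC with rfl | hC'
    · exact ⟨hB, hBne⟩
    · exact hc.2 C hC'

theorem B_key (n : ℕ) : ∀ (I : Finset V), I.Nonempty → ∀ c ∈ sd (bd I), c.card = n →
    c.card ≤ I.card - 1 ∧ Sph (lkF (sd (bd I)) c) (I.card - 1 - c.card) ∧
    ∀ A, A ∉ c → insert A c ∈ sd (bd I) → ∀ f : Finset V → ℝ, f A < 0 →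
      (∀ B, B ∉ c → B ≠ A → insert B c ∈ sd (bd I) → 0 < f B) →
      Coord (lkF (sd (bd I)) c) f (I.card - 1 - c.card) := by
  induction n with
  | zero =>
    intro I hI c hc hcard
    obtain rfl := Finset.card_eq_zero.mp hcard
    refine ⟨Nat.zero_le _, ?_, ?_⟩
    · rw [lkF_empty]
      exact sph_sd_bd I hI
    · intro A _ hA f hn hp
      rw [lkF_empty]
      have hA' := (hA.1 A (Finset.mem_insert_self _ _))
      refine coord_sd_bd I A hA'.2 hA'.1 f hn ?_
      intro B hB hBI hBA
      refine hp B (Finset.notMem_empty B) hBA ?_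
      exact (L_single_mem_sd _ _).mpr ⟨hBI, hB⟩
  | succ n ih =>
    intro I hI c hc hcard
    have hcne : c.Nonempty := Finset.card_pos.mp (by omega)
    have hc' := hc
    rw [L_sd_eq] at hc'
    obtain ⟨M, hM, hmax⟩ := L_exists_max hc'.1 hcne
    have hMI : M ⊂ I := (hc.1 M hM).1
    have hMne : M.Nonempty := (hc.1 M hM).2
    have hY : IsCx (bd I) := isCx_bd hI
    have hcM : c.erase M ∈ sd (bd M) := by
      rw [L_sd_eq]
      refine ⟨hc'.1.mono (Finset.erase_subset _ _), ?_⟩
      intro B hB
      have hB' := Finset.mem_erase.mp hB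
      exact ⟨lt_of_le_of_ne (hmax B hB'.2) hB'.1, (hc.1 B hB'.2).2⟩
    have hcM' : (c.erase M).card = n := by rw [Finset.card_erase_of_mem hM, hcard]; rfl
    obtain ⟨ih1, ih2, ih3⟩ := ih M hMne (c.erase M) hcM hcM'
    have hMcard : M.card < I.card := Finset.card_lt_card hMI
    have hM1 : 1 ≤ M.card := Finset.card_pos.mpr hMne
    have hcompl : (I \ M).card = I.card - M.card := Finset.card_sdiff_of_subset hMI.subset
    have hIM : (I \ M).Nonempty := Finset.sdiff_nonempty.mpr hMI.2
    have hup : Sph ((Finset.image (fun G => G ∪ M)) '' (sd (lkF (bd I) M))) ((I \ M).card - 1) := by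
      apply sph_up hY hMI
      rw [lkF_bd hMI]
      exact sph_bd _ hIM
    have hdn : ∀ σ ∈ lkF (sd (bd M)) (c.erase M), ∀ x ∈ σ, x ⊂ M := by
      intro σ hσ x hx
      exact (hσ.2.1 x (Finset.mem_union_left _ hx)).1
    have hlk := lk_sd_max hY c hc M hM hmax
    refine ⟨by omega, ?_, ?_⟩
    · rw [hlk]
      refine sph_join' {B | B ⊂ M} hdn ?_ ih2 hup (by omega)
      intro σ hσ x hx hxM
      exact absurd (lt_trans (L_up_mem hσ hx) hxM) (lt_irrefl _)
    · intro A hAc hA f hn hp
      have hA' := hA.1 A (Finset.mem_insert_self _ _)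
      have hAM : A ≠ M := fun h => hAc (h ▸ hM)
      have hcmp : A ⊆ M ∨ M ⊆ A := by
        have h1 := hA
        rw [L_sd_eq] at h1
        exact h1.1 A (Finset.mem_insert_self _ _) M (Finset.mem_insert_of_mem hM)
      rw [hlk]
      rcases hcmp with h | h
      · -- below
        have hAM' : A ⊂ M := lt_of_le_of_ne h hAM
        have hins : ∀ B, B ∉ c.erase M → insert B (c.erase M) ∈ sd (bd M) →
            B ∉ c ∧ insert B c ∈ sd (bd I) := by
          intro B hB hBs
          have hB' := hBs.1 B (Finset.mem_insert_self _ _)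
          have hBM : B ⊂ M := hB'.1
          refine ⟨fun h1 => hB (Finset.mem_erase.mpr ⟨hBM.ne, h1⟩), ?_⟩
          refine B_insert_mem hc (lt_trans hBM hMI) hB'.2 ?_
          intro C hC
          by_cases hCM : C = M
          · left; rw [hCM]; exact hBM.subset
          · have h2 := hBs
            rw [L_sd_eq] at h2
            exact h2.1 B (Finset.mem_insert_self _ _) C
              (Finset.mem_insert_of_mem (Finset.mem_erase.mpr ⟨hCM, hC⟩))
        have hc3 : Coord (lkF (sd (bd M)) (c.erase M)) f (M.card - 1 - (c.erase M).card) := by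
          refine ih3 A (fun h1 => hAc (Finset.mem_of_mem_erase h1)) ?_ f hn ?_
          · refine B_insert_mem hcM hAM' hA'.2 ?_
            intro C hC
            have h1 := hA
            rw [L_sd_eq] at h1
            exact h1.1 A (Finset.mem_insert_self _ _) C
              (Finset.mem_insert_of_mem (Finset.mem_of_mem_erase hC))
          · intro B hB hBA hBs
            obtain ⟨h1, h2⟩ := hins B hB hBs
            exact hp B h1 hBA h2
        rw [join_comm]
        have h4 := Coord.join {B : Finset V | M ⊆ B} (fun σ hσ x hx => (L_up_mem hσ hx).subset)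
          (fun σ hσ x hx hxM => absurd (lt_of_lt_of_le (hdn σ hσ x hx) hxM) (lt_irrefl _)) hup hc3
        have e : (I \ M).card - 1 + (M.card - 1 - (c.erase M).card) = I.card - 1 - c.card := by
          omega
        rwa [e] at h4
      · -- above
        have hAM' : M ⊂ A := lt_of_le_of_ne h (Ne.symm hAM)
        have hAI : A ⊂ I := hA'.1
        have hc3 : Coord (sd (bd (I \ M))) (fun G => f (G ∪ M)) ((I \ M).card - 1) := by
          refine coord_sd_bd (I \ M) (A \ M) (Finset.sdiff_nonempty.mpr hAM'.2) ?_ _ ?_ ?_
          · obtain ⟨z, hz, hzA⟩ := Finset.exists_of_ssubset hAI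
            refine Finset.ssubset_iff_subset_ne.mpr
              ⟨Finset.sdiff_subset_sdiff hAI.subset (Finset.Subset.refl _), ?_⟩
            intro h1
            have hzM : z ∉ M := fun h2 => hzA (hAM'.subset h2)
            have : z ∈ A \ M := by rw [h1]; exact Finset.mem_sdiff.mpr ⟨hz, hzM⟩
            exact hzA (Finset.mem_sdiff.mp this).1
          · have e : A \ M ∪ M = A := Finset.sdiff_union_of_subset hAM'.subset
            simp only [e]
            exact hn
          · intro B hB hBI hBA
            have h2 : B ∈ lkF (bd I) M := by rw [lkF_bd hMI]; exact hBI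
            have hMB : M ⊂ B ∪ M := by
              refine lt_of_le_of_ne Finset.subset_union_right ?_
              intro h1
              obtain ⟨y, hy⟩ := hB
              have h3 : y ∈ M := by rw [h1]; exact Finset.mem_union_left _ hy
              exact Finset.disjoint_left.mp h2.1 hy h3
            apply hp
            · intro h1
              exact absurd (lt_of_lt_of_le hMB (hmax _ h1)) (lt_irrefl _)
            · intro h1
              apply hBA
              rw [← h1, Finset.union_sdiff_right, Finset.sdiff_eq_self_of_disjoint h2.1]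
            · refine B_insert_mem hc h2.2 (hB.mono Finset.subset_union_left) ?_
              intro C hC
              right
              exact (hmax C hC).trans Finset.subset_union_right
        rw [← lkF_bd hMI] at hc3
        have h4 := Coord.join {B : Finset V | B ⊂ M} hdn
          (fun σ hσ x hx hxM => absurd (lt_trans (L_up_mem hσ hx) hxM) (lt_irrefl _)) ih2
          (coord_up f hc3)
        have e : M.card - 1 - (c.erase M).card + ((I \ M).card - 1) = I.card - 1 - c.card := by
          omega
        rwa [e] at h4

theorem strong_sd_bd (I : Finset V) (hI : I.Nonempty) : Strong (sd (bd I)) (I.card - 1) := by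
  refine ⟨isCx_sd _, ?_⟩
  intro c hc
  exact B_key c.card I hI c hc rfl

end ThmB

end Pool.Agent.DF302A
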