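import Pool.Agent.Work.MP_df302a_co.ThmB

/-! # MP_df302a_co : Theorem B for deformations (expansions and collapses) -/

set_option autoImplicit false

namespace Pool.Agent.DF302A

open Finset

section ThmB2
variable {V : Type*} [Fintype V] [DecidableEq V]

/-- complexes that can be joined to a point by elementary expansions and collapses inside `Y` -/
inductive Defo (Y : Set (Finset V)) : Set (Finset V) → Prop
  | point (v : V) (hv : {v} ∈ Y) : Defo Y {∅, {v}}
  | up (K : Set (Finset V)) (E : Finset V) (x : V) (hK : Defo Y K) (hE : E ∈ Y) (hx : x ∈ E)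
      (h2 : 2 ≤ E.card) (hF : E.erase x ∉ K) (hy : ∀ y ∈ E, y ≠ x → E.erase y ∈ K) :
      Defo Y (insert (E.erase x) (insert E K))
  | down (K : Set (Finset V)) (E : Finset V) (x : V) (hc : IsCx K)
      (hK : Defo Y (insert (E.erase x) (insert E K))) (hx : x ∈ E)
      (h2 : 2 ≤ E.card) (hF : E.erase x ∉ K) (hy : ∀ y ∈ E, y ≠ x → E.erase y ∈ K) :
      Defo Y K

theorem Collap.defo {Y : Set (Finset V)} {K : Set (Finset V)} (hK : Collap Y K) : Defo Y K := by
  induction hK with
  | point v hv => exact Defo.point v hv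
  | step K E x hK hE hx h2 hF hy ih => exact Defo.up K E x ih hE hx h2 hF hy

/-- an elementary expansion of a complex is a complex -/
theorem isCx_expand {K : Set (Finset V)} (hK : IsCx K) (E : Finset V) (x : V)
    (hy : ∀ y ∈ E, y ≠ x → E.erase y ∈ K) : IsCx (insert (E.erase x) (insert E K)) := by
  obtain ⟨h0, hd⟩ := hK
  have hFK : ∀ τ : Finset V, τ ⊆ E.erase x →
      τ ∈ insert (E.erase x) (insert E K) := by
    intro τ hτ
    by_cases he : τ = E.erase x
    · rw [he]; exact Set.mem_insert _ _
    · have hss : τ ⊂ E.erase x := lt_of_le_of_ne hτ he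
      obtain ⟨y, hyE, hyτ⟩ := Finset.exists_of_ssubset hss
      have hyE' := Finset.mem_erase.mp hyE
      refine Set.mem_insert_of_mem _ (Set.mem_insert_of_mem _ ?_)
      refine hd _ (hy y hyE'.2 hyE'.1) τ ?_
      intro z hz
      refine Finset.mem_erase.mpr ⟨fun h => hyτ (h ▸ hz), ?_⟩
      exact Finset.mem_of_mem_erase (hτ hz)
  refine ⟨Set.mem_insert_of_mem _ (Set.mem_insert_of_mem _ h0), ?_⟩
  rintro σ (rfl | rfl | hσ) τ hτ
  · exact hFK τ hτ
  · by_cases he : τ = σ
    · rw [he]; exact Set.mem_insert_of_mem _ (Set.mem_insert _ _)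
    · by_cases hxτ : x ∈ τ
      · have hss : τ ⊂ σ := lt_of_le_of_ne hτ he
        obtain ⟨y, hyE, hyτ⟩ := Finset.exists_of_ssubset hss
        have hyx : y ≠ x := fun h => hyτ (h ▸ hxτ)
        refine Set.mem_insert_of_mem _ (Set.mem_insert_of_mem _ ?_)
        refine hd _ (hy y hyE hyx) τ ?_
        intro z hz
        exact Finset.mem_erase.mpr ⟨fun h => hyτ (h ▸ hz), hτ hz⟩
      · apply hFK
        intro z hz
        exact Finset.mem_erase.mpr ⟨fun h => hxτ (h ▸ hz), hτ hz⟩
  · exact Set.mem_insert_of_mem _ (Set.mem_insert_of_mem _ (hd σ hσ τ hτ))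

theorem Defo.isCx {Y : Set (Finset V)} (hY : IsCx Y) {K : Set (Finset V)} (hK : Defo Y K) :
    IsCx K ∧ K ⊆ Y := by
  induction hK with
  | point v hv => exact Collap.isCx hY (Collap.point v hv)
  | up K E x hK hE hx h2 hF hy ih =>
    refine ⟨isCx_expand ih.1 E x hy, ?_⟩
    rintro σ (rfl | rfl | hσ)
    · exact hY.2 E hE _ (Finset.erase_subset _ _)
    · exact hE
    · exact ih.2 hσ
  | down K E x hc hK hx h2 hF hy ih =>
    exact ⟨hc, fun σ hσ => ih.2 (Set.mem_insert_of_mem _ (Set.mem_insert_of_mem _ hσ))⟩

theorem Coord.vertex_iff {Q : Set (Finset V)} {f g : V → ℝ} {m m' : ℕ} (b : V)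
    (hl : Coord (lkF Q {b}) f m') (hg : ∀ x, x ≠ b → g x = f x) : Coord Q f m ↔ Coord Q g m := by
  constructor
  · intro h
    exact Coord.vertex' b h hl hg
  · intro h
    refine Coord.vertex' b h (hl.of_eq ?_) (fun x hx => (hg x hx).symm)
    intro s hs x hx
    refine (hg x ?_).symm
    rintro rfl
    exact (mem_lkF.mp hs).1 hx

/-- The sign pattern of `K` is a coordinate if and only if the one of the expansion is. -/
theorem B_step {Y : Set (Finset V)} {m : ℕ} (hY : Strong Y m) {K : Set (Finset V)} (hKc : IsCx K)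
    (E : Finset V) (x : V) (hE : E ∈ Y) (hx : x ∈ E) (h2 : 2 ≤ E.card) (hF : E.erase x ∉ K)
    (hy : ∀ y ∈ E, y ≠ x → E.erase y ∈ K) (f g : Finset V → ℝ)
    (hn : ∀ c ∈ K, c.Nonempty → g c < 0) (hp : ∀ c ∈ Y, c ∉ K → 0 < g c) (hfE : f E < 0)
    (hfg : ∀ c, c ≠ E → c ≠ E.erase x → f c = g c) :
    Coord (sd Y) f m ↔ Coord (sd Y) g m := by
  obtain ⟨hYc, hS⟩ := hY
  set F : Finset V := E.erase x with hFdef
  have hFcard : F.card = E.card - 1 := Finset.card_erase_of_mem hx
  have hFne : F.Nonempty := Finset.card_pos.mp (by omega)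
  have hEne : E.Nonempty := ⟨x, hx⟩
  have hFE : F ⊂ E := Finset.erase_ssubset hx
  have hFY : F ∈ Y := hYc.2 E hE F hFE.subset
  have hEK : E ∉ K := fun h => hF (hKc.2 E h F hFE.subset)
  have hxF : x ∉ F := Finset.notMem_erase x E
  have hK'c : IsCx (insert F (insert E K)) := isCx_expand hKc E x hy
  set f2 : Finset V → ℝ := Function.update f F (g F) with hf2
  have hf2E : f2 E = f E := by rw [hf2, Function.update_of_ne hFE.ne.symm]
  have s1 : Coord (sd Y) f m ↔ Coord (sd Y) f2 m := by
    have hins : insert x F = E := Finset.insert_erase hx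
    have h3 := (hS F hFY).2.2 x hxF (by rw [hins]; exact hE)
      (fun u => if u = x then (-(1 / 2) : ℝ) else 1) (by simp) (fun w _ hw _ => by simp [hw])
    have hc : Coord (sd (lkF Y F)) (fun G => f2 (G ∪ F)) (m - F.card) := by
      refine L_sd_only (isCx_lkF hYc hFY) x h3 _ ?_ ?_
      · have e : {x} ∪ F = E := by rw [← Finset.insert_eq, hins]
        simp only [e]
        rw [hf2E]
        exact hfE
      · intro B hB hBY hBx
        obtain ⟨hd, hu⟩ := hBY
        have hBF : B ∪ F ≠ F := by
          intro h
          obtain ⟨y, hyB⟩ := hB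
          have h1 : y ∈ F := by rw [← h]; exact Finset.mem_union_left _ hyB
          exact Finset.disjoint_left.mp hd hyB h1
        have hBE : B ∪ F ≠ E := by
          intro h
          apply hBx
          have h1 : (B ∪ F) \ F = E \ F := by rw [h]
          rw [Finset.union_sdiff_right, Finset.sdiff_eq_self_of_disjoint hd] at h1
          rw [h1, hFdef, Finset.sdiff_erase_self hx]
        rw [hf2, Function.update_of_ne hBF, hfg _ hBE hBF]
        apply hp _ hu
        intro h
        exact hF (hKc.2 _ h F Finset.subset_union_right)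
    have h5 := coord_lk_up hYc hFY hFne f2 (sph_sd_bd F hFne) hc
    refine (Coord.vertex_iff F h5 ?_).symm
    intro y hy'
    rw [hf2, Function.update_of_ne hy']
  have s2 : Coord (sd Y) g m ↔ Coord (sd Y) f2 m := by
    have hc : Coord (sd (bd E)) g (E.card - 1) := by
      have h3 : Coord (sd (bd E)) (fun B => - g B) (E.card - 1) := by
        refine coord_sd_bd E F hFne hFE _ ?_ ?_
        · change - g F < 0
          have := hp F hFY hF
          linarith
        · intro B hB hBE hBF
          have hBK : B ∈ K := by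
            have h4 : B ∈ insert F (insert E K) :=
              hK'c.2 E (Set.mem_insert_of_mem _ (Set.mem_insert _ _)) B hBE.subset
            rcases h4 with h | h | h
            · exact absurd h hBF
            · exact absurd h hBE.ne
            · exact h
          have := hn B hBK hB
          linarith
      have h4 := Coord.neg h3
      simpa only [neg_neg] using h4
    have h5 := coord_lk_dn hYc hE hEne g hc (hS E hE).2.1
    refine Coord.vertex_iff E h5 ?_
    intro y hy'
    by_cases hyF : y = F
    · rw [hyF, hf2, Function.update_self]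
    · rw [hf2, Function.update_of_ne hyF]
      exact hfg y hy' hyF
  exact s1.trans s2.symm

/-- Theorem B for deformations -/
theorem thmB2 {Y : Set (Finset V)} {m : ℕ} (hY : Strong Y m) {K : Set (Finset V)}
    (hK : Defo Y K) (f : Finset V → ℝ) (hn : ∀ c ∈ K, c.Nonempty → f c < 0)
    (hp : ∀ c ∈ Y, c ∉ K → 0 < f c) : Coord (sd Y) f m := by
  induction hK generalizing f with
  | point v hv => exact thmB hY (Collap.point v hv) f hn hp
  | up K E x hK hE hx h2 hF hy ih =>
    have hKc := Defo.isCx hY.1 hK
    have hEK : E ∉ K := fun h => hF (hKc.1.2 E h _ (Finset.erase_subset _ _))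
    have hEne : E.Nonempty := ⟨x, hx⟩
    set g : Finset V → ℝ := Function.update (Function.update f (E.erase x) 1) E 1 with hg
    have hgK : ∀ c ∈ K, g c = f c := by
      intro c hc
      have h1 : c ≠ E := fun h => hEK (h ▸ hc)
      have h2' : c ≠ E.erase x := fun h => hF (h ▸ hc)
      rw [hg, Function.update_of_ne h1, Function.update_of_ne h2']
    have hgn : ∀ c ∈ K, c.Nonempty → g c < 0 := by
      intro c hc hcne
      rw [hgK c hc]
      exact hn c (Set.mem_insert_of_mem _ (Set.mem_insert_of_mem _ hc)) hcne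
    have hgp : ∀ c ∈ Y, c ∉ K → 0 < g c := by
      intro c hc hcK
      by_cases h1 : c = E
      · rw [h1, hg, Function.update_self]; exact one_pos
      · by_cases h3 : c = E.erase x
        · rw [hg, Function.update_of_ne h1, h3, Function.update_self]; exact one_pos
        · rw [hg, Function.update_of_ne h1, Function.update_of_ne h3]
          apply hp c hc
          rintro (h | h | h)
          · exact h3 h
          · exact h1 h
          · exact hcK h
    refine (B_step hY hKc.1 E x hE hx h2 hF hy f g hgn hgp ?_ ?_).mpr (ih g hgn hgp)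
    · exact hn E (Set.mem_insert_of_mem _ (Set.mem_insert _ _)) hEne
    · intro c h1 h3
      rw [hg, Function.update_of_ne h1, Function.update_of_ne h3]
  | down K E x hc hK hx h2 hF hy ih =>
    have hK'c := Defo.isCx hY.1 hK
    have hE : E ∈ Y := hK'c.2 (Set.mem_insert_of_mem _ (Set.mem_insert _ _))
    have hFE : E.erase x ⊂ E := Finset.erase_ssubset hx
    set g : Finset V → ℝ := Function.update (Function.update f (E.erase x) (-1)) E (-1) with hg
    have hgE : g E = -1 := by rw [hg, Function.update_self]
    have hgF : g (E.erase x) = -1 := by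
      rw [hg, Function.update_of_ne hFE.ne, Function.update_self]
    have hgo : ∀ c, c ≠ E → c ≠ E.erase x → g c = f c := by
      intro c h1 h3
      rw [hg, Function.update_of_ne h1, Function.update_of_ne h3]
    refine (B_step hY hc E x hE hx h2 hF hy g f hn hp (by rw [hgE]; norm_num) hgo).mp
      (ih g ?_ ?_)
    · intro c hcK hcne
      by_cases h1 : c = E
      · rw [h1, hgE]; norm_num
      · by_cases h3 : c = E.erase x
        · rw [h3, hgF]; norm_num
        · rw [hgo c h1 h3]
          rcases hcK with h | h | h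
          · exact absurd h h3
          · exact absurd h h1
          · exact hn c h hcne
    · intro c hcY hcK
      have h1 : c ≠ E := fun h => hcK (h ▸ Set.mem_insert_of_mem _ (Set.mem_insert _ _))
      have h3 : c ≠ E.erase x := fun h => hcK (h ▸ Set.mem_insert _ _)
      rw [hgo c h1 h3]
      exact hp c hcY (fun h => hcK (Set.mem_insert_of_mem _ (Set.mem_insert_of_mem _ h)))

end ThmB2

end Pool.Agent.DF302A
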