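import Mathlib

/-! # MP_df302a_co : lists of digits, ranges and tables for checks by the kernel.

All the functions which the kernel has to evaluate are defined by recursors, so that the evaluation
is fast. -/

set_option autoImplicit false

namespace Pool.Agent.DF302A

open Finset

/-! ### the functions evaluated by the kernel -/

/-- the code of the image of a chain under a map of the digits -/
noncomputable def img (pm : ℕ → ℕ) (f : ℕ) : ℕ → ℕ :=
  Nat.rec (fun _ => 0) (fun _ ih c =>
    cond (Nat.beq c 0) 0 (Nat.add (pm (Nat.mod c 1024)) (Nat.mul 1024 (ih (Nat.div c 1024))))) f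

/-- check on the range `[i, i + 2 ^ k)` -/
noncomputable def allR (f : ℕ → Bool) (k : ℕ) : ℕ → Bool :=
  Nat.rec (fun i => f i) (fun k ih i => cond (ih i) (ih (Nat.add i (Nat.pow 2 k))) false) k

/-! ### lists of digits -/

/-- numerical value of a list of digits in base `1024` -/
def enc : List ℕ → ℕ
  | [] => 0
  | a :: l => a + 1024 * enc l

/-- digits in base `1024` -/
def dl : ℕ → ℕ → List ℕ
  | 0, _ => []
  | f + 1, c => if c = 0 then [] else c % 1024 :: dl f (c / 1024)

theorem dl_zero (f : ℕ) : dl f 0 = [] := by
  cases f with
  | zero => rfl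
  | succ f => rfl

theorem dl_succ (f : ℕ) {c : ℕ} (h : c ≠ 0) : dl (f + 1) c = c % 1024 :: dl f (c / 1024) := by
  show (if c = 0 then [] else c % 1024 :: dl f (c / 1024)) = _
  rw [if_neg h]

/-- the digits of the number with digits `l`, if the last digit is not zero -/
theorem dl_enc : ∀ (f : ℕ) (l : List ℕ), l.length ≤ f → (∀ a ∈ l, a < 1024) →
    (∀ h : l ≠ [], l.getLast h ≠ 0) → dl f (enc l) = l := by
  intro f
  induction f with
  | zero =>
    intro l h1 _ _
    have : l = [] := List.eq_nil_of_length_eq_zero (by omega)
    subst this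
    rfl
  | succ f ih =>
    intro l h1 h2 h3
    cases l with
    | nil => rfl
    | cons a l =>
      have ha : a < 1024 := h2 a (by simp)
      have e : enc (a :: l) = a + 1024 * enc l := rfl
      have hl : dl f (enc l) = l := by
        refine ih l (by simpa using h1) (fun b hb => h2 b (by simp [hb])) fun h => ?_
        have := h3 (by simp)
        rwa [List.getLast_cons h] at this
      have hne : enc (a :: l) ≠ 0 := by
        intro h0
        rw [e] at h0
        have h4 : enc l = 0 := by omega
        rw [h4, dl_zero] at hl
        subst hl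
        have := h3 (by simp)
        simp at this
        omega
      rw [dl_succ f hne, e, show (a + 1024 * enc l) % 1024 = a by omega,
        show (a + 1024 * enc l) / 1024 = enc l by omega, hl]

theorem enc_dl : ∀ (f c : ℕ), c < 1024 ^ f → enc (dl f c) = c := by
  intro f
  induction f with
  | zero =>
    intro c h
    have : c = 0 := by simpa using h
    subst this
    rfl
  | succ f ih =>
    intro c h
    by_cases hc : c = 0
    · subst hc; rfl
    · rw [dl_succ f hc]
      show c % 1024 + 1024 * enc (dl f (c / 1024)) = c
      rw [ih (c / 1024) (by rw [pow_succ] at h; exact Nat.div_lt_of_lt_mul (by linarith))]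
      omega

theorem length_dl : ∀ (f c : ℕ), (dl f c).length ≤ f := by
  intro f
  induction f with
  | zero => intro c; exact le_rfl
  | succ f ih =>
    intro c
    by_cases hc : c = 0
    · subst hc; exact Nat.zero_le _
    · rw [dl_succ f hc]
      have := ih (c / 1024)
      show (dl f (c / 1024)).length + 1 ≤ f + 1
      omega

theorem dl_lt : ∀ (f c : ℕ), ∀ a ∈ dl f c, a < 1024 := by
  intro f
  induction f with
  | zero => intro c a ha; exact absurd ha (by simp [dl])
  | succ f ih =>
    intro c a ha
    by_cases hc : c = 0
    · subst hc; exact absurd ha (by simp [dl])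
    · rw [dl_succ f hc] at ha
      rcases List.mem_cons.1 ha with rfl | ha
      · exact Nat.mod_lt _ (by norm_num)
      · exact ih _ a ha

theorem dl_last : ∀ (f c : ℕ), c < 1024 ^ f → ∀ h : dl f c ≠ [], (dl f c).getLast h ≠ 0 := by
  intro f
  induction f with
  | zero => intro c _ h; exact absurd rfl h
  | succ f ih =>
    intro c hc h
    by_cases h0 : c = 0
    · subst h0; exact absurd rfl h
    · have hlt : c / 1024 < 1024 ^ f := by
        rw [pow_succ] at hc; exact Nat.div_lt_of_lt_mul (by linarith)
      by_cases h1 : dl f (c / 1024) = []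
      · have h2 := enc_dl f _ hlt
        rw [h1] at h2
        have h3 : c / 1024 = 0 := h2.symm
        have e : dl (f + 1) c = [c % 1024] := by rw [dl_succ f h0, h1]
        simp only [e, List.getLast_singleton]
        omega
      · have e := dl_succ f h0
        have h2 := ih _ hlt h1
        have h3 : (dl (f + 1) c).getLast h = (dl f (c / 1024)).getLast h1 := by
          simp only [e]
          exact List.getLast_cons h1
        rw [h3]
        exact h2

theorem lt_length_dl : ∀ (f c p : ℕ), c < 1024 ^ f → 1024 ^ p ≤ c → p < (dl f c).length := by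
  intro f
  induction f with
  | zero =>
    intro c p h1 h2
    have h3 : 0 < 1024 ^ p := Nat.pos_of_ne_zero (by positivity)
    simp at h1
    omega
  | succ f ih =>
    intro c p h1 h2
    have h3 : 0 < 1024 ^ p := Nat.pos_of_ne_zero (by positivity)
    rw [dl_succ f (by omega)]
    cases p with
    | zero => simp
    | succ p =>
      have := ih (c / 1024) p (by rw [pow_succ] at h1; exact Nat.div_lt_of_lt_mul (by linarith))
        (by rw [Nat.le_div_iff_mul_le (by norm_num)]; rw [pow_succ] at h2; exact h2)
      simpa using this

theorem enc_eraseIdx : ∀ (l : List ℕ) (q : ℕ), (∀ a ∈ l, a < 1024) →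
    enc (l.eraseIdx q) = enc l % 1024 ^ q + enc l / 1024 ^ (q + 1) * 1024 ^ q := by
  intro l
  induction l with
  | nil => intro q _; simp [enc]
  | cons a l ih =>
    intro q h
    have ha : a < 1024 := h a (by simp)
    have e : enc (a :: l) = a + 1024 * enc l := rfl
    cases q with
    | zero =>
      show enc l = _
      rw [e]
      simp only [pow_zero, Nat.mod_one, zero_add, pow_one, mul_one]
      omega
    | succ q =>
      have e2 : enc ((a :: l).eraseIdx (q + 1)) = a + 1024 * enc (l.eraseIdx q) := rfl
      rw [e2, ih q (fun b hb => h b (by simp [hb])), e]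
      have e3 : (1024 : ℕ) ^ (q + 1) = 1024 * 1024 ^ q := by rw [pow_succ]; ring
      have e4 : (1024 : ℕ) ^ (q + 1 + 1) = 1024 * 1024 ^ (q + 1) := by rw [pow_succ]; ring
      have e5 : (a + 1024 * enc l) % 1024 ^ (q + 1) = a + 1024 * (enc l % 1024 ^ q) := by
        rw [e3, Nat.mod_mul]
        have h1 : (a + 1024 * enc l) % 1024 = a := by omega
        have h2 : (a + 1024 * enc l) / 1024 = enc l := by omega
        rw [h1, h2]
      have e6 : (a + 1024 * enc l) / 1024 ^ (q + 1 + 1) = enc l / 1024 ^ (q + 1) := by
        rw [e4, ← Nat.div_div_eq_div_mul]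
        have h2 : (a + 1024 * enc l) / 1024 = enc l := by omega
        rw [h2]
      rw [e5, e6, e3]
      ring

/-- the facet without the digit number `q` -/
def fc (c q : ℕ) : ℕ := enc ((dl 8 c).eraseIdx q)

theorem img_spec (pm : ℕ → ℕ) : ∀ (f c : ℕ), img pm f c = enc ((dl f c).map pm) := by
  intro f
  induction f with
  | zero => intro c; rfl
  | succ f ih =>
    intro c
    have e : img pm (f + 1) c = cond (Nat.beq c 0) 0
      (Nat.add (pm (Nat.mod c 1024)) (Nat.mul 1024 (img pm f (Nat.div c 1024)))) := rfl
    by_cases hc : c = 0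
    · subst hc; rfl
    · have hb : Nat.beq c 0 = false := by
        cases c with
        | zero => exact absurd rfl hc
        | succ n => rfl
      rw [e, hb, cond_false, ih, dl_succ f hc]
      rfl

/-! ### ranges -/

theorem allR_spec (f : ℕ → Bool) : ∀ (k i : ℕ), allR f k i = true →
    ∀ j, i ≤ j → j < i + 2 ^ k → f j = true := by
  intro k
  induction k with
  | zero =>
    intro i h j h1 h2
    have : j = i := by simp at h2; omega
    subst this
    exact h
  | succ k ih =>
    intro i h j h1 h2
    have e0 : allR f (k + 1) i = cond (allR f k i) (allR f k (Nat.add i (Nat.pow 2 k))) false := rfl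
    rw [e0, Bool.cond_false_right, Bool.and_eq_true] at h
    have e : (2 : ℕ) ^ (k + 1) = 2 ^ k + 2 ^ k := by ring
    by_cases hj : j < i + 2 ^ k
    · exact ih i h.1 j h1 hj
    · refine ih _ h.2 j ?_ ?_
      · show i + 2 ^ k ≤ j
        omega
      · show j < i + 2 ^ k + 2 ^ k
        omega

/-- the chunk number `j` of the check `f` for all numbers below `n` -/
noncomputable def chunk (f : ℕ → Bool) (n k j : ℕ) : Bool :=
  allR (fun i => cond (Nat.ble n i) true (f i)) k (Nat.mul j (Nat.pow 2 k))

theorem of_chunks (f : ℕ → Bool) (n k J : ℕ) (hn : n ≤ J * 2 ^ k)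
    (h : ∀ j, j < J → chunk f n k j = true) : ∀ i, i < n → f i = true := by
  intro i hi
  have h1 : i / 2 ^ k < J := by
    rw [Nat.div_lt_iff_lt_mul (by positivity)]
    omega
  have h2 := allR_spec _ k _ (h _ h1) i (Nat.div_mul_le_self i (2 ^ k)) (by
    have := Nat.lt_div_mul_add (a := i) (b := 2 ^ k) (by positivity)
    exact this)
  rw [Bool.cond_true_left, Bool.or_eq_true, Nat.ble_eq] at h2
  rcases h2 with h2 | h2
  · omega
  · exact h2

/-! ### reading the data -/

/-- list access -/
noncomputable def getr (L : List ℕ) : ℕ → ℕ :=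
  List.rec (fun _ => 0) (fun a _ f k => Nat.rec a (fun k _ => f k) k) L

/-- list access -/
noncomputable def getr2 (L : List (List ℕ)) : ℕ → List ℕ :=
  List.rec (fun _ => []) (fun a _ f k => Nat.rec a (fun k _ => f k) k) L

/-- concatenation of blocks of `w` bits -/
noncomputable def joinL (w : ℕ) (L : List ℕ) : ℕ :=
  List.rec 0 (fun a _ r => Nat.add a (Nat.mul (Nat.pow 2 w) r)) L

/-- entry number `i` of width `w` bits, `1024` entries in each block, `8` blocks in each list -/
noncomputable def rdw (T : List (List ℕ)) (w i : ℕ) : ℕ :=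
  Nat.land (Nat.shiftRight (getr (getr2 T (Nat.div i 8192)) (Nat.mod (Nat.div i 1024) 8))
    (Nat.mul w (Nat.mod i 1024))) (Nat.sub (Nat.pow 2 w) 1)

end Pool.Agent.DF302A
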